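import Pool.Agent.PLim.Targets

set_option autoImplicit false

/-!
# BIG: large parameters have large multipliers
-/

open Complex Filter Topology Set MeasureTheory
open Pool.Agent.Multibrot Pool.Agent.Limb

namespace Pool.Agent.PLim

namespace BIG_

lemma hasDerivAt_F (n : ℕ) (c z : ℂ) : HasDerivAt (F n c) (n * z ^ (n - 1)) z := by
  unfold F
  exact (hasDerivAt_pow n z).add_const c

/-- the derivative of an iterate -/
lemma hasDerivAt_iter (n : ℕ) (c z : ℂ) (k : ℕ) :
    HasDerivAt ((F n c)^[k]) (∏ j ∈ Finset.range k, (n * ((F n c)^[j] z) ^ (n - 1))) z := by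
  induction k with
  | zero =>
    simp only [Function.iterate_zero, Finset.range_zero, Finset.prod_empty]
    exact hasDerivAt_id z
  | succ k ih =>
    rw [Function.iterate_succ', Finset.prod_range_succ, mul_comm]
    exact (hasDerivAt_F n c _).comp z ih

lemma norm_Rho (n k : ℕ) (c z : ℂ) :
    ‖Rho n k c z‖ = ∏ j ∈ Finset.range k, (n * ‖(F n c)^[j] z‖ ^ (n - 1)) := by
  unfold Rho
  rw [(hasDerivAt_iter n c z k).deriv, norm_prod]
  refine Finset.prod_congr rfl fun j _ => ?_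
  rw [norm_mul, norm_pow, Complex.norm_natCast]

/-- the points of the cycle are small -/
lemma small {n k : ℕ} {c z : ℂ} (hn : 2 ≤ n) (hk : 1 ≤ k) (hc : 16 ≤ ‖c‖)
    (hz : (F n c)^[k] z = z) : ∀ j, ‖(F n c)^[j] z‖ ≤ ‖c‖ / 2 := by
  have hper : ∀ j, (F n c)^[j] z = (F n c)^[j % k] z := by
    intro j
    have : Function.IsPeriodicPt (F n c) k z := hz
    exact (this.iterate_mod_apply j).symm
  obtain ⟨j0, hj0, hmax⟩ := Finset.exists_max_image (Finset.range k)
    (fun j => ‖(F n c)^[j] z‖) ⟨0, Finset.mem_range.mpr hk⟩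
  have hmax' : ∀ j, ‖(F n c)^[j] z‖ ≤ ‖(F n c)^[j0] z‖ := by
    intro j
    rw [hper j]
    exact hmax _ (Finset.mem_range.mpr (Nat.mod_lt _ hk))
  set R := ‖(F n c)^[j0] z‖ with hR
  have h1 : R ^ n ≤ R + ‖c‖ := by
    have h2 : ((F n c)^[j0] z) ^ n = (F n c)^[j0 + 1] z - c := by
      rw [Function.iterate_succ_apply']
      unfold F
      ring
    rw [hR, ← norm_pow, h2]
    exact (norm_sub_le _ _).trans (add_le_add (hmax' _) le_rfl)
  have h3 : R ≤ ‖c‖ / 2 := by
    by_contra h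
    rw [not_le] at h
    have h4 : 8 < R := by linarith
    have h5 : R ^ 2 ≤ R ^ n := pow_le_pow_right₀ (by linarith) hn
    nlinarith
  exact fun j => (hmax' j).trans h3

lemma factor {n k : ℕ} {c z : ℂ} (hn : 2 ≤ n) (hk : 1 ≤ k) (hc : 16 ≤ ‖c‖)
    (hz : (F n c)^[k] z = z) (j : ℕ) : 5 ≤ n * ‖(F n c)^[j] z‖ ^ (n - 1) := by
  have hs := small hn hk hc hz (j + 1)
  set r := ‖(F n c)^[j] z‖ with hr
  have h0 : 0 ≤ r := norm_nonneg _
  have h1 : 8 ≤ r ^ n := by
    have h2 : ((F n c)^[j] z) ^ n = (F n c)^[j + 1] z - c := by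
      rw [Function.iterate_succ_apply']
      unfold F
      ring
    rw [hr, ← norm_pow, h2, norm_sub_rev]
    have := norm_sub_norm_le c ((F n c)^[j + 1] z)
    linarith
  have h2 : 1 ≤ r := by
    by_contra h
    rw [not_le] at h
    have : r ^ n ≤ 1 := pow_le_one₀ h0 h.le
    linarith
  have h3 : 8 ≤ (r ^ (n - 1)) ^ 2 := by
    rw [← pow_mul]
    exact h1.trans (pow_le_pow_right₀ h2 (by omega))
  have h4 : 5 / 2 ≤ r ^ (n - 1) := by
    have : 0 ≤ r ^ (n - 1) := by positivity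
    nlinarith
  have h5 : (2 : ℝ) ≤ n := by exact_mod_cast hn
  nlinarith

end BIG_

open BIG_ in
theorem p_BIG : T_BIG := by
  intro n k c z hn hk hc hz
  rw [norm_Rho]
  have h1 : (5 : ℝ) ^ k ≤ ∏ j ∈ Finset.range k, (n * ‖(F n c)^[j] z‖ ^ (n - 1)) := by
    have := Finset.prod_le_prod (s := Finset.range k) (f := fun _ => (5 : ℝ))
      (g := fun j => (n * ‖(F n c)^[j] z‖ ^ (n - 1))) (fun _ _ => by norm_num)
      (fun j _ => factor hn hk hc hz j)
    rwa [Finset.prod_const, Finset.card_range] at this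
  have h2 : (5 : ℝ) ^ 1 ≤ 5 ^ k := pow_le_pow_right₀ (by norm_num) hk
  have h3 := Real.exp_one_lt_d9
  linarith

end Pool.Agent.PLim
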