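import Pool.Agent.PLim.Targets

/-!
# PLIM, LOCZ: local continuation of fixed points
-/

set_option autoImplicit false

open Complex Filter Topology Set
open Pool.Agent.Multibrot Pool.Agent.Limb

namespace Pool.Agent.PLim

namespace LOCZ_

theorem iter_contDiff (n k : ℕ) :
    ContDiff ℂ 1 (fun p : ℂ × ℂ => (F n p.1)^[k] p.2) := by
  induction k with
  | zero => exact contDiff_snd
  | succ k ih =>
    have h : (fun p : ℂ × ℂ => (F n p.1)^[k + 1] p.2) =
        fun p : ℂ × ℂ => ((F n p.1)^[k] p.2) ^ n + p.1 := by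
      funext p
      rw [Function.iterate_succ_apply']
      rfl
    rw [h]
    exact (ih.pow n).add contDiff_fst

/-- the linear equivalence `(x, y) ↦ (x, A x + B y)` -/
noncomputable def eqv (A B : ℂ) (hB : B ≠ 0) : (ℂ × ℂ) ≃L[ℂ] (ℂ × ℂ) :=
  ContinuousLinearEquiv.equivOfInverse
    ((ContinuousLinearMap.fst ℂ ℂ ℂ).prod
      (A • ContinuousLinearMap.fst ℂ ℂ ℂ + B • ContinuousLinearMap.snd ℂ ℂ ℂ))
    ((ContinuousLinearMap.fst ℂ ℂ ℂ).prod
      (B⁻¹ • ContinuousLinearMap.snd ℂ ℂ ℂ - (B⁻¹ * A) • ContinuousLinearMap.fst ℂ ℂ ℂ))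
    (by
      rintro ⟨x, y⟩
      simp only [ContinuousLinearMap.prod_apply, ContinuousLinearMap.coe_fst',
        add_apply, sub_apply,
        smul_apply, ContinuousLinearMap.coe_snd', smul_eq_mul, Prod.mk.injEq,
        true_and]
      field_simp
      ring)
    (by
      rintro ⟨x, y⟩
      simp only [ContinuousLinearMap.prod_apply, ContinuousLinearMap.coe_fst',
        add_apply, sub_apply,
        smul_apply, ContinuousLinearMap.coe_snd', smul_eq_mul, Prod.mk.injEq,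
        true_and]
      field_simp
      ring)

end LOCZ_

open LOCZ_ in
/-- LOCZ: local continuation of fixed points. -/
theorem p_LOCZ : T_LOCZ := by
  intro n k c0 z0 R hn hR hfix hrho
  set Φ : ℂ × ℂ → ℂ := fun p => (F n p.1)^[k] p.2 - p.2 with hΦ
  set Ψ : ℂ × ℂ → ℂ × ℂ := fun p => (p.1, Φ p) with hΨ
  have hΦc : ContDiff ℂ 1 Φ := (iter_contDiff n k).sub contDiff_snd
  have hΨc : ContDiff ℂ 1 Ψ := contDiff_fst.prodMk hΦc
  have hΦd : HasFDerivAt Φ (fderiv ℂ Φ (c0, z0)) (c0, z0) :=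
    (hΦc.differentiable one_ne_zero _).hasFDerivAt
  set A := fderiv ℂ Φ (c0, z0) (1, 0) with hA
  set B := fderiv ℂ Φ (c0, z0) (0, 1) with hB
  have hBval : B = Rho n k c0 z0 - 1 := by
    have h1 : HasDerivAt (fun z : ℂ => Φ (c0, z)) B z0 := by
      have h2 : HasDerivAt (fun z : ℂ => ((c0, z) : ℂ × ℂ)) (0, 1) z0 :=
        (hasDerivAt_const z0 c0).prodMk (hasDerivAt_id z0)
      exact hΦd.comp_hasDerivAt z0 h2
    have h3 : DifferentiableAt ℂ ((F n c0)^[k]) z0 := by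
      have h4 : ContDiff ℂ 1 (fun z : ℂ => (F n c0)^[k] z) :=
        (iter_contDiff n k).comp (contDiff_const.prodMk contDiff_id)
      exact h4.differentiable one_ne_zero _
    have h5 : HasDerivAt (fun z : ℂ => (F n c0)^[k] z - z) (Rho n k c0 z0 - 1) z0 :=
      h3.hasDerivAt.sub (hasDerivAt_id z0)
    exact h1.unique h5
  have hB0 : B ≠ 0 := by
    rw [hBval]
    exact sub_ne_zero.mpr hrho
  have hfd : fderiv ℂ Φ (c0, z0) =
      A • ContinuousLinearMap.fst ℂ ℂ ℂ + B • ContinuousLinearMap.snd ℂ ℂ ℂ := by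
    refine ContinuousLinearMap.ext fun p => ?_
    obtain ⟨x, y⟩ := p
    have h1 : ((x, y) : ℂ × ℂ) = x • ((1, 0) : ℂ × ℂ) + y • ((0, 1) : ℂ × ℂ) := by
      simp
    rw [h1, map_add, map_smul, map_smul]
    simp only [add_apply, smul_apply,
      ContinuousLinearMap.coe_fst', ContinuousLinearMap.coe_snd', smul_eq_mul, ← hA, ← hB]
    simp
    ring
  have hΨd : HasFDerivAt Ψ ((eqv A B hB0 : (ℂ × ℂ) ≃L[ℂ] (ℂ × ℂ)) : (ℂ × ℂ) →L[ℂ] (ℂ × ℂ))
      (c0, z0) := by
    have h1 : HasFDerivAt Ψ ((ContinuousLinearMap.fst ℂ ℂ ℂ).prod (fderiv ℂ Φ (c0, z0)))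
        (c0, z0) := hasFDerivAt_fst.prodMk hΦd
    rw [hfd] at h1
    exact h1
  have hΨ0 : Ψ (c0, z0) = (c0, 0) := by
    simp only [hΨ, hΦ, hfix, sub_self]
  set e := hΨc.contDiffAt.toOpenPartialHomeomorph Ψ hΨd one_ne_zero with he
  have hecoe : ∀ p, e p = Ψ p := fun p => rfl
  have hsrc : (c0, z0) ∈ e.source :=
    ContDiffAt.mem_toOpenPartialHomeomorph_source hΨc.contDiffAt hΨd one_ne_zero
  have htgt : (c0, (0 : ℂ)) ∈ e.target := by
    have := ContDiffAt.image_mem_toOpenPartialHomeomorph_target hΨc.contDiffAt hΨd one_ne_zero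
    rwa [hΨ0] at this
  have hsymm0 : e.symm (c0, 0) = (c0, z0) := by
    rw [← hΨ0, ← hecoe, e.left_inv hsrc]
  have hsd : ContDiffAt ℂ 1 e.symm (c0, 0) := by
    refine e.contDiffAt_symm htgt (f₀' := eqv A B hB0) ?_ ?_
    · rw [hsymm0]
      exact hΨd
    · rw [hsymm0]
      exact hΨc.contDiffAt
  set zf : ℂ → ℂ := fun c => (e.symm (c, 0)).2 with hzf
  have hzd : ContDiffAt ℂ 1 zf c0 := by
    have h1 : ContDiffAt ℂ 1 (fun c : ℂ => ((c, 0) : ℂ × ℂ)) c0 :=
      contDiffAt_id.prodMk contDiffAt_const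
    have h2 : ContDiffAt ℂ 1 (fun c : ℂ => e.symm (c, 0)) c0 := hsd.comp c0 h1
    exact contDiffAt_snd.comp c0 h2
  have hz0 : zf c0 = z0 := by
    simp only [hzf, hsymm0]
  obtain ⟨ε, hε, hball⟩ := Metric.isOpen_iff.mp e.open_source _ hsrc
  rw [← ball_prod_same] at hball
  have hev1 : ∀ᶠ c in 𝓝 c0, DifferentiableAt ℂ zf c :=
    (hzd.eventually (by simp)).mono fun c hc => hc.differentiableAt one_ne_zero
  have hev2 : ∀ᶠ c in 𝓝 c0, ((c, 0) : ℂ × ℂ) ∈ e.target := by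
    have h1 : Continuous (fun c : ℂ => ((c, 0) : ℂ × ℂ)) := by fun_prop
    exact h1.continuousAt.eventually (e.open_target.mem_nhds htgt)
  have hr : 0 < min ε R := lt_min hε hR
  have hev3 : ∀ᶠ c in 𝓝 c0, zf c ∈ Metric.ball z0 (min ε R) := by
    refine hzd.continuousAt.eventually ?_
    rw [hz0]
    exact Metric.ball_mem_nhds _ hr
  obtain ⟨δ', hδ', hδball⟩ := Metric.eventually_nhds_iff_ball.mp (hev1.and (hev2.and hev3))
  refine ⟨min δ' (min ε R), min ε R, zf, ?_, min_le_right _ _, ?_⟩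
  · exact (min_le_right _ _).trans (min_le_right _ _)
  have hin : ∀ c ∈ Metric.ball c0 (min δ' (min ε R)), c ∈ Metric.ball c0 δ' := fun c hc =>
    Metric.ball_subset_ball (min_le_left _ _) hc
  have hinε : ∀ c ∈ Metric.ball c0 (min δ' (min ε R)), c ∈ Metric.ball c0 ε := fun c hc =>
    Metric.ball_subset_ball ((min_le_right _ _).trans (min_le_left _ _)) hc
  have hinv : ∀ c ∈ Metric.ball c0 (min δ' (min ε R)), Ψ (e.symm (c, 0)) = (c, 0) :=
    fun c hc => by
      rw [← hecoe]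
      exact e.right_inv (hδball c (hin c hc)).2.1
  refine ⟨lt_min hδ' hr, hr, hz0, ?_, ?_, ?_, ?_⟩
  · exact fun c hc => (hδball c (hin c hc)).1.differentiableWithinAt
  · exact fun c hc => (hδball c (hin c hc)).2.2
  · intro c hc
    have h1 := hinv c hc
    have h2 : (e.symm (c, 0)).1 = c := congrArg Prod.fst h1
    have h3 : Φ (e.symm (c, 0)) = 0 := congrArg Prod.snd h1
    simp only [hΦ, h2] at h3
    exact sub_eq_zero.mp h3
  · intro c hc z hz hzfix
    have h1 : ((c, z) : ℂ × ℂ) ∈ e.source :=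
      hball ⟨hinε c hc, Metric.ball_subset_ball (min_le_left _ _) hz⟩
    have h2 : Ψ (c, z) = (c, 0) := by
      simp only [hΨ, hΦ, hzfix, sub_self]
    have h3 : e.symm (c, 0) = (c, z) := by
      rw [← h2, ← hecoe, e.left_inv h1]
    simp only [hzf, h3]

end Pool.Agent.PLim
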