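import Pool.Agent.PLim.Defs

/-!
# PLIM: targets, batch 1 (see Blueprint.lean.txt for the proofs)
-/

set_option autoImplicit false

open Complex Filter Topology Set MeasureTheory
open Pool.Agent.Multibrot Pool.Agent.Limb

namespace Pool.Agent.PLim

/-! ### GA. general analysis -/

/-- KOEB: a cheap Koebe theorem. -/
def T_KOEB : Prop := ∀ (a : ℂ) (R : ℝ) (g : ℂ → ℂ), 0 < R →
  DifferentiableOn ℂ g (Metric.ball a R) → InjOn g (Metric.ball a R) →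
  (∀ x ∈ Metric.ball a R, g x ≠ 0) → ‖deriv g a‖ * R ≤ 64 * ‖g a‖

/-- DISP1: displacement and area. -/
def T_DISP1 : Prop := ∀ (a : ℂ) (r : ℝ) (f : ℂ → ℂ), 0 < r →
  DifferentiableOn ℂ f (Metric.ball a (2 * r)) →
  ∀ x ∈ Metric.ball a r, ∀ y ∈ Metric.ball a r,
    ENNReal.ofReal (‖f x - f y‖ ^ 2) ≤
      ENNReal.ofReal (4 / Real.pi) * ∫⁻ u in Metric.ball a (2 * r), ‖deriv f u‖ₑ ^ 2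

/-- WSEG (from DISP1): displacement along one level of a wedge. -/
def T_WSEG : Prop := ∀ n : ℕ, 2 ≤ n → ∃ C : ℝ, 0 < C ∧ ∀ (t y : ℝ) (f : ℂ → ℂ), 0 < t →
  DifferentiableOn ℂ f {ξ : ℂ | t / 2 < ξ.re ∧ ξ.re < 2 * n * t ∧ |ξ.im - y| < ξ.re} →
  ENNReal.ofReal (‖f ((n * t : ℝ) + y * I) - f ((t : ℝ) + y * I)‖ ^ 2) ≤
    ENNReal.ofReal C * ∫⁻ u in {ξ : ℂ | t / 2 < ξ.re ∧ ξ.re < 2 * n * t ∧ |ξ.im - y| < ξ.re},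
      ‖deriv f u‖ₑ ^ 2

/-- CHV: change of variables. -/
def T_CHV : Prop := ∀ (D : Set ℂ) (χ : ℂ → ℂ) (φ : ℂ → ENNReal), IsOpen D →
  DifferentiableOn ℂ χ D → InjOn χ D →
  ∫⁻ x in χ '' D, φ x = ∫⁻ u in D, ‖deriv χ u‖ₑ ^ 2 * φ (χ u)

/-- TOR: the area of the torus. -/
def T_TOR : Prop := ∀ (lam : ℂ) (m M : ℕ) (E : Fin m → Set ℂ), 1 < ‖lam‖ →
  (∀ i, MeasurableSet (E i)) → (∀ i, (0 : ℂ) ∉ E i) →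
  (∀ w : ℂ, w ≠ 0 → ∀ P : Finset (Fin m × ℤ), (∀ p ∈ P, lam ^ p.2 * w ∈ E p.1) → P.card ≤ M) →
  ∑ i, ∫⁻ w in E i, (‖w‖ₑ ^ 2)⁻¹ ≤ ENNReal.ofReal (M * (2 * Real.pi * Real.log ‖lam‖))

/-- WIND: a closed curve which does not separate `0` from infinity has winding number zero. -/
def T_WIND : Prop := ∀ C P ell : ℝ → ℂ, ContinuousOn C (Icc 0 1) → ContinuousOn P (Icc 0 1) →
  ContinuousOn ell (Icc 0 1) → (∀ s ∈ Icc (0 : ℝ) 1, exp (ell s) = C s) → C 0 = C 1 →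
  (∀ s ∈ Icc (0 : ℝ) 1, ∀ t ∈ Icc (0 : ℝ) 1, C s ≠ P t) →
  (∀ s ∈ Icc (0 : ℝ) 1, ‖P 0‖ < ‖C s‖) → (∀ s ∈ Icc (0 : ℝ) 1, ‖C s‖ < ‖P 1‖) →
  ell 1 = ell 0

/-- LOGL: continuous logarithms along a half line, with limit zero at the end. -/
def T_LOGL : Prop := ∀ (Y : Type) [TopologicalSpace Y] (q : Y → ℝ → ℂ),
  ContinuousOn (fun p : Y × ℝ => q p.1 p.2) (univ ×ˢ Ici 0) →
  (∀ y t, 0 ≤ t → q y t ≠ 0) →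
  (∀ y₀ : Y, ∀ ε : ℝ, 0 < ε → ∃ T : ℝ, ∀ᶠ y in 𝓝 y₀, ∀ t, T ≤ t → ‖q y t - 1‖ < ε) →
  ∃ L : Y → ℝ → ℂ, ContinuousOn (fun p : Y × ℝ => L p.1 p.2) (univ ×ˢ Ici 0) ∧
    (∀ y t, 0 ≤ t → exp (L y t) = q y t) ∧
    (∀ y₀ : Y, ∀ ε : ℝ, 0 < ε → ∃ T : ℝ, ∀ᶠ y in 𝓝 y₀, ∀ t, T ≤ t → ‖L y t‖ < ε) ∧
    ∀ (y : Y) (M : ℝ → ℂ), ContinuousOn M (Ici 0) → (∀ t, 0 ≤ t → exp (M t) = q y t) →
      Tendsto M atTop (𝓝 0) → ∀ t, 0 ≤ t → M t = L y t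

/-- LOC2: near a critical point a non-constant analytic map is not injective, uniformly. -/
def T_LOC2 : Prop := ∀ (Φ : ℂ → ℂ) (a : ℂ), AnalyticAt ℂ Φ a → deriv Φ a = 0 →
  (¬ ∀ᶠ z in 𝓝 a, Φ z = Φ a) → ∀ r : ℝ, 0 < r →
  ∃ δ : ℝ, 0 < δ ∧ ∀ w : ℂ, w ≠ Φ a → ‖w - Φ a‖ < δ →
    ∃ x y : ℂ, x ≠ y ∧ ‖x - a‖ < r ∧ ‖y - a‖ < r ∧ Φ x = w ∧ Φ y = w

/-- DEG1 (from LOC2): a proper analytic map of degree one is an isomorphism. -/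
def T_DEG1 : Prop := ∀ (K : Set ℂ) (Φ : ℂ → ℂ), IsCompact K → DifferentiableOn ℂ Φ Kᶜ →
  (∀ c ∈ Kᶜ, 1 < ‖Φ c‖) → (∀ ε : ℝ, 0 < ε → IsClosed {c | c ∉ K ∧ 1 + ε ≤ ‖Φ c‖}) →
  (∃ C R : ℝ, ∀ c, R ≤ ‖c‖ → ‖Φ c - c‖ ≤ C) →
  ∃ Ψ : ℂ → ℂ, DifferentiableOn ℂ Ψ {w | 1 < ‖w‖} ∧
    ∀ w, 1 < ‖w‖ → Ψ w ∉ K ∧ Φ (Ψ w) = w ∧ ∀ c, c ∉ K → Φ c = w → c = Ψ w

/-- BV: a bounded analytic function with radial limits zero on an interval is zero. -/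
def T_BV : Prop := ∀ (f : ℂ → ℂ) (a b M : ℝ), a < b →
  DifferentiableOn ℂ f {ζ : ℂ | 0 < ζ.re ∧ ζ.re < 1 ∧ a < ζ.im ∧ ζ.im < b} →
  (∀ ζ : ℂ, 0 < ζ.re → ζ.re < 1 → a < ζ.im → ζ.im < b → ‖f ζ‖ ≤ M) →
  (∀ y ∈ Ioo a b, Tendsto (fun s : ℝ => f (s + y * I)) (𝓝[>] 0) (𝓝 0)) →
  ∀ ζ : ℂ, 0 < ζ.re → ζ.re < 1 → a < ζ.im → ζ.im < b → f ζ = 0

/-- OSG: Osgood's lemma. -/
def T_OSG : Prop := ∀ (f : ℂ → ℂ → ℂ) (U : Set (ℂ × ℂ)), IsOpen U →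
  ContinuousOn (fun q : ℂ × ℂ => f q.1 q.2) U →
  (∀ q ∈ U, DifferentiableAt ℂ (f q.1) q.2) →
  (∀ q ∈ U, DifferentiableAt ℂ (fun c => f c q.2) q.1) →
  ∀ q ∈ U, ∃ f' : ℂ × ℂ →L[ℂ] ℂ, HasStrictFDerivAt (fun q : ℂ × ℂ => f q.1 q.2) f' q

/-- CUT: an open connected set minus a finite set. -/
def T_CUT : Prop := ∀ U S : Set ℂ, IsOpen U → IsPreconnected U → S.Finite →
  IsPreconnected (U \ S)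

/-! ### TR. transversality -/

/-- `f'`. -/
noncomputable def fp (n : ℕ) (b : ℂ) : ℂ := n * b ^ (n - 1)

/-- `f''`. -/
noncomputable def fpp (n : ℕ) (b : ℂ) : ℂ := n * ((n : ℂ) - 1) * b ^ (n - 2)

/-- A cycle without the critical point. -/
structure Cyc (n p : ℕ) (c : ℂ) (b : ℕ → ℂ) : Prop where
  hp : 1 ≤ p
  step : ∀ j, b (j + 1) = b j ^ n + c
  per : ∀ j, b (j + p) = b j
  dist : ∀ i j, i < p → j < p → b i = b j → i = j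
  nz : ∀ j, b j ≠ 0

/-- The residues. -/
structure Res (n p : ℕ) (b r : ℕ → ℂ) : Prop where
  per : ∀ j, r (j + p) = r j
  step : ∀ j, r (j + 1) = r j / fp n (b j) - fpp n (b j) / fp n (b j) ^ 2

/-- The quadratic differential. -/
noncomputable def AA (p : ℕ) (b r : ℕ → ℂ) (x : ℂ) : ℂ :=
  ∑ j ∈ Finset.range p, (((x - b j) ^ 2)⁻¹ + r j * (x - b j)⁻¹)

/-- TRA: the residues exist and their sum is the logarithmic derivative of the multiplier. -/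
def T_TRA : Prop := ∀ (n p : ℕ) (c : ℂ) (b : ℕ → ℂ), 2 ≤ n → Cyc n p c b →
  ∏ j ∈ Finset.range p, fp n (b j) ≠ 1 →
  (∃ r, Res n p b r) ∧ ∀ r b' : ℕ → ℂ, Res n p b r → (∀ j, b' (j + 1) = fp n (b j) * b' j + 1) →
    (∀ j, b' (j + p) = b' j) →
    ∑ j ∈ Finset.range p, r j = ∑ j ∈ Finset.range p, fpp n (b j) / fp n (b j) * b' j

/-- TRP: the push-forward. -/
def T_TRP : Prop := ∀ (n p : ℕ) (c : ℂ) (b r : ℕ → ℂ) (x : ℂ), 2 ≤ n → Cyc n p c b →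
  Res n p b r → x ≠ c → (∀ j, x ≠ b j) →
  push n c (AA p b r) x = AA p b r x - (∑ j ∈ Finset.range p, r j) * (x - c)⁻¹

/-- TRI (from TRP): decay at infinity. -/
def T_TRI : Prop := ∀ (n p : ℕ) (c : ℂ) (b r : ℕ → ℂ), 2 ≤ n → Cyc n p c b →
  Res n p b r → ∑ j ∈ Finset.range p, r j = 0 →
  ∃ C R : ℝ, 1 ≤ R ∧ ∀ x : ℂ, R ≤ ‖x‖ → ‖AA p b r x‖ ≤ C * (‖x‖ ^ 3)⁻¹

/-- TRS (from TRP): the triangle inequality is strict somewhere. -/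
def T_TRS : Prop := ∀ (n p : ℕ) (c : ℂ) (b r : ℕ → ℂ), 2 ≤ n → Cyc n p c b →
  ∃ x : ℂ, x - c ∈ Complex.slitPlane ∧ (∀ j, x ≠ b j) ∧
    ‖push n c (AA p b r) x‖ < ∑ j ∈ Finset.range n,
      ‖((n * rt n c j x ^ (n - 1)) ^ 2)⁻¹ * AA p b r (rt n c j x)‖

/-- TRL (from TRP, TRI, TRS): the area argument. -/
def T_TRL : Prop := ∀ (n p : ℕ) (c : ℂ) (b r : ℕ → ℂ), 2 ≤ n → Cyc n p c b →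
  Res n p b r → ∑ j ∈ Finset.range p, r j = 0 →
  ‖∏ j ∈ Finset.range p, fp n (b j)‖ ≤ 1 → False

/-- TRANS (from TRA, TRL, LOCZ): transversality. -/
def T_TRANS : Prop := ∀ (n k : ℕ) (c0 z0 : ℂ) (δ r : ℝ) (zf : ℂ → ℂ), 2 ≤ n → 1 ≤ k →
  LocFix n k c0 z0 δ r zf → Rho n k c0 z0 ≠ 0 → ‖Rho n k c0 z0‖ ≤ 1 → Rho n k c0 z0 ≠ 1 →
  deriv (fun c => Rho n k c (zf c)) c0 ≠ 0

/-! ### CN. counting -/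

/-- The iterates as polynomials in `z`. -/
noncomputable def FPol (n : ℕ) (c : ℂ) : ℕ → Polynomial ℂ
  | 0 => Polynomial.X
  | k + 1 => FPol n c k ^ n + Polynomial.C c

/-- MP: the norm of `w - multiplier` is a polynomial in `c`. -/
def T_MP : Prop := ∀ (n k : ℕ) (w : ℂ), 2 ≤ n → 1 ≤ k →
  ∃ P : Polynomial ℂ, P ≠ 0 ∧ P.natDegree ≤ k * (n - 1) * n ^ (k - 1) ∧
    ∀ c : ℂ, P.eval c = ((FPol n c k - Polynomial.X).roots.map (fun z => w - Rho n k c z)).prod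

/-- CNT (from MP, LOCZ): counting points with a given multiplier. -/
def T_CNT : Prop := ∀ (n k : ℕ) (w : ℂ) (S : Finset (ℂ × ℂ)), 2 ≤ n → 1 ≤ k → w ≠ 1 →
  (∀ x ∈ S, (F n x.1)^[k] x.2 = x.2 ∧ Rho n k x.1 x.2 = w) →
  S.card ≤ k * (n - 1) * n ^ (k - 1) ∧
  ∀ x ∈ S, ∀ (δ r : ℝ) (zf : ℂ → ℂ), LocFix n k x.1 x.2 δ r zf →
    deriv (fun c => Rho n k c (zf c)) x.1 = 0 → S.card + 1 ≤ k * (n - 1) * n ^ (k - 1)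

/-- FINF (from MP): finitely many parameters with a multiplier one. -/
def T_FINF : Prop := ∀ n m : ℕ, 2 ≤ n → 1 ≤ m →
  {c : ℂ | ∃ z : ℂ, (F n c)^[m] z = z ∧ Rho n m c z = 1}.Finite

/-- BIG: large parameters have large multipliers. -/
def T_BIG : Prop := ∀ (n k : ℕ) (c z : ℂ), 2 ≤ n → 1 ≤ k → 16 ≤ ‖c‖ → (F n c)^[k] z = z →
  Real.exp 1 < ‖Rho n k c z‖

/-- LOCZ: local continuation of fixed points. -/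
def T_LOCZ : Prop := ∀ (n k : ℕ) (c0 z0 : ℂ) (R : ℝ), 2 ≤ n → 0 < R → (F n c0)^[k] z0 = z0 →
  Rho n k c0 z0 ≠ 1 → ∃ (δ r : ℝ) (zf : ℂ → ℂ), δ ≤ R ∧ r ≤ R ∧ LocFix n k c0 z0 δ r zf

/-- LIN (from LOCZ): local linearization. -/
def T_LIN : Prop := ∀ (n k : ℕ) (c0 z0 : ℂ) (R : ℝ), 2 ≤ n → 1 ≤ k → 0 < R →
  (F n c0)^[k] z0 = z0 → 1 < ‖Rho n k c0 z0‖ →
  ∃ (δ r η : ℝ) (zf : ℂ → ℂ) (gi ka : ℂ → ℂ → ℂ), δ ≤ R ∧ r ≤ R ∧ Lin n k c0 z0 δ r η zf gi ka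

/-! ### BO. Green function and inverse Böttcher map -/

/-- GREEN. -/
def T_GREEN : Prop := ∀ n : ℕ, 2 ≤ n →
  Continuous (fun q : ℂ × ℂ => G n q.1 q.2) ∧
  (∀ c z : ℂ, 0 ≤ G n c z) ∧
  (∀ c z : ℂ, G n c (F n c z) = n * G n c z) ∧
  (∀ c z : ℂ, |G n c z - Real.posLog ‖z‖| ≤ Real.log (1 + ‖c‖)) ∧
  (∀ c z : ℂ, G n c z = 0 ↔ ∃ B : ℝ, ∀ j : ℕ, ‖(F n c)^[j] z‖ ≤ B) ∧
  (∀ c : ℂ, c ∈ MM n ↔ G n c 0 = 0) ∧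
  (∀ c : ℂ, G n c c = n * G n c 0) ∧
  (∀ c z ω : ℂ, ω ^ n = 1 → G n c (ω * z) = G n c z)

/-- The region near infinity. -/
def D0 : Set (ℂ × ℂ) := {q : ℂ × ℂ | 3 / 2 * (1 + ‖q.1‖) < Real.exp q.2.re}

/-- BOT0: the map near infinity. -/
def T_BOT0 : Prop := ∀ n : ℕ, 2 ≤ n → ∃ Λ : ℂ → ℂ → ℂ,
  ContinuousOn (fun q : ℂ × ℂ => Λ q.1 q.2) D0 ∧
  (∀ c s : ℂ, (c, s) ∈ D0 → DifferentiableAt ℂ (Λ c) s ∧ DifferentiableAt ℂ (fun c => Λ c s) c) ∧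
  ∀ c s : ℂ, (c, s) ∈ D0 → exp (n * Λ c s) = exp (Λ c (n * s)) - c ∧
    Λ c (s + 2 * Real.pi * I / n) = Λ c s + 2 * Real.pi * I / n ∧
    ‖Λ c s - s‖ ≤ ‖c‖ * Real.exp (-(n * s.re))

/-- BOT1 (from BOT0, GREEN, LOGL): the map on its maximal domain. -/
def T_BOT1 : Prop := ∀ n : ℕ, 2 ≤ n → ∃ Λ : ℂ → ℂ → ℂ,
  ContinuousOn (fun q : ℂ × ℂ => Λ q.1 q.2) {q : ℂ × ℂ | G n q.1 0 < q.2.re} ∧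
  (∀ c s : ℂ, G n c 0 < s.re → DifferentiableAt ℂ (Λ c) s) ∧
  (∀ c s : ℂ, G n c 0 < s.re → DifferentiableAt ℂ (fun c => Λ c s) c) ∧
  (∀ c s : ℂ, G n c 0 < s.re → exp (n * Λ c s) = exp (Λ c (n * s)) - c) ∧
  (∀ c s : ℂ, G n c 0 < s.re → Λ c (s + 2 * Real.pi * I / n) = Λ c s + 2 * Real.pi * I / n) ∧
  (∀ c s : ℂ, 2 * (1 + ‖c‖) ≤ Real.exp s.re →
    G n c 0 < s.re ∧ ‖Λ c s - s‖ ≤ ‖c‖ * Real.exp (-(n * s.re))) ∧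
  (∀ c s : ℂ, G n c 0 < s.re → G n c (exp (Λ c s)) = s.re)

/-- BOT (from BOT1, GREEN). -/
def T_BOT : Prop := ∀ n : ℕ, 2 ≤ n → ∃ Λ : ℂ → ℂ → ℂ, IsBot n Λ

/-- IE (from GREEN): comparison with the map used in LIMB. -/
def T_IE : Prop := ∀ (n : ℕ) (Λ : ℂ → ℂ → ℂ), 2 ≤ n → IsBot n Λ → IsExt n Λ

/-- PHI (from GREEN, OSG): the Böttcher coordinate of the critical value. -/
def T_PHI' : Prop := ∀ (n : ℕ) (Λ : ℂ → ℂ → ℂ), 2 ≤ n → IsBot n Λ → ∃ Φ : ℂ → ℂ,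
  DifferentiableOn ℂ Φ (MM n)ᶜ ∧ (∀ c, c ∉ MM n → ‖Φ c‖ = Real.exp (G n c c)) ∧
  (∀ c ζ, c ∉ MM n → (Crit n Λ c ζ ↔ exp ζ = Φ c)) ∧
  ∃ C R : ℝ, ∀ c : ℂ, R ≤ ‖c‖ → ‖Φ c - c‖ ≤ C

/-- `Cp` is the parametrization of the exterior of the Multibrot set. -/
def IsPar (n : ℕ) (Λ : ℂ → ℂ → ℂ) (Cp : ℂ → ℂ) : Prop :=
  DifferentiableOn ℂ Cp {ζ : ℂ | 0 < ζ.re} ∧ (∀ ζ : ℂ, 0 < ζ.re → Crit n Λ (Cp ζ) ζ) ∧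
    ∀ c ζ : ℂ, Crit n Λ c ζ → 0 < ζ.re ∧ c = Cp ζ

/-- PAR (from PHI, DEG1, GREEN). -/
def T_PAR : Prop := ∀ (n : ℕ) (Λ : ℂ → ℂ → ℂ), 2 ≤ n → IsBot n Λ → ∃ Cp : ℂ → ℂ, IsPar n Λ Cp

/-! ### LO. logarithms and inverse branches outside the Multibrot set -/

/-- Normalization of `lh`. -/
def NLh (n : ℕ) (Λ : ℂ → ℂ → ℂ) (lh : ℂ → ℂ → ℂ → ℂ) : Prop :=
  ∀ (c ζ z : ℂ) (M : ℝ → ℂ), Crit n Λ c ζ → G n c z < ζ.re → ContinuousOn M (Ici 0) →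
    (∀ t : ℝ, 0 ≤ t → exp (M t) = (exp (Λ c (ζ + t)) - z) * exp (-(ζ + t))) →
    Tendsto M atTop (𝓝 0) → lh c ζ z = ζ + Real.pi * I + M 0

/-- Normalization of `ls`. -/
def NLs (n : ℕ) (Λ : ℂ → ℂ → ℂ) (ls : ℂ → ℂ → ℂ → ℂ) : Prop :=
  ∀ (c ζ ξ : ℂ) (M : ℝ → ℂ), Crit n Λ c ζ → ξ ∈ SL n c ζ → ContinuousOn M (Ici 0) →
    (∀ t : ℝ, 0 ≤ t → exp (M t) = (exp (Λ c (ξ + t)) - c) * exp (-(ξ + t))) →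
    Tendsto M atTop (𝓝 0) → ls c ζ ξ = ξ + M 0

/-- LOGA (from LOGL, GREEN). -/
def T_LOGA : Prop := ∀ (n : ℕ) (Λ : ℂ → ℂ → ℂ), 2 ≤ n → IsBot n Λ → ∃ lh : ℂ → ℂ → ℂ → ℂ,
  ContinuousOn (fun p : ℂ × ℂ × ℂ => lh p.1 p.2.1 p.2.2)
    {p : ℂ × ℂ × ℂ | Crit n Λ p.1 p.2.1 ∧ G n p.1 p.2.2 < p.2.1.re} ∧
  (∀ c ζ : ℂ, Crit n Λ c ζ → DifferentiableOn ℂ (lh c ζ) {z : ℂ | G n c z < ζ.re}) ∧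
  (∀ c ζ z : ℂ, Crit n Λ c ζ → G n c z < ζ.re → exp (lh c ζ z) = z - c) ∧
  (∀ c ζ z : ℂ, Crit n Λ c ζ → G n c z < ζ.re →
    lh c (ζ + 2 * Real.pi * I) z = lh c ζ z + 2 * Real.pi * I) ∧ NLh n Λ lh

/-- LOGB (from LOGL, GREEN). -/
def T_LOGB : Prop := ∀ (n : ℕ) (Λ : ℂ → ℂ → ℂ), 2 ≤ n → IsBot n Λ → ∃ ls : ℂ → ℂ → ℂ → ℂ,
  (∀ c ζ : ℂ, Crit n Λ c ζ → DifferentiableOn ℂ (ls c ζ) (SL n c ζ)) ∧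
  (∀ c ζ ξ : ℂ, Crit n Λ c ζ → ξ ∈ SL n c ζ → exp (ls c ζ ξ) = exp (Λ c ξ) - c) ∧
  (∀ c ζ ξ : ℂ, Crit n Λ c ζ → ξ ∈ SL n c ζ →
    ls c ζ (ξ + 2 * Real.pi * I) = ls c ζ ξ + 2 * Real.pi * I) ∧
  (∀ c ζ ξ : ℂ, Crit n Λ c ζ → G n c 0 < ξ.re → ls c ζ (n * ξ) = n * Λ c ξ) ∧ NLs n Λ ls

/-- LOGC (from LOGL, GREEN): comparison of the two normalizations in the first strip. -/
def T_LOGC : Prop := ∀ (n : ℕ) (Λ : ℂ → ℂ → ℂ) (lh ls : ℂ → ℂ → ℂ → ℂ) (c ζ ξ : ℂ), 2 ≤ n →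
  IsBot n Λ → NLh n Λ lh → NLs n Λ ls → Crit n Λ c ζ → G n c 0 < ξ.re → ξ.re < ζ.re →
  ζ.im < ξ.im → ξ.im < ζ.im + 2 * Real.pi → ls c ζ ξ = lh c ζ (exp (Λ c ξ))

/-- LOG (from LOGA, LOGB, LOGC). -/
def T_LOG : Prop := ∀ (n : ℕ) (Λ : ℂ → ℂ → ℂ), 2 ≤ n → IsBot n Λ →
  ∃ lh ls : ℂ → ℂ → ℂ → ℂ, IsLog n Λ lh ls

/-- BR (from GREEN): inverse branches. -/
def T_BR : Prop := ∀ (n : ℕ) (Λ : ℂ → ℂ → ℂ) (lh ls : ℂ → ℂ → ℂ → ℂ) (c ζ : ℂ), 2 ≤ n →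
  IsBot n Λ → IsLog n Λ lh ls → Crit n Λ c ζ →
  (∀ (z : ℂ) (i : ℤ), G n c z < ζ.re → F n c (br n lh c ζ i z) = z ∧
    G n c (br n lh c ζ i z) = G n c z / n ∧ br n lh c ζ (i + n) z = br n lh c ζ i z) ∧
  (∀ (z z' : ℂ) (i j : ℤ), G n c z < ζ.re → G n c z' < ζ.re →
    br n lh c ζ i z = br n lh c ζ j z' → z = z' ∧ (n : ℤ) ∣ i - j) ∧
  (∀ i : ℤ, DifferentiableOn ℂ (br n lh c ζ i) {z : ℂ | G n c z < ζ.re}) ∧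
  (∀ z : ℂ, n * G n c z < ζ.re → ∃ i : ℤ, Dig n lh c ζ z i) ∧
  (∀ (z : ℂ) (i j : ℤ), n * G n c z < ζ.re → Dig n lh c ζ z i →
    (Dig n lh c ζ z j ↔ (n : ℤ) ∣ i - j)) ∧
  (∀ (ε : ℕ → ℤ) (m : ℕ) (z : ℂ), G n c z < ζ.re → (F n c)^[m] (brw n lh c ζ ε m z) = z ∧
    G n c (brw n lh c ζ ε m z) = G n c z / (n : ℝ) ^ m) ∧
  (∀ (ε : ℕ → ℤ) (m : ℕ), DifferentiableOn ℂ (brw n lh c ζ ε m) {z : ℂ | G n c z < ζ.re} ∧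
    InjOn (brw n lh c ζ ε m) {z : ℂ | G n c z < ζ.re})

/-- AREAL (from BR, GREEN, CHV, DISP1): the inverse branches contract. -/
def T_AREAL : Prop := ∀ (n : ℕ) (Λ : ℂ → ℂ → ℂ) (lh ls : ℂ → ℂ → ℂ → ℂ) (c ζ : ℂ), 2 ≤ n →
  IsBot n Λ → IsLog n Λ lh ls → Crit n Λ c ζ → ∀ (ε : ℕ → ℤ) (σ η : ℝ), σ < ζ.re → 0 < η →
  ∃ m₀ : ℕ, ∀ m, m₀ ≤ m → ∀ x y : ℂ, G n c x ≤ σ → G n c y ≤ σ →
    ‖brw n lh c ζ ε m x - brw n lh c ζ ε m y‖ ≤ η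

/-- FIXE (from AREAL, BR, GREEN): the fixed points of `f ^ k` outside the Multibrot set. -/
def T_FIXE : Prop := ∀ (n k : ℕ) (Λ : ℂ → ℂ → ℂ) (lh ls : ℂ → ℂ → ℂ → ℂ) (c ζ : ℂ), 2 ≤ n →
  1 ≤ k → IsBot n Λ → IsLog n Λ lh ls → Crit n Λ c ζ →
  (∀ ε : ℕ → ℤ, Per k ε → ∃ z : ℂ, (F n c)^[k] z = z ∧
    (∀ j, Dig n lh c ζ ((F n c)^[j] z) (ε j)) ∧
    ∀ z' : ℂ, (F n c)^[k] z' = z' → (∀ j, Dig n lh c ζ ((F n c)^[j] z') (ε j)) → z' = z) ∧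
  (∀ z : ℂ, (F n c)^[k] z = z → 1 < ‖Rho n k c z‖ ∧ G n c z = 0 ∧
    ∃ ε : ℕ → ℤ, Per k ε ∧ ∀ j, Dig n lh c ζ ((F n c)^[j] z) (ε j))

/-- SECAN (from FIXE, LOCZ, BR): analytic sections. -/
def T_SECAN : Prop := ∀ (n k : ℕ) (Λ : ℂ → ℂ → ℂ) (lh ls : ℂ → ℂ → ℂ → ℂ) (Cp : ℂ → ℂ)
  (ε : ℕ → ℤ), 2 ≤ n → 1 ≤ k → IsBot n Λ → IsLog n Λ lh ls → IsPar n Λ Cp → Per k ε →
  ∃ zz : ℂ → ℂ, DifferentiableOn ℂ zz {ζ : ℂ | 0 < ζ.re} ∧ ∀ ζ : ℂ, 0 < ζ.re →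
    (F n (Cp ζ))^[k] (zz ζ) = zz ζ ∧ ∀ j, Dig n lh (Cp ζ) ζ ((F n (Cp ζ))^[j] (zz ζ)) (ε j)

/-! ### RN. rotation numbers -/

/-- RC. -/
def T_RC : Prop := ∀ (n k : ℕ) (ε : ℕ → ℤ), 2 ≤ n →
  Continuous (fun θ => Rot n k θ ε) ∧ Antitone (fun θ => Rot n k θ ε)

/-- RS. -/
def T_RS : Prop := ∀ (n k : ℕ) (ε : ℕ → ℤ) (θ : ℝ), 2 ≤ n →
  Rot n k (θ + 1) ε = Rot n k θ (fun t => ε t + 1) - k ∧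
  (∀ m : ℕ → ℤ, Rot n k θ (fun t => ε t + n * m t) =
    Rot n k θ ε + ((∑ t ∈ Finset.range k, m t : ℤ) : ℝ)) ∧
  Rot n k (θ + n) ε = Rot n k θ ε - ((k * (n - 1) : ℕ) : ℝ)

/-- RINV (from RS, RC): invariance and local constancy of the label. -/
def T_RINV : Prop := ∀ (n k : ℕ) (ε : ℕ → ℤ) (θ : ℝ), 2 ≤ n → 1 ≤ k →
  (IsInt (Rot n k θ ε) ↔ IsInt (Rot n k (θ + ε 0) (fun j => (ε j - ε 0) % (n : ℤ)))) ∧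
  (∀ ε' : ℕ → ℤ, (∀ t, (n : ℤ) ∣ ε t - ε' t) → lab n k θ ε' = lab n k θ ε ∧
    (IsInt (Rot n k θ ε') ↔ IsInt (Rot n k θ ε))) ∧
  (lab n k (θ + 1) ε = lab n k θ (fun t => ε t + 1) ∧
    (IsInt (Rot n k (θ + 1) ε) ↔ IsInt (Rot n k θ (fun t => ε t + 1)))) ∧
  (¬ IsInt (Rot n k θ ε) → ∀ᶠ θ' in 𝓝 θ, ¬ IsInt (Rot n k θ' ε) ∧ lab n k θ' ε = lab n k θ ε)

/-- RP: rotation numbers of periodic angles. -/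
def T_RP : Prop := ∀ (n k q : ℕ) (θ α : ℝ) (ε : ℕ → ℤ), 2 ≤ n → 1 ≤ k → Ex n k q α →
  Cod n θ α ε → Per k ε → IsInt (q * Rot n k θ ε) ∧ (IsInt (Rot n k θ ε) ↔ q = 1)

/-- RI (from RC): approximation of parameters with integer rotation number. -/
def T_RI : Prop := ∀ (n k : ℕ) (θ : ℝ) (ε : ℕ → ℤ), 2 ≤ n → 1 ≤ k → Per k ε →
  IsInt (Rot n k θ ε) → ∀ δ : ℝ, 0 < δ → ∃ θ' α : ℝ, |θ' - θ| < δ ∧ Ex n k 1 α ∧ Cod n θ' α ε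

/-- WL (from RINV, RP): the label of an angle. -/
def T_WL : Prop := ∀ (n k q : ℕ) (α θ₁ θ₂ : ℝ) (ε₁ ε₂ : ℕ → ℤ), 2 ≤ n → 1 ≤ k → 2 ≤ q →
  Ex n k q α → Per k ε₁ → Per k ε₂ → Cod n θ₁ α ε₁ → Cod n θ₂ α ε₂ →
  lab n k θ₁ ε₁ = lab n k θ₂ ε₂

/-- LS (from RC, RS): every label occurs. -/
def T_LS : Prop := ∀ (n k : ℕ) (l : Label n k), 2 ≤ n → 1 ≤ k →
  ∃ (ε : ℕ → ℤ) (a b : ℝ), Per k ε ∧ a < b ∧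
    ∀ θ ∈ Ioo a b, ¬ IsInt (Rot n k θ ε) ∧ lab n k θ ε = l

/-! ### GM. the Multibrot set: rays at repelling points -/

/-- SNAIL (from IE, GREEN, KOEB, WSEG, CHV, T_AREA of LIMB). -/
def T_SNAIL : Prop := ∀ (n p : ℕ) (Λ : ℂ → ℂ → ℂ) (c w : ℂ) (α : ℝ), 2 ≤ n → 1 ≤ p →
  IsBot n Λ → c ∈ MM n → IsInt (((n : ℝ) ^ p - 1) * α) → Lands Λ c α w →
  (F n c)^[p] w = w → 1 < ‖Rho n p c w‖ ∨ Rho n p c w = 1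

/-- DISPE (from IE, GREEN, LIN): the displacement exists. -/
def T_DISPE : Prop := ∀ (n k q : ℕ) (Λ : ℂ → ℂ → ℂ) (c z : ℂ) (α : ℝ), 2 ≤ n → 1 ≤ k → 1 ≤ q →
  IsBot n Λ → c ∈ MM n → IsInt (((n : ℝ) ^ (k * q) - 1) * α) → Lands Λ c α z →
  (F n c)^[k] z = z → 1 < ‖Rho n k c z‖ →
  ∃ v : ℂ, Disp n k q Λ c α z v ∧ exp v = Rho n k c z ^ q ∧
    ∀ v' : ℂ, Disp n k q Λ c α z v' → v' = v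

/-- PLY (from IE, GREEN, LIN, WSEG, CHV, TOR, DISPE, T_AREA of LIMB): the Pommerenke-Levin-Yoccoz inequality. -/
def T_PLY : Prop := ∀ n : ℕ, 2 ≤ n → ∃ C : ℝ, 0 < C ∧
  ∀ (k q : ℕ) (Λ : ℂ → ℂ → ℂ) (c z v : ℂ) (α : ℝ), 1 ≤ k → IsBot n Λ → c ∈ MM n →
  Ex n k q α → Lands Λ c α z → (F n c)^[k] z = z → 1 < ‖Rho n k c z‖ →
  Disp n k q Λ c α z v → ‖v‖ ^ 2 ≤ C * k * v.re

/-- CURV (from IE, GREEN, LIN, DISPE): the lifts of the rays to the linearizing plane. -/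
def T_CURV : Prop := ∀ (n k : ℕ) (Λ : ℂ → ℂ → ℂ) (c z : ℂ), 2 ≤ n → 1 ≤ k → IsBot n Λ →
  c ∈ MM n → (F n c)^[k] z = z → 1 < ‖Rho n k c z‖ →
  ∃ W : ℝ → ℝ → ℂ,
    (∀ (α : ℝ) (q : ℕ), 1 ≤ q → IsInt (((n : ℝ) ^ (k * q) - 1) * α) → Lands Λ c α z →
      ContinuousOn (W α) (Ioi 0) ∧ (∀ t : ℝ, 0 < t → W α t ≠ 0) ∧
      (∀ t : ℝ, 0 < t → W α ((n : ℝ) ^ (k * q) * t) = Rho n k c z ^ q * W α t) ∧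
      (∀ t : ℝ, 0 < t → W ((n : ℝ) ^ k * α) ((n : ℝ) ^ k * t) = Rho n k c z * W α t) ∧
      Lands Λ c ((n : ℝ) ^ k * α) z ∧
      ∀ v : ℂ, Disp n k q Λ c α z v → ∃ l : ℝ → ℂ, ContinuousOn l (Ioi 0) ∧
        ∀ t : ℝ, 0 < t → exp (l t) = W α t ∧ l ((n : ℝ) ^ (k * q) * t) = l t + v) ∧
    ∀ (α α' t t' : ℝ) (q q' : ℕ), 1 ≤ q → 1 ≤ q' → IsInt (((n : ℝ) ^ (k * q) - 1) * α) →
      IsInt (((n : ℝ) ^ (k * q') - 1) * α') → Lands Λ c α z → Lands Λ c α' z → 0 < t → 0 < t' →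
      W α t = W α' t' → t = t' ∧ IsInt (α - α')

/-- UNIQ (from CURV, WIND, DISPE). -/
def T_UNIQ : Prop := ∀ (n k q q' : ℕ) (Λ : ℂ → ℂ → ℂ) (c z v v' : ℂ) (α α' : ℝ), 2 ≤ n →
  1 ≤ k → IsBot n Λ → c ∈ MM n → Ex n k q α → Ex n k q' α' → Lands Λ c α z → Lands Λ c α' z →
  (F n c)^[k] z = z → 1 < ‖Rho n k c z‖ → Disp n k q Λ c α z v → Disp n k q' Λ c α' z v' →
  q * v' = q' * v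

/-- NZ (from CURV, WIND, DISPE). -/
def T_NZ : Prop := ∀ (n k q : ℕ) (Λ : ℂ → ℂ → ℂ) (c z v : ℂ) (α : ℝ), 2 ≤ n → 1 ≤ k →
  IsBot n Λ → c ∈ MM n → Ex n k q α → 2 ≤ q → Lands Λ c α z → (F n c)^[k] z = z →
  1 < ‖Rho n k c z‖ → Disp n k q Λ c α z v → exp (v / q) ≠ Rho n k c z

/-- EM (from IE, GREEN, LIN): the parametrization of a component in the linearizing plane. -/
def T_EM : Prop := ∀ (n k : ℕ) (Λ : ℂ → ℂ → ℂ) (c z : ℂ), 2 ≤ n → 1 ≤ k → IsBot n Λ →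
  c ∈ MM n → (F n c)^[k] z = z → 1 < ‖Rho n k c z‖ →
  ∃ (E : ℂ → ℂ) (A D : ℝ), DifferentiableOn ℂ E {ξ : ℂ | 0 < ξ.re} ∧
    InjOn E {ξ : ℂ | 0 < ξ.re} ∧ (∀ ξ : ℂ, 0 < ξ.re → E ξ ≠ 0) ∧ 0 < D ∧
    (∀ ξ : ℂ, 0 < ξ.re → ξ.re ≤ A * (max 1 ‖E ξ‖) ^ D) ∧
    ∀ (ξ ξ' : ℂ) (q : ℕ), 0 < ξ.re → 0 < ξ'.re → 1 ≤ q → E ξ' = Rho n k c z ^ q * E ξ →
      ∃ α : ℝ, IsInt (((n : ℝ) ^ (k * q) - 1) * α) ∧ Lands Λ c α z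

/-- L1 (from DISP1, CHV, TOR). -/
def T_L1 : Prop := ∀ (E : ℂ → ℂ) (lam : ℂ) (A D : ℝ), 1 < ‖lam‖ → 0 < D →
  DifferentiableOn ℂ E {ξ : ℂ | 0 < ξ.re} → InjOn E {ξ : ℂ | 0 < ξ.re} →
  (∀ ξ : ℂ, 0 < ξ.re → E ξ ≠ 0) → (∀ ξ : ℂ, 0 < ξ.re → ξ.re ≤ A * (max 1 ‖E ξ‖) ^ D) →
  ∃ (ξ ξ' : ℂ) (q : ℕ), 0 < ξ.re ∧ 0 < ξ'.re ∧ 1 ≤ q ∧ E ξ' = lam ^ q * E ξ

/-- EXR (from EM, L1): a ray lands at every repelling point. -/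
def T_EXR : Prop := ∀ (n k : ℕ) (Λ : ℂ → ℂ → ℂ) (c z : ℂ), 2 ≤ n → 1 ≤ k → IsBot n Λ →
  c ∈ MM n → (F n c)^[k] z = z → 1 < ‖Rho n k c z‖ → ∃ (α : ℝ) (q : ℕ), Ex n k q α ∧
    Lands Λ c α z

/-- ST1 (from IE, GREEN, LIN): stability of rays, inside the Multibrot set. -/
def T_ST1 : Prop := ∀ (n k q : ℕ) (Λ : ℂ → ℂ → ℂ) (c0 z0 : ℂ) (α : ℝ),
  2 ≤ n → 1 ≤ k → 1 ≤ q → IsBot n Λ → c0 ∈ MM n →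
  IsInt (((n : ℝ) ^ (k * q) - 1) * α) → Lands Λ c0 α z0 → (F n c0)^[k] z0 = z0 →
  1 < ‖Rho n k c0 z0‖ →
  ∃ δ : ℝ, 0 < δ ∧ ∀ c z : ℂ, ‖c - c0‖ < δ → ‖z - z0‖ < δ → (F n c)^[k] z = z →
    c ∈ MM n → Lands Λ c α z

/-- ST2 (from GREEN, LIN, BR): stability of rays, outside the Multibrot set. -/
def T_ST2 : Prop := ∀ (n k q : ℕ) (Λ : ℂ → ℂ → ℂ) (lh ls : ℂ → ℂ → ℂ → ℂ) (c0 z0 : ℂ) (α : ℝ),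
  2 ≤ n → 1 ≤ k → 1 ≤ q → IsBot n Λ → IsLog n Λ lh ls → c0 ∈ MM n →
  IsInt (((n : ℝ) ^ (k * q) - 1) * α) → Lands Λ c0 α z0 → (F n c0)^[k] z0 = z0 →
  1 < ‖Rho n k c0 z0‖ →
  ∃ δ : ℝ, 0 < δ ∧ ∀ c z ζ : ℂ, ‖c - c0‖ < δ → ‖z - z0‖ < δ → (F n c)^[k] z = z →
    Crit n Λ c ζ →
      (∀ t : ℕ, 1 ≤ t → ¬ IsInt ((n : ℝ) ^ t * α - ζ.im / (2 * Real.pi))) ∧
      ∀ t : ℕ, Dig n lh c ζ ((F n c)^[t] z) ⌊(n : ℝ) ^ (t + 1) * α - ζ.im / (2 * Real.pi)⌋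

/-- RCV (from IE, GREEN, LIN, DISPE, ST1): the displacement is continuous. -/
def T_RCV : Prop := ∀ (n k q : ℕ) (Λ : ℂ → ℂ → ℂ) (c0 z0 v0 : ℂ) (α ε : ℝ),
  2 ≤ n → 1 ≤ k → 1 ≤ q → 0 < ε → IsBot n Λ → c0 ∈ MM n →
  IsInt (((n : ℝ) ^ (k * q) - 1) * α) → Lands Λ c0 α z0 → (F n c0)^[k] z0 = z0 →
  1 < ‖Rho n k c0 z0‖ → Disp n k q Λ c0 α z0 v0 →
  ∃ δ : ℝ, 0 < δ ∧ ∀ c z v : ℂ, c ∈ MM n → ‖c - c0‖ < δ → ‖z - z0‖ < δ → (F n c)^[k] z = z →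
    Disp n k q Λ c α z v → ‖v - v0‖ < ε

/-- BD (from ST1, ST2, LOCZ, SNAIL, FINF, CUT, FIXE, BR, GREEN, IE, T_LAND of LIMB). -/
def T_BD : Prop := ∀ (n k q q' : ℕ) (Λ : ℂ → ℂ → ℂ) (lh ls : ℂ → ℂ → ℂ → ℂ) (c0 z0 : ℂ)
  (α α' : ℝ), 2 ≤ n → 1 ≤ k → IsBot n Λ → IsLog n Λ lh ls → c0 ∈ MM n →
  (F n c0)^[k] z0 = z0 → 1 < ‖Rho n k c0 z0‖ → Ex n k q α → Ex n k q' α' →
  Lands Λ c0 α z0 → Lands Λ c0 α' z0 →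
  ∃ (θ : ℝ) (ε : ℕ → ℤ), Per k ε ∧ Cod n θ α ε ∧ Cod n θ α' ε

/-! ### FX. the inequality outside the Multibrot set -/

/-- KOE (from AREAL, BR, FIXE, LIN): linearization on `{G < G(c)}`. -/
def T_KOE : Prop := ∀ (n k : ℕ) (Λ : ℂ → ℂ → ℂ) (lh ls : ℂ → ℂ → ℂ → ℂ) (c ζ z : ℂ)
  (ε : ℕ → ℤ), 2 ≤ n → 1 ≤ k → IsBot n Λ → IsLog n Λ lh ls → Crit n Λ c ζ → Per k ε →
  (F n c)^[k] z = z → (∀ j, Dig n lh c ζ ((F n c)^[j] z) (ε j)) →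
  ∃ ka : ℂ → ℂ, DifferentiableOn ℂ ka {x : ℂ | G n c x < ζ.re} ∧
    InjOn ka {x : ℂ | G n c x < ζ.re} ∧ ka z = 0 ∧
    ∀ x : ℂ, G n c x < ζ.re → ka (brw n lh c ζ ε k x) * Rho n k c z = ka x

/-- SEG (from GREEN, DISP1, CHV): displacement along one level. -/
def T_SEG : Prop := ∀ n : ℕ, 2 ≤ n → ∃ C : ℝ, 0 < C ∧
  ∀ (Λ : ℂ → ℂ → ℂ) (lh ls : ℂ → ℂ → ℂ → ℂ) (c ζ : ℂ) (y : ℝ) (K : ℂ → ℂ) (L : ℝ → ℂ),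
  IsBot n Λ → IsLog n Λ lh ls → Crit n Λ c ζ → ζ.re ≤ 6 →
  (∀ m : ℤ, y ≠ ζ.im + 2 * Real.pi * m) →
  DifferentiableOn ℂ K {x : ℂ | G n c x < ζ.re} → InjOn K {x : ℂ | G n c x < ζ.re} →
  (∀ x : ℂ, G n c x < ζ.re → 0 < G n c x → K x ≠ 0) →
  ContinuousOn L (Icc (ζ.re / √n) (ζ.re * √n)) →
  (∀ t ∈ Icc (ζ.re / √n) (ζ.re * √n), exp (L t) = K (exp (ls c ζ (t + y * I) / n))) →
  ENNReal.ofReal (‖L (ζ.re * √n) - L (ζ.re / √n)‖ ^ 2) ≤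
    ENNReal.ofReal C * ∫⁻ x in {x : ℂ | ζ.re / (n : ℝ) ^ 2 < G n c x ∧ G n c x < ζ.re},
      ‖deriv K x / K x‖ₑ ^ 2

/-- DX (from SEG, KOE, TOR, CHV, BR): the inequality for unbroken rays. -/
def T_DX : Prop := ∀ n : ℕ, 2 ≤ n → ∃ C : ℝ, 0 < C ∧
  ∀ (k : ℕ) (Λ : ℂ → ℂ → ℂ) (lh ls : ℂ → ℂ → ℂ → ℂ) (c ζ z : ℂ) (α : ℝ) (ε : ℕ → ℤ),
  1 ≤ k → IsBot n Λ → IsLog n Λ lh ls → Crit n Λ c ζ → ζ.re ≤ 6 → Ex n k 1 α →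
  Cod n (ζ.im / (2 * Real.pi)) α ε → Per k ε → (F n c)^[k] z = z →
  (∀ j, Dig n lh c ζ ((F n c)^[j] z) (ε j)) →
  ∃ μ : ℂ, exp μ = Rho n k c z ∧ ‖μ‖ ^ 2 ≤ C * k * μ.re

/-- ZX (from DX, RI, PAR, SECAN, GREEN). -/
def T_ZX : Prop := ∀ n : ℕ, 2 ≤ n → ∃ C : ℝ, 0 < C ∧
  ∀ (k : ℕ) (Λ : ℂ → ℂ → ℂ) (lh ls : ℂ → ℂ → ℂ → ℂ) (c ζ z : ℂ) (ε : ℕ → ℤ),
  1 ≤ k → IsBot n Λ → IsLog n Λ lh ls → Crit n Λ c ζ → ‖c‖ ≤ 16 → Per k ε →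
  (F n c)^[k] z = z → (∀ j, Dig n lh c ζ ((F n c)^[j] z) (ε j)) →
  IsInt (Rot n k (ζ.im / (2 * Real.pi)) ε) →
  ∃ μ : ℂ, exp μ = Rho n k c z ∧ ‖μ‖ ^ 2 ≤ C * k * μ.re

end Pool.Agent.PLim
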