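import Mathlib
import Pool.Agent.PLim.Targets

set_option autoImplicit false

open Complex Filter Topology Set
open Pool.Agent.Multibrot Pool.Agent.Limb

namespace Pool.Agent.PLim

lemma CNT_eval (n : ℕ) (c z : ℂ) (k : ℕ) : (FPol n c k).eval z = (F n c)^[k] z := by
  induction k with
  | zero => simp [FPol]
  | succ k ih =>
    rw [FPol, Function.iterate_succ_apply', Polynomial.eval_add, Polynomial.eval_pow,
      Polynomial.eval_C, ih, F]

lemma CNT_deg (n : ℕ) (c : ℂ) (k : ℕ) : (FPol n c k).natDegree = n ^ k := by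
  induction k with
  | zero => simp [FPol]
  | succ k ih =>
    rw [FPol, Polynomial.natDegree_add_C, Polynomial.natDegree_pow, ih, pow_succ, mul_comm]

lemma CNT_two {n k : ℕ} (hn : 2 ≤ n) (hk : 1 ≤ k) : 2 ≤ n ^ k :=
  hn.trans (Nat.le_self_pow (by omega) n)

lemma CNT_ne {n k : ℕ} (hn : 2 ≤ n) (hk : 1 ≤ k) (c : ℂ) :
    FPol n c k - Polynomial.X ≠ 0 := by
  intro h
  have h1 := CNT_deg n c k
  rw [sub_eq_zero.mp h, Polynomial.natDegree_X] at h1
  have := CNT_two hn hk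
  omega

lemma CNT_card {n k : ℕ} (hn : 2 ≤ n) (hk : 1 ≤ k) (c : ℂ) :
    (FPol n c k - Polynomial.X).roots.card ≤ n ^ k := by
  refine (Polynomial.card_roots' _).trans ((Polynomial.natDegree_sub_le _ _).trans ?_)
  rw [CNT_deg, Polynomial.natDegree_X]
  have := CNT_two hn hk
  exact max_le le_rfl (by omega)

lemma CNT_mem {n k : ℕ} (hn : 2 ≤ n) (hk : 1 ≤ k) (c z : ℂ) :
    z ∈ (FPol n c k - Polynomial.X).roots ↔ (F n c)^[k] z = z := by
  rw [Polynomial.mem_roots (CNT_ne hn hk c), Polynomial.IsRoot.def, Polynomial.eval_sub,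
    Polynomial.eval_X, CNT_eval, sub_eq_zero]

lemma CNT_der (n : ℕ) (c z : ℂ) (k : ℕ) : HasDerivAt ((F n c)^[k])
    (∏ j ∈ Finset.range k, ((n : ℂ) * ((F n c)^[j] z) ^ (n - 1))) z := by
  induction k with
  | zero => simpa using hasDerivAt_id z
  | succ k ih =>
    rw [Function.iterate_succ', Finset.prod_range_succ, mul_comm]
    have h1 : HasDerivAt (F n c) ((n : ℂ) * ((F n c)^[k] z) ^ (n - 1)) ((F n c)^[k] z) := by
      unfold F
      exact (hasDerivAt_pow n _).add_const c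
    exact h1.comp z ih

lemma CNT_rho (n : ℕ) (c z : ℂ) (k : ℕ) : Rho n k c z =
    ∏ j ∈ Finset.range k, ((n : ℂ) * ((F n c)^[j] z) ^ (n - 1)) :=
  (CNT_der n c z k).deriv

lemma CNT_contI (n k : ℕ) : Continuous (fun q : ℂ × ℂ => (F n q.1)^[k] q.2) := by
  induction k with
  | zero => simpa using continuous_snd
  | succ k ih =>
    simp only [Function.iterate_succ_apply', F]
    exact (ih.pow n).add continuous_fst

lemma CNT_contR (n k : ℕ) : Continuous (fun q : ℂ × ℂ => Rho n k q.1 q.2) := by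
  simp only [CNT_rho]
  exact continuous_finsetProd _ fun j _ => continuous_const.mul ((CNT_contI n j).pow _)

lemma CNT_diffI (n k : ℕ) (zf : ℂ → ℂ) (s : Set ℂ) (h : DifferentiableOn ℂ zf s) :
    DifferentiableOn ℂ (fun c => (F n c)^[k] (zf c)) s := by
  induction k with
  | zero => simpa using h
  | succ k ih =>
    simp only [Function.iterate_succ_apply', F]
    exact (ih.pow n).add differentiableOn_id

lemma CNT_diffR (n k : ℕ) (zf : ℂ → ℂ) (s : Set ℂ) (h : DifferentiableOn ℂ zf s) :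
    DifferentiableOn ℂ (fun c => Rho n k c (zf c)) s := by
  simp only [CNT_rho]
  apply DifferentiableOn.fun_finsetProd
  intro j _
  exact ((CNT_diffI n j zf s h).pow _).const_mul _

lemma CNT_grow {n : ℕ} (hn : 2 ≤ n) {c z : ℂ} (h : 2 + ‖c‖ < ‖z‖) : ‖z‖ < ‖F n c z‖ := by
  have h1 : ‖z‖ ^ 2 ≤ ‖z‖ ^ n := pow_le_pow_right₀ (by linarith [norm_nonneg c]) hn
  have h2 : ‖z ^ n‖ ≤ ‖F n c z‖ + ‖c‖ := by
    have : z ^ n = F n c z - c := by unfold F; ring
    rw [this]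
    exact norm_sub_le _ _
  rw [norm_pow] at h2
  have := norm_nonneg c
  nlinarith

lemma CNT_root {n k : ℕ} (hn : 2 ≤ n) (hk : 1 ≤ k) {c z : ℂ} (h : (F n c)^[k] z = z) :
    ‖z‖ ≤ 2 + ‖c‖ := by
  by_contra hlt
  push Not at hlt
  have h1 : ∀ j, ‖z‖ ≤ ‖(F n c)^[j] z‖ ∧ ‖z‖ < ‖(F n c)^[j + 1] z‖ := by
    intro j
    induction j with
    | zero => exact ⟨le_rfl, by simpa using CNT_grow hn hlt⟩
    | succ j ih =>
      refine ⟨ih.2.le, ?_⟩
      rw [Function.iterate_succ_apply']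
      exact ih.2.trans (CNT_grow hn (hlt.trans ih.2))
  obtain ⟨j, rfl⟩ : ∃ j, k = j + 1 := ⟨k - 1, by omega⟩
  have := (h1 j).2
  rw [h] at this
  exact lt_irrefl _ this

lemma CNT_bound {n k : ℕ} (hn : 2 ≤ n) (hk : 1 ≤ k) (w c0 : ℂ) : ∃ B : ℝ, 1 ≤ B ∧
    ∀ c ∈ Metric.closedBall c0 1, ∀ z ∈ (FPol n c k - Polynomial.X).roots,
      ‖w - Rho n k c z‖ ≤ B := by
  have hK : IsCompact (Metric.closedBall c0 1 ×ˢ Metric.closedBall (0 : ℂ) (3 + ‖c0‖)) :=
    (isCompact_closedBall _ _).prod (isCompact_closedBall _ _)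
  obtain ⟨B, hB⟩ := hK.exists_bound_of_continuousOn
    (f := fun q : ℂ × ℂ => w - Rho n k q.1 q.2) (continuous_const.sub (CNT_contR n k)).continuousOn
  refine ⟨max B 1, le_max_right _ _, ?_⟩
  intro c hc z hz
  refine (hB (c, z) ⟨hc, ?_⟩).trans (le_max_left _ _)
  rw [mem_closedBall_zero_iff]
  have h1 := CNT_root hn hk ((CNT_mem hn hk c z).mp hz)
  have h2 : ‖c‖ ≤ ‖c0‖ + 1 := by
    rw [mem_closedBall_iff_norm] at hc
    calc ‖c‖ = ‖c0 + (c - c0)‖ := by congr 1; ring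
      _ ≤ ‖c0‖ + ‖c - c0‖ := norm_add_le _ _
      _ ≤ _ := by linarith
  linarith

lemma CNT_mb (M : Multiset ℂ) (f : ℂ → ℂ) (B : ℝ) (hB : 1 ≤ B) (h : ∀ z ∈ M, ‖f z‖ ≤ B) :
    ‖(M.map f).prod‖ ≤ B ^ M.card := by
  induction M using Multiset.induction with
  | empty => simp
  | cons a M ih =>
    rw [Multiset.map_cons, Multiset.prod_cons, Multiset.card_cons, pow_succ, norm_mul, mul_comm]
    have h1 := ih (fun z hz => h z (Multiset.mem_cons_of_mem hz))
    have h2 := h a (Multiset.mem_cons_self a M)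
    exact mul_le_mul h1 h2 (norm_nonneg _) (by positivity)

lemma CNT_mprod (M : Multiset ℂ) (T : Finset ℂ) (hT : ∀ z ∈ T, z ∈ M) (f : ℂ → ℂ) (B : ℝ)
    (N : ℕ) (hB : 1 ≤ B) (h : ∀ z ∈ M, ‖f z‖ ≤ B) (hN : M.card ≤ N) :
    ‖(M.map f).prod‖ ≤ B ^ N * ∏ z ∈ T, ‖f z‖ := by
  have hle : T.val ≤ M := (Multiset.le_iff_subset T.nodup).mpr (fun z hz => hT z hz)
  obtain ⟨M', rfl⟩ := Multiset.le_iff_exists_add.mp hle
  rw [Multiset.map_add, Multiset.prod_add, norm_mul, mul_comm]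
  have e : (Multiset.map f T.val).prod = ∏ z ∈ T, f z := rfl
  rw [e, norm_prod]
  apply mul_le_mul_of_nonneg_right _ (Finset.prod_nonneg fun _ _ => norm_nonneg _)
  refine (CNT_mb M' f B hB (fun z hz => h z (Multiset.mem_add.mpr (Or.inr hz)))).trans ?_
  apply pow_le_pow_right₀ hB
  rw [Multiset.card_add] at hN
  omega

lemma CNT_order (P : Polynomial ℂ) (hP : P ≠ 0) (c0 : ℂ) (m : ℕ)
    (h : (fun c => P.eval c) =O[𝓝 c0] (fun c => (c - c0) ^ m)) : m ≤ P.rootMultiplicity c0 := by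
  by_contra hlt
  push Not at hlt
  obtain ⟨Q, hQ, hnd⟩ := P.exists_eq_pow_rootMultiplicity_mul_and_not_dvd hP c0
  set μ := P.rootMultiplicity c0 with hμ
  have hQ0 : Q.eval c0 ≠ 0 := by
    intro h0
    exact hnd (Polynomial.dvd_iff_isRoot.mpr h0)
  obtain ⟨C, hC⟩ := h.bound
  have h1 : ∀ᶠ c in 𝓝[≠] c0, ‖Q.eval c‖ ≤ C * ‖c - c0‖ ^ (m - μ) := by
    filter_upwards [hC.filter_mono nhdsWithin_le_nhds, self_mem_nhdsWithin] with c hc hne
    have hne' : c - c0 ≠ 0 := sub_ne_zero.mpr hne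
    have hpos : 0 < ‖c - c0‖ ^ μ := pow_pos (norm_pos_iff.mpr hne') μ
    rw [hQ, Polynomial.eval_mul, Polynomial.eval_pow, Polynomial.eval_sub, Polynomial.eval_X,
      Polynomial.eval_C, norm_mul, norm_pow, norm_pow] at hc
    have e : ‖c - c0‖ ^ m = ‖c - c0‖ ^ μ * ‖c - c0‖ ^ (m - μ) := by
      rw [← pow_add]
      congr 1
      omega
    rw [e] at hc
    apply le_of_mul_le_mul_left _ hpos
    linarith
  have h2 : Tendsto (fun c => ‖Q.eval c‖) (𝓝[≠] c0) (𝓝 ‖Q.eval c0‖) :=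
    ((Q.continuous.norm).tendsto c0).mono_left nhdsWithin_le_nhds
  have h3 : Tendsto (fun c : ℂ => C * ‖c - c0‖ ^ (m - μ)) (𝓝[≠] c0) (𝓝 0) := by
    have : Tendsto (fun c : ℂ => C * ‖c - c0‖ ^ (m - μ)) (𝓝 c0) (𝓝 (C * ‖c0 - c0‖ ^ (m - μ))) :=
      (Continuous.tendsto (by fun_prop) c0)
    rw [sub_self, norm_zero, zero_pow (by omega), mul_zero] at this
    exact this.mono_left nhdsWithin_le_nhds
  have h4 := le_of_tendsto_of_tendsto h2 h3 h1
  exact hQ0 (norm_le_zero_iff.mp h4)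

lemma CNT_prodO {ι : Type} [DecidableEq ι] (T : Finset ι) (f g : ι → ℂ → ℂ) (l : Filter ℂ)
    (h : ∀ i ∈ T, f i =O[l] g i) :
    (fun c => ∏ i ∈ T, f i c) =O[l] (fun c => ∏ i ∈ T, g i c) := by
  induction T using Finset.induction_on with
  | empty => simpa using Asymptotics.isBigO_refl (fun _ : ℂ => (1 : ℂ)) l
  | insert a T ha ih =>
    simp only [Finset.prod_insert ha]
    exact (h a (Finset.mem_insert_self a T)).mul
      (ih (fun i hi => h i (Finset.mem_insert_of_mem hi)))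

lemma CNT_fibre (n k : ℕ) (w c0 : ℂ) (hn : 2 ≤ n) (hk : 1 ≤ k) (T : Finset (ℂ × ℂ))
    (hT : ∀ x ∈ T, x.1 = c0) (m : ℂ × ℂ → ℕ) (zf : ℂ × ℂ → ℂ → ℂ)
    (hz0 : ∀ x ∈ T, zf x c0 = x.2) (hcont : ∀ x ∈ T, ContinuousAt (zf x) c0)
    (hfix : ∀ x ∈ T, ∀ᶠ c in 𝓝 c0, (F n c)^[k] (zf x c) = zf x c)
    (hO : ∀ x ∈ T, (fun c => w - Rho n k c (zf x c)) =O[𝓝 c0] (fun c => (c - c0) ^ (m x)))
    (P : Polynomial ℂ) (hP0 : P ≠ 0)
    (hP : ∀ c : ℂ, P.eval c
      = ((FPol n c k - Polynomial.X).roots.map (fun z => w - Rho n k c z)).prod) :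
    ∑ x ∈ T, m x ≤ P.rootMultiplicity c0 := by
  apply CNT_order P hP0
  obtain ⟨B, hB1, hB⟩ := CNT_bound hn hk w c0
  have h1 : (fun c => P.eval c) =O[𝓝 c0] (fun c => ∏ x ∈ T, (w - Rho n k c (zf x c))) := by
    apply Asymptotics.IsBigO.of_bound (B ^ (n ^ k))
    have e1 : ∀ᶠ c in 𝓝 c0, c ∈ Metric.closedBall c0 1 :=
      Metric.closedBall_mem_nhds c0 one_pos
    have e2 : ∀ᶠ c in 𝓝 c0, ∀ x ∈ T, (F n c)^[k] (zf x c) = zf x c :=
      (Finset.eventually_all T).mpr hfix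
    have e3 : ∀ᶠ c in 𝓝 c0, ∀ x ∈ T, ∀ y ∈ T, x ≠ y → zf x c ≠ zf y c := by
      refine (Finset.eventually_all T).mpr fun x hx => (Finset.eventually_all T).mpr fun y hy => ?_
      by_cases hxy : x = y
      · exact Filter.Eventually.of_forall fun c h => absurd hxy h
      · have hne : zf x c0 ≠ zf y c0 := by
          rw [hz0 x hx, hz0 y hy]
          intro h
          exact hxy (Prod.ext ((hT x hx).trans (hT y hy).symm) h)
        have h3 : ∀ᶠ c in 𝓝 c0, zf x c - zf y c ≠ 0 :=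
          ((hcont x hx).sub (hcont y hy)).eventually_ne (sub_ne_zero.mpr hne)
        filter_upwards [h3] with c hc _
        exact sub_ne_zero.mp hc
    filter_upwards [e1, e2, e3] with c hc1 hc2 hc3
    rw [hP c, norm_prod]
    have hinj : ∀ x ∈ T, ∀ y ∈ T, zf x c = zf y c → x = y := by
      intro x hx y hy h
      by_contra hne
      exact hc3 x hx y hy hne h
    have := CNT_mprod (FPol n c k - Polynomial.X).roots (T.image (fun x => zf x c)) (by
      intro z hz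
      obtain ⟨x, hx, rfl⟩ := Finset.mem_image.mp hz
      exact (CNT_mem hn hk c _).mpr (hc2 x hx)) (fun z => w - Rho n k c z) B (n ^ k) hB1
      (hB c hc1) (CNT_card hn hk c)
    rw [Finset.prod_image hinj] at this
    exact this
  refine h1.trans ?_
  have h2 := CNT_prodO T (fun x c => w - Rho n k c (zf x c)) (fun x c => (c - c0) ^ (m x))
    (𝓝 c0) hO
  simp only [Finset.prod_pow_eq_pow_sum] at h2
  exact h2

lemma CNT_all (hMP : T_MP) (n k : ℕ) (w : ℂ) (hn : 2 ≤ n) (hk : 1 ≤ k) (S : Finset (ℂ × ℂ))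
    (m : ℂ × ℂ → ℕ) (zf : ℂ × ℂ → ℂ → ℂ)
    (hz0 : ∀ x ∈ S, zf x x.1 = x.2) (hcont : ∀ x ∈ S, ContinuousAt (zf x) x.1)
    (hfix : ∀ x ∈ S, ∀ᶠ c in 𝓝 x.1, (F n c)^[k] (zf x c) = zf x c)
    (hO : ∀ x ∈ S, (fun c => w - Rho n k c (zf x c)) =O[𝓝 x.1] (fun c => (c - x.1) ^ (m x))) :
    ∑ x ∈ S, m x ≤ k * (n - 1) * n ^ (k - 1) := by
  obtain ⟨P, hP0, hPd, hP⟩ := hMP n k w hn hk
  refine le_trans ?_ hPd
  refine le_trans ?_ (Polynomial.card_roots' P)
  have hm : ∀ x ∈ S, x.1 ∈ S.image Prod.fst := fun x hx => Finset.mem_image_of_mem _ hx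
  rw [← Finset.sum_fiberwise_of_maps_to hm]
  have h1 : ∀ c0 ∈ S.image Prod.fst, ∑ x ∈ S.filter (fun x => x.1 = c0), m x
      ≤ P.roots.count c0 := by
    intro c0 _
    rw [Polynomial.count_roots]
    have hmem : ∀ x ∈ S.filter (fun x => x.1 = c0), x ∈ S ∧ x.1 = c0 := fun x hx =>
      Finset.mem_filter.mp hx
    refine CNT_fibre n k w c0 hn hk _ (fun x hx => (hmem x hx).2) m zf ?_ ?_ ?_ ?_ P hP0 hP
    · intro x hx
      obtain ⟨h, e⟩ := hmem x hx
      rw [← e]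
      exact hz0 x h
    · intro x hx
      obtain ⟨h, e⟩ := hmem x hx
      rw [← e]
      exact hcont x h
    · intro x hx
      obtain ⟨h, e⟩ := hmem x hx
      rw [← e]
      exact hfix x h
    · intro x hx
      obtain ⟨h, e⟩ := hmem x hx
      rw [← e]
      exact hO x h
  refine (Finset.sum_le_sum h1).trans ?_
  calc ∑ c0 ∈ S.image Prod.fst, P.roots.count c0
      ≤ ∑ c0 ∈ S.image Prod.fst ∪ P.roots.toFinset, P.roots.count c0 :=
        Finset.sum_le_sum_of_subset Finset.subset_union_left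
    _ = P.roots.card := Multiset.sum_count_eq_card (fun a ha =>
        Finset.mem_union_right _ (Multiset.mem_toFinset.mpr ha))

lemma CNT_O1 {n k : ℕ} {x : ℂ × ℂ} {w : ℂ} {δ r : ℝ} {zf : ℂ → ℂ}
    (h : LocFix n k x.1 x.2 δ r zf) (hw : Rho n k x.1 x.2 = w) :
    (fun c => w - Rho n k c (zf c)) =O[𝓝 x.1] (fun c => (c - x.1) ^ 1) := by
  have hd := CNT_diffR n k zf _ h.diff
  have hb : Metric.ball x.1 δ ∈ 𝓝 x.1 := Metric.ball_mem_nhds _ h.hδ
  have hd1 := (hd.differentiableAt hb).isBigO_sub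
  have e : ∀ c, w - Rho n k c (zf c) = -(Rho n k c (zf c) - Rho n k x.1 (zf x.1)) := by
    intro c
    rw [h.zf0, hw]
    ring
  simp only [e, pow_one]
  exact hd1.neg_left

lemma CNT_O2 {n k : ℕ} {x : ℂ × ℂ} {w : ℂ} {δ r : ℝ} {zf : ℂ → ℂ}
    (h : LocFix n k x.1 x.2 δ r zf) (hw : Rho n k x.1 x.2 = w)
    (h0 : deriv (fun c => Rho n k c (zf c)) x.1 = 0) :
    (fun c => w - Rho n k c (zf c)) =O[𝓝 x.1] (fun c => (c - x.1) ^ 2) := by
  have hd := CNT_diffR n k zf _ h.diff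
  have hb : Metric.ball x.1 δ ∈ 𝓝 x.1 := Metric.ball_mem_nhds _ h.hδ
  have hs := (Complex.differentiableOn_dslope hb).mpr hd
  have hd1 := (hs.differentiableAt hb).isBigO_sub
  rw [dslope_same, h0] at hd1
  have e : ∀ c, w - Rho n k c (zf c)
      = -((c - x.1) * (dslope (fun c => Rho n k c (zf c)) x.1 c - 0)) := by
    intro c
    have := sub_smul_dslope (fun c => Rho n k c (zf c)) x.1 c
    simp only [smul_eq_mul] at this
    rw [sub_zero, this, h.zf0, hw]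
    ring
  simp only [e, pow_two]
  exact ((Asymptotics.isBigO_refl _ _).mul hd1).neg_left

theorem p_CNT (hMP : T_MP) (hLOCZ : T_LOCZ) : T_CNT := by
  intro n k w S hn hk hw hS
  have hgerm : ∀ x : ℂ × ℂ, ∃ zf : ℂ → ℂ, x ∈ S → ∃ δ r : ℝ, LocFix n k x.1 x.2 δ r zf := by
    intro x
    by_cases hx : x ∈ S
    · obtain ⟨h1, h2⟩ := hS x hx
      obtain ⟨δ, r, zf, _, _, h⟩ := hLOCZ n k x.1 x.2 1 hn one_pos h1 (by rw [h2]; exact hw)
      exact ⟨zf, fun _ => ⟨δ, r, h⟩⟩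
    · exact ⟨fun _ => 0, fun h => absurd h hx⟩
  choose zf hzf using hgerm
  have hfix : ∀ (x : ℂ × ℂ) (δ r : ℝ) (g : ℂ → ℂ), LocFix n k x.1 x.2 δ r g →
      ∀ᶠ c in 𝓝 x.1, (F n c)^[k] (g c) = g c := by
    intro x δ r g h
    filter_upwards [Metric.ball_mem_nhds x.1 h.hδ] with c hc
    exact h.fix c hc
  have hct : ∀ (x : ℂ × ℂ) (δ r : ℝ) (g : ℂ → ℂ), LocFix n k x.1 x.2 δ r g →
      ContinuousAt g x.1 := by
    intro x δ r g h
    exact (h.diff.differentiableAt (Metric.ball_mem_nhds x.1 h.hδ)).continuousAt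
  constructor
  · have := CNT_all hMP n k w hn hk S (fun _ => 1) zf
      (fun x hx => by obtain ⟨δ, r, h⟩ := hzf x hx; exact h.zf0)
      (fun x hx => by obtain ⟨δ, r, h⟩ := hzf x hx; exact hct x δ r _ h)
      (fun x hx => by obtain ⟨δ, r, h⟩ := hzf x hx; exact hfix x δ r _ h)
      (fun x hx => by obtain ⟨δ, r, h⟩ := hzf x hx; exact CNT_O1 h (hS x hx).2)
    simpa using this
  · intro x0 hx0 δ0 r0 g hg hg0
    have hzf' : ∀ x ∈ S, ∃ δ r : ℝ, LocFix n k x.1 x.2 δ r (if x = x0 then g else zf x) := by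
      intro x hx
      by_cases h : x = x0
      · subst h
        rw [if_pos rfl]
        exact ⟨δ0, r0, hg⟩
      · rw [if_neg h]
        exact hzf x hx
    have := CNT_all hMP n k w hn hk S (fun x => if x = x0 then 2 else 1)
      (fun x => if x = x0 then g else zf x)
      (fun x hx => by obtain ⟨δ, r, h⟩ := hzf' x hx; exact h.zf0)
      (fun x hx => by obtain ⟨δ, r, h⟩ := hzf' x hx; exact hct x δ r _ h)
      (fun x hx => by obtain ⟨δ, r, h⟩ := hzf' x hx; exact hfix x δ r _ h)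
      (fun x hx => by
        by_cases h : x = x0
        · subst h
          simp only [if_true]
          exact CNT_O2 hg (hS _ hx).2 hg0
        · obtain ⟨δ, r, h'⟩ := hzf' x hx
          simp only [if_neg h] at h' ⊢
          exact CNT_O1 h' (hS x hx).2)
    have e : ∑ x ∈ S, (if x = x0 then 2 else 1) = S.card + 1 := by
      have : ∀ x, (if x = x0 then 2 else 1) = 1 + (if x = x0 then 1 else 0) := by
        intro x; split_ifs <;> rfl
      simp only [this, Finset.sum_add_distrib, Finset.sum_ite_eq', if_pos hx0]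
      simp
    rw [e] at this
    exact this

end Pool.Agent.PLim
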