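import Pool.Agent.PLim.Targets2
import Pool.Agent.PLim.CNT

set_option autoImplicit false

open Complex Filter Topology Set MeasureTheory
open Pool.Agent.Multibrot Pool.Agent.Limb

namespace Pool.Agent.PLim

namespace SECT_

/-- the fixed points of `f ^ k` over `‖c‖ ≤ 16` -/
def EE (n k : ℕ) : Set (ℂ × ℂ) := {x | (F n x.1)^[k] x.2 = x.2 ∧ ‖x.1‖ ≤ 16}

theorem EE_compact {n k : ℕ} (hn : 2 ≤ n) (hk : 1 ≤ k) : IsCompact (EE n k) := by
  have hcl : IsClosed (EE n k) := by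
    have h1 : IsClosed {x : ℂ × ℂ | (F n x.1)^[k] x.2 = x.2} :=
      isClosed_eq (CNT_contI n k) continuous_snd
    have h2 : IsClosed {x : ℂ × ℂ | ‖x.1‖ ≤ 16} :=
      isClosed_le (continuous_norm.comp continuous_fst) continuous_const
    exact h1.inter h2
  have hK : IsCompact (Metric.closedBall (0 : ℂ) 16 ×ˢ Metric.closedBall (0 : ℂ) 18) :=
    (isCompact_closedBall _ _).prod (isCompact_closedBall _ _)
  refine hK.of_isClosed_subset hcl ?_
  rintro ⟨c, z⟩ ⟨h1, h2⟩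
  have h3 := CNT_root hn hk h1
  have h2' : ‖c‖ ≤ 16 := h2
  have h3' : ‖z‖ ≤ 2 + ‖c‖ := h3
  refine ⟨?_, ?_⟩
  · rw [mem_closedBall_zero_iff]; exact h2'
  · rw [mem_closedBall_zero_iff]
    show ‖z‖ ≤ 18
    linarith

/-- the multiplier map -/
noncomputable def ff (n k : ℕ) : EE n k → ℂ := fun x => Rho n k x.1.1 x.1.2

theorem ff_cont (n k : ℕ) : Continuous (ff n k) := (CNT_contR n k).comp continuous_subtype_val

theorem ff_local {n k : ℕ} (x : EE n k) (hx : ‖x.1.1‖ < 16) {δ r : ℝ} {zf : ℂ → ℂ}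
    (hL : LocFix n k x.1.1 x.1.2 δ r zf)
    (hd : deriv (fun c => Rho n k c (zf c)) x.1.1 ≠ 0) :
    ∃ U ∈ 𝓝 x, IsOpenEmbedding (U.domRestrict (ff n k)) := by
  set c1 : ℂ := x.1.1 with hc1
  set z1 : ℂ := x.1.2 with hz1
  set g : ℂ → ℂ := fun c => Rho n k c (zf c) with hg
  have hgd : DifferentiableOn ℂ g (Metric.ball c1 δ) :=
    CNT_diffR n k zf _ hL.diff
  have hball : Metric.ball c1 δ ∈ 𝓝 c1 := Metric.ball_mem_nhds _ hL.hδ
  have hgs : HasStrictDerivAt g (deriv g c1) c1 := (hgd.analyticAt hball).hasStrictDerivAt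
  set e0 := hgs.hasStrictFDerivAt_equiv hd
  set e := e0.toOpenPartialHomeomorph g with he
  have hes : c1 ∈ e.source := e0.mem_toOpenPartialHomeomorph_source
  set V : Set ℂ := e.source ∩ (Metric.ball c1 δ ∩ Metric.ball 0 16) with hV
  have hVo : IsOpen V := e.open_source.inter (Metric.isOpen_ball.inter Metric.isOpen_ball)
  have hc1V : c1 ∈ V := ⟨hes, Metric.mem_ball_self hL.hδ, by
    rw [mem_ball_zero_iff]; exact hx⟩
  set U : Set (EE n k) := {y | y.1.1 ∈ V ∧ y.1.2 ∈ Metric.ball z1 r} with hU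
  have hUo : IsOpen U := by
    have h1 : Continuous (fun y : EE n k => y.1.1) := continuous_fst.comp continuous_subtype_val
    have h2 : Continuous (fun y : EE n k => y.1.2) := continuous_snd.comp continuous_subtype_val
    exact (hVo.preimage h1).inter (Metric.isOpen_ball.preimage h2)
  have hxU : x ∈ U := ⟨hc1V, Metric.mem_ball_self hL.hr⟩
  refine ⟨U, hUo.mem_nhds hxU, ?_⟩
  have hzf : ∀ y ∈ U, y.1.2 = zf y.1.1 := fun y hy =>
    hL.uniq y.1.1 hy.1.2.1 y.1.2 hy.2 y.2.1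
  -- the homeomorphism
  have hmem : ∀ c ∈ V, ((c, zf c) : ℂ × ℂ) ∈ EE n k := by
    intro c hc
    refine ⟨hL.fix c hc.2.1, ?_⟩
    have := hc.2.2
    rw [mem_ball_zero_iff] at this
    exact this.le
  let H : U ≃ₜ V :=
    { toFun := fun y => ⟨y.1.1.1, y.2.1⟩
      invFun := fun c => ⟨⟨(c.1, zf c.1), hmem c.1 c.2⟩, c.2, hL.mem c.1 c.2.2.1⟩
      left_inv := by
        intro y
        apply Subtype.ext
        apply Subtype.ext
        exact Prod.ext rfl (hzf y.1 y.2).symm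
      right_inv := by
        intro c
        rfl
      continuous_toFun := by
        have h1 : Continuous (fun y : U => y.1.1.1) :=
          continuous_fst.comp (continuous_subtype_val.comp continuous_subtype_val)
        exact h1.subtype_mk _
      continuous_invFun := by
        have h1 : Continuous (fun c : V => ((c.1, zf c.1) : ℂ × ℂ)) := by
          refine continuous_subtype_val.prodMk ?_
          exact (continuousOn_iff_continuous_domRestrict.mp
            (hL.diff.continuousOn.mono fun c hc => hc.2.1))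
        exact (h1.subtype_mk _).subtype_mk _ }
  have hVemb : IsOpenEmbedding (V.domRestrict e) := by
    refine e.isOpenEmbedding_restrict.comp ⟨.inclusion inter_subset_left, ?_⟩
    rw [Set.range_inclusion]
    exact isOpen_induced hVo
  have hcomp := hVemb.comp H.isOpenEmbedding
  have heq : (V.domRestrict e) ∘ H = U.domRestrict (ff n k) := by
    funext y
    show g y.1.1.1 = Rho n k y.1.1.1 y.1.1.2
    rw [hzf y.1 y.2]
  rw [← heq]
  exact hcomp

end SECT_

open SECT_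

theorem p_SECT (hNC : T_NC) (hTR : T_TRANS) (hBIG : T_BIG) (hLOCZ : T_LOCZ) : T_SECT := by
  intro n hn
  obtain ⟨C0, hC0, hNC'⟩ := hNC n hn
  refine ⟨max (4 * C0) 10, le_trans (by norm_num) (le_max_right _ _), ?_⟩
  intro k r z0 τ η hk hτ0 hτ1 hz hR hη
  set C : ℝ := max (4 * C0) 10 with hC
  have hC10 : 10 ≤ C := le_max_right _ _
  have hC4 : 4 * C0 ≤ C := le_max_left _ _
  have hk1 : (1 : ℝ) ≤ k := by exact_mod_cast hk
  have hpi := Real.pi_pos
  have hpi2 := Real.pi_lt_d2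
  set τ' : ℝ := min τ (2 * Real.pi - τ) with hτ'
  have hτ'0 : 0 < τ' := lt_min hτ0 (by linarith)
  have hτ'π : τ' ≤ Real.pi := by
    by_contra h
    push Not at h
    have h1 : τ' ≤ τ := min_le_left _ _
    have h2 : τ' ≤ 2 * Real.pi - τ := min_le_right _ _
    linarith
  have hCk : 10 ≤ C * k := by nlinarith
  have hCk0 : 0 < C * k := by linarith
  have hη0 : 0 < η := by rw [hη]; positivity
  have hη1 : η ≤ τ' ^ 2 / 10 := by
    rw [hη]
    exact div_le_div_of_nonneg_left (by positivity) (by norm_num) hCk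
  have hη2 : η < τ' / 2 := by
    nlinarith
  have hη3 : η < 1 := by nlinarith
  have hη4 : η ≤ 1 / (C0 * k) * (τ' / 2) ^ 2 := by
    rw [hη]
    have h1 : 1 / (C0 * k) * (τ' / 2) ^ 2 = τ' ^ 2 / (4 * C0 * k) := by
      field_simp
      norm_num
    rw [h1]
    refine div_le_div_of_nonneg_left (by positivity) (by positivity) ?_
    exact mul_le_mul_of_nonneg_right hC4 (by linarith)
  set B : Set ℂ := Metric.ball ((τ : ℂ) * I) η with hB
  have hBτ : ∀ μ ∈ B, |μ.re| < η ∧ |μ.im - τ| < η := by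
    intro μ hμ
    rw [hB, mem_ball_iff_norm] at hμ
    have h1 := abs_re_le_norm (μ - (τ : ℂ) * I)
    have h2 := abs_im_le_norm (μ - (τ : ℂ) * I)
    simp only [sub_re, mul_re, ofReal_re, I_re, mul_zero, ofReal_im, I_im, mul_one, sub_self,
      sub_zero, sub_im, mul_im, add_zero] at h1 h2
    exact ⟨lt_of_le_of_lt h1 hμ, lt_of_le_of_lt h2 hμ⟩
  have hBim : ∀ μ ∈ B, τ' / 2 ≤ min μ.im (2 * Real.pi - μ.im) := by
    intro μ hμ
    have h1 := (abs_lt.mp (hBτ μ hμ).2)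
    have h2 : τ' ≤ τ := min_le_left _ _
    have h3 : τ' ≤ 2 * Real.pi - τ := min_le_right _ _
    refine le_min ?_ ?_
    · linarith
    · linarith
  have hBim0 : ∀ μ ∈ B, 0 < μ.im ∧ μ.im < 2 * Real.pi := by
    intro μ hμ
    have h1 := hBim μ hμ
    have h2 := min_le_left μ.im (2 * Real.pi - μ.im)
    have h3 := min_le_right μ.im (2 * Real.pi - μ.im)
    constructor <;> linarith
  have hBne : ∀ μ ∈ B, exp μ ≠ 1 := by
    intro μ hμ h
    rw [Complex.exp_eq_one_iff] at h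
    obtain ⟨m, hm⟩ := h
    have h1 := hBim0 μ hμ
    have h2 : μ.im = 2 * Real.pi * m := by
      rw [hm]
      simp
      ring
    rw [h2] at h1
    have h3 : (0 : ℝ) < m := by
      by_contra h3
      push Not at h3
      nlinarith [h1.1]
    have h4 : (m : ℝ) < 1 := by
      by_contra h4
      push Not at h4
      nlinarith [h1.2]
    have h5 : 0 < m := by exact_mod_cast h3
    have h6 : m < 1 := by exact_mod_cast h4
    omega
  have hBnorm : ∀ μ ∈ B, ‖exp μ‖ < Real.exp 1 := by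
    intro μ hμ
    rw [Complex.norm_exp]
    have := (abs_lt.mp (hBτ μ hμ).1).2
    exact Real.exp_lt_exp.mpr (by linarith)
  have hgood : ∀ c z μ : ℂ, μ ∈ B → (F n c)^[k] z = z → Rho n k c z = exp μ → ‖c‖ < 16 ∧
      ∃ (δ' r' : ℝ) (zf : ℂ → ℂ), LocFix n k c z δ' r' zf ∧
        deriv (fun c => Rho n k c (zf c)) c ≠ 0 := by
    intro c z μ hμ hfix hRho
    have h1 : ‖c‖ < 16 := by
      by_contra h
      push Not at h
      have h2 := hBIG n k c z hn hk h hfix
      rw [hRho] at h2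
      exact lt_asymm h2 (hBnorm μ hμ)
    refine ⟨h1, ?_⟩
    obtain ⟨δ', r', zf, -, -, hL⟩ := hLOCZ n k c z 1 hn one_pos hfix (by
      rw [hRho]; exact hBne μ hμ)
    refine ⟨δ', r', zf, hL, ?_⟩
    rcases le_or_gt μ.re 0 with h2 | h2
    · refine hTR n k c z δ' r' zf hn hk hL ?_ ?_ ?_
      · rw [hRho]; exact exp_ne_zero _
      · rw [hRho, Complex.norm_exp]
        exact Real.exp_le_one_iff.mpr h2
      · rw [hRho]; exact hBne μ hμ
    · refine hNC' k c z μ δ' r' zf hk hL hRho ⟨h2, (hBim0 μ hμ).1, (hBim0 μ hμ).2, ?_⟩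
      have h3 := (abs_lt.mp (hBτ μ hμ).1).2
      have h4 := hBim μ hμ
      refine lt_of_lt_of_le h3 (hη4.trans ?_)
      have h5 : (τ' / 2) ^ 2 ≤ (min μ.im (2 * Real.pi - μ.im)) ^ 2 :=
        pow_le_pow_left₀ (by positivity) h4 2
      exact mul_le_mul_of_nonneg_left h5 (by positivity)
  -- the covering
  have hEc : CompactSpace (EE n k) := isCompact_iff_compactSpace.mp (EE_compact hn hk)
  have hloc : IsLocalHomeomorphOn (ff n k) (ff n k ⁻¹' (exp '' B)) := by
    rw [isLocalHomeomorphOn_iff_isOpenEmbedding_restrict]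
    rintro x ⟨μ, hμ, hx⟩
    obtain ⟨h1, δ', r', zf, hL, hd⟩ := hgood x.1.1 x.1.2 μ hμ x.2.1 hx.symm
    exact ff_local x h1 hL hd
  have cov := IsCoveringMapOn.of_isLocalHomeomorphOn (ff_cont n k) hloc
  have hcen : (τ : ℂ) * I ∈ B := Metric.mem_ball_self hη0
  have hcontr : ContractibleSpace B :=
    (convex_ball ((τ : ℂ) * I) η).contractibleSpace ⟨_, hcen⟩
  have hlpc : LocallyPathConnectedSpace B := Metric.isOpen_ball.locallyPathConnectedSpace
  let fB : C(B, ℂ) := ⟨fun μ => exp μ.1, by fun_prop⟩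
  have hr16 : ‖r‖ < 16 := (hgood r z0 _ hcen hz (by rw [hR])).1
  obtain ⟨Fl, ⟨hF0, hF⟩, -⟩ := cov.existsUnique_continuousMap_lifts fB
    (a₀ := ⟨(τ : ℂ) * I, hcen⟩) (e₀ := ⟨(r, z0), hz, hr16.le⟩) (by
      show Rho n k r z0 = exp ((τ : ℂ) * I)
      rw [hR]) (fun a => ⟨a.1, a.2, rfl⟩)
  classical
  set ψ : ℂ → ℂ := fun μ => if h : μ ∈ B then (Fl ⟨μ, h⟩).1.1 else 0 with hψ
  set χ : ℂ → ℂ := fun μ => if h : μ ∈ B then (Fl ⟨μ, h⟩).1.2 else 0 with hχ
  have hψv : ∀ (μ : ℂ) (h : μ ∈ B), ψ μ = (Fl ⟨μ, h⟩).1.1 := fun μ h => by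
    simp only [hψ, dif_pos h]
  have hχv : ∀ (μ : ℂ) (h : μ ∈ B), χ μ = (Fl ⟨μ, h⟩).1.2 := fun μ h => by
    simp only [hχ, dif_pos h]
  have hψc : ContinuousOn ψ B := by
    rw [continuousOn_iff_continuous_domRestrict]
    have : B.domRestrict ψ = fun μ : B => (Fl μ).1.1 := by
      funext μ
      exact hψv μ.1 μ.2
    rw [this]
    exact continuous_fst.comp (continuous_subtype_val.comp Fl.continuous)
  have hχc : ContinuousOn χ B := by
    rw [continuousOn_iff_continuous_domRestrict]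
    have : B.domRestrict χ = fun μ : B => (Fl μ).1.2 := by
      funext μ
      exact hχv μ.1 μ.2
    rw [this]
    exact continuous_snd.comp (continuous_subtype_val.comp Fl.continuous)
  have hfixμ : ∀ μ ∈ B, (F n (ψ μ))^[k] (χ μ) = χ μ ∧ Rho n k (ψ μ) (χ μ) = exp μ ∧
      ‖ψ μ‖ ≤ 16 := by
    intro μ hμ
    rw [hψv μ hμ, hχv μ hμ]
    refine ⟨(Fl ⟨μ, hμ⟩).2.1, ?_, (Fl ⟨μ, hμ⟩).2.2⟩
    exact congrFun hF ⟨μ, hμ⟩
  have hderiv : ∀ μ ∈ B, ∃ d : ℂ, d ≠ 0 ∧ HasDerivAt ψ d μ := by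
    intro μ hμ
    obtain ⟨h1, h2, h3⟩ := hfixμ μ hμ
    obtain ⟨-, δ', r', zf, hL, hd⟩ := hgood (ψ μ) (χ μ) μ hμ h1 h2
    have hBn : B ∈ 𝓝 μ := Metric.isOpen_ball.mem_nhds hμ
    have hψa : ContinuousAt ψ μ := hψc.continuousAt hBn
    have hχa : ContinuousAt χ μ := hχc.continuousAt hBn
    set g : ℂ → ℂ := fun c => Rho n k c (zf c) with hg
    have hgd : DifferentiableOn ℂ g (Metric.ball (ψ μ) δ') := CNT_diffR n k zf _ hL.diff
    have hgh : HasDerivAt g (deriv g (ψ μ)) (ψ μ) :=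
      (hgd.differentiableAt (Metric.ball_mem_nhds _ hL.hδ)).hasDerivAt
    have hgμ : g (ψ μ) = exp μ := by
      show Rho n k (ψ μ) (zf (ψ μ)) = exp μ
      rw [hL.zf0, h2]
    have hf : HasDerivAt (fun c => log (g c / exp μ) + μ)
        (deriv g (ψ μ) / exp μ / (g (ψ μ) / exp μ)) (ψ μ) := by
      refine ((hgh.div_const (exp μ)).clog ?_).add_const μ
      rw [hgμ, div_self (exp_ne_zero _)]
      exact one_mem_slitPlane
    have hf' : deriv g (ψ μ) / exp μ / (g (ψ μ) / exp μ) ≠ 0 := by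
      rw [hgμ, div_self (exp_ne_zero _), div_one]
      exact div_ne_zero hd (exp_ne_zero _)
    have hfg : ∀ᶠ ν in 𝓝 μ, (fun c => log (g c / exp μ) + μ) (ψ ν) = ν := by
      have a1 : ∀ᶠ ν in 𝓝 μ, ψ ν ∈ Metric.ball (ψ μ) δ' :=
        hψa.eventually (Metric.ball_mem_nhds _ hL.hδ)
      have a2 : ∀ᶠ ν in 𝓝 μ, χ ν ∈ Metric.ball (χ μ) r' :=
        hχa.eventually (Metric.ball_mem_nhds _ hL.hr)
      have a3 : ∀ᶠ ν in 𝓝 μ, ν ∈ Metric.ball μ 1 := Metric.ball_mem_nhds _ one_pos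
      filter_upwards [hBn, a1, a2, a3] with ν b0 b1 b2 b3
      have b4 : χ ν = zf (ψ ν) := hL.uniq (ψ ν) b1 (χ ν) b2 (hfixμ ν b0).1
      have b5 : g (ψ ν) = exp ν := by
        show Rho n k (ψ ν) (zf (ψ ν)) = exp ν
        rw [← b4]
        exact (hfixμ ν b0).2.1
      show log (g (ψ ν) / exp μ) + μ = ν
      rw [b5, ← exp_sub]
      rw [mem_ball_iff_norm] at b3
      have b6 := abs_lt.mp (lt_of_le_of_lt (abs_im_le_norm (ν - μ)) b3)
      rw [log_exp (by linarith [Real.pi_gt_three]) (by linarith [Real.pi_gt_three])]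
      ring
    exact ⟨_, inv_ne_zero hf', HasDerivAt.of_local_left_inverse hψa hf hf' hfg⟩
  refine ⟨ψ, χ, ?_, hχc, ?_, ?_, ?_⟩
  · intro μ hμ
    obtain ⟨d, -, hd⟩ := hderiv μ hμ
    exact hd.differentiableAt.differentiableWithinAt
  · rw [hψv _ hcen, hF0]
  · rw [hχv _ hcen, hF0]
  · intro μ hμ
    obtain ⟨h1, h2, h3⟩ := hfixμ μ hμ
    obtain ⟨d, hd0, hd⟩ := hderiv μ hμ
    refine ⟨h1, h2, h3, ?_⟩
    rw [hd.deriv]
    exact hd0

end Pool.Agent.PLim
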