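import Pool.Agent.PLim.Targets3
import Pool.Agent.Multibrot.Dense

/-!
# PLIM: targets, batch 4: relative forms with constants, and the strong form of the theorem
-/

set_option autoImplicit false

open Complex Filter Topology Set MeasureTheory
open Pool.Agent.Multibrot Pool.Agent.Limb

namespace Pool.Agent.PLim

/-! ### relative forms: `T_X` says that `Xn n C` holds for some `C` depending on `n` -/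

def WSEGn (n : ℕ) (C : ℝ) : Prop :=
  ∀ (t y : ℝ) (f : ℂ → ℂ), 0 < t →
  DifferentiableOn ℂ f {ξ : ℂ | t / 2 < ξ.re ∧ ξ.re < 2 * n * t ∧ |ξ.im - y| < ξ.re} →
  ENNReal.ofReal (‖f ((n * t : ℝ) + y * I) - f ((t : ℝ) + y * I)‖ ^ 2) ≤
    ENNReal.ofReal C * ∫⁻ u in {ξ : ℂ | t / 2 < ξ.re ∧ ξ.re < 2 * n * t ∧ |ξ.im - y| < ξ.re},
      ‖deriv f u‖ₑ ^ 2

def SEGn (n : ℕ) (C : ℝ) : Prop :=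
  ∀ (Λ : ℂ → ℂ → ℂ) (lh ls : ℂ → ℂ → ℂ → ℂ) (c ζ : ℂ) (y : ℝ) (K : ℂ → ℂ) (L : ℝ → ℂ),
  IsBot n Λ → IsLog n Λ lh ls → Crit n Λ c ζ → ζ.re ≤ 6 →
  (∀ m : ℤ, y ≠ ζ.im + 2 * Real.pi * m) →
  DifferentiableOn ℂ K {x : ℂ | G n c x < ζ.re} → InjOn K {x : ℂ | G n c x < ζ.re} →
  (∀ x : ℂ, G n c x < ζ.re → 0 < G n c x → K x ≠ 0) →
  ContinuousOn L (Icc (ζ.re / √n) (ζ.re * √n)) →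
  (∀ t ∈ Icc (ζ.re / √n) (ζ.re * √n), exp (L t) = K (exp (ls c ζ (t + y * I) / n))) →
  ENNReal.ofReal (‖L (ζ.re * √n) - L (ζ.re / √n)‖ ^ 2) ≤
    ENNReal.ofReal C * ∫⁻ x in {x : ℂ | ζ.re / (n : ℝ) ^ 2 < G n c x ∧ G n c x < ζ.re},
      ‖deriv K x / K x‖ₑ ^ 2

def PLYn (n : ℕ) (C : ℝ) : Prop :=
  ∀ (k q : ℕ) (Λ : ℂ → ℂ → ℂ) (c z v : ℂ) (α : ℝ), 1 ≤ k → IsBot n Λ → c ∈ MM n →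
  Ex n k q α → Lands Λ c α z → (F n c)^[k] z = z → 1 < ‖Rho n k c z‖ →
  Disp n k q Λ c α z v → ‖v‖ ^ 2 ≤ C * k * v.re

def DXn (n : ℕ) (C : ℝ) : Prop :=
  ∀ (k : ℕ) (Λ : ℂ → ℂ → ℂ) (lh ls : ℂ → ℂ → ℂ → ℂ) (c ζ z : ℂ) (α : ℝ) (ε : ℕ → ℤ),
  1 ≤ k → IsBot n Λ → IsLog n Λ lh ls → Crit n Λ c ζ → ζ.re ≤ 6 → Ex n k 1 α →
  Cod n (ζ.im / (2 * Real.pi)) α ε → Per k ε → (F n c)^[k] z = z →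
  (∀ j, Dig n lh c ζ ((F n c)^[j] z) (ε j)) →
  ∃ μ : ℂ, exp μ = Rho n k c z ∧ ‖μ‖ ^ 2 ≤ C * k * μ.re

def ZXn (n : ℕ) (C : ℝ) : Prop :=
  ∀ (k : ℕ) (Λ : ℂ → ℂ → ℂ) (lh ls : ℂ → ℂ → ℂ → ℂ) (c ζ z : ℂ) (ε : ℕ → ℤ),
  1 ≤ k → IsBot n Λ → IsLog n Λ lh ls → Crit n Λ c ζ → ‖c‖ ≤ 16 → Per k ε →
  (F n c)^[k] z = z → (∀ j, Dig n lh c ζ ((F n c)^[j] z) (ε j)) →
  IsInt (Rot n k (ζ.im / (2 * Real.pi)) ε) →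
  ∃ μ : ℂ, exp μ = Rho n k c z ∧ ‖μ‖ ^ 2 ≤ C * k * μ.re

def OMXn (n : ℕ) (C : ℝ) : Prop :=
  ∀ (k : ℕ) (Λ : ℂ → ℂ → ℂ) (c z : ℂ),
  1 ≤ k → IsBot n Λ → c ∈ MM n → (F n c)^[k] z = z → 1 < ‖Rho n k c z‖ →
  ∃ w : ℂ, OmR n k Λ c z w ∧ (∀ w' : ℂ, OmR n k Λ c z w' → w' = w) ∧
    (∀ (α : ℝ) (q : ℕ), Ex n k q α → Lands Λ c α z → (q = 1 ↔ w = 1)) ∧
    ∃ (q : ℕ) (ν : ℂ), 1 ≤ q ∧ w ^ q = 1 ∧ exp ν = Rho n k c z * w ∧ ‖ν‖ ^ 2 ≤ C * k / q * ν.re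

def ZVn (n : ℕ) (C : ℝ) : Prop :=
  ∀ (k : ℕ) (Λ : ℂ → ℂ → ℂ) (lh ls : ℂ → ℂ → ℂ → ℂ) (c z : ℂ), 1 ≤ k → IsBot n Λ →
  IsLog n Λ lh ls → (F n c)^[k] z = z → 1 < ‖Rho n k c z‖ → ‖Rho n k c z‖ ≤ Real.exp 1 →
  InZ n k Λ lh c z → ∃ μ : ℂ, exp μ = Rho n k c z ∧ ‖μ‖ ^ 2 ≤ C * k * μ.re

def ONTOn (n : ℕ) (C : ℝ) : Prop :=
  ∀ (k : ℕ) (Λ : ℂ → ℂ → ℂ) (lh ls : ℂ → ℂ → ℂ → ℂ) (l : Label n k) (μ : ℂ), 1 ≤ k →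
  IsBot n Λ → IsLog n Λ lh ls → μ ∈ Vreg (1 / (C * k)) →
  ∃ c z : ℂ, (F n c)^[k] z = z ∧ Rho n k c z = exp μ ∧ LabR n k Λ lh c z l

def NCn (n : ℕ) (C : ℝ) : Prop :=
  ∀ (k : ℕ) (c0 z0 μ : ℂ) (δ r : ℝ) (zf : ℂ → ℂ), 1 ≤ k → LocFix n k c0 z0 δ r zf →
  Rho n k c0 z0 = exp μ → μ ∈ Vreg (1 / (C * k)) →
  deriv (fun c => Rho n k c (zf c)) c0 ≠ 0

def SECTn (n : ℕ) (C : ℝ) : Prop :=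
  ∀ (k : ℕ) (r z0 : ℂ) (τ η : ℝ), 1 ≤ k → 0 < τ → τ < 2 * Real.pi → (F n r)^[k] z0 = z0 →
  Rho n k r z0 = exp (τ * I) → η = (min τ (2 * Real.pi - τ)) ^ 2 / (C * k) →
  ∃ ψ χ : ℂ → ℂ, DifferentiableOn ℂ ψ (Metric.ball (τ * I) η) ∧
    ContinuousOn χ (Metric.ball (τ * I) η) ∧ ψ (τ * I) = r ∧ χ (τ * I) = z0 ∧
    ∀ μ ∈ Metric.ball ((τ : ℂ) * I) η, (F n (ψ μ))^[k] (χ μ) = χ μ ∧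
      Rho n k (ψ μ) (χ μ) = exp μ ∧ ‖ψ μ‖ ≤ 16 ∧ deriv ψ μ ≠ 0

def LIMBn (n : ℕ) (C : ℝ) : Prop :=
  ∀ (k p q : ℕ) (r z0 : ℂ) (A : Set ℂ), 1 ≤ k → 0 < p → p < q → p.Coprime q →
  (F n r)^[k] z0 = z0 → Rho n k r z0 = exp (2 * Real.pi * I * p / q) →
  A ⊆ MM n → (∃ U : Set ℂ, IsOpen U ∧ A = MM n ∩ U) → IsClosed (insert r A) → r ∉ A →
  (0 : ℂ) ∉ A →
  r ∈ MM n ∧ ∀ c ∈ A, ‖c - r‖ * (min p (q - p) : ℕ) ^ 2 ≤ C * k ^ 2 * q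

/-! ### absolute constants -/

/-- WSEGU (from DISP1): as WSEG, with a geometric subdivision. -/
def T_WSEGU : Prop := ∃ C : ℝ, 0 < C ∧ ∀ n : ℕ, 2 ≤ n → WSEGn n (C * Real.log n)

/-- SEGU (from GREEN, DISP1, CHV): as SEG, with `O (log n)` discs. -/
def T_SEGU : Prop := ∃ C : ℝ, 0 < C ∧ ∀ n : ℕ, 2 ≤ n → SEGn n (C * Real.log n)

/-- ANN: almost indifferent cycles exist only in a thin annulus of parameters. -/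
def T_ANN : Prop := ∃ C : ℝ, 0 < C ∧ ∀ (n k : ℕ) (c z : ℂ), 2 ≤ n → 1 ≤ k →
  (F n c)^[k] z = z → 3 / 4 ≤ ‖Rho n k c z‖ → ‖Rho n k c z‖ ≤ 4 / 3 →
  1 - C * Real.log n / n ≤ ‖c‖ ∧ ‖c‖ ≤ 1 + C / n

/-- STRIP: the Schwarz lemma for maps into an annulus. -/
def T_STRIP : Prop := ∃ C : ℝ, 0 < C ∧ ∀ (a : ℂ) (η m₁ m₂ : ℝ) (g : ℂ → ℂ), 0 < η → 0 < m₁ →
  m₁ ≤ m₂ → DifferentiableOn ℂ g (Metric.ball a η) →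
  (∀ x ∈ Metric.ball a η, m₁ ≤ ‖g x‖ ∧ ‖g x‖ ≤ m₂) →
  ∀ x : ℂ, ‖x - a‖ ≤ η / 2 → ‖g x - g a‖ ≤ C * m₂ * Real.log (m₂ / m₁) * ‖x - a‖ / η

/-- COAL (from `coarse'`, `disc_sub`, `MM_bound`, `r0_lower`): the coarse bound for limbs. -/
def T_COAL : Prop := ∃ C : ℝ, 0 < C ∧ ∀ (n k p q : ℕ) (r z0 c : ℂ) (A : Set ℂ), 2 ≤ n →
  IsLimb n k p q r z0 A → c ∈ A → ‖c - r‖ ≤ C * Real.log n / n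

/-- The parametrization of a limb near its root. -/
def LIMBGn (n : ℕ) (C1 C3 : ℝ) : Prop := ∀ (k p q : ℕ) (r z0 : ℂ) (A : Set ℂ) (η : ℝ),
  IsLimb n k p q r z0 A →
  η = (2 * Real.pi * ((min p (q - p) : ℕ) : ℝ) / q) ^ 2 / (C3 * k) → 2 * (C1 * k / q) < η →
  r ∈ MM n ∧ η ≤ 1 / 4 ∧ ∃ ψ χ : ℂ → ℂ, DifferentiableOn ℂ ψ (Metric.ball 0 η) ∧ ψ 0 = r ∧
    (∀ x ∈ Metric.ball (0 : ℂ) η, (F n (ψ x))^[k] (χ x) = χ x ∧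
      ‖Rho n k (ψ x) (χ x)‖ = Real.exp x.re ∧ ‖ψ x‖ ≤ 16) ∧
    ∀ c ∈ A, ∃ x : ℂ, ‖x‖ ≤ C1 * k / q ∧ ψ x = c

/-- LIMBG (from TOP, OMC, FIXE, BOT, LOG, GREEN; adapt `LIMB.lean`). -/
def T_LIMBG : Prop := ∀ (n : ℕ) (C1 C2 : ℝ), 2 ≤ n → 0 < C1 → 1 ≤ C2 → OMXn n C1 → SECTn n C2 →
  LIMBGn n C1 (C2 + C1 + 40)

/-- LIMBU (from ANN, STRIP, COAL): the limb bound, uniformly in `n`. -/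
def T_LIMBU : Prop := ∃ C : ℝ, 0 < C ∧ ∀ (n : ℕ) (C1 C3 : ℝ), 2 ≤ n → 0 < C1 → 40 ≤ C3 →
  LIMBGn n C1 C3 → ∀ (k p q : ℕ) (r z0 c : ℂ) (A : Set ℂ), IsLimb n k p q r z0 A → c ∈ A →
  ‖c - r‖ * ((min p (q - p) : ℕ) : ℝ) ^ 2 ≤ C * (C1 * C3) * (Real.log n / n) * k ^ 2 * q

/-! ### the strong form of local connectivity -/

/-- EXPAND (from GREEN, BR, FIXE): expansion outside the Multibrot set. -/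
def T_EXPAND : Prop := ∀ (n : ℕ) (Λ : ℂ → ℂ → ℂ) (lh ls : ℂ → ℂ → ℂ → ℂ) (c ζ : ℂ), 2 ≤ n →
  IsBot n Λ → IsLog n Λ lh ls → Crit n Λ c ζ →
  ∃ s : ℝ, 0 < s ∧ ∀ (k : ℕ) (z : ℂ), 1 ≤ k → (F n c)^[k] z = z →
    Real.exp (s * k) ≤ ‖Rho n k c z‖

/-- COV: a covering lemma for bounded analytic functions. -/
def T_COV : Prop := ∀ D : ℝ, 0 < D → ∃ ρ : ℝ, 0 < ρ ∧ ∀ g : ℂ → ℂ,
  DifferentiableOn ℂ g (Metric.ball 0 1) → (∀ x ∈ Metric.ball (0 : ℂ) 1, ‖g x‖ ≤ 16) →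
  (∃ x : ℂ, ‖x‖ ≤ 1 / 2 ∧ D ≤ ‖g x - g 0‖) → Metric.ball (g 0) ρ ⊆ g '' Metric.ball 0 1

/-- FRO: roots are boundary points. -/
def T_FRO : Prop := ∀ (n k p q : ℕ) (r z0 : ℂ) (A : Set ℂ), 2 ≤ n → IsLimb n k p q r z0 A →
  A.Nonempty → r ∈ frontier (MM n)

/-- A point which lies in infinitely many limbs of small size, measured by `C`. -/
def Inf (n : ℕ) (C : ℝ) (c : ℂ) : Prop := ∀ N : ℕ, ∃ (k p q : ℕ) (r z0 : ℂ) (A : Set ℂ),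
  IsLimb n k p q r z0 A ∧ c ∈ A ∧ N ≤ q ∧ C * k ^ 2 * q < ((min p (q - p) : ℕ) : ℝ) ^ 2

/-- LCS (from EXPAND, COV, FRO, BOT, LOG, GREEN): the limbs shrink. -/
def T_LCS : Prop := ∀ (n : ℕ) (C1 C3 : ℝ), 2 ≤ n → 0 < C1 → 40 ≤ C3 → LIMBGn n C1 C3 →
  ∀ (c : ℂ) (ε : ℝ), Inf n (C1 * C3) c → 0 < ε →
  ∃ (k p q : ℕ) (r z0 : ℂ) (A : Set ℂ), IsLimb n k p q r z0 A ∧ c ∈ A ∧
    insert r A ⊆ Metric.ball c ε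

/-! ### existence, near every boundary point -/

/-- LNE2 (from SECT, OMX, OMC, LCL, BIF, ATN, NOA, MMA, FIXE, BOT, LOG, GREEN; adapt `LNE.lean`):
existence of limbs. -/
def T_LNE2 : Prop := ∀ n : ℕ, 2 ≤ n → ∃ B : ℝ, 0 < B ∧ ∀ (k p q : ℕ) (r z0 : ℂ), 1 ≤ k →
  0 < p → p < q → p.Coprime q → (F n r)^[k] z0 = z0 →
  Rho n k r z0 = exp (2 * Real.pi * I * p / q) →
  B * k ^ 2 * q < ((min p (q - p) : ℕ) : ℝ) ^ 2 →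
  ∃ A : Set ℂ, IsLimb n k p q r z0 A ∧ ∃ c z : ℂ, c ∈ A ∧ (F n c)^[k * q] z = z ∧
    ‖Rho n (k * q) c z‖ < 1

/-- NEXT2 (from BDV, LNE2, NEST, LIMB): one step of the construction, avoiding a point. -/
def T_NEXT2 : Prop := ∀ (n k : ℕ) (r s : ℂ) (A : Set ℂ) (c1 z1 : ℂ) (B : ℝ), 2 ≤ n → 1 ≤ k →
  Piece n r A → c1 ∈ A → (F n c1)^[k] z1 = z1 → ‖Rho n k c1 z1‖ < 1 →
  ∃ (p q : ℕ) (r' z' : ℂ) (A' : Set ℂ), IsLimb n k p q r' z' A' ∧ A' ⊆ A ∧ r' ∈ A ∧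
    s ∉ insert r' A' ∧ B * k ^ 2 * q < ((min p (q - p) : ℕ) : ℝ) ^ 2 ∧
    ∃ c z : ℂ, c ∈ A' ∧ (F n c)^[k * q] z = z ∧ ‖Rho n (k * q) c z‖ < 1

/-- DENS (from `centers_dense`, MMA, LOCZ, TRANS, FINF, CNT): roots near every boundary point. -/
def T_DENS : Prop := ∀ (n : ℕ) (c0 : ℂ) (ε B : ℝ), 2 ≤ n → c0 ∈ frontier (MM n) → 0 < ε →
  ∃ (k p q : ℕ) (r z0 : ℂ), 1 ≤ k ∧ 0 < p ∧ p < q ∧ p.Coprime q ∧ (F n r)^[k] z0 = z0 ∧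
    Rho n k r z0 = exp (2 * Real.pi * I * p / q) ∧ ‖r - c0‖ < ε ∧
    B * k ^ 2 * q < ((min p (q - p) : ℕ) : ℝ) ^ 2

/-- UNC (from DENS, LNE2, NEXT2, LIMB). -/
def T_UNC : Prop := ∀ (n : ℕ) (c0 : ℂ) (N : Set ℂ) (B : ℝ), 2 ≤ n → c0 ∈ frontier (MM n) →
  N ∈ 𝓝 c0 → ¬ {c : ℂ | c ∈ N ∧ c ∈ MM n ∧ Inf n B c}.Countable

end Pool.Agent.PLim
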