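import Mathlib
import Pool.Agent.PLim.BIG
import Pool.Agent.PLim.Targets4

/-!
# ANN: almost indifferent cycles exist only in a thin annulus of parameters
-/

set_option autoImplicit false

open Complex Filter Topology Set
open Pool.Agent.Multibrot Pool.Agent.Limb

namespace Pool.Agent.PLim

namespace ANN_

lemma pow_next (n : ℕ) (c z : ℂ) (j : ℕ) :
    ((F n c)^[j] z) ^ n = (F n c)^[j + 1] z - c := by
  rw [Function.iterate_succ_apply']
  unfold F
  ring

lemma per {n k : ℕ} {c z : ℂ} (hz : (F n c)^[k] z = z) (j : ℕ) :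
    (F n c)^[j] z = (F n c)^[j % k] z := by
  have : Function.IsPeriodicPt (F n c) k z := hz
  exact (this.iterate_mod_apply j).symm

lemma max_pt {n k : ℕ} {c z : ℂ} (hk : 1 ≤ k) (hz : (F n c)^[k] z = z) :
    ∃ R : ℝ, 0 ≤ R ∧ (∀ j, ‖(F n c)^[j] z‖ ≤ R) ∧ R ^ n ≤ R + ‖c‖ := by
  obtain ⟨j0, hj0, hmax⟩ := Finset.exists_max_image (Finset.range k)
    (fun j => ‖(F n c)^[j] z‖) ⟨0, Finset.mem_range.mpr hk⟩
  have hmax' : ∀ j, ‖(F n c)^[j] z‖ ≤ ‖(F n c)^[j0] z‖ := by
    intro j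
    rw [per hz j]
    exact hmax _ (Finset.mem_range.mpr (Nat.mod_lt _ hk))
  refine ⟨‖(F n c)^[j0] z‖, norm_nonneg _, hmax', ?_⟩
  rw [← norm_pow, pow_next]
  exact (norm_sub_le _ _).trans (add_le_add (hmax' _) le_rfl)

lemma le_Rho {n k : ℕ} {c z : ℂ} (hk : 1 ≤ k) {b : ℝ} (hb : 1 ≤ b)
    (h : ∀ j, b ≤ n * ‖(F n c)^[j] z‖ ^ (n - 1)) : b ≤ ‖Rho n k c z‖ := by
  rw [BIG_.norm_Rho]
  have h1 : b ^ k ≤ ∏ j ∈ Finset.range k, (n * ‖(F n c)^[j] z‖ ^ (n - 1)) := by
    have := Finset.prod_le_prod (s := Finset.range k) (f := fun _ => b)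
      (g := fun j => (n * ‖(F n c)^[j] z‖ ^ (n - 1))) (fun _ _ => by linarith)
      (fun j _ => h j)
    rwa [Finset.prod_const, Finset.card_range] at this
  have h2 : b ^ 1 ≤ b ^ k := pow_le_pow_right₀ hb hk
  linarith

lemma Rho_le {n k : ℕ} {c z : ℂ} (hk : 1 ≤ k)
    (h : ∀ j, n * ‖(F n c)^[j] z‖ ^ (n - 1) ≤ 1 / 2) : ‖Rho n k c z‖ ≤ 1 / 2 := by
  rw [BIG_.norm_Rho]
  have h1 : ∏ j ∈ Finset.range k, (n * ‖(F n c)^[j] z‖ ^ (n - 1)) ≤ (1 / 2 : ℝ) ^ k := by
    have := Finset.prod_le_prod (s := Finset.range k)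
      (f := fun j => (n * ‖(F n c)^[j] z‖ ^ (n - 1))) (g := fun _ => (1 / 2 : ℝ))
      (fun _ _ => by positivity) (fun j _ => h j)
    rwa [Finset.prod_const, Finset.card_range] at this
  have h2 : (1 / 2 : ℝ) ^ k ≤ (1 / 2) ^ 1 :=
    pow_le_pow_of_le_one (by norm_num) (by norm_num) hk
  linarith

/-- `n |z|^(n-1) |z| = n |z|^n` -/
lemma mul_self_pow (n : ℕ) (hn : 2 ≤ n) (r : ℝ) : (n * r ^ (n - 1)) * r = n * r ^ n := by
  have : r ^ n = r ^ (n - 1) * r := by
    rw [← pow_succ]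
    congr 1
    omega
  rw [this]
  ring

/-- lower bound for the parameter -/
lemma lower {n k : ℕ} {c z : ℂ} (hn : 2 ≤ n) (hk : 1 ≤ k) (hz : (F n c)^[k] z = z)
    (h1 : 3 / 4 ≤ ‖Rho n k c z‖) (h2 : ‖Rho n k c z‖ ≤ 4 / 3) :
    1 - 8 * Real.log n / n ≤ ‖c‖ := by
  by_contra hc
  rw [not_le] at hc
  have hn2 : (2 : ℝ) ≤ n := by exact_mod_cast hn
  have hn0 : (0 : ℝ) < n := by linarith
  have hlog2 : Real.log 2 ≤ Real.log n := Real.log_le_log (by norm_num) hn2
  have hl2 := Real.log_two_gt_d9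
  have hln : 0 < Real.log n := by linarith
  set a : ℝ := Real.log n / n with ha
  have ha0 : 0 < a := by positivity
  have hc' : ‖c‖ < 1 - 8 * a := by
    rw [ha]
    rw [mul_div_assoc] at hc
    exact hc
  have hc0 : 0 ≤ ‖c‖ := norm_nonneg c
  by_cases hcase : ∃ j, ‖(F n c)^[j] z‖ ^ n ≤ 4 * a
  · obtain ⟨j0, hj0⟩ := hcase
    -- the bound for the powers
    have key : ∀ w : ℝ, 0 ≤ w → w ≤ 1 - 4 * a → w ^ n ≤ 1 / (n : ℝ) ^ 4 := by
      intro w hw0 hw
      have e1 : w ≤ Real.exp (-(4 * a)) := by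
        have := Real.add_one_le_exp (-(4 * a))
        linarith
      have e2 : w ^ n ≤ Real.exp (-(4 * a)) ^ n := pow_le_pow_left₀ hw0 e1 n
      refine e2.trans (le_of_eq ?_)
      rw [← Real.exp_nat_mul]
      have e3 : (n : ℝ) * -(4 * a) = -(4 * Real.log n) := by
        rw [ha]
        field_simp
      rw [e3, Real.exp_neg, one_div]
      congr 1
      have e4 : (4 : ℝ) * Real.log n = Real.log ((n : ℝ) ^ 4) := by
        rw [Real.log_pow]
        norm_num
      rw [e4, Real.exp_log (by positivity)]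
    have hsmall : 1 / (n : ℝ) ^ 4 ≤ 4 * a := by
      rw [ha, div_le_iff₀ (by positivity)]
      have e1 : 4 * (Real.log n / n) * (n : ℝ) ^ 4 = 4 * Real.log n * (n : ℝ) ^ 3 := by
        field_simp
      rw [e1]
      have e2 : (1 : ℝ) ≤ (n : ℝ) ^ 3 := one_le_pow₀ (by linarith)
      nlinarith
    have hnext : ∀ j, ‖(F n c)^[j] z‖ ^ n ≤ 4 * a →
        ‖(F n c)^[j + 1] z‖ ^ n ≤ 1 / (n : ℝ) ^ 4 ∧ ‖(F n c)^[j + 1] z‖ ≤ 1 := by
      intro j hj
      have e1 : ‖(F n c)^[j + 1] z‖ ≤ 1 - 4 * a := by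
        have e2 : (F n c)^[j + 1] z = ((F n c)^[j] z) ^ n + c := by
          rw [pow_next]
          ring
        rw [e2]
        refine (norm_add_le _ _).trans ?_
        rw [norm_pow]
        linarith
      exact ⟨key _ (norm_nonneg _) e1, by linarith⟩
    have hall : ∀ i, ‖(F n c)^[j0 + 1 + i] z‖ ^ n ≤ 1 / (n : ℝ) ^ 4 ∧
        ‖(F n c)^[j0 + 1 + i] z‖ ≤ 1 := by
      intro i
      induction i with
      | zero => exact hnext j0 hj0
      | succ i ih => exact hnext _ (ih.1.trans hsmall)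
    have hall' : ∀ j, ‖(F n c)^[j] z‖ ^ n ≤ 1 / (n : ℝ) ^ 4 ∧ ‖(F n c)^[j] z‖ ≤ 1 := by
      intro j
      have e1 : (F n c)^[j] z = (F n c)^[j0 + 1 + (j + (k - 1) * (j0 + 1))] z := by
        have e0 : j0 + 1 + (j + (k - 1) * (j0 + 1)) = j + k * (j0 + 1) := by
          obtain ⟨k', rfl⟩ := Nat.exists_eq_add_of_le' hk
          simp only [Nat.add_sub_cancel]
          ring
        rw [e0, per hz j, per hz (j + k * (j0 + 1)), Nat.add_mul_mod_self_left]
      rw [e1]
      exact hall _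
    have hfac : ∀ j, n * ‖(F n c)^[j] z‖ ^ (n - 1) ≤ 1 / 2 := by
      intro j
      obtain ⟨e1, e2⟩ := hall' j
      set r := ‖(F n c)^[j] z‖ with hr
      have hr0 : 0 ≤ r := norm_nonneg _
      have e3 : (r ^ (n - 1)) ^ 2 ≤ r ^ n := by
        rw [← pow_mul]
        exact pow_le_pow_of_le_one hr0 e2 (by omega)
      have e4 : (r ^ (n - 1)) ^ 2 ≤ (1 / (n : ℝ) ^ 2) ^ 2 := by
        refine (e3.trans e1).trans (le_of_eq ?_)
        rw [one_div_pow, ← pow_mul]
      have e5 : r ^ (n - 1) ≤ 1 / (n : ℝ) ^ 2 :=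
        le_of_sq_le_sq e4 (by positivity)
      have e6 : n * r ^ (n - 1) ≤ n * (1 / (n : ℝ) ^ 2) := mul_le_mul_of_nonneg_left e5 hn0.le
      refine e6.trans ?_
      have e7 : (n : ℝ) * (1 / (n : ℝ) ^ 2) = 1 / n := by
        field_simp
      rw [e7]
      exact one_div_le_one_div_of_le (by norm_num) hn2
    have := Rho_le hk hfac
    linarith
  · push Not at hcase
    obtain ⟨R, hR0, hR, hRn⟩ := max_pt hk hz
    have hR2 : R ≤ 2 := by
      by_contra h
      rw [not_le] at h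
      have e1 : R ^ 2 ≤ R ^ n := pow_le_pow_right₀ (by linarith) hn
      nlinarith
    have hfac : ∀ j, 2 * Real.log n ≤ n * ‖(F n c)^[j] z‖ ^ (n - 1) := by
      intro j
      have e1 := hcase j
      have e2 := (hR j).trans hR2
      have e3 := mul_self_pow n hn ‖(F n c)^[j] z‖
      set r := ‖(F n c)^[j] z‖ with hr
      have hr0 : 0 ≤ r := norm_nonneg _
      have e4 : 4 * Real.log n < n * r ^ n := by
        have e5 := mul_lt_mul_of_pos_left e1 hn0
        have e6 : (n : ℝ) * (4 * a) = 4 * Real.log n := by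
          rw [ha]
          field_simp
        linarith
      have e7 : (n * r ^ (n - 1)) * r ≤ (n * r ^ (n - 1)) * 2 :=
        mul_le_mul_of_nonneg_left e2 (by positivity)
      linarith
    have hb : (1 : ℝ) ≤ 2 * Real.log n := by linarith
    have := le_Rho hk hb hfac
    linarith

/-- upper bound for the parameter -/
lemma upper {n k : ℕ} {c z : ℂ} (hn : 2 ≤ n) (hk : 1 ≤ k) (hz : (F n c)^[k] z = z)
    (h2 : ‖Rho n k c z‖ ≤ 4 / 3) : ‖c‖ ≤ 1 + 500 / n := by
  by_contra hc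
  rw [not_le] at hc
  have hn2 : (2 : ℝ) ≤ n := by exact_mod_cast hn
  have hn0 : (0 : ℝ) < n := by linarith
  obtain ⟨R, hR0, hR, hRn⟩ := max_pt hk hz
  have bern : 1 + n * (R - 1) ≤ R ^ n := by
    have := one_add_mul_le_pow (a := R - 1) (by linarith) n
    have e1 : 1 + (R - 1) = R := by ring
    rwa [e1] at this
  have hlow : ∀ j, ‖c‖ - R ≤ ‖(F n c)^[j] z‖ ^ n := by
    intro j
    rw [← norm_pow, pow_next, norm_sub_rev]
    have e1 := norm_sub_norm_le c ((F n c)^[j + 1] z)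
    have e2 := hR (j + 1)
    linarith
  rcases le_or_gt 16 ‖c‖ with h16 | h16
  · have := p_BIG n k c z hn hk h16 hz
    have h3 := Real.exp_one_gt_d9
    linarith
  · have hn33 : 33 < (n : ℝ) := by
      have e1 : 500 / (n : ℝ) < 15 := by linarith
      rw [div_lt_iff₀ hn0] at e1
      linarith
    have hfac : ∀ j, 2 ≤ n * ‖(F n c)^[j] z‖ ^ (n - 1) := by
      intro j
      have e1 := hlow j
      have e2 := hR j
      have e3 := mul_self_pow n hn ‖(F n c)^[j] z‖
      set r := ‖(F n c)^[j] z‖ with hr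
      have hr0 : 0 ≤ r := norm_nonneg _
      have hf0 : 0 ≤ n * r ^ (n - 1) := by positivity
      rcases le_or_gt ‖c‖ 2 with h2c | h2c
      · have e4 : (n - 1) * (R - 1) ≤ 2 := by linarith
        have e5 : R ≤ 1 + 4 / n := by
          by_contra h
          rw [not_le] at h
          have e6 : (n - 1 : ℝ) * (4 / n) < (n - 1) * (R - 1) :=
            mul_lt_mul_of_pos_left (by linarith) (by linarith)
          have e7 : (n - 1 : ℝ) * (4 / n) = 4 - 4 / n := by
            field_simp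
          have e8 : 4 / (n : ℝ) ≤ 2 := by
            rw [div_le_iff₀ hn0]
            linarith
          linarith
        have e6 : R ≤ 3 := by
          have e8 : 4 / (n : ℝ) ≤ 2 := by
            rw [div_le_iff₀ hn0]
            linarith
          linarith
        have e7 : 496 / (n : ℝ) ≤ r ^ n := by
          have e9 : 496 / (n : ℝ) = 500 / n - 4 / n := by ring
          linarith
        have e8 : 496 ≤ n * r ^ n := by
          rw [div_le_iff₀ hn0] at e7
          linarith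
        have e9 : (n * r ^ (n - 1)) * r ≤ (n * r ^ (n - 1)) * 3 :=
          mul_le_mul_of_nonneg_left (e2.trans e6) hf0
        linarith
      · have e4 : (n - 1) * (R - 1) ≤ 16 := by linarith
        have e5 : R ≤ 3 / 2 := by
          by_contra h
          rw [not_le] at h
          nlinarith
        have e7 : 1 / 2 ≤ r ^ n := by linarith
        have e8 : n / 2 ≤ n * r ^ n := by nlinarith
        have e9 : (n * r ^ (n - 1)) * r ≤ (n * r ^ (n - 1)) * (3 / 2) :=
          mul_le_mul_of_nonneg_left (e2.trans e5) hf0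
        linarith
    have := le_Rho hk (by norm_num) hfac
    linarith

end ANN_

theorem p_ANN : T_ANN := by
  refine ⟨500, by norm_num, ?_⟩
  intro n k c z hn hk hz h1 h2
  refine ⟨?_, ANN_.upper hn hk hz h2⟩
  have h3 := ANN_.lower hn hk hz h1 h2
  have hn2 : (2 : ℝ) ≤ n := by exact_mod_cast hn
  have hn0 : (0 : ℝ) < n := by linarith
  have hl : 0 ≤ Real.log n / n := div_nonneg (Real.log_nonneg (by linarith)) hn0.le
  rw [mul_div_assoc] at h3 ⊢
  linarith

end Pool.Agent.PLim
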