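import Pool.Agent.PLim.Targets2

/-!
# PLIM, OMC: local constancy of the root of unity
-/

set_option autoImplicit false

open Complex Filter Topology Set MeasureTheory
open Pool.Agent.Multibrot Pool.Agent.Limb

namespace Pool.Agent.PLim

lemma omc_hasDerivAt (n k : ℕ) (c z : ℂ) :
    HasDerivAt ((F n c)^[k]) (∏ j ∈ Finset.range k, ((n : ℂ) * ((F n c)^[j] z) ^ (n - 1))) z := by
  induction k with
  | zero => simpa using hasDerivAt_id z
  | succ k ih =>
    rw [Finset.prod_range_succ]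
    have h1 : HasDerivAt (F n c) ((n : ℂ) * ((F n c)^[k] z) ^ (n - 1)) ((F n c)^[k] z) := by
      have := (hasDerivAt_pow n ((F n c)^[k] z)).add_const c
      exact this
    have h2 := h1.comp z ih
    rw [← Function.iterate_succ'] at h2
    rw [mul_comm]
    exact h2

lemma omc_Rho (n k : ℕ) (c z : ℂ) :
    Rho n k c z = ∏ j ∈ Finset.range k, ((n : ℂ) * ((F n c)^[j] z) ^ (n - 1)) :=
  (omc_hasDerivAt n k c z).deriv

lemma omc_iter_cont (n j : ℕ) : Continuous (fun p : ℂ × ℂ => (F n p.1)^[j] p.2) := by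
  induction j with
  | zero => simpa using continuous_snd
  | succ j ih =>
    have : (fun p : ℂ × ℂ => (F n p.1)^[j + 1] p.2) =
        fun p : ℂ × ℂ => ((F n p.1)^[j] p.2) ^ n + p.1 := by
      funext p
      rw [Function.iterate_succ_apply']
      rfl
    rw [this]
    exact (ih.pow n).add continuous_fst

lemma omc_Rho_cont (n k : ℕ) : Continuous (fun p : ℂ × ℂ => Rho n k p.1 p.2) := by
  have : (fun p : ℂ × ℂ => Rho n k p.1 p.2) =
      fun p => ∏ j ∈ Finset.range k, ((n : ℂ) * ((F n p.1)^[j] p.2) ^ (n - 1)) := by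
    funext p
    exact omc_Rho n k p.1 p.2
  rw [this]
  exact continuous_finsetProd _ fun j _ => continuous_const.mul ((omc_iter_cont n j).pow _)

lemma omc_root {q : ℕ} (hq : 1 ≤ q) (w₀ : ℂ) : ∀ᶠ u : ℂ in 𝓝 w₀, u ^ q = 1 → u = w₀ := by
  have hfin : ({u : ℂ | u ^ q = 1} \ {w₀}).Finite := by
    apply Set.Finite.subset _ Set.sdiff_subset
    have : {u : ℂ | u ^ q = 1} ⊆ ((Polynomial.X ^ q - 1 : Polynomial ℂ).roots.toFinset : Set ℂ) := by
      intro u hu
      have hne : (Polynomial.X ^ q - 1 : Polynomial ℂ) ≠ 0 := by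
        have := Polynomial.X_pow_sub_C_ne_zero (R := ℂ) (by omega : 0 < q) 1
        simpa using this
      simp only [Finset.mem_coe, Multiset.mem_toFinset]
      rw [Polynomial.mem_roots hne]
      simp only [Polynomial.IsRoot, Polynomial.eval_sub, Polynomial.eval_pow, Polynomial.eval_X,
        Polynomial.eval_one]
      rw [sub_eq_zero]
      exact hu
    exact (Finset.finite_toSet _).subset this
  have hopen : IsOpen (({u : ℂ | u ^ q = 1} \ {w₀})ᶜ) := hfin.isClosed.isOpen_compl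
  have hmem : w₀ ∈ ({u : ℂ | u ^ q = 1} \ {w₀})ᶜ := by
    intro h
    exact h.2 rfl
  filter_upwards [hopen.mem_nhds hmem] with u hu h1
  by_contra hne
  exact hu ⟨h1, hne⟩

theorem p_OMC (hST1 : T_ST1) (hRCV : T_RCV) (hDISPE : T_DISPE) : T_OMC := by
  intro n k Λ c0 z0 w0 hn hk hB hc0 hfix hR ⟨α, q, v0, hEx, hLand, hDisp, hexp⟩
  have hq : 1 ≤ q := hEx.1
  have hqc : (q : ℂ) ≠ 0 := by exact_mod_cast (by omega : q ≠ 0)
  have hInt := hEx.2.1
  have hR0 : Rho n k c0 z0 ≠ 0 := by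
    intro h
    rw [h, norm_zero] at hR
    linarith
  -- w0 is a root of unity
  obtain ⟨v1, hD1, he1, hu1⟩ := hDISPE n k q Λ c0 z0 α hn hk hq hB hc0 hInt hLand hfix hR
  have hv01 : v0 = v1 := hu1 v0 hDisp
  -- the limit function
  have hHc : ContinuousAt (fun p : ℂ × ℂ => exp (p.1 / q) / p.2) (v0, Rho n k c0 z0) := by
    apply ContinuousAt.div
    · exact (Complex.continuous_exp.comp (continuous_fst.div_const _)).continuousAt
    · exact continuous_snd.continuousAt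
    · exact hR0
  have hH0 : exp (v0 / q) / Rho n k c0 z0 = w0 := by
    rw [hexp]
    field_simp
  have hroot : ∀ᶠ p : ℂ × ℂ in 𝓝 (v0, Rho n k c0 z0), (exp (p.1 / q) / p.2) ^ q = 1 →
      exp (p.1 / q) / p.2 = w0 := by
    have h := hHc.tendsto
    simp only [hH0] at h
    exact h.eventually (omc_root hq w0)
  obtain ⟨ε₁, hε₁, hball⟩ := Metric.eventually_nhds_iff.1 hroot
  have hRc := (omc_Rho_cont n k).continuousAt (x := (c0, z0))
  have hev : ∀ᶠ p : ℂ × ℂ in 𝓝 (c0, z0), dist (Rho n k p.1 p.2) (Rho n k c0 z0) < ε₁ ∧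
      1 < ‖Rho n k p.1 p.2‖ := by
    have h1 : ∀ᶠ p : ℂ × ℂ in 𝓝 (c0, z0), dist (Rho n k p.1 p.2) (Rho n k c0 z0) < ε₁ :=
      hRc.eventually (Metric.ball_mem_nhds _ hε₁)
    have h2 : ∀ᶠ p : ℂ × ℂ in 𝓝 (c0, z0), 1 < ‖Rho n k p.1 p.2‖ :=
      hRc.norm.eventually (lt_mem_nhds hR)
    exact h1.and h2
  obtain ⟨δ₁, hδ₁, hb1⟩ := Metric.eventually_nhds_iff.1 hev
  obtain ⟨δ₂, hδ₂, hb2⟩ := hST1 n k q Λ c0 z0 α hn hk hq hB hc0 hInt hLand hfix hR
  obtain ⟨δ₃, hδ₃, hb3⟩ := hRCV n k q Λ c0 z0 v0 α ε₁ hn hk hq hε₁ hB hc0 hInt hLand hfix hR hDisp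
  refine ⟨min δ₁ (min δ₂ δ₃), lt_min hδ₁ (lt_min hδ₂ hδ₃), ?_⟩
  intro c z hc hcc hzz hfixc
  have hc1 : ‖c - c0‖ < δ₁ := lt_of_lt_of_le hcc (min_le_left _ _)
  have hz1 : ‖z - z0‖ < δ₁ := lt_of_lt_of_le hzz (min_le_left _ _)
  have hc2 : ‖c - c0‖ < δ₂ := lt_of_lt_of_le hcc ((min_le_right _ _).trans (min_le_left _ _))
  have hz2 : ‖z - z0‖ < δ₂ := lt_of_lt_of_le hzz ((min_le_right _ _).trans (min_le_left _ _))
  have hc3 : ‖c - c0‖ < δ₃ := lt_of_lt_of_le hcc ((min_le_right _ _).trans (min_le_right _ _))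
  have hz3 : ‖z - z0‖ < δ₃ := lt_of_lt_of_le hzz ((min_le_right _ _).trans (min_le_right _ _))
  have hd : dist ((c, z) : ℂ × ℂ) (c0, z0) < δ₁ := by
    rw [Prod.dist_eq, max_lt_iff, dist_eq_norm, dist_eq_norm]
    exact ⟨hc1, hz1⟩
  obtain ⟨hRd, hRn⟩ := hb1 hd
  simp only at hRd hRn
  have hL := hb2 c z hc2 hz2 hfixc hc
  obtain ⟨v, hDv, hev, -⟩ := hDISPE n k q Λ c z α hn hk hq hB hc hInt hL hfixc hRn
  have hvd := hb3 c z v hc hc3 hz3 hfixc hDv
  have hRz : Rho n k c z ≠ 0 := by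
    intro h
    rw [h, norm_zero] at hRn
    linarith
  have hd2 : dist ((v, Rho n k c z) : ℂ × ℂ) (v0, Rho n k c0 z0) < ε₁ := by
    rw [Prod.dist_eq, max_lt_iff]
    exact ⟨by rw [dist_eq_norm]; exact hvd, hRd⟩
  have hw : (exp (v / q) / Rho n k c z) ^ q = 1 := by
    rw [div_pow, ← Complex.exp_nat_mul, mul_div_cancel₀ _ hqc, hev]
    exact div_self (pow_ne_zero _ hRz)
  have hfin := hball hd2 hw
  simp only at hfin
  refine ⟨α, q, v, hEx, hL, hDv, ?_⟩
  rw [← hfin]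
  field_simp

end Pool.Agent.PLim
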