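import Pool.Agent.PLim.Targets3
import Pool.Agent.PLim.OMC

/-!
# PLIM, ATN: an attracting cycle excludes other non-repelling cycles of multiplier not one
-/

set_option autoImplicit false

open Complex Filter Topology Set MeasureTheory
open Pool.Agent.Multibrot Pool.Agent.Limb

namespace Pool.Agent.PLim

namespace ATN_

/-- The multiplier along a local continuation is differentiable. -/
lemma rho_diff {n k : ℕ} {c0 z0 : ℂ} {δ r : ℝ} {zf : ℂ → ℂ} (hL : LocFix n k c0 z0 δ r zf) :
    DifferentiableOn ℂ (fun x => Rho n k x (zf x)) (Metric.ball c0 δ) := by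
  have hj : ∀ j : ℕ, DifferentiableOn ℂ (fun x => (F n x)^[j] (zf x)) (Metric.ball c0 δ) := by
    intro j
    induction j with
    | zero => simpa using hL.diff
    | succ j ih =>
      have h1 : (fun x => (F n x)^[j + 1] (zf x)) = fun x => ((F n x)^[j] (zf x)) ^ n + x := by
        funext x
        rw [Function.iterate_succ_apply']
        rfl
      rw [h1]
      exact (ih.pow n).add differentiableOn_id
  have h2 : (fun x => Rho n k x (zf x)) =
      fun x => ∏ j ∈ Finset.range k, ((n : ℂ) * ((F n x)^[j] (zf x)) ^ (n - 1)) := by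
    funext x
    exact omc_Rho n k x (zf x)
  rw [h2]
  exact DifferentiableOn.fun_finsetProd fun j _ => ((hj j).pow (n - 1)).const_mul (n : ℂ)

/-- A point of the unit circle is a limit of points of the open disc. -/
lemma freq_disc {u : ℂ} (hu : ‖u‖ = 1) : ∃ᶠ v : ℂ in 𝓝 u, ‖v‖ < 1 := by
  have h1 : u ∈ closure (Metric.ball (0 : ℂ) 1) := by
    rw [closure_ball (0 : ℂ) one_ne_zero]
    simp [hu]
  have h2 := mem_closure_iff_frequently.1 h1
  refine h2.mono fun v hv => ?_
  simpa using hv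

/-- Iterates of a periodic point may be reduced. -/
lemma reduce {n k : ℕ} (hk : 1 ≤ k) {c z w : ℂ} (hz : (F n c)^[k] z = z)
    (h : ∃ j : ℕ, (F n c)^[j] z = w) : ∃ j ∈ Finset.range k, (F n c)^[j] z = w := by
  obtain ⟨j, hj⟩ := h
  refine ⟨j % k, Finset.mem_range.2 (Nat.mod_lt _ (by omega)), ?_⟩
  have hp : Function.IsPeriodicPt (F n c) k z := hz
  rw [hp.iterate_mod_apply]
  exact hj

end ATN_

open ATN_

theorem p_ATN (h1 : T_ATU) (h2 : T_TRANS) (h3 : T_LOCZ) : T_ATN := by
  intro n k k' c z z' hn hk hk' hz hz' hR hR' hR1'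
  rcases lt_or_eq_of_le hR' with hlt | heq
  · exact h1 n k k' c z z' hn hk hk' hz hz' hR hlt
  have hR1 : Rho n k c z ≠ 1 := by
    intro h
    rw [h, norm_one] at hR
    exact lt_irrefl _ hR
  obtain ⟨δ, r, zf, -, -, hL⟩ := h3 n k c z 1 hn one_pos hz hR1
  obtain ⟨δ', r', zf', -, -, hL'⟩ := h3 n k' c z' 1 hn one_pos hz' hR1'
  have hc : c ∈ Metric.ball c δ := Metric.mem_ball_self hL.hδ
  have hc' : c ∈ Metric.ball c δ' := Metric.mem_ball_self hL'.hδ
  have hnc : Metric.ball c δ ∈ 𝓝 c := Metric.isOpen_ball.mem_nhds hc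
  have hnc' : Metric.ball c δ' ∈ 𝓝 c := Metric.isOpen_ball.mem_nhds hc'
  have hR0' : Rho n k' c z' ≠ 0 := by
    intro h
    rw [h, norm_zero] at heq
    exact zero_ne_one heq
  have hder := h2 n k' c z' δ' r' zf' hn hk' hL' hR0' hR' hR1'
  -- the multiplier of the second cycle is open at `c`
  have hstr : HasStrictDerivAt (fun x => Rho n k' x (zf' x))
      (deriv (fun x => Rho n k' x (zf' x)) c) c :=
    ((rho_diff hL').analyticAt hnc').hasStrictDerivAt
  have hmap := hstr.map_nhds_eq hder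
  rw [hL'.zf0] at hmap
  have hfr : ∃ᶠ x in 𝓝 c, ‖Rho n k' x (zf' x)‖ < 1 := by
    have := freq_disc heq
    rw [← hmap] at this
    exact this
  -- the multiplier of the first cycle stays in the disc
  have hcont : ContinuousAt (fun x => Rho n k x (zf x)) c :=
    ((rho_diff hL).differentiableAt hnc).continuousAt
  have hev : ∀ᶠ x in 𝓝 c, ‖Rho n k x (zf x)‖ < 1 := by
    have h4 : ContinuousAt (fun x => ‖Rho n k x (zf x)‖) c := hcont.norm
    refine h4.eventually_lt continuousAt_const ?_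
    show ‖Rho n k c (zf c)‖ < 1
    rw [hL.zf0]
    exact hR
  have hfr2 : ∃ᶠ x in 𝓝 c, ∃ j ∈ Finset.range k, (F n x)^[j] (zf x) = zf' x := by
    refine (((hfr.and_eventually hev).and_eventually hnc).and_eventually hnc').mono ?_
    rintro x ⟨⟨⟨hx1, hx2⟩, hx3⟩, hx4⟩
    exact reduce hk (hL.fix x hx3)
      (h1 n k k' x (zf x) (zf' x) hn hk hk' (hL.fix x hx3) (hL'.fix x hx4) hx2 hx1)
  have hfr3 : ∃ j ∈ Finset.range k, ∃ᶠ x in 𝓝 c, (F n x)^[j] (zf x) = zf' x := by
    by_contra hcon
    push Not at hcon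
    have h5 : ∀ᶠ x in 𝓝 c, ∀ j ∈ Finset.range k, ¬ ((F n x)^[j] (zf x) = zf' x) := by
      rw [Filter.eventually_all_finset]
      intro j hj
      exact hcon j hj
    refine hfr2 ?_
    refine h5.mono ?_
    rintro x hx ⟨j, hj, hjx⟩
    exact hx j hj hjx
  obtain ⟨j, -, hj⟩ := hfr3
  refine ⟨j, ?_⟩
  -- pass to the limit
  have hz1 : ContinuousAt zf c := (hL.diff.differentiableAt hnc).continuousAt
  have hz2 : ContinuousAt zf' c := (hL'.diff.differentiableAt hnc').continuousAt
  have hg : ContinuousAt (fun x => (F n x)^[j] (zf x)) c := by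
    have h6 : ContinuousAt (fun x => ((x, zf x) : ℂ × ℂ)) c := continuousAt_id.prodMk hz1
    exact (omc_iter_cont n j).continuousAt.comp h6
  have hsub : ContinuousAt (fun x => (F n x)^[j] (zf x) - zf' x) c := hg.sub hz2
  by_contra hne
  have hne' : (fun x => (F n x)^[j] (zf x) - zf' x) c ≠ 0 := by
    show (F n c)^[j] (zf c) - zf' c ≠ 0
    rw [hL.zf0, hL'.zf0]
    exact sub_ne_zero.2 hne
  have h7 := hsub.eventually_ne hne'
  refine hj ?_
  refine h7.mono ?_
  intro x hx hx'
  exact hx (sub_eq_zero.2 hx')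

end Pool.Agent.PLim
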