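import Pool.Agent.PLim.Targets
import Pool.Agent.Limb.AREA

/-!
# KOEB: a Koebe type bound for nonvanishing injective functions on a ball

The area of a piece of the logarithm of the image is compared with the area of an annulus for the
weight `|w|^(-2)`.
-/

set_option autoImplicit false

open Complex Filter Topology Set MeasureTheory
open Pool.Agent.Multibrot Pool.Agent.Limb

namespace Pool.Agent.PLim

namespace KOEB_

/-- weighted area of an annulus -/
theorem annul_area {p q : ℝ} (hp : 0 < p) (hpq : p ≤ q) :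
    ∫⁻ w in annul p q, (‖w‖ₑ ^ 2)⁻¹ ≤ ENNReal.ofReal (2 * Real.pi * Real.log (q / p)) := by
  have hm : Measurable fun w : ℂ => (‖w‖ₑ ^ 2)⁻¹ := (measurable_enorm.pow_const 2).inv
  rw [lintegral_annul hp.le hm]
  have h1 : ∀ r ∈ Ioo p q, ∫⁻ θ in Ioo (-Real.pi) Real.pi,
      ENNReal.ofReal r * (‖circleMap 0 r θ‖ₑ ^ 2)⁻¹ ≤
        ENNReal.ofReal (2 * Real.pi) * ENNReal.ofReal r⁻¹ := by
    intro r hr
    have hr0 : 0 < r := lt_trans hp hr.1
    have h2 : ∀ θ : ℝ, ENNReal.ofReal r * (‖circleMap 0 r θ‖ₑ ^ 2)⁻¹ = ENNReal.ofReal r⁻¹ := by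
      intro θ
      rw [← ofReal_norm, norm_circleMap_zero, abs_of_pos hr0, ← ENNReal.ofReal_pow hr0.le,
        ← ENNReal.ofReal_inv_of_pos (by positivity), ← ENNReal.ofReal_mul hr0.le]
      congr 1
      field_simp
    simp only [h2]
    rw [setLIntegral_const, Real.volume_Ioo, mul_comm]
    apply le_of_eq
    congr 2
    ring
  refine (setLIntegral_mono' measurableSet_Ioo h1).trans ?_
  rw [lintegral_const_mul _ (by fun_prop)]
  have h3 : ∫⁻ r in Ioo p q, ENNReal.ofReal r⁻¹ = ENNReal.ofReal (Real.log (q / p)) := by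
    have hq : 0 < q := lt_of_lt_of_le hp hpq
    rw [← integral_inv_of_pos hp hq, intervalIntegral.integral_of_le hpq,
      integral_Ioc_eq_integral_Ioo, ofReal_integral_eq_lintegral_ofReal]
    · have h4 : IntervalIntegrable (fun x : ℝ => x⁻¹) volume p q := by
        apply intervalIntegral.intervalIntegrable_inv
        · intro x hx
          rw [uIcc_of_le hpq] at hx
          exact (lt_of_lt_of_le hp hx.1).ne'
        · exact continuousOn_id
      exact (h4.1).mono_set Ioo_subset_Ioc_self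
    · refine (ae_restrict_iff' measurableSet_Ioo).2 (Eventually.of_forall fun x hx => ?_)
      exact (inv_pos.2 (lt_trans hp hx.1)).le
  rw [h3, ← ENNReal.ofReal_mul (by positivity)]

/-- change of variables -/
theorem chv {D : Set ℂ} {χ : ℂ → ℂ} {φ : ℂ → ENNReal} (hD : IsOpen D)
    (hd : DifferentiableOn ℂ χ D) (hi : InjOn χ D) :
    ∫⁻ x in χ '' D, φ x = ∫⁻ u in D, ‖deriv χ u‖ₑ ^ 2 * φ (χ u) := by
  have h1 : ∀ x ∈ D, HasFDerivWithinAt χ (mulR (deriv χ x)) D x := by
    intro x hx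
    exact (hasFDerivAt_of_hasDerivAt
      ((hd.differentiableAt (hD.mem_nhds hx)).hasDerivAt)).hasFDerivWithinAt
  rw [lintegral_image_eq_lintegral_abs_det_fderiv_mul volume hD.measurableSet h1 hi]
  refine setLIntegral_congr_fun hD.measurableSet fun x _ => ?_
  show ENNReal.ofReal |(mulR (deriv χ x)).det| * φ (χ x) = _
  rw [mulR_det, abs_of_nonneg (by positivity), ENNReal.ofReal_pow (norm_nonneg _), ofReal_norm]

/-- the local estimate -/
theorem loc {s : ℂ} {ρ K : ℝ} {g F : ℂ → ℂ} (hρ : 0 < ρ) (hK : 0 < K)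
    (hF : ∀ x ∈ Metric.ball s ρ, DifferentiableAt ℂ F x)
    (hF' : ∀ x ∈ Metric.ball s ρ, DifferentiableAt ℂ (deriv F) x)
    (hg : ∀ x ∈ Metric.ball s ρ, g x = exp (F x))
    (hi : InjOn g (Metric.ball s ρ))
    (hb : ∀ x ∈ Metric.ball s ρ, ‖deriv F x‖ ≤ K) :
    ρ * ‖deriv F s‖ ^ 2 ≤ 8 * K := by
  have hs : s ∈ Metric.ball s ρ := Metric.mem_ball_self hρ
  have ho : IsOpen (Metric.ball s ρ) := Metric.isOpen_ball
  have hgd : ∀ x ∈ Metric.ball s ρ, HasDerivAt g (exp (F x) * deriv F x) x := by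
    intro x hx
    have h1 : HasDerivAt (fun y => exp (F y)) (exp (F x) * deriv F x) x :=
      (hF x hx).hasDerivAt.cexp
    refine h1.congr_of_eventuallyEq ?_
    filter_upwards [ho.mem_nhds hx] with y hy
    exact hg y hy
  have hgD : DifferentiableOn ℂ g (Metric.ball s ρ) := fun x hx =>
    (hgd x hx).differentiableAt.differentiableWithinAt
  -- lower bound of the area
  have h1 : ENNReal.ofReal (Real.pi / 2 * ρ ^ 2 * ‖deriv F s ^ 2‖) ≤
      ∫⁻ x in Metric.ball s ρ, ‖deriv F x ^ 2‖ₑ :=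
    Limb.AREA_.mean (g := fun x => deriv F x ^ 2) ((measurable_deriv F).pow_const 2) hρ
      (fun x hx => (hF' x hx).pow 2)
  -- change of variables
  have h2 : ∫⁻ x in Metric.ball s ρ, ‖deriv F x ^ 2‖ₑ =
      ∫⁻ w in g '' Metric.ball s ρ, (‖w‖ₑ ^ 2)⁻¹ := by
    rw [chv ho hgD hi]
    refine setLIntegral_congr_fun ho.measurableSet fun x hx => ?_
    show ‖deriv F x ^ 2‖ₑ = ‖deriv g x‖ₑ ^ 2 * (‖g x‖ₑ ^ 2)⁻¹
    rw [(hgd x hx).deriv, hg x hx, enorm_mul, enorm_pow, mul_pow, mul_comm (‖exp (F x)‖ₑ ^ 2),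
      mul_assoc, ENNReal.mul_inv_cancel, mul_one]
    · exact pow_ne_zero 2 (enorm_ne_zero.2 (exp_ne_zero _))
    · exact ENNReal.pow_ne_top enorm_ne_top
  -- the image lies in an annulus
  set p : ℝ := Real.exp ((F s).re - K * ρ) with hp
  set q : ℝ := Real.exp ((F s).re + K * ρ) with hq
  have h3 : g '' Metric.ball s ρ ⊆ annul p q := by
    rintro _ ⟨x, hx, rfl⟩
    have h4 : ‖F x - F s‖ ≤ K * ‖x - s‖ :=
      (convex_ball s ρ).norm_image_sub_le_of_norm_deriv_le (fun y hy => hF y hy)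
        (fun y hy => hb y hy) hs hx
    have h5 : ‖x - s‖ < ρ := by
      rw [← dist_eq_norm]
      exact Metric.mem_ball.1 hx
    have h6 : ‖F x - F s‖ < K * ρ := lt_of_le_of_lt h4 (by
      exact mul_lt_mul_of_pos_left h5 hK)
    have h7 : |(F x - F s).re| < K * ρ := lt_of_le_of_lt (abs_re_le_norm _) h6
    rw [sub_re, abs_lt] at h7
    show p < ‖g x‖ ∧ ‖g x‖ < q
    rw [hg x hx, norm_exp, hp, hq, Real.exp_lt_exp, Real.exp_lt_exp]
    constructor <;> linarith [h7.1, h7.2]
  have hp0 : 0 < p := Real.exp_pos _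
  have hKρ : 0 < K * ρ := mul_pos hK hρ
  have hpq : p ≤ q := by
    rw [hp, hq, Real.exp_le_exp]
    linarith
  have h8 : ENNReal.ofReal (Real.pi / 2 * ρ ^ 2 * ‖deriv F s ^ 2‖) ≤
      ENNReal.ofReal (2 * Real.pi * Real.log (q / p)) := by
    refine h1.trans ?_
    rw [h2]
    exact (lintegral_mono_set h3).trans (annul_area hp0 hpq)
  have h9 : Real.log (q / p) = 2 * (K * ρ) := by
    rw [hp, hq, ← Real.exp_sub, Real.log_exp]
    ring
  rw [h9, ENNReal.ofReal_le_ofReal_iff (by positivity), norm_pow] at h8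
  have h10 : Real.pi * ρ * (ρ * ‖deriv F s‖ ^ 2) ≤ Real.pi * ρ * (8 * K) := by
    nlinarith [h8]
  exact le_of_mul_le_mul_left h10 (by positivity)

/-- logarithm on a ball -/
theorem exists_log {a : ℂ} {R : ℝ} {g : ℂ → ℂ} (hR : 0 < R)
    (hd : DifferentiableOn ℂ g (Metric.ball a R)) (h0 : ∀ x ∈ Metric.ball a R, g x ≠ 0) :
    ∃ F : ℂ → ℂ, DifferentiableOn ℂ F (Metric.ball a R) ∧
      ∀ x ∈ Metric.ball a R, g x = exp (F x) := by
  have ho : IsOpen (Metric.ball a R) := Metric.isOpen_ball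
  have ha : a ∈ Metric.ball a R := Metric.mem_ball_self hR
  have h1 : DifferentiableOn ℂ (fun x => deriv g x / g x) (Metric.ball a R) :=
    (hd.deriv ho).div hd h0
  obtain ⟨G, hGa, hG⟩ := h1.isExactOn_ball.with_val_at a (log (g a))
  refine ⟨G, fun x hx => (hG x hx).differentiableAt.differentiableWithinAt, ?_⟩
  set H : ℂ → ℂ := fun x => g x * exp (-G x) with hH
  have h2 : ∀ x ∈ Metric.ball a R, HasDerivAt H 0 x := by
    intro x hx
    have h3 := (hd.differentiableAt (ho.mem_nhds hx)).hasDerivAt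
    have h4 : HasDerivAt (fun y => exp (-G y)) (exp (-G x) * (-(deriv g x / g x))) x :=
      (hG x hx).neg.cexp
    have h5 := h3.mul h4
    have e : g x * (deriv g x / g x) = deriv g x := mul_div_cancel₀ _ (h0 x hx)
    have h6 : deriv g x * exp (-G x) + g x * (exp (-G x) * -(deriv g x / g x)) = 0 := by
      linear_combination (-exp (-G x)) * e
    rw [h6] at h5
    exact h5
  have h3 : ∀ x ∈ Metric.ball a R, H x = H a := by
    intro x hx
    have h4 : ‖H x - H a‖ ≤ 0 * ‖x - a‖ :=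
      (convex_ball a R).norm_image_sub_le_of_norm_deriv_le
        (fun y hy => (h2 y hy).differentiableAt)
        (fun y hy => by rw [(h2 y hy).deriv, norm_zero]) ha hx
    rw [zero_mul] at h4
    exact sub_eq_zero.1 (norm_le_zero_iff.1 h4)
  have h4 : H a = 1 := by
    rw [hH]
    show g a * exp (-G a) = 1
    rw [hGa, exp_neg, exp_log (h0 a ha), mul_inv_cancel₀ (h0 a ha)]
  intro x hx
  have h5 := h3 x hx
  rw [h4] at h5
  have h6 : g x * exp (-G x) = 1 := h5
  rw [exp_neg] at h6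
  field_simp at h6
  exact h6

/-- the bound on a smaller closed ball -/
theorem small {a : ℂ} {R R' : ℝ} {g F : ℂ → ℂ} (hR' : 0 < R') (hRR : R' < R)
    (hF : DifferentiableOn ℂ F (Metric.ball a R))
    (hg : ∀ x ∈ Metric.ball a R, g x = exp (F x))
    (hi : InjOn g (Metric.ball a R)) : ‖deriv F a‖ * R' ≤ 32 := by
  have ho : IsOpen (Metric.ball a R) := Metric.isOpen_ball
  have hsub : Metric.closedBall a R' ⊆ Metric.ball a R := Metric.closedBall_subset_ball hRR
  have hdF : DifferentiableOn ℂ (deriv F) (Metric.ball a R) := hF.deriv ho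
  have hc : ContinuousOn (fun x => ‖deriv F x‖ * (R' - ‖x - a‖)) (Metric.closedBall a R') := by
    refine ContinuousOn.mul (hdF.continuousOn.mono hsub).norm ?_
    fun_prop
  obtain ⟨x₀, hx₀, hmax⟩ := (isCompact_closedBall a R').exists_isMaxOn
    ⟨a, Metric.mem_closedBall_self hR'.le⟩ hc
  set M : ℝ := ‖deriv F x₀‖ * (R' - ‖x₀ - a‖) with hM
  have hx₀' : ‖x₀ - a‖ ≤ R' := by
    rw [← dist_eq_norm]
    exact Metric.mem_closedBall.1 hx₀
  have h1 : ∀ x ∈ Metric.closedBall a R', ‖deriv F x‖ * (R' - ‖x - a‖) ≤ M := fun x hx => hmax hx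
  have h2 : ‖deriv F a‖ * R' ≤ M := by
    have := h1 a (Metric.mem_closedBall_self hR'.le)
    rwa [sub_self, norm_zero, sub_zero] at this
  refine h2.trans ?_
  by_contra hlt
  push Not at hlt
  have hM0 : 0 < M := lt_trans (by norm_num) hlt
  set d : ℝ := R' - ‖x₀ - a‖ with hd
  have hd0 : 0 < d := by
    have hd1 : 0 ≤ d := by rw [hd]; linarith
    rcases hd1.lt_or_eq with h | h
    · exact h
    · rw [← h, mul_zero] at hM
      linarith
  have h3 : ∀ x ∈ Metric.ball x₀ (d / 2), x ∈ Metric.closedBall a R' ∧ d / 2 ≤ R' - ‖x - a‖ := by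
    intro x hx
    have h4 : ‖x - x₀‖ < d / 2 := by
      rw [← dist_eq_norm]
      exact Metric.mem_ball.1 hx
    have h5 : ‖x - a‖ ≤ ‖x - x₀‖ + ‖x₀ - a‖ := by
      have : x - a = (x - x₀) + (x₀ - a) := by ring
      rw [this]
      exact norm_add_le _ _
    constructor
    · rw [Metric.mem_closedBall, dist_eq_norm]
      linarith
    · linarith
  have h4 := loc (s := x₀) (ρ := d / 2) (K := 2 * M / d) (g := g) (F := F) (by positivity)
    (by positivity)
    (fun x hx => hF.differentiableAt (ho.mem_nhds (hsub (h3 x hx).1)))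
    (fun x hx => hdF.differentiableAt (ho.mem_nhds (hsub (h3 x hx).1)))
    (fun x hx => hg x (hsub (h3 x hx).1))
    (hi.mono fun x hx => hsub (h3 x hx).1)
    (fun x hx => by
      rw [le_div_iff₀ hd0]
      have h5 := h1 x (h3 x hx).1
      have h6 := mul_le_mul_of_nonneg_left (h3 x hx).2 (norm_nonneg (deriv F x))
      nlinarith [h5, h6])
  have h5 : ‖deriv F x₀‖ = M / d := by
    rw [hM, mul_div_assoc, div_self hd0.ne', mul_one]
  rw [h5] at h4
  have h6 : d / 2 * (M / d) ^ 2 = M ^ 2 / (2 * d) := by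
    field_simp
  have h7 : 8 * (2 * M / d) = 16 * M / d := by ring
  rw [h6, h7, div_le_div_iff₀ (by positivity) hd0] at h4
  have h8 : (M * d) * M ≤ (M * d) * 32 := by nlinarith [h4]
  have h9 := le_of_mul_le_mul_left h8 (by positivity)
  linarith

end KOEB_

open KOEB_ in
/-- KOEB -/
theorem p_KOEB : T_KOEB := by
  intro a R g hR hd hi h0
  obtain ⟨F, hF, hg⟩ := exists_log hR hd h0
  have ho : IsOpen (Metric.ball a R) := Metric.isOpen_ball
  have ha : a ∈ Metric.ball a R := Metric.mem_ball_self hR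
  have h1 : ‖deriv F a‖ * R ≤ 32 := by
    have h2 : Tendsto (fun R' : ℝ => ‖deriv F a‖ * R') (𝓝[<] R) (𝓝 (‖deriv F a‖ * R)) :=
      ((continuous_const.mul continuous_id).tendsto R).mono_left nhdsWithin_le_nhds
    refine le_of_tendsto h2 ?_
    have h3 : ∀ᶠ R' : ℝ in 𝓝[<] R, 0 < R' := nhdsWithin_le_nhds (lt_mem_nhds hR)
    filter_upwards [h3, self_mem_nhdsWithin] with R' hR' hlt
    exact small hR' hlt hF hg hi
  have h2 : deriv g a = exp (F a) * deriv F a := by
    have h3 : HasDerivAt (fun y => exp (F y)) (exp (F a) * deriv F a) a :=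
      (hF.differentiableAt (ho.mem_nhds ha)).hasDerivAt.cexp
    have h4 : HasDerivAt g (exp (F a) * deriv F a) a := by
      refine h3.congr_of_eventuallyEq ?_
      filter_upwards [ho.mem_nhds ha] with y hy
      exact hg y hy
    exact h4.deriv
  rw [h2, ← hg a ha, norm_mul, mul_assoc]
  have h3 : ‖g a‖ * (‖deriv F a‖ * R) ≤ ‖g a‖ * 32 :=
    mul_le_mul_of_nonneg_left h1 (norm_nonneg _)
  nlinarith [h3, norm_nonneg (g a)]

end Pool.Agent.PLim
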