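import Pool.Agent.PLim.Targets3
import Pool.Agent.PLim.KOEB

set_option autoImplicit false
set_option maxHeartbeats 4000000

open Complex Filter Topology Set
open Pool.Agent.Multibrot Pool.Agent.Limb

namespace Pool.Agent.PLim

namespace ATTR_

/-- the basin of the cycle -/
def D (n k : ℕ) (c z : ℂ) : Set ℂ :=
  {x : ℂ | ∃ j : ℕ, Tendsto (fun m : ℕ => (F n c)^[k * m + j] x) atTop (𝓝 z)}

lemma hasDerivAt_F (n : ℕ) (c x : ℂ) : HasDerivAt (F n c) (n * x ^ (n - 1)) x := by
  have h := (hasDerivAt_pow n x).add_const c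
  exact h

lemma differentiable_iter (n : ℕ) (c : ℂ) (j : ℕ) : Differentiable ℂ ((F n c)^[j]) := by
  apply Differentiable.iterate
  exact fun x => (hasDerivAt_F n c x).differentiableAt

/-- escape -/
lemma escape {n : ℕ} (hn : 2 ≤ n) {c x : ℂ} (hx : 2 + ‖c‖ < ‖x‖) (j : ℕ) :
    2 ^ j * ‖x‖ ≤ ‖(F n c)^[j] x‖ := by
  have hstep : ∀ y : ℂ, 2 + ‖c‖ < ‖y‖ → 2 * ‖y‖ ≤ ‖F n c y‖ := by
    intro y hy
    have hc := norm_nonneg c
    have h1 : ‖y‖ ^ 2 ≤ ‖y‖ ^ n := pow_le_pow_right₀ (by linarith) hn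
    have h2 : ‖y ^ n‖ - ‖c‖ ≤ ‖y ^ n + c‖ := by
      have := norm_sub_norm_le (y ^ n) (-c)
      rwa [norm_neg, sub_neg_eq_add] at this
    rw [norm_pow] at h2
    unfold F
    nlinarith
  have key : ∀ j : ℕ, 2 ^ j * ‖x‖ ≤ ‖(F n c)^[j] x‖ ∧ 2 + ‖c‖ < ‖(F n c)^[j] x‖ := by
    intro j
    induction j with
    | zero => simpa using hx
    | succ j ih =>
      rw [Function.iterate_succ_apply']
      have h1 := hstep _ ih.2
      constructor
      · rw [pow_succ]
        nlinarith [ih.1]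
      · have := norm_nonneg c
        nlinarith [ih.2]
  exact (key j).1

/-- points of the basin are bounded -/
lemma bounded {n k : ℕ} (hn : 2 ≤ n) (hk : 1 ≤ k) {c z x : ℂ} (hx : x ∈ D n k c z) :
    ‖x‖ ≤ 2 + ‖c‖ := by
  by_contra hcon
  push Not at hcon
  obtain ⟨j, hj⟩ := hx
  have h1 : Tendsto (fun m : ℕ => ‖(F n c)^[k * m + j] x‖) atTop atTop := by
    have h2 : Tendsto (fun m : ℕ => (2 : ℝ) ^ m) atTop atTop :=
      tendsto_pow_atTop_atTop_of_one_lt (by norm_num)
    apply tendsto_atTop_mono _ h2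
    intro m
    have h3 := escape hn hcon (k * m + j)
    have h4 : (2 : ℝ) ^ m ≤ 2 ^ (k * m + j) := by
      apply pow_le_pow_right₀ (by norm_num)
      nlinarith
    have h5 : 1 ≤ ‖x‖ := by linarith [norm_nonneg c]
    have h6 : (0 : ℝ) < 2 ^ (k * m + j) := by positivity
    nlinarith
  exact not_tendsto_nhds_of_tendsto_atTop h1 _ hj.norm

/-- the local basin -/
lemma local_basin {n k : ℕ} {c z : ℂ} (hz : (F n c)^[k] z = z) (hρ : ‖Rho n k c z‖ < 1) :
    ∃ r > 0, ∀ x, ‖x - z‖ < r → Tendsto (fun m : ℕ => (F n c)^[k * m] x) atTop (𝓝 z) := by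
  set g := (F n c)^[k] with hg
  obtain ⟨η, hη1, hη2⟩ := exists_between hρ
  have hη0 : 0 ≤ η := (norm_nonneg _).trans hη1.le
  have hd : HasDerivAt g (Rho n k c z) z := (differentiable_iter n c k z).hasDerivAt
  have h1 := (hasDerivAt_iff_isLittleO.1 hd).def (sub_pos.2 hη1)
  obtain ⟨r, hr, h2⟩ := Metric.eventually_nhds_iff.1 h1
  refine ⟨r, hr, fun x hx => ?_⟩
  have hstep : ∀ y, ‖y - z‖ < r → ‖g y - z‖ ≤ η * ‖y - z‖ := by
    intro y hy
    have h3 := h2 (by rwa [dist_eq_norm])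
    rw [hz] at h3
    have h4 : g y - z = (g y - z - (y - z) • Rho n k c z) + (y - z) • Rho n k c z := by ring
    calc ‖g y - z‖ = ‖(g y - z - (y - z) • Rho n k c z) + (y - z) • Rho n k c z‖ := by rw [← h4]
      _ ≤ ‖g y - z - (y - z) • Rho n k c z‖ + ‖(y - z) • Rho n k c z‖ := norm_add_le _ _
      _ ≤ (η - ‖Rho n k c z‖) * ‖y - z‖ + ‖y - z‖ * ‖Rho n k c z‖ := by
          rw [norm_smul]
          exact add_le_add h3 le_rfl
      _ = η * ‖y - z‖ := by ring
  have hall : ∀ m : ℕ, ‖g^[m] x - z‖ ≤ η ^ m * ‖x - z‖ ∧ ‖g^[m] x - z‖ < r := by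
    intro m
    induction m with
    | zero => simpa using hx
    | succ m ih =>
      rw [Function.iterate_succ_apply']
      have h5 := hstep _ ih.2
      constructor
      · calc ‖g (g^[m] x) - z‖ ≤ η * ‖g^[m] x - z‖ := h5
          _ ≤ η * (η ^ m * ‖x - z‖) := mul_le_mul_of_nonneg_left ih.1 hη0
          _ = η ^ (m + 1) * ‖x - z‖ := by ring
      · have h6 := norm_nonneg (g^[m] x - z)
        nlinarith [ih.2]
  have h7 : Tendsto (fun m : ℕ => ‖g^[m] x - z‖) atTop (𝓝 0) := by
    have h8 : Tendsto (fun m : ℕ => η ^ m * ‖x - z‖) atTop (𝓝 (0 * ‖x - z‖)) :=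
      (tendsto_pow_atTop_nhds_zero_of_lt_one hη0 hη2).mul_const _
    rw [zero_mul] at h8
    exact squeeze_zero (fun _ => norm_nonneg _) (fun m => (hall m).1) h8
  have h9 := tendsto_iff_norm_sub_tendsto_zero.2 h7
  have e : (fun m : ℕ => (F n c)^[k * m] x) = fun m => g^[m] x := by
    funext m
    rw [hg, ← Function.iterate_mul]
  rw [e]
  exact h9

lemma per_mul {n k : ℕ} {c z : ℂ} (hz : (F n c)^[k] z = z) (m : ℕ) :
    (F n c)^[k * m] z = z := by
  rw [Function.iterate_mul]
  exact Function.iterate_fixed hz m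

/-- the inverse branches -/
lemma branches {n k : ℕ} (hn : 2 ≤ n) (hk : 1 ≤ k) {c z : ℂ} (hz : (F n c)^[k] z = z)
    {r : ℝ} (hr : 0 < r)
    (hloc : ∀ x, ‖x - z‖ < r → Tendsto (fun m : ℕ => (F n c)^[k * m] x) atTop (𝓝 z))
    (h0 : (0 : ℂ) ∉ D n k c z) (m : ℕ) :
    ∃ g : ℂ → ℂ, DifferentiableOn ℂ g (Metric.ball 0 r) ∧
      (∀ w ∈ Metric.ball (0 : ℂ) r, g w ∈ D n k c z ∧ (F n c)^[m] (g w) = z + w) ∧
      g 0 = (F n c)^[(k - 1) * m] z := by
  have hback : ∀ x, F n c x ∈ D n k c z → x ∈ D n k c z := by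
    rintro x ⟨j, hj⟩
    refine ⟨j + 1, ?_⟩
    have e : (fun m : ℕ => (F n c)^[k * m + (j + 1)] x) = fun m => (F n c)^[k * m + j] (F n c x) := by
      funext m
      rw [← add_assoc, Function.iterate_succ_apply]
    rw [e]
    exact hj
  have hcD : c ∉ D n k c z := by
    intro hc
    apply h0
    apply hback
    have : F n c 0 = c := by
      unfold F
      rw [zero_pow (by omega), zero_add]
    rw [this]
    exact hc
  induction m with
  | zero =>
    refine ⟨fun w => z + w, by fun_prop, fun w hw => ⟨⟨0, ?_⟩, rfl⟩, by simp⟩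
    apply hloc
    rw [mem_ball_zero_iff] at hw
    simpa using hw
  | succ m ih =>
    obtain ⟨g, hg, hgw, hg0⟩ := ih
    have hne : ∀ w ∈ Metric.ball (0 : ℂ) r, g w - c ≠ 0 := by
      intro w hw h1
      apply hcD
      have h2 := (hgw w hw).1
      rwa [sub_eq_zero.1 h1] at h2
    obtain ⟨L, hL, hLe⟩ := KOEB_.exists_log hr (hg.sub_const c) hne
    have hn0 : (n : ℂ) ≠ 0 := by
      have : n ≠ 0 := by omega
      exact_mod_cast this
    have hpow : ∀ w ∈ Metric.ball (0 : ℂ) r, exp (L w / n) ^ n = g w - c := by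
      intro w hw
      rw [← Complex.exp_nat_mul, mul_div_cancel₀ _ hn0]
      exact (hLe w hw).symm
    have hmem0 : (0 : ℂ) ∈ Metric.ball (0 : ℂ) r := Metric.mem_ball_self hr
    set y := (F n c)^[(k - 1) * (m + 1)] z with hy
    have hFy : F n c y = g 0 := by
      rw [hg0, hy, ← Function.iterate_succ_apply' (F n c)]
      have e : ((k - 1) * (m + 1)).succ = (k - 1) * m + k := by
        rw [Nat.mul_succ]
        omega
      rw [e, Function.iterate_add_apply, hz]
    have hyn : y ^ n = g 0 - c := by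
      rw [← hFy]
      unfold F
      ring
    set s0 := exp (L 0 / n) with hs0
    have hs0ne : s0 ≠ 0 := exp_ne_zero _
    set ω := y / s0 with hω
    have hωn : ω ^ n = 1 := by
      rw [hω, div_pow, hyn, hs0, hpow 0 hmem0, div_self (hne 0 hmem0)]
    have hF : ∀ w ∈ Metric.ball (0 : ℂ) r, F n c (ω * exp (L w / n)) = g w := by
      intro w hw
      unfold F
      rw [mul_pow, hωn, one_mul, hpow w hw]
      ring
    refine ⟨fun w => ω * exp (L w / n), ?_, fun w hw => ⟨?_, ?_⟩, ?_⟩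
    · exact (hL.div_const _).cexp.const_mul _
    · apply hback
      rw [hF w hw]
      exact (hgw w hw).1
    · show (F n c)^[m + 1] (ω * exp (L w / n)) = z + w
      rw [Function.iterate_succ_apply, hF w hw]
      exact (hgw w hw).2
    · show ω * exp (L 0 / n) = y
      rw [hω, ← hs0, div_mul_cancel₀ _ hs0ne]

end ATTR_

open ATTR_ in
theorem p_ATTR : T_ATTR := by
  intro n k c z hn hk hz hρ
  by_contra hcon
  have h0 : (0 : ℂ) ∉ D n k c z := hcon
  obtain ⟨r, hr, hloc⟩ := local_basin hz hρ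
  set R : ℝ := 2 + ‖c‖ with hR
  have hR0 : 0 < R := by
    have := norm_nonneg c
    linarith
  -- the estimate
  have key : ∀ m : ℕ, 1 ≤ ‖Rho n k c z‖ ^ m * (R / (r / 2)) := by
    intro m
    obtain ⟨g, hg, hgw, hg0⟩ := branches hn hk hz hr hloc h0 (k * m)
    have hg0' : g 0 = z := by
      rw [hg0]
      have e : (k - 1) * (k * m) = k * ((k - 1) * m) := by ring
      rw [e]
      exact per_mul hz _
    have hmem0 : (0 : ℂ) ∈ Metric.ball (0 : ℂ) r := Metric.mem_ball_self hr
    have hgd : HasDerivAt g (deriv g 0) 0 :=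
      (hg.differentiableAt (Metric.isOpen_ball.mem_nhds hmem0)).hasDerivAt
    -- derivative of the iterate
    have hit : HasDerivAt ((F n c)^[k * m]) (Rho n k c z ^ m) z := by
      have hd : HasDerivAt ((F n c)^[k]) (Rho n k c z) z :=
        (differentiable_iter n c k z).hasDerivAt
      have h1 := HasDerivAt.iterate z hd hz m
      rwa [← Function.iterate_mul] at h1
    have hcomp : HasDerivAt (fun w => (F n c)^[k * m] (g w)) (Rho n k c z ^ m * deriv g 0) 0 := by
      have hit' : HasDerivAt ((F n c)^[k * m]) (Rho n k c z ^ m) (g 0) := by rw [hg0']; exact hit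
      exact hit'.comp 0 hgd
    have hlin : HasDerivAt (fun w => (F n c)^[k * m] (g w)) 1 0 := by
      have h1 : HasDerivAt (fun w : ℂ => z + w) 1 0 := (hasDerivAt_id 0).const_add z
      apply h1.congr_of_eventuallyEq
      filter_upwards [Metric.isOpen_ball.mem_nhds hmem0] with w hw
      exact (hgw w hw).2
    have h1 : Rho n k c z ^ m * deriv g 0 = 1 := hcomp.unique hlin
    -- Cauchy
    have h2 : ‖deriv g 0‖ ≤ R / (r / 2) := by
      apply Complex.norm_deriv_le_of_forall_mem_sphere_norm_le (by linarith)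
      · apply DifferentiableOn.diffContOnCl
        rw [closure_ball _ (by linarith)]
        exact hg.mono (Metric.closedBall_subset_ball (by linarith))
      · intro w hw
        apply bounded hn hk (hgw w _).1
        rw [mem_sphere_zero_iff_norm] at hw
        rw [mem_ball_zero_iff]
        linarith
    calc (1 : ℝ) = ‖Rho n k c z ^ m * deriv g 0‖ := by rw [h1, norm_one]
      _ = ‖Rho n k c z‖ ^ m * ‖deriv g 0‖ := by rw [norm_mul, norm_pow]
      _ ≤ ‖Rho n k c z‖ ^ m * (R / (r / 2)) := by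
          apply mul_le_mul_of_nonneg_left h2 (by positivity)
  have hlim : Tendsto (fun m : ℕ => ‖Rho n k c z‖ ^ m * (R / (r / 2))) atTop
      (𝓝 (0 * (R / (r / 2)))) :=
    (tendsto_pow_atTop_nhds_zero_of_lt_one (norm_nonneg _) hρ).mul_const _
  rw [zero_mul] at hlim
  have := ge_of_tendsto' hlim key
  linarith

end Pool.Agent.PLim
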