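import Pool.Agent.PLim.Targets3

/-!
# PLIM, ATU: there is at most one attracting cycle
-/

set_option autoImplicit false

open Complex Filter Topology Set MeasureTheory
open Pool.Agent.Multibrot Pool.Agent.Limb

namespace Pool.Agent.PLim

namespace ATU_

lemma iter_cont (n j : ℕ) (c : ℂ) : Continuous ((F n c)^[j]) := by
  have h : Continuous (F n c) := by
    unfold F
    fun_prop
  exact h.iterate j

end ATU_

theorem p_ATU (h : T_ATTR) : T_ATU := by
  intro n k k' c z z' hn hk hk' hz hz' hR hR'
  obtain ⟨j, hj⟩ := h n k c z hn hk hz hR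
  obtain ⟨j', hj'⟩ := h n k' c z' hn hk' hz' hR'
  have hkk : 1 ≤ k * k' := Nat.mul_pos hk hk'
  have hle : j ≤ j' + k * k' * j := by nlinarith
  obtain ⟨t, ht⟩ := Nat.exists_eq_add_of_le hle
  refine ⟨t, ?_⟩
  -- the first subsequence
  have h1 : Tendsto (fun m : ℕ => k' * m) atTop atTop :=
    Filter.tendsto_id.const_mul_atTop' hk'
  have h2 : Tendsto (fun m : ℕ => k * (m + j)) atTop atTop :=
    (tendsto_add_atTop_nat j).const_mul_atTop' hk
  have h3 := ((ATU_.iter_cont n t c).tendsto z).comp (hj.comp h1)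
  have h4 := hj'.comp h2
  refine tendsto_nhds_unique h3 (h4.congr fun m => ?_)
  simp only [Function.comp]
  rw [← Function.iterate_add_apply]
  have e1 : k' * (k * (m + j)) + j' = t + (k * (k' * m) + j) := by
    have e2 : k' * (k * (m + j)) + j' = k * k' * m + (j' + k * k' * j) := by ring
    rw [e2, ht]
    ring
  rw [e1]

end Pool.Agent.PLim
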