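import Pool.Agent.PLim.Targets3
import Pool.Agent.PLim.CNT

/-!
# PLIM: boundary values of the multiplier on a piece (T_BDV)
-/

set_option autoImplicit false

open Complex Filter Topology Set
open Pool.Agent.Multibrot Pool.Agent.Limb

namespace Pool.Agent.PLim.BDV_

/-- Limits of fixed points with parameters in a piece. -/
lemma lim {n k : ℕ} {r : ℂ} {A : Set ℂ} (hn : 2 ≤ n) (hk : 1 ≤ k) (hA : Piece n r A)
    (v : ℕ → ℂ) (u : ℂ) (hv : Tendsto v atTop (𝓝 u))
    (h : ∀ j, ∃ c z : ℂ, c ∈ A ∧ (F n c)^[k] z = z ∧ Rho n k c z = v j) :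
    ∃ c z : ℂ, c ∈ insert r A ∧ (F n c)^[k] z = z ∧ Rho n k c z = u := by
  choose c z hc hz hR using h
  have hcb : ∀ j, ‖c j‖ ≤ 2 := fun j => by
    have h1 := hA.sub (hc j) 1
    have h2 : Q n 1 (c j) = c j := by
      rw [Q_eq_iterate]
      simp
      omega
    rw [h2] at h1
    exact h1
  have hzb : ∀ j, ‖z j‖ ≤ 4 := fun j => by
    have := CNT_root hn hk (hz j)
    have := hcb j
    linarith
  have hK : IsCompact (Metric.closedBall (0 : ℂ) 2 ×ˢ Metric.closedBall (0 : ℂ) 4) :=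
    (isCompact_closedBall _ _).prod (isCompact_closedBall _ _)
  obtain ⟨⟨c', z'⟩, -, φ, hφ, hlim⟩ := hK.tendsto_subseq (x := fun j => (c j, z j))
    (fun j => ⟨by simpa using hcb j, by simpa using hzb j⟩)
  have hc' : Tendsto (fun j => c (φ j)) atTop (𝓝 c') :=
    (continuous_fst.tendsto _).comp hlim
  refine ⟨c', z', ?_, ?_, ?_⟩
  · exact hA.cl.mem_of_tendsto hc' (Eventually.of_forall fun j => mem_insert_of_mem _ (hc _))
  · have h1 : Tendsto (fun j => (F n (c (φ j)))^[k] (z (φ j))) atTop (𝓝 ((F n c')^[k] z')) :=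
      ((CNT_contI n k).tendsto (c', z')).comp hlim
    have h2 : Tendsto (fun j => (F n (c (φ j)))^[k] (z (φ j))) atTop (𝓝 z') := by
      have : (fun j => (F n (c (φ j)))^[k] (z (φ j))) = fun j => z (φ j) := by
        funext j
        exact hz _
      rw [this]
      exact (continuous_snd.tendsto _).comp hlim
    exact tendsto_nhds_unique h1 h2
  · have h1 : Tendsto (fun j => Rho n k (c (φ j)) (z (φ j))) atTop (𝓝 (Rho n k c' z')) :=
      ((CNT_contR n k).tendsto (c', z')).comp hlim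
    have h2 : Tendsto (fun j => Rho n k (c (φ j)) (z (φ j))) atTop (𝓝 u) := by
      have : (fun j => Rho n k (c (φ j)) (z (φ j))) = fun j => v (φ j) := by
        funext j
        exact hR _
      rw [this]
      exact hv.comp hφ.tendsto_atTop
    exact tendsto_nhds_unique h1 h2

/-- The values of the multiplier in the disc. -/
def SS (n k : ℕ) (A : Set ℂ) : Set ℂ :=
  {v | ‖v‖ < 1 ∧ ∃ c z : ℂ, c ∈ A ∧ (F n c)^[k] z = z ∧ Rho n k c z = v}

lemma open_ (h2 : T_MMA) (h3 : T_LOCZ) (h5 : T_CNT) {n k : ℕ} {r : ℂ} {A : Set ℂ} (hn : 2 ≤ n)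
    (hk : 1 ≤ k) (hA : Piece n r A) : IsOpen (SS n k A) := by
  rw [isOpen_iff_mem_nhds]
  rintro v ⟨hv, c, z, hc, hz, hR⟩
  have hv1 : v ≠ 1 := by
    rintro rfl
    simp at hv
  obtain ⟨δ, r', zf, -, -, hL⟩ := h3 n k c z 1 hn one_pos hz (by rw [hR]; exact hv1)
  obtain ⟨U, hU, hAU⟩ := hA.op
  have hcU : c ∈ U := by
    have := hc
    rw [hAU] at this
    exact this.2
  have hcb : c ∈ Metric.ball c δ := Metric.mem_ball_self hL.hδ
  have hd : DifferentiableOn ℂ (fun x => Rho n k x (zf x)) (Metric.ball c δ) :=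
    CNT_diffR n k zf _ hL.diff
  have hcv : Rho n k c (zf c) = v := by rw [hL.zf0, hR]
  have hcont : ContinuousAt (fun x => Rho n k x (zf x)) c :=
    (hd.differentiableAt (Metric.ball_mem_nhds c hL.hδ)).continuousAt
  -- all values near `c` are in the set
  have hev : ∀ᶠ x in 𝓝 c, Rho n k x (zf x) ∈ SS n k A := by
    have e1 : ∀ᶠ x in 𝓝 c, ‖Rho n k x (zf x)‖ < 1 := by
      have : ContinuousAt (fun x => ‖Rho n k x (zf x)‖) c := hcont.norm
      apply this.eventually (Iio_mem_nhds _)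
      change ‖Rho n k c (zf c)‖ < 1
      rw [hcv]
      exact hv
    filter_upwards [e1, hU.mem_nhds hcU, Metric.ball_mem_nhds c hL.hδ] with x hx1 hx2 hx3
    refine ⟨hx1, x, zf x, ?_, hL.fix x hx3, rfl⟩
    rw [hAU]
    exact ⟨h2 n k x (zf x) hn hk (hL.fix x hx3) hx1, hx2⟩
  have han : AnalyticAt ℂ (fun x => Rho n k x (zf x)) c :=
    hd.analyticAt (Metric.ball_mem_nhds c hL.hδ)
  rcases han.eventually_constant_or_nhds_le_map_nhds with hcst | hnh
  · exfalso
    have hcst' : ∀ᶠ x in 𝓝 c, Rho n k x (zf x) = v := by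
      filter_upwards [hcst] with x hx
      rw [hx]
      exact hcv
    have h6 : ∀ᶠ x in 𝓝 c, Rho n k x (zf x) = v ∧ x ∈ Metric.ball c δ :=
      hcst'.and (Metric.ball_mem_nhds c hL.hδ)
    have h7 : {x | Rho n k x (zf x) = v ∧ x ∈ Metric.ball c δ}.Infinite :=
      infinite_of_mem_nhds c h6
    obtain ⟨T, hT, hTc⟩ := h7.exists_subset_card_eq (k * (n - 1) * n ^ (k - 1) + 1)
    have h8 := (h5 n k v (T.image (fun x => (x, zf x))) hn hk hv1 (by
      intro p hp
      rw [Finset.mem_image] at hp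
      obtain ⟨x, hx, rfl⟩ := hp
      have := hT (Finset.mem_coe.mpr hx)
      exact ⟨hL.fix x this.2, this.1⟩)).1
    rw [Finset.card_image_of_injective _ (fun x y hxy => congrArg Prod.fst hxy), hTc] at h8
    omega
  · rw [hcv] at hnh
    exact hnh hev

lemma closed_ (h1 : T_NOA) {n k : ℕ} {r : ℂ} {A : Set ℂ} (hn : 2 ≤ n) (hk : 1 ≤ k)
    (hA : Piece n r A) : closure (SS n k A) ∩ Metric.ball 0 1 ⊆ SS n k A := by
  rintro v ⟨hv1, hv2⟩
  have hv : ‖v‖ < 1 := by simpa using hv2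
  obtain ⟨w, hw, hlim⟩ := mem_closure_iff_seq_limit.mp hv1
  obtain ⟨c, z, hc, hz, hR⟩ := lim hn hk hA w v hlim (fun j => (hw j).2)
  refine ⟨hv, c, z, ?_, hz, hR⟩
  rcases mem_insert_iff.mp hc with rfl | hc
  · exfalso
    obtain ⟨k', z', hk', hz', hn1, hn2⟩ := hA.ind
    have := h1 n k k' c z z' hn hk hk' hz hz' hn1 hn2
    rw [hR] at this
    linarith
  · exact hc

end Pool.Agent.PLim.BDV_

namespace Pool.Agent.PLim

open BDV_

theorem p_BDV (h1 : T_NOA) (h2 : T_MMA) (h3 : T_LOCZ) (_h4 : T_BIG) (h5 : T_CNT) : T_BDV := by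
  intro n k r A c1 z1 u hn hk hA hc1 hz1 hR1 hu
  have hsub : Metric.ball (0 : ℂ) 1 ⊆ SS n k A := by
    apply (convex_ball (0 : ℂ) 1).isPreconnected.subset_of_closure_inter_subset
      (open_ h2 h3 h5 hn hk hA)
    · exact ⟨Rho n k c1 z1, by simpa using hR1, hR1, c1, z1, hc1, hz1, rfl⟩
    · exact closed_ h1 hn hk hA
  have hpos : ∀ j : ℕ, (0 : ℝ) < 1 / ((j : ℝ) + 1) := fun j => by positivity
  apply lim hn hk hA (fun j : ℕ => ((1 - 1 / ((j : ℝ) + 1) : ℝ) : ℂ) * u) u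
  · have e1 : Tendsto (fun j : ℕ => (1 - 1 / ((j : ℝ) + 1) : ℝ)) atTop (𝓝 (1 - 0)) :=
      tendsto_const_nhds.sub tendsto_one_div_add_atTop_nhds_zero_nat
    rw [sub_zero] at e1
    have e2 : Tendsto (fun j : ℕ => ((1 - 1 / ((j : ℝ) + 1) : ℝ) : ℂ)) atTop (𝓝 ((1 : ℝ) : ℂ)) :=
      (continuous_ofReal.tendsto 1).comp e1
    have e3 := e2.mul_const u
    rw [ofReal_one, one_mul] at e3
    exact e3
  · intro j
    have h4 : ((1 - 1 / ((j : ℝ) + 1) : ℝ) : ℂ) * u ∈ Metric.ball (0 : ℂ) 1 := by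
      rw [mem_ball_zero_iff, norm_mul, hu, mul_one, norm_real, Real.norm_eq_abs, abs_of_nonneg]
      · have := hpos j
        linarith
      · have : 1 / ((j : ℝ) + 1) ≤ 1 := by
          rw [div_le_one (by positivity)]
          have : (0 : ℝ) ≤ j := Nat.cast_nonneg j
          linarith
        linarith
    exact (hsub h4).2

end Pool.Agent.PLim
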