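import Pool.Agent.PLim.Targets

/-!
# PLIM-MP: the norm of `w - multiplier` is a polynomial in the parameter
-/

set_option autoImplicit false

open Polynomial
open Pool.Agent.Multibrot Pool.Agent.Limb

namespace Pool.Agent.PLim.MPx

/-- The iterates as polynomials in `z` with coefficients in `ℂ[c]`. -/
noncomputable def FB (n : ℕ) : ℕ → Polynomial (Polynomial ℂ)
  | 0 => Polynomial.X
  | k + 1 => FB n k ^ n + Polynomial.C Polynomial.X

lemma FB_map (n k : ℕ) (c : ℂ) : (FB n k).map (Polynomial.evalRingHom c) = FPol n c k := by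
  induction k with
  | zero => simp [FB, FPol]
  | succ k ih => simp [FB, FPol, ih]

lemma FPol_eval (n k : ℕ) (c z : ℂ) : (FPol n c k).eval z = (F n c)^[k] z := by
  induction k with
  | zero => simp [FPol]
  | succ k ih =>
    rw [Function.iterate_succ_apply', ← ih]
    simp [FPol, F]

lemma FPol_natDegree (n k : ℕ) (c : ℂ) (hn : 2 ≤ n) :
    (FPol n c k).Monic ∧ (FPol n c k).natDegree = n ^ k := by
  induction k with
  | zero => simp [FPol, monic_X]
  | succ k ih =>
    obtain ⟨h1, h2⟩ := ih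
    have h3 : (FPol n c k ^ n).Monic := h1.pow n
    have h4 : (FPol n c k ^ n).natDegree = n ^ (k + 1) := by
      rw [h1.natDegree_pow, h2, pow_succ, mul_comm]
    have h5 : 0 < n ^ (k + 1) := by positivity
    have h6 : (C c : Polynomial ℂ).degree < (FPol n c k ^ n).degree := by
      refine lt_of_le_of_lt degree_C_le ?_
      rw [degree_eq_natDegree h3.ne_zero, h4]
      exact_mod_cast h5
    refine ⟨h3.add_of_left h6, ?_⟩
    show (FPol n c k ^ n + C c).natDegree = _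
    rw [natDegree_add_eq_left_of_degree_lt h6, h4]

lemma fix_monic (n k : ℕ) (c : ℂ) (hn : 2 ≤ n) (hk : 1 ≤ k) :
    (FPol n c k - X).Monic ∧ (FPol n c k - X).natDegree = n ^ k := by
  obtain ⟨h1, h2⟩ := FPol_natDegree n k c hn
  have h3 : 2 ≤ n ^ k := by
    calc 2 ≤ n := hn
      _ = n ^ 1 := (pow_one n).symm
      _ ≤ n ^ k := Nat.pow_le_pow_right (by omega) hk
  have h4 : (X : Polynomial ℂ).degree < (FPol n c k).degree := by
    rw [degree_X, degree_eq_natDegree h1.ne_zero, h2]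
    exact_mod_cast (by omega : 1 < n ^ k)
  refine ⟨h1.sub_of_left h4, ?_⟩
  rw [natDegree_sub_eq_left_of_natDegree_lt (by rw [natDegree_X, h2]; omega), h2]

lemma Rho_eq (n k : ℕ) (c z : ℂ) : Rho n k c z = (derivative (FPol n c k)).eval z := by
  unfold Rho
  have h : (F n c)^[k] = fun z => (FPol n c k).eval z := by
    funext z
    rw [FPol_eval]
  rw [h, Polynomial.deriv]

lemma Rho_prod (n k : ℕ) (c z : ℂ) :
    Rho n k c z = ∏ j ∈ Finset.range k, ((n : ℂ) * ((F n c)^[j] z) ^ (n - 1)) := by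
  rw [Rho_eq]
  induction k with
  | zero => simp [FPol]
  | succ k ih =>
    rw [Finset.prod_range_succ, ← ih, ← FPol_eval]
    simp [FPol, derivative_pow]
    ring

/-! ### bounds on cycles -/

lemma cyc_bound (n k : ℕ) (c z : ℂ) (hn : 2 ≤ n) (hk : 1 ≤ k) (hc : 16 ≤ ‖c‖)
    (hz : (F n c)^[k] z = z) (j : ℕ) :
    ‖(F n c)^[j] z‖ ^ n ≤ 2 * ‖c‖ ∧ ‖c‖ / 2 ≤ ‖(F n c)^[j] z‖ ^ n := by
  -- the maximum over the cycle
  have hper : ∀ j, (F n c)^[j + k] z = (F n c)^[j] z := by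
    intro j
    rw [Function.iterate_add_apply, hz]
  have hperm : ∀ j, (F n c)^[j] z = (F n c)^[j % k] z := by
    intro j
    conv_lhs => rw [← Nat.mod_add_div j k]
    generalize j / k = m
    induction m with
    | zero => simp
    | succ m ih =>
      rw [← ih]
      have : j % k + k * (m + 1) = (j % k + k * m) + k := by ring
      rw [this, hper]
  have hne : (Finset.range k).Nonempty := ⟨0, by simp; omega⟩
  obtain ⟨i, hi, hmax⟩ := Finset.exists_max_image (Finset.range k)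
    (fun j => ‖(F n c)^[j] z‖) hne
  set R := ‖(F n c)^[i] z‖ with hR
  have hle : ∀ j, ‖(F n c)^[j] z‖ ≤ R := by
    intro j
    rw [hperm j]
    exact hmax _ (Finset.mem_range.mpr (Nat.mod_lt _ (by omega)))
  have hR0 : 0 ≤ R := norm_nonneg _
  have hstep : ∀ j, (F n c)^[j + 1] z = ((F n c)^[j] z) ^ n + c := by
    intro j
    rw [Function.iterate_succ_apply']
    rfl
  have hRn : R ^ n ≤ R + ‖c‖ := by
    have h1 : ((F n c)^[i] z) ^ n = (F n c)^[i + 1] z - c := by rw [hstep]; ring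
    calc R ^ n = ‖((F n c)^[i] z) ^ n‖ := by rw [norm_pow]
      _ = ‖(F n c)^[i + 1] z - c‖ := by rw [h1]
      _ ≤ ‖(F n c)^[i + 1] z‖ + ‖c‖ := norm_sub_le _ _
      _ ≤ R + ‖c‖ := by linarith [hle (i + 1)]
  have hR2 : R ≤ ‖c‖ / 2 := by
    by_contra hcon
    push Not at hcon
    have h8 : 8 < R := by linarith
    have h2 : R ^ 2 ≤ R ^ n := pow_le_pow_right₀ (by linarith) hn
    nlinarith
  constructor
  · calc ‖(F n c)^[j] z‖ ^ n ≤ R ^ n := by gcongr; exact hle j
      _ ≤ R + ‖c‖ := hRn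
      _ ≤ 2 * ‖c‖ := by linarith
  · have h1 : ((F n c)^[j] z) ^ n = (F n c)^[j + 1] z - c := by rw [hstep]; ring
    rw [← norm_pow, h1]
    have h2 : ‖c‖ - ‖(F n c)^[j + 1] z‖ ≤ ‖(F n c)^[j + 1] z - c‖ := by
      rw [norm_sub_rev]
      exact norm_sub_norm_le _ _
    linarith [hle (j + 1)]

lemma norm_Rho_pow (n k : ℕ) (c z : ℂ) :
    ‖Rho n k c z‖ ^ n = ∏ j ∈ Finset.range k, ((n : ℝ) ^ n * (‖(F n c)^[j] z‖ ^ n) ^ (n - 1)) := by
  rw [Rho_prod, norm_prod, ← Finset.prod_pow]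
  refine Finset.prod_congr rfl fun j _ => ?_
  rw [norm_mul, norm_pow, Complex.norm_natCast, mul_pow]
  ring

lemma Rho_upper (n k : ℕ) (c z : ℂ) (hn : 2 ≤ n) (hk : 1 ≤ k) (hc : 16 ≤ ‖c‖)
    (hz : (F n c)^[k] z = z) :
    ‖Rho n k c z‖ ^ n ≤ ((n : ℝ) ^ n * 2 ^ (n - 1)) ^ k * ‖c‖ ^ ((n - 1) * k) := by
  rw [norm_Rho_pow]
  calc ∏ j ∈ Finset.range k, ((n : ℝ) ^ n * (‖(F n c)^[j] z‖ ^ n) ^ (n - 1))
      ≤ ∏ j ∈ Finset.range k, ((n : ℝ) ^ n * (2 * ‖c‖) ^ (n - 1)) := by
        refine Finset.prod_le_prod (fun j _ => by positivity) fun j _ => ?_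
        gcongr
        exact (cyc_bound n k c z hn hk hc hz j).1
    _ = ((n : ℝ) ^ n * 2 ^ (n - 1)) ^ k * ‖c‖ ^ ((n - 1) * k) := by
        rw [Finset.prod_const, Finset.card_range, mul_pow 2, ← mul_assoc, mul_pow _ _ k, pow_mul]

lemma Rho_lower (n k : ℕ) (c z : ℂ) (hn : 2 ≤ n) (hk : 1 ≤ k) (hc : 16 ≤ ‖c‖)
    (hz : (F n c)^[k] z = z) :
    ‖c‖ / 2 ≤ ‖Rho n k c z‖ ^ n := by
  rw [norm_Rho_pow]
  have h1 : ∀ j ∈ Finset.range k,
      ‖c‖ / 2 ≤ (n : ℝ) ^ n * (‖(F n c)^[j] z‖ ^ n) ^ (n - 1) := by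
    intro j _
    have h2 := (cyc_bound n k c z hn hk hc hz j).2
    have h3 : (1 : ℝ) ≤ n := by exact_mod_cast (by omega : 1 ≤ n)
    have h4 : (1 : ℝ) ≤ (n : ℝ) ^ n := one_le_pow₀ h3
    have h5 : (1 : ℝ) ≤ ‖c‖ / 2 := by linarith
    calc ‖c‖ / 2 = 1 * (‖c‖ / 2) ^ 1 := by ring
      _ ≤ (n : ℝ) ^ n * (‖c‖ / 2) ^ (n - 1) := by
          have h6 : (‖c‖ / 2) ^ 1 ≤ (‖c‖ / 2) ^ (n - 1) := pow_le_pow_right₀ h5 (by omega)
          exact mul_le_mul h4 h6 (by positivity) (by positivity)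
      _ ≤ _ := by gcongr
  have h5 : (1 : ℝ) ≤ ‖c‖ / 2 := by linarith
  calc ‖c‖ / 2 = (‖c‖ / 2) ^ 1 := by ring
    _ ≤ (‖c‖ / 2) ^ k := pow_le_pow_right₀ h5 hk
    _ = ∏ j ∈ Finset.range k, (‖c‖ / 2) := by rw [Finset.prod_const, Finset.card_range]
    _ ≤ _ := Finset.prod_le_prod (fun j _ => by positivity) h1

/-! ### degree from growth -/

lemma natDegree_le_of_growth (P : Polynomial ℂ) (D : ℕ) (C' R : ℝ)
    (h : ∀ c : ℂ, R ≤ ‖c‖ → ‖P.eval c‖ ≤ C' * ‖c‖ ^ D) : P.natDegree ≤ D := by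
  by_contra hcon
  push Not at hcon
  have hmon : (X ^ D : Polynomial ℂ).Monic := monic_X_pow D
  set Q := P /ₘ X ^ D with hQ
  set S := P %ₘ X ^ D with hS
  have hPQ : S + X ^ D * Q = P := modByMonic_add_div P (X ^ D)
  have hQd : 0 < Q.degree := by
    rw [← natDegree_pos_iff_degree_pos, hQ, natDegree_divByMonic _ hmon, natDegree_X_pow]
    omega
  have hSd : S.degree ≤ (X ^ D : Polynomial ℂ).degree := (degree_modByMonic_lt P hmon).le
  -- the remainder is bounded by a constant times `‖c‖ ^ D`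
  have hSb : ∀ c : ℂ, 1 ≤ ‖c‖ → ‖S.eval c‖ ≤ (∑ i ∈ S.support, ‖S.coeff i‖) * ‖c‖ ^ D := by
    intro c hc
    rw [eval_eq_sum, Polynomial.sum]
    refine (norm_sum_le _ _).trans ?_
    rw [Finset.sum_mul]
    refine Finset.sum_le_sum fun i hi => ?_
    rw [norm_mul, norm_pow]
    have hi' : i ≤ D := by
      have h1 : i ≤ S.natDegree := le_natDegree_of_mem_supp i hi
      have h2 : S.natDegree ≤ (X ^ D : Polynomial ℂ).natDegree :=
        natDegree_le_natDegree hSd
      rw [natDegree_X_pow] at h2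
      omega
    gcongr
  set A := ∑ i ∈ S.support, ‖S.coeff i‖ with hA
  have hbd : ∀ c : ℂ, max R 1 ≤ ‖c‖ → ‖Q.eval c‖ ≤ C' + A := by
    intro c hc
    have h1 : 1 ≤ ‖c‖ := le_trans (le_max_right _ _) hc
    have h2 := h c (le_trans (le_max_left _ _) hc)
    have h3 := hSb c h1
    have h4 : P.eval c = S.eval c + c ^ D * Q.eval c := by
      conv_lhs => rw [← hPQ]
      simp
    have h5 : c ^ D * Q.eval c = P.eval c - S.eval c := by rw [h4]; ring
    have h6 : ‖c‖ ^ D * ‖Q.eval c‖ ≤ (C' + A) * ‖c‖ ^ D := by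
      rw [← norm_pow, ← norm_mul, h5]
      calc ‖P.eval c - S.eval c‖ ≤ ‖P.eval c‖ + ‖S.eval c‖ := norm_sub_le _ _
        _ ≤ C' * ‖c‖ ^ D + A * ‖c‖ ^ D := add_le_add h2 h3
        _ = (C' + A) * ‖c ^ D‖ := by rw [norm_pow]; ring
    have h7 : 0 < ‖c‖ ^ D := by positivity
    rw [mul_comm (C' + A)] at h6
    exact le_of_mul_le_mul_left h6 h7
  have ht : Filter.Tendsto (fun x : ℝ => ‖Q.eval (x : ℂ)‖) Filter.atTop Filter.atTop := by
    refine Polynomial.tendsto_norm_atTop Q hQd ?_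
    have : (fun x : ℝ => ‖(x : ℂ)‖) = fun x => |x| := by
      funext x
      exact Complex.norm_real x
    rw [this]
    exact Filter.tendsto_abs_atTop_atTop
  obtain ⟨x, hx1, hx2⟩ := ((ht.eventually_gt_atTop (C' + A)).and
    (Filter.eventually_ge_atTop (max R 1))).exists
  have hx3 : max R 1 ≤ ‖(x : ℂ)‖ := by
    rw [Complex.norm_real, Real.norm_eq_abs]
    exact hx2.trans (le_abs_self x)
  exact absurd (hbd x hx3) (not_le.mpr hx1)

end Pool.Agent.PLim.MPx

namespace Pool.Agent.PLim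

open MPx

theorem p_MP : T_MP := by
  intro n k w hn hk
  have hn0 : 0 < n := by omega
  -- the resultant
  set f : Polynomial (Polynomial ℂ) := FB n k - X with hf
  set g : Polynomial (Polynomial ℂ) := C (C w) - derivative (FB n k) with hg
  set N := max (n ^ k) g.natDegree with hN
  set P : Polynomial ℂ := resultant f g (n ^ k) N with hP
  have heval : ∀ c : ℂ, P.eval c =
      ((FPol n c k - X).roots.map (fun z => w - Rho n k c z)).prod := by
    intro c
    obtain ⟨hm, hd⟩ := fix_monic n k c hn hk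
    have h1 : P.eval c = resultant (f.map (evalRingHom c)) (g.map (evalRingHom c)) (n ^ k) N := by
      rw [resultant_map_map]
      rfl
    have h2 : f.map (evalRingHom c) = FPol n c k - X := by
      rw [hf, Polynomial.map_sub, FB_map, map_X]
    have h3 : g.map (evalRingHom c) = C w - derivative (FPol n c k) := by
      rw [hg, Polynomial.map_sub, ← derivative_map, FB_map, map_C]
      simp
    have h4 : (g.map (evalRingHom c)).natDegree ≤ N :=
      natDegree_map_le.trans (le_max_right _ _)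
    rw [h1, h2]
    have h5 := resultant_eq_prod_eval (FPol n c k - X) (g.map (evalRingHom c)) N h4
      (IsAlgClosed.splits _)
    rw [hd, hm.leadingCoeff, one_pow, one_mul] at h5
    rw [h5]
    refine congrArg Multiset.prod (Multiset.map_congr rfl fun z _ => ?_)
    rw [h3, Rho_eq]
    simp
  have hroot : ∀ c z : ℂ, z ∈ (FPol n c k - X).roots → (F n c)^[k] z = z := by
    intro c z hz
    have := (mem_roots (fix_monic n k c hn hk).1.ne_zero).mp hz
    rw [IsRoot.def, eval_sub, eval_X, FPol_eval, sub_eq_zero] at this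
    exact this
  have hcard : ∀ c : ℂ, Multiset.card (FPol n c k - X).roots = n ^ k := by
    intro c
    rw [← (fix_monic n k c hn hk).2]
    exact (splits_iff_card_roots.mp (IsAlgClosed.splits _))
  refine ⟨P, ?_, ?_, heval⟩
  · -- nonzero
    intro h0
    set x : ℝ := 2 * ‖w‖ ^ n + 16 with hx
    have hx0 : 0 ≤ 2 * ‖w‖ ^ n := by positivity
    have hxn : ‖(x : ℂ)‖ = x := by
      rw [Complex.norm_real, Real.norm_eq_abs, abs_of_nonneg (by linarith)]
    have h1 := heval (x : ℂ)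
    rw [h0, eval_zero] at h1
    have h2 := Multiset.prod_eq_zero_iff.mp h1.symm
    rw [Multiset.mem_map] at h2
    obtain ⟨z, hz, hz0⟩ := h2
    have h3 := Rho_lower n k (x : ℂ) z hn hk (by rw [hxn]; linarith) (hroot _ _ hz)
    have h4 : Rho n k (x : ℂ) z = w := (sub_eq_zero.mp hz0).symm
    rw [h4, hxn] at h3
    linarith
  · -- the degree
    set B : ℝ := 2 ^ n * (‖w‖ ^ n + ((n : ℝ) ^ n * 2 ^ (n - 1)) ^ k) with hB
    have hterm : ∀ c : ℂ, 16 ≤ ‖c‖ → ∀ z ∈ (FPol n c k - X).roots,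
        ‖w - Rho n k c z‖ ^ n ≤ B * ‖c‖ ^ ((n - 1) * k) := by
      intro c hc z hz
      have h1 := Rho_upper n k c z hn hk hc (hroot c z hz)
      have h2 : ‖w - Rho n k c z‖ ≤ ‖w‖ + ‖Rho n k c z‖ := norm_sub_le _ _
      have h3 : (‖w‖ + ‖Rho n k c z‖) ^ n ≤ 2 ^ n * (‖w‖ ^ n + ‖Rho n k c z‖ ^ n) := by
        have h4 : ‖w‖ + ‖Rho n k c z‖ ≤ 2 * max ‖w‖ ‖Rho n k c z‖ := by
          linarith [le_max_left ‖w‖ ‖Rho n k c z‖, le_max_right ‖w‖ ‖Rho n k c z‖]
        calc (‖w‖ + ‖Rho n k c z‖) ^ n ≤ (2 * max ‖w‖ ‖Rho n k c z‖) ^ n := by gcongr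
          _ = 2 ^ n * (max ‖w‖ ‖Rho n k c z‖) ^ n := by rw [mul_pow]
          _ ≤ 2 ^ n * (‖w‖ ^ n + ‖Rho n k c z‖ ^ n) := by
              gcongr
              rcases max_cases ‖w‖ ‖Rho n k c z‖ with h | h
              · rw [h.1]
                have : 0 ≤ ‖Rho n k c z‖ ^ n := by positivity
                linarith
              · rw [h.1]
                have : 0 ≤ ‖w‖ ^ n := by positivity
                linarith
      have hc1 : 1 ≤ ‖c‖ ^ ((n - 1) * k) := one_le_pow₀ (by linarith)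
      calc ‖w - Rho n k c z‖ ^ n ≤ (‖w‖ + ‖Rho n k c z‖) ^ n := by gcongr
        _ ≤ 2 ^ n * (‖w‖ ^ n + ‖Rho n k c z‖ ^ n) := h3
        _ ≤ 2 ^ n * (‖w‖ ^ n * ‖c‖ ^ ((n - 1) * k) +
            ((n : ℝ) ^ n * 2 ^ (n - 1)) ^ k * ‖c‖ ^ ((n - 1) * k)) := by
            gcongr
            have : 0 ≤ ‖w‖ ^ n := by positivity
            nlinarith
        _ = B * ‖c‖ ^ ((n - 1) * k) := by rw [hB]; ring
    have hB0 : 0 ≤ B := by positivity
    have hgrow : ∀ c : ℂ, 16 ≤ ‖c‖ →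
        ‖(P ^ n).eval c‖ ≤ B ^ (n ^ k) * ‖c‖ ^ (n * (k * (n - 1) * n ^ (k - 1))) := by
      intro c hc
      have h1 : ‖(P ^ n).eval c‖ =
          ((FPol n c k - X).roots.map (fun z => ‖w - Rho n k c z‖ ^ n)).prod := by
        rw [eval_pow, heval c, norm_pow]
        have h2 : ∀ s : Multiset ℂ, ‖(s.map (fun z => w - Rho n k c z)).prod‖ =
            (s.map (fun z => ‖w - Rho n k c z‖)).prod := by
          intro s
          induction s using Multiset.induction with
          | empty => simp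
          | cons a s ih => simp [ih]
        rw [h2]
        rw [← Multiset.prod_map_pow]
      have h2 : ∀ s : Multiset ℂ, (∀ z ∈ s, ‖w - Rho n k c z‖ ^ n ≤ B * ‖c‖ ^ ((n - 1) * k)) →
          (s.map (fun z => ‖w - Rho n k c z‖ ^ n)).prod ≤
            (B * ‖c‖ ^ ((n - 1) * k)) ^ (Multiset.card s) ∧
          0 ≤ (s.map (fun z => ‖w - Rho n k c z‖ ^ n)).prod := by
        intro s
        induction s using Multiset.induction with
        | empty => simp
        | cons a s ih =>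
          intro hs
          obtain ⟨ih1, ih2⟩ := ih fun z hz => hs z (Multiset.mem_cons_of_mem hz)
          rw [Multiset.map_cons, Multiset.prod_cons, Multiset.card_cons, pow_succ, mul_comm]
          constructor
          · exact mul_le_mul ih1 (hs a (Multiset.mem_cons_self a s)) (by positivity)
              (by positivity)
          · positivity
      rw [h1]
      refine ((h2 _ (hterm c hc)).1).trans (le_of_eq ?_)
      rw [hcard, mul_pow, ← pow_mul]
      congr 2
      obtain ⟨k', rfl⟩ : ∃ k', k = k' + 1 := ⟨k - 1, by omega⟩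
      simp only [Nat.add_sub_cancel]
      ring
    have h5 := natDegree_le_of_growth (P ^ n) (n * (k * (n - 1) * n ^ (k - 1))) (B ^ (n ^ k)) 16
      hgrow
    rw [natDegree_pow] at h5
    exact Nat.le_of_mul_le_mul_left h5 hn0

end Pool.Agent.PLim
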