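import Pool.Agent.PLim.Targets3
import Pool.Agent.PLim.MP

/-!
# PLIM-BIF: bifurcation along a path of parameters
-/

set_option autoImplicit false

open Complex Filter Topology Set MeasureTheory
open Pool.Agent.Multibrot Pool.Agent.Limb

namespace Pool.Agent.PLim

namespace BIF_

/-- an analytic function vanishing at `a` is a power of a local coordinate -/
lemma root {φ : ℂ → ℂ} {a : ℂ} (hφ : AnalyticAt ℂ φ a) (h0 : φ a = 0)
    (hnz : ¬ ∀ᶠ z in 𝓝 a, φ z = 0) :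
    ∃ (m : ℕ) (s : ℂ → ℂ), 1 ≤ m ∧ AnalyticAt ℂ s a ∧ s a = 0 ∧ deriv s a ≠ 0 ∧
      ∀ᶠ z in 𝓝 a, φ z = s z ^ m := by
  obtain ⟨m, u, hu, hua, hev⟩ := hφ.exists_eventuallyEq_pow_smul_nonzero_iff.2 hnz
  have hm0 : m ≠ 0 := by
    rintro rfl
    have h1 := hev.self_of_nhds
    simp only [pow_zero, one_smul] at h1
    rw [h0] at h1
    exact hua h1.symm
  have hmC : (m : ℂ) ≠ 0 := by exact_mod_cast hm0
  obtain ⟨v0, hv0⟩ := IsAlgClosed.exists_pow_nat_eq (u a) (Nat.pos_of_ne_zero hm0)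
  have hv00 : v0 ≠ 0 := by
    rintro rfl
    rw [zero_pow hm0] at hv0
    exact hua hv0.symm
  obtain ⟨v, hv⟩ : ∃ v : ℂ → ℂ, v = fun z => v0 * exp (log (u z / u a) / m) := ⟨_, rfl⟩
  have hva : v a = v0 := by
    rw [hv]
    simp only
    rw [div_self hua, log_one, zero_div, exp_zero, mul_one]
  have hvan : AnalyticAt ℂ v a := by
    have h1 : AnalyticAt ℂ (fun z => u z / u a) a := hu.div analyticAt_const hua
    have h2 : AnalyticAt ℂ (fun z => log (u z / u a)) a := by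
      apply AnalyticAt.clog h1
      rw [div_self hua]
      exact one_mem_slitPlane
    have h3 : AnalyticAt ℂ (fun z => log (u z / u a) / m) a := h2.div analyticAt_const hmC
    rw [hv]
    exact analyticAt_const.mul h3.cexp'
  have hvm : ∀ᶠ z in 𝓝 a, v z ^ m = u z := by
    filter_upwards [hu.continuousAt.eventually_ne hua] with z hz
    rw [hv]
    simp only
    rw [mul_pow, hv0, ← exp_nat_mul, mul_div_cancel₀ _ hmC, exp_log (div_ne_zero hz hua),
      mul_div_cancel₀ _ hua]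
  refine ⟨m, fun z => (z - a) * v z, Nat.one_le_iff_ne_zero.mpr hm0,
    (analyticAt_id.sub analyticAt_const).mul hvan, ?_, ?_, ?_⟩
  · simp
  · have h2 : HasDerivAt (fun z => (z - a) * v z) (1 * v a + (a - a) * deriv v a) a :=
      ((hasDerivAt_id a).sub_const a).mul hvan.differentiableAt.hasDerivAt
    rw [h2.deriv, hva, one_mul, sub_self, zero_mul, add_zero]
    exact hv00
  · filter_upwards [hev, hvm] with z h1 h2
    rw [h1, mul_pow, h2, smul_eq_mul]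

/-- local right inverse -/
lemma inv {s : ℂ → ℂ} {a : ℂ} (hs : AnalyticAt ℂ s a) (h0 : s a = 0) (hd : deriv s a ≠ 0) :
    ∃ (δ : ℝ) (σ : ℂ → ℂ), 0 < δ ∧ ContinuousOn σ (Metric.ball 0 δ) ∧ σ 0 = a ∧
      ∀ w ∈ Metric.ball (0 : ℂ) δ, s (σ w) = w := by
  have h1 := (hs.hasStrictDerivAt).hasStrictFDerivAt_equiv hd
  obtain ⟨e, he⟩ : ∃ e : OpenPartialHomeomorph ℂ ℂ,
      e = HasStrictFDerivAt.toOpenPartialHomeomorph s h1 := ⟨_, rfl⟩
  have hcoe : ∀ z, e z = s z := by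
    intro z; rw [he, HasStrictFDerivAt.toOpenPartialHomeomorph_coe]
  have hsrc : a ∈ e.source := by
    rw [he]; exact h1.mem_toOpenPartialHomeomorph_source
  have htgt : (0 : ℂ) ∈ e.target := by
    have h2 := e.map_source hsrc
    rwa [hcoe, h0] at h2
  obtain ⟨δ, hδ, hball⟩ := Metric.isOpen_iff.1 e.open_target 0 htgt
  refine ⟨δ, e.symm, hδ, e.continuousOn_symm.mono hball, ?_, ?_⟩
  · have h2 := e.left_inv hsrc
    rwa [hcoe, h0] at h2
  · intro w hw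
    have h2 := e.right_inv (hball hw)
    rwa [hcoe] at h2

lemma iter_diff {n : ℕ} {g : ℂ → ℂ} {S : Set ℂ} (hg : DifferentiableOn ℂ g S) (j : ℕ) :
    DifferentiableOn ℂ (fun z => (F n (g z))^[j] z) S := by
  induction j with
  | zero => exact differentiableOn_id
  | succ j ih =>
    have h : (fun z => (F n (g z))^[j + 1] z) = fun z => ((F n (g z))^[j] z) ^ n + g z := by
      funext z
      rw [Function.iterate_succ_apply']
      rfl
    rw [h]
    exact (ih.pow n).add hg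

lemma Rho_diff {n : ℕ} {g : ℂ → ℂ} {S : Set ℂ} (hg : DifferentiableOn ℂ g S) (m : ℕ) :
    DifferentiableOn ℂ (fun z => Rho n m (g z) z) S := by
  have h : (fun z => Rho n m (g z) z) = fun z =>
      ∏ j ∈ Finset.range m, ((n : ℂ) * ((F n (g z))^[j] z) ^ (n - 1)) := by
    funext z
    rw [MPx.Rho_prod]
  rw [h]
  refine DifferentiableOn.fun_finsetProd (fun j _ => ?_)
  exact ((iter_diff hg j).pow _).const_mul _

lemma F_differentiable (n : ℕ) (c : ℂ) (k : ℕ) : Differentiable ℂ ((F n c)^[k]) := by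
  refine Differentiable.iterate ?_ k
  unfold F
  fun_prop

lemma Rho_pow {n k : ℕ} {c z : ℂ} (hz : (F n c)^[k] z = z) (m : ℕ) :
    Rho n (k * m) c z = Rho n k c z ^ m := by
  unfold Rho
  rw [Function.iterate_mul]
  have h1 : HasDerivAt ((F n c)^[k]) (deriv ((F n c)^[k]) z) z :=
    (F_differentiable n c k).differentiableAt.hasDerivAt
  exact (HasDerivAt.iterate (x := z) h1 hz m).deriv

end BIF_

open BIF_ in
theorem p_BIF (h1 : T_IMP) (h2 : T_FINF) : T_BIF := by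
  intro n k p q r z0 hn hk hp hpq hcop hfix hRho
  obtain ⟨ρ, g, hρ0, hρ1, hgd, hg0, hgz⟩ := h1 n k p q r z0 1 hn hk hp hpq hcop hfix hRho one_pos
  have hq1 : 1 ≤ q := by omega
  have hqC : (q : ℂ) ≠ 0 := by exact_mod_cast (by omega : q ≠ 0)
  have hz0 : z0 ∈ Metric.ball z0 ρ := Metric.mem_ball_self hρ0
  have hgc : ContinuousAt g z0 := hgd.continuousOn.continuousAt (Metric.ball_mem_nhds _ hρ0)
  have hMd := Rho_diff (n := n) hgd (k * q)
  have hMa : AnalyticAt ℂ (fun z => Rho n (k * q) (g z) z) z0 :=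
    hMd.analyticAt (Metric.ball_mem_nhds _ hρ0)
  have hM0 : Rho n (k * q) (g z0) z0 = 1 := by
    rw [hg0, Rho_pow hfix, hRho, ← Complex.exp_nat_mul]
    have : (q : ℂ) * (2 * Real.pi * I * p / q) = p * (2 * Real.pi * I) := by
      field_simp
    rw [this, Complex.exp_nat_mul_two_pi_mul_I]
  have hφ : AnalyticAt ℂ (fun z => Rho n (k * q) (g z) z - 1) z0 := hMa.sub analyticAt_const
  have hnz : ¬ ∀ᶠ z in 𝓝 z0, (fun z => Rho n (k * q) (g z) z - 1) z = 0 := by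
    intro hev
    have hfin := h2 n (k * q) hn (Nat.mul_pos hk hq1)
    have hfin2 : ({c : ℂ | ∃ z : ℂ, (F n c)^[k * q] z = z ∧ Rho n (k * q) c z = 1} \ {r}).Finite :=
      hfin.subset sdiff_subset
    have h3 : ∀ᶠ c in 𝓝 (g z0), c ∉
        {c : ℂ | ∃ z : ℂ, (F n c)^[k * q] z = z ∧ Rho n (k * q) c z = 1} \ {r} :=
      hfin2.isClosed.isOpen_compl.mem_nhds (by rw [hg0]; exact fun h => h.2 rfl)
    have h4 := hgc.eventually h3
    have h5 : ∀ᶠ z in 𝓝 z0, z ∈ Metric.ball z0 ρ := Metric.ball_mem_nhds _ hρ0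
    have h6 : ∀ᶠ z in 𝓝[≠] z0, False := by
      filter_upwards [hev.filter_mono nhdsWithin_le_nhds, h4.filter_mono nhdsWithin_le_nhds,
        h5.filter_mono nhdsWithin_le_nhds, self_mem_nhdsWithin] with z a1 a2 a3 a4
      obtain ⟨b1, -, b3⟩ := hgz z a3
      exact a2 ⟨⟨z, b1, sub_eq_zero.1 a1⟩, (b3 a4).1⟩
    exact h6.exists.elim (fun _ h => h)
  obtain ⟨s, G, hs1, hGa, hG0, hGd, hGev⟩ := root hφ (by rw [hM0, sub_self]) hnz
  obtain ⟨δ, σ, hδ, hσc, hσ0, hσG⟩ := inv hGa hG0 hGd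
  have hsC : (s : ℂ) ≠ 0 := by exact_mod_cast (by omega : s ≠ 0)
  have hσ0c : ContinuousAt σ 0 := hσc.continuousAt (Metric.ball_mem_nhds _ hδ)
  have hN : ∀ᶠ w in 𝓝 (0 : ℂ), σ w ∈ Metric.ball z0 ρ ∧
      Rho n (k * q) (g (σ w)) (σ w) - 1 = G (σ w) ^ s := by
    have h5 : ∀ᶠ z in 𝓝 (σ 0), z ∈ Metric.ball z0 ρ := by
      rw [hσ0]; exact Metric.ball_mem_nhds _ hρ0
    have h6 : ∀ᶠ z in 𝓝 (σ 0), Rho n (k * q) (g z) z - 1 = G z ^ s := by
      rw [hσ0]; exact hGev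
    exact (hσ0c.eventually h5).and (hσ0c.eventually h6)
  obtain ⟨δ', hδ', hball⟩ := Metric.eventually_nhds_iff_ball.1 hN
  obtain ⟨t₀, ht0, ht1, ht2, ht3⟩ : ∃ t₀ : ℝ, 0 < t₀ ∧ t₀ < δ ∧ t₀ < δ' ∧ t₀ ≤ 1 := by
    refine ⟨min (min (δ / 2) (δ' / 2)) 1, lt_min (lt_min (by linarith) (by linarith)) one_pos,
      ?_, ?_, min_le_right _ _⟩
    · exact lt_of_le_of_lt ((min_le_left _ _).trans (min_le_left _ _)) (by linarith)
    · exact lt_of_le_of_lt ((min_le_left _ _).trans (min_le_right _ _)) (by linarith)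
  obtain ⟨ω, hω⟩ : ∃ ω : ℂ, ω = exp (Real.pi * I / s) := ⟨_, rfl⟩
  have hωs : ω ^ s = -1 := by
    rw [hω, ← Complex.exp_nat_mul, mul_div_cancel₀ _ hsC, Complex.exp_pi_mul_I]
  have hωn : ‖ω‖ = 1 := by
    have h3 : (Real.pi : ℂ) * I / s = ((Real.pi / s : ℝ) : ℂ) * I := by push_cast; ring
    rw [hω, h3, Complex.norm_exp_ofReal_mul_I]
  have hω0 : ω ≠ 0 := by rw [hω]; exact Complex.exp_ne_zero _
  have hnorm : ∀ t : ℝ, 0 < t → ‖(t : ℂ) * ω‖ = t := by
    intro t ht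
    rw [norm_mul, hωn, mul_one, Complex.norm_real, Real.norm_eq_abs, abs_of_pos ht]
  have hcont0 : Continuous (fun t : ℝ => (t : ℂ) * ω) := by fun_prop
  have hwc : ContinuousOn (fun t : ℝ => σ ((t : ℂ) * ω)) (Ioc 0 t₀) := by
    refine hσc.comp hcont0.continuousOn ?_
    intro t ht
    rw [Metric.mem_ball, dist_zero_right, hnorm t ht.1]
    exact lt_of_le_of_lt ht.2 ht1
  have hmem : ∀ t ∈ Ioc (0 : ℝ) t₀, σ ((t : ℂ) * ω) ∈ Metric.ball z0 ρ ∧
      Rho n (k * q) (g (σ ((t : ℂ) * ω))) (σ ((t : ℂ) * ω)) - 1 = G (σ ((t : ℂ) * ω)) ^ s := by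
    intro t ht
    apply hball
    rw [Metric.mem_ball, dist_zero_right, hnorm t ht.1]
    exact lt_of_le_of_lt ht.2 ht2
  have hwt : Tendsto (fun t : ℝ => σ ((t : ℂ) * ω)) (𝓝[>] 0) (𝓝 z0) := by
    have h3 : Tendsto (fun t : ℝ => (t : ℂ) * ω) (𝓝[>] 0) (𝓝 0) := by
      have h4 := (hcont0.tendsto 0).mono_left (nhdsWithin_le_nhds (s := Ioi (0 : ℝ)))
      simpa using h4
    have h4 := hσ0c.tendsto.comp h3
    rw [hσ0] at h4
    exact h4
  refine ⟨t₀, fun t => g (σ ((t : ℂ) * ω)), fun t => σ ((t : ℂ) * ω), ht0, ?_, hwc, ?_, hwt, ?_⟩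
  · exact hgd.continuousOn.comp hwc (fun t ht => (hmem t ht).1)
  · have h4 := hgc.tendsto.comp hwt
    rw [hg0] at h4
    exact h4
  · intro t ht
    obtain ⟨a1, a2⟩ := hmem t ht
    have hGt : G (σ ((t : ℂ) * ω)) = (t : ℂ) * ω := by
      apply hσG
      rw [Metric.mem_ball, dist_zero_right, hnorm t ht.1]
      exact lt_of_le_of_lt ht.2 ht1
    have hne : σ ((t : ℂ) * ω) ≠ z0 := by
      intro h
      rw [h, hG0] at hGt
      have h5 : (t : ℂ) * ω ≠ 0 := mul_ne_zero (by exact_mod_cast ht.1.ne') hω0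
      exact h5 hGt.symm
    obtain ⟨b1, b2, b3⟩ := hgz _ a1
    refine ⟨b1, (b3 hne).2, (b3 hne).1, ?_⟩
    have h6 : Rho n (k * q) (g (σ ((t : ℂ) * ω))) (σ ((t : ℂ) * ω)) = ((1 - t ^ s : ℝ) : ℂ) := by
      rw [hGt, mul_pow, hωs] at a2
      push_cast
      linear_combination a2
    show ‖Rho n (k * q) (g (σ ((t : ℂ) * ω))) (σ ((t : ℂ) * ω))‖ < 1
    rw [h6, Complex.norm_real, Real.norm_eq_abs]
    have h7 : 0 < t ^ s := pow_pos ht.1 s
    have h8 : t ^ s ≤ 1 := pow_le_one₀ ht.1.le (ht.2.trans ht3)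
    rw [abs_of_nonneg (by linarith)]
    linarith

end Pool.Agent.PLim
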