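import Pool.Agent.PLim.Targets2

/-!
# PLIM: the limb bound
-/

set_option autoImplicit false

open Complex Filter Topology Set MeasureTheory
open Pool.Agent.Multibrot Pool.Agent.Limb

namespace Pool.Agent.PLim

namespace LIMB_

/-- a parameter with a fixed point of `f ^ k` which is not repelling is in the Multibrot set -/
lemma inMM (hG : T_GREEN) (hF : T_FIXE) (hL : T_LOG) {n k : ℕ} (hn : 2 ≤ n) (hk : 1 ≤ k)
    {Λ : ℂ → ℂ → ℂ} (hΛ : IsBot n Λ) {c z : ℂ} (hz : (F n c)^[k] z = z)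
    (h1 : ‖Rho n k c z‖ ≤ 1) : c ∈ MM n := by
  by_contra hc
  obtain ⟨-, h0, -, -, -, hM, hcc, -⟩ := hG n hn
  have hpos : 0 < G n c 0 := lt_of_le_of_ne (h0 c 0) fun h => hc ((hM c).2 h.symm)
  have hlt : G n c 0 < G n c c := by
    rw [hcc c]
    have h2 : (2 : ℝ) ≤ n := by exact_mod_cast hn
    nlinarith
  obtain ⟨s, hs, hsc⟩ := hΛ.surj c c hlt
  have hcrit : Crit n Λ c s := ⟨hc, hs, hsc⟩
  obtain ⟨lh, ls, hlog⟩ := hL n Λ hn hΛ
  have := ((hF n k Λ lh ls c s hn hk hΛ hlog hcrit).2 z hz).1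
  linarith

lemma iter_zero (n : ℕ) (_hn : 2 ≤ n) (k : ℕ) : (F n 0)^[k] = fun z : ℂ => z ^ (n ^ k) := by
  induction k with
  | zero => funext z; simp
  | succ k ih =>
    funext z
    rw [Function.iterate_succ_apply', ih]
    simp only [F, add_zero]
    rw [← pow_mul, pow_succ]

lemma rho_zero {n k : ℕ} (hn : 2 ≤ n) (hk : 1 ≤ k) {z : ℂ} (hz : (F n 0)^[k] z = z) :
    Rho n k 0 z = 0 ∨ 2 ≤ ‖Rho n k 0 z‖ := by
  have h1 : Rho n k 0 z = (n : ℂ) ^ k * z ^ (n ^ k - 1) := by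
    unfold Rho
    rw [iter_zero n hn k]
    simp
  have hN : 2 ≤ n ^ k := by
    calc 2 ≤ n := hn
      _ = n ^ 1 := (pow_one n).symm
      _ ≤ n ^ k := Nat.pow_le_pow_right (by omega) hk
  rw [iter_zero n hn k] at hz
  by_cases h0 : z = 0
  · left
    rw [h1, h0, zero_pow (by omega), mul_zero]
  · right
    have h2 : z ^ (n ^ k - 1) = 1 := by
      have h3 : z ^ (n ^ k - 1) * z = 1 * z := by
        rw [← pow_succ, one_mul]
        have : n ^ k - 1 + 1 = n ^ k := by omega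
        rw [this]
        exact hz
      exact mul_right_cancel₀ h0 h3
    rw [h1, h2, mul_one, norm_pow, norm_natCast]
    exact_mod_cast hN

lemma MM_two {n : ℕ} (hn : 2 ≤ n) {c : ℂ} (hc : c ∈ MM n) : ‖c‖ ≤ 2 := by
  have h := MM_bound hn hc
  have h2 : (2 : ℝ) ≤ n := by exact_mod_cast hn
  have h3 : 2 / (n : ℝ) ≤ 1 := by rw [div_le_one (by linarith)]; exact h2
  linarith

/-- Cauchy estimate. -/
lemma cauchy {ψ : ℂ → ℂ} {a : ℂ} {η : ℝ} (hη : 0 < η)
    (hd : DifferentiableOn ℂ ψ (Metric.ball a η)) (hb : ∀ μ ∈ Metric.ball a η, ‖ψ μ‖ ≤ 16)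
    {μ : ℂ} (hμ : ‖μ - a‖ < η / 2) : ‖ψ μ - ψ a‖ ≤ 32 / η * ‖μ - a‖ := by
  have hsub : ∀ x ∈ Metric.ball a (η / 2), Metric.closedBall x (η / 2) ⊆ Metric.ball a η := by
    intro x hx y hy
    rw [Metric.mem_ball] at hx ⊢
    rw [Metric.mem_closedBall] at hy
    calc dist y a ≤ dist y x + dist x a := dist_triangle _ _ _
      _ < η / 2 + η / 2 := by linarith
      _ = η := by ring
  have hder : ∀ x ∈ Metric.ball a (η / 2), ‖deriv ψ x‖ ≤ 32 / η := by
    intro x hx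
    have h := Complex.norm_deriv_le_of_forall_mem_sphere_norm_le (c := x) (R := η / 2)
      (f := ψ) (C := 16) (by linarith) (hd.diffContOnCl_ball (hsub x hx))
      (fun z hz => hb z (hsub x hx (Metric.sphere_subset_closedBall hz)))
    calc ‖deriv ψ x‖ ≤ 16 / (η / 2) := h
      _ = 32 / η := by field_simp; ring
  have hdiff : ∀ x ∈ Metric.ball a (η / 2), DifferentiableAt ℂ ψ x := by
    intro x hx
    refine hd.differentiableAt (Metric.isOpen_ball.mem_nhds ?_)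
    exact hsub x hx (Metric.mem_closedBall_self (by linarith))
  refine (convex_ball a (η / 2)).norm_image_sub_le_of_norm_deriv_le hdiff hder
    (Metric.mem_ball_self (by linarith)) ?_
  rw [Metric.mem_ball, dist_eq_norm]
  exact hμ

end LIMB_

open LIMB_ in
theorem p_LIMB (hSECT : T_SECT) (hTOP : T_TOP) (hOMX : T_OMX) (hOMC : T_OMC) (hFIXE : T_FIXE)
    (hBOT : T_BOT) (hLOG : T_LOG) (hGREEN : T_GREEN) : T_LIMB := by
  classical
  intro n hn
  obtain ⟨C1, hC1, hO⟩ := hOMX n hn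
  obtain ⟨C2, hC2, hS⟩ := hSECT n hn
  obtain ⟨Λ, hΛ⟩ := hBOT n hn
  set C3 : ℝ := C2 + C1 + 40 with hC3
  have hC3pos : 0 < C3 := by positivity
  refine ⟨C1 * C3, by positivity, ?_⟩
  intro k p q r z0 A hk hp hpq hcop hz0 hrho hAM hAU hAcl hrA h0A
  have hq0 : 0 < q := by omega
  have hqR : (0 : ℝ) < q := by exact_mod_cast hq0
  have hkR : (1 : ℝ) ≤ k := by exact_mod_cast hk
  have hpi := Real.pi_pos
  set τ : ℝ := 2 * Real.pi * p / q with hτ
  have hτI : (2 * Real.pi * I * p / q : ℂ) = (τ : ℂ) * I := by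
    rw [hτ]; push_cast; ring
  rw [hτI] at hrho
  have hτ0 : 0 < τ := by
    have : (0 : ℝ) < p := by exact_mod_cast hp
    positivity
  have hτ2 : τ < 2 * Real.pi := by
    rw [hτ, div_lt_iff₀ hqR]
    have : (p : ℝ) < q := by exact_mod_cast hpq
    nlinarith
  have hrM : r ∈ MM n := by
    refine inMM hGREEN hFIXE hLOG hn hk hΛ hz0 ?_
    rw [hrho, norm_exp_ofReal_mul_I]
  refine ⟨hrM, ?_⟩
  set m : ℕ := min p (q - p) with hm
  have hm1 : 1 ≤ m := by omega
  have hmR : (1 : ℝ) ≤ m := by exact_mod_cast hm1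
  have hτm : min τ (2 * Real.pi - τ) = 2 * Real.pi * m / q := by
    have e : 2 * Real.pi - τ = 2 * Real.pi * ((q - p : ℕ) : ℝ) / q := by
      rw [hτ, Nat.cast_sub hpq.le]
      field_simp
    rw [e, hτ, hm, Nat.cast_min, mul_min_of_nonneg _ _ (by positivity), min_div_div_right hqR.le]
  set τ' : ℝ := 2 * Real.pi * m / q with hτ'
  have hτ'pos : 0 < τ' := by positivity
  have hτ'pi : τ' ≤ Real.pi := by
    rw [← hτm]
    rcases le_total τ (2 * Real.pi - τ) with h | h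
    · rw [min_eq_left h]; linarith
    · rw [min_eq_right h]; linarith
  have hpi4 : Real.pi < 3.15 := Real.pi_lt_d2
  set η : ℝ := τ' ^ 2 / (C3 * k) with hη
  have hηpos : 0 < η := by positivity
  set ηS : ℝ := (min τ (2 * Real.pi - τ)) ^ 2 / (C2 * k) with hηS
  have hηle : η ≤ ηS := by
    rw [hη, hηS, hτm]
    have : C2 * k ≤ C3 * k := by
      apply mul_le_mul_of_nonneg_right _ (by positivity)
      rw [hC3]; linarith
    exact div_le_div_of_nonneg_left (by positivity) (by positivity) this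
  have hτ'sq : τ' ^ 2 ≤ 10 := by nlinarith
  have hη4 : η ≤ 1 / 4 := by
    rw [hη, div_le_iff₀ (by positivity)]
    have h1 : 40 ≤ C3 * k := by
      have : C3 * 1 ≤ C3 * k := mul_le_mul_of_nonneg_left hkR hC3pos.le
      rw [hC3] at this ⊢
      linarith
    linarith
  intro c hcA
  have hcM := hAM hcA
  have hc4 : ‖c - r‖ ≤ 4 := by
    calc ‖c - r‖ ≤ ‖c‖ + ‖r‖ := norm_sub_le _ _
      _ ≤ 4 := by linarith [MM_two hn hcM, MM_two hn hrM]
  set K : ℝ := C1 * k with hK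
  have hKpos : 0 < K := by positivity
  have hkey : η * q * (C3 * k) = 4 * Real.pi ^ 2 * m ^ 2 / q := by
    rw [hη, hτ']
    field_simp
    ring
  by_cases hcase : 2 * K < η * q
  swap
  · -- trivial case
    push Not at hcase
    have h1 : 4 * Real.pi ^ 2 * m ^ 2 / q ≤ 2 * K * (C3 * k) := by
      rw [← hkey]
      exact mul_le_mul_of_nonneg_right hcase (by positivity)
    rw [div_le_iff₀ hqR] at h1
    have h2 : ‖c - r‖ * (m : ℝ) ^ 2 ≤ 4 * (m : ℝ) ^ 2 :=
      mul_le_mul_of_nonneg_right hc4 (by positivity)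
    have h3 : (4 : ℝ) * (m : ℝ) ^ 2 ≤ C1 * C3 * k ^ 2 * q := by
      have h4 : (2 : ℝ) * (m : ℝ) ^ 2 ≤ Real.pi ^ 2 * m ^ 2 := by
        apply mul_le_mul_of_nonneg_right _ (by positivity)
        nlinarith [Real.pi_gt_three]
      rw [hK] at h1
      nlinarith
    linarith
  -- the main case
  obtain ⟨ψ, χ, hψd, hχc, hψr, hχr, hsec⟩ := hS k r z0 τ ηS hk hτ0 hτ2 hz0 hrho rfl
  have hsubB : Metric.ball ((τ : ℂ) * I) η ⊆ Metric.ball ((τ : ℂ) * I) ηS :=
    Metric.ball_subset_ball hηle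
  have hKη : K / q < η / 2 := by
    rw [div_lt_iff₀ hqR]
    linarith
  set om : ℂ → ℂ := fun μ => if h : ∃ w, OmR n k Λ (ψ μ) (χ μ) w then h.choose else 0 with hom
  -- the root of unity of the points over the right half plane
  have hrep : ∀ μ ∈ Metric.ball ((τ : ℂ) * I) η, 0 < μ.re → 1 < ‖Rho n k (ψ μ) (χ μ)‖ := by
    intro μ hμ hre
    rw [(hsec μ (hsubB hμ)).2.1, norm_exp]
    exact Real.one_lt_exp_iff.2 hre
  have homX : ∀ μ ∈ Metric.ball ((τ : ℂ) * I) η, 0 < μ.re → ψ μ ∈ MM n →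
      OmR n k Λ (ψ μ) (χ μ) (om μ) ∧ (∀ w', OmR n k Λ (ψ μ) (χ μ) w' → w' = om μ) ∧
      ∃ (q' : ℕ) (ν : ℂ), 1 ≤ q' ∧ om μ ^ q' = 1 ∧ exp ν = exp μ * om μ ∧
        ‖ν‖ ^ 2 ≤ C1 * k / q' * ν.re := by
    intro μ hμ hre hψM
    obtain ⟨w, hw, huniq, -, q', ν, hq', hwq, hν, hνn⟩ :=
      hO k Λ (ψ μ) (χ μ) hk hΛ hψM (hsec μ (hsubB hμ)).1 (hrep μ hμ hre)
    have hex : ∃ w, OmR n k Λ (ψ μ) (χ μ) w := ⟨w, hw⟩
    have e : om μ = w := by
      have h1 : om μ = hex.choose := by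
        simp only [hom]
        rw [dif_pos hex]
      rw [h1]
      exact huniq _ hex.choose_spec
    rw [e]
    refine ⟨hw, huniq, q', ν, hq', hwq, ?_, hνn⟩
    rw [hν, (hsec μ (hsubB hμ)).2.1]
  have hprim : IsPrimitiveRoot (exp (-((τ : ℂ) * I))) q := by
    have h1 := Complex.isPrimitiveRoot_exp_of_coprime p q (by omega) hcop
    have h2 := h1.inv
    rw [← Complex.exp_neg] at h2
    have e : -(2 * Real.pi * I * ((p : ℂ) / q)) = -((τ : ℂ) * I) := by
      rw [← hτI]; ring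
    rwa [e] at h2
  have hne0 : ∀ μ ∈ Metric.ball ((τ : ℂ) * I) η, ψ μ ≠ 0 := by
    intro μ hμ h0
    have h1 := hsec μ (hsubB hμ)
    rw [h0] at h1
    have h2 : ‖Rho n k 0 (χ μ)‖ < 2 := by
      rw [h1.2.1, norm_exp]
      have h3 : μ.re ≤ 1 / 4 := by
        have h4 : |(μ - (τ : ℂ) * I).re| ≤ ‖μ - (τ : ℂ) * I‖ := abs_re_le_norm _
        rw [Metric.mem_ball, dist_eq_norm] at hμ
        have h5 : (μ - (τ : ℂ) * I).re = μ.re := by simp
        rw [h5] at h4
        linarith [le_abs_self μ.re]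
      calc Real.exp μ.re ≤ Real.exp (1 / 4) := Real.exp_le_exp.2 h3
        _ < 2 := by
          have h6 : Real.exp (1 / 4) ≤ Real.exp (Real.log 2 * (1 / 2)) := by
            apply Real.exp_le_exp.2
            have := Real.log_two_gt_d9
            linarith
          have h7 : Real.exp (Real.log 2 * (1 / 2)) < Real.exp (Real.log 2) := by
            apply Real.exp_lt_exp.2
            have := Real.log_two_gt_d9
            linarith
          rw [Real.exp_log (by norm_num : (0 : ℝ) < 2)] at h7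
          linarith
    rcases rho_zero hn hk h1.1 with h3 | h3
    · have h4 := h1.2.1
      rw [h3] at h4
      exact exp_ne_zero _ h4.symm
    · linarith
  have hrne : r ≠ 0 := by
    have := hne0 ((τ : ℂ) * I) (Metric.mem_ball_self hηpos)
    rwa [hψr] at this
  have hMcomp : IsCompact (MM n) := by
    refine Metric.isCompact_of_isClosed_isBounded (MM_closed n) ?_
    refine (Metric.isBounded_iff_subset_closedBall (0 : ℂ)).2 ⟨2, fun x hx => ?_⟩
    rw [mem_closedBall_zero_iff]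
    exact MM_two hn hx
  have h0M : (0 : ℂ) ∈ MM n := disc_sub hn (by rw [norm_zero]; exact r0_nonneg hn)
  obtain ⟨μ, hμ, hre, hμc, hμK⟩ := hTOP (MM n) A r 0 τ η K q ψ om hMcomp (MM_connected hn) hAM hAU
    hAcl hrM hrA h0M h0A hrne.symm hτ0 hτ2 hηpos (by linarith) hKpos (by omega)
    hprim.pow_eq_one (fun j hj => hprim.dvd_of_pow_eq_one j hj)
    (by
      have h1 : K * η = C1 / C3 * τ' ^ 2 := by
        rw [hK, hη]
        field_simp
      have h2 : C1 / C3 ≤ 1 := by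
        rw [div_le_one hC3pos, hC3]
        linarith
      have h2' : C1 / C3 < 1 := by
        rw [div_lt_one hC3pos, hC3]
        linarith
      have hq1 : (1 : ℝ) ≤ q := by exact_mod_cast hq0
      have h3 : τ' ^ 2 ≤ Real.pi ^ 2 := pow_le_pow_left₀ hτ'pos.le hτ'pi 2
      rw [h1]
      calc C1 / C3 * τ' ^ 2 < 1 * τ' ^ 2 := mul_lt_mul_of_pos_right h2' (by positivity)
        _ ≤ Real.pi ^ 2 * 1 := by linarith
        _ ≤ Real.pi ^ 2 * q := mul_le_mul_of_nonneg_left hq1 (by positivity))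
    (by linarith)
    (hψd.mono hsubB) (fun μ hμ => (hsec μ (hsubB hμ)).2.2.2) hψr hne0
    (fun μ hμ hre => inMM hGREEN hFIXE hLOG hn hk hΛ (hsec μ (hsubB hμ)).1 (by
      rw [(hsec μ (hsubB hμ)).2.1, norm_exp]
      exact Real.exp_le_one_iff.2 hre))
    (by
      intro μ₀ hμ₀ hre₀ hM₀
      obtain ⟨hom0, -, -⟩ := homX μ₀ hμ₀ hre₀ hM₀
      obtain ⟨δ, hδ, hloc⟩ := hOMC n k Λ (ψ μ₀) (χ μ₀) (om μ₀) hn hk hΛ hM₀
        (hsec μ₀ (hsubB hμ₀)).1 (hrep μ₀ hμ₀ hre₀) hom0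
      have hnb : Metric.ball ((τ : ℂ) * I) η ∈ 𝓝 μ₀ := Metric.isOpen_ball.mem_nhds hμ₀
      have hnbS : Metric.ball ((τ : ℂ) * I) ηS ∈ 𝓝 μ₀ :=
        Metric.isOpen_ball.mem_nhds (hsubB hμ₀)
      have hψc : ContinuousAt ψ μ₀ := (hψd.differentiableAt hnbS).continuousAt
      have hχc' : ContinuousAt χ μ₀ := hχc.continuousAt hnbS
      have e1 : ∀ᶠ μ in 𝓝 μ₀, ‖ψ μ - ψ μ₀‖ < δ := by
        have := Metric.tendsto_nhds.1 hψc δ hδ
        simpa only [dist_eq_norm] using this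
      have e2 : ∀ᶠ μ in 𝓝 μ₀, ‖χ μ - χ μ₀‖ < δ := by
        have := Metric.tendsto_nhds.1 hχc' δ hδ
        simpa only [dist_eq_norm] using this
      have e3 : ∀ᶠ μ : ℂ in 𝓝 μ₀, 0 < μ.re :=
        (isOpen_lt continuous_const continuous_re).mem_nhds hre₀
      filter_upwards [e1, e2, e3, hnb] with μ h1 h2 h3 h4 hM
      have h5 := hloc (ψ μ) (χ μ) hM h1 h2 (hsec μ (hsubB h4)).1
      exact ((homX μ h4 h3 hM).2.1 _ h5).symm)
    (by
      intro μ hμ hre hM
      obtain ⟨-, -, q', ν, hq', hwq, hν, hνn⟩ := homX μ hμ hre hM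
      have hw1 : ‖om μ‖ = 1 := norm_eq_one_of_pow_eq_one hwq (by omega)
      have hexp : exp (ν - μ) = om μ := by
        rw [Complex.exp_sub, hν, mul_div_cancel_left₀ _ (exp_ne_zero μ)]
      have hre0 : (ν - μ).re = 0 := by
        have h1 : ‖exp (ν - μ)‖ = 1 := by rw [hexp, hw1]
        rw [norm_exp] at h1
        exact Real.exp_eq_one_iff _ |>.1 h1
      have hνre : ν.re = μ.re := by
        rw [sub_re] at hre0
        linarith
      have hdiff : μ - 2 * Real.pi * (((μ - ν).im / (2 * Real.pi) : ℝ) : ℂ) * I = ν := by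
        have e : (2 * Real.pi * (((μ - ν).im / (2 * Real.pi) : ℝ) : ℂ) : ℂ) = ((μ - ν).im : ℂ) := by
          push_cast
          field_simp
        rw [e]
        apply Complex.ext
        · simp [hνre]
        · simp
      refine ⟨q', (μ - ν).im / (2 * Real.pi), hq', hwq, ?_, ?_⟩
      · rw [← hexp]
        congr 1
        have : (2 * Real.pi * (((μ - ν).im / (2 * Real.pi) : ℝ) : ℂ) * I : ℂ) = μ - ν := by
          linear_combination -hdiff
        rw [this]
        ring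
      · rw [hdiff, ← hνre]
        exact hνn) c hcA
  -- the Cauchy estimate
  have hfin := cauchy hηpos (hψd.mono hsubB) (fun μ hμ => (hsec μ (hsubB hμ)).2.2.1)
    (lt_of_le_of_lt hμK hKη)
  rw [hμc, hψr] at hfin
  have h1 : ‖c - r‖ ≤ 32 / η * (K / q) :=
    hfin.trans (mul_le_mul_of_nonneg_left hμK (by positivity))
  have h2 : 32 / η * (K / q) * (m : ℝ) ^ 2 = 8 / Real.pi ^ 2 * (C1 * C3 * k ^ 2 * q) := by
    rw [hη, hK, hτ']
    field_simp
    ring
  calc ‖c - r‖ * (m : ℝ) ^ 2 ≤ 32 / η * (K / q) * (m : ℝ) ^ 2 :=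
        mul_le_mul_of_nonneg_right h1 (by positivity)
    _ = 8 / Real.pi ^ 2 * (C1 * C3 * k ^ 2 * q) := h2
    _ ≤ 1 * (C1 * C3 * k ^ 2 * q) := by
        apply mul_le_mul_of_nonneg_right _ (by positivity)
        rw [div_le_one (by positivity)]
        nlinarith [Real.pi_gt_three]
    _ = C1 * C3 * k ^ 2 * q := one_mul _

end Pool.Agent.PLim
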