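import Pool.Agent.PLim.Targets3
import Pool.Agent.Multibrot.Connected

/-!
# PLIM: nested pieces
-/

set_option autoImplicit false

open Complex Filter Topology Set MeasureTheory
open Pool.Agent.Multibrot Pool.Agent.Limb

namespace Pool.Agent.PLim

namespace NEST_

/-- A preconnected subset of `M \ {r}` which meets the clopen piece `A` of `M \ {r}` is inside
`A`. -/
lemma sub_of_meet {M A S U : Set ℂ} {r x : ℂ} (hU : IsOpen U) (hAU : A = M ∩ U)
    (hcl : IsClosed (insert r A)) (hS : IsPreconnected S) (hSM : S ⊆ M) (hrS : r ∉ S)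
    (hxS : x ∈ S) (hxA : x ∈ A) : S ⊆ A := by
  intro y hy
  by_contra hyA
  have hyr : y ≠ r := fun h => hrS (h ▸ hy)
  obtain ⟨w, hwS, hwU, hwv⟩ := hS U (insert r A)ᶜ hU hcl.isOpen_compl
    (by
      intro w hw
      by_cases h : w ∈ insert r A
      · rcases h with h | h
        · exact absurd (h ▸ hw) hrS
        · left
          rw [hAU] at h
          exact h.2
      · right
        exact h)
    ⟨x, hxS, by rw [hAU] at hxA; exact hxA.2⟩
    ⟨y, hy, by
      rintro (h | h)
      · exact hyr h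
      · exact hyA h⟩
  apply hwv
  right
  rw [hAU]
  exact ⟨hSM hwS, hwU⟩

end NEST_

open NEST_ in
theorem p_NEST (hCIK : T_CIK) : T_NEST := by
  intro n k p q r r' z' A A' hn hA hA' hr'A hr'r
  rcases hA.alt with halt | ⟨hrA, h0A⟩
  · rw [halt]
    exact hA'.sub
  have h0M : (0 : ℂ) ∈ MM n := disc_sub hn (by rw [norm_zero]; exact r0_nonneg hn)
  have hMcl := MM_closed n
  have hMc := MM_connected hn
  obtain ⟨U, hU, hAU⟩ := hA.op
  obtain ⟨U', hU', hAU'⟩ := hA'.op
  have hr'M : r' ∈ MM n := hA.sub hr'A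
  have hrM : r ∈ MM n := by
    by_contra hrM
    have h := sub_of_meet hU hAU hA.cl hMc (Subset.refl _) hrM hr'M hr'A
    exact h0A (h h0M)
  have hS : IsPreconnected (insert r' A') :=
    hCIK (MM n) A' r' 0 hMcl hMc hA'.sub hr'M hA'.op hA'.cl hA'.nr h0M hA'.n0
  have hB : IsPreconnected (insert r (MM n ∩ (insert r A)ᶜ)) := by
    refine hCIK (MM n) (MM n ∩ (insert r A)ᶜ) r r' hMcl hMc inter_subset_left hrM
      ⟨(insert r A)ᶜ, hA.cl.isOpen_compl, rfl⟩ ?_ ?_ hr'M ?_
    · have e : insert r (MM n ∩ (insert r A)ᶜ) = MM n ∩ Uᶜ := by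
        ext x
        constructor
        · rintro (rfl | ⟨hxM, hx⟩)
          · exact ⟨hrM, fun h => hrA (by rw [hAU]; exact ⟨hrM, h⟩)⟩
          · exact ⟨hxM, fun h => hx (Or.inr (by rw [hAU]; exact ⟨hxM, h⟩))⟩
        · rintro ⟨hxM, hx⟩
          by_cases hxr : x = r
          · left
            exact hxr
          · right
            refine ⟨hxM, ?_⟩
            rintro (h | h)
            · exact hxr h
            · rw [hAU] at h
              exact hx h.2
      rw [e]
      exact hMcl.inter hU.isClosed_compl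
    · intro h
      exact h.2 (Or.inl rfl)
    · intro h
      exact h.2 (Or.inr hr'A)
  have h0r : (0 : ℂ) ∈ insert r (MM n ∩ (insert r A)ᶜ) := by
    by_cases h : (0 : ℂ) = r
    · left
      exact h
    · right
      refine ⟨h0M, ?_⟩
      rintro (h1 | h1)
      · exact h h1
      · exact h0A h1
  have hBM : insert r (MM n ∩ (insert r A)ᶜ) ⊆ MM n := by
    rintro x (rfl | hx)
    · exact hrM
    · exact hx.1
  have hr'B : r' ∉ insert r (MM n ∩ (insert r A)ᶜ) := by
    rintro (h | h)
    · exact hr'r h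
    · exact h.2 (Or.inr hr'A)
  have hrA' : r ∉ A' := by
    intro h
    have h1 := sub_of_meet hU' hAU' hA'.cl hB hBM hr'B (mem_insert r _) h
    exact hA'.n0 (h1 h0r)
  have hSM : insert r' A' ⊆ MM n := by
    rintro x (rfl | hx)
    · exact hr'M
    · exact hA'.sub hx
  have hrS : r ∉ insert r' A' := by
    rintro (h | h)
    · exact hr'r h.symm
    · exact hrA' h
  have h := sub_of_meet hU hAU hA.cl hS hSM hrS (mem_insert r' _) hr'A
  exact fun x hx => h (Or.inr hx)

end Pool.Agent.PLim
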