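import Pool.Agent.PLim.Targets4
import Pool.Agent.PLim.LIMB
import Pool.Agent.PLim.NEST

/-!
# PLIM: roots of limbs are boundary points
-/

set_option autoImplicit false

open Complex Filter Topology Set MeasureTheory
open Pool.Agent.Multibrot Pool.Agent.Limb

namespace Pool.Agent.PLim

namespace FRO_

/-- punctured discs are connected -/
lemma punctured (r : ℂ) {δ : ℝ} (hδ : 0 < δ) : IsPreconnected (Metric.ball r δ \ {r}) := by
  have e : Metric.ball r δ \ {r} = (fun w : ℂ => r + exp w) '' {w : ℂ | w.re < Real.log δ} := by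
    ext x
    constructor
    · rintro ⟨hx, hxr⟩
      have hxr' : x - r ≠ 0 := sub_ne_zero.2 hxr
      refine ⟨log (x - r), ?_, ?_⟩
      · show (log (x - r)).re < Real.log δ
        rw [log_re]
        rw [Metric.mem_ball, dist_eq_norm] at hx
        exact Real.log_lt_log (norm_pos_iff.2 hxr') hx
      · show r + exp (log (x - r)) = x
        rw [exp_log hxr']
        ring
    · rintro ⟨w, hw, rfl⟩
      have hw' : w.re < Real.log δ := hw
      refine ⟨?_, ?_⟩
      · rw [Metric.mem_ball, dist_eq_norm]
        have e1 : r + exp w - r = exp w := by ring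
        rw [e1, norm_exp, ← Real.lt_log_iff_exp_lt hδ]
        exact hw'
      · intro h
        have h1 : r + exp w = r := h
        have h2 : exp w = 0 := by linear_combination h1
        exact exp_ne_zero w h2
  rw [e]
  refine IsPreconnected.image ?_ _ (by fun_prop)
  exact (convex_halfSpace_re_lt (Real.log δ)).isPreconnected

/-- the root of a nonempty clopen piece is in the Multibrot set -/
lemma root_mem {n : ℕ} (hn : 2 ≤ n) {r : ℂ} {A U : Set ℂ} (hsub : A ⊆ MM n) (hU : IsOpen U)
    (hAU : A = MM n ∩ U) (hcl : IsClosed (insert r A)) (h0 : (0 : ℂ) ∉ A) (hne : A.Nonempty) :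
    r ∈ MM n := by
  by_contra hrM
  obtain ⟨x, hx⟩ := hne
  have h0M : (0 : ℂ) ∈ MM n := disc_sub hn (by rw [norm_zero]; exact r0_nonneg hn)
  exact h0 (NEST_.sub_of_meet hU hAU hcl (MM_connected hn) (Subset.refl _) hrM (hsub hx) hx h0M)

/-- a clopen subset of the Multibrot set which does not contain `0` is empty -/
lemma clopen_empty {n : ℕ} (hn : 2 ≤ n) {A U : Set ℂ} (hsub : A ⊆ MM n) (hU : IsOpen U)
    (hAU : A = MM n ∩ U) (hcl : IsClosed A) (h0 : (0 : ℂ) ∉ A) (hne : A.Nonempty) : False := by
  obtain ⟨x, hx⟩ := hne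
  have h0M : (0 : ℂ) ∈ MM n := disc_sub hn (by rw [norm_zero]; exact r0_nonneg hn)
  have h100 : (100 : ℂ) ∉ MM n := by
    intro h
    have h1 := LIMB_.MM_two hn h
    norm_num at h1
  have hcl' : IsClosed (insert (100 : ℂ) A) := by
    rw [insert_eq]
    exact isClosed_singleton.union hcl
  exact h0 (NEST_.sub_of_meet hU hAU hcl' (MM_connected hn) (Subset.refl _) h100 (hsub hx) hx h0M)

/-- the root of a nonempty clopen piece is a boundary point of the Multibrot set -/
lemma root_frontier {n : ℕ} (hn : 2 ≤ n) {r : ℂ} {A U : Set ℂ} (hsub : A ⊆ MM n)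
    (hU : IsOpen U) (hAU : A = MM n ∩ U) (hcl : IsClosed (insert r A)) (hrA : r ∉ A)
    (h0 : (0 : ℂ) ∉ A) (hr0 : r ≠ 0) (hne : A.Nonempty) : r ∈ frontier (MM n) := by
  have hrM := root_mem hn hsub hU hAU hcl h0 hne
  by_contra hfr
  have hint : r ∈ interior (MM n) := by
    by_contra h
    exact hfr ⟨subset_closure hrM, h⟩
  obtain ⟨δ, hδ, hball⟩ := Metric.isOpen_iff.1 isOpen_interior r hint
  have hball' : Metric.ball r δ ⊆ MM n := hball.trans interior_subset
  have hSM : Metric.ball r δ \ {r} ⊆ MM n := sdiff_subset.trans hball'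
  have hrS : r ∉ Metric.ball r δ \ {r} := fun h => h.2 rfl
  by_cases hmeet : ∃ x ∈ Metric.ball r δ \ {r}, x ∈ A
  · obtain ⟨x, hxS, hxA⟩ := hmeet
    have hSA := NEST_.sub_of_meet hU hAU hcl (punctured r hδ) hSM hrS hxS hxA
    have h0' : (0 : ℂ) ∉ insert r A := by
      rintro (h | h)
      · exact hr0 h.symm
      · exact h0 h
    refine clopen_empty hn (A := insert r A) (U := U ∪ Metric.ball r δ) ?_
      (hU.union Metric.isOpen_ball) ?_ hcl h0' ⟨r, mem_insert r A⟩
    · rintro y (rfl | hy)
      · exact hrM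
      · exact hsub hy
    · ext y
      constructor
      · rintro (rfl | hy)
        · exact ⟨hrM, Or.inr (Metric.mem_ball_self hδ)⟩
        · refine ⟨hsub hy, Or.inl ?_⟩
          rw [hAU] at hy
          exact hy.2
      · rintro ⟨hyM, hy | hy⟩
        · right
          rw [hAU]
          exact ⟨hyM, hy⟩
        · by_cases hyr : y = r
          · left
            exact hyr
          · right
            exact hSA ⟨hy, hyr⟩
  · push Not at hmeet
    have hclA : IsClosed A := by
      have e : A = insert r A ∩ (Metric.ball r δ)ᶜ := by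
        ext y
        constructor
        · intro hy
          refine ⟨Or.inr hy, fun hyb => ?_⟩
          have hyr : y ≠ r := by
            rintro rfl
            exact hrA hy
          exact hmeet y ⟨hyb, hyr⟩ hy
        · rintro ⟨hy | hy, hyb⟩
          · exfalso
            apply hyb
            rw [hy]
            exact Metric.mem_ball_self hδ
          · exact hy
      rw [e]
      exact hcl.inter Metric.isOpen_ball.isClosed_compl
    exact clopen_empty hn hsub hU hAU hclA h0 hne

/-- the root of a limb is not zero -/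
lemma root_ne_zero {n k p q : ℕ} {r z0 : ℂ} {A : Set ℂ} (hn : 2 ≤ n)
    (h : IsLimb n k p q r z0 A) : r ≠ 0 := by
  rintro rfl
  have h1 : ‖Rho n k 0 z0‖ = 1 := by
    rw [h.rho]
    have e : (2 * Real.pi * I * p / q : ℂ) = ((2 * Real.pi * p / q : ℝ) : ℂ) * I := by
      push_cast; ring
    rw [e, norm_exp_ofReal_mul_I]
  rcases LIMB_.rho_zero hn h.hk h.fix with h2 | h2
  · rw [h2, norm_zero] at h1
    norm_num at h1
  · linarith

end FRO_

open FRO_ in
theorem p_FRO : T_FRO := by
  intro n k p q r z0 A hn h hne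
  obtain ⟨U, hU, hAU⟩ := h.op
  exact root_frontier hn h.sub hU hAU h.cl h.nr h.n0 (root_ne_zero hn h) hne

end Pool.Agent.PLim
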