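import Pool.Agent.PLim.Targets4
import Pool.Agent.PLim.FRO
import Pool.Agent.Multibrot.SectorTwo

/-!
# PLIM: the coarse bound for limbs
-/

set_option autoImplicit false

open Complex Filter Topology Set MeasureTheory
open Pool.Agent.Multibrot Pool.Agent.Limb

namespace Pool.Agent.PLim

open FRO_ in
theorem p_COAL : T_COAL := by
  refine ⟨200, by norm_num, ?_⟩
  intro n k p q r z0 c A hn hA hcA
  have h2 : (2 : ℝ) ≤ n := by exact_mod_cast hn
  have hn0 : (0 : ℝ) < n := by linarith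
  obtain ⟨U, hU, hAU⟩ := hA.op
  have hr0 := root_ne_zero hn hA
  have hfr := root_frontier hn hA.sub hU hAU hA.cl hA.nr hA.n0 hr0 ⟨c, hcA⟩
  have hrp : 0 < r0 n := r0_pos hn
  have hD : Metric.ball (0 : ℂ) (r0 n) ⊆ MM n := by
    intro x hx
    rw [mem_ball_zero_iff] at hx
    exact disc_sub hn hx.le
  have hrD : r ∉ Metric.ball (0 : ℂ) (r0 n) := by
    intro h
    exact hfr.2 (interior_maximal hD Metric.isOpen_ball h)
  have hDA : ∀ x ∈ Metric.ball (0 : ℂ) (r0 n), x ∉ A := by
    intro x hx hxA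
    have h := NEST_.sub_of_meet hU hAU hA.cl (convex_ball (0 : ℂ) (r0 n)).isPreconnected hD hrD
      hx hxA
    exact hA.n0 (h (Metric.mem_ball_self hrp))
  have hcn : r0 n ≤ ‖c‖ := by
    by_contra h
    push Not at h
    exact hDA c (mem_ball_zero_iff.2 h) hcA
  have hc0 : 0 < ‖c‖ := lt_of_lt_of_le hrp hcn
  set b : ℂ := ((r0 n / ‖c‖ : ℝ) : ℂ) * c with hb
  have hbn : ‖b‖ = r0 n := by
    rw [hb, norm_mul, norm_real, Real.norm_eq_abs, abs_of_nonneg (by positivity)]
    field_simp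
  have hbM : b ∈ MM n := disc_sub hn hbn.le
  have hbA : b ∉ A := by
    intro h
    have hbU : b ∈ U := by
      rw [hAU] at h
      exact h.2
    have hbcl : b ∈ closure (Metric.ball (0 : ℂ) (r0 n)) := by
      rw [closure_ball _ hrp.ne', mem_closedBall_zero_iff, hbn]
    obtain ⟨x, hxU, hxD⟩ := mem_closure_iff.1 hbcl U hU hbU
    refine hDA x hxD ?_
    rw [hAU]
    exact ⟨hD hxD, hxU⟩
  obtain ⟨S, hSM, hSc, hcS, hbS, hdiam⟩ := coarse' hn (hA.sub hcA) hbM
  have hrS : r ∈ S := by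
    by_contra hrS
    have h := NEST_.sub_of_meet hU hAU hA.cl hSc.isPreconnected hSM hrS hcS hcA
    exact hbA (h hbS)
  have h1 := hdiam c hcS r hrS
  have hcb : ‖c - b‖ ≤ (3 + 2 * Real.log n) / n := by
    have e : c - b = ((1 - r0 n / ‖c‖ : ℝ) : ℂ) * c := by
      rw [hb]; push_cast; ring
    have h3 : r0 n / ‖c‖ ≤ 1 := by
      rw [div_le_one hc0]
      exact hcn
    rw [e, norm_mul, norm_real, Real.norm_eq_abs, abs_of_nonneg (by linarith)]
    have h4 : (1 - r0 n / ‖c‖) * ‖c‖ = ‖c‖ - r0 n := by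
      field_simp
    rw [h4]
    have h5 := MM_bound hn (hA.sub hcA)
    have h6 := r0_lower hn
    have h7 : (3 + 2 * Real.log n) / n = 2 / n + (1 + 2 * Real.log n) / n := by
      field_simp
      ring
    rw [h7]
    linarith
  have hlog0 : 0.6931 < Real.log 2 := by
    have := Real.log_two_gt_d9
    linarith
  have hlog2 : Real.log 2 ≤ Real.log n := Real.log_le_log (by norm_num) h2
  have hlogn : Real.log n ≤ n := Real.log_le_self hn0.le
  have h3 : 4 * (Real.log n + 4) / n ≤ 12 := by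
    rw [div_le_iff₀ hn0]
    linarith
  have hcb0 : 0 ≤ ‖c - b‖ := norm_nonneg _
  calc ‖c - r‖ ≤ (1 + 4 * (Real.log n + 4) / n) * ‖c - b‖ + (Real.log n + 55) / n := h1
    _ ≤ 13 * ((3 + 2 * Real.log n) / n) + (Real.log n + 55) / n := by
        have h4 : (1 + 4 * (Real.log n + 4) / n) * ‖c - b‖ ≤ 13 * ‖c - b‖ :=
          mul_le_mul_of_nonneg_right (by linarith) hcb0
        linarith
    _ = (94 + 27 * Real.log n) / n := by
        field_simp
        ring
    _ ≤ 200 * Real.log n / n := by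
        apply div_le_div_of_nonneg_right _ hn0.le
        linarith

end Pool.Agent.PLim
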