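import Pool.Agent.PLim.STRIP

/-!
# COV: a covering lemma for bounded analytic functions
-/

set_option autoImplicit false

open Complex Filter Topology Set MeasureTheory
open Pool.Agent.Multibrot Pool.Agent.Limb

namespace Pool.Agent.PLim

namespace COV_

open Metric

/-- Harnack's inequality on the ball of radius one half -/
lemma harnack {H : ℂ → ℂ} (hH : DifferentiableOn ℂ H (ball 0 1))
    (hre : ∀ z ∈ ball (0 : ℂ) 1, (H z).re < 0) (x : ℂ) (hx : ‖x‖ ≤ 1 / 2) :
    (H x).re ≤ (H 0).re / 3 := by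
  have h0 : (0 : ℂ) ∈ ball (0 : ℂ) 1 := mem_ball_self one_pos
  have hxb : x ∈ ball (0 : ℂ) 1 := by
    rw [mem_ball_zero_iff]
    linarith
  have hne : ∀ z ∈ ball (0 : ℂ) 1, H z + (starRingEnd ℂ) (H 0) ≠ 0 := by
    intro z hz h
    have h1 := congrArg Complex.re h
    rw [add_re, conj_re, zero_re] at h1
    linarith [hre z hz, hre 0 h0]
  set φ : ℂ → ℂ := fun z => (H z - H 0) / (H z + (starRingEnd ℂ) (H 0)) with hφ
  have hφd : DifferentiableOn ℂ φ (ball 0 1) :=
    (hH.sub_const _).div (hH.add_const _) hne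
  have hmap : MapsTo φ (ball 0 1) (closedBall 0 1) := by
    intro z hz
    rw [mem_closedBall_zero_iff]
    show ‖(H z - H 0) / (H z + (starRingEnd ℂ) (H 0))‖ ≤ 1
    rw [norm_div, div_le_one (norm_pos_iff.mpr (hne z hz))]
    refine (sq_le_sq₀ (norm_nonneg _) (norm_nonneg _)).mp ?_
    rw [← normSq_eq_norm_sq, ← normSq_eq_norm_sq, normSq_apply, normSq_apply, sub_re, sub_im,
      add_re, add_im, conj_re, conj_im]
    nlinarith [mul_pos_of_neg_of_neg (hre z hz) (hre 0 h0)]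
  have hφ0 : φ 0 = 0 := by
    show (H 0 - H 0) / (H 0 + (starRingEnd ℂ) (H 0)) = 0
    rw [sub_self, zero_div]
  have hs : ‖φ x‖ ≤ ‖x‖ := norm_le_norm_of_mapsTo_ball hφd hmap hφ0 (by
    rw [mem_ball_zero_iff] at hxb
    exact hxb)
  have h1 : ‖H x - H 0‖ ≤ 1 / 2 * ‖H x + (starRingEnd ℂ) (H 0)‖ := by
    have h2 : ‖φ x‖ ≤ 1 / 2 := hs.trans hx
    have h3 : ‖(H x - H 0) / (H x + (starRingEnd ℂ) (H 0))‖ ≤ 1 / 2 := h2
    rwa [norm_div, div_le_iff₀ (norm_pos_iff.mpr (hne x hxb))] at h3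
  have h2 : ‖H x - H 0‖ ^ 2 ≤ (1 / 2 * ‖H x + (starRingEnd ℂ) (H 0)‖) ^ 2 :=
    pow_le_pow_left₀ (norm_nonneg _) h1 2
  rw [mul_pow, ← normSq_eq_norm_sq, ← normSq_eq_norm_sq, normSq_apply, normSq_apply, sub_re,
    sub_im, add_re, add_im, conj_re, conj_im] at h2
  have ha := hre x hxb
  have hM := hre 0 h0
  by_contra hcon
  push Not at hcon
  -- a = - (H x).re < M / 3 where M = - (H 0).re
  nlinarith [sq_nonneg ((H x).im - (H 0).im), mul_pos_of_neg_of_neg ha hM]

end COV_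

open COV_ Metric in
/-- COV: a covering lemma for bounded analytic functions. -/
theorem p_COV : T_COV := by
  intro D hD
  refine ⟨min 1 (min (D / 2) (33 * (D / 66) ^ 3)), by positivity, ?_⟩
  intro g hg hb ⟨x, hx, hxD⟩ w hw
  rw [mem_ball, dist_eq_norm] at hw
  by_contra hnot
  have h0 : (0 : ℂ) ∈ ball (0 : ℂ) 1 := mem_ball_self one_pos
  have hxb : x ∈ ball (0 : ℂ) 1 := by
    rw [mem_ball_zero_iff]
    linarith
  have hρ1 : ‖w - g 0‖ < 1 := lt_of_lt_of_le hw (min_le_left _ _)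
  have hρ2 : ‖w - g 0‖ < D / 2 :=
    lt_of_lt_of_le hw ((min_le_right _ _).trans (min_le_left _ _))
  have hρ3 : ‖w - g 0‖ < 33 * (D / 66) ^ 3 :=
    lt_of_lt_of_le hw ((min_le_right _ _).trans (min_le_right _ _))
  have hne : ∀ z ∈ ball (0 : ℂ) 1, g z - w ≠ 0 := by
    intro z hz h
    exact hnot ⟨z, hz, sub_eq_zero.mp h⟩
  have hlt : ∀ z ∈ ball (0 : ℂ) 1, ‖g z - w‖ < 33 := by
    intro z hz
    have h1 : g z - w = (g z - g 0) - (w - g 0) := by ring
    rw [h1]
    have h2 := norm_sub_le (g z - g 0) (w - g 0)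
    have h3 := norm_sub_le (g z) (g 0)
    have h4 := hb z hz
    have h5 := hb 0 h0
    linarith
  obtain ⟨F, hF, hFe⟩ := STRIP_.exists_log (hg.sub_const w) one_pos hne
  have hre : ∀ z ∈ ball (0 : ℂ) 1, ‖g z - w‖ = Real.exp (F z).re := by
    intro z hz
    rw [← hFe z hz, norm_exp]
  set c : ℝ := Real.log 33 with hc
  have hec : Real.exp c = 33 := Real.exp_log (by norm_num)
  set H : ℂ → ℂ := fun z => F z - (c : ℂ) with hH
  have hHre : ∀ z, (H z).re = (F z).re - c := by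
    intro z
    show (F z - (c : ℂ)).re = _
    rw [sub_re, ofReal_re]
  have hneg : ∀ z ∈ ball (0 : ℂ) 1, (H z).re < 0 := by
    intro z hz
    rw [hHre]
    have h1 := hlt z hz
    rw [hre z hz, ← hec] at h1
    have := Real.exp_lt_exp.mp h1
    linarith
  have hhar := harnack (hF.sub_const _) hneg x hx
  have hnorm : ∀ z ∈ ball (0 : ℂ) 1, ‖g z - w‖ = 33 * Real.exp (H z).re := by
    intro z hz
    rw [hre z hz, hHre, Real.exp_sub, hec]
    field_simp
  -- the value at zero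
  have h1 : Real.exp (H 0).re < (D / 66) ^ 3 := by
    have h2 := hnorm 0 h0
    rw [norm_sub_rev] at h2
    rw [h2] at hρ3
    linarith
  have h2 : Real.exp ((H 0).re / 3) < D / 66 := by
    have h3 : Real.exp ((H 0).re / 3) ^ 3 < (D / 66) ^ 3 := by
      rw [← Real.exp_nat_mul]
      have h4 : ((3 : ℕ) : ℝ) * ((H 0).re / 3) = (H 0).re := by
        push_cast
        ring
      rw [h4]
      exact h1
    exact lt_of_pow_lt_pow_left₀ 3 (by positivity) h3
  have h3 : ‖g x - w‖ < D / 2 := by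
    rw [hnorm x hxb]
    have h4 := Real.exp_le_exp.mpr hhar
    linarith
  have h4 : ‖g x - g 0‖ ≤ ‖g x - w‖ + ‖w - g 0‖ := by
    rw [show g x - g 0 = (g x - w) + (w - g 0) by ring]
    exact norm_add_le _ _
  linarith

end Pool.Agent.PLim
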