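import Pool.Agent.PLim.Targets3

/-!
# MMA: parameters with attracting cycles are in the Multibrot set
-/

set_option autoImplicit false

open Complex Filter Topology Set
open Pool.Agent.Multibrot Pool.Agent.Limb

namespace Pool.Agent.PLim

namespace MMA_

theorem G_iter (hG : T_GREEN) (n : ℕ) (hn : 2 ≤ n) (c z : ℂ) (i : ℕ) :
    G n c ((F n c)^[i] z) = (n : ℝ) ^ i * G n c z := by
  induction i with
  | zero => simp
  | succ i ih =>
    rw [Function.iterate_succ_apply', (hG n hn).2.2.1, ih, pow_succ]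
    ring

theorem exp_tend (n k j : ℕ) (hn : 2 ≤ n) (hk : 1 ≤ k) (a : ℝ) (ha : 0 < a) :
    Tendsto (fun m : ℕ => (n : ℝ) ^ (k * m + j) * a) atTop atTop := by
  have hn1 : (1 : ℝ) < n := by exact_mod_cast (by omega : 1 < n)
  have h1 : Tendsto (fun m : ℕ => k * m + j) atTop atTop := by
    apply tendsto_atTop_mono (f := fun m : ℕ => m) _ tendsto_id
    intro m
    have : 1 * m ≤ k * m := Nat.mul_le_mul_right m hk
    omega
  exact ((tendsto_pow_atTop_atTop_of_one_lt hn1).comp h1).atTop_mul_const ha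

end MMA_

open MMA_ in
theorem p_MMA (h : T_ATTR) (hG : T_GREEN) : T_MMA := by
  intro n k c z hn hk hz hrho
  obtain ⟨j, hj⟩ := h n k c z hn hk hz hrho
  rw [(hG n hn).2.2.2.2.2.1]
  by_contra hne
  have hpos : 0 < G n c 0 := lt_of_le_of_ne ((hG n hn).2.1 c 0) (Ne.symm hne)
  have hpair : Continuous (fun x : ℂ => ((c, x) : ℂ × ℂ)) := continuous_const.prodMk continuous_id
  have hcont : Continuous ((fun q : ℂ × ℂ => G n q.1 q.2) ∘ (fun x : ℂ => ((c, x) : ℂ × ℂ))) :=
    Continuous.comp (hG n hn).1 hpair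
  have h1 : Tendsto (fun m : ℕ => G n c ((F n c)^[k * m + j] 0)) atTop (𝓝 (G n c z)) :=
    (hcont.tendsto z).comp hj
  have he : (fun m : ℕ => G n c ((F n c)^[k * m + j] 0)) =
      fun m : ℕ => (n : ℝ) ^ (k * m + j) * G n c 0 :=
    funext fun m => G_iter hG n hn c 0 (k * m + j)
  rw [he] at h1
  exact not_tendsto_nhds_of_tendsto_atTop (exp_tend n k j hn hk _ hpos) _ h1

end Pool.Agent.PLim
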