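import Pool.Agent.PLim.Targets4
import Pool.Agent.PLim.CNT
import Pool.Agent.PLim.MMA

/-!
# PLIM: roots near every boundary point
-/

set_option autoImplicit false

open Complex Filter Topology Set MeasureTheory
open Pool.Agent.Multibrot Pool.Agent.Limb

namespace Pool.Agent.PLim

namespace DENS_

/-- Parameters with an attracting fixed point of `f ^ k`. -/
def W (n k : ℕ) : Set ℂ := {c | ∃ z : ℂ, (F n c)^[k] z = z ∧ ‖Rho n k c z‖ < 1}

lemma W_sub (hMMA : T_MMA) {n k : ℕ} (hn : 2 ≤ n) (hk : 1 ≤ k) : W n k ⊆ MM n := by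
  rintro c ⟨z, hz, hr⟩
  exact hMMA n k c z hn hk hz hr

lemma W_open (hLOCZ : T_LOCZ) {n k : ℕ} (hn : 2 ≤ n) : IsOpen (W n k) := by
  rw [isOpen_iff_mem_nhds]
  rintro c ⟨z, hz, hr⟩
  have hne : Rho n k c z ≠ 1 := by
    intro h
    rw [h] at hr
    simp at hr
  obtain ⟨δ, r', zf, -, -, hL⟩ := hLOCZ n k c z 1 hn one_pos hz hne
  have hd : DifferentiableOn ℂ (fun x => Rho n k x (zf x)) (Metric.ball c δ) :=
    CNT_diffR n k zf _ hL.diff
  have hcont : ContinuousAt (fun x => Rho n k x (zf x)) c :=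
    (hd.differentiableAt (Metric.ball_mem_nhds c hL.hδ)).continuousAt
  have e1 : ∀ᶠ x in 𝓝 c, ‖Rho n k x (zf x)‖ < 1 := by
    have : ContinuousAt (fun x => ‖Rho n k x (zf x)‖) c := hcont.norm
    apply this.eventually (Iio_mem_nhds _)
    change ‖Rho n k c (zf c)‖ < 1
    rw [hL.zf0]
    exact hr
  filter_upwards [e1, Metric.ball_mem_nhds c hL.hδ] with x hx1 hx3
  exact ⟨zf x, hL.fix x hx3, hx1⟩

/-- Limits of parameters with attracting fixed points. -/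
lemma lim {n k : ℕ} (hn : 2 ≤ n) (hk : 1 ≤ k) (c : ℕ → ℂ) (c' : ℂ)
    (hc : Tendsto c atTop (𝓝 c')) (h : ∀ j, c j ∈ W n k) :
    ∃ z : ℂ, (F n c')^[k] z = z ∧ ‖Rho n k c' z‖ ≤ 1 := by
  choose z hz hR using h
  obtain ⟨R, hR'⟩ := (hc.norm.bddAbove_range)
  have hcb : ∀ j, ‖c j‖ ≤ R := fun j => hR' ⟨j, rfl⟩
  have hzb : ∀ j, ‖z j‖ ≤ 2 + R := fun j => by
    have := CNT_root hn hk (hz j)
    have := hcb j
    linarith
  have hK : IsCompact (Metric.closedBall (0 : ℂ) (2 + R)) := isCompact_closedBall _ _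
  obtain ⟨z', -, φ, hφ, hlim⟩ := hK.tendsto_subseq (x := z) (fun j => by simpa using hzb j)
  have hc' : Tendsto (fun j => c (φ j)) atTop (𝓝 c') := hc.comp hφ.tendsto_atTop
  have hpair : Tendsto (fun j => (c (φ j), z (φ j))) atTop (𝓝 (c', z')) := by
    rw [nhds_prod_eq]
    exact hc'.prodMk hlim
  refine ⟨z', ?_, ?_⟩
  · have h1 : Tendsto (fun j => (F n (c (φ j)))^[k] (z (φ j))) atTop (𝓝 ((F n c')^[k] z')) :=
      ((CNT_contI n k).tendsto (c', z')).comp hpair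
    have h2 : Tendsto (fun j => (F n (c (φ j)))^[k] (z (φ j))) atTop (𝓝 z') := by
      have : (fun j => (F n (c (φ j)))^[k] (z (φ j))) = fun j => z (φ j) := by
        funext j
        exact hz _
      rw [this]
      exact hlim
    exact tendsto_nhds_unique h1 h2
  · have h1 : Tendsto (fun j => ‖Rho n k (c (φ j)) (z (φ j))‖) atTop (𝓝 ‖Rho n k c' z'‖) :=
      (((CNT_contR n k).tendsto (c', z')).comp hpair).norm
    exact le_of_tendsto h1 (Eventually.of_forall fun j => (hR _).le)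

/-- The first exit point of a segment. -/
lemma exit (hLOCZ : T_LOCZ) {n k : ℕ} (hn : 2 ≤ n) (hk : 1 ≤ k) {a u : ℂ} (ha : a ∈ W n k)
    (hu : u ∉ W n k) : ∃ t : ℝ, 0 < t ∧ t ≤ 1 ∧ ∃ z : ℂ,
      (F n (a + t * (u - a)))^[k] z = z ∧ ‖Rho n k (a + t * (u - a)) z‖ = 1 := by
  have hcont : Continuous (fun t : ℝ => a + (t : ℂ) * (u - a)) := by fun_prop
  set T : Set ℝ := Icc 0 1 ∩ (fun t : ℝ => a + (t : ℂ) * (u - a)) ⁻¹' (W n k)ᶜ with hT
  have hTc : IsCompact T :=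
    isCompact_Icc.inter_right ((W_open hLOCZ hn).isClosed_compl.preimage hcont)
  have hTne : T.Nonempty := by
    refine ⟨1, ⟨zero_le_one, le_rfl⟩, ?_⟩
    show a + ((1 : ℝ) : ℂ) * (u - a) ∈ (W n k)ᶜ
    have e : a + ((1 : ℝ) : ℂ) * (u - a) = u := by push_cast; ring
    rw [e]
    exact hu
  have hs := hTc.sInf_mem hTne
  set s := sInf T with hsdef
  have hs0 : 0 < s := by
    rcases lt_or_eq_of_le hs.1.1 with h | h
    · exact h
    · exfalso
      apply hs.2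
      show a + (s : ℂ) * (u - a) ∈ W n k
      rw [← h]
      have e : a + ((0 : ℝ) : ℂ) * (u - a) = a := by push_cast; ring
      rw [e]
      exact ha
  have hbelow : ∀ t : ℝ, 0 ≤ t → t < s → a + (t : ℂ) * (u - a) ∈ W n k := by
    intro t ht0 hts
    by_contra h
    have h1 : t ∈ T := ⟨⟨ht0, hts.le.trans hs.1.2⟩, h⟩
    have h2 : s ≤ t := csInf_le hTc.bddBelow h1
    linarith
  refine ⟨s, hs0, hs.1.2, ?_⟩
  have htend : Tendsto (fun j : ℕ => a + ((s * (1 - 1 / ((j : ℝ) + 1)) : ℝ) : ℂ) * (u - a)) atTop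
      (𝓝 (a + (s : ℂ) * (u - a))) := by
    have h1 : Tendsto (fun j : ℕ => s * (1 - 1 / ((j : ℝ) + 1))) atTop (𝓝 s) := by
      have h2 := tendsto_one_div_add_atTop_nhds_zero_nat (𝕜 := ℝ)
      have h3 := (h2.const_sub 1).const_mul s
      simpa using h3
    exact (hcont.tendsto s).comp h1
  obtain ⟨z, hz, hr⟩ := lim hn hk _ _ htend (fun j => by
    have hj : (0 : ℝ) < 1 / ((j : ℝ) + 1) := by positivity
    have hj1 : 1 / ((j : ℝ) + 1) ≤ 1 := by
      rw [div_le_one (by positivity)]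
      have : (0 : ℝ) ≤ j := Nat.cast_nonneg j
      linarith
    refine hbelow _ (mul_nonneg hs0.le (by linarith)) ?_
    nlinarith)
  refine ⟨z, hz, ?_⟩
  rcases lt_or_eq_of_le hr with h | h
  · exact absurd ⟨z, hz, h⟩ hs.2
  · exact h

/-- A direction avoiding a finite set. -/
lemma avoid {a u₀ : ℂ} (hau : u₀ ≠ a) {S : Set ℂ} (hS : S.Finite) {s₀ : ℝ} (hs₀ : 0 < s₀) :
    ∃ s : ℝ, 0 < s ∧ s < s₀ ∧ ∀ t : ℝ, 0 < t →
      a + t * ((a + (u₀ - a) * (1 + s * I)) - a) ∉ S := by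
  have hfin : ((fun f : ℂ => ((f - a) / (u₀ - a)).im / ((f - a) / (u₀ - a)).re) '' S).Finite :=
    hS.image _
  obtain ⟨s, hs, hsn⟩ := (Ioo_infinite hs₀).exists_notMem_finite hfin
  refine ⟨s, hs.1, hs.2, ?_⟩
  intro t ht hmem
  apply hsn
  refine ⟨_, hmem, ?_⟩
  have hne : u₀ - a ≠ 0 := sub_ne_zero.2 hau
  have e : (a + (t : ℂ) * ((a + (u₀ - a) * (1 + s * I)) - a) - a) / (u₀ - a) =
      (t : ℂ) * (1 + s * I) := by
    field_simp
    ring
  simp only [e]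
  have h1 : ((t : ℂ) * (1 + s * I)).im = t * s := by simp
  have h2 : ((t : ℂ) * (1 + s * I)).re = t := by simp
  rw [h1, h2]
  field_simp

/-- Points of the unit circle. -/
lemma angle {ρ : ℂ} (h1 : ‖ρ‖ = 1) (h2 : ρ ≠ 1) :
    ∃ x : ℝ, 0 < x ∧ x < 1 ∧ exp (2 * Real.pi * I * x) = ρ := by
  have hpi := Real.pi_pos
  have hρ : exp (arg ρ * I) = ρ := by
    have := Complex.norm_mul_exp_arg_mul_I ρ
    rwa [h1, ofReal_one, one_mul] at this
  rcases lt_trichotomy (arg ρ) 0 with h | h | h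
  · refine ⟨arg ρ / (2 * Real.pi) + 1, ?_, ?_, ?_⟩
    · have h3 := neg_pi_lt_arg ρ
      have : -(1 / 2) < arg ρ / (2 * Real.pi) := by
        rw [lt_div_iff₀ (by positivity)]
        linarith
      linarith
    · have : arg ρ / (2 * Real.pi) < 0 := div_neg_of_neg_of_pos h (by positivity)
      linarith
    · have e : (2 * Real.pi * I * ((arg ρ / (2 * Real.pi) + 1 : ℝ) : ℂ) : ℂ) =
          arg ρ * I + 2 * Real.pi * I := by
        push_cast
        have hpi' : (Real.pi : ℂ) ≠ 0 := by exact_mod_cast hpi.ne'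
        field_simp
      rw [e, Complex.exp_add, Complex.exp_two_pi_mul_I, mul_one, hρ]
  · exfalso
    apply h2
    rw [← hρ, h]
    simp
  · refine ⟨arg ρ / (2 * Real.pi), by positivity, ?_, ?_⟩
    · rw [div_lt_one (by positivity)]
      have := arg_le_pi ρ
      linarith
    · have e : (2 * Real.pi * I * ((arg ρ / (2 * Real.pi) : ℝ) : ℂ) : ℂ) = arg ρ * I := by
        push_cast
        have hpi' : (Real.pi : ℂ) ≠ 0 := by exact_mod_cast hpi.ne'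
        field_simp
      rw [e, hρ]

/-- Approximation of an angle by fractions with large prime denominators. -/
lemma approx {x : ℝ} (hx0 : 0 < x) (hx1 : x < 1) (D δ : ℝ) (hδ : 0 < δ) :
    ∃ p q : ℕ, 0 < p ∧ p < q ∧ p.Coprime q ∧
      ‖exp (2 * Real.pi * I * p / q) - exp (2 * Real.pi * I * x)‖ < δ ∧
      D * q < ((min p (q - p) : ℕ) : ℝ) ^ 2 := by
  have hfl : Tendsto (fun q : ℕ => (⌊x * (q : ℝ)⌋₊ : ℝ) / (q : ℝ)) atTop (𝓝 x) :=
    (tendsto_nat_floor_mul_div_atTop hx0.le).comp tendsto_natCast_atTop_atTop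
  have hcast : Tendsto (fun q : ℕ => (q : ℝ)) atTop atTop := tendsto_natCast_atTop_atTop
  -- the exponential
  have hexp : Tendsto (fun q : ℕ => exp (2 * Real.pi * I * (((⌊x * (q : ℝ)⌋₊ : ℝ) / (q : ℝ) : ℝ) : ℂ)))
      atTop (𝓝 (exp (2 * Real.pi * I * x))) := by
    have hc : Continuous (fun y : ℝ => exp (2 * Real.pi * I * (y : ℂ))) := by fun_prop
    exact (hc.tendsto x).comp hfl
  have ev1 : ∀ᶠ q : ℕ in atTop,
      ‖exp (2 * Real.pi * I * (((⌊x * (q : ℝ)⌋₊ : ℝ) / (q : ℝ) : ℝ) : ℂ)) -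
        exp (2 * Real.pi * I * x)‖ < δ := by
    have := Metric.tendsto_nhds.1 hexp δ hδ
    simpa only [dist_eq_norm] using this
  set y : ℝ := min x (1 - x) with hy
  have hy0 : 0 < y := lt_min hx0 (by linarith)
  have hmin : Tendsto (fun q : ℕ => min ((⌊x * (q : ℝ)⌋₊ : ℝ) / (q : ℝ))
      (1 - (⌊x * (q : ℝ)⌋₊ : ℝ) / (q : ℝ))) atTop (𝓝 y) := hfl.min (hfl.const_sub 1)
  have hbig : Tendsto (fun q : ℕ => (min ((⌊x * (q : ℝ)⌋₊ : ℝ) / (q : ℝ))
      (1 - (⌊x * (q : ℝ)⌋₊ : ℝ) / (q : ℝ))) ^ 2 * (q : ℝ)) atTop atTop :=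
    Tendsto.pos_mul_atTop (C := y ^ 2) (by positivity) (hmin.pow 2) hcast
  have ev2 := hbig.eventually (eventually_gt_atTop D)
  have ev3 : ∀ᶠ q : ℕ in atTop, 1 / x ≤ (q : ℝ) := hcast.eventually (eventually_ge_atTop _)
  have ev4 : ∀ᶠ q : ℕ in atTop, 1 ≤ q := eventually_ge_atTop 1
  obtain ⟨N, hN⟩ := eventually_atTop.1 (((ev1.and ev2).and ev3).and ev4)
  obtain ⟨q, hqN, hq⟩ := Nat.exists_infinite_primes N
  obtain ⟨⟨⟨h1, h2⟩, h3⟩, h4⟩ := hN q hqN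
  have hqR : (0 : ℝ) < q := by exact_mod_cast h4
  have hxq : 1 ≤ x * q := by
    rw [div_le_iff₀ hx0] at h3
    linarith
  have hp : 0 < ⌊x * (q : ℝ)⌋₊ := Nat.floor_pos.2 hxq
  have hpq : ⌊x * (q : ℝ)⌋₊ < q := by
    rw [Nat.floor_lt (by positivity)]
    nlinarith
  refine ⟨⌊x * (q : ℝ)⌋₊, q, hp, hpq, (Nat.coprime_of_lt_prime hp.ne' hpq hq).symm, ?_, ?_⟩
  · have e : (2 * Real.pi * I * (⌊x * (q : ℝ)⌋₊ : ℂ) / (q : ℂ) : ℂ) =
        2 * Real.pi * I * (((⌊x * (q : ℝ)⌋₊ : ℝ) / (q : ℝ) : ℝ) : ℂ) := by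
      push_cast
      ring
    rw [e]
    exact h1
  · have e : ((min ⌊x * (q : ℝ)⌋₊ (q - ⌊x * (q : ℝ)⌋₊) : ℕ) : ℝ) =
        min ((⌊x * (q : ℝ)⌋₊ : ℝ) / (q : ℝ)) (1 - (⌊x * (q : ℝ)⌋₊ : ℝ) / (q : ℝ)) * q := by
      rw [min_mul_of_nonneg _ _ hqR.le, Nat.cast_min, Nat.cast_sub hpq.le]
      congr 1
      · field_simp
      · field_simp
    rw [e, mul_pow]
    have h5 := mul_lt_mul_of_pos_right h2 hqR
    calc D * q < _ := h5
      _ = _ := by ring

end DENS_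

open DENS_ in
theorem p_DENS (hMMA : T_MMA) (hLOCZ : T_LOCZ) (hTRANS : T_TRANS) (hFINF : T_FINF) : T_DENS := by
  intro n c0 ε B hn hc0 hε
  obtain ⟨k, hk, a, ha, hQ⟩ := centers_dense hn hc0 hε
  have haW : a ∈ W n k := by
    refine ⟨0, ?_, ?_⟩
    · rw [Q_eq_iterate] at hQ
      exact hQ
    · have : Rho n k a 0 = 0 := by
        rw [CNT_rho]
        refine Finset.prod_eq_zero (Finset.mem_range.2 hk) ?_
        simp only [Function.iterate_zero, id_eq]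
        rw [zero_pow (by omega), mul_zero]
      rw [this, norm_zero]
      exact one_pos
  -- a point outside the Multibrot set
  obtain ⟨u₀, hu₀M, hu₀⟩ : ∃ u₀, u₀ ∉ MM n ∧ u₀ ∈ Metric.ball c0 ε := by
    have h1 : c0 ∈ closure (MM n)ᶜ := by
      rw [frontier_eq_closure_inter_closure] at hc0
      exact hc0.2
    obtain ⟨u, h2, h3⟩ := mem_closure_iff_nhds.1 h1 _ (Metric.ball_mem_nhds c0 hε)
    exact ⟨u, h3, h2⟩
  have hau : u₀ ≠ a := by
    rintro rfl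
    exact hu₀M (W_sub hMMA hn hk haW)
  have hcs : Continuous (fun s : ℝ => a + (u₀ - a) * (1 + (s : ℂ) * I)) := by fun_prop
  have hopen : IsOpen ((MM n)ᶜ ∩ Metric.ball c0 ε) :=
    (MM_closed n).isOpen_compl.inter Metric.isOpen_ball
  have hev : ∀ᶠ s : ℝ in 𝓝 0, a + (u₀ - a) * (1 + (s : ℂ) * I) ∈ (MM n)ᶜ ∩ Metric.ball c0 ε := by
    apply hcs.continuousAt.eventually
    apply hopen.mem_nhds
    have e : a + (u₀ - a) * (1 + ((0 : ℝ) : ℂ) * I) = u₀ := by push_cast; ring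
    show a + (u₀ - a) * (1 + ((0 : ℝ) : ℂ) * I) ∈ (MM n)ᶜ ∩ Metric.ball c0 ε
    rw [e]
    exact ⟨hu₀M, hu₀⟩
  obtain ⟨s₀, hs₀, hball⟩ := Metric.eventually_nhds_iff.1 hev
  obtain ⟨s, hs0, hs1, hav⟩ := avoid hau (hFINF n k hn hk) hs₀
  obtain ⟨huM, huB⟩ := hball (y := s) (by
    rw [Real.dist_eq, sub_zero, abs_of_pos hs0]
    exact hs1)
  set u : ℂ := a + (u₀ - a) * (1 + (s : ℂ) * I) with hu
  have huW : u ∉ W n k := fun h => huM (W_sub hMMA hn hk h)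
  obtain ⟨t, ht0, ht1, z1, hz1, hR1⟩ := exit hLOCZ hn hk haW huW
  set c1 : ℂ := a + (t : ℂ) * (u - a) with hc1
  have hc1B : c1 ∈ Metric.ball c0 ε := by
    have h1 := (convex_ball c0 ε) ha huB (sub_nonneg.2 ht1) ht0.le (by ring)
    have e : (1 - t) • a + t • u = c1 := by
      rw [hc1, Complex.real_smul, Complex.real_smul]
      push_cast
      ring
    rwa [e] at h1
  have hne1 : Rho n k c1 z1 ≠ 1 := by
    intro h
    exact hav t ht0 ⟨z1, hz1, h⟩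
  have hne0 : Rho n k c1 z1 ≠ 0 := by
    intro h
    rw [h, norm_zero] at hR1
    exact zero_ne_one hR1
  obtain ⟨x, hx0, hx1, hx⟩ := angle hR1 hne1
  obtain ⟨δ, r', zf, -, -, hL⟩ := hLOCZ n k c1 z1 1 hn one_pos hz1 hne1
  have hder := hTRANS n k c1 z1 δ r' zf hn hk hL hne0 hR1.le hne1
  have hd : DifferentiableOn ℂ (fun x => Rho n k x (zf x)) (Metric.ball c1 δ) :=
    CNT_diffR n k zf _ hL.diff
  have hA : AnalyticAt ℂ (fun x => Rho n k x (zf x)) c1 :=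
    hd.analyticAt (Metric.ball_mem_nhds c1 hL.hδ)
  have hmap := hA.hasStrictDerivAt.map_nhds_eq hder
  have hcv : Rho n k c1 (zf c1) = exp (2 * Real.pi * I * x) := by rw [hL.zf0, hx]
  simp only [hcv] at hmap
  have hV : Metric.ball c1 δ ∩ Metric.ball c0 ε ∈ 𝓝 c1 :=
    inter_mem (Metric.ball_mem_nhds c1 hL.hδ) (Metric.isOpen_ball.mem_nhds hc1B)
  have himg : (fun x => Rho n k x (zf x)) '' (Metric.ball c1 δ ∩ Metric.ball c0 ε) ∈
      𝓝 (exp (2 * Real.pi * I * x)) := by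
    rw [← hmap]
    exact image_mem_map hV
  obtain ⟨δ', hδ', hsub⟩ := Metric.mem_nhds_iff.1 himg
  obtain ⟨p, q, hp, hpq, hcop, hclose, hbig⟩ := approx hx0 hx1 (B * k ^ 2) δ' hδ'
  have hmem : exp (2 * Real.pi * I * p / q) ∈ Metric.ball (exp (2 * Real.pi * I * x)) δ' := by
    rw [Metric.mem_ball, dist_eq_norm]
    exact hclose
  obtain ⟨r, ⟨hr1, hr2⟩, hr3⟩ := hsub hmem
  refine ⟨k, p, q, r, zf r, hk, hp, hpq, hcop, hL.fix r hr1, hr3, ?_, hbig⟩
  rw [Metric.mem_ball, dist_eq_norm] at hr2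
  exact hr2

end Pool.Agent.PLim
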