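import Pool.Agent.PLim.Targets4

/-!
# PLIM: EXPAND, expansion outside the Multibrot set
-/

set_option autoImplicit false

open Complex Filter Topology Set MeasureTheory
open Pool.Agent.Multibrot Pool.Agent.Limb

namespace Pool.Agent.PLim

namespace EXPAND_

lemma F_diff (n : ℕ) (c : ℂ) (m : ℕ) : Differentiable ℂ ((F n c)^[m]) := by
  have hF : Differentiable ℂ (F n c) := by
    unfold F
    fun_prop
  exact hF.iterate m

lemma deriv_iter_mul {n k : ℕ} {c z : ℂ} (hz : (F n c)^[k] z = z) (M : ℕ) :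
    deriv ((F n c)^[k * M]) z = Rho n k c z ^ M := by
  induction M with
  | zero => simp
  | succ M ih =>
    have e : (F n c)^[k * (M + 1)] = (F n c)^[k * M] ∘ (F n c)^[k] := by
      rw [Nat.mul_succ, Function.iterate_add]
    rw [e, deriv_comp z ((F_diff n c _) _) ((F_diff n c _) _), hz, ih, pow_succ]
    rfl

/-- The perturbed inverse branches along a backward orbit. -/
lemma chain {f : ℂ → ℂ} (hf : Differentiable ℂ f) {U U1 : Set ℂ} (hU : IsOpen U) {R0 d t : ℝ}
    (ht : 0 < t) (hR : ∀ x ∈ U, ‖x‖ ≤ R0) (htd : t * (2 * R0) < d)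
    (hth : ∀ x ∈ U1, ∀ y : ℂ, ‖y - x‖ < d → y ∈ U) (hU1 : U1 ⊆ U)
    {y : ℕ → ℂ} {b : ℕ → ℂ → ℂ} (hy : ∀ m, y m ∈ U1) (hfy : ∀ m, f (y (m + 1)) = y m)
    (hb : ∀ m, DifferentiableOn ℂ (b m) U) (hbU : ∀ m, ∀ x ∈ U, b m x ∈ U1)
    (hfb : ∀ m, ∀ x ∈ U, f (b m x) = x) (hby : ∀ m, b m (y m) = y (m + 1)) (m : ℕ) :
    ∃ H : ℂ → ℂ, DifferentiableOn ℂ H U ∧ (∀ x ∈ U, H x ∈ U) ∧ H (y 0) = y m ∧
      deriv H (y 0) * deriv (f^[m]) (y m) = (1 + t) ^ m := by
  induction m with
  | zero =>
    refine ⟨id, differentiableOn_id, fun x hx => hx, rfl, ?_⟩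
    simp
  | succ m ih =>
    obtain ⟨H, h1, h2, h3, h4⟩ := ih
    have hy0 : y 0 ∈ U := hU1 (hy 0)
    have hym : y m ∈ U := hU1 (hy m)
    have hcomp : DifferentiableOn ℂ (fun x => b m (H x)) U := (hb m).comp h1 h2
    refine ⟨fun x => b m (H x) + t * (b m (H x) - y (m + 1)), ?_, ?_, ?_, ?_⟩
    · exact hcomp.add ((hcomp.sub_const _).const_mul _)
    · intro x hx
      apply hth _ (hbU m _ (h2 x hx))
      rw [add_sub_cancel_left, norm_mul, norm_real, Real.norm_of_nonneg ht.le]
      have h5 : ‖b m (H x) - y (m + 1)‖ ≤ 2 * R0 := by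
        refine (norm_sub_le _ _).trans ?_
        have := hR _ (hU1 (hbU m _ (h2 x hx)))
        have := hR _ (hU1 (hy (m + 1)))
        linarith
      exact (mul_le_mul_of_nonneg_left h5 ht.le).trans_lt htd
    · simp only [h3, hby, sub_self, mul_zero, add_zero]
    · have hH : HasDerivAt H (deriv H (y 0)) (y 0) :=
        (h1.differentiableAt (hU.mem_nhds hy0)).hasDerivAt
      have hbd : HasDerivAt (b m) (deriv (b m) (y m)) (y m) :=
        ((hb m).differentiableAt (hU.mem_nhds hym)).hasDerivAt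
      have hbH : HasDerivAt (fun x => b m (H x)) (deriv (b m) (y m) * deriv H (y 0)) (y 0) := by
        have hbd' : HasDerivAt (b m) (deriv (b m) (y m)) (H (y 0)) := by rw [h3]; exact hbd
        exact hbd'.comp (y 0) hH
      have hT := (hbH.add ((hbH.sub_const (y (m + 1))).const_mul (t : ℂ))).deriv
      have e1 : deriv (f^[m + 1]) (y (m + 1)) = deriv (f^[m]) (y m) * deriv f (y (m + 1)) := by
        have e : f^[m + 1] = f^[m] ∘ f := Function.iterate_succ f m
        rw [e, deriv_comp _ ((hf.iterate m) _) (hf _), hfy]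
      have e2 : deriv f (y (m + 1)) * deriv (b m) (y m) = 1 := by
        have h5 : HasDerivAt (fun x => f (b m x)) (deriv f (y (m + 1)) * deriv (b m) (y m)) (y m) := by
          have h6 : HasDerivAt f (deriv f (y (m + 1))) (b m (y m)) := by
            rw [hby]
            exact (hf _).hasDerivAt
          exact h6.comp (y m) hbd
        have h6 : (fun x => f (b m x)) =ᶠ[𝓝 (y m)] fun x => x := by
          filter_upwards [hU.mem_nhds hym] with x hx using hfb m x hx
        exact (h5.congr_of_eventuallyEq h6.symm).unique (hasDerivAt_id (y m))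
      have hT' : deriv (fun x => b m (H x) + t * (b m (H x) - y (m + 1))) (y 0) =
          deriv (b m) (y m) * deriv H (y 0) + t * (deriv (b m) (y m) * deriv H (y 0)) := hT
      rw [hT', e1]
      calc (deriv (b m) (y m) * deriv H (y 0) + t * (deriv (b m) (y m) * deriv H (y 0))) *
            (deriv (f^[m]) (y m) * deriv f (y (m + 1))) =
            (1 + t) * (deriv H (y 0) * deriv (f^[m]) (y m)) *
              (deriv f (y (m + 1)) * deriv (b m) (y m)) := by ring
        _ = (1 + t) ^ (m + 1) := by rw [h4, e2]; ring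

end EXPAND_

open EXPAND_ in
theorem p_EXPAND (hG : T_GREEN) (hBR : T_BR) (hFIXE : T_FIXE) : T_EXPAND := by
  intro n Λ lh ls c ζ hn hΛ hlog hcr
  obtain ⟨g1, g2, g3, g4, g5, g6, g7, g8⟩ := hG n hn
  obtain ⟨b1, b2, b3, b4, b5, b6, b7⟩ := hBR n Λ lh ls c ζ hn hΛ hlog hcr
  have hnR : (2 : ℝ) ≤ n := by exact_mod_cast hn
  have hcp : Continuous (fun z : ℂ => ((c, z) : ℂ × ℂ)) := by fun_prop
  have hcont : Continuous (fun z : ℂ => G n c z) :=
    Continuous.comp (g := fun q : ℂ × ℂ => G n q.1 q.2) (f := fun z : ℂ => (c, z)) g1 hcp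
  have hζ : 0 < ζ.re := by
    rw [hcr.2.1, g7 c]
    have h1 : G n c 0 ≠ 0 := fun h => hcr.1 ((g6 c).2 h)
    have h2 : 0 < G n c 0 := lt_of_le_of_ne (g2 c 0) (Ne.symm h1)
    positivity
  set U : Set ℂ := {x : ℂ | G n c x < ζ.re} with hU
  set U1 : Set ℂ := {x : ℂ | G n c x ≤ ζ.re / n} with hU1
  have hUo : IsOpen U := isOpen_lt hcont continuous_const
  have hU1c : IsClosed U1 := isClosed_le hcont continuous_const
  have hU1U : U1 ⊆ U := by
    intro x hx
    have h1 : ζ.re / n < ζ.re := by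
      rw [div_lt_iff₀ (by linarith)]
      nlinarith
    exact lt_of_le_of_lt hx h1
  set R0 : ℝ := Real.exp (ζ.re + Real.log (1 + ‖c‖)) with hR0
  have hR0p : 0 < R0 := Real.exp_pos _
  have hR : ∀ x ∈ U, ‖x‖ ≤ R0 := by
    intro x hx
    have h1 := (abs_le.1 (g4 c x)).1
    have h2 : Real.posLog ‖x‖ ≤ ζ.re + Real.log (1 + ‖c‖) := by
      have : G n c x < ζ.re := hx
      linarith
    have h3 : Real.log ‖x‖ ≤ ζ.re + Real.log (1 + ‖c‖) := (le_max_right _ _).trans h2
    rcases eq_or_ne x 0 with h0 | h0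
    · rw [h0, norm_zero]
      exact hR0p.le
    · exact (Real.log_le_iff_le_exp (norm_pos_iff.2 h0)).1 h3
  have hU1k : IsCompact U1 := by
    refine Metric.isCompact_of_isClosed_isBounded hU1c ?_
    refine (Metric.isBounded_closedBall (x := (0 : ℂ)) (r := R0)).subset ?_
    intro x hx
    rw [mem_closedBall_zero_iff]
    exact hR x (hU1U hx)
  obtain ⟨d, hd0, hd⟩ := hU1k.exists_thickening_subset_open hUo hU1U
  have hth : ∀ x ∈ U1, ∀ y : ℂ, ‖y - x‖ < d → y ∈ U := by
    intro x hx y hy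
    apply hd
    rw [Metric.mem_thickening_iff]
    exact ⟨x, hx, by rw [dist_eq_norm]; exact hy⟩
  set t : ℝ := d / (4 * R0) with ht
  have ht0 : 0 < t := by positivity
  have htd : t * (2 * R0) < d := by
    have : t * (2 * R0) = d / 2 := by
      rw [ht]
      field_simp
      ring
    rw [this]
    linarith
  refine ⟨Real.log (1 + t), Real.log_pos (by linarith), ?_⟩
  intro k z hk hz
  have hfix := (hFIXE n k Λ lh ls c ζ hn hk hΛ hlog hcr).2
  obtain ⟨hrho, hGz, -⟩ := hfix z hz
  -- the backward orbit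
  set y : ℕ → ℂ := fun m => (F n c)^[(k - 1) * m] z with hy
  have hzm : ∀ j : ℕ, (F n c)^[k] ((F n c)^[j] z) = (F n c)^[j] z := by
    intro j
    rw [← Function.iterate_add_apply, add_comm, Function.iterate_add_apply, hz]
  have hyG : ∀ m, G n c (y m) = 0 := fun m => (hfix _ (hzm _)).2.1
  have hyU1 : ∀ m, y m ∈ U1 := fun m => by
    show G n c (y m) ≤ ζ.re / n
    rw [hyG]
    positivity
  have hfy : ∀ m, F n c (y (m + 1)) = y m := by
    intro m
    have e : (k - 1) * (m + 1) + 1 = (k - 1) * m + k := by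
      obtain ⟨k', rfl⟩ : ∃ k', k = k' + 1 := ⟨k - 1, by omega⟩
      simp only [Nat.add_sub_cancel]
      ring
    show F n c ((F n c)^[(k - 1) * (m + 1)] z) = (F n c)^[(k - 1) * m] z
    rw [← Function.iterate_succ_apply' (F n c), Nat.succ_eq_add_one, e, Function.iterate_add_apply,
      hz]
  have hdig : ∀ m, ∃ i : ℤ, Dig n lh c ζ (y (m + 1)) i := fun m => by
    apply b4
    rw [hyG, mul_zero]
    exact hζ
  choose i hi using hdig
  have hby : ∀ m, br n lh c ζ (i m) (y m) = y (m + 1) := by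
    intro m
    have := hi m
    unfold Dig at this
    rwa [hfy] at this
  have hy0 : y 0 = z := rfl
  have key : ∀ M : ℕ, (1 + t) ^ (k * M) ≤ 2 * R0 / d * ‖Rho n k c z‖ ^ M := by
    intro M
    obtain ⟨H, h1, h2, h3, h4⟩ := chain (f := F n c) (by unfold F; fun_prop) hUo ht0 hR htd hth
      hU1U hyU1 hfy (fun m => b3 (i m)) (fun m x hx => by
        show G n c (br n lh c ζ (i m) x) ≤ ζ.re / n
        rw [(b1 x (i m) hx).2.1]
        apply div_le_div_of_nonneg_right _ (by linarith)
        exact le_of_lt hx) (fun m x hx => (b1 x (i m) hx).1) hby (k * M)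
    have hyk : y (k * M) = z := by
      show (F n c)^[(k - 1) * (k * M)] z = z
      have e : (k - 1) * (k * M) = k * ((k - 1) * M) := by ring
      rw [e, Function.iterate_mul]
      exact Function.iterate_fixed hz _
    rw [hyk, hy0, deriv_iter_mul hz] at h4
    have hball : Metric.closedBall z (d / 2) ⊆ U := by
      intro x hx
      rw [mem_closedBall_iff_norm] at hx
      have := hyU1 0
      rw [hy0] at this
      exact hth z this x (by linarith)
    have hC : ‖deriv H z‖ ≤ R0 / (d / 2) := by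
      apply Complex.norm_deriv_le_of_forall_mem_sphere_norm_le (by linarith)
      · exact (h1.mono hball).diffContOnCl_ball subset_rfl
      · intro x hx
        exact hR _ (h2 x (hball (Metric.sphere_subset_closedBall hx)))
    have h5 : (1 + t) ^ (k * M) = ‖deriv H z‖ * ‖Rho n k c z‖ ^ M := by
      rw [← norm_pow, ← norm_mul, h4, norm_pow]
      congr 1
      have : (1 : ℂ) + t = ((1 + t : ℝ) : ℂ) := by push_cast; ring
      rw [this, norm_real, Real.norm_of_nonneg (by linarith)]
    rw [h5]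
    apply mul_le_mul_of_nonneg_right _ (by positivity)
    refine hC.trans (le_of_eq ?_)
    field_simp
  have hpos : 0 < ‖Rho n k c z‖ := by linarith
  have e : Real.exp (Real.log (1 + t) * k) = (1 + t) ^ k := by
    rw [mul_comm, Real.exp_nat_mul, Real.exp_log (by linarith)]
  rw [e]
  by_contra hcon
  push Not at hcon
  have hq : 1 < (1 + t) ^ k / ‖Rho n k c z‖ := (one_lt_div hpos).2 hcon
  obtain ⟨M, hM⟩ := pow_unbounded_of_one_lt (2 * R0 / d) hq
  have h6 := key M
  rw [div_pow, ← pow_mul, lt_div_iff₀ (by positivity)] at hM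
  linarith

end Pool.Agent.PLim
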