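import Pool.Agent.PLim.Targets3
import Pool.Agent.PLim.MP
import Pool.Agent.PLim.LOCZ

/-!
# HHE: divided differences of iterates
-/

set_option autoImplicit false

open Complex Filter Topology Set
open Pool.Agent.Multibrot Pool.Agent.Limb

namespace Pool.Agent.PLim

theorem p_HHE : T_HHE := by
  intro n m hn
  refine ⟨?_, ?_, ?_⟩
  · intro c z w
    have h : ∀ j : ℕ, (F n c)^[j] z - (F n c)^[j] w = (z - w) *
        ∏ i ∈ Finset.range j, ∑ l ∈ Finset.range n,
          ((F n c)^[i] z) ^ l * ((F n c)^[i] w) ^ (n - 1 - l) := by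
      intro j
      induction j with
      | zero => simp
      | succ j ih =>
        rw [Function.iterate_succ_apply', Function.iterate_succ_apply', Finset.prod_range_succ]
        have h1 : F n c ((F n c)^[j] z) - F n c ((F n c)^[j] w) =
            ((F n c)^[j] z) ^ n - ((F n c)^[j] w) ^ n := by
          unfold F
          ring
        rw [h1, ← mul_assoc, ← ih, ← (Commute.all ((F n c)^[j] z) ((F n c)^[j] w)).geom_sum₂_mul n]
        ring
    unfold HH
    linear_combination h m
  · intro c z
    unfold HH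
    rw [MPx.Rho_prod]
    congr 1
    apply Finset.prod_congr rfl
    intro j _
    have h1 : ∀ l ∈ Finset.range n, ((F n c)^[j] z) ^ l * ((F n c)^[j] z) ^ (n - 1 - l) =
        ((F n c)^[j] z) ^ (n - 1) := by
      intro l hl
      rw [← pow_add]
      congr 1
      have := Finset.mem_range.mp hl
      omega
    rw [Finset.sum_congr rfl h1, Finset.sum_const, Finset.card_range, nsmul_eq_mul]
  · unfold HH
    have hz : ∀ j : ℕ, ContDiff ℂ 1 (fun x : ℂ × ℂ × ℂ => (F n x.1)^[j] x.2.1) := fun j =>
      (LOCZ_.iter_contDiff n j).comp (contDiff_fst.prodMk (contDiff_fst.comp contDiff_snd))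
    have hw : ∀ j : ℕ, ContDiff ℂ 1 (fun x : ℂ × ℂ × ℂ => (F n x.1)^[j] x.2.2) := fun j =>
      (LOCZ_.iter_contDiff n j).comp (contDiff_fst.prodMk (contDiff_snd.comp contDiff_snd))
    refine ContDiff.sub ?_ contDiff_const
    exact contDiff_prod fun j _ => ContDiff.sum fun l _ => ((hz j).pow l).mul ((hw j).pow _)

end Pool.Agent.PLim
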