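import Pool.Agent.PLim.Targets3
import Pool.Agent.PLim.LOCZ
import Pool.Agent.PLim.MP

/-!
# PLIM, IMP: the bifurcating cycle, as a graph over `z`
-/

set_option autoImplicit false

open Complex Filter Topology Set
open Pool.Agent.Multibrot Pool.Agent.Limb

namespace Pool.Agent.PLim

namespace IMP_

theorem iter_diff (n k : ℕ) (c : ℂ) : Differentiable ℂ ((F n c)^[k]) := by
  have h4 : ContDiff ℂ 1 (fun z : ℂ => (F n c)^[k] z) :=
    (LOCZ_.iter_contDiff n k).comp (contDiff_const.prodMk contDiff_id)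
  exact h4.differentiable one_ne_zero

theorem Rho_pow' {n k : ℕ} {c z : ℂ} (hz : (F n c)^[k] z = z) (m : ℕ) :
    Rho n (k * m) c z = Rho n k c z ^ m := by
  unfold Rho
  rw [Function.iterate_mul]
  have h1 : HasDerivAt ((F n c)^[k]) (deriv ((F n c)^[k]) z) z :=
    (iter_diff n k c).differentiableAt.hasDerivAt
  exact (HasDerivAt.iterate (x := z) h1 hz m).deriv

theorem root_ne_one {p q : ℕ} (hp : 0 < p) (hpq : p < q) :
    exp (2 * Real.pi * I * p / q) ≠ 1 := by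
  intro h
  rw [Complex.exp_eq_one_iff] at h
  obtain ⟨m, hm⟩ := h
  have hq0 : (q : ℂ) ≠ 0 := by
    have : q ≠ 0 := by omega
    exact_mod_cast this
  have hpi : (2 * Real.pi * I : ℂ) ≠ 0 := Complex.two_pi_I_ne_zero
  have h2 : (p : ℂ) = m * q := by
    have h3 : (2 * Real.pi * I : ℂ) * p = (2 * Real.pi * I) * (m * q) := by
      field_simp at hm
      linear_combination (2 * Real.pi * I : ℂ) * hm
    exact mul_left_cancel₀ hpi h3
  have h3 : (p : ℤ) = m * q := by exact_mod_cast h2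
  have h4 : 0 < m := by
    by_contra hcon
    push Not at hcon
    have : m * (q : ℤ) ≤ 0 := mul_nonpos_of_nonpos_of_nonneg hcon (by positivity)
    omega
  have h5 : (q : ℤ) ≤ m * q := by nlinarith
  omega

theorem root_pow {p q : ℕ} (hq : 0 < q) : exp (2 * Real.pi * I * p / q) ^ q = 1 := by
  rw [← Complex.exp_nat_mul, Complex.exp_eq_one_iff]
  refine ⟨p, ?_⟩
  have hq0 : (q : ℂ) ≠ 0 := by exact_mod_cast hq.ne'
  push_cast
  field_simp

theorem root_norm (p q : ℕ) : ‖exp (2 * Real.pi * I * p / q)‖ = 1 := by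
  have : (2 * Real.pi * I * p / q : ℂ) = ((2 * Real.pi * p / q : ℝ) : ℂ) * I := by
    push_cast
    ring
  rw [this, Complex.norm_exp_ofReal_mul_I]

end IMP_

open IMP_ in
/-- IMP: the bifurcating cycle. -/
theorem p_IMP (h1 : T_LOCZ) (h2 : T_TRANS) (h3 : T_HHE) (h4 : T_SEC0) : T_IMP := by
  intro n k p q r z0 R hn hk hp hpq hcop hfix hrho hR
  have hq : 0 < q := by omega
  have hrho1 : Rho n k r z0 ≠ 1 := by
    rw [hrho]
    exact root_ne_one hp hpq
  have hrhoN : ‖Rho n k r z0‖ = 1 := by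
    rw [hrho]
    exact root_norm p q
  have hrho0 : Rho n k r z0 ≠ 0 := by
    rw [hrho]
    exact Complex.exp_ne_zero _
  have hrhoq : Rho n k r z0 ^ q = 1 := by
    rw [hrho]
    exact root_pow hq
  obtain ⟨δ, r', zf, hδR, hr'R, hloc⟩ := h1 n k r z0 R hn hR hfix hrho1
  have hder := h2 n k r z0 δ r' zf hn hk hloc hrho0 hrhoN.le hrho1
  obtain ⟨hE1, hE2, hE3⟩ := h3 n (k * q) (by omega)
  have hsec := h4 n k p q r z0 hn hk hp hpq hcop hfix hrho
  generalize HH n (k * q) = H at hE1 hE2 hE3 hsec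
  have hrball : r ∈ Metric.ball r δ := Metric.mem_ball_self hloc.hδ
  have hzfA : AnalyticAt ℂ zf r :=
    hloc.diff.analyticAt (Metric.ball_mem_nhds _ hloc.hδ)
  have hzfC : ContDiffAt ℂ 1 zf r := hzfA.contDiffAt
  -- the function `Φ (z, x) = HH x z (zf x)`
  set Φ : ℂ × ℂ → ℂ := fun p => H p.2 p.1 (zf p.2) with hΦ
  set Ψ : ℂ × ℂ → ℂ × ℂ := fun p => (p.1, Φ p) with hΨ
  have hΦc : ContDiffAt ℂ 1 Φ (z0, r) := by
    have e1 : ContDiffAt ℂ 1 (fun p : ℂ × ℂ => ((p.2, p.1, zf p.2) : ℂ × ℂ × ℂ)) (z0, r) := by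
      refine contDiffAt_snd.prodMk (contDiffAt_fst.prodMk ?_)
      exact ContDiffAt.comp (z0, r) hzfC contDiffAt_snd
    have e2 : ContDiffAt ℂ 1 (fun x : ℂ × ℂ × ℂ => H x.1 x.2.1 x.2.2) (r, z0, zf r) :=
      hE3.contDiffAt
    exact ContDiffAt.comp (z0, r) e2 e1
  have hΨc : ContDiffAt ℂ 1 Ψ (z0, r) := contDiffAt_fst.prodMk hΦc
  have hΦd : HasFDerivAt Φ (fderiv ℂ Φ (z0, r)) (z0, r) :=
    (hΦc.differentiableAt one_ne_zero).hasFDerivAt
  set A := fderiv ℂ Φ (z0, r) (1, 0) with hA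
  set B := fderiv ℂ Φ (z0, r) (0, 1) with hB
  have hfd : fderiv ℂ Φ (z0, r) =
      A • ContinuousLinearMap.fst ℂ ℂ ℂ + B • ContinuousLinearMap.snd ℂ ℂ ℂ := by
    refine ContinuousLinearMap.ext fun p => ?_
    obtain ⟨x, y⟩ := p
    have h1 : ((x, y) : ℂ × ℂ) = x • ((1, 0) : ℂ × ℂ) + y • ((0, 1) : ℂ × ℂ) := by
      simp
    rw [h1, map_add, map_smul, map_smul]
    simp only [add_apply, smul_apply,
      ContinuousLinearMap.coe_fst', ContinuousLinearMap.coe_snd', smul_eq_mul, ← hA, ← hB]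
    simp
    ring
  have hAval : A = 0 := by
    have e1 : HasDerivAt (fun z : ℂ => Φ (z, r)) A z0 := by
      have e2 : HasDerivAt (fun z : ℂ => ((z, r) : ℂ × ℂ)) (1, 0) z0 :=
        (hasDerivAt_id z0).prodMk (hasDerivAt_const z0 r)
      exact hΦd.comp_hasDerivAt z0 e2
    have e3 := e1.deriv
    have e4 : (fun z : ℂ => Φ (z, r)) = fun z => H r z z0 := by
      funext z
      simp only [hΦ, hloc.zf0]
    rw [e4, hsec] at e3
    exact e3.symm
  -- the derivative along the graph of `zf`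
  set Rf : ℂ → ℂ := fun x => Rho n k x (zf x) with hRf
  have hRfd : HasDerivAt Rf (deriv Rf r) r :=
    (differentiableAt_of_deriv_ne_zero hder).hasDerivAt
  have hRfr : Rf r = Rho n k r z0 := by
    simp only [hRf, hloc.zf0]
  have hdiag : ∀ x ∈ Metric.ball r δ, Φ (zf x, x) = Rf x ^ q - 1 := by
    intro x hx
    simp only [hΦ, hRf]
    rw [hE2, Rho_pow' (hloc.fix x hx)]
  have hpowd : HasDerivAt (fun x => Rf x ^ q - 1) (q * Rf r ^ (q - 1) * deriv Rf r) r := by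
    have e1 := (hRfd.fun_pow q).sub_const 1
    simpa using e1
  have hpow0 : (q * Rf r ^ (q - 1) * deriv Rf r : ℂ) ≠ 0 := by
    refine mul_ne_zero (mul_ne_zero (by exact_mod_cast hq.ne') (pow_ne_zero _ ?_)) hder
    rw [hRfr]
    exact hrho0
  have hB0 : B ≠ 0 := by
    have e1 : HasDerivAt (fun x : ℂ => Φ (zf x, x)) (fderiv ℂ Φ (z0, r) (deriv zf r, 1)) r := by
      have e2 : HasDerivAt (fun x : ℂ => ((zf x, x) : ℂ × ℂ)) (deriv zf r, 1) r :=
        hzfA.differentiableAt.hasDerivAt.prodMk (hasDerivAt_id r)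
      have e3 : HasFDerivAt Φ (fderiv ℂ Φ (z0, r)) ((fun x : ℂ => ((zf x, x) : ℂ × ℂ)) r) := by
        simp only [hloc.zf0]
        exact hΦd
      exact HasFDerivAt.comp_hasDerivAt (f := fun x : ℂ => ((zf x, x) : ℂ × ℂ)) r e3 e2
    have e4 : HasDerivAt (fun x : ℂ => Φ (zf x, x)) (q * Rf r ^ (q - 1) * deriv Rf r) r := by
      refine hpowd.congr_of_eventuallyEq ?_
      filter_upwards [Metric.ball_mem_nhds r hloc.hδ] with x hx
      exact hdiag x hx
    have e5 := e1.unique e4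
    rw [hfd] at e5
    have e6 : (A • ContinuousLinearMap.fst ℂ ℂ ℂ + B • ContinuousLinearMap.snd ℂ ℂ ℂ)
        (deriv zf r, 1) = B := by
      simp only [add_apply, smul_apply,
        ContinuousLinearMap.coe_fst', ContinuousLinearMap.coe_snd', smul_eq_mul]
      rw [hAval]
      ring
    rw [e6] at e5
    rw [e5]
    exact hpow0
  have hΨd : HasFDerivAt Ψ ((LOCZ_.eqv A B hB0 : (ℂ × ℂ) ≃L[ℂ] (ℂ × ℂ)) : (ℂ × ℂ) →L[ℂ] (ℂ × ℂ))
      (z0, r) := by
    have h1 : HasFDerivAt Ψ ((ContinuousLinearMap.fst ℂ ℂ ℂ).prod (fderiv ℂ Φ (z0, r)))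
        (z0, r) := hasFDerivAt_fst.prodMk hΦd
    rw [hfd] at h1
    exact h1
  have hΦ0 : Φ (z0, r) = 0 := by
    have e1 := hdiag r hrball
    rw [hloc.zf0, hRfr, hrhoq, sub_self] at e1
    exact e1
  have hΨ0 : Ψ (z0, r) = (z0, 0) := by
    simp only [hΨ, hΦ0]
  set e := hΨc.toOpenPartialHomeomorph Ψ hΨd one_ne_zero with he
  have hecoe : ∀ p, e p = Ψ p := fun p => rfl
  have hsrc : (z0, r) ∈ e.source :=
    ContDiffAt.mem_toOpenPartialHomeomorph_source hΨc hΨd one_ne_zero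
  have htgt : (z0, (0 : ℂ)) ∈ e.target := by
    have := ContDiffAt.image_mem_toOpenPartialHomeomorph_target hΨc hΨd one_ne_zero
    rwa [hΨ0] at this
  have hsymm0 : e.symm (z0, 0) = (z0, r) := by
    rw [← hΨ0, ← hecoe, e.left_inv hsrc]
  have hsd : ContDiffAt ℂ 1 e.symm (z0, 0) := by
    refine e.contDiffAt_symm htgt (f₀' := LOCZ_.eqv A B hB0) ?_ ?_
    · rw [hsymm0]
      exact hΨd
    · rw [hsymm0]
      exact hΨc
  set g : ℂ → ℂ := fun z => (e.symm (z, 0)).2 with hg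
  have hgd : ContDiffAt ℂ 1 g z0 := by
    have h1 : ContDiffAt ℂ 1 (fun z : ℂ => ((z, 0) : ℂ × ℂ)) z0 :=
      contDiffAt_id.prodMk contDiffAt_const
    have h2 : ContDiffAt ℂ 1 (fun z : ℂ => e.symm (z, 0)) z0 := hsd.comp z0 h1
    exact contDiffAt_snd.comp z0 h2
  have hg0 : g z0 = r := by
    simp only [hg, hsymm0]
  have hgt : Tendsto g (𝓝 z0) (𝓝 r) := by
    have := hgd.continuousAt.tendsto
    rwa [hg0] at this
  -- the eventual properties
  have hev1 : ∀ᶠ z in 𝓝 z0, DifferentiableAt ℂ g z :=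
    (hgd.eventually (by simp)).mono fun c hc => hc.differentiableAt one_ne_zero
  have hev2 : ∀ᶠ z in 𝓝 z0, ((z, 0) : ℂ × ℂ) ∈ e.target := by
    have h1 : Continuous (fun c : ℂ => ((c, 0) : ℂ × ℂ)) := by fun_prop
    exact h1.continuousAt.eventually (e.open_target.mem_nhds htgt)
  have hev3 : ∀ᶠ z in 𝓝 z0, g z ∈ Metric.ball r δ :=
    hgt.eventually (Metric.ball_mem_nhds _ hloc.hδ)
  have hev4 : ∀ᶠ z in 𝓝 z0, ‖g z - r‖ < R := by
    have := hgt.eventually (Metric.ball_mem_nhds _ hR)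
    filter_upwards [this] with z hz
    rwa [← dist_eq_norm]
  have hev5 : ∀ᶠ z in 𝓝 z0, z ∈ Metric.ball z0 r' := Metric.ball_mem_nhds _ hloc.hr
  have hev6 : ∀ᶠ z in 𝓝 z0, g z ≠ r → Rf (g z) ^ q - 1 ≠ 0 := by
    have e1 : ∀ᶠ x in 𝓝[≠] r, Rf x ^ q - 1 ≠ 0 := hpowd.eventually_ne hpow0
    rw [eventually_nhdsWithin_iff] at e1
    exact hgt.eventually e1
  have hev7 : ∀ᶠ z in 𝓝 z0, z ≠ z0 → (F n r)^[k * q] z ≠ z := by
    have e1 : (FPol n r (k * q) - Polynomial.X) ≠ 0 :=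
      (MPx.fix_monic n (k * q) r hn (Nat.mul_pos (by omega) hq)).1.ne_zero
    have e2 : ((FPol n r (k * q) - Polynomial.X).roots.toFinset.erase z0 : Set ℂ)ᶜ ∈ 𝓝 z0 := by
      refine (Finset.finite_toSet _).isClosed.isOpen_compl.mem_nhds ?_
      simp
    filter_upwards [e2] with z hz hne hfz
    apply hz
    simp only [Finset.coe_erase, Set.mem_sdiff, Finset.mem_coe, Multiset.mem_toFinset,
      mem_singleton_iff]
    refine ⟨?_, hne⟩
    rw [Polynomial.mem_roots e1, Polynomial.IsRoot.def, Polynomial.eval_sub, Polynomial.eval_X,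
      MPx.FPol_eval, hfz, sub_self]
  obtain ⟨ρ', hρ', hball⟩ := Metric.eventually_nhds_iff_ball.mp
    (hev1.and (hev2.and (hev3.and (hev4.and (hev5.and (hev6.and hev7))))))
  refine ⟨min ρ' (R / 2), g, lt_min hρ' (by linarith), ?_, ?_, hg0, ?_⟩
  · exact lt_of_le_of_lt (min_le_right _ _) (by linarith)
  · intro z hz
    exact (hball z (Metric.ball_subset_ball (min_le_left _ _) hz)).1.differentiableWithinAt
  intro z hz
  obtain ⟨-, hz2, hz3, hz4, hz5, hz6, hz7⟩ := hball z (Metric.ball_subset_ball (min_le_left _ _) hz)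
  have hinv : Ψ (e.symm (z, 0)) = (z, 0) := by
    rw [← hecoe]
    exact e.right_inv hz2
  have hi1 : (e.symm (z, 0)).1 = z := congrArg Prod.fst hinv
  have hi2 : Φ (e.symm (z, 0)) = 0 := congrArg Prod.snd hinv
  have hi3 : Φ (z, g z) = 0 := by
    have : e.symm (z, 0) = (z, g z) := Prod.ext hi1 rfl
    rw [this] at hi2
    exact hi2
  have hfixq : (F n (g z))^[k * q] (zf (g z)) = zf (g z) := by
    rw [Function.iterate_mul]
    exact Function.iterate_fixed (hloc.fix _ hz3) q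
  have hfz : (F n (g z))^[k * q] z = z := by
    have e1 := hE1 (g z) z (zf (g z))
    have e2 : H (g z) z (zf (g z)) = 0 := hi3
    rw [hfixq, sub_self, sub_zero, e2, mul_zero] at e1
    exact sub_eq_zero.1 e1
  refine ⟨hfz, hz4, fun hne => ?_⟩
  have hgne : g z ≠ r := by
    intro h
    rw [h] at hfz
    exact hz7 hne hfz
  refine ⟨hgne, fun hk' => ?_⟩
  have e1 := hloc.uniq (g z) hz3 z hz5 hk'
  have e2 := hdiag (g z) hz3
  rw [← e1, hi3] at e2
  exact hz6 hgne e2.symm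

end Pool.Agent.PLim
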