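import Pool.Agent.PLim.Targets3

/-!
# PLIM-LCL: the first part of the topological lemma on limbs
-/

set_option autoImplicit false

open Complex Filter Topology Set MeasureTheory

namespace Pool.Agent.PLim

namespace LCL_

theorem clo_insert (p : ℂ) (S : Set ℂ) : closure (insert p S) = insert p (closure S) := by
  rw [insert_eq, closure_union, closure_singleton]
  rfl

/-- The data. -/
structure Dat (M : Set ℂ) (r : ℂ) (τ η K : ℝ) (ψ om : ℂ → ℂ) : Prop where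
  cpt : IsCompact M
  rM : r ∈ M
  η0 : 0 < η
  η1 : η < 1
  K0 : 0 < K
  diff : DifferentiableOn ℂ ψ (Metric.ball (τ * I) η)
  der : ∀ μ ∈ Metric.ball ((τ : ℂ) * I) η, deriv ψ μ ≠ 0
  psr : ψ (τ * I) = r
  loc : ∀ μ₀ ∈ Metric.ball ((τ : ℂ) * I) η, 0 < μ₀.re → ψ μ₀ ∈ M →
    ∀ᶠ μ in 𝓝 μ₀, ψ μ ∈ M → om μ = om μ₀
  ell : ∀ μ ∈ Metric.ball ((τ : ℂ) * I) η, 0 < μ.re → ψ μ ∈ M → ∃ (q : ℕ) (a : ℝ), 1 ≤ q ∧
    om μ ^ q = 1 ∧ om μ = exp (-(2 * Real.pi * a * I)) ∧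
    ‖μ - 2 * Real.pi * a * I‖ ^ 2 ≤ K / q * μ.re

/-- the points over `M` with a given root of unity -/
def Pp (M : Set ℂ) (τ η : ℝ) (ψ om : ℂ → ℂ) (w : ℂ) : Set ℂ :=
  {μ | μ ∈ Metric.ball ((τ : ℂ) * I) η ∧ 0 < μ.re ∧ ψ μ ∈ M ∧ om μ = w}

variable {M : Set ℂ} {r : ℂ} {τ η K : ℝ} {ψ om : ℂ → ℂ}

/-- `w = exp (- 2 π a₁ i)` has order at least `q₁` -/
structure Rt (τ K η : ℝ) (w : ℂ) (a₁ : ℝ) (q₁ : ℕ) : Prop where
  one : 1 ≤ q₁
  ex : w = exp (-(2 * Real.pi * a₁ * I))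
  ord : ∀ m : ℕ, w ^ m = 1 → q₁ ∣ m
  near : |2 * Real.pi * a₁ - τ| ≤ 1
  big : K * η ≤ Real.pi ^ 2 * q₁

theorem re_lt {μ : ℂ} (hμ : μ ∈ Metric.ball ((τ : ℂ) * I) η) : μ.re < η := by
  rw [Metric.mem_ball, dist_eq_norm] at hμ
  have h1 := Complex.abs_re_le_norm (μ - (τ : ℂ) * I)
  have h2 : (μ - (τ : ℂ) * I).re = μ.re := by simp
  rw [h2] at h1
  exact lt_of_le_of_lt (le_trans (le_abs_self _) h1) hμ

theorem im_lt {μ : ℂ} (hμ : μ ∈ Metric.ball ((τ : ℂ) * I) η) : |μ.im - τ| < η := by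
  rw [Metric.mem_ball, dist_eq_norm] at hμ
  have h1 := Complex.abs_im_le_norm (μ - (τ : ℂ) * I)
  have h2 : (μ - (τ : ℂ) * I).im = μ.im - τ := by simp
  rw [h2] at h1
  exact lt_of_le_of_lt h1 hμ

theorem p1_re (a : ℝ) : (2 * (Real.pi : ℂ) * a * I).re = 0 := by simp

theorem p1_im (a : ℝ) : (2 * (Real.pi : ℂ) * a * I).im = 2 * Real.pi * a := by simp

/-- the disc containing the points with a given root of unity -/
theorem disc (D : Dat M r τ η K ψ om) {w : ℂ} {a₁ : ℝ} {q₁ : ℕ} (R : Rt τ K η w a₁ q₁) :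
    ∀ μ ∈ Pp M τ η ψ om w, ‖μ - 2 * Real.pi * a₁ * I‖ ^ 2 ≤ K / q₁ * μ.re := by
  rintro μ ⟨hμ, hre, hM, hw⟩
  obtain ⟨q, a, hq, h1, h2, h3⟩ := D.ell μ hμ hre hM
  have hq₁0 : (0 : ℝ) < q₁ := by exact_mod_cast R.one
  have hqq : (q₁ : ℝ) ≤ q := by
    have : q₁ ≤ q := Nat.le_of_dvd (by omega) (R.ord q (by rw [← hw]; exact h1))
    exact_mod_cast this
  have hKq : K / q ≤ K / q₁ := div_le_div_of_nonneg_left D.K0.le hq₁0 hqq
  have h4 : ‖μ - 2 * Real.pi * a * I‖ ^ 2 ≤ K / q₁ * μ.re :=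
    h3.trans (mul_le_mul_of_nonneg_right hKq hre.le)
  have h5 : exp (-(2 * Real.pi * a * I)) = exp (-(2 * Real.pi * a₁ * I)) := by
    rw [← h2, hw, R.ex]
  obtain ⟨j, hj⟩ := Complex.exp_eq_exp_iff_exists_int.1 h5
  have h6 : 2 * Real.pi * a = 2 * Real.pi * a₁ - j * (2 * Real.pi) := by
    have := congrArg Complex.im hj
    simp at this
    linarith
  by_cases hj0 : j = 0
  · rw [hj0] at h6
    have h7 : a = a₁ := by
      have hpi := Real.pi_pos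
      have h8 : 2 * Real.pi * (a - a₁) = 0 := by push_cast at h6; linarith
      rcases mul_eq_zero.1 h8 with h9 | h9
      · linarith
      · linarith
    rw [h7] at h4
    exact h4
  · exfalso
    have hj1 : (1 : ℝ) ≤ |(j : ℝ)| := by
      have : (1 : ℤ) ≤ |j| := Int.one_le_abs hj0
      exact_mod_cast this
    have h7 := Complex.abs_im_le_norm (μ - 2 * Real.pi * a * I)
    have h8 : (μ - 2 * Real.pi * a * I).im = (μ.im - τ) + (τ - 2 * Real.pi * a₁) +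
        j * (2 * Real.pi) := by
      rw [Complex.sub_im, p1_im, h6]; ring
    have h9 := im_lt hμ
    have h10 := R.near
    have h11 : |(j : ℝ) * (2 * Real.pi)| ≤ |(μ - 2 * Real.pi * a * I).im| + |μ.im - τ| +
        |2 * Real.pi * a₁ - τ| := by
      rw [h8]
      have e : (j : ℝ) * (2 * Real.pi) = ((μ.im - τ) + (τ - 2 * Real.pi * a₁) +
        j * (2 * Real.pi)) - (μ.im - τ) + (2 * Real.pi * a₁ - τ) := by ring
      calc |(j : ℝ) * (2 * Real.pi)| = |((μ.im - τ) + (τ - 2 * Real.pi * a₁) +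
        j * (2 * Real.pi)) - (μ.im - τ) + (2 * Real.pi * a₁ - τ)| := by rw [← e]
        _ ≤ |((μ.im - τ) + (τ - 2 * Real.pi * a₁) +
        j * (2 * Real.pi)) - (μ.im - τ)| + |2 * Real.pi * a₁ - τ| := abs_add_le _ _
        _ ≤ _ := by
          have := abs_sub ((μ.im - τ) + (τ - 2 * Real.pi * a₁) + j * (2 * Real.pi)) (μ.im - τ)
          linarith
    rw [abs_mul, abs_of_pos (by positivity : (0 : ℝ) < 2 * Real.pi)] at h11
    have hpi3 := Real.pi_gt_three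
    have h12 : Real.pi < ‖μ - 2 * Real.pi * a * I‖ := by
      have := D.η1
      nlinarith
    have h13 : Real.pi ^ 2 < ‖μ - 2 * Real.pi * a * I‖ ^ 2 := by
      have := Real.pi_pos
      nlinarith
    have h14 : K / q₁ * μ.re ≤ Real.pi ^ 2 := by
      have h15 : K / q₁ * μ.re ≤ K / q₁ * η :=
        mul_le_mul_of_nonneg_left (re_lt hμ).le (div_nonneg D.K0.le hq₁0.le)
      have h16 : K / q₁ * η ≤ Real.pi ^ 2 := by
        rw [div_mul_eq_mul_div, div_le_iff₀ hq₁0]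
        exact R.big
      linarith
    linarith

theorem disc2 (D : Dat M r τ η K ψ om) {w : ℂ} {a₁ : ℝ} {q₁ : ℕ} (R : Rt τ K η w a₁ q₁)
    {μ : ℂ} (h : ‖μ - 2 * Real.pi * a₁ * I‖ ^ 2 ≤ K / q₁ * μ.re) :
    ‖μ - 2 * Real.pi * a₁ * I‖ ≤ K / q₁ := by
  have hq₁0 : (0 : ℝ) < q₁ := by exact_mod_cast R.one
  have hK : 0 ≤ K / q₁ := div_nonneg D.K0.le hq₁0.le
  have h1 : μ.re ≤ ‖μ - 2 * Real.pi * a₁ * I‖ := by
    have h2 := Complex.abs_re_le_norm (μ - 2 * Real.pi * a₁ * I)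
    rw [Complex.sub_re, p1_re, sub_zero] at h2
    exact (le_abs_self _).trans h2
  by_cases h0 : ‖μ - 2 * Real.pi * a₁ * I‖ = 0
  · rw [h0]; exact hK
  · have h3 : 0 < ‖μ - 2 * Real.pi * a₁ * I‖ :=
      lt_of_le_of_ne (norm_nonneg _) (Ne.symm h0)
    have h4 : ‖μ - 2 * Real.pi * a₁ * I‖ * ‖μ - 2 * Real.pi * a₁ * I‖ ≤
        (K / q₁) * ‖μ - 2 * Real.pi * a₁ * I‖ := by
      have := mul_le_mul_of_nonneg_left h1 hK
      nlinarith
    exact le_of_mul_le_mul_right h4 h3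

theorem cont (D : Dat M r τ η K ψ om) {μ : ℂ} (hμ : μ ∈ Metric.ball ((τ : ℂ) * I) η) :
    ContinuousAt ψ μ :=
  (D.diff.continuousOn).continuousAt (Metric.isOpen_ball.mem_nhds hμ)

theorem strict (D : Dat M r τ η K ψ om) {μ : ℂ} (hμ : μ ∈ Metric.ball ((τ : ℂ) * I) η) :
    HasStrictDerivAt ψ (deriv ψ μ) μ :=
  (D.diff.analyticAt (Metric.isOpen_ball.mem_nhds hμ)).hasStrictDerivAt

theorem compact (D : Dat M r τ η K ψ om) {w : ℂ} {a₁ : ℝ} {q₁ : ℕ} (R : Rt τ K η w a₁ q₁)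
    (hsub : Metric.closedBall (2 * (Real.pi : ℂ) * a₁ * I) (K / q₁) ⊆
      Metric.ball ((τ : ℂ) * I) η) :
    IsCompact (insert (2 * (Real.pi : ℂ) * a₁ * I) (Pp M τ η ψ om w)) := by
  have hq₁0 : (0 : ℝ) < q₁ := by exact_mod_cast R.one
  have hK : 0 < K / q₁ := div_pos D.K0 hq₁0
  have hsub2 : insert (2 * (Real.pi : ℂ) * a₁ * I) (Pp M τ η ψ om w) ⊆
      Metric.closedBall (2 * (Real.pi : ℂ) * a₁ * I) (K / q₁) := by
    intro μ hμ
    rcases hμ with h | h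
    · rw [h]; exact Metric.mem_closedBall_self hK.le
    · rw [Metric.mem_closedBall, dist_eq_norm]
      exact disc2 D R (disc D R μ h)
  refine (isCompact_closedBall (2 * (Real.pi : ℂ) * a₁ * I) (K / q₁)).of_isClosed_subset ?_ hsub2
  refine isClosed_of_closure_subset ?_
  rw [clo_insert]
  refine insert_subset (mem_insert _ _) ?_
  intro μ' hμ'
  rw [mem_closure_iff_frequently] at hμ'
  have hcl : IsClosed {μ : ℂ | ‖μ - 2 * Real.pi * a₁ * I‖ ^ 2 ≤ K / q₁ * μ.re} :=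
    isClosed_le (by fun_prop) (by fun_prop)
  have h1 : μ' ∈ {μ : ℂ | ‖μ - 2 * Real.pi * a₁ * I‖ ^ 2 ≤ K / q₁ * μ.re} :=
    hcl.mem_of_frequently_of_tendsto (f := fun x : ℂ => x)
      (hμ'.mono fun μ hμ => disc D R μ hμ) tendsto_id
  replace h1 : ‖μ' - 2 * Real.pi * a₁ * I‖ ^ 2 ≤ K / q₁ * μ'.re := h1
  have hball : μ' ∈ Metric.ball ((τ : ℂ) * I) η := by
    apply hsub
    rw [Metric.mem_closedBall, dist_eq_norm]
    exact disc2 D R h1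
  have hre : 0 ≤ μ'.re := by
    by_contra hcon
    push Not at hcon
    have := mul_neg_of_pos_of_neg hK hcon
    have := sq_nonneg ‖μ' - 2 * Real.pi * a₁ * I‖
    linarith
  rcases hre.eq_or_lt with h0 | h0
  · left
    rw [← h0, mul_zero] at h1
    have h2 : ‖μ' - 2 * Real.pi * a₁ * I‖ = 0 := by
      have := sq_nonneg ‖μ' - 2 * Real.pi * a₁ * I‖
      exact pow_eq_zero_iff (n := 2) (by norm_num) |>.1 (le_antisymm h1 this)
    exact sub_eq_zero.1 (norm_eq_zero.1 h2)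
  · right
    have hψM : ψ μ' ∈ M :=
      D.cpt.isClosed.mem_of_frequently_of_tendsto (hμ'.mono fun μ hμ => hμ.2.2.1)
        (cont D hball)
    obtain ⟨μ, hμ1, hμ2⟩ := (hμ'.and_eventually (D.loc μ' hball h0 hψM)).exists
    exact ⟨hball, h0, hψM, by rw [← hμ2 hμ1.2.2.1]; exact hμ1.2.2.2⟩

theorem opn (D : Dat M r τ η K ψ om) (w : ℂ) :
    ∀ c ∈ ψ '' (Pp M τ η ψ om w), ∀ᶠ c' in 𝓝 c, c' ∈ M → c' ∈ ψ '' (Pp M τ η ψ om w) := by
  rintro c ⟨μ₀, ⟨hμ, hre, hM, hw⟩, rfl⟩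
  rw [← (strict D hμ).map_nhds_eq (D.der μ₀ hμ), Filter.eventually_map]
  have h1 : ∀ᶠ μ in 𝓝 μ₀, μ ∈ Metric.ball ((τ : ℂ) * I) η := Metric.isOpen_ball.mem_nhds hμ
  have h2 : ∀ᶠ μ : ℂ in 𝓝 μ₀, 0 < μ.re :=
    (isOpen_lt continuous_const Complex.continuous_re).mem_nhds hre
  filter_upwards [h1, h2, D.loc μ₀ hμ hre hM] with μ a1 a2 a3 a4
  exact ⟨μ, ⟨a1, a2, a4, by rw [a3 a4]; exact hw⟩, rfl⟩

end LCL_

open LCL_ in
theorem p_LCL : T_LCL := by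
  intro M r b τ η K q₀ ψ om hMc hrM hbr hτ0 hτ1 hη0 hη1 hK0 hq₀
    hom1 hom2 hk1 hk2 hdiff hder hpsr hpsb hloc hell
  have D : Dat M r τ η K ψ om := ⟨hMc, hrM, hη0, hη1, hK0, hdiff, hder, hpsr, hloc, hell⟩
  have hτball : (τ : ℂ) * I ∈ Metric.ball ((τ : ℂ) * I) η := Metric.mem_ball_self hη0
  have hpi := Real.pi_pos
  have hq₀0 : (0 : ℝ) < q₀ := by exact_mod_cast hq₀
  set w₀ : ℂ := exp (-(τ * I)) with hw₀
  set a₀ : ℝ := τ / (2 * Real.pi) with ha₀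
  have ha₀' : 2 * Real.pi * a₀ = τ := by rw [ha₀]; field_simp
  have hp₀ : 2 * (Real.pi : ℂ) * a₀ * I = (τ : ℂ) * I := by
    have : ((2 * Real.pi * a₀ : ℝ) : ℂ) = (τ : ℂ) := by rw [ha₀']
    push_cast at this
    rw [this]
  have R : Rt τ K η w₀ a₀ q₀ := by
    refine ⟨hq₀, ?_, hom2, ?_, hk1.le⟩
    · rw [hw₀, hp₀]
    · rw [ha₀', sub_self, abs_zero]; norm_num
  have hKq : K / q₀ < η := by rw [div_lt_iff₀ hq₀0]; exact hk2
  have hsub : Metric.closedBall (2 * (Real.pi : ℂ) * a₀ * I) (K / q₀) ⊆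
      Metric.ball ((τ : ℂ) * I) η := by
    rw [hp₀]; exact Metric.closedBall_subset_ball hKq
  have hcomp := compact D R hsub
  rw [hp₀] at hcomp
  obtain ⟨L', hL'def⟩ : ∃ L' : Set ℂ, L' = ψ '' (Pp M τ η ψ om w₀) := ⟨_, rfl⟩
  have hLM : L' ⊆ M := by
    rw [hL'def]
    rintro c ⟨μ, hμ, rfl⟩
    exact hμ.2.2.1
  have hLo : ∀ c ∈ L', ∀ᶠ c' in 𝓝 c, c' ∈ M → c' ∈ L' := by
    rw [hL'def]; exact opn D w₀
  have hLc : IsClosed (insert r L') := by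
    have e : insert r L' = ψ '' insert ((τ : ℂ) * I) (Pp M τ η ψ om w₀) := by
      rw [image_insert_eq, hpsr, hL'def]
    rw [e]
    refine (hcomp.image_of_continuousOn (hdiff.continuousOn.mono ?_)).isClosed
    refine insert_subset hτball fun μ hμ => hμ.1
  have hbL : b ∉ L' := by
    rw [hL'def]
    rintro ⟨μ, hμ, hμb⟩
    exact hpsb μ hμ.1 hμb
  have hLo' : ∀ c ∈ L' \ {r}, ∀ᶠ c' in 𝓝 c, c' ∈ M → c' ∈ L' \ {r} := by
    intro c hc
    have h1 : ∀ᶠ c' in 𝓝 c, c' ≠ r := isOpen_ne.mem_nhds hc.2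
    filter_upwards [hLo c hc.1, h1] with c' h2 h3 h4
    exact ⟨h2 h4, h3⟩
  refine ⟨L' \ {r}, sdiff_subset.trans hLM,
    ⟨{x | ∀ᶠ c' in 𝓝 x, c' ∈ M → c' ∈ L' \ {r}}, isOpen_setOfPred_eventually_nhds, ?_⟩,
    ?_, fun h => h.2 rfl, fun h => hbL h.1, ?_⟩
  · ext x
    constructor
    · intro hx
      exact ⟨hLM hx.1, hLo' x hx⟩
    · rintro ⟨h1, h2⟩
      exact Filter.Eventually.self_of_nhds h2 h1
  · rw [insert_sdiff_singleton]
    exact hLc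
  · intro μ h1 h2 h3 h4 h5
    refine ⟨?_, h5⟩
    rw [hL'def]
    exact ⟨μ, ⟨h1, h2, h3, h4⟩, rfl⟩

end Pool.Agent.PLim
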