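import Pool.Agent.PLim.Targets4
import Pool.Agent.PLim.LIMB

/-!
# PLIM: the limbs shrink
-/

set_option autoImplicit false

open Complex Filter Topology Set MeasureTheory
open Pool.Agent.Multibrot Pool.Agent.Limb

namespace Pool.Agent.PLim

namespace LCS_

open LIMB_

/-- existence of the logarithmic Böttcher coordinate of the critical value -/
lemma exists_crit (hG : T_GREEN) {n : ℕ} (hn : 2 ≤ n) {Λ : ℂ → ℂ → ℂ} (hΛ : IsBot n Λ) {c : ℂ}
    (hc : c ∉ MM n) : ∃ s : ℂ, Crit n Λ c s := by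
  obtain ⟨-, h0, -, -, -, hM, hcc, -⟩ := hG n hn
  have hpos : 0 < G n c 0 := lt_of_le_of_ne (h0 c 0) fun h => hc ((hM c).2 h.symm)
  have hlt : G n c 0 < G n c c := by
    rw [hcc c]
    have h2 : (2 : ℝ) ≤ n := by exact_mod_cast hn
    nlinarith
  obtain ⟨s, hs, hsc⟩ := hΛ.surj c c hlt
  exact ⟨s, hc, hs, hsc⟩

/-- the image of a big disc has small multipliers -/
lemma step (hF : T_FRO) {n : ℕ} (hn : 2 ≤ n) {C1 C3 : ℝ} (hC1 : 0 < C1) (hC3 : 40 ≤ C3)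
    (H : LIMBGn n C1 C3) {c : ℂ} {ε : ℝ} (hε : 0 < ε) (hInf : Inf n (C1 * C3) c)
    (hcon : ∀ (k p q : ℕ) (r z0 : ℂ) (A : Set ℂ), IsLimb n k p q r z0 A → c ∈ A →
      ¬ insert r A ⊆ Metric.ball c ε) {ρ : ℝ}
    (hcov : ∀ g : ℂ → ℂ,
      DifferentiableOn ℂ g (Metric.ball 0 1) → (∀ x ∈ Metric.ball (0 : ℂ) 1, ‖g x‖ ≤ 16) →
      (∃ x : ℂ, ‖x‖ ≤ 1 / 2 ∧ ε / 2 ≤ ‖g x - g 0‖) →
      Metric.ball (g 0) ρ ⊆ g '' Metric.ball 0 1) {δ : ℝ} (hδ : 0 < δ) :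
    ∃ r ∈ frontier (MM n), ∀ e ∈ Metric.ball r ρ, ∃ (k : ℕ) (z : ℂ), 1 ≤ k ∧
      (F n e)^[k] z = z ∧ ‖Rho n k e z‖ ≤ Real.exp δ := by
  have hC3' : 0 < C3 := by linarith
  obtain ⟨N, hN⟩ := exists_nat_gt (C1 / (C3 * δ ^ 2))
  obtain ⟨k, p, q, r, z0, A, hL, hcA, hNq, hm⟩ := hInf N
  have hk1 : (1 : ℝ) ≤ k := by exact_mod_cast hL.hk
  have hq0 : 0 < q := lt_of_le_of_lt (Nat.zero_le _) hL.hpq
  have hqR : (0 : ℝ) < q := by exact_mod_cast hq0
  have hNqR : (N : ℝ) ≤ q := by exact_mod_cast hNq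
  set m : ℕ := min p (q - p) with hmdef
  have hm2 : 2 * m ≤ q := by
    have := hL.hpq
    omega
  have hm2R : 2 * (m : ℝ) ≤ q := by exact_mod_cast hm2
  have hm0 : (0 : ℝ) ≤ m := Nat.cast_nonneg m
  set η : ℝ := (2 * Real.pi * (m : ℝ) / q) ^ 2 / (C3 * k) with hη
  set e' : ℝ := 2 * (C1 * k / q) with he'
  have he'0 : 0 < e' := by positivity
  have hpi := Real.pi_gt_three
  have heη : e' < η := by
    rw [he', hη, lt_div_iff₀ (by positivity)]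
    have h1 : 2 * (C1 * k / q) * (C3 * k) = 2 * (C1 * C3 * k ^ 2 * q) / q ^ 2 := by
      field_simp
    have h2 : (2 * Real.pi * (m : ℝ) / q) ^ 2 = 4 * Real.pi ^ 2 * m ^ 2 / q ^ 2 := by
      field_simp
      ring
    rw [h1, h2]
    apply div_lt_div_of_pos_right _ (by positivity)
    have h3 : (2 : ℝ) * m ^ 2 ≤ 4 * Real.pi ^ 2 * m ^ 2 := by
      apply mul_le_mul_of_nonneg_right _ (by positivity)
      nlinarith
    linarith
  have heδ : e' < δ := by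
    have h1 : C1 * C3 * (k : ℝ) ^ 2 * q < (q : ℝ) ^ 2 / 4 := by nlinarith
    have h2 : C1 * C3 * (k : ℝ) ^ 2 < (q : ℝ) / 4 := by
      have : C1 * C3 * (k : ℝ) ^ 2 * q < (q : ℝ) / 4 * q := by
        calc C1 * C3 * (k : ℝ) ^ 2 * q < (q : ℝ) ^ 2 / 4 := h1
          _ = (q : ℝ) / 4 * q := by ring
      exact lt_of_mul_lt_mul_right this hqR.le
    have h3 : C1 / (C3 * δ ^ 2) < q := lt_of_lt_of_le hN hNqR
    rw [div_lt_iff₀ (by positivity)] at h3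
    have h4 : e' ^ 2 < δ ^ 2 := by
      have h5 : e' ^ 2 * (C3 * q ^ 2) = 4 * C1 * (C1 * C3 * (k : ℝ) ^ 2) := by
        rw [he']
        field_simp
        ring
      have h6 : 4 * C1 * (C1 * C3 * (k : ℝ) ^ 2) < 4 * C1 * ((q : ℝ) / 4) :=
        mul_lt_mul_of_pos_left h2 (by positivity)
      have h7 : 4 * C1 * ((q : ℝ) / 4) = C1 * q := by ring
      have h8 : C1 * (q : ℝ) < q * (C3 * δ ^ 2) * q := mul_lt_mul_of_pos_right h3 hqR
      have h9 : e' ^ 2 * (C3 * q ^ 2) < δ ^ 2 * (C3 * q ^ 2) := by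
        rw [h5]
        calc 4 * C1 * (C1 * C3 * (k : ℝ) ^ 2) < C1 * q := by rw [← h7]; exact h6
          _ < q * (C3 * δ ^ 2) * q := h8
          _ = δ ^ 2 * (C3 * q ^ 2) := by ring
      exact lt_of_mul_lt_mul_right h9 (by positivity)
    exact lt_of_pow_lt_pow_left₀ 2 hδ.le h4
  obtain ⟨-, -, ψ, χ, hψd, hψ0, hψ, hA⟩ := H k p q r z0 A η hL rfl heη
  refine ⟨r, hF n k p q r z0 A hn hL ⟨c, hcA⟩, ?_⟩
  -- a point of `A` far from `r`
  obtain ⟨a, haA, har⟩ : ∃ a ∈ A, ε / 2 ≤ ‖a - r‖ := by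
    obtain ⟨b, hb, hbc⟩ := Set.not_subset.1 (hcon k p q r z0 A hL hcA)
    rw [Metric.mem_ball, not_lt, dist_eq_norm] at hbc
    rcases hb with rfl | hb
    · refine ⟨c, hcA, ?_⟩
      rw [norm_sub_rev]
      linarith
    · by_contra hno
      push Not at hno
      have h1 := hno b hb
      have h2 := hno c hcA
      have h3 : ‖b - c‖ ≤ ‖b - r‖ + ‖c - r‖ := by
        calc ‖b - c‖ = ‖(b - r) - (c - r)‖ := by congr 1; ring
          _ ≤ ‖b - r‖ + ‖c - r‖ := norm_sub_le _ _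
      linarith
  have hball : ∀ x ∈ Metric.ball (0 : ℂ) 1, (e' : ℂ) * x ∈ Metric.ball (0 : ℂ) η ∧
      ‖(e' : ℂ) * x‖ < e' := by
    intro x hx
    rw [mem_ball_zero_iff] at hx
    have h1 : ‖(e' : ℂ) * x‖ < e' := by
      rw [norm_mul, Complex.norm_real, Real.norm_of_nonneg he'0.le]
      nlinarith
    exact ⟨by rw [mem_ball_zero_iff]; linarith, h1⟩
  have hcov' := hcov (fun x => ψ ((e' : ℂ) * x))
    (by
      refine hψd.comp (by fun_prop) ?_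
      intro x hx
      exact (hball x hx).1)
    (fun x hx => (hψ _ (hball x hx).1).2.2)
    (by
      obtain ⟨x, hx, hxa⟩ := hA a haA
      refine ⟨x / e', ?_, ?_⟩
      · rw [norm_div, Complex.norm_real, Real.norm_of_nonneg he'0.le, div_le_iff₀ he'0]
        rw [he']
        linarith
      · have h1 : (e' : ℂ) * (x / e') = x := by
          have : (e' : ℂ) ≠ 0 := by exact_mod_cast he'0.ne'
          field_simp
        rw [h1, mul_zero, hψ0, hxa]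
        exact har)
  simp only [mul_zero, hψ0] at hcov'
  intro e he
  obtain ⟨x, hx, hxe⟩ := hcov' he
  simp only at hxe
  obtain ⟨h1, h2⟩ := hball x hx
  obtain ⟨h3, h4, -⟩ := hψ _ h1
  refine ⟨k, χ ((e' : ℂ) * x), hL.hk, ?_, ?_⟩
  · rw [← hxe]; exact h3
  · rw [← hxe, h4]
    apply Real.exp_le_exp.2
    have h5 : ((e' : ℂ) * x).re ≤ ‖(e' : ℂ) * x‖ := re_le_norm _
    linarith

lemma compact_frontier {n : ℕ} (hn : 2 ≤ n) : IsCompact (frontier (MM n)) := by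
  have hMcomp : IsCompact (MM n) := by
    refine Metric.isCompact_of_isClosed_isBounded (MM_closed n) ?_
    refine (Metric.isBounded_iff_subset_closedBall (0 : ℂ)).2 ⟨2, fun x hx => ?_⟩
    rw [mem_closedBall_zero_iff]
    exact MM_two hn hx
  exact hMcomp.of_isClosed_subset isClosed_frontier (MM_closed n).frontier_subset

end LCS_

open LCS_ in
theorem p_LCS (hE : T_EXPAND) (hC : T_COV) (hF : T_FRO) (hBOT : T_BOT) (hLOG : T_LOG)
    (hGREEN : T_GREEN) : T_LCS := by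
  intro n C1 C3 hn hC1 hC3 H c ε hInf hε
  by_contra hcon
  push Not at hcon
  obtain ⟨ρ, hρ, hcov⟩ := hC (ε / 2) (by positivity)
  have hst : ∀ j : ℕ, ∃ r ∈ frontier (MM n), ∀ e ∈ Metric.ball r ρ, ∃ (k : ℕ) (z : ℂ), 1 ≤ k ∧
      (F n e)^[k] z = z ∧ ‖Rho n k e z‖ ≤ Real.exp (1 / ((j : ℝ) + 1)) := fun j =>
    step hF hn hC1 hC3 H hε hInf hcon hcov (by positivity)
  choose r hrf hr using hst
  obtain ⟨r₀, hr₀, φ, hφ, hlim⟩ := (compact_frontier hn).tendsto_subseq hrf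
  -- a point outside
  obtain ⟨e, heb, heM⟩ : ∃ e ∈ Metric.ball r₀ (ρ / 2), e ∉ MM n := by
    have h1 : r₀ ∈ closure (MM n)ᶜ := by
      rw [frontier_eq_closure_inter_closure] at hr₀
      exact hr₀.2
    obtain ⟨e, he, hd⟩ := Metric.mem_closure_iff.1 h1 (ρ / 2) (by positivity)
    exact ⟨e, by rw [Metric.mem_ball, dist_comm]; exact hd, he⟩
  obtain ⟨Λ, hΛ⟩ := hBOT n hn
  obtain ⟨lh, ls, hlog⟩ := hLOG n Λ hn hΛ
  obtain ⟨ζ, hζ⟩ := exists_crit hGREEN hn hΛ heM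
  obtain ⟨s, hs, hexp⟩ := hE n Λ lh ls e ζ hn hΛ hlog hζ
  have h1 : ∀ᶠ j in atTop, dist (r (φ j)) r₀ < ρ / 2 :=
    Metric.tendsto_nhds.1 hlim (ρ / 2) (by positivity)
  have h2 : ∀ᶠ j : ℕ in atTop, 1 / (((φ j : ℕ) : ℝ) + 1) < s :=
    (tendsto_one_div_add_atTop_nhds_zero_nat.comp hφ.tendsto_atTop).eventually
      (gt_mem_nhds hs)
  obtain ⟨j, hj1, hj2⟩ := (h1.and h2).exists
  have h3 : e ∈ Metric.ball (r (φ j)) ρ := by
    rw [Metric.mem_ball] at heb ⊢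
    calc dist e (r (φ j)) ≤ dist e r₀ + dist r₀ (r (φ j)) := dist_triangle _ _ _
      _ < ρ / 2 + ρ / 2 := by rw [dist_comm r₀]; linarith
      _ = ρ := by ring
  obtain ⟨k, z, hk, hz, hR⟩ := hr (φ j) e h3
  have h4 := (hexp k z hk hz).trans hR
  rw [Real.exp_le_exp] at h4
  have hkR : (1 : ℝ) ≤ k := by exact_mod_cast hk
  have h5 : s ≤ s * k := by nlinarith
  linarith

end Pool.Agent.PLim
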