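import Pool.Agent.PLim.Targets

/-!
# PLIM-FINF: finitely many parameters with a multiplier one
-/

set_option autoImplicit false

open Complex Filter Topology Set MeasureTheory
open Pool.Agent.Multibrot Pool.Agent.Limb

namespace Pool.Agent.PLim

namespace FINF_

lemma natDegree_FPol (n : ℕ) (c : ℂ) : ∀ k : ℕ, (FPol n c k).natDegree = n ^ k
  | 0 => by
    show (Polynomial.X : Polynomial ℂ).natDegree = n ^ 0
    rw [Polynomial.natDegree_X, pow_zero]
  | k + 1 => by
    show (FPol n c k ^ n + Polynomial.C c).natDegree = n ^ (k + 1)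
    rw [Polynomial.natDegree_add_C, Polynomial.natDegree_pow, natDegree_FPol n c k, pow_succ,
      mul_comm]

lemma eval_FPol (n : ℕ) (c z : ℂ) : ∀ k : ℕ, (FPol n c k).eval z = (F n c)^[k] z
  | 0 => by
    show (Polynomial.X : Polynomial ℂ).eval z = z
    rw [Polynomial.eval_X]
  | k + 1 => by
    show (FPol n c k ^ n + Polynomial.C c).eval z = (F n c)^[k + 1] z
    rw [Polynomial.eval_add, Polynomial.eval_pow, Polynomial.eval_C, eval_FPol n c z k,
      Function.iterate_succ_apply']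
    rfl

lemma FPol_sub_ne (n k : ℕ) (c : ℂ) (hn : 2 ≤ n) (hk : 1 ≤ k) : FPol n c k - Polynomial.X ≠ 0 := by
  intro h
  have h1 : FPol n c k = Polynomial.X := sub_eq_zero.1 h
  have h2 := natDegree_FPol n c k
  rw [h1, Polynomial.natDegree_X] at h2
  have h3 : 1 < n ^ k := Nat.one_lt_pow (by omega) (by omega)
  omega

lemma mem_roots (n k : ℕ) (c z : ℂ) (hn : 2 ≤ n) (hk : 1 ≤ k) :
    z ∈ (FPol n c k - Polynomial.X).roots ↔ (F n c)^[k] z = z := by
  rw [Polynomial.mem_roots (FPol_sub_ne n k c hn hk), Polynomial.IsRoot.def, Polynomial.eval_sub,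
    Polynomial.eval_X, eval_FPol, sub_eq_zero]

end FINF_

theorem p_FINF (hMP : T_MP) : T_FINF := by
  intro n m hn hm
  obtain ⟨P, hP0, -, hP⟩ := hMP n m 1 hn hm
  refine Set.Finite.subset (P.roots.toFinset.finite_toSet) ?_
  rintro c ⟨z, hz, hr⟩
  rw [Finset.mem_coe, Multiset.mem_toFinset, Polynomial.mem_roots hP0, Polynomial.IsRoot.def, hP c]
  apply Multiset.prod_eq_zero
  rw [Multiset.mem_map]
  refine ⟨z, (FINF_.mem_roots n m c z hn hm).2 hz, ?_⟩
  rw [hr, sub_self]

end Pool.Agent.PLim
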