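import Pool.Agent.PLim.Targets3
import Pool.Agent.PLim.FINF

/-!
# PLIM: NEXT, one step of the construction
-/

set_option autoImplicit false

open Complex Filter Topology Set
open Pool.Agent.Multibrot Pool.Agent.Limb

namespace Pool.Agent.PLim

namespace NEXT_

/-- the candidate multipliers -/
noncomputable def uu (j : ℕ) : ℂ := exp (2 * Real.pi * I * (j : ℕ) / ((3 * j + 1 : ℕ) : ℂ))

lemma uu_inj {i j : ℕ} (hij : uu i = uu j) : i = j := by
  unfold uu at hij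
  rw [Complex.exp_eq_exp_iff_exists_int] at hij
  obtain ⟨m, hm⟩ := hij
  have hpi : (2 * (Real.pi : ℂ) * I) ≠ 0 := Complex.two_pi_I_ne_zero
  have h1 : (i : ℂ) / ((3 * i + 1 : ℕ) : ℂ) = (j : ℂ) / ((3 * j + 1 : ℕ) : ℂ) + m := by
    apply mul_left_cancel₀ hpi
    linear_combination hm
  have h2 : (i : ℝ) / ((3 * i + 1 : ℕ) : ℝ) = (j : ℝ) / ((3 * j + 1 : ℕ) : ℝ) + m := by
    have h3 : (((i : ℝ) / ((3 * i + 1 : ℕ) : ℝ) : ℝ) : ℂ) =
        (((j : ℝ) / ((3 * j + 1 : ℕ) : ℝ) + m : ℝ) : ℂ) := by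
      push_cast
      push_cast at h1
      exact h1
    exact_mod_cast Complex.ofReal_injective h3
  have hb : ∀ a : ℕ, 0 ≤ (a : ℝ) / ((3 * a + 1 : ℕ) : ℝ) ∧ (a : ℝ) / ((3 * a + 1 : ℕ) : ℝ) < 1 := by
    intro a
    have h3 : (0 : ℝ) < ((3 * a + 1 : ℕ) : ℝ) := by positivity
    refine ⟨by positivity, ?_⟩
    rw [div_lt_one h3]
    push_cast
    have : (0 : ℝ) ≤ a := Nat.cast_nonneg a
    linarith
  obtain ⟨hi1, hi2⟩ := hb i
  obtain ⟨hj1, hj2⟩ := hb j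
  have hm0 : m = 0 := by
    have h3 : (m : ℝ) < 1 := by linarith
    have h4 : (-1 : ℝ) < m := by linarith
    have h5 : m < 1 := by exact_mod_cast h3
    have h6 : -1 < m := by exact_mod_cast h4
    omega
  rw [hm0, Int.cast_zero, add_zero, div_eq_div_iff (by positivity) (by positivity)] at h2
  have h3 : i * (3 * j + 1) = j * (3 * i + 1) := by exact_mod_cast h2
  nlinarith

lemma uu_norm (j : ℕ) : ‖uu j‖ = 1 := by
  unfold uu
  have h : (2 * Real.pi * I * (j : ℕ) / ((3 * j + 1 : ℕ) : ℂ)) =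
      ((2 * Real.pi * j / ((3 * j + 1 : ℕ) : ℝ) : ℝ) : ℂ) * I := by
    push_cast
    ring
  rw [h, Complex.norm_exp_ofReal_mul_I]

lemma fin_rho (n k : ℕ) (r : ℂ) (hn : 2 ≤ n) (hk : 1 ≤ k) :
    {u : ℂ | ∃ z : ℂ, (F n r)^[k] z = z ∧ Rho n k r z = u}.Finite := by
  classical
  refine ((FPol n r k - Polynomial.X).roots.toFinset.finite_toSet.image
    (fun z => Rho n k r z)).subset ?_
  rintro u ⟨z, hz, rfl⟩
  refine ⟨z, ?_, rfl⟩
  rw [Finset.mem_coe, Multiset.mem_toFinset]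
  exact (FINF_.mem_roots n k r z hn hk).2 hz

end NEXT_

open NEXT_ in
theorem p_NEXT (h1 : T_BDV) (h2 : T_LNE) (h3 : T_NEST) : T_NEXT := by
  intro n k r A c1 z1 B hn hk hP hc1 hz1 hr1
  obtain ⟨q₁, hq₁⟩ := h2 n k hn hk
  set J0 : ℕ := max (max 1 q₁) ⌈4 * |B| * (k : ℝ) ^ 2⌉₊ with hJ0
  have hinf : (uu '' {j : ℕ | J0 ≤ j}).Infinite := by
    refine Set.Infinite.image ?_ (Set.Ici_infinite J0)
    intro i _ j _ h
    exact uu_inj h
  obtain ⟨u, ⟨j, hj, rfl⟩, hu⟩ := hinf.exists_notMem_finite (fin_rho n k r hn hk)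
  have hj' : J0 ≤ j := hj
  have hj1 : 1 ≤ j := le_trans (le_trans (le_max_left _ _) (le_max_left _ _)) hj'
  have hjq : q₁ ≤ j := le_trans (le_trans (le_max_right _ _) (le_max_left _ _)) hj'
  have hjB : 4 * |B| * (k : ℝ) ^ 2 ≤ j :=
    (Nat.le_ceil _).trans (by exact_mod_cast le_trans (le_max_right _ _) hj')
  obtain ⟨r', z', hr', hz', hrho⟩ := h1 n k r A c1 z1 (uu j) hn hk hP hc1 hz1 hr1 (uu_norm j)
  have hne : r' ≠ r := by
    rintro rfl
    exact hu ⟨z', hz', hrho⟩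
  have hr'A : r' ∈ A := by
    rcases hr' with h | h
    · exact absurd h hne
    · exact h
  have hcop : j.Coprime (3 * j + 1) := by
    simp
  obtain ⟨A', hA', c, z, hc, hz, hcz⟩ := hq₁ j (3 * j + 1) r' z' (by omega) (by omega) (by omega)
    hcop (by omega) (by omega) hz' hrho
  refine ⟨j, 3 * j + 1, r', z', A', hA', h3 n k j (3 * j + 1) r r' z' A A' hn hP hA' hr'A hne,
    hr'A, ?_, c, z, hc, hz, hcz⟩
  have hmin : min j (3 * j + 1 - j) = j := by omega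
  rw [hmin]
  have hj0 : (1 : ℝ) ≤ j := by exact_mod_cast hj1
  have hk2 : (0 : ℝ) ≤ (k : ℝ) ^ 2 := by positivity
  push_cast
  calc B * (3 * (j : ℝ) + 1) * (k : ℝ) ^ 2 ≤ |B| * (3 * (j : ℝ) + 1) * (k : ℝ) ^ 2 := by
        gcongr
        exact le_abs_self B
    _ ≤ |B| * (4 * (j : ℝ)) * (k : ℝ) ^ 2 := by
        gcongr
        linarith
    _ = (4 * |B| * (k : ℝ) ^ 2) * j := by ring
    _ ≤ j * j := by gcongr
    _ = (j : ℝ) ^ 2 := by ring

end Pool.Agent.PLim
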