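import Pool.Agent.PLim.Targets

/-!
# PLIM: ZX
-/

set_option autoImplicit false

open Complex Filter Topology Set MeasureTheory
open Pool.Agent.Multibrot Pool.Agent.Limb

namespace Pool.Agent.PLim

namespace ZX

theorem diff_iter (n k : ℕ) (c : ℂ) : Differentiable ℂ ((F n c)^[k]) := by
  induction k with
  | zero => exact differentiable_id
  | succ k ih =>
    rw [Function.iterate_succ]
    refine ih.comp ?_
    unfold F
    exact (differentiable_id.pow n).add_const c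

theorem rho_succ (n k : ℕ) (c z : ℂ) :
    Rho n (k + 1) c z = Rho n k c (F n c z) * (n * z ^ (n - 1)) := by
  unfold Rho
  rw [Function.iterate_succ]
  have hF : HasDerivAt (F n c) (n * z ^ (n - 1)) z := by
    unfold F
    simpa using (hasDerivAt_pow n z).add_const c
  exact ((diff_iter n k c (F n c z)).hasDerivAt.comp z hF).deriv

theorem cont_F (n : ℕ) : Continuous (fun q : ℂ × ℂ => F n q.1 q.2) := by
  unfold F
  exact (continuous_snd.pow n).add continuous_fst

theorem cont_rho (n k : ℕ) : Continuous (fun q : ℂ × ℂ => Rho n k q.1 q.2) := by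
  induction k with
  | zero =>
    have : (fun q : ℂ × ℂ => Rho n 0 q.1 q.2) = fun _ => 1 := by
      funext q
      simp [Rho]
    rw [this]
    exact continuous_const
  | succ k ih =>
    have : (fun q : ℂ × ℂ => Rho n (k + 1) q.1 q.2) =
        fun q : ℂ × ℂ => Rho n k q.1 (F n q.1 q.2) * (n * q.2 ^ (n - 1)) := by
      funext q
      exact rho_succ n k q.1 q.2
    rw [this]
    exact (ih.comp (continuous_fst.prodMk (cont_F n))).mul
      (continuous_const.mul (continuous_snd.pow _))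

theorem log_bound : Real.log 16 + Real.log 17 ≤ 6 := by
  rw [← Real.log_mul (by norm_num) (by norm_num), Real.log_le_iff_le_exp (by norm_num)]
  have h1 : (2.7 : ℝ) ≤ Real.exp 1 := by linarith [Real.exp_one_gt_d9]
  have h2 : Real.exp 6 = Real.exp 1 ^ 6 := by
    rw [← Real.exp_nat_mul]
    norm_num
  rw [h2]
  calc (16 * 17 : ℝ) ≤ 2.7 ^ 6 := by norm_num
    _ ≤ Real.exp 1 ^ 6 := pow_le_pow_left₀ (by norm_num) h1 6

end ZX

theorem p_ZX (hDX : T_DX) (hRI : T_RI) (hPAR : T_PAR) (hSECAN : T_SECAN) (hFIXE : T_FIXE)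
    (hGREEN : T_GREEN) : T_ZX := by
  intro n hn
  obtain ⟨C, hC, hDX'⟩ := hDX n hn
  refine ⟨C, hC, ?_⟩
  intro k Λ lh ls c ζ z ε hk hB hL hcr hc16 hper hfix hdig hint
  obtain ⟨Cp, hCp⟩ := hPAR n Λ hn hB
  obtain ⟨hCpd, hCpc, hCpu⟩ := hCp
  obtain ⟨hζ0, hcCp⟩ := hCpu c ζ hcr
  obtain ⟨zz, hzzd, hzz⟩ := hSECAN n k Λ lh ls Cp ε hn hk hB hL ⟨hCpd, hCpc, hCpu⟩ hper
  -- the fixed point is the section
  have hzeq : z = zz ζ := by
    obtain ⟨h1, -⟩ := hFIXE n k Λ lh ls c ζ hn hk hB hL hcr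
    obtain ⟨z1, -, -, hu⟩ := h1 ε hper
    obtain ⟨h2, h3⟩ := hzz ζ hζ0
    rw [← hcCp] at h2 h3
    rw [hu z hfix hdig, hu (zz ζ) h2 h3]
  -- bound for the potential
  have hζ6 : ζ.re ≤ 6 := by
    obtain ⟨-, -, -, hG, -⟩ := hGREEN n hn
    have h1 := (abs_le.1 (hG c c)).2
    have h2 : Real.posLog ‖c‖ ≤ Real.log 16 := by
      rw [Real.posLog_def]
      refine max_le (Real.log_nonneg (by norm_num)) ?_
      rcases eq_or_lt_of_le (norm_nonneg c) with h | h
      · rw [← h]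
        change Real.log 0 ≤ Real.log 16
        rw [Real.log_zero]
        exact Real.log_nonneg (by norm_num)
      · exact Real.log_le_log h hc16
    have h3 : Real.log (1 + ‖c‖) ≤ Real.log 17 :=
      Real.log_le_log (by positivity) (by linarith)
    rw [hcr.2.1]
    linarith [ZX.log_bound]
  -- the approximating sequence
  have hseq : ∀ j : ℕ, ∃ θ' α : ℝ, |θ' - ζ.im / (2 * Real.pi)| < 1 / ((j : ℝ) + 1) ∧
      Ex n k 1 α ∧ Cod n θ' α ε := fun j =>
    hRI n k (ζ.im / (2 * Real.pi)) ε hn hk hper hint _ (by positivity)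
  choose θ α hθ hEx hCod using hseq
  have hθlim : Tendsto θ atTop (𝓝 (ζ.im / (2 * Real.pi))) := by
    rw [tendsto_iff_dist_tendsto_zero]
    refine squeeze_zero (fun _ => dist_nonneg) (fun j => ?_) tendsto_one_div_add_atTop_nhds_zero_nat
    rw [Real.dist_eq]
    exact (hθ j).le
  set w : ℕ → ℂ := fun j => (ζ.re : ℂ) + ((2 * Real.pi * θ j : ℝ) : ℂ) * I with hw
  have hwre : ∀ j, (w j).re = ζ.re := fun j => by simp [hw]
  have hwim : ∀ j, (w j).im = 2 * Real.pi * θ j := fun j => by simp [hw]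
  have hwlim : Tendsto w atTop (𝓝 ζ) := by
    have h1 : Tendsto (fun j => 2 * Real.pi * θ j) atTop (𝓝 ζ.im) := by
      have := hθlim.const_mul (2 * Real.pi)
      rwa [mul_div_cancel₀ _ (by positivity : (2 * Real.pi : ℝ) ≠ 0)] at this
    have h2 : Tendsto w atTop (𝓝 ((ζ.re : ℂ) + (ζ.im : ℂ) * I)) := by
      refine tendsto_const_nhds.add (Tendsto.mul_const I ?_)
      exact (continuous_ofReal.tendsto _).comp h1
    rwa [re_add_im] at h2
  have hμ : ∀ j, ∃ μ : ℂ, exp μ = Rho n k (Cp (w j)) (zz (w j)) ∧ ‖μ‖ ^ 2 ≤ C * k * μ.re := by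
    intro j
    have hwpos : 0 < (w j).re := by rw [hwre]; exact hζ0
    obtain ⟨h1, h2⟩ := hzz (w j) hwpos
    refine hDX' k Λ lh ls (Cp (w j)) (w j) (zz (w j)) (α j) ε hk hB hL (hCpc (w j) hwpos)
      (by rw [hwre]; exact hζ6) (hEx j) ?_ hper h1 h2
    rw [hwim, mul_div_cancel_left₀ _ (by positivity : (2 * Real.pi : ℝ) ≠ 0)]
    exact hCod j
  choose μ hμe hμb using hμ
  have hCk : 0 < C * k := mul_pos hC (by exact_mod_cast hk)
  have hμball : ∀ j, μ j ∈ Metric.closedBall (0 : ℂ) (C * k) := by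
    intro j
    rw [mem_closedBall_zero_iff]
    have h1 := hμb j
    have h2 : (μ j).re ≤ ‖μ j‖ := re_le_norm _
    by_contra hc'
    push Not at hc'
    have h3 : C * k * (μ j).re ≤ C * k * ‖μ j‖ := mul_le_mul_of_nonneg_left h2 hCk.le
    have h4 : C * k * ‖μ j‖ < ‖μ j‖ * ‖μ j‖ := mul_lt_mul_of_pos_right hc' (hCk.trans hc')
    nlinarith
  obtain ⟨μ0, -, φ, hφ, hφlim⟩ := (isCompact_closedBall (0 : ℂ) (C * k)).tendsto_subseq hμball
  refine ⟨μ0, ?_, ?_⟩
  · have h1 : Tendsto (fun j => exp (μ (φ j))) atTop (𝓝 (exp μ0)) :=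
      (continuous_exp.tendsto μ0).comp hφlim
    have hopen : IsOpen {ξ : ℂ | 0 < ξ.re} := isOpen_lt continuous_const continuous_re
    have hc1 : ContinuousAt Cp ζ := (hCpd.differentiableAt (hopen.mem_nhds hζ0)).continuousAt
    have hc2 : ContinuousAt zz ζ := (hzzd.differentiableAt (hopen.mem_nhds hζ0)).continuousAt
    have h2 : Tendsto (fun j => Rho n k (Cp (w (φ j))) (zz (w (φ j)))) atTop
        (𝓝 (Rho n k (Cp ζ) (zz ζ))) := by
      have h3 : ContinuousAt (fun ξ => Rho n k (Cp ξ) (zz ξ)) ζ :=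
        (ZX.cont_rho n k).continuousAt.comp (f := fun ξ => (Cp ξ, zz ξ)) (hc1.prodMk hc2)
      exact h3.tendsto.comp (hwlim.comp hφ.tendsto_atTop)
    have h4 : (fun j => exp (μ (φ j))) = fun j => Rho n k (Cp (w (φ j))) (zz (w (φ j))) := by
      funext j
      exact hμe (φ j)
    rw [h4] at h1
    rw [tendsto_nhds_unique h1 h2, ← hcCp, ← hzeq]
  · have h1 : Tendsto (fun j => ‖μ (φ j)‖ ^ 2) atTop (𝓝 (‖μ0‖ ^ 2)) := (hφlim.norm).pow 2
    have h2 : Tendsto (fun j => C * k * (μ (φ j)).re) atTop (𝓝 (C * k * μ0.re)) :=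
      ((continuous_re.tendsto μ0).comp hφlim).const_mul _
    exact le_of_tendsto_of_tendsto' h1 h2 fun j => hμb (φ j)

end Pool.Agent.PLim
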