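import Pool.Agent.PLim.Targets4
import Pool.Agent.PLim.NEXT
import Pool.Agent.PLim.ATTR
import Pool.Agent.PLim.ZX

/-!
# PLIM: NEXT2, one step of the construction, avoiding a point
-/

set_option autoImplicit false

open Complex Filter Topology Set
open Pool.Agent.Multibrot Pool.Agent.Limb

namespace Pool.Agent.PLim

namespace NEXT2_

open NEXT_

lemma cont_iter (n k : ℕ) : Continuous (fun q : ℂ × ℂ => (F n q.1)^[k] q.2) := by
  induction k with
  | zero =>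
    simp only [Function.iterate_zero, id_eq]
    exact continuous_snd
  | succ k ih =>
    have : (fun q : ℂ × ℂ => (F n q.1)^[k + 1] q.2) =
        (fun q : ℂ × ℂ => (F n q.1)^[k] q.2) ∘ (fun q : ℂ × ℂ => (q.1, F n q.1 q.2)) := by
      funext q
      simp only [Function.comp, Function.iterate_succ]
    rw [this]
    exact ih.comp (continuous_fst.prodMk (ZX.cont_F n))

lemma fix_le {n k : ℕ} (hn : 2 ≤ n) (hk : 1 ≤ k) {c z : ℂ} (hz : (F n c)^[k] z = z) :
    ‖z‖ ≤ 2 + ‖c‖ := by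
  by_contra hcon
  push Not at hcon
  have h1 := ATTR_.escape hn hcon k
  rw [hz] at h1
  have h2 : (2 : ℝ) ≤ 2 ^ k := by
    calc (2 : ℝ) = 2 ^ 1 := by norm_num
      _ ≤ 2 ^ k := pow_le_pow_right₀ (by norm_num) hk
  have h3 : 0 < ‖z‖ := by linarith [norm_nonneg c]
  nlinarith

/-- the candidate limits of the multipliers -/
noncomputable def ww (N : ℕ) : ℂ := exp (2 * Real.pi * I / (N : ℂ))

/-- the candidate multipliers -/
noncomputable def vv (N j : ℕ) : ℂ := exp (2 * Real.pi * I * (j : ℕ) / ((N * j + 1 : ℕ) : ℂ))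

lemma ww_inj {a b : ℕ} (ha : 2 ≤ a) (hb : 2 ≤ b) (h : ww a = ww b) : a = b := by
  unfold ww at h
  rw [Complex.exp_eq_exp_iff_exists_int] at h
  obtain ⟨m, hm⟩ := h
  have hpi : (2 * (Real.pi : ℂ) * I) ≠ 0 := Complex.two_pi_I_ne_zero
  have h1 : (1 : ℂ) / (a : ℂ) = 1 / (b : ℂ) + m := by
    apply mul_left_cancel₀ hpi
    linear_combination hm
  have h2 : (1 : ℝ) / (a : ℝ) = 1 / (b : ℝ) + m := by
    have h3 : (((1 : ℝ) / (a : ℝ) : ℝ) : ℂ) = (((1 : ℝ) / (b : ℝ) + m : ℝ) : ℂ) := by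
      push_cast
      exact h1
    exact_mod_cast Complex.ofReal_injective h3
  have hbd : ∀ d : ℕ, 2 ≤ d → 0 < (1 : ℝ) / (d : ℝ) ∧ (1 : ℝ) / (d : ℝ) < 1 := by
    intro d hd
    have h3 : (2 : ℝ) ≤ d := by exact_mod_cast hd
    refine ⟨by positivity, ?_⟩
    rw [div_lt_one (by linarith)]
    linarith
  obtain ⟨a1, a2⟩ := hbd a ha
  obtain ⟨b1, b2⟩ := hbd b hb
  have hm0 : m = 0 := by
    have h3 : (m : ℝ) < 1 := by linarith
    have h4 : (-1 : ℝ) < m := by linarith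
    have h5 : m < 1 := by exact_mod_cast h3
    have h6 : -1 < m := by exact_mod_cast h4
    omega
  have ha0 : (a : ℝ) ≠ 0 := by
    have : (2 : ℝ) ≤ a := by exact_mod_cast ha
    linarith
  have hb0 : (b : ℝ) ≠ 0 := by
    have : (2 : ℝ) ≤ b := by exact_mod_cast hb
    linarith
  rw [hm0, Int.cast_zero, add_zero, div_eq_div_iff ha0 hb0, one_mul, one_mul] at h2
  exact_mod_cast h2.symm

lemma vv_norm (N j : ℕ) : ‖vv N j‖ = 1 := by
  unfold vv
  have h : (2 * Real.pi * I * (j : ℕ) / ((N * j + 1 : ℕ) : ℂ)) =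
      ((2 * Real.pi * j / ((N * j + 1 : ℕ) : ℝ) : ℝ) : ℂ) * I := by
    push_cast
    ring
  rw [h, Complex.norm_exp_ofReal_mul_I]

lemma vv_lim {N : ℕ} (hN : 1 ≤ N) : Tendsto (fun j : ℕ => vv N j) atTop (𝓝 (ww N)) := by
  have hN0 : (N : ℂ) ≠ 0 := by
    have : N ≠ 0 := by omega
    exact_mod_cast this
  have h1 : Tendsto (fun j : ℕ => (1 : ℂ) / ((N * j + 1 : ℕ) : ℂ)) atTop (𝓝 0) := by
    have h2 : Tendsto (fun j : ℕ => (1 : ℂ) / (j : ℂ)) atTop (𝓝 0) := by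
      exact tendsto_const_div_atTop_nhds_zero_nat (1 : ℂ)
    have h3 : Tendsto (fun j : ℕ => N * j + 1) atTop atTop := by
      apply tendsto_atTop_mono (fun j => ?_) tendsto_id
      simp only [id_eq]
      nlinarith
    exact h2.comp h3
  have h2 : Tendsto (fun j : ℕ => exp (2 * Real.pi * I / (N : ℂ) *
      (1 - (1 : ℂ) / ((N * j + 1 : ℕ) : ℂ)))) atTop
      (𝓝 (exp (2 * Real.pi * I / (N : ℂ) * (1 - 0)))) := by
    apply (Complex.continuous_exp.tendsto _).comp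
    exact (tendsto_const_nhds.sub h1).const_mul _
  rw [sub_zero, mul_one] at h2
  refine h2.congr fun j => ?_
  unfold vv
  congr 1
  have h3 : (((N * j + 1 : ℕ) : ℂ)) ≠ 0 := Nat.cast_ne_zero.2 (Nat.succ_ne_zero (N * j))
  field_simp
  push_cast
  ring

/-- the parameters stay away from `a` -/
lemma away (n k : ℕ) (hn : 2 ≤ n) (hk : 1 ≤ k) (a : ℂ) {N : ℕ} (hN : 1 ≤ N)
    (ha : ww N ∉ {u : ℂ | ∃ z : ℂ, (F n a)^[k] z = z ∧ Rho n k a z = u}) :
    ∃ d : ℝ, 0 < d ∧ ∃ j₀ : ℕ, ∀ j, j₀ ≤ j → ∀ r z : ℂ, (F n r)^[k] z = z →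
      Rho n k r z = vv N j → d ≤ ‖r - a‖ := by
  by_contra hcon
  push Not at hcon
  have h1 : ∀ i : ℕ, ∃ j, i ≤ j ∧ ∃ r z : ℂ, (F n r)^[k] z = z ∧ Rho n k r z = vv N j ∧
      ‖r - a‖ < 1 / ((i : ℝ) + 1) := fun i => hcon _ (by positivity) i
  choose j hj r z hz hR hr using h1
  have hlim : Tendsto (fun i => r i) atTop (𝓝 a) := by
    rw [tendsto_iff_norm_sub_tendsto_zero]
    exact squeeze_zero (fun i => norm_nonneg _) (fun i => (hr i).le)
      tendsto_one_div_add_atTop_nhds_zero_nat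
  have hzb : ∀ i, z i ∈ Metric.closedBall (0 : ℂ) (2 + (‖a‖ + 1)) := by
    intro i
    rw [mem_closedBall_zero_iff]
    refine (fix_le hn hk (hz i)).trans ?_
    have h2 : ‖r i‖ ≤ ‖a‖ + ‖r i - a‖ := by
      calc ‖r i‖ = ‖a + (r i - a)‖ := by congr 1; ring
        _ ≤ ‖a‖ + ‖r i - a‖ := norm_add_le _ _
    have h3 : 1 / ((i : ℝ) + 1) ≤ 1 := by
      rw [div_le_one (by positivity)]
      have : (0 : ℝ) ≤ i := Nat.cast_nonneg i
      linarith
    have := hr i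
    linarith
  obtain ⟨z₀, -, φ, hφ, hzl⟩ := (isCompact_closedBall (0 : ℂ) _).tendsto_subseq hzb
  have hpair : Tendsto (fun i => (r (φ i), z (φ i))) atTop (𝓝 (a, z₀)) :=
    (hlim.comp hφ.tendsto_atTop).prodMk_nhds hzl
  apply ha
  refine ⟨z₀, ?_, ?_⟩
  · have h2 := ((cont_iter n k).tendsto (a, z₀)).comp hpair
    have h3 : Tendsto (fun i => z (φ i)) atTop (𝓝 ((F n a)^[k] z₀)) := by
      refine h2.congr fun i => ?_
      simp only [Function.comp]
      exact hz (φ i)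
    exact tendsto_nhds_unique h3 hzl
  · have h2 := ((ZX.cont_rho n k).tendsto (a, z₀)).comp hpair
    have h3 : Tendsto (fun i => vv N (j (φ i))) atTop (𝓝 (Rho n k a z₀)) := by
      refine h2.congr fun i => ?_
      simp only [Function.comp]
      exact hR (φ i)
    have h4 : Tendsto (fun i => j (φ i)) atTop atTop :=
      tendsto_atTop_mono (fun i => hj (φ i)) hφ.tendsto_atTop
    exact tendsto_nhds_unique h3 ((vv_lim hN).comp h4)

/-- `j ^ 2` is large compared with `N j + 1` -/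
lemma big (K : ℝ) (N : ℕ) : ∃ j₁ : ℕ, ∀ j, j₁ ≤ j → K * ((N * j + 1 : ℕ) : ℝ) < (j : ℝ) ^ 2 := by
  obtain ⟨m, hm⟩ := exists_nat_gt (|K| * (N + 1) + 1)
  refine ⟨m, fun j hj => ?_⟩
  have hmj : (m : ℝ) ≤ j := by exact_mod_cast hj
  have hK := abs_nonneg K
  have hN : (0 : ℝ) ≤ N := Nat.cast_nonneg N
  have hpos : 0 ≤ |K| * ((N : ℝ) + 1) := by positivity
  have hj1 : (1 : ℝ) ≤ j := by linarith
  push_cast
  calc K * ((N : ℝ) * j + 1) ≤ |K| * ((N : ℝ) * j + 1) := by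
        gcongr
        exact le_abs_self K
    _ ≤ |K| * (((N : ℝ) + 1) * j) := by
        gcongr
        nlinarith
    _ = (|K| * ((N : ℝ) + 1)) * j := by ring
    _ < (j : ℝ) * j := by
        apply mul_lt_mul_of_pos_right _ (by linarith)
        linarith
    _ = (j : ℝ) ^ 2 := by ring

end NEXT2_

open NEXT_ NEXT2_ in
theorem p_NEXT2 (h1 : T_BDV) (h2 : T_LNE2) (h3 : T_NEST) (h4 : T_LIMB) : T_NEXT2 := by
  intro n k r s A c1 z1 B hn hk hP hc1 hz1 hr1
  obtain ⟨B', -, hB'⟩ := h2 n hn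
  obtain ⟨C, -, hC⟩ := h4 n hn
  -- the limit multiplier
  have hinf : (ww '' {N : ℕ | 3 ≤ N}).Infinite := by
    refine Set.Infinite.image ?_ (Set.Ici_infinite 3)
    intro a ha b hb h
    have ha' : 3 ≤ a := ha
    have hb' : 3 ≤ b := hb
    exact ww_inj (by omega) (by omega) h
  obtain ⟨w, ⟨N, hN, rfl⟩, hw⟩ :=
    hinf.exists_notMem_finite ((fin_rho n k r hn hk).union (fin_rho n k s hn hk))
  have hN3 : 3 ≤ N := hN
  rw [Set.mem_union, not_or] at hw
  obtain ⟨d1, hd1, j1, hj1⟩ := away n k hn hk r (by omega : 1 ≤ N) hw.1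
  obtain ⟨d2, hd2, j2, hj2⟩ := away n k hn hk s (by omega : 1 ≤ N) hw.2
  obtain ⟨j3, hj3⟩ := big (B * (k : ℝ) ^ 2) N
  obtain ⟨j4, hj4⟩ := big (B' * (k : ℝ) ^ 2) N
  obtain ⟨j5, hj5⟩ := big (C * (k : ℝ) ^ 2 / d2) N
  set j : ℕ := 1 + j1 + j2 + j3 + j4 + j5 with hjdef
  obtain ⟨r', z', hr', hz', hrho⟩ := h1 n k r A c1 z1 (vv N j) hn hk hP hc1 hz1 hr1 (vv_norm N j)
  have hne : r' ≠ r := by
    rintro rfl
    have := hj1 j (by omega) r' z' hz' hrho
    rw [sub_self, norm_zero] at this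
    linarith
  have hrs := hj2 j (by omega) r' z' hz' hrho
  have hr'A : r' ∈ A := by
    rcases hr' with h | h
    · exact absurd h hne
    · exact h
  have hcop : j.Coprime (N * j + 1) := by
    simp
  have hlt : j < N * j + 1 := by nlinarith
  have hmin : min j (N * j + 1 - j) = j := by
    apply min_eq_left
    have : 3 * j ≤ N * j := Nat.mul_le_mul_right j hN3
    omega
  obtain ⟨A', hA', c, z, hc, hz, hcz⟩ := hB' k j (N * j + 1) r' z' hk (by omega) hlt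
    hcop hz' hrho (by rw [hmin]; exact hj4 j (by omega))
  refine ⟨j, N * j + 1, r', z', A', hA', h3 n k j (N * j + 1) r r' z' A A' hn hP hA' hr'A hne,
    hr'A, ?_, ?_, c, z, hc, hz, hcz⟩
  · rintro (h | h)
    · rw [h, sub_self, norm_zero] at hrs
      linarith
    · have h5 := (hC k j (N * j + 1) r' z' A' hk (by omega) hlt hcop hz' hrho hA'.sub hA'.op
        hA'.cl hA'.nr hA'.n0).2 s h
      rw [hmin] at h5
      have h6 := hj5 j (by omega)
      have h7 : d2 * (j : ℝ) ^ 2 ≤ ‖s - r'‖ * (j : ℝ) ^ 2 := by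
        rw [norm_sub_rev]
        gcongr
      have h8 : C * (k : ℝ) ^ 2 * ((N * j + 1 : ℕ) : ℝ) < d2 * (j : ℝ) ^ 2 := by
        have h9 := mul_lt_mul_of_pos_left h6 hd2
        calc C * (k : ℝ) ^ 2 * ((N * j + 1 : ℕ) : ℝ)
            = d2 * (C * (k : ℝ) ^ 2 / d2 * ((N * j + 1 : ℕ) : ℝ)) := by
              field_simp
          _ < d2 * (j : ℝ) ^ 2 := h9
      linarith
  · rw [hmin]
    exact hj3 j (by omega)

end Pool.Agent.PLim
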