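import Pool.Agent.PLim.Targets3

/-!
# PLIM: no attracting cycle at an indifferent parameter
-/

set_option autoImplicit false

open Complex Filter Topology Set
open Pool.Agent.Multibrot Pool.Agent.Limb

namespace Pool.Agent.PLim

namespace NOA_

lemma hasDerivAt_F (n : ℕ) (c z : ℂ) : HasDerivAt (F n c) (n * z ^ (n - 1)) z := by
  unfold F
  exact (hasDerivAt_pow n z).add_const c

lemma hasDerivAt_iter (n : ℕ) (c z : ℂ) (k : ℕ) :
    HasDerivAt ((F n c)^[k]) (∏ j ∈ Finset.range k, (n * ((F n c)^[j] z) ^ (n - 1))) z := by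
  induction k with
  | zero =>
    simp only [Function.iterate_zero, Finset.range_zero, Finset.prod_empty]
    exact hasDerivAt_id z
  | succ k ih =>
    rw [Function.iterate_succ', Finset.prod_range_succ, mul_comm]
    exact (hasDerivAt_F n c _).comp z ih

lemma rho_prod (n k : ℕ) (c z : ℂ) :
    Rho n k c z = ∏ j ∈ Finset.range k, (n * ((F n c)^[j] z) ^ (n - 1)) :=
  (hasDerivAt_iter n c z k).deriv

/-- the multiplier is constant along the cycle -/
lemma rho_shift {n k : ℕ} {c z : ℂ} (hk : 1 ≤ k) (hz : (F n c)^[k] z = z) :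
    Rho n k c (F n c z) = Rho n k c z := by
  obtain ⟨m, rfl⟩ : ∃ m, k = m + 1 := ⟨k - 1, by omega⟩
  rw [rho_prod, rho_prod, Finset.prod_range_succ, Finset.prod_range_succ']
  have h1 : ∀ j, (F n c)^[j] (F n c z) = (F n c)^[j + 1] z := fun j =>
    (Function.iterate_succ_apply (F n c) j z).symm
  simp only [h1, hz, Function.iterate_zero, id]

lemma rho_shift_iter {n k : ℕ} {c z : ℂ} (hk : 1 ≤ k) (hz : (F n c)^[k] z = z) (j : ℕ) :
    (F n c)^[k] ((F n c)^[j] z) = (F n c)^[j] z ∧
      Rho n k c ((F n c)^[j] z) = Rho n k c z := by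
  induction j with
  | zero => exact ⟨hz, rfl⟩
  | succ j ih =>
    rw [Function.iterate_succ_apply']
    constructor
    · rw [← Function.iterate_succ_apply, Function.iterate_succ_apply', ih.1]
    · rw [rho_shift hk ih.1, ih.2]

/-- the multiplier of a multiple of the period -/
lemma rho_mul {n k : ℕ} {c z : ℂ} (hz : (F n c)^[k] z = z) (m : ℕ) :
    Rho n (m * k) c z = Rho n k c z ^ m := by
  rw [rho_prod, rho_prod]
  have hper : ∀ m j : ℕ, (F n c)^[m * k + j] z = (F n c)^[j] z := by
    intro m
    induction m with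
    | zero =>
      intro j
      rw [zero_mul, zero_add]
    | succ m ih =>
      intro j
      rw [show (m + 1) * k + j = (m * k + j) + k by ring, Function.iterate_add_apply, hz, ih]
  induction m with
  | zero => rw [zero_mul, Finset.prod_range_zero, pow_zero]
  | succ m ih =>
    rw [add_mul, one_mul, Finset.prod_range_add, ih, pow_succ]
    congr 1
    exact Finset.prod_congr rfl fun j _ => by rw [hper]

end NOA_

open NOA_ in
theorem p_NOA (h : T_ATN) : T_NOA := by
  intro n k k' c z z' hn hk hk' hz hz' h1 h2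
  by_contra h3
  push Not at h3
  obtain ⟨j, hj⟩ := h n k k' c z z' hn hk hk' hz hz' h3 h1.le h2
  obtain ⟨h4, h5⟩ := rho_shift_iter hk hz j
  rw [hj] at h4 h5
  have h6 := rho_mul h4 k'
  have h7 := rho_mul hz' k
  rw [mul_comm k k', h6, h5] at h7
  have h8 : ‖Rho n k c z‖ ^ k' = 1 := by
    rw [← norm_pow, h7, norm_pow, h1, one_pow]
  have h9 : ‖Rho n k c z‖ ^ k' < 1 := pow_lt_one₀ (norm_nonneg _) h3 (by omega)
  linarith

end Pool.Agent.PLim
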