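import Pool.Agent.PLim.Targets3

/-!
# PLIM: the second derivative at a fixed point whose multiplier is a root of unity
-/

set_option autoImplicit false

open Complex Filter Topology Set MeasureTheory
open Pool.Agent.Multibrot Pool.Agent.Limb

namespace Pool.Agent.PLim

namespace SEC0_

lemma diffF (n k : ℕ) (c : ℂ) : Differentiable ℂ ((F n c)^[k]) := by
  have h : Differentiable ℂ (F n c) := by
    unfold F
    fun_prop
  exact h.iterate k

lemma diff_deriv {g : ℂ → ℂ} (hg : Differentiable ℂ g) : Differentiable ℂ (deriv g) :=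
  fun x => (hg.analyticAt x).deriv.differentiableAt

lemma deriv_comp_fun {f g : ℂ → ℂ} (hf : Differentiable ℂ f) (hg : Differentiable ℂ g) :
    deriv (fun x => f (g x)) = fun x => deriv f (g x) * deriv g x := by
  funext x
  exact ((hf (g x)).hasDerivAt.comp x (hg x).hasDerivAt).deriv

lemma deriv2_comp {f g : ℂ → ℂ} (hf : Differentiable ℂ f) (hg : Differentiable ℂ g) {z : ℂ}
    (hz : g z = z) : deriv (deriv (fun x => f (g x))) z =
      deriv (deriv f) z * deriv g z * deriv g z + deriv f z * deriv (deriv g) z := by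
  rw [deriv_comp_fun hf hg]
  have h1 : HasDerivAt (fun x => deriv f (g x)) (deriv (deriv f) (g z) * deriv g z) z :=
    ((diff_deriv hf) (g z)).hasDerivAt.comp z (hg z).hasDerivAt
  have h2 : HasDerivAt (deriv g) (deriv (deriv g) z) z := ((diff_deriv hg) z).hasDerivAt
  have h3 := (h1.mul h2).deriv
  rw [hz] at h3
  exact h3

/-- the derivative of an iterate at a fixed point -/
lemma deriv_iter {g : ℂ → ℂ} (hg : Differentiable ℂ g) {z : ℂ} (hz : g z = z) (m : ℕ) :
    deriv (g^[m]) z = deriv g z ^ m := by
  induction m with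
  | zero => simp
  | succ m ih =>
    have h1 : g^[m + 1] = fun x => g (g^[m] x) := by
      funext x
      rw [Function.iterate_succ_apply']
    rw [h1, deriv_comp_fun hg (hg.iterate m)]
    simp only
    rw [Function.iterate_fixed hz m, ih, pow_succ, mul_comm]

lemma second_deriv {G H : ℂ → ℂ} (hGd : Differentiable ℂ G) (hHd : Differentiable ℂ H) {z : ℂ}
    (hφ : ∀ x, G x - x = (x - z) * H x) : deriv (deriv G) z = 2 * deriv H z := by
  have hφ' : (fun x => G x - x) = fun x => (x - z) * H x := funext hφ
  have hd1 : deriv (fun x => G x - x) = fun x => deriv G x - 1 := by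
    funext x
    have h : HasDerivAt (fun x => G x - x) (deriv G x - 1) x :=
      (hGd x).hasDerivAt.sub (hasDerivAt_id x)
    exact h.deriv
  have hd2 : deriv (fun x => (x - z) * H x) = fun x => 1 * H x + (x - z) * deriv H x := by
    funext x
    have h : HasDerivAt (fun x => (x - z) * H x) (1 * H x + (x - z) * deriv H x) x :=
      ((hasDerivAt_id' x).sub_const z).mul (hHd x).hasDerivAt
    exact h.deriv
  have hd3 : deriv (fun x => deriv G x - 1) z = deriv (deriv G) z := by
    have h : HasDerivAt (fun x => deriv G x - 1) (deriv (deriv G) z) z :=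
      ((diff_deriv hGd) z).hasDerivAt.sub_const 1
    exact h.deriv
  have hd4 : deriv (fun x => 1 * H x + (x - z) * deriv H x) z =
      1 * deriv H z + (1 * deriv H z + (z - z) * deriv (deriv H) z) := by
    have h : HasDerivAt (fun x => 1 * H x + (x - z) * deriv H x)
        (1 * deriv H z + (1 * deriv H z + (z - z) * deriv (deriv H) z)) z :=
      ((hHd z).hasDerivAt.const_mul 1).add
        (((hasDerivAt_id' z).sub_const z).mul ((diff_deriv hHd) z).hasDerivAt)
    exact h.deriv
  have h5 : deriv (deriv (fun x => G x - x)) z = deriv (deriv (fun x => (x - z) * H x)) z := by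
    rw [hφ']
  rw [hd1, hd2, hd3, hd4] at h5
  rw [h5]
  ring

lemma slice {Φ : ℂ → ℂ → ℂ → ℂ} (h : ContDiff ℂ 1 (fun x : ℂ × ℂ × ℂ => Φ x.1 x.2.1 x.2.2))
    (c z : ℂ) : Differentiable ℂ (fun x => Φ c x z) := by
  have h3 : Differentiable ℂ (fun x : ℂ × ℂ × ℂ => Φ x.1 x.2.1 x.2.2) :=
    h.differentiable (by norm_num)
  have h4 : Differentiable ℂ (fun x : ℂ => ((c, x, z) : ℂ × ℂ × ℂ)) := by fun_prop
  exact h3.comp h4

end SEC0_

open SEC0_ in
theorem p_SEC0 (h : T_HHE) : T_SEC0 := by
  intro n k p q c z hn hk hp hpq hcop hz hrho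
  obtain ⟨hH1, -, hH3⟩ := h n (k * q) (by omega)
  set g : ℂ → ℂ := (F n c)^[k] with hg
  have hgd : Differentiable ℂ g := diffF n k c
  set G : ℂ → ℂ := (F n c)^[k * q] with hG
  have hGd : Differentiable ℂ G := diffF n (k * q) c
  have hGg : G = g^[q] := by
    rw [hG, hg, ← Function.iterate_mul]
  have hGz : G z = z := by
    rw [hGg]
    exact Function.iterate_fixed hz q
  have hq0 : 0 < q := by omega
  set lam : ℂ := deriv g z with hlam
  have hlam' : lam = exp (2 * Real.pi * I * p / q) := hrho
  have hqC : (q : ℂ) ≠ 0 := by exact_mod_cast hq0.ne'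
  have hG1 : deriv G z = 1 := by
    rw [hGg, deriv_iter hgd hz q, ← hlam, hlam', ← Complex.exp_nat_mul]
    have e : (q : ℂ) * (2 * Real.pi * I * p / q) = (p : ℕ) * (2 * Real.pi * I) := by
      field_simp
    rw [e]
    exact Complex.exp_nat_mul_two_pi_mul_I p
  have hlam0 : lam ≠ 0 := by
    rw [hlam']
    exact exp_ne_zero _
  have hlam1 : lam ≠ 1 := by
    rw [hlam']
    have h1 := Complex.isPrimitiveRoot_exp_of_coprime p q (by omega) hcop
    intro h2
    have e : (2 * Real.pi * I * ((p : ℂ) / q)) = 2 * Real.pi * I * p / q := by ring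
    rw [e] at h1
    have h3 := h1.dvd_of_pow_eq_one 1 (by rw [h2, one_pow])
    have h4 : q ≤ 1 := Nat.le_of_dvd one_pos h3
    omega
  -- commuting compositions
  have hcomm : (fun x => g (G x)) = fun x => G (g x) := by
    funext x
    rw [hg, hG, ← Function.iterate_add_apply, ← Function.iterate_add_apply, Nat.add_comm]
  have h1 := deriv2_comp hgd hGd hGz
  have h2 := deriv2_comp hGd hgd hz
  rw [hcomm] at h1
  rw [h1, hG1] at h2
  have hG2 : deriv (deriv G) z = 0 := by
    have h3 : lam * (1 - lam) * deriv (deriv G) z = 0 := by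
      rw [← hlam] at h2
      linear_combination h2
    rcases mul_eq_zero.1 h3 with h4 | h4
    · rcases mul_eq_zero.1 h4 with h5 | h5
      · exact absurd h5 hlam0
      · exact absurd (sub_eq_zero.1 h5).symm hlam1
    · exact h4
  -- the divided difference
  set H : ℂ → ℂ := fun x => HH n (k * q) c x z with hH
  have hHd : Differentiable ℂ H := slice (Φ := HH n (k * q)) hH3 c z
  have hφ : ∀ x, G x - x = (x - z) * H x := by
    intro x
    have h3 := hH1 c x z
    rw [← hG, hGz, sub_self, sub_zero] at h3
    exact h3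
  have h5 := second_deriv hGd hHd hφ
  rw [hG2] at h5
  have h6 : 2 * deriv H z = 0 := h5.symm
  rcases mul_eq_zero.1 h6 with h7 | h7
  · norm_num at h7
  · exact h7

end Pool.Agent.PLim
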