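import Pool.Agent.PLim.Targets4

/-!
# STRIP: the Schwarz lemma for maps into an annulus
-/

set_option autoImplicit false

open Complex Filter Topology Set MeasureTheory
open Pool.Agent.Multibrot Pool.Agent.Limb

namespace Pool.Agent.PLim

namespace STRIP_

open Metric

/-- A holomorphic logarithm on a disc. -/
lemma exists_log {f : ℂ → ℂ} {x : ℂ} {R : ℝ} (hf : DifferentiableOn ℂ f (ball x R)) (hR : 0 < R)
    (h0 : ∀ z ∈ ball x R, f z ≠ 0) :
    ∃ F : ℂ → ℂ, DifferentiableOn ℂ F (ball x R) ∧ ∀ z ∈ ball x R, exp (F z) = f z := by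
  have hd : DifferentiableOn ℂ (fun z => deriv f z / f z) (ball x R) :=
    (hf.deriv isOpen_ball).div hf h0
  obtain ⟨F, hFx, hF⟩ := hd.isExactOn_ball.with_val_at x (Complex.log (f x))
  have hx : x ∈ ball x R := mem_ball_self hR
  refine ⟨F, fun z hz => (hF z hz).differentiableAt.differentiableWithinAt, ?_⟩
  have hG : ∀ z ∈ ball x R, HasDerivAt (fun z => f z * Complex.exp (-F z)) 0 z := by
    intro z hz
    have hfz : HasDerivAt f (deriv f z) z :=
      (hf.differentiableAt (isOpen_ball.mem_nhds hz)).hasDerivAt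
    have h1 : HasDerivAt (fun z => f z * Complex.exp (-F z)) (deriv f z * Complex.exp (-F z) +
        f z * (Complex.exp (-F z) * -(deriv f z / f z))) z :=
      hfz.mul ((hF z hz).neg.cexp)
    have h3 : f z * (deriv f z / f z) = deriv f z := mul_div_cancel₀ _ (h0 z hz)
    have h4 : deriv f z * Complex.exp (-F z) +
        f z * (Complex.exp (-F z) * -(deriv f z / f z)) = 0 := by
      linear_combination (-Complex.exp (-F z)) * h3
    rw [h4] at h1
    exact h1
  intro z hz
  have hconst : f z * Complex.exp (-F z) = f x * Complex.exp (-F x) := by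
    apply (convex_ball x R).is_const_of_fderivWithin_eq_zero (𝕜 := ℂ)
      (f := fun z => f z * Complex.exp (-F z))
    · intro w hw
      exact (hG w hw).differentiableAt.differentiableWithinAt
    · intro w hw
      rw [fderivWithin_of_isOpen isOpen_ball hw]
      have := (hG w hw).hasFDerivAt.fderiv
      rw [this]
      ext
      simp
    · exact hz
    · exact hx
  have h2 : f x * Complex.exp (-F x) = 1 := by
    rw [hFx, Complex.exp_neg, Complex.exp_log (h0 x hx)]
    exact mul_inv_cancel₀ (h0 x hx)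
  rw [h2, Complex.exp_neg] at hconst
  have h3 := Complex.exp_ne_zero (F z)
  field_simp at hconst
  exact hconst.symm

/-- Borel-Caratheodory on three quarters of the ball -/
lemma bc {a : ℂ} {η w : ℝ} {H : ℂ → ℂ} (hη : 0 < η) (hw : 0 ≤ w)
    (hH : DifferentiableOn ℂ H (ball a η)) (h0 : H a = 0) (hre : ∀ z ∈ ball a η, (H z).re ≤ w)
    (z : ℂ) (hz : ‖z - a‖ ≤ 3 * η / 4) : ‖H z‖ ≤ 6 * w := by
  refine le_of_forall_pos_le_add (fun ε hε => ?_)
  have hM : 0 < w + ε / 6 := by positivity
  have h1 : DifferentiableOn ℂ (fun x => H (a + x)) (ball 0 η) := by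
    refine hH.comp (by fun_prop) ?_
    intro x hx
    rw [mem_ball_zero_iff] at hx
    rw [mem_ball, dist_eq_norm, add_sub_cancel_left]
    exact hx
  have h2 : Set.MapsTo (fun x => H (a + x)) (ball 0 η) {z | z.re ≤ w + ε / 6} := by
    intro x hx
    rw [mem_ball_zero_iff] at hx
    have h3 := hre (a + x) (by
      rw [mem_ball, dist_eq_norm, add_sub_cancel_left]
      exact hx)
    show (H (a + x)).re ≤ w + ε / 6
    linarith
  have hzb : z - a ∈ ball (0 : ℂ) η := by
    rw [mem_ball_zero_iff]
    linarith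
  have h4 := borelCaratheodory_zero hM h1 h2 hη hzb (by rw [add_zero]; exact h0)
  rw [add_sub_cancel] at h4
  refine h4.trans ?_
  have h5 : η / 4 ≤ η - ‖z - a‖ := by linarith
  have h6 : 0 < η - ‖z - a‖ := by linarith
  rw [div_le_iff₀ h6]
  have h7 : 2 * (w + ε / 6) * ‖z - a‖ ≤ 2 * (w + ε / 6) * (3 * η / 4) :=
    mul_le_mul_of_nonneg_left hz (by positivity)
  have h8 : (6 * w + ε) * (η / 4) ≤ (6 * w + ε) * (η - ‖z - a‖) :=
    mul_le_mul_of_nonneg_left h5 (by positivity)
  nlinarith

end STRIP_

open STRIP_ Metric in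
/-- STRIP: the Schwarz lemma for maps into an annulus. -/
theorem p_STRIP : T_STRIP := by
  refine ⟨24, by norm_num, ?_⟩
  intro a η m₁ m₂ g hη hm₁ hm hg hb x hx
  have hm₂ : 0 < m₂ := lt_of_lt_of_le hm₁ hm
  have hne : ∀ z ∈ ball a η, g z ≠ 0 := by
    intro z hz h
    have := (hb z hz).1
    rw [h, norm_zero] at this
    linarith
  obtain ⟨F, hF, hFe⟩ := exists_log hg hη hne
  set w := Real.log (m₂ / m₁) with hw
  have hw0 : 0 ≤ w := Real.log_nonneg ((one_le_div hm₁).mpr hm)
  have haB : a ∈ ball a η := mem_ball_self hη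
  have hre : ∀ z ∈ ball a η, (F z).re = Real.log ‖g z‖ := by
    intro z hz
    rw [← hFe z hz, norm_exp, Real.log_exp]
  set H : ℂ → ℂ := fun z => F z - F a with hHdef
  have hHd : DifferentiableOn ℂ H (ball a η) := hF.sub_const _
  have hHre : ∀ z ∈ ball a η, (H z).re ≤ w := by
    intro z hz
    have h1 : (H z).re = Real.log ‖g z‖ - Real.log ‖g a‖ := by
      show (F z - F a).re = _
      rw [sub_re, hre z hz, hre a haB]
    rw [h1, hw, Real.log_div hm₂.ne' hm₁.ne']
    have h2 := (hb z hz)
    have h3 := (hb a haB)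
    have h4 : Real.log ‖g z‖ ≤ Real.log m₂ := Real.log_le_log (lt_of_lt_of_le hm₁ h2.1) h2.2
    have h5 : Real.log m₁ ≤ Real.log ‖g a‖ := Real.log_le_log hm₁ h3.1
    linarith
  have hbc := fun z hz => bc hη hw0 hHd (sub_self _) hHre z hz
  -- the derivative of F
  have hder : ∀ z : ℂ, ‖z - a‖ ≤ η / 2 → ‖deriv F z‖ ≤ 24 * w / η := by
    intro z hz
    have h1 : deriv F z = deriv H z := by
      rw [hHdef]
      rw [deriv_sub_const]
    have hsub : closedBall z (η / 4) ⊆ ball a η := by
      intro y hy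
      rw [mem_closedBall, dist_eq_norm] at hy
      rw [mem_ball, dist_eq_norm]
      calc ‖y - a‖ = ‖(y - z) + (z - a)‖ := by rw [sub_add_sub_cancel]
        _ ≤ ‖y - z‖ + ‖z - a‖ := norm_add_le _ _
        _ < η := by linarith
    have h2 : DiffContOnCl ℂ H (ball z (η / 4)) := by
      apply DifferentiableOn.diffContOnCl
      rw [closure_ball z (by positivity)]
      exact hHd.mono hsub
    have h3 := norm_deriv_le_of_forall_mem_sphere_norm_le (C := 6 * w)
      (by positivity : 0 < η / 4) h2 (fun y hy => by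
        refine hbc y ?_
        rw [mem_sphere, dist_eq_norm] at hy
        calc ‖y - a‖ = ‖(y - z) + (z - a)‖ := by rw [sub_add_sub_cancel]
          _ ≤ ‖y - z‖ + ‖z - a‖ := norm_add_le _ _
          _ ≤ 3 * η / 4 := by linarith)
    rw [h1]
    refine h3.trans (le_of_eq ?_)
    field_simp
    ring
  have hgder : ∀ z ∈ closedBall a (η / 2), ‖deriv g z‖ ≤ m₂ * (24 * w / η) := by
    intro z hz
    rw [mem_closedBall, dist_eq_norm] at hz
    have hzb : z ∈ ball a η := by
      rw [mem_ball, dist_eq_norm]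
      linarith
    have h1 : g =ᶠ[𝓝 z] fun y => exp (F y) := by
      filter_upwards [isOpen_ball.mem_nhds hzb] with y hy
      exact (hFe y hy).symm
    have h2 : HasDerivAt (fun y => exp (F y)) (exp (F z) * deriv F z) z :=
      ((hF.differentiableAt (isOpen_ball.mem_nhds hzb)).hasDerivAt).cexp
    rw [h1.deriv_eq, h2.deriv, norm_mul, hFe z hzb]
    exact mul_le_mul (hb z hzb).2 (hder z hz) (norm_nonneg _) hm₂.le
  have hmem : x ∈ closedBall a (η / 2) := by
    rw [mem_closedBall, dist_eq_norm]
    exact hx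
  have hmem' : a ∈ closedBall a (η / 2) := mem_closedBall_self (by positivity)
  have hdiff : ∀ z ∈ closedBall a (η / 2), DifferentiableAt ℂ g z := by
    intro z hz
    rw [mem_closedBall, dist_eq_norm] at hz
    refine hg.differentiableAt (isOpen_ball.mem_nhds ?_)
    rw [mem_ball, dist_eq_norm]
    linarith
  have hfin := (convex_closedBall a (η / 2)).norm_image_sub_le_of_norm_deriv_le hdiff hgder
    hmem' hmem
  refine hfin.trans (le_of_eq ?_)
  ring

end Pool.Agent.PLim
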