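import Pool.Agent.PLim.Targets2

/-!
# PLIM: targets, batch 3 (block NV: existence of parameters covered by the theorem)

See Blueprint3.lean.txt for the proofs.
-/

set_option autoImplicit false

open Complex Filter Topology Set MeasureTheory
open Pool.Agent.Multibrot Pool.Agent.Limb

namespace Pool.Agent.PLim

/-- ATTR: an attracting cycle attracts the critical point. -/
def T_ATTR : Prop := ∀ (n k : ℕ) (c z : ℂ), 2 ≤ n → 1 ≤ k → (F n c)^[k] z = z →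
  ‖Rho n k c z‖ < 1 → ∃ j : ℕ, Tendsto (fun m : ℕ => (F n c)^[k * m + j] 0) atTop (𝓝 z)

/-- ATU (from ATTR): there is at most one attracting cycle. -/
def T_ATU : Prop := ∀ (n k k' : ℕ) (c z z' : ℂ), 2 ≤ n → 1 ≤ k → 1 ≤ k' → (F n c)^[k] z = z →
  (F n c)^[k'] z' = z' → ‖Rho n k c z‖ < 1 → ‖Rho n k' c z'‖ < 1 → ∃ j : ℕ, (F n c)^[j] z = z'

/-- ATN (from ATU, TRANS, LOCZ): an attracting cycle excludes other non-repelling cycles of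
multiplier different from one. -/
def T_ATN : Prop := ∀ (n k k' : ℕ) (c z z' : ℂ), 2 ≤ n → 1 ≤ k → 1 ≤ k' → (F n c)^[k] z = z →
  (F n c)^[k'] z' = z' → ‖Rho n k c z‖ < 1 → ‖Rho n k' c z'‖ ≤ 1 → Rho n k' c z' ≠ 1 →
  ∃ j : ℕ, (F n c)^[j] z = z'

/-- NOA (from ATN): no attracting cycle at an indifferent parameter. -/
def T_NOA : Prop := ∀ (n k k' : ℕ) (c z z' : ℂ), 2 ≤ n → 1 ≤ k → 1 ≤ k' → (F n c)^[k] z = z →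
  (F n c)^[k'] z' = z' → ‖Rho n k' c z'‖ = 1 → Rho n k' c z' ≠ 1 → 1 ≤ ‖Rho n k c z‖

/-- MMA (from ATTR): parameters with attracting cycles are in the Multibrot set. -/
def T_MMA : Prop := ∀ (n k : ℕ) (c z : ℂ), 2 ≤ n → 1 ≤ k → (F n c)^[k] z = z →
  ‖Rho n k c z‖ < 1 → c ∈ MM n

/-- A clopen piece of the Multibrot set minus an indifferent parameter `r`, or the whole set. -/
structure Piece (n : ℕ) (r : ℂ) (A : Set ℂ) : Prop where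
  sub : A ⊆ MM n
  op : ∃ U : Set ℂ, IsOpen U ∧ A = MM n ∩ U
  cl : IsClosed (insert r A)
  alt : A = MM n ∨ (r ∉ A ∧ (0 : ℂ) ∉ A)
  ind : ∃ (k : ℕ) (z : ℂ), 1 ≤ k ∧ (F n r)^[k] z = z ∧ ‖Rho n k r z‖ = 1 ∧ Rho n k r z ≠ 1

/-- BDV (from NOA, MMA, LOCZ, BIG, CNT): boundary values of the multiplier on a piece. -/
def T_BDV : Prop := ∀ (n k : ℕ) (r : ℂ) (A : Set ℂ) (c1 z1 u : ℂ), 2 ≤ n → 1 ≤ k →
  Piece n r A → c1 ∈ A → (F n c1)^[k] z1 = z1 → ‖Rho n k c1 z1‖ < 1 → ‖u‖ = 1 →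
  ∃ c z : ℂ, c ∈ insert r A ∧ (F n c)^[k] z = z ∧ Rho n k c z = u

/-- The divided difference of `F^[m] z - z`. -/
noncomputable def HH (n m : ℕ) (c z w : ℂ) : ℂ :=
  (∏ j ∈ Finset.range m, ∑ i ∈ Finset.range n,
    ((F n c)^[j] z) ^ i * ((F n c)^[j] w) ^ (n - 1 - i)) - 1

/-- HHE: the divided difference. -/
def T_HHE : Prop := ∀ (n m : ℕ), 1 ≤ n →
  (∀ c z w : ℂ, ((F n c)^[m] z - z) - ((F n c)^[m] w - w) = (z - w) * HH n m c z w) ∧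
  (∀ c z : ℂ, HH n m c z z = Rho n m c z - 1) ∧
  ContDiff ℂ 1 (fun x : ℂ × ℂ × ℂ => HH n m x.1 x.2.1 x.2.2)

/-- SEC0 (from HHE): the second derivative of `F^[k q]` vanishes at a fixed point whose
multiplier is a root of unity of exact order `q`. -/
def T_SEC0 : Prop := ∀ (n k p q : ℕ) (c z : ℂ), 2 ≤ n → 1 ≤ k → 0 < p → p < q → p.Coprime q →
  (F n c)^[k] z = z → Rho n k c z = exp (2 * Real.pi * I * p / q) →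
  deriv (fun x => HH n (k * q) c x z) z = 0

/-- IMP (from LOCZ, TRANS, HHE, SEC0): the bifurcating cycle, as a graph over `z`. -/
def T_IMP : Prop := ∀ (n k p q : ℕ) (r z0 : ℂ) (R : ℝ), 2 ≤ n → 1 ≤ k → 0 < p → p < q →
  p.Coprime q → (F n r)^[k] z0 = z0 → Rho n k r z0 = exp (2 * Real.pi * I * p / q) → 0 < R →
  ∃ (ρ : ℝ) (g : ℂ → ℂ), 0 < ρ ∧ ρ < R ∧ DifferentiableOn ℂ g (Metric.ball z0 ρ) ∧ g z0 = r ∧
    ∀ z ∈ Metric.ball z0 ρ, (F n (g z))^[k * q] z = z ∧ ‖g z - r‖ < R ∧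
      (z ≠ z0 → g z ≠ r ∧ (F n (g z))^[k] z ≠ z)

/-- BIF (from IMP, FINF): bifurcation along a path. -/
def T_BIF : Prop := ∀ (n k p q : ℕ) (r z0 : ℂ), 2 ≤ n → 1 ≤ k → 0 < p → p < q →
  p.Coprime q → (F n r)^[k] z0 = z0 → Rho n k r z0 = exp (2 * Real.pi * I * p / q) →
  ∃ (t₀ : ℝ) (γ w : ℝ → ℂ), 0 < t₀ ∧ ContinuousOn γ (Ioc 0 t₀) ∧ ContinuousOn w (Ioc 0 t₀) ∧
    Tendsto γ (𝓝[>] 0) (𝓝 r) ∧ Tendsto w (𝓝[>] 0) (𝓝 z0) ∧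
    ∀ t ∈ Ioc (0 : ℝ) t₀, (F n (γ t))^[k * q] (w t) = w t ∧ (F n (γ t))^[k] (w t) ≠ w t ∧
      γ t ≠ r ∧ ‖Rho n (k * q) (γ t) (w t)‖ < 1

/-- LCL: the first part of TOP. -/
def T_LCL : Prop := ∀ (M : Set ℂ) (r b : ℂ) (τ η K : ℝ) (q₀ : ℕ) (ψ om : ℂ → ℂ),
  IsCompact M → r ∈ M → b ≠ r →
  0 < τ → τ < 2 * Real.pi → 0 < η → η < 1 → 0 < K → 1 ≤ q₀ →
  exp (-(τ * I)) ^ q₀ = 1 → (∀ m : ℕ, exp (-(τ * I)) ^ m = 1 → q₀ ∣ m) →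
  K * η < Real.pi ^ 2 * q₀ → K < η * q₀ →
  DifferentiableOn ℂ ψ (Metric.ball (τ * I) η) →
  (∀ μ ∈ Metric.ball ((τ : ℂ) * I) η, deriv ψ μ ≠ 0) → ψ (τ * I) = r →
  (∀ μ ∈ Metric.ball ((τ : ℂ) * I) η, ψ μ ≠ b) →
  (∀ μ₀ ∈ Metric.ball ((τ : ℂ) * I) η, 0 < μ₀.re → ψ μ₀ ∈ M →
    ∀ᶠ μ in 𝓝 μ₀, ψ μ ∈ M → om μ = om μ₀) →
  (∀ μ ∈ Metric.ball ((τ : ℂ) * I) η, 0 < μ.re → ψ μ ∈ M → ∃ (q : ℕ) (a : ℝ), 1 ≤ q ∧
    om μ ^ q = 1 ∧ om μ = exp (-(2 * Real.pi * a * I)) ∧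
    ‖μ - 2 * Real.pi * a * I‖ ^ 2 ≤ K / q * μ.re) →
  ∃ L : Set ℂ, L ⊆ M ∧ (∃ U : Set ℂ, IsOpen U ∧ L = M ∩ U) ∧ IsClosed (insert r L) ∧ r ∉ L ∧
    b ∉ L ∧ ∀ μ ∈ Metric.ball ((τ : ℂ) * I) η, 0 < μ.re → ψ μ ∈ M →
      om μ = exp (-(τ * I)) → ψ μ ≠ r → ψ μ ∈ L

/-- `A` is a limb with root `r`: a clopen piece of the Multibrot set minus `r` not containing `0`,
where `z ^ n + r` has a fixed point `z0` of the `k`-th iterate with multiplier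
`exp (2 π i p / q)`. -/
structure IsLimb (n k p q : ℕ) (r z0 : ℂ) (A : Set ℂ) : Prop where
  hk : 1 ≤ k
  hp : 0 < p
  hpq : p < q
  cop : p.Coprime q
  fix : (F n r)^[k] z0 = z0
  rho : Rho n k r z0 = exp (2 * Real.pi * I * p / q)
  sub : A ⊆ MM n
  op : ∃ U : Set ℂ, IsOpen U ∧ A = MM n ∩ U
  cl : IsClosed (insert r A)
  nr : r ∉ A
  n0 : (0 : ℂ) ∉ A

/-- LNE (from SECT, OMX, OMC, LCL, BIF, ATN, NOA, MMA, FIXE, BOT, LOG, GREEN): for `q` large there is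
a limb at `r` which contains a parameter with an attracting cycle of period `k q`. -/
def T_LNE : Prop := ∀ (n k : ℕ), 2 ≤ n → 1 ≤ k → ∃ q₁ : ℕ, ∀ (p q : ℕ) (r z0 : ℂ), q₁ ≤ q →
  0 < p → p < q → p.Coprime q → q ≤ 4 * p → 3 * p < q → (F n r)^[k] z0 = z0 →
  Rho n k r z0 = exp (2 * Real.pi * I * p / q) →
  ∃ A : Set ℂ, IsLimb n k p q r z0 A ∧ ∃ c z : ℂ, c ∈ A ∧ (F n c)^[k * q] z = z ∧
    ‖Rho n (k * q) c z‖ < 1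

/-- NEST (from CIK and the connectedness of the Multibrot set): nested pieces. -/
def T_NEST : Prop := ∀ (n k p q : ℕ) (r r' z' : ℂ) (A A' : Set ℂ), 2 ≤ n → Piece n r A →
  IsLimb n k p q r' z' A' → r' ∈ A → r' ≠ r → A' ⊆ A

/-- NEXT (from BDV, LNE, NEST): one step of the construction. -/
def T_NEXT : Prop := ∀ (n k : ℕ) (r : ℂ) (A : Set ℂ) (c1 z1 : ℂ) (B : ℝ), 2 ≤ n → 1 ≤ k →
  Piece n r A → c1 ∈ A → (F n c1)^[k] z1 = z1 → ‖Rho n k c1 z1‖ < 1 →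
  ∃ (p q : ℕ) (r' z' : ℂ) (A' : Set ℂ), IsLimb n k p q r' z' A' ∧ A' ⊆ A ∧ r' ∈ A ∧
    B * q * k ^ 2 ≤ ((min p (q - p) : ℕ) : ℝ) ^ 2 ∧
    ∃ c z : ℂ, c ∈ A' ∧ (F n c)^[k * q] z = z ∧ ‖Rho n (k * q) c z‖ < 1

/-- NV (from NEXT): existence of parameters which lie in infinitely many small limbs. -/
def T_NV : Prop := ∀ n : ℕ, 2 ≤ n → ∃ c ∈ MM n, ∀ B : ℝ, ∃ (k p q : ℕ) (r z0 : ℂ) (A : Set ℂ),
  IsLimb n k p q r z0 A ∧ c ∈ A ∧ B * q * k ^ 2 ≤ ((min p (q - p) : ℕ) : ℝ) ^ 2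

end Pool.Agent.PLim
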