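import Mathlib
import Pool.Agent.PLim.CNT
import Pool.Agent.PLim.Targets3

set_option autoImplicit false

open Complex Filter Topology Set
open Pool.Agent.Multibrot Pool.Agent.Limb

namespace Pool.Agent.PLim

namespace NV_

lemma rho_one (n : ℕ) (c z : ℂ) : Rho n 1 c z = n * z ^ (n - 1) := by
  rw [CNT_rho]
  simp

lemma fix_one (n : ℕ) (z : ℂ) : (F n (z - z ^ n))^[1] z = z := by
  show z ^ n + (z - z ^ n) = z
  ring

/-- The invariant of the construction. -/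
def P (n : ℕ) (x : ℕ × ℂ × Set ℂ) : Prop :=
  1 ≤ x.1 ∧ Piece n x.2.1 x.2.2 ∧
    ∃ c1 z1 : ℂ, c1 ∈ x.2.2 ∧ (F n c1)^[x.1] z1 = z1 ∧ ‖Rho n x.1 c1 z1‖ < 1

/-- The relation between consecutive states. -/
def S (n m : ℕ) (x y : ℕ × ℂ × Set ℂ) : Prop :=
  y.2.2 ⊆ x.2.2 ∧ y.2.1 ∈ x.2.2 ∧
    ∃ (p q : ℕ) (z' : ℂ), IsLimb n x.1 p q y.2.1 z' y.2.2 ∧
      (m : ℝ) * q * x.1 ^ 2 ≤ ((min p (q - p) : ℕ) : ℝ) ^ 2

lemma step (hNEXT : T_NEXT) {n : ℕ} (hn : 2 ≤ n) (m : ℕ) (x : ℕ × ℂ × Set ℂ) (hx : P n x) :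
    ∃ y : ℕ × ℂ × Set ℂ, P n y ∧ S n m x y := by
  obtain ⟨hk, hP, c1, z1, hc1, hz1, hr1⟩ := hx
  obtain ⟨p, q, r', z', A', hL, hsub, hmem, hB, c, z, hc, hz, hr⟩ :=
    hNEXT n x.1 x.2.1 x.2.2 c1 z1 (m : ℝ) hn hk hP hc1 hz1 hr1
  have hq : 1 ≤ q := by have := hL.hp; have := hL.hpq; omega
  refine ⟨(x.1 * q, r', A'), ⟨?_, ?_, c, z, hc, hz, hr⟩, hsub, hmem, p, q, z', hL, hB⟩
  · exact Nat.mul_pos hk hq
  · have hq0 : (q : ℂ) ≠ 0 := by
      have : q ≠ 0 := by omega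
      exact_mod_cast this
    refine ⟨hL.sub, hL.op, hL.cl, Or.inr ⟨hL.nr, hL.n0⟩, x.1, z', hL.hk, hL.fix, ?_, ?_⟩
    · rw [hL.rho]
      have h1 : (2 * Real.pi * I * p / q : ℂ) = ((2 * Real.pi * p / q : ℝ) : ℂ) * I := by
        push_cast; ring
      rw [h1, Complex.norm_exp_ofReal_mul_I]
    · rw [hL.rho]
      intro h
      rw [Complex.exp_eq_one_iff] at h
      obtain ⟨j, hj⟩ := h
      have hpi : (2 * Real.pi * I : ℂ) ≠ 0 := by
        simp [Real.pi_ne_zero]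
      have h2 : (p : ℂ) = j * q := by
        have h3 : (2 * Real.pi * I : ℂ) * (p / q) = (2 * Real.pi * I : ℂ) * j := by
          rw [mul_comm _ (j : ℂ), ← hj]; ring
        have h4 := mul_left_cancel₀ hpi h3
        rw [← h4]
        field_simp
      have h5 : (p : ℤ) = j * q := by exact_mod_cast h2
      have h6 := hL.hp
      have h7 := hL.hpq
      have h8 : (0 : ℤ) < p := by exact_mod_cast h6
      have h9 : (p : ℤ) < q := by exact_mod_cast h7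
      rcases le_or_gt j 0 with h | h
      · nlinarith
      · nlinarith

lemma base (hMMA : T_MMA) {n : ℕ} (hn : 2 ≤ n) : ∃ r : ℂ, r ∈ MM n ∧ P n (1, r, MM n) := by
  have hn0 : (n : ℂ) ≠ 0 := by
    have : n ≠ 0 := by omega
    exact_mod_cast this
  obtain ⟨z1, hz1⟩ := IsAlgClosed.exists_pow_nat_eq (-1 / (n : ℂ)) (n := n - 1) (by omega)
  have hz1' : (n : ℂ) * z1 ^ (n - 1) = -1 := by
    rw [hz1]; field_simp
  have hmem : z1 - z1 ^ n ∈ MM n := by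
    have hcl := MM_closed n
    have hcont : Tendsto (fun s : ℝ => ((s : ℂ) * z1) - ((s : ℂ) * z1) ^ n) (𝓝[<] 1)
        (𝓝 (z1 - z1 ^ n)) := by
      have h1 : Continuous (fun s : ℝ => ((s : ℂ) * z1) - ((s : ℂ) * z1) ^ n) := by fun_prop
      have h2 := h1.tendsto 1
      simp only [ofReal_one, one_mul] at h2
      exact h2.mono_left nhdsWithin_le_nhds
    refine hcl.mem_of_tendsto hcont ?_
    filter_upwards [Ioo_mem_nhdsLT (show (0 : ℝ) < 1 by norm_num)] with s hs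
    refine hMMA n 1 _ ((s : ℂ) * z1) hn le_rfl (fix_one n _) ?_
    rw [rho_one, mul_pow, mul_left_comm, hz1', norm_mul, norm_neg, norm_one, mul_one, norm_pow,
      norm_real, Real.norm_eq_abs, abs_of_pos hs.1]
    exact pow_lt_one₀ hs.1.le hs.2 (by omega)
  refine ⟨z1 - z1 ^ n, hmem, le_rfl, ⟨Subset.rfl, ⟨univ, isOpen_univ, (inter_univ _).symm⟩, ?_,
    Or.inl rfl, 1, z1, le_rfl, fix_one n z1, ?_, ?_⟩, 0, 0, ?_, ?_, ?_⟩
  · show IsClosed (insert (z1 - z1 ^ n) (MM n))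
    rw [insert_eq_of_mem hmem]
    exact MM_closed n
  · show ‖Rho n 1 (z1 - z1 ^ n) z1‖ = 1
    rw [rho_one, hz1', norm_neg, norm_one]
  · show Rho n 1 (z1 - z1 ^ n) z1 ≠ 1
    rw [rho_one, hz1']
    norm_num
  · show (0 : ℂ) ∈ MM n
    have h1 := hMMA n 1 (0 - 0 ^ n) 0 hn le_rfl (fix_one n 0) (by
      rw [rho_one, zero_pow (by omega), mul_zero, norm_zero]; norm_num)
    rw [zero_pow (by omega), sub_zero] at h1
    exact h1
  · show (F n 0)^[1] 0 = 0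
    have h1 := fix_one n 0
    rw [zero_pow (by omega), sub_zero] at h1
    exact h1
  · show ‖Rho n 1 0 0‖ < 1
    rw [rho_one, zero_pow (by omega), mul_zero, norm_zero]
    norm_num

end NV_

open NV_

theorem p_NV (hNEXT : T_NEXT) (hMMA : T_MMA) : T_NV := by
  intro n hn
  obtain ⟨r0, hr0, hP0⟩ := base hMMA hn
  have hst := step hNEXT hn
  choose g hg using hst
  let f : ℕ → {x : ℕ × ℂ × Set ℂ // P n x} := fun m =>
    Nat.rec ⟨(1, r0, MM n), hP0⟩ (fun m x => ⟨g m x.1 x.2, (hg m x.1 x.2).1⟩) m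
  have hf : ∀ m, S n m (f m).1 (f (m + 1)).1 := fun m => (hg m (f m).1 (f m).2).2
  have hf0 : (f 0).1 = (1, r0, MM n) := rfl
  set K : ℕ → Set ℂ := fun m => insert (f m).1.2.1 (f m).1.2.2 with hK
  have hKs : ∀ m, K (m + 1) ⊆ (f m).1.2.2 := by
    intro m x hx
    rcases hx with h | h
    · rw [h]; exact (hf m).2.1
    · exact (hf m).1 h
  have hKd : ∀ m, K (m + 1) ⊆ K m := fun m => (hKs m).trans (subset_insert _ _)
  have hKc : ∀ m, IsClosed (K m) := fun m => (f m).2.2.1.cl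
  have hK0 : IsCompact (K 0) := by
    refine Metric.isCompact_of_isClosed_isBounded (hKc 0) ?_
    refine (Metric.isBounded_closedBall (x := (0 : ℂ)) (r := 1 + 2 / n)).subset ?_
    intro x hx
    rw [mem_closedBall_zero_iff]
    rcases hx with h | h
    · rw [h]; exact MM_bound hn hr0
    · exact MM_bound hn h
  obtain ⟨c, hc⟩ := IsCompact.nonempty_iInter_of_sequence_nonempty_isCompact_isClosed K hKd
    (fun m => ⟨_, mem_insert _ _⟩) hK0 hKc
  have hcA : ∀ m, c ∈ (f m).1.2.2 := fun m => hKs m (mem_iInter.mp hc (m + 1))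
  refine ⟨c, (f 0).2.2.1.sub (hcA 0), ?_⟩
  intro B
  obtain ⟨m, hm⟩ := exists_nat_ge B
  obtain ⟨-, -, p, q, z', hL, hB⟩ := hf m
  refine ⟨(f m).1.1, p, q, (f (m + 1)).1.2.1, z', (f (m + 1)).1.2.2, hL, hcA (m + 1), ?_⟩
  refine le_trans ?_ hB
  have h1 : (0 : ℝ) ≤ (q : ℝ) * ((f m).1.1 : ℝ) ^ 2 := by positivity
  nlinarith

end Pool.Agent.PLim
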