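import Mathlib
import Pool.Agent.PLim.NV
import Pool.Agent.PLim.Targets4

/-!
# UNC: uncountably many parameters in infinitely many small limbs near every boundary point
-/

set_option autoImplicit false

open Complex Filter Topology Set
open Pool.Agent.Multibrot Pool.Agent.Limb

namespace Pool.Agent.PLim

namespace UNC_

open NV_ (P)

/-- A limb is a piece. -/
lemma limb_piece {n k p q : ℕ} {r z : ℂ} {A : Set ℂ} (hL : IsLimb n k p q r z A) :
    Piece n r A := by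
  have hq : 1 ≤ q := by have := hL.hp; have := hL.hpq; omega
  have hq0 : (q : ℂ) ≠ 0 := by
    have : q ≠ 0 := by omega
    exact_mod_cast this
  refine ⟨hL.sub, hL.op, hL.cl, Or.inr ⟨hL.nr, hL.n0⟩, k, z, hL.hk, hL.fix, ?_, ?_⟩
  · rw [hL.rho]
    have h1 : (2 * Real.pi * I * p / q : ℂ) = ((2 * Real.pi * p / q : ℝ) : ℂ) * I := by
      push_cast; ring
    rw [h1, Complex.norm_exp_ofReal_mul_I]
  · rw [hL.rho]
    intro h
    rw [Complex.exp_eq_one_iff] at h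
    obtain ⟨j, hj⟩ := h
    have hpi : (2 * Real.pi * I : ℂ) ≠ 0 := by
      simp [Real.pi_ne_zero]
    have h2 : (p : ℂ) = j * q := by
      have h3 : (2 * Real.pi * I : ℂ) * (p / q) = (2 * Real.pi * I : ℂ) * j := by
        rw [mul_comm _ (j : ℂ), ← hj]; ring
      have h4 := mul_left_cancel₀ hpi h3
      rw [← h4]
      field_simp
    have h5 : (p : ℤ) = j * q := by exact_mod_cast h2
    have h6 := hL.hp
    have h7 := hL.hpq
    have h8 : (0 : ℤ) < p := by exact_mod_cast h6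
    have h9 : (p : ℤ) < q := by exact_mod_cast h7
    rcases le_or_gt j 0 with h | h
    · nlinarith
    · nlinarith

/-- The relation between consecutive states; `w` is a point to be avoided. -/
def S (n m : ℕ) (w : ℂ) (x y : ℕ × ℂ × Set ℂ) : Prop :=
  y.2.2 ⊆ x.2.2 ∧ y.2.1 ∈ x.2.2 ∧ w ∉ insert y.2.1 y.2.2 ∧
    ∃ (p q : ℕ) (z' : ℂ), IsLimb n x.1 p q y.2.1 z' y.2.2 ∧
      (m : ℝ) * x.1 ^ 2 * q < ((min p (q - p) : ℕ) : ℝ) ^ 2

lemma step (hNEXT : T_NEXT2) {n : ℕ} (hn : 2 ≤ n) (m : ℕ) (w : ℂ) (x : ℕ × ℂ × Set ℂ)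
    (hx : P n x) : ∃ y : ℕ × ℂ × Set ℂ, P n y ∧ S n m w x y := by
  obtain ⟨hk, hP, c1, z1, hc1, hz1, hr1⟩ := hx
  obtain ⟨p, q, r', z', A', hL, hsub, hmem, hs, hB, c, z, hc, hz, hr⟩ :=
    hNEXT n x.1 x.2.1 w x.2.2 c1 z1 (m : ℝ) hn hk hP hc1 hz1 hr1
  have hq : 1 ≤ q := by have := hL.hp; have := hL.hpq; omega
  exact ⟨(x.1 * q, r', A'), ⟨Nat.mul_pos hk hq, limb_piece hL, c, z, hc, hz, hr⟩,
    hsub, hmem, hs, p, q, z', hL, hB⟩

lemma min_le_half (p q : ℕ) : (((min p (q - p) : ℕ) : ℝ)) ^ 2 ≤ (q : ℝ) * q := by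
  have h1 : min p (q - p) ≤ q := (min_le_right _ _).trans (Nat.sub_le _ _)
  have h2 : ((min p (q - p) : ℕ) : ℝ) ≤ q := by exact_mod_cast h1
  have h3 : (0 : ℝ) ≤ ((min p (q - p) : ℕ) : ℝ) := Nat.cast_nonneg _
  nlinarith

lemma base (hDENS : T_DENS) (hLNE2 : T_LNE2) (hLIMB : T_LIMB) {n : ℕ} (hn : 2 ≤ n) {c0 : ℂ}
    (hc0 : c0 ∈ frontier (MM n)) {N : Set ℂ} (hN : N ∈ 𝓝 c0) :
    ∃ x : ℕ × ℂ × Set ℂ, P n x ∧ x.2.1 ∈ MM n ∧ insert x.2.1 x.2.2 ⊆ N := by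
  obtain ⟨ε', hε', hball⟩ := Metric.mem_nhds_iff.mp hN
  obtain ⟨C, hC, hlimb⟩ := hLIMB n hn
  obtain ⟨B1, hB1, hlne⟩ := hLNE2 n hn
  have hε : 0 < ε' / 2 := by positivity
  obtain ⟨k, p, q, r, z0, hk, hp, hpq, hcop, hfix, hrho, hr, hmin⟩ :=
    hDENS n c0 (ε' / 2) (B1 + C / (ε' / 2)) hn hc0 hε
  have hq0 : (0 : ℝ) < q := by
    have : 0 < q := by omega
    exact_mod_cast this
  have hk0 : (0 : ℝ) < k := by exact_mod_cast hk
  have hkq : 0 < (k : ℝ) ^ 2 * q := by positivity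
  have hCε : 0 < C / (ε' / 2) := by positivity
  have h1 : B1 * k ^ 2 * q < ((min p (q - p) : ℕ) : ℝ) ^ 2 := by
    refine lt_of_le_of_lt ?_ hmin
    nlinarith
  have h2 : C / (ε' / 2) * (k ^ 2 * q) < ((min p (q - p) : ℕ) : ℝ) ^ 2 := by
    refine lt_of_le_of_lt ?_ hmin
    nlinarith
  obtain ⟨A, hL, c, z, hc, hz, hcz⟩ := hlne k p q r z0 hk hp hpq hcop hfix hrho h1
  obtain ⟨hrM, hA⟩ := hlimb k p q r z0 A hk hp hpq hcop hfix hrho hL.sub hL.op hL.cl hL.nr hL.n0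
  refine ⟨(k * q, r, A), ⟨Nat.mul_pos hk (by omega), limb_piece hL, c, z, hc, hz, hcz⟩, hrM, ?_⟩
  have hbig : insert r A ⊆ Metric.ball c0 ε' := by
    intro x hx
    rw [Metric.mem_ball, dist_eq_norm]
    rcases hx with h | h
    · rw [h]
      linarith
    · have h3 := hA x h
      have h4 : ‖x - r‖ < ε' / 2 := by
        by_contra h5
        push Not at h5
        have h6 : C * k ^ 2 * q < ε' / 2 * ((min p (q - p) : ℕ) : ℝ) ^ 2 := by
          have h7 := mul_lt_mul_of_pos_left h2 hε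
          have h8 : ε' / 2 * (C / (ε' / 2) * (k ^ 2 * q)) = C * k ^ 2 * q := by
            field_simp
          rw [h8] at h7
          exact h7
        have h9 : ε' / 2 * ((min p (q - p) : ℕ) : ℝ) ^ 2 ≤
            ‖x - r‖ * ((min p (q - p) : ℕ) : ℝ) ^ 2 :=
          mul_le_mul_of_nonneg_right h5 (by positivity)
        linarith
      calc ‖x - c0‖ = ‖(x - r) + (r - c0)‖ := by ring_nf
        _ ≤ ‖x - r‖ + ‖r - c0‖ := norm_add_le _ _
        _ < ε' := by linarith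
  exact hbig.trans hball

end UNC_

open UNC_ NV_ in
theorem p_UNC (hDENS : T_DENS) (hLNE2 : T_LNE2) (hNEXT : T_NEXT2) (hLIMB : T_LIMB) : T_UNC := by
  intro n c0 N B hn hc0 hN hcount
  obtain ⟨s, hs⟩ := Set.countable_iff_exists_subset_range.mp hcount
  obtain ⟨x0, hP0, hx0M, hx0N⟩ := UNC_.base hDENS hLNE2 hLIMB hn hc0 hN
  have hst := fun m => UNC_.step hNEXT hn m (s m)
  choose g hg using hst
  let f : ℕ → {x : ℕ × ℂ × Set ℂ // NV_.P n x} := fun m =>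
    Nat.rec ⟨x0, hP0⟩ (fun m x => ⟨g m x.1 x.2, (hg m x.1 x.2).1⟩) m
  have hf : ∀ m, UNC_.S n m (s m) (f m).1 (f (m + 1)).1 := fun m => (hg m (f m).1 (f m).2).2
  have hf0 : (f 0).1 = x0 := rfl
  set K : ℕ → Set ℂ := fun m => insert (f m).1.2.1 (f m).1.2.2 with hK
  have hKs : ∀ m, K (m + 1) ⊆ (f m).1.2.2 := by
    intro m x hx
    rcases hx with h | h
    · rw [h]; exact (hf m).2.1
    · exact (hf m).1 h
  have hKd : ∀ m, K (m + 1) ⊆ K m := fun m => (hKs m).trans (subset_insert _ _)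
  have hKc : ∀ m, IsClosed (K m) := fun m => (f m).2.2.1.cl
  have hK0 : IsCompact (K 0) := by
    refine Metric.isCompact_of_isClosed_isBounded (hKc 0) ?_
    refine (Metric.isBounded_closedBall (x := (0 : ℂ)) (r := 1 + 2 / n)).subset ?_
    intro x hx
    rw [mem_closedBall_zero_iff]
    rcases hx with h | h
    · rw [h]; exact MM_bound hn hx0M
    · exact MM_bound hn (hP0.2.1.sub h)
  obtain ⟨c, hc⟩ := IsCompact.nonempty_iInter_of_sequence_nonempty_isCompact_isClosed K hKd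
    (fun m => ⟨_, mem_insert _ _⟩) hK0 hKc
  have hcA : ∀ m, c ∈ (f m).1.2.2 := fun m => hKs m (mem_iInter.mp hc (m + 1))
  have hcX : c ∈ {c : ℂ | c ∈ N ∧ c ∈ MM n ∧ Inf n B c} := by
    refine ⟨hx0N (mem_insert_of_mem _ (hcA 0)), (f 0).2.2.1.sub (hcA 0), ?_⟩
    intro M
    obtain ⟨m0, hm0⟩ := exists_nat_ge B
    set m : ℕ := max m0 M with hm
    have hmB : B ≤ m := hm0.trans (by exact_mod_cast le_max_left _ _)
    have hmM : M ≤ m := le_max_right _ _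
    obtain ⟨-, -, -, p, q, z', hL, hB⟩ := hf m
    have hq1 : 0 < q := by have := hL.hpq; omega
    have hq0 : (0 : ℝ) < q := by exact_mod_cast hq1
    have hk1 : (1 : ℝ) ≤ ((f m).1.1 : ℝ) := by exact_mod_cast hL.hk
    refine ⟨(f m).1.1, p, q, (f (m + 1)).1.2.1, z', (f (m + 1)).1.2.2, hL, hcA (m + 1), ?_, ?_⟩
    · refine hmM.trans ?_
      have h1 := lt_of_lt_of_le hB (min_le_half p q)
      have h2 : (m : ℝ) * ((f m).1.1 : ℝ) ^ 2 < q := lt_of_mul_lt_mul_right h1 hq0.le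
      have h3 : (m : ℝ) ≤ (m : ℝ) * ((f m).1.1 : ℝ) ^ 2 := by
        have h4 : (1 : ℝ) ≤ ((f m).1.1 : ℝ) ^ 2 := one_le_pow₀ hk1
        have h5 : (0 : ℝ) ≤ m := Nat.cast_nonneg _
        nlinarith
      have h4 : (m : ℝ) < q := lt_of_le_of_lt h3 h2
      exact_mod_cast h4.le
    · refine lt_of_le_of_lt ?_ hB
      have h1 : (0 : ℝ) ≤ ((f m).1.1 : ℝ) ^ 2 * q := by positivity
      nlinarith
  obtain ⟨m, hm⟩ := hs hcX
  have h1 := (hf m).2.2.1
  rw [hm] at h1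
  exact h1 (mem_insert_of_mem _ (hcA (m + 1)))

end Pool.Agent.PLim
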