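import Pool.Agent.PLim.Targets4

set_option autoImplicit false

/-!
# WSEGU: displacement along one level of a wedge, geometric subdivision
-/

open Complex Filter Topology Set MeasureTheory
open Pool.Agent.Multibrot Pool.Agent.Limb

namespace Pool.Agent.PLim

namespace WSEGU_

open Classical in
/-- bounded overlap -/
theorem overlap_sum {N M : ℕ} {E : Set ℂ} (B : ℕ → Set ℂ) (hE : MeasurableSet E)
    (hB : ∀ i, MeasurableSet (B i)) (hsub : ∀ i, i < N → B i ⊆ E)
    (hov : ∀ x ∈ E, ((Finset.range N).filter (fun i => x ∈ B i)).card ≤ M) (φ : ℂ → ENNReal)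
    (hφ : Measurable φ) :
    ∑ i ∈ Finset.range N, ∫⁻ u in B i, φ u ≤ M * ∫⁻ u in E, φ u := by
  classical
  have h1 : ∀ i, ∫⁻ u in B i, φ u = ∫⁻ u, (B i).indicator φ u := fun i =>
    (lintegral_indicator (hB i) φ).symm
  have h2 : ∑ i ∈ Finset.range N, ∫⁻ u in B i, φ u =
      ∫⁻ u, ∑ i ∈ Finset.range N, (B i).indicator φ u := by
    rw [lintegral_finsetSum _ (fun i _ => hφ.indicator (hB i))]
    exact Finset.sum_congr rfl fun i _ => h1 i
  rw [h2, ← lintegral_indicator hE, ← lintegral_const_mul _ (hφ.indicator hE)]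
  refine lintegral_mono fun x => ?_
  by_cases hx : x ∈ E
  · rw [Set.indicator_of_mem hx]
    have h3 : ∑ i ∈ Finset.range N, (B i).indicator φ x =
        ∑ i ∈ Finset.range N, if x ∈ B i then φ x else 0 := by
      refine Finset.sum_congr rfl fun i _ => ?_
      rw [Set.indicator_apply]
    show ∑ i ∈ Finset.range N, (B i).indicator φ x ≤ _
    rw [h3, ← Finset.sum_filter, Finset.sum_const, nsmul_eq_mul]
    gcongr
    exact_mod_cast hov x hx
  · show ∑ i ∈ Finset.range N, (B i).indicator φ x ≤ _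
    rw [Finset.sum_eq_zero]
    · exact zero_le
    · intro i hi
      rw [Set.indicator_of_notMem]
      intro h
      exact hx (hsub i (Finset.mem_range.1 hi) h)

/-- the wedge -/
def D (n : ℕ) (t y : ℝ) : Set ℂ :=
  {ξ : ℂ | t / 2 < ξ.re ∧ ξ.re < 2 * n * t ∧ |ξ.im - y| < ξ.re}

theorem isOpen_D (n : ℕ) (t y : ℝ) : IsOpen (D n t y) := by
  refine IsOpen.and ?_ (IsOpen.and ?_ ?_)
  · exact isOpen_lt continuous_const continuous_re
  · exact isOpen_lt continuous_re continuous_const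
  · exact isOpen_lt (continuous_im.sub continuous_const).abs continuous_re

lemma ball_sub {n : ℕ} {t y : ℝ} {p : ℂ} (hp : p.im = y) (h1 : t ≤ p.re) (h2 : p.re ≤ n * t)
    (ht : 0 < t) : Metric.ball p (2 * (p.re / 4)) ⊆ D n t y := by
  intro ξ hξ
  rw [Metric.mem_ball, dist_eq_norm] at hξ
  have hre := (Complex.abs_re_le_norm (ξ - p)).trans_lt hξ
  have him := (Complex.abs_im_le_norm (ξ - p)).trans_lt hξ
  rw [sub_re, abs_lt] at hre
  rw [sub_im, hp] at him
  refine ⟨by linarith [hre.1], ?_, ?_⟩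
  · have : 0 < (n : ℝ) * t := ht.trans_le (h1.trans h2)
    linarith [hre.2]
  · refine him.trans ?_
    linarith [hre.1]

/-- the points of the subdivision -/
noncomputable def pt (δ t y : ℝ) (i : ℕ) : ℂ := ((t * Real.exp (i * δ) : ℝ) : ℂ) + y * I

lemma pt_re (δ t y : ℝ) (i : ℕ) : (pt δ t y i).re = t * Real.exp (i * δ) := by
  unfold pt
  simp only [add_re, ofReal_re, mul_re, I_re, mul_zero, ofReal_im, I_im, mul_one, sub_self,
    add_zero]

lemma pt_im (δ t y : ℝ) (i : ℕ) : (pt δ t y i).im = y := by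
  unfold pt
  simp only [add_im, ofReal_im, mul_im, I_re, mul_zero, ofReal_re, I_im, mul_one, zero_add,
    add_zero]

theorem exp_12 : (3 : ℝ) ≤ Real.exp (12 / 10) := by
  have h1 : Real.exp (12 / 10) = Real.exp 1 * Real.exp (2 / 10) := by
    rw [← Real.exp_add]; norm_num
  have h2 := Real.exp_one_gt_d9
  have h3 : (2 / 10 : ℝ) + 1 ≤ Real.exp (2 / 10) := Real.add_one_le_exp _
  rw [h1]
  nlinarith

open Classical in
/-- the overlap of the balls -/
theorem overlap (N : ℕ) (δ t y : ℝ) (ht : 0 < t) (hδ : 1 / 10 ≤ δ) (x : ℂ) :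
    ((Finset.range N).filter
      (fun i => x ∈ Metric.ball (pt δ t y i) (2 * ((pt δ t y i).re / 4)))).card ≤ 12 := by
  set s : Finset ℕ := (Finset.range N).filter
      (fun i => x ∈ Metric.ball (pt δ t y i) (2 * ((pt δ t y i).re / 4))) with hs
  have key : ∀ i ∈ s, (pt δ t y i).re < 2 * x.re ∧ 2 * x.re < 3 * (pt δ t y i).re := by
    intro i hi
    rw [hs, Finset.mem_filter] at hi
    have h1 := hi.2
    rw [Metric.mem_ball, dist_eq_norm] at h1
    have hre := (Complex.abs_re_le_norm (x - pt δ t y i)).trans_lt h1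
    rw [sub_re, abs_lt] at hre
    constructor <;> linarith [hre.1, hre.2]
  rcases s.eq_empty_or_nonempty with h0 | h0
  · rw [h0]; simp
  · set i0 := s.min' h0 with hi0
    have hi0s : i0 ∈ s := Finset.min'_mem s h0
    have hsub : s ⊆ Finset.Icc i0 (i0 + 11) := by
      intro j hj
      have h1 : i0 ≤ j := Finset.min'_le s j hj
      rw [Finset.mem_Icc]
      refine ⟨h1, ?_⟩
      by_contra h2
      push Not at h2
      have h3 : (i0 : ℝ) + 12 ≤ j := by exact_mod_cast h2
      have h4 := key i0 hi0s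
      have h5 := key j hj
      rw [pt_re] at h4 h5
      have h6 : Real.exp (i0 * δ) * 3 ≤ Real.exp (j * δ) := by
        have h7 : Real.exp (i0 * δ + 12 / 10) ≤ Real.exp (j * δ) := by
          apply Real.exp_le_exp.2
          nlinarith
        rw [Real.exp_add] at h7
        have := exp_12
        have h8 := Real.exp_pos (i0 * δ)
        nlinarith
      have h9 : t * (Real.exp (i0 * δ) * 3) ≤ t * Real.exp (j * δ) :=
        mul_le_mul_of_nonneg_left h6 ht.le
      linarith [h4.2, h5.1]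
    refine (Finset.card_le_card hsub).trans ?_
    rw [Nat.card_Icc]
    omega

end WSEGU_

open WSEGU_ in
theorem p_WSEGU (h1 : T_DISP1) : T_WSEGU := by
  classical
  refine ⟨480 / Real.pi, by positivity, ?_⟩
  intro n hn t y f ht hf
  have hn0 : (2 : ℝ) ≤ n := by exact_mod_cast hn
  have hnpos : (0 : ℝ) < n := by linarith
  change DifferentiableOn ℂ f (D n t y) at hf
  change _ ≤ _ * ∫⁻ u in D n t y, ‖deriv f u‖ₑ ^ 2
  set L : ℝ := Real.log n with hL
  have hL2 : 1 / 2 ≤ L := by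
    have h2 : Real.log 2 ≤ L := Real.log_le_log (by norm_num) hn0
    have := Real.log_two_gt_d9
    linarith
  set N : ℕ := ⌈8 * L⌉₊ with hN
  have hN1 : 8 * L ≤ N := Nat.le_ceil _
  have hN2 : (N : ℝ) < 8 * L + 1 := Nat.ceil_lt_add_one (by linarith)
  have hN0 : (0 : ℝ) < N := by linarith
  obtain ⟨δ, hδ⟩ : ∃ δ : ℝ, δ = L / N := ⟨_, rfl⟩
  have hNδ : N * δ = L := by rw [hδ]; field_simp
  have hδ1 : δ ≤ 1 / 8 := by rw [hδ, div_le_iff₀ hN0]; linarith
  have hδ2 : 1 / 10 ≤ δ := by rw [hδ, le_div_iff₀ hN0]; linarith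
  have hδ0 : 0 ≤ δ := by linarith
  have hq : Real.exp δ < 5 / 4 := by
    have h2 : 1 - δ ≤ Real.exp (-δ) := by have := Real.add_one_le_exp (-δ); linarith
    rw [Real.exp_neg] at h2
    have h3 := Real.exp_pos δ
    have h4 : (1 - δ) * Real.exp δ ≤ 1 := by
      calc (1 - δ) * Real.exp δ ≤ (Real.exp δ)⁻¹ * Real.exp δ :=
            mul_le_mul_of_nonneg_right h2 h3.le
        _ = 1 := inv_mul_cancel₀ h3.ne'
    nlinarith
  set J := ∫⁻ u in D n t y, ‖deriv f u‖ₑ ^ 2 with hJ
  have hlo : ∀ i : ℕ, t ≤ (pt δ t y i).re := by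
    intro i
    rw [pt_re]
    have h2 : 1 ≤ Real.exp (i * δ) := Real.one_le_exp (by positivity)
    nlinarith
  have hhi : ∀ i : ℕ, i ≤ N → (pt δ t y i).re ≤ n * t := by
    intro i hi
    rw [pt_re]
    have hi' : (i : ℝ) ≤ N := by exact_mod_cast hi
    have h2 : (i : ℝ) * δ ≤ L := by rw [← hNδ]; exact mul_le_mul_of_nonneg_right hi' hδ0
    have h3 : Real.exp (i * δ) ≤ n := by
      rw [← Real.exp_log hnpos]
      exact Real.exp_le_exp.2 h2
    nlinarith
  have hdiff : ∀ i : ℕ, pt δ t y (i + 1) - pt δ t y i =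
      ((t * Real.exp (i * δ) * (Real.exp δ - 1) : ℝ) : ℂ) := by
    intro i
    unfold pt
    have h2 : Real.exp (((i + 1 : ℕ) : ℝ) * δ) = Real.exp (i * δ) * Real.exp δ := by
      rw [← Real.exp_add]; push_cast; ring_nf
    rw [h2]
    push_cast
    ring
  have step : ∀ i ∈ Finset.range N,
      ENNReal.ofReal (‖f (pt δ t y (i + 1)) - f (pt δ t y i)‖ ^ 2) ≤
        ENNReal.ofReal (4 / Real.pi) *
          ∫⁻ u in Metric.ball (pt δ t y i) (2 * ((pt δ t y i).re / 4)), ‖deriv f u‖ₑ ^ 2 := by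
    intro i hi
    rw [Finset.mem_range] at hi
    have hpos : 0 < (pt δ t y i).re / 4 := by linarith [hlo i]
    have hsub := ball_sub (pt_im δ t y i) (hlo i) (hhi i hi.le) ht
    refine h1 (pt δ t y i) ((pt δ t y i).re / 4) f hpos (hf.mono hsub)
      (pt δ t y (i + 1)) ?_ (pt δ t y i) (Metric.mem_ball_self hpos)
    have h2 : 0 ≤ Real.exp δ - 1 := by
      have := Real.one_le_exp hδ0
      linarith
    have h3 := hlo i
    rw [pt_re] at h3
    rw [Metric.mem_ball, dist_eq_norm, hdiff, Complex.norm_real, Real.norm_of_nonneg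
      (mul_nonneg (by linarith) h2), pt_re]
    nlinarith
  have h0 : pt δ t y 0 = (t : ℝ) + y * I := by
    unfold pt
    simp
  have hm : pt δ t y N = (n * t : ℝ) + y * I := by
    unfold pt
    rw [hNδ, hL, Real.exp_log hnpos, mul_comm]
  have htel : f ((n * t : ℝ) + y * I) - f ((t : ℝ) + y * I) =
      ∑ i ∈ Finset.range N, (f (pt δ t y (i + 1)) - f (pt δ t y i)) := by
    rw [Finset.sum_range_sub (fun i => f (pt δ t y i)), h0, hm]
  have hcs : ‖f ((n * t : ℝ) + y * I) - f ((t : ℝ) + y * I)‖ ^ 2 ≤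
      N * ∑ i ∈ Finset.range N, ‖f (pt δ t y (i + 1)) - f (pt δ t y i)‖ ^ 2 := by
    rw [htel]
    have h4 := norm_sum_le (Finset.range N) (fun i => f (pt δ t y (i + 1)) - f (pt δ t y i))
    have h5 := sq_sum_le_card_mul_sum_sq (s := Finset.range N)
      (f := fun i => ‖f (pt δ t y (i + 1)) - f (pt δ t y i)‖)
    rw [Finset.card_range] at h5
    refine le_trans ?_ h5
    gcongr
  have hov : ∑ i ∈ Finset.range N, ∫⁻ u in Metric.ball (pt δ t y i) (2 * ((pt δ t y i).re / 4)),
      ‖deriv f u‖ₑ ^ 2 ≤ (12 : ℕ) * J := by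
    refine overlap_sum (M := 12) (fun i => Metric.ball (pt δ t y i) (2 * ((pt δ t y i).re / 4)))
      (isOpen_D n t y).measurableSet (fun i => Metric.isOpen_ball.measurableSet)
      (fun i hi => ball_sub (pt_im δ t y i) (hlo i) (hhi i hi.le) ht)
      (fun x _ => overlap N δ t y ht hδ2 x) _ ?_
    exact (measurable_deriv f).enorm.pow_const 2
  calc ENNReal.ofReal (‖f ((n * t : ℝ) + y * I) - f ((t : ℝ) + y * I)‖ ^ 2)
      ≤ ENNReal.ofReal (N *
        ∑ i ∈ Finset.range N, ‖f (pt δ t y (i + 1)) - f (pt δ t y i)‖ ^ 2) :=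
          ENNReal.ofReal_le_ofReal hcs
    _ = ENNReal.ofReal N * ∑ i ∈ Finset.range N,
        ENNReal.ofReal (‖f (pt δ t y (i + 1)) - f (pt δ t y i)‖ ^ 2) := by
          rw [ENNReal.ofReal_mul (Nat.cast_nonneg _),
            ENNReal.ofReal_sum_of_nonneg (fun i _ => by positivity)]
    _ ≤ ENNReal.ofReal N * ∑ i ∈ Finset.range N, (ENNReal.ofReal (4 / Real.pi) *
          ∫⁻ u in Metric.ball (pt δ t y i) (2 * ((pt δ t y i).re / 4)), ‖deriv f u‖ₑ ^ 2) := by
          gcongr with i hi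
          exact step i hi
    _ = ENNReal.ofReal N * (ENNReal.ofReal (4 / Real.pi) * ∑ i ∈ Finset.range N,
          ∫⁻ u in Metric.ball (pt δ t y i) (2 * ((pt δ t y i).re / 4)), ‖deriv f u‖ₑ ^ 2) := by
          rw [← Finset.mul_sum]
    _ ≤ ENNReal.ofReal N * (ENNReal.ofReal (4 / Real.pi) * ((12 : ℕ) * J)) := by
          gcongr
    _ = ENNReal.ofReal (N * (4 / Real.pi) * 12) * J := by
          rw [ENNReal.ofReal_mul (by positivity), ENNReal.ofReal_mul (by positivity)]
          have : ENNReal.ofReal 12 = ((12 : ℕ) : ENNReal) := by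
            rw [← ENNReal.ofReal_natCast]; norm_num
          rw [this]
          ring
    _ ≤ ENNReal.ofReal (480 / Real.pi * L) * J := by
          refine mul_le_mul_left (ENNReal.ofReal_le_ofReal ?_) J
          have h6 : (N : ℝ) ≤ 10 * L := by linarith
          have h7 : (N : ℝ) * (4 / Real.pi) * 12 ≤ 10 * L * (4 / Real.pi) * 12 := by gcongr
          refine h7.trans (le_of_eq ?_)
          ring

end Pool.Agent.PLim
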