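import Pool.Agent.PLim.Main4
import Pool.Agent.PLim.ANN
import Pool.Agent.PLim.ATN
import Pool.Agent.PLim.ATTR
import Pool.Agent.PLim.ATU
import Pool.Agent.PLim.BDV
import Pool.Agent.PLim.BIF
import Pool.Agent.PLim.COAL
import Pool.Agent.PLim.COV
import Pool.Agent.PLim.DENS
import Pool.Agent.PLim.EXPAND
import Pool.Agent.PLim.FRO
import Pool.Agent.PLim.HHE
import Pool.Agent.PLim.IMP
import Pool.Agent.PLim.LCL
import Pool.Agent.PLim.LCS
import Pool.Agent.PLim.LIMBU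
import Pool.Agent.PLim.LNE2
import Pool.Agent.PLim.MMA
import Pool.Agent.PLim.NEST
import Pool.Agent.PLim.NEXT2
import Pool.Agent.PLim.NOA
import Pool.Agent.PLim.SEC0
import Pool.Agent.PLim.STRIP
import Pool.Agent.PLim.UNC
import Pool.Agent.PLim.WSEGU

/-!
# PLIM: batches 3 and 4 proved
-/

set_option autoImplicit false

namespace Pool.Agent.PLim

theorem a_WSEGU : T_WSEGU := p_WSEGU a_DISP1
theorem a_ANN : T_ANN := p_ANN
theorem a_STRIP : T_STRIP := p_STRIP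
theorem a_COAL : T_COAL := p_COAL
theorem a_LIMBU : T_LIMBU := p_LIMBU a_ANN a_STRIP a_COAL
theorem a_EXPAND : T_EXPAND := p_EXPAND a_GREEN a_BR a_FIXE
theorem a_COV : T_COV := p_COV
theorem a_FRO : T_FRO := p_FRO
theorem a_LCS : T_LCS := p_LCS a_EXPAND a_COV a_FRO a_BOT a_LOG a_GREEN
theorem a_ATTR : T_ATTR := p_ATTR
theorem a_MMA : T_MMA := p_MMA a_ATTR a_GREEN
theorem a_DENS : T_DENS := p_DENS a_MMA a_LOCZ a_TRANS a_FINF
theorem a_LCL : T_LCL := p_LCL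
theorem a_HHE : T_HHE := p_HHE
theorem a_SEC0 : T_SEC0 := p_SEC0 a_HHE
theorem a_IMP : T_IMP := p_IMP a_LOCZ a_TRANS a_HHE a_SEC0
theorem a_BIF : T_BIF := p_BIF a_IMP a_FINF
theorem a_ATU : T_ATU := p_ATU a_ATTR
theorem a_ATN : T_ATN := p_ATN a_ATU a_TRANS a_LOCZ
theorem a_NOA : T_NOA := p_NOA a_ATN
theorem a_LNE2 : T_LNE2 := p_LNE2 a_SECT a_OMX a_OMC a_LCL a_BIF a_ATN a_NOA a_MMA a_FIXE a_BOT a_LOG a_GREEN
theorem a_BDV : T_BDV := p_BDV a_NOA a_MMA a_LOCZ a_BIG a_CNT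
theorem a_NEST : T_NEST := p_NEST a_CIK
theorem a_NEXT2 : T_NEXT2 := p_NEXT2 a_BDV a_LNE2 a_NEST a_LIMB
theorem a_UNC : T_UNC := p_UNC a_DENS a_LNE2 a_NEXT2 a_LIMB

end Pool.Agent.PLim
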