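import Pool.Agent.PLim.Targets
import Pool.Agent.Multibrot.Contract

/-!
# PLIM: the area argument (TRL)
-/

set_option autoImplicit false

open Complex Filter Topology Set MeasureTheory
open Pool.Agent.Multibrot Pool.Agent.Limb

namespace Pool.Agent.PLim

/-- sum of the norms of the terms of the push-forward -/
noncomputable def TRL_H (n : ℕ) (c : ℂ) (g : ℂ → ℂ) (x : ℂ) : ENNReal :=
  ∑ j ∈ Finset.range n, ‖((n * rt n c j x ^ (n - 1)) ^ 2)⁻¹ * g (rt n c j x)‖ₑ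

lemma TRL_rtm (n : ℕ) (c : ℂ) (j : ℕ) : Measurable (rt n c j) := by
  unfold rt
  exact measurable_const.mul ((measurable_id.sub_const c).pow_const _)

lemma TRL_Hterm (n : ℕ) (c : ℂ) (g : ℂ → ℂ) (x : ℂ) (j : ℕ) :
    ‖((n * rt n c j x ^ (n - 1)) ^ 2)⁻¹ * g (rt n c j x)‖ₑ =
      ENNReal.ofReal |(mulR ((n * rt n c j x ^ (n - 1))⁻¹)).det| * ‖g (rt n c j x)‖ₑ := by
  rw [enorm_mul]
  congr 1
  rw [mulR_det, abs_of_nonneg (by positivity), ← ofReal_norm, ← inv_pow, norm_pow]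

lemma TRL_push {n : ℕ} (hn : 2 ≤ n) (c : ℂ) {g : ℂ → ℂ} (hg : Measurable g)
    {V : Set ℂ} (hV : MeasurableSet V) :
    ∫⁻ x in V, TRL_H n c g x ≤ ∫⁻ w in {w : ℂ | w ^ n + c ∈ V}, ‖g w‖ₑ := by
  have hn0 : n ≠ 0 := by omega
  set S : Set ℂ := {x : ℂ | x - c ∈ Complex.slitPlane} with hS
  have hSm : MeasurableSet S :=
    (Complex.isOpen_slitPlane.preimage (continuous_id.sub continuous_const)).measurableSet
  set Vs : Set ℂ := V ∩ S with hVs
  have hVsm : MeasurableSet Vs := hV.inter hSm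
  have hVae : V =ᵐ[volume] Vs := by
    have : ∀ᵐ x : ℂ, x ∈ S := slit_ae c
    filter_upwards [this] with x hx
    have : (x ∈ V) = (x ∈ Vs) := by
      rw [hVs]
      simp [hx]
    exact this
  rw [setLIntegral_congr hVae]
  have hne : ∀ x ∈ Vs, x ≠ c := by
    intro x hx h
    have h1 : x - c ∈ Complex.slitPlane := hx.2
    rw [h, sub_self] at h1
    exact Complex.slitPlane_ne_zero h1 rfl
  have hder : ∀ j, ∀ x ∈ Vs,
      HasFDerivWithinAt (rt n c j) (mulR ((n * rt n c j x ^ (n - 1))⁻¹)) Vs x := by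
    intro j x hx
    exact (hasFDerivAt_of_hasDerivAt (rt_hasDerivAt hn0 hx.2 j)).hasFDerivWithinAt
  have hinj : ∀ j, j < n → Set.InjOn (rt n c j) Vs := by
    intro j hj x hx x' hx' he
    exact (rt_inj hn0 (hne x hx) hj hj he).1
  have hcv : ∀ j ∈ Finset.range n, ∫⁻ w in rt n c j '' Vs, ‖g w‖ₑ =
      ∫⁻ x in Vs, ENNReal.ofReal |(mulR ((n * rt n c j x ^ (n - 1))⁻¹)).det| *
        ‖g (rt n c j x)‖ₑ := by
    intro j hj
    exact lintegral_image_eq_lintegral_abs_det_fderiv_mul volume hVsm (hder j)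
      (hinj j (Finset.mem_range.1 hj)) _
  have hmeas : ∀ j ∈ Finset.range n, Measurable fun x =>
      ENNReal.ofReal |(mulR ((n * rt n c j x ^ (n - 1))⁻¹)).det| * ‖g (rt n c j x)‖ₑ := by
    intro j _
    simp_rw [mulR_det]
    refine Measurable.mul ?_ (hg.comp (TRL_rtm n c j)).enorm
    apply ENNReal.measurable_ofReal.comp
    have h1 : Measurable fun x => ‖(n * rt n c j x ^ (n - 1))⁻¹‖ ^ 2 :=
      ((((TRL_rtm n c j).pow_const _).const_mul _).inv.norm).pow_const 2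
    have h2 : (fun x => |‖(n * rt n c j x ^ (n - 1))⁻¹‖ ^ 2|) =
        fun x => ‖(n * rt n c j x ^ (n - 1))⁻¹‖ ^ 2 := by
      funext x
      exact abs_of_nonneg (by positivity)
    rw [h2]
    exact h1
  calc ∫⁻ x in Vs, TRL_H n c g x
      = ∫⁻ x in Vs, ∑ j ∈ Finset.range n,
        ENNReal.ofReal |(mulR ((n * rt n c j x ^ (n - 1))⁻¹)).det| * ‖g (rt n c j x)‖ₑ := by
        unfold TRL_H
        congr 1
        funext x
        exact Finset.sum_congr rfl fun j _ => TRL_Hterm n c g x j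
    _ = ∑ j ∈ Finset.range n, ∫⁻ x in Vs,
        ENNReal.ofReal |(mulR ((n * rt n c j x ^ (n - 1))⁻¹)).det| * ‖g (rt n c j x)‖ₑ :=
        lintegral_finsetSum _ hmeas
    _ = ∑ j ∈ Finset.range n, ∫⁻ w in rt n c j '' Vs, ‖g w‖ₑ :=
        (Finset.sum_congr rfl fun j hj => (hcv j hj).symm)
    _ = ∫⁻ w in ⋃ j ∈ Finset.range n, rt n c j '' Vs, ‖g w‖ₑ := by
        rw [lintegral_biUnion_finset]
        · intro j hj j' hj' hne'
          rw [Function.onFun, Set.disjoint_left]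
          rintro _ ⟨x, hx, rfl⟩ ⟨x', hx', he⟩
          exact hne' (rt_inj hn0 (hne x hx) (Finset.mem_range.1 hj) (Finset.mem_range.1 hj')
            he.symm).2
        · intro j hj
          exact measurable_image_of_fderivWithin hVsm (hder j) (hinj j (Finset.mem_range.1 hj))
    _ ≤ ∫⁻ w in {w : ℂ | w ^ n + c ∈ V}, ‖g w‖ₑ := by
        apply lintegral_mono_set
        intro w hw
        simp only [Set.mem_iUnion] at hw
        obtain ⟨j, _, x, hx, rfl⟩ := hw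
        show rt n c j x ^ n + c ∈ V
        rw [rt_pow hn0]
        have : x - c + c = x := by ring
        rw [this]
        exact hx.1

lemma TRL_AAm (p : ℕ) (b r : ℕ → ℂ) : Measurable (AA p b r) := by
  unfold AA
  refine Finset.measurable_sum _ fun j _ => ?_
  exact (((measurable_id.sub_const (b j)).pow_const 2).inv).add
    (((measurable_id.sub_const (b j)).inv).const_mul (r j))

lemma TRL_AAcont (p : ℕ) (b r : ℕ → ℂ) (x : ℂ) (hx : ∀ j, x ≠ b j) :
    ContinuousAt (AA p b r) x := by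
  unfold AA
  refine tendsto_finsetSum _ fun j _ => ?_
  have h1 : ContinuousAt (fun x : ℂ => x - b j) x := continuousAt_id.sub continuousAt_const
  have h2 : x - b j ≠ 0 := sub_ne_zero.2 (hx j)
  exact ((h1.pow 2).inv₀ (pow_ne_zero 2 h2)).add (continuousAt_const.mul (h1.inv₀ h2))

/-- second order Taylor estimate -/
lemma TRL_taylor (b : ℂ) (n : ℕ) : ∃ K : ℝ, 0 ≤ K ∧ ∀ w : ℂ, ‖w - b‖ ≤ 1 →
    ‖w ^ n - b ^ n - n * b ^ (n - 1) * (w - b)‖ ≤ K * ‖w - b‖ ^ 2 := by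
  induction n with
  | zero => exact ⟨0, le_refl _, fun w _ => by simp⟩
  | succ n ih =>
    obtain ⟨K, hK, h⟩ := ih
    refine ⟨(‖b‖ + 1) * K + n * ‖b‖ ^ (n - 1), by positivity, fun w hw => ?_⟩
    have e1 : w ^ (n + 1) - b ^ (n + 1) - ((n + 1 : ℕ) : ℂ) * b ^ (n + 1 - 1) * (w - b) =
        w * (w ^ n - b ^ n - n * b ^ (n - 1) * (w - b)) + n * b ^ (n - 1) * (w - b) ^ 2 := by
      rcases Nat.eq_zero_or_pos n with h0 | h0
      · subst h0
        simp
      · have h1 : b ^ n = b ^ (n - 1) * b := by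
          rw [← pow_succ, Nat.sub_add_cancel h0]
        rw [Nat.add_sub_cancel, pow_succ, pow_succ, h1]
        push_cast
        ring
    rw [e1]
    have h2 : ‖w‖ ≤ ‖b‖ + 1 := by
      have := norm_sub_norm_le w b
      linarith
    calc ‖w * (w ^ n - b ^ n - n * b ^ (n - 1) * (w - b)) + n * b ^ (n - 1) * (w - b) ^ 2‖
        ≤ ‖w * (w ^ n - b ^ n - n * b ^ (n - 1) * (w - b))‖ +
          ‖n * b ^ (n - 1) * (w - b) ^ 2‖ := norm_add_le _ _
      _ = ‖w‖ * ‖w ^ n - b ^ n - n * b ^ (n - 1) * (w - b)‖ +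
          n * ‖b‖ ^ (n - 1) * ‖w - b‖ ^ 2 := by
          rw [norm_mul, norm_mul, norm_mul, norm_pow, norm_pow, Complex.norm_natCast]
      _ ≤ (‖b‖ + 1) * (K * ‖w - b‖ ^ 2) + n * ‖b‖ ^ (n - 1) * ‖w - b‖ ^ 2 := by
          have h3 := mul_le_mul h2 (h w hw) (norm_nonneg _) (by positivity)
          linarith
      _ = _ := by ring

/-- area of an annulus -/
lemma TRL_area (b : ℂ) (ρ R : ℝ) (h0 : 0 ≤ ρ) (h1 : ρ ≤ R) :
    volume {w : ℂ | ρ < ‖w - b‖ ∧ ‖w - b‖ ≤ R} ≤ ENNReal.ofReal (Real.pi * (R ^ 2 - ρ ^ 2)) := by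
  have e1 : {w : ℂ | ρ < ‖w - b‖ ∧ ‖w - b‖ ≤ R} =
      Metric.closedBall b R \ Metric.closedBall b ρ := by
    ext w
    rw [Set.mem_sdiff, Metric.mem_closedBall, Metric.mem_closedBall, dist_eq_norm, not_le]
    exact and_comm
  have hpi : (NNReal.pi : ENNReal) = ENNReal.ofReal Real.pi := by
    rw [ENNReal.ofReal, ← NNReal.coe_real_pi, Real.toNNReal_coe]
  rw [e1, measure_sdiff (Metric.closedBall_subset_closedBall h1)
    Metric.isClosed_closedBall.measurableSet.nullMeasurableSet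
    (measure_closedBall_lt_top).ne, Complex.volume_closedBall, Complex.volume_closedBall, hpi,
    ← ENNReal.ofReal_pow (by linarith), ← ENNReal.ofReal_pow h0,
    ← ENNReal.ofReal_mul (by positivity), ← ENNReal.ofReal_mul (by positivity),
    ← ENNReal.ofReal_sub _ (by positivity)]
  apply ENNReal.ofReal_le_ofReal
  apply le_of_eq
  ring

lemma TRL_AAle (p : ℕ) (b r : ℕ → ℂ) (τ : ℝ) (hτ : 0 < τ) (w : ℂ)
    (hw : ∀ i ∈ Finset.range p, τ ≤ ‖w - b i‖) :
    ‖AA p b r w‖ ≤ ∑ i ∈ Finset.range p, ((τ ^ 2)⁻¹ + ‖r i‖ * τ⁻¹) := by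
  unfold AA
  refine (norm_sum_le _ _).trans (Finset.sum_le_sum fun i hi => ?_)
  have h1 := hw i hi
  refine (norm_add_le _ _).trans (add_le_add ?_ ?_)
  · rw [norm_inv, norm_pow]
    exact inv_anti₀ (by positivity) (pow_le_pow_left₀ hτ.le h1 2)
  · rw [norm_mul, norm_inv]
    exact mul_le_mul_of_nonneg_left (inv_anti₀ hτ h1) (norm_nonneg _)

lemma TRL_annm (b : ℂ) (ρ R : ℝ) : MeasurableSet {w : ℂ | ρ < ‖w - b‖ ∧ ‖w - b‖ ≤ R} := by
  have h : Measurable fun w : ℂ => ‖w - b‖ := (measurable_id.sub_const b).norm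
  exact (measurableSet_lt measurable_const h).inter (measurableSet_le h measurable_const)

lemma TRL_small (A m : ℝ) (hm : 0 < m) : ∀ᶠ ε : ℝ in 𝓝[>] 0, ε * A < m := by
  have h : Tendsto (fun ε : ℝ => ε * A) (𝓝[>] 0) (𝓝 (0 * A)) :=
    (tendsto_id.mul_const A).mono_left nhdsWithin_le_nhds
  rw [zero_mul] at h
  exact h.eventually_lt_const hm

/-- the integral over a thin annulus -/
lemma TRL_ann (p : ℕ) (b r : ℕ → ℂ) (j : ℕ) (t K : ℝ) (ht : 0 < t) (hK : 0 ≤ K)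
    (hb : ∀ i ∈ Finset.range p, i ≠ j → b i ≠ b j) :
    ∃ A : ℝ, 0 ≤ A ∧ ∀ᶠ ε : ℝ in 𝓝[>] 0,
      ∫⁻ w in {w : ℂ | ε * t - K * ε ^ 2 < ‖w - b j‖ ∧ ‖w - b j‖ ≤ ε * t}, ‖AA p b r w‖ₑ ≤
        ENNReal.ofReal (A * ε) := by
  obtain ⟨B, hB⟩ : ∃ B : ℝ, B = ∑ i ∈ Finset.range p, (4 / t ^ 2 + ‖r i‖ * (2 / t)) := ⟨_, rfl⟩
  have hB0 : 0 ≤ B := hB ▸ Finset.sum_nonneg fun i _ => by positivity
  refine ⟨2 * Real.pi * t * K * B, by positivity, ?_⟩
  have f1 : ∀ᶠ ε : ℝ in 𝓝[>] 0, 0 < ε := eventually_mem_nhdsWithin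
  have f2 : ∀ᶠ ε : ℝ in 𝓝[>] 0, ε * 1 < 1 := TRL_small 1 1 one_pos
  have f3 : ∀ᶠ ε : ℝ in 𝓝[>] 0, ε * K < t / 2 := TRL_small K _ (by linarith)
  have f4 : ∀ᶠ ε : ℝ in 𝓝[>] 0, ∀ i ∈ Finset.range p, i ≠ j →
      ε * (3 * t / 2) < ‖b i - b j‖ := by
    rw [Filter.eventually_all_finset]
    intro i hi
    by_cases h : i = j
    · exact Filter.Eventually.of_forall fun ε h' => absurd h h'
    · filter_upwards [TRL_small (3 * t / 2) ‖b i - b j‖
        (norm_pos_iff.2 (sub_ne_zero.2 (hb i hi h)))] with ε hε _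
      exact hε
  filter_upwards [f1, f2, f3, f4] with ε h1 h2 h3 h4
  rw [mul_one] at h2
  have hετ : 0 < ε * (t / 2) := by positivity
  have hKe : K * ε ^ 2 ≤ ε * (t / 2) := by
    have := mul_le_mul_of_nonneg_left h3.le h1.le
    linarith [this, (by ring : ε * (ε * K) = K * ε ^ 2)]
  have hpt : ∀ w ∈ {w : ℂ | ε * t - K * ε ^ 2 < ‖w - b j‖ ∧ ‖w - b j‖ ≤ ε * t},
      ‖AA p b r w‖ₑ ≤ ENNReal.ofReal (B / ε ^ 2) := by
    intro w hw
    rw [← ofReal_norm]
    apply ENNReal.ofReal_le_ofReal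
    have hd : ∀ i ∈ Finset.range p, ε * (t / 2) ≤ ‖w - b i‖ := by
      intro i hi
      by_cases h : i = j
      · rw [h]
        linarith [hw.1]
      · have e1 := h4 i hi h
        have e2 : ‖b i - b j‖ ≤ ‖w - b i‖ + ‖w - b j‖ := by
          have := norm_sub_le (w - b j) (w - b i)
          rw [show w - b j - (w - b i) = b i - b j by ring] at this
          linarith
        linarith [hw.2]
    refine (TRL_AAle p b r _ hετ w hd).trans ?_
    rw [hB, Finset.sum_div]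
    refine Finset.sum_le_sum fun i _ => ?_
    have e3 : ((ε * (t / 2)) ^ 2)⁻¹ = 4 / t ^ 2 / ε ^ 2 := by
      field_simp
      norm_num
    have e4 : ‖r i‖ * (ε * (t / 2))⁻¹ ≤ ‖r i‖ * (2 / t) / ε ^ 2 := by
      have e5 : ‖r i‖ * (ε * (t / 2))⁻¹ = ‖r i‖ * (2 / t) * ε / ε ^ 2 := by
        field_simp
      rw [e5]
      apply div_le_div_of_nonneg_right _ (by positivity)
      exact mul_le_of_le_one_right (by positivity) h2.le
    rw [e3, add_div]
    linarith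
  calc ∫⁻ w in {w : ℂ | ε * t - K * ε ^ 2 < ‖w - b j‖ ∧ ‖w - b j‖ ≤ ε * t}, ‖AA p b r w‖ₑ
      ≤ ∫⁻ _ in {w : ℂ | ε * t - K * ε ^ 2 < ‖w - b j‖ ∧ ‖w - b j‖ ≤ ε * t},
        ENNReal.ofReal (B / ε ^ 2) := setLIntegral_mono' (TRL_annm _ _ _) hpt
    _ = ENNReal.ofReal (B / ε ^ 2) *
        volume {w : ℂ | ε * t - K * ε ^ 2 < ‖w - b j‖ ∧ ‖w - b j‖ ≤ ε * t} :=
        setLIntegral_const _ _
    _ ≤ ENNReal.ofReal (B / ε ^ 2) *
        ENNReal.ofReal (Real.pi * ((ε * t) ^ 2 - (ε * t - K * ε ^ 2) ^ 2)) := by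
        refine mul_le_mul_right ?_ _
        have g1 : 0 ≤ ε * t - K * ε ^ 2 := by
          have : ε * (t / 2) ≤ ε * t := mul_le_mul_of_nonneg_left (by linarith) h1.le
          linarith
        have g2 : ε * t - K * ε ^ 2 ≤ ε * t := by
          have : 0 ≤ K * ε ^ 2 := mul_nonneg hK (sq_nonneg ε)
          linarith
        exact TRL_area _ _ _ g1 g2
    _ ≤ ENNReal.ofReal (2 * Real.pi * t * K * B * ε) := by
        rw [← ENNReal.ofReal_mul (by positivity)]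
        apply ENNReal.ofReal_le_ofReal
        have e6 : B / ε ^ 2 * (Real.pi * ((ε * t) ^ 2 - (ε * t - K * ε ^ 2) ^ 2)) =
            2 * Real.pi * t * K * B * ε - B * Real.pi * K ^ 2 * ε ^ 2 := by
          field_simp
          ring
        rw [e6]
        have : 0 ≤ B * Real.pi * K ^ 2 * ε ^ 2 := by positivity
        linarith

/-- the integral outside of small discs is finite -/
lemma TRL_fin (p : ℕ) (b r : ℕ → ℂ) (C R τ : ℝ) (hR : 1 ≤ R) (hτ : 0 < τ) (V : Set ℂ)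
    (hV : MeasurableSet V) (hVb : ∀ w ∈ V, ∀ i ∈ Finset.range p, τ ≤ ‖w - b i‖)
    (hC : ∀ x : ℂ, R ≤ ‖x‖ → ‖AA p b r x‖ ≤ C * (‖x‖ ^ 3)⁻¹) :
    ∫⁻ w in V, ‖AA p b r w‖ₑ ≠ ⊤ := by
  set M : ℝ := ∑ i ∈ Finset.range p, ((τ ^ 2)⁻¹ + ‖r i‖ * τ⁻¹) with hM
  have hM0 : 0 ≤ M := Finset.sum_nonneg fun i _ => by positivity
  have hint : Integrable (fun x : ℂ => (1 + ‖x‖) ^ (-(3 : ℝ))) := by
    apply integrable_one_add_norm
    rw [Complex.finrank_real_complex]
    norm_num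
  have hint2 : Integrable (fun x : ℂ => (8 * |C| + M * (1 + R) ^ (3 : ℝ)) *
      (1 + ‖x‖) ^ (-(3 : ℝ))) := hint.const_mul _
  have hfin := hint2.lintegral_lt_top
  refine (lt_of_le_of_lt ?_ hfin).ne
  refine (lintegral_mono_ae ?_).trans (setLIntegral_le_lintegral V _)
  filter_upwards [ae_restrict_mem hV] with w hw
  rw [← ofReal_norm]
  apply ENNReal.ofReal_le_ofReal
  have hpos : 0 < 1 + ‖w‖ := by positivity
  have e0 : (1 + ‖w‖) ^ (-(3 : ℝ)) = ((1 + ‖w‖) ^ 3)⁻¹ := by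
    rw [Real.rpow_neg hpos.le]
    norm_num
  rw [e0, add_mul]
  by_cases h : R ≤ ‖w‖
  · have h1 := hC w h
    have h2 : C * (‖w‖ ^ 3)⁻¹ ≤ 8 * |C| * ((1 + ‖w‖) ^ 3)⁻¹ := by
      have e1 : (1 + ‖w‖) ^ 3 ≤ 8 * ‖w‖ ^ 3 := by
        have : (1 + ‖w‖) ^ 3 ≤ (2 * ‖w‖) ^ 3 :=
          pow_le_pow_left₀ (by positivity) (by linarith) 3
        refine this.trans (le_of_eq ?_)
        ring
      have hw0 : 0 < ‖w‖ := by linarith
      have e2 : (‖w‖ ^ 3)⁻¹ ≤ 8 * ((1 + ‖w‖) ^ 3)⁻¹ := by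
        have : 8 * ((1 + ‖w‖) ^ 3)⁻¹ = ((1 + ‖w‖) ^ 3 / 8)⁻¹ := by
          field_simp
        rw [this]
        exact inv_anti₀ (by positivity) (by linarith)
      calc C * (‖w‖ ^ 3)⁻¹ ≤ |C| * (‖w‖ ^ 3)⁻¹ :=
            mul_le_mul_of_nonneg_right (le_abs_self C) (by positivity)
        _ ≤ |C| * (8 * ((1 + ‖w‖) ^ 3)⁻¹) := mul_le_mul_of_nonneg_left e2 (abs_nonneg C)
        _ = _ := by ring
    have h3 : 0 ≤ M * (1 + R) ^ (3 : ℝ) * ((1 + ‖w‖) ^ 3)⁻¹ := by positivity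
    linarith
  · push Not at h
    have h1 := TRL_AAle p b r τ hτ w (hVb w hw)
    have h2 : 1 ≤ (1 + R) ^ (3 : ℝ) * ((1 + ‖w‖) ^ 3)⁻¹ := by
      have e1 : (1 + R) ^ (3 : ℝ) = (1 + R) ^ 3 := by norm_num
      rw [e1, ← div_eq_mul_inv, one_le_div (by positivity)]
      exact pow_le_pow_left₀ (by positivity) (by linarith) 3
    have h3 : 0 ≤ 8 * |C| * ((1 + ‖w‖) ^ 3)⁻¹ := by positivity
    have h4 := mul_le_mul_of_nonneg_left h2 hM0
    linarith

lemma TRL_union (f : ℂ → ENNReal) (S : Finset ℕ) (E : ℕ → Set ℂ) :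
    ∫⁻ w in ⋃ j ∈ S, E j, f w ≤ ∑ j ∈ S, ∫⁻ w in E j, f w := by
  classical
  induction S using Finset.induction_on with
  | empty => simp
  | insert j S hj ih =>
    rw [Finset.set_biUnion_insert, Finset.sum_insert hj]
    exact (lintegral_union_le f _ _).trans (add_le_add_right ih _)

lemma TRL_margin (n p : ℕ) (c : ℂ) (b r : ℕ → ℂ) (hn : 2 ≤ n) (hC : Cyc n p c b) (x0 : ℂ)
    (hs : x0 - c ∈ Complex.slitPlane) (hb : ∀ j, x0 ≠ b j)
    (h : ‖push n c (AA p b r) x0‖ < ∑ j ∈ Finset.range n,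
      ‖((n * rt n c j x0 ^ (n - 1)) ^ 2)⁻¹ * AA p b r (rt n c j x0)‖) :
    ∃ s m : ℝ, 0 < s ∧ 0 < m ∧ (∀ x ∈ Metric.ball x0 s,
      ‖push n c (AA p b r) x‖ₑ + ENNReal.ofReal m ≤ TRL_H n c (AA p b r) x) ∧
      ∀ j ∈ Finset.range p, s < ‖x0 - b j‖ / 2 := by
  have hn0 : n ≠ 0 := by omega
  have hnc : (n : ℂ) ≠ 0 := Nat.cast_ne_zero.2 hn0
  have hx0c : x0 ≠ c := by
    intro e
    rw [e, sub_self] at hs
    exact Complex.slitPlane_ne_zero hs rfl
  set T : ℕ → ℂ → ℂ := fun j x => ((n * rt n c j x ^ (n - 1)) ^ 2)⁻¹ * AA p b r (rt n c j x)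
    with hT
  have hTc : ∀ j, ContinuousAt (T j) x0 := by
    intro j
    have h1 : ContinuousAt (rt n c j) x0 := (rt_hasDerivAt hn0 hs j).continuousAt
    have h2 : ∀ i, rt n c j x0 ≠ b i := by
      intro i e
      apply hb (i + 1)
      rw [hC.step i, ← e, rt_pow hn0]
      ring
    have h3 : ContinuousAt (fun x => AA p b r (rt n c j x)) x0 :=
      ContinuousAt.comp (f := rt n c j) (TRL_AAcont p b r _ h2) h1
    have h4 : (n * rt n c j x0 ^ (n - 1)) ^ 2 ≠ 0 :=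
      pow_ne_zero 2 (mul_ne_zero hnc (pow_ne_zero _ (rt_ne hn0 hx0c j)))
    exact (((continuousAt_const.mul (h1.pow (n - 1))).pow 2).inv₀ h4).mul h3
  have hpush : ∀ x, push n c (AA p b r) x = ∑ j ∈ Finset.range n, T j x := fun x => rfl
  set φ : ℂ → ℝ := fun x => ∑ j ∈ Finset.range n, ‖T j x‖ - ‖∑ j ∈ Finset.range n, T j x‖ with hφ
  have hφc : ContinuousAt φ x0 := by
    have h1 : ContinuousAt (fun x => ∑ j ∈ Finset.range n, ‖T j x‖) x0 :=
      tendsto_finsetSum _ fun j _ => (hTc j).norm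
    have h2 : ContinuousAt (fun x => ∑ j ∈ Finset.range n, T j x) x0 :=
      tendsto_finsetSum _ fun j _ => hTc j
    exact h1.sub h2.norm
  have hφ0 : 0 < φ x0 := by
    rw [hφ]
    have := h
    rw [hpush] at this
    dsimp only
    linarith
  have h1 : ∀ᶠ x in 𝓝 x0, φ x0 / 2 < φ x := hφc.eventually_const_lt (by linarith)
  rw [Metric.eventually_nhds_iff_ball] at h1
  obtain ⟨s1, hs1, h1⟩ := h1
  have h2 : ∀ᶠ s : ℝ in 𝓝[>] 0, ∀ j ∈ Finset.range p, s < ‖x0 - b j‖ / 2 := by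
    rw [Filter.eventually_all_finset]
    intro j _
    filter_upwards [TRL_small 1 (‖x0 - b j‖ / 2) (by
      have := norm_pos_iff.2 (sub_ne_zero.2 (hb j))
      linarith)] with s hs
    linarith
  have h3 : ∀ᶠ s : ℝ in 𝓝[>] 0, s * 1 < s1 := TRL_small 1 s1 hs1
  have h4 : ∀ᶠ s : ℝ in 𝓝[>] 0, 0 < s := eventually_mem_nhdsWithin
  obtain ⟨s, e2, e3, e4⟩ := (h2.and (h3.and h4)).exists
  rw [mul_one] at e3
  refine ⟨s, φ x0 / 2, e4, by linarith, fun x hx => ?_, e2⟩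
  have h5 := h1 x (Metric.ball_subset_ball e3.le hx)
  rw [hpush]
  have h6 : TRL_H n c (AA p b r) x = ENNReal.ofReal (∑ j ∈ Finset.range n, ‖T j x‖) := by
    rw [ENNReal.ofReal_sum_of_nonneg fun j _ => norm_nonneg _]
    unfold TRL_H
    exact Finset.sum_congr rfl fun j _ => (ofReal_norm _).symm
  rw [h6, ← ofReal_norm, ← ENNReal.ofReal_add (norm_nonneg _) (by linarith)]
  apply ENNReal.ofReal_le_ofReal
  have h7 : φ x = ∑ j ∈ Finset.range n, ‖T j x‖ - ‖∑ j ∈ Finset.range n, T j x‖ := rfl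
  linarith

/-- the area argument -/
theorem p_TRL (h1 : T_TRP) (h2 : T_TRI) (h3 : T_TRS) : T_TRL := by
  intro n p c b r hn hC hR hsum hρ
  obtain ⟨C, R, hR1, hdec⟩ := h2 n p c b r hn hC hR hsum
  obtain ⟨x0, hx0s, hx0b, hx0⟩ := h3 n p c b r hn hC
  have hn0 : n ≠ 0 := by omega
  have hnc : (n : ℂ) ≠ 0 := Nat.cast_ne_zero.2 hn0
  obtain ⟨s, m, hs, hm, hmar, hsb⟩ := TRL_margin n p c b r hn hC x0 hx0s hx0b hx0
  have hp := hC.hp
  have hbmod : ∀ j, ∃ i ∈ Finset.range p, b j = b i := by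
    intro j
    induction j using Nat.strong_induction_on with
    | _ j ih =>
      by_cases h : j < p
      · exact ⟨j, Finset.mem_range.2 h, rfl⟩
      · obtain ⟨i, hi, e⟩ := ih (j - p) (by omega)
        refine ⟨i, hi, ?_⟩
        rw [← e, ← hC.per (j - p)]
        congr 1
        omega
  have hfp : ∀ j, 0 < ‖fp n (b j)‖ := by
    intro j
    rw [norm_pos_iff]
    exact mul_ne_zero hnc (pow_ne_zero _ (hC.nz j))
  obtain ⟨t, ht⟩ : ∃ t : ℕ → ℝ, t = fun j => ∏ i ∈ Finset.range j, ‖fp n (b i)‖ := ⟨_, rfl⟩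
  have ht0 : ∀ j, 0 < t j := by
    intro j
    rw [ht]
    exact Finset.prod_pos fun i _ => hfp i
  have htz : t 0 = 1 := by
    rw [ht]
    simp
  have hts : ∀ j, t (j + 1) = ‖fp n (b j)‖ * t j := by
    intro j
    rw [ht]
    dsimp only
    rw [Finset.prod_range_succ, mul_comm]
  have htp : t p ≤ 1 := by
    rw [ht]
    dsimp only
    rw [← norm_prod]
    exact hρ
  choose K hK0 hK using fun j => TRL_taylor (b j) n
  obtain ⟨K', hK'⟩ : ∃ K' : ℕ → ℝ, K' = fun j => K j * t j ^ 2 / ‖fp n (b j)‖ := ⟨_, rfl⟩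
  have hK'0 : ∀ j, 0 ≤ K' j := by
    intro j
    rw [hK']
    have := hfp j
    have := hK0 j
    positivity
  have hann : ∀ j, ∃ A : ℝ, 0 ≤ A ∧ (j ∈ Finset.range p → ∀ᶠ ε : ℝ in 𝓝[>] 0,
      ∫⁻ w in {w : ℂ | ε * t j - K' j * ε ^ 2 < ‖w - b j‖ ∧ ‖w - b j‖ ≤ ε * t j}, ‖AA p b r w‖ₑ ≤
        ENNReal.ofReal (A * ε)) := by
    intro j
    by_cases hj : j ∈ Finset.range p
    · obtain ⟨A, hA, h⟩ := TRL_ann p b r j (t j) (K' j) (ht0 j) (hK'0 j) (fun i hi hij e =>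
        hij (hC.dist i j (Finset.mem_range.1 hi) (Finset.mem_range.1 hj) e))
      exact ⟨A, hA, fun _ => h⟩
    · exact ⟨0, le_refl _, fun h => absurd h hj⟩
  choose A hA0 hA using hann
  have f1 : ∀ᶠ ε : ℝ in 𝓝[>] 0, 0 < ε := eventually_mem_nhdsWithin
  have f2 : ∀ᶠ ε : ℝ in 𝓝[>] 0, ∀ j ∈ Finset.range p, ε * t j < ‖x0 - b j‖ / 2 := by
    rw [Filter.eventually_all_finset]
    intro j _
    exact TRL_small (t j) _ (by
      have := norm_pos_iff.2 (sub_ne_zero.2 (hx0b j))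
      linarith)
  have f3 : ∀ᶠ ε : ℝ in 𝓝[>] 0, ∀ j ∈ Finset.range p, ε * t j < 1 := by
    rw [Filter.eventually_all_finset]
    intro j _
    exact TRL_small (t j) 1 one_pos
  have fA : ∀ᶠ ε : ℝ in 𝓝[>] 0, ∀ j ∈ Finset.range p,
      ∫⁻ w in {w : ℂ | ε * t j - K' j * ε ^ 2 < ‖w - b j‖ ∧ ‖w - b j‖ ≤ ε * t j}, ‖AA p b r w‖ₑ ≤
        ENNReal.ofReal (A j * ε) := by
    rw [Filter.eventually_all_finset]
    exact fun j hj => hA j hj
  have fB : ∀ᶠ ε : ℝ in 𝓝[>] 0, ε * (∑ j ∈ Finset.range p, A j) < m * (Real.pi * s ^ 2) :=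
    TRL_small _ _ (by positivity)
  obtain ⟨ε, g1, g2, g3, gA, gB⟩ := (f1.and (f2.and (f3.and (fA.and fB)))).exists
  set V : Set ℂ := {x : ℂ | ∀ j ∈ Finset.range p, ε * t j < ‖x - b j‖} with hV
  have hVm : MeasurableSet V := by
    have e : V = ⋂ j ∈ Finset.range p, {x : ℂ | ε * t j < ‖x - b j‖} := by
      ext x
      simp [hV]
    rw [e]
    exact Finset.measurableSet_biInter _ fun j _ =>
      measurableSet_lt measurable_const (measurable_id.sub_const (b j)).norm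
  set Ann : ℕ → Set ℂ := fun j =>
    {w : ℂ | ε * t j - K' j * ε ^ 2 < ‖w - b j‖ ∧ ‖w - b j‖ ≤ ε * t j} with hAnn
  have hUV : {w : ℂ | w ^ n + c ∈ V} ⊆ V ∪ ⋃ j ∈ Finset.range p, Ann j := by
    intro w hw
    by_cases hwV : w ∈ V
    · exact Or.inl hwV
    · right
      rw [hV, Set.mem_ofPred_eq] at hwV
      push Not at hwV
      obtain ⟨j, hj, hwj⟩ := hwV
      simp only [Set.mem_iUnion]
      refine ⟨j, hj, ?_, hwj⟩
      have hw' : ∀ i ∈ Finset.range p, ε * t i < ‖w ^ n + c - b i‖ := hw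
      have e1 : ε * (‖fp n (b j)‖ * t j) < ‖w ^ n + c - b (j + 1)‖ := by
        rw [← hts]
        by_cases hj1 : j + 1 < p
        · exact hw' (j + 1) (Finset.mem_range.2 hj1)
        · have hj2 : j + 1 = p := by
            have := Finset.mem_range.1 hj
            omega
          have e2 : b (j + 1) = b 0 := by
            rw [hj2]
            have := hC.per 0
            rwa [zero_add] at this
          rw [e2, hj2]
          refine lt_of_le_of_lt ?_ (hw' 0 (Finset.mem_range.2 (by omega)))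
          rw [htz]
          exact mul_le_mul_of_nonneg_left htp g1.le
      have e3 : w ^ n + c - b (j + 1) =
          (w ^ n - b j ^ n - n * b j ^ (n - 1) * (w - b j)) + fp n (b j) * (w - b j) := by
        rw [hC.step j]
        unfold fp
        ring
      have e4 := hK j w (hwj.trans (g3 j hj).le)
      have e5 : ‖w ^ n + c - b (j + 1)‖ ≤ K j * ‖w - b j‖ ^ 2 + ‖fp n (b j)‖ * ‖w - b j‖ := by
        rw [e3]
        refine (norm_add_le _ _).trans (add_le_add e4 ?_)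
        rw [norm_mul]
      have e6 : ‖w - b j‖ ^ 2 ≤ (ε * t j) ^ 2 := pow_le_pow_left₀ (norm_nonneg _) hwj 2
      have e7 := mul_le_mul_of_nonneg_left e6 (hK0 j)
      have e8 : ‖fp n (b j)‖ * (K' j * ε ^ 2) = K j * (ε * t j) ^ 2 := by
        rw [hK']
        have := (hfp j).ne'
        field_simp
      have e9 : ‖fp n (b j)‖ * (ε * t j - K' j * ε ^ 2) < ‖fp n (b j)‖ * ‖w - b j‖ := by
        rw [mul_sub, e8]
        linarith [(by ring : ε * (‖fp n (b j)‖ * t j) = ‖fp n (b j)‖ * (ε * t j))]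
      exact lt_of_mul_lt_mul_left e9 (hfp j).le
  have hAm := TRL_AAm p b r
  have hfin : ∫⁻ w in V, ‖AA p b r w‖ₑ ≠ ⊤ := by
    obtain ⟨τ, hτ, hτj⟩ : ∃ τ : ℝ, 0 < τ ∧ ∀ j ∈ Finset.range p, τ ≤ ε * t j := by
      have hne : (Finset.range p).Nonempty := ⟨0, Finset.mem_range.2 (by omega)⟩
      obtain ⟨i, hi, hmin⟩ := Finset.exists_min_image (Finset.range p) (fun j => ε * t j) hne
      exact ⟨ε * t i, mul_pos g1 (ht0 i), fun j hj => hmin j hj⟩
    exact TRL_fin p b r C R τ hR1 hτ V hVm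
      (fun w hw i hi => (hτj i hi).trans (hw i hi).le) hdec
  have hball : Metric.ball x0 s ⊆ V := by
    intro x hx j hj
    rw [Metric.mem_ball, dist_eq_norm] at hx
    have e1 := hsb j hj
    have e2 := g2 j hj
    have e3 : ‖x0 - b j‖ ≤ ‖x - b j‖ + ‖x - x0‖ := by
      have := norm_sub_le (x - b j) (x - x0)
      rw [show x - b j - (x - x0) = x0 - b j by ring] at this
      exact this
    linarith
  have hae : ∀ᵐ x : ℂ, ∀ j ∈ Finset.range p, x ≠ b j := by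
    rw [Filter.eventually_all_finset]
    intro j _
    exact compl_mem_ae_iff.2 (measure_singleton (μ := (volume : Measure ℂ)) (b j))
  have haec : ∀ᵐ x : ℂ, x ≠ c :=
    compl_mem_ae_iff.2 (measure_singleton (μ := (volume : Measure ℂ)) c)
  have hpush : ∫⁻ x in V, ‖AA p b r x‖ₑ = ∫⁻ x in V, ‖push n c (AA p b r) x‖ₑ := by
    apply lintegral_congr_ae
    filter_upwards [ae_restrict_of_ae hae, ae_restrict_of_ae haec] with x hx hxc
    have e1 : ∀ j, x ≠ b j := by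
      intro j
      obtain ⟨i, hi, e⟩ := hbmod j
      rw [e]
      exact hx i hi
    rw [h1 n p c b r x hn hC hR hxc e1, hsum, zero_mul, sub_zero]
  have hlow : (∫⁻ x in V, ‖push n c (AA p b r) x‖ₑ) +
      ENNReal.ofReal m * volume (Metric.ball x0 s) ≤ ∫⁻ x in V, TRL_H n c (AA p b r) x := by
    have e1 : ENNReal.ofReal m * volume (Metric.ball x0 s) =
        ∫⁻ x in V, (Metric.ball x0 s).indicator (fun _ => ENNReal.ofReal m) x := by
      rw [lintegral_indicator Metric.isOpen_ball.measurableSet, setLIntegral_const,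
        Measure.restrict_apply Metric.isOpen_ball.measurableSet,
        Set.inter_eq_left.2 hball]
    rw [e1, ← lintegral_add_right _
      (measurable_const.indicator Metric.isOpen_ball.measurableSet)]
    apply lintegral_mono
    intro x
    dsimp only
    by_cases hx : x ∈ Metric.ball x0 s
    · rw [Set.indicator_of_mem hx]
      exact hmar x hx
    · rw [Set.indicator_of_notMem hx, add_zero]
      unfold push TRL_H
      exact enorm_sum_le _ _
  have hup : ∫⁻ x in V, TRL_H n c (AA p b r) x ≤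
      (∫⁻ x in V, ‖AA p b r x‖ₑ) + ENNReal.ofReal (ε * ∑ j ∈ Finset.range p, A j) := by
    calc ∫⁻ x in V, TRL_H n c (AA p b r) x
        ≤ ∫⁻ w in {w : ℂ | w ^ n + c ∈ V}, ‖AA p b r w‖ₑ := TRL_push hn c hAm hVm
      _ ≤ ∫⁻ w in V ∪ ⋃ j ∈ Finset.range p, Ann j, ‖AA p b r w‖ₑ := lintegral_mono_set hUV
      _ ≤ (∫⁻ w in V, ‖AA p b r w‖ₑ) + ∫⁻ w in ⋃ j ∈ Finset.range p, Ann j, ‖AA p b r w‖ₑ :=
          lintegral_union_le _ _ _
      _ ≤ (∫⁻ w in V, ‖AA p b r w‖ₑ) + ENNReal.ofReal (ε * ∑ j ∈ Finset.range p, A j) := by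
          refine add_le_add_right ?_ _
          refine (TRL_union _ _ _).trans ?_
          rw [Finset.mul_sum, ENNReal.ofReal_sum_of_nonneg fun j _ => mul_nonneg g1.le (hA0 j)]
          refine Finset.sum_le_sum fun j hj => ?_
          rw [mul_comm]
          exact gA j hj
  have hkey : ENNReal.ofReal m * volume (Metric.ball x0 s) ≤
      ENNReal.ofReal (ε * ∑ j ∈ Finset.range p, A j) := by
    have e1 := hlow.trans hup
    rw [hpush] at e1
    rw [hpush] at hfin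
    exact (ENNReal.add_le_add_iff_left hfin).1 e1
  have hpi : (NNReal.pi : ENNReal) = ENNReal.ofReal Real.pi := by
    rw [ENNReal.ofReal, ← NNReal.coe_real_pi, Real.toNNReal_coe]
  rw [Complex.volume_ball, hpi, ← ENNReal.ofReal_pow hs.le, ← ENNReal.ofReal_mul (by positivity),
    ← ENNReal.ofReal_mul hm.le, ENNReal.ofReal_le_ofReal_iff
      (mul_nonneg g1.le (Finset.sum_nonneg fun j _ => hA0 j))] at hkey
  linarith [(by ring : m * (s ^ 2 * Real.pi) = m * (Real.pi * s ^ 2))]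

end Pool.Agent.PLim
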