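import Pool.Agent.PLim.Targets

/-!
# PLIM, TRP: the push-forward of the quadratic differential
-/

set_option autoImplicit false

open Complex Filter Topology Set MeasureTheory
open Pool.Agent.Multibrot Pool.Agent.Limb

namespace Pool.Agent.PLim

/-- push-forward of a double pole. -/
lemma trp_double {n : ℕ} (hn : 2 ≤ n) {w a : ℂ} (hw : w ≠ 0) (ha : w ^ n ≠ a ^ n) (ha0 : a ≠ 0) :
    ∑ j ∈ Finset.range n, ((n * (zt n ^ j * w) ^ (n - 1)) ^ 2)⁻¹ * ((zt n ^ j * w - a) ^ 2)⁻¹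
      = ((w ^ n - a ^ n) ^ 2)⁻¹ - fpp n a / fp n a ^ 2 * ((w ^ n - a ^ n)⁻¹ - (w ^ n)⁻¹) := by
  have hn0 : n ≠ 0 := by omega
  have hnc : (n : ℂ) ≠ 0 := Nat.cast_ne_zero.2 hn0
  have hfp : fp n a ≠ 0 := mul_ne_zero hnc (pow_ne_zero _ ha0)
  have hv : ∀ j, (zt n ^ j * w) ^ n = w ^ n := by
    intro j
    rw [mul_pow, ← pow_mul, mul_comm j n, pow_mul, (zt_prim hn0).pow_eq_one, one_pow, one_mul]
  have hva : ∀ j, zt n ^ j * w - a ≠ 0 := by
    intro j h0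
    apply ha
    rw [← hv j, sub_eq_zero.1 h0]
  -- left side
  have hL : HasDerivAt (fun a' : ℂ => ∑ j ∈ Finset.range n,
      ((n * (zt n ^ j * w) ^ (n - 1)) ^ 2)⁻¹ * (n * a' ^ (n - 1) * (zt n ^ j * w - a')⁻¹))
      (∑ j ∈ Finset.range n, ((n * (zt n ^ j * w) ^ (n - 1)) ^ 2)⁻¹ *
        (fpp n a * (zt n ^ j * w - a)⁻¹ + fp n a * ((zt n ^ j * w - a) ^ 2)⁻¹)) a := by
    apply HasDerivAt.fun_sum
    intro j _
    apply HasDerivAt.const_mul
    have h1 : HasDerivAt (fun a' : ℂ => (n : ℂ) * a' ^ (n - 1)) (fpp n a) a := by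
      have h := (hasDerivAt_pow (n - 1) a).const_mul (n : ℂ)
      have e : (n : ℂ) * (((n - 1 : ℕ) : ℂ) * a ^ (n - 1 - 1)) = fpp n a := by
        unfold fpp
        rw [Nat.cast_sub (by omega : 1 ≤ n), Nat.sub_sub]
        push_cast
        ring
      rw [e] at h
      exact h
    have h2 : HasDerivAt (fun a' : ℂ => (zt n ^ j * w - a')⁻¹) (((zt n ^ j * w - a) ^ 2)⁻¹) a := by
      have h := ((hasDerivAt_id a).const_sub (zt n ^ j * w)).fun_inv (hva j)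
      have e : - -(1 : ℂ) / (zt n ^ j * w - id a) ^ 2 = ((zt n ^ j * w - a) ^ 2)⁻¹ := by
        rw [neg_neg, id, one_div]
      rw [e] at h
      exact h
    exact h1.mul h2
  have hR : HasDerivAt (fun a' : ℂ => (w ^ n - a' ^ n)⁻¹ - (w ^ n)⁻¹)
      (fp n a * ((w ^ n - a ^ n) ^ 2)⁻¹) a := by
    have h := (((hasDerivAt_pow n a).const_sub (w ^ n)).fun_inv (sub_ne_zero.2 ha)).sub_const
      ((w ^ n)⁻¹)
    have e : - -((n : ℂ) * a ^ (n - 1)) / (w ^ n - a ^ n) ^ 2 =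
        fp n a * ((w ^ n - a ^ n) ^ 2)⁻¹ := by
      rw [neg_neg, div_eq_mul_inv, fp]
    rw [e] at h
    exact h
  have hev : (fun a' : ℂ => (w ^ n - a' ^ n)⁻¹ - (w ^ n)⁻¹) =ᶠ[𝓝 a] (fun a' : ℂ =>
      ∑ j ∈ Finset.range n,
      ((n * (zt n ^ j * w) ^ (n - 1)) ^ 2)⁻¹ * (n * a' ^ (n - 1) * (zt n ^ j * w - a')⁻¹)) := by
    have hc : ContinuousAt (fun a' : ℂ => a' ^ n) a := by fun_prop
    have := hc.eventually_ne (Ne.symm ha)
    filter_upwards [this] with a' ha'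
    exact (push_pole hn hw (Ne.symm ha')).symm
  have hL' := hL.congr_of_eventuallyEq hev
  have heq := hL'.unique hR
  have hS1 := push_pole hn hw ha
  have e1 : ∑ j ∈ Finset.range n, ((n * (zt n ^ j * w) ^ (n - 1)) ^ 2)⁻¹ *
        (fpp n a * (zt n ^ j * w - a)⁻¹ + fp n a * ((zt n ^ j * w - a) ^ 2)⁻¹) =
      fpp n a / fp n a * (∑ j ∈ Finset.range n, ((n * (zt n ^ j * w) ^ (n - 1)) ^ 2)⁻¹ *
        (n * a ^ (n - 1) * (zt n ^ j * w - a)⁻¹)) +
      fp n a * ∑ j ∈ Finset.range n, ((n * (zt n ^ j * w) ^ (n - 1)) ^ 2)⁻¹ *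
        ((zt n ^ j * w - a) ^ 2)⁻¹ := by
    rw [Finset.mul_sum, Finset.mul_sum, ← Finset.sum_add_distrib]
    refine Finset.sum_congr rfl fun j _ => ?_
    have e : (n : ℂ) * a ^ (n - 1) = fp n a := rfl
    rw [e]
    have : fpp n a = fpp n a / fp n a * fp n a := by field_simp
    conv_lhs => rw [this]
    ring
  rw [e1, hS1] at heq
  have e2 : fp n a * (∑ j ∈ Finset.range n, ((n * (zt n ^ j * w) ^ (n - 1)) ^ 2)⁻¹ *
        ((zt n ^ j * w - a) ^ 2)⁻¹) =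
      fp n a * (((w ^ n - a ^ n) ^ 2)⁻¹ -
        fpp n a / fp n a ^ 2 * ((w ^ n - a ^ n)⁻¹ - (w ^ n)⁻¹)) := by
    have h3 : fp n a * (fpp n a / fp n a ^ 2) = fpp n a / fp n a := by field_simp
    calc _ = fp n a * ((w ^ n - a ^ n) ^ 2)⁻¹ -
        fpp n a / fp n a * ((w ^ n - a ^ n)⁻¹ - (w ^ n)⁻¹) := by
          rw [← heq]; ring
      _ = _ := by rw [← h3]; ring
  exact mul_left_cancel₀ hfp e2

theorem p_TRP : T_TRP := by
  intro n p c b r x hn hC hR hxc hxb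
  have hn0 : n ≠ 0 := by omega
  have hnc : (n : ℂ) ≠ 0 := Nat.cast_ne_zero.2 hn0
  have hw : (x - c) ^ ((n : ℂ)⁻¹) ≠ 0 := by
    intro h0
    apply rt_ne hn0 hxc 0
    unfold rt
    rw [h0, mul_zero]
  have hwn : ((x - c) ^ ((n : ℂ)⁻¹)) ^ n = x - c := Complex.cpow_nat_inv_pow _ hn0
  have hne : ∀ j, ((x - c) ^ ((n : ℂ)⁻¹)) ^ n ≠ b j ^ n := by
    intro j
    rw [hwn]
    intro h0
    apply hxb (j + 1)
    rw [hC.step j, ← h0]
    ring
  have hterm : ∀ i, (∑ j ∈ Finset.range n, ((n * rt n c j x ^ (n - 1)) ^ 2)⁻¹ *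
      (((rt n c j x - b i) ^ 2)⁻¹ + r i * (rt n c j x - b i)⁻¹)) =
      ((x - b (i + 1)) ^ 2)⁻¹ + r (i + 1) * (x - b (i + 1))⁻¹ - r (i + 1) * (x - c)⁻¹ := by
    intro i
    have hb0 := hC.nz i
    have hfp : fp n (b i) ≠ 0 := mul_ne_zero hnc (pow_ne_zero _ hb0)
    have h1 := push_pole hn hw (hne i)
    have h2 := trp_double hn hw (hne i) hb0
    rw [hwn] at h1 h2
    have e0 : (∑ j ∈ Finset.range n, ((n * rt n c j x ^ (n - 1)) ^ 2)⁻¹ *
      (((rt n c j x - b i) ^ 2)⁻¹ + r i * (rt n c j x - b i)⁻¹)) =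
      (∑ j ∈ Finset.range n, ((n * (zt n ^ j * (x - c) ^ ((n : ℂ)⁻¹)) ^ (n - 1)) ^ 2)⁻¹ *
        ((zt n ^ j * (x - c) ^ ((n : ℂ)⁻¹) - b i) ^ 2)⁻¹) +
      r i / fp n (b i) * (∑ j ∈ Finset.range n,
        ((n * (zt n ^ j * (x - c) ^ ((n : ℂ)⁻¹)) ^ (n - 1)) ^ 2)⁻¹ *
          (n * b i ^ (n - 1) * (zt n ^ j * (x - c) ^ ((n : ℂ)⁻¹) - b i)⁻¹)) := by
      rw [Finset.mul_sum, ← Finset.sum_add_distrib]
      refine Finset.sum_congr rfl fun j _ => ?_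
      have e : (n : ℂ) * b i ^ (n - 1) = fp n (b i) := rfl
      rw [e]
      have h3 : r i = r i / fp n (b i) * fp n (b i) := by field_simp
      unfold rt
      conv_lhs => rw [h3]
      ring
    rw [e0, h1, h2, hR.step i]
    have e : x - c - b i ^ n = x - b (i + 1) := by
      rw [hC.step i]; ring
    rw [e]
    ring
  have h1 : push n c (AA p b r) x = ∑ i ∈ Finset.range p,
      (∑ j ∈ Finset.range n, ((n * rt n c j x ^ (n - 1)) ^ 2)⁻¹ *
      (((rt n c j x - b i) ^ 2)⁻¹ + r i * (rt n c j x - b i)⁻¹)) := by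
    unfold push AA
    rw [Finset.sum_comm]
    refine Finset.sum_congr rfl fun j _ => ?_
    rw [Finset.mul_sum]
  have hshift : ∀ g : ℕ → ℂ, g p = g 0 → ∑ i ∈ Finset.range p, g (i + 1) =
      ∑ i ∈ Finset.range p, g i := by
    intro g hg
    have h2 := Finset.sum_range_succ' g p
    rw [Finset.sum_range_succ, hg] at h2
    exact (add_right_cancel h2).symm
  rw [h1, Finset.sum_congr rfl (fun i _ => hterm i), Finset.sum_sub_distrib, ← Finset.sum_mul,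
    hshift r (by simpa using hR.per 0),
    hshift (fun i => ((x - b i) ^ 2)⁻¹ + r i * (x - b i)⁻¹)]
  · rfl
  · have e1 : b p = b 0 := by simpa using hC.per 0
    have e2 : r p = r 0 := by simpa using hR.per 0
    simp only [e1, e2]

end Pool.Agent.PLim
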