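import Pool.Agent.PLim.Targets

/-!
# PLIM: TRS, the triangle inequality is strict somewhere
-/

set_option autoImplicit false

open Complex Filter Topology Set
open Pool.Agent.Multibrot Pool.Agent.Limb

namespace Pool.Agent.PLim

namespace TRSx

lemma AA_mer (p : ℕ) (b r : ℕ → ℂ) (x : ℂ) : MeromorphicAt (AA p b r) x := by
  have h : AA p b r = fun x => ∑ j ∈ Finset.range p, (((x - b j) ^ 2)⁻¹ + r j * (x - b j)⁻¹) := rfl
  rw [h]
  apply MeromorphicAt.fun_sum
  intro j _
  fun_prop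

lemma AA_an {p : ℕ} {b r : ℕ → ℂ} {x : ℂ} (h : ∀ j, j < p → x ≠ b j) :
    AnalyticAt ℂ (AA p b r) x := by
  have h1 : AA p b r = fun x => ∑ j ∈ Finset.range p, (((x - b j) ^ 2)⁻¹ + r j * (x - b j)⁻¹) := rfl
  rw [h1]
  apply Finset.analyticAt_fun_sum
  intro j hj
  have h2 : x - b j ≠ 0 := sub_ne_zero.2 (h j (Finset.mem_range.1 hj))
  have h3 : AnalyticAt ℂ (fun x : ℂ => x - b j) x := by fun_prop
  exact ((h3.pow 2).inv (pow_ne_zero 2 h2)).add (analyticAt_const.mul (h3.inv h2))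

/-- The double pole at `b 0`. -/
lemma AA_pole {n p : ℕ} {c : ℂ} {b r : ℕ → ℂ} (hc : Cyc n p c b) :
    Tendsto (fun w => (w - b 0) ^ 2 * AA p b r w) (𝓝[≠] (b 0)) (𝓝 1) := by
  obtain ⟨q, rfl⟩ : ∃ q, p = q + 1 := ⟨p - 1, (Nat.sub_add_cancel hc.hp).symm⟩
  have h1 : ∀ w, w ≠ b 0 → (w - b 0) ^ 2 * AA (q + 1) b r w =
      (w - b 0) ^ 2 * (∑ j ∈ Finset.range q,
        (((w - b (j + 1)) ^ 2)⁻¹ + r (j + 1) * (w - b (j + 1))⁻¹)) + (1 + r 0 * (w - b 0)) := by
    intro w hw
    have h2 : w - b 0 ≠ 0 := sub_ne_zero.2 hw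
    unfold AA
    rw [Finset.sum_range_succ', mul_add]
    congr 1
    field_simp
  have h3 : ContinuousAt (fun w => (w - b 0) ^ 2 * (∑ j ∈ Finset.range q,
        (((w - b (j + 1)) ^ 2)⁻¹ + r (j + 1) * (w - b (j + 1))⁻¹)) + (1 + r 0 * (w - b 0)))
        (b 0) := by
    apply ContinuousAt.add
    · apply ContinuousAt.mul (by fun_prop)
      refine tendsto_finsetSum _ fun j hj => ?_
      have h4 : b 0 - b (j + 1) ≠ 0 := by
        intro h0
        have := hc.dist 0 (j + 1) (by omega) (by have := Finset.mem_range.1 hj; omega)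
          (sub_eq_zero.1 h0)
        omega
      have h5 : ContinuousAt (fun w : ℂ => w - b (j + 1)) (b 0) := by fun_prop
      exact (((h5.pow 2).inv₀ (pow_ne_zero 2 h4)).add
        ((continuousAt_const (y := r (j + 1))).mul (h5.inv₀ h4))).tendsto
    · fun_prop
  have h6 := h3.tendsto.mono_left (nhdsWithin_le_nhds (s := {b 0}ᶜ))
  have h7 : (b 0 - b 0) ^ 2 * (∑ j ∈ Finset.range q,
        (((b 0 - b (j + 1)) ^ 2)⁻¹ + r (j + 1) * (b 0 - b (j + 1))⁻¹)) +
        (1 + r 0 * (b 0 - b 0)) = 1 := by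
    rw [sub_self]; ring
  rw [h7] at h6
  refine h6.congr' ?_
  filter_upwards [self_mem_nhdsWithin] with w hw
  exact (h1 w hw).symm

lemma AA_ne_top {n p : ℕ} {c : ℂ} {b r : ℕ → ℂ} (hc : Cyc n p c b) (x : ℂ) :
    meromorphicOrderAt (AA p b r) x ≠ ⊤ := by
  have hm : MeromorphicOn (AA p b r) univ := fun x _ => AA_mer p b r x
  refine hm.meromorphicOrderAt_ne_top_of_isPreconnected (x := b 0) isPreconnected_univ
    (mem_univ _) (mem_univ _) ?_
  rw [meromorphicOrderAt_ne_top_iff_eventually_ne_zero (AA_mer p b r _)]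
  have h := (AA_pole (r := r) hc).eventually_ne one_ne_zero
  filter_upwards [h] with w hw h0
  exact hw (by rw [h0, mul_zero])

/-- Rotated poles are not poles. -/
lemma rot_ne {n p : ℕ} {c : ℂ} {b : ℕ → ℂ} (hc : Cyc n p c b) {om : ℂ} (hom : om ^ n = 1)
    (hom1 : om ≠ 1) (j : ℕ) (hj : j < p) : om * b 0 ≠ b j := by
  intro he
  have h1 : b (j + 1) = b 1 := by
    have h := hc.step 0
    rw [zero_add] at h
    rw [hc.step j, ← he, mul_pow, hom, one_mul, ← h]
  have h2 : j = 0 := by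
    rcases Nat.lt_or_ge (j + 1) p with h3 | h3
    · have := hc.dist (j + 1) 1 h3 (by omega) h1
      omega
    · have h4 : j + 1 = p := by omega
      have h5 := hc.per 0
      rw [zero_add, ← h4, h1] at h5
      by_contra h6
      have := hc.dist 1 0 (by omega) (by omega) h5
      omega
  rw [h2] at he
  apply hom1
  have h7 : (om - 1) * b 0 = 0 := by rw [sub_mul, he]; ring
  rcases mul_eq_zero.1 h7 with h | h
  · exact sub_eq_zero.1 h
  · exact absurd h (hc.nz 0)

lemma same_ray {n : ℕ} (T : ℕ → ℂ)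
    (h : ∑ j ∈ Finset.range n, ‖T j‖ ≤ ‖∑ j ∈ Finset.range n, T j‖) {i k : ℕ} (hi : i < n)
    (hk : k < n) (hik : i ≠ k) : SameRay ℝ (T i) (T k) := by
  rw [sameRay_iff_norm_add]
  apply le_antisymm (norm_add_le _ _)
  have hi' := Finset.mem_range.2 hi
  have hk' : k ∈ (Finset.range n).erase i := Finset.mem_erase.2 ⟨hik.symm, Finset.mem_range.2 hk⟩
  rw [← Finset.add_sum_erase _ _ hi', ← Finset.add_sum_erase _ _ hk',
    ← Finset.add_sum_erase _ T hi', ← Finset.add_sum_erase _ T hk', ← add_assoc, ← add_assoc] at h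
  have h1 := norm_add_le (T i + T k) (∑ x ∈ ((Finset.range n).erase i).erase k, T x)
  have h2 := norm_sum_le (((Finset.range n).erase i).erase k) T
  linarith

/-- An analytic function with real values is locally constant. -/
lemma loc_const {g : ℂ → ℂ} {z : ℂ} (hg : AnalyticAt ℂ g z) (hr : ∀ᶠ w in 𝓝 z, (g w).im = 0) :
    ∀ᶠ w in 𝓝 z, g w = g z := by
  rcases hg.eventually_constant_or_nhds_le_map_nhds with h | h
  · exact h
  · exfalso
    have h1 : {y : ℂ | y.im = 0} ∈ map g (𝓝 z) := hr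
    have h2 := h h1
    obtain ⟨e, he, hb⟩ := Metric.mem_nhds_iff.1 h2
    have h3 : (g z).im = 0 := hr.self_of_nhds
    have h4 : g z + ((e / 2 : ℝ) : ℂ) * I ∈ Metric.ball (g z) e := by
      rw [Metric.mem_ball, dist_eq_norm, add_sub_cancel_left, norm_mul, norm_I, mul_one,
        norm_real, Real.norm_eq_abs, abs_of_pos (by linarith)]
      linarith
    have h5 := hb h4
    simp [h3] at h5
    linarith

/-- The terms of the push-forward. -/
noncomputable def TT (n p : ℕ) (b r : ℕ → ℂ) (w : ℂ) : ℂ :=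
  ((n * w ^ (n - 1)) ^ 2)⁻¹ * AA p b r w

lemma exists_rt {n : ℕ} (hn : n ≠ 0) {c x w : ℂ} (hx : x ≠ c) (h : w ^ n = x - c) :
    ∃ i < n, w = rt n c i x := by
  have hnz : (x - c) ^ ((n : ℂ)⁻¹) ≠ 0 := by
    intro h0
    apply rt_ne hn hx 0
    unfold rt
    rw [h0, mul_zero]
  have h1 : (w / (x - c) ^ ((n : ℂ)⁻¹)) ^ n = 1 := by
    rw [div_pow, Complex.cpow_nat_inv_pow _ hn, h, div_self (sub_ne_zero.2 hx)]
  have : NeZero n := ⟨hn⟩
  obtain ⟨i, hi, he⟩ := (zt_prim hn).eq_pow_of_pow_eq_one h1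
  refine ⟨i, hi, ?_⟩
  unfold rt
  rw [he, div_mul_cancel₀ _ hnz]

end TRSx

open TRSx

theorem p_TRS : T_TRS := by
  intro n p c b r hn hc
  by_contra hcon
  push Not at hcon
  have hn0 : n ≠ 0 := by omega
  have hnc : (n : ℂ) ≠ 0 := Nat.cast_ne_zero.2 hn0
  set om : ℂ := zt n with homd
  have hprim : IsPrimitiveRoot om n := zt_prim hn0
  have hom : om ^ n = 1 := hprim.pow_eq_one
  have hom1 : om ≠ 1 := hprim.ne_one (by omega)
  have hom0 : om ≠ 0 := hprim.ne_zero hn0
  -- the open set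
  set W : Set ℂ := {w | w ^ n ∈ slitPlane ∧ ∀ j, j < p → w ^ n + c ≠ b j} with hW
  have hWo : IsOpen W := by
    have e : W = {w | w ^ n ∈ slitPlane} ∩ ⋂ j ∈ Finset.range p, {w | w ^ n + c ≠ b j} := by
      ext w
      simp [hW]
    rw [e]
    apply IsOpen.inter
    · exact isOpen_slitPlane.preimage (by fun_prop)
    · apply isOpen_biInter_finset
      intro j _
      exact isOpen_ne_fun (by fun_prop) (by fun_prop)
  have hmod : ∀ j, ∃ i < p, b j = b i := by
    intro j
    have hp := hc.hp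
    have h1 : ∀ m i, b (i + m * p) = b i := by
      intro m
      induction m with
      | zero => intro i; simp
      | succ m ih =>
        intro i
        rw [Nat.succ_mul, ← add_assoc, hc.per, ih]
    refine ⟨j % p, Nat.mod_lt _ hp, ?_⟩
    conv_lhs => rw [← Nat.mod_add_div j p, mul_comm p, h1]
  have hW0 : ∀ w ∈ W, w ≠ 0 := by
    rintro w hw rfl
    have := hw.1
    rw [zero_pow hn0] at this
    exact slitPlane_ne_zero this rfl
  have hWrot : ∀ w ∈ W, om * w ∈ W := by
    intro w hw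
    refine ⟨?_, ?_⟩
    · rw [mul_pow, hom, one_mul]; exact hw.1
    · intro j hj
      rw [mul_pow, hom, one_mul]; exact hw.2 j hj
  have hWan : ∀ w ∈ W, AnalyticAt ℂ (AA p b r) w := by
    intro w hw
    apply AA_an
    intro j _ he
    obtain ⟨i, hi, hb⟩ := hmod (j + 1)
    apply hw.2 i hi
    rw [← hb, hc.step, he]
  have hSR : ∀ w ∈ W, SameRay ℝ (TT n p b r w) (TT n p b r (om * w)) := by
    intro w hw
    have hx : w ^ n + c ≠ c := by
      intro h
      have h0 : w ^ n = 0 := by linear_combination h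
      exact pow_ne_zero n (hW0 w hw) h0
    obtain ⟨i, hi, hwi⟩ := exists_rt hn0 (w := w) hx (by ring)
    obtain ⟨k, hk, hwk⟩ := exists_rt hn0 (w := om * w) hx (by rw [mul_pow, hom]; ring)
    have hik : i ≠ k := by
      rintro rfl
      rw [← hwi] at hwk
      apply hom1
      have := hW0 w hw
      field_simp at hwk
      exact hwk
    have h1 := hcon (w ^ n + c) (by simpa using hw.1) (by
      intro j he
      obtain ⟨i, hi, hb⟩ := hmod j
      exact hw.2 i hi (by rw [he, hb]))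
    have h2 := same_ray (fun j => TT n p b r (rt n c j (w ^ n + c))) h1 hi hk hik
    rwa [← hwi, ← hwk] at h2
  -- a point of `W`
  have hWne : ∃ w, w ∈ W := by
    have h1 : ∀ᶠ t : ℝ in atTop, ∀ j ∈ Finset.range p, (t : ℂ) + c ≠ b j := by
      rw [Filter.eventually_all_finset]
      intro j _
      filter_upwards [eventually_gt_atTop ((b j - c).re)] with t ht he
      have : b j - c = (t : ℂ) := by rw [← he]; ring
      rw [this, ofReal_re] at ht
      exact lt_irrefl _ ht
    obtain ⟨t, ht, ht0⟩ := (h1.and (eventually_gt_atTop 0)).exists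
    refine ⟨(t : ℂ) ^ ((n : ℂ)⁻¹), ?_, ?_⟩
    · rw [Complex.cpow_nat_inv_pow _ hn0]
      exact ofReal_mem_slitPlane.2 ht0
    · intro j hj
      rw [Complex.cpow_nat_inv_pow _ hn0]
      exact ht j (Finset.mem_range.2 hj)
  obtain ⟨w0, hw0⟩ := hWne
  obtain ⟨w1, hw1, hA1⟩ : ∃ w1 ∈ W, AA p b r w1 ≠ 0 := by
    have h1 := (meromorphicOrderAt_ne_top_iff_eventually_ne_zero (AA_mer p b r w0)).1
      (AA_ne_top hc w0)
    have h2 : ∀ᶠ w in 𝓝[≠] w0, w ∈ W :=
      (hWo.eventually_mem hw0).filter_mono nhdsWithin_le_nhds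
    obtain ⟨w, hw, hw'⟩ := (h1.and h2).exists
    exact ⟨w, hw', hw⟩
  have hTan : ∀ w ∈ W, AnalyticAt ℂ (TT n p b r) w := by
    intro w hw
    have h1 : AnalyticAt ℂ (fun w : ℂ => (n * w ^ (n - 1)) ^ 2) w := by fun_prop
    exact (h1.inv (pow_ne_zero 2 (mul_ne_zero hnc (pow_ne_zero _ (hW0 w hw))))).mul (hWan w hw)
  have hTne : ∀ w ∈ W, AA p b r w ≠ 0 → TT n p b r w ≠ 0 := by
    intro w hw hA
    exact mul_ne_zero (inv_ne_zero (pow_ne_zero 2 (mul_ne_zero hnc (pow_ne_zero _ (hW0 w hw))))) hA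
  have hgan : AnalyticAt ℂ (fun w => TT n p b r (om * w) / TT n p b r w) w1 := by
    apply AnalyticAt.div _ (hTan w1 hw1) (hTne w1 hw1 hA1)
    exact (hTan _ (hWrot w1 hw1)).fun_comp (f := fun w => om * w) (by fun_prop)
  have hWev : ∀ᶠ w in 𝓝 w1, w ∈ W ∧ AA p b r w ≠ 0 :=
    (hWo.eventually_mem hw1).and ((hWan w1 hw1).continuousAt.eventually_ne hA1)
  have hreal : ∀ᶠ w in 𝓝 w1, (TT n p b r (om * w) / TT n p b r w).im = 0 := by
    filter_upwards [hWev] with w hw
    obtain ⟨t, _, ht⟩ := (hSR w hw.1).exists_nonneg_left (hTne w hw.1 hw.2)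
    rw [← ht, real_smul, mul_div_assoc, div_self (hTne w hw.1 hw.2), mul_one, ofReal_im]
  have hconst := loc_const hgan hreal
  set κ : ℂ := TT n p b r (om * w1) / TT n p b r w1 with hκ
  have hAeq : ∀ᶠ w in 𝓝 w1, AA p b r (om * w) = κ * (om ^ (n - 1)) ^ 2 * AA p b r w := by
    filter_upwards [hconst, hWev] with w hw hw'
    have h1 := hTne w hw'.1 hw'.2
    rw [div_eq_iff h1] at hw
    unfold TRSx.TT at hw
    have h2 := hW0 w hw'.1
    rw [mul_pow om w] at hw
    field_simp at hw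
    linear_combination hw
  set κ' : ℂ := κ * (om ^ (n - 1)) ^ 2 with hκ'
  -- the identity theorem
  have hfm : ∀ x, MeromorphicAt (fun w => AA p b r (om * w) - κ' * AA p b r w) x := by
    intro x
    apply MeromorphicAt.fun_sub
    · have h := AA_mer p b r (om * x)
      have h1 : AnalyticAt ℂ (fun w : ℂ => om * w) x := by fun_prop
      exact h.comp_analyticAt h1
    · exact (MeromorphicAt.const κ' x).fun_mul (AA_mer p b r x)
  have htop1 : meromorphicOrderAt (fun w => AA p b r (om * w) - κ' * AA p b r w) w1 = ⊤ := by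
    rw [meromorphicOrderAt_eq_top_iff]
    exact (hAeq.mono fun w hw => sub_eq_zero.2 hw).filter_mono nhdsWithin_le_nhds
  have htop : meromorphicOrderAt (fun w => AA p b r (om * w) - κ' * AA p b r w) (b 0) = ⊤ := by
    by_contra h
    have hm : MeromorphicOn (fun w => AA p b r (om * w) - κ' * AA p b r w) univ :=
      fun x _ => hfm x
    exact hm.meromorphicOrderAt_ne_top_of_isPreconnected (x := b 0) isPreconnected_univ
      (mem_univ _) (mem_univ _) h htop1
  rw [meromorphicOrderAt_eq_top_iff] at htop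
  have hpole := AA_pole (r := r) hc
  have hreg : Tendsto (fun w => (w - b 0) ^ 2 * AA p b r (om * w)) (𝓝[≠] (b 0)) (𝓝 0) := by
    have h1 : AnalyticAt ℂ (AA p b r) (om * b 0) := AA_an fun j hj => rot_ne hc hom hom1 j hj
    have h2 : ContinuousAt (fun w => (w - b 0) ^ 2 * AA p b r (om * w)) (b 0) := by
      apply ContinuousAt.mul (by fun_prop)
      exact ContinuousAt.comp' h1.continuousAt (by fun_prop)
    have h3 := h2.tendsto.mono_left (nhdsWithin_le_nhds (s := {b 0}ᶜ))
    simpa using h3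
  have hlim : Tendsto (fun w => (w - b 0) ^ 2 * AA p b r (om * w)) (𝓝[≠] (b 0)) (𝓝 (κ' * 1)) := by
    refine (hpole.const_mul κ').congr' ?_
    filter_upwards [htop] with w hw
    rw [sub_eq_zero.1 hw]
    ring
  have hk0 : κ' = 0 := by
    have := tendsto_nhds_unique hlim hreg
    simpa using this
  -- contradiction
  have hz : ∀ᶠ w in 𝓝[≠] (om * w1), AA p b r w = 0 := by
    have h1 : Tendsto (fun v : ℂ => om⁻¹ * v) (𝓝 (om * w1)) (𝓝 w1) := by
      have h2 : ContinuousAt (fun v : ℂ => om⁻¹ * v) (om * w1) := by fun_prop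
      have h3 := h2.tendsto
      rwa [inv_mul_cancel_left₀ hom0] at h3
    have h4 := h1.eventually hAeq
    refine (h4.mono fun v hv => ?_).filter_mono nhdsWithin_le_nhds
    rw [mul_inv_cancel_left₀ hom0, hk0, zero_mul] at hv
    exact hv
  have hlast := (meromorphicOrderAt_ne_top_iff_eventually_ne_zero (AA_mer p b r (om * w1))).1
      (AA_ne_top hc (om * w1))
  obtain ⟨w, h1, h2⟩ := (hz.and hlast).exists
  exact h2 h1

end Pool.Agent.PLim
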