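import Mathlib
import Pool.Agent.PLim.Targets

/-!
# PLIM: TRANS
-/

set_option autoImplicit false

open Complex Filter Topology Set
open Pool.Agent.Multibrot Pool.Agent.Limb

namespace Pool.Agent.PLim

namespace TRANS_

/-- derivative of `F`. -/
lemma hasDerivAt_F (n : ℕ) (c z : ℂ) : HasDerivAt (F n c) (fp n z) z := by
  unfold fp
  exact (hasDerivAt_pow n z).add_const c

/-- chain rule -/
lemma hasDerivAt_iter (n : ℕ) (c z : ℂ) (k : ℕ) :
    HasDerivAt ((F n c)^[k]) (∏ j ∈ Finset.range k, fp n ((F n c)^[j] z)) z := by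
  induction k with
  | zero => simpa using hasDerivAt_id z
  | succ k ih =>
    rw [Function.iterate_succ', Finset.prod_range_succ, mul_comm]
    exact (hasDerivAt_F n c ((F n c)^[k] z)).comp z ih

lemma Rho_eq (n k : ℕ) (c z : ℂ) :
    Rho n k c z = ∏ j ∈ Finset.range k, fp n ((F n c)^[j] z) :=
  (hasDerivAt_iter n c z k).deriv

/-- logarithmic derivative of a finite product -/
lemma hasDerivAt_prod (g : ℕ → ℂ → ℂ) (g' : ℕ → ℂ) (c0 : ℂ) (k : ℕ)
    (h : ∀ j, HasDerivAt (g j) (g' j) c0) (h0 : ∀ j, g j c0 ≠ 0) :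
    HasDerivAt (fun c => ∏ j ∈ Finset.range k, g j c)
      ((∏ j ∈ Finset.range k, g j c0) * ∑ j ∈ Finset.range k, g' j / g j c0) c0 := by
  induction k with
  | zero => simpa using hasDerivAt_const c0 (1 : ℂ)
  | succ k ih =>
    simp only [Finset.prod_range_succ, Finset.sum_range_succ]
    have h1 := ih.mul (h k)
    have h2 := h0 k
    refine h1.congr_deriv ?_
    field_simp

lemma sum_per (f : ℕ → ℂ) (p : ℕ) (hf : ∀ j, f (j + p) = f j) (m : ℕ) :
    ∑ j ∈ Finset.range (p * m), f j = m * ∑ j ∈ Finset.range p, f j := by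
  have hf' : ∀ i j, f (j + p * i) = f j := by
    intro i
    induction i with
    | zero => intro j; simp
    | succ i ih =>
      intro j
      rw [Nat.mul_succ, ← add_assoc, hf, ih]
  induction m with
  | zero => simp
  | succ m ih =>
    rw [Nat.mul_succ, Finset.sum_range_add, ih]
    have : ∑ x ∈ Finset.range p, f (p * m + x) = ∑ x ∈ Finset.range p, f x := by
      refine Finset.sum_congr rfl (fun x _ => ?_)
      rw [add_comm (p * m) x, hf']
    rw [this]
    push_cast
    ring

lemma prod_per (f : ℕ → ℂ) (p : ℕ) (hf : ∀ j, f (j + p) = f j) (m : ℕ) :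
    ∏ j ∈ Finset.range (p * m), f j = (∏ j ∈ Finset.range p, f j) ^ m := by
  have hf' : ∀ i j, f (j + p * i) = f j := by
    intro i
    induction i with
    | zero => intro j; simp
    | succ i ih =>
      intro j
      rw [Nat.mul_succ, ← add_assoc, hf, ih]
  induction m with
  | zero => simp
  | succ m ih =>
    rw [Nat.mul_succ, Finset.prod_range_add, ih, pow_succ]
    congr 1
    refine Finset.prod_congr rfl (fun x _ => ?_)
    rw [add_comm (p * m) x, hf']

end TRANS_

open TRANS_

theorem p_TRANS (hTRA : T_TRA) (hTRL : T_TRL) : T_TRANS := by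
  intro n k c0 z0 δ r zf hn hk hL hR0 hR1 hR2
  have hc0 : c0 ∈ Metric.ball c0 δ := Metric.mem_ball_self hL.hδ
  have hzf0 : zf c0 = z0 := hL.zf0
  have hfix0 : (F n c0)^[k] z0 = z0 := by
    have := hL.fix c0 hc0
    rwa [hzf0] at this
  -- minimal period
  have hper : Function.IsPeriodicPt (F n c0) k z0 := hfix0
  have hpp : z0 ∈ Function.periodicPts (F n c0) := Function.mk_mem_periodicPts (by omega) hper
  set p := Function.minimalPeriod (F n c0) z0 with hp
  have hp1 : 0 < p := Function.minimalPeriod_pos_of_mem_periodicPts hpp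
  obtain ⟨m, hm⟩ : p ∣ k := hper.minimalPeriod_dvd
  have hm0 : m ≠ 0 := by
    rintro rfl
    omega
  set b : ℕ → ℂ := fun j => (F n c0)^[j] z0 with hb
  have hbper : ∀ j, b (j + p) = b j := by
    intro j
    simp only [hb]
    rw [Function.iterate_add_apply, hp, Function.iterate_minimalPeriod]
  have hbstep : ∀ j, b (j + 1) = b j ^ n + c0 := by
    intro j
    simp only [hb]
    rw [Function.iterate_succ_apply']
    rfl
  have hRk : Rho n k c0 z0 = (∏ j ∈ Finset.range p, fp n (b j)) ^ m := by
    rw [Rho_eq, hm]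
    exact prod_per (fun j => fp n (b j)) p (fun j => by simp only [hbper]) m
  have hprod0 : ∏ j ∈ Finset.range p, fp n (b j) ≠ 0 := by
    intro h
    rw [h, zero_pow hm0] at hRk
    exact hR0 hRk
  have hfp0 : ∀ j, fp n (b j) ≠ 0 := by
    have h1 : ∀ j, j < p → fp n (b j) ≠ 0 := by
      intro j hj
      exact (Finset.prod_ne_zero_iff.1 hprod0) j (Finset.mem_range.2 hj)
    intro j
    have h2 : b j = b (j % p) := by
      have h3 : ∀ i a, b (a + p * i) = b a := by
        intro i
        induction i with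
        | zero => intro a; simp
        | succ i ih => intro a; rw [Nat.mul_succ, ← add_assoc, hbper, ih]
      conv_lhs => rw [← Nat.mod_add_div j p]
      exact h3 _ _
    rw [h2]
    exact h1 _ (Nat.mod_lt _ hp1)
  have hb0 : ∀ j, b j ≠ 0 := by
    intro j h
    refine hfp0 j ?_
    unfold fp
    rw [h, zero_pow (by omega), mul_zero]
  have hcyc : Cyc n p c0 b := by
    refine ⟨hp1, hbstep, hbper, ?_, hb0⟩
    intro i j hi hj hij
    exact Function.iterate_injOn_Iio_minimalPeriod hi hj hij
  have hprod1 : ∏ j ∈ Finset.range p, fp n (b j) ≠ 1 := by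
    intro h
    rw [h, one_pow] at hRk
    exact hR2 hRk
  have hprodle : ‖∏ j ∈ Finset.range p, fp n (b j)‖ ≤ 1 := by
    by_contra hlt
    push Not at hlt
    have h1 : 1 < ‖∏ j ∈ Finset.range p, fp n (b j)‖ ^ m := one_lt_pow₀ hlt hm0
    rw [← norm_pow, ← hRk] at h1
    linarith
  -- the functions beta
  set be : ℕ → ℂ → ℂ := fun j c => (F n c)^[j] (zf c) with hbe
  have hbe0 : ∀ j, be j c0 = b j := by
    intro j
    simp only [hbe, hb, hzf0]
  have hbestep : ∀ j c, be (j + 1) c = be j c ^ n + c := by
    intro j c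
    simp only [hbe]
    rw [Function.iterate_succ_apply']
    rfl
  have hzfd : HasDerivAt zf (deriv zf c0) c0 :=
    (hL.diff.differentiableAt (Metric.isOpen_ball.mem_nhds hc0)).hasDerivAt
  have hbed : ∀ j, DifferentiableAt ℂ (be j) c0 := by
    intro j
    induction j with
    | zero => exact hzfd.differentiableAt
    | succ j ih =>
      have : be (j + 1) = fun c => be j c ^ n + c := by
        funext c
        exact hbestep j c
      rw [this]
      exact (ih.pow n).add differentiableAt_id
  set b' : ℕ → ℂ := fun j => deriv (be j) c0 with hb'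
  have hb'd : ∀ j, HasDerivAt (be j) (b' j) c0 := fun j => (hbed j).hasDerivAt
  have hb'step : ∀ j, b' (j + 1) = fp n (b j) * b' j + 1 := by
    intro j
    have h1 : HasDerivAt (fun c => be j c ^ n + c) (n * be j c0 ^ (n - 1) * b' j + 1) c0 :=
      ((hb'd j).pow n).add (hasDerivAt_id c0)
    have h2 : be (j + 1) = fun c => be j c ^ n + c := by
      funext c
      exact hbestep j c
    have h3 := hb'd (j + 1)
    rw [h2] at h3
    rw [h3.unique h1, hbe0]
    rfl
  have hev : ∀ᶠ c in 𝓝 c0, be p c = zf c := by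
    have hcont : Tendsto (be p) (𝓝 c0) (𝓝 z0) := by
      have h1 := (hbed p).continuousAt.tendsto
      have h2 : be p c0 = z0 := by
        rw [hbe0]
        have := hbper 0
        rw [zero_add] at this
        rw [this]
        rfl
      rwa [h2] at h1
    have h1 : ∀ᶠ c in 𝓝 c0, be p c ∈ Metric.ball z0 r :=
      hcont.eventually (Metric.isOpen_ball.mem_nhds (Metric.mem_ball_self hL.hr))
    filter_upwards [h1, Metric.isOpen_ball.mem_nhds hc0] with c hc1 hc2
    refine hL.uniq c hc2 _ hc1 ?_
    simp only [hbe]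
    rw [← Function.iterate_add_apply, add_comm, Function.iterate_add_apply, hL.fix c hc2]
  have hb'per : ∀ j, b' (j + p) = b' j := by
    intro j
    have h1 : be (j + p) =ᶠ[𝓝 c0] be j := by
      filter_upwards [hev] with c hc
      simp only [hbe] at hc ⊢
      rw [Function.iterate_add_apply, hc]
    exact h1.deriv_eq
  -- derivative of the multiplier
  have hder : HasDerivAt (fun c => Rho n k c (zf c))
      ((∏ j ∈ Finset.range k, fp n (b j)) *
        ∑ j ∈ Finset.range k, (fpp n (b j) * b' j) / fp n (b j)) c0 := by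
    have h1 : (fun c => Rho n k c (zf c)) = fun c => ∏ j ∈ Finset.range k, fp n (be j c) := by
      funext c
      rw [Rho_eq]
    rw [h1]
    have h2 := hasDerivAt_prod (fun j c => fp n (be j c)) (fun j => fpp n (b j) * b' j) c0 k ?_ ?_
    · simp only [hbe0] at h2
      exact h2
    · intro j
      have h3 : HasDerivAt (fp n) (fpp n (b j)) (be j c0) := by
        rw [hbe0]
        unfold fp fpp
        have h4 := (hasDerivAt_pow (n - 1) (b j)).const_mul (n : ℂ)
        have h5 : n - 1 - 1 = n - 2 := by omega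
        rw [h5] at h4
        refine h4.congr_deriv ?_
        rw [Nat.cast_sub (by omega : 1 ≤ n)]
        push_cast
        ring
      exact h3.comp c0 (hb'd j)
    · intro j
      simp only [hbe0]
      exact hfp0 j
  rw [hder.deriv]
  obtain ⟨⟨rr, hrr⟩, hsum⟩ := hTRA n p c0 b hn hcyc hprod1
  have hs := hsum rr b' hrr hb'step hb'per
  have hrr0 : ∑ j ∈ Finset.range p, rr j ≠ 0 := fun h =>
    hTRL n p c0 b rr hn hcyc hrr h hprodle
  have hsk : ∑ j ∈ Finset.range k, (fpp n (b j) * b' j) / fp n (b j) =
      m * ∑ j ∈ Finset.range p, rr j := by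
    rw [hm, sum_per (fun j => (fpp n (b j) * b' j) / fp n (b j)) p
      (fun j => by simp only [hbper, hb'per]) m, hs]
    congr 1
    refine Finset.sum_congr rfl (fun j _ => ?_)
    ring
  rw [hsk]
  refine mul_ne_zero (Finset.prod_ne_zero_iff.2 (fun j _ => hfp0 j)) (mul_ne_zero ?_ hrr0)
  exact_mod_cast hm0

end Pool.Agent.PLim
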