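import Pool.Agent.PLim.Targets

/-!
# PLIM: TRI, decay of the quadratic differential at infinity
-/

set_option autoImplicit false

open Complex Filter Topology Set MeasureTheory
open Pool.Agent.Multibrot Pool.Agent.Limb

namespace Pool.Agent.PLim

/-- The expansion of one term at infinity. -/
lemma tri_term (b r x : ℂ) (hx : 1 ≤ ‖x‖) (hb : 2 * ‖b‖ ≤ ‖x‖) :
    ‖(((x - b) ^ 2)⁻¹ + r * (x - b)⁻¹) - ((1 + r * b) * (x ^ 2)⁻¹ + r * x⁻¹)‖ ≤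
      (8 * ‖b‖ + 4 * ‖b‖ ^ 2 + 2 * ‖r‖ * ‖b‖ ^ 2) * (‖x‖ ^ 3)⁻¹ := by
  have hx0 : 0 < ‖x‖ := by linarith
  have hxne : x ≠ 0 := norm_pos_iff.1 hx0
  have h1 : ‖x‖ / 2 ≤ ‖x - b‖ := by
    have := norm_sub_norm_le x b
    linarith
  have h2 : 0 < ‖x - b‖ := by linarith
  have hxb : x - b ≠ 0 := norm_pos_iff.1 h2
  have e : (((x - b) ^ 2)⁻¹ + r * (x - b)⁻¹) - ((1 + r * b) * (x ^ 2)⁻¹ + r * x⁻¹) =
      (2 * b * x - b ^ 2) * (x ^ 2)⁻¹ * ((x - b) ^ 2)⁻¹ + r * b ^ 2 * (x ^ 2)⁻¹ * (x - b)⁻¹ := by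
    field_simp
    ring
  rw [e]
  have hinv : ‖x - b‖⁻¹ ≤ 2 * ‖x‖⁻¹ := by
    rw [show 2 * ‖x‖⁻¹ = (‖x‖ / 2)⁻¹ by rw [inv_div]; ring]
    exact inv_anti₀ (by linarith) h1
  have hinv0 : 0 ≤ ‖x - b‖⁻¹ := inv_nonneg.2 (norm_nonneg _)
  have hxi : ‖x‖⁻¹ ≤ 1 := inv_le_one_of_one_le₀ hx
  have hxi0 : 0 < ‖x‖⁻¹ := inv_pos.2 hx0
  have ht : ‖(2 * b * x - b ^ 2) * (x ^ 2)⁻¹ * ((x - b) ^ 2)⁻¹‖ ≤
      (8 * ‖b‖ + 4 * ‖b‖ ^ 2) * (‖x‖ ^ 3)⁻¹ := by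
    rw [norm_mul, norm_mul, norm_inv, norm_inv, norm_pow, norm_pow]
    have h3 : ‖2 * b * x - b ^ 2‖ ≤ 2 * ‖b‖ * ‖x‖ + ‖b‖ ^ 2 := by
      calc ‖2 * b * x - b ^ 2‖ ≤ ‖2 * b * x‖ + ‖b ^ 2‖ := norm_sub_le _ _
        _ = 2 * ‖b‖ * ‖x‖ + ‖b‖ ^ 2 := by
          rw [norm_mul, norm_mul, norm_pow]; simp
    have h4 : (‖x - b‖ ^ 2)⁻¹ ≤ 4 * (‖x‖ ^ 2)⁻¹ := by
      rw [← inv_pow, ← inv_pow]
      nlinarith
    have h5 : (2 * ‖b‖ * ‖x‖ + ‖b‖ ^ 2) * (‖x‖ ^ 2)⁻¹ * (4 * (‖x‖ ^ 2)⁻¹) =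
        8 * ‖b‖ * (‖x‖ ^ 3)⁻¹ + 4 * ‖b‖ ^ 2 * (‖x‖ ^ 3)⁻¹ * ‖x‖⁻¹ := by
      field_simp
      ring
    have hb2 : 0 ≤ 4 * ‖b‖ ^ 2 * (‖x‖ ^ 3)⁻¹ := by positivity
    calc ‖2 * b * x - b ^ 2‖ * (‖x‖ ^ 2)⁻¹ * (‖x - b‖ ^ 2)⁻¹
        ≤ (2 * ‖b‖ * ‖x‖ + ‖b‖ ^ 2) * (‖x‖ ^ 2)⁻¹ * (4 * (‖x‖ ^ 2)⁻¹) := by gcongr
      _ = 8 * ‖b‖ * (‖x‖ ^ 3)⁻¹ + 4 * ‖b‖ ^ 2 * (‖x‖ ^ 3)⁻¹ * ‖x‖⁻¹ := h5
      _ ≤ 8 * ‖b‖ * (‖x‖ ^ 3)⁻¹ + 4 * ‖b‖ ^ 2 * (‖x‖ ^ 3)⁻¹ * 1 := by gcongr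
      _ = (8 * ‖b‖ + 4 * ‖b‖ ^ 2) * (‖x‖ ^ 3)⁻¹ := by ring
  have hs : ‖r * b ^ 2 * (x ^ 2)⁻¹ * (x - b)⁻¹‖ ≤ 2 * ‖r‖ * ‖b‖ ^ 2 * (‖x‖ ^ 3)⁻¹ := by
    rw [norm_mul, norm_mul, norm_mul, norm_inv, norm_inv, norm_pow, norm_pow]
    calc ‖r‖ * ‖b‖ ^ 2 * (‖x‖ ^ 2)⁻¹ * ‖x - b‖⁻¹
        ≤ ‖r‖ * ‖b‖ ^ 2 * (‖x‖ ^ 2)⁻¹ * (2 * ‖x‖⁻¹) := by gcongr
      _ = 2 * ‖r‖ * ‖b‖ ^ 2 * (‖x‖ ^ 3)⁻¹ := by
        field_simp
  calc _ ≤ _ := norm_add_le _ _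
    _ ≤ (8 * ‖b‖ + 4 * ‖b‖ ^ 2) * (‖x‖ ^ 3)⁻¹ + 2 * ‖r‖ * ‖b‖ ^ 2 * (‖x‖ ^ 3)⁻¹ := add_le_add ht hs
    _ = _ := by ring

/-- The expansion at infinity. -/
lemma tri_expand (p : ℕ) (b r : ℕ → ℂ) (h0 : ∑ j ∈ Finset.range p, r j = 0) :
    ∃ C R : ℝ, 0 ≤ C ∧ 1 ≤ R ∧ ∀ x : ℂ, R ≤ ‖x‖ →
      ‖AA p b r x - (∑ j ∈ Finset.range p, (1 + r j * b j)) * (x ^ 2)⁻¹‖ ≤ C * (‖x‖ ^ 3)⁻¹ := by
  refine ⟨∑ j ∈ Finset.range p, (8 * ‖b j‖ + 4 * ‖b j‖ ^ 2 + 2 * ‖r j‖ * ‖b j‖ ^ 2),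
    1 + ∑ j ∈ Finset.range p, 2 * ‖b j‖, by positivity, ?_, ?_⟩
  · have : 0 ≤ ∑ j ∈ Finset.range p, 2 * ‖b j‖ := by positivity
    linarith
  · intro x hx
    have hs : 0 ≤ ∑ j ∈ Finset.range p, 2 * ‖b j‖ := by positivity
    have hx1 : 1 ≤ ‖x‖ := by linarith
    have e : AA p b r x - (∑ j ∈ Finset.range p, (1 + r j * b j)) * (x ^ 2)⁻¹ =
        ∑ j ∈ Finset.range p, ((((x - b j) ^ 2)⁻¹ + r j * (x - b j)⁻¹) -
          ((1 + r j * b j) * (x ^ 2)⁻¹ + r j * x⁻¹)) := by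
      rw [Finset.sum_sub_distrib, Finset.sum_add_distrib (f := fun j => (1 + r j * b j) * (x ^ 2)⁻¹),
        ← Finset.sum_mul, ← Finset.sum_mul, h0]
      unfold AA
      ring
    rw [e, Finset.sum_mul]
    refine (norm_sum_le _ _).trans (Finset.sum_le_sum fun j hj => ?_)
    refine tri_term (b j) (r j) x hx1 ?_
    have := Finset.single_le_sum (f := fun j => 2 * ‖b j‖) (fun i _ => by positivity) hj
    linarith

lemma tri_tendsto (p : ℕ) (b r : ℕ → ℂ) (h0 : ∑ j ∈ Finset.range p, r j = 0) :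
    Tendsto (fun x : ℂ => AA p b r x * x ^ 2) (Bornology.cobounded ℂ)
      (𝓝 (∑ j ∈ Finset.range p, (1 + r j * b j))) := by
  obtain ⟨C, R, hC, hR, h⟩ := tri_expand p b r h0
  rw [tendsto_iff_norm_sub_tendsto_zero]
  have hn : Tendsto (fun x : ℂ => ‖x‖) (Bornology.cobounded ℂ) atTop := tendsto_norm_cobounded_atTop
  have hlim : Tendsto (fun x : ℂ => C * ‖x‖⁻¹) (Bornology.cobounded ℂ) (𝓝 0) := by
    have := (tendsto_inv_atTop_zero.comp hn).const_mul C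
    simpa using this
  refine squeeze_zero' (Eventually.of_forall fun x => norm_nonneg _) ?_ hlim
  filter_upwards [hn.eventually (eventually_ge_atTop R)] with x hx
  have hx0 : 0 < ‖x‖ := by linarith
  have hxne : x ≠ 0 := norm_pos_iff.1 hx0
  have e : AA p b r x * x ^ 2 - ∑ j ∈ Finset.range p, (1 + r j * b j) =
      (AA p b r x - (∑ j ∈ Finset.range p, (1 + r j * b j)) * (x ^ 2)⁻¹) * x ^ 2 := by
    field_simp
  rw [e, norm_mul, norm_pow]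
  calc _ ≤ C * (‖x‖ ^ 3)⁻¹ * ‖x‖ ^ 2 := by gcongr; exact h x hx
    _ = C * ‖x‖⁻¹ := by
      field_simp

lemma rt_norm_real {n : ℕ} (hn : n ≠ 0) (c : ℂ) (j : ℕ) {s : ℝ} (hs : 0 ≤ s) :
    ‖rt n c j (c + (s : ℂ) ^ n)‖ = s := by
  have h := rt_pow hn c j (c + (s : ℂ) ^ n)
  rw [add_sub_cancel_left] at h
  have h2 : ‖rt n c j (c + (s : ℂ) ^ n)‖ ^ n = s ^ n := by
    rw [← norm_pow, h, norm_pow, Complex.norm_real, Real.norm_of_nonneg hs]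
  exact (pow_left_inj₀ (norm_nonneg _) hs hn).1 h2

theorem p_TRI (hP : T_TRP) : T_TRI := by
  intro n p c b r hn hcyc hres h0
  have hn0 : n ≠ 0 := by omega
  have hnc : (n : ℂ) ≠ 0 := Nat.cast_ne_zero.2 hn0
  set a : ℂ := ∑ j ∈ Finset.range p, (1 + r j * b j) with ha
  have ht := tri_tendsto p b r h0
  rw [← ha] at ht
  -- the left side
  have hpow : Tendsto (fun s : ℝ => (s : ℂ) ^ n) atTop (Bornology.cobounded ℂ) := by
    rw [← tendsto_norm_atTop_iff_cobounded]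
    have : Tendsto (fun s : ℝ => s ^ n) atTop atTop := tendsto_pow_atTop hn0
    refine this.congr' ?_
    filter_upwards [eventually_ge_atTop 0] with s hs
    rw [norm_pow, Complex.norm_real, Real.norm_of_nonneg hs]
  have hx : Tendsto (fun s : ℝ => c + (s : ℂ) ^ n) atTop (Bornology.cobounded ℂ) := by
    rw [← tendsto_norm_atTop_iff_cobounded]
    have h1 := tendsto_norm_atTop_iff_cobounded.2 hpow
    have h2 : Tendsto (fun s : ℝ => ‖(s : ℂ) ^ n‖ - ‖c‖) atTop atTop :=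
      tendsto_atTop_add_const_right _ _ h1
    refine tendsto_atTop_mono (fun s => ?_) h2
    have := norm_sub_norm_le ((s : ℂ) ^ n) (-c)
    rw [sub_neg_eq_add, norm_neg, add_comm] at this
    exact this
  have hv : ∀ j, Tendsto (fun s : ℝ => rt n c j (c + (s : ℂ) ^ n)) atTop
      (Bornology.cobounded ℂ) := by
    intro j
    rw [← tendsto_norm_atTop_iff_cobounded]
    refine tendsto_id.congr' ?_
    filter_upwards [eventually_ge_atTop 0] with s hs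
    rw [rt_norm_real hn0 c j hs]
    rfl
  have hratio : Tendsto (fun s : ℝ => ((s : ℂ) ^ n / (c + (s : ℂ) ^ n)) ^ 2) atTop (𝓝 1) := by
    have h1 : Tendsto (fun s : ℝ => 1 - c * (c + (s : ℂ) ^ n)⁻¹) atTop (𝓝 (1 - c * 0)) :=
      tendsto_const_nhds.sub ((tendsto_inv₀_cobounded.comp hx).const_mul c)
    have h2 : Tendsto (fun s : ℝ => (1 - c * (c + (s : ℂ) ^ n)⁻¹) ^ 2) atTop
        (𝓝 ((1 - c * 0) ^ 2)) := h1.pow 2
    rw [mul_zero, sub_zero, one_pow] at h2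
    refine h2.congr' ?_
    have hne : ∀ᶠ x : ℂ in Bornology.cobounded ℂ, x ≠ 0 := Bornology.eventually_ne_cobounded 0
    filter_upwards [hx.eventually hne] with s hs
    congr 1
    rw [eq_div_iff hs, sub_mul, mul_assoc, inv_mul_cancel₀ hs]
    ring
  have hL : Tendsto (fun s : ℝ => AA p b r (c + (s : ℂ) ^ n) * (c + (s : ℂ) ^ n) ^ 2 *
      ((s : ℂ) ^ n / (c + (s : ℂ) ^ n)) ^ 2) atTop (𝓝 (a * 1)) :=
    (ht.comp hx).mul hratio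
  rw [mul_one] at hL
  have hRt : Tendsto (fun s : ℝ => ∑ j ∈ Finset.range n, ((n : ℂ) ^ 2)⁻¹ *
      (AA p b r (rt n c j (c + (s : ℂ) ^ n)) * rt n c j (c + (s : ℂ) ^ n) ^ 2)) atTop
      (𝓝 (∑ j ∈ Finset.range n, ((n : ℂ) ^ 2)⁻¹ * a)) :=
    tendsto_finsetSum _ fun j _ => (ht.comp (hv j)).const_mul _
  have heq : ∀ᶠ s : ℝ in atTop, AA p b r (c + (s : ℂ) ^ n) * (c + (s : ℂ) ^ n) ^ 2 *
      ((s : ℂ) ^ n / (c + (s : ℂ) ^ n)) ^ 2 =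
      ∑ j ∈ Finset.range n, ((n : ℂ) ^ 2)⁻¹ *
      (AA p b r (rt n c j (c + (s : ℂ) ^ n)) * rt n c j (c + (s : ℂ) ^ n) ^ 2) := by
    have hnb : ∀ᶠ s : ℝ in atTop, ∀ j ∈ Finset.range p, c + (s : ℂ) ^ n ≠ b j := by
      rw [Filter.eventually_all_finset]
      intro j _
      exact hx.eventually (Bornology.eventually_ne_cobounded (b j))
    filter_upwards [hnb, hx.eventually (Bornology.eventually_ne_cobounded 0), eventually_gt_atTop 0]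
      with s hs1 hs2 hs3
    have hsn : (s : ℂ) ^ n ≠ 0 := pow_ne_zero _ (by exact_mod_cast hs3.ne')
    have hxc : c + (s : ℂ) ^ n ≠ c := by
      intro h
      exact hsn (by linear_combination h)
    have hbj : ∀ j, c + (s : ℂ) ^ n ≠ b j := by
      intro j
      have hper : ∀ m j : ℕ, b (j + m * p) = b j := by
        intro m
        induction m with
        | zero => intro j; simp
        | succ m ih =>
          intro j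
          rw [show j + (m + 1) * p = (j + m * p) + p by ring, hcyc.per, ih]
      have e : b j = b (j % p) := by
        conv_lhs => rw [← Nat.mod_add_div j p, mul_comm p]
        exact hper _ _
      rw [e]
      exact hs1 _ (Finset.mem_range.2 (Nat.mod_lt _ hcyc.hp))
    have hpush := hP n p c b r (c + (s : ℂ) ^ n) hn hcyc hres hxc hbj
    rw [h0, zero_mul, sub_zero] at hpush
    have e1 : AA p b r (c + (s : ℂ) ^ n) * (c + (s : ℂ) ^ n) ^ 2 *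
        ((s : ℂ) ^ n / (c + (s : ℂ) ^ n)) ^ 2 = AA p b r (c + (s : ℂ) ^ n) * ((s : ℂ) ^ n) ^ 2 := by
      field_simp
    rw [e1, ← hpush]
    unfold push
    rw [Finset.sum_mul]
    refine Finset.sum_congr rfl fun j _ => ?_
    have hvn : rt n c j (c + (s : ℂ) ^ n) ^ n = (s : ℂ) ^ n := by
      rw [rt_pow hn0, add_sub_cancel_left]
    have hv0 : rt n c j (c + (s : ℂ) ^ n) ≠ 0 := rt_ne hn0 hxc j
    set v := rt n c j (c + (s : ℂ) ^ n) with hvdef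
    have e2 : (s : ℂ) ^ n = v ^ (n - 1) * v := by
      rw [← hvn, ← pow_succ, Nat.sub_add_cancel (by omega)]
    rw [e2]
    have hv1 : v ^ (n - 1) ≠ 0 := pow_ne_zero _ hv0
    field_simp
  have huniq := tendsto_nhds_unique (hL.congr' heq) hRt
  have ha0 : a = 0 := by
    rw [Finset.sum_const, Finset.card_range, nsmul_eq_mul] at huniq
    have h1 : a * n = a := by
      have : (n : ℂ) * (((n : ℂ) ^ 2)⁻¹ * a) = a / n := by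
        field_simp
      rw [this] at huniq
      rw [eq_div_iff hnc] at huniq
      exact huniq
    have h2 : a * ((n : ℂ) - 1) = 0 := by linear_combination h1
    rcases mul_eq_zero.1 h2 with h | h
    · exact h
    · exfalso
      have : (n : ℂ) = 1 := by linear_combination h
      have h3 : n = 1 := by exact_mod_cast this
      omega
  obtain ⟨C, R, hC, hR, hb⟩ := tri_expand p b r h0
  refine ⟨C, R, hR, fun x hx => ?_⟩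
  have := hb x hx
  rw [← ha, ha0, zero_mul, sub_zero] at this
  exact this

end Pool.Agent.PLim
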