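import Pool.Agent.PLim.Targets

/-!
# PLIM, TRA: the residues exist and their sum is the logarithmic derivative of the multiplier
-/

set_option autoImplicit false

open Complex Filter Topology Set
open Pool.Agent.Multibrot Pool.Agent.Limb

namespace Pool.Agent.PLim

namespace TRA_

/-- the solution of the recursion with initial value `x` -/
noncomputable def sol (a g : ℕ → ℂ) (x : ℂ) : ℕ → ℂ
  | 0 => x
  | j + 1 => a j * sol a g x j - g j

theorem sol_eq (a g : ℕ → ℂ) (x : ℂ) (j : ℕ) :
    sol a g x j = (∏ i ∈ Finset.range j, a i) * x + sol a g 0 j := by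
  induction j with
  | zero => simp [sol]
  | succ j ih =>
    rw [sol, ih, Finset.prod_range_succ, sol]
    ring

theorem sum_shift (p : ℕ) (h : ℕ → ℂ) (hh : h (0 + p) = h 0) :
    ∑ j ∈ Finset.range p, h (j + 1) = ∑ j ∈ Finset.range p, h j := by
  have h1 := Finset.sum_range_succ h p
  have h2 := Finset.sum_range_succ' h p
  rw [zero_add] at hh
  rw [h2, hh] at h1
  exact add_right_cancel h1

end TRA_

open TRA_ in
/-- TRA: the residues exist and their sum is the logarithmic derivative of the multiplier. -/
theorem p_TRA : T_TRA := by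
  intro n p c b hn hC hprod
  have hn0 : (n : ℂ) ≠ 0 := by
    have : n ≠ 0 := by omega
    exact_mod_cast this
  have hf : ∀ j, fp n (b j) ≠ 0 := fun j => mul_ne_zero hn0 (pow_ne_zero _ (hC.nz j))
  refine ⟨?_, ?_⟩
  · set a : ℕ → ℂ := fun j => (fp n (b j))⁻¹ with ha
    set g : ℕ → ℂ := fun j => fpp n (b j) / fp n (b j) ^ 2 with hg
    have hA : ∏ i ∈ Finset.range p, a i ≠ 1 := by
      intro h
      rw [ha, Finset.prod_inv_distrib, inv_eq_one] at h
      exact hprod h
    set A := ∏ i ∈ Finset.range p, a i with hAdef
    have hA' : 1 - A ≠ 0 := sub_ne_zero.mpr (Ne.symm hA)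
    set x := sol a g 0 p / (1 - A) with hx
    have hxp : sol a g x p = x := by
      rw [sol_eq, ← hAdef]
      have h1 : sol a g 0 p = x * (1 - A) := by rw [hx, div_mul_cancel₀ _ hA']
      rw [h1]
      ring
    have hstep : ∀ j, sol a g x (j + 1) = a j * sol a g x j - g j := fun j => rfl
    refine ⟨sol a g x, fun j => ?_, fun j => ?_⟩
    · induction j with
      | zero => rw [zero_add, hxp]; rfl
      | succ j ih =>
        have h1 : j + 1 + p = j + p + 1 := by ring
        rw [h1, hstep, hstep, ih]
        simp only [ha, hg, hC.per j]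
    · rw [hstep, ha, hg]
      simp only
      rw [div_eq_inv_mul (sol _ _ x j)]
  · intro r b' hr hb' hper
    have h1 : ∀ j, fpp n (b j) / fp n (b j) = r j - r (j + 1) * fp n (b j) := fun j => by
      rw [hr.step j]
      have := hf j
      field_simp
      ring
    have h2 : ∀ j, fpp n (b j) / fp n (b j) * b' j =
        r j * b' j - r (j + 1) * b' (j + 1) + r (j + 1) := fun j => by
      rw [h1 j, hb' j]
      ring
    rw [Finset.sum_congr rfl fun j _ => h2 j, Finset.sum_add_distrib, Finset.sum_sub_distrib,
      sum_shift p (fun j => r j * b' j) (by simp only [hr.per 0, hper 0]),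
      sum_shift p r (hr.per 0)]
    ring

end Pool.Agent.PLim
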