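import Pool.Agent.PLim.Targets

/-!
# PLIM, PHI': the Böttcher coordinate of the critical value
-/

set_option autoImplicit false

open Complex Filter Topology Set
open Pool.Agent.Multibrot Pool.Agent.Limb

namespace Pool.Agent.PLim

namespace PHIp_

/-! ### locally injective analytic functions -/

/-- a locally injective analytic function has nonzero derivative -/
theorem deriv_ne_zero_of_injOn {g : ℂ → ℂ} {z₀ : ℂ} {U : Set ℂ} (hg : AnalyticAt ℂ g z₀)
    (hU0 : U ∈ 𝓝 z₀) (hinj : InjOn g U) : deriv g z₀ ≠ 0 := by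
  intro hd
  have hz0 : z₀ ∈ U := mem_of_mem_nhds hU0
  have hfa : AnalyticAt ℂ (fun z => g z - g z₀) z₀ := hg.sub analyticAt_const
  have hfin : analyticOrderAt (fun z => g z - g z₀) z₀ ≠ ⊤ := by
    intro htop
    rw [analyticOrderAt_eq_top] at htop
    have h1 : ∀ᶠ z in 𝓝[≠] z₀, g z - g z₀ = 0 ∧ z ∈ U :=
      (htop.and hU0).filter_mono nhdsWithin_le_nhds
    obtain ⟨z, hz, hne⟩ := (h1.and self_mem_nhdsWithin).exists
    exact hne (hinj hz.2 hz0 (sub_eq_zero.1 hz.1))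
  obtain ⟨m, hm⟩ := ENat.ne_top_iff_exists.1 hfin
  obtain ⟨h, hha, hh0, hev⟩ := (hfa.analyticOrderAt_eq_natCast).1 hm.symm
  have hself : g z₀ - g z₀ = (z₀ - z₀) ^ m • h z₀ := hev.self_of_nhds
  have hm0 : m ≠ 0 := by
    rintro rfl
    simp at hself
    exact hh0 hself.symm
  have hm1 : m ≠ 1 := by
    rintro rfl
    have h1 : (fun z => g z - g z₀) =ᶠ[𝓝 z₀] fun z => (z - z₀) * h z := by
      filter_upwards [hev] with z hz
      rw [hz]; simp
    have h2 : deriv (fun z => g z - g z₀) z₀ = h z₀ := by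
      rw [h1.deriv_eq]
      have h3 : HasDerivAt (fun z => (z - z₀) * h z) (1 * h z₀ + (z₀ - z₀) * deriv h z₀) z₀ :=
        ((hasDerivAt_id z₀).sub_const z₀).mul hha.differentiableAt.hasDerivAt
      rw [h3.deriv]; ring
    have h4 : deriv (fun z => g z - g z₀) z₀ = deriv g z₀ := by
      rw [deriv_sub_const]
    exact hh0 (by rw [← h2, h4, hd])
  have hm2 : 2 ≤ m := by omega
  have hmC : (m : ℂ) ≠ 0 := by exact_mod_cast hm0
  -- local m-th root
  let k : ℂ → ℂ := fun z => Complex.exp (Complex.log (h z / h z₀) / m)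
  have hka : AnalyticAt ℂ k z₀ := by
    have h1 : AnalyticAt ℂ (fun z => h z / h z₀) z₀ := hha.div analyticAt_const hh0
    have h2 : h z₀ / h z₀ ∈ Complex.slitPlane := by
      rw [div_self hh0]; exact Complex.one_mem_slitPlane
    exact ((h1.clog h2).div analyticAt_const hmC).cexp
  have hk0 : k z₀ = 1 := by
    show Complex.exp (Complex.log (h z₀ / h z₀) / m) = 1
    rw [div_self hh0, Complex.log_one, zero_div, Complex.exp_zero]
  let φ : ℂ → ℂ := fun z => (z - z₀) * k z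
  have hφ0 : φ z₀ = 0 := by
    show (z₀ - z₀) * k z₀ = 0
    rw [sub_self, zero_mul]
  have hφa : AnalyticAt ℂ φ z₀ := (analyticAt_id.sub analyticAt_const).mul hka
  have hφd : deriv φ z₀ = 1 := by
    have h3 : HasDerivAt φ (1 * k z₀ + (z₀ - z₀) * deriv k z₀) z₀ :=
      ((hasDerivAt_id z₀).sub_const z₀).mul hka.differentiableAt.hasDerivAt
    rw [h3.deriv, hk0]; ring
  have hφs : HasStrictDerivAt φ 1 z₀ := hφd ▸ hφa.hasStrictDerivAt
  have hmap : map φ (𝓝 z₀) = 𝓝 0 := by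
    rw [hφs.map_nhds_eq one_ne_zero, hφ0]
  have hne : ∀ᶠ z in 𝓝 z₀, h z ≠ 0 := hha.continuousAt.eventually_ne hh0
  have hU : {z | g z - g z₀ = (z - z₀) ^ m • h z ∧ h z ≠ 0 ∧ z ∈ U} ∈ 𝓝 z₀ :=
    hev.and (hne.and hU0)
  have hpow : ∀ z, g z - g z₀ = (z - z₀) ^ m • h z → h z ≠ 0 →
      g z = g z₀ + h z₀ * φ z ^ m := by
    intro z h1 h2
    have h3 : k z ^ m = h z / h z₀ := by
      show Complex.exp (Complex.log (h z / h z₀) / m) ^ m = h z / h z₀
      rw [← Complex.exp_nat_mul, mul_div_cancel₀ _ hmC, Complex.exp_log (div_ne_zero h2 hh0)]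
    have h4 : h z₀ * φ z ^ m = (z - z₀) ^ m * h z := by
      show h z₀ * ((z - z₀) * k z) ^ m = _
      rw [mul_pow, h3]; field_simp
    rw [h4, ← smul_eq_mul, ← h1]; ring
  have hV : φ '' {z | g z - g z₀ = (z - z₀) ^ m • h z ∧ h z ≠ 0 ∧ z ∈ U} ∈ 𝓝 (0 : ℂ) := by
    rw [← hmap]; exact image_mem_map hU
  set ζ : ℂ := Complex.exp (2 * Real.pi * I / m) with hζ
  have hprim : IsPrimitiveRoot ζ m := Complex.isPrimitiveRoot_exp m hm0
  have hcont : Tendsto (fun w : ℂ => ζ * w) (𝓝 0) (𝓝 0) := by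
    have h5 : Continuous fun w : ℂ => ζ * w := continuous_const.mul continuous_id
    have h6 := h5.tendsto 0
    rw [mul_zero] at h6
    exact h6
  have hW : ∀ᶠ w in 𝓝[≠] (0 : ℂ),
      w ∈ φ '' {z | g z - g z₀ = (z - z₀) ^ m • h z ∧ h z ≠ 0 ∧ z ∈ U} ∧
      ζ * w ∈ φ '' {z | g z - g z₀ = (z - z₀) ^ m • h z ∧ h z ≠ 0 ∧ z ∈ U} :=
    (Filter.Eventually.and hV (hcont.eventually hV)).filter_mono nhdsWithin_le_nhds
  obtain ⟨w, ⟨⟨z₁, hz₁, hw₁⟩, ⟨z₂, hz₂, hw₂⟩⟩, hw0⟩ := (hW.and self_mem_nhdsWithin).exists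
  have e1 := hpow z₁ hz₁.1 hz₁.2.1
  have e2 := hpow z₂ hz₂.1 hz₂.2.1
  rw [hw₁] at e1
  rw [hw₂, mul_pow, hprim.pow_eq_one, one_mul] at e2
  have heq : z₁ = z₂ := hinj hz₁.2.2 hz₂.2.2 (e1.trans e2.symm)
  rw [heq, hw₂] at hw₁
  have hw0' : w ≠ 0 := hw0
  have : ζ = 1 := by
    have := mul_right_cancel₀ hw0' (hw₁.trans (one_mul w).symm)
    exact this
  exact hprim.ne_one (by omega) this

/-! ### periodicity -/

variable {n : ℕ} {Λ : ℂ → ℂ → ℂ}

lemma rot_nat (hΛ : IsBot n Λ) {c s : ℂ} (h : G n c 0 < s.re) (m : ℕ) :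
    Λ c (s + m * (2 * Real.pi * I / n)) = Λ c s + m * (2 * Real.pi * I / n) := by
  induction m with
  | zero => simp
  | succ m ih =>
    have hre : (s + m * (2 * Real.pi * I / n)).re = s.re := by
      have e : (m : ℂ) * (2 * Real.pi * I / n) = ((m * (2 * Real.pi) / n : ℝ) : ℂ) * I := by
        push_cast; ring
      rw [e, Complex.add_re, Complex.re_ofReal_mul, Complex.I_re, mul_zero, add_zero]
    have e1 : s + ((m + 1 : ℕ) : ℂ) * (2 * Real.pi * I / n) =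
        (s + m * (2 * Real.pi * I / n)) + 2 * Real.pi * I / n := by push_cast; ring
    rw [e1, hΛ.rot c _ (by rw [hre]; exact h), ih]
    push_cast; ring

lemma per_nat (hn : 2 ≤ n) (hΛ : IsBot n Λ) {c s : ℂ} (h : G n c 0 < s.re) (j : ℕ) :
    Λ c (s + j * (2 * Real.pi * I)) = Λ c s + j * (2 * Real.pi * I) := by
  have h1 := rot_nat hΛ h (n * j)
  have hnC : (n : ℂ) ≠ 0 := by exact_mod_cast (by omega : n ≠ 0)
  have e : ((n * j : ℕ) : ℂ) * (2 * Real.pi * I / n) = j * (2 * Real.pi * I) := by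
    push_cast; field_simp
  rwa [e] at h1

lemma re_per (s : ℂ) (k : ℤ) : (s + k * (2 * Real.pi * I)).re = s.re := by
  have e : (k : ℂ) * (2 * Real.pi * I) = ((k * (2 * Real.pi) : ℝ) : ℂ) * I := by
    push_cast; ring
  rw [e, Complex.add_re, Complex.re_ofReal_mul, Complex.I_re, mul_zero, add_zero]

lemma exp_per (hn : 2 ≤ n) (hΛ : IsBot n Λ) {c s : ℂ} (h : G n c 0 < s.re) (k : ℤ) :
    exp (Λ c (s + k * (2 * Real.pi * I))) = exp (Λ c s) := by
  obtain ⟨j, rfl | rfl⟩ := k.eq_nat_or_neg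
  · have h1 := per_nat hn hΛ h j
    push_cast at h1 ⊢
    rw [h1, Complex.exp_add, Complex.exp_nat_mul_two_pi_mul_I, mul_one]
  · have h2 : G n c 0 < (s + ((-(j : ℤ) : ℤ) : ℂ) * (2 * Real.pi * I)).re := by rwa [re_per]
    have h1 := per_nat hn hΛ h2 j
    have e : s + ((-(j : ℤ) : ℤ) : ℂ) * (2 * Real.pi * I) + j * (2 * Real.pi * I) = s := by
      push_cast; ring
    rw [e] at h1
    rw [h1, Complex.exp_add, Complex.exp_nat_mul_two_pi_mul_I, mul_one]

lemma crit_iff (hn : 2 ≤ n) (hΛ : IsBot n Λ) {c ζ₀ : ℂ} (hG : G n c 0 < G n c c)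
    (h0 : Crit n Λ c ζ₀) (ζ : ℂ) : Crit n Λ c ζ ↔ exp ζ = exp ζ₀ := by
  constructor
  · intro h
    obtain ⟨k, hk⟩ := hΛ.inj c ζ ζ₀ (by rw [h.2.1]; exact hG) (by rw [h0.2.1]; exact hG)
      (h.2.2.trans h0.2.2.symm)
    rw [Complex.exp_eq_exp_iff_exists_int]
    exact ⟨k, by rw [← hk]; ring⟩
  · intro h
    obtain ⟨k, hk⟩ := Complex.exp_eq_exp_iff_exists_int.1 h
    rw [hk]
    refine ⟨h0.1, by rw [re_per]; exact h0.2.1, ?_⟩
    rw [exp_per hn hΛ (by rw [h0.2.1]; exact hG), h0.2.2]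

/-! ### integer valued functions -/

lemma const_int {w : ℝ → ℂ} (hw : ContinuousOn w (Ici 0)) (he : ∀ t, 0 ≤ t → exp (w t) = 1)
    {T : ℝ} (hT : 0 ≤ T) (hs : ‖w T‖ < 6) : w 0 = 0 := by
  have h1 : ∀ t, 0 ≤ t → ∃ k : ℤ, w t = k * (2 * Real.pi * I) := fun t ht =>
    Complex.exp_eq_one_iff.1 (he t ht)
  have hpi := Real.pi_gt_three
  have hdisc : IsDiscrete (range ((↑) : ℤ → ℝ)) := by
    rw [isDiscrete_iff_discreteTopology]
    exact (Int.isClosedEmbedding_coe_real.isEmbedding.toHomeomorph.symm.isEmbedding).discreteTopology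
  have him : ∀ k : ℤ, ((k : ℂ) * (2 * Real.pi * I)).im / (2 * Real.pi) = k := fun k => by
    have e : (k : ℂ) * (2 * Real.pi * I) = ((k * (2 * Real.pi) : ℝ) : ℂ) * I := by
      push_cast; ring
    rw [e, Complex.im_ofReal_mul, Complex.I_im]
    field_simp
  have hc := isPreconnected_Icc.constant_of_mapsTo (S := Icc (0 : ℝ) T) hdisc
    (f := fun t => (w t).im / (2 * Real.pi)) (by
      have : ContinuousOn w (Icc 0 T) := hw.mono fun t ht => ht.1
      fun_prop) (by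
      intro t ht
      obtain ⟨k, hk⟩ := h1 t ht.1
      refine ⟨k, ?_⟩
      show (k : ℝ) = (w t).im / (2 * Real.pi)
      rw [hk, him]) (x := 0) (y := T) ⟨le_rfl, hT⟩ ⟨hT, le_rfl⟩
  obtain ⟨k0, hk0⟩ := h1 0 le_rfl
  obtain ⟨kT, hkT⟩ := h1 T hT
  simp only [hk0, hkT, him] at hc
  have hk : k0 = kT := by exact_mod_cast hc
  have hn : ‖w T‖ = |(kT : ℝ)| * (2 * Real.pi) := by
    rw [hkT, norm_mul, norm_mul, norm_mul, Complex.norm_I, Complex.norm_intCast,
      Complex.norm_real, Complex.norm_ofNat, Real.norm_eq_abs, abs_of_pos Real.pi_pos]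
    ring
  rw [hn] at hs
  have h5 : |(kT : ℝ)| < 1 := by
    by_contra hcon
    push Not at hcon
    nlinarith
  have h6 : kT = 0 := by
    have : |kT| < 1 := by exact_mod_cast h5
    exact Int.abs_lt_one_iff.1 this
  rw [hk0, hk, h6]
  simp

/-! ### estimates near infinity -/

/-- the facts on the Green function that are used -/
structure Gr (n : ℕ) : Prop where
  nn : ∀ c z : ℂ, 0 ≤ G n c z
  f : ∀ c z : ℂ, G n c (F n c z) = n * G n c z
  log : ∀ c z : ℂ, |G n c z - Real.posLog ‖z‖| ≤ Real.log (1 + ‖c‖)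
  cc : ∀ c : ℂ, G n c c = n * G n c 0

lemma pow_bound {x : ℝ} (hx : 1024 ≤ x) (hn : 2 ≤ n) :
    (8 * x) ^ n * (1 + x) + x ≤ (x ^ 2 / 2) ^ n := by
  have e : x ^ 2 / 2 = (x / 16) * (8 * x) := by ring
  rw [e, mul_pow (x / 16) (8 * x)]
  have h1 : (x / 16) ^ 2 ≤ (x / 16) ^ n := pow_le_pow_right₀ (by linarith) hn
  have h2 : 1 ≤ (8 * x) ^ n := one_le_pow₀ (by linarith)
  have h3 : 4 * x ≤ (x / 16) ^ 2 := by nlinarith
  have h4 : 4 * x * (8 * x) ^ n ≤ (x / 16) ^ n * (8 * x) ^ n :=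
    mul_le_mul_of_nonneg_right (h3.trans h1) (by positivity)
  refine le_trans ?_ h4
  generalize (8 * x) ^ n = P at h2
  nlinarith [mul_nonneg (by linarith : (0 : ℝ) ≤ P - 1) (by linarith : (0 : ℝ) ≤ 3 * x - 1)]

lemma big (hn : 2 ≤ n) (hG : Gr n) {c : ℂ} (hc : 1024 ≤ ‖c‖) :
    8 * ‖c‖ ≤ Real.exp (n * G n c c) := by
  set x := ‖c‖ with hx
  have hx0 : 0 < x := by linarith
  -- the second iterate
  have h1 : x ^ 2 / 2 ≤ ‖c ^ n + c‖ := by
    have h2 : x ^ 2 ≤ x ^ n := pow_le_pow_right₀ (by linarith) hn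
    have h3 : x ^ n - x ≤ ‖c ^ n + c‖ := by
      have h4 := norm_sub_le (c ^ n + c) c
      rw [add_sub_cancel_right, norm_pow] at h4
      linarith
    nlinarith
  have h2 : (8 * x) ^ n * (1 + x) ≤ ‖(c ^ n + c) ^ n + c‖ := by
    have h3 := norm_sub_le ((c ^ n + c) ^ n + c) c
    rw [add_sub_cancel_right, norm_pow] at h3
    have h4 : (x ^ 2 / 2) ^ n ≤ ‖c ^ n + c‖ ^ n := pow_le_pow_left₀ (by positivity) h1 n
    have h5 := pow_bound hc hn
    linarith
  have h3 : G n c ((c ^ n + c) ^ n + c) = n * (n * G n c c) := by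
    have h4 := hG.f c (c ^ n + c)
    have h5 := hG.f c c
    unfold F at h4 h5
    rw [h4, h5]
  have h4 : Real.log ‖(c ^ n + c) ^ n + c‖ - Real.log (1 + x) ≤ n * (n * G n c c) := by
    have h5 := (abs_le.1 (hG.log c ((c ^ n + c) ^ n + c))).1
    rw [h3] at h5
    have h6 : Real.log ‖(c ^ n + c) ^ n + c‖ ≤ Real.posLog ‖(c ^ n + c) ^ n + c‖ :=
      le_max_right _ _
    linarith
  have h5 : (8 * x) ^ n ≤ Real.exp (n * G n c c) ^ n := by
    rw [← Real.exp_nat_mul]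
    refine le_trans ?_ (Real.exp_le_exp.2 h4)
    have h6 : 0 < ‖(c ^ n + c) ^ n + c‖ := lt_of_lt_of_le (by positivity) h2
    rw [Real.exp_sub, Real.exp_log h6, Real.exp_log (by positivity), le_div_iff₀ (by positivity)]
    exact h2
  exact le_of_pow_le_pow_left₀ (by omega) (by positivity) h5

/-- the main estimate at one point -/
lemma est (hn : 2 ≤ n) (hG : Gr n) (hΛ : IsBot n Λ) {c ζ : ℂ} (hc : 1024 ≤ ‖c‖)
    (hg : G n c 0 < G n c c) (hζ : Crit n Λ c ζ) :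
    ‖Λ c ζ - ζ‖ ≤ 2 * ‖c‖ * Real.exp (-(n * ζ.re)) := by
  have hbig := big hn hG hc
  rw [← hζ.2.1] at hbig hg
  have hn2 : (2 : ℝ) ≤ n := by exact_mod_cast hn
  have hnC : (n : ℂ) ≠ 0 := by exact_mod_cast (by omega : n ≠ 0)
  have hζ0 : 0 < ζ.re := lt_of_le_of_lt (hG.nn c 0) hg
  have hre : ∀ t : ℝ, (ζ + t).re = ζ.re + t := fun t => by simp
  have hren : ∀ t : ℝ, ((n : ℂ) * (ζ + t)).re = n * (ζ.re + t) := fun t => by
    have e : ((n : ℂ) * (ζ + t)) = (((n : ℝ) : ℂ)) * (ζ + t) := by push_cast; ring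
    rw [e, Complex.re_ofReal_mul, hre]
  set b : ℝ → ℝ := fun t => ‖c‖ * Real.exp (-(n * (ζ.re + t))) with hb
  have hb0 : ∀ t, 0 ≤ t → b t ≤ 1 / 8 := fun t ht => by
    have h1 : Real.exp (-(n * (ζ.re + t))) ≤ (8 * ‖c‖)⁻¹ := by
      rw [Real.exp_neg]
      apply inv_anti₀ (by positivity)
      refine hbig.trans (Real.exp_le_exp.2 ?_)
      nlinarith
    calc b t ≤ ‖c‖ * (8 * ‖c‖)⁻¹ := mul_le_mul_of_nonneg_left h1 (norm_nonneg _)
      _ = 1 / 8 := by field_simp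
  have hbn : ∀ t, 0 ≤ b t := fun t => by positivity
  -- the two error terms
  have hnear : ∀ t : ℝ, 0 ≤ t → G n c 0 < ((n : ℂ) * (ζ + t)).re ∧
      ‖Λ c (n * (ζ + t)) - n * (ζ + t)‖ ≤ b t := fun t ht => by
    have h1 : 2 * (1 + ‖c‖) ≤ Real.exp ((n : ℂ) * (ζ + t)).re := by
      rw [hren]
      have h2 : Real.exp (n * ζ.re) ≤ Real.exp (n * (ζ.re + t)) :=
        Real.exp_le_exp.2 (by nlinarith)
      linarith
    obtain ⟨h2, h3⟩ := hΛ.near c _ h1
    refine ⟨h2, h3.trans ?_⟩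
    rw [hren]
    refine mul_le_mul_of_nonneg_left (Real.exp_le_exp.2 ?_) (norm_nonneg _)
    have h4 : 0 ≤ n * (ζ.re + t) := by positivity
    nlinarith
  have hyb : ∀ t : ℝ, 0 ≤ t → ‖c * exp (-Λ c (n * (ζ + t)))‖ ≤ 2 * b t := fun t ht => by
    rw [norm_mul, Complex.norm_exp]
    have h1 := (hnear t ht).2
    have h2 := Complex.abs_re_le_norm (Λ c (n * (ζ + t)) - n * (ζ + t))
    have h3 := hb0 t ht
    rw [Complex.sub_re, hren] at h2
    have h4 := (abs_le.1 h2).1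
    have h5 : (-Λ c (n * (ζ + t))).re ≤ 1 / 8 + -(n * (ζ.re + t)) := by
      rw [Complex.neg_re]; linarith
    have h6 : Real.exp (1 / 8) ≤ 2 := by
      have := Real.exp_one_lt_d9
      have h7 : Real.exp (1 / 8) ^ 8 = Real.exp 1 := by
        rw [← Real.exp_nat_mul]; norm_num
      by_contra hcon
      push Not at hcon
      have h8 : (2 : ℝ) ^ 8 < Real.exp (1 / 8) ^ 8 := pow_lt_pow_left₀ hcon (by norm_num) (by norm_num)
      rw [h7] at h8
      linarith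
    calc ‖c‖ * Real.exp ((-Λ c (n * (ζ + t))).re)
        ≤ ‖c‖ * (Real.exp (1 / 8) * Real.exp (-(n * (ζ.re + t)))) := by
          rw [← Real.exp_add]
          exact mul_le_mul_of_nonneg_left (Real.exp_le_exp.2 h5) (norm_nonneg _)
      _ ≤ ‖c‖ * (2 * Real.exp (-(n * (ζ.re + t)))) :=
          mul_le_mul_of_nonneg_left (mul_le_mul_of_nonneg_right h6 (Real.exp_pos _).le)
            (norm_nonneg _)
      _ = 2 * b t := by rw [hb]; ring
  -- the identity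
  set w : ℝ → ℂ := fun t => n * (Λ c (ζ + t) - (ζ + t)) - (Λ c (n * (ζ + t)) - n * (ζ + t)) -
    log (1 + -(c * exp (-Λ c (n * (ζ + t))))) with hw
  have hslit : ∀ t : ℝ, 0 ≤ t → 1 + -(c * exp (-Λ c (n * (ζ + t)))) ∈ slitPlane := fun t ht => by
    apply Complex.mem_slitPlane_of_norm_lt_one
    rw [norm_neg]
    have h1 := hyb t ht
    have h2 := hb0 t ht
    linarith
  have hG0 : ∀ t : ℝ, 0 ≤ t → G n c 0 < (ζ + t).re := fun t ht => by rw [hre]; linarith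
  have hwexp : ∀ t : ℝ, 0 ≤ t → exp (w t) = 1 := fun t ht => by
    have h1 := hΛ.func c (ζ + t) (hG0 t ht)
    have h2 : (1 + -(c * exp (-Λ c (n * (ζ + t))))) ≠ 0 := Complex.slitPlane_ne_zero (hslit t ht)
    have e : w t = n * Λ c (ζ + t) - Λ c (n * (ζ + t)) -
        log (1 + -(c * exp (-Λ c (n * (ζ + t))))) := by
      simp only [hw]; ring
    rw [e, Complex.exp_sub, Complex.exp_sub, Complex.exp_log h2, h1, Complex.exp_neg]
    have h3 : exp (Λ c (n * (ζ + t))) ≠ 0 := Complex.exp_ne_zero _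
    have h4 : exp (Λ c (n * (ζ + t))) - c ≠ 0 := by
      rw [← h1]; exact Complex.exp_ne_zero _
    have h5 : 1 + -(c * (exp (Λ c (n * (ζ + t))))⁻¹) =
        (exp (Λ c (n * (ζ + t))) - c) / exp (Λ c (n * (ζ + t))) := by field_simp; ring
    rw [h5]
    exact div_self (div_ne_zero h4 h3)
  have hcont1 : ContinuousOn (fun t : ℝ => Λ c (ζ + t)) (Ici 0) :=
    (hΛ.diff c).continuousOn.comp (by fun_prop) fun t ht => hG0 t ht
  have hcont2 : ContinuousOn (fun t : ℝ => Λ c (n * (ζ + t))) (Ici 0) :=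
    (hΛ.diff c).continuousOn.comp (by fun_prop) fun t ht => (hnear t ht).1
  have hwcont : ContinuousOn w (Ici 0) := by
    have h3 : ContinuousOn (fun t : ℝ => log (1 + -(c * exp (-Λ c (n * (ζ + t)))))) (Ici 0) := by
      apply ContinuousOn.clog
      · have := hcont2.neg.cexp
        fun_prop
      · intro t ht
        exact hslit t ht
    have h4 : ContinuousOn (fun t : ℝ => (n : ℂ) * (Λ c (ζ + t) - (ζ + t))) (Ici 0) :=
      continuousOn_const.mul (hcont1.sub (Continuous.continuousOn (by fun_prop)))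
    have h5 : ContinuousOn (fun t : ℝ => Λ c (n * (ζ + t)) - n * (ζ + t)) (Ici 0) :=
      hcont2.sub (Continuous.continuousOn (by fun_prop))
    exact (h4.sub h5).sub h3
  have hlog : ∀ t : ℝ, 0 ≤ t → ‖log (1 + -(c * exp (-Λ c (n * (ζ + t)))))‖ ≤ 3 * b t := fun t ht => by
    have h1 := hyb t ht
    have h2 := hb0 t ht
    have h3 := Complex.norm_log_one_add_half_le_self (z := -(c * exp (-Λ c (n * (ζ + t)))))
      (by rw [norm_neg]; linarith)
    rw [norm_neg] at h3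
    linarith
  -- a large time
  obtain ⟨T, hT0, hT1, hT2⟩ : ∃ T : ℝ, 0 ≤ T ∧ 2 * (1 + ‖c‖) ≤ Real.exp (ζ.re + T) ∧
      n * (‖c‖ * Real.exp (-(ζ.re + T))) ≤ 1 := by
    refine ⟨Real.log (n * ‖c‖ + 2 * (1 + ‖c‖)), Real.log_nonneg (by nlinarith), ?_, ?_⟩
    · rw [Real.exp_add, Real.exp_log (by positivity)]
      have h1 : 1 ≤ Real.exp ζ.re := Real.one_le_exp hζ0.le
      have h2 : 0 ≤ n * ‖c‖ := by positivity
      nlinarith [norm_nonneg c]
    · rw [neg_add, Real.exp_add, Real.exp_neg (Real.log _), Real.exp_log (by positivity)]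
      have h1 : Real.exp (-ζ.re) ≤ 1 := Real.exp_le_one_iff.2 (by linarith)
      have h2 : 0 ≤ n * ‖c‖ := by positivity
      have h3 : 0 < n * ‖c‖ + 2 * (1 + ‖c‖) := by positivity
      have h4 : n * (‖c‖ * (Real.exp (-ζ.re) * (n * ‖c‖ + 2 * (1 + ‖c‖))⁻¹)) =
          (n * ‖c‖ * Real.exp (-ζ.re)) / (n * ‖c‖ + 2 * (1 + ‖c‖)) := by
        field_simp
      rw [h4, div_le_one h3]
      nlinarith [norm_nonneg c, mul_le_mul_of_nonneg_left h1 h2]
  have hwT : ‖w T‖ < 6 := by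
    have h1 : ‖(n : ℂ) * (Λ c (ζ + T) - (ζ + T))‖ ≤ 1 := by
      rw [norm_mul, Complex.norm_natCast]
      obtain ⟨_, h3⟩ := hΛ.near c (ζ + T) (by rw [hre]; exact hT1)
      rw [hre] at h3
      have h4 : ‖c‖ * Real.exp (-(n * (ζ.re + T))) ≤ ‖c‖ * Real.exp (-(ζ.re + T)) := by
        refine mul_le_mul_of_nonneg_left (Real.exp_le_exp.2 ?_) (norm_nonneg _)
        have h5 : 0 ≤ ζ.re + T := by linarith
        nlinarith
      calc (n : ℝ) * ‖Λ c (ζ + T) - (ζ + T)‖ ≤ n * (‖c‖ * Real.exp (-(ζ.re + T))) :=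
            mul_le_mul_of_nonneg_left (h3.trans h4) (by positivity)
        _ ≤ 1 := hT2
    have h2 := (hnear T hT0).2
    have h3 := hlog T hT0
    have h4 := hb0 T hT0
    have h5 := norm_sub_le ((n : ℂ) * (Λ c (ζ + T) - (ζ + T)) -
      (Λ c (n * (ζ + T)) - n * (ζ + T))) (log (1 + -(c * exp (-Λ c (n * (ζ + T))))))
    have h6 := norm_sub_le ((n : ℂ) * (Λ c (ζ + T) - (ζ + T))) (Λ c (n * (ζ + T)) - n * (ζ + T))
    have h7 : ‖w T‖ ≤ 1 + b T + 3 * b T := by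
      simp only [hw]
      linarith
    linarith
  have hw0 := const_int hwcont hwexp hT0 hwT
  -- conclusion
  have h1 := (hnear 0 le_rfl).2
  have h2 := hlog 0 le_rfl
  simp only [hw, Complex.ofReal_zero, add_zero] at hw0 h1 h2
  have h3 : (n : ℂ) * (Λ c ζ - ζ) = (Λ c (n * ζ) - n * ζ) + log (1 + -(c * exp (-Λ c (n * ζ)))) := by
    linear_combination hw0
  have h4 : (n : ℝ) * ‖Λ c ζ - ζ‖ ≤ b 0 + 3 * b 0 := by
    rw [← Complex.norm_natCast, ← norm_mul, h3]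
    exact (norm_add_le _ _).trans (add_le_add h1 h2)
  have h5 : b 0 = ‖c‖ * Real.exp (-(n * ζ.re)) := by simp [hb]
  rw [h5] at h4
  have h6 : 2 * ‖Λ c ζ - ζ‖ ≤ n * ‖Λ c ζ - ζ‖ := mul_le_mul_of_nonneg_right hn2 (norm_nonneg _)
  linarith

/-- the final estimate near infinity -/
lemma near_inf (hn : 2 ≤ n) (hG : Gr n) (hΛ : IsBot n Λ) {c ζ : ℂ} (hc : 1024 ≤ ‖c‖)
    (hg : G n c 0 < G n c c) (hζ : Crit n Λ c ζ) : ‖exp ζ - c‖ ≤ 4 * Real.exp 2 := by
  have h1 := est hn hG hΛ hc hg hζ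
  have hbig := big hn hG hc
  rw [← hζ.2.1] at hbig
  set x := ‖c‖ with hx
  have hx0 : 0 < x := by linarith
  have h2 : x * Real.exp (-(n * ζ.re)) ≤ 1 / 8 := by
    have h3 : Real.exp (-(n * ζ.re)) ≤ (8 * x)⁻¹ := by
      rw [Real.exp_neg]
      exact inv_anti₀ (by positivity) hbig
    calc x * Real.exp (-(n * ζ.re)) ≤ x * (8 * x)⁻¹ := mul_le_mul_of_nonneg_left h3 hx0.le
      _ = 1 / 8 := by field_simp
  have h3 : ‖Λ c ζ - ζ‖ ≤ 1 := by nlinarith
  have h4 : ‖exp (-(Λ c ζ - ζ)) - 1‖ ≤ 2 * ‖Λ c ζ - ζ‖ := by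
    have := Complex.norm_exp_sub_one_le (x := -(Λ c ζ - ζ)) (by rwa [norm_neg])
    rwa [norm_neg] at this
  have h5 : exp ζ - c = c * (exp (-(Λ c ζ - ζ)) - 1) := by
    have h6 : c * exp (-(Λ c ζ - ζ)) = exp ζ := by
      calc c * exp (-(Λ c ζ - ζ)) = exp (Λ c ζ) * exp (-(Λ c ζ - ζ)) := by rw [hζ.2.2]
        _ = exp ζ := by rw [← Complex.exp_add]; congr 1; ring
    rw [mul_sub, h6, mul_one]
  have h6 : x ≤ Real.exp (ζ.re + 1) := by
    have h7 : x = Real.exp (Λ c ζ).re := by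
      rw [← Complex.norm_exp, hζ.2.2]
    rw [h7]
    apply Real.exp_le_exp.2
    have h8 := Complex.abs_re_le_norm (Λ c ζ - ζ)
    rw [Complex.sub_re] at h8
    have h9 := (abs_le.1 h8).2
    linarith
  have h7 : x ^ 2 * Real.exp (-(n * ζ.re)) ≤ Real.exp 2 := by
    have hζ1 : 0 ≤ ζ.re := by rw [hζ.2.1]; exact hG.nn c c
    have hn2 : (2 : ℝ) ≤ n := by exact_mod_cast hn
    calc x ^ 2 * Real.exp (-(n * ζ.re)) ≤ Real.exp (ζ.re + 1) ^ 2 * Real.exp (-(n * ζ.re)) :=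
          mul_le_mul_of_nonneg_right (pow_le_pow_left₀ hx0.le h6 2) (Real.exp_pos _).le
      _ = Real.exp (2 * (ζ.re + 1) + -(n * ζ.re)) := by
          rw [← Real.exp_nat_mul, ← Real.exp_add]; norm_num
      _ ≤ Real.exp 2 := Real.exp_le_exp.2 (by nlinarith)
  rw [h5, norm_mul]
  have h8 : x * ‖exp (-(Λ c ζ - ζ)) - 1‖ ≤ x * (2 * (2 * x * Real.exp (-(n * ζ.re)))) :=
    mul_le_mul_of_nonneg_left (h4.trans (by linarith)) hx0.le
  nlinarith

/-! ### differentiability -/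

lemma diff_at (hΛ : IsBot n Λ) (hcont : Continuous (fun q : ℂ × ℂ => G n q.1 q.2))
    (hO : T_OSG) (hg : ∀ c, c ∉ MM n → G n c 0 < G n c c) {c₀ ζ₀ : ℂ} (h0 : Crit n Λ c₀ ζ₀) :
    ∃ ψ : ℂ → ℂ, DifferentiableAt ℂ ψ c₀ ∧ ∀ᶠ c in 𝓝 c₀, Crit n Λ c (ψ c) := by
  set f : ℂ → ℂ → ℂ := fun c s => exp (Λ c s) - c with hf
  set U : Set (ℂ × ℂ) := {q : ℂ × ℂ | G n q.1 0 < q.2.re} with hU
  have hp : Continuous (fun c : ℂ => ((c, 0) : ℂ × ℂ)) := by fun_prop
  have hG0 : Continuous (fun c : ℂ => G n c 0) :=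
    Continuous.comp (g := fun q : ℂ × ℂ => G n q.1 q.2) (f := fun c : ℂ => ((c, 0) : ℂ × ℂ))
      hcont hp
  have hUo : IsOpen U :=
    isOpen_lt (hG0.comp continuous_fst) (Complex.continuous_re.comp continuous_snd)
  have hmem : (c₀, ζ₀) ∈ U := by
    show G n c₀ 0 < ζ₀.re
    rw [h0.2.1]
    exact hg c₀ h0.1
  have hd2 : ∀ c s : ℂ, G n c 0 < s.re → DifferentiableAt ℂ (Λ c) s := fun c s h =>
    (hΛ.diff c).differentiableAt
      ((isOpen_lt continuous_const Complex.continuous_re).mem_nhds h)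
  have hd1 : ∀ c s : ℂ, G n c 0 < s.re → DifferentiableAt ℂ (fun c => Λ c s) c := fun c s h =>
    (hΛ.diffc s).differentiableAt ((isOpen_lt hG0 continuous_const).mem_nhds h)
  obtain ⟨f', hf'⟩ := hO f U hUo (by
      have := hΛ.cont
      show ContinuousOn (fun q : ℂ × ℂ => exp (Λ q.1 q.2) - q.1) U
      exact (this.cexp).sub continuous_fst.continuousOn)
    (fun q hq => ((hd2 q.1 q.2 hq).cexp).sub_const _)
    (fun q hq => ((hd1 q.1 q.2 hq).cexp).sub differentiableAt_id) (c₀, ζ₀) hmem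
  have hder : HasDerivAt (f c₀) (f' (0, 1)) ζ₀ := by
    have h1 : HasDerivAt (fun s : ℂ => (c₀, s)) ((0 : ℂ), (1 : ℂ)) ζ₀ :=
      (hasDerivAt_const ζ₀ c₀).prodMk (hasDerivAt_id ζ₀)
    exact hf'.hasFDerivAt.comp_hasDerivAt (f := fun s : ℂ => (c₀, s)) ζ₀ h1
  have hne : f' (0, 1) ≠ 0 := by
    rw [← hder.deriv]
    have hV : {s : ℂ | G n c₀ 0 < s.re} ∩ Metric.ball ζ₀ 1 ∈ 𝓝 ζ₀ :=
      inter_mem ((isOpen_lt continuous_const Complex.continuous_re).mem_nhds hmem)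
        (Metric.ball_mem_nhds _ one_pos)
    refine deriv_ne_zero_of_injOn ?_ hV ?_
    · refine DifferentiableOn.analyticAt (s := {s : ℂ | G n c₀ 0 < s.re}) ?_
        ((isOpen_lt continuous_const Complex.continuous_re).mem_nhds hmem)
      exact fun s hs => (((hd2 c₀ s hs).cexp).sub_const _).differentiableWithinAt
    · intro s hs t ht hst
      have h1 : exp (Λ c₀ s) = exp (Λ c₀ t) := sub_left_injective hst
      obtain ⟨k, hk⟩ := hΛ.inj c₀ s t hs.1 ht.1 h1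
      have h2 : ‖s - t‖ < 2 := by
        have h3 : dist s ζ₀ < 1 := hs.2
        have h4 : dist t ζ₀ < 1 := ht.2
        rw [← dist_eq_norm]
        have := dist_triangle_right s t ζ₀
        linarith
      have h3 : ‖s - t‖ = |(k : ℝ)| * (2 * Real.pi) := by
        rw [hk, norm_mul, norm_mul, norm_mul, Complex.norm_I, Complex.norm_intCast,
          Complex.norm_real, Complex.norm_ofNat, Real.norm_eq_abs, abs_of_pos Real.pi_pos]
        ring
      have hpi := Real.pi_gt_three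
      have h5 : |(k : ℝ)| < 1 := by
        by_contra hcon
        push Not at hcon
        nlinarith
      have h6 : k = 0 := by
        have : |k| < 1 := by exact_mod_cast h5
        exact Int.abs_lt_one_iff.1 this
      rw [h6] at hk
      simp only [Int.cast_zero, zero_mul] at hk
      exact sub_eq_zero.1 hk
  have hinv : (f' ∘L ContinuousLinearMap.inr ℂ ℂ ℂ).IsInvertible := by
    refine ⟨ContinuousLinearEquiv.unitsEquivAut ℂ (Units.mk0 _ hne), ?_⟩
    ext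
    simp
  have hev := hf'.eventually_apply_implicitFunctionOfProdDomain hinv
  have hdψ := hf'.hasStrictFDerivAt_implicitFunctionOfProdDomain hinv
  have hψ := hf'.tendsto_implicitFunctionOfProdDomain hinv
  set ψ := hf'.implicitFunctionOfProdDomain hinv with hψdef
  refine ⟨ψ, hdψ.hasFDerivAt.differentiableAt, ?_⟩
  have hf0 : f c₀ ζ₀ = 0 := by
    show exp (Λ c₀ ζ₀) - c₀ = 0
    rw [h0.2.2, sub_self]
  have hMMo : ∀ᶠ c in 𝓝 c₀, c ∉ MM n := (MM_closed n).isOpen_compl.mem_nhds h0.1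
  have hin : ∀ᶠ c in 𝓝 c₀, (c, ψ c) ∈ U := by
    have h1 : Tendsto (fun c => (c, ψ c)) (𝓝 c₀) (𝓝 (c₀, ζ₀)) := by
      rw [nhds_prod_eq]
      exact tendsto_id.prodMk hψ
    exact h1.eventually (hUo.mem_nhds hmem)
  filter_upwards [hev, hMMo, hin] with c h1 h2 h3
  have h4 : exp (Λ c (ψ c)) = c := by
    have h5 : exp (Λ c (ψ c)) - c = 0 := h1.trans hf0
    exact sub_eq_zero.1 h5
  refine ⟨h2, ?_, h4⟩
  have h5 := hΛ.green c (ψ c) h3
  rw [h4] at h5
  exact h5.symm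

end PHIp_

open PHIp_ in
theorem p_PHIp (hGreen : T_GREEN) (hO : T_OSG) : T_PHI' := by
  intro n Λ hn hΛ
  obtain ⟨g1, g2, g3, g4, _, g6, g7, _⟩ := hGreen n hn
  have hG : Gr n := ⟨g2, g3, g4, g7⟩
  have hnR : (2 : ℝ) ≤ n := by exact_mod_cast hn
  have hg : ∀ c, c ∉ MM n → G n c 0 < G n c c := fun c hc => by
    have h1 : 0 < G n c 0 := lt_of_le_of_ne (g2 c 0) fun h => hc ((g6 c).2 h.symm)
    rw [g7 c]
    nlinarith
  have hex : ∀ c, c ∉ MM n → ∃ ζ, Crit n Λ c ζ := fun c hc => by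
    obtain ⟨s, h1, h2⟩ := hΛ.surj c c (hg c hc)
    exact ⟨s, hc, h1, h2⟩
  choose! ζ hζ using hex
  have hiff : ∀ c z, c ∉ MM n → (Crit n Λ c z ↔ exp z = exp (ζ c)) := fun c z hc =>
    crit_iff hn hΛ (hg c hc) (hζ c hc) z
  refine ⟨fun c => exp (ζ c), ?_, ?_, hiff, 4 * Real.exp 2, 1024, ?_⟩
  · intro c₀ hc₀
    obtain ⟨ψ, h1, h2⟩ := diff_at hΛ g1 hO hg (hζ c₀ hc₀)
    have h3 : (fun c => exp (ζ c)) =ᶠ[𝓝 c₀] fun c => exp (ψ c) := by
      filter_upwards [h2] with c hc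
      exact ((hiff c (ψ c) hc.1).1 hc).symm
    exact (h3.differentiableAt_iff.2 h1.cexp).differentiableWithinAt
  · intro c hc
    rw [Complex.norm_exp, (hζ c hc).2.1]
  · intro c hc
    have hcM : c ∉ MM n := fun h => by
      have h1 := h 1
      rw [Q_one (by omega)] at h1
      linarith
    exact near_inf hn hG hΛ hc (hg c hcM) (hζ c hcM)

end Pool.Agent.PLim
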