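import Pool.Agent.PLim.GMB
import Pool.Agent.Limb.AREA

/-!
# PLIM: BD, two rays landing at the same repelling point have a common itinerary
-/

set_option autoImplicit false

open Complex Filter Topology Set
open Pool.Agent.Multibrot Pool.Agent.Limb

namespace Pool.Agent.PLim.BD_

open GMB_

lemma F_cont2 (n k : ℕ) : Continuous (fun p : ℂ × ℂ => (F n p.1)^[k] p.2) := by
  induction k with
  | zero => simpa using continuous_snd
  | succ k ih =>
    have : (fun p : ℂ × ℂ => (F n p.1)^[k + 1] p.2) =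
        fun p : ℂ × ℂ => ((F n p.1)^[k] p.2) ^ n + p.1 := by
      funext p
      rw [Function.iterate_succ_apply']
      rfl
    rw [this]
    fun_prop

lemma Rho_pow {n k : ℕ} {c z : ℂ} (hz : (F n c)^[k] z = z) (m : ℕ) :
    Rho n (k * m) c z = Rho n k c z ^ m := by
  unfold Rho
  rw [Function.iterate_mul]
  have h1 : HasDerivAt ((F n c)^[k]) (deriv ((F n c)^[k]) z) z :=
    (F_diff n c k).differentiableAt.hasDerivAt
  exact (HasDerivAt.iterate (x := z) h1 hz m).deriv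

lemma land_eq {Λ : ℂ → ℂ → ℂ} {c z : ℂ} {α : ℝ} (h : Lands Λ c α z) : land Λ c α = z :=
  Tendsto.limUnder_eq h

/-- The case of a parameter in the frontier. -/
lemma front (hST2 : T_ST2) (hLOCZ : T_LOCZ) (hFIXE : T_FIXE) (hBR : T_BR) (hG : T_GREEN)
    {n k q q' : ℕ} {Λ : ℂ → ℂ → ℂ} {lh ls : ℂ → ℂ → ℂ → ℂ} {c0 z0 : ℂ} {α α' : ℝ}
    (hn : 2 ≤ n) (hk : 1 ≤ k) (hq : 1 ≤ q) (hq' : 1 ≤ q') (hB : IsBot n Λ)
    (hLg : IsLog n Λ lh ls) (hc0 : c0 ∈ MM n) (hfr : ∀ δ : ℝ, 0 < δ → ∃ c, c ∉ MM n ∧ ‖c - c0‖ < δ)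
    (hz0 : (F n c0)^[k] z0 = z0) (hrep : 1 < ‖Rho n k c0 z0‖)
    (hα : IsInt (((n : ℝ) ^ (k * q) - 1) * α)) (hα' : IsInt (((n : ℝ) ^ (k * q') - 1) * α'))
    (hl : Lands Λ c0 α z0) (hl' : Lands Λ c0 α' z0) :
    ∃ (θ : ℝ) (ε : ℕ → ℤ), Per k ε ∧ Cod n θ α ε ∧ Cod n θ α' ε := by
  obtain ⟨δ1, hδ1, h1⟩ := hST2 n k q Λ lh ls c0 z0 α hn hk hq hB hLg hc0 hα hl hz0 hrep
  obtain ⟨δ2, hδ2, h2⟩ := hST2 n k q' Λ lh ls c0 z0 α' hn hk hq' hB hLg hc0 hα' hl' hz0 hrep
  have hR1 : Rho n k c0 z0 ≠ 1 := by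
    intro h
    rw [h, norm_one] at hrep
    exact lt_irrefl _ hrep
  obtain ⟨δ, r, zf, hδR, hrR, hLF⟩ := hLOCZ n k c0 z0 (min δ1 δ2) hn (lt_min hδ1 hδ2) hz0 hR1
  obtain ⟨c, hcM, hcδ⟩ := hfr δ hLF.hδ
  have hcb : c ∈ Metric.ball c0 δ := by rw [mem_ball_iff_norm]; exact hcδ
  have hzb := hLF.mem c hcb
  rw [mem_ball_iff_norm] at hzb
  have hfix := hLF.fix c hcb
  -- the critical value
  obtain ⟨-, hG0, hGF, -, -, hGM, hGc, -⟩ := hG n hn
  have hGc0 : 0 < G n c 0 := lt_of_le_of_ne (hG0 c 0) fun h => hcM ((hGM c).2 h.symm)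
  have hGcc : G n c 0 < G n c c := by
    rw [hGc]
    have : (2 : ℝ) ≤ n := by exact_mod_cast hn
    nlinarith
  obtain ⟨ζ, hζ1, hζ2⟩ := hB.surj c c hGcc
  have hCr : Crit n Λ c ζ := ⟨hcM, hζ1, hζ2⟩
  obtain ⟨ε, hper, hdig⟩ := ((hFIXE n k Λ lh ls c ζ hn hk hB hLg hCr).2 (zf c) hfix).2.2
  have hGz : G n c (zf c) = 0 := green_per hG hn hk hfix
  have hζ0 : 0 < ζ.re := by rw [hζ1]; linarith
  have hBR5 := (hBR n Λ lh ls c ζ hn hB hLg hCr).2.2.2.2.1
  have key : ∀ (β : ℝ), (∀ t : ℕ, 1 ≤ t → ¬ IsInt ((n : ℝ) ^ t * β - ζ.im / (2 * Real.pi))) →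
      (∀ t : ℕ, Dig n lh c ζ ((F n c)^[t] (zf c))
        ⌊(n : ℝ) ^ (t + 1) * β - ζ.im / (2 * Real.pi)⌋) →
      Cod n (ζ.im / (2 * Real.pi)) β ε := by
    intro β hb1 hb2
    refine ⟨hb1, fun t => ?_⟩
    have hGt : (n : ℝ) * G n c ((F n c)^[t] (zf c)) < ζ.re := by
      rw [green_iter hG hn, hGz]; simpa using hζ0
    exact (hBR5 _ _ _ hGt (hb2 t)).1 (hdig t)
  have hd1 : ‖c - c0‖ < δ1 := hcδ.trans_le (hδR.trans (min_le_left _ _))
  have hd2 : ‖c - c0‖ < δ2 := hcδ.trans_le (hδR.trans (min_le_right _ _))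
  have hz1 : ‖zf c - z0‖ < δ1 := hzb.trans_le (hrR.trans (min_le_left _ _))
  have hz2 : ‖zf c - z0‖ < δ2 := hzb.trans_le (hrR.trans (min_le_right _ _))
  obtain ⟨a1, a2⟩ := h1 c (zf c) ζ hd1 hz1 hfix hCr
  obtain ⟨b1, b2⟩ := h2 c (zf c) ζ hd2 hz2 hfix hCr
  exact ⟨ζ.im / (2 * Real.pi), ε, hper, key α a1 a2, key α' b1 b2⟩

/-- The exceptional parameters. -/
def S0 (n K : ℕ) : Set ℂ := {c : ℂ | ∃ z : ℂ, (F n c)^[K] z = z ∧ Rho n K c z = 1}

/-- The landing point of a periodic ray is repelling outside the exceptional parameters. -/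
lemma land_rep (hSN : T_SNAIL) (hLAND : T_LAND) (hIE : T_IE) {n K : ℕ} {Λ : ℂ → ℂ → ℂ} {c : ℂ}
    {α : ℝ} (hn : 2 ≤ n) (hK : 1 ≤ K) (hB : IsBot n Λ) (hc : c ∈ MM n) (hcS : c ∉ S0 n K)
    (hα : IsInt (((n : ℝ) ^ K - 1) * α)) :
    Lands Λ c α (land Λ c α) ∧ (F n c)^[K] (land Λ c α) = land Λ c α ∧
      1 < ‖Rho n K c (land Λ c α)‖ := by
  obtain ⟨m, hm⟩ := hα
  obtain ⟨h1, h2⟩ := hLAND n hn Λ (hIE n Λ hn hB) c hc K α m hK hm
  refine ⟨h1, h2, ?_⟩
  rcases hSN n K Λ c (land Λ c α) α hn hK hB hc ⟨m, hm⟩ h1 h2 with h | h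
  · exact h
  · exact absurd ⟨_, h2, h⟩ hcS

/-- The landing point near a parameter is given by a germ of fixed points. -/
lemma land_germ (hST1 : T_ST1) (hLOCZ : T_LOCZ) {n K : ℕ} {Λ : ℂ → ℂ → ℂ} {c w : ℂ} (hn : 2 ≤ n)
    (hK : 1 ≤ K) (hB : IsBot n Λ) (hc : c ∈ MM n) (hw : (F n c)^[K] w = w)
    (hrep : 1 < ‖Rho n K c w‖) {α : ℝ} (hα : IsInt (((n : ℝ) ^ K - 1) * α))
    (hl : Lands Λ c α w) :
    ∃ R : ℝ, 0 < R ∧ ∀ (δ r : ℝ) (zf : ℂ → ℂ), δ ≤ R → r ≤ R → LocFix n K c w δ r zf →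
      ∀ c' ∈ Metric.ball c δ, c' ∈ MM n → Lands Λ c' α (zf c') := by
  obtain ⟨R, hR, h⟩ := hST1 n K 1 Λ c w α hn hK le_rfl hB hc (by rwa [mul_one]) hl hw hrep
  refine ⟨R, hR, fun δ r zf hδ hr hLF c' hc' hcM => ?_⟩
  have h1 := hLF.mem c' hc'
  rw [mem_ball_iff_norm] at h1
  have h2 := hc'
  rw [mem_ball_iff_norm] at h2
  exact h c' (zf c') (h2.trans_le hδ) (h1.trans_le hr) (hLF.fix c' hc') hcM

/-- The landing point is continuous in the parameter. -/
lemma land_cont (hST1 : T_ST1) (hLOCZ : T_LOCZ) {n K : ℕ} {Λ : ℂ → ℂ → ℂ} {c w : ℂ} (hn : 2 ≤ n)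
    (hK : 1 ≤ K) (hB : IsBot n Λ) (hc : c ∈ MM n) (hw : (F n c)^[K] w = w)
    (hrep : 1 < ‖Rho n K c w‖) {α : ℝ} (hα : IsInt (((n : ℝ) ^ K - 1) * α))
    (hl : Lands Λ c α w) :
    ContinuousWithinAt (fun c => land Λ c α) (MM n) c := by
  obtain ⟨R, hR, h⟩ := land_germ hST1 hLOCZ hn hK hB hc hw hrep hα hl
  have hR1 : Rho n K c w ≠ 1 := by
    intro h
    rw [h, norm_one] at hrep
    exact lt_irrefl _ hrep
  obtain ⟨δ, r, zf, hδR, hrR, hLF⟩ := hLOCZ n K c w R hn hR hw hR1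
  have h1 : ContinuousWithinAt zf (MM n) c :=
    (hLF.diff.differentiableAt (Metric.ball_mem_nhds c hLF.hδ)).continuousAt.continuousWithinAt
  refine h1.congr_of_eventuallyEq ?_ ?_
  · filter_upwards [self_mem_nhdsWithin, nhdsWithin_le_nhds (Metric.ball_mem_nhds c hLF.hδ)]
      with c' hcM hc'
    exact land_eq (h δ r zf hδR hrR hLF c' hc' hcM)
  · exact land_eq (h δ r zf hδR hrR hLF c (Metric.mem_ball_self hLF.hδ) hc)

end Pool.Agent.PLim.BD_

namespace Pool.Agent.PLim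

open GMB_ BD_

theorem p_BD (hST1 : T_ST1) (hST2 : T_ST2) (hLOCZ : T_LOCZ) (hSN : T_SNAIL) (hFINF : T_FINF)
    (hCUT : T_CUT) (hFIXE : T_FIXE) (hBR : T_BR) (hG : T_GREEN) (hIE : T_IE) : T_BD := by
  classical
  intro n k q q' Λ lh ls c0 z0 α α' hn hk hB hLg hc0 hz0 hrep hE hE' hl hl'
  have hLAND : T_LAND := p_LAND p_AREA
  have hq := hE.1
  have hq' := hE'.1
  have hα := hE.2.1
  have hα' := hE'.2.1
  have hn2 : (2 : ℝ) ≤ n := by exact_mod_cast hn
  have hfront : ∀ (c z : ℂ), c ∈ MM n → c ∉ interior (MM n) → (F n c)^[k] z = z →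
      1 < ‖Rho n k c z‖ → Lands Λ c α z → Lands Λ c α' z →
      ∃ (θ : ℝ) (ε : ℕ → ℤ), Per k ε ∧ Cod n θ α ε ∧ Cod n θ α' ε := by
    intro c z hc hci hz hr h1 h2
    refine front hST2 hLOCZ hFIXE hBR hG hn hk hq hq' hB hLg hc ?_ hz hr hα hα' h1 h2
    intro δ hδ
    by_contra hcon
    push Not at hcon
    refine hci (mem_interior_iff_mem_nhds.2 (mem_of_superset (Metric.ball_mem_nhds c hδ) ?_))
    intro x hx
    by_contra hxM
    have := hcon x hxM
    rw [mem_ball_iff_norm] at hx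
    linarith
  by_cases hint : c0 ∈ interior (MM n)
  swap
  · exact hfront c0 z0 hc0 hint hz0 hrep hl hl'
  -- the common period
  set K := k * (q * q') with hKdef
  have hK : 1 ≤ K := Nat.one_le_iff_ne_zero.2 (by positivity)
  have hNi : IsInt (n : ℝ) := isInt_nat n
  have hαK : IsInt (((n : ℝ) ^ K - 1) * α) := by
    have h1 := isInt_pow_mul (a := (n : ℝ)) hNi hα q'
    have e : k * q * q' = K := by rw [hKdef]; ring
    rwa [e] at h1
  have hαK' : IsInt (((n : ℝ) ^ K - 1) * α') := by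
    have h1 := isInt_pow_mul (a := (n : ℝ)) hNi hα' q
    have e : k * q' * q = K := by rw [hKdef]; ring
    rwa [e] at h1
  have hSf : (S0 n K).Finite := hFINF n K hn hK
  have hSc : IsOpen (S0 n K)ᶜ := hSf.isClosed.isOpen_compl
  -- the predicate
  set P : ℂ → Prop := fun c => land Λ c α = land Λ c α' ∧
    (F n c)^[k] (land Λ c α) = land Λ c α with hP
  -- `P` is locally constant
  have hPloc : ∀ c ∈ MM n, c ∉ S0 n K → ∀ᶠ c' in 𝓝[MM n] c, (P c ↔ P c') := by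
    intro c hc hcS
    obtain ⟨hl1, hf1, hr1⟩ := land_rep hSN hLAND hIE hn hK hB hc hcS hαK
    obtain ⟨hl2, hf2, hr2⟩ := land_rep hSN hLAND hIE hn hK hB hc hcS hαK'
    have hc1 := land_cont hST1 hLOCZ hn hK hB hc hf1 hr1 hαK hl1
    have hc2 := land_cont hST1 hLOCZ hn hK hB hc hf2 hr2 hαK' hl2
    by_cases hPc : P c
    · obtain ⟨hP1, hP2⟩ := hPc
      set w := land Λ c α with hw
      rw [← hP1] at hl2
      obtain ⟨R1, hR1, h1⟩ := land_germ hST1 hLOCZ hn hK hB hc hf1 hr1 hαK hl1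
      obtain ⟨R2, hR2, h2⟩ := land_germ hST1 hLOCZ hn hK hB hc hf1 hr1 hαK' hl2
      have hne : Rho n K c w ≠ 1 := by
        intro h
        rw [h, norm_one] at hr1
        exact lt_irrefl _ hr1
      obtain ⟨δ, r, zf, hδR, hrR, hLF⟩ := hLOCZ n K c w (min R1 R2) hn (lt_min hR1 hR2) hf1 hne
      have hzc : ContinuousAt zf c :=
        (hLF.diff.differentiableAt (Metric.ball_mem_nhds c hLF.hδ)).continuousAt
      have hFc : ContinuousAt (fun c' => (F n c')^[k] (zf c')) c := by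
        have h3 : ContinuousAt (fun c' : ℂ => ((c', zf c') : ℂ × ℂ)) c :=
          continuousAt_id.prodMk hzc
        exact ContinuousAt.comp (f := fun c' : ℂ => ((c', zf c') : ℂ × ℂ))
          (F_cont2 n k).continuousAt h3
      have hev : ∀ᶠ c' in 𝓝 c, (F n c')^[k] (zf c') ∈ Metric.ball w r := by
        refine hFc.eventually (Metric.isOpen_ball.mem_nhds ?_)
        show (F n c)^[k] (zf c) ∈ Metric.ball w r
        rw [hLF.zf0, hP2]
        exact Metric.mem_ball_self hLF.hr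
      filter_upwards [self_mem_nhdsWithin, nhdsWithin_le_nhds (Metric.ball_mem_nhds c hLF.hδ),
        nhdsWithin_le_nhds hev] with c' hcM hcb hF
      have e1 := land_eq (h1 δ r zf (hδR.trans (min_le_left _ _)) (hrR.trans (min_le_left _ _))
        hLF c' hcb hcM)
      have e2 := land_eq (h2 δ r zf (hδR.trans (min_le_right _ _)) (hrR.trans (min_le_right _ _))
        hLF c' hcb hcM)
      refine iff_of_true ⟨hP1, hP2⟩ ⟨by rw [e1, e2], ?_⟩
      rw [e1]
      refine hLF.uniq c' hcb _ hF ?_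
      rw [← Function.iterate_add_apply, add_comm, Function.iterate_add_apply,
        hLF.fix c' hcb]
    · -- the complement is open
      have hev : ∀ᶠ c' in 𝓝[MM n] c, ¬ P c' := by
        rw [hP] at hPc
        simp only [not_and_or] at hPc
        have hd : ContinuousWithinAt (fun c' => land Λ c' α - land Λ c' α') (MM n) c :=
          hc1.sub hc2
        have hd' : ContinuousWithinAt (fun c' => (F n c')^[k] (land Λ c' α) - land Λ c' α)
            (MM n) c := by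
          have h3 : ContinuousWithinAt (fun c' : ℂ => ((c', land Λ c' α) : ℂ × ℂ)) (MM n) c :=
            continuousWithinAt_id.prodMk hc1
          have h4 : ContinuousWithinAt (fun c' => (F n c')^[k] (land Λ c' α)) (MM n) c :=
            ContinuousAt.comp_continuousWithinAt (f := fun c' : ℂ => ((c', land Λ c' α) : ℂ × ℂ))
              (F_cont2 n k).continuousAt h3
          exact h4.sub hc1
        rcases hPc with h | h
        · filter_upwards [hd.eventually_ne (sub_ne_zero.2 h)] with c' hc' hPc'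
          exact hc' (sub_eq_zero.2 hPc'.1)
        · filter_upwards [hd'.eventually_ne (sub_ne_zero.2 h)] with c' hc' hPc'
          exact hc' (sub_eq_zero.2 hPc'.2)
      filter_upwards [hev] with c' hc'
      exact iff_of_false hPc hc'
  -- the starting point
  obtain ⟨c1, hc1i, hc1S, hP1⟩ : ∃ c1 ∈ interior (MM n), c1 ∉ S0 n K ∧ P c1 := by
    obtain ⟨δ1, hδ1, h1⟩ := hST1 n k q Λ c0 z0 α hn hk hq hB hc0 hα hl hz0 hrep
    obtain ⟨δ2, hδ2, h2⟩ := hST1 n k q' Λ c0 z0 α' hn hk hq' hB hc0 hα' hl' hz0 hrep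
    have hR1 : Rho n k c0 z0 ≠ 1 := by
      intro h
      rw [h, norm_one] at hrep
      exact lt_irrefl _ hrep
    obtain ⟨δ, r, zf, hδR, hrR, hLF⟩ := hLOCZ n k c0 z0 (min δ1 δ2) hn (lt_min hδ1 hδ2) hz0 hR1
    have hev : ∀ᶠ c in 𝓝[≠] c0, c ∈ interior (MM n) ∧ c ∈ Metric.ball c0 δ ∧ c ∉ S0 n K := by
      have h3 : ∀ᶠ c in 𝓝[≠] c0, c ∉ S0 n K := by
        have h4 : (S0 n K \ {c0}).Finite := hSf.subset diff_subset
        have h5 : ∀ᶠ c in 𝓝 c0, c ∈ (S0 n K \ {c0})ᶜ :=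
          h4.isClosed.isOpen_compl.mem_nhds (by simp)
        filter_upwards [nhdsWithin_le_nhds h5, self_mem_nhdsWithin] with c hc hcne hcS
        exact hc ⟨hcS, hcne⟩
      filter_upwards [nhdsWithin_le_nhds (isOpen_interior.mem_nhds hint),
        nhdsWithin_le_nhds (Metric.ball_mem_nhds c0 hLF.hδ), h3] with c a b d
      exact ⟨a, b, d⟩
    obtain ⟨c, hci, hcb, hcS⟩ := hev.exists
    have hcM : c ∈ MM n := interior_subset hci
    have hzb := hLF.mem c hcb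
    rw [mem_ball_iff_norm] at hzb
    have hcb' := hcb
    rw [mem_ball_iff_norm] at hcb'
    have hfix := hLF.fix c hcb
    have e1 := land_eq (h1 c (zf c) (hcb'.trans_le (hδR.trans (min_le_left _ _)))
      (hzb.trans_le (hrR.trans (min_le_left _ _))) hfix hcM)
    have e2 := land_eq (h2 c (zf c) (hcb'.trans_le (hδR.trans (min_le_right _ _)))
      (hzb.trans_le (hrR.trans (min_le_right _ _))) hfix hcM)
    exact ⟨c, hci, hcS, by rw [e1, e2], by rw [e1, hfix]⟩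
  -- the component
  set U := connectedComponentIn (interior (MM n)) c1 with hU
  have hUo : IsOpen U := isOpen_interior.connectedComponentIn
  have hUp : IsPreconnected U := isPreconnected_connectedComponentIn
  have hU1 : c1 ∈ U := mem_connectedComponentIn hc1i
  have hUsub : U ⊆ interior (MM n) := connectedComponentIn_subset _ _
  have hUS : IsPreconnected (U \ S0 n K) := hCUT U (S0 n K) hUo hUp hSf
  have hall : ∀ c ∈ U \ S0 n K, P c := by
    intro c hc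
    have := hUS.induction₂' (fun x y => (P x ↔ P y)) (fun x hx => ?_) (fun x y z _ _ _ h1 h2 =>
      h1.trans h2) (x := c1) (y := c) ⟨hU1, hc1S⟩ hc
    · exact this.1 hP1
    · have h1 := hPloc x (interior_subset (hUsub hx.1)) hx.2
      have h2 : ∀ᶠ y in 𝓝[U \ S0 n K] x, (P x ↔ P y) :=
        nhdsWithin_mono x (fun y hy => interior_subset (hUsub hy.1)) h1
      filter_upwards [h2] with y hy
      exact ⟨hy, hy.symm⟩
  -- the bound
  have hMb : ∀ c ∈ MM n, ‖c‖ ≤ 2 := by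
    intro c hc
    have := hc 1
    have e : Q n 1 c = c := by
      have : (0 : ℂ) ^ n = 0 := zero_pow (by omega)
      simp [Q, this]
    rwa [e] at this
  obtain ⟨b, hbU, hbS, hbn⟩ : ∃ b ∈ closure U, b ∉ S0 n K ∧ b ∉ U := by
    by_contra hcon
    push Not at hcon
    have h1 : IsPreconnected (univ \ S0 n K) := hCUT univ _ isOpen_univ isPreconnected_univ hSf
    have h2 : univ \ S0 n K ⊆ U := by
      refine h1.subset_of_closure_inter_subset hUo ⟨c1, ⟨mem_univ _, hc1S⟩, hU1⟩ ?_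
      rintro x ⟨hx1, -, hx2⟩
      exact hcon x hx1 hx2
    obtain ⟨R, hR⟩ := hSf.isBounded.exists_norm_le
    have h3 : ((|R| + 3 : ℝ) : ℂ) ∉ S0 n K := by
      intro h
      have := hR _ h
      rw [norm_real, Real.norm_eq_abs, abs_of_pos (by positivity)] at this
      have := le_abs_self R
      linarith
    have h4 := hMb _ (interior_subset (hUsub (h2 ⟨mem_univ _, h3⟩)))
    rw [norm_real, Real.norm_eq_abs, abs_of_pos (by positivity)] at h4
    have := abs_nonneg R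
    linarith
  have hMcl : IsClosed (MM n) := MM_closed n
  have hbM : b ∈ MM n := by
    have h1 : closure U ⊆ MM n := closure_minimal (hUsub.trans interior_subset) hMcl
    exact h1 hbU
  have hbi : b ∉ interior (MM n) := by
    intro hbi
    have h1 : IsPreconnected (insert b U) :=
      hUp.subset_closure (subset_insert _ _) (insert_subset hbU subset_closure)
    have h2 := h1.subset_connectedComponentIn (mem_insert_of_mem b hU1)
      (insert_subset hbi hUsub)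
    exact hbn (h2 (mem_insert _ _))
  have hPb : P b := by
    by_contra hPb
    have h1 := hPloc b hbM hbS
    have h2 : ∀ᶠ y in 𝓝 b, y ∈ MM n → (P b ↔ P y) := eventually_nhdsWithin_iff.1 h1
    have h3 : ∀ᶠ y in 𝓝 b, y ∈ (S0 n K)ᶜ := hSc.mem_nhds hbS
    obtain ⟨y, hy, hyU⟩ := mem_closure_iff_nhds.1 hbU _ (h2.and h3)
    exact hPb ((hy.1 (interior_subset (hUsub hyU))).2 (hall y ⟨hyU, hy.2⟩))
  obtain ⟨hl1, hf1, hr1⟩ := land_rep hSN hLAND hIE hn hK hB hbM hbS hαK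
  obtain ⟨hl2, hf2, hr2⟩ := land_rep hSN hLAND hIE hn hK hB hbM hbS hαK'
  rw [← hPb.1] at hl2
  refine hfront b (land Λ b α) hbM hbi hPb.2 ?_ hl1 hl2
  rw [hKdef, Rho_pow hPb.2, norm_pow] at hr1
  by_contra hcon
  push Not at hcon
  have := pow_le_one₀ (n := q * q') (norm_nonneg _) hcon
  linarith

end Pool.Agent.PLim
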