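import Pool.Agent.PLim.Basic

/-!
# PLIM: BOT, injectivity and surjectivity of the Böttcher map
-/

set_option autoImplicit false

open Complex Filter Topology Set
open Pool.Agent.Multibrot Pool.Agent.Limb

namespace Pool.Agent.PLim

namespace BOT_

/-- the data for one parameter -/
structure Dat (n : ℕ) (c : ℂ) (Λ : ℂ → ℂ) : Prop where
  hn : 2 ≤ n
  g0 : 0 ≤ G n c 0
  diff : ∀ s : ℂ, G n c 0 < s.re → DifferentiableAt ℂ Λ s
  func : ∀ s : ℂ, G n c 0 < s.re → exp (n * Λ s) = exp (Λ (n * s)) - c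
  per : ∀ s : ℂ, G n c 0 < s.re → ∀ m : ℤ,
    Λ (s + 2 * Real.pi * I * m / n) = Λ s + 2 * Real.pi * I * m / n
  near : ∀ s : ℂ, 2 * (1 + ‖c‖) ≤ Real.exp s.re →
    G n c 0 < s.re ∧ ‖Λ s - s‖ ≤ ‖c‖ * Real.exp (-(n * s.re))
  green : ∀ s : ℂ, G n c 0 < s.re → G n c (exp (Λ s)) = s.re

variable {n : ℕ} {c : ℂ} {Λ : ℂ → ℂ}

theorem Dat.n0 (h : Dat n c Λ) : (n : ℂ) ≠ 0 := by
  have : n ≠ 0 := by have := h.hn; omega
  exact_mod_cast this

theorem Dat.per' (h : Dat n c Λ) {s : ℂ} (hs : G n c 0 < s.re) (m : ℤ) :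
    Λ (s + 2 * Real.pi * I * m) = Λ s + 2 * Real.pi * I * m := by
  have h1 := h.per s hs (n * m)
  have e : 2 * Real.pi * I * ((n * m : ℤ) : ℂ) / n = 2 * Real.pi * I * m := by
    have := h.n0
    push_cast
    field_simp
  rwa [e] at h1

theorem Dat.small (h : Dat n c Λ) {s : ℂ} (hs : 2 * (1 + ‖c‖) ≤ Real.exp s.re) :
    ‖Λ s - s‖ ≤ 1 / 16 := by
  refine (h.near s hs).2.trans ?_
  have h0 : 0 ≤ ‖c‖ := norm_nonneg c
  have h1 : Real.exp (-(n * s.re)) ≤ (Real.exp s.re ^ 2)⁻¹ := by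
    rw [← Real.exp_nat_mul, ← Real.exp_neg]
    apply Real.exp_le_exp.mpr
    have hre : 0 ≤ s.re := by
      have h2 : (1 : ℝ) ≤ Real.exp s.re := by linarith
      exact Real.one_le_exp_iff.mp h2
    have hn : (2 : ℝ) ≤ n := by exact_mod_cast h.hn
    push_cast
    nlinarith
  have h2 : (2 * (1 + ‖c‖)) ^ 2 ≤ Real.exp s.re ^ 2 := pow_le_pow_left₀ (by positivity) hs 2
  calc ‖c‖ * Real.exp (-(n * s.re)) ≤ ‖c‖ * (Real.exp s.re ^ 2)⁻¹ :=
        mul_le_mul_of_nonneg_left h1 h0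
    _ ≤ ‖c‖ * ((2 * (1 + ‖c‖)) ^ 2)⁻¹ := by
        apply mul_le_mul_of_nonneg_left _ h0
        exact inv_anti₀ (by positivity) h2
    _ ≤ 1 / 16 := by
        rw [← div_eq_mul_inv, div_le_div_iff₀ (by positivity) (by norm_num)]
        nlinarith [sq_nonneg (1 - ‖c‖)]

/-- the map `Λ - id` is a contraction far out -/
theorem Dat.lip (h : Dat n c Λ) {σ : ℝ} (hσ : 2 * (1 + ‖c‖) ≤ Real.exp (σ - 1)) {s t : ℂ}
    (hs : σ ≤ s.re) (ht : σ ≤ t.re) : ‖(Λ s - s) - (Λ t - t)‖ ≤ 1 / 8 * ‖s - t‖ := by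
  have hfar : ∀ u : ℂ, σ - 1 ≤ u.re → 2 * (1 + ‖c‖) ≤ Real.exp u.re := fun u hu =>
    hσ.trans (Real.exp_le_exp.mpr hu)
  have hd : ∀ u : ℂ, σ - 1 ≤ u.re → DifferentiableAt ℂ (fun u => Λ u - u) u := fun u hu =>
    (h.diff u (h.near u (hfar u hu)).1).sub differentiableAt_id
  have hder : ∀ u : ℂ, σ ≤ u.re → ‖deriv (fun u => Λ u - u) u‖ ≤ 1 / 8 := by
    intro u hu
    have hball : ∀ x ∈ Metric.closedBall u (1 / 2), σ - 1 ≤ x.re := by
      intro x hx
      rw [mem_closedBall_iff_norm] at hx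
      have h1 := (abs_re_le_norm (x - u)).trans hx
      rw [sub_re, abs_le] at h1
      linarith [h1.1]
    have h1 : DiffContOnCl ℂ (fun u => Λ u - u) (Metric.ball u (1 / 2)) := by
      apply DifferentiableOn.diffContOnCl
      rw [closure_ball u (by norm_num)]
      intro x hx
      exact (hd x (hball x hx)).differentiableWithinAt
    have h2 := Complex.norm_deriv_le_of_forall_mem_sphere_norm_le (by norm_num : (0 : ℝ) < 1 / 2) h1
      (C := 1 / 16)
      (fun x hx => h.small (hfar x (hball x (Metric.sphere_subset_closedBall hx))))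
    refine h2.trans (le_of_eq ?_)
    norm_num
  have h5 := (convex_halfSpace_re_ge σ).norm_image_sub_le_of_norm_deriv_le
    (𝕜 := ℂ) (f := fun u => Λ u - u) (C := 1 / 8) (x := t) (y := s)
    (fun z hz => hd z (by have hz' : σ ≤ z.re := hz; linarith)) (fun z hz => hder z hz)
    ht hs
  exact h5

/-- injectivity far out -/
theorem Dat.inj0 (h : Dat n c Λ) {s t : ℂ} (hs : 2 * (1 + ‖c‖) ≤ Real.exp (s.re - 1))
    (hst : s.re = t.re) (he : exp (Λ s) = exp (Λ t)) : ∃ k : ℤ, s - t = k * (2 * Real.pi * I) := by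
  obtain ⟨m, hm⟩ := exp_eq_exp_iff_exists_int.mp he
  have ht : G n c 0 < t.re := by
    refine (h.near t ?_).1
    rw [← hst]
    exact hs.trans (Real.exp_le_exp.mpr (by linarith))
  have h1 := h.per' ht m
  have hre : (t + 2 * Real.pi * I * m).re = t.re := by
    simp
  have h2 := h.lip hs (s := s) (t := t + 2 * Real.pi * I * m) le_rfl (by rw [hre, hst])
  have e : (Λ s - s) - (Λ (t + 2 * Real.pi * I * m) - (t + 2 * Real.pi * I * m)) =
      -(s - (t + 2 * Real.pi * I * m)) := by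
    rw [h1, hm]
    ring
  rw [e, norm_neg] at h2
  have h3 : ‖s - (t + 2 * Real.pi * I * m)‖ = 0 := by
    linarith [norm_nonneg (s - (t + 2 * Real.pi * I * m))]
  refine ⟨m, ?_⟩
  have h4 := sub_eq_zero.mp (norm_eq_zero.mp h3)
  rw [h4]
  ring

theorem Dat.reMul (h : Dat n c Λ) {s : ℂ} (hs : G n c 0 < s.re) :
    ((n : ℂ) * s).re = n * s.re ∧ G n c 0 < ((n : ℂ) * s).re := by
  have e : ((n : ℂ) * s).re = n * s.re := by simp
  refine ⟨e, ?_⟩
  rw [e]
  have hn : (2 : ℝ) ≤ n := by exact_mod_cast h.hn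
  nlinarith [h.g0]

theorem Dat.Fexp (h : Dat n c Λ) {s : ℂ} (hs : G n c 0 < s.re) :
    exp (Λ s) ^ n + c = exp (Λ (n * s)) := by
  rw [← Complex.exp_nat_mul, h.func s hs, sub_add_cancel]

/-- injectivity -/
theorem Dat.inj1 (h : Dat n c Λ) (k : ℕ) : ∀ s t : ℂ, G n c 0 < s.re → s.re = t.re →
    2 * (1 + ‖c‖) ≤ Real.exp ((n : ℝ) ^ k * s.re - 1) → exp (Λ s) = exp (Λ t) →
    ∃ k : ℤ, s - t = k * (2 * Real.pi * I) := by
  induction k with
  | zero =>
    intro s t hs hst hfar he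
    rw [pow_zero, one_mul] at hfar
    exact h.inj0 hfar hst he
  | succ k ih =>
    intro s t hs hst hfar he
    have ht : G n c 0 < t.re := by rw [← hst]; exact hs
    have h1 := h.reMul hs
    have h2 := h.reMul ht
    obtain ⟨m, hm⟩ := ih (n * s) (n * t) h1.2 (by rw [h1.1, h2.1, hst]) (by
      rw [h1.1, ← mul_assoc, ← pow_succ]; exact hfar) (by
      rw [← h.Fexp hs, ← h.Fexp ht, he])
    have hn0 := h.n0
    have e1 : s = t + 2 * Real.pi * I * m / n := by
      field_simp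
      linear_combination hm
    have h3 := h.per t ht m
    rw [e1, h3, Complex.exp_add] at he
    have h4 : exp (2 * Real.pi * I * m / n) = 1 := by
      have h5 : exp (Λ t) ≠ 0 := exp_ne_zero _
      exact mul_left_cancel₀ h5 (by rw [he, mul_one])
    obtain ⟨j, hj⟩ := Complex.exp_eq_one_iff.mp h4
    exact ⟨j, by rw [e1, ← hj]; ring⟩

theorem exists_far {n : ℕ} (hn : 2 ≤ n) {σ : ℝ} (hσ : 0 < σ) (A : ℝ) :
    ∃ k : ℕ, A ≤ (n : ℝ) ^ k * σ := by
  have hn1 : (1 : ℝ) < n := by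
    have : (2 : ℝ) ≤ n := by exact_mod_cast hn
    linarith
  obtain ⟨k, hk⟩ := pow_unbounded_of_one_lt (A / σ) hn1
  exact ⟨k, by rw [div_lt_iff₀ hσ] at hk; exact hk.le⟩

theorem Dat.inj (h : Dat n c Λ) (s t : ℂ) (hs : G n c 0 < s.re) (ht : G n c 0 < t.re)
    (he : exp (Λ s) = exp (Λ t)) : ∃ k : ℤ, s - t = k * (2 * Real.pi * I) := by
  have hst : s.re = t.re := by rw [← h.green s hs, ← h.green t ht, he]
  obtain ⟨k, hk⟩ := exists_far h.hn (lt_of_le_of_lt h.g0 hs) (Real.log (2 * (1 + ‖c‖)) + 1)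
  refine h.inj1 k s t hs hst ?_ he
  have h1 : 0 < 2 * (1 + ‖c‖) := by positivity
  rw [← Real.log_le_iff_le_exp h1]
  linarith

/-- surjectivity far out -/
theorem Dat.surj0 (h : Dat n c Λ)
    (hG : ∀ z : ℂ, |G n c z - Real.posLog ‖z‖| ≤ Real.log (1 + ‖c‖)) {z : ℂ}
    (hz : Real.log (1 + ‖c‖) + Real.log (2 * (1 + ‖c‖)) + 2 ≤ G n c z) :
    ∃ s : ℂ, s.re = G n c z ∧ exp (Λ s) = z := by
  have hc1 : 0 < 1 + ‖c‖ := by positivity
  have hc2 : 0 < 2 * (1 + ‖c‖) := by positivity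
  have hlog2 : 0 ≤ Real.log (2 * (1 + ‖c‖)) := Real.log_nonneg (by linarith [norm_nonneg c])
  have h1 := (abs_le.mp (hG z)).2
  have h2 : Real.log (2 * (1 + ‖c‖)) + 2 ≤ Real.posLog ‖z‖ := by linarith
  have h3 : Real.posLog ‖z‖ = Real.log ‖z‖ := by
    have hdef : Real.posLog ‖z‖ = max 0 (Real.log ‖z‖) := rfl
    rw [hdef] at h2 ⊢
    rcases le_total (Real.log ‖z‖) 0 with h4 | h4
    · rw [max_eq_left h4] at h2
      linarith
    · rw [max_eq_right h4]
  rw [h3] at h2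
  have hz0 : z ≠ 0 := by
    rintro rfl
    rw [norm_zero, Real.log_zero] at h2
    linarith
  obtain ⟨σ, hσ⟩ : ∃ σ, σ = Real.log (2 * (1 + ‖c‖)) + 1 := ⟨_, rfl⟩
  have hfar : 2 * (1 + ‖c‖) ≤ Real.exp (σ - 1) := by
    rw [hσ, add_sub_cancel_right, Real.exp_log hc2]
  have hball : ∀ s ∈ Metric.closedBall (log z) 1, σ ≤ s.re := by
    intro s hs
    rw [mem_closedBall_iff_norm] at hs
    have h5 := (abs_re_le_norm (s - log z)).trans hs
    rw [sub_re, log_re, abs_le] at h5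
    linarith [h5.1]
  have hmaps : MapsTo (fun s => log z - (Λ s - s)) (Metric.closedBall (log z) 1)
      (Metric.closedBall (log z) 1) := by
    intro s hs
    rw [mem_closedBall_iff_norm]
    have h5 := h.small (s := s) (hfar.trans (Real.exp_le_exp.mpr (by linarith [hball s hs])))
    have e : log z - (Λ s - s) - log z = -(Λ s - s) := by ring
    rw [e, norm_neg]
    linarith
  have hcontr : ContractingWith (1 / 8) (hmaps.restrict _ _ _) := by
    refine ⟨by norm_num, ?_⟩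
    refine LipschitzWith.of_dist_le_mul ?_
    rintro ⟨s, hs⟩ ⟨t, ht⟩
    have h5 := h.lip hfar (hball s hs) (hball t ht)
    show dist (log z - (Λ s - s)) (log z - (Λ t - t)) ≤ _ * dist s t
    rw [dist_eq_norm, dist_eq_norm]
    have e : log z - (Λ s - s) - (log z - (Λ t - t)) = -((Λ s - s) - (Λ t - t)) := by ring
    rw [e, norm_neg]
    refine h5.trans (le_of_eq ?_)
    norm_num
  obtain ⟨s, hs, hfix, -⟩ := hcontr.exists_fixedPoint' (Metric.isClosed_closedBall.isComplete)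
    hmaps (Metric.mem_closedBall_self (by norm_num : (0 : ℝ) ≤ 1)) (edist_ne_top _ _)
  have hfix' : log z - (Λ s - s) = s := hfix
  have hL : Λ s = log z := by linear_combination -hfix'
  have hsD : G n c 0 < s.re :=
    (h.near s (hfar.trans (Real.exp_le_exp.mpr (by linarith [hball s hs])))).1
  have hexp : exp (Λ s) = z := by rw [hL, exp_log hz0]
  refine ⟨s, ?_, hexp⟩
  rw [← h.green s hsD, hexp]

/-- surjectivity -/
theorem Dat.surj1 (h : Dat n c Λ)
    (hG : ∀ z : ℂ, |G n c z - Real.posLog ‖z‖| ≤ Real.log (1 + ‖c‖))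
    (hF : ∀ z : ℂ, G n c (F n c z) = n * G n c z) (k : ℕ) : ∀ z : ℂ, G n c 0 < G n c z →
    Real.log (1 + ‖c‖) + Real.log (2 * (1 + ‖c‖)) + 2 ≤ (n : ℝ) ^ k * G n c z →
    ∃ s : ℂ, s.re = G n c z ∧ exp (Λ s) = z := by
  induction k with
  | zero =>
    intro z _ hz
    rw [pow_zero, one_mul] at hz
    exact h.surj0 hG hz
  | succ k ih =>
    intro z hz0 hz
    have hn : (2 : ℝ) ≤ n := by exact_mod_cast h.hn
    have hn0 := h.n0
    obtain ⟨s', hs', he'⟩ := ih (F n c z) (by rw [hF]; nlinarith [h.g0]) (by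
      rw [hF, ← mul_assoc, ← pow_succ]; exact hz)
    rw [hF] at hs'
    have hre : (s' / n).re = G n c z := by
      rw [div_natCast_re, hs']
      field_simp
    have hD : G n c 0 < (s' / n).re := by rw [hre]; exact hz0
    have h1 := h.Fexp hD
    have e1 : (n : ℂ) * (s' / n) = s' := by field_simp
    rw [e1, he'] at h1
    have h2 : exp (Λ (s' / n)) ^ n = z ^ n := by
      unfold F at h1
      exact add_right_cancel h1
    have hne : exp (Λ (s' / n)) ≠ 0 := exp_ne_zero _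
    have h3 : (z / exp (Λ (s' / n))) ^ n = 1 := by
      rw [div_pow, h2, div_self]
      rw [← h2]
      exact pow_ne_zero _ hne
    have hnn : n ≠ 0 := by have := h.hn; omega
    have : NeZero n := ⟨hnn⟩
    obtain ⟨j, -, hj⟩ := (Complex.isPrimitiveRoot_exp n hnn).eq_pow_of_pow_eq_one h3
    have h4 := h.per (s' / n) hD j
    refine ⟨s' / n + 2 * Real.pi * I * (j : ℤ) / n, ?_, ?_⟩
    · rw [← hre]
      have : (2 * Real.pi * I * ((j : ℤ) : ℂ) / n).re = 0 := by
        rw [div_natCast_re]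
        simp
      rw [add_re, this, add_zero]
    · rw [h4, Complex.exp_add]
      have h5 : exp (2 * Real.pi * I * ((j : ℤ) : ℂ) / n) = z / exp (Λ (s' / n)) := by
        rw [← hj, ← Complex.exp_nat_mul]
        congr 1
        push_cast
        ring
      rw [h5]
      field_simp

theorem Dat.surj (h : Dat n c Λ)
    (hG : ∀ z : ℂ, |G n c z - Real.posLog ‖z‖| ≤ Real.log (1 + ‖c‖))
    (hF : ∀ z : ℂ, G n c (F n c z) = n * G n c z) (z : ℂ) (hz : G n c 0 < G n c z) :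
    ∃ s : ℂ, s.re = G n c z ∧ exp (Λ s) = z := by
  obtain ⟨k, hk⟩ := exists_far h.hn (lt_of_le_of_lt h.g0 hz)
    (Real.log (1 + ‖c‖) + Real.log (2 * (1 + ‖c‖)) + 2)
  exact h.surj1 hG hF k z hz hk

end BOT_

open BOT_ in
/-- BOT -/
theorem p_BOT (h1 : T_BOT1) (h2 : T_GREEN) : T_BOT := by
  intro n hn
  obtain ⟨Λ, hcont, hd, hdc, hfunc, hrot, hnear, hgreen⟩ := h1 n hn
  obtain ⟨-, g2, g3, g4, -, -, -, -⟩ := h2 n hn
  have hdat : ∀ c, Dat n c (Λ c) := fun c =>
    ⟨hn, g2 c 0, hd c, hfunc c, per_of_rot hn (D := {s : ℂ | G n c 0 < s.re})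
      (fun s hs y => by
        show G n c 0 < (s + y * I).re
        have hs' : G n c 0 < s.re := hs
        simpa using hs') (fun s hs => hrot c s hs), hnear c, hgreen c⟩
  refine ⟨Λ, ?_⟩
  exact {
    cont := hcont
    diff := fun c s hs => (hd c s hs).differentiableWithinAt
    diffc := fun s c hc => (hdc c s hc).differentiableWithinAt
    func := hfunc
    rot := hrot
    near := hnear
    green := hgreen
    inj := fun c s t hs ht he => (hdat c).inj s t hs ht he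
    surj := fun c z hz => (hdat c).surj (g4 c) (g3 c) z hz }

end Pool.Agent.PLim
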