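import Pool.Agent.PLim.Targets

/-!
# PLIM: BOT0, the inverse Böttcher map near infinity, all parameters
-/

set_option autoImplicit false

open Complex Filter Topology Set
open Pool.Agent.Multibrot Pool.Agent.Limb

namespace Pool.Agent.PLim

namespace BOT0_

/-- The approximations of `Λ c s - s`. -/
noncomputable def d (n : ℕ) : ℕ → ℂ → ℂ → ℂ
  | 0, _, _ => 0
  | k + 1, c, s => d n k c (n * s) / n + log (1 - c * exp (-(n * s) - d n k c (n * s))) / n

/-- The domain. -/
def dom (c s : ℂ) : Prop := 3 / 2 * (1 + ‖c‖) < Real.exp s.re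

lemma re_nat_mul (n : ℕ) (s : ℂ) : ((n : ℂ) * s).re = n * s.re := by
  rw [mul_re, natCast_re, natCast_im, zero_mul, sub_zero]

lemma nat_ne {n : ℕ} (hn : 2 ≤ n) : (n : ℂ) ≠ 0 := by
  exact_mod_cast (by omega : n ≠ 0)

lemma re_pos {c s : ℂ} (h : dom c s) : 0 < s.re := by
  unfold dom at h
  have h1 := norm_nonneg c
  have h2 : 1 < Real.exp s.re := by linarith
  by_contra hcon
  push Not at hcon
  have := Real.exp_le_one_iff.2 hcon
  linarith

lemma exp_big {n : ℕ} (hn : 2 ≤ n) {c s : ℂ} (h : dom c s) :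
    9 / 4 * (1 + ‖c‖) ^ 2 ≤ Real.exp ((n : ℂ) * s).re := by
  have h0 := re_pos h
  have h1 := norm_nonneg c
  have h2 : Real.exp s.re ^ 2 ≤ Real.exp ((n : ℂ) * s).re := by
    rw [← Real.exp_nat_mul, re_nat_mul]
    apply Real.exp_le_exp.2
    have : (2 : ℝ) ≤ n := by exact_mod_cast hn
    push_cast
    nlinarith
  unfold dom at h
  nlinarith

lemma dom_mul {n : ℕ} (hn : 2 ≤ n) {c s : ℂ} (h : dom c s) : dom c (n * s) := by
  have h1 := exp_big hn h
  have h2 := norm_nonneg c
  unfold dom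
  nlinarith

/-- `e = exp (-(n s).re)`. -/
lemma e_le {n : ℕ} (hn : 2 ≤ n) {c s : ℂ} (h : dom c s) :
    Real.exp (-((n : ℂ) * s).re) * (9 / 4 * (1 + ‖c‖) ^ 2) ≤ 1 := by
  have h1 := exp_big hn h
  have h2 : Real.exp (-((n : ℂ) * s).re) * Real.exp ((n : ℂ) * s).re = 1 := by
    rw [← Real.exp_add, neg_add_cancel, Real.exp_zero]
  calc Real.exp (-((n : ℂ) * s).re) * (9 / 4 * (1 + ‖c‖) ^ 2) ≤
      Real.exp (-((n : ℂ) * s).re) * Real.exp ((n : ℂ) * s).re :=
        mul_le_mul_of_nonneg_left h1 (Real.exp_pos _).le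
    _ = 1 := h2

lemma ce_le {n : ℕ} (hn : 2 ≤ n) {c s : ℂ} (h : dom c s) :
    ‖c‖ * Real.exp (-((n : ℂ) * s).re) ≤ 1 / 9 := by
  have h1 := e_le hn h
  have h2 := Real.exp_pos (-((n : ℂ) * s).re)
  have h3 := norm_nonneg c
  have h4 : 4 * ‖c‖ ≤ (1 + ‖c‖) ^ 2 := by nlinarith [sq_nonneg (1 - ‖c‖)]
  nlinarith

lemma e_le' {n : ℕ} (hn : 2 ≤ n) {c s : ℂ} (h : dom c s) :
    Real.exp (-((n : ℂ) * s).re) ≤ 4 / 9 := by
  have h1 := e_le hn h
  have h2 := Real.exp_pos (-((n : ℂ) * s).re)
  have h3 := norm_nonneg c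
  have h4 : 1 ≤ (1 + ‖c‖) ^ 2 := by nlinarith
  nlinarith

/-- The bound of the second level. -/
lemma B_mul {n : ℕ} (hn : 2 ≤ n) {c s : ℂ} (h : dom c s) :
    ‖c‖ * Real.exp (-((n : ℂ) * ((n : ℂ) * s)).re) ≤
      4 / 9 * (‖c‖ * Real.exp (-((n : ℂ) * s).re)) := by
  have h0 := re_pos (dom_mul hn h)
  have h1 : Real.exp (-((n : ℂ) * ((n : ℂ) * s)).re) ≤ Real.exp (-((n : ℂ) * s).re) ^ 2 := by
    rw [← Real.exp_nat_mul, re_nat_mul n (n * s)]
    apply Real.exp_le_exp.2
    have : (2 : ℝ) ≤ n := by exact_mod_cast hn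
    push_cast
    nlinarith
  have h2 := e_le' hn h
  have h3 := Real.exp_pos (-((n : ℂ) * s).re)
  have h4 : Real.exp (-((n : ℂ) * ((n : ℂ) * s)).re) ≤ 4 / 9 * Real.exp (-((n : ℂ) * s).re) := by
    nlinarith
  calc ‖c‖ * Real.exp (-((n : ℂ) * ((n : ℂ) * s)).re) ≤
      ‖c‖ * (4 / 9 * Real.exp (-((n : ℂ) * s).re)) :=
        mul_le_mul_of_nonneg_left h4 (norm_nonneg _)
    _ = _ := by ring

lemma B_small {n : ℕ} (hn : 2 ≤ n) {c s : ℂ} (h : dom c s) :
    ‖c‖ * Real.exp (-((n : ℂ) * ((n : ℂ) * s)).re) ≤ 1 / 40 := by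
  have h0 := re_pos (dom_mul hn h)
  have h1 : Real.exp (-((n : ℂ) * ((n : ℂ) * s)).re) ≤ Real.exp (-((n : ℂ) * s).re) ^ 2 := by
    rw [← Real.exp_nat_mul, re_nat_mul n (n * s)]
    apply Real.exp_le_exp.2
    have : (2 : ℝ) ≤ n := by exact_mod_cast hn
    push_cast
    nlinarith
  have h2 := e_le hn h
  have h3 := Real.exp_pos (-((n : ℂ) * s).re)
  set e := Real.exp (-((n : ℂ) * s).re) with he
  set a := ‖c‖ with ha
  have h4 : 0 ≤ a := norm_nonneg c
  -- a * e ^ 2 ≤ 1 / 40
  have h5 : a * e ^ 2 ≤ 1 / 40 := by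
    have h6 : (e * (9 / 4 * (1 + a) ^ 2)) ^ 2 ≤ 1 := by
      have : 0 ≤ e * (9 / 4 * (1 + a) ^ 2) := by positivity
      nlinarith
    have h7 : 40 * a ≤ 81 / 16 * (1 + a) ^ 4 := by
      nlinarith [sq_nonneg (a - 1 / 3), sq_nonneg (a * (a - 1 / 3)), sq_nonneg ((1 + a) ^ 2 - 16 / 9),
        mul_nonneg h4 (sq_nonneg (a - 1 / 3)), sq_nonneg (3 * a - 1)]
    have h8 : e ^ 2 * (40 * a) ≤ e ^ 2 * (81 / 16 * (1 + a) ^ 4) :=
      mul_le_mul_of_nonneg_left h7 (by positivity)
    nlinarith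
  exact (mul_le_mul_of_nonneg_left h1 h4).trans h5

lemma exp_40 : Real.exp (1 / 40) ≤ 40 / 39 := by
  have h1 := Real.one_sub_le_exp_neg (1 / 40)
  rw [Real.exp_neg] at h1
  have h2 : 0 < Real.exp (1 / 40) := Real.exp_pos _
  have h3 : Real.exp (1 / 40) * (1 - 1 / 40) ≤ 1 := by
    calc Real.exp (1 / 40) * (1 - 1 / 40) ≤ Real.exp (1 / 40) * (Real.exp (1 / 40))⁻¹ :=
          mul_le_mul_of_nonneg_left h1 h2.le
      _ = 1 := mul_inv_cancel₀ h2.ne'
  linarith

/-- The size of `y`. -/
lemma y_bd {c t a : ℂ} (ha : ‖a‖ ≤ 1 / 40) :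
    ‖c * exp (-t - a)‖ ≤ 40 / 39 * (‖c‖ * Real.exp (-t.re)) := by
  rw [norm_mul, norm_exp, sub_re, neg_re]
  have h1 : -a.re ≤ 1 / 40 := by
    have := Complex.abs_re_le_norm a
    have := neg_abs_le a.re
    linarith
  have h2 : Real.exp (-t.re - a.re) ≤ Real.exp (-t.re) * (40 / 39) := by
    rw [sub_eq_add_neg, Real.exp_add]
    exact mul_le_mul_of_nonneg_left ((Real.exp_le_exp.2 h1).trans exp_40) (Real.exp_pos _).le
  calc ‖c‖ * Real.exp (-t.re - a.re) ≤ ‖c‖ * (Real.exp (-t.re) * (40 / 39)) :=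
        mul_le_mul_of_nonneg_left h2 (norm_nonneg _)
    _ = _ := by ring

lemma y_bd' {n : ℕ} (hn : 2 ≤ n) {c s a : ℂ} (h : dom c s) (ha : ‖a‖ ≤ 1 / 40) :
    ‖c * exp (-(n * s) - a)‖ ≤ 12 / 100 := by
  refine (y_bd ha).trans ?_
  have h1 := ce_le hn h
  linarith

lemma slit {y : ℂ} (h : ‖y‖ ≤ 12 / 100) : 1 - y ∈ slitPlane := by
  left
  rw [sub_re, one_re]
  have h1 := Complex.re_le_norm y
  linarith

lemma bound {n : ℕ} (hn : 2 ≤ n) {c : ℂ} (k : ℕ) :
    ∀ s : ℂ, dom c s → ‖d n k c s‖ ≤ ‖c‖ * Real.exp (-((n : ℂ) * s).re) := by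
  induction k with
  | zero =>
    intro s _
    simp only [d, norm_zero]
    positivity
  | succ k ih =>
    intro s hs
    have hn2 : (2 : ℝ) ≤ n := by exact_mod_cast hn
    have h1 := ih (n * s) (dom_mul hn hs)
    have h40 : ‖d n k c (n * s)‖ ≤ 1 / 40 := h1.trans (B_small hn hs)
    have h49 := h1.trans (B_mul hn hs)
    have h2 := y_bd (c := c) (t := n * s) h40
    have h3 := y_bd' hn hs h40
    have h4 : ‖log (1 - c * exp (-(n * s) - d n k c (n * s)))‖ ≤
        3 / 2 * ‖c * exp (-(n * s) - d n k c (n * s))‖ := by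
      have h5 := norm_log_one_add_half_le_self (z := -(c * exp (-(n * s) - d n k c (n * s))))
        (by rw [norm_neg]; linarith)
      rw [norm_neg, ← sub_eq_add_neg] at h5
      exact h5
    have hn0 : (0 : ℝ) < n := by linarith
    show ‖d n k c (n * s) / n + log (1 - c * exp (-(n * s) - d n k c (n * s))) / n‖ ≤ _
    refine (norm_add_le _ _).trans ?_
    rw [norm_div, norm_div, norm_natCast, ← add_div, div_le_iff₀ hn0]
    have h7 : 0 ≤ ‖c‖ * Real.exp (-((n : ℂ) * s).re) := by positivity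
    nlinarith

lemma small {n : ℕ} (hn : 2 ≤ n) {c : ℂ} (k : ℕ) {s : ℂ}
    (hs : dom c s) : ‖d n k c (n * s)‖ ≤ 1 / 40 :=
  (bound hn k _ (dom_mul hn hs)).trans (B_small hn hs)

/-- Lipschitz estimate. -/
lemma lip {n : ℕ} (hn : 2 ≤ n) {c s a b : ℂ} (hs : dom c s) (ha : ‖a‖ ≤ 1 / 40)
    (hb : ‖b‖ ≤ 1 / 40) :
    ‖log (1 - c * exp (-(n * s) - b)) - log (1 - c * exp (-(n * s) - a))‖ ≤
      1 / 5 * ‖b - a‖ := by
  have hderiv : ∀ x ∈ Metric.closedBall (0 : ℂ) (1 / 40),
      HasDerivWithinAt (fun x => log (1 - c * exp (-(n * s) - x)))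
        ((c * exp (-(n * s) - x)) / (1 - c * exp (-(n * s) - x)))
        (Metric.closedBall (0 : ℂ) (1 / 40)) x := by
    intro x hx
    rw [mem_closedBall_zero_iff] at hx
    have h1 : HasDerivAt (fun x : ℂ => 1 - c * exp (-(n * s) - x)) (c * exp (-(n * s) - x)) x := by
      have h2 : HasDerivAt (fun x : ℂ => -(n * s) - x) (-1) x := by
        simpa using (hasDerivAt_id x).const_sub (-(n * s))
      have h3 := ((h2.cexp).const_mul c).const_sub 1
      refine h3.congr_deriv ?_
      ring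
    have h4 := h1.clog (slit (y_bd' hn hs hx))
    exact h4.hasDerivWithinAt
  have hbd : ∀ x ∈ Metric.closedBall (0 : ℂ) (1 / 40),
      ‖(c * exp (-(n * s) - x)) / (1 - c * exp (-(n * s) - x))‖ ≤ 1 / 5 := by
    intro x hx
    rw [mem_closedBall_zero_iff] at hx
    have h1 := y_bd' hn hs hx
    set y := c * exp (-(n * s) - x)
    have h2 : 1 - ‖y‖ ≤ ‖1 - y‖ := by
      have := norm_sub_norm_le 1 y
      rwa [norm_one] at this
    rw [norm_div, div_le_iff₀ (by linarith)]
    linarith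
  exact (convex_closedBall (0 : ℂ) (1 / 40)).norm_image_sub_le_of_norm_hasDerivWithin_le
    hderiv hbd (mem_closedBall_zero_iff.2 ha) (mem_closedBall_zero_iff.2 hb)

lemma step {n : ℕ} (hn : 2 ≤ n) {c : ℂ} (k : ℕ) :
    ∀ s : ℂ, dom c s → ‖d n (k + 1) c s - d n k c s‖ ≤ (3 / 5) ^ k := by
  induction k with
  | zero =>
    intro s hs
    have h1 := bound hn 1 s hs
    have h2 := ce_le hn hs
    simp only [d, sub_zero, pow_zero] at h1 ⊢
    exact h1.trans (by linarith)
  | succ k ih =>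
    intro s hs
    have hn2 : (2 : ℝ) ≤ n := by exact_mod_cast hn
    have hn0 : (0 : ℝ) < n := by linarith
    have h1 := ih (n * s) (dom_mul hn hs)
    have h2 := lip hn hs (small hn k hs) (small hn (k + 1) hs)
    have e : d n (k + 1 + 1) c s - d n (k + 1) c s =
        ((d n (k + 1) c (n * s) - d n k c (n * s)) +
        (log (1 - c * exp (-(n * s) - d n (k + 1) c (n * s))) -
          log (1 - c * exp (-(n * s) - d n k c (n * s))))) / n := by
      conv_lhs => rw [d]
      rw [show d n (k + 1) c s = d n k c (n * s) / n +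
        log (1 - c * exp (-(n * s) - d n k c (n * s))) / n from rfl]
      ring
    rw [e, norm_div, norm_natCast, div_le_iff₀ hn0]
    refine (norm_add_le _ _).trans ?_
    have h3 : (0 : ℝ) < (3 / 5) ^ k := by positivity
    rw [pow_succ]
    nlinarith [norm_nonneg (d n (k + 1) c (n * s) - d n k c (n * s))]

lemma per {n : ℕ} (hn : 2 ≤ n) (c : ℂ) (k : ℕ) : ∀ (s : ℂ) (j : ℕ),
    d n k c (s + j * (2 * Real.pi * I / n)) = d n k c s := by
  have hn0 := nat_ne hn
  induction k with
  | zero => intro s j; rfl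
  | succ k ih =>
    intro s j
    have e1 : (n : ℂ) * (s + j * (2 * Real.pi * I / n)) =
        n * s + ((j * n : ℕ) : ℂ) * (2 * Real.pi * I / n) := by
      push_cast
      field_simp
    have e2 := ih (n * s) (j * n)
    show d n k c (n * (s + j * (2 * Real.pi * I / n))) / n +
      log (1 - c * exp (-(n * (s + j * (2 * Real.pi * I / n))) -
        d n k c (n * (s + j * (2 * Real.pi * I / n))))) / n = _
    rw [e1, e2]
    have e3 : exp (-(n * s + ((j * n : ℕ) : ℂ) * (2 * Real.pi * I / n)) - d n k c (n * s)) =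
        exp (-(n * s) - d n k c (n * s)) := by
      rw [exp_eq_exp_iff_exists_int]
      refine ⟨-(j : ℤ), ?_⟩
      push_cast
      field_simp
      ring
    rw [e3]
    rfl

lemma contOn {n : ℕ} (hn : 2 ≤ n) (k : ℕ) :
    ContinuousOn (fun q : ℂ × ℂ => d n k q.1 q.2) {q : ℂ × ℂ | dom q.1 q.2} := by
  induction k with
  | zero => exact continuousOn_const
  | succ k ih =>
    have h1 : ContinuousOn (fun q : ℂ × ℂ => d n k q.1 (n * q.2)) {q : ℂ × ℂ | dom q.1 q.2} := by
      have h2 : ContinuousOn (fun q : ℂ × ℂ => (q.1, (n : ℂ) * q.2))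
          {q : ℂ × ℂ | dom q.1 q.2} := by fun_prop
      exact ih.comp h2 fun q hq => dom_mul hn hq
    have h3 : ContinuousOn (fun q : ℂ × ℂ =>
        log (1 - q.1 * exp (-(n * q.2) - d n k q.1 (n * q.2)))) {q : ℂ × ℂ | dom q.1 q.2} := by
      apply ContinuousOn.clog
      · fun_prop
      · intro q hq
        exact slit (y_bd' hn hq (small hn k hq))
    exact (h1.div_const _).add (h3.div_const _)

lemma diffOn {n : ℕ} (hn : 2 ≤ n) {c : ℂ} (k : ℕ) :
    DifferentiableOn ℂ (d n k c) {s : ℂ | dom c s} := by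
  induction k with
  | zero => exact differentiableOn_const _
  | succ k ih =>
    have h1 : DifferentiableOn ℂ (fun s : ℂ => d n k c (n * s)) {s : ℂ | dom c s} := by
      have h2 : DifferentiableOn ℂ (fun s : ℂ => (n : ℂ) * s) {s : ℂ | dom c s} := by
        fun_prop
      exact ih.comp h2 fun q hq => dom_mul hn hq
    have h3 : DifferentiableOn ℂ (fun s : ℂ =>
        log (1 - c * exp (-(n * s) - d n k c (n * s)))) {s : ℂ | dom c s} := by
      apply DifferentiableOn.clog
      · fun_prop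
      · intro q hq
        exact slit (y_bd' hn hq (small hn k hq))
    exact (h1.div_const _).add (h3.div_const _)

lemma diffOnc {n : ℕ} (hn : 2 ≤ n) (k : ℕ) :
    ∀ s : ℂ, DifferentiableOn ℂ (fun c => d n k c s) {c : ℂ | dom c s} := by
  induction k with
  | zero => intro s; exact differentiableOn_const _
  | succ k ih =>
    intro s
    have h1 : DifferentiableOn ℂ (fun c : ℂ => d n k c (n * s)) {c : ℂ | dom c s} :=
      (ih (n * s)).mono fun c hc => dom_mul hn hc
    have h3 : DifferentiableOn ℂ (fun c : ℂ =>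
        log (1 - c * exp (-(n * s) - d n k c (n * s)))) {c : ℂ | dom c s} := by
      apply DifferentiableOn.clog
      · fun_prop
      · intro c hc
        exact slit (y_bd' hn hc (small hn k hc))
    exact (h1.div_const _).add (h3.div_const _)

/-- The limit. -/
noncomputable def D (n : ℕ) (c s : ℂ) : ℂ := ∑' k, (d n (k + 1) c s - d n k c s)

lemma summ : Summable fun k : ℕ => ((3 : ℝ) / 5) ^ k :=
  summable_geometric_of_lt_one (by norm_num) (by norm_num)

lemma tendsto_D {n : ℕ} (hn : 2 ≤ n) {c s : ℂ}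
    (hs : dom c s) : Tendsto (fun k => d n k c s) atTop (𝓝 (D n c s)) := by
  have h1 : Summable fun k => d n (k + 1) c s - d n k c s :=
    Summable.of_norm_bounded summ fun k => step hn k s hs
  have h2 := h1.hasSum.tendsto_sum_nat
  refine h2.congr fun K => ?_
  rw [Finset.sum_range_sub (fun k => d n k c s)]
  simp [d]

end BOT0_

open BOT0_ in
theorem p_BOT0 : T_BOT0 := by
  intro n hn
  have hn0 := nat_ne hn
  have hset : ∀ c s : ℂ, (c, s) ∈ D0 ↔ dom c s := fun c s => Iff.rfl
  refine ⟨fun c s => s + D n c s, ?_, fun c s hs => ⟨?_, ?_⟩, fun c s hs => ⟨?_, ?_, ?_⟩⟩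
  · refine continuousOn_snd.add ?_
    refine continuousOn_tsum (fun k => (contOn hn (k + 1)).sub (contOn hn k)) summ ?_
    intro k q hq
    exact step hn k q.2 hq
  · have hopen : IsOpen {s : ℂ | dom c s} :=
      isOpen_lt continuous_const (Real.continuous_exp.comp continuous_re)
    have h1 : DifferentiableOn ℂ (fun s => s + D n c s) {s : ℂ | dom c s} := by
      refine differentiableOn_id.add ?_
      refine differentiableOn_tsum_of_summable_norm summ
        (fun k => (diffOn hn (k + 1)).sub (diffOn hn k)) hopen ?_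
      intro k s hs
      exact step hn k s hs
    exact (h1 s hs).differentiableAt (hopen.mem_nhds hs)
  · have hopen : IsOpen {c : ℂ | dom c s} :=
      isOpen_lt (continuous_const.mul (continuous_const.add continuous_norm)) continuous_const
    have h1 : DifferentiableOn ℂ (fun c => s + D n c s) {c : ℂ | dom c s} := by
      refine (differentiableOn_const _).add ?_
      refine differentiableOn_tsum_of_summable_norm summ
        (fun k => (diffOnc hn (k + 1) s).sub (diffOnc hn k s)) hopen ?_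
      intro k c hc
      exact step hn k s hc
    exact (h1 c hs).differentiableAt (hopen.mem_nhds hs)
  · -- the functional equation
    have hd : dom c s := hs
    have hs2 := dom_mul hn hd
    have t1 := tendsto_D hn hs2
    have hsm : ‖D n c (n * s)‖ ≤ 1 / 40 :=
      le_of_tendsto t1.norm (Eventually.of_forall fun k => small hn k hd)
    have hsl : 1 - c * exp (-(n * s) - D n c (n * s)) ∈ slitPlane :=
      slit (y_bd' hn hd hsm)
    have t2 : Tendsto (fun k => d n k c (n * s) / n +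
        log (1 - c * exp (-(n * s) - d n k c (n * s))) / n) atTop
        (𝓝 (D n c (n * s) / n + log (1 - c * exp (-(n * s) - D n c (n * s))) / n)) := by
      refine (t1.div_const _).add (Tendsto.div_const ?_ _)
      refine Tendsto.clog ?_ hsl
      refine tendsto_const_nhds.sub (tendsto_const_nhds.mul ?_)
      exact (continuous_exp.tendsto _).comp (tendsto_const_nhds.sub t1)
    have t3 : Tendsto (fun k => d n (k + 1) c s) atTop (𝓝 (D n c s)) :=
      (tendsto_D hn hd).comp (tendsto_add_atTop_nat 1)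
    have e : D n c s = D n c (n * s) / n +
        log (1 - c * exp (-(n * s) - D n c (n * s))) / n := tendsto_nhds_unique t3 t2
    have e2 : (n : ℂ) * (s + D n c s) = (n * s + D n c (n * s)) +
        log (1 - c * exp (-(n * s) - D n c (n * s))) := by
      rw [e]
      field_simp
      ring
    show exp (n * (s + D n c s)) = exp (n * s + D n c (n * s)) - c
    rw [e2, exp_add, exp_log (slitPlane_ne_zero hsl)]
    have e3 : exp (-(n * s) - D n c (n * s)) = (exp (n * s + D n c (n * s)))⁻¹ := by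
      rw [← exp_neg]
      congr 1
      ring
    rw [e3]
    field_simp
  · -- periodicity
    have h1 : D n c (s + 2 * Real.pi * I / n) = D n c s := by
      unfold D
      congr 1
      funext k
      have h2 := per hn c (k + 1) s 1
      have h3 := per hn c k s 1
      rw [Nat.cast_one, one_mul] at h2 h3
      rw [h2, h3]
    show s + 2 * Real.pi * I / n + D n c (s + 2 * Real.pi * I / n) = s + D n c s + _
    rw [h1]
    ring
  · have hd : dom c s := hs
    rw [add_sub_cancel_left]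
    have h1 := le_of_tendsto (tendsto_D hn hd).norm (Eventually.of_forall fun k => bound hn k s hd)
    rw [re_nat_mul] at h1
    exact h1

end Pool.Agent.PLim
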