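import Pool.Agent.PLim.Targets

/-!
# PLIM: BOT1, the logarithmic inverse Böttcher map on its maximal domain
-/

set_option autoImplicit false

open Complex Filter Topology Set MeasureTheory
open Pool.Agent.Multibrot Pool.Agent.Limb

namespace Pool.Agent.PLim
namespace BOT1aux

/-- A continuous logarithm of a differentiable function is differentiable. -/
lemma diff_of_exp {w g : ℂ → ℂ} {x : ℂ} (hw : ContinuousAt w x) (hg : DifferentiableAt ℂ g x)
    (h : ∀ᶠ y in 𝓝 x, exp (w y) = g y) : DifferentiableAt ℂ w x := by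
  have hx : exp (w x) = g x := h.self_of_nhds
  have hgx : g x ≠ 0 := by rw [← hx]; exact exp_ne_zero _
  have h2 : ∀ᶠ y in 𝓝 x, dist (w y) (w x) < 1 := by
    have := Metric.continuousAt_iff'.1 hw 1 one_pos
    exact this
  have h4 : w =ᶠ[𝓝 x] fun y => w x + log (g y / g x) := by
    filter_upwards [h, h2] with y hy hy2
    rw [dist_eq_norm] at hy2
    have him : |(w y - w x).im| < 1 := lt_of_le_of_lt (abs_im_le_norm _) hy2
    have hpi := Real.pi_gt_three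
    rw [abs_lt] at him
    rw [← hy, ← hx, ← exp_sub, log_exp (by linarith) (by linarith)]
    ring
  refine DifferentiableAt.congr_of_eventuallyEq ?_ h4
  refine (differentiableAt_const _).add (DifferentiableAt.clog (hg.div_const _) ?_)
  rw [div_self hgx]
  exact one_mem_slitPlane

/-- The domain of the `m`-th step. -/
def Dm (n m : ℕ) : Set (ℂ × ℂ) :=
  {q : ℂ × ℂ | G n q.1 0 < q.2.re ∧ 3 / 2 * (1 + ‖q.1‖) < Real.exp ((n : ℝ) ^ m * q.2.re)}

/-- The hypotheses, collected. -/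
structure Hyp (n : ℕ) (Λ0 : ℂ → ℂ → ℂ) : Prop where
  hn : 2 ≤ n
  Gc : Continuous (fun q : ℂ × ℂ => G n q.1 q.2)
  G0 : ∀ c z : ℂ, 0 ≤ G n c z
  GF : ∀ c z : ℂ, G n c (F n c z) = n * G n c z
  Gb : ∀ c z : ℂ, |G n c z - Real.posLog ‖z‖| ≤ Real.log (1 + ‖c‖)
  Gcc : ∀ c : ℂ, G n c c = n * G n c 0
  cont : ContinuousOn (fun q : ℂ × ℂ => Λ0 q.1 q.2) D0
  diff : ∀ c s : ℂ, (c, s) ∈ D0 → DifferentiableAt ℂ (Λ0 c) s
  diffc : ∀ c s : ℂ, (c, s) ∈ D0 → DifferentiableAt ℂ (fun c => Λ0 c s) c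
  func : ∀ c s : ℂ, (c, s) ∈ D0 → exp (n * Λ0 c s) = exp (Λ0 c (n * s)) - c
  rot : ∀ c s : ℂ, (c, s) ∈ D0 → Λ0 c (s + 2 * Real.pi * I / n) = Λ0 c s + 2 * Real.pi * I / n
  near : ∀ c s : ℂ, (c, s) ∈ D0 → ‖Λ0 c s - s‖ ≤ ‖c‖ * Real.exp (-(n * s.re))

/-- The map on `Dm n m`. -/
structure Good (n : ℕ) (Λ0 : ℂ → ℂ → ℂ) (m : ℕ) (Λ : ℂ → ℂ → ℂ) : Prop where
  cont : ContinuousOn (fun q : ℂ × ℂ => Λ q.1 q.2) (Dm n m)
  diff : ∀ c s : ℂ, (c, s) ∈ Dm n m → DifferentiableAt ℂ (Λ c) s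
  diffc : ∀ c s : ℂ, (c, s) ∈ Dm n m → DifferentiableAt ℂ (fun c => Λ c s) c
  func : ∀ c s : ℂ, (c, s) ∈ Dm n m → exp (n * Λ c s) = exp (Λ c (n * s)) - c
  rot : ∀ c s : ℂ, (c, s) ∈ Dm n m → Λ c (s + 2 * Real.pi * I / n) = Λ c s + 2 * Real.pi * I / n
  eq0 : ∀ c s : ℂ, (c, s) ∈ D0 → Λ c s = Λ0 c s
  pot : ∀ c s : ℂ, (c, s) ∈ Dm n m → G n c (exp (Λ c s)) = s.re

section
variable {n : ℕ} {Λ0 : ℂ → ℂ → ℂ}

lemma D0_pos {c s : ℂ} (h : (c, s) ∈ D0) : 0 < s.re := by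
  have h1 : 3 / 2 * (1 + ‖c‖) < Real.exp s.re := h
  have h2 := norm_nonneg c
  have h3 : (1 : ℝ) < Real.exp s.re := by linarith
  exact Real.one_lt_exp_iff.1 h3

lemma D0_mono {c s u : ℂ} (h : (c, s) ∈ D0) (hu : s.re ≤ u.re) : (c, u) ∈ D0 := by
  have h1 : 3 / 2 * (1 + ‖c‖) < Real.exp s.re := h
  have h2 := Real.exp_le_exp.2 hu
  show 3 / 2 * (1 + ‖c‖) < Real.exp u.re
  linarith

lemma Hyp.n1 (H : Hyp n Λ0) : (2 : ℝ) ≤ n := by exact_mod_cast H.hn

lemma Hyp.D0_sub (H : Hyp n Λ0) {c s : ℂ} (h : (c, s) ∈ D0) : G n c 0 < s.re := by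
  have hn := H.n1
  have h1 : 3 / 2 * (1 + ‖c‖) < Real.exp s.re := h
  have h2 := norm_nonneg c
  have h3 : Real.log (1 + ‖c‖) < s.re := by
    rw [Real.log_lt_iff_lt_exp (by linarith)]
    linarith
  have h4 := (abs_le.1 (H.Gb c c)).2
  have h5 : Real.posLog ‖c‖ ≤ Real.log (1 + ‖c‖) := by
    rw [Real.posLog]
    refine max_le (Real.log_nonneg (by linarith)) ?_
    rcases h2.eq_or_lt with h6 | h6
    · rw [← h6]; simp
    · exact Real.log_le_log h6 (by linarith)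
  have h6 := H.Gcc c
  have h7 := H.G0 c 0
  have h8 : 2 * G n c 0 ≤ n * G n c 0 := mul_le_mul_of_nonneg_right hn h7
  linarith

lemma Hyp.D0_Dm (H : Hyp n Λ0) {c s : ℂ} (h : (c, s) ∈ D0) (m : ℕ) : (c, s) ∈ Dm n m := by
  refine ⟨H.D0_sub h, ?_⟩
  have hn := H.n1
  have h1 : 3 / 2 * (1 + ‖c‖) < Real.exp s.re := h
  have h2 := D0_pos h
  have h3 : (1 : ℝ) ≤ (n : ℝ) ^ m := one_le_pow₀ (by linarith)
  have h4 : s.re ≤ (n : ℝ) ^ m * s.re := by nlinarith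
  show 3 / 2 * (1 + ‖c‖) < Real.exp ((n : ℝ) ^ m * s.re)
  exact lt_of_lt_of_le h1 (Real.exp_le_exp.2 h4)

lemma Hyp.Dm_pos (H : Hyp n Λ0) {m : ℕ} {c s : ℂ} (h : (c, s) ∈ Dm n m) : 0 < s.re :=
  lt_of_le_of_lt (H.G0 c 0) h.1

lemma Hyp.Dm_mono (H : Hyp n Λ0) {m : ℕ} {c s u : ℂ} (h : (c, s) ∈ Dm n m)
    (hu : s.re ≤ u.re) : (c, u) ∈ Dm n m := by
  have hn := H.n1
  have h1 : G n c 0 < s.re := h.1
  have h2 : 3 / 2 * (1 + ‖c‖) < Real.exp ((n : ℝ) ^ m * s.re) := h.2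
  refine ⟨lt_of_lt_of_le h1 hu, ?_⟩
  show 3 / 2 * (1 + ‖c‖) < Real.exp ((n : ℝ) ^ m * u.re)
  refine lt_of_lt_of_le h2 (Real.exp_le_exp.2 ?_)
  exact mul_le_mul_of_nonneg_left hu (by positivity)

lemma Hyp.Dm_mul (H : Hyp n Λ0) {m : ℕ} {c s u : ℂ} (h : (c, s) ∈ Dm n (m + 1))
    (hu : n * s.re ≤ u.re) : (c, u) ∈ Dm n m := by
  have hn := H.n1
  have h1 : G n c 0 < s.re := h.1
  have h2 : 3 / 2 * (1 + ‖c‖) < Real.exp ((n : ℝ) ^ (m + 1) * s.re) := h.2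
  have h3 := H.Dm_pos h
  refine ⟨?_, ?_⟩
  · show G n c 0 < u.re
    nlinarith
  · show 3 / 2 * (1 + ‖c‖) < Real.exp ((n : ℝ) ^ m * u.re)
    refine lt_of_lt_of_le h2 (Real.exp_le_exp.2 ?_)
    rw [pow_succ, mul_assoc]
    exact mul_le_mul_of_nonneg_left hu (by positivity)

lemma Hyp.Dm_succ (H : Hyp n Λ0) {m : ℕ} {c s : ℂ} (h : (c, s) ∈ Dm n m) :
    (c, s) ∈ Dm n (m + 1) := by
  have hn := H.n1
  have h3 := H.Dm_pos h
  have h2 : 3 / 2 * (1 + ‖c‖) < Real.exp ((n : ℝ) ^ m * s.re) := h.2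
  refine ⟨h.1, ?_⟩
  show 3 / 2 * (1 + ‖c‖) < Real.exp ((n : ℝ) ^ (m + 1) * s.re)
  refine lt_of_lt_of_le h2 (Real.exp_le_exp.2 ?_)
  have h4 : (n : ℝ) ^ m ≤ (n : ℝ) ^ (m + 1) := pow_le_pow_right₀ (by linarith) (by omega)
  exact mul_le_mul_of_nonneg_right h4 h3.le

lemma Hyp.Dm_union (H : Hyp n Λ0) {c s : ℂ} (h : G n c 0 < s.re) : ∃ m, (c, s) ∈ Dm n m := by
  have hn := H.n1
  have hs : 0 < s.re := lt_of_le_of_lt (H.G0 c 0) h
  have h1 : Tendsto (fun m : ℕ => Real.exp ((n : ℝ) ^ m * s.re)) atTop atTop :=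
    Real.tendsto_exp_atTop.comp
      ((tendsto_pow_atTop_atTop_of_one_lt (by linarith)).atTop_mul_const hs)
  obtain ⟨m, hm⟩ := (h1.eventually (eventually_gt_atTop (3 / 2 * (1 + ‖c‖)))).exists
  exact ⟨m, h, hm⟩

lemma Hyp.Dm_open (H : Hyp n Λ0) (m : ℕ) : IsOpen (Dm n m) := by
  have h0 : Continuous (fun q : ℂ × ℂ => (q.1, (0 : ℂ))) := by fun_prop
  have h1 : Continuous (fun q : ℂ × ℂ => G n q.1 0) := by
    have h2 := H.Gc.comp h0
    simpa only [Function.comp_def] using h2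
  have h2 : Continuous (fun q : ℂ × ℂ => q.2.re) := continuous_re.comp continuous_snd
  have h3 : Continuous (fun q : ℂ × ℂ => 3 / 2 * (1 + ‖q.1‖)) := by fun_prop
  have h4 : Continuous (fun q : ℂ × ℂ => Real.exp ((n : ℝ) ^ m * q.2.re)) :=
    Real.continuous_exp.comp (continuous_const.mul h2)
  exact IsOpen.inter (isOpen_lt h1 h2) (isOpen_lt h3 h4)

lemma Hyp.pot0 (H : Hyp n Λ0) {c s : ℂ} (h : (c, s) ∈ D0) : G n c (exp (Λ0 c s)) = s.re := by
  have hn := H.n1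
  have hs := D0_pos h
  have hstep : ∀ u : ℂ, (c, u) ∈ D0 →
      G n c (exp (Λ0 c (n * u))) = n * G n c (exp (Λ0 c u)) := by
    intro u hu
    rw [← H.GF]
    congr 1
    unfold F
    rw [← exp_nat_mul, H.func c u hu]
    ring
  have hmem : ∀ m : ℕ, (c, (n : ℂ) ^ m * s) ∈ D0 ∧ ((n : ℂ) ^ m * s).re = (n : ℝ) ^ m * s.re := by
    intro m
    have h1 : ((n : ℂ) ^ m * s).re = (n : ℝ) ^ m * s.re := by
      have : ((n : ℂ) ^ m) = (((n : ℝ) ^ m : ℝ) : ℂ) := by push_cast; rfl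
      rw [this, re_ofReal_mul]
    refine ⟨D0_mono h ?_, h1⟩
    rw [h1]
    have h3 : (1 : ℝ) ≤ (n : ℝ) ^ m := one_le_pow₀ (by linarith)
    nlinarith
  have hit : ∀ m : ℕ, G n c (exp (Λ0 c ((n : ℂ) ^ m * s))) = (n : ℝ) ^ m * G n c (exp (Λ0 c s)) := by
    intro m
    induction m with
    | zero => simp
    | succ m ih =>
      have := hstep _ (hmem m).1
      rw [ih, ← mul_assoc, ← mul_assoc, ← pow_succ', ← pow_succ'] at this
      exact this
  have hbd : ∀ m : ℕ, (n : ℝ) ^ m * |G n c (exp (Λ0 c s)) - s.re| ≤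
      Real.log (1 + ‖c‖) + ‖c‖ := by
    intro m
    obtain ⟨h1, h2⟩ := hmem m
    have h3 := H.Gb c (exp (Λ0 c ((n : ℂ) ^ m * s)))
    have h4 := H.near c _ h1
    have h5 : ‖Λ0 c ((n : ℂ) ^ m * s) - (n : ℂ) ^ m * s‖ ≤ ‖c‖ := by
      refine h4.trans ?_
      have h6 : Real.exp (-(n * ((n : ℂ) ^ m * s).re)) ≤ 1 := by
        rw [Real.exp_le_one_iff]
        have := D0_pos h1
        nlinarith
      calc ‖c‖ * Real.exp (-(n * ((n : ℂ) ^ m * s).re)) ≤ ‖c‖ * 1 :=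
            mul_le_mul_of_nonneg_left h6 (norm_nonneg _)
        _ = ‖c‖ := mul_one _
    have h6 : |Real.posLog ‖exp (Λ0 c ((n : ℂ) ^ m * s))‖ - (n : ℝ) ^ m * s.re| ≤ ‖c‖ := by
      rw [Real.posLog, norm_exp, Real.log_exp]
      have h7 : |(Λ0 c ((n : ℂ) ^ m * s)).re - (n : ℝ) ^ m * s.re| ≤ ‖c‖ := by
        rw [← h2, ← sub_re]
        exact (abs_re_le_norm _).trans h5
      have h8 : 0 ≤ (n : ℝ) ^ m * s.re := by positivity
      rw [abs_le] at h7 ⊢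
      rcases le_total 0 (Λ0 c ((n : ℂ) ^ m * s)).re with h9 | h9
      · rw [max_eq_right h9]; exact h7
      · rw [max_eq_left h9]
        have := norm_nonneg c
        constructor
        · linarith
        · linarith
    rw [hit m] at h3
    have h7 : (n : ℝ) ^ m * |G n c (exp (Λ0 c s)) - s.re| =
        |(n : ℝ) ^ m * G n c (exp (Λ0 c s)) - (n : ℝ) ^ m * s.re| := by
      rw [← mul_sub, abs_mul, abs_of_nonneg (by positivity : (0 : ℝ) ≤ (n : ℝ) ^ m)]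
    rw [h7]
    calc |(n : ℝ) ^ m * G n c (exp (Λ0 c s)) - (n : ℝ) ^ m * s.re|
        ≤ |(n : ℝ) ^ m * G n c (exp (Λ0 c s)) - Real.posLog ‖exp (Λ0 c ((n : ℂ) ^ m * s))‖| +
          |Real.posLog ‖exp (Λ0 c ((n : ℂ) ^ m * s))‖ - (n : ℝ) ^ m * s.re| := abs_sub_le _ _ _
      _ ≤ _ := add_le_add h3 h6
  by_contra hne
  have hpos : 0 < |G n c (exp (Λ0 c s)) - s.re| := abs_pos.2 (sub_ne_zero.2 hne)
  have h1 : Tendsto (fun m : ℕ => (n : ℝ) ^ m * |G n c (exp (Λ0 c s)) - s.re|) atTop atTop :=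
    (tendsto_pow_atTop_atTop_of_one_lt (by linarith)).atTop_mul_const hpos
  obtain ⟨m, hm⟩ := (h1.eventually (eventually_gt_atTop (Real.log (1 + ‖c‖) + ‖c‖))).exists
  exact absurd (hbd m) (not_le.2 hm)

lemma Hyp.base (H : Hyp n Λ0) : Good n Λ0 0 Λ0 := by
  have h : ∀ c s : ℂ, (c, s) ∈ Dm n 0 → (c, s) ∈ D0 := by
    intro c s hs
    have := hs.2
    simp only [pow_zero, one_mul] at this
    exact this
  refine ⟨H.cont.mono (fun q hq => h q.1 q.2 hq), fun c s hs => H.diff c s (h c s hs),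
    fun c s hs => H.diffc c s (h c s hs), fun c s hs => H.func c s (h c s hs),
    fun c s hs => H.rot c s (h c s hs), fun _ _ _ => rfl, fun c s hs => H.pot0 (h c s hs)⟩

/-- The function whose logarithm is taken. -/
noncomputable def qq (n : ℕ) (Λ : ℂ → ℂ → ℂ) (c s : ℂ) (t : ℝ) : ℂ :=
  (exp (Λ c (n * (s + t))) - c) * exp (-(n * (s + t)))

lemma re_mul_add (n : ℕ) (s : ℂ) (t : ℝ) : ((n : ℂ) * (s + t)).re = n * (s.re + t) := by
  simp

lemma Hyp.arg_mem (H : Hyp n Λ0) {m : ℕ} {c s : ℂ} (h : (c, s) ∈ Dm n (m + 1)) {t : ℝ}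
    (ht : 0 ≤ t) : (c, (n : ℂ) * (s + t)) ∈ Dm n m := by
  refine H.Dm_mul h ?_
  rw [re_mul_add]
  have hn := H.n1
  nlinarith

lemma Hyp.qq_ne (H : Hyp n Λ0) {m : ℕ} {Λ : ℂ → ℂ → ℂ} (g : Good n Λ0 m Λ) {c s : ℂ}
    (h : (c, s) ∈ Dm n (m + 1)) {t : ℝ} (ht : 0 ≤ t) : qq n Λ c s t ≠ 0 := by
  have hn := H.n1
  have h1 := g.pot c _ (H.arg_mem h ht)
  unfold qq
  refine mul_ne_zero ?_ (exp_ne_zero _)
  intro h0
  rw [sub_eq_zero] at h0
  rw [h0, H.Gcc, re_mul_add] at h1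
  have h2 : G n c 0 < s.re := h.1
  have h3 : G n c 0 = s.re + t := by
    have : (n : ℝ) ≠ 0 := by linarith
    exact mul_left_cancel₀ this h1
  linarith

lemma Hyp.qq_cont (H : Hyp n Λ0) {m : ℕ} {Λ : ℂ → ℂ → ℂ} (g : Good n Λ0 m Λ) :
    ContinuousOn (fun p : (Dm n (m + 1)) × ℝ => qq n Λ p.1.1.1 p.1.1.2 p.2) (univ ×ˢ Ici 0) := by
  unfold qq
  have h1 : Continuous (fun p : (Dm n (m + 1)) × ℝ => ((n : ℂ) * (p.1.1.2 + p.2))) := by fun_prop
  have h2 : Continuous (fun p : (Dm n (m + 1)) × ℝ => p.1.1.1) := by fun_prop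
  have h3 : ContinuousOn (fun p : (Dm n (m + 1)) × ℝ =>
      Λ p.1.1.1 ((n : ℂ) * (p.1.1.2 + p.2))) (univ ×ˢ Ici 0) := by
    refine g.cont.comp (h2.prodMk h1).continuousOn ?_
    intro p hp
    exact H.arg_mem p.1.2 hp.2
  exact (h3.cexp.sub h2.continuousOn).mul h1.neg.cexp.continuousOn

lemma norm_exp_sub_one_le' {w : ℂ} (hw : ‖w‖ ≤ 1) : ‖exp w - 1‖ ≤ 2 * ‖w‖ :=
  Complex.norm_exp_sub_one_le hw

lemma Hyp.qq_lim (H : Hyp n Λ0) {m : ℕ} {Λ : ℂ → ℂ → ℂ} (g : Good n Λ0 m Λ)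
    (y₀ : Dm n (m + 1)) (ε : ℝ) (hε : 0 < ε) :
    ∃ T : ℝ, ∀ᶠ y : Dm n (m + 1) in 𝓝 y₀, ∀ t : ℝ, T ≤ t → ‖qq n Λ y.1.1 y.1.2 t - 1‖ < ε := by
  have hn := H.n1
  set A : ℝ := 3 * (‖y₀.1.1‖ + 2) with hA
  have h1 : Tendsto (fun T : ℝ => A * Real.exp (-T)) atTop (𝓝 (A * 0)) :=
    (Real.tendsto_exp_neg_atTop_nhds_zero).const_mul A
  rw [mul_zero] at h1
  obtain ⟨T, hT, hT0⟩ := ((h1.eventually (gt_mem_nhds (lt_min hε one_pos))).and
    (eventually_ge_atTop (0 : ℝ))).exists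
  refine ⟨T, ?_⟩
  have h2 : ∀ᶠ y : Dm n (m + 1) in 𝓝 y₀, ‖y.1.1‖ < ‖y₀.1.1‖ + 1 := by
    have : Continuous (fun y : Dm n (m + 1) => ‖y.1.1‖) := by fun_prop
    exact this.continuousAt.eventually (gt_mem_nhds (by linarith))
  filter_upwards [h2] with y hy t ht
  obtain ⟨⟨c, s⟩, hcs⟩ := y
  simp only at hy ⊢
  have hspos : 0 < s.re := H.Dm_pos hcs
  have hc0 := norm_nonneg c
  have he1 : Real.exp (-(n * (s.re + t))) ≤ Real.exp (-T) := by
    refine Real.exp_le_exp.2 ?_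
    nlinarith
  have hlt := lt_min_iff.1 hT
  have hApos : 0 < A := by positivity
  have hexpT : A < Real.exp T := by
    have h3 : A * Real.exp (-T) < 1 := hlt.2
    rw [Real.exp_neg, ← div_eq_mul_inv, div_lt_one (Real.exp_pos _)] at h3
    exact h3
  have hD0 : (c, (n : ℂ) * (s + t)) ∈ D0 := by
    show 3 / 2 * (1 + ‖c‖) < Real.exp ((n : ℂ) * (s + t)).re
    rw [re_mul_add]
    have h3 : T ≤ n * (s.re + t) := by nlinarith
    have h4 := Real.exp_le_exp.2 h3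
    have h5 : ‖y₀.1.1‖ ≥ 0 := norm_nonneg _
    have : 3 / 2 * (1 + ‖c‖) < A := by rw [hA]; linarith
    linarith
  have hnear := H.near c _ hD0
  rw [re_mul_add] at hnear
  set w : ℂ := Λ0 c (n * (s + t)) - n * (s + t) with hw
  have hqq : qq n Λ c s t - 1 = (exp w - 1) - c * exp (-(n * (s + t))) := by
    unfold qq
    rw [g.eq0 c _ hD0, hw, sub_mul, ← exp_add, ← sub_eq_add_neg]
    ring
  have hb1 : ‖c‖ * Real.exp (-T) ≤ (A / 3) * Real.exp (-T) := by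
    refine mul_le_mul_of_nonneg_right ?_ (Real.exp_pos _).le
    rw [hA]; linarith
  have hc1 : ‖c‖ * Real.exp (-T) < (A / 3) * Real.exp (-T) := by
    refine mul_lt_mul_of_pos_right ?_ (Real.exp_pos _)
    rw [hA]; linarith
  have hwb : ‖w‖ ≤ ‖c‖ * Real.exp (-T) := by
    refine hnear.trans (mul_le_mul_of_nonneg_left ?_ hc0)
    refine Real.exp_le_exp.2 ?_
    have h3 : T ≤ n * (s.re + t) := by nlinarith
    have h4 : 0 ≤ n * (s.re + t) := by linarith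
    nlinarith
  have hw1 : ‖w‖ ≤ 1 := by
    have := hlt.2
    nlinarith [Real.exp_pos (-T)]
  have hb2 : ‖c * exp (-(n * (s + t)))‖ ≤ ‖c‖ * Real.exp (-T) := by
    rw [norm_mul, norm_exp, neg_re, re_mul_add]
    exact mul_le_mul_of_nonneg_left he1 hc0
  calc ‖qq n Λ c s t - 1‖ = ‖(exp w - 1) - c * exp (-(n * (s + t)))‖ := by rw [hqq]
    _ ≤ ‖exp w - 1‖ + ‖c * exp (-(n * (s + t)))‖ := norm_sub_le _ _
    _ ≤ 2 * ‖w‖ + ‖c‖ * Real.exp (-T) := add_le_add (norm_exp_sub_one_le' hw1) hb2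
    _ ≤ 2 * (‖c‖ * Real.exp (-T)) + ‖c‖ * Real.exp (-T) := by linarith
    _ < A * Real.exp (-T) := by linarith
    _ < ε := hlt.1

lemma Good.shift {m : ℕ} {Λ : ℂ → ℂ → ℂ} (g : Good n Λ0 m Λ) (hn : 2 ≤ n) {c s : ℂ}
    (h : (c, s) ∈ Dm n m) : Λ c (s + 2 * Real.pi * I) = Λ c s + 2 * Real.pi * I := by
  have hn0 : (n : ℂ) ≠ 0 := by
    have : n ≠ 0 := by omega
    exact_mod_cast this
  have hre : ∀ j : ℕ, (s + j * (2 * Real.pi * I / n)).re = s.re := by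
    intro j
    have : (j : ℂ) * (2 * Real.pi * I / n) = ((j * (2 * Real.pi / n) : ℝ) : ℂ) * I := by
      push_cast; ring
    rw [this, add_re, re_ofReal_mul, I_re]
    ring
  have hmem : ∀ j : ℕ, (c, s + j * (2 * Real.pi * I / n)) ∈ Dm n m := by
    intro j
    have h1 : G n c 0 < s.re := h.1
    have h2 : 3 / 2 * (1 + ‖c‖) < Real.exp ((n : ℝ) ^ m * s.re) := h.2
    refine ⟨?_, ?_⟩
    · show G n c 0 < (s + j * (2 * Real.pi * I / n)).re
      rw [hre]; exact h1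
    · show 3 / 2 * (1 + ‖c‖) < Real.exp ((n : ℝ) ^ m * (s + j * (2 * Real.pi * I / n)).re)
      rw [hre]; exact h2
  have hit : ∀ j : ℕ, Λ c (s + j * (2 * Real.pi * I / n)) =
      Λ c s + j * (2 * Real.pi * I / n) := by
    intro j
    induction j with
    | zero => simp
    | succ j ih =>
      have h1 := g.rot c _ (hmem j)
      rw [ih] at h1
      have h2 : s + ((j + 1 : ℕ) : ℂ) * (2 * Real.pi * I / n) =
          s + j * (2 * Real.pi * I / n) + 2 * Real.pi * I / n := by push_cast; ring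
      rw [h2, h1]
      push_cast; ring
  have h1 := hit n
  have h2 : (n : ℂ) * (2 * Real.pi * I / n) = 2 * Real.pi * I := by field_simp
  rw [h2] at h1
  exact h1

lemma Hyp.step (H : Hyp n Λ0) (hL : T_LOGL) {m : ℕ} {Λ : ℂ → ℂ → ℂ} (g : Good n Λ0 m Λ) :
    ∃ Λ' : ℂ → ℂ → ℂ, Good n Λ0 (m + 1) Λ' ∧ ∀ c s : ℂ, (c, s) ∈ Dm n m → Λ' c s = Λ c s := by
  classical
  have hn := H.n1
  have hn0 : (n : ℂ) ≠ 0 := by
    have h2 := H.hn
    have : n ≠ 0 := by omega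
    exact_mod_cast this
  obtain ⟨L, Lcont, Lexp, Llim, Luniq⟩ := hL (Dm n (m + 1))
    (fun y t => qq n Λ y.1.1 y.1.2 t) (H.qq_cont g) (fun y t ht => H.qq_ne g y.2 ht) (H.qq_lim g)
  -- the new map
  set Λ' : ℂ → ℂ → ℂ := fun c s =>
    if h : (c, s) ∈ Dm n (m + 1) then s + L ⟨(c, s), h⟩ 0 / n else 0 with hΛ'
  have hval : ∀ (c s : ℂ) (h : (c, s) ∈ Dm n (m + 1)), Λ' c s = s + L ⟨(c, s), h⟩ 0 / n := by
    intro c s h
    rw [hΛ']
    exact dif_pos h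
  have hL0 : ∀ (c s : ℂ) (h : (c, s) ∈ Dm n (m + 1)),
      exp (L ⟨(c, s), h⟩ 0) = (exp (Λ c (n * s)) - c) * exp (-(n * s)) := by
    intro c s h
    rw [Lexp _ 0 le_rfl]
    unfold qq
    simp
  have hfun0 : ∀ c s : ℂ, (c, s) ∈ Dm n (m + 1) → exp (n * Λ' c s) = exp (Λ c (n * s)) - c := by
    intro c s h
    have h1 : (n : ℂ) * Λ' c s = n * s + L ⟨(c, s), h⟩ 0 := by
      rw [hval c s h]; field_simp
    rw [h1, exp_add, hL0, mul_comm, mul_assoc, ← exp_add]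
    simp
  -- agreement
  have hagree : ∀ c s : ℂ, (c, s) ∈ Dm n m → Λ' c s = Λ c s := by
    intro c s h
    have h' := H.Dm_succ h
    have hmem : ∀ t : ℝ, 0 ≤ t → (c, s + t) ∈ Dm n m := by
      intro t ht
      refine H.Dm_mono h ?_
      simp; exact ht
    have hM : ∀ t : ℝ, 0 ≤ t → n * Λ c (s + t) - n * (s + t) = L ⟨(c, s), h'⟩ t := by
      refine Luniq ⟨(c, s), h'⟩ (fun t : ℝ => n * Λ c (s + t) - n * (s + t)) ?_ ?_ ?_
      · have h1 : Continuous (fun t : ℝ => (c, s + (t : ℂ))) := by fun_prop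
        have h2 : ContinuousOn (fun t : ℝ => Λ c (s + t)) (Ici 0) :=
          g.cont.comp h1.continuousOn (fun t ht => hmem t ht)
        have h3 : Continuous (fun t : ℝ => (n : ℂ) * (s + t)) := by fun_prop
        exact (continuousOn_const.mul h2).sub h3.continuousOn
      · intro t ht
        rw [sub_eq_add_neg, exp_add, g.func c _ (hmem t ht)]
        rfl
      · -- limit
        have hs := H.Dm_pos h
        have hsmall : Tendsto (fun t : ℝ => (n * ‖c‖) * Real.exp (-t)) atTop (𝓝 0) := by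
          have := (Real.tendsto_exp_neg_atTop_nhds_zero).const_mul (n * ‖c‖)
          simpa using this
        refine squeeze_zero_norm' ?_ hsmall
        have hbig : ∀ᶠ t : ℝ in atTop, 3 / 2 * (1 + ‖c‖) < Real.exp t :=
          Real.tendsto_exp_atTop.eventually (eventually_gt_atTop _)
        filter_upwards [hbig, eventually_ge_atTop (0 : ℝ)] with t ht ht0
        have hre : (s + (t : ℂ)).re = s.re + t := by simp
        have hD : (c, s + (t : ℂ)) ∈ D0 := by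
          show 3 / 2 * (1 + ‖c‖) < Real.exp (s + (t : ℂ)).re
          rw [hre]
          exact lt_trans ht (Real.exp_lt_exp.2 (by linarith))
        have hnear := H.near c _ hD
        rw [g.eq0 c _ hD, ← mul_sub, norm_mul]
        have hnn : ‖(n : ℂ)‖ = n := by simp
        rw [hnn, mul_assoc]
        refine mul_le_mul_of_nonneg_left ?_ (by positivity)
        refine hnear.trans (mul_le_mul_of_nonneg_left ?_ (norm_nonneg _))
        refine Real.exp_le_exp.2 ?_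
        rw [hre]
        nlinarith
    have h1 := hM 0 le_rfl
    rw [hval c s h', ← h1]
    simp only [ofReal_zero, add_zero]
    field_simp
    ring
  -- rotation
  have hrot : ∀ c s : ℂ, (c, s) ∈ Dm n (m + 1) →
      Λ' c (s + 2 * Real.pi * I / n) = Λ' c s + 2 * Real.pi * I / n := by
    intro c s h
    have hre : (s + 2 * Real.pi * I / n).re = s.re := by
      have : (2 : ℂ) * Real.pi * I / n = ((2 * Real.pi / n : ℝ) : ℂ) * I := by
        push_cast; ring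
      rw [this, add_re, re_ofReal_mul, I_re]
      ring
    have h' : (c, s + 2 * Real.pi * I / n) ∈ Dm n (m + 1) := H.Dm_mono h hre.ge
    have hM : ∀ t : ℝ, 0 ≤ t → L ⟨(c, s + 2 * Real.pi * I / n), h'⟩ t = L ⟨(c, s), h⟩ t := by
      refine Luniq ⟨(c, s), h⟩ (L ⟨(c, s + 2 * Real.pi * I / n), h'⟩) ?_ ?_ ?_
      · have h1 : Continuous (fun t : ℝ =>
            (((⟨(c, s + 2 * Real.pi * I / n), h'⟩ : Dm n (m + 1)), t) : (Dm n (m + 1)) × ℝ)) := by
          fun_prop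
        exact Lcont.comp h1.continuousOn (fun t ht => ⟨mem_univ _, ht⟩)
      · intro t ht
        rw [Lexp _ t ht]
        show qq n Λ c (s + 2 * Real.pi * I / n) t = qq n Λ c s t
        unfold qq
        have h1 : (n : ℂ) * (s + 2 * Real.pi * I / n + t) = n * (s + t) + 2 * Real.pi * I := by
          field_simp
          ring
        have h2 : -((n : ℂ) * (s + t) + 2 * Real.pi * I) =
            -((n : ℂ) * (s + t)) - 2 * Real.pi * I := by ring
        rw [h1, g.shift H.hn (H.arg_mem h ht), h2, exp_periodic, exp_periodic.sub_eq]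
      · rw [Metric.tendsto_atTop]
        intro ε hε
        obtain ⟨T, hT⟩ := Llim ⟨(c, s + 2 * Real.pi * I / n), h'⟩ ε hε
        refine ⟨T, fun t ht => ?_⟩
        rw [dist_zero_right]
        exact hT.self_of_nhds t ht
    rw [hval c _ h', hval c s h, hM 0 le_rfl]
    ring
  -- functional equation
  have hfun : ∀ c s : ℂ, (c, s) ∈ Dm n (m + 1) → exp (n * Λ' c s) = exp (Λ' c (n * s)) - c := by
    intro c s h
    rw [hfun0 c s h, hagree c (n * s) (H.Dm_mul h (by simp))]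
  -- continuity
  have hcont : ContinuousOn (fun q : ℂ × ℂ => Λ' q.1 q.2) (Dm n (m + 1)) := by
    rw [continuousOn_iff_continuous_domRestrict]
    have h1 : Continuous (fun y : Dm n (m + 1) => L y 0) := by
      have h2 : Continuous (fun y : Dm n (m + 1) => ((y, (0 : ℝ)) : (Dm n (m + 1)) × ℝ)) := by
        fun_prop
      have h3 : ∀ y : Dm n (m + 1), ((y, (0 : ℝ)) : (Dm n (m + 1)) × ℝ) ∈
          (univ : Set (Dm n (m + 1))) ×ˢ Ici (0 : ℝ) := fun y => ⟨mem_univ _, mem_Ici.2 le_rfl⟩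
      exact Lcont.comp_continuous h2 h3
    have h4 : (Dm n (m + 1)).domRestrict (fun q : ℂ × ℂ => Λ' q.1 q.2) =
        fun y : Dm n (m + 1) => y.1.2 + L y 0 / n := by
      funext y
      exact hval y.1.1 y.1.2 y.2
    rw [h4]
    exact (continuous_snd.comp continuous_subtype_val).add (h1.div_const _)
  have hcAt : ∀ c s : ℂ, (c, s) ∈ Dm n (m + 1) →
      ContinuousAt (fun q : ℂ × ℂ => Λ' q.1 q.2) (c, s) := fun c s h =>
    hcont.continuousAt ((H.Dm_open (m + 1)).mem_nhds h)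
  have hdiffaux : ∀ c s : ℂ, (c, s) ∈ Dm n (m + 1) → (c, (n : ℂ) * s) ∈ Dm n m := fun c s h =>
    H.Dm_mul h (by simp)
  refine ⟨Λ', ⟨hcont, ?_, ?_, hfun, hrot, ?_, ?_⟩, hagree⟩
  · intro c s h
    have h1 : Tendsto (fun s' : ℂ => ((c, s') : ℂ × ℂ)) (𝓝 s) (𝓝 (c, s)) := by
      have : Continuous (fun s' : ℂ => ((c, s') : ℂ × ℂ)) := by fun_prop
      exact this.tendsto s
    have h2 : ContinuousAt (fun s' => (n : ℂ) * Λ' c s') s := by
      have := (hcAt c s h).tendsto.comp h1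
      exact (this.const_mul (n : ℂ))
    have h3 : DifferentiableAt ℂ (fun s' => exp (Λ c (n * s')) - c) s := by
      have h4 : DifferentiableAt ℂ (Λ c) (n * s) := g.diff c _ (hdiffaux c s h)
      have h5 : DifferentiableAt ℂ (fun s' : ℂ => (n : ℂ) * s') s := by fun_prop
      exact ((DifferentiableAt.comp s h4 h5).cexp).sub_const c
    have h4 : ∀ᶠ s' in 𝓝 s, exp (n * Λ' c s') = exp (Λ c (n * s')) - c := by
      filter_upwards [h1.eventually ((H.Dm_open (m + 1)).mem_nhds h)] with s' hs'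
      exact hfun0 c s' hs'
    have h5 := diff_of_exp h2 h3 h4
    have h6 : Λ' c = fun s' => (n : ℂ) * Λ' c s' / n := by
      funext s'; field_simp
    rw [h6]
    exact h5.div_const _
  · intro c s h
    have h1 : Tendsto (fun c' : ℂ => ((c', s) : ℂ × ℂ)) (𝓝 c) (𝓝 (c, s)) := by
      have : Continuous (fun c' : ℂ => ((c', s) : ℂ × ℂ)) := by fun_prop
      exact this.tendsto c
    have h2 : ContinuousAt (fun c' => (n : ℂ) * Λ' c' s) c := by
      have := (hcAt c s h).tendsto.comp h1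
      exact (this.const_mul (n : ℂ))
    have h3 : DifferentiableAt ℂ (fun c' => exp (Λ c' (n * s)) - c') c := by
      have h4 : DifferentiableAt ℂ (fun c' => Λ c' (n * s)) c := g.diffc c _ (hdiffaux c s h)
      exact h4.cexp.sub differentiableAt_id
    have h4 : ∀ᶠ c' in 𝓝 c, exp (n * Λ' c' s) = exp (Λ c' (n * s)) - c' := by
      filter_upwards [h1.eventually ((H.Dm_open (m + 1)).mem_nhds h)] with c' hc'
      exact hfun0 c' s hc'
    have h5 := diff_of_exp h2 h3 h4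
    have h6 : (fun c' => Λ' c' s) = fun c' => (n : ℂ) * Λ' c' s / n := by
      funext c'; field_simp
    rw [h6]
    exact h5.div_const _
  · intro c s h
    rw [hagree c s (H.D0_Dm h m), g.eq0 c s h]
  · intro c s h
    have h1 := H.GF c (exp (Λ' c s))
    have h2 : F n c (exp (Λ' c s)) = exp (Λ c (n * s)) := by
      unfold F
      rw [← exp_nat_mul, hfun0 c s h]
      ring
    rw [h2, g.pot c _ (hdiffaux c s h)] at h1
    have h3 : ((n : ℂ) * s).re = n * s.re := by simp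
    rw [h3] at h1
    have h4 : (n : ℝ) ≠ 0 := by linarith
    exact (mul_left_cancel₀ h4 h1).symm

end

end BOT1aux

open BOT1aux in
/-- BOT1 from BOT0, GREEN, LOGL. -/
theorem p_BOT1 (h0 : T_BOT0) (hG : T_GREEN) (hL : T_LOGL) : T_BOT1 := by
  classical
  intro n hn
  obtain ⟨Λ0, c0, d0, f0⟩ := h0 n hn
  obtain ⟨g1, g2, g3, g4, -, -, g7, -⟩ := hG n hn
  have H : Hyp n Λ0 := ⟨hn, g1, g2, g3, g4, g7, c0, fun c s h => (d0 c s h).1,
    fun c s h => (d0 c s h).2, fun c s h => (f0 c s h).1, fun c s h => (f0 c s h).2.1,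
    fun c s h => (f0 c s h).2.2⟩
  -- the sequence
  have hstep : ∀ (m : ℕ) (Λ : {Λ : ℂ → ℂ → ℂ // Good n Λ0 m Λ}),
      ∃ Λ' : {Λ : ℂ → ℂ → ℂ // Good n Λ0 (m + 1) Λ},
        ∀ c s : ℂ, (c, s) ∈ Dm n m → Λ'.1 c s = Λ.1 c s := by
    intro m Λ
    obtain ⟨Λ', h1, h2⟩ := H.step hL Λ.2
    exact ⟨⟨Λ', h1⟩, h2⟩
  choose nxt hnxt using hstep
  let sq : (m : ℕ) → {Λ : ℂ → ℂ → ℂ // Good n Λ0 m Λ} := fun m =>
    Nat.rec ⟨Λ0, H.base⟩ (fun m x => nxt m x) m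
  have hsq : ∀ m, sq (m + 1) = nxt m (sq m) := fun m => rfl
  have hchain : ∀ (c s : ℂ) (k j : ℕ), (c, s) ∈ Dm n k →
      (c, s) ∈ Dm n (k + j) ∧ (sq (k + j)).1 c s = (sq k).1 c s := by
    intro c s k j hk
    induction j with
    | zero => exact ⟨hk, rfl⟩
    | succ j ih =>
      refine ⟨H.Dm_succ ih.1, ?_⟩
      rw [← ih.2]
      exact hnxt (k + j) (sq (k + j)) c s ih.1
  set Λ : ℂ → ℂ → ℂ := fun c s =>
    if h : ∃ m, (c, s) ∈ Dm n m then (sq (Nat.find h)).1 c s else 0 with hΛ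
  have hval : ∀ (m : ℕ) (c s : ℂ), (c, s) ∈ Dm n m → Λ c s = (sq m).1 c s := by
    intro m c s h
    have hex : ∃ m, (c, s) ∈ Dm n m := ⟨m, h⟩
    have h1 : Λ c s = (sq (Nat.find hex)).1 c s := by
      rw [hΛ]
      exact dif_pos hex
    rw [h1]
    have h2 : Nat.find hex ≤ m := Nat.find_min' hex h
    obtain ⟨j, hj⟩ := Nat.exists_eq_add_of_le h2
    have h3 := (hchain c s (Nat.find hex) j (Nat.find_spec hex)).2
    rw [← hj] at h3
    exact h3.symm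
  have hev : ∀ (m : ℕ) (c s : ℂ), (c, s) ∈ Dm n m →
      ∀ᶠ q : ℂ × ℂ in 𝓝 (c, s), Λ q.1 q.2 = (sq m).1 q.1 q.2 := by
    intro m c s h
    filter_upwards [(H.Dm_open m).mem_nhds h] with q hq
    exact hval m q.1 q.2 hq
  have hmul : ∀ (m : ℕ) (c s : ℂ), (c, s) ∈ Dm n m → (c, (n : ℂ) * s) ∈ Dm n m := by
    intro m c s h
    refine H.Dm_mul (H.Dm_succ h) (by simp)
  refine ⟨Λ, ?_, ?_, ?_, ?_, ?_, ?_, ?_⟩
  · rintro ⟨c, s⟩ h
    obtain ⟨m, hm⟩ := H.Dm_union h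
    have h1 : ContinuousAt (fun q : ℂ × ℂ => (sq m).1 q.1 q.2) (c, s) :=
      (sq m).2.cont.continuousAt ((H.Dm_open m).mem_nhds hm)
    exact (h1.congr_of_eventuallyEq (hev m c s hm)).continuousWithinAt
  · intro c s h
    obtain ⟨m, hm⟩ := H.Dm_union h
    have h1 : Tendsto (fun s' : ℂ => ((c, s') : ℂ × ℂ)) (𝓝 s) (𝓝 (c, s)) := by
      have : Continuous (fun s' : ℂ => ((c, s') : ℂ × ℂ)) := by fun_prop
      exact this.tendsto s
    exact ((sq m).2.diff c s hm).congr_of_eventuallyEq (h1.eventually (hev m c s hm))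
  · intro c s h
    obtain ⟨m, hm⟩ := H.Dm_union h
    have h1 : Tendsto (fun c' : ℂ => ((c', s) : ℂ × ℂ)) (𝓝 c) (𝓝 (c, s)) := by
      have : Continuous (fun c' : ℂ => ((c', s) : ℂ × ℂ)) := by fun_prop
      exact this.tendsto c
    exact ((sq m).2.diffc c s hm).congr_of_eventuallyEq (h1.eventually (hev m c s hm))
  · intro c s h
    obtain ⟨m, hm⟩ := H.Dm_union h
    rw [hval m c s hm, hval m c _ (hmul m c s hm)]
    exact (sq m).2.func c s hm
  · intro c s h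
    obtain ⟨m, hm⟩ := H.Dm_union h
    have hre : (s + 2 * Real.pi * I / n).re = s.re := by
      have : (2 : ℂ) * Real.pi * I / n = ((2 * Real.pi / n : ℝ) : ℂ) * I := by
        push_cast; ring
      rw [this, add_re, re_ofReal_mul, I_re]
      ring
    have h' : (c, s + 2 * Real.pi * I / n) ∈ Dm n m := H.Dm_mono hm hre.ge
    rw [hval m c s hm, hval m c _ h']
    exact (sq m).2.rot c s hm
  · intro c s h
    have hc := norm_nonneg c
    have hD : (c, s) ∈ D0 := by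
      show 3 / 2 * (1 + ‖c‖) < Real.exp s.re
      linarith
    refine ⟨H.D0_sub hD, ?_⟩
    rw [hval 0 c s (H.D0_Dm hD 0)]
    exact H.near c s hD
  · intro c s h
    obtain ⟨m, hm⟩ := H.Dm_union h
    rw [hval m c s hm]
    exact (sq m).2.pot c s hm

end Pool.Agent.PLim
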