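import Pool.Agent.PLim.Targets

/-!
# PLIM-BR: inverse branches
-/

set_option autoImplicit false

open Complex Filter Topology Set MeasureTheory
open Pool.Agent.Multibrot Pool.Agent.Limb

namespace Pool.Agent.PLim

namespace BR_

lemma exp_int (k : ℤ) : exp (2 * Real.pi * I * k) = 1 := by
  rw [Complex.exp_eq_one_iff]
  exact ⟨k, by ring⟩

lemma br_pow {n : ℕ} (hn : 2 ≤ n) (lh : ℂ → ℂ → ℂ → ℂ) (c ζ : ℂ) (i : ℤ) (z : ℂ) :
    br n lh c ζ i z ^ n = exp (lh c ζ z) := by
  have hn0 : (n : ℂ) ≠ 0 := by exact_mod_cast (by omega : n ≠ 0)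
  unfold br
  rw [← Complex.exp_nat_mul, mul_div_cancel₀ _ hn0, Complex.exp_add, exp_int, mul_one]

lemma br_add {n : ℕ} (hn : 2 ≤ n) (lh : ℂ → ℂ → ℂ → ℂ) (c ζ : ℂ) (i m : ℤ) (z : ℂ) :
    br n lh c ζ (i + n * m) z = br n lh c ζ i z := by
  have hn0 : (n : ℂ) ≠ 0 := by exact_mod_cast (by omega : n ≠ 0)
  unfold br
  have h : (lh c ζ z + 2 * Real.pi * I * ((i + n * m : ℤ) : ℂ)) / n
      = (lh c ζ z + 2 * Real.pi * I * i) / n + 2 * Real.pi * I * m := by
    push_cast
    field_simp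
    ring
  rw [h, Complex.exp_add, exp_int, mul_one]

lemma br_inj {n : ℕ} (hn : 2 ≤ n) (lh : ℂ → ℂ → ℂ → ℂ) (c ζ : ℂ) (i j : ℤ) (z : ℂ)
    (h : br n lh c ζ i z = br n lh c ζ j z) : (n : ℤ) ∣ i - j := by
  have hn0 : (n : ℂ) ≠ 0 := by exact_mod_cast (by omega : n ≠ 0)
  unfold br at h
  rw [Complex.exp_eq_exp_iff_exists_int] at h
  obtain ⟨m, hm⟩ := h
  refine ⟨m, ?_⟩
  have h1 : (2 * Real.pi * I) * ((i : ℂ) - j) = (2 * Real.pi * I) * (n * m) := by
    field_simp at hm
    linear_combination hm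
  have h2 := mul_left_cancel₀ Complex.two_pi_I_ne_zero h1
  have h3 : ((i - j : ℤ) : ℂ) = ((n * m : ℤ) : ℂ) := by push_cast; exact h2
  exact_mod_cast h3

end BR_

open BR_ in
theorem p_BR (hG : T_GREEN) : T_BR := by
  intro n Λ lh ls c ζ hn hB hL hC
  obtain ⟨hcont, hpos, hfun, -, -, -, hcc, -⟩ := hG n hn
  have hn0 : (n : ℂ) ≠ 0 := by exact_mod_cast (by omega : n ≠ 0)
  have hnR : (2 : ℝ) ≤ n := by exact_mod_cast hn
  have hnR0 : (n : ℝ) ≠ 0 := by positivity
  have hF : ∀ (z : ℂ) (i : ℤ), G n c z < ζ.re → F n c (br n lh c ζ i z) = z := by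
    intro z i hz
    unfold F
    rw [br_pow hn, hL.lhexp c ζ z hC hz]
    ring
  have hGb : ∀ (z : ℂ) (i : ℤ), G n c z < ζ.re → G n c (br n lh c ζ i z) = G n c z / n := by
    intro z i hz
    have h1 := hfun c (br n lh c ζ i z)
    rw [hF z i hz] at h1
    rw [h1, mul_div_cancel_left₀ _ hnR0]
  have hlt : ∀ (z : ℂ) (i : ℤ), G n c z < ζ.re → G n c (br n lh c ζ i z) < ζ.re := by
    intro z i hz
    rw [hGb z i hz]
    refine lt_of_le_of_lt ?_ hz
    exact div_le_self (hpos c z) (by linarith)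
  have hdif : ∀ i : ℤ, DifferentiableOn ℂ (br n lh c ζ i) {z : ℂ | G n c z < ζ.re} := by
    intro i
    unfold br
    exact (((hL.lhdiff c ζ hC).add_const _).div_const _).cexp
  have hinj : ∀ (z z' : ℂ) (i j : ℤ), G n c z < ζ.re → G n c z' < ζ.re →
      br n lh c ζ i z = br n lh c ζ j z' → z = z' ∧ (n : ℤ) ∣ i - j := by
    intro z z' i j hz hz' h
    have h1 : z = z' := by rw [← hF z i hz, h, hF z' j hz']
    refine ⟨h1, ?_⟩
    subst h1
    exact br_inj hn lh c ζ i j z h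
  have hiter : ∀ (ε : ℕ → ℤ) (m : ℕ) (z : ℂ), G n c z < ζ.re →
      (F n c)^[m] (brw n lh c ζ ε m z) = z ∧
        G n c (brw n lh c ζ ε m z) = G n c z / (n : ℝ) ^ m := by
    intro ε m
    induction m with
    | zero => intro z hz; simp [brw]
    | succ m ih =>
      intro z hz
      have h1 := ih (br n lh c ζ (ε m) z) (hlt z _ hz)
      show (F n c)^[m + 1] (brw n lh c ζ ε m (br n lh c ζ (ε m) z)) = z ∧
        G n c (brw n lh c ζ ε m (br n lh c ζ (ε m) z)) = G n c z / (n : ℝ) ^ (m + 1)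
      refine ⟨?_, ?_⟩
      · rw [Function.iterate_succ_apply', h1.1, hF z _ hz]
      · rw [h1.2, hGb z _ hz, div_div, pow_succ, mul_comm]
  refine ⟨?_, hinj, hdif, ?_, ?_, hiter, ?_⟩
  · intro z i hz
    refine ⟨hF z i hz, hGb z i hz, ?_⟩
    have := br_add hn lh c ζ i 1 z
    simpa using this
  · intro z hz
    have hz0 : z ≠ 0 := by
      rintro rfl
      rw [← hcc, ← hC.2.1] at hz
      exact lt_irrefl _ hz
    have hFz : G n c (F n c z) < ζ.re := by rw [hfun]; exact hz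
    have h1 : exp (n * log z) = exp (lh c ζ (F n c z)) := by
      rw [hL.lhexp c ζ _ hC hFz, Complex.exp_nat_mul, Complex.exp_log hz0]
      unfold F; ring
    rw [Complex.exp_eq_exp_iff_exists_int] at h1
    obtain ⟨m, hm⟩ := h1
    refine ⟨m, ?_⟩
    unfold Dig br
    have h2 : (lh c ζ (F n c z) + 2 * Real.pi * I * m) / n = log z := by
      rw [div_eq_iff hn0]
      linear_combination -hm
    rw [h2, Complex.exp_log hz0]
  · intro z i j hz hi
    have hFz : G n c (F n c z) < ζ.re := by rw [hfun]; exact hz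
    unfold Dig at hi ⊢
    constructor
    · intro hj
      exact (hinj _ _ i j hFz hFz (by rw [hi, hj])).2
    · rintro ⟨m, hm⟩
      have h2 : i = j + n * m := by linarith
      rw [h2, br_add hn] at hi
      exact hi
  · intro ε m
    induction m with
    | zero =>
      refine ⟨?_, ?_⟩
      · show DifferentiableOn ℂ (fun z => z) _
        exact differentiableOn_id
      · intro x _ y _ h
        exact h
    | succ m ih =>
      have hmaps : MapsTo (br n lh c ζ (ε m)) {z : ℂ | G n c z < ζ.re} {z : ℂ | G n c z < ζ.re} :=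
        fun z hz => hlt z _ hz
      refine ⟨ih.1.comp (hdif _) hmaps, ?_⟩
      intro x hx y hy h
      have h1 := ih.2 (hmaps hx) (hmaps hy) h
      exact (hinj x y _ _ hx hy h1).1

end Pool.Agent.PLim
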