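import Pool.Agent.PLim.Targets

/-!
# PLIM: a bounded analytic function with radial limits zero on an interval is zero
-/

set_option autoImplicit false

open Complex Filter Topology Set Metric MeasureTheory

namespace Pool.Agent.PLim

namespace BV_

/-- the open square -/
def Sq (h : ℝ) : Set ℂ := {u : ℂ | |u.re| < h ∧ |u.im| < h}

theorem isOpen_Sq (h : ℝ) : IsOpen (Sq h) := by
  have h1 : Continuous (fun u : ℂ => |u.re|) := Complex.continuous_re.abs
  have h2 : Continuous (fun u : ℂ => |u.im|) := Complex.continuous_im.abs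
  exact (isOpen_lt h1 continuous_const).inter (isOpen_lt h2 continuous_const)

theorem I_mem {h : ℝ} {u : ℂ} (hu : u ∈ Sq h) : I * u ∈ Sq h := by
  obtain ⟨h1, h2⟩ := hu
  refine ⟨?_, ?_⟩
  · simp only [mul_re, I_re, I_im, zero_mul, one_mul, zero_sub, abs_neg]
    exact h2
  · simp only [mul_im, I_re, I_im, zero_mul, one_mul, zero_add]
    exact h1

theorem neg_mem {h : ℝ} {u : ℂ} (hu : u ∈ Sq h) : -u ∈ Sq h := by
  obtain ⟨h1, h2⟩ := hu
  refine ⟨?_, ?_⟩
  · simp only [neg_re, abs_neg]
    exact h1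
  · simp only [neg_im, abs_neg]
    exact h2

/-- Cauchy's theorem on a square for a function with the symmetry of `1 / u` -/
theorem sym_int (g : ℂ → ℂ) (h k : ℝ) (hk : 0 < k) (hkh : k < h) (hg : DifferentiableOn ℂ g (Sq h))
    (hsym : ∀ u, u ≠ 0 → g (I * u) = -I * g u) : ∫ y in (-k)..k, g ((-k : ℝ) + y * I) = 0 := by
  have hneg : ∀ u, u ≠ 0 → g (-u) = - g u := by
    intro u hu
    have h1 : -u = I * (I * u) := by
      rw [← mul_assoc, I_mul_I]
      ring
    rw [h1, hsym _ (mul_ne_zero I_ne_zero hu), hsym u hu, ← mul_assoc]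
    have h2 : -I * -I = -1 := by
      rw [neg_mul_neg, I_mul_I]
    rw [h2]
    ring
  have hsub : (Set.uIcc (-k) k ×ℂ Set.uIcc (-k) k) ⊆ Sq h := by
    intro u hu
    rw [mem_reProdIm, uIcc_of_le (show -k ≤ k by linarith), mem_Icc, mem_Icc] at hu
    exact ⟨lt_of_le_of_lt (abs_le.2 hu.1) hkh, lt_of_le_of_lt (abs_le.2 hu.2) hkh⟩
  have hcau := Complex.integral_boundary_rect_eq_zero_of_differentiableOn g (⟨-k, -k⟩ : ℂ)
    (⟨k, k⟩ : ℂ) (hg.mono hsub)
  simp only [smul_eq_mul] at hcau
  set L := ∫ y in (-k)..k, g ((-k : ℝ) + y * I) with hL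
  have hne : ∀ x y : ℝ, y ≠ 0 → (x : ℂ) + y * I ≠ 0 := by
    intro x y hy h0
    have := congrArg Complex.im h0
    simp at this
    exact hy this
  have hne' : ∀ x y : ℝ, x ≠ 0 → (x : ℂ) + y * I ≠ 0 := by
    intro x y hy h0
    have := congrArg Complex.re h0
    simp at this
    exact hy this
  have hT : ∫ x in (-k)..k, g (x + (k : ℝ) * I) = I * L := by
    rw [hL, ← intervalIntegral.integral_const_mul]
    congr 1
    ext x
    have h1 : ((-k : ℝ) : ℂ) + x * I = I * (x + (k : ℝ) * I) := by
      rw [mul_add, mul_left_comm, I_mul_I]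
      push_cast
      ring
    rw [h1, hsym _ (hne x k hk.ne'), ← mul_assoc, mul_neg, I_mul_I]
    ring
  have hR : ∫ y in (-k)..k, g ((k : ℝ) + y * I) = -L := by
    have h1 : ∀ y : ℝ, g ((k : ℝ) + y * I) = -g ((-k : ℝ) + ((-y : ℝ) : ℂ) * I) := by
      intro y
      rw [← hneg _ (hne' (-k) (-y) (neg_ne_zero.2 hk.ne'))]
      congr 1
      push_cast
      ring
    simp only [h1]
    rw [intervalIntegral.integral_neg,
      intervalIntegral.integral_comp_neg (fun y : ℝ => g ((-k : ℝ) + (y : ℂ) * I)), neg_neg]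
  have hB : ∫ x in (-k)..k, g (x + ((-k : ℝ) : ℂ) * I) = -(I * L) := by
    have h1 : ∀ x : ℝ, g (x + ((-k : ℝ) : ℂ) * I) = -g (((-x : ℝ) : ℂ) + (k : ℝ) * I) := by
      intro x
      rw [← hneg _ (hne (-x) k hk.ne')]
      congr 1
      push_cast
      ring
    simp only [h1]
    rw [intervalIntegral.integral_neg,
      intervalIntegral.integral_comp_neg (fun x : ℝ => g ((x : ℂ) + (k : ℝ) * I)), neg_neg, hT]
  rw [hB, hT, hR] at hcau
  have h4 : (-4 * I) * L = 0 := by
    linear_combination hcau
  rcases mul_eq_zero.1 h4 with h5 | h5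
  · exfalso
    have := congrArg Complex.im h5
    simp at this
  · exact h5

theorem center_zero (f : ℂ → ℂ) (m : ℂ) (h M : ℝ) (hh : 0 < h) (hm : m.re = h)
    (hd : ∀ u ∈ Sq h, DifferentiableAt ℂ f (m + u)) (hb : ∀ u ∈ Sq h, ‖f (m + u)‖ ≤ M)
    (hlim : ∀ y : ℝ, |y| < h →
      Tendsto (fun s : ℝ => f (s + ((m.im + y : ℝ) : ℂ) * I)) (𝓝[>] 0) (𝓝 0)) : f m = 0 := by
  set p : ℂ → ℂ := fun u => f (m + u) * f (m + I * u) * f (m + -u) * f (m + -(I * u)) with hp
  have h0S : (0 : ℂ) ∈ Sq h := by
    refine ⟨?_, ?_⟩ <;> simpa using hh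
  have hM0 : 0 ≤ M := (norm_nonneg _).trans (hb 0 h0S)
  have hpd : DifferentiableOn ℂ p (Sq h) := by
    intro u hu
    have e1 : DifferentiableAt ℂ (fun u => f (m + u)) u := by
      apply DifferentiableAt.comp u (hd u hu) (f := fun u => m + u)
      fun_prop
    have e2 : DifferentiableAt ℂ (fun u => f (m + I * u)) u := by
      apply DifferentiableAt.comp u (hd _ (I_mem hu)) (f := fun u => m + I * u)
      fun_prop
    have e3 : DifferentiableAt ℂ (fun u => f (m + -u)) u := by
      apply DifferentiableAt.comp u (hd _ (neg_mem hu)) (f := fun u => m + -u)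
      fun_prop
    have e4 : DifferentiableAt ℂ (fun u => f (m + -(I * u))) u := by
      apply DifferentiableAt.comp u (hd _ (neg_mem (I_mem hu))) (f := fun u => m + -(I * u))
      fun_prop
    exact (((e1.mul e2).mul e3).mul e4).differentiableWithinAt
  have hpsym : ∀ u, p (I * u) = p u := by
    intro u
    rw [hp]
    simp only
    have h1 : I * (I * u) = -u := by
      rw [← mul_assoc, I_mul_I]
      ring
    rw [h1, neg_neg]
    ring
  have hpb : ∀ u ∈ Sq h, ‖p u‖ ≤ ‖f (m + u)‖ * M ^ 3 := by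
    intro u hu
    rw [hp]
    simp only
    rw [norm_mul, norm_mul, norm_mul]
    have b2 := hb _ (I_mem hu)
    have b3 := hb _ (neg_mem hu)
    have b4 := hb _ (neg_mem (I_mem hu))
    calc ‖f (m + u)‖ * ‖f (m + I * u)‖ * ‖f (m + -u)‖ * ‖f (m + -(I * u))‖
        ≤ ‖f (m + u)‖ * M * M * M := by gcongr
      _ = ‖f (m + u)‖ * M ^ 3 := by ring
  have hpb' : ∀ u ∈ Sq h, ‖p u‖ ≤ M ^ 4 := by
    intro u hu
    calc ‖p u‖ ≤ ‖f (m + u)‖ * M ^ 3 := hpb u hu
      _ ≤ M * M ^ 3 := by
          gcongr
          exact hb u hu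
      _ = M ^ 4 := by ring
  set g := dslope p 0 with hg
  have hgd : DifferentiableOn ℂ g (Sq h) :=
    (Complex.differentiableOn_dslope ((isOpen_Sq h).mem_nhds h0S)).2 hpd
  have hgv : ∀ u, u ≠ 0 → g u = (p u - p 0) / u := by
    intro u hu
    rw [hg, dslope_of_ne p hu, slope_def_field, sub_zero]
  have hgsym : ∀ u, u ≠ 0 → g (I * u) = -I * g u := by
    intro u hu
    rw [hgv _ (mul_ne_zero I_ne_zero hu), hgv u hu, hpsym]
    field_simp
    rw [I_sq]
    ring
  -- the integrals
  set F : ℝ → ℝ → ℂ := fun k => (Ioc (-k) k).indicator (fun y : ℝ => g ((-k : ℝ) + y * I)) with hF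
  set F' : ℝ → ℂ := (Ioo (-h) h).indicator (fun y : ℝ => (-p 0) * ((-h : ℝ) + y * I)⁻¹) with hF'
  have hFint : ∀ k, 0 < k → k < h → ∫ y, F k y = 0 := by
    intro k hk hkh
    rw [hF]
    simp only
    rw [integral_indicator measurableSet_Ioc, ← intervalIntegral.integral_of_le (by linarith)]
    exact sym_int g h k hk hkh hgd hgsym
  have hne : ∀ (k y : ℝ), 0 < k → ((-k : ℝ) : ℂ) + y * I ≠ 0 := by
    intro k y hk h0
    have := congrArg Complex.re h0
    simp at this
    exact hk.ne' this
  have hmem : ∀ k y : ℝ, 0 < k → k < h → |y| ≤ k → ((-k : ℝ) : ℂ) + y * I ∈ Sq h := by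
    intro k y hk hkh hy
    refine ⟨?_, ?_⟩
    · simp only [add_re, ofReal_re, mul_re, I_re, mul_zero, ofReal_im, I_im, mul_one, sub_self,
        add_zero, abs_neg, abs_of_pos hk]
      exact hkh
    · simp only [add_im, ofReal_im, mul_im, ofReal_re, I_im, mul_one, I_re, mul_zero, add_zero,
        zero_add]
      exact lt_of_le_of_lt hy hkh
  have hIoc : ∀ k y : ℝ, y ∈ Ioc (-k) k → |y| ≤ k := fun k y hy => abs_le.2 ⟨hy.1.le, hy.2⟩
  have hpos : ∀ᶠ k in 𝓝[<] h, h / 2 < k ∧ k < h := by
    have h1 : ∀ᶠ k in 𝓝[<] h, h / 2 < k :=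
      mem_nhdsWithin_of_mem_nhds (lt_mem_nhds (by linarith))
    filter_upwards [h1, self_mem_nhdsWithin] with k e1 e2
    exact ⟨e1, e2⟩
  have hlimint : Tendsto (fun k => ∫ y, F k y) (𝓝[<] h) (𝓝 (∫ y, F' y)) := by
    apply tendsto_integral_filter_of_dominated_convergence
      ((Ioc (-h) h).indicator (fun _ => 4 * M ^ 4 / h))
    · filter_upwards [hpos] with k hk
      have hk0 : 0 < k := by linarith [hk.1]
      rw [hF]
      simp only
      rw [aestronglyMeasurable_indicator_iff measurableSet_Ioc]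
      apply ContinuousOn.aestronglyMeasurable _ measurableSet_Ioc
      apply hgd.continuousOn.comp
      · fun_prop
      · intro y hy
        exact hmem k y hk0 hk.2 (hIoc k y hy)
    · filter_upwards [hpos] with k hk
      have hk0 : 0 < k := by linarith [hk.1]
      apply Eventually.of_forall
      intro y
      rw [hF]
      simp only
      by_cases hy : y ∈ Ioc (-k) k
      · have hy' : y ∈ Ioc (-h) h := ⟨by linarith [hy.1, hk.2], by linarith [hy.2, hk.2]⟩
        rw [indicator_of_mem hy, indicator_of_mem hy', hgv _ (hne k y hk0), norm_div]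
        have e1 : ‖p (((-k : ℝ) : ℂ) + y * I) - p 0‖ ≤ M ^ 4 + M ^ 4 :=
          (norm_sub_le _ _).trans (add_le_add (hpb' _ (hmem k y hk0 hk.2 (hIoc k y hy)))
            (hpb' 0 h0S))
        have e2 : h / 2 ≤ ‖((-k : ℝ) : ℂ) + y * I‖ := by
          have e3 := Complex.abs_re_le_norm (((-k : ℝ) : ℂ) + y * I)
          simp only [add_re, ofReal_re, mul_re, I_re, mul_zero, ofReal_im, I_im, mul_one, sub_self,
            add_zero, abs_neg, abs_of_pos hk0] at e3
          linarith [hk.1]
        calc ‖p (((-k : ℝ) : ℂ) + y * I) - p 0‖ / ‖((-k : ℝ) : ℂ) + y * I‖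
            ≤ (M ^ 4 + M ^ 4) / (h / 2) := by gcongr
          _ = 4 * M ^ 4 / h := by
              field_simp
              ring
      · rw [indicator_of_notMem hy, norm_zero]
        apply indicator_nonneg
        intro _ _
        positivity
    · exact (continuous_const.integrableOn_Ioc).integrable_indicator measurableSet_Ioc
    · apply Eventually.of_forall
      intro y
      by_cases hy : y ∈ Ioo (-h) h
      · have hyabs : |y| < h := abs_lt.2 hy
        rw [hF', indicator_of_mem hy]
        have hev : ∀ᶠ k in 𝓝[<] h, (p (((-k : ℝ) : ℂ) + y * I) - p 0) * (((-k : ℝ) : ℂ) + y * I)⁻¹ =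
            F k y := by
          have h1 : ∀ᶠ k in 𝓝[<] h, |y| < k := mem_nhdsWithin_of_mem_nhds (lt_mem_nhds hyabs)
          filter_upwards [h1, hpos] with k e1 e2
          have hk0 : 0 < k := by linarith [e2.1]
          have hy2 : y ∈ Ioc (-k) k := ⟨(abs_lt.1 e1).1, (abs_lt.1 e1).2.le⟩
          rw [hF]
          simp only
          rw [indicator_of_mem hy2, hgv _ (hne k y hk0), div_eq_mul_inv]
        apply Tendsto.congr' hev
        have t1 : Tendsto (fun k : ℝ => h - k) (𝓝[<] h) (𝓝[>] 0) := by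
          apply tendsto_nhdsWithin_of_tendsto_nhds_of_eventually_within
          · have e1 : Tendsto (fun k : ℝ => h - k) (𝓝 h) (𝓝 (h - h)) :=
              (continuous_const.sub continuous_id).tendsto h
            rw [sub_self] at e1
            exact e1.mono_left nhdsWithin_le_nhds
          · filter_upwards [self_mem_nhdsWithin] with k hk
            have hk' : k < h := hk
            exact sub_pos.2 hk'
        have t2 := (hlim y hyabs).comp t1
        have t3 : Tendsto (fun k : ℝ => p (((-k : ℝ) : ℂ) + y * I)) (𝓝[<] h) (𝓝 0) := by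
          apply squeeze_zero_norm' (a := fun k : ℝ =>
            ‖f (((h - k : ℝ) : ℂ) + ((m.im + y : ℝ) : ℂ) * I)‖ * M ^ 3)
          · have h1 : ∀ᶠ k in 𝓝[<] h, |y| < k := mem_nhdsWithin_of_mem_nhds (lt_mem_nhds hyabs)
            filter_upwards [h1, hpos] with k e1 e2
            have hk0 : 0 < k := by linarith [e2.1]
            have e3 := hpb _ (hmem k y hk0 e2.2 e1.le)
            have e4 : m + (((-k : ℝ) : ℂ) + y * I) = ((h - k : ℝ) : ℂ) + ((m.im + y : ℝ) : ℂ) * I := by
              apply Complex.ext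
              · simp [hm]
                ring
              · simp
            rw [e4] at e3
            exact e3
          · have e5 := (t2.norm).mul_const (M ^ 3)
            rw [norm_zero, zero_mul] at e5
            exact e5
        have t4 : Tendsto (fun k : ℝ => (((-k : ℝ) : ℂ) + y * I)⁻¹) (𝓝[<] h)
            (𝓝 ((((-h : ℝ) : ℂ) + y * I)⁻¹)) := by
          apply Tendsto.inv₀ _ (hne h y hh)
          have e1 : Continuous (fun k : ℝ => ((-k : ℝ) : ℂ) + y * I) := by fun_prop
          exact (e1.tendsto h).mono_left nhdsWithin_le_nhds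
        have t5 := (t3.sub_const (p 0)).mul t4
        rw [zero_sub] at t5
        exact t5
      · rw [hF', indicator_of_notMem hy]
        apply Tendsto.congr' _ tendsto_const_nhds
        filter_upwards [hpos] with k hk
        rw [hF]
        simp only
        rw [indicator_of_notMem]
        intro hy2
        exact hy ⟨by linarith [hy2.1, hk.2], by linarith [hy2.2, hk.2]⟩
  have hzero : ∫ y, F' y = 0 := by
    have h1 : Tendsto (fun k => ∫ y, F k y) (𝓝[<] h) (𝓝 0) := by
      apply Tendsto.congr' _ tendsto_const_nhds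
      filter_upwards [hpos] with k hk
      rw [hFint k (by linarith [hk.1]) hk.2]
    exact tendsto_nhds_unique hlimint h1
  rw [hF', integral_indicator measurableSet_Ioo, integral_const_mul] at hzero
  have hint : IntegrableOn (fun y : ℝ => (((-h : ℝ) : ℂ) + y * I)⁻¹) (Ioo (-h) h) := by
    have h1 : Continuous (fun y : ℝ => (((-h : ℝ) : ℂ) + y * I)⁻¹) := by
      apply Continuous.inv₀ (by fun_prop)
      intro y
      exact hne h y hh
    exact h1.continuousOn.integrableOn_Icc.mono_set Ioo_subset_Icc_self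
  have hJ : ∫ y in Ioo (-h) h, (((-h : ℝ) : ℂ) + y * I)⁻¹ ≠ 0 := by
    intro h0
    have h1 : ∫ y in Ioo (-h) h, Complex.reCLM ((((-h : ℝ) : ℂ) + y * I)⁻¹) = 0 := by
      rw [Complex.reCLM.integral_comp_comm hint, h0, map_zero]
    have h2 : ∫ y in Ioo (-h) h, (1 / (2 * h) : ℝ) ≤
        ∫ y in Ioo (-h) h, -Complex.reCLM ((((-h : ℝ) : ℂ) + y * I)⁻¹) := by
      apply setIntegral_mono_on
      · exact (continuous_const.continuousOn.integrableOn_Icc (μ := volume)
          (a := -h) (b := h)).mono_set Ioo_subset_Icc_self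
      · exact (Complex.reCLM.integrable_comp hint).neg
      · exact measurableSet_Ioo
      · intro y hy
        rw [Complex.reCLM_apply, Complex.inv_re]
        have e1 : (((-h : ℝ) : ℂ) + y * I).re = -h := by simp
        have e2 : Complex.normSq (((-h : ℝ) : ℂ) + y * I) = h ^ 2 + y ^ 2 := by
          rw [Complex.normSq_apply]
          simp
          ring
        rw [e1, e2, neg_div, neg_neg, div_le_div_iff₀ (by positivity) (by positivity)]
        have e3 : y ^ 2 ≤ h ^ 2 := by
          rw [sq_le_sq, abs_of_pos hh]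
          exact (abs_lt.2 hy).le
        nlinarith only [e3]
    rw [integral_neg, h1, setIntegral_const, neg_zero] at h2
    have h3 : volume.real (Ioo (-h) h) = 2 * h := by
      rw [Real.volume_real_Ioo_of_le (by linarith)]
      ring
    rw [h3, smul_eq_mul, mul_one_div_cancel (by positivity)] at h2
    linarith
  rcases mul_eq_zero.1 hzero with h1 | h1
  · have h2 : p 0 = 0 := neg_eq_zero.1 h1
    rw [hp] at h2
    simp only [mul_zero, neg_zero, add_zero] at h2
    by_contra hne0
    exact (mul_ne_zero (mul_ne_zero (mul_ne_zero hne0 hne0) hne0) hne0) h2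
  · exact absurd h1 hJ

end BV_

open BV_ in
theorem p_BV : T_BV := by
  intro f a b M hab hd hb hlim
  set R := {ζ : ℂ | 0 < ζ.re ∧ ζ.re < 1 ∧ a < ζ.im ∧ ζ.im < b} with hR
  have hRo : IsOpen R := by
    have e1 := isOpen_lt (continuous_const (y := (0 : ℝ))) Complex.continuous_re
    have e2 := isOpen_lt Complex.continuous_re (continuous_const (y := (1 : ℝ)))
    have e3 := isOpen_lt (continuous_const (y := a)) Complex.continuous_im
    have e4 := isOpen_lt Complex.continuous_im (continuous_const (y := b))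
    exact e1.inter (e2.inter (e3.inter e4))
  have hRc : Convex ℝ R :=
    (convex_halfSpace_re_gt 0).inter ((convex_halfSpace_re_lt 1).inter
      ((convex_halfSpace_im_gt a).inter (convex_halfSpace_im_lt b)))
  -- zeros
  have hz : ∀ m : ℂ, 0 < m.re → m.re < 1 / 2 → a < m.im - m.re → m.im + m.re < b → f m = 0 := by
    intro m h1 h2 h3 h4
    have hin : ∀ u ∈ Sq m.re, m + u ∈ R := by
      rintro u ⟨g1, g2⟩
      rw [abs_lt] at g1 g2
      refine ⟨?_, ?_, ?_, ?_⟩
      · rw [add_re]
        linarith [g1.1]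
      · rw [add_re]
        linarith [g1.2]
      · rw [add_im]
        linarith [g2.1]
      · rw [add_im]
        linarith [g2.2]
    apply center_zero f m m.re M h1 rfl
    · intro u hu
      exact hd.differentiableAt (hRo.mem_nhds (hin u hu))
    · intro u hu
      obtain ⟨g1, g2, g3, g4⟩ := hin u hu
      exact hb _ g1 g2 g3 g4
    · intro y hy
      rw [abs_lt] at hy
      exact hlim (m.im + y) ⟨by linarith [hy.1], by linarith [hy.2]⟩
  set h₀ := min (1 / 4) ((b - a) / 4) with hh₀
  have hh0 : 0 < h₀ := lt_min (by norm_num) (by linarith)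
  have hh1 : h₀ ≤ 1 / 4 := min_le_left _ _
  have hh2 : h₀ ≤ (b - a) / 4 := min_le_right _ _
  set m₀ : ℂ := ⟨h₀, (a + b) / 2⟩ with hm₀
  have hev : ∀ᶠ m in 𝓝 m₀, f m = 0 := by
    have hop : IsOpen {m : ℂ | 0 < m.re ∧ m.re < 1 / 2 ∧ a < m.im - m.re ∧ m.im + m.re < b} := by
      have e1 := isOpen_lt (continuous_const (y := (0 : ℝ))) Complex.continuous_re
      have e2 := isOpen_lt Complex.continuous_re (continuous_const (y := (1 / 2 : ℝ)))
      have e3 := isOpen_lt (continuous_const (y := a))
        (Complex.continuous_im.sub Complex.continuous_re)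
      have e4 := isOpen_lt (Complex.continuous_im.add Complex.continuous_re)
        (continuous_const (y := b))
      exact e1.inter (e2.inter (e3.inter e4))
    have hmem : m₀ ∈ {m : ℂ | 0 < m.re ∧ m.re < 1 / 2 ∧ a < m.im - m.re ∧ m.im + m.re < b} := by
      refine ⟨hh0, ?_, ?_, ?_⟩
      · show h₀ < 1 / 2
        linarith
      · show a < (a + b) / 2 - h₀
        linarith
      · show (a + b) / 2 + h₀ < b
        linarith
    filter_upwards [hop.mem_nhds hmem] with m hm
    exact hz m hm.1 hm.2.1 hm.2.2.1 hm.2.2.2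
  have hm₀R : m₀ ∈ R := by
    refine ⟨hh0, ?_, ?_, ?_⟩
    · show h₀ < 1
      linarith
    · show a < (a + b) / 2
      linarith
    · show (a + b) / 2 < b
      linarith
  have hana : AnalyticOnNhd ℂ f R := hd.analyticOnNhd hRo
  have hfin := hana.eqOn_zero_of_preconnected_of_eventuallyEq_zero hRc.isPreconnected hm₀R hev
  intro ζ g1 g2 g3 g4
  exact hfin ⟨g1, g2, g3, g4⟩

end Pool.Agent.PLim
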