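import Pool.Agent.PLim.Targets
import Pool.Agent.Multibrot.Contract

/-!
# PLIM-CHV: change of variables
-/

set_option autoImplicit false

open Complex Filter Topology Set MeasureTheory
open Pool.Agent.Multibrot Pool.Agent.Limb

namespace Pool.Agent.PLim

theorem p_CHV : T_CHV := by
  intro D χ φ hD hχ hinj
  have hf' : ∀ x ∈ D, HasFDerivWithinAt χ (mulR (deriv χ x)) D x := by
    intro x hx
    exact (hasFDerivAt_of_hasDerivAt
      ((hχ.differentiableAt (hD.mem_nhds hx)).hasDerivAt)).hasFDerivWithinAt
  rw [lintegral_image_eq_lintegral_abs_det_fderiv_mul volume hD.measurableSet hf' hinj φ]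
  refine setLIntegral_congr_fun hD.measurableSet fun x _ => ?_
  have h1 : ENNReal.ofReal |(mulR (deriv χ x)).det| = ‖deriv χ x‖ₑ ^ 2 := by
    rw [mulR_det, abs_of_nonneg (by positivity), ENNReal.ofReal_pow (norm_nonneg _), ofReal_norm]
  simp only [h1]

end Pool.Agent.PLim
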