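import Pool.Agent.PLim.Targets2

set_option autoImplicit false

open Complex Filter Topology Set MeasureTheory
open Pool.Agent.Multibrot Pool.Agent.Limb

namespace Pool.Agent.PLim

private lemma cik_aux (M A : Set ℂ) (r : ℂ) (hM : IsClosed M) (hMc : IsPreconnected M)
    (hAM : A ⊆ M) (hrM : r ∈ M) (hU : ∃ U : Set ℂ, IsOpen U ∧ A = M ∩ U)
    (hA : IsClosed (insert r A)) (t t' : Set ℂ) (ht : IsClosed t) (ht' : IsClosed t')
    (hs : insert r A ⊆ t ∪ t') (h2 : (insert r A ∩ t').Nonempty) (hrt : r ∈ t) :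
    (insert r A ∩ (t ∩ t')).Nonempty := by
  by_contra hne
  rw [not_nonempty_iff_eq_empty] at hne
  obtain ⟨U, hUo, hAU⟩ := hU
  have hrt' : r ∉ t' := by
    intro h
    have : r ∈ insert r A ∩ (t ∩ t') := ⟨mem_insert _ _, hrt, h⟩
    rw [hne] at this
    exact this
  have key := (isPreconnected_closed_iff.1 hMc) (insert r A ∩ t')
    ((M ∩ Uᶜ) ∪ (insert r A ∩ t)) (hA.inter ht')
    ((hM.inter hUo.isClosed_compl).union (hA.inter ht)) ?_ ?_ ?_
  · obtain ⟨x, hxM, ⟨hx1, hx2⟩, hx3⟩ := key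
    rcases hx3 with ⟨-, hxU⟩ | ⟨-, hxt⟩
    · rcases hx1 with rfl | hxA
      · exact hrt' hx2
      · rw [hAU] at hxA
        exact hxU hxA.2
    · have : x ∈ insert r A ∩ (t ∩ t') := ⟨hx1, hxt, hx2⟩
      rw [hne] at this
      exact this
  · intro x hx
    by_cases hxU : x ∈ U
    · have hxA : x ∈ A := by rw [hAU]; exact ⟨hx, hxU⟩
      rcases hs (mem_insert_of_mem _ hxA) with h | h
      · exact Or.inr (Or.inr ⟨mem_insert_of_mem _ hxA, h⟩)
      · exact Or.inl ⟨mem_insert_of_mem _ hxA, h⟩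
    · exact Or.inr (Or.inl ⟨hx, hxU⟩)
  · obtain ⟨x, hx1, hx2⟩ := h2
    refine ⟨x, ?_, hx1, hx2⟩
    rcases hx1 with rfl | hxA
    · exact hrM
    · exact hAM hxA
  · exact ⟨r, hrM, Or.inr ⟨mem_insert _ _, hrt⟩⟩

theorem p_CIK : T_CIK := by
  intro M A r b hM hMc hAM hrM hU hA _ _ _
  rw [isPreconnected_closed_iff]
  intro t t' ht ht' hs h1 h2
  rcases hs (mem_insert r A) with h | h
  · exact cik_aux M A r hM hMc hAM hrM hU hA t t' ht ht' hs h2 h
  · have := cik_aux M A r hM hMc hAM hrM hU hA t' t ht' ht (by rwa [union_comm]) h1 h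
    rwa [inter_comm t' t] at this

end Pool.Agent.PLim
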