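import Pool.Agent.PLim.GMB

/-!
# PLIM: CURV, the lifts of the rays to the linearizing plane
-/

set_option autoImplicit false

open Complex Filter Topology Set
open Pool.Agent.Multibrot Pool.Agent.Limb

namespace Pool.Agent.PLim.CURV_

open GMB_

/-- An integer valued continuous function on a preconnected set is constant. -/
lemma int_const {X : Type*} [TopologicalSpace X] {S : Set X} (hS : IsPreconnected S) {f : X → ℝ}
    (hf : ContinuousOn f S) (hi : ∀ t ∈ S, IsInt (f t)) {a b : X} (ha : a ∈ S) (hb : b ∈ S) :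
    f a = f b := by
  have key : ∀ a ∈ S, ∀ b ∈ S, ¬ f a < f b := by
    intro a ha b hb hlt
    obtain ⟨m, hm⟩ := hi a ha
    obtain ⟨m', hm'⟩ := hi b hb
    have h1 : m < m' := by
      have : (m : ℝ) < m' := by rw [← hm, ← hm']; exact hlt
      exact_mod_cast this
    have h2 : (m : ℝ) + 1 ≤ m' := by exact_mod_cast h1
    obtain ⟨x, hx, hfx⟩ := hS.intermediate_value ha hb hf
      (show f a + 1 / 2 ∈ Icc (f a) (f b) from ⟨by linarith, by rw [hm, hm']; linarith⟩)
    obtain ⟨p, hp⟩ := hi x hx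
    have h3 : (p : ℝ) = m + 1 / 2 := by rw [← hp, hfx, hm]
    have h4 : ((2 * p : ℤ) : ℝ) = ((2 * m + 1 : ℤ) : ℝ) := by push_cast; linarith
    have h5 : 2 * p = 2 * m + 1 := by exact_mod_cast h4
    omega
  rcases lt_trichotomy (f a) (f b) with h | h | h
  · exact absurd h (key a ha b hb)
  · exact h
  · exact absurd h (key b hb a ha)

/-- A continuous function on a preconnected set with constant exponential is constant. -/
lemma exp_const {X : Type*} [TopologicalSpace X] {S : Set X} (hS : IsPreconnected S) {f : X → ℂ}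
    (hf : ContinuousOn f S) {w : ℂ} (hi : ∀ t ∈ S, exp (f t) = w) {a b : X} (ha : a ∈ S)
    (hb : b ∈ S) : f a = f b := by
  have h1 : ∀ t ∈ S, ∃ m : ℤ, f t = f a + m * (2 * Real.pi * I) := by
    intro t ht
    exact exp_eq_exp_iff_exists_int.1 (by rw [hi t ht, hi a ha])
  have h2 : ContinuousOn (fun t => (f t - f a).im / (2 * Real.pi)) S :=
    ((continuous_im.comp_continuousOn (hf.sub continuousOn_const)).div_const _)
  have h3 : ∀ t ∈ S, IsInt ((f t - f a).im / (2 * Real.pi)) := by
    intro t ht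
    obtain ⟨m, hm⟩ := h1 t ht
    refine ⟨m, ?_⟩
    rw [hm]
    have e : f a + m * (2 * Real.pi * I) - f a = ((m * (2 * Real.pi) : ℝ) : ℂ) * I := by
      push_cast; ring
    rw [e, im_ofReal_mul, I_im, mul_one]
    field_simp
  have h4 := int_const hS h2 h3 ha hb
  simp only [sub_self, zero_im, zero_div] at h4
  obtain ⟨m, hm⟩ := h1 b hb
  have e : f b - f a = ((m * (2 * Real.pi) : ℝ) : ℂ) * I := by
    rw [hm]; push_cast; ring
  rw [e, im_ofReal_mul, I_im, mul_one] at h4
  have h5 : (m : ℝ) * (2 * Real.pi) = 0 := by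
    have : (0 : ℝ) < 2 * Real.pi := by positivity
    field_simp at h4
    nlinarith
  rw [h5] at e
  have h6 : f b - f a = 0 := by rw [e]; simp
  exact (sub_eq_zero.1 h6).symm

/-- `j` periods are enough to bring `t` close to the fixed point. -/
def Good (n k : ℕ) (Λ : ℂ → ℂ → ℂ) (c z : ℂ) (r α : ℝ) (j : ℕ) (t : ℝ) : Prop :=
  IsInt ((((n : ℝ) ^ k) ^ j - 1) * α) ∧ ∀ (i : ℕ) (s : ℝ), 0 < s → s ≤ t / ((n : ℝ) ^ k) ^ j →
    ray Λ c (((n : ℝ) ^ k) ^ i * α) s ∈ Metric.ball z r

open Classical in
/-- The lift. -/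
noncomputable def W (n k : ℕ) (Λ : ℂ → ℂ → ℂ) (c z : ℂ) (r : ℝ) (κ : ℂ → ℂ) (lam : ℂ)
    (α t : ℝ) : ℂ :=
  if h : ∃ j, Good n k Λ c z r α j t then
    lam ^ h.choose * κ (ray Λ c α (t / ((n : ℝ) ^ k) ^ h.choose)) else 0

section main

variable {n k : ℕ} {Λ : ℂ → ℂ → ℂ} {c z : ℂ} {δ r η : ℝ} {zf : ℂ → ℂ} {gi ka : ℂ → ℂ → ℂ}

lemma N_pos (hn : 2 ≤ n) (k : ℕ) : (0 : ℝ) < (n : ℝ) ^ k := by
  have : (2 : ℝ) ≤ n := by exact_mod_cast hn
  positivity

lemma N_one (hn : 2 ≤ n) (k : ℕ) : (1 : ℝ) ≤ (n : ℝ) ^ k := by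
  have : (2 : ℝ) ≤ n := by exact_mod_cast hn
  exact one_le_pow₀ (by linarith)

lemma N_two (hn : 2 ≤ n) (hk : 1 ≤ k) : (2 : ℝ) ≤ (n : ℝ) ^ k := by
  have h2 : (2 : ℝ) ≤ n := by exact_mod_cast hn
  calc (2 : ℝ) ≤ n := h2
    _ = (n : ℝ) ^ 1 := (pow_one _).symm
    _ ≤ (n : ℝ) ^ k := pow_le_pow_right₀ (by linarith) hk

lemma good_mono {α t s : ℝ} {j : ℕ} (hn : 2 ≤ n) (h : Good n k Λ c z r α j t) (hs : s ≤ t) :
    Good n k Λ c z r α j s := by
  refine ⟨h.1, fun i u hu hus => h.2 i u hu (hus.trans ?_)⟩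
  have := pow_pos (N_pos hn k) j
  gcongr

lemma good_add {α t : ℝ} {i j : ℕ} (hn : 2 ≤ n) (h : Good n k Λ c z r α i t)
    (hj : IsInt ((((n : ℝ) ^ k) ^ j - 1) * α)) (ht : 0 < t) :
    Good n k Λ c z r α (i + j) t := by
  refine ⟨isInt_pow_add (isInt_pow (isInt_nat n) k) h.1 hj, fun l u hu hus =>
    h.2 l u hu (hus.trans ?_)⟩
  have h1 := pow_pos (N_pos hn k) i
  have h2 : (1 : ℝ) ≤ ((n : ℝ) ^ k) ^ j := one_le_pow₀ (N_one hn k)
  rw [pow_add]
  gcongr
  nlinarith

lemma good_exists (hn : 2 ≤ n) (hk : 1 ≤ k) (h : IsExt n Λ) (hc : c ∈ MM n) {q : ℕ} (hq : 1 ≤ q)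
    {α : ℝ} (hα : IsInt (((n : ℝ) ^ (k * q) - 1) * α)) (hl : Lands Λ c α z)
    (hz : (F n c)^[k] z = z) (hr : 0 < r) (t : ℝ) :
    ∃ m : ℕ, ∀ m', m ≤ m' → Good n k Λ c z r α (q * m') t := by
  obtain ⟨T, hT0, hT⟩ := exists_T (k := k) hn h hc hq hα hl hz hr
  obtain ⟨m, hm⟩ := pow_unbounded_of_one_lt (|t| / T) (one_lt_two : (1 : ℝ) < 2)
  refine ⟨m, fun m' hm' => ⟨isInt_pow_mul (isInt_pow (isInt_nat n) k)
    (by rw [← pow_mul]; exact hα) m', fun i s hs hst => hT i s hs (hst.trans ?_)⟩⟩
  have h0 := pow_pos (N_pos hn k) (q * m')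
  rw [div_le_iff₀ h0]
  have h1 : (2 : ℝ) ^ m ≤ ((n : ℝ) ^ k) ^ (q * m') := by
    calc (2 : ℝ) ^ m ≤ 2 ^ (q * m') := pow_le_pow_right₀ one_le_two (by nlinarith)
      _ ≤ ((n : ℝ) ^ k) ^ (q * m') := pow_le_pow_left₀ (by norm_num) (N_two hn hk) _
  have h2 : |t| < 2 ^ m * T := by rwa [div_lt_iff₀ hT0] at hm
  have h3 := le_abs_self t
  nlinarith

lemma W_val (hn : 2 ≤ n) (h : IsExt n Λ) (hc : c ∈ MM n) (hL : Lin n k c z δ r η zf gi ka)
    {α t : ℝ} {j : ℕ} (hj : Good n k Λ c z r α j t) (ht : 0 < t) :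
    W n k Λ c z r (ka c) (Rho n k c z) α t =
      Rho n k c z ^ j * ka c (ray Λ c α (t / ((n : ℝ) ^ k) ^ j)) := by
  have hcδ : c ∈ Metric.ball c δ := Metric.mem_ball_self hL.hδ
  have main : ∀ i j : ℕ, Good n k Λ c z r α i t → Good n k Λ c z r α j t →
      Rho n k c z ^ (i + j) * ka c (ray Λ c α (t / ((n : ℝ) ^ k) ^ (i + j))) =
      Rho n k c z ^ i * ka c (ray Λ c α (t / ((n : ℝ) ^ k) ^ i)) := by
    intro i j hi hj
    have h0 : 0 < t / ((n : ℝ) ^ k) ^ (i + j) := div_pos ht (pow_pos (N_pos hn k) _)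
    have h1 : ((n : ℝ) ^ k) ^ j * (t / ((n : ℝ) ^ k) ^ (i + j)) = t / ((n : ℝ) ^ k) ^ i := by
      have := (pow_pos (N_pos hn k) i).ne'
      have := (pow_pos (N_pos hn k) j).ne'
      rw [pow_add]
      field_simp
    have h2 := key hn h hL hcδ hc hi.2 j 0 (t / ((n : ℝ) ^ k) ^ (i + j)) h0 (by rw [h1])
    rw [h1, pow_zero, one_mul, zero_add, hL.zf0] at h2
    have h3 : ray Λ c (((n : ℝ) ^ k) ^ j * α) (t / ((n : ℝ) ^ k) ^ i) =
        ray Λ c α (t / ((n : ℝ) ^ k) ^ i) := by
      refine ray_int hn h hc ?_ (div_pos ht (pow_pos (N_pos hn k) _))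
      have : ((n : ℝ) ^ k) ^ j * α - α = (((n : ℝ) ^ k) ^ j - 1) * α := by ring
      rw [this]; exact hj.1
    rw [h3] at h2
    rw [pow_add, ← h2]; ring
  have hex : ∃ j, Good n k Λ c z r α j t := ⟨j, hj⟩
  rw [W, dif_pos hex]
  have h1 := main hex.choose j hex.choose_spec hj
  have h2 := main j hex.choose hj hex.choose_spec
  rw [← h1, ← h2, add_comm]

end main

end Pool.Agent.PLim.CURV_

namespace Pool.Agent.PLim

open GMB_ CURV_

theorem p_CURV (hIE : T_IE) (hG : T_GREEN) (hLIN : T_LIN) : T_CURV := by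
  classical
  intro n k Λ c z hn hk hB hc hz hrep
  have h : IsExt n Λ := hIE n Λ hn hB
  obtain ⟨δ, r, η, zf, gi, ka, -, -, hL⟩ := hLIN n k c z 1 hn hk one_pos hz hrep
  have hcδ : c ∈ Metric.ball c δ := Metric.mem_ball_self hL.hδ
  have hzr : z ∈ Metric.ball z r := Metric.mem_ball_self hL.hr
  set lam := Rho n k c z with hlam
  set N : ℝ := (n : ℝ) ^ k with hN
  have hN0 : 0 < N := N_pos hn k
  have hN1 : 1 ≤ N := N_one hn k
  have hN2 : 2 ≤ N := N_two hn hk
  have hNi : IsInt N := isInt_pow (isInt_nat n) k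
  have hlam0 : lam ≠ 0 := by
    intro h0
    rw [h0, norm_zero] at hrep
    linarith
  have hkac : ContinuousOn (ka c) (Metric.ball z r) := (hL.kadiff c hcδ).continuousOn
  have hka0 : ka c z = 0 := by
    have := hL.kazf c hcδ
    rwa [hL.zf0] at this
  have hkan : ∀ x ∈ Metric.ball z r, x ≠ z → ka c x ≠ 0 := by
    intro x hx hxz h0
    exact hxz (hL.kainj c hcδ hx hzr (by rw [h0, hka0]))
  have hWv := fun {α t : ℝ} {j : ℕ} (hj : Good n k Λ c z r α j t) (ht : 0 < t) =>
    W_val hn h hc hL hj ht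
  set w := W n k Λ c z r (ka c) (Rho n k c z) with hw
  have hge := fun {q : ℕ} (hq : 1 ≤ q) {α : ℝ} (hα : IsInt (((n : ℝ) ^ (k * q) - 1) * α))
    (hl : Lands Λ c α z) (t : ℝ) => good_exists (z := z) (r := r) hn hk h hc hq hα hl hz hL.hr t
  refine ⟨w, ?_, ?_⟩
  · intro α q hq hα hl
    have hα' : IsInt ((N ^ q - 1) * α) := by rw [hN, ← pow_mul]; exact hα
    -- continuity
    have hcont : ContinuousOn (w α) (Ioi 0) := by
      intro t ht
      have ht : 0 < t := ht
      obtain ⟨m, hm⟩ := hge hq hα hl (2 * t)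
      have hg := hm m le_rfl
      have h1 : ∀ᶠ s in 𝓝 t, w α s = lam ^ (q * m) * ka c (ray Λ c α (s / N ^ (q * m))) := by
        filter_upwards [Ioo_mem_nhds (show t / 2 < t by linarith) (show t < 2 * t by linarith)]
          with s hs
        exact hWv (good_mono hn hg hs.2.le) (by linarith [hs.1])
      have h2 : ContinuousAt (fun s : ℝ => lam ^ (q * m) * ka c (ray Λ c α (s / N ^ (q * m))))
          t := by
        have h3 : 0 < t / N ^ (q * m) := div_pos ht (pow_pos hN0 _)
        have h4 : ray Λ c α (t / N ^ (q * m)) ∈ Metric.ball z r := by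
          have := hg.2 0 (t / N ^ (q * m)) h3 (by
            have := pow_pos hN0 (q * m)
            gcongr
            linarith)
          simpa using this
        have h5 : ContinuousAt (ka c) (ray Λ c α (t / N ^ (q * m))) :=
          hkac.continuousAt (Metric.isOpen_ball.mem_nhds h4)
        have h6 : ContinuousAt (ray Λ c α) (t / N ^ (q * m)) :=
          (ray_cont h hc α).continuousAt (Ioi_mem_nhds h3)
        have h7 : ContinuousAt (fun s : ℝ => s / N ^ (q * m)) t := by fun_prop
        have h8 : ContinuousAt (fun s : ℝ => ray Λ c α (s / N ^ (q * m))) t :=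
          ContinuousAt.comp (f := fun s : ℝ => s / N ^ (q * m)) h6 h7
        have h9 : ContinuousAt (fun s : ℝ => ka c (ray Λ c α (s / N ^ (q * m)))) t :=
          ContinuousAt.comp (f := fun s : ℝ => ray Λ c α (s / N ^ (q * m))) h5 h8
        exact continuousAt_const.mul h9
      exact (h2.congr (h1.mono fun s hs => hs.symm)).continuousWithinAt
    -- the values are not zero
    have hne : ∀ t : ℝ, 0 < t → w α t ≠ 0 := by
      intro t ht
      obtain ⟨m, hm⟩ := hge hq hα hl t
      have hg := hm m le_rfl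
      rw [hWv hg ht]
      have h3 : 0 < t / N ^ (q * m) := div_pos ht (pow_pos hN0 _)
      refine mul_ne_zero (pow_ne_zero _ hlam0) (hkan _ ?_ ?_)
      · have := hg.2 0 (t / N ^ (q * m)) h3 le_rfl
        simpa using this
      · exact ray_ne hG hn hB hc hk hz α h3
    -- the first functional equation
    have hfun : ∀ t : ℝ, 0 < t → w α (N ^ q * t) = lam ^ q * w α t := by
      intro t ht
      have hNq : 1 ≤ N ^ q := one_le_pow₀ hN1
      obtain ⟨m, hm⟩ := hge hq hα hl (N ^ q * t)
      have hg := hm m le_rfl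
      have hg1 : Good n k Λ c z r α (q * m + q) (N ^ q * t) :=
        good_add hn hg hα' (by positivity)
      have hg2 : Good n k Λ c z r α (q * m) t := good_mono hn hg (by nlinarith)
      rw [hWv hg1 (by positivity), hWv hg2 ht]
      have e : N ^ q * t / N ^ (q * m + q) = t / N ^ (q * m) := by
        have h1 := (pow_pos hN0 q).ne'
        have h2 := (pow_pos hN0 (q * m)).ne'
        rw [pow_add]
        field_simp
      rw [e, pow_add]; ring
    refine ⟨hcont, hne, ?_, ?_, ?_, ?_⟩
    · intro t ht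
      have := hfun t ht
      rwa [hN, ← pow_mul] at this
    · intro t ht
      obtain ⟨m, hm⟩ := hge hq hα hl (N * t)
      have hg := hm m le_rfl
      have hg2 : Good n k Λ c z r α (q * m) t := good_mono hn hg (by nlinarith)
      have hg1 : Good n k Λ c z r (N * α) (q * m) (N * t) := by
        refine ⟨?_, fun i s hs hst => ?_⟩
        · have := isInt_shift hNi hg.1 1
          rwa [pow_one] at this
        · have := hg.2 (i + 1) s hs hst
          rw [pow_succ, mul_assoc] at this
          exact this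
      rw [hWv hg1 (by positivity), hWv hg2 ht]
      have h3 : 0 < t / N ^ (q * m) := div_pos ht (pow_pos hN0 _)
      have h4 := key hn h hL hcδ hc hg.2 1 0 (t / N ^ (q * m)) h3 (by
        rw [pow_one, mul_div_assoc])
      rw [pow_zero, one_mul, zero_add, pow_one, pow_one, hL.zf0, ← mul_div_assoc] at h4
      rw [← h4, hlam]; ring
    · have h1 := lands_pow hn h hc hl k
      rwa [hz] at h1
    · -- the logarithm
      intro v hv
      obtain ⟨L, hLc, hLe, hLv⟩ := hv
      -- the slope of `ka`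
      have hder : HasDerivAt (ka c) 1 z := by
        have h1 := ((hL.kadiff c hcδ).differentiableAt
          (Metric.isOpen_ball.mem_nhds hzr)).hasDerivAt
        have h2 := hL.kader c hcδ
        rw [hL.zf0] at h2
        rwa [h2] at h1
      have hslope : Tendsto (fun x => ka c x / (x - z)) (𝓝[≠] z) (𝓝 1) := by
        have h1 := hasDerivAt_iff_tendsto_slope.1 hder
        refine h1.congr fun x => ?_
        rw [slope_def_field, hka0, sub_zero]
      have hray : Tendsto (ray Λ c α) (𝓝[>] (0 : ℝ)) (𝓝[≠] z) := by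
        refine tendsto_nhdsWithin_iff.2 ⟨hl, ?_⟩
        filter_upwards [self_mem_nhdsWithin] with t ht
        exact ray_ne hG hn hB hc hk hz α ht
      have hquo : Tendsto (fun t => ka c (ray Λ c α t) / (ray Λ c α t - z)) (𝓝[>] (0 : ℝ))
          (𝓝 1) := hslope.comp hray
      obtain ⟨T1, hT10, hT1⟩ := exists_T (k := k) hn h hc hq hα hl hz hL.hr
      obtain ⟨T2, hT20, hT2⟩ := mem_nhdsGT_iff_exists_Ioc_subset.1
        (hquo.eventually (Metric.ball_mem_nhds (1 : ℂ) (show (0 : ℝ) < 1 / 2 by norm_num)))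
      have hT20 : 0 < T2 := hT20
      set T := min T1 T2 with hT
      have hT0 : 0 < T := lt_min hT10 hT20
      have hsl : ∀ t : ℝ, 0 < t → t ≤ T →
          ka c (ray Λ c α t) / (ray Λ c α t - z) ∈ slitPlane := by
        intro t ht htT
        have h1 : ka c (ray Λ c α t) / (ray Λ c α t - z) ∈ Metric.ball (1 : ℂ) (1 / 2) :=
          hT2 ⟨ht, htT.trans (min_le_right _ _)⟩
        refine mem_slitPlane_of_norm_lt_one (z := ka c (ray Λ c α t) / (ray Λ c α t - z) - 1)
          ?_ |> fun h => by simpa using h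
        rw [mem_ball_iff_norm] at h1
        linarith
      have hball : ∀ t : ℝ, 0 < t → t ≤ T → ray Λ c α t ∈ Metric.ball z r := by
        intro t ht htT
        have := hT1 0 t ht (htT.trans (min_le_left _ _))
        simpa using this
      set l0 : ℝ → ℂ := fun t => L t + log (ka c (ray Λ c α t) / (ray Λ c α t - z)) with hl0
      have hg0 : ∀ t : ℝ, 0 < t → t ≤ T → w α t = ka c (ray Λ c α t) := by
        intro t ht htT
        have hg : Good n k Λ c z r α 0 t := by
          refine ⟨by simpa using isInt_zero, fun i s hs hst => hT1 i s hs ?_⟩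
          rw [pow_zero, div_one] at hst
          exact hst.trans (htT.trans (min_le_left _ _))
        rw [hWv hg ht]; simp
      have hl0e : ∀ t : ℝ, 0 < t → t ≤ T → exp (l0 t) = w α t := by
        intro t ht htT
        have h1 : ray Λ c α t - z ≠ 0 := sub_ne_zero.2 (ray_ne hG hn hB hc hk hz α ht)
        have h2 := slitPlane_ne_zero (hsl t ht htT)
        rw [hl0]
        simp only
        rw [exp_add, exp_log h2, hLe t ht, hg0 t ht htT]
        field_simp
      have hl0c : ContinuousOn l0 (Ioc 0 T) := by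
        have h1 : ContinuousOn (ray Λ c α) (Ioc 0 T) :=
          (ray_cont h hc α).mono fun t ht => ht.1
        have h2 : ContinuousOn (fun t => ka c (ray Λ c α t)) (Ioc 0 T) :=
          hkac.comp h1 fun t ht => hball t ht.1 ht.2
        refine (hLc.mono fun t ht => ht.1).add (ContinuousOn.clog ?_ fun t ht =>
          hsl t ht.1 ht.2)
        exact h2.div (h1.sub continuousOn_const) fun t ht =>
          sub_ne_zero.2 (ray_ne hG hn hB hc hk hz α ht.1)
      set M : ℝ := N ^ q with hM
      have hM0 : 0 < M := pow_pos hN0 q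
      have hM2 : 2 ≤ M := by
        calc (2 : ℝ) ≤ N := hN2
          _ = N ^ 1 := (pow_one _).symm
          _ ≤ N ^ q := pow_le_pow_right₀ hN1 hq
      have hMN : (n : ℝ) ^ (k * q) = M := by rw [hM, hN, pow_mul]
      have hdiv : ∀ t : ℝ, 0 < t → t ≤ T / M → 0 < M * t ∧ M * t ≤ T ∧ t ≤ T := by
        intro t ht htT
        rw [le_div_iff₀ hM0] at htT
        refine ⟨by positivity, by linarith, by nlinarith⟩
      -- the displacement of `l0` is constant
      have hDexp : ∀ t ∈ Ioc 0 (T / M), exp (l0 (M * t) - l0 t) = lam ^ q := by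
        intro t ht
        obtain ⟨h1, h2, h3⟩ := hdiv t ht.1 ht.2
        rw [exp_sub, hl0e _ h1 h2, hl0e _ ht.1 h3, hfun t ht.1]
        have := hne t ht.1
        field_simp
      have hDc : ContinuousOn (fun t => l0 (M * t) - l0 t) (Ioc 0 (T / M)) := by
        refine ContinuousOn.sub ?_ ?_
        · exact hl0c.comp (by fun_prop) fun t ht => ⟨(hdiv t ht.1 ht.2).1, (hdiv t ht.1 ht.2).2.1⟩
        · exact hl0c.mono fun t ht => ⟨ht.1, (hdiv t ht.1 ht.2).2.2⟩
      have hDlim : Tendsto (fun t => l0 (M * t) - l0 t) (𝓝[>] (0 : ℝ)) (𝓝 v) := by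
        have hlog : Tendsto (fun t => log (ka c (ray Λ c α t) / (ray Λ c α t - z)))
            (𝓝[>] (0 : ℝ)) (𝓝 0) := by
          have h1 : ContinuousAt log (1 : ℂ) := continuousAt_clog one_mem_slitPlane
          have h2 := h1.tendsto.comp hquo
          rwa [log_one] at h2
        have h1 : Tendsto (fun t : ℝ => M * t) (𝓝[>] (0 : ℝ)) (𝓝[>] (0 : ℝ)) :=
          mul_tendsto_zero hM0
        have h2 := hlog.comp h1
        rw [hMN] at hLv
        have h3 := (hLv.add h2).sub hlog
        rw [add_zero, sub_zero] at h3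
        refine h3.congr fun t => ?_
        simp only [hl0, Function.comp]
        ring
      have hTM : 0 < T / M := div_pos hT0 hM0
      have hDv : ∀ t ∈ Ioc 0 (T / M), l0 (M * t) - l0 t = v := by
        intro t ht
        have h1 : ∀ s ∈ Ioc 0 (T / M), l0 (M * s) - l0 s = l0 (M * t) - l0 t := fun s hs =>
          exp_const isPreconnected_Ioc hDc hDexp hs ht
        have h2 : Tendsto (fun s => l0 (M * s) - l0 s) (𝓝[>] (0 : ℝ))
            (𝓝 (l0 (M * t) - l0 t)) := by
          refine tendsto_const_nhds.congr' ?_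
          filter_upwards [Ioc_mem_nhdsGT hTM] with s hs
          exact (h1 s hs).symm
        exact tendsto_nhds_unique h2 hDlim
      -- the extension
      have hrel : ∀ (j : ℕ) (u : ℝ), 0 < u → u ≤ T → l0 (u / M ^ j) + j * v = l0 u := by
        intro j
        induction j with
        | zero => intro u _ _; simp
        | succ j ih =>
          intro u hu huT
          have hMj : 0 < M ^ j := pow_pos hM0 j
          have h1 : u / M ^ (j + 1) ∈ Ioc 0 (T / M) := by
            refine ⟨by positivity, ?_⟩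
            rw [pow_succ, ← div_div]
            gcongr
            have : (1 : ℝ) ≤ M ^ j := one_le_pow₀ (by linarith)
            calc u / M ^ j ≤ u / 1 := by gcongr
              _ ≤ T := by simpa using huT
          have h2 := hDv _ h1
          have h3 : M * (u / M ^ (j + 1)) = u / M ^ j := by
            rw [pow_succ]; field_simp
          rw [h3] at h2
          have h4 := ih u hu huT
          push_cast
          linear_combination h4 - h2
      have hexm : ∀ t : ℝ, ∃ m : ℕ, t / M ^ m ≤ T := by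
        intro t
        obtain ⟨m, hm⟩ := pow_unbounded_of_one_lt (|t| / T) (show (1 : ℝ) < M by linarith)
        refine ⟨m, ?_⟩
        rw [div_le_iff₀ (pow_pos hM0 m)]
        rw [div_lt_iff₀ hT0] at hm
        have := le_abs_self t
        linarith
      set l : ℝ → ℂ := fun t => l0 (t / M ^ (hexm t).choose) + (hexm t).choose * v with hldef
      have hlv : ∀ (t : ℝ) (m : ℕ), 0 < t → t / M ^ m ≤ T → l t = l0 (t / M ^ m) + m * v := by
        have hg : ∀ (t : ℝ) (m m' : ℕ), 0 < t → t / M ^ m ≤ T →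
            l0 (t / M ^ (m + m')) + ((m + m' : ℕ) : ℂ) * v = l0 (t / M ^ m) + m * v := by
          intro t m m' ht htm
          have h1 := hrel m' (t / M ^ m) (div_pos ht (pow_pos hM0 m)) htm
          rw [← h1, pow_add, div_div]
          push_cast; ring
        intro t m ht htm
        have h1 := hg t m (hexm t).choose ht htm
        have h2 := hg t (hexm t).choose m ht (hexm t).choose_spec
        rw [hldef]
        simp only
        rw [← h1, ← h2, add_comm m]
      have hiter : ∀ (m : ℕ) (u : ℝ), 0 < u → w α (M ^ m * u) = (lam ^ q) ^ m * w α u := by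
        intro m
        induction m with
        | zero => intro u _; simp
        | succ m ih =>
          intro u hu
          have : M ^ (m + 1) * u = M ^ m * (M * u) := by rw [pow_succ]; ring
          rw [this, ih _ (by positivity), hfun u hu, pow_succ]; ring
      have hev : exp v = lam ^ q := by
        have h1 := hDexp (T / M) ⟨hTM, le_rfl⟩
        rwa [hDv _ ⟨hTM, le_rfl⟩] at h1
      refine ⟨l, ?_, ?_⟩
      · intro t ht
        have ht : 0 < t := ht
        obtain ⟨m, hm⟩ := hexm (2 * t)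
        have hMm : 0 < M ^ m := pow_pos hM0 m
        have h1 : ∀ᶠ s in 𝓝 t, l s = l0 (s / M ^ m) + m * v := by
          filter_upwards [Ioo_mem_nhds (show t / 2 < t by linarith) (show t < 2 * t by linarith)]
            with s hs
          refine hlv s m (by linarith [hs.1]) (le_trans ?_ hm)
          have := hs.2.le
          gcongr
        have h2 : ContinuousAt (fun s : ℝ => l0 (s / M ^ m) + m * v) t := by
          have h3 : t / M ^ m ∈ Ioo 0 T := by
            refine ⟨by positivity, lt_of_lt_of_le ?_ hm⟩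
            gcongr
            linarith
          have h4 : ContinuousAt l0 (t / M ^ m) :=
            hl0c.continuousAt (mem_of_superset (Ioo_mem_nhds h3.1 h3.2) Ioo_subset_Ioc_self)
          have h5 : ContinuousAt (fun s : ℝ => s / M ^ m) t := by fun_prop
          have h6 : ContinuousAt (fun s : ℝ => l0 (s / M ^ m)) t :=
            ContinuousAt.comp (f := fun s : ℝ => s / M ^ m) h4 h5
          exact h6.add continuousAt_const
        exact (h2.congr (h1.mono fun s hs => hs.symm)).continuousWithinAt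
      · intro t ht
        obtain ⟨m, hm⟩ := hexm t
        have hMm : 0 < M ^ m := pow_pos hM0 m
        have h0 : 0 < t / M ^ m := by positivity
        rw [hMN, hlv t m ht hm]
        refine ⟨?_, ?_⟩
        · rw [exp_add, hl0e _ h0 hm, mul_comm (m : ℂ) v, mul_comm v (m : ℂ), exp_nat_mul, hev,
            mul_comm, ← hiter m _ h0]
          congr 1
          field_simp
        · have e : M * t / M ^ (m + 1) = t / M ^ m := by rw [pow_succ]; field_simp
          rw [hlv (M * t) (m + 1) (by positivity) (by rw [e]; exact hm), e]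
          push_cast; ring
  · intro α α' t t' q q' hq hq' hα hα' hl hl' ht ht' heq
    obtain ⟨m1, hm1⟩ := hge hq hα hl t
    obtain ⟨m2, hm2⟩ := hge hq' hα' hl' t'
    have hg1 := hm1 (q' * (m1 + m2)) (by nlinarith)
    have hg2 := hm2 (q * (m1 + m2)) (by nlinarith)
    have e : q' * (q * (m1 + m2)) = q * (q' * (m1 + m2)) := by ring
    rw [e] at hg2
    rw [hWv hg1 ht, hWv hg2 ht'] at heq
    set j := q * (q' * (m1 + m2)) with hj
    have h3 : 0 < t / N ^ j := div_pos ht (pow_pos hN0 _)
    have h3' : 0 < t' / N ^ j := div_pos ht' (pow_pos hN0 _)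
    have h4 := mul_left_cancel₀ (pow_ne_zero _ hlam0) heq
    have h5 : ray Λ c α (t / N ^ j) = ray Λ c α' (t' / N ^ j) := by
      refine hL.kainj c hcδ ?_ ?_ h4
      · have := hg1.2 0 (t / N ^ j) h3 le_rfl
        simpa using this
      · have := hg2.2 0 (t' / N ^ j) h3' le_rfl
        simpa using this
    obtain ⟨h6, h7⟩ := ray_inj hG hn hB hc h3 h3' h5
    refine ⟨?_, h7⟩
    have := (pow_pos hN0 j).ne'
    field_simp at h6
    exact h6

end Pool.Agent.PLim
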