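import Pool.Agent.PLim.Targets

/-!
An open connected set minus a finite set.
-/

namespace Pool.Agent.PLim

open Set Metric

theorem cut_punctured (a : ℂ) (r : ℝ) : IsPreconnected (ball a r \ {a}) := by
  rcases le_or_gt r 0 with hr | hr
  · rw [ball_eq_empty.2 hr, Set.empty_diff]
    exact isPreconnected_empty
  · have h : ball a r \ {a} = (fun z : ℂ => a + Complex.exp z) '' {z : ℂ | z.re < Real.log r} := by
      ext x
      constructor
      · rintro ⟨hx, hxa⟩
        have hne : x - a ≠ 0 := sub_ne_zero.2 hxa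
        refine ⟨Complex.log (x - a), ?_, ?_⟩
        · change (Complex.log (x - a)).re < Real.log r
          rw [Complex.log_re]
          apply Real.log_lt_log (norm_pos_iff.2 hne)
          rwa [mem_ball, dist_eq_norm] at hx
        · change a + Complex.exp (Complex.log (x - a)) = x
          rw [Complex.exp_log hne]
          ring
      · rintro ⟨z, hz, rfl⟩
        refine ⟨?_, ?_⟩
        · rw [mem_ball, dist_eq_norm, add_sub_cancel_left, Complex.norm_exp]
          exact (Real.lt_log_iff_exp_lt hr).1 hz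
        · intro h
          have h' : a + Complex.exp z = a := h
          exact Complex.exp_ne_zero z (by simpa using h')
    rw [h]
    apply IsPreconnected.image
    · exact (convex_halfSpace_re_lt (Real.log r)).isPreconnected
    · exact (continuous_const.add Complex.continuous_exp).continuousOn

theorem cut_one (U : Set ℂ) (a : ℂ) (hU : IsOpen U) (hc : IsPreconnected U) :
    IsPreconnected (U \ {a}) := by
  by_cases ha : a ∈ U
  swap
  · rwa [Set.diff_singleton_eq_self ha]
  obtain ⟨r, hr, hrU⟩ := Metric.isOpen_iff.1 hU a ha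
  have hop : IsOpen (U \ {a}) := hU.sdiff isClosed_singleton
  have hB := cut_punctured a r
  -- the key statement
  have key : ∀ u v : Set ℂ, IsOpen u → IsOpen v → Disjoint u v → u ⊆ U \ {a} → v ⊆ U \ {a} →
      U \ {a} ⊆ u ∪ v → v.Nonempty → ball a r \ {a} ⊆ u → False := by
    intro u v hu hv hd hu1 hv1 huv hvne hBu
    have h1 := hc (u ∪ ball a r) v (hu.union isOpen_ball) hv (by
      intro x hx
      by_cases hxa : x = a
      · left; right; rw [hxa]; exact mem_ball_self hr
      · rcases huv ⟨hx, hxa⟩ with h | h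
        · left; left; exact h
        · right; exact h) ⟨a, ha, Or.inr (mem_ball_self hr)⟩
      (by obtain ⟨y, hy⟩ := hvne; exact ⟨y, (hv1 hy).1, hy⟩)
    obtain ⟨y, hy, hyu, hyv⟩ := h1
    rcases hyu with h | h
    · exact Set.disjoint_left.1 hd h hyv
    · exact Set.disjoint_left.1 hd (hBu ⟨h, (hv1 hyv).2⟩) hyv
  intro u v hu hv huv hun hvn
  by_contra hcon
  rw [Set.not_nonempty_iff_eq_empty] at hcon
  have hd : Disjoint (u ∩ (U \ {a})) (v ∩ (U \ {a})) := by
    rw [Set.disjoint_left]
    rintro x ⟨hx1, hx2⟩ ⟨hx3, -⟩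
    have : x ∈ (U \ {a}) ∩ (u ∩ v) := ⟨hx2, hx1, hx3⟩
    rw [hcon] at this
    exact this
  have hcov : U \ {a} ⊆ u ∩ (U \ {a}) ∪ v ∩ (U \ {a}) := by
    intro x hx
    rcases huv hx with h | h
    · exact Or.inl ⟨h, hx⟩
    · exact Or.inr ⟨h, hx⟩
  have hBc : ball a r \ {a} ⊆ u ∩ (U \ {a}) ∪ v ∩ (U \ {a}) :=
    fun x hx => hcov ⟨hrU hx.1, hx.2⟩
  obtain ⟨x, hx1, hx2⟩ := hun
  obtain ⟨y, hy1, hy2⟩ := hvn
  rcases IsPreconnected.subset_or_subset (hu.inter hop) (hv.inter hop) hd hBc hB with h | h
  · exact key _ _ (hu.inter hop) (hv.inter hop) hd Set.inter_subset_right Set.inter_subset_right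
      hcov ⟨y, hy2, hy1⟩ h
  · exact key _ _ (hv.inter hop) (hu.inter hop) hd.symm Set.inter_subset_right
      Set.inter_subset_right (by rw [Set.union_comm]; exact hcov) ⟨x, hx2, hx1⟩ h

theorem p_CUT : T_CUT := by
  intro U S hU hc hS
  have main : IsOpen (U \ S) ∧ IsPreconnected (U \ S) := by
    induction S, hS using Set.Finite.induction_on with
    | empty => simpa using ⟨hU, hc⟩
    | @insert a s _ _ ih =>
      have h : U \ insert a s = (U \ s) \ {a} := by
        ext x
        simp only [Set.mem_diff, Set.mem_insert_iff, Set.mem_singleton_iff, not_or]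
        tauto
      rw [h]
      exact ⟨ih.1.sdiff isClosed_singleton, cut_one _ a ih.1 ih.2⟩
  exact main.2

end Pool.Agent.PLim
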