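import Mathlib
import Pool.Agent.PLim.Targets

set_option autoImplicit false

open Complex Filter Topology Set

namespace Pool.Agent.PLim
namespace DEG1_

structure Hyp (K : Set ℂ) (Φ : ℂ → ℂ) (C R : ℝ) : Prop where
  comp : IsCompact K
  diff : DifferentiableOn ℂ Φ Kᶜ
  big : ∀ c ∈ Kᶜ, 1 < ‖Φ c‖
  closed : ∀ ε : ℝ, 0 < ε → IsClosed {c | c ∉ K ∧ 1 + ε ≤ ‖Φ c‖}
  asym : ∀ c, R ≤ ‖c‖ → ‖Φ c - c‖ ≤ C

variable {K : Set ℂ} {Φ : ℂ → ℂ} {C R : ℝ}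

lemma Hyp.mem_nhds (h : Hyp K Φ C R) {a : ℂ} (ha : a ∉ K) : Kᶜ ∈ 𝓝 a :=
  h.comp.isClosed.isOpen_compl.mem_nhds ha

lemma Hyp.analyticAt (h : Hyp K Φ C R) {a : ℂ} (ha : a ∉ K) : AnalyticAt ℂ Φ a :=
  h.diff.analyticAt (h.mem_nhds ha)

lemma Hyp.nonconst (h : Hyp K Φ C R) {a : ℂ} (ha : a ∉ K) :
    ¬ ∀ᶠ z in 𝓝 a, Φ z = Φ a := by
  intro hc
  obtain ⟨S, hS⟩ : ∃ S : Set ℂ, S = {c | c ∉ K ∧ ∀ᶠ z in 𝓝 c, Φ z = Φ a} := ⟨_, rfl⟩
  have hSo : IsOpen S := by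
    rw [isOpen_iff_mem_nhds]
    intro c hcS
    rw [hS] at hcS
    obtain ⟨hc1, hc2⟩ := hcS
    filter_upwards [h.mem_nhds hc1, hc2.eventually_nhds] with z hz1 hz2
    rw [hS]
    exact ⟨hz1, hz2⟩
  have h1 := h.big a ha
  have hcl := h.closed (‖Φ a‖ - 1) (by linarith)
  have hsub : S ⊆ {c | c ∉ K ∧ 1 + (‖Φ a‖ - 1) ≤ ‖Φ c‖} := by
    intro c hcS
    rw [hS] at hcS
    obtain ⟨hc1, hc2⟩ := hcS
    refine ⟨hc1, ?_⟩
    rw [hc2.self_of_nhds]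
    linarith
  have hSc : closure S ⊆ S := by
    intro b hb
    have hbK : b ∉ K := (closure_minimal hsub hcl hb).1
    rcases (h.analyticAt hbK).eventually_eq_or_eventually_ne
      (analyticAt_const (v := Φ a)) with h2 | h2
    · rw [hS]
      exact ⟨hbK, h2⟩
    · exfalso
      rw [eventually_nhdsWithin_iff] at h2
      rw [mem_closure_iff_nhds] at hb
      obtain ⟨s, hs1, hs2⟩ := hb _ (h2.eventually_nhds)
      rw [hS] at hs2
      by_cases hsb : s = b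
      · subst hsb
        have h3 : ∀ᶠ z in 𝓝[≠] s, Φ z = Φ a := hs2.2.filter_mono nhdsWithin_le_nhds
        have h4 : ∀ᶠ z in 𝓝[≠] s, Φ z ≠ Φ a := by
          rw [eventually_nhdsWithin_iff]
          exact h2
        obtain ⟨z, hz1, hz2⟩ := (h3.and h4).exists
        exact hz2 hz1
      · exact (hs1 : ∀ᶠ z in 𝓝 s, z ∈ ({b} : Set ℂ)ᶜ → Φ z ≠ Φ a).self_of_nhds hsb
          hs2.2.self_of_nhds
  have hclo : IsClopen S := ⟨closure_subset_iff_isClosed.1 hSc, hSo⟩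
  have huniv : S = univ := hclo.eq_univ ⟨a, by rw [hS]; exact ⟨ha, hc⟩⟩
  -- contradiction at infinity
  obtain ⟨t, ht⟩ : ∃ t : ℝ, t = |R| + ‖Φ a‖ + |C| + 1 := ⟨_, rfl⟩
  have ht0 : 0 ≤ t := by rw [ht]; positivity
  have hnt : ‖(t : ℂ)‖ = t := by rw [norm_real, Real.norm_of_nonneg ht0]
  have hval : Φ t = Φ a := by
    have : (t : ℂ) ∈ S := by rw [huniv]; trivial
    rw [hS] at this
    exact this.2.self_of_nhds
  have h5 := h.asym t (by
    rw [hnt, ht]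
    have := le_abs_self R
    have h6 := norm_nonneg (Φ a)
    have h7 := abs_nonneg C
    linarith)
  rw [hval] at h5
  have h6 : ‖(t : ℂ)‖ ≤ ‖Φ a‖ + ‖Φ a - t‖ := by
    have := norm_sub_le (Φ a) (Φ a - t)
    rwa [sub_sub_cancel] at this
  rw [hnt] at h6
  have h7 := le_abs_self C
  have h8 := abs_nonneg R
  linarith

lemma Hyp.nhds_le (h : Hyp K Φ C R) {a : ℂ} (ha : a ∉ K) : 𝓝 (Φ a) ≤ map Φ (𝓝 a) :=
  (h.analyticAt ha).eventually_constant_or_nhds_le_map_nhds.resolve_left (h.nonconst ha)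

/-- properness -/
lemma Hyp.proper (h : Hyp K Φ C R) {w : ℂ} (hw : 1 < ‖w‖) (U : Ultrafilter ℂ)
    (hU : (U : Filter ℂ) ≤ 𝓝 w) (a : ℂ → ℂ)
    (ha : ∀ᶠ v in (U : Filter ℂ), a v ∉ K ∧ Φ (a v) = v) :
    ∃ c, c ∉ K ∧ Φ c = w ∧ Tendsto a (U : Filter ℂ) (𝓝 c) := by
  obtain ⟨ε, hεd⟩ : ∃ ε, ε = (‖w‖ - 1) / 2 := ⟨_, rfl⟩
  have hε : 0 < ε := by rw [hεd]; linarith
  obtain ⟨E, hEd⟩ : ∃ E : Set ℂ, E = {c | c ∉ K ∧ 1 + ε ≤ ‖Φ c‖} ∩
    Metric.closedBall 0 (max R (‖w‖ + 1 + C)) := ⟨_, rfl⟩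
  have hE : IsCompact E := by
    rw [hEd]
    exact (isCompact_closedBall _ _).inter_left (h.closed ε hε)
  have hmem : ∀ᶠ v in (U : Filter ℂ), a v ∈ E := by
    have h1 : ∀ᶠ v in 𝓝 w, 1 + ε < ‖v‖ :=
      (continuous_norm.tendsto w).eventually (lt_mem_nhds (by rw [hεd]; linarith))
    have h2 : ∀ᶠ v in 𝓝 w, ‖v‖ < ‖w‖ + 1 :=
      (continuous_norm.tendsto w).eventually (gt_mem_nhds (by linarith))
    filter_upwards [ha, hU h1, hU h2] with v hv h1 h2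
    obtain ⟨hv1, hv2⟩ := hv
    have h1' : 1 + ε < ‖v‖ := h1
    have h2' : ‖v‖ < ‖w‖ + 1 := h2
    rw [hEd]
    refine ⟨⟨hv1, by rw [hv2]; exact h1'.le⟩, ?_⟩
    rw [mem_closedBall_zero_iff]
    by_contra hcon
    push Not at hcon
    have h3 := h.asym (a v) (le_of_lt (lt_of_le_of_lt (le_max_left _ _) hcon))
    rw [hv2] at h3
    have h4 : ‖a v‖ ≤ ‖v‖ + ‖v - a v‖ := by
      have := norm_sub_le v (v - a v)
      rwa [sub_sub_cancel] at this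
    have h5 := le_max_right R (‖w‖ + 1 + C)
    linarith
  obtain ⟨c, hcE, hc⟩ := hE.ultrafilter_le_nhds (U.map a) (by
    rw [le_principal_iff]
    exact hmem)
  rw [hEd] at hcE
  have hc' : Tendsto a (U : Filter ℂ) (𝓝 c) := hc
  refine ⟨c, hcE.1.1, ?_, hc'⟩
  have h3 : Tendsto (fun v => Φ (a v)) (U : Filter ℂ) (𝓝 (Φ c)) :=
    (h.analyticAt hcE.1.1).continuousAt.tendsto.comp hc'
  have h4 : Tendsto (fun v => Φ (a v)) (U : Filter ℂ) (𝓝 w) := by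
    refine Tendsto.congr' (f₁ := fun v => v) ?_ hU
    filter_upwards [ha] with v hv using hv.2.symm
  exact tendsto_nhds_unique h3 h4

lemma conn : IsPreconnected {w : ℂ | 1 < ‖w‖} := by
  have h1 : {w : ℂ | 1 < ‖w‖} = exp '' {s : ℂ | 0 < s.re} := by
    ext w
    constructor
    · intro hw
      have hw' : 1 < ‖w‖ := hw
      refine ⟨log w, ?_, exp_log ?_⟩
      · show 0 < (log w).re
        rw [log_re]
        exact Real.log_pos hw'
      · rintro rfl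
        rw [norm_zero] at hw'
        linarith
    · rintro ⟨s, hs, rfl⟩
      show 1 < ‖exp s‖
      rw [norm_exp]
      exact Real.one_lt_exp_iff.2 hs
  rw [h1]
  exact (convex_halfSpace_re_gt 0).isPreconnected.image _ continuous_exp.continuousOn

lemma Hyp.surj (h : Hyp K Φ C R) {w : ℂ} (hw : 1 < ‖w‖) : ∃ c, c ∉ K ∧ Φ c = w := by
  have hsub : {w : ℂ | 1 < ‖w‖} ⊆ Φ '' Kᶜ := by
    refine conn.subset_of_closure_inter_subset ?_ ?_ ?_
    · rw [isOpen_iff_mem_nhds]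
      rintro _ ⟨a, ha, rfl⟩
      exact h.nhds_le ha (image_mem_map (h.mem_nhds ha))
    · obtain ⟨a, ha⟩ := Set.nonempty_compl.2 h.comp.ne_univ
      exact ⟨Φ a, h.big a ha, a, ha, rfl⟩
    · rintro v ⟨hv1, hv2⟩
      obtain ⟨U, hU1, hU2⟩ := mem_closure_iff_ultrafilter.1 hv1
      have hex : ∀ v : ℂ, ∃ a, v ∈ Φ '' Kᶜ → a ∉ K ∧ Φ a = v := by
        intro v
        by_cases hv : v ∈ Φ '' Kᶜ
        · obtain ⟨a, ha1, ha2⟩ := hv
          exact ⟨a, fun _ => ⟨ha1, ha2⟩⟩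
        · exact ⟨0, fun hv' => absurd hv' hv⟩
      choose a ha using hex
      obtain ⟨c, hc1, hc2, _⟩ := h.proper hv2 U hU2 a (by
        filter_upwards [hU1] with v hv using ha v hv)
      exact ⟨c, hc1, hc2⟩
  obtain ⟨c, hc1, hc2⟩ := hsub hw
  exact ⟨c, hc1, hc2⟩

/-- the bad values -/
def W (K : Set ℂ) (Φ : ℂ → ℂ) : Set ℂ :=
  {w | (∃ a b, a ∉ K ∧ b ∉ K ∧ a ≠ b ∧ Φ a = w ∧ Φ b = w) ∨
    ∃ a, a ∉ K ∧ Φ a = w ∧ deriv Φ a = 0}

lemma Hyp.W_open (h : Hyp K Φ C R) (hL : T_LOC2) : IsOpen (W K Φ) := by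
  rw [isOpen_iff_mem_nhds]
  rintro w (⟨a, b, ha, hb, hab, hΦa, hΦb⟩ | ⟨a, ha, hΦa, hd⟩)
  · obtain ⟨A, B, hA, hB, hAa, hBb, hAB⟩ := t2_separation hab
    have h1 : Φ '' (A ∩ Kᶜ) ∈ 𝓝 w := by
      rw [← hΦa]
      exact h.nhds_le ha (image_mem_map (inter_mem (hA.mem_nhds hAa) (h.mem_nhds ha)))
    have h2 : Φ '' (B ∩ Kᶜ) ∈ 𝓝 w := by
      rw [← hΦb]
      exact h.nhds_le hb (image_mem_map (inter_mem (hB.mem_nhds hBb) (h.mem_nhds hb)))
    filter_upwards [h1, h2] with v hv1 hv2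
    obtain ⟨x, hx, hxv⟩ := hv1
    obtain ⟨y, hy, hyv⟩ := hv2
    refine Or.inl ⟨x, y, hx.2, hy.2, ?_, hxv, hyv⟩
    rintro rfl
    exact Set.disjoint_left.1 hAB hx.1 hy.1
  · obtain ⟨r, hr, hball⟩ := Metric.mem_nhds_iff.1 (h.mem_nhds ha)
    obtain ⟨δ, hδ, hδ'⟩ := hL Φ a (h.analyticAt ha) hd (h.nonconst ha) r hr
    rw [hΦa] at hδ'
    filter_upwards [Metric.ball_mem_nhds w hδ] with v hv
    by_cases hvw : v = w
    · subst hvw
      exact Or.inr ⟨a, ha, hΦa, hd⟩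
    · rw [mem_ball_iff_norm] at hv
      obtain ⟨x, y, hxy, hx, hy, hxv, hyv⟩ := hδ' v hvw hv
      exact Or.inl ⟨x, y, hball (mem_ball_iff_norm.2 hx), hball (mem_ball_iff_norm.2 hy), hxy,
        hxv, hyv⟩

lemma Hyp.W_closed (h : Hyp K Φ C R) : closure (W K Φ) ∩ {w : ℂ | 1 < ‖w‖} ⊆ W K Φ := by
  rintro w ⟨hw1, hw2⟩
  obtain ⟨U, hU1, hU2⟩ := mem_closure_iff_ultrafilter.1 hw1
  have hW : W K Φ = {w | ∃ a b, a ∉ K ∧ b ∉ K ∧ a ≠ b ∧ Φ a = w ∧ Φ b = w} ∪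
    {w | ∃ a, a ∉ K ∧ Φ a = w ∧ deriv Φ a = 0} := rfl
  rw [hW, Ultrafilter.union_mem_iff] at hU1
  rcases hU1 with hU1 | hU1
  · have hex : ∀ v : ℂ, ∃ a b, (∃ a b, a ∉ K ∧ b ∉ K ∧ a ≠ b ∧ Φ a = v ∧ Φ b = v) →
        (a ∉ K ∧ b ∉ K ∧ a ≠ b ∧ Φ a = v ∧ Φ b = v) := by
      intro v
      by_cases hv : ∃ a b, a ∉ K ∧ b ∉ K ∧ a ≠ b ∧ Φ a = v ∧ Φ b = v
      · obtain ⟨a, b, hab⟩ := hv
        exact ⟨a, b, fun _ => hab⟩
      · exact ⟨0, 0, fun hv' => absurd hv' hv⟩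
    choose a b hab using hex
    have hev : ∀ᶠ v in (U : Filter ℂ), a v ∉ K ∧ b v ∉ K ∧ a v ≠ b v ∧ Φ (a v) = v ∧
        Φ (b v) = v := by
      filter_upwards [hU1] with v hv using hab v hv
    obtain ⟨c, hc1, hc2, hc3⟩ := h.proper hw2 U hU2 a (hev.mono fun v hv => ⟨hv.1, hv.2.2.2.1⟩)
    obtain ⟨d, hd1, hd2, hd3⟩ := h.proper hw2 U hU2 b (hev.mono fun v hv => ⟨hv.2.1, hv.2.2.2.2⟩)
    by_cases hcd : c = d
    · subst hcd
      by_cases hder : deriv Φ c = 0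
      · exact Or.inr ⟨c, hc1, hc2, hder⟩
      · exfalso
        have hs : HasStrictDerivAt Φ (deriv Φ c) c := (h.analyticAt hc1).hasStrictDerivAt
        have hfd := hs.hasStrictFDerivAt_equiv hder
        have hsrc : c ∈ (hfd.toOpenPartialHomeomorph Φ).source :=
          HasStrictFDerivAt.mem_toOpenPartialHomeomorph_source _
        have hnb : (hfd.toOpenPartialHomeomorph Φ).source ∈ 𝓝 c :=
          (hfd.toOpenPartialHomeomorph Φ).open_source.mem_nhds hsrc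
        obtain ⟨v, hv1, hv2, hv3⟩ := (hev.and ((hc3.eventually hnb).and
          (hd3.eventually hnb))).exists
        exact hv1.2.2.1 ((hfd.toOpenPartialHomeomorph Φ).injOn hv2 hv3
          (hv1.2.2.2.1.trans hv1.2.2.2.2.symm))
    · exact Or.inl ⟨c, d, hc1, hd1, hcd, hc2, hd2⟩
  · have hex : ∀ v : ℂ, ∃ a, (∃ a, a ∉ K ∧ Φ a = v ∧ deriv Φ a = 0) →
        (a ∉ K ∧ Φ a = v ∧ deriv Φ a = 0) := by
      intro v
      by_cases hv : ∃ a, a ∉ K ∧ Φ a = v ∧ deriv Φ a = 0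
      · obtain ⟨a, ha⟩ := hv
        exact ⟨a, fun _ => ha⟩
      · exact ⟨0, fun hv' => absurd hv' hv⟩
    choose a ha using hex
    have hev : ∀ᶠ v in (U : Filter ℂ), a v ∉ K ∧ Φ (a v) = v ∧ deriv Φ (a v) = 0 := by
      filter_upwards [hU1] with v hv using ha v hv
    obtain ⟨c, hc1, hc2, hc3⟩ := h.proper hw2 U hU2 a (hev.mono fun v hv => ⟨hv.1, hv.2.1⟩)
    refine Or.inr ⟨c, hc1, hc2, ?_⟩
    have h1 : Tendsto (fun v => deriv Φ (a v)) (U : Filter ℂ) (𝓝 (deriv Φ c)) :=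
      (h.analyticAt hc1).deriv.continuousAt.tendsto.comp hc3
    have h2 : Tendsto (fun v => deriv Φ (a v)) (U : Filter ℂ) (𝓝 0) := by
      refine Tendsto.congr' (f₁ := fun _ => (0 : ℂ)) ?_ tendsto_const_nhds
      filter_upwards [hev] with v hv using hv.2.2.symm
    exact tendsto_nhds_unique h1 h2

lemma Hyp.inf (h : Hyp K Φ C R) : ∃ M : ℝ, ∀ w, M < ‖w‖ → w ∉ W K Φ := by
  obtain ⟨RK, hRK⟩ := h.comp.isBounded.subset_closedBall (0 : ℂ)
  obtain ⟨ρ, hρd⟩ : ∃ ρ : ℝ, ρ = 2 * |C| + 1 := ⟨_, rfl⟩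
  have hρ : 0 < ρ := by rw [hρd]; positivity
  obtain ⟨R1, hR1⟩ : ∃ R1 : ℝ, R1 = max R (RK + 1) := ⟨_, rfl⟩
  have hK : ∀ z : ℂ, R1 ≤ ‖z‖ → z ∉ K := by
    intro z hz hzK
    have h1 := mem_closedBall_zero_iff.1 (hRK hzK)
    have h2 := le_max_right R (RK + 1)
    rw [← hR1] at h2
    linarith
  have has : ∀ z : ℂ, R1 ≤ ‖z‖ → ‖Φ z - z‖ ≤ |C| := by
    intro z hz
    refine (h.asym z ?_).trans (le_abs_self C)
    have h2 := le_max_left R (RK + 1)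
    rw [← hR1] at h2
    linarith
  -- derivative of Φ z - z
  have hder : ∀ z : ℂ, R1 + ρ ≤ ‖z‖ → ‖deriv (fun z => Φ z - z) z‖ ≤ 1 / 2 := by
    intro z hz
    have hfar : ∀ x ∈ Metric.closedBall z ρ, R1 ≤ ‖x‖ := by
      intro x hx
      rw [mem_closedBall_iff_norm] at hx
      have h1 : ‖z‖ ≤ ‖x‖ + ‖x - z‖ := by
        have := norm_sub_le x (x - z)
        rwa [sub_sub_cancel] at this
      linarith
    have hd : DiffContOnCl ℂ (fun z => Φ z - z) (Metric.ball z ρ) := by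
      refine DifferentiableOn.diffContOnCl ?_
      rw [closure_ball z hρ.ne']
      intro x hx
      exact ((h.analyticAt (hK x (hfar x hx))).differentiableAt.sub
        differentiableAt_id).differentiableWithinAt
    have h1 := norm_deriv_le_of_forall_mem_sphere_norm_le hρ hd (C := |C|)
      (fun x hx => has x (hfar x (Metric.sphere_subset_closedBall hx)))
    refine h1.trans ?_
    rw [div_le_div_iff₀ hρ (by norm_num)]
    rw [hρd]
    linarith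
  -- values on the compact part
  obtain ⟨M, hM⟩ : ∃ M : ℝ, ∀ c, c ∉ K → ‖c‖ ≤ R1 + ρ → ‖Φ c‖ ≤ max M 2 := by
    have hE : IsCompact ({c | c ∉ K ∧ 1 + 1 ≤ ‖Φ c‖} ∩ Metric.closedBall (0 : ℂ) (R1 + ρ)) :=
      (isCompact_closedBall _ _).inter_left (h.closed 1 one_pos)
    obtain ⟨M, hM⟩ := hE.exists_bound_of_continuousOn (f := Φ)
      (fun x hx => (h.analyticAt hx.1.1).continuousAt.continuousWithinAt)
    refine ⟨M, fun c hc1 hc2 => ?_⟩
    by_cases h2 : 1 + 1 ≤ ‖Φ c‖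
    · exact (hM c ⟨⟨hc1, h2⟩, mem_closedBall_zero_iff.2 hc2⟩).trans (le_max_left _ _)
    · push Not at h2
      refine le_trans ?_ (le_max_right _ _)
      linarith
  refine ⟨max (max M 2) (R1 + ρ + |C|), fun w hw => ?_⟩
  have hw1 : max M 2 < ‖w‖ := lt_of_le_of_lt (le_max_left _ _) hw
  have hw2 : R1 + ρ + |C| < ‖w‖ := lt_of_le_of_lt (le_max_right _ _) hw
  have hpre : ∀ c, c ∉ K → Φ c = w → c ∈ Metric.closedBall w |C| := by
    intro c hc1 hc2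
    have h1 : R1 + ρ < ‖c‖ := by
      by_contra hcon
      push Not at hcon
      have := hM c hc1 hcon
      rw [hc2] at this
      linarith
    have h2 := has c (by linarith)
    rw [hc2, norm_sub_rev] at h2
    exact mem_closedBall_iff_norm.2 h2
  have hball : ∀ c ∈ Metric.closedBall w |C|, R1 + ρ ≤ ‖c‖ := by
    intro c hc
    rw [mem_closedBall_iff_norm] at hc
    have h1 : ‖w‖ ≤ ‖c‖ + ‖c - w‖ := by
      have := norm_sub_le c (c - w)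
      rwa [sub_sub_cancel] at this
    linarith
  have hdiff : ∀ c ∈ Metric.closedBall w |C|, DifferentiableAt ℂ (fun z => Φ z - z) c := by
    intro c hc
    exact (h.analyticAt (hK c (by linarith [hball c hc]))).differentiableAt.sub
      differentiableAt_id
  rintro (⟨a, b, ha, hb, hab, hΦa, hΦb⟩ | ⟨a, ha, hΦa, hd⟩)
  · have h1 := (convex_closedBall w |C|).norm_image_sub_le_of_norm_deriv_le (𝕜 := ℂ)
      (f := fun z => Φ z - z) (C := 1 / 2) hdiff (fun c hc => hder c (hball c hc))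
      (hpre a ha hΦa) (hpre b hb hΦb)
    have h2 : Φ b - b - (Φ a - a) = -(b - a) := by rw [hΦa, hΦb]; ring
    rw [h2, norm_neg] at h1
    have h3 : 0 < ‖b - a‖ := norm_pos_iff.2 (sub_ne_zero.2 hab.symm)
    linarith
  · have h1 := hder a (hball a (hpre a ha hΦa))
    have h2 : deriv (fun z => Φ z - z) a = deriv Φ a - 1 := by
      have := deriv_sub (h.analyticAt ha).differentiableAt (differentiableAt_id (x := a))
      rw [deriv_id] at this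
      exact this
    rw [h2, hd, zero_sub, norm_neg, norm_one] at h1
    norm_num at h1

lemma Hyp.W_empty (h : Hyp K Φ C R) (hL : T_LOC2) {w : ℂ} (hw : 1 < ‖w‖) : w ∉ W K Φ := by
  intro hwW
  have hsub := conn.subset_of_closure_inter_subset (h.W_open hL) ⟨w, hw, hwW⟩ h.W_closed
  obtain ⟨M, hM⟩ := h.inf
  have hn : ‖((|M| + 2 : ℝ) : ℂ)‖ = |M| + 2 := by
    rw [norm_real, Real.norm_of_nonneg (by positivity)]
  refine hM ((|M| + 2 : ℝ) : ℂ) ?_ (hsub ?_)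
  · rw [hn]
    have := le_abs_self M
    linarith
  · show 1 < ‖((|M| + 2 : ℝ) : ℂ)‖
    rw [hn]
    have := abs_nonneg M
    linarith

end DEG1_

open DEG1_ in
theorem p_DEG1 (h1 : T_LOC2) : T_DEG1 := by
  intro K Φ hK hΦ hbig hcl ⟨C, R, hCR⟩
  have h : Hyp K Φ C R := ⟨hK, hΦ, hbig, hcl, hCR⟩
  have hex : ∀ w : ℂ, ∃ c, 1 < ‖w‖ → c ∉ K ∧ Φ c = w := by
    intro w
    by_cases hw : 1 < ‖w‖
    · obtain ⟨c, hc⟩ := h.surj hw
      exact ⟨c, fun _ => hc⟩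
    · exact ⟨0, fun hw' => absurd hw' hw⟩
  choose Ψ hΨ using hex
  have huniq : ∀ w, 1 < ‖w‖ → ∀ c, c ∉ K → Φ c = w → c = Ψ w := by
    intro w hw c hc1 hc2
    by_contra hne
    exact h.W_empty h1 hw (Or.inl ⟨c, Ψ w, hc1, (hΨ w hw).1, hne, hc2, (hΨ w hw).2⟩)
  refine ⟨Ψ, ?_, fun w hw => ⟨(hΨ w hw).1, (hΨ w hw).2, huniq w hw⟩⟩
  intro w hw
  have hw' : 1 < ‖w‖ := hw
  obtain ⟨hc1, hc2⟩ := hΨ w hw'
  have hder : deriv Φ (Ψ w) ≠ 0 := fun hd => h.W_empty h1 hw' (Or.inr ⟨Ψ w, hc1, hc2, hd⟩)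
  have hcont : ContinuousAt Ψ w := by
    have h2 := h.nhds_le hc1
    rw [hc2] at h2
    refine (Filter.map_mono h2).trans ?_
    rw [Filter.map_map]
    have h3 : (Ψ ∘ Φ) =ᶠ[𝓝 (Ψ w)] id := by
      filter_upwards [h.mem_nhds hc1] with z hz
      exact (huniq (Φ z) (hbig z hz) z hz rfl).symm
    rw [Filter.map_congr h3, Filter.map_id]
  have hfg : ∀ᶠ y in 𝓝 w, Φ (Ψ y) = y := by
    filter_upwards [(continuous_norm.tendsto w).eventually (lt_mem_nhds hw')] with y hy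
    exact (hΨ y hy).2
  exact (HasDerivAt.of_local_left_inverse hcont
    (h.analyticAt hc1).differentiableAt.hasDerivAt hder hfg).differentiableAt.differentiableWithinAt

end Pool.Agent.PLim
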