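import Pool.Agent.PLim.Targets
import Pool.Agent.Multibrot.Annulus

/-!
# DISP1: displacement and area
-/

set_option autoImplicit false

open Complex Filter Topology Set MeasureTheory
open Pool.Agent.Multibrot

namespace Pool.Agent.PLim

namespace DISP1_

/-- the mean value inequality on circles -/
theorem circ {h : ℂ → ℂ} {R r : ℝ} (hr : r ∈ Ioo 0 R)
    (hd : DifferentiableOn ℂ h (Metric.ball 0 R)) :
    ENNReal.ofReal (2 * Real.pi * ‖h 0‖) ≤
      ∫⁻ θ in Ioo (-Real.pi) Real.pi, ‖h (circleMap 0 r θ)‖ₑ := by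
  have h1 : DiffContOnCl ℂ h (Metric.ball 0 |r|) := by
    rw [abs_of_pos hr.1]
    exact hd.diffContOnCl_ball (Metric.closedBall_subset_ball hr.2)
  have h2 := h1.circleAverage
  rw [Real.circleAverage_def] at h2
  have hper : Function.Periodic (fun θ => h (circleMap 0 r θ)) (2 * Real.pi) := by
    intro θ
    show h (circleMap 0 r (θ + 2 * Real.pi)) = h (circleMap 0 r θ)
    rw [periodic_circleMap 0 r θ]
  have h3 := hper.intervalIntegral_add_eq (-Real.pi) 0
  rw [zero_add, show -Real.pi + 2 * Real.pi = Real.pi by ring] at h3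
  have h4 : ‖∫ θ in Ioo (-Real.pi) Real.pi, h (circleMap 0 r θ)‖ = 2 * Real.pi * ‖h 0‖ := by
    rw [← integral_Ioc_eq_integral_Ioo, ← intervalIntegral.integral_of_le
      (by linarith [Real.pi_pos]), h3, ← h2, norm_smul, norm_inv, Real.norm_eq_abs,
      abs_of_pos (by positivity)]
    have : (2 * Real.pi) ≠ 0 := by positivity
    field_simp
  rw [← h4, ofReal_norm]
  exact enorm_integral_le_lintegral_enorm _

/-- area mean value inequality, sharp -/
theorem mean {g : ℂ → ℂ} (hg : Measurable g) {s : ℂ} {R : ℝ} (hR : 0 < R)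
    (hd : DifferentiableOn ℂ g (Metric.ball s R)) :
    ENNReal.ofReal (Real.pi * R ^ 2 * ‖g s‖) ≤ ∫⁻ x in Metric.ball s R, ‖g x‖ₑ := by
  set h : ℂ → ℂ := fun x => g (s + x) with hh
  have hhm : Measurable h := hg.comp (measurable_const_add s)
  have hhd : DifferentiableOn ℂ h (Metric.ball 0 R) := by
    refine hd.comp (differentiableOn_id.const_add s) ?_
    intro x hx
    rw [Metric.mem_ball, dist_zero_right] at hx
    show s + x ∈ Metric.ball s R
    rw [Metric.mem_ball, dist_eq_norm, add_sub_cancel_left]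
    exact hx
  have h0 : h 0 = g s := by simp [hh]
  have h1 : ENNReal.ofReal (Real.pi * R ^ 2 * ‖g s‖) ≤ ∫⁻ x in annul 0 R, ‖h x‖ₑ := by
    rw [lintegral_annul le_rfl hhm.enorm]
    have h2 : ∀ r ∈ Ioo 0 R, ENNReal.ofReal (r * (2 * Real.pi * ‖g s‖)) ≤
        ∫⁻ θ in Ioo (-Real.pi) Real.pi, ENNReal.ofReal r * ‖h (circleMap 0 r θ)‖ₑ := by
      intro r hr
      rw [lintegral_const_mul' _ _ ENNReal.ofReal_ne_top, ENNReal.ofReal_mul hr.1.le, ← h0]
      exact mul_le_mul_right (circ hr hhd) _
    refine le_trans ?_ (setLIntegral_mono' measurableSet_Ioo h2)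
    have hint : IntegrableOn (fun r : ℝ => r * (2 * Real.pi * ‖g s‖)) (Ioo 0 R) := by
      have : IntervalIntegrable (fun r : ℝ => r * (2 * Real.pi * ‖g s‖)) volume 0 R :=
        (continuous_id.mul continuous_const).intervalIntegrable _ _
      rw [intervalIntegrable_iff_integrableOn_Ioo_of_le hR.le] at this
      exact this
    rw [← ofReal_integral_eq_lintegral_ofReal hint]
    · apply ENNReal.ofReal_le_ofReal
      rw [← integral_Ioc_eq_integral_Ioo, ← intervalIntegral.integral_of_le hR.le,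
        intervalIntegral.integral_mul_const, integral_id]
      apply le_of_eq
      ring
    · filter_upwards [self_mem_ae_restrict measurableSet_Ioo] with r hr
      have := hr.1
      show 0 ≤ r * (2 * Real.pi * ‖g s‖)
      positivity
  refine h1.trans ?_
  have h4 : annul 0 R ⊆ Metric.ball 0 R := by
    intro x hx
    rw [mem_ball_zero_iff]
    exact hx.2
  refine (lintegral_mono_set h4).trans ?_
  rw [← lintegral_indicator Metric.isOpen_ball.measurableSet,
    ← lintegral_indicator Metric.isOpen_ball.measurableSet,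
    ← lintegral_add_left_eq_self ((Metric.ball s R).indicator fun x => ‖g x‖ₑ) s]
  apply le_of_eq
  apply lintegral_congr
  intro x
  by_cases hx : x ∈ Metric.ball (0 : ℂ) R
  · have hx' : s + x ∈ Metric.ball s R := by
      rw [Metric.mem_ball, dist_eq_norm] at hx ⊢
      rw [sub_zero] at hx
      rwa [add_sub_cancel_left]
    rw [indicator_of_mem hx, indicator_of_mem hx']
  · have hx' : s + x ∉ Metric.ball s R := by
      rw [Metric.mem_ball, dist_eq_norm] at hx ⊢
      rw [sub_zero] at hx
      rwa [add_sub_cancel_left]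
    rw [indicator_of_notMem hx, indicator_of_notMem hx']

end DISP1_

open DISP1_ in
/-- DISP1 -/
theorem p_DISP1 : T_DISP1 := by
  intro a r f hr hf x hx y hy
  set J : ENNReal := ∫⁻ u in Metric.ball a (2 * r), ‖deriv f u‖ₑ ^ 2 with hJ
  by_cases hJt : J = ⊤
  · rw [hJt, ENNReal.mul_top]
    · exact le_top
    · rw [Ne, ENNReal.ofReal_eq_zero, not_le]
      positivity
  have hdf : DifferentiableOn ℂ (deriv f) (Metric.ball a (2 * r)) :=
    hf.deriv Metric.isOpen_ball
  have hsup : ∀ u ∈ Metric.ball a r, Real.pi * r ^ 2 * ‖deriv f u‖ ^ 2 ≤ J.toReal := by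
    intro u hu
    have hsub : Metric.ball u r ⊆ Metric.ball a (2 * r) := by
      apply Metric.ball_subset_ball'
      rw [Metric.mem_ball] at hu
      linarith
    have h1 := mean (g := fun z => deriv f z ^ 2) ((measurable_deriv f).pow_const 2) hr
      ((hdf.mono hsub).pow 2)
    have h2 : ∫⁻ z in Metric.ball u r, ‖deriv f z ^ 2‖ₑ ≤ J := by
      rw [hJ]
      simp only [enorm_pow]
      exact lintegral_mono_set hsub
    have h3 := h1.trans h2
    rw [norm_pow] at h3
    rwa [ENNReal.ofReal_le_iff_le_toReal hJt] at h3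
  set M : ℝ := Real.sqrt (J.toReal / (Real.pi * r ^ 2)) with hM
  have hJ0 : 0 ≤ J.toReal := ENNReal.toReal_nonneg
  have hM2 : M ^ 2 = J.toReal / (Real.pi * r ^ 2) := Real.sq_sqrt (by positivity)
  have hb : ∀ u ∈ Metric.ball a r, ‖deriv f u‖ ≤ M := by
    intro u hu
    apply Real.le_sqrt_of_sq_le
    rw [le_div_iff₀ (by positivity)]
    have := hsup u hu
    linarith
  have hd : ∀ u ∈ Metric.ball a r, DifferentiableAt ℂ f u := by
    intro u hu
    apply hf.differentiableAt
    apply Metric.isOpen_ball.mem_nhds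
    exact Metric.ball_subset_ball (by linarith) hu
  have hle : ‖f x - f y‖ ≤ M * ‖x - y‖ :=
    (convex_ball a r).norm_image_sub_le_of_norm_deriv_le hd hb hy hx
  have hxy : ‖x - y‖ ≤ 2 * r := by
    rw [Metric.mem_ball, dist_eq_norm] at hx hy
    calc ‖x - y‖ = ‖(x - a) - (y - a)‖ := by congr 1; ring
      _ ≤ ‖x - a‖ + ‖y - a‖ := norm_sub_le _ _
      _ ≤ 2 * r := by linarith
  have hM0 : 0 ≤ M := Real.sqrt_nonneg _
  have hfin : ‖f x - f y‖ ^ 2 ≤ 4 / Real.pi * J.toReal := by
    calc ‖f x - f y‖ ^ 2 ≤ (M * (2 * r)) ^ 2 := by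
          apply pow_le_pow_left₀ (norm_nonneg _)
          exact hle.trans (mul_le_mul_of_nonneg_left hxy hM0)
      _ = M ^ 2 * (4 * r ^ 2) := by ring
      _ = 4 / Real.pi * J.toReal := by
          rw [hM2]
          field_simp
  calc ENNReal.ofReal (‖f x - f y‖ ^ 2) ≤ ENNReal.ofReal (4 / Real.pi * J.toReal) :=
        ENNReal.ofReal_le_ofReal hfin
    _ = ENNReal.ofReal (4 / Real.pi) * J := by
        rw [ENNReal.ofReal_mul (by positivity), ENNReal.ofReal_toReal hJt]

end Pool.Agent.PLim
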