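import Pool.Agent.PLim.Targets

/-!
# PLIM: DX, the inequality for unbroken rays
-/

set_option autoImplicit false

open Complex Filter Topology Set MeasureTheory
open Pool.Agent.Multibrot Pool.Agent.Limb

namespace Pool.Agent.PLim

attribute [local irreducible] G Rho

namespace DX_

/-- Continuous logarithms on an interval. -/
lemma exists_log {a b : ℝ} (hab : a ≤ b) {f : ℝ → ℂ} (hf : ContinuousOn f (Icc a b))
    (h0 : ∀ t ∈ Icc a b, f t ≠ 0) :
    ∃ L : ℝ → ℂ, ContinuousOn L (Icc a b) ∧ ∀ t ∈ Icc a b, exp (L t) = f t := by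
  have hcomp : IsCompact (Icc a b) := isCompact_Icc
  -- uniform continuity of `f`, lower bound
  obtain ⟨t0, ht0, hmin⟩ := hcomp.exists_isMinOn (nonempty_Icc.2 hab) hf.norm
  have hm : 0 < ‖f t0‖ := norm_pos_iff.2 (h0 t0 ht0)
  have huc := hcomp.uniformContinuousOn_of_continuous hf
  rw [Metric.uniformContinuousOn_iff] at huc
  obtain ⟨δ, hδ, huc⟩ := huc ‖f t0‖ hm
  obtain ⟨N, hN⟩ := exists_nat_gt ((b - a) / δ)
  have hN0 : (0 : ℝ) < N := lt_of_le_of_lt (by
    have : 0 ≤ b - a := by linarith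
    positivity) hN
  set d : ℝ := (b - a) / N with hd
  have hd0 : 0 ≤ d := by
    have : 0 ≤ b - a := by linarith
    positivity
  have hdδ : d < δ := by
    rw [hd, div_lt_iff₀ hN0]
    rw [div_lt_iff₀ hδ] at hN
    linarith
  -- the points
  set p : ℕ → ℝ → ℝ := fun i t => min t (a + i * d) with hp
  have hpc : ∀ i, Continuous (p i) := fun i => continuous_id.min continuous_const
  have hpm : ∀ i, ∀ t ∈ Icc a b, p i t ∈ Icc a b := by
    intro i t ht
    constructor
    · refine le_min ht.1 ?_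
      have : 0 ≤ (i : ℝ) * d := by positivity
      linarith
    · exact (min_le_left _ _).trans ht.2
  have hpd : ∀ i, ∀ t, dist (p (i + 1) t) (p i t) < δ := by
    intro i t
    rw [Real.dist_eq]
    refine lt_of_le_of_lt ?_ hdδ
    simp only [hp]
    push_cast
    rw [abs_le]
    have e : a + ((i : ℝ) + 1) * d = (a + i * d) + d := by ring
    rw [e]
    constructor
    · rcases le_total t (a + i * d) with h | h
      · rw [min_eq_left h, min_eq_left (by linarith)]
        linarith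
      · rw [min_eq_right h]
        have : a + i * d ≤ min t (a + i * d + d) := le_min h (by linarith)
        linarith
    · rcases le_total t (a + i * d) with h | h
      · rw [min_eq_left h, min_eq_left (by linarith)]
        linarith
      · rw [min_eq_right h]
        have : min t (a + i * d + d) ≤ a + i * d + d := min_le_right _ _
        linarith
  have hr : ∀ i, ∀ t ∈ Icc a b, f (p (i + 1) t) / f (p i t) ∈ Complex.slitPlane := by
    intro i t ht
    have h1 := huc _ (hpm (i + 1) t ht) _ (hpm i t ht) (hpd i t)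
    have h2 := h0 _ (hpm i t ht)
    have h3 : ‖f t0‖ ≤ ‖f (p i t)‖ := hmin (hpm i t ht)
    have h4 : ‖f (p (i + 1) t) / f (p i t) - 1‖ < 1 := by
      rw [div_sub_one h2, norm_div, div_lt_one (norm_pos_iff.2 h2)]
      rw [dist_eq_norm] at h1
      linarith
    have h5 := Complex.mem_slitPlane_of_norm_lt_one h4
    rwa [add_sub_cancel] at h5
  refine ⟨fun t => log (f a) + ∑ i ∈ Finset.range N, log (f (p (i + 1) t) / f (p i t)), ?_, ?_⟩
  · refine continuousOn_const.add ?_
    refine continuousOn_finsetSum _ fun i _ => ?_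
    refine ContinuousOn.clog ?_ (hr i)
    refine ContinuousOn.div (hf.comp (hpc (i + 1)).continuousOn (hpm (i + 1)))
      (hf.comp (hpc i).continuousOn (hpm i)) fun t ht => h0 _ (hpm i t ht)
  · intro t ht
    have key : ∀ M : ℕ, exp (log (f a) + ∑ i ∈ Finset.range M,
        log (f (p (i + 1) t) / f (p i t))) = f (p M t) := by
      intro M
      induction M with
      | zero =>
        have h1 : p 0 t = a := by
          simp only [hp]
          rw [Nat.cast_zero, zero_mul, add_zero]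
          exact min_eq_right ht.1
        rw [Finset.sum_range_zero, add_zero, h1, exp_log (h0 a ⟨le_rfl, hab⟩)]
      | succ M ih =>
        rw [Finset.sum_range_succ, ← add_assoc, exp_add, ih,
          exp_log (div_ne_zero (h0 _ (hpm (M + 1) t ht)) (h0 _ (hpm M t ht))),
          mul_div_cancel₀ _ (h0 _ (hpm M t ht))]
    have h1 : p N t = t := by
      simp only [hp]
      refine min_eq_left ?_
      have : (N : ℝ) * d = b - a := by
        rw [hd]
        field_simp
      rw [this]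
      linarith [ht.2]
    rw [← h1]
    have := key N
    rw [h1] at this ⊢
    exact this

/-- `Λ` commutes with the translation by `2 π i m`. -/
lemma lam_per {n : ℕ} {Λ : ℂ → ℂ → ℂ} (hn : 2 ≤ n) (hB : IsBot n Λ) (c s : ℂ)
    (hs : G n c 0 < s.re) (m : ℤ) :
    Λ c (s + 2 * Real.pi * I * m) = Λ c s + 2 * Real.pi * I * m := by
  have hn0 : (n : ℂ) ≠ 0 := by
    have : n ≠ 0 := by omega
    exact_mod_cast this
  have step : ∀ (a : ℕ) (s : ℂ), G n c 0 < s.re →
      Λ c (s + a * (2 * Real.pi * I / n)) = Λ c s + a * (2 * Real.pi * I / n) := by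
    intro a
    induction a with
    | zero => intro s _; simp
    | succ a ih =>
      intro s hs
      have h1 := ih s hs
      have h2 : G n c 0 < (s + a * (2 * Real.pi * I / n)).re := by
        have : ((a : ℂ) * (2 * Real.pi * I / n)).re = 0 := by
          have e : (a : ℂ) * (2 * Real.pi * I / n) = ((a * (2 * Real.pi) / n : ℝ) : ℂ) * I := by
            push_cast; ring
          rw [e]
          simp
        rw [add_re, this, add_zero]
        exact hs
      have h3 := hB.rot c _ h2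
      push_cast
      rw [add_mul, one_mul, ← add_assoc, h3, h1]
      ring
  have pos : ∀ (b : ℕ) (s : ℂ), G n c 0 < s.re →
      Λ c (s + 2 * Real.pi * I * b) = Λ c s + 2 * Real.pi * I * b := by
    intro b s hs
    have h := step (n * b) s hs
    have e : ((n * b : ℕ) : ℂ) * (2 * Real.pi * I / n) = 2 * Real.pi * I * b := by
      push_cast
      field_simp
    rwa [e] at h
  obtain ⟨b, rfl | rfl⟩ := m.eq_nat_or_neg
  · have := pos b s hs
    push_cast
    exact this
  · have h2 : G n c 0 < (s - 2 * Real.pi * I * b).re := by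
      have : ((2 : ℂ) * Real.pi * I * b).re = 0 := by
        have e : (2 : ℂ) * Real.pi * I * b = ((2 * Real.pi * b : ℝ) : ℂ) * I := by
          push_cast; ring
        rw [e]
        simp
      rw [sub_re, this, sub_zero]
      exact hs
    have h := pos b _ h2
    rw [sub_add_cancel] at h
    push_cast
    rw [mul_neg, ← sub_eq_add_neg, ← sub_eq_add_neg, h]
    ring

/-- counting -/
lemma card_le_two {k : ℕ} (n : ℕ) (hn : 2 ≤ n) (s q : ℝ) (hs0 : 0 < s)
    (P : Finset (Fin k × ℤ))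
    (h : ∀ p ∈ P, s / (n : ℝ) ^ 2 < q * (n : ℝ) ^ ((k : ℤ) * p.2 + (p.1 : ℕ)) ∧
      q * (n : ℝ) ^ ((k : ℤ) * p.2 + (p.1 : ℕ)) < s) : P.card ≤ 2 := by
  rcases P.eq_empty_or_nonempty with hP | hP
  · rw [hP]; simp
  have hn1 : (1 : ℝ) < n := by exact_mod_cast (by omega : 1 < n)
  have hn0 : (0 : ℝ) < n := by linarith
  set φ : Fin k × ℤ → ℤ := fun p => (k : ℤ) * p.2 + (p.1 : ℕ) with hφ
  have hinj : Function.Injective φ := by
    rintro ⟨j, i⟩ ⟨j', i'⟩ h
    simp only [hφ] at h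
    have hj := j.2
    have hj' := j'.2
    have hk : (0 : ℤ) < k := by omega
    have h1 : i = i' := by
      by_contra hne
      rcases lt_or_gt_of_ne hne with hlt | hlt
      · have : (k : ℤ) * (i + 1) ≤ k * i' := mul_le_mul_of_nonneg_left (by omega) hk.le
        rw [mul_add, mul_one] at this
        omega
      · have : (k : ℤ) * (i' + 1) ≤ k * i := mul_le_mul_of_nonneg_left (by omega) hk.le
        rw [mul_add, mul_one] at this
        omega
    subst h1
    have h2 : (j : ℕ) = j' := by omega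
    exact Prod.ext (Fin.ext h2) rfl
  obtain ⟨p0, hp0, hmin⟩ := P.exists_min_image φ hP
  have hsub : P.image φ ⊆ {φ p0, φ p0 + 1} := by
    intro e he
    rw [Finset.mem_image] at he
    obtain ⟨p, hp, rfl⟩ := he
    have h1 := hmin p hp
    rw [Finset.mem_insert, Finset.mem_singleton]
    by_contra hcon
    push Not at hcon
    have h2 : φ p0 + 2 ≤ φ p := by
      have h3 : φ p ≠ φ p0 := hcon.1
      have h4 : φ p ≠ φ p0 + 1 := hcon.2
      omega
    obtain ⟨ha, _⟩ := h p0 hp0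
    obtain ⟨_, hb⟩ := h p hp
    change s / (n : ℝ) ^ 2 < q * (n : ℝ) ^ (φ p0) at ha
    change q * (n : ℝ) ^ (φ p) < s at hb
    have hs : 0 < q := by
      have e1 : (0 : ℝ) < (n : ℝ) ^ (φ p0) := by positivity
      have e2 : 0 < s / (n : ℝ) ^ 2 := by positivity
      exact (mul_pos_iff_of_pos_right e1).1 (e2.trans ha)
    have h3 : (n : ℝ) ^ (φ p0) * (n : ℝ) ^ 2 ≤ (n : ℝ) ^ (φ p) := by
      have : (n : ℝ) ^ (φ p0) * (n : ℝ) ^ 2 = (n : ℝ) ^ (φ p0 + 2) := by
        rw [zpow_add₀ hn0.ne' (φ p0) 2]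
        rfl
      rw [this]
      exact zpow_le_zpow_right₀ hn1.le h2
    rw [div_lt_iff₀ (by positivity)] at ha
    have h4 : q * (n : ℝ) ^ (φ p0) * (n : ℝ) ^ 2 ≤ q * (n : ℝ) ^ (φ p) := by
      rw [mul_assoc]
      exact mul_le_mul_of_nonneg_left h3 hs.le
    linarith
  calc P.card = (P.image φ).card := (Finset.card_image_of_injective P hinj).symm
    _ ≤ ({φ p0, φ p0 + 1} : Finset ℤ).card := Finset.card_le_card hsub
    _ ≤ 2 := Finset.card_le_two

/-- A point of the curve. -/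
noncomputable def X (n : ℕ) (ls : ℂ → ℂ → ℂ → ℂ) (c ζ : ℂ) (y t : ℝ) : ℂ :=
  exp (ls c ζ (t + y * I) / n)

section pts

variable {n : ℕ} {Λ : ℂ → ℂ → ℂ} {lh ls : ℂ → ℂ → ℂ → ℂ} {c ζ : ℂ}

lemma mem_SL {y t : ℝ} (hy : ∀ m : ℤ, y ≠ ζ.im + 2 * Real.pi * m) (ht : G n c 0 < t) :
    ((t : ℂ) + y * I) ∈ SL n c ζ := by
  refine ⟨by simpa using ht, fun m hm => ?_⟩
  exfalso
  apply hy m
  simpa using hm

lemma X_F (hn : 2 ≤ n) (hL : IsLog n Λ lh ls) (hc : Crit n Λ c ζ) {y t : ℝ}
    (hy : ∀ m : ℤ, y ≠ ζ.im + 2 * Real.pi * m) (ht : G n c 0 < t) :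
    F n c (X n ls c ζ y t) = exp (Λ c (t + y * I)) := by
  have hn0 : (n : ℂ) ≠ 0 := by
    have : n ≠ 0 := by omega
    exact_mod_cast this
  have h1 := hL.lsexp c ζ _ hc (mem_SL hy ht)
  unfold F X
  rw [← exp_nat_mul, mul_div_cancel₀ _ hn0, h1]
  ring

lemma X_top (hn : 2 ≤ n) (hL : IsLog n Λ lh ls) (hc : Crit n Λ c ζ) {y t : ℝ}
    (ht : G n c 0 < t) :
    X n ls c ζ (n * y) (n * t) = exp (Λ c (t + y * I)) := by
  have hn0 : (n : ℂ) ≠ 0 := by
    have : n ≠ 0 := by omega
    exact_mod_cast this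
  have h1 := hL.lsL c ζ (t + y * I) hc (by simpa using ht)
  unfold X
  have e : (((n : ℝ) * t : ℝ) : ℂ) + (((n : ℝ) * y : ℝ) : ℂ) * I = n * (t + y * I) := by
    push_cast; ring
  rw [e, h1, mul_div_cancel_left₀ _ hn0]

lemma X_bot (hL : IsLog n Λ lh ls) (hc : Crit n Λ c ζ) {y t : ℝ} (m : ℤ)
    (ht : G n c 0 < t) (hts : t < ζ.re) (h1 : ζ.im + 2 * Real.pi * m < y)
    (h2 : y < ζ.im + 2 * Real.pi * (m + 1)) :
    X n ls c ζ y t = br n lh c ζ m (exp (Λ c (t + y * I))) := by
  have h3 := hL.lslh c ζ (t + y * I) m hc (by simpa using ht) (by simpa using hts)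
    (by simpa using h1) (by simpa using h2)
  unfold X br
  rw [h3]

lemma X_cont (hL : IsLog n Λ lh ls) (hc : Crit n Λ c ζ) {y : ℝ}
    (hy : ∀ m : ℤ, y ≠ ζ.im + 2 * Real.pi * m) :
    ContinuousOn (X n ls c ζ y) {t : ℝ | G n c 0 < t} := by
  have h1 := (hL.lsdiff c ζ hc).continuousOn
  have h2 : ContinuousOn (fun t : ℝ => ls c ζ (t + y * I)) {t : ℝ | G n c 0 < t} := by
    refine h1.comp ?_ (fun t ht => mem_SL hy ht)
    exact (Complex.continuous_ofReal.add continuous_const).continuousOn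
  unfold X
  exact (Complex.continuous_exp.comp_continuousOn (h2.div_const _))

lemma br_congr (hn : 2 ≤ n) {i j : ℤ} (h : (n : ℤ) ∣ i - j) (x : ℂ) :
    br n lh c ζ i x = br n lh c ζ j x := by
  have hn0 : (n : ℂ) ≠ 0 := by
    have : n ≠ 0 := by omega
    exact_mod_cast this
  obtain ⟨a, ha⟩ := h
  have hi : (i : ℂ) = j + n * a := by
    have : i = j + n * a := by omega
    rw [this]
    push_cast
    ring
  unfold br
  rw [hi]
  have e : (lh c ζ x + 2 * Real.pi * I * (j + n * a)) / n =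
      (lh c ζ x + 2 * Real.pi * I * j) / n + a * (2 * Real.pi * I) := by
    field_simp
    ring
  rw [e, exp_add, exp_int_mul_two_pi_mul_I, mul_one]

end pts

end DX_

open DX_ in
theorem p_DX (hSEG : T_SEG) (hKOE : T_KOE) (hTOR : T_TOR) (hCHV : T_CHV) (hBR : T_BR)
    (hGREEN : T_GREEN) (hFIXE : T_FIXE) : T_DX := by
  intro n hn
  obtain ⟨C, hC, hseg⟩ := hSEG n hn
  refine ⟨4 * Real.pi * C, by positivity, ?_⟩
  intro k Λ lh ls c ζ z α ε hk hB hL hc hζ6 hEx hCod hPer hz hDig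
  obtain ⟨gcont, gnn, gfun, -, -, gmm, gcc, -⟩ := hGREEN n hn
  obtain ⟨hbr1, hbr2, hbr3, -, -, hbr6, hbr7⟩ := hBR n Λ lh ls c ζ hn hB hL hc
  obtain ⟨ka, hkad, hkai, hkaz, hkag⟩ := hKOE n k Λ lh ls c ζ z ε hn hk hB hL hc hPer hz hDig
  obtain ⟨hrho, hGz, -⟩ := (hFIXE n k Λ lh ls c ζ hn hk hB hL hc).2 z hz
  set lam := Rho n k c z with hlam
  have hlam0 : lam ≠ 0 := by
    intro h
    rw [h, norm_zero] at hrho
    linarith
  set s : ℝ := ζ.re with hs
  have hn0 : n ≠ 0 := by omega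
  have hnC : (n : ℂ) ≠ 0 := by exact_mod_cast hn0
  have hnR : (0 : ℝ) < n := by exact_mod_cast (by omega : 0 < n)
  have hn1 : (1 : ℝ) < n := by exact_mod_cast (by omega : 1 < n)
  have hsG : s = G n c c := hc.2.1
  have hG0 : G n c 0 = s / n := by
    rw [hsG, gcc c, mul_div_cancel_left₀ _ hnR.ne']
  have hs0 : 0 < s := by
    have h1 : G n c 0 ≠ 0 := fun h => hc.1 ((gmm c).2 h)
    have h2 := gnn c 0
    have h3 : 0 < G n c 0 := lt_of_le_of_ne h2 (Ne.symm h1)
    rw [hG0] at h3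
    by_contra hcon
    push Not at hcon
    have : s / n ≤ 0 := div_nonpos_of_nonpos_of_nonneg hcon hnR.le
    linarith
  set r : ℝ := √n with hr
  have hr0 : 0 < r := Real.sqrt_pos.2 hnR
  have hrr : r * r = n := Real.mul_self_sqrt hnR.le
  have hr1 : 1 < r := by
    by_contra hcon
    push Not at hcon
    nlinarith
  have hrn : r < n := by nlinarith
  have hsr : G n c 0 < s / r := by
    rw [hG0]
    exact div_lt_div_of_pos_left hs0 hr0 hrn
  -- the set Ω
  set Om : Set ℂ := {x : ℂ | G n c x < s} with hOm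
  have hOmo : IsOpen Om := by
    have h1 : Continuous (fun x : ℂ => G n c x) := by
      exact gcont.comp (continuous_const.prodMk continuous_id)
    exact isOpen_lt h1 continuous_const
  set Os : Set ℂ := {x : ℂ | s / (n : ℝ) ^ 2 < G n c x ∧ G n c x < s} with hOs
  have hOso : IsOpen Os := by
    have h1 : Continuous (fun x : ℂ => G n c x) := by
      exact gcont.comp (continuous_const.prodMk continuous_id)
    exact (isOpen_lt continuous_const h1).inter (isOpen_lt h1 continuous_const)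
  have hOsOm : Os ⊆ Om := fun x hx => hx.2
  have hOspos : ∀ x ∈ Os, 0 < G n c x := by
    intro x hx
    have : 0 < s / (n : ℝ) ^ 2 := by positivity
    exact this.trans hx.1
  -- the maps g_j
  have hgG : ∀ (j : ℕ) (x : ℂ), x ∈ Om → G n c (brw n lh c ζ ε j x) = G n c x / (n : ℝ) ^ j :=
    fun j x hx => (hbr6 ε j x hx).2
  have hgOm : ∀ (j : ℕ) (x : ℂ), x ∈ Om → brw n lh c ζ ε j x ∈ Om := by
    intro j x hx
    change G n c _ < s
    rw [hgG j x hx]
    have h1 : G n c x / (n : ℝ) ^ j ≤ G n c x :=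
      div_le_self (gnn c x) (one_le_pow₀ hn1.le)
    exact lt_of_le_of_lt h1 hx
  set K : ℕ → ℂ → ℂ := fun j x => ka (brw n lh c ζ ε j x) with hK
  have hKd : ∀ j, DifferentiableOn ℂ (K j) Om := fun j =>
    hkad.comp (hbr7 ε j).1 (hgOm j)
  have hKi : ∀ j, InjOn (K j) Om := by
    intro j x hx y hy hxy
    exact (hbr7 ε j).2 hx hy (hkai (hgOm j x hx) (hgOm j y hy) hxy)
  have hka0 : ∀ x ∈ Om, 0 < G n c x → ka x ≠ 0 := by
    intro x hx hGx h
    have hzOm : z ∈ Om := by
      change G n c z < s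
      rw [hGz]; exact hs0
    have := hkai hx hzOm (h.trans hkaz.symm)
    rw [this, hGz] at hGx
    exact lt_irrefl _ hGx
  have hK0 : ∀ j, ∀ x : ℂ, G n c x < s → 0 < G n c x → K j x ≠ 0 := by
    intro j x hx hGx
    apply hka0 _ (hgOm j x hx)
    rw [hgG j x hx]
    positivity
  have hKsucc : ∀ (j : ℕ) (x : ℂ), K j (br n lh c ζ (ε j) x) = K (j + 1) x := fun j x => rfl
  have hKk : ∀ x ∈ Om, K k x * lam = K 0 x := fun x hx => hkag x hx
  -- the angles
  set y : ℕ → ℝ := fun j => 2 * Real.pi * ((n : ℝ) ^ (j + 1) * α) with hy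
  have hpi := Real.pi_pos
  have hynot : ∀ j, ∀ m : ℤ, y j ≠ ζ.im + 2 * Real.pi * m := by
    intro j m h
    apply hCod.1 (j + 1) (by omega)
    refine ⟨m, ?_⟩
    have h1 : (n : ℝ) ^ (j + 1) * α = ζ.im / (2 * Real.pi) + m := by
      simp only [hy] at h
      field_simp
      linarith
    rw [h1]
    ring
  -- points on the curves
  have hXOm : ∀ (j : ℕ) (t : ℝ), s / r ≤ t → t ≤ s * r →
      X n ls c ζ (y j) t ∈ Om ∧ 0 < G n c (X n ls c ζ (y j) t) := by
    intro j t ht1 ht2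
    have ht0 : G n c 0 < t := lt_of_lt_of_le hsr ht1
    have h1 := X_F hn hL hc (hynot j) ht0
    have h2 := gfun c (X n ls c ζ (y j) t)
    rw [h1, hB.green c _ (by simpa using ht0)] at h2
    have h3 : G n c (X n ls c ζ (y j) t) = t / n := by
      rw [eq_div_iff hnR.ne', mul_comm]
      simpa using h2.symm
    have ht00 : 0 < t := lt_of_lt_of_le (by positivity) ht1
    constructor
    · change G n c _ < s
      rw [h3, div_lt_iff₀ hnR]
      calc t ≤ s * r := ht2
        _ < s * n := by gcongr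
    · rw [h3]; positivity
  -- top and bottom
  have htop : ∀ j : ℕ, X n ls c ζ (y j) (s * r) =
      exp (Λ c ((s / r : ℝ) + (2 * Real.pi * ((n : ℝ) ^ j * α) : ℝ) * I)) := by
    intro j
    have h1 := X_top (y := 2 * Real.pi * ((n : ℝ) ^ j * α)) hn hL hc hsr
    have e1 : (n : ℝ) * (2 * Real.pi * ((n : ℝ) ^ j * α)) = y j := by
      simp only [hy]; ring
    have e2 : (n : ℝ) * (s / r) = s * r := by
      rw [← hrr]
      field_simp
    rw [e1, e2] at h1
    exact h1
  have hbot : ∀ j : ℕ, X n ls c ζ (y j) (s / r) =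
      br n lh c ζ (ε j) (X n ls c ζ (y (j + 1)) (s * r)) := by
    intro j
    set m : ℤ := ⌊(n : ℝ) ^ (j + 1) * α - ζ.im / (2 * Real.pi)⌋ with hm
    have h1 : ζ.im + 2 * Real.pi * m < y j := by
      have h2 : (m : ℝ) ≤ (n : ℝ) ^ (j + 1) * α - ζ.im / (2 * Real.pi) := Int.floor_le _
      have h3 : ζ.im + 2 * Real.pi * m ≤ y j := by
        simp only [hy]
        have h4 : 2 * Real.pi * (ζ.im / (2 * Real.pi)) = ζ.im := by field_simp
        nlinarith [mul_le_mul_of_nonneg_left h2 (by positivity : (0:ℝ) ≤ 2 * Real.pi)]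
      exact lt_of_le_of_ne h3 (Ne.symm (hynot j m))
    have h2 : y j < ζ.im + 2 * Real.pi * (m + 1) := by
      have h3 : (n : ℝ) ^ (j + 1) * α - ζ.im / (2 * Real.pi) < m + 1 := Int.lt_floor_add_one _
      simp only [hy]
      have h4 : 2 * Real.pi * (ζ.im / (2 * Real.pi)) = ζ.im := by field_simp
      nlinarith [mul_lt_mul_of_pos_left h3 (by positivity : (0:ℝ) < 2 * Real.pi)]
    have hsrs : s / r < ζ.re := div_lt_self hs0 hr1
    rw [X_bot hL hc m hsr hsrs h1 h2, htop (j + 1)]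
    rw [br_congr hn (hCod.2 j)]
  -- logarithms
  have hint : ∀ t ∈ Icc (s / r) (s * r), G n c 0 < t := fun t ht => lt_of_lt_of_le hsr ht.1
  have hsr2 : s / r ≤ s * r := by
    rw [div_le_iff₀ hr0]
    nlinarith [mul_pos hs0 hr0]
  have hlog : ∀ j, ∃ L : ℝ → ℂ, ContinuousOn L (Icc (s / r) (s * r)) ∧
      ∀ t ∈ Icc (s / r) (s * r), exp (L t) = K j (X n ls c ζ (y j) t) := by
    intro j
    refine exists_log hsr2 ?_ ?_
    · refine (hKd j).continuousOn.comp ((X_cont hL hc (hynot j)).mono hint) ?_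
      intro t ht
      exact (hXOm j t ht.1 ht.2).1
    · intro t ht
      obtain ⟨h1, h2⟩ := hXOm j t ht.1 ht.2
      exact hK0 j _ h1 h2
  choose L hLc hLe using hlog
  set v : ℕ → ℂ := fun j => L j (s * r) - L j (s / r) with hv
  have hmem1 : s / r ∈ Icc (s / r) (s * r) := ⟨le_rfl, hsr2⟩
  have hmem2 : s * r ∈ Icc (s / r) (s * r) := ⟨hsr2, le_rfl⟩
  -- telescoping
  have htel : ∀ m : ℕ, exp (∑ j ∈ Finset.range m, v j) * K m (X n ls c ζ (y m) (s * r)) =
      K 0 (X n ls c ζ (y 0) (s * r)) := by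
    intro m
    induction m with
    | zero => simp
    | succ m ih =>
      rw [Finset.sum_range_succ, exp_add, ← ih, mul_assoc]
      congr 1
      have h1 : exp (v m) * K m (X n ls c ζ (y m) (s / r)) = K m (X n ls c ζ (y m) (s * r)) := by
        simp only [hv]
        rw [exp_sub, hLe m _ hmem2, hLe m _ hmem1]
        obtain ⟨h2, h3⟩ := hXOm m (s / r) le_rfl hsr2
        field_simp [hK0 m _ h2 h3]
      rw [← h1, hbot m, hKsucc]
  have hperX : X n ls c ζ (y k) (s * r) = X n ls c ζ (y 0) (s * r) := by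
    rw [htop, htop]
    obtain ⟨-, ⟨m, hm⟩, -⟩ := hEx
    rw [mul_one] at hm
    have e : ((s / r : ℝ) : ℂ) + ((2 * Real.pi * ((n : ℝ) ^ k * α) : ℝ) : ℂ) * I =
        (((s / r : ℝ) : ℂ) + ((2 * Real.pi * ((n : ℝ) ^ 0 * α) : ℝ) : ℂ) * I) +
          2 * Real.pi * I * m := by
      have h1 : (n : ℝ) ^ k * α = α + m := by linarith
      rw [h1]
      push_cast
      ring
    rw [e, lam_per hn hB c _ (by simpa using hsr) m, exp_add]
    have e2 : (2 : ℂ) * Real.pi * I * m = m * (2 * Real.pi * I) := by ring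
    rw [e2, exp_int_mul_two_pi_mul_I, mul_one]
  set μ : ℂ := ∑ j ∈ Finset.range k, v j with hμ
  have hexpμ : exp μ = lam := by
    have h1 := htel k
    rw [hperX] at h1
    obtain ⟨h2, h3⟩ := hXOm 0 (s * r) hsr2 le_rfl
    have h4 := hKk _ h2
    have h5 : K k (X n ls c ζ (y 0) (s * r)) ≠ 0 := hK0 k _ h2 h3
    rw [← h4, mul_comm (K k _) lam] at h1
    exact mul_right_cancel₀ h5 h1
  refine ⟨μ, hexpμ, ?_⟩
  -- the estimate
  set I1 : ℕ → ENNReal := fun j => ∫⁻ x in Os, ‖deriv (K j) x / K j x‖ₑ ^ 2 with hI1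
  have hsegj : ∀ j, ENNReal.ofReal (‖v j‖ ^ 2) ≤ ENNReal.ofReal C * I1 j := by
    intro j
    exact hseg Λ lh ls c ζ (y j) (K j) (L j) hB hL hc hζ6 (hynot j) (hKd j) (hKi j) (hK0 j)
      (hLc j) (hLe j)
  set E : Fin k → Set ℂ := fun j => K j '' Os with hE
  have hEint : ∀ j : Fin k, ∫⁻ w in E j, (‖w‖ₑ ^ 2)⁻¹ = I1 j := by
    intro j
    simp only [hE, hI1]
    rw [hCHV Os (K j) (fun w => (‖w‖ₑ ^ 2)⁻¹) hOso ((hKd j).mono hOsOm) ((hKi j).mono hOsOm)]
    refine setLIntegral_congr_fun hOso.measurableSet fun x hx => ?_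
    have h1 : K j x ≠ 0 := hK0 j x (hOsOm hx) (hOspos x hx)
    rw [div_eq_mul_inv, enorm_mul, mul_pow, enorm_inv h1, ENNReal.inv_pow]
  have htor : ∑ j, ∫⁻ w in E j, (‖w‖ₑ ^ 2)⁻¹ ≤
      ENNReal.ofReal ((2 : ℕ) * (2 * Real.pi * Real.log ‖lam‖)) := by
    refine hTOR lam k 2 E hrho ?_ ?_ ?_
    · intro j
      exact hOso.measurableSet.image_of_continuousOn_injOn
        (((hKd j).mono hOsOm).continuousOn) ((hKi j).mono hOsOm)
    · rintro j ⟨x, hx, hx0⟩
      exact hK0 j x (hOsOm hx) (hOspos x hx) hx0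
    · intro w hw P hP
      -- iterates of g
      have hgit : ∀ (m : ℕ) (U : ℂ), U ∈ Om → (brw n lh c ζ ε k)^[m] U ∈ Om ∧
          ka ((brw n lh c ζ ε k)^[m] U) * lam ^ m = ka U ∧
          G n c ((brw n lh c ζ ε k)^[m] U) = G n c U / (n : ℝ) ^ (k * m) := by
        intro m
        induction m with
        | zero => intro U hU; simp [hU]
        | succ m ih =>
          intro U hU
          obtain ⟨h1, h2, h3⟩ := ih U hU
          rw [Function.iterate_succ_apply']
          refine ⟨hgOm k _ h1, ?_, ?_⟩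
          · rw [← h2, ← hkag _ h1]
            ring
          · rw [hgG k _ h1, h3, mul_add, mul_one, pow_add]
            field_simp
      have hcomp : ∀ (U U' : ℂ) (i i' : ℤ), U ∈ Om → U' ∈ Om → i' ≤ i → lam ^ i * w = ka U →
          lam ^ i' * w = ka U' → G n c U * (n : ℝ) ^ (-(k * i) : ℤ) =
            G n c U' * (n : ℝ) ^ (-(k * i') : ℤ) := by
        intro U U' i i' hU hU' hii h1 h2
        obtain ⟨m, hm⟩ : ∃ m : ℕ, i = i' + m := ⟨(i - i').toNat, by omega⟩
        obtain ⟨h3, h4, h5⟩ := hgit m U hU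
        have h6 : ka U' = ka ((brw n lh c ζ ε k)^[m] U) := by
          have h7 : ka ((brw n lh c ζ ε k)^[m] U) * lam ^ m = ka U' * lam ^ m := by
            rw [h4, ← h1, ← h2, hm, zpow_add₀ hlam0, zpow_natCast]
            ring
          exact (mul_right_cancel₀ (pow_ne_zero _ hlam0) h7).symm
        have h7 := hkai hU' h3 h6
        rw [h7, h5, hm]
        have e : (-((k : ℤ) * (i' + m)) : ℤ) = -(k * i') - ((k * m : ℕ) : ℤ) := by
          push_cast; ring
        rw [e, zpow_sub₀ hnR.ne', zpow_natCast]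
        ring
      choose! u hu using fun (p : Fin k × ℤ) (hp : p ∈ P) => hP p hp
      rcases P.eq_empty_or_nonempty with hPe | ⟨p0, hp0⟩
      · rw [hPe]; simp
      set U : Fin k × ℤ → ℂ := fun p => brw n lh c ζ ε p.1 (u p) with hU
      have hUOm : ∀ p ∈ P, U p ∈ Om := fun p hp => hgOm _ _ (hOsOm (hu p hp).1)
      have hUw : ∀ p ∈ P, lam ^ p.2 * w = ka (U p) := fun p hp => (hu p hp).2.symm
      set q : ℝ := G n c (U p0) * (n : ℝ) ^ (-(k * p0.2) : ℤ) with hq
      have hqall : ∀ p ∈ P, G n c (U p) * (n : ℝ) ^ (-(k * p.2) : ℤ) = q := by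
        intro p hp
        rcases le_total p.2 p0.2 with h | h
        · exact (hcomp (U p0) (U p) p0.2 p.2 (hUOm p0 hp0) (hUOm p hp) h (hUw p0 hp0)
            (hUw p hp)).symm
        · exact hcomp (U p) (U p0) p.2 p0.2 (hUOm p hp) (hUOm p0 hp0) h (hUw p hp) (hUw p0 hp0)
      refine card_le_two n hn s q hs0 P ?_
      intro p hp
      have h1 := hu p hp
      have h2 : G n c (U p) = G n c (u p) / (n : ℝ) ^ (p.1 : ℕ) := hgG _ _ (hOsOm h1.1)
      have h3 : q * (n : ℝ) ^ ((k : ℤ) * p.2 + (p.1 : ℕ)) = G n c (u p) := by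
        rw [← hqall p hp, h2, zpow_add₀ hnR.ne', zpow_natCast, zpow_neg]
        field_simp
      rw [h3]
      exact h1.1
  have hsum : ENNReal.ofReal (∑ j ∈ Finset.range k, ‖v j‖ ^ 2) ≤
      ENNReal.ofReal (C * (2 * (2 * Real.pi * Real.log ‖lam‖))) := by
    rw [ENNReal.ofReal_sum_of_nonneg (fun j _ => by positivity)]
    calc ∑ j ∈ Finset.range k, ENNReal.ofReal (‖v j‖ ^ 2)
        ≤ ∑ j ∈ Finset.range k, ENNReal.ofReal C * I1 j := Finset.sum_le_sum fun j _ => hsegj j
      _ = ENNReal.ofReal C * ∑ j : Fin k, I1 j := by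
          rw [← Finset.mul_sum, Finset.sum_range]
      _ = ENNReal.ofReal C * ∑ j : Fin k, ∫⁻ w in E j, (‖w‖ₑ ^ 2)⁻¹ := by
          congr 1
          exact Finset.sum_congr rfl fun j _ => (hEint j).symm
      _ ≤ ENNReal.ofReal C * ENNReal.ofReal ((2 : ℕ) * (2 * Real.pi * Real.log ‖lam‖)) := by
          gcongr
      _ = ENNReal.ofReal (C * (2 * (2 * Real.pi * Real.log ‖lam‖))) := by
          rw [← ENNReal.ofReal_mul hC.le]
          norm_num
  have hlog0 : 0 ≤ Real.log ‖lam‖ := Real.log_nonneg hrho.le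
  have hsum' : ∑ j ∈ Finset.range k, ‖v j‖ ^ 2 ≤ C * (2 * (2 * Real.pi * Real.log ‖lam‖)) :=
    (ENNReal.ofReal_le_ofReal_iff (by positivity)).1 hsum
  have hre : μ.re = Real.log ‖lam‖ := by
    rw [← hexpμ, norm_exp, Real.log_exp]
  have hcs : ‖μ‖ ^ 2 ≤ k * ∑ j ∈ Finset.range k, ‖v j‖ ^ 2 := by
    have h1 : ‖μ‖ ≤ ∑ j ∈ Finset.range k, ‖v j‖ := norm_sum_le _ _
    have h2 : (∑ j ∈ Finset.range k, ‖v j‖) ^ 2 ≤
        (Finset.range k).card * ∑ j ∈ Finset.range k, ‖v j‖ ^ 2 := sq_sum_le_card_mul_sum_sq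
    rw [Finset.card_range] at h2
    exact (pow_le_pow_left₀ (norm_nonneg _) h1 2).trans h2
  calc ‖μ‖ ^ 2 ≤ k * ∑ j ∈ Finset.range k, ‖v j‖ ^ 2 := hcs
    _ ≤ k * (C * (2 * (2 * Real.pi * Real.log ‖lam‖))) := by gcongr
    _ = 4 * Real.pi * C * k * μ.re := by rw [hre]; ring

end Pool.Agent.PLim
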