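import Pool.Agent.PLim.Targets
import Pool.Agent.Limb.AREA
import Pool.Agent.Limb.LAND

/-!
# PLIM: EM, the parametrization of a component in the linearizing plane
-/

set_option autoImplicit false

open Complex Filter Topology Set
open Pool.Agent.Multibrot Pool.Agent.Limb Pool.Agent.Limb.LAND_

namespace Pool.Agent.PLim.EM_

lemma G_iter (hG : T_GREEN) {n : ℕ} (hn : 2 ≤ n) (c z : ℂ) (m : ℕ) :
    G n c ((F n c)^[m] z) = (n : ℝ) ^ m * G n c z := by
  induction m with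
  | zero => simp
  | succ m ih =>
    rw [Function.iterate_succ_apply', (hG n hn).2.2.1, ih]; ring

lemma G_fix (hG : T_GREEN) {n k : ℕ} (hn : 2 ≤ n) (hk : 1 ≤ k) {c z : ℂ}
    (hz : (F n c)^[k] z = z) : G n c z = 0 := by
  have h1 := G_iter hG hn c z k
  rw [hz] at h1
  have h2 : (1 : ℝ) < (n : ℝ) ^ k := one_lt_pow₀ (by exact_mod_cast (by omega : 1 < n)) (by omega)
  have h3 : ((n : ℝ) ^ k - 1) * G n c z = 0 := by linarith
  rcases mul_eq_zero.1 h3 with h | h
  · linarith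
  · exact h

lemma F_diff (n : ℕ) (c : ℂ) : Differentiable ℂ (F n c) := by
  unfold F; fun_prop

lemma exists_pos (hG : T_GREEN) {n k : ℕ} (hn : 2 ≤ n) {c z : ℂ} {r : ℝ} (hr : 0 < r)
    (hz : (F n c)^[k] z = z) (hl : 1 < ‖Rho n k c z‖) :
    ∃ x ∈ Metric.ball z r, 0 < G n c x := by
  by_contra hcon
  push Not at hcon
  have hbd : ∀ x ∈ Metric.ball z r, ∀ j : ℕ, ‖(F n c)^[j] x‖ ≤ 1 + ‖c‖ := by
    intro x hx j
    have h0 : G n c x = 0 := le_antisymm (hcon x hx) ((hG n hn).2.1 c x)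
    have h1 : G n c ((F n c)^[j] x) = 0 := by rw [G_iter hG hn, h0, mul_zero]
    have h2 := (hG n hn).2.2.2.1 c ((F n c)^[j] x)
    rw [h1, zero_sub, abs_neg, abs_of_nonneg Real.posLog_nonneg] at h2
    by_contra hlt
    push Not at hlt
    have : Real.log (1 + ‖c‖) < Real.posLog ‖(F n c)^[j] x‖ :=
      lt_of_lt_of_le (Real.log_lt_log (by positivity) hlt) (le_max_right _ _)
    linarith
  have hdf : Differentiable ℂ ((F n c)^[k]) := (F_diff n c).iterate k
  have hd : ∀ m : ℕ, HasDerivAt (((F n c)^[k])^[m]) (Rho n k c z ^ m) z := by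
    intro m
    have : HasDerivAt ((F n c)^[k]) (Rho n k c z) z := (hdf z).hasDerivAt
    exact HasDerivAt.iterate z this hz m
  have hle : ∀ m : ℕ, ‖Rho n k c z‖ ^ m ≤ (1 + ‖c‖) / (r / 2) := by
    intro m
    have := Complex.norm_deriv_le_of_forall_mem_sphere_norm_le (c := z) (R := r / 2)
      (C := 1 + ‖c‖) (f := ((F n c)^[k])^[m]) (by positivity)
      ((hdf.iterate m).diffContOnCl) (by
        intro x hx
        rw [← Function.iterate_mul]
        refine hbd x ?_ _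
        rw [mem_sphere_iff_norm] at hx
        rw [Metric.mem_ball, dist_eq_norm, hx]
        linarith)
    rw [(hd m).deriv, norm_pow] at this
    exact this
  obtain ⟨m, hm⟩ := pow_unbounded_of_one_lt ((1 + ‖c‖) / (r / 2)) hl
  linarith [hle m]

lemma close {n : ℕ} (hn : 2 ≤ n) {Λ : ℂ → ℂ → ℂ} (hE : IsExt n Λ) {c : ℂ} (hc : c ∈ MM n)
    {z : ℂ} {N : ℝ} (hN : 1 < N) {ζ : ℕ → ℂ} (h0 : 0 < (ζ 0).re)
    (hre : ∀ j, (ζ j).re = (ζ 0).re / N ^ j)
    (hl : Tendsto (fun j => exp (Λ c (ζ j))) atTop (𝓝 z)) {ρ ε : ℝ} (R : ℝ) (hρ : 0 < ρ)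
    (hε : 0 < ε) :
    ∃ J : ℕ, ∀ j, J ≤ j → ∀ ξ : ℂ, ρ ≤ ξ.re → ‖ξ‖ ≤ R →
      ‖exp (Λ c (ζ j + (ξ - ζ 0) / (N : ℂ) ^ j)) - z‖ < ε := by
  set ρ0 : ℝ := min ρ (ζ 0).re with hρ0
  have hρ0p : 0 < ρ0 := lt_min hρ h0
  set W : ℝ := |R| + ‖ζ 0‖ + 1 with hW
  have hWp : 0 < W := by positivity
  set ε' : ℝ := ε * ρ0 / (4 * W) with hε'
  have hε'p : 0 < ε' := by positivity
  obtain ⟨δ, hδ, hd⟩ := p_AREA n hn Λ hE c hc ε' hε'p
  have hN0 : 0 < N := by linarith
  have ev1 : ∀ᶠ j : ℕ in atTop, W / N ^ j < δ := by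
    have : Tendsto (fun j : ℕ => W / N ^ j) atTop (𝓝 0) :=
      (tendsto_pow_atTop_atTop_of_one_lt hN).const_div_atTop W
    exact this.eventually (gt_mem_nhds hδ)
  have ev2 : ∀ᶠ j : ℕ in atTop, ‖exp (Λ c (ζ j)) - z‖ < ε / 2 := by
    have := hl.eventually (Metric.ball_mem_nhds z (half_pos hε))
    filter_upwards [this] with j hj
    rwa [dist_eq_norm] at hj
  obtain ⟨J, hJ⟩ := eventually_atTop.1 (ev1.and ev2)
  refine ⟨J, fun j hj ξ hξ hξR => ?_⟩
  obtain ⟨h1, h2⟩ := hJ j hj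
  have hNj : 0 < N ^ j := by positivity
  have hcast : ((N : ℂ) ^ j) = ((N ^ j : ℝ) : ℂ) := by push_cast; ring
  have hare : (ζ j + (ξ - ζ 0) / (N : ℂ) ^ j).re = ξ.re / N ^ j := by
    rw [hcast, add_re, div_ofReal_re, sub_re, hre j]
    ring
  have hξW : ξ.re < W := by
    have := abs_le.1 (abs_re_le_norm ξ)
    have h3 := le_abs_self R
    have h4 := norm_nonneg (ζ 0)
    linarith [this.2]
  have hζW : (ζ 0).re < W := by
    have := abs_le.1 (abs_re_le_norm (ζ 0))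
    have h3 := abs_nonneg R
    linarith [this.2]
  have hmem : ∀ s : ℂ, s ∈ {s : ℂ | ρ0 / N ^ j ≤ s.re ∧ s.re < δ} → 0 < s.re := by
    intro s hs
    exact lt_of_lt_of_le (by positivity) hs.1
  have hmv := Convex.norm_image_sub_le_of_norm_deriv_le (f := fun s => exp (Λ c s))
    (C := ε' * N ^ j / ρ0) (s := {s : ℂ | ρ0 / N ^ j ≤ s.re ∧ s.re < δ})
    (x := ζ j) (y := ζ j + (ξ - ζ 0) / (N : ℂ) ^ j)
    (by
      intro s hs
      have h5 : DifferentiableAt ℂ (Λ c) s :=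
        (hE.diff c hc).differentiableAt ((isOpen_lt continuous_const continuous_re).mem_nhds
          (hmem s hs))
      exact h5.cexp)
    (by
      intro s hs
      have h5 := hd s (hmem s hs) hs.2
      have h6 : ‖deriv (fun s => exp (Λ c s)) s‖ ≤ ε' / s.re := by
        rw [le_div_iff₀ (hmem s hs)]; exact h5
      refine h6.trans ?_
      rw [div_le_div_iff₀ (hmem s hs) hρ0p]
      have h7 : ρ0 ≤ s.re * N ^ j := by
        have := hs.1
        rwa [div_le_iff₀ hNj] at this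
      calc ε' * ρ0 ≤ ε' * (s.re * N ^ j) := by gcongr
        _ = ε' * N ^ j * s.re := by ring)
    (by
      have h5 : {s : ℂ | ρ0 / N ^ j ≤ s.re ∧ s.re < δ} =
          {s : ℂ | ρ0 / N ^ j ≤ s.re} ∩ {s : ℂ | s.re < δ} := rfl
      rw [h5]
      exact (convex_halfSpace_re_ge _).inter (convex_halfSpace_re_lt _))
    (by
      refine ⟨?_, ?_⟩
      · rw [hre j]; gcongr; exact min_le_right _ _
      · rw [hre j]
        refine lt_of_le_of_lt ?_ h1
        gcongr)
    (by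
      refine ⟨?_, ?_⟩
      · rw [hare]; gcongr; exact (min_le_left _ _).trans hξ
      · rw [hare]
        refine lt_of_le_of_lt ?_ h1
        gcongr)
  have h8 : ‖ζ j + (ξ - ζ 0) / (N : ℂ) ^ j - ζ j‖ ≤ W / N ^ j := by
    rw [add_sub_cancel_left, norm_div, hcast, Complex.norm_real, Real.norm_eq_abs,
      abs_of_pos hNj]
    gcongr
    refine (norm_sub_le _ _).trans ?_
    have h3 := le_abs_self R
    linarith
  have h9 : ε' * N ^ j / ρ0 * (W / N ^ j) = ε / 4 := by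
    rw [hε']; field_simp
  have h10 : ‖exp (Λ c (ζ j + (ξ - ζ 0) / (N : ℂ) ^ j)) - exp (Λ c (ζ j))‖ ≤ ε / 4 := by
    refine hmv.trans ?_
    rw [← h9]
    gcongr
  calc ‖exp (Λ c (ζ j + (ξ - ζ 0) / (N : ℂ) ^ j)) - z‖
      = ‖(exp (Λ c (ζ j + (ξ - ζ 0) / (N : ℂ) ^ j)) - exp (Λ c (ζ j))) +
          (exp (Λ c (ζ j)) - z)‖ := by congr 1; ring
    _ ≤ _ := norm_add_le _ _
    _ < ε := by linarith

end Pool.Agent.PLim.EM_

namespace Pool.Agent.PLim

open EM_

theorem p_EM (hIE : T_IE) (hG : T_GREEN) (hL : T_LIN) : T_EM := by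
  classical
  intro n k Λ c z hn hk hB hc hz hl
  have hE : IsExt n Λ := hIE n Λ hn hB
  have hGc0 : G n c 0 = 0 := ((hG n hn).2.2.2.2.2.1 c).1 hc
  obtain ⟨δ, r, η, zf, gi, ka0, -, -, hLin⟩ := hL n k c z 1 hn hk one_pos hz hl
  have hcδ : c ∈ Metric.ball c δ := Metric.mem_ball_self hLin.hδ
  have hzf : zf c = z := hLin.zf0
  have hr : 0 < r := hLin.hr
  set lam : ℂ := Rho n k c z with hlam
  have hlam0 : lam ≠ 0 := by
    intro h0
    rw [h0, norm_zero] at hl
    linarith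
  set g : ℂ → ℂ := gi c with hg
  set ka : ℂ → ℂ := ka0 c with hka
  set B : Set ℂ := Metric.ball z r with hBdef
  have hBz : ∀ w : ℂ, w ∈ B ↔ ‖w - z‖ < r := fun w => mem_ball_iff_norm
  have hzB : z ∈ B := Metric.mem_ball_self hr
  have finj : InjOn ((F n c)^[k]) B := hLin.inj c hcδ
  have gmem : ∀ x ∈ B, g x ∈ B := hLin.gimem c hcδ
  have ginv : ∀ x ∈ B, (F n c)^[k] (g x) = x := hLin.giinv c hcδ
  have gcon : ∀ x ∈ B, ‖g x - z‖ ≤ η * ‖x - z‖ := by
    intro x hx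
    have := hLin.gicon c hcδ x hx
    rwa [hzf] at this
  have kdiff : DifferentiableOn ℂ ka B := hLin.kadiff c hcδ
  have kinj : InjOn ka B := hLin.kainj c hcδ
  have kz : ka z = 0 := by
    have := hLin.kazf c hcδ
    rwa [hzf] at this
  have kder : deriv ka z = 1 := by
    have := hLin.kader c hcδ
    rwa [hzf] at this
  have kg : ∀ x ∈ B, ka (g x) * lam = ka x := by
    intro x hx
    have := hLin.kagi c hcδ x hx
    rwa [hzf] at this
  have hη0 := hLin.hη0
  have hη1 := hLin.hη1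
  set h : ℂ → ℂ := fun s => exp (Λ c s) with hh
  set N : ℝ := (n : ℝ) ^ k with hNdef
  have hN : 1 < N := one_lt_pow₀ (by exact_mod_cast (by omega : 1 < n)) (by omega)
  have hN0 : 0 < N := by linarith
  have hNc : (N : ℂ) = (n : ℂ) ^ k := by rw [hNdef]; push_cast; ring
  have hNc0 : (N : ℂ) ≠ 0 := by exact_mod_cast hN0.ne'
  have hGh : ∀ s : ℂ, 0 < s.re → G n c (h s) = s.re := fun s hs =>
    hB.green c s (by rw [hGc0]; exact hs)
  have hGz : G n c z = 0 := G_fix hG hn hk hz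
  have fit : ∀ s : ℂ, 0 < s.re → (F n c)^[k] (h s) = h ((N : ℂ) * s) := by
    intro s hs
    rw [hNc]
    exact iter_exp hn hE hc k s hs
  have hinj : ∀ s t : ℂ, 0 < s.re → 0 < t.re → h s = h t →
    ∃ b : ℤ, s - t = b * (2 * Real.pi * I) := hE.inj c hc
  have hGf : ∀ x : ℂ, G n c ((F n c)^[k] x) = N * G n c x := fun x => G_iter hG hn c x k
  obtain ⟨x0, hx0B, hx0⟩ := exists_pos hG hn hr hz hl
  set x : ℕ → ℂ := fun j => g^[j] x0 with hx
  have hxs : ∀ j, x (j + 1) = g (x j) := by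
    intro j
    rw [hx]
    exact Function.iterate_succ_apply' g j x0
  have hxB : ∀ j, x j ∈ B := by
    intro j
    induction j with
    | zero => exact hx0B
    | succ j ih => rw [hxs]; exact gmem _ ih
  have hxn : ∀ j, ‖x j - z‖ ≤ η ^ j * ‖x0 - z‖ := by
    intro j
    induction j with
    | zero => simp [hx]
    | succ j ih =>
      rw [hxs]
      refine (gcon _ (hxB j)).trans ?_
      calc η * ‖x j - z‖ ≤ η * (η ^ j * ‖x0 - z‖) := by gcongr
        _ = η ^ (j + 1) * ‖x0 - z‖ := by ring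
  have hxlim : Tendsto x atTop (𝓝 z) := by
    rw [tendsto_iff_norm_sub_tendsto_zero]
    have h1 : Tendsto (fun j : ℕ => η ^ j * ‖x0 - z‖) atTop (𝓝 0) := by
      have := (tendsto_pow_atTop_nhds_zero_of_lt_one hη0 hη1).mul_const ‖x0 - z‖
      simpa using this
    exact squeeze_zero (fun j => norm_nonneg _) hxn h1
  have hxf : ∀ j, (F n c)^[k] (x (j + 1)) = x j := by
    intro j
    rw [hxs, ginv _ (hxB j)]
  have hGx : ∀ j, G n c (x j) = G n c x0 / N ^ j := by
    intro j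
    induction j with
    | zero => simp [hx]
    | succ j ih =>
      have h1 := hGf (x (j + 1))
      rw [hxf, ih] at h1
      rw [pow_succ, eq_div_iff (by positivity)]
      have h2 : G n c x0 = N * G n c (x (j + 1)) * N ^ j := by
        rw [← h1]; field_simp
      rw [h2]; ring
  have hGxpos : ∀ j, 0 < G n c (x j) := by
    intro j
    rw [hGx]; positivity
  have hsur : ∀ j, ∃ s : ℂ, s.re = G n c (x j) ∧ h s = x j := by
    intro j
    exact hB.surj c (x j) (by rw [hGc0]; exact hGxpos j)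
  choose ζ hζre hζx using hsur
  have hζ0 : 0 < (ζ 0).re := by rw [hζre]; exact hGxpos 0
  have hζpos : ∀ j, 0 < (ζ j).re := by intro j; rw [hζre]; exact hGxpos j
  have hre : ∀ j, (ζ j).re = (ζ 0).re / N ^ j := by
    intro j
    rw [hζre, hζre, hGx, hGx 0]; simp
  have hst : ∀ j, ∃ m : ℤ, (N : ℂ) * ζ (j + 1) - ζ j = m * (2 * Real.pi * I) := by
    intro j
    refine hinj _ _ ?_ (hζpos j) ?_
    · have : ((N : ℂ) * ζ (j + 1)).re = N * (ζ (j + 1)).re := by simp
      rw [this]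
      exact mul_pos hN0 (hζpos _)
    · rw [← fit _ (hζpos _), hζx, hζx, hxf]
  choose m hm using hst
  set A : ℕ → ℂ → ℂ := fun j ξ => ζ j + (ξ - ζ 0) / (N : ℂ) ^ j with hA
  have hcast : ∀ j : ℕ, ((N : ℂ) ^ j) = ((N ^ j : ℝ) : ℂ) := by
    intro j; push_cast; ring
  have hAre : ∀ j ξ, (A j ξ).re = ξ.re / N ^ j := by
    intro j ξ
    show (ζ j + (ξ - ζ 0) / (N : ℂ) ^ j).re = ξ.re / N ^ j
    rw [hcast, add_re, div_ofReal_re, sub_re, hre j]
    ring
  have hApos : ∀ j (ξ : ℂ), 0 < ξ.re → 0 < (A j ξ).re := by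
    intro j ξ hξ
    rw [hAre]; positivity
  have hAstep : ∀ j ξ, (N : ℂ) * A (j + 1) ξ = A j ξ + m j * (2 * Real.pi * I) := by
    intro j ξ
    rw [← hm j]
    show (N : ℂ) * (ζ (j + 1) + (ξ - ζ 0) / (N : ℂ) ^ (j + 1)) =
      ζ j + (ξ - ζ 0) / (N : ℂ) ^ j + (N * ζ (j + 1) - ζ j)
    field_simp
    ring
  have hAf : ∀ j (ξ : ℂ), 0 < ξ.re → (F n c)^[k] (h (A (j + 1) ξ)) = h (A j ξ) := by
    intro j ξ hξ
    rw [fit _ (hApos _ _ hξ), hAstep]
    exact per_int hn hE hc (m j) _ (hApos _ _ hξ)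
  have hclose : ∀ ρ R ε : ℝ, 0 < ρ → 0 < ε → ∃ J : ℕ, ∀ j, J ≤ j → ∀ ξ : ℂ, ρ ≤ ξ.re →
      ‖ξ‖ ≤ R → ‖h (A j ξ) - z‖ < ε := by
    intro ρ R ε hρ hε
    refine close hn hE hc hN hζ0 hre ?_ R hρ hε
    have : (fun j => exp (Λ c (ζ j))) = x := by
      funext j; exact hζx j
    rw [this]; exact hxlim
  have hU : ∀ ρ R : ℝ, 0 < ρ → ∃ J : ℕ, ∀ j, J ≤ j → ∀ ξ : ℂ, ρ ≤ ξ.re →
      ‖ξ‖ ≤ R → h (A j ξ) ∈ B := by
    intro ρ R hρ
    obtain ⟨J, hJ⟩ := hclose ρ R r hρ hr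
    exact ⟨J, fun j hj ξ h1 h2 => (hBz _).2 (hJ j hj ξ h1 h2)⟩
  have hgA : ∀ j (ξ : ℂ), 0 < ξ.re → h (A j ξ) ∈ B → h (A (j + 1) ξ) ∈ B →
      h (A (j + 1) ξ) = g (h (A j ξ)) := by
    intro j ξ hξ h1 h2
    apply finj h2 (gmem _ h1)
    rw [hAf j ξ hξ, ginv _ h1]
  have hone : ∀ j (ξ : ℂ), 0 < ξ.re → h (A j ξ) ∈ B → h (A (j + 1) ξ) ∈ B →
      lam ^ (j + 1) * ka (h (A (j + 1) ξ)) = lam ^ j * ka (h (A j ξ)) := by
    intro j ξ hξ h1 h2
    rw [hgA j ξ hξ h1 h2, ← kg _ h1]; ring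
  have hind : ∀ j (ξ : ℂ), 0 < ξ.re → (∀ i, j ≤ i → h (A i ξ) ∈ B) → ∀ d,
      lam ^ (j + d) * ka (h (A (j + d) ξ)) = lam ^ j * ka (h (A j ξ)) := by
    intro j ξ hξ h1 d
    induction d with
    | zero => rfl
    | succ d ih =>
      rw [← ih, ← add_assoc]
      exact hone _ ξ hξ (h1 _ (by omega)) (h1 _ (by omega))
  have hlim : ∀ ξ : ℂ, 0 < ξ.re → ∃ e : ℂ, ∀ j, (∀ i, j ≤ i → h (A i ξ) ∈ B) →
      lam ^ j * ka (h (A j ξ)) = e := by
    intro ξ hξ
    obtain ⟨J, hJ⟩ := hU ξ.re ‖ξ‖ hξ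
    have hJ' : ∀ i, J ≤ i → h (A i ξ) ∈ B := fun i hi => hJ i hi ξ le_rfl le_rfl
    refine ⟨lam ^ J * ka (h (A J ξ)), fun j hj => ?_⟩
    rw [← hind j ξ hξ hj J, ← hind J ξ hξ hJ' j, add_comm j J]
  choose! E hEs using hlim
  have hEl : ∀ ξ : ℂ, 0 < ξ.re → ∃ J : ℕ, ∀ j, J ≤ j → h (A j ξ) ∈ B ∧
      lam ^ j * ka (h (A j ξ)) = E ξ := by
    intro ξ hξ
    obtain ⟨J, hJ⟩ := hU ξ.re ‖ξ‖ hξ
    refine ⟨J, fun j hj => ⟨hJ j hj ξ le_rfl le_rfl, ?_⟩⟩
    exact hEs ξ hξ j fun i hi => hJ i (hj.trans hi) ξ le_rfl le_rfl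
  -- logarithms of `N` and `lam`
  have hll : 0 < Real.log ‖lam‖ := Real.log_pos hl
  have hlN : 0 < Real.log N := Real.log_pos hN
  set D : ℝ := Real.log N / Real.log ‖lam‖ with hD
  have hDpos : 0 < D := div_pos hlN hll
  have hND : N = ‖lam‖ ^ D := by
    rw [Real.rpow_def_of_pos (by linarith), hD, mul_div_cancel₀ _ hll.ne', Real.exp_log hN0]
  -- the image of `ka`
  obtain ⟨r1, hr1, hr1B⟩ : ∃ r1 : ℝ, 0 < r1 ∧ ∀ w : ℂ, ‖w‖ < r1 → ∃ y ∈ B, ka y = w := by
    have hopen : IsOpen B := Metric.isOpen_ball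
    have hka' : HasStrictDerivAt ka 1 z := by
      have h1 : AnalyticAt ℂ ka z := kdiff.analyticAt (hopen.mem_nhds hzB)
      have h2 := h1.hasStrictDerivAt
      rwa [kder] at h2
    have h3 := hka'.map_nhds_eq one_ne_zero
    rw [kz] at h3
    have h4 : ka '' B ∈ 𝓝 (0 : ℂ) := by
      rw [← h3]
      exact image_mem_map (hopen.mem_nhds hzB)
    obtain ⟨r1, hr1, h5⟩ := Metric.mem_nhds_iff.1 h4
    refine ⟨r1, hr1, fun w hw => ?_⟩
    exact h5 (by rw [Metric.mem_ball, dist_zero_right]; exact hw)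
  set S : ℝ := Real.log (1 + ‖z‖ + r) + Real.log (1 + ‖c‖) with hS
  have hS0 : 0 ≤ S := by
    have h1 : 0 ≤ Real.log (1 + ‖z‖ + r) :=
      Real.log_nonneg (by have := norm_nonneg z; linarith)
    have h2 : 0 ≤ Real.log (1 + ‖c‖) := Real.log_nonneg (by have := norm_nonneg c; linarith)
    positivity
  have hSB : ∀ y ∈ B, G n c y ≤ S := by
    intro y hy
    have h1 := (abs_le.1 ((hG n hn).2.2.2.1 c y)).2
    have h2 : Real.posLog ‖y‖ ≤ Real.log (1 + ‖z‖ + r) := by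
      rw [Real.posLog_eq_log_max_one (norm_nonneg _)]
      apply Real.log_le_log (by positivity)
      have h3 : ‖y‖ ≤ ‖z‖ + r := by
        have h4 := (hBz y).1 hy
        have h5 : ‖y‖ ≤ ‖y - z‖ + ‖z‖ := by
          calc ‖y‖ = ‖(y - z) + z‖ := by congr 1; ring
            _ ≤ _ := norm_add_le _ _
        linarith
      refine max_le ?_ ?_
      · have := norm_nonneg z; linarith
      · linarith
    linarith
  refine ⟨E, S * (1 + N * (r1⁻¹) ^ D), D, ?_, ?_, ?_, hDpos, ?_, ?_⟩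
  · -- differentiability
    intro ξ0 hξ0
    have hξ0 : 0 < ξ0.re := hξ0
    obtain ⟨J, hJ⟩ := hU (ξ0.re / 2) (‖ξ0‖ + 1) (half_pos hξ0)
    have ev : ∀ᶠ ξ in 𝓝 ξ0, ξ0.re / 2 ≤ ξ.re ∧ ‖ξ‖ ≤ ‖ξ0‖ + 1 := by
      have h1 : ∀ᶠ ξ in 𝓝 ξ0, ξ0.re / 2 < ξ.re :=
        continuous_re.continuousAt.eventually (lt_mem_nhds (by linarith))
      have h2 : ∀ᶠ ξ : ℂ in 𝓝 ξ0, ‖ξ‖ < ‖ξ0‖ + 1 :=
        continuous_norm.continuousAt.eventually (gt_mem_nhds (by linarith))
      filter_upwards [h1, h2] with ξ a b using ⟨a.le, b.le⟩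
    have heq : E =ᶠ[𝓝 ξ0] fun ξ => lam ^ J * ka (h (A J ξ)) := by
      filter_upwards [ev] with ξ hξ
      exact (hEs ξ (by linarith [hξ.1]) J fun i hi => hJ i hi ξ hξ.1 hξ.2).symm
    have hd : DifferentiableAt ℂ (fun ξ => lam ^ J * ka (h (A J ξ))) ξ0 := by
      have h1 : DifferentiableAt ℂ (A J) ξ0 := by
        show DifferentiableAt ℂ (fun ξ => ζ J + (ξ - ζ 0) / (N : ℂ) ^ J) ξ0
        fun_prop
      have h2 : DifferentiableAt ℂ h (A J ξ0) := by
        have h5 : DifferentiableAt ℂ (Λ c) (A J ξ0) :=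
          (hE.diff c hc).differentiableAt ((isOpen_lt continuous_const continuous_re).mem_nhds
            (hApos J ξ0 hξ0))
        exact h5.cexp
      have h3 : DifferentiableAt ℂ ka (h (A J ξ0)) :=
        kdiff.differentiableAt (Metric.isOpen_ball.mem_nhds
          (hJ J le_rfl ξ0 (by linarith) (by linarith)))
      have h4 : DifferentiableAt ℂ (fun ξ => h (A J ξ)) ξ0 := h2.comp ξ0 h1
      have h5 : DifferentiableAt ℂ (fun ξ => ka (h (A J ξ))) ξ0 := h3.comp ξ0 h4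
      exact h5.const_mul _
    exact (heq.differentiableAt_iff.2 hd).differentiableWithinAt
  · -- injectivity
    intro ξ hξ ξ' hξ' he
    have hξ : 0 < ξ.re := hξ
    have hξ' : 0 < ξ'.re := hξ'
    obtain ⟨J, hJ⟩ := hEl ξ hξ
    obtain ⟨J', hJ'⟩ := hEl ξ' hξ'
    have hlimN : Tendsto (fun j : ℕ => ‖ξ - ξ'‖ / N ^ j) atTop (𝓝 0) :=
      (tendsto_pow_atTop_atTop_of_one_lt hN).const_div_atTop _
    obtain ⟨J'', hJ''⟩ := eventually_atTop.1
      (hlimN.eventually (gt_mem_nhds (by positivity : (0 : ℝ) < 2 * Real.pi)))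
    set j := max J (max J' J'') with hj
    obtain ⟨b1, e1⟩ := hJ j (le_max_left _ _)
    obtain ⟨b2, e2⟩ := hJ' j ((le_max_left _ _).trans (le_max_right _ _))
    have h1 := hJ'' j ((le_max_right _ _).trans (le_max_right _ _))
    have h2 : h (A j ξ) = h (A j ξ') := by
      apply kinj b1 b2
      have : lam ^ j * ka (h (A j ξ)) = lam ^ j * ka (h (A j ξ')) := by rw [e1, e2, he]
      exact mul_left_cancel₀ (pow_ne_zero _ hlam0) this
    obtain ⟨b, hb⟩ := hinj _ _ (hApos j ξ hξ) (hApos j ξ' hξ') h2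
    have h3 : A j ξ - A j ξ' = (ξ - ξ') / (N : ℂ) ^ j := by
      show ζ j + (ξ - ζ 0) / (N : ℂ) ^ j - (ζ j + (ξ' - ζ 0) / (N : ℂ) ^ j) = _
      ring
    rw [h3] at hb
    have h4 : ‖(ξ - ξ') / (N : ℂ) ^ j‖ = ‖ξ - ξ'‖ / N ^ j := by
      rw [norm_div, hcast, Complex.norm_real, Real.norm_eq_abs, abs_of_pos (by positivity)]
    have h5 : ‖(b : ℂ) * (2 * Real.pi * I)‖ = |(b : ℝ)| * (2 * Real.pi) := by
      rw [norm_mul, norm_mul, norm_mul, norm_I, Complex.norm_real, Real.norm_eq_abs,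
        abs_of_pos Real.pi_pos, Complex.norm_ofNat, mul_one]
      congr 1
      rw [show (b : ℂ) = ((b : ℝ) : ℂ) by push_cast; rfl, Complex.norm_real, Real.norm_eq_abs]
    rw [← h4, hb, h5] at h1
    have h6 : |(b : ℝ)| < 1 := by
      have : |(b : ℝ)| * (2 * Real.pi) < 1 * (2 * Real.pi) := by linarith
      exact lt_of_mul_lt_mul_right this (by positivity)
    have h7 : b = 0 := by
      have : |b| < 1 := by exact_mod_cast h6
      exact Int.abs_lt_one_iff.1 this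
    rw [h7] at hb
    have h8 : (ξ - ξ') / (N : ℂ) ^ j = 0 := by rw [hb]; simp
    rcases div_eq_zero_iff.1 h8 with h9 | h9
    · exact sub_eq_zero.1 h9
    · exact absurd h9 (pow_ne_zero _ hNc0)
  · -- nonvanishing
    intro ξ hξ h0
    obtain ⟨J, hJ⟩ := hEl ξ hξ
    obtain ⟨b1, e1⟩ := hJ J le_rfl
    rw [h0] at e1
    have h1 : ka (h (A J ξ)) = ka z := by
      rw [kz]
      rcases mul_eq_zero.1 e1 with h2 | h2
      · exact absurd h2 (pow_ne_zero _ hlam0)
      · exact h2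
    have h2 : h (A J ξ) = z := kinj b1 hzB h1
    have h3 := hGh (A J ξ) (hApos J ξ hξ)
    rw [h2, hGz] at h3
    have := hApos J ξ hξ
    linarith
  · -- growth
    intro ξ hξ
    have hex : ∃ j : ℕ, ‖E ξ‖ < r1 * ‖lam‖ ^ j := by
      obtain ⟨j, hj⟩ := pow_unbounded_of_one_lt (‖E ξ‖ / r1) hl
      exact ⟨j, by rwa [div_lt_iff₀' hr1] at hj⟩
    have hj := Nat.find_spec hex
    have hjmin : ∀ i, i < Nat.find hex → ¬ ‖E ξ‖ < r1 * ‖lam‖ ^ i := fun i hi =>
      Nat.find_min hex hi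
    set j := Nat.find hex with hjdef
    have hlj : 0 < ‖lam‖ ^ j := by positivity
    obtain ⟨y, hyB, hy⟩ := hr1B (E ξ / lam ^ j) (by
      rw [norm_div, norm_pow, div_lt_iff₀ hlj]; exact hj)
    have hGy : G n c y = ξ.re / N ^ j := by
      obtain ⟨J, hJ⟩ := hEl ξ hξ
      obtain ⟨b1, e1⟩ := hJ (j + J) (by omega)
      have h1 : ∀ i : ℕ, g^[i] y ∈ B ∧ ka (g^[i] y) * lam ^ i = ka y ∧
          N ^ i * G n c (g^[i] y) = G n c y := by
        intro i
        induction i with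
        | zero => simp [hyB]
        | succ i ih =>
          obtain ⟨a1, a2, a3⟩ := ih
          rw [Function.iterate_succ_apply']
          refine ⟨gmem _ a1, ?_, ?_⟩
          · rw [← a2, ← kg _ a1]; ring
          · rw [← a3]
            have := hGf (g (g^[i] y))
            rw [ginv _ a1] at this
            rw [this]; ring
      obtain ⟨a1, a2, a3⟩ := h1 J
      have h2 : g^[J] y = h (A (j + J) ξ) := by
        apply kinj a1 b1
        have h3 : ka (g^[J] y) * lam ^ J * lam ^ j = lam ^ (j + J) * ka (h (A (j + J) ξ)) := by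
          rw [a2, e1, hy]; field_simp
        have h4 : lam ^ (j + J) * ka (g^[J] y) = lam ^ (j + J) * ka (h (A (j + J) ξ)) := by
          rw [← h3]; ring
        exact mul_left_cancel₀ (pow_ne_zero _ hlam0) h4
      rw [h2, hGh _ (hApos _ ξ hξ), hAre] at a3
      rw [← a3]; field_simp; ring
    have h1 : ξ.re ≤ S * N ^ j := by
      have := hSB y hyB
      rw [hGy, div_le_iff₀ (by positivity)] at this
      exact this
    have hM1 : (1 : ℝ) ≤ (max 1 ‖E ξ‖) ^ D := Real.one_le_rpow (le_max_left _ _) hDpos.le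
    have hrD : 0 ≤ (r1⁻¹) ^ D := by positivity
    rcases Nat.eq_zero_or_pos j with h0 | h0
    · rw [h0, pow_zero, mul_one] at h1
      calc ξ.re ≤ S * 1 * 1 := by linarith
        _ ≤ S * (1 + N * r1⁻¹ ^ D) * (max 1 ‖E ξ‖) ^ D := by
          gcongr
          have := mul_nonneg hN0.le hrD
          linarith
    · obtain ⟨i, hi⟩ : ∃ i, j = i + 1 := ⟨j - 1, by omega⟩
      have h2 := hjmin i (by omega)
      push Not at h2
      have h3 : N ^ i ≤ (r1⁻¹) ^ D * (max 1 ‖E ξ‖) ^ D := by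
        rw [← Real.mul_rpow (by positivity) (by positivity), hND, ← Real.rpow_natCast,
          ← Real.rpow_mul (by positivity), mul_comm D, Real.rpow_mul (by positivity),
          Real.rpow_natCast]
        apply Real.rpow_le_rpow (by positivity) _ hDpos.le
        rw [inv_mul_eq_div, le_div_iff₀ hr1]
        calc ‖lam‖ ^ i * r1 = r1 * ‖lam‖ ^ i := by ring
          _ ≤ ‖E ξ‖ := h2
          _ ≤ _ := le_max_right _ _
      calc ξ.re ≤ S * N ^ j := h1
        _ = S * (N * N ^ i) := by rw [hi, pow_succ]; ring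
        _ ≤ S * (N * ((r1⁻¹) ^ D * (max 1 ‖E ξ‖) ^ D)) := by gcongr
        _ ≤ S * (1 + N * r1⁻¹ ^ D) * (max 1 ‖E ξ‖) ^ D := by
          have h4 : 0 ≤ S * (max 1 ‖E ξ‖) ^ D := by positivity
          nlinarith
  · -- coincidences
    intro ξ ξ' q hξ hξ' hq he
    obtain ⟨J, hJ⟩ := hEl ξ hξ
    obtain ⟨J', hJ'⟩ := hEl ξ' hξ'
    set j := max J J' with hj
    have hb : ∀ i, ∃ b : ℤ, A (j + i + q) ξ' - A (j + i) ξ = b * (2 * Real.pi * I) := by
      intro i
      have hjJ : J ≤ j := le_max_left _ _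
      have hjJ' : J' ≤ j := le_max_right _ _
      obtain ⟨b1, e1⟩ := hJ (j + i) (by omega)
      obtain ⟨b2, e2⟩ := hJ' (j + i + q) (by omega)
      refine hinj _ _ (hApos _ _ hξ') (hApos _ _ hξ) (kinj b2 b1 ?_)
      rw [he, ← e1, pow_add] at e2
      have h1 : lam ^ (j + i) * lam ^ q ≠ 0 :=
        mul_ne_zero (pow_ne_zero _ hlam0) (pow_ne_zero _ hlam0)
      apply mul_left_cancel₀ h1
      rw [e2]; ring
    choose b hb' using hb
    have hre' : ξ'.re = N ^ q * ξ.re := by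
      have h1 := congrArg Complex.re (hb' 0)
      rw [sub_re, hAre, hAre] at h1
      have h2 : ((b 0 : ℂ) * (2 * Real.pi * I)).re = 0 := by
        have e : ((b 0 : ℂ) * (2 * Real.pi * I)) = ((b 0 * (2 * Real.pi) : ℝ) : ℂ) * I := by
          push_cast; ring
        rw [e, re_ofReal_mul]; simp
      rw [h2, pow_add, add_zero] at h1
      have h3 : ξ'.re / (N ^ j * N ^ q) = ξ.re / N ^ j := sub_eq_zero.1 h1
      rw [div_eq_div_iff (by positivity) (by positivity)] at h3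
      have h4 : N ^ j * ξ'.re = N ^ j * (N ^ q * ξ.re) := by linarith
      exact mul_left_cancel₀ (by positivity) h4
    set β : ℝ := ξ'.im - N ^ q * ξ.im with hβ
    have hNq : 1 < N ^ q := one_lt_pow₀ hN (by omega)
    set τ : ℝ := -β / (N ^ q - 1) with hτ
    have hτ' : N ^ q * τ + β = τ := by
      have : N ^ q - 1 ≠ 0 := by linarith
      rw [hτ]; field_simp; ring
    have hξβ : ξ' = (N : ℂ) ^ q * ξ + β * I := by
      apply Complex.ext
      · rw [hcast, add_re, re_ofReal_mul, re_ofReal_mul, hre', I_re]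
        ring
      · rw [hcast, add_im, im_ofReal_mul, im_ofReal_mul, hβ, I_im]
        ring
    -- the relation along the horizontal line
    have hrel : ∀ (i : ℕ) (t : ℝ), A (j + i + q) ((N ^ q * t : ℝ) + τ * I) =
        A (j + i) (t + τ * I) + b i * (2 * Real.pi * I) := by
      intro i t
      rw [← hb' i]
      show ζ (j + i + q) + (((N ^ q * t : ℝ) : ℂ) + τ * I - ζ 0) / (N : ℂ) ^ (j + i + q) =
        ζ (j + i) + ((t : ℂ) + τ * I - ζ 0) / (N : ℂ) ^ (j + i) +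
          (ζ (j + i + q) + (ξ' - ζ 0) / (N : ℂ) ^ (j + i + q) -
            (ζ (j + i) + (ξ - ζ 0) / (N : ℂ) ^ (j + i)))
      have hτc : (N : ℂ) ^ q * τ + β = τ := by exact_mod_cast hτ'
      rw [hξβ, pow_add _ (j + i) q]
      push_cast
      field_simp
      linear_combination (-I) * hτc
    have hpow : ∀ (d i : ℕ) (x : ℂ), ∃ M : ℤ, (N : ℂ) ^ d * A (i + d) x =
        A i x + M * (2 * Real.pi * I) := by
      intro d
      induction d with
      | zero => intro i x; exact ⟨0, by simp⟩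
      | succ d ih =>
        intro i x
        obtain ⟨M, hM⟩ := ih i x
        refine ⟨M + (n : ℤ) ^ (k * d) * m (i + d), ?_⟩
        have h1 := hAstep (i + d) x
        have h2 : (N : ℂ) ^ (d + 1) * A (i + (d + 1)) x =
            (N : ℂ) ^ d * ((N : ℂ) * A (i + d + 1) x) := by
          rw [pow_succ, mul_assoc]; rfl
        rw [h2, h1, mul_add, hM, hNc]
        push_cast
        rw [← pow_mul]
        ring
    set a : ℝ := (A j (τ * I)).im with ha
    have hAa : A j (τ * I) = a * I := by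
      apply Complex.ext
      · rw [hAre, re_ofReal_mul, re_ofReal_mul, I_re]; simp
      · rw [im_ofReal_mul, I_im, mul_one]
    have hAt : ∀ t : ℝ, A j (t + τ * I) = ((t / N ^ j : ℝ) : ℂ) + a * I := by
      intro t
      rw [← hAa]
      show ζ j + ((t : ℂ) + τ * I - ζ 0) / (N : ℂ) ^ j =
        ((t / N ^ j : ℝ) : ℂ) + (ζ j + (τ * I - ζ 0) / (N : ℂ) ^ j)
      push_cast
      ring
    obtain ⟨M, hM⟩ := hpow q j (τ * I)
    have hb0 : A (j + q) (τ * I) = A j (τ * I) + b 0 * (2 * Real.pi * I) := by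
      have := hrel 0 0
      simp only [mul_zero, ofReal_zero, zero_add, add_zero] at this
      exact this
    have haM : (N ^ q - 1) * a = 2 * Real.pi * (M - N ^ q * b 0) := by
      rw [hb0, hAa] at hM
      have h1 := congrArg Complex.im hM
      rw [hcast, im_ofReal_mul] at h1
      have e1 : ((a : ℂ) * I + (b 0 : ℂ) * (2 * Real.pi * I)).im = a + b 0 * (2 * Real.pi) := by
        have e : ((a : ℂ) * I + (b 0 : ℂ) * (2 * Real.pi * I)) =
            ((a + b 0 * (2 * Real.pi) : ℝ) : ℂ) * I := by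
          push_cast; ring
        rw [e, im_ofReal_mul, I_im, mul_one]
      have e2 : ((a : ℂ) * I + (M : ℂ) * (2 * Real.pi * I)).im = a + M * (2 * Real.pi) := by
        have e : ((a : ℂ) * I + (M : ℂ) * (2 * Real.pi * I)) =
            ((a + M * (2 * Real.pi) : ℝ) : ℂ) * I := by
          push_cast; ring
        rw [e, im_ofReal_mul, I_im, mul_one]
      rw [e1, e2] at h1
      linarith
    have hpi := Real.pi_pos
    set K : ℤ := M - (n : ℤ) ^ (k * q) * b 0 with hK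
    have hKα : ((n : ℝ) ^ (k * q) - 1) * (a / (2 * Real.pi)) = K := by
      have e1 : (n : ℝ) ^ (k * q) = N ^ q := by rw [hNdef, pow_mul]
      rw [hK]
      push_cast
      rw [e1]
      field_simp
      linarith
    refine ⟨a / (2 * Real.pi), ⟨K, hKα⟩, ?_⟩
    have hland := (p_LAND p_AREA n hn Λ hE c hc (k * q) (a / (2 * Real.pi)) K
      (Nat.mul_pos (by omega) (by omega)) hKα).1
    have hq' : Tendsto (fun i : ℕ => ((N ^ q) ^ i)⁻¹ / N ^ j) atTop (𝓝[>] 0) := by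
      rw [tendsto_nhdsWithin_iff]
      refine ⟨?_, Eventually.of_forall fun i => ?_⟩
      · have h1 := (tendsto_pow_atTop_atTop_of_one_lt hNq).inv_tendsto_atTop
        have h2 := h1.div_const (N ^ j)
        simpa using h2
      · show (0 : ℝ) < ((N ^ q) ^ i)⁻¹ / N ^ j
        positivity
    have hshift : ∀ (i : ℕ) (t : ℝ), ∃ b' : ℤ, A (j + q * i) (((N ^ q) ^ i * t : ℝ) + τ * I) =
        A j (t + τ * I) + b' * (2 * Real.pi * I) := by
      intro i t
      induction i with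
      | zero => exact ⟨0, by simp⟩
      | succ i ih =>
        obtain ⟨b', hb'⟩ := ih
        refine ⟨b' + b (q * i), ?_⟩
        have h1 := hrel (q * i) ((N ^ q) ^ i * t)
        rw [hb'] at h1
        have h2 : (N ^ q) ^ (i + 1) * t = N ^ q * ((N ^ q) ^ i * t) := by ring
        have h3 : j + q * (i + 1) = j + q * i + q := by ring
        rw [h2, h3, h1]
        push_cast
        ring
    have hlimz : Tendsto (fun i : ℕ => ray Λ c (a / (2 * Real.pi)) (((N ^ q) ^ i)⁻¹ / N ^ j))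
        atTop (𝓝 z) := by
      have h1 : ∀ i : ℕ, ray Λ c (a / (2 * Real.pi)) (((N ^ q) ^ i)⁻¹ / N ^ j) =
          h (A (j + q * i) ((1 : ℝ) + τ * I)) := by
        intro i
        obtain ⟨b', hb'⟩ := hshift i (((N ^ q) ^ i)⁻¹)
        have e1 : (N ^ q) ^ i * ((N ^ q) ^ i)⁻¹ = 1 := by
          apply mul_inv_cancel₀; positivity
        rw [e1] at hb'
        have e2 : 0 < (A j (((((N ^ q) ^ i)⁻¹ : ℝ) : ℂ) + τ * I)).re := by
          apply hApos
          have : (((((N ^ q) ^ i)⁻¹ : ℝ) : ℂ) + τ * I).re = ((N ^ q) ^ i)⁻¹ := by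
            rw [add_re, re_ofReal_mul, I_re, mul_zero, add_zero, ofReal_re]
          rw [this]
          positivity
        rw [hb', show h (A j (((((N ^ q) ^ i)⁻¹ : ℝ) : ℂ) + τ * I) + b' * (2 * Real.pi * I)) =
          h (A j (((((N ^ q) ^ i)⁻¹ : ℝ) : ℂ) + τ * I)) from per_int hn hE hc b' _ e2, hAt]
        show exp (Λ c _) = exp (Λ c _)
        congr 3
        push_cast
        field_simp
      simp only [h1]
      rw [Metric.tendsto_atTop]
      intro ε hε
      obtain ⟨J1, hJ1⟩ := hclose 1 ‖((1 : ℝ) : ℂ) + τ * I‖ ε one_pos hε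
      refine ⟨J1, fun i hi => ?_⟩
      rw [dist_eq_norm]
      refine hJ1 _ ?_ _ ?_ le_rfl
      · have : i ≤ q * i := Nat.le_mul_of_pos_left i (by omega)
        omega
      · rw [add_re, re_ofReal_mul, I_re, mul_zero, add_zero, ofReal_re]
    have h2 := hland.comp hq'
    have h3 := tendsto_nhds_unique h2 hlimz
    rw [h3] at hland
    exact hland

end Pool.Agent.PLim
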