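import Pool.Agent.PLim.Targets

/-!
# PLIM, EXR: a ray lands at every repelling point
-/

set_option autoImplicit false

open Complex Filter Topology Set
open Pool.Agent.Multibrot Pool.Agent.Limb

namespace Pool.Agent.PLim

/-- EXR (from EM, L1): a ray lands at every repelling point. -/
theorem p_EXR (hEM : T_EM) (hL1 : T_L1) : T_EXR := by
  classical
  intro n k Λ c z hn hk hΛ hc hfix hrep
  obtain ⟨E, A, D, hE, hinj, hne, hD, hgr, hlast⟩ := hEM n k Λ c z hn hk hΛ hc hfix hrep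
  obtain ⟨ξ, ξ', q, h1, h2, h3, h4⟩ := hL1 E (Rho n k c z) A D hrep hD hE hinj hne hgr
  obtain ⟨α, hα, hland⟩ := hlast ξ ξ' q h1 h2 h3 h4
  have hex : ∃ q : ℕ, 1 ≤ q ∧ IsInt (((n : ℝ) ^ (k * q) - 1) * α) := ⟨q, h3, hα⟩
  refine ⟨α, Nat.find hex, ⟨(Nat.find_spec hex).1, (Nat.find_spec hex).2, ?_⟩, hland⟩
  intro q' hq' hlt hint
  exact Nat.find_min hex hlt ⟨hq', hint⟩

end Pool.Agent.PLim
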