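import Pool.Agent.PLim.Targets

set_option autoImplicit false

/-!
# FIXE: the fixed points of `f ^ k` outside the Multibrot set
-/

open Complex Filter Topology Set MeasureTheory
open Pool.Agent.Multibrot Pool.Agent.Limb

namespace Pool.Agent.PLim

namespace FIXE_

variable {n k : ℕ} {lh : ℂ → ℂ → ℂ → ℂ} {c ζ : ℂ}

lemma brw_add (ε : ℕ → ℤ) (a b : ℕ) (z : ℂ) :
    brw n lh c ζ ε (a + b) z = brw n lh c ζ ε a (brw n lh c ζ (fun t => ε (a + t)) b z) := by
  induction b generalizing z with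
  | zero => rfl
  | succ b ih =>
    show brw n lh c ζ ε (a + b) (br n lh c ζ (ε (a + b)) z) = _
    rw [ih]
    rfl

lemma per_mul {ε : ℕ → ℤ} (h : Per k ε) (m : ℕ) : (fun t => ε (k * m + t)) = ε := by
  induction m with
  | zero => simp
  | succ m ih =>
    funext t
    have h1 := h (k * m + t)
    have h2 : k * m + t + k = k * (m + 1) + t := by ring
    rw [h2] at h1
    rw [h1]
    exact congrFun ih t

lemma brw_per {ε : ℕ → ℤ} (h : Per k ε) (m b : ℕ) (z : ℂ) :
    brw n lh c ζ ε (k * m + b) z = brw n lh c ζ ε (k * m) (brw n lh c ζ ε b z) := by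
  rw [brw_add, per_mul h m]

lemma brw_fix {ε : ℕ → ℤ} (h : Per k ε) {z : ℂ} (hz : brw n lh c ζ ε k z = z) (m : ℕ) :
    brw n lh c ζ ε (k * m) z = z := by
  induction m with
  | zero => rfl
  | succ m ih =>
    rw [Nat.mul_succ, brw_per h, hz, ih]

/-- the facts used -/
structure Facts (n : ℕ) (lh : ℂ → ℂ → ℂ → ℂ) (c ζ : ℂ) : Prop where
  hn : 2 ≤ n
  cont : Continuous (G n c)
  nonneg : ∀ z, 0 ≤ G n c z
  func : ∀ z, G n c (F n c z) = n * G n c z
  pos : 0 < ζ.re
  zero : G n c 0 < ζ.re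
  b1 : ∀ (z : ℂ) (i : ℤ), G n c z < ζ.re → F n c (br n lh c ζ i z) = z ∧
    G n c (br n lh c ζ i z) = G n c z / n
  b4 : ∀ z : ℂ, n * G n c z < ζ.re → ∃ i : ℤ, Dig n lh c ζ z i
  b6 : ∀ (ε : ℕ → ℤ) (m : ℕ) (z : ℂ), G n c z < ζ.re → (F n c)^[m] (brw n lh c ζ ε m z) = z ∧
    G n c (brw n lh c ζ ε m z) = G n c z / (n : ℝ) ^ m
  b7 : ∀ (ε : ℕ → ℤ) (m : ℕ), DifferentiableOn ℂ (brw n lh c ζ ε m) {z : ℂ | G n c z < ζ.re}
  area : ∀ (ε : ℕ → ℤ) (σ η : ℝ), σ < ζ.re → 0 < η → ∃ m₀ : ℕ, ∀ m, m₀ ≤ m → ∀ x y : ℂ,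
    G n c x ≤ σ → G n c y ≤ σ → ‖brw n lh c ζ ε m x - brw n lh c ζ ε m y‖ ≤ η

lemma facts (h1 : T_AREAL) (h2 : T_BR) (h3 : T_GREEN) (Λ : ℂ → ℂ → ℂ) (ls : ℂ → ℂ → ℂ → ℂ)
    (hn : 2 ≤ n) (hB : IsBot n Λ) (hL : IsLog n Λ lh ls) (hC : Crit n Λ c ζ) :
    Facts n lh c ζ := by
  have hg := h3 n hn
  have hb := h2 n Λ lh ls c ζ hn hB hL hC
  have ha := h1 n Λ lh ls c ζ hn hB hL hC
  have hn' : (2 : ℝ) ≤ n := by exact_mod_cast hn
  have g2 := hg.2.1
  have g6 := hg.2.2.2.2.2.1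
  have g7 := hg.2.2.2.2.2.2.1
  have h0 : 0 < G n c 0 := by
    refine lt_of_le_of_ne (g2 c 0) fun h => ?_
    exact hC.1 ((g6 c).mpr h.symm)
  have hre : ζ.re = n * G n c 0 := hC.2.1.trans (g7 c)
  have hpos : 0 < ζ.re := by rw [hre]; positivity
  have hzero : G n c 0 < ζ.re := by rw [hre]; nlinarith
  have hcont : Continuous (fun z => G n c z) :=
    hg.1.comp (f := fun z : ℂ => (c, z)) (by fun_prop)
  have hb1 := hb.1
  refine ⟨hn, hcont, g2 c, hg.2.2.1 c, hpos, hzero, ?_, hb.2.2.2.1, hb.2.2.2.2.2.1, ?_, ha⟩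
  · intro z i hz
    exact ⟨(hb1 z i hz).1, (hb1 z i hz).2.1⟩
  · intro ε m
    exact (hb.2.2.2.2.2.2 ε m).1

section

variable (H : Facts n lh c ζ)
include H

lemma G_brw_le (ε : ℕ → ℤ) (m : ℕ) {z : ℂ} (hz : G n c z < ζ.re) :
    G n c (brw n lh c ζ ε m z) ≤ G n c z := by
  rw [(H.b6 ε m z hz).2]
  have hn : (1 : ℝ) ≤ n := by exact_mod_cast (le_trans (by norm_num) H.hn)
  exact div_le_self (H.nonneg z) (one_le_pow₀ hn)

lemma G_iter (z : ℂ) (j : ℕ) : G n c ((F n c)^[j] z) = (n : ℝ) ^ j * G n c z := by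
  induction j with
  | zero => simp
  | succ j ih =>
    rw [Function.iterate_succ_apply', H.func, ih]
    ring

lemma G_fix (hk : 1 ≤ k) {z : ℂ} (hz : (F n c)^[k] z = z) : G n c z = 0 := by
  have h1 := G_iter H z k
  rw [hz] at h1
  have hn : (2 : ℝ) ≤ n := by exact_mod_cast H.hn
  have h2 : (2 : ℝ) ≤ (n : ℝ) ^ k :=
    calc (2 : ℝ) ≤ (n : ℝ) ^ 1 := by rwa [pow_one]
      _ ≤ (n : ℝ) ^ k := pow_le_pow_right₀ (by linarith) hk
  have h3 := H.nonneg z
  nlinarith

/-- the digits of a point in the image of a composition of branches -/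
lemma dig_brw (ε : ℕ → ℤ) {m j : ℕ} (hj : j < m) {w : ℂ} (hw : G n c w < ζ.re) :
    Dig n lh c ζ ((F n c)^[j] (brw n lh c ζ ε m w)) (ε j) := by
  obtain ⟨b, rfl⟩ : ∃ b, m = j + (1 + b) := ⟨m - j - 1, by omega⟩
  rw [brw_add ε j (1 + b) w]
  set u := brw n lh c ζ (fun t => ε (j + t)) (1 + b) w with hu
  have hGu : G n c u < ζ.re := (G_brw_le H _ _ hw).trans_lt hw
  rw [(H.b6 ε j u hGu).1]
  have hu2 : u = br n lh c ζ (ε j) (brw n lh c ζ (fun t => ε (j + (1 + t))) b w) := by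
    rw [hu, brw_add]
    rfl
  have hGv : G n c (brw n lh c ζ (fun t => ε (j + (1 + t))) b w) < ζ.re :=
    (G_brw_le H _ _ hw).trans_lt hw
  show br n lh c ζ (ε j) (F n c u) = u
  rw [hu2, (H.b1 _ _ hGv).1]

lemma brw_of_dig {ε : ℕ → ℤ} {z : ℂ} (h : ∀ j, Dig n lh c ζ ((F n c)^[j] z) (ε j)) (m : ℕ) :
    brw n lh c ζ ε m ((F n c)^[m] z) = z := by
  induction m with
  | zero => rfl
  | succ m ih =>
    show brw n lh c ζ ε m (br n lh c ζ (ε m) ((F n c)^[m + 1] z)) = z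
    rw [Function.iterate_succ_apply']
    have : br n lh c ζ (ε m) (F n c ((F n c)^[m] z)) = (F n c)^[m] z := h m
    rw [this, ih]

omit H in
lemma iter_fix {z : ℂ} (hz : (F n c)^[k] z = z) (m : ℕ) : (F n c)^[k * m] z = z := by
  rw [Function.iterate_mul]
  exact Function.iterate_fixed hz m

lemma exists_fix (hk : 1 ≤ k) {ε : ℕ → ℤ} (hε : Per k ε) :
    ∃ z : ℂ, G n c z = 0 ∧ brw n lh c ζ ε k z = z := by
  set σ := G n c 0 with hσ
  have hzG : ∀ m, G n c (brw n lh c ζ ε m 0) ≤ σ := fun m => G_brw_le H ε m H.zero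
  let zs : ℕ → ℂ := fun m => brw n lh c ζ ε (k * m) 0
  have hcau : CauchySeq zs := by
    rw [Metric.cauchySeq_iff']
    intro η hη
    obtain ⟨m₀, hm₀⟩ := H.area ε σ (η / 2) H.zero (by positivity)
    refine ⟨m₀, fun m hm => ?_⟩
    obtain ⟨j, rfl⟩ := Nat.exists_eq_add_of_le hm
    have h1 : zs (m₀ + j) = brw n lh c ζ ε (k * m₀) (brw n lh c ζ ε (k * j) 0) := by
      show brw n lh c ζ ε (k * (m₀ + j)) 0 = _
      rw [mul_add, brw_per hε]
    rw [dist_eq_norm, h1]
    have h2 := hm₀ (k * m₀) (Nat.le_mul_of_pos_left _ hk) _ 0 (hzG (k * j)) le_rfl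
    exact h2.trans_lt (by linarith)
  obtain ⟨z, hz⟩ := cauchySeq_tendsto_of_complete hcau
  have hn : (2 : ℝ) ≤ n := by exact_mod_cast H.hn
  have hGz : G n c z = 0 := by
    have h1 : Tendsto (fun m => G n c (zs m)) atTop (𝓝 (G n c z)) :=
      (H.cont.tendsto z).comp hz
    have h2 : Tendsto (fun m => G n c (zs m)) atTop (𝓝 0) := by
      have h3 : ∀ m, G n c (zs m) = σ / ((n : ℝ) ^ k) ^ m := by
        intro m
        show G n c (brw n lh c ζ ε (k * m) 0) = _
        rw [(H.b6 ε (k * m) 0 H.zero).2, pow_mul]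
      simp_rw [h3]
      have h4 : 1 < (n : ℝ) ^ k := one_lt_pow₀ (by linarith) (by omega)
      exact tendsto_const_nhds.div_atTop (tendsto_pow_atTop_atTop_of_one_lt h4)
    exact tendsto_nhds_unique h1 h2
  refine ⟨z, hGz, ?_⟩
  have hzs : G n c z < ζ.re := by rw [hGz]; exact H.pos
  have hopen : IsOpen {z : ℂ | G n c z < ζ.re} := isOpen_lt H.cont continuous_const
  have hca : ContinuousAt (brw n lh c ζ ε k) z :=
    ((H.b7 ε k).differentiableAt (hopen.mem_nhds hzs)).continuousAt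
  have h5 : Tendsto (fun m => brw n lh c ζ ε k (zs m)) atTop (𝓝 (brw n lh c ζ ε k z)) :=
    hca.tendsto.comp hz
  have h6 : ∀ m, brw n lh c ζ ε k (zs m) = zs (m + 1) := by
    intro m
    have h7 := brw_per (n := n) (lh := lh) (c := c) (ζ := ζ) hε 1 (k * m) 0
    rw [mul_one] at h7
    show brw n lh c ζ ε k (brw n lh c ζ ε (k * m) 0) = brw n lh c ζ ε (k * (m + 1)) 0
    rw [← h7]
    congr 1
    ring
  simp_rw [h6] at h5
  exact tendsto_nhds_unique h5 (hz.comp (tendsto_add_atTop_nat 1))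

/-- fixed points with the same digits are equal -/
lemma uniq (hk : 1 ≤ k) {ε : ℕ → ℤ} {z z' : ℂ} (hz : ∀ m, brw n lh c ζ ε (k * m) z = z)
    (hz' : ∀ m, brw n lh c ζ ε (k * m) z' = z') (h0 : G n c z = 0) (h0' : G n c z' = 0) :
    z' = z := by
  have h1 : ∀ η : ℝ, 0 < η → ‖z' - z‖ ≤ η := by
    intro η hη
    obtain ⟨m₀, hm₀⟩ := H.area ε 0 η H.pos hη
    have h2 := hm₀ (k * m₀) (Nat.le_mul_of_pos_left _ hk) z' z h0'.le h0.le
    rwa [hz m₀, hz' m₀] at h2
  have h2 : ‖z' - z‖ ≤ 0 := le_of_forall_pos_le_add fun η hη => by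
    rw [zero_add]
    exact h1 η hη
  exact sub_eq_zero.mp (norm_le_zero_iff.mp h2)

/-- the multiplier -/
lemma mult (hk : 1 ≤ k) {ε : ℕ → ℤ} {z : ℂ} (hF : (F n c)^[k] z = z)
    (hz : ∀ m, brw n lh c ζ ε (k * m) z = z) : 1 < ‖Rho n k c z‖ := by
  have h0 := G_fix H hk hF
  set σ := ζ.re / 2 with hσ
  have hpos := H.pos
  have hopen : IsOpen {x : ℂ | G n c x < σ} := isOpen_lt H.cont continuous_const
  have hmem : z ∈ {x : ℂ | G n c x < σ} := by
    show G n c z < σ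
    rw [h0, hσ]
    positivity
  obtain ⟨r', hr', hball⟩ := Metric.isOpen_iff.mp hopen z hmem
  set r := r' / 2 with hr
  have hr0 : 0 < r := by positivity
  have hcb : Metric.closedBall z r ⊆ {x : ℂ | G n c x < σ} :=
    (Metric.closedBall_subset_ball (by linarith)).trans hball
  obtain ⟨m₀, hm₀⟩ := H.area ε σ (r / 2) (by linarith) (by positivity)
  set m := m₀ + 1 with hm
  have hkm : m₀ ≤ k * m := by nlinarith
  set g : ℂ → ℂ := brw n lh c ζ ε (k * m) with hg
  have hgz : g z = z := hz m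
  have hsub : Metric.closedBall z r ⊆ {x : ℂ | G n c x < ζ.re} := by
    intro x hx
    have := hcb hx
    show G n c x < ζ.re
    have h3 : G n c x < σ := this
    linarith
  have hopen2 : IsOpen {x : ℂ | G n c x < ζ.re} := isOpen_lt H.cont continuous_const
  have hgd : DifferentiableOn ℂ g {x : ℂ | G n c x < ζ.re} := H.b7 ε (k * m)
  have hgz' : DifferentiableAt ℂ g z :=
    hgd.differentiableAt (hopen2.mem_nhds (hsub (Metric.mem_closedBall_self hr0.le)))
  have hd : ‖deriv (fun x => g x - z) z‖ ≤ (r / 2) / r := by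
    refine Complex.norm_deriv_le_of_forall_mem_sphere_norm_le hr0 ?_ ?_
    · refine DifferentiableOn.diffContOnCl ?_
      rw [closure_ball z hr0.ne']
      exact (hgd.mono hsub).sub_const z
    · intro x hx
      have hx' : x ∈ Metric.closedBall z r := Metric.sphere_subset_closedBall hx
      have h4 : G n c x < σ := hcb hx'
      have h5 := hm₀ (k * m) hkm x z h4.le hmem.le
      have h6 : brw n lh c ζ ε (k * m) z = z := hz m
      rw [h6] at h5
      exact h5
  have hd2 : ‖deriv g z‖ ≤ 1 / 2 := by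
    rw [deriv_sub_const] at hd
    refine hd.trans (le_of_eq ?_)
    field_simp
  have hFd : HasDerivAt ((F n c)^[k * m]) (Rho n k c z ^ m) z := by
    have h7 : DifferentiableAt ℂ ((F n c)^[k]) z := by
      have h8 : Differentiable ℂ (F n c) := by
        intro x
        unfold F
        fun_prop
      exact (h8.iterate k) z
    have h9 : HasDerivAt ((F n c)^[k]) (Rho n k c z) z := h7.hasDerivAt
    rw [Function.iterate_mul]
    exact HasDerivAt.iterate z h9 hF m
  have hcomp : HasDerivAt ((F n c)^[k * m] ∘ g) (Rho n k c z ^ m * deriv g z) z := by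
    refine HasDerivAt.comp z ?_ hgz'.hasDerivAt
    rw [hgz]
    exact hFd
  have hid : HasDerivAt ((F n c)^[k * m] ∘ g) 1 z := by
    refine (hasDerivAt_id z).congr_of_eventuallyEq ?_
    filter_upwards [hopen2.mem_nhds (hsub (Metric.mem_closedBall_self hr0.le))] with x hx
    exact (H.b6 ε (k * m) x hx).1
  have heq := hcomp.unique hid
  have hnorm := congrArg norm heq
  rw [norm_mul, norm_pow, norm_one] at hnorm
  by_contra hle
  rw [not_lt] at hle
  have h10 : ‖Rho n k c z‖ ^ m ≤ 1 := pow_le_one₀ (norm_nonneg _) hle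
  have h11 : 0 ≤ ‖deriv g z‖ := norm_nonneg _
  nlinarith

end

end FIXE_

open FIXE_ in
theorem p_FIXE (h1 : T_AREAL) (h2 : T_BR) (h3 : T_GREEN) : T_FIXE := by
  intro n k Λ lh ls c ζ hn hk hB hL hC
  have H := facts h1 h2 h3 Λ ls hn hB hL hC
  constructor
  · intro ε hε
    obtain ⟨z, h0, hz⟩ := exists_fix H hk hε
    have hzs : G n c z < ζ.re := by rw [h0]; exact H.pos
    have hfix := brw_fix (n := n) (lh := lh) (c := c) (ζ := ζ) hε hz
    refine ⟨z, ?_, ?_, ?_⟩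
    · have := (H.b6 ε k z hzs).1
      rwa [hz] at this
    · intro j
      have h4 := dig_brw H ε (m := k * (j + 1)) (j := j) (by nlinarith) hzs
      rwa [hfix] at h4
    · intro z' hz' hd
      have h5 : ∀ m, brw n lh c ζ ε (k * m) z' = z' := by
        intro m
        have h6 := brw_of_dig H hd (k * m)
        rwa [iter_fix hz' m] at h6
      exact uniq H hk hfix h5 h0 (G_fix H hk hz')
  · intro z hz
    have h0 := G_fix H hk hz
    have hex : ∀ j, ∃ i : ℤ, Dig n lh c ζ ((F n c)^[j] z) i := by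
      intro j
      refine H.b4 _ ?_
      rw [G_iter H, h0, mul_zero, mul_zero]
      exact H.pos
    classical
    let dig : ℂ → ℤ := fun w => if h : ∃ i : ℤ, Dig n lh c ζ w i then h.choose else 0
    have hdig : ∀ j, Dig n lh c ζ ((F n c)^[j] z) (dig ((F n c)^[j] z)) := by
      intro j
      have h4 := hex j
      show Dig n lh c ζ ((F n c)^[j] z)
        (if h : ∃ i : ℤ, Dig n lh c ζ ((F n c)^[j] z) i then h.choose else 0)
      rw [dif_pos h4]
      exact h4.choose_spec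
    have hper : Per k (fun j => dig ((F n c)^[j] z)) := by
      intro t
      show dig ((F n c)^[t + k] z) = dig ((F n c)^[t] z)
      rw [Function.iterate_add_apply, hz]
    have h5 : ∀ m, brw n lh c ζ (fun j => dig ((F n c)^[j] z)) (k * m) z = z := by
      intro m
      have h6 := brw_of_dig H (ε := fun j => dig ((F n c)^[j] z)) hdig (k * m)
      rwa [iter_fix hz m] at h6
    exact ⟨mult H hk hz h5, h0, _, hper, hdig⟩

end Pool.Agent.PLim
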