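import Mathlib
import Pool.Agent.PLim.Targets

set_option autoImplicit false

open Complex Filter Topology Set
open Pool.Agent.Multibrot Pool.Agent.Limb

namespace Pool.Agent.PLim

namespace GREEN_

/-- the approximations -/
noncomputable def aj (n : ℕ) (c z : ℂ) (j : ℕ) : ℝ := Real.posLog ‖(F n c)^[j] z‖ / (n : ℝ) ^ j

lemma step_up (n : ℕ) (c w : ℂ) :
    Real.posLog ‖w ^ n + c‖ ≤ n * Real.posLog ‖w‖ + Real.log (1 + ‖c‖) := by
  have hc := norm_nonneg c
  have hw := norm_nonneg w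
  rw [Real.posLog_eq_log_max_one (norm_nonneg _), Real.posLog_eq_log_max_one (norm_nonneg _)]
  have h1 : (1 : ℝ) ≤ max 1 ‖w‖ := le_max_left _ _
  have h2 : (1 : ℝ) ≤ max 1 ‖w‖ ^ n := one_le_pow₀ h1
  have h3 : ‖w‖ ^ n ≤ max 1 ‖w‖ ^ n := pow_le_pow_left₀ hw (le_max_right _ _) n
  have h4 : max 1 ‖w ^ n + c‖ ≤ max 1 ‖w‖ ^ n * (1 + ‖c‖) := by
    apply max_le
    · nlinarith
    · have h5 : ‖w ^ n + c‖ ≤ ‖w‖ ^ n + ‖c‖ := by
        rw [← norm_pow]; exact norm_add_le _ _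
      nlinarith
  have h6 : (0 : ℝ) < max 1 ‖w ^ n + c‖ := lt_of_lt_of_le one_pos (le_max_left _ _)
  calc Real.log (max 1 ‖w ^ n + c‖) ≤ Real.log (max 1 ‖w‖ ^ n * (1 + ‖c‖)) :=
        Real.log_le_log h6 h4
    _ = n * Real.log (max 1 ‖w‖) + Real.log (1 + ‖c‖) := by
        rw [Real.log_mul (by positivity) (by positivity), Real.log_pow]

lemma step_low (n : ℕ) (c w : ℂ) :
    n * Real.posLog ‖w‖ ≤ Real.posLog ‖w ^ n + c‖ + Real.log (1 + ‖c‖) := by
  have hc := norm_nonneg c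
  have hw := norm_nonneg w
  rw [Real.posLog_eq_log_max_one (norm_nonneg _), Real.posLog_eq_log_max_one (norm_nonneg _)]
  have h1 : (1 : ℝ) ≤ max 1 ‖w ^ n + c‖ := le_max_left _ _
  have h2 : ‖w ^ n + c‖ ≤ max 1 ‖w ^ n + c‖ := le_max_right _ _
  have h4 : max 1 ‖w‖ ^ n ≤ max 1 ‖w ^ n + c‖ * (1 + ‖c‖) := by
    rcases le_total ‖w‖ 1 with h | h
    · rw [max_eq_left h, one_pow]
      nlinarith
    · rw [max_eq_right h]
      have h5 : ‖w‖ ^ n ≤ ‖w ^ n + c‖ + ‖c‖ := by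
        rw [← norm_pow]
        calc ‖w ^ n‖ = ‖(w ^ n + c) - c‖ := by rw [add_sub_cancel_right]
          _ ≤ ‖w ^ n + c‖ + ‖c‖ := norm_sub_le _ _
      nlinarith
  have h0 : (0 : ℝ) < max 1 ‖w‖ := lt_of_lt_of_le one_pos (le_max_left _ _)
  have h00 : (0 : ℝ) < max 1 ‖w ^ n + c‖ := lt_of_lt_of_le one_pos h1
  calc n * Real.log (max 1 ‖w‖) = Real.log (max 1 ‖w‖ ^ n) := by rw [Real.log_pow]
    _ ≤ Real.log (max 1 ‖w ^ n + c‖ * (1 + ‖c‖)) := Real.log_le_log (by positivity) h4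
    _ = Real.log (max 1 ‖w ^ n + c‖) + Real.log (1 + ‖c‖) := by
        rw [Real.log_mul (ne_of_gt h00) (by positivity)]

lemma aj_step {n : ℕ} (hn : 2 ≤ n) (c z : ℂ) (j : ℕ) :
    dist (aj n c z j) (aj n c z (j + 1)) ≤ Real.log (1 + ‖c‖) / 2 / 2 ^ j := by
  have hn2 : (2 : ℝ) ≤ n := by exact_mod_cast hn
  have hn0 : (0 : ℝ) < n := by linarith
  have hlog : 0 ≤ Real.log (1 + ‖c‖) := Real.log_nonneg (by linarith [norm_nonneg c])
  set w := (F n c)^[j] z with hw
  have h1 : (F n c)^[j + 1] z = w ^ n + c := by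
    rw [Function.iterate_succ_apply', ← hw]; rfl
  unfold aj
  rw [h1, ← hw, Real.dist_eq]
  have hp : (0 : ℝ) < (n : ℝ) ^ (j + 1) := by positivity
  have h2 : Real.posLog ‖w‖ / (n : ℝ) ^ j - Real.posLog ‖w ^ n + c‖ / (n : ℝ) ^ (j + 1)
      = (n * Real.posLog ‖w‖ - Real.posLog ‖w ^ n + c‖) / (n : ℝ) ^ (j + 1) := by
    rw [pow_succ]
    field_simp
  rw [h2, abs_div, abs_of_pos hp]
  have h3 : |n * Real.posLog ‖w‖ - Real.posLog ‖w ^ n + c‖| ≤ Real.log (1 + ‖c‖) := by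
    rw [abs_le]
    have ha := step_up n c w
    have hb := step_low n c w
    constructor <;> linarith
  have h4 : (2 : ℝ) * 2 ^ j ≤ (n : ℝ) ^ (j + 1) := by
    have := pow_le_pow_left₀ (by norm_num : (0 : ℝ) ≤ 2) hn2 (j + 1)
    rw [pow_succ] at this
    linarith
  rw [div_div]
  exact div_le_div₀ hlog h3 (by positivity) h4

lemma aj_tendsto {n : ℕ} (hn : 2 ≤ n) (c z : ℂ) :
    Tendsto (aj n c z) atTop (𝓝 (G n c z)) := by
  have h1 : CauchySeq (aj n c z) :=
    cauchySeq_of_le_geometric_two (C := Real.log (1 + ‖c‖)) (fun j => aj_step hn c z j)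
  exact h1.tendsto_limUnder

lemma aj_dist {n : ℕ} (hn : 2 ≤ n) (c z : ℂ) (j : ℕ) :
    dist (aj n c z j) (G n c z) ≤ Real.log (1 + ‖c‖) / 2 ^ j :=
  dist_le_of_le_geometric_two_of_tendsto (C := Real.log (1 + ‖c‖))
    (hu₂ := fun j => aj_step hn c z j) (aj_tendsto hn c z) j

lemma iter_cont (n j : ℕ) : Continuous (fun q : ℂ × ℂ => (F n q.1)^[j] q.2) := by
  induction j with
  | zero => exact continuous_snd
  | succ j ih =>
    have h1 : (fun q : ℂ × ℂ => (F n q.1)^[j + 1] q.2)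
        = fun q : ℂ × ℂ => ((F n q.1)^[j] q.2) ^ n + q.1 := by
      funext q
      rw [Function.iterate_succ_apply']; rfl
    rw [h1]
    exact (ih.pow n).add continuous_fst

lemma aj_cont (n j : ℕ) : Continuous (fun q : ℂ × ℂ => aj n q.1 q.2 j) := by
  unfold aj
  exact (Real.continuous_posLog.comp (iter_cont n j).norm).div_const _

lemma G_cont {n : ℕ} (hn : 2 ≤ n) : Continuous (fun q : ℂ × ℂ => G n q.1 q.2) := by
  apply continuous_of_locally_uniform_approx_of_continuousAt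
  intro q0 u hu
  obtain ⟨ε, hε, hu⟩ := Metric.mem_uniformity_dist.mp hu
  have h1 : Tendsto (fun j : ℕ => Real.log (1 + (‖q0.1‖ + 1)) / 2 ^ j) atTop (𝓝 0) :=
    tendsto_const_nhds.div_atTop (tendsto_pow_atTop_atTop_of_one_lt (by norm_num))
  obtain ⟨j, hj⟩ := (h1.eventually (gt_mem_nhds hε)).exists
  refine ⟨{q : ℂ × ℂ | ‖q.1‖ < ‖q0.1‖ + 1}, ?_, fun q => aj n q.1 q.2 j,
    (aj_cont n j).continuousAt, ?_⟩
  · exact (isOpen_lt continuous_fst.norm continuous_const).mem_nhds (by simp)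
  · intro q hq
    apply hu
    rw [dist_comm]
    refine lt_of_le_of_lt (aj_dist hn q.1 q.2 j) (lt_of_le_of_lt ?_ hj)
    apply div_le_div_of_nonneg_right _ (by positivity)
    apply Real.log_le_log (by linarith [norm_nonneg q.1])
    have : ‖q.1‖ < ‖q0.1‖ + 1 := hq
    linarith

lemma G_nonneg {n : ℕ} (hn : 2 ≤ n) (c z : ℂ) : 0 ≤ G n c z :=
  ge_of_tendsto' (aj_tendsto hn c z) (fun j => div_nonneg Real.posLog_nonneg (by positivity))

lemma G_func {n : ℕ} (hn : 2 ≤ n) (c z : ℂ) : G n c (F n c z) = n * G n c z := by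
  have hn0 : (n : ℝ) ≠ 0 := by
    have : 0 < n := by omega
    exact_mod_cast this.ne'
  have h1 := aj_tendsto hn c (F n c z)
  have h2 := ((tendsto_add_atTop_iff_nat 1).mpr (aj_tendsto hn c z)).const_mul (n : ℝ)
  have h3 : (fun j => (n : ℝ) * aj n c z (j + 1)) = aj n c (F n c z) := by
    funext j
    unfold aj
    rw [Function.iterate_succ_apply, pow_succ]
    field_simp
  rw [h3] at h2
  exact tendsto_nhds_unique h1 h2

lemma G_iter {n : ℕ} (hn : 2 ≤ n) (c z : ℂ) (j : ℕ) :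
    G n c ((F n c)^[j] z) = (n : ℝ) ^ j * G n c z := by
  induction j with
  | zero => simp
  | succ j ih => rw [Function.iterate_succ_apply', G_func hn, ih, pow_succ]; ring

lemma G_near {n : ℕ} (hn : 2 ≤ n) (c z : ℂ) :
    |G n c z - Real.posLog ‖z‖| ≤ Real.log (1 + ‖c‖) := by
  have h1 := aj_dist hn c z 0
  rw [dist_comm, Real.dist_eq] at h1
  unfold aj at h1
  simpa using h1

lemma G_zero {n : ℕ} (hn : 2 ≤ n) (c z : ℂ) :
    G n c z = 0 ↔ ∃ B : ℝ, ∀ j : ℕ, ‖(F n c)^[j] z‖ ≤ B := by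
  have hn2 : (2 : ℝ) ≤ n := by exact_mod_cast hn
  constructor
  · intro h
    refine ⟨1 + ‖c‖, fun j => ?_⟩
    have h1 := G_near hn c ((F n c)^[j] z)
    rw [G_iter hn, h, mul_zero, zero_sub, abs_neg, abs_of_nonneg Real.posLog_nonneg,
      Real.posLog_eq_log_max_one (norm_nonneg _)] at h1
    have h2 : (0 : ℝ) < max 1 ‖(F n c)^[j] z‖ := lt_of_lt_of_le one_pos (le_max_left _ _)
    have h3 := (Real.log_le_log_iff h2 (by linarith [norm_nonneg c])).mp h1
    exact (le_max_right _ _).trans h3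
  · rintro ⟨B, hB⟩
    have h1 : Tendsto (fun j : ℕ => Real.posLog B / (n : ℝ) ^ j) atTop (𝓝 0) :=
      tendsto_const_nhds.div_atTop (tendsto_pow_atTop_atTop_of_one_lt (by linarith))
    have h2 := aj_tendsto hn c z
    have h3 : G n c z ≤ 0 := le_of_tendsto_of_tendsto' h2 h1 (fun j =>
      div_le_div_of_nonneg_right (Real.posLog_le_posLog (norm_nonneg _) (hB j)) (by positivity))
    exact le_antisymm h3 (G_nonneg hn c z)

end GREEN_

open GREEN_

theorem p_GREEN : T_GREEN := by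
  intro n hn
  have hn0 : (n : ℝ) ≠ 0 := by
    have : 0 < n := by omega
    exact_mod_cast this.ne'
  refine ⟨G_cont hn, G_nonneg hn, G_func hn, G_near hn, G_zero hn, ?_, ?_, ?_⟩
  · intro c
    rw [G_zero hn]
    have hQ : ∀ k, Q n k c = (F n c)^[k] 0 := fun k => Q_eq_iterate n k c
    constructor
    · intro hc
      exact ⟨2, fun j => by rw [← hQ]; exact hc j⟩
    · rintro ⟨B, hB⟩ k
      by_contra hk
      push Not at hk
      have h1 := tendsto_of_two_lt hn hk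
      obtain ⟨m, hm⟩ := (h1.eventually (eventually_gt_atTop B)).exists
      have h2 := hB m
      rw [← hQ] at h2
      linarith
  · intro c
    have h1 := G_func hn c 0
    have h2 : F n c 0 = c := by
      unfold F
      rw [zero_pow (by omega), zero_add]
    rw [h2] at h1
    exact h1
  · intro c z ω hω
    have h1 := G_func hn c z
    have h2 := G_func hn c (ω * z)
    have h3 : F n c (ω * z) = F n c z := by
      unfold F
      rw [mul_pow, hω, one_mul]
    rw [h3, h1] at h2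
    exact (mul_left_cancel₀ hn0 h2).symm

end Pool.Agent.PLim
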