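import Pool.Agent.PLim.Targets2
import Pool.Agent.PLim.BIG

/-!
# PLIM: a label is attained at a repelling point of the Multibrot set or accumulates at an
indifferent point
-/

set_option autoImplicit false

open Complex Filter Topology Set MeasureTheory
open Pool.Agent.Multibrot Pool.Agent.Limb

namespace Pool.Agent.PLim

namespace HITA_

theorem rho_prod (n k : ℕ) (c z : ℂ) :
    Rho n k c z = ∏ j ∈ Finset.range k, (n * ((F n c)^[j] z) ^ (n - 1)) :=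
  (BIG_.hasDerivAt_iter n c z k).deriv

theorem cont_iter (n : ℕ) : ∀ j : ℕ, Continuous (fun q : ℂ × ℂ => (F n q.1)^[j] q.2) := by
  intro j
  induction j with
  | zero => exact continuous_snd
  | succ j ih =>
    have h1 : (fun q : ℂ × ℂ => (F n q.1)^[j + 1] q.2) =
        fun q : ℂ × ℂ => ((F n q.1)^[j] q.2) ^ n + q.1 := by
      funext q
      rw [Function.iterate_succ_apply']
      rfl
    rw [h1]
    exact (ih.pow n).add continuous_fst

theorem cont_rho (n k : ℕ) : Continuous (fun q : ℂ × ℂ => Rho n k q.1 q.2) := by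
  have h1 : (fun q : ℂ × ℂ => Rho n k q.1 q.2) = fun q : ℂ × ℂ =>
      ∏ j ∈ Finset.range k, (n * ((F n q.1)^[j] q.2) ^ (n - 1)) := by
    funext q
    exact rho_prod n k q.1 q.2
  rw [h1]
  exact continuous_finsetProd _ fun j _ => continuous_const.mul ((cont_iter n j).pow _)

theorem diff_iter (n : ℕ) {C Z : ℂ → ℂ} {s : Set ℂ} (hC : DifferentiableOn ℂ C s)
    (hZ : DifferentiableOn ℂ Z s) : ∀ j : ℕ,
    DifferentiableOn ℂ (fun ζ => (F n (C ζ))^[j] (Z ζ)) s := by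
  intro j
  induction j with
  | zero => exact hZ
  | succ j ih =>
    have h1 : (fun ζ => (F n (C ζ))^[j + 1] (Z ζ)) =
        fun ζ => ((F n (C ζ))^[j] (Z ζ)) ^ n + C ζ := by
      funext q
      rw [Function.iterate_succ_apply']
      rfl
    rw [h1]
    exact (ih.pow n).add hC

theorem diff_rho (n k : ℕ) {C Z : ℂ → ℂ} {s : Set ℂ} (hC : DifferentiableOn ℂ C s)
    (hZ : DifferentiableOn ℂ Z s) : DifferentiableOn ℂ (fun ζ => Rho n k (C ζ) (Z ζ)) s := by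
  have h1 : (fun ζ => Rho n k (C ζ) (Z ζ)) = fun ζ =>
      ∏ j ∈ Finset.range k, (n * ((F n (C ζ))^[j] (Z ζ)) ^ (n - 1)) := by
    funext q
    exact rho_prod n k _ _
  rw [h1]
  refine DifferentiableOn.fun_finsetProd fun j _ => ?_
  exact (differentiableOn_const _).mul ((diff_iter n hC hZ j).pow _)

/-- parameters of bounded potential are bounded -/
theorem bdd_c (hG : T_GREEN) {n : ℕ} (hn : 2 ≤ n) {c : ℂ} (h : G n c c < 1) :
    ‖c‖ ≤ 3 + 2 * Real.exp n := by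
  obtain ⟨-, -, g3, g4, -⟩ := hG n hn
  by_contra hc
  push Not at hc
  have hE : 0 < Real.exp n := Real.exp_pos _
  have hc1 : 1 ≤ ‖c‖ := by linarith
  have h1 : G n c (F n c c) < n := by
    rw [g3]
    have : (0 : ℝ) < n := by
      have : 0 < n := by omega
      exact_mod_cast this
    nlinarith
  have h2 := (abs_le.1 (g4 c (F n c c))).1
  have h3 : Real.posLog ‖F n c c‖ ≤ n + Real.log (1 + ‖c‖) := by linarith
  have h4 : ‖c‖ ^ 2 - ‖c‖ ≤ ‖F n c c‖ := by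
    unfold F
    have h5 : ‖c ^ n‖ - ‖-c‖ ≤ ‖c ^ n - -c‖ := norm_sub_norm_le _ _
    rw [sub_neg_eq_add, norm_neg, norm_pow] at h5
    have h6 : ‖c‖ ^ 2 ≤ ‖c‖ ^ n := pow_le_pow_right₀ hc1 hn
    linarith
  have h5 : 0 < ‖c‖ ^ 2 - ‖c‖ := by nlinarith
  have h6 : Real.log (‖c‖ ^ 2 - ‖c‖) ≤ n + Real.log (1 + ‖c‖) :=
    (Real.log_le_log h5 h4).trans ((le_max_right _ _).trans h3)
  have h7 : ‖c‖ ^ 2 - ‖c‖ ≤ Real.exp n * (1 + ‖c‖) := by
    have h8 := Real.exp_le_exp.2 h6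
    rwa [Real.exp_log h5, Real.exp_add, Real.exp_log (by linarith)] at h8
  nlinarith

theorem bdd_z (hG : T_GREEN) {n : ℕ} (hn : 2 ≤ n) {c z : ℂ} (h : G n c z = 0) :
    ‖z‖ ≤ 1 + ‖c‖ := by
  obtain ⟨-, -, -, g4, -⟩ := hG n hn
  have h2 := (abs_le.1 (g4 c z)).1
  rw [h] at h2
  rcases eq_or_ne z 0 with rfl | hz
  · rw [norm_zero]
    have := norm_nonneg c
    linarith
  have hz0 : 0 < ‖z‖ := norm_pos_iff.2 hz
  have h3 : Real.log ‖z‖ ≤ Real.log (1 + ‖c‖) := by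
    have h4 : Real.log ‖z‖ ≤ Real.posLog ‖z‖ := le_max_right _ _
    linarith
  have h4 : 0 < 1 + ‖c‖ := by
    have := norm_nonneg c
    linarith
  exact (Real.log_le_log_iff hz0 h4).1 h3

end HITA_

open HITA_ in
theorem p_HITA (hLS : T_LS) (hPAR : T_PAR) (hSEC : T_SECAN) (hFIX : T_FIXE) (hBV : T_BV)
    (hZOP : T_ZOP) (hLOP : T_LOP) (hLU : T_LU) (hG : T_GREEN) : T_HITA := by
  intro n k Λ lh ls l hn hk hB hL
  obtain ⟨ε, a, b, hε, hab, hlab⟩ := hLS n k l hn hk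
  obtain ⟨Cp, hCp⟩ := hPAR n Λ hn hB
  obtain ⟨Z, hZd, hZ⟩ := hSEC n k Λ lh ls Cp ε hn hk hB hL hCp hε
  obtain ⟨hCd, hCc, -⟩ := hCp
  have hπ := Real.pi_pos
  -- the points of the section
  have hpt : ∀ ζ : ℂ, 0 < ζ.re → 2 * Real.pi * a < ζ.im → ζ.im < 2 * Real.pi * b →
      (F n (Cp ζ))^[k] (Z ζ) = Z ζ ∧ 1 < ‖Rho n k (Cp ζ) (Z ζ)‖ ∧
        LabR n k Λ lh (Cp ζ) (Z ζ) l := by
    intro ζ h1 h2 h3
    obtain ⟨h4, h5⟩ := hZ ζ h1
    have h6 := ((hFIX n k Λ lh ls (Cp ζ) ζ hn hk hB hL (hCc ζ h1)).2 _ h4).1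
    have h7 : ζ.im / (2 * Real.pi) ∈ Ioo a b := by
      constructor
      · rw [lt_div_iff₀ (by positivity)]
        linarith
      · rw [div_lt_iff₀ (by positivity)]
        linarith
    obtain ⟨h8, h9⟩ := hlab _ h7
    exact ⟨h4, h6, Or.inl ⟨ζ, ε, hCc ζ h1, hε, h5, h8, h9⟩⟩
  -- bounds
  obtain ⟨R, hR⟩ : ∃ R : ℝ, R = 3 + 2 * Real.exp n := ⟨_, rfl⟩
  have hbd : ∀ ζ : ℂ, 0 < ζ.re → ζ.re < 1 → ‖Cp ζ‖ ≤ R ∧ ‖Z ζ‖ ≤ 1 + R := by
    intro ζ h1 h2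
    have h3 := hCc ζ h1
    have h4 : ‖Cp ζ‖ ≤ R := by
      rw [hR]
      apply bdd_c hG hn
      rw [← h3.2.1]
      exact h2
    have h5 := ((hFIX n k Λ lh ls (Cp ζ) ζ hn hk hB hL h3).2 _ (hZ ζ h1).1).2.1
    have h6 := bdd_z hG hn h5
    exact ⟨h4, by linarith⟩
  have hK : IsCompact (Metric.closedBall (0 : ℂ) R ×ˢ Metric.closedBall (0 : ℂ) (1 + R)) :=
    (isCompact_closedBall _ _).prod (isCompact_closedBall _ _)
  have hmemK : ∀ ζ : ℂ, 0 < ζ.re → ζ.re < 1 →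
      ((Cp ζ, Z ζ) : ℂ × ℂ) ∈ Metric.closedBall (0 : ℂ) R ×ˢ Metric.closedBall (0 : ℂ) (1 + R) := by
    intro ζ h1 h2
    obtain ⟨h3, h4⟩ := hbd ζ h1 h2
    exact ⟨mem_closedBall_zero_iff.2 h3, mem_closedBall_zero_iff.2 h4⟩
  obtain ⟨M, hM⟩ := hK.exists_bound_of_continuousOn
    (f := fun q : ℂ × ℂ => Rho n k q.1 q.2 - 1) ((cont_rho n k).sub continuous_const).continuousOn
  -- a radius along which the multiplier does not tend to one
  have hex : ∃ y : ℝ, 2 * Real.pi * a < y ∧ y < 2 * Real.pi * b ∧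
      ¬ Tendsto (fun s : ℝ => Rho n k (Cp (s + y * I)) (Z (s + y * I)) - 1) (𝓝[>] 0) (𝓝 0) := by
    by_contra hcon
    push Not at hcon
    have h1 := hBV (fun ζ => Rho n k (Cp ζ) (Z ζ) - 1) (2 * Real.pi * a) (2 * Real.pi * b) M
      (by nlinarith) ?_ ?_ (fun y hy => hcon y hy.1 hy.2)
      (((1 / 2 : ℝ) : ℂ) + ((Real.pi * (a + b) : ℝ) : ℂ) * I) ?_ ?_ ?_ ?_
    · obtain ⟨-, h2, -⟩ := hpt (((1 / 2 : ℝ) : ℂ) + ((Real.pi * (a + b) : ℝ) : ℂ) * I)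
        (by simp) (by simp; nlinarith) (by simp; nlinarith)
      have h3 := sub_eq_zero.1 h1
      rw [h3, norm_one] at h2
      exact lt_irrefl _ h2
    · have h2 : {ζ : ℂ | 0 < ζ.re ∧ ζ.re < 1 ∧ 2 * Real.pi * a < ζ.im ∧
          ζ.im < 2 * Real.pi * b} ⊆ {ζ : ℂ | 0 < ζ.re} := fun ζ h => h.1
      exact (diff_rho n k (hCd.mono h2) (hZd.mono h2)).sub_const 1
    · intro ζ h2 h3 _ _
      exact hM _ (hmemK ζ h2 h3)
    · simp
    · simp
      norm_num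
    · simp
      nlinarith
    · simp
      nlinarith
  obtain ⟨y, hya, hyb, hy⟩ := hex
  obtain ⟨η, hη, hfr⟩ : ∃ η : ℝ, 0 < η ∧ ∃ᶠ s : ℝ in 𝓝[>] 0,
      η ≤ ‖Rho n k (Cp (s + y * I)) (Z (s + y * I)) - 1‖ := by
    by_contra hcon
    push Not at hcon
    apply hy
    rw [Metric.tendsto_nhds]
    intro η hη
    have h1 := hcon η hη
    filter_upwards [h1] with s hs
    rw [dist_zero_right]
    exact hs
  have hev : ∀ᶠ s : ℝ in 𝓝[>] 0, 0 < s ∧ s < 1 := Ioo_mem_nhdsGT one_pos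
  obtain ⟨s, hs0, hs⟩ := exists_seq_forall_of_frequently (hfr.and_eventually hev)
  have hs0' : Tendsto s atTop (𝓝 0) := hs0.mono_right nhdsWithin_le_nhds
  have hre : ∀ j, ((s j : ℂ) + y * I).re = s j := fun j => by simp
  have him : ∀ j, ((s j : ℂ) + y * I).im = y := fun j => by simp
  obtain ⟨p0, -, φ, hφ, hlim⟩ := hK.tendsto_subseq
    (x := fun j => ((Cp (s j + y * I), Z (s j + y * I)) : ℂ × ℂ)) fun j =>
      hmemK _ (by rw [hre]; exact (hs j).2.1) (by rw [hre]; exact (hs j).2.2)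
  obtain ⟨c0, z0⟩ := p0
  obtain ⟨c, hc⟩ : ∃ c : ℕ → ℂ, ∀ j, c j = Cp (s (φ j) + y * I) := ⟨_, fun _ => rfl⟩
  obtain ⟨z, hz⟩ : ∃ z : ℕ → ℂ, ∀ j, z j = Z (s (φ j) + y * I) := ⟨_, fun _ => rfl⟩
  have hcz : Tendsto (fun j => ((c j, z j) : ℂ × ℂ)) atTop (𝓝 (c0, z0)) := by
    have h1 : (fun j => ((c j, z j) : ℂ × ℂ)) =
        (fun j => ((Cp (s j + y * I), Z (s j + y * I)) : ℂ × ℂ)) ∘ φ := by
      funext j
      rw [hc, hz]
      rfl
    rw [h1]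
    exact hlim
  have hclim : Tendsto c atTop (𝓝 c0) := (continuous_fst.tendsto _).comp hcz
  have hzlim : Tendsto z atTop (𝓝 z0) := (continuous_snd.tendsto _).comp hcz
  have hj : ∀ j, (F n (c j))^[k] (z j) = z j ∧ 1 < ‖Rho n k (c j) (z j)‖ ∧
      LabR n k Λ lh (c j) (z j) l := by
    intro j
    rw [hc, hz]
    apply hpt
    · rw [hre]
      exact (hs (φ j)).2.1
    · rw [him]
      exact hya
    · rw [him]
      exact hyb
  have hρlim : Tendsto (fun j => Rho n k (c j) (z j)) atTop (𝓝 (Rho n k c0 z0)) :=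
    ((cont_rho n k).tendsto (c0, z0)).comp hcz
  have hρ1 : 1 ≤ ‖Rho n k c0 z0‖ :=
    ge_of_tendsto' hρlim.norm fun j => (hj j).2.1.le
  have hρne : Rho n k c0 z0 ≠ 1 := by
    intro h
    have h1 : η ≤ ‖Rho n k c0 z0 - 1‖ := by
      refine ge_of_tendsto' (hρlim.sub_const 1).norm fun j => ?_
      rw [hc, hz]
      exact (hs (φ j)).1
    rw [h, sub_self, norm_zero] at h1
    linarith
  have hfix : (F n c0)^[k] z0 = z0 := by
    have h1 : Tendsto (fun j => (F n (c j))^[k] (z j)) atTop (𝓝 ((F n c0)^[k] z0)) :=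
      ((cont_iter n k).tendsto (c0, z0)).comp hcz
    refine tendsto_nhds_unique h1 ?_
    refine hzlim.congr fun j => ?_
    exact (hj j).1.symm
  have hMM : c0 ∈ MM n := by
    obtain ⟨g1, -, -, -, -, g6, g7, -⟩ := hG n hn
    rw [g6]
    have h0 : Tendsto (fun j => ((c j, c j) : ℂ × ℂ)) atTop (𝓝 ((c0, c0) : ℂ × ℂ)) :=
      hclim.prodMk_nhds hclim
    have h1' : Tendsto ((fun q : ℂ × ℂ => G n q.1 q.2) ∘ fun j => ((c j, c j) : ℂ × ℂ)) atTop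
      (𝓝 ((fun q : ℂ × ℂ => G n q.1 q.2) (c0, c0))) := (g1.tendsto (c0, c0)).comp h0
    have h1 : Tendsto (fun j => G n (c j) (c j)) atTop (𝓝 (G n c0 c0)) := h1'
    have h2 : Tendsto (fun j => G n (c j) (c j)) atTop (𝓝 0) := by
      refine (hs0'.comp hφ.tendsto_atTop).congr fun j => ?_
      rw [hc, ← (hCc _ (by rw [hre]; exact (hs (φ j)).2.1)).2.1, hre]
      rfl
    have h3 := tendsto_nhds_unique h1 h2
    rw [g7] at h3
    have h4 : (n : ℝ) ≠ 0 := by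
      have : n ≠ 0 := by omega
      exact_mod_cast this
    exact (mul_eq_zero.1 h3).resolve_left h4
  rcases hρ1.eq_or_lt with h1 | h1
  · exact Or.inl ⟨c, z, c0, z0, hj, hclim, hzlim, h1.symm, hρne⟩
  · right
    refine ⟨c0, z0, hMM, hfix, h1, ?_⟩
    have hnear : ∀ δ : ℝ, 0 < δ → ∃ j, ‖c j - c0‖ < δ ∧ ‖z j - z0‖ < δ := by
      intro δ hδ
      have h2 := Metric.tendsto_nhds.1 hclim δ hδ
      have h3 := Metric.tendsto_nhds.1 hzlim δ hδ
      obtain ⟨j, h4, h5⟩ := (h2.and h3).exists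
      rw [dist_eq_norm] at h4 h5
      exact ⟨j, h4, h5⟩
    have hnot : ¬ InZ n k Λ lh c0 z0 := by
      intro hin
      obtain ⟨δ, hδ, h2⟩ := hZOP n k Λ lh ls c0 z0 hn hk hB hL hMM hfix h1 hin
      obtain ⟨j, h3, h4⟩ := hnear δ hδ
      obtain ⟨h5, h6, h7⟩ := hj j
      exact (hLU n k Λ lh ls (c j) (z j) hn hk hB hL h5 h6).2.2 l h7 (h2 _ _ h3 h4 h5)
    obtain ⟨l', hl'⟩ := (hLU n k Λ lh ls c0 z0 hn hk hB hL hfix h1).1 hnot
    obtain ⟨δ, hδ, h2⟩ := hLOP n k Λ lh ls c0 z0 l' hn hk hB hL hfix h1 hl'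
    obtain ⟨j, h3, h4⟩ := hnear δ hδ
    obtain ⟨h5, h6, h7⟩ := hj j
    have h8 := (hLU n k Λ lh ls (c j) (z j) hn hk hB hL h5 h6).2.1 l' l (h2 _ _ h3 h4 h5) h7
    rw [← h8]
    exact hl'

end Pool.Agent.PLim
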