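import Pool.Agent.PLim.Targets

/-!
# PLIM: targets, batch 2 (see Blueprint2.lean.txt for the proofs)
-/

set_option autoImplicit false

open Complex Filter Topology Set MeasureTheory
open Pool.Agent.Multibrot Pool.Agent.Limb

namespace Pool.Agent.PLim

/-! ### HX. labels -/

/-- The rotation root of unity of a repelling fixed point of `f ^ k`, `c` in `MM n`. -/
def OmR (n k : ℕ) (Λ : ℂ → ℂ → ℂ) (c z w : ℂ) : Prop :=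
  ∃ (α : ℝ) (q : ℕ) (v : ℂ), Ex n k q α ∧ Lands Λ c α z ∧ Disp n k q Λ c α z v ∧
    exp (v / q) = Rho n k c z * w

/-- The points where a `k`-periodic ray lands. -/
def InZ (n k : ℕ) (Λ : ℂ → ℂ → ℂ) (lh : ℂ → ℂ → ℂ → ℂ) (c z : ℂ) : Prop :=
  (c ∈ MM n ∧ OmR n k Λ c z 1) ∨
    ∃ (ζ : ℂ) (ε : ℕ → ℤ), Crit n Λ c ζ ∧ Per k ε ∧
      (∀ j, Dig n lh c ζ ((F n c)^[j] z) (ε j)) ∧ IsInt (Rot n k (ζ.im / (2 * Real.pi)) ε)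

/-- `l` is the label of `(c, z)`. -/
def LabR (n k : ℕ) (Λ : ℂ → ℂ → ℂ) (lh : ℂ → ℂ → ℂ → ℂ) (c z : ℂ) (l : Label n k) : Prop :=
  (∃ (ζ : ℂ) (ε : ℕ → ℤ), Crit n Λ c ζ ∧ Per k ε ∧
      (∀ j, Dig n lh c ζ ((F n c)^[j] z) (ε j)) ∧ ¬ IsInt (Rot n k (ζ.im / (2 * Real.pi)) ε) ∧
      lab n k (ζ.im / (2 * Real.pi)) ε = l) ∨
    (c ∈ MM n ∧ ∃ (α θ : ℝ) (q : ℕ) (ε : ℕ → ℤ), Ex n k q α ∧ 2 ≤ q ∧ Lands Λ c α z ∧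
      Per k ε ∧ Cod n θ α ε ∧ lab n k θ ε = l)

/-- OMX (from EXR, DISPE, UNIQ, NZ, PLY). -/
def T_OMX : Prop := ∀ n : ℕ, 2 ≤ n → ∃ C : ℝ, 0 < C ∧ ∀ (k : ℕ) (Λ : ℂ → ℂ → ℂ) (c z : ℂ),
  1 ≤ k → IsBot n Λ → c ∈ MM n → (F n c)^[k] z = z → 1 < ‖Rho n k c z‖ →
  ∃ w : ℂ, OmR n k Λ c z w ∧ (∀ w' : ℂ, OmR n k Λ c z w' → w' = w) ∧
    (∀ (α : ℝ) (q : ℕ), Ex n k q α → Lands Λ c α z → (q = 1 ↔ w = 1)) ∧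
    ∃ (q : ℕ) (ν : ℂ), 1 ≤ q ∧ w ^ q = 1 ∧ exp ν = Rho n k c z * w ∧ ‖ν‖ ^ 2 ≤ C * k / q * ν.re

/-- OMC (from ST1, RCV, DISPE): local constancy of the root of unity. -/
def T_OMC : Prop := ∀ (n k : ℕ) (Λ : ℂ → ℂ → ℂ) (c0 z0 w0 : ℂ), 2 ≤ n → 1 ≤ k → IsBot n Λ →
  c0 ∈ MM n → (F n c0)^[k] z0 = z0 → 1 < ‖Rho n k c0 z0‖ → OmR n k Λ c0 z0 w0 →
  ∃ δ : ℝ, 0 < δ ∧ ∀ c z : ℂ, c ∈ MM n → ‖c - c0‖ < δ → ‖z - z0‖ < δ → (F n c)^[k] z = z →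
    OmR n k Λ c z w0

/-- LU (from OMX, FIXE, BR, RINV, WL, BD, RP): existence and uniqueness of labels. -/
def T_LU : Prop := ∀ (n k : ℕ) (Λ : ℂ → ℂ → ℂ) (lh ls : ℂ → ℂ → ℂ → ℂ) (c z : ℂ), 2 ≤ n →
  1 ≤ k → IsBot n Λ → IsLog n Λ lh ls → (F n c)^[k] z = z → 1 < ‖Rho n k c z‖ →
  (¬ InZ n k Λ lh c z → ∃ l, LabR n k Λ lh c z l) ∧
  (∀ l l', LabR n k Λ lh c z l → LabR n k Λ lh c z l' → l = l') ∧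
  (∀ l, LabR n k Λ lh c z l → ¬ InZ n k Λ lh c z)

/-- LOP (from ST1, ST2, FIXE, BR, RP, WL, RINV, PHI'): labels are locally constant. -/
def T_LOP : Prop := ∀ (n k : ℕ) (Λ : ℂ → ℂ → ℂ) (lh ls : ℂ → ℂ → ℂ → ℂ) (c0 z0 : ℂ)
  (l : Label n k), 2 ≤ n → 1 ≤ k → IsBot n Λ → IsLog n Λ lh ls → (F n c0)^[k] z0 = z0 →
  1 < ‖Rho n k c0 z0‖ → LabR n k Λ lh c0 z0 l →
  ∃ δ : ℝ, 0 < δ ∧ ∀ c z : ℂ, ‖c - c0‖ < δ → ‖z - z0‖ < δ → (F n c)^[k] z = z →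
    LabR n k Λ lh c z l

/-- ZOP (from OMC, OMX, ST2, FIXE, BR, RP): near a point of the Multibrot set where a `k`-periodic
ray lands. -/
def T_ZOP : Prop := ∀ (n k : ℕ) (Λ : ℂ → ℂ → ℂ) (lh ls : ℂ → ℂ → ℂ → ℂ) (c0 z0 : ℂ),
  2 ≤ n → 1 ≤ k → IsBot n Λ → IsLog n Λ lh ls → c0 ∈ MM n → (F n c0)^[k] z0 = z0 →
  1 < ‖Rho n k c0 z0‖ → InZ n k Λ lh c0 z0 →
  ∃ δ : ℝ, 0 < δ ∧ ∀ c z : ℂ, ‖c - c0‖ < δ → ‖z - z0‖ < δ → (F n c)^[k] z = z →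
    InZ n k Λ lh c z

/-- ZV (from ZX, OMX, BIG, FIXE): the multipliers at the points of `Z`. -/
def T_ZV : Prop := ∀ n : ℕ, 2 ≤ n → ∃ C : ℝ, 0 < C ∧
  ∀ (k : ℕ) (Λ : ℂ → ℂ → ℂ) (lh ls : ℂ → ℂ → ℂ → ℂ) (c z : ℂ), 1 ≤ k → IsBot n Λ →
  IsLog n Λ lh ls → (F n c)^[k] z = z → 1 < ‖Rho n k c z‖ → ‖Rho n k c z‖ ≤ Real.exp 1 →
  InZ n k Λ lh c z → ∃ μ : ℂ, exp μ = Rho n k c z ∧ ‖μ‖ ^ 2 ≤ C * k * μ.re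

/-- A sequence of points with label `l` tending to an indifferent point. -/
def Acc (n k : ℕ) (Λ : ℂ → ℂ → ℂ) (lh : ℂ → ℂ → ℂ → ℂ) (l : Label n k) : Prop :=
  ∃ (c z : ℕ → ℂ) (c0 z0 : ℂ), (∀ j, (F n (c j))^[k] (z j) = z j ∧ 1 < ‖Rho n k (c j) (z j)‖ ∧
    LabR n k Λ lh (c j) (z j) l) ∧ Tendsto c atTop (𝓝 c0) ∧ Tendsto z atTop (𝓝 z0) ∧
    ‖Rho n k c0 z0‖ = 1 ∧ Rho n k c0 z0 ≠ 1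

/-- HITA (from LS, PAR, SECAN, FIXE, BV, ZOP, LOP, LU, GREEN). -/
def T_HITA : Prop := ∀ (n k : ℕ) (Λ : ℂ → ℂ → ℂ) (lh ls : ℂ → ℂ → ℂ → ℂ) (l : Label n k),
  2 ≤ n → 1 ≤ k → IsBot n Λ → IsLog n Λ lh ls →
  Acc n k Λ lh l ∨ ∃ c0 z0 : ℂ, c0 ∈ MM n ∧ (F n c0)^[k] z0 = z0 ∧ 1 < ‖Rho n k c0 z0‖ ∧
    LabR n k Λ lh c0 z0 l

/-- HITB (from OMX, OMC, LOP, ZOP, LU, LOCZ, GREEN). -/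
def T_HITB : Prop := ∀ (n k : ℕ) (Λ : ℂ → ℂ → ℂ) (lh ls : ℂ → ℂ → ℂ → ℂ) (l : Label n k)
  (c0 z0 : ℂ), 2 ≤ n → 1 ≤ k → IsBot n Λ → IsLog n Λ lh ls → c0 ∈ MM n →
  (F n c0)^[k] z0 = z0 → 1 < ‖Rho n k c0 z0‖ → LabR n k Λ lh c0 z0 l → Acc n k Λ lh l

/-- The region outside the horodiscs. -/
def Vreg (κ : ℝ) : Set ℂ :=
  {μ : ℂ | 0 < μ.re ∧ 0 < μ.im ∧ μ.im < 2 * Real.pi ∧
    μ.re < κ * (min μ.im (2 * Real.pi - μ.im)) ^ 2}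

/-- ONTO (from HITA, HITB, LOP, LU, ZV, CNT, LOCZ, BIG, FIXE): every label piece covers the
region. -/
def T_ONTO : Prop := ∀ n : ℕ, 2 ≤ n → ∃ C : ℝ, 0 < C ∧
  ∀ (k : ℕ) (Λ : ℂ → ℂ → ℂ) (lh ls : ℂ → ℂ → ℂ → ℂ) (l : Label n k) (μ : ℂ), 1 ≤ k →
  IsBot n Λ → IsLog n Λ lh ls → μ ∈ Vreg (1 / (C * k)) →
  ∃ c z : ℂ, (F n c)^[k] z = z ∧ Rho n k c z = exp μ ∧ LabR n k Λ lh c z l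

/-- NC (from ONTO, LU, CNT, BOT, LOG): no critical points over the region. -/
def T_NC : Prop := ∀ n : ℕ, 2 ≤ n → ∃ C : ℝ, 0 < C ∧
  ∀ (k : ℕ) (c0 z0 μ : ℂ) (δ r : ℝ) (zf : ℂ → ℂ), 1 ≤ k → LocFix n k c0 z0 δ r zf →
  Rho n k c0 z0 = exp μ → μ ∈ Vreg (1 / (C * k)) →
  deriv (fun c => Rho n k c (zf c)) c0 ≠ 0

/-! ### JX. the section and the limbs -/

/-- SECT (from NC, TRANS, BIG, LOCZ): the section of the multiplier map. -/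
def T_SECT : Prop := ∀ n : ℕ, 2 ≤ n → ∃ C : ℝ, 1 ≤ C ∧
  ∀ (k : ℕ) (r z0 : ℂ) (τ η : ℝ), 1 ≤ k → 0 < τ → τ < 2 * Real.pi → (F n r)^[k] z0 = z0 →
  Rho n k r z0 = exp (τ * I) → η = (min τ (2 * Real.pi - τ)) ^ 2 / (C * k) →
  ∃ ψ χ : ℂ → ℂ, DifferentiableOn ℂ ψ (Metric.ball (τ * I) η) ∧
    ContinuousOn χ (Metric.ball (τ * I) η) ∧ ψ (τ * I) = r ∧ χ (τ * I) = z0 ∧
    ∀ μ ∈ Metric.ball ((τ : ℂ) * I) η, (F n (ψ μ))^[k] (χ μ) = χ μ ∧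
      Rho n k (ψ μ) (χ μ) = exp μ ∧ ‖ψ μ‖ ≤ 16 ∧ deriv ψ μ ≠ 0

/-- TOP: the topological lemma on limbs. -/
def T_TOP : Prop := ∀ (M A : Set ℂ) (r b : ℂ) (τ η K : ℝ) (q₀ : ℕ) (ψ om : ℂ → ℂ),
  IsCompact M → IsPreconnected M → A ⊆ M → (∃ U : Set ℂ, IsOpen U ∧ A = M ∩ U) →
  IsClosed (insert r A) → r ∈ M → r ∉ A → b ∈ M → b ∉ A → b ≠ r →
  0 < τ → τ < 2 * Real.pi → 0 < η → η < 1 → 0 < K → 1 ≤ q₀ →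
  exp (-(τ * I)) ^ q₀ = 1 → (∀ m : ℕ, exp (-(τ * I)) ^ m = 1 → q₀ ∣ m) →
  K * η < Real.pi ^ 2 * q₀ → K < η * q₀ →
  DifferentiableOn ℂ ψ (Metric.ball (τ * I) η) →
  (∀ μ ∈ Metric.ball ((τ : ℂ) * I) η, deriv ψ μ ≠ 0) → ψ (τ * I) = r →
  (∀ μ ∈ Metric.ball ((τ : ℂ) * I) η, ψ μ ≠ b) →
  (∀ μ ∈ Metric.ball ((τ : ℂ) * I) η, μ.re ≤ 0 → ψ μ ∈ M) →
  (∀ μ₀ ∈ Metric.ball ((τ : ℂ) * I) η, 0 < μ₀.re → ψ μ₀ ∈ M →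
    ∀ᶠ μ in 𝓝 μ₀, ψ μ ∈ M → om μ = om μ₀) →
  (∀ μ ∈ Metric.ball ((τ : ℂ) * I) η, 0 < μ.re → ψ μ ∈ M → ∃ (q : ℕ) (a : ℝ), 1 ≤ q ∧
    om μ ^ q = 1 ∧ om μ = exp (-(2 * Real.pi * a * I)) ∧
    ‖μ - 2 * Real.pi * a * I‖ ^ 2 ≤ K / q * μ.re) →
  ∀ c ∈ A, ∃ μ ∈ Metric.ball ((τ : ℂ) * I) η, 0 < μ.re ∧ ψ μ = c ∧ ‖μ - τ * I‖ ≤ K / q₀

/-- LIMB (from SECT, TOP, OMX, OMC, FIXE, BOT, LOG, GREEN): the limb bound. -/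
def T_LIMB : Prop := ∀ n : ℕ, 2 ≤ n → ∃ C : ℝ, 0 < C ∧
  ∀ (k p q : ℕ) (r z0 : ℂ) (A : Set ℂ), 1 ≤ k → 0 < p → p < q → p.Coprime q →
  (F n r)^[k] z0 = z0 → Rho n k r z0 = exp (2 * Real.pi * I * p / q) →
  A ⊆ MM n → (∃ U : Set ℂ, IsOpen U ∧ A = MM n ∩ U) → IsClosed (insert r A) → r ∉ A →
  (0 : ℂ) ∉ A →
  r ∈ MM n ∧ ∀ c ∈ A, ‖c - r‖ * (min p (q - p) : ℕ) ^ 2 ≤ C * k ^ 2 * q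

/-- CIK: the connectedness of a clopen piece with its root. -/
def T_CIK : Prop := ∀ (M A : Set ℂ) (r b : ℂ), IsClosed M → IsPreconnected M → A ⊆ M → r ∈ M →
  (∃ U : Set ℂ, IsOpen U ∧ A = M ∩ U) → IsClosed (insert r A) → r ∉ A → b ∈ M → b ∉ A →
  IsPreconnected (insert r A)

end Pool.Agent.PLim
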