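import Mathlib
import Pool.Agent.PLim.Targets2
import Pool.Agent.PLim.CNT
import Pool.Agent.Multibrot.Connected

/-!
# PLIM, HITB: every label accumulates at an indifferent point
-/

set_option autoImplicit false

open Complex Filter Topology Set
open Pool.Agent.Multibrot Pool.Agent.Limb

namespace Pool.Agent.PLim

namespace HITB_

lemma norm_le_two {n : ℕ} {c : ℂ} (hn : 2 ≤ n) (hc : c ∈ MM n) : ‖c‖ ≤ 2 := by
  have h := hc 1
  rw [Q_succ, Q_zero, zero_pow (by omega), zero_add] at h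
  exact h

lemma zero_mem {n : ℕ} (hn : 2 ≤ n) : (0 : ℂ) ∈ MM n := by
  intro k
  have h : Q n k 0 = 0 := by
    induction k with
    | zero => rfl
    | succ k ih => rw [Q_succ, ih, zero_pow (by omega), zero_add]
  rw [h, norm_zero]
  norm_num

lemma G_iter (hG : T_GREEN) {n : ℕ} (hn : 2 ≤ n) (c z : ℂ) (k : ℕ) :
    G n c ((F n c)^[k] z) = (n : ℝ) ^ k * G n c z := by
  induction k with
  | zero => simp
  | succ k ih =>
    rw [Function.iterate_succ_apply', (hG n hn).2.2.1, ih, pow_succ]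
    ring

lemma G_fix (hG : T_GREEN) {n k : ℕ} (hn : 2 ≤ n) (hk : 1 ≤ k) {c z : ℂ}
    (h : (F n c)^[k] z = z) : G n c z = 0 := by
  have h1 := G_iter hG hn c z k
  rw [h] at h1
  have h2 : (1 : ℝ) < (n : ℝ) ^ k := by
    apply one_lt_pow₀
    · exact_mod_cast (by omega : 1 < n)
    · omega
  have h3 : ((n : ℝ) ^ k - 1) * G n c z = 0 := by linarith
  rcases mul_eq_zero.1 h3 with h4 | h4
  · linarith
  · exact h4

lemma fix_bound (hG : T_GREEN) {n k : ℕ} (hn : 2 ≤ n) (hk : 1 ≤ k) {c z : ℂ} (hc : c ∈ MM n)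
    (h : (F n c)^[k] z = z) : ‖z‖ ≤ 3 := by
  have h1 := (hG n hn).2.2.2.1 c z
  rw [G_fix hG hn hk h, zero_sub, abs_neg, abs_of_nonneg Real.posLog_nonneg] at h1
  by_contra hcon
  push Not at hcon
  have h2 : Real.log ‖z‖ ≤ Real.posLog ‖z‖ := by
    unfold Real.posLog
    exact le_max_right _ _
  have h3 : Real.log (1 + ‖c‖) ≤ Real.log 3 :=
    Real.log_le_log (by linarith [norm_nonneg c]) (by linarith [norm_le_two hn hc])
  have h4 : Real.log 3 < Real.log ‖z‖ := Real.log_lt_log (by norm_num) hcon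
  linarith

lemma F_zero_iter (n k : ℕ) (z : ℂ) : (F n 0)^[k] z = z ^ (n ^ k) := by
  induction k with
  | zero => simp
  | succ k ih =>
    rw [Function.iterate_succ_apply', ih]
    unfold F
    rw [add_zero, ← pow_mul, ← pow_succ]

lemma Lam_zero (hG : T_GREEN) {n : ℕ} (hn : 2 ≤ n) {Λ : ℂ → ℂ → ℂ} (hB : IsBot n Λ) :
    ∀ s : ℂ, 0 < s.re → Λ 0 s = s := by
  have hG0 : G n 0 0 = 0 := ((hG n hn).2.2.2.2.2.1 0).1 (zero_mem hn)
  have hset : {s : ℂ | G n 0 0 < s.re} = {s : ℂ | 0 < s.re} := by rw [hG0]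
  have hopen : IsOpen {s : ℂ | 0 < s.re} := isOpen_lt continuous_const Complex.continuous_re
  have hconv : Convex ℝ {s : ℂ | 0 < s.re} := convex_halfSpace_re_gt 0
  have hd := hB.diff 0
  rw [hset] at hd
  have h1 : AnalyticOnNhd ℂ (Λ 0) {s : ℂ | 0 < s.re} := hd.analyticOnNhd hopen
  have h2 : AnalyticOnNhd ℂ (fun s : ℂ => s) {s : ℂ | 0 < s.re} := fun s _ => analyticAt_id
  have h3 : Λ 0 =ᶠ[𝓝 (1 : ℂ)] fun s : ℂ => s := by
    have h4 : ∀ᶠ s : ℂ in 𝓝 (1 : ℂ), (7 / 10 : ℝ) < s.re := by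
      apply (isOpen_lt continuous_const Complex.continuous_re).mem_nhds
      show (7 / 10 : ℝ) < (1 : ℂ).re
      norm_num
    filter_upwards [h4] with s hs
    have h5 : 2 * (1 + ‖(0 : ℂ)‖) ≤ Real.exp s.re := by
      rw [norm_zero, add_zero, mul_one]
      have h6 : Real.log 2 ≤ s.re := by
        have := Real.log_two_lt_d9
        linarith
      calc (2 : ℝ) = Real.exp (Real.log 2) := (Real.exp_log (by norm_num)).symm
        _ ≤ _ := Real.exp_le_exp.2 h6
    have h7 := (hB.near 0 s h5).2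
    rw [norm_zero, zero_mul] at h7
    exact sub_eq_zero.1 (norm_le_zero_iff.1 h7)
  have h8 := h1.eqOn_of_preconnected_of_eventuallyEq h2 hconv.isPreconnected
    (show (1 : ℂ) ∈ {s : ℂ | 0 < s.re} by show (0 : ℝ) < (1 : ℂ).re; norm_num) h3
  intro s hs
  exact h8 hs

/-- the rays for `c = 0` -/
lemma center (hG : T_GREEN) {n k : ℕ} (hn : 2 ≤ n) (hk : 1 ≤ k) {Λ : ℂ → ℂ → ℂ}
    (hB : IsBot n Λ) {z : ℂ} (hfix : (F n 0)^[k] z = z) (hrho : 1 < ‖Rho n k 0 z‖) :
    ∃ α : ℝ, Ex n k 1 α ∧ Lands Λ 0 α z := by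
  have hz0 : z ≠ 0 := by
    rintro rfl
    rw [CNT_rho, Finset.prod_eq_zero (Finset.mem_range.2 (by omega : 0 < k)), norm_zero] at hrho
    · linarith
    · rw [Function.iterate_zero, id, zero_pow (by omega), mul_zero]
  rw [F_zero_iter] at hfix
  have hN : 1 < n ^ k := Nat.one_lt_pow (by omega) (by omega)
  have hpow : z ^ (n ^ k - 1) = 1 := by
    have h1 : z ^ (n ^ k - 1) * z = 1 * z := by
      rw [← pow_succ, Nat.sub_add_cancel hN.le, hfix, one_mul]
    exact mul_right_cancel₀ hz0 h1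
  have hnorm : ‖z‖ = 1 := by
    have h1 : ‖z‖ ^ (n ^ k - 1) = 1 := by rw [← norm_pow, hpow, norm_one]
    exact (pow_eq_one_iff_of_nonneg (norm_nonneg z) (by omega)).1 h1
  set α : ℝ := arg z / (2 * Real.pi) with hα
  have hπ : (Real.pi : ℂ) ≠ 0 := by exact_mod_cast Real.pi_ne_zero
  have hzα : exp (2 * Real.pi * α * I) = z := by
    have h1 := norm_mul_exp_arg_mul_I z
    rw [hnorm, ofReal_one, one_mul] at h1
    rw [← h1, hα]
    congr 1
    push_cast
    field_simp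
  refine ⟨α, ⟨le_rfl, ?_, fun q' h1 h2 => by omega⟩, ?_⟩
  · have h1 : exp ((n ^ k - 1 : ℕ) * (2 * Real.pi * α * I)) = 1 := by
      rw [Complex.exp_nat_mul, hzα, hpow]
    obtain ⟨m, hm⟩ := exp_eq_one_iff.1 h1
    refine ⟨m, ?_⟩
    have h2 : ((n ^ k - 1 : ℕ) : ℂ) * α = m := by
      have h3 : (((n ^ k - 1 : ℕ) : ℂ) * α) * (2 * Real.pi * I) = m * (2 * Real.pi * I) := by
        rw [← hm]; ring
      have h4 : (2 * Real.pi * I : ℂ) ≠ 0 := by
        refine mul_ne_zero (mul_ne_zero (by norm_num) hπ) I_ne_zero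
      exact mul_right_cancel₀ h4 h3
    rw [mul_one]
    have h5 : ((n ^ k - 1 : ℕ) : ℝ) = (n : ℝ) ^ k - 1 := by
      rw [Nat.cast_sub hN.le]
      push_cast
      ring
    rw [← h5]
    exact_mod_cast h2
  · unfold Lands
    have h1 : Tendsto (fun t : ℝ => exp ((t : ℂ) + 2 * Real.pi * α * I)) (𝓝[>] (0 : ℝ))
        (𝓝 z) := by
      have h2 : Continuous (fun t : ℝ => exp ((t : ℂ) + 2 * Real.pi * α * I)) := by fun_prop
      have h3 := h2.tendsto 0
      rw [ofReal_zero, zero_add, hzα] at h3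
      exact h3.mono_left nhdsWithin_le_nhds
    refine h1.congr' ?_
    filter_upwards [self_mem_nhdsWithin] with t ht
    have ht' : (0 : ℝ) < t := ht
    unfold ray
    rw [Lam_zero hG hn hB]
    simpa using ht'

end HITB_

open HITB_ in
theorem p_HITB (hOMX : T_OMX) (hOMC : T_OMC) (hLOP : T_LOP) (hZOP : T_ZOP) (hLU : T_LU)
    (hLOCZ : T_LOCZ) (hG : T_GREEN) : T_HITB := by
  intro n k Λ lh ls l c0 z0 hn hk hB hL hc0 hfix0 hrho0 hlab0
  by_contra hnot
  obtain ⟨C, hC, hX⟩ := hOMX n hn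
  obtain ⟨w0, hw0, _, _, q00, _, hq001, hw0q, -, -⟩ := hX k Λ c0 z0 hk hB hc0 hfix0 hrho0
  have hw01 : w0 ≠ 1 := by
    rintro rfl
    exact (hLU n k Λ lh ls c0 z0 hn hk hB hL hfix0 hrho0).2.2 l hlab0 (Or.inl ⟨hc0, hw0⟩)
  have hw0n : ‖w0‖ = 1 := by
    have h1 : ‖w0‖ ^ q00 = 1 := by rw [← norm_pow, hw0q, norm_one]
    exact (pow_eq_one_iff_of_nonneg (norm_nonneg _) (by omega)).1 h1
  set S : Set (ℂ × ℂ) := {p | p.1 ∈ MM n ∧ (F n p.1)^[k] p.2 = p.2 ∧ 1 < ‖Rho n k p.1 p.2‖ ∧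
    LabR n k Λ lh p.1 p.2 l ∧ OmR n k Λ p.1 p.2 w0} with hS
  -- bounded
  have hbdd : Bornology.IsBounded S := by
    rw [isBounded_iff_forall_norm_le]
    refine ⟨3, fun p hp => ?_⟩
    rw [Prod.norm_def]
    exact max_le ((norm_le_two hn hp.1).trans (by norm_num)) (fix_bound hG hn hk hp.1 hp.2.1)
  -- closed
  have hclosed : IsClosed S := by
    rw [← isSeqClosed_iff_isClosed]
    intro x p hx hp
    have hp1 : Tendsto (fun j => (x j).1) atTop (𝓝 p.1) := (continuous_fst.tendsto p).comp hp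
    have hp2 : Tendsto (fun j => (x j).2) atTop (𝓝 p.2) := (continuous_snd.tendsto p).comp hp
    have hMM : p.1 ∈ MM n := (MM_closed n).mem_of_tendsto hp1
      (Eventually.of_forall fun j => (hx j).1)
    have hfix : (F n p.1)^[k] p.2 = p.2 := by
      have h1 := ((CNT_contI n k).tendsto p).comp hp
      have h2 : Tendsto (fun j => (x j).2) atTop (𝓝 ((F n p.1)^[k] p.2)) := by
        refine h1.congr fun j => ?_
        exact (hx j).2.1
      exact tendsto_nhds_unique h2 hp2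
    have hR : Tendsto (fun j => Rho n k (x j).1 (x j).2) atTop (𝓝 (Rho n k p.1 p.2)) :=
      ((CNT_contR n k).tendsto p).comp hp
    have hge : 1 ≤ ‖Rho n k p.1 p.2‖ :=
      ge_of_tendsto hR.norm (Eventually.of_forall fun j => (hx j).2.2.1.le)
    rcases hge.eq_or_lt with heq | hgt
    · -- indifferent
      exfalso
      apply hnot
      refine ⟨fun j => (x j).1, fun j => (x j).2, p.1, p.2,
        fun j => ⟨(hx j).2.1, (hx j).2.2.1, (hx j).2.2.2.1⟩, hp1, hp2, heq.symm, ?_⟩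
      -- `Rho * w0 = 1`
      have h1 : ∀ j, ∃ ν : ℂ, exp ν = Rho n k (x j).1 (x j).2 * w0 ∧
          ‖ν‖ ^ 2 ≤ C * k * Real.log ‖Rho n k (x j).1 (x j).2‖ := by
        intro j
        obtain ⟨w, _, hwu, _, q, ν, hq, _, hν1, hν2⟩ :=
          hX k Λ (x j).1 (x j).2 hk hB (hx j).1 (hx j).2.1 (hx j).2.2.1
        have hww : w0 = w := hwu w0 (hx j).2.2.2.2
        rw [← hww] at hν1
        refine ⟨ν, hν1, ?_⟩
        have h2 : Real.exp ν.re = ‖Rho n k (x j).1 (x j).2‖ := by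
          rw [← Complex.norm_exp, hν1, norm_mul, hw0n, mul_one]
        have h3 : ν.re = Real.log ‖Rho n k (x j).1 (x j).2‖ := by
          rw [← h2, Real.log_exp]
        rw [← h3]
        have h4 : 0 ≤ ν.re := by
          rw [h3]
          exact Real.log_nonneg (hx j).2.2.1.le
        refine hν2.trans ?_
        apply mul_le_mul_of_nonneg_right _ h4
        apply div_le_self (by positivity)
        exact_mod_cast hq
      choose ν hν1 hν2 using h1
      have h5 : Tendsto (fun j => C * k * Real.log ‖Rho n k (x j).1 (x j).2‖) atTop (𝓝 0) := by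
        have h6 : Tendsto (fun j => Real.log ‖Rho n k (x j).1 (x j).2‖) atTop (𝓝 0) := by
          have h7 := (Real.continuousAt_log (by rw [← heq]; norm_num :
            ‖Rho n k p.1 p.2‖ ≠ 0)).tendsto.comp hR.norm
          rw [← heq, Real.log_one] at h7
          exact h7
        have h8 := h6.const_mul (C * k)
        rw [mul_zero] at h8
        exact h8
      have h9 : Tendsto (fun j => ‖ν j‖ ^ 2) atTop (𝓝 0) :=
        squeeze_zero (fun j => by positivity) hν2 h5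
      have h10 : Tendsto ν atTop (𝓝 0) := by
        rw [tendsto_zero_iff_norm_tendsto_zero]
        have h11 := (Real.continuous_sqrt.tendsto 0).comp h9
        rw [Real.sqrt_zero] at h11
        refine h11.congr fun j => ?_
        exact Real.sqrt_sq (norm_nonneg _)
      have h12 : Tendsto (fun j => exp (ν j)) atTop (𝓝 1) := by
        have h13 := (Complex.continuous_exp.tendsto 0).comp h10
        rw [Complex.exp_zero] at h13
        exact h13
      have h14 : Tendsto (fun j => exp (ν j)) atTop (𝓝 (Rho n k p.1 p.2 * w0)) := by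
        refine (hR.mul_const w0).congr fun j => ?_
        exact (hν1 j).symm
      have h15 := tendsto_nhds_unique h12 h14
      intro h16
      rw [h16, one_mul] at h15
      exact hw01 h15.symm
    · -- repelling
      have hnear : ∀ δ : ℝ, 0 < δ → ∀ᶠ j in atTop, ‖(x j).1 - p.1‖ < δ ∧ ‖(x j).2 - p.2‖ < δ := by
        intro δ hδ
        have h1 := (Metric.tendsto_nhds.1 hp1) δ hδ
        have h2 := (Metric.tendsto_nhds.1 hp2) δ hδ
        filter_upwards [h1, h2] with j hj1 hj2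
        rw [dist_eq_norm] at hj1 hj2
        exact ⟨hj1, hj2⟩
      have hInZ : ¬ InZ n k Λ lh p.1 p.2 := by
        intro hin
        obtain ⟨δ, hδ, hh⟩ := hZOP n k Λ lh ls p.1 p.2 hn hk hB hL hMM hfix hgt hin
        obtain ⟨j, hj1, hj2⟩ := (hnear δ hδ).exists
        exact (hLU n k Λ lh ls (x j).1 (x j).2 hn hk hB hL (hx j).2.1 (hx j).2.2.1).2.2 l
          (hx j).2.2.2.1 (hh _ _ hj1 hj2 (hx j).2.1)
      obtain ⟨l', hl'⟩ := (hLU n k Λ lh ls p.1 p.2 hn hk hB hL hfix hgt).1 hInZ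
      have hll : l' = l := by
        obtain ⟨δ, hδ, hh⟩ := hLOP n k Λ lh ls p.1 p.2 l' hn hk hB hL hfix hgt hl'
        obtain ⟨j, hj1, hj2⟩ := (hnear δ hδ).exists
        exact (hLU n k Λ lh ls (x j).1 (x j).2 hn hk hB hL (hx j).2.1 (hx j).2.2.1).2.1 l' l
          (hh _ _ hj1 hj2 (hx j).2.1) (hx j).2.2.2.1
      rw [hll] at hl'
      obtain ⟨w', hw', _, _, _⟩ := hX k Λ p.1 p.2 hk hB hMM hfix hgt
      have hww : w' = w0 := by
        obtain ⟨δ, hδ, hh⟩ := hOMC n k Λ p.1 p.2 w' hn hk hB hMM hfix hgt hw'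
        obtain ⟨j, hj1, hj2⟩ := (hnear δ hδ).exists
        obtain ⟨w, _, hwu, _, _⟩ :=
          hX k Λ (x j).1 (x j).2 hk hB (hx j).1 (hx j).2.1 (hx j).2.2.1
        rw [hwu w' (hh _ _ (hx j).1 hj1 hj2 (hx j).2.1), hwu w0 (hx j).2.2.2.2]
      rw [hww] at hw'
      exact ⟨hMM, hfix, hgt, hl', hw'⟩
  have hcomp : IsCompact S := Metric.isCompact_of_isClosed_isBounded hclosed hbdd
  have hPc : IsClosed (Prod.fst '' S) := (hcomp.image continuous_fst).isClosed
  -- open in `MM n`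
  have hopen : ∀ c ∈ Prod.fst '' S, ∃ ε : ℝ, 0 < ε ∧ ∀ c' ∈ MM n, ‖c' - c‖ < ε →
      c' ∈ Prod.fst '' S := by
    rintro _ ⟨p, hp, rfl⟩
    obtain ⟨hp1, hp2, hp3, hp4, hp5⟩ := hp
    have hne1 : Rho n k p.1 p.2 ≠ 1 := by
      intro h
      rw [h, norm_one] at hp3
      exact lt_irrefl _ hp3
    obtain ⟨δ, r, zf, _, _, hloc⟩ := hLOCZ n k p.1 p.2 1 hn one_pos hp2 hne1
    obtain ⟨δ1, hδ1, h1⟩ := hLOP n k Λ lh ls p.1 p.2 l hn hk hB hL hp2 hp3 hp4
    obtain ⟨δ2, hδ2, h2⟩ := hOMC n k Λ p.1 p.2 w0 hn hk hB hp1 hp2 hp3 hp5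
    have hcz : ContinuousAt zf p.1 :=
      (hloc.diff.differentiableAt (Metric.ball_mem_nhds _ hloc.hδ)).continuousAt
    have hcR : ContinuousAt (fun c => Rho n k c (zf c)) p.1 := by
      have h3 : ContinuousAt (fun c => ((c, zf c) : ℂ × ℂ)) p.1 := continuousAt_id.prodMk hcz
      exact ((CNT_contR n k).continuousAt).comp h3
    have e1 : ∀ᶠ c in 𝓝 p.1, 1 < ‖Rho n k c (zf c)‖ := by
      apply hcR.norm.eventually_const_lt
      show 1 < ‖Rho n k p.1 (zf p.1)‖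
      rw [hloc.zf0]
      exact hp3
    have e2 : ∀ᶠ c in 𝓝 p.1, ‖zf c - p.2‖ < min δ1 δ2 := by
      have h3 := Metric.tendsto_nhds.1 hcz.tendsto (min δ1 δ2) (lt_min hδ1 hδ2)
      filter_upwards [h3] with c hc
      rw [hloc.zf0, dist_eq_norm] at hc
      exact hc
    have e3 : ∀ᶠ c in 𝓝 p.1, c ∈ Metric.ball p.1 (min δ (min δ1 δ2)) :=
      Metric.ball_mem_nhds _ (lt_min hloc.hδ (lt_min hδ1 hδ2))
    obtain ⟨ε, hε, hε'⟩ := Metric.eventually_nhds_iff.1 (e1.and (e2.and e3))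
    refine ⟨ε, hε, fun c' hc' hlt => ?_⟩
    obtain ⟨g1, g2, g3⟩ := hε' (by rw [dist_eq_norm]; exact hlt)
    rw [Metric.mem_ball, dist_eq_norm] at g3
    have g4 : c' ∈ Metric.ball p.1 δ := by
      rw [Metric.mem_ball, dist_eq_norm]
      exact g3.trans_le (min_le_left _ _)
    have g5 : ‖c' - p.1‖ < δ1 := g3.trans_le ((min_le_right _ _).trans (min_le_left _ _))
    have g6 : ‖c' - p.1‖ < δ2 := g3.trans_le ((min_le_right _ _).trans (min_le_right _ _))
    have hf := hloc.fix c' g4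
    refine ⟨(c', zf c'), ⟨hc', hf, g1, ?_, ?_⟩, rfl⟩
    · exact h1 c' (zf c') g5 (g2.trans_le (min_le_left _ _)) hf
    · exact h2 c' (zf c') hc' g6 (g2.trans_le (min_le_right _ _)) hf
  -- preconnectedness
  have hall : MM n ⊆ Prod.fst '' S := by
    by_contra hcon
    rw [Set.not_subset] at hcon
    obtain ⟨b, hb, hbn⟩ := hcon
    choose! ε hε hεm using hopen
    set U : Set ℂ := ⋃ c ∈ Prod.fst '' S, Metric.ball c (ε c) with hU
    have hUo : IsOpen U := isOpen_biUnion fun c _ => Metric.isOpen_ball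
    have hUS : ∀ c' ∈ MM n, c' ∈ U → c' ∈ Prod.fst '' S := by
      intro c' hc' hcU
      rw [hU, Set.mem_iUnion₂] at hcU
      obtain ⟨c, hc, hcb⟩ := hcU
      rw [Metric.mem_ball, dist_eq_norm] at hcb
      exact hεm c hc c' hc' hcb
    have hSU : Prod.fst '' S ⊆ U := by
      intro c hc
      rw [hU, Set.mem_iUnion₂]
      exact ⟨c, hc, Metric.mem_ball_self (hε c hc)⟩
    have h1 := MM_connected hn U (Prod.fst '' S)ᶜ hUo hPc.isOpen_compl
      (fun c _ => by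
        by_cases h : c ∈ Prod.fst '' S
        · exact Or.inl (hSU h)
        · exact Or.inr h)
      ⟨c0, hc0, hSU ⟨(c0, z0), ⟨hc0, hfix0, hrho0, hlab0, hw0⟩, rfl⟩⟩
      ⟨b, hb, hbn⟩
    obtain ⟨c', hc', hcU, hcn⟩ := h1
    exact hcn (hUS c' hc' hcU)
  obtain ⟨p, hp, hp0⟩ := hall (zero_mem hn)
  obtain ⟨hp1, hp2, hp3, hp4, hp5⟩ := hp
  have hp0' : p.1 = 0 := hp0
  rw [hp0'] at hp1 hp2 hp3 hp4 hp5
  obtain ⟨α, hα1, hα2⟩ := center hG hn hk hB hp2 hp3
  obtain ⟨w, _, hwu, hw1, _⟩ := hX k Λ 0 p.2 hk hB hp1 hp2 hp3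
  have h1 : w = 1 := (hw1 α 1 hα1 hα2).1 rfl
  exact hw01 ((hwu w0 hp5).trans h1)

end Pool.Agent.PLim
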