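import Pool.Agent.PLim.Targets

/-!
# IE: comparison with the map used in LIMB
-/

set_option autoImplicit false

open Complex Filter Topology Set MeasureTheory
open Pool.Agent.Multibrot Pool.Agent.Limb

namespace Pool.Agent.PLim

namespace IE_

theorem norm_le_two {n : ℕ} (hn : 2 ≤ n) {c : ℂ} (hc : c ∈ MM n) : ‖c‖ ≤ 2 := by
  have h := hc 1
  rwa [Q_one (by omega)] at h

theorem six_le_exp {x : ℝ} (hx : 2 ≤ x) : 6 ≤ Real.exp x := by
  have h1 : Real.exp 2 = Real.exp 1 * Real.exp 1 := by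
    rw [← Real.exp_add]
    norm_num
  have h2 := Real.exp_one_gt_d9
  have h3 : Real.exp 2 ≤ Real.exp x := Real.exp_le_exp.2 hx
  nlinarith

end IE_

open IE_ in
/-- IE -/
theorem p_IE (hG : T_GREEN) : T_IE := by
  intro n Λ hn hB
  obtain ⟨-, -, -, hlog, -, hMM, -, -⟩ := hG n hn
  have h0 : ∀ c ∈ MM n, G n c 0 = 0 := fun c hc => (hMM c).1 hc
  refine ⟨?_, ?_, ?_, ?_, ?_, ?_, ?_⟩
  · refine hB.cont.mono ?_
    rintro ⟨c, s⟩ ⟨hc, hs⟩
    show G n c 0 < s.re
    rw [h0 c hc]
    exact hs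
  · intro c hc
    have h := hB.diff c
    rwa [h0 c hc] at h
  · intro c hc s hs
    exact hB.func c s (by rwa [h0 c hc])
  · intro c hc s hs
    exact hB.rot c s (by rwa [h0 c hc])
  · intro c hc s hs
    have hc2 := norm_le_two hn hc
    have h6 := six_le_exp hs
    have h1 := (hB.near c s (by linarith)).2
    refine h1.trans ?_
    have h2 : Real.exp (-(n * s.re)) ≤ Real.exp (-s.re) * Real.exp (-s.re) := by
      rw [← Real.exp_add]
      apply Real.exp_le_exp.2
      have : (2 : ℝ) ≤ n := by exact_mod_cast hn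
      nlinarith
    have h3 : Real.exp (-s.re) ≤ 1 / 6 := by
      rw [Real.exp_neg, ← one_div]
      exact one_div_le_one_div_of_le (by norm_num) h6
    have h4 := Real.exp_pos (-s.re)
    have h5 : 0 ≤ Real.exp (-(n * s.re)) := (Real.exp_pos _).le
    calc ‖c‖ * Real.exp (-(n * s.re)) ≤ 2 * (Real.exp (-s.re) * Real.exp (-s.re)) :=
          mul_le_mul hc2 h2 h5 (by norm_num)
      _ ≤ Real.exp (-s.re) := by nlinarith
  · intro c hc s t hs ht h
    exact hB.inj c s t (by rwa [h0 c hc]) (by rwa [h0 c hc]) h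
  · intro c hc s hs
    have hc2 := norm_le_two hn hc
    have h1 := hB.green c s (by rwa [h0 c hc])
    have h2 := hlog c (exp (Λ c s))
    rw [h1, abs_le] at h2
    have hpos : 0 < ‖exp (Λ c s)‖ := norm_pos_iff.2 (exp_ne_zero _)
    have h3 : Real.log ‖exp (Λ c s)‖ ≤ Real.posLog ‖exp (Λ c s)‖ := le_max_right _ _
    have h4 : Real.log (1 + ‖c‖) ≤ Real.log 4 :=
      Real.log_le_log (by positivity) (by linarith)
    have h5 : Real.log ‖exp (Λ c s)‖ ≤ Real.log 4 + s.re := by linarith [h2.1]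
    calc ‖exp (Λ c s)‖ = Real.exp (Real.log ‖exp (Λ c s)‖) := (Real.exp_log hpos).symm
      _ ≤ Real.exp (Real.log 4 + s.re) := Real.exp_le_exp.2 h5
      _ = 4 * Real.exp s.re := by rw [Real.exp_add, Real.exp_log (by norm_num)]

end Pool.Agent.PLim
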