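import Pool.Agent.PLim.Targets

set_option autoImplicit false

open Complex Filter Topology Set MeasureTheory
open Pool.Agent.Multibrot Pool.Agent.Limb

namespace Pool.Agent.PLim

namespace KOE_

theorem brw_add (n : ℕ) (lh : ℂ → ℂ → ℂ → ℂ) (c ζ : ℂ) (ε : ℕ → ℤ) (a b : ℕ) (x : ℂ) :
    brw n lh c ζ ε (a + b) x = brw n lh c ζ ε a (brw n lh c ζ (fun t => ε (a + t)) b x) := by
  induction b generalizing x with
  | zero => rfl
  | succ b ih =>
    rw [← Nat.add_assoc]
    show brw n lh c ζ ε (a + b) (br n lh c ζ (ε (a + b)) x) = _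
    rw [ih]
    rfl

theorem per_mul {k : ℕ} {ε : ℕ → ℤ} (h : Per k ε) (m : ℕ) : (fun t => ε (k * m + t)) = ε := by
  induction m with
  | zero => funext t; simp
  | succ m ih =>
    funext t
    have h1 : k * (m + 1) + t = (k * m + t) + k := by ring
    rw [h1, h]
    exact congrFun ih t

theorem iter_brw (n : ℕ) (lh : ℂ → ℂ → ℂ → ℂ) (c ζ : ℂ) {k : ℕ} {ε : ℕ → ℤ} (h : Per k ε)
    (m : ℕ) (x : ℂ) : (brw n lh c ζ ε k)^[m] x = brw n lh c ζ ε (k * m) x := by
  induction m generalizing x with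
  | zero => rfl
  | succ m ih =>
    rw [Function.iterate_succ_apply, ih, Nat.mul_succ, brw_add, per_mul h]

theorem brw_fix (n : ℕ) (lh : ℂ → ℂ → ℂ → ℂ) (c ζ z : ℂ) (ε : ℕ → ℤ)
    (h : ∀ j, Dig n lh c ζ ((F n c)^[j] z) (ε j)) (m : ℕ) :
    brw n lh c ζ ε m ((F n c)^[m] z) = z := by
  induction m with
  | zero => rfl
  | succ m ih =>
    show brw n lh c ζ ε m (br n lh c ζ (ε m) ((F n c)^[m + 1] z)) = z
    have h1 := h m
    unfold Dig at h1
    rw [Function.iterate_succ_apply', h1, ih]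

end KOE_

open KOE_

theorem p_KOE (hAREAL : T_AREAL) (hBR : T_BR) (hFIXE : T_FIXE) (hLIN : T_LIN)
    (hGREEN : T_GREEN) : T_KOE := by
  intro n k Λ lh ls c ζ z ε hn hk hΛ hlog hcrit hper hz hdig
  obtain ⟨gcont, gnn, -, -, -, -, -, -⟩ := hGREEN n hn
  obtain ⟨hrep, hGz, -⟩ := (hFIXE n k Λ lh ls c ζ hn hk hΛ hlog hcrit).2 z hz
  obtain ⟨-, -, -, -, -, hb6, hb7⟩ := hBR n Λ lh ls c ζ hn hΛ hlog hcrit
  obtain ⟨δ, r, η, zf, gi, ka, -, -, hL⟩ := hLIN n k c z 1 hn hk one_pos hz hrep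
  have hcb : c ∈ Metric.ball c δ := Metric.mem_ball_self hL.hδ
  have hzfc : zf c = z := hL.zf0
  set lam : ℂ := Rho n k c z with hlam
  have hlam0 : lam ≠ 0 := by
    intro h
    rw [h, norm_zero] at hrep
    linarith
  set g : ℂ → ℂ := brw n lh c ζ ε k with hg
  have hgz : g z = z := by
    have := brw_fix n lh c ζ z ε hdig k
    rwa [hz] at this
  have hgmz : ∀ m, g^[m] z = z := fun m => Function.iterate_fixed hgz m
  have hgit : ∀ m x, g^[m] x = brw n lh c ζ ε (k * m) x := fun m x => iter_brw n lh c ζ hper m x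
  have hn0 : (0 : ℝ) < n := by exact_mod_cast (by omega : 0 < n)
  have hn1 : (1 : ℝ) ≤ n := by exact_mod_cast (by omega : 1 ≤ n)
  have hζ0 : 0 < ζ.re := by
    have h1 := hcrit.2.1
    rw [h1]
    by_contra hcon
    have h2 : G n c c = 0 := le_antisymm (not_lt.mp hcon) (gnn c c)
    have h3 := (hGREEN n hn).2.2.2.2.2.2.1 c
    rw [h2] at h3
    have h4 : G n c 0 = 0 := by
      rcases mul_eq_zero.mp h3.symm with h | h
      · exact absurd h hn0.ne'
      · exact h
    exact hcrit.1 (((hGREEN n hn).2.2.2.2.2.1 c).mpr h4)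
  have hGm : ∀ m x, G n c x < ζ.re → G n c (g^[m] x) ≤ G n c x := by
    intro m x hx
    rw [hgit, (hb6 ε (k * m) x hx).2]
    exact div_le_self (gnn c x) (one_le_pow₀ hn1)
  have hGg : ∀ x, G n c x < ζ.re → G n c (g x) < ζ.re := fun x hx =>
    lt_of_le_of_lt (hGm 1 x hx) hx
  -- uniform convergence
  have hunif : ∀ σ : ℝ, σ < ζ.re → ∃ M : ℕ, ∀ m, M ≤ m → ∀ x, G n c x ≤ σ →
      g^[m] x ∈ Metric.ball z r := by
    intro σ hσ
    have hσ' : max σ 0 < ζ.re := max_lt hσ hζ0
    obtain ⟨m₀, hm₀⟩ := hAREAL n Λ lh ls c ζ hn hΛ hlog hcrit ε (max σ 0) (r / 2) hσ'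
      (half_pos hL.hr)
    refine ⟨m₀, fun m hm x hx => ?_⟩
    have h1 := hm₀ (k * m) (le_trans hm (Nat.le_mul_of_pos_left m (by omega))) x z
      (hx.trans (le_max_left _ _)) (by rw [hGz]; exact le_max_right _ _)
    rw [← hgit, ← hgit, hgmz] at h1
    rw [Metric.mem_ball, dist_eq_norm]
    have := hL.hr
    linarith
  -- one step near `z`
  have hstep : ∀ x, G n c x < ζ.re → x ∈ Metric.ball z r → g x ∈ Metric.ball z r →
      g x = gi c x := by
    intro x hx hxB hgxB
    refine hL.inj c hcb hgxB (hL.gimem c hcb x hxB) ?_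
    rw [hL.giinv c hcb x hxB]
    exact (hb6 ε k x hx).1
  have hstab : ∀ x, G n c x < ζ.re → ∀ M : ℕ, (∀ m, M ≤ m → g^[m] x ∈ Metric.ball z r) →
      ∀ m, M ≤ m → lam ^ m * ka c (g^[m] x) = lam ^ M * ka c (g^[M] x) := by
    intro x hx M hM m hm
    induction m, hm using Nat.le_induction with
    | base => rfl
    | succ m hm ih =>
      rw [← ih, Function.iterate_succ_apply']
      have h1 : G n c (g^[m] x) < ζ.re := lt_of_le_of_lt (hGm m x hx) hx
      have h2 : g (g^[m] x) ∈ Metric.ball z r := by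
        have := hM (m + 1) (by omega)
        rwa [Function.iterate_succ_apply'] at this
      rw [hstep _ h1 (hM m hm) h2]
      have h3 := hL.kagi c hcb _ (hM m hm)
      rw [hzfc] at h3
      rw [← h3, pow_succ]
      ring
  have hex : ∀ x : ℂ, ∃ w : ℂ, G n c x < ζ.re → ∃ M : ℕ, ∀ m, M ≤ m →
      lam ^ m * ka c (g^[m] x) = w := by
    intro x
    by_cases hx : G n c x < ζ.re
    · obtain ⟨M, hM⟩ := hunif (G n c x) hx
      exact ⟨lam ^ M * ka c (g^[M] x), fun _ =>
        ⟨M, fun m hm => hstab x hx M (fun j hj => hM j hj x le_rfl) m hm⟩⟩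
    · exact ⟨0, fun h => absurd h hx⟩
  choose ka' hka' using hex
  have hval : ∀ x, G n c x < ζ.re → ∀ M : ℕ, (∀ m, M ≤ m → g^[m] x ∈ Metric.ball z r) →
      ka' x = lam ^ M * ka c (g^[M] x) := by
    intro x hx M hM
    obtain ⟨M', hM'⟩ := hka' x hx
    rw [← hM' (max M M') (le_max_right _ _)]
    exact hstab x hx M hM _ (le_max_left _ _)
  refine ⟨ka', ?_, ?_, ?_, ?_⟩
  · intro x0 hx0
    have hx0' : G n c x0 < ζ.re := hx0
    obtain ⟨σ, hσ1, hσ2⟩ := exists_between hx0'
    obtain ⟨M, hM⟩ := hunif σ hσ2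
    have hcont0 : Continuous (fun x : ℂ => ((c, x) : ℂ × ℂ)) := by fun_prop
    have hcontc : Continuous (fun x => G n c x) := by
      have h := gcont.comp hcont0
      simpa only [Function.comp_def] using h
    have hopen : IsOpen {x : ℂ | G n c x < σ} := isOpen_lt hcontc continuous_const
    have hsub : {x : ℂ | G n c x < σ} ⊆ {x : ℂ | G n c x < ζ.re} := fun x hx =>
      lt_trans hx hσ2
    have hd : DifferentiableAt ℂ (fun x => lam ^ M * ka c (g^[M] x)) x0 := by
      have h1 : DifferentiableAt ℂ (g^[M]) x0 := by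
        have h2 : g^[M] = brw n lh c ζ ε (k * M) := funext fun x => hgit M x
        rw [h2]
        exact ((hb7 ε (k * M)).1.mono hsub).differentiableAt (hopen.mem_nhds hσ1)
      have h4 : g^[M] x0 ∈ Metric.ball z r := hM M (le_refl M) x0 (le_of_lt hσ1)
      have h5 : Metric.ball z r ∈ 𝓝 (g^[M] x0) := Metric.isOpen_ball.mem_nhds h4
      have h3 : DifferentiableAt ℂ (ka c) (g^[M] x0) :=
        DifferentiableOn.differentiableAt (hL.kadiff c hcb) h5
      have h6 : DifferentiableAt ℂ (ka c ∘ g^[M]) x0 := DifferentiableAt.comp x0 h3 h1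
      exact h6.const_mul _
    have heq : ka' =ᶠ[𝓝 x0] fun x => lam ^ M * ka c (g^[M] x) := by
      filter_upwards [hopen.mem_nhds hσ1] with x hx
      exact hval x (hsub hx) M fun m hm => hM m hm x (le_of_lt hx)
    exact (heq.differentiableAt_iff.mpr hd).differentiableWithinAt
  · intro x hx y hy hxy
    have hx' : G n c x < ζ.re := hx
    have hy' : G n c y < ζ.re := hy
    obtain ⟨M, hM⟩ := hunif (max (G n c x) (G n c y)) (max_lt hx' hy')
    rw [hval x hx' M fun m hm => hM m hm x (le_max_left _ _),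
      hval y hy' M fun m hm => hM m hm y (le_max_right _ _)] at hxy
    have h1 := mul_left_cancel₀ (pow_ne_zero M hlam0) hxy
    have h2 := hL.kainj c hcb (hM M le_rfl x (le_max_left _ _))
      (hM M le_rfl y (le_max_right _ _)) h1
    rw [hgit, hgit] at h2
    exact (hb7 ε (k * M)).2 hx hy h2
  · have h1 := hval z (by rw [hGz]; exact hζ0) 0 (fun m _ => by
      rw [hgmz]; exact Metric.mem_ball_self hL.hr)
    have h2 := hL.kazf c hcb
    rw [hzfc] at h2
    rw [h1]
    simp [h2]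
  · intro x hx
    obtain ⟨M, hM⟩ := hunif (G n c x) hx
    have h1 := hval (g x) (hGg x hx) M (fun m hm => by
      rw [← Function.iterate_succ_apply]
      exact hM (m + 1) (by omega) x le_rfl)
    have h2 := hval x hx (M + 1) (fun m hm => hM m (by omega) x le_rfl)
    show ka' (g x) * lam = ka' x
    rw [h1, h2, Function.iterate_succ_apply, pow_succ]
    ring

end Pool.Agent.PLim
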