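import Pool.Agent.PLim.Targets

/-!
# L1: an injective analytic function on the half plane whose size is at least a power of the real
part has an identification by a power of `lam`
-/

set_option autoImplicit false

open Complex Filter Topology Set MeasureTheory

namespace Pool.Agent.PLim

namespace L1_

/-- overlap of the balls -/
theorem overlap (u : ℂ) (S : Finset ℕ)
    (h : ∀ m ∈ S, u ∈ Metric.ball ((3 / 2 * 2 ^ m : ℝ) : ℂ) (2 * (3 / 5 * 2 ^ m))) : S.card ≤ 4 := by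
  rcases S.eq_empty_or_nonempty with h0 | h0
  · rw [h0]
    simp
  have hb : ∀ m ∈ S, 3 / 10 * 2 ^ m < ‖u‖ ∧ ‖u‖ < 27 / 10 * 2 ^ m := by
    intro m hm
    have h1 := h m hm
    rw [Metric.mem_ball, dist_eq_norm] at h1
    have h2 : ‖((3 / 2 * 2 ^ m : ℝ) : ℂ)‖ = 3 / 2 * 2 ^ m := by
      rw [Complex.norm_real, Real.norm_eq_abs, abs_of_pos (by positivity)]
    have h3 := norm_sub_norm_le u ((3 / 2 * 2 ^ m : ℝ) : ℂ)
    have h4 := norm_sub_norm_le ((3 / 2 * 2 ^ m : ℝ) : ℂ) u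
    rw [norm_sub_rev] at h4
    rw [h2] at h3 h4
    constructor
    · linarith
    · linarith
  have hsub : S ⊆ Finset.Icc (S.min' h0) (S.min' h0 + 3) := by
    intro m hm
    rw [Finset.mem_Icc]
    refine ⟨S.min'_le m hm, ?_⟩
    by_contra hlt
    push Not at hlt
    have h1 := (hb m hm).1
    have h2 := (hb _ (S.min'_mem h0)).2
    have h3 : (2 : ℝ) ^ (S.min' h0 + 4) ≤ 2 ^ m := pow_le_pow_right₀ (by norm_num) (by omega)
    rw [pow_add] at h3
    have h4 : (0 : ℝ) < 2 ^ (S.min' h0) := by positivity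
    norm_num at h3
    linarith
  calc S.card ≤ (Finset.Icc (S.min' h0) (S.min' h0 + 3)).card := Finset.card_le_card hsub
    _ = 4 := by rw [Nat.card_Icc]; omega

/-- sum of the integrals over the balls -/
theorem sum_int (g : ℂ → ENNReal) (H : Set ℂ)
    (hsub : ∀ m : ℕ, Metric.ball ((3 / 2 * 2 ^ m : ℝ) : ℂ) (2 * (3 / 5 * 2 ^ m)) ⊆ H)
    (hg : AEMeasurable g (volume.restrict H)) (M : ℕ) :
    ∑ m ∈ Finset.range M, ∫⁻ u in Metric.ball ((3 / 2 * 2 ^ m : ℝ) : ℂ) (2 * (3 / 5 * 2 ^ m)), g u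
      ≤ 4 * ∫⁻ u in H, g u := by
  have h1 : ∀ m : ℕ, ∫⁻ u in Metric.ball ((3 / 2 * 2 ^ m : ℝ) : ℂ) (2 * (3 / 5 * 2 ^ m)), g u =
      ∫⁻ u in H, (Metric.ball ((3 / 2 * 2 ^ m : ℝ) : ℂ) (2 * (3 / 5 * 2 ^ m))).indicator g u := by
    intro m
    rw [lintegral_indicator Metric.isOpen_ball.measurableSet,
      Measure.restrict_restrict Metric.isOpen_ball.measurableSet,
      Set.inter_eq_left.mpr (hsub m)]
  rw [Finset.sum_congr rfl fun m _ => h1 m, ← lintegral_finsetSum' _ (fun m _ =>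
    hg.indicator Metric.isOpen_ball.measurableSet), ← lintegral_const_mul' _ _ (by simp)]
  apply lintegral_mono
  intro u
  simp only
  classical
  have h2 : ∀ m, (Metric.ball ((3 / 2 * 2 ^ m : ℝ) : ℂ) (2 * (3 / 5 * 2 ^ m))).indicator g u =
      if u ∈ Metric.ball ((3 / 2 * 2 ^ m : ℝ) : ℂ) (2 * (3 / 5 * 2 ^ m)) then g u else 0 := by
    intro m
    rw [Set.indicator_apply]
  rw [Finset.sum_congr rfl fun m _ => h2 m, ← Finset.sum_filter, Finset.sum_const,
    nsmul_eq_mul]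
  have h3 := overlap u ((Finset.range M).filter (fun m : ℕ =>
    u ∈ Metric.ball ((3 / 2 * 2 ^ m : ℝ) : ℂ) (2 * (3 / 5 * 2 ^ m))))
    (fun m hm => (Finset.mem_filter.mp hm).2)
  gcongr
  exact_mod_cast h3

/-- the growth comparison -/
theorem growth (K c : ℝ) (h : ∀ s : ℕ, (2 : ℝ) ^ (s ^ 2) ≤ K * Real.exp (c * s)) : False := by
  have hK : 0 < K := by
    have := h 0
    simp at this
    linarith
  obtain ⟨s, hs⟩ := exists_nat_gt ((|Real.log K| + |c|) / Real.log 2 + 1)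
  have hl2 : 0 < Real.log 2 := Real.log_pos (by norm_num)
  have h1 := h s
  have h2 := Real.log_le_log (by positivity) h1
  rw [Real.log_pow, Real.log_mul hK.ne' (Real.exp_ne_zero _), Real.log_exp] at h2
  have h3 : (|Real.log K| + |c|) / Real.log 2 < s := by linarith
  rw [div_lt_iff₀ hl2] at h3
  have hs1 : (1 : ℝ) ≤ s := by
    have h4 : 0 ≤ (|Real.log K| + |c|) / Real.log 2 := by positivity
    linarith
  push_cast at h2
  have h5 := le_abs_self (Real.log K)
  have h6 := le_abs_self c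
  have h7 : (|Real.log K| + |c|) * s < s * Real.log 2 * s := by
    apply mul_lt_mul_of_pos_right h3
    linarith
  have h8 : |Real.log K| ≤ |Real.log K| * s := by
    nlinarith [abs_nonneg (Real.log K)]
  have h9 : c * s ≤ |c| * s := mul_le_mul_of_nonneg_right h6 (by linarith)
  nlinarith

end L1_

open L1_ in
theorem p_L1 (hD : T_DISP1) (hV : T_CHV) (hT : T_TOR) : T_L1 := by
  intro E lam A D hlam hD0 hdiff hinj hne hgrow
  by_contra hcon
  push Not at hcon
  set H : Set ℂ := {ξ : ℂ | 0 < ξ.re} with hH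
  have hHo : IsOpen H := isOpen_lt continuous_const Complex.continuous_re
  have hlam0 : lam ≠ 0 := by
    intro h
    rw [h, norm_zero] at hlam
    linarith
  -- area of the torus
  have hmeas : MeasurableSet (E '' H) :=
    hHo.measurableSet.image_of_continuousOn_injOn hdiff.continuousOn hinj
  have htor := hT lam 1 1 (fun _ => E '' H) hlam (fun _ => hmeas) (fun _ h0 => by
    obtain ⟨ξ, hξ, h⟩ := h0
    exact hne ξ hξ h) (by
    intro w hw P hP
    rw [Finset.card_le_one]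
    intro p hp p' hp'
    have key : ∀ a b : Fin 1 × ℤ, a ∈ P → b ∈ P → a.2 < b.2 → False := by
      intro a b ha hb hab
      obtain ⟨ξ, hξ, h1⟩ := hP a ha
      obtain ⟨ξ', hξ', h2⟩ := hP b hb
      obtain ⟨q, hq⟩ : ∃ q : ℕ, b.2 = q + a.2 := ⟨(b.2 - a.2).toNat, by omega⟩
      apply hcon ξ ξ' q hξ hξ' (by omega)
      rw [h1, h2, hq, zpow_add₀ hlam0, zpow_natCast]
      ring
    have h1 : p.2 = p'.2 := by
      rcases lt_trichotomy p.2 p'.2 with h | h | h
      · exact absurd (key p p' hp hp' h) id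
      · exact h
      · exact absurd (key p' p hp' hp h) id
    exact Prod.ext (Subsingleton.elim _ _) h1)
  rw [Finset.univ_unique, Finset.sum_singleton] at htor
  rw [hV H E (fun w => (‖w‖ₑ ^ 2)⁻¹) hHo hdiff hinj] at htor
  -- the logarithmic derivative
  have hdE : DifferentiableOn ℂ (deriv E) H := hdiff.deriv hHo
  have hgd : DifferentiableOn ℂ (fun u => deriv E u / E u) H := hdE.div hdiff hne
  have hgae : AEMeasurable (fun u => ‖deriv E u‖ₑ ^ 2 * (‖E u‖ₑ ^ 2)⁻¹) (volume.restrict H) := by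
    have h1 : AEMeasurable (deriv E) (volume.restrict H) :=
      hdE.continuousOn.aemeasurable hHo.measurableSet
    have h2 : AEMeasurable E (volume.restrict H) :=
      hdiff.continuousOn.aemeasurable hHo.measurableSet
    exact (h1.enorm.pow_const 2).mul (h2.enorm.pow_const 2).inv
  have hsub : ∀ m : ℕ, Metric.ball ((3 / 2 * 2 ^ m : ℝ) : ℂ) (2 * (3 / 5 * 2 ^ m)) ⊆ H := by
    intro m u hu
    rw [Metric.mem_ball, dist_eq_norm] at hu
    have h1 := Complex.abs_re_le_norm (u - ((3 / 2 * 2 ^ m : ℝ) : ℂ))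
    rw [Complex.sub_re, Complex.ofReal_re] at h1
    have h2 := abs_lt.mp (lt_of_le_of_lt h1 hu)
    have h3 : (0 : ℝ) < 2 ^ m := by positivity
    show 0 < u.re
    linarith [h2.1]
  -- the displacements
  have hstep : ∀ m : ℕ, ∃ δ : ℝ, 0 ≤ δ ∧
      ‖E ((2 ^ (m + 1) : ℝ) : ℂ)‖ ≤ ‖E ((2 ^ m : ℝ) : ℂ)‖ * Real.exp δ ∧
      ENNReal.ofReal (δ ^ 2) ≤ ENNReal.ofReal (4 / Real.pi) *
        ∫⁻ u in Metric.ball ((3 / 2 * 2 ^ m : ℝ) : ℂ) (2 * (3 / 5 * 2 ^ m)),
          ‖deriv E u‖ₑ ^ 2 * (‖E u‖ₑ ^ 2)⁻¹ := by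
    intro m
    have h2m : (0 : ℝ) < 2 ^ m := by positivity
    obtain ⟨F, hF⟩ := (hgd.mono (hsub m)).isExactOn_ball
    have hx : ((2 ^ m : ℝ) : ℂ) ∈ Metric.ball ((3 / 2 * 2 ^ m : ℝ) : ℂ) (3 / 5 * 2 ^ m) := by
      rw [Metric.mem_ball, dist_eq_norm, ← Complex.ofReal_sub, Complex.norm_real,
        Real.norm_eq_abs, abs_lt]
      constructor <;> linarith
    have hy : ((2 ^ (m + 1) : ℝ) : ℂ) ∈ Metric.ball ((3 / 2 * 2 ^ m : ℝ) : ℂ) (3 / 5 * 2 ^ m) := by
      rw [Metric.mem_ball, dist_eq_norm, ← Complex.ofReal_sub, Complex.norm_real,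
        Real.norm_eq_abs, abs_lt, pow_succ]
      constructor <;> linarith
    have hb2 : Metric.ball ((3 / 2 * 2 ^ m : ℝ) : ℂ) (3 / 5 * 2 ^ m) ⊆
        Metric.ball ((3 / 2 * 2 ^ m : ℝ) : ℂ) (2 * (3 / 5 * 2 ^ m)) :=
      Metric.ball_subset_ball (by linarith)
    have hFd : DifferentiableOn ℂ F
        (Metric.ball ((3 / 2 * 2 ^ m : ℝ) : ℂ) (2 * (3 / 5 * 2 ^ m))) := fun z hz =>
      (hF z hz).differentiableAt.differentiableWithinAt
    refine ⟨‖F ((2 ^ (m + 1) : ℝ) : ℂ) - F ((2 ^ m : ℝ) : ℂ)‖, norm_nonneg _, ?_, ?_⟩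
    · have hconst : E ((2 ^ (m + 1) : ℝ) : ℂ) * exp (-F ((2 ^ (m + 1) : ℝ) : ℂ)) =
          E ((2 ^ m : ℝ) : ℂ) * exp (-F ((2 ^ m : ℝ) : ℂ)) := by
        have hder : ∀ z ∈ Metric.ball ((3 / 2 * 2 ^ m : ℝ) : ℂ) (2 * (3 / 5 * 2 ^ m)),
            HasDerivAt (fun z => E z * exp (-F z)) 0 z := by
          intro z hz
          have h1 : HasDerivAt E (deriv E z) z :=
            (hdiff.differentiableAt (hHo.mem_nhds (hsub m hz))).hasDerivAt
          have h2 := ((hF z hz).neg).cexp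
          have h3 := h1.mul h2
          have h4 : E z ≠ 0 := hne z (hsub m hz)
          have h5 : deriv E z * exp (-F z) + E z * (exp (-F z) * -(deriv E z / E z)) = 0 := by
            field_simp
            ring
          rw [← h5]
          exact h3
        exact Metric.isOpen_ball.is_const_of_deriv_eq_zero
          (f := fun z => E z * exp (-F z))
          (convex_ball _ _).isPreconnected
          (fun z hz => (hder z hz).differentiableAt.differentiableWithinAt)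
          (fun z hz => (hder z hz).deriv) (hb2 hy) (hb2 hx)
      have h1 : E ((2 ^ (m + 1) : ℝ) : ℂ) = E ((2 ^ m : ℝ) : ℂ) *
          exp (F ((2 ^ (m + 1) : ℝ) : ℂ) - F ((2 ^ m : ℝ) : ℂ)) := by
        have h2 : exp (F ((2 ^ (m + 1) : ℝ) : ℂ) - F ((2 ^ m : ℝ) : ℂ)) =
            exp (-F ((2 ^ m : ℝ) : ℂ)) * exp (F ((2 ^ (m + 1) : ℝ) : ℂ)) := by
          rw [← Complex.exp_add]
          congr 1
          ring
        rw [h2, ← mul_assoc, ← hconst, mul_assoc, ← Complex.exp_add, neg_add_cancel,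
          Complex.exp_zero, mul_one]
      rw [h1, norm_mul, Complex.norm_exp]
      exact mul_le_mul_of_nonneg_left (Real.exp_le_exp.mpr (Complex.re_le_norm _))
        (norm_nonneg _)
    · have h1 := hD ((3 / 2 * 2 ^ m : ℝ) : ℂ) (3 / 5 * 2 ^ m) F (by positivity) hFd _ hy _ hx
      refine h1.trans (le_of_eq ?_)
      congr 1
      apply setLIntegral_congr_fun Metric.isOpen_ball.measurableSet
      intro u hu
      simp only
      rw [(hF u hu).deriv]
      have h4 : E u ≠ 0 := hne u (hsub m hu)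
      show ‖deriv E u / E u‖ₑ ^ 2 = _
      rw [div_eq_mul_inv, enorm_mul, enorm_inv h4, mul_pow, ENNReal.inv_pow]
  choose δ hδ0 hδ1 hδ2 using hstep
  set C0 : ℝ := 32 * Real.log ‖lam‖ with hC0
  have hllam : 0 < Real.log ‖lam‖ := Real.log_pos hlam
  have hsum : ∀ M : ℕ, ∑ m ∈ Finset.range M, δ m ^ 2 ≤ C0 := by
    intro M
    have h1 : ENNReal.ofReal (∑ m ∈ Finset.range M, δ m ^ 2) ≤ ENNReal.ofReal C0 := by
      rw [ENNReal.ofReal_sum_of_nonneg (fun m _ => sq_nonneg _)]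
      refine (Finset.sum_le_sum fun m _ => hδ2 m).trans ?_
      rw [← Finset.mul_sum]
      refine (mul_le_mul_right (sum_int _ H hsub hgae M) _).trans ?_
      refine (mul_le_mul_right (mul_le_mul_right htor _) _).trans (le_of_eq ?_)
      have h4 : (4 : ENNReal) = ENNReal.ofReal 4 := by norm_num
      rw [h4, ← ENNReal.ofReal_mul (by norm_num), ← ENNReal.ofReal_mul (by positivity)]
      congr 1
      rw [hC0]
      have := Real.pi_pos
      push_cast
      field_simp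
      ring
    exact (ENNReal.ofReal_le_ofReal_iff (by positivity)).mp h1
  have hbound : ∀ M : ℕ, ‖E ((2 ^ M : ℝ) : ℂ)‖ ≤
      ‖E ((2 ^ 0 : ℝ) : ℂ)‖ * Real.exp (∑ m ∈ Finset.range M, δ m) := by
    intro M
    induction M with
    | zero => simp
    | succ M ih =>
      refine (hδ1 M).trans ?_
      rw [Finset.sum_range_succ, Real.exp_add, ← mul_assoc]
      exact mul_le_mul_of_nonneg_right ih (Real.exp_pos _).le
  have hCS : ∀ s : ℕ, ∑ m ∈ Finset.range (s ^ 2), δ m ≤ Real.sqrt C0 * s := by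
    intro s
    have h1 := sq_sum_le_card_mul_sum_sq (s := Finset.range (s ^ 2)) (f := δ)
    rw [Finset.card_range] at h1
    have h2 : (∑ m ∈ Finset.range (s ^ 2), δ m) ^ 2 ≤ (Real.sqrt C0 * s) ^ 2 := by
      refine h1.trans ?_
      rw [mul_pow, Real.sq_sqrt (by positivity)]
      have h3 := hsum (s ^ 2)
      have h4 : (0 : ℝ) ≤ ((s ^ 2 : ℕ) : ℝ) := Nat.cast_nonneg _
      calc ((s ^ 2 : ℕ) : ℝ) * ∑ m ∈ Finset.range (s ^ 2), δ m ^ 2 ≤
          ((s ^ 2 : ℕ) : ℝ) * C0 := mul_le_mul_of_nonneg_left h3 h4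
        _ = C0 * (s : ℝ) ^ 2 := by push_cast; ring
    exact abs_le_of_sq_le_sq' h2 (by positivity) |>.2
  -- contradiction
  have hA : 0 < A := by
    have h1 := hgrow 1 (by simp)
    rw [Complex.one_re] at h1
    by_contra hneg
    push Not at hneg
    have h2 : 0 < (max 1 ‖E 1‖) ^ D := by positivity
    nlinarith
  set B0 : ℝ := max 1 ‖E ((2 ^ 0 : ℝ) : ℂ)‖ with hB0
  have hB01 : 1 ≤ B0 := le_max_left _ _
  apply growth (A * B0 ^ D) (D * Real.sqrt C0)
  intro s
  have h1 := hgrow ((2 ^ (s ^ 2) : ℝ) : ℂ) (by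
    rw [Complex.ofReal_re]
    positivity)
  rw [Complex.ofReal_re] at h1
  refine h1.trans ?_
  rw [mul_assoc]
  apply mul_le_mul_of_nonneg_left _ hA.le
  have h2 : max 1 ‖E ((2 ^ (s ^ 2) : ℝ) : ℂ)‖ ≤ B0 * Real.exp (Real.sqrt C0 * s) := by
    have h3 : 1 ≤ Real.exp (Real.sqrt C0 * s) := Real.one_le_exp (by positivity)
    apply max_le
    · nlinarith
    · refine (hbound (s ^ 2)).trans ?_
      apply mul_le_mul (le_max_right _ _) (Real.exp_le_exp.mpr (hCS s)) (Real.exp_pos _).le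
      linarith
  refine (Real.rpow_le_rpow (by positivity) h2 hD0.le).trans (le_of_eq ?_)
  rw [Real.mul_rpow (by linarith) (Real.exp_pos _).le, ← Real.exp_mul]
  congr 2
  ring

end Pool.Agent.PLim
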