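import Pool.Agent.PLim.Targets

/-!
# PLIM, LIN: local linearization
-/

set_option autoImplicit false

open Complex Filter Topology Set
open Pool.Agent.Multibrot Pool.Agent.Limb

namespace Pool.Agent.PLim

namespace LIN_

lemma pow_rem (n : ℕ) : ∃ R : ℂ → ℂ → ℂ, Continuous (fun q : ℂ × ℂ => R q.1 q.2) ∧
    ∀ A B : ℂ, A ^ n = B ^ n + n * B ^ (n - 1) * (A - B) + R A B * (A - B) ^ 2 := by
  induction n with
  | zero => exact ⟨fun _ _ => 0, continuous_const, fun A B => by simp⟩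
  | succ n ih =>
    obtain ⟨R, hR, h⟩ := ih
    refine ⟨fun A B => n * B ^ (n - 1) + A * R A B, by fun_prop, fun A B => ?_⟩
    have e : (n : ℂ) * B ^ (n - 1) * B = n * B ^ n := by
      rcases Nat.eq_zero_or_pos n with h0 | h0
      · subst h0
        simp
      · rw [mul_assoc, ← pow_succ, Nat.sub_add_cancel h0]
    rw [Nat.add_sub_cancel]
    push_cast
    linear_combination A * h A B + (A - B) * e

lemma iter_cont (n k : ℕ) : Continuous (fun q : ℂ × ℂ => (F n q.1)^[k] q.2) := by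
  induction k with
  | zero => exact continuous_snd
  | succ k ih =>
    have h : (fun p : ℂ × ℂ => (F n p.1)^[k + 1] p.2) =
        fun p : ℂ × ℂ => ((F n p.1)^[k] p.2) ^ n + p.1 := by
      funext p
      rw [Function.iterate_succ_apply']
      rfl
    rw [h]
    exact (ih.pow n).add continuous_fst

lemma iter_diff (n k : ℕ) (c : ℂ) : Differentiable ℂ ((F n c)^[k]) := by
  induction k with
  | zero => exact differentiable_id
  | succ k ih =>
    have h : (F n c)^[k + 1] = fun z => ((F n c)^[k] z) ^ n + c := by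
      funext p
      rw [Function.iterate_succ_apply']
      rfl
    rw [h]
    exact (ih.pow n).add_const c

lemma Rho_succ (n k : ℕ) (c z : ℂ) :
    Rho n (k + 1) c z = n * ((F n c)^[k] z) ^ (n - 1) * Rho n k c z := by
  unfold Rho
  have h : (F n c)^[k + 1] = fun z => ((F n c)^[k] z) ^ n + c := by
    funext p
    rw [Function.iterate_succ_apply']
    rfl
  rw [h]
  have h1 := ((iter_diff n k c z).hasDerivAt.pow n).add_const c
  exact h1.deriv

lemma Rho_cont (n k : ℕ) : Continuous (fun q : ℂ × ℂ => Rho n k q.1 q.2) := by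
  induction k with
  | zero =>
    have : (fun q : ℂ × ℂ => Rho n 0 q.1 q.2) = fun _ => 1 := by
      funext q
      unfold Rho
      rw [Function.iterate_zero]
      exact deriv_id _
    rw [this]
    exact continuous_const
  | succ k ih =>
    have h : (fun q : ℂ × ℂ => Rho n (k + 1) q.1 q.2) =
        fun q => n * ((F n q.1)^[k] q.2) ^ (n - 1) * Rho n k q.1 q.2 := by
      funext q
      exact Rho_succ n k q.1 q.2
    rw [h]
    exact (continuous_const.mul ((iter_cont n k).pow (n - 1))).mul ih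

lemma iter_rem (n k : ℕ) : ∃ Q : ℂ → ℂ → ℂ → ℂ,
    Continuous (fun q : ℂ × ℂ × ℂ => Q q.1 q.2.1 q.2.2) ∧
    ∀ c w y : ℂ, (F n c)^[k] y = (F n c)^[k] w + Rho n k c w * (y - w) + Q c w y * (y - w) ^ 2 := by
  obtain ⟨R, hR, hRe⟩ := pow_rem n
  induction k with
  | zero =>
    refine ⟨fun _ _ _ => 0, continuous_const, fun c w y => ?_⟩
    have : Rho n 0 c w = 1 := by
      unfold Rho
      rw [Function.iterate_zero]
      exact deriv_id _
    rw [this]
    simp
  | succ k ih =>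
    obtain ⟨Q, hQ, h⟩ := ih
    refine ⟨fun c w y => n * ((F n c)^[k] w) ^ (n - 1) * Q c w y +
      R ((F n c)^[k] y) ((F n c)^[k] w) * (Rho n k c w + Q c w y * (y - w)) ^ 2, ?_,
      fun c w y => ?_⟩
    · have c1 : Continuous (fun q : ℂ × ℂ × ℂ => (F n q.1)^[k] q.2.1) :=
        (iter_cont n k).comp (continuous_fst.prodMk (continuous_fst.comp continuous_snd))
      have c2 : Continuous (fun q : ℂ × ℂ × ℂ => (F n q.1)^[k] q.2.2) :=
        (iter_cont n k).comp (continuous_fst.prodMk (continuous_snd.comp continuous_snd))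
      have c3 : Continuous (fun q : ℂ × ℂ × ℂ => Rho n k q.1 q.2.1) :=
        (Rho_cont n k).comp (continuous_fst.prodMk (continuous_fst.comp continuous_snd))
      have c4 : Continuous (fun q : ℂ × ℂ × ℂ => R ((F n q.1)^[k] q.2.2) ((F n q.1)^[k] q.2.1)) :=
        hR.comp (c2.prodMk c1)
      have c5 : Continuous (fun q : ℂ × ℂ × ℂ => q.2.2 - q.2.1) := by fun_prop
      exact ((continuous_const.mul (c1.pow (n - 1))).mul hQ).add
        (c4.mul ((c3.add (hQ.mul c5)).pow 2))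
    · rw [Function.iterate_succ_apply', Function.iterate_succ_apply', Rho_succ]
      show ((F n c)^[k] y) ^ n + c = ((F n c)^[k] w) ^ n + c + _ + _
      have h1 := hRe ((F n c)^[k] y) ((F n c)^[k] w)
      have h2 := h c w y
      have h3 : (F n c)^[k] y - (F n c)^[k] w = (Rho n k c w + Q c w y * (y - w)) * (y - w) := by
        linear_combination h2
      rw [h3] at h1
      linear_combination h1

/-- existence of preimages -/
lemma contr {P : ℂ → ℂ} {l0 zf x z0 : ℂ} {e0 ρ r' : ℝ}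
    (hlip : ∀ y ∈ Metric.ball z0 r', ∀ w ∈ Metric.ball z0 r',
      ‖P y - P w - l0 * (y - w)‖ ≤ e0 * ‖y - w‖)
    (hfix : P zf = zf) (hρ : 0 ≤ ρ) (hball : Metric.closedBall zf ρ ⊆ Metric.ball z0 r')
    (hx : ‖x - zf‖ ≤ ρ) (he0 : 0 ≤ e0) (he : e0 + 1 ≤ ‖l0‖) :
    ∃ z ∈ Metric.closedBall zf ρ, P z = x := by
  have hl : 0 < ‖l0‖ := by linarith
  have hl0 : l0 ≠ 0 := norm_pos_iff.1 hl
  have hzf : zf ∈ Metric.closedBall zf ρ := Metric.mem_closedBall_self hρ
  set T : ℂ → ℂ := fun z => z - (P z - x) / l0 with hT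
  have hTlip : ∀ y ∈ Metric.closedBall zf ρ, ∀ w ∈ Metric.closedBall zf ρ,
      ‖T y - T w‖ ≤ e0 / ‖l0‖ * ‖y - w‖ := by
    intro y hy w hw
    have h1 : T y - T w = -((P y - P w - l0 * (y - w)) / l0) := by
      rw [hT]
      field_simp
      ring
    rw [h1, norm_neg, norm_div, div_mul_eq_mul_div]
    exact div_le_div_of_nonneg_right (hlip y (hball hy) w (hball hw)) hl.le
  have hmaps : MapsTo T (Metric.closedBall zf ρ) (Metric.closedBall zf ρ) := by
    intro z hz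
    rw [Metric.mem_closedBall, dist_eq_norm]
    have h1 : T z - zf = (T z - T zf) + (x - zf) / l0 := by
      rw [hT]
      dsimp only
      rw [hfix]
      field_simp
      ring
    have h2 := hTlip z hz zf hzf
    have h3 : ‖z - zf‖ ≤ ρ := by rwa [← dist_eq_norm, ← Metric.mem_closedBall]
    rw [h1]
    refine (norm_add_le _ _).trans ?_
    rw [norm_div]
    have h4 : e0 / ‖l0‖ * ‖z - zf‖ ≤ e0 / ‖l0‖ * ρ :=
      mul_le_mul_of_nonneg_left h3 (by positivity)
    have h5 : ‖x - zf‖ / ‖l0‖ ≤ ρ / ‖l0‖ := div_le_div_of_nonneg_right hx hl.le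
    have h6 : e0 / ‖l0‖ * ρ + ρ / ‖l0‖ ≤ ρ := by
      have : e0 / ‖l0‖ * ρ + ρ / ‖l0‖ = (e0 + 1) * ρ / ‖l0‖ := by ring
      rw [this, div_le_iff₀ hl, mul_comm ρ]
      exact mul_le_mul_of_nonneg_right he hρ
    linarith
  have hK1 : e0 / ‖l0‖ < 1 := by
    rw [div_lt_one hl]
    linarith
  have hcw : ContractingWith ⟨e0 / ‖l0‖, by positivity⟩ (hmaps.restrict T _ _) := by
    refine ⟨by exact_mod_cast hK1, LipschitzWith.of_dist_le_mul fun y w => ?_⟩
    rw [Subtype.dist_eq, Subtype.dist_eq, dist_eq_norm, dist_eq_norm]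
    exact hTlip y y.2 w w.2
  obtain ⟨z, hz, hfz, -⟩ := hcw.exists_fixedPoint' Metric.isClosed_closedBall.isComplete hmaps
    hzf (edist_ne_top _ _)
  refine ⟨z, hz, ?_⟩
  have h1 : z - (P z - x) / l0 = z := hfz
  have h2 : (P z - x) / l0 = 0 := by linear_combination (-1 : ℂ) * h1
  rw [div_eq_zero_iff] at h2
  rcases h2 with h2 | h2
  · exact sub_eq_zero.1 h2
  · exact absurd h2 hl0

/-- uniform estimates near a repelling fixed point -/
lemma local_est (n k : ℕ) (c0 z0 : ℂ) (R : ℝ) (hR : 0 < R)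
    (hrep : 1 < ‖Rho n k c0 z0‖) : ∃ (ρ M : ℝ) (Q : ℂ → ℂ → ℂ → ℂ), 0 < ρ ∧ ρ ≤ R ∧ 0 ≤ M ∧
    (∀ c w y : ℂ, (F n c)^[k] y = (F n c)^[k] w + Rho n k c w * (y - w) + Q c w y * (y - w) ^ 2) ∧
    (∀ c ∈ Metric.ball c0 ρ, ∀ w ∈ Metric.ball z0 ρ, ∀ y ∈ Metric.ball z0 ρ, ‖Q c w y‖ ≤ M) ∧
    (∀ c ∈ Metric.ball c0 ρ, ∀ w ∈ Metric.ball z0 ρ,
      ‖Rho n k c w - Rho n k c0 z0‖ ≤ (‖Rho n k c0 z0‖ - 1) / 8) ∧
    (∀ c ∈ Metric.ball c0 ρ, ∀ y ∈ Metric.ball z0 ρ, ∀ w ∈ Metric.ball z0 ρ,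
      ‖(F n c)^[k] y - (F n c)^[k] w - Rho n k c0 z0 * (y - w)‖ ≤
        (‖Rho n k c0 z0‖ - 1) / 4 * ‖y - w‖) := by
  obtain ⟨Q, hQ, hQe⟩ := iter_rem n k
  obtain ⟨e, he⟩ : ∃ e, e = (‖Rho n k c0 z0‖ - 1) / 8 := ⟨_, rfl⟩
  have he0 : 0 < e := by rw [he]; linarith
  set M := ‖Q c0 z0 z0‖ + 1 with hM
  have hM0 : 0 < M := by positivity
  have h1 : ∀ᶠ q in 𝓝 ((c0, z0, z0) : ℂ × ℂ × ℂ), ‖Q q.1 q.2.1 q.2.2‖ < M :=
    hQ.norm.continuousAt.eventually_lt_const (by rw [hM]; simp)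
  have h2 : ∀ᶠ q in 𝓝 ((c0, z0) : ℂ × ℂ), ‖Rho n k q.1 q.2 - Rho n k c0 z0‖ < e :=
    (((Rho_cont n k).sub continuous_const).norm.continuousAt).eventually_lt_const
      (by simpa using he0)
  rw [Metric.eventually_nhds_iff_ball] at h1 h2
  obtain ⟨ρ1, hρ1, h1⟩ := h1
  obtain ⟨ρ2, hρ2, h2⟩ := h2
  obtain ⟨ρ, hρ⟩ : ∃ ρ, ρ = min (min ρ1 ρ2) (min R (e / (2 * M))) := ⟨_, rfl⟩
  have hρ0 : 0 < ρ := by
    rw [hρ]
    have : 0 < e / (2 * M) := by positivity
    exact lt_min (lt_min hρ1 hρ2) (lt_min hR this)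
  have a1 : ρ ≤ ρ1 := hρ ▸ (min_le_left _ _).trans (min_le_left _ _)
  have a2 : ρ ≤ ρ2 := hρ ▸ (min_le_left _ _).trans (min_le_right _ _)
  have a3 : ρ ≤ R := hρ ▸ (min_le_right _ _).trans (min_le_left _ _)
  have a4 : ρ ≤ e / (2 * M) := hρ ▸ (min_le_right _ _).trans (min_le_right _ _)
  have b1 : ∀ c ∈ Metric.ball c0 ρ, ∀ w ∈ Metric.ball z0 ρ, ∀ y ∈ Metric.ball z0 ρ,
      ‖Q c w y‖ ≤ M := by
    intro c hc w hw y hy
    refine (h1 (c, w, y) ?_).le
    rw [Metric.mem_ball, Prod.dist_eq, Prod.dist_eq]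
    exact max_lt (hc.trans_le a1) (max_lt (hw.trans_le a1) (hy.trans_le a1))
  have b2 : ∀ c ∈ Metric.ball c0 ρ, ∀ w ∈ Metric.ball z0 ρ,
      ‖Rho n k c w - Rho n k c0 z0‖ ≤ e := by
    intro c hc w hw
    refine (h2 (c, w) ?_).le
    rw [Metric.mem_ball, Prod.dist_eq]
    exact max_lt (hc.trans_le a2) (hw.trans_le a2)
  refine ⟨ρ, M, Q, hρ0, a3, hM0.le, hQe, b1, fun c hc w hw => (b2 c hc w hw).trans_eq he, ?_⟩
  intro c hc y hy w hw
  have e1 : (F n c)^[k] y - (F n c)^[k] w - Rho n k c0 z0 * (y - w) =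
      (Rho n k c w - Rho n k c0 z0 + Q c w y * (y - w)) * (y - w) := by
    linear_combination hQe c w y
  rw [e1, norm_mul]
  refine mul_le_mul_of_nonneg_right ?_ (norm_nonneg _)
  refine (norm_add_le _ _).trans ?_
  rw [norm_mul]
  have e2 : ‖y - w‖ ≤ 2 * ρ := by
    rw [← dist_eq_norm]
    have := dist_triangle_right y w z0
    have := Metric.mem_ball.1 hy
    have := Metric.mem_ball.1 hw
    linarith
  have e3 : ‖Q c w y‖ * ‖y - w‖ ≤ M * (2 * ρ) :=
    mul_le_mul (b1 c hc w hw y hy) e2 (norm_nonneg _) hM0.le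
  have e4 : M * (2 * ρ) ≤ e := by
    have := mul_le_mul_of_nonneg_left a4 (by positivity : (0 : ℝ) ≤ 2 * M)
    have e5 : 2 * M * (e / (2 * M)) = e := by field_simp
    linarith
  have e6 := b2 c hc w hw
  have e7 : (‖Rho n k c0 z0‖ - 1) / 4 = e + e := by rw [he]; ring
  rw [e7]
  linarith

/-- the Koenigs map for one parameter (and its terms) -/
noncomputable def tm (lam zf : ℂ) (g : ℂ → ℂ) (m : ℕ) (x : ℂ) : ℂ :=
  lam ^ m * (lam * (g^[m + 1] x - zf) - (g^[m] x - zf))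

/-- the Koenigs map -/
noncomputable def kap (lam zf : ℂ) (g : ℂ → ℂ) (x : ℂ) : ℂ := (x - zf) + ∑' m, tm lam zf g m x

section one

variable {P g : ℂ → ℂ} {Q : ℂ → ℂ → ℂ} {lam zf z0 : ℂ} {r η M θ : ℝ}

structure One (P g : ℂ → ℂ) (Q : ℂ → ℂ → ℂ) (lam zf z0 : ℂ) (r η M θ : ℝ) : Prop where
  hη0 : 0 ≤ η
  hη1 : η < 1
  hM : 0 ≤ M
  hθ0 : 0 ≤ θ
  hθ1 : θ < 1
  hlam : 1 < ‖lam‖
  hth : ‖lam‖ * η ^ 2 ≤ θ
  mzf : zf ∈ Metric.ball z0 r
  pzf : P zf = zf
  gm : ∀ x ∈ Metric.ball z0 r, g x ∈ Metric.ball z0 r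
  gi : ∀ x ∈ Metric.ball z0 r, P (g x) = x
  gc : ∀ x ∈ Metric.ball z0 r, ‖g x - zf‖ ≤ η * ‖x - zf‖
  rem : ∀ y, P y = P zf + lam * (y - zf) + Q zf y * (y - zf) ^ 2
  hQ : ∀ y ∈ Metric.ball z0 r, ‖Q zf y‖ ≤ M

lemma One.itm (h : One P g Q lam zf z0 r η M θ) (m : ℕ) : ∀ x ∈ Metric.ball z0 r,
    g^[m] x ∈ Metric.ball z0 r := by
  induction m with
  | zero => exact fun x hx => hx
  | succ m ih =>
    intro x hx
    rw [Function.iterate_succ_apply']
    exact h.gm _ (ih x hx)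

lemma One.itc (h : One P g Q lam zf z0 r η M θ) (m : ℕ) : ∀ x ∈ Metric.ball z0 r,
    ‖g^[m] x - zf‖ ≤ η ^ m * ‖x - zf‖ := by
  induction m with
  | zero => intro x hx; simp
  | succ m ih =>
    intro x hx
    rw [Function.iterate_succ_apply', pow_succ]
    have h1 := h.gc _ (h.itm m x hx)
    have h2 := mul_le_mul_of_nonneg_left (ih x hx) h.hη0
    linarith [(by ring : η * (η ^ m * ‖x - zf‖) = η ^ m * η * ‖x - zf‖)]

lemma One.gz (h : One P g Q lam zf z0 r η M θ) : g zf = zf := by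
  have h1 := h.gc zf h.mzf
  rw [sub_self, norm_zero, mul_zero] at h1
  exact sub_eq_zero.1 (norm_le_zero_iff.1 h1)

lemma One.itz (h : One P g Q lam zf z0 r η M θ) (m : ℕ) : g^[m] zf = zf := by
  induction m with
  | zero => rfl
  | succ m ih => rw [Function.iterate_succ_apply', ih, h.gz]

lemma One.tmz (h : One P g Q lam zf z0 r η M θ) (m : ℕ) : tm lam zf g m zf = 0 := by
  unfold tm
  rw [h.itz, h.itz]
  simp

lemma One.bd (h : One P g Q lam zf z0 r η M θ) (m : ℕ) (x : ℂ) (hx : x ∈ Metric.ball z0 r) :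
    ‖tm lam zf g m x‖ ≤ θ ^ m * (M * ‖x - zf‖ ^ 2) := by
  have h1 : P (g^[m + 1] x) = g^[m] x := by
    rw [Function.iterate_succ_apply']
    exact h.gi _ (h.itm m x hx)
  have h2 := h.rem (g^[m + 1] x)
  rw [h1, h.pzf] at h2
  have h3 : lam * (g^[m + 1] x - zf) - (g^[m] x - zf) =
      -(Q zf (g^[m + 1] x) * (g^[m + 1] x - zf) ^ 2) := by
    linear_combination (-1 : ℂ) * h2
  unfold tm
  rw [h3, norm_mul, norm_neg, norm_mul, norm_pow, norm_pow]
  have h4 := h.hQ _ (h.itm (m + 1) x hx)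
  have h5 : ‖g^[m + 1] x - zf‖ ^ 2 ≤ (η ^ m * ‖x - zf‖) ^ 2 := by
    refine pow_le_pow_left₀ (norm_nonneg _) ((h.itc (m + 1) x hx).trans ?_) 2
    refine mul_le_mul_of_nonneg_right ?_ (norm_nonneg _)
    exact pow_le_pow_of_le_one h.hη0 h.hη1.le (Nat.le_succ m)
  have h6 : ‖Q zf (g^[m + 1] x)‖ * ‖g^[m + 1] x - zf‖ ^ 2 ≤ M * (η ^ m * ‖x - zf‖) ^ 2 :=
    mul_le_mul h4 h5 (by positivity) h.hM
  have h7 : ‖lam‖ ^ m * (M * (η ^ m * ‖x - zf‖) ^ 2) =
      (‖lam‖ * η ^ 2) ^ m * (M * ‖x - zf‖ ^ 2) := by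
    rw [mul_pow, mul_pow, ← pow_mul, ← pow_mul, mul_comm m 2]
    ring
  have h8 : (‖lam‖ * η ^ 2) ^ m ≤ θ ^ m := pow_le_pow_left₀ (by positivity) h.hth m
  calc ‖lam‖ ^ m * (‖Q zf (g^[m + 1] x)‖ * ‖g^[m + 1] x - zf‖ ^ 2)
      ≤ ‖lam‖ ^ m * (M * (η ^ m * ‖x - zf‖) ^ 2) :=
        mul_le_mul_of_nonneg_left h6 (by positivity)
    _ = (‖lam‖ * η ^ 2) ^ m * (M * ‖x - zf‖ ^ 2) := h7
    _ ≤ θ ^ m * (M * ‖x - zf‖ ^ 2) :=
        mul_le_mul_of_nonneg_right h8 (mul_nonneg h.hM (sq_nonneg _))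

lemma One.xz (h : One P g Q lam zf z0 r η M θ) (x : ℂ) (hx : x ∈ Metric.ball z0 r) :
    ‖x - zf‖ ≤ 2 * r := by
  rw [← dist_eq_norm]
  have := dist_triangle_right x zf z0
  have := Metric.mem_ball.1 hx
  have := Metric.mem_ball.1 h.mzf
  linarith

lemma One.bd2 (h : One P g Q lam zf z0 r η M θ) (m : ℕ) (x : ℂ) (hx : x ∈ Metric.ball z0 r) :
    ‖tm lam zf g m x‖ ≤ θ ^ m * (M * (2 * r) ^ 2) := by
  refine (h.bd m x hx).trans ?_
  have := pow_le_pow_left₀ (norm_nonneg _) (h.xz x hx) 2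
  exact mul_le_mul_of_nonneg_left (mul_le_mul_of_nonneg_left this h.hM) (pow_nonneg h.hθ0 m)

lemma One.sm (h : One P g Q lam zf z0 r η M θ) (x : ℂ) (hx : x ∈ Metric.ball z0 r) :
    Summable fun m => tm lam zf g m x :=
  Summable.of_norm_bounded ((summable_geometric_of_lt_one h.hθ0 h.hθ1).mul_right _)
    fun m => h.bd m x hx

lemma One.kz (h : One P g Q lam zf z0 r η M θ) : kap lam zf g zf = 0 := by
  unfold kap
  have : (fun m => tm lam zf g m zf) = fun _ => 0 := by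
    funext m
    exact h.tmz m
  rw [this]
  simp

lemma One.kfe (h : One P g Q lam zf z0 r η M θ) (x : ℂ) (hx : x ∈ Metric.ball z0 r) :
    kap lam zf g (g x) * lam = kap lam zf g x := by
  unfold kap
  have h1 := (h.sm x hx).tsum_eq_zero_add
  have h2 : ∀ m, tm lam zf g m (g x) * lam = tm lam zf g (m + 1) x := by
    intro m
    unfold tm
    rw [← Function.iterate_succ_apply, ← Function.iterate_succ_apply, pow_succ]
    ring
  have h3 : (∑' m, tm lam zf g m (g x)) * lam = ∑' m, tm lam zf g (m + 1) x := by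
    rw [← tsum_mul_right]
    exact tsum_congr h2
  rw [add_mul, h3, h1]
  have h4 : tm lam zf g 0 x = lam * (g x - zf) - (x - zf) := by
    unfold tm
    simp
  rw [h4]
  ring

lemma One.kest (h : One P g Q lam zf z0 r η M θ) (x : ℂ) (hx : x ∈ Metric.ball z0 r) :
    ‖kap lam zf g x - (x - zf)‖ ≤ (1 - θ)⁻¹ * (M * ‖x - zf‖ ^ 2) := by
  unfold kap
  rw [add_sub_cancel_left]
  have h1 : HasSum (fun m => θ ^ m * (M * ‖x - zf‖ ^ 2)) ((1 - θ)⁻¹ * (M * ‖x - zf‖ ^ 2)) :=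
    (hasSum_geometric_of_lt_one h.hθ0 h.hθ1).mul_right _
  exact tsum_of_norm_bounded h1 fun m => h.bd m x hx

lemma One.kder (h : One P g Q lam zf z0 r η M θ) : HasDerivAt (kap lam zf g) 1 zf := by
  rw [hasDerivAt_iff_isLittleO]
  have h0 := h.kz
  have hU : Metric.ball z0 r ∈ 𝓝 zf := Metric.isOpen_ball.mem_nhds h.mzf
  have h1 : (fun x => kap lam zf g x - kap lam zf g zf - (x - zf) • (1 : ℂ)) =O[𝓝 zf]
      fun x => ‖x - zf‖ ^ 2 := by
    refine Asymptotics.IsBigO.of_bound ((1 - θ)⁻¹ * M) ?_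
    filter_upwards [hU] with x hx
    rw [h0, sub_zero, smul_eq_mul, mul_one, norm_pow, norm_norm, mul_assoc]
    exact h.kest x hx
  exact h1.trans_isLittleO (Asymptotics.isLittleO_pow_sub_sub zf one_lt_two)

lemma One.gdit (h : One P g Q lam zf z0 r η M θ)
    (hg : DifferentiableOn ℂ g (Metric.ball z0 r)) (m : ℕ) :
    DifferentiableOn ℂ (g^[m]) (Metric.ball z0 r) := by
  induction m with
  | zero => exact differentiableOn_id
  | succ m ih =>
    have e : g^[m + 1] = g ∘ g^[m] := Function.iterate_succ' g m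
    rw [e]
    exact hg.comp ih (h.itm m)

lemma One.kdiff (h : One P g Q lam zf z0 r η M θ)
    (hg : DifferentiableOn ℂ g (Metric.ball z0 r)) :
    DifferentiableOn ℂ (kap lam zf g) (Metric.ball z0 r) := by
  unfold kap
  refine (differentiableOn_id.sub_const zf).add ?_
  refine differentiableOn_tsum_of_summable_norm
    ((summable_geometric_of_lt_one h.hθ0 h.hθ1).mul_right (M * (2 * r) ^ 2)) (fun m => ?_)
    Metric.isOpen_ball fun m x hx => h.bd2 m x hx
  unfold tm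
  exact (((h.gdit hg (m + 1)).sub_const zf).const_mul lam |>.sub
    ((h.gdit hg m).sub_const zf)).const_mul _

lemma One.ginj (h : One P g Q lam zf z0 r η M θ) (m : ℕ) : ∀ x ∈ Metric.ball z0 r,
    ∀ y ∈ Metric.ball z0 r, g^[m] x = g^[m] y → x = y := by
  induction m with
  | zero => exact fun x _ y _ e => e
  | succ m ih =>
    intro x hx y hy e
    rw [Function.iterate_succ_apply', Function.iterate_succ_apply'] at e
    apply ih x hx y hy
    have h1 := h.gi _ (h.itm m x hx)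
    have h2 := h.gi _ (h.itm m y hy)
    rw [← h1, ← h2, e]

lemma One.kinj (h : One P g Q lam zf z0 r η M θ)
    (hg : DifferentiableOn ℂ g (Metric.ball z0 r)) :
    InjOn (kap lam zf g) (Metric.ball z0 r) := by
  intro x hx y hy e
  have hl : lam ≠ 0 := by
    rw [← norm_pos_iff]
    linarith [h.hlam]
  have hit : ∀ m, kap lam zf g (g^[m] x) = kap lam zf g (g^[m] y) := by
    intro m
    induction m with
    | zero => exact e
    | succ m ih =>
      rw [Function.iterate_succ_apply', Function.iterate_succ_apply']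
      have h1 := h.kfe _ (h.itm m x hx)
      have h2 := h.kfe _ (h.itm m y hy)
      exact mul_right_cancel₀ hl (by rw [h1, h2, ih])
  have hU : Metric.ball z0 r ∈ 𝓝 zf := Metric.isOpen_ball.mem_nhds h.mzf
  have han : AnalyticAt ℂ (kap lam zf g) zf := (h.kdiff hg).analyticAt hU
  have hst : HasStrictDerivAt (kap lam zf g) 1 zf := by
    have h1 := han.hasStrictDerivAt
    rwa [h.kder.deriv] at h1
  have hst2 := hst.hasStrictFDerivAt_equiv one_ne_zero
  have hev := hst2.eventually_left_inverse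
  have htend : ∀ x ∈ Metric.ball z0 r, Tendsto (fun m => g^[m] x) atTop (𝓝 zf) := by
    intro x hx
    rw [tendsto_iff_norm_sub_tendsto_zero]
    have h1 : Tendsto (fun m : ℕ => η ^ m * ‖x - zf‖) atTop (𝓝 0) := by
      have := (tendsto_pow_atTop_nhds_zero_of_lt_one h.hη0 h.hη1).mul_const ‖x - zf‖
      rwa [zero_mul] at this
    exact squeeze_zero (fun m => norm_nonneg _) (fun m => h.itc m x hx) h1
  obtain ⟨m, h1, h2⟩ := (((htend x hx).eventually hev).and ((htend y hy).eventually hev)).exists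
  apply h.ginj m x hx y hy
  rw [← h1, ← h2, hit m]

end one

end LIN_

open LIN_ in
/-- LIN: local linearization. -/
theorem p_LIN (h1 : T_LOCZ) : T_LIN := by
  intro n k c0 z0 R hn hk hR hfix hrep
  obtain ⟨ρ, M, Q, hρ0, hρR, hM0, hQe, hQ, hD, hlip⟩ := local_est n k c0 z0 R hR hrep
  have hne1 : Rho n k c0 z0 ≠ 1 := by
    intro e
    rw [e, norm_one] at hrep
    exact lt_irrefl _ hrep
  obtain ⟨δ', r', zf, hδρ, hrρ, hL⟩ := h1 n k c0 z0 ρ hn hρ0 hfix hne1
  obtain ⟨a, ha⟩ : ∃ a, a = ‖Rho n k c0 z0‖ := ⟨_, rfl⟩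
  rw [← ha] at hrep hD hlip
  set e := (a - 1) / 4 with he
  have he0 : 0 < e := by rw [he]; linarith
  have hae : a = 1 + 4 * e := by rw [he]; ring
  set η := (1 + 3 * e)⁻¹ with hη
  have hη0 : 0 < η := by positivity
  have hη1 : η < 1 := inv_lt_one_of_one_lt₀ (by linarith)
  have hη2 : η * (1 + 3 * e) = 1 := inv_mul_cancel₀ (by positivity)
  set θ := (1 + 5 * e) * η ^ 2 with hθ
  have hθ0 : 0 ≤ θ := by positivity
  have hθ1 : θ < 1 := by
    rw [hθ, hη, inv_pow, ← div_eq_mul_inv, div_lt_one (by positivity)]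
    nlinarith
  set r := r' / 2 with hr
  have hr'0 := hL.hr
  have hr0 : 0 < r := by rw [hr]; linarith
  have hzc : ContinuousAt zf c0 :=
    (hL.diff.continuousOn).continuousAt (Metric.ball_mem_nhds c0 hL.hδ)
  have hev : ∀ᶠ c in 𝓝 c0, ‖zf c - z0‖ < (1 - η) * r / 2 := by
    have h2 : ContinuousAt (fun c => ‖zf c - z0‖) c0 := (hzc.sub continuousAt_const).norm
    refine h2.eventually_lt_const ?_
    dsimp only
    rw [hL.zf0, sub_self, norm_zero]
    have : 0 < 1 - η := by linarith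
    positivity
  rw [Metric.eventually_nhds_iff_ball] at hev
  obtain ⟨δ1, hδ1, hd⟩ := hev
  set δ := min δ' δ1 with hδ
  have hδ0 : 0 < δ := lt_min hL.hδ hδ1
  have hδ' : Metric.ball c0 δ ⊆ Metric.ball c0 δ' := Metric.ball_subset_ball (min_le_left _ _)
  have hδρ' : Metric.ball c0 δ ⊆ Metric.ball c0 ρ :=
    Metric.ball_subset_ball ((min_le_left _ _).trans hδρ)
  have hrr' : Metric.ball z0 r ⊆ Metric.ball z0 r' :=
    Metric.ball_subset_ball (by rw [hr]; linarith)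
  have hr'ρ : Metric.ball z0 r' ⊆ Metric.ball z0 ρ := Metric.ball_subset_ball hrρ
  have hdc : ∀ c ∈ Metric.ball c0 δ, ‖zf c - z0‖ < (1 - η) * r / 2 := fun c hc =>
    hd c (Metric.ball_subset_ball (min_le_right _ _) hc)
  have hzm : ∀ c ∈ Metric.ball c0 δ, zf c ∈ Metric.ball z0 r := by
    intro c hc
    rw [Metric.mem_ball, dist_eq_norm]
    have h2 := hdc c hc
    have h3 : (1 - η) * r ≤ r := mul_le_of_le_one_left hr0.le (by linarith)
    linarith
  -- lower Lipschitz bound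
  have hlow : ∀ c ∈ Metric.ball c0 δ, ∀ y ∈ Metric.ball z0 r', ∀ w ∈ Metric.ball z0 r',
      ‖y - w‖ ≤ η * ‖(F n c)^[k] y - (F n c)^[k] w‖ := by
    intro c hc y hy w hw
    have h2 := hlip c (hδρ' hc) y (hr'ρ hy) w (hr'ρ hw)
    have h3 : ‖Rho n k c0 z0 * (y - w)‖ ≤ ‖(F n c)^[k] y - (F n c)^[k] w‖ +
        ‖(F n c)^[k] y - (F n c)^[k] w - Rho n k c0 z0 * (y - w)‖ := by
      have := norm_sub_le ((F n c)^[k] y - (F n c)^[k] w)
        ((F n c)^[k] y - (F n c)^[k] w - Rho n k c0 z0 * (y - w))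
      rwa [sub_sub_cancel] at this
    rw [norm_mul, ← ha] at h3
    have h4 : (1 + 3 * e) * ‖y - w‖ ≤ ‖(F n c)^[k] y - (F n c)^[k] w‖ := by
      have : a * ‖y - w‖ = (1 + 4 * e) * ‖y - w‖ := by rw [hae]
      linarith
    have h5 := mul_le_mul_of_nonneg_left h4 hη0.le
    rw [← mul_assoc, hη2, one_mul] at h5
    exact h5
  have hex : ∀ c x : ℂ, ∃ z : ℂ, c ∈ Metric.ball c0 δ → x ∈ Metric.ball z0 r →
      z ∈ Metric.ball z0 r ∧ (F n c)^[k] z = x := by
    intro c x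
    by_cases hcx : c ∈ Metric.ball c0 δ ∧ x ∈ Metric.ball z0 r
    · obtain ⟨hc, hx⟩ := hcx
      have h2 := hdc c hc
      rw [Metric.mem_ball, dist_eq_norm] at hx
      have h3 : ‖x - zf c‖ ≤ ‖x - z0‖ + ‖zf c - z0‖ := by
        have := norm_sub_le (x - z0) (zf c - z0)
        rwa [sub_sub_sub_cancel_right] at this
      have hη3 : (1 - η) * r ≤ r := mul_le_of_le_one_left hr0.le (by linarith)
      have hball : Metric.closedBall (zf c) ‖x - zf c‖ ⊆ Metric.ball z0 r' := by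
        intro z hz
        rw [Metric.mem_closedBall, dist_eq_norm] at hz
        rw [Metric.mem_ball, dist_eq_norm]
        have h4 : ‖z - z0‖ ≤ ‖z - zf c‖ + ‖zf c - z0‖ := by
          have := norm_add_le (z - zf c) (zf c - z0)
          rwa [sub_add_sub_cancel] at this
        have h5 : r' = r + r := by rw [hr]; ring
        linarith
      obtain ⟨z, hz, hPz⟩ := contr (P := (F n c)^[k]) (l0 := Rho n k c0 z0) (zf := zf c) (x := x)
        (z0 := z0) (e0 := e) (ρ := ‖x - zf c‖) (r' := r')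
        (fun y hy w hw => hlip c (hδρ' hc) y (hr'ρ hy) w (hr'ρ hw)) (hL.fix c (hδ' hc))
        (norm_nonneg _) hball le_rfl he0.le (by rw [← ha, hae]; linarith)
      refine ⟨z, fun _ _ => ⟨?_, hPz⟩⟩
      have h4 := hlow c hc z (hball hz) (zf c) (hrr' (hzm c hc))
      rw [hPz, hL.fix c (hδ' hc)] at h4
      rw [Metric.mem_ball, dist_eq_norm]
      have h5 : ‖z - z0‖ ≤ ‖z - zf c‖ + ‖zf c - z0‖ := by
        have := norm_add_le (z - zf c) (zf c - z0)
        rwa [sub_add_sub_cancel] at this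
      have h6 : η * ‖x - zf c‖ ≤ η * (‖x - z0‖ + ‖zf c - z0‖) :=
        mul_le_mul_of_nonneg_left h3 hη0.le
      have h7 : η * ‖x - z0‖ < η * r := mul_lt_mul_of_pos_left hx hη0
      have h8 : η * ‖zf c - z0‖ ≤ ‖zf c - z0‖ := mul_le_of_le_one_left (norm_nonneg _) hη1.le
      have h9 : (1 - η) * r = r - η * r := by ring
      linarith
    · exact ⟨0, fun h h' => absurd ⟨h, h'⟩ hcx⟩
  choose gi hgi using hex
  have gimem : ∀ c ∈ Metric.ball c0 δ, ∀ x ∈ Metric.ball z0 r, gi c x ∈ Metric.ball z0 r :=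
    fun c hc x hx => (hgi c x hc hx).1
  have giinv : ∀ c ∈ Metric.ball c0 δ, ∀ x ∈ Metric.ball z0 r, (F n c)^[k] (gi c x) = x :=
    fun c hc x hx => (hgi c x hc hx).2
  have gicon : ∀ c ∈ Metric.ball c0 δ, ∀ x ∈ Metric.ball z0 r,
      ‖gi c x - zf c‖ ≤ η * ‖x - zf c‖ := by
    intro c hc x hx
    have h2 := hlow c hc _ (hrr' (gimem c hc x hx)) (zf c) (hrr' (hzm c hc))
    rwa [giinv c hc x hx, hL.fix c (hδ' hc)] at h2
  have gicont : ContinuousOn (fun p : ℂ × ℂ => gi p.1 p.2)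
      (Metric.ball c0 δ ×ˢ Metric.ball z0 r) := by
    intro q hq
    obtain ⟨hqc, hqx⟩ := hq
    unfold ContinuousWithinAt
    rw [tendsto_iff_norm_sub_tendsto_zero]
    have h2 : Tendsto (fun p : ℂ × ℂ => η * ‖p.2 - (F n p.1)^[k] (gi q.1 q.2)‖)
        (𝓝[Metric.ball c0 δ ×ˢ Metric.ball z0 r] q) (𝓝 0) := by
      have hc : Continuous fun p : ℂ × ℂ => η * ‖p.2 - (F n p.1)^[k] (gi q.1 q.2)‖ :=
        continuous_const.mul (continuous_snd.sub
          ((iter_cont n k).comp (continuous_fst.prodMk continuous_const))).norm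
      have h3 := hc.tendsto q
      rw [giinv q.1 hqc q.2 hqx, sub_self, norm_zero, mul_zero] at h3
      exact h3.mono_left nhdsWithin_le_nhds
    refine squeeze_zero' (Filter.Eventually.of_forall fun p => norm_nonneg _) ?_ h2
    filter_upwards [self_mem_nhdsWithin] with p hp
    obtain ⟨hpc, hpx⟩ := hp
    have h3 := hlow p.1 hpc _ (hrr' (gimem p.1 hpc p.2 hpx)) _ (hrr' (gimem q.1 hqc q.2 hqx))
    rwa [giinv p.1 hpc p.2 hpx] at h3
  have hRne : ∀ c ∈ Metric.ball c0 δ, ∀ w ∈ Metric.ball z0 r, 1 < ‖Rho n k c w‖ ∧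
      ‖Rho n k c w‖ ≤ 1 + 5 * e := by
    intro c hc w hw
    have h2 := hD c (hδρ' hc) w (hr'ρ (hrr' hw))
    have h3 : (a - 1) / 8 = e / 2 := by rw [he]; ring
    rw [h3] at h2
    have h4 := norm_sub_norm_le (Rho n k c0 z0) (Rho n k c w)
    rw [norm_sub_rev, ← ha] at h4
    have h5 := norm_sub_norm_le (Rho n k c w) (Rho n k c0 z0)
    rw [← ha] at h5
    constructor
    · linarith
    · linarith
  have gidiff : ∀ c ∈ Metric.ball c0 δ, DifferentiableOn ℂ (gi c) (Metric.ball z0 r) := by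
    intro c hc x hx
    have h2 : ContinuousAt (gi c) x := by
      have h3 : ContinuousOn (gi c) (Metric.ball z0 r) := by
        have h4 : (gi c) = (fun p : ℂ × ℂ => gi p.1 p.2) ∘ fun x => (c, x) := rfl
        rw [h4]
        exact gicont.comp (by fun_prop) fun y hy => ⟨hc, hy⟩
      exact h3.continuousAt (Metric.isOpen_ball.mem_nhds hx)
    have h5 : HasDerivAt ((F n c)^[k]) (Rho n k c (gi c x)) (gi c x) :=
      (iter_diff n k c _).hasDerivAt
    have h6 : Rho n k c (gi c x) ≠ 0 := by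
      rw [← norm_pos_iff]
      linarith [(hRne c hc _ (gimem c hc x hx)).1]
    have h7 : ∀ᶠ y in 𝓝 x, (F n c)^[k] (gi c y) = y := by
      filter_upwards [Metric.isOpen_ball.mem_nhds hx] with y hy
      exact giinv c hc y hy
    exact (HasDerivAt.of_local_left_inverse h2 h5 h6 h7).differentiableAt.differentiableWithinAt
  have hOne : ∀ c ∈ Metric.ball c0 δ,
      One ((F n c)^[k]) (gi c) (Q c) (Rho n k c (zf c)) (zf c) z0 r η M θ := by
    intro c hc
    refine ⟨hη0.le, hη1, hM0, hθ0, hθ1, (hRne c hc _ (hzm c hc)).1, ?_, hzm c hc,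
      hL.fix c (hδ' hc), gimem c hc, giinv c hc, gicon c hc, fun y => hQe c (zf c) y,
      fun y hy => hQ c (hδρ' hc) (zf c) (hr'ρ (hrr' (hzm c hc))) y (hr'ρ (hrr' hy))⟩
    exact mul_le_mul_of_nonneg_right (hRne c hc _ (hzm c hc)).2 (sq_nonneg _)
  have hzfc : ContinuousOn zf (Metric.ball c0 δ) := (hL.diff.mono hδ').continuousOn
  have hlamc : ContinuousOn (fun c => Rho n k c (zf c)) (Metric.ball c0 δ) :=
    (Rho_cont n k).comp_continuousOn (continuousOn_id.prodMk hzfc)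
  have hitc : ∀ m, ContinuousOn (fun p : ℂ × ℂ => (gi p.1)^[m] p.2)
      (Metric.ball c0 δ ×ˢ Metric.ball z0 r) := by
    intro m
    induction m with
    | zero => exact continuousOn_snd
    | succ m ih =>
      have h2 : (fun p : ℂ × ℂ => (gi p.1)^[m + 1] p.2) =
          (fun p : ℂ × ℂ => gi p.1 p.2) ∘ fun p : ℂ × ℂ => (p.1, (gi p.1)^[m] p.2) := by
        funext p
        rw [Function.iterate_succ_apply']
        rfl
      rw [h2]
      refine gicont.comp (continuousOn_fst.prodMk ih) fun p hp => ⟨hp.1, ?_⟩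
      exact (hOne p.1 hp.1).itm m p.2 hp.2
  refine ⟨δ, r, η, zf, gi, fun c x => kap (Rho n k c (zf c)) (zf c) (gi c) x,
    ((min_le_left _ _).trans hδρ).trans hρR, ?_, ?_⟩
  · rw [hr]
    linarith
  refine
    { hδ := hδ0
      hr := hr0
      zf0 := hL.zf0
      diff := hL.diff.mono hδ'
      mem := hzm
      fix := fun c hc => hL.fix c (hδ' hc)
      uniq := fun c hc z hz => hL.uniq c (hδ' hc) z (hrr' hz)
      hη0 := hη0.le
      hη1 := hη1
      rep := fun c hc => (hRne c hc _ (hzm c hc)).1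
      inj := ?_
      gimem := gimem
      giinv := giinv
      gicon := gicon
      gicont := gicont
      gidiff := gidiff
      kacont := ?_
      kadiff := fun c hc => (hOne c hc).kdiff (gidiff c hc)
      kainj := fun c hc => (hOne c hc).kinj (gidiff c hc)
      kazf := fun c hc => (hOne c hc).kz
      kader := fun c hc => (hOne c hc).kder.deriv
      kagi := fun c hc x hx => (hOne c hc).kfe x hx }
  · intro c hc y hy w hw hyw
    have h2 := hlow c hc y (hrr' hy) w (hrr' hw)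
    rw [hyw, sub_self, norm_zero, mul_zero] at h2
    exact sub_eq_zero.1 (norm_le_zero_iff.1 h2)
  · unfold kap
    have hz1 : ContinuousOn (fun p : ℂ × ℂ => zf p.1) (Metric.ball c0 δ ×ˢ Metric.ball z0 r) :=
      hzfc.comp continuousOn_fst fun p hp => hp.1
    have hl1 : ContinuousOn (fun p : ℂ × ℂ => Rho n k p.1 (zf p.1))
        (Metric.ball c0 δ ×ˢ Metric.ball z0 r) :=
      hlamc.comp (f := fun p : ℂ × ℂ => p.1) continuousOn_fst fun p hp => hp.1
    refine (continuousOn_snd.sub hz1).add ?_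
    refine continuousOn_tsum (fun m => ?_)
      ((summable_geometric_of_lt_one hθ0 hθ1).mul_right (M * (2 * r) ^ 2))
      fun m p hp => (hOne p.1 hp.1).bd2 m p.2 hp.2
    unfold tm
    exact (hl1.pow m).mul ((hl1.mul ((hitc (m + 1)).sub hz1)).sub ((hitc m).sub hz1))

end Pool.Agent.PLim
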