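import Pool.Agent.PLim.Targets

/-!
# PLIM: a non-constant analytic map is not injective near a critical point
-/

set_option autoImplicit false

open Complex Filter Topology Set Metric

namespace Pool.Agent.PLim

theorem p_LOC2 : T_LOC2 := by
  intro Φ a hΦ hder hnc r hr
  have hg : AnalyticAt ℂ (fun z => Φ z - Φ a) a := hΦ.sub analyticAt_const
  have hnz : ¬ ∀ᶠ z in 𝓝 a, (fun z => Φ z - Φ a) z = 0 := by
    intro h
    apply hnc
    filter_upwards [h] with z hz
    exact sub_eq_zero.1 hz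
  obtain ⟨m, u, hu, hua, hev⟩ := hg.exists_eventuallyEq_pow_smul_nonzero_iff.2 hnz
  have hm0 : m ≠ 0 := by
    rintro rfl
    have h1 := hev.self_of_nhds
    simp at h1
    exact hua h1.symm
  have hm1 : m ≠ 1 := by
    rintro rfl
    have h1 : HasDerivAt (fun z => (z - a) ^ 1 • u z) (u a) a := by
      have h2 : HasDerivAt (fun z => (z - a) * u z) (1 * u a + (a - a) * deriv u a) a :=
        ((hasDerivAt_id a).sub_const a).mul hu.differentiableAt.hasDerivAt
      simpa using h2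
    have h3 : HasDerivAt (fun z => Φ z - Φ a) (u a) a := h1.congr_of_eventuallyEq hev
    have h4 : HasDerivAt Φ (u a) a := by
      have h5 := h3.add_const (Φ a)
      simpa using h5
    apply hua
    rw [← h4.deriv, hder]
  have hm2 : 1 < m := by omega
  have hmC : (m : ℂ) ≠ 0 := by exact_mod_cast hm0
  obtain ⟨v0, hv0⟩ := IsAlgClosed.exists_pow_nat_eq (u a) (Nat.pos_of_ne_zero hm0)
  have hv00 : v0 ≠ 0 := by
    rintro rfl
    rw [zero_pow hm0] at hv0
    exact hua hv0.symm
  set v : ℂ → ℂ := fun z => v0 * exp (log (u z / u a) / m) with hv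
  have hva : v a = v0 := by
    rw [hv]
    simp only
    rw [div_self hua, log_one, zero_div, exp_zero, mul_one]
  have hvan : AnalyticAt ℂ v a := by
    have h1 : AnalyticAt ℂ (fun z => u z / u a) a := hu.div analyticAt_const hua
    have h2 : AnalyticAt ℂ (fun z => log (u z / u a)) a := by
      apply AnalyticAt.clog h1
      rw [div_self hua]
      exact one_mem_slitPlane
    have h3 : AnalyticAt ℂ (fun z => log (u z / u a) / m) a := h2.div analyticAt_const hmC
    exact analyticAt_const.mul h3.cexp'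
  have hvm : ∀ᶠ z in 𝓝 a, v z ^ m = u z := by
    filter_upwards [hu.continuousAt.eventually_ne hua] with z hz
    rw [hv]
    simp only
    rw [mul_pow, hv0, ← exp_nat_mul, mul_div_cancel₀ _ hmC, exp_log (div_ne_zero hz hua),
      mul_div_cancel₀ _ hua]
  set s : ℂ → ℂ := fun z => (z - a) * v z with hs
  have hsan : AnalyticAt ℂ s a := (analyticAt_id.sub analyticAt_const).mul hvan
  have hsd : HasDerivAt s v0 a := by
    have h2 : HasDerivAt (fun z => (z - a) * v z) (1 * v a + (a - a) * deriv v a) a :=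
      ((hasDerivAt_id a).sub_const a).mul hvan.differentiableAt.hasDerivAt
    rw [hva] at h2
    simpa using h2
  have hss : HasStrictDerivAt s v0 a := by
    have h1 : HasStrictDerivAt s (deriv s a) a := hsan.hasStrictDerivAt
    rw [hsd.deriv] at h1
    exact h1
  have hmap := hss.map_nhds_eq hv00
  have hsa : s a = 0 := by
    rw [hs]
    simp
  rw [hsa] at hmap
  have hA : {z | z ∈ ball a r ∧ Φ z = Φ a + s z ^ m} ∈ 𝓝 a := by
    filter_upwards [ball_mem_nhds a hr, hev, hvm] with z h1 h2 h3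
    refine ⟨h1, ?_⟩
    rw [hs]
    simp only
    rw [mul_pow, h3]
    simp only [smul_eq_mul] at h2
    rw [← h2]
    ring
  have hA2 : s '' {z | z ∈ ball a r ∧ Φ z = Φ a + s z ^ m} ∈ 𝓝 (0 : ℂ) := by
    rw [← hmap]
    exact image_mem_map hA
  obtain ⟨ρ, hρ, hball⟩ := Metric.mem_nhds_iff.1 hA2
  refine ⟨ρ ^ m, pow_pos hρ m, ?_⟩
  intro w hw1 hw2
  obtain ⟨σ, hσ⟩ := IsAlgClosed.exists_pow_nat_eq (w - Φ a) (Nat.pos_of_ne_zero hm0)
  have hσ0 : σ ≠ 0 := by
    rintro rfl
    rw [zero_pow hm0] at hσ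
    exact hw1 (sub_eq_zero.1 hσ.symm)
  have hσρ : ‖σ‖ < ρ := by
    rw [← hσ, norm_pow] at hw2
    exact lt_of_pow_lt_pow_left₀ m hρ.le hw2
  have hprim := Complex.isPrimitiveRoot_exp m hm0
  set ζ := exp (2 * Real.pi * I / m) with hζ
  have hζ1 : ζ ≠ 1 := hprim.ne_one hm2
  have hζm : ζ ^ m = 1 := hprim.pow_eq_one
  have hζn : ‖ζ‖ = 1 := by
    have h1 : ‖ζ‖ ^ m = 1 := by rw [← norm_pow, hζm, norm_one]
    exact (pow_eq_one_iff_of_nonneg (norm_nonneg _) hm0).1 h1
  obtain ⟨x, ⟨hx1, hx2⟩, hx3⟩ := hball (show σ ∈ ball 0 ρ by rw [mem_ball_zero_iff]; exact hσρ)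
  obtain ⟨y, ⟨hy1, hy2⟩, hy3⟩ := hball (show ζ * σ ∈ ball 0 ρ by
    rw [mem_ball_zero_iff, norm_mul, hζn, one_mul]
    exact hσρ)
  refine ⟨x, y, ?_, ?_, ?_, ?_, ?_⟩
  · intro h
    rw [h, hy3] at hx3
    apply hζ1
    have : (ζ - 1) * σ = 0 := by rw [sub_mul, hx3, one_mul, sub_self]
    rcases mul_eq_zero.1 this with h | h
    · exact sub_eq_zero.1 h
    · exact absurd h hσ0
  · rw [← dist_eq_norm]
    exact hx1
  · rw [← dist_eq_norm]
    exact hy1
  · rw [hx2, hx3, hσ]
    ring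
  · rw [hy2, hy3, mul_pow, hζm, one_mul, hσ]
    ring

end Pool.Agent.PLim
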