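import Pool.Agent.PLim.Targets

/-!
# PLIM-LOG: the two logarithms
-/

set_option autoImplicit false

open Complex Filter Topology Set MeasureTheory
open Pool.Agent.Multibrot Pool.Agent.Limb

namespace Pool.Agent.PLim

namespace LOG_

/-- a function with `f (x + p) = f x + a` on a set invariant under `± p` -/
lemma int_shift {S : Set ℂ} {f : ℂ → ℂ} {p a : ℂ} (hS : ∀ x, x ∈ S → x + p ∈ S)
    (hS' : ∀ x, x ∈ S → x - p ∈ S) (hf : ∀ x ∈ S, f (x + p) = f x + a) (m : ℤ) :
    ∀ x ∈ S, f (x + p * m) = f x + a * m := by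
  have hSn : ∀ k : ℕ, ∀ x ∈ S, x + p * k ∈ S := by
    intro k
    induction k with
    | zero => intro x hx; simpa using hx
    | succ k ih =>
      intro x hx
      have := hS _ (ih x hx)
      have e : x + p * ((k + 1 : ℕ) : ℂ) = x + p * k + p := by push_cast; ring
      rw [e]
      exact this
  have hSn' : ∀ k : ℕ, ∀ x ∈ S, x - p * k ∈ S := by
    intro k
    induction k with
    | zero => intro x hx; simpa using hx
    | succ k ih =>
      intro x hx
      have := hS' _ (ih x hx)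
      have e : x - p * ((k + 1 : ℕ) : ℂ) = x - p * k - p := by push_cast; ring
      rw [e]
      exact this
  have hn : ∀ k : ℕ, ∀ x ∈ S, f (x + p * k) = f x + a * k := by
    intro k
    induction k with
    | zero => intro x _; simp
    | succ k ih =>
      intro x hx
      have e : x + p * ((k + 1 : ℕ) : ℂ) = x + p * k + p := by push_cast; ring
      rw [e, hf _ (hSn k x hx), ih x hx]
      push_cast
      ring
  intro x hx
  rcases Int.eq_nat_or_neg m with ⟨k, rfl | rfl⟩
  · simpa using hn k x hx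
  · have h := hn k (x - p * k) (hSn' k x hx)
    have e : x - p * (k : ℂ) + p * k = x := by ring
    rw [e] at h
    have e2 : x + p * ((-(k : ℤ) : ℤ) : ℂ) = x - p * k := by push_cast; ring
    rw [e2, h]
    push_cast
    ring

lemma SL_add {n : ℕ} {c ζ : ℂ} (x : ℂ) (hx : x ∈ SL n c ζ) :
    x + 2 * Real.pi * I ∈ SL n c ζ := by
  have hre : (x + 2 * Real.pi * I).re = x.re := by simp
  have him : (x + 2 * Real.pi * I).im = x.im + 2 * Real.pi := by simp
  refine ⟨by rw [hre]; exact hx.1, fun m hm => ?_⟩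
  rw [hre]
  rw [him] at hm
  refine hx.2 (m - 1) ?_
  push_cast
  linarith

lemma SL_sub {n : ℕ} {c ζ : ℂ} (x : ℂ) (hx : x ∈ SL n c ζ) :
    x - 2 * Real.pi * I ∈ SL n c ζ := by
  have hre : (x - 2 * Real.pi * I).re = x.re := by simp
  have him : (x - 2 * Real.pi * I).im = x.im - 2 * Real.pi := by simp
  refine ⟨by rw [hre]; exact hx.1, fun m hm => ?_⟩
  rw [hre]
  rw [him] at hm
  refine hx.2 (m + 1) ?_
  push_cast
  linarith

/-- the inverse Böttcher map is periodic -/
lemma Lam_per {n : ℕ} (hn : 2 ≤ n) {Λ : ℂ → ℂ → ℂ} (hΛ : IsBot n Λ) (c s : ℂ)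
    (hs : G n c 0 < s.re) (m : ℤ) :
    exp (Λ c (s + 2 * Real.pi * I * m)) = exp (Λ c s) := by
  have hn0 : (n : ℂ) ≠ 0 := by
    have : n ≠ 0 := by omega
    exact_mod_cast this
  have hre : (2 * Real.pi * I / n : ℂ).re = 0 := by
    have : (2 * Real.pi * I / n : ℂ) = ((2 * Real.pi / n : ℝ) : ℂ) * I := by push_cast; ring
    rw [this]
    simp
  have h := int_shift (S := {s : ℂ | G n c 0 < s.re}) (f := Λ c) (p := 2 * Real.pi * I / n)
    (a := 2 * Real.pi * I / n) (fun x hx => by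
      show G n c 0 < (x + 2 * Real.pi * I / n).re
      rw [add_re, hre, add_zero]
      exact hx) (fun x hx => by
      show G n c 0 < (x - 2 * Real.pi * I / n).re
      rw [sub_re, hre, sub_zero]
      exact hx) (fun x hx => hΛ.rot c x hx) (n * m) s hs
  have e : (2 * Real.pi * I / n : ℂ) * ((n * m : ℤ) : ℂ) = 2 * Real.pi * I * m := by
    push_cast
    field_simp
  rw [e] at h
  rw [h, exp_add]
  have e2 : exp (2 * Real.pi * I * m) = 1 := by
    rw [mul_comm]
    exact exp_int_mul_two_pi_mul_I m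
  rw [e2, mul_one]

end LOG_

theorem p_LOG (hA : T_LOGA) (hB : T_LOGB) (hC : T_LOGC) : T_LOG := by
  intro n Λ hn hΛ
  obtain ⟨lh, h1, h2, h3, h4, h5⟩ := hA n Λ hn hΛ
  obtain ⟨ls, g1, g2, g3, g4, g5⟩ := hB n Λ hn hΛ
  refine ⟨lh, ls, h1, h2, h3, h4, g1, g2, g3, g4, ?_⟩
  intro c ζ ξ m hc hξ1 hξ2 hξ3 hξ4
  set ξ' : ℂ := ξ - 2 * Real.pi * I * m with hξ'
  have hre : ξ'.re = ξ.re := by
    rw [hξ']
    simp
  have him : ξ'.im = ξ.im - 2 * Real.pi * m := by
    rw [hξ']
    simp
  have hpi : 0 < Real.pi := Real.pi_pos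
  have h6 : ls c ζ ξ' = lh c ζ (exp (Λ c ξ')) :=
    hC n Λ lh ls c ζ ξ' hn hΛ h5 g5 hc (by rw [hre]; exact hξ1) (by rw [hre]; exact hξ2)
      (by rw [him]; linarith) (by rw [him]; linarith)
  have hSL : ξ' ∈ SL n c ζ := by
    refine ⟨by rw [hre]; exact hξ1, fun j hj => ?_⟩
    exfalso
    have a1 : ζ.im < ζ.im + 2 * Real.pi * j := by
      rw [← hj, him]
      linarith
    have a2 : ζ.im + 2 * Real.pi * j < ζ.im + 2 * Real.pi := by
      rw [← hj, him]
      linarith
    have a3 : (0 : ℝ) < j := by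
      by_contra hcon
      push Not at hcon
      have := mul_nonneg_of_nonpos_of_nonpos (by linarith : -(2 * Real.pi) ≤ 0) hcon
      linarith
    have a4 : (j : ℝ) < 1 := by
      by_contra hcon
      push Not at hcon
      have := mul_le_mul_of_nonneg_left hcon (by linarith : 0 ≤ 2 * Real.pi)
      linarith
    have a5 : (0 : ℤ) < j := by exact_mod_cast a3
    have a6 : j < (1 : ℤ) := by exact_mod_cast a4
    omega
  have h7 := LOG_.int_shift (S := SL n c ζ) (f := ls c ζ) LOG_.SL_add LOG_.SL_sub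
    (fun x hx => g3 c ζ x hc hx) m ξ' hSL
  have e : ξ' + 2 * Real.pi * I * m = ξ := by
    rw [hξ']
    ring
  rw [e] at h7
  have h8 := LOG_.Lam_per hn hΛ c ξ' (by rw [hre]; exact hξ1) m
  rw [e] at h8
  rw [h7, h6, h8]

end Pool.Agent.PLim
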