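import Pool.Agent.PLim.Targets

/-!
# PLIM-LOGA: the logarithm of `z - c` on `{G < G(c)}`
-/

set_option autoImplicit false

open Complex Filter Topology Set
open Pool.Agent.Multibrot Pool.Agent.Limb

namespace Pool.Agent.PLim

namespace LOGA

lemma G0_lt {n : ℕ} {Λ : ℂ → ℂ → ℂ} (hn : 2 ≤ n) (hG : T_GREEN) {c ζ : ℂ}
    (h : Crit n Λ c ζ) : G n c 0 < ζ.re := by
  obtain ⟨-, h0, -, -, -, h5, h6, -⟩ := hG n hn
  rw [h.2.1, h6]
  have h1 : G n c 0 ≠ 0 := fun hh => h.1 ((h5 c).2 hh)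
  have h2 : 0 < G n c 0 := lt_of_le_of_ne (h0 c 0) (Ne.symm h1)
  have h3 : (2 : ℝ) ≤ n := by exact_mod_cast hn
  nlinarith

lemma re_nonneg {n : ℕ} {Λ : ℂ → ℂ → ℂ} (hn : 2 ≤ n) (hG : T_GREEN) {c ζ : ℂ}
    (h : Crit n Λ c ζ) : 0 ≤ ζ.re := by
  rw [h.2.1]
  exact (hG n hn).2.1 c c

lemma rot_iter {n : ℕ} {Λ : ℂ → ℂ → ℂ} (hΛ : IsBot n Λ) {c s : ℂ}
    (h : G n c 0 < s.re) (k : ℕ) :
    Λ c (s + k * (2 * Real.pi * I / n)) = Λ c s + k * (2 * Real.pi * I / n) := by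
  induction k with
  | zero => simp
  | succ k ih =>
    have h1 : (s + k * (2 * Real.pi * I / n)).re = s.re := by
      have : ((k : ℂ) * (2 * Real.pi * I / n)) = ((k * (2 * Real.pi) / n : ℝ) : ℂ) * I := by
        push_cast
        ring
      rw [add_re, this]
      simp
    have h2 := hΛ.rot c (s + k * (2 * Real.pi * I / n)) (by rw [h1]; exact h)
    have h3 : s + ((k + 1 : ℕ) : ℂ) * (2 * Real.pi * I / n)
        = s + k * (2 * Real.pi * I / n) + 2 * Real.pi * I / n := by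
      push_cast
      ring
    rw [h3, h2, ih]
    push_cast
    ring

lemma rot_full {n : ℕ} {Λ : ℂ → ℂ → ℂ} (hn : 2 ≤ n) (hΛ : IsBot n Λ) {c s : ℂ}
    (h : G n c 0 < s.re) : Λ c (s + 2 * Real.pi * I) = Λ c s + 2 * Real.pi * I := by
  have h1 := rot_iter hΛ h n
  have hn0 : (n : ℂ) ≠ 0 := by
    have : n ≠ 0 := by omega
    exact_mod_cast this
  rw [mul_div_cancel₀ _ hn0] at h1
  exact h1

lemma crit_shift {n : ℕ} {Λ : ℂ → ℂ → ℂ} (hn : 2 ≤ n) (hG : T_GREEN) (hΛ : IsBot n Λ) {c ζ : ℂ}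
    (h : Crit n Λ c ζ) : Crit n Λ c (ζ + 2 * Real.pi * I) := by
  refine ⟨h.1, ?_, ?_⟩
  · rw [← h.2.1]
    simp
  · rw [rot_full hn hΛ (G0_lt hn hG h), Complex.exp_add, Complex.exp_two_pi_mul_I, mul_one]
    exact h.2.2

/-- A continuous function whose exponential is `z - c` is differentiable. -/
lemma diff_of_exp {f : ℂ → ℂ} {U : Set ℂ} {c : ℂ} (hU : IsOpen U) (hf : ContinuousOn f U)
    (he : ∀ z ∈ U, exp (f z) = z - c) : DifferentiableOn ℂ f U := by
  intro z0 hz0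
  apply DifferentiableAt.differentiableWithinAt
  have hc : ContinuousAt f z0 := hf.continuousAt (hU.mem_nhds hz0)
  have hne : z0 - c ≠ 0 := by
    rw [← he z0 hz0]
    exact Complex.exp_ne_zero _
  have h1 : ∀ᶠ z in 𝓝 z0, ‖f z - f z0‖ < Real.pi := by
    have : Tendsto (fun z => ‖f z - f z0‖) (𝓝 z0) (𝓝 0) := by
      have h2 : Tendsto (fun z => f z - f z0) (𝓝 z0) (𝓝 (f z0 - f z0)) :=
        hc.tendsto.sub tendsto_const_nhds
      rw [sub_self] at h2
      simpa using h2.norm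
    exact this.eventually (gt_mem_nhds Real.pi_pos)
  have h2 : ∀ᶠ z in 𝓝 z0, f z = f z0 + Complex.log ((z - c) / (z0 - c)) := by
    filter_upwards [h1, hU.mem_nhds hz0] with z hz hzU
    have h3 : (z - c) / (z0 - c) = exp (f z - f z0) := by
      rw [Complex.exp_sub, he z hzU, he z0 hz0]
    rw [h3]
    have h4 := (Complex.abs_im_le_norm (f z - f z0)).trans_lt hz
    rw [abs_lt] at h4
    rw [Complex.log_exp h4.1 h4.2.le]
    ring
  have h3 : DifferentiableAt ℂ (fun z => f z0 + Complex.log ((z - c) / (z0 - c))) z0 := by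
    apply DifferentiableAt.const_add
    apply DifferentiableAt.clog
    · exact (differentiableAt_id.sub_const c).div_const _
    · rw [div_self hne]
      exact Complex.one_mem_slitPlane
  exact h3.congr_of_eventuallyEq h2

end LOGA

open LOGA in
theorem p_LOGA (hL : T_LOGL) (hG : T_GREEN) : T_LOGA := by
  intro n Λ hn hΛ
  set S : Set (ℂ × ℂ × ℂ) := {p : ℂ × ℂ × ℂ | Crit n Λ p.1 p.2.1 ∧ G n p.1 p.2.2 < p.2.1.re}
    with hS
  set q : S → ℝ → ℂ := fun y t =>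
    (exp (Λ y.1.1 (y.1.2.1 + t)) - y.1.2.2) * exp (-(y.1.2.1 + t)) with hq
  have hdom : ∀ (y : S) (t : ℝ), 0 ≤ t → G n y.1.1 0 < (y.1.2.1 + (t : ℂ)).re := by
    intro y t ht
    have := G0_lt hn hG y.2.1
    rw [add_re, ofReal_re]
    linarith
  have hqc : ContinuousOn (fun p : S × ℝ => q p.1 p.2) (univ ×ˢ Ici 0) := by
    have h1 : ContinuousOn (fun p : S × ℝ => Λ p.1.1.1 (p.1.1.2.1 + (p.2 : ℂ)))
        (univ ×ˢ Ici 0) := by
      have h2 : Continuous (fun p : S × ℝ => ((p.1.1.1, p.1.1.2.1 + (p.2 : ℂ)) : ℂ × ℂ)) := by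
        fun_prop
      refine hΛ.cont.comp h2.continuousOn ?_
      rintro ⟨y, t⟩ ⟨-, ht⟩
      exact hdom y t ht
    have h3 : Continuous (fun p : S × ℝ => exp (-(p.1.1.2.1 + (p.2 : ℂ)))) := by fun_prop
    have h4 : Continuous (fun p : S × ℝ => p.1.1.2.2) := by fun_prop
    exact (h1.cexp.sub h4.continuousOn).mul h3.continuousOn
  have hq0 : ∀ (y : S) (t : ℝ), 0 ≤ t → q y t ≠ 0 := by
    intro y t ht
    refine mul_ne_zero ?_ (Complex.exp_ne_zero _)
    intro h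
    have h1 := hΛ.green y.1.1 (y.1.2.1 + t) (hdom y t ht)
    rw [sub_eq_zero.1 h, add_re, ofReal_re] at h1
    have h2 := y.2.2
    linarith
  have hq1 : ∀ y₀ : S, ∀ ε : ℝ, 0 < ε → ∃ T : ℝ, ∀ᶠ y in 𝓝 y₀, ∀ t, T ≤ t →
      ‖q y t - 1‖ < ε := by
    intro y₀ ε hε
    set K : ℝ := max ‖y₀.1.1‖ ‖y₀.1.2.2‖ + 1 with hK
    have hK1 : 1 ≤ K := by
      have := le_max_left ‖y₀.1.1‖ ‖y₀.1.2.2‖
      have := norm_nonneg y₀.1.1
      linarith
    have hpos : 0 < 2 * (1 + K) + 3 * K / ε + 1 := by positivity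
    set E : ℝ := 2 * (1 + K) + 3 * K / ε + 1 with hE
    have hdiv : 0 < 3 * K / ε := by positivity
    have hE1 : 1 ≤ E := by rw [hE]; linarith
    refine ⟨Real.log E, ?_⟩
    have e1 : ∀ᶠ y : S in 𝓝 y₀, ‖y.1.1‖ < K := by
      have hc : Continuous (fun y : S => ‖y.1.1‖) := by fun_prop
      have : ‖y₀.1.1‖ < K := by
        have := le_max_left ‖y₀.1.1‖ ‖y₀.1.2.2‖
        linarith
      exact hc.continuousAt.eventually (gt_mem_nhds this)
    have e2 : ∀ᶠ y : S in 𝓝 y₀, ‖y.1.2.2‖ < K := by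
      have hc : Continuous (fun y : S => ‖y.1.2.2‖) := by fun_prop
      have : ‖y₀.1.2.2‖ < K := by
        have := le_max_right ‖y₀.1.1‖ ‖y₀.1.2.2‖
        linarith
      exact hc.continuousAt.eventually (gt_mem_nhds this)
    filter_upwards [e1, e2] with y hy1 hy2 t ht
    have hre : 0 ≤ y.1.2.1.re := re_nonneg hn hG y.2.1
    set s : ℂ := y.1.2.1 + (t : ℂ) with hs
    have hsre : s.re = y.1.2.1.re + t := by rw [hs, add_re, ofReal_re]
    have hlog0 : 0 ≤ Real.log E := Real.log_nonneg hE1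
    have hst : Real.log E ≤ s.re := by rw [hsre]; linarith
    have hexp : E ≤ Real.exp s.re := by
      rw [← Real.exp_log hpos]
      exact Real.exp_le_exp.2 hst
    have hnear := (hΛ.near y.1.1 s (by
      have : 2 * (1 + ‖y.1.1‖) ≤ 2 * (1 + K) := by linarith
      refine this.trans (le_trans ?_ hexp)
      rw [hE]
      linarith)).2
    have hexpn : Real.exp (-(n * s.re)) ≤ Real.exp (-s.re) := by
      apply Real.exp_le_exp.2
      have h0 : 0 ≤ s.re := hlog0.trans hst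
      have h1 : (1 : ℝ) ≤ n := by
        have : 1 ≤ n := by omega
        exact_mod_cast this
      nlinarith
    have hexpi : Real.exp (-s.re) ≤ E⁻¹ := by
      rw [Real.exp_neg]
      exact inv_anti₀ hpos hexp
    have hA : ‖Λ y.1.1 s - s‖ ≤ K * E⁻¹ := by
      refine hnear.trans ?_
      exact mul_le_mul hy1.le (hexpn.trans hexpi) (Real.exp_pos _).le (by linarith)
    have hKE : K * E⁻¹ ≤ 1 := by
      rw [← div_eq_mul_inv, div_le_one hpos]
      rw [hE]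
      linarith
    have hB : ‖exp (Λ y.1.1 s - s) - 1‖ ≤ 2 * ‖Λ y.1.1 s - s‖ :=
      Complex.norm_exp_sub_one_le (hA.trans hKE)
    have hqe : q y t - 1 = (exp (Λ y.1.1 s - s) - 1) - y.1.2.2 * exp (-s) := by
      simp only [hq]
      rw [← hs, sub_mul, ← Complex.exp_add, sub_eq_add_neg (Λ y.1.1 s) s]
      ring
    rw [hqe]
    have hC : ‖y.1.2.2 * exp (-s)‖ ≤ K * E⁻¹ := by
      rw [norm_mul, Complex.norm_exp, neg_re]
      exact mul_le_mul hy2.le hexpi (Real.exp_pos _).le (by linarith)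
    have hD : 3 * (K * E⁻¹) < ε := by
      have : 3 * K / ε < E := by rw [hE]; linarith
      rw [div_lt_iff₀ hε] at this
      rw [← mul_assoc, ← div_eq_mul_inv, div_lt_iff₀ hpos]
      linarith
    calc ‖(exp (Λ y.1.1 s - s) - 1) - y.1.2.2 * exp (-s)‖
        ≤ ‖exp (Λ y.1.1 s - s) - 1‖ + ‖y.1.2.2 * exp (-s)‖ := norm_sub_le _ _
      _ ≤ 2 * (K * E⁻¹) + K * E⁻¹ := by linarith
      _ < ε := by linarith
  obtain ⟨L, hLc, hLe, hL0, hLu⟩ := hL S q hqc hq0 hq1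
  have hLt : ∀ y : S, Tendsto (L y) atTop (𝓝 0) := by
    intro y
    rw [Metric.tendsto_atTop]
    intro ε hε
    obtain ⟨T, hT⟩ := hL0 y ε hε
    refine ⟨T, fun t ht => ?_⟩
    rw [dist_zero_right]
    exact hT.self_of_nhds t ht
  have hLcy : ∀ y : S, ContinuousOn (L y) (Ici 0) := by
    intro y
    have h1 : Continuous (fun t : ℝ => ((y, t) : S × ℝ)) := by fun_prop
    exact hLc.comp h1.continuousOn (fun t ht => ⟨mem_univ _, ht⟩)
  classical
  set lh : ℂ → ℂ → ℂ → ℂ := fun c ζ z =>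
    if h : ((c, ζ, z) : ℂ × ℂ × ℂ) ∈ S then ζ + Real.pi * I + L ⟨(c, ζ, z), h⟩ 0 else 0 with hlh
  have hval : ∀ y : S, lh y.1.1 y.1.2.1 y.1.2.2 = y.1.2.1 + Real.pi * I + L y 0 := by
    intro y
    simp only [hlh]
    rw [dif_pos y.2]
  clear_value lh
  clear hlh
  have hcont : ContinuousOn (fun p : ℂ × ℂ × ℂ => lh p.1 p.2.1 p.2.2) S := by
    rw [continuousOn_iff_continuous_domRestrict]
    have h1 : S.domRestrict (fun p : ℂ × ℂ × ℂ => lh p.1 p.2.1 p.2.2)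
        = fun y : S => y.1.2.1 + Real.pi * I + L y 0 := by
      funext y
      exact hval y
    rw [h1]
    have h2 : Continuous (fun y : S => L y 0) := by
      have h3 : Continuous (fun y : S => ((y, (0 : ℝ)) : S × ℝ)) := by fun_prop
      rw [← continuousOn_univ]
      exact hLc.comp h3.continuousOn (fun y _ => ⟨mem_univ _, Set.mem_Ici.2 le_rfl⟩)
    have h3 : Continuous (fun y : S => y.1.2.1) := by fun_prop
    exact (h3.add continuous_const).add h2
  have hexp : ∀ c ζ z : ℂ, Crit n Λ c ζ → G n c z < ζ.re → exp (lh c ζ z) = z - c := by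
    intro c ζ z h1 h2
    have h3 := hval ⟨(c, ζ, z), ⟨h1, h2⟩⟩
    simp only at h3
    rw [h3, Complex.exp_add, Complex.exp_add, Complex.exp_pi_mul_I,
      hLe ⟨(c, ζ, z), ⟨h1, h2⟩⟩ 0 le_rfl]
    simp only [hq]
    rw [ofReal_zero, add_zero, h1.2.2]
    have h4 : exp ζ * exp (-ζ) = 1 := by rw [← Complex.exp_add]; simp
    linear_combination (z - c) * h4
  have hopen : ∀ c ζ : ℂ, IsOpen {z : ℂ | G n c z < ζ.re} := by
    intro c ζ
    have h1 : Continuous (fun z : ℂ => G n c z) := by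
      have h2 : Continuous (fun z : ℂ => ((c, z) : ℂ × ℂ)) := by fun_prop
      have h3 := ((hG n hn).1).comp h2
      exact h3
    exact isOpen_lt h1 continuous_const
  refine ⟨lh, hcont, ?_, hexp, ?_, ?_⟩
  · intro c ζ hcr
    refine diff_of_exp (hopen c ζ) ?_ (fun z hz => hexp c ζ z hcr hz)
    have h1 : Continuous (fun z : ℂ => ((c, ζ, z) : ℂ × ℂ × ℂ)) := by fun_prop
    have h2 : MapsTo (fun z : ℂ => ((c, ζ, z) : ℂ × ℂ × ℂ)) {z : ℂ | G n c z < ζ.re} S :=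
      fun z hz => ⟨hcr, hz⟩
    exact hcont.comp h1.continuousOn h2
  · intro c ζ z hcr hz
    have hcr' := crit_shift hn hG hΛ hcr
    have hz' : G n c z < (ζ + 2 * Real.pi * I).re := by
      have : (ζ + 2 * Real.pi * I).re = ζ.re := by simp
      rw [this]
      exact hz
    have h1 := hval ⟨(c, ζ, z), ⟨hcr, hz⟩⟩
    have h2 := hval ⟨(c, ζ + 2 * Real.pi * I, z), ⟨hcr', hz'⟩⟩
    simp only at h1 h2
    rw [h1, h2]
    have h3 := hLu ⟨(c, ζ, z), ⟨hcr, hz⟩⟩ (L ⟨(c, ζ + 2 * Real.pi * I, z), ⟨hcr', hz'⟩⟩)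
      (hLcy _) (by
        intro t ht
        rw [hLe _ t ht]
        simp only [hq]
        have h4 : ζ + 2 * Real.pi * I + (t : ℂ) = (ζ + t) + 2 * Real.pi * I := by ring
        rw [h4, rot_full hn hΛ (hdom ⟨(c, ζ, z), ⟨hcr, hz⟩⟩ t ht), Complex.exp_add,
          Complex.exp_two_pi_mul_I, mul_one, neg_add, Complex.exp_add,
          Complex.exp_neg (2 * Real.pi * I), Complex.exp_two_pi_mul_I, inv_one, mul_one])
      (hLt _) 0 le_rfl
    rw [h3]
    ring
  · intro c ζ z M hcr hz hM hMe hMt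
    have h1 := hval ⟨(c, ζ, z), ⟨hcr, hz⟩⟩
    simp only at h1
    rw [h1, hLu ⟨(c, ζ, z), ⟨hcr, hz⟩⟩ M hM (fun t ht => hMe t ht) hMt 0 le_rfl]

end Pool.Agent.PLim
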