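import Pool.Agent.PLim.Targets

/-!
# PLIM: the logarithm of `exp (Λ c ξ) - c` on the slit domain
-/

set_option autoImplicit false

open Complex Filter Topology Set
open Pool.Agent.Multibrot Pool.Agent.Limb

namespace Pool.Agent.PLim

namespace LOGB_

theorem isOpen_SL (n : ℕ) (c ζ : ℂ) : IsOpen (SL n c ζ) := by
  have h1 : SL n c ζ = {ξ : ℂ | G n c 0 < ξ.re} ∩
      ({ξ : ℂ | ζ.re < ξ.re} ∪ {ξ : ℂ | Real.cos (ξ.im - ζ.im) ≠ 1}) := by
    ext ξ
    simp only [SL, mem_ofPred_eq, mem_inter_iff, mem_union]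
    refine and_congr_right fun _ => ?_
    constructor
    · intro h
      by_cases h2 : ζ.re < ξ.re
      · exact Or.inl h2
      · right
        intro h3
        obtain ⟨m, hm⟩ := (Real.cos_eq_one_iff _).1 h3
        exact h2 (h m (by linarith))
    · rintro (h | h) m hm
      · exact h
      · exact absurd ((Real.cos_eq_one_iff _).2 ⟨m, by linarith⟩) h
  rw [h1]
  refine IsOpen.inter (isOpen_lt continuous_const continuous_re) (IsOpen.union
    (isOpen_lt continuous_const continuous_re) ?_)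
  have h2 : Continuous fun ξ : ℂ => Real.cos (ξ.im - ζ.im) :=
    Real.continuous_cos.comp (continuous_im.sub continuous_const)
  exact isOpen_compl_singleton.preimage h2

theorem add_mem_SL {n : ℕ} {c ζ ξ : ℂ} (h : ξ ∈ SL n c ζ) {t : ℝ} (ht : 0 ≤ t) :
    ξ + t ∈ SL n c ζ := by
  obtain ⟨h1, h2⟩ := h
  refine ⟨?_, fun m hm => ?_⟩
  · rw [add_re, ofReal_re]
    linarith
  · rw [add_im, ofReal_im, add_zero] at hm
    rw [add_re, ofReal_re]
    have := h2 m hm
    linarith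

theorem per_mem_SL {n : ℕ} {c ζ ξ : ℂ} (h : ξ ∈ SL n c ζ) :
    ξ + 2 * Real.pi * I ∈ SL n c ζ := by
  have hre : (ξ + 2 * Real.pi * I).re = ξ.re := by simp
  have him : (ξ + 2 * Real.pi * I).im = ξ.im + 2 * Real.pi := by simp
  obtain ⟨h1, h2⟩ := h
  refine ⟨?_, fun m hm => ?_⟩
  · rw [hre]
    exact h1
  · rw [hre]
    rw [him] at hm
    apply h2 (m - 1)
    push_cast
    linarith

theorem rot_full {n : ℕ} {Λ : ℂ → ℂ → ℂ} (hn : 2 ≤ n) (hB : IsBot n Λ) (c s : ℂ)
    (hs : G n c 0 < s.re) : Λ c (s + 2 * Real.pi * I) = Λ c s + 2 * Real.pi * I := by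
  have h1 : ∀ k : ℕ, Λ c (s + k * (2 * Real.pi * I / n)) = Λ c s + k * (2 * Real.pi * I / n) := by
    intro k
    induction k with
    | zero => simp
    | succ k ih =>
      have h2 : G n c 0 < (s + k * (2 * Real.pi * I / n)).re := by
        have : (s + k * (2 * Real.pi * I / n)).re = s.re := by
          rw [show s + k * (2 * Real.pi * I / n) = s + ((k * (2 * Real.pi / n) : ℝ) : ℂ) * I by
            push_cast
            ring]
          simp
        rw [this]
        exact hs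
      have h3 := hB.rot c _ h2
      rw [ih] at h3
      rw [show s + ((k + 1 : ℕ) : ℂ) * (2 * Real.pi * I / n) =
        s + k * (2 * Real.pi * I / n) + 2 * Real.pi * I / n by push_cast; ring, h3]
      push_cast
      ring
  have h2 := h1 n
  have h3 : (n : ℂ) * (2 * Real.pi * I / n) = 2 * Real.pi * I := by
    have : (n : ℂ) ≠ 0 := by
      have : n ≠ 0 := by omega
      exact_mod_cast this
    field_simp
  rw [h3] at h2
  exact h2

/-- a continuous logarithm of a differentiable function is differentiable -/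
theorem differentiableAt_log {l g : ℂ → ℂ} {a : ℂ} (hl : ContinuousAt l a)
    (hg : DifferentiableAt ℂ g a) (he : ∀ᶠ x in 𝓝 a, exp (l x) = g x) :
    DifferentiableAt ℂ l a := by
  have ha : exp (l a) = g a := he.self_of_nhds
  have hne : g a ≠ 0 := by
    rw [← ha]
    exact exp_ne_zero _
  have h1 : DifferentiableAt ℂ (fun x => l a + log (g x / g a)) a := by
    refine (differentiableAt_const _).add (DifferentiableAt.clog (hg.div_const _) ?_)
    rw [div_self hne]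
    exact one_mem_slitPlane
  refine h1.congr_of_eventuallyEq ?_
  have h2 : ∀ᶠ x in 𝓝 a, ‖l x - l a‖ < 1 := by
    have := Metric.tendsto_nhds.1 hl 1 one_pos
    simpa [dist_eq_norm] using this
  filter_upwards [h2, he] with x hx hex
  rw [← hex, ← ha, ← exp_sub, log_exp]
  · ring
  · have h3 := (abs_im_le_norm (l x - l a)).trans hx.le
    have h4 := (abs_le.1 h3).1
    have := Real.pi_gt_three
    linarith
  · have h3 := (abs_im_le_norm (l x - l a)).trans hx.le
    have h4 := (abs_le.1 h3).2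
    have := Real.pi_gt_three
    linarith

theorem main (h1 : T_LOGL) (h2 : T_GREEN) (n : ℕ) (Λ : ℂ → ℂ → ℂ) (hn : 2 ≤ n)
    (hB : IsBot n Λ) (c ζ : ℂ) (hC : Crit n Λ c ζ) : ∃ l : ℂ → ℂ,
    DifferentiableOn ℂ l (SL n c ζ) ∧
    (∀ ξ ∈ SL n c ζ, exp (l ξ) = exp (Λ c ξ) - c) ∧
    (∀ ξ ∈ SL n c ζ, l (ξ + 2 * Real.pi * I) = l ξ + 2 * Real.pi * I) ∧
    (∀ ξ : ℂ, G n c 0 < ξ.re → l (n * ξ) = n * Λ c ξ) ∧
    ∀ ξ ∈ SL n c ζ, ∀ M : ℝ → ℂ, ContinuousOn M (Ici 0) →
      (∀ t : ℝ, 0 ≤ t → exp (M t) = (exp (Λ c (ξ + t)) - c) * exp (-(ξ + t))) →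
      Tendsto M atTop (𝓝 0) → l ξ = ξ + M 0 := by
  obtain ⟨-, g2, -, -, -, g6, g7, -⟩ := h2 n hn
  obtain ⟨hcM, hζre, hζ⟩ := hC
  have hG0 : 0 < G n c 0 := lt_of_le_of_ne (g2 c 0) fun h => hcM ((g6 c).2 h.symm)
  have hn1 : (1 : ℝ) < n := by exact_mod_cast hn
  have hζG : G n c 0 < ζ.re := by
    rw [hζre, g7]
    nlinarith
  have hcont : ContinuousOn (Λ c) {s : ℂ | G n c 0 < s.re} := (hB.diff c).continuousOn
  let q : SL n c ζ → ℝ → ℂ := fun y t => (exp (Λ c (y.1 + t)) - c) * exp (-(y.1 + t))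
  have hq1 : ContinuousOn (fun p : SL n c ζ × ℝ => q p.1 p.2) (univ ×ˢ Ici 0) := by
    have e1 : Continuous fun p : SL n c ζ × ℝ => (p.1.1 + p.2 : ℂ) :=
      (continuous_subtype_val.comp continuous_fst).add (continuous_ofReal.comp continuous_snd)
    have e2 : ContinuousOn (fun p : SL n c ζ × ℝ => Λ c (p.1.1 + p.2)) (univ ×ˢ Ici 0) := by
      refine hcont.comp e1.continuousOn ?_
      rintro ⟨y, t⟩ ⟨-, ht⟩
      exact (add_mem_SL y.2 ht).1
    exact ((continuous_exp.comp_continuousOn e2).sub continuousOn_const).mul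
      (continuous_exp.comp e1.neg).continuousOn
  have hq2 : ∀ (y : SL n c ζ) (t : ℝ), 0 ≤ t → q y t ≠ 0 := by
    intro y t ht h
    have hy := add_mem_SL y.2 ht
    rcases mul_eq_zero.1 h with h3 | h3
    · have h4 : exp (Λ c (y.1 + t)) = exp (Λ c ζ) := by
        rw [hζ]
        exact sub_eq_zero.1 h3
      obtain ⟨k, hk⟩ := hB.inj c _ _ hy.1 hζG h4
      have h5 : y.1 + t = ζ + ((k * (2 * Real.pi) : ℝ) : ℂ) * I := by
        rw [← sub_add_cancel (y.1 + (t : ℂ)) ζ, hk]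
        push_cast
        ring
      have h6 : (y.1 + (t : ℂ)).im = ζ.im + 2 * Real.pi * k := by
        rw [h5]
        simp
        ring
      have h7 := hy.2 k h6
      have h8 : (y.1 + (t : ℂ)).re = ζ.re := by
        rw [h5]
        simp
      linarith
    · exact exp_ne_zero _ h3
  have hq3 : ∀ y₀ : SL n c ζ, ∀ ε : ℝ, 0 < ε → ∃ T : ℝ, ∀ᶠ y in 𝓝 y₀, ∀ t, T ≤ t →
      ‖q y t - 1‖ < ε := by
    intro y₀ ε hε
    obtain ⟨A, hA⟩ : ∃ A : ℝ, A = 2 * (1 + ‖c‖) * (1 + 2 / ε) := ⟨_, rfl⟩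
    have hc0 := norm_nonneg c
    have hA1 : 2 * (1 + ‖c‖) ≤ A := by
      rw [hA]
      have : 0 < 2 / ε := by positivity
      nlinarith
    have hA0 : 0 < A := by linarith
    refine ⟨Real.log A, Eventually.of_forall fun y t ht => ?_⟩
    have ht0 : 0 ≤ t := le_trans (Real.log_nonneg (by linarith)) ht
    have hAt : A ≤ Real.exp t := by
      rw [← Real.exp_log hA0]
      exact Real.exp_le_exp.2 ht
    obtain ⟨s, hs⟩ : ∃ s : ℂ, s = y.1 + t := ⟨_, rfl⟩
    have hsre : t ≤ s.re := by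
      rw [hs, add_re, ofReal_re]
      have := y.2.1
      linarith
    have hs2 : 2 * (1 + ‖c‖) ≤ Real.exp s.re :=
      hA1.trans (hAt.trans (Real.exp_le_exp.2 hsre))
    obtain ⟨-, h4⟩ := hB.near c s hs2
    have hexpt : Real.exp (-t) ≤ 1 / A := by
      rw [Real.exp_neg, ← one_div]
      exact one_div_le_one_div_of_le hA0 hAt
    have h5 : ‖c‖ * Real.exp (-(n * s.re)) ≤ ‖c‖ * (1 / A) := by
      refine mul_le_mul_of_nonneg_left ?_ hc0
      refine le_trans (Real.exp_le_exp.2 ?_) hexpt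
      have : 0 ≤ s.re := ht0.trans hsre
      nlinarith
    have h6 : ‖c‖ * Real.exp (-s.re) ≤ ‖c‖ * (1 / A) := by
      refine mul_le_mul_of_nonneg_left ?_ hc0
      refine le_trans (Real.exp_le_exp.2 ?_) hexpt
      linarith
    have h7 : ‖c‖ * (1 / A) < ε / 4 ∧ ‖c‖ * (1 / A) ≤ 1 := by
      have e1 : A * ε = 2 * (1 + ‖c‖) * (ε + 2) := by
        rw [hA]
        field_simp
      constructor
      · rw [mul_one_div, div_lt_iff₀ hA0]
        nlinarith
      · rw [mul_one_div, div_le_one hA0]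
        linarith
    have h8 : q y t - 1 = (exp (Λ c s - s) - 1) - c * exp (-s) := by
      show (exp (Λ c (y.1 + t)) - c) * exp (-(y.1 + t)) - 1 = _
      rw [← hs, exp_sub, exp_neg]
      ring
    rw [h8]
    have h9 : ‖exp (Λ c s - s) - 1‖ ≤ 2 * ‖Λ c s - s‖ :=
      Complex.norm_exp_sub_one_le (h4.trans (h5.trans h7.2))
    have h10 : ‖c * exp (-s)‖ = ‖c‖ * Real.exp (-s.re) := by
      rw [norm_mul, Complex.norm_exp, neg_re]
    calc _ ≤ ‖exp (Λ c s - s) - 1‖ + ‖c * exp (-s)‖ := norm_sub_le _ _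
      _ < ε := by
        rw [h10]
        linarith [h7.1]
  obtain ⟨L, hL1, hL2, hL3, hL4⟩ := h1 (SL n c ζ) q hq1 hq2 hq3
  classical
  obtain ⟨l, hl⟩ : ∃ l : ℂ → ℂ, ∀ ξ (h : ξ ∈ SL n c ζ), l ξ = ξ + L ⟨ξ, h⟩ 0 :=
    ⟨fun ξ => if h : ξ ∈ SL n c ζ then ξ + L ⟨ξ, h⟩ 0 else 0, fun ξ h => dif_pos h⟩
  have hNL : ∀ ξ ∈ SL n c ζ, ∀ M : ℝ → ℂ, ContinuousOn M (Ici 0) →
      (∀ t : ℝ, 0 ≤ t → exp (M t) = (exp (Λ c (ξ + t)) - c) * exp (-(ξ + t))) →
      Tendsto M atTop (𝓝 0) → l ξ = ξ + M 0 := by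
    intro ξ hξ M hM1 hM2 hM3
    rw [hl ξ hξ, hL4 ⟨ξ, hξ⟩ M hM1 hM2 hM3 0 le_rfl]
  have hexp : ∀ ξ ∈ SL n c ζ, exp (l ξ) = exp (Λ c ξ) - c := by
    intro ξ hξ
    rw [hl ξ hξ, exp_add, hL2 ⟨ξ, hξ⟩ 0 le_rfl]
    show exp ξ * ((exp (Λ c (ξ + (0 : ℝ))) - c) * exp (-(ξ + (0 : ℝ)))) = _
    rw [ofReal_zero, add_zero, mul_left_comm, ← exp_add, add_neg_cancel, exp_zero, mul_one]
  have hlim : ∀ y : SL n c ζ, Tendsto (L y) atTop (𝓝 0) := by
    intro y
    rw [Metric.tendsto_atTop]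
    intro ε hε
    obtain ⟨T, hT⟩ := hL3 y ε hε
    refine ⟨T, fun t ht => ?_⟩
    rw [dist_zero_right]
    exact hT.self_of_nhds t ht
  have hLc : ∀ y : SL n c ζ, ContinuousOn (L y) (Ici 0) := by
    intro y
    have e1 : ContinuousOn (fun t : ℝ => ((y, t) : SL n c ζ × ℝ)) (Ici 0) :=
      (Continuous.prodMk_right y).continuousOn
    exact hL1.comp e1 fun t ht => ⟨mem_univ _, ht⟩
  refine ⟨l, ?_, hexp, ?_, ?_, hNL⟩
  · intro ξ hξ
    refine DifferentiableAt.differentiableWithinAt ?_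
    have hopen := isOpen_SL n c ζ
    have hev : ∀ᶠ x in 𝓝 ξ, x ∈ SL n c ζ := hopen.mem_nhds hξ
    refine differentiableAt_log (g := fun x => exp (Λ c x) - c) ?_ ?_ ?_
    · have h3 : ContinuousOn l (SL n c ζ) := by
        rw [continuousOn_iff_continuous_domRestrict]
        have e1 : (SL n c ζ).domRestrict l = fun y : SL n c ζ => y.1 + L y 0 := by
          funext y
          exact hl y.1 y.2
        rw [e1]
        refine continuous_subtype_val.add ?_
        have e2 : Continuous fun y : SL n c ζ => ((y, (0 : ℝ)) : SL n c ζ × ℝ) :=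
          Continuous.prodMk_left 0
        rw [← continuousOn_univ]
        exact hL1.comp e2.continuousOn fun y _ => ⟨mem_univ _, mem_Ici.2 le_rfl⟩
      exact h3.continuousAt hev
    · have h3 : DifferentiableAt ℂ (Λ c) ξ :=
        (hB.diff c).differentiableAt
          ((isOpen_lt continuous_const continuous_re).mem_nhds hξ.1)
      exact h3.cexp.sub_const c
    · exact hev.mono fun x hx => hexp x hx
  · intro ξ hξ
    have h3 := hNL (ξ + 2 * Real.pi * I) (per_mem_SL hξ) (L ⟨ξ, hξ⟩) (hLc _) ?_ (hlim _)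
    · rw [h3, hl ξ hξ]
      ring
    · intro t ht
      rw [hL2 ⟨ξ, hξ⟩ t ht]
      show (exp (Λ c (ξ + t)) - c) * exp (-(ξ + t)) = _
      have e1 : ξ + 2 * Real.pi * I + t = (ξ + t) + 2 * Real.pi * I := by ring
      rw [e1, rot_full hn hB c (ξ + t) (add_mem_SL hξ ht).1, exp_periodic (Λ c (ξ + t))]
      congr 1
      rw [show -(ξ + t + 2 * Real.pi * I) = -(ξ + t) - 2 * Real.pi * I by ring,
        exp_periodic.sub_eq]
  · intro ξ hξ
    have hn0 : (n : ℂ) ≠ 0 := by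
      have : n ≠ 0 := by omega
      exact_mod_cast this
    have hn0' : (0 : ℝ) < n := by linarith
    have hre : (n * ξ : ℂ).re = n * ξ.re := by
      rw [← ofReal_natCast, re_ofReal_mul]
    have hmem : (n * ξ : ℂ) ∈ SL n c ζ := by
      constructor
      · rw [hre]
        nlinarith
      · intro m _
        rw [hre, hζre, g7]
        nlinarith
    obtain ⟨M, hM⟩ : ∃ M : ℝ → ℂ, ∀ t, M t = n * Λ c (ξ + ((t / n : ℝ) : ℂ)) - (n * ξ + t) :=
      ⟨_, fun _ => rfl⟩
    have hMf : M = fun t => n * Λ c (ξ + ((t / n : ℝ) : ℂ)) - (n * ξ + t) := funext hM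
    have hdom : ∀ t : ℝ, 0 ≤ t → G n c 0 < (ξ + ((t / n : ℝ) : ℂ)).re := by
      intro t ht
      rw [add_re, ofReal_re]
      have : 0 ≤ t / n := by positivity
      linarith
    have h3 := hNL (n * ξ) hmem M ?_ ?_ ?_
    · rw [h3, hM]
      simp
    · rw [hMf]
      have e1 : Continuous fun t : ℝ => ξ + ((t / n : ℝ) : ℂ) := by fun_prop
      have e2 : ContinuousOn (fun t : ℝ => Λ c (ξ + ((t / n : ℝ) : ℂ))) (Ici 0) :=
        hcont.comp e1.continuousOn fun t ht => hdom t ht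
      have e3 : Continuous fun t : ℝ => (n * ξ + t : ℂ) := by fun_prop
      exact (continuousOn_const.mul e2).sub e3.continuousOn
    · intro t ht
      rw [hM, exp_sub, hB.func c _ (hdom t ht)]
      have e1 : (n : ℂ) * (ξ + ((t / n : ℝ) : ℂ)) = n * ξ + t := by
        push_cast
        field_simp
      rw [e1, exp_neg]
      rfl
    · rw [Metric.tendsto_atTop]
      intro ε hε
      have hc0 := norm_nonneg c
      obtain ⟨A, hA⟩ : ∃ A : ℝ, A = 2 * (1 + ‖c‖) * (1 + n / ε) := ⟨_, rfl⟩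
      have hA1 : 2 * (1 + ‖c‖) ≤ A := by
        rw [hA]
        have : 0 < n / ε := by positivity
        nlinarith
      have hA0 : 0 < A := by linarith
      refine ⟨n * Real.log A, fun t ht => ?_⟩
      have hlogA : 0 ≤ Real.log A := Real.log_nonneg (by linarith)
      have ht0 : 0 ≤ t := le_trans (by positivity) ht
      obtain ⟨s, hs⟩ : ∃ s : ℂ, s = ξ + ((t / n : ℝ) : ℂ) := ⟨_, rfl⟩
      have hsre : Real.log A ≤ s.re := by
        rw [hs, add_re, ofReal_re]
        have h5 : Real.log A ≤ t / n := by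
          rw [le_div_iff₀ hn0']
          linarith
        linarith
      have hAs : A ≤ Real.exp s.re := by
        rw [← Real.exp_log hA0]
        exact Real.exp_le_exp.2 hsre
      obtain ⟨-, h4⟩ := hB.near c s (hA1.trans hAs)
      have hexps : Real.exp (-s.re) ≤ 1 / A := by
        rw [Real.exp_neg, ← one_div]
        exact one_div_le_one_div_of_le hA0 hAs
      have h5 : ‖c‖ * Real.exp (-(n * s.re)) ≤ ‖c‖ * (1 / A) := by
        refine mul_le_mul_of_nonneg_left ?_ hc0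
        refine le_trans (Real.exp_le_exp.2 ?_) hexps
        have : 0 ≤ s.re := hlogA.trans hsre
        nlinarith
      have h6 : n * (‖c‖ * (1 / A)) < ε := by
        have e1 : A * ε = 2 * (1 + ‖c‖) * (ε + n) := by
          rw [hA]
          field_simp
        rw [mul_one_div, ← mul_div_assoc, div_lt_iff₀ hA0]
        nlinarith
      have h7 : M t = n * (Λ c s - s) := by
        rw [hM, ← hs, hs]
        push_cast
        field_simp
      rw [dist_zero_right, h7, norm_mul, Complex.norm_natCast]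
      calc (n : ℝ) * ‖Λ c s - s‖ ≤ n * (‖c‖ * (1 / A)) :=
            mul_le_mul_of_nonneg_left (h4.trans h5) hn0'.le
        _ < ε := h6

end LOGB_

open LOGB_ in
theorem p_LOGB (h1 : T_LOGL) (h2 : T_GREEN) : T_LOGB := by
  classical
  intro n Λ hn hB
  have h3 : ∀ c ζ : ℂ, ∃ l : ℂ → ℂ, Crit n Λ c ζ →
      (DifferentiableOn ℂ l (SL n c ζ) ∧
      (∀ ξ ∈ SL n c ζ, exp (l ξ) = exp (Λ c ξ) - c) ∧
      (∀ ξ ∈ SL n c ζ, l (ξ + 2 * Real.pi * I) = l ξ + 2 * Real.pi * I) ∧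
      (∀ ξ : ℂ, G n c 0 < ξ.re → l (n * ξ) = n * Λ c ξ) ∧
      ∀ ξ ∈ SL n c ζ, ∀ M : ℝ → ℂ, ContinuousOn M (Ici 0) →
        (∀ t : ℝ, 0 ≤ t → exp (M t) = (exp (Λ c (ξ + t)) - c) * exp (-(ξ + t))) →
        Tendsto M atTop (𝓝 0) → l ξ = ξ + M 0) := by
    intro c ζ
    by_cases h : Crit n Λ c ζ
    · obtain ⟨l, hl⟩ := main h1 h2 n Λ hn hB c ζ h
      exact ⟨l, fun _ => hl⟩
    · exact ⟨fun _ => 0, fun h' => absurd h' h⟩
  choose ls hls using h3
  refine ⟨ls, fun c ζ h => (hls c ζ h).1, fun c ζ ξ h hξ => (hls c ζ h).2.1 ξ hξ,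
    fun c ζ ξ h hξ => (hls c ζ h).2.2.1 ξ hξ, fun c ζ ξ h hξ => (hls c ζ h).2.2.2.1 ξ hξ,
    fun c ζ ξ M h hξ h4 h5 h6 => (hls c ζ h).2.2.2.2 ξ hξ M h4 h5 h6⟩

end Pool.Agent.PLim
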