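import Mathlib
import Pool.Agent.PLim.Targets

/-!
# PLIM: LOGC
-/

set_option autoImplicit false

open Complex Filter Topology Set
open Pool.Agent.Multibrot Pool.Agent.Limb

namespace Pool.Agent.PLim

namespace LOGC_

/-- lower bound for the distance of two exponentials -/
lemma norm_sub_exp (s u : ℂ) :
    (1 - Real.cos (s.im - u.im)) / 2 * (Real.exp s.re + Real.exp u.re) ^ 2 ≤
      ‖exp s - exp u‖ ^ 2 := by
  have h1 : ‖exp s - exp u‖ ^ 2 = (Real.exp s.re) ^ 2 + (Real.exp u.re) ^ 2 -
      2 * Real.exp s.re * Real.exp u.re * Real.cos (s.im - u.im) := by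
    rw [← Complex.normSq_eq_norm_sq, Complex.normSq_apply, Complex.sub_re, Complex.sub_im,
      Complex.exp_re, Complex.exp_im, Complex.exp_re, Complex.exp_im, Real.cos_sub]
    have h2 := Real.sin_sq_add_cos_sq s.im
    have h3 := Real.sin_sq_add_cos_sq u.im
    linear_combination (Real.exp s.re) ^ 2 * h2 + (Real.exp u.re) ^ 2 * h3
  rw [h1]
  have h2 : 0 ≤ 1 + Real.cos (s.im - u.im) := by
    have := Real.neg_one_le_cos (s.im - u.im)
    linarith
  nlinarith [mul_nonneg h2 (sq_nonneg (Real.exp s.re - Real.exp u.re))]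

lemma cos_lt_one {θ : ℝ} (h0 : 0 < θ) (h1 : θ < 2 * Real.pi) : Real.cos θ < 1 := by
  refine lt_of_le_of_ne (Real.cos_le_one θ) ?_
  intro h
  have := (Real.cos_eq_one_iff_of_lt_of_lt (by linarith [Real.pi_pos]) h1).1 h
  linarith

/-- the identity between the two logarithms -/
lemma log_identity (v : ℂ) (h0 : 0 < v.im) (h1 : v.im < 2 * Real.pi) :
    log (1 - exp v) = v - Real.pi * I + log (1 - exp (-v)) := by
  have hne : 1 - exp (-v) ≠ 0 := by
    intro h
    have h2 : exp (-v) = 1 := by linear_combination -h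
    obtain ⟨k, hk⟩ := Complex.exp_eq_one_iff.1 h2
    have h3 := congrArg Complex.im hk
    simp at h3
    have h4 : v.im = -k * (2 * Real.pi) := by linarith
    rw [h4] at h0 h1
    have h5 : (0 : ℝ) < -k := by
      by_contra hlt
      push Not at hlt
      nlinarith [Real.pi_pos]
    have h6 : (-k : ℝ) < 1 := by
      by_contra hlt
      push Not at hlt
      nlinarith [Real.pi_pos]
    have h7 : (0 : ℤ) < -k := by exact_mod_cast h5
    have h8 : (-k : ℤ) < 1 := by exact_mod_cast h6
    omega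
  have hexp : exp (v - Real.pi * I + log (1 - exp (-v))) = 1 - exp v := by
    rw [Complex.exp_add, Complex.exp_log hne, Complex.exp_sub, Complex.exp_pi_mul_I]
    have : exp v * exp (-v) = 1 := by rw [← Complex.exp_add]; simp
    field_simp
    linear_combination this
  rw [← hexp, Complex.log_exp]
  · have him : (v - Real.pi * I + log (1 - exp (-v))).im =
        v.im - Real.pi + arg (1 - exp (-v)) := by
      simp [Complex.log_im]
    rw [him]
    have hz : (1 - exp (-v)).im = Real.exp (-v.re) * Real.sin v.im := by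
      rw [Complex.sub_im, Complex.exp_im]
      simp
    have ha := Complex.neg_pi_lt_arg (1 - exp (-v))
    rcases le_or_gt Real.pi v.im with h2 | h2
    · linarith
    · have h3 : 0 ≤ arg (1 - exp (-v)) := by
        rw [Complex.arg_nonneg_iff, hz]
        exact mul_nonneg (Real.exp_pos _).le
          (Real.sin_nonneg_of_nonneg_of_le_pi h0.le h2.le)
      linarith
  · have him : (v - Real.pi * I + log (1 - exp (-v))).im =
        v.im - Real.pi + arg (1 - exp (-v)) := by
      simp [Complex.log_im]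
    rw [him]
    have hz : (1 - exp (-v)).im = Real.exp (-v.re) * Real.sin v.im := by
      rw [Complex.sub_im, Complex.exp_im]
      simp
    have ha := Complex.arg_le_pi (1 - exp (-v))
    rcases le_or_gt v.im Real.pi with h2 | h2
    · linarith
    · have h3 : arg (1 - exp (-v)) < 0 := by
        rw [Complex.arg_neg_iff, hz]
        have h4 : Real.sin v.im < 0 := by
          have : Real.sin (v.im - Real.pi) = - Real.sin v.im := Real.sin_sub_pi _
          have h5 : 0 < Real.sin (v.im - Real.pi) :=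
            Real.sin_pos_of_pos_of_lt_pi (by linarith) (by linarith)
          linarith
        exact mul_neg_of_pos_of_neg (Real.exp_pos _) h4
      linarith

/-- `1 - exp v` is in the slit plane -/
lemma mem_slit (v : ℂ) (h0 : 0 < v.im) (h1 : v.im < 2 * Real.pi) :
    1 - exp v ∈ Complex.slitPlane := by
  rw [Complex.mem_slitPlane_iff]
  by_cases h : Real.sin v.im = 0
  · left
    have h2 : v.im = Real.pi := by
      by_contra hne
      rcases lt_or_gt_of_ne hne with h3 | h3
      · exact absurd h (Real.sin_pos_of_pos_of_lt_pi h0 h3).ne'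
      · have h4 : Real.sin (v.im - Real.pi) = - Real.sin v.im := Real.sin_sub_pi _
        have h5 : 0 < Real.sin (v.im - Real.pi) :=
          Real.sin_pos_of_pos_of_lt_pi (by linarith) (by linarith)
        rw [h4, h] at h5
        simp at h5
    rw [Complex.sub_re, Complex.exp_re, h2]
    simp
    have := Real.exp_pos v.re
    linarith
  · right
    rw [Complex.sub_im, Complex.exp_im]
    simp
    exact h

/-- the difference to the exponential is bounded along a horizontal half line -/
lemma bounded_diff {n : ℕ} {Λ : ℂ → ℂ → ℂ} (hn : 2 ≤ n) (hΛ : IsBot n Λ) (c s : ℂ)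
    (hs : G n c 0 < s.re) :
    ∃ D : ℝ, 0 ≤ D ∧ ∀ a : ℝ, 0 ≤ a → ‖exp (Λ c (s + a)) - exp (s + a)‖ ≤ D := by
  -- far out
  obtain ⟨T, hT⟩ : ∃ T : ℝ, 2 * (1 + ‖c‖) ≤ Real.exp (s.re + T) := by
    refine ⟨Real.log (2 * (1 + ‖c‖)) - s.re, ?_⟩
    rw [add_sub_cancel, Real.exp_log (by positivity)]
  have hfar : ∀ a : ℝ, T ≤ a → ‖exp (Λ c (s + a)) - exp (s + a)‖ ≤ 2 * ‖c‖ := by
    intro a ha
    have hre : (s + a : ℂ).re = s.re + a := by simp
    have h1 : 2 * (1 + ‖c‖) ≤ Real.exp (s + a : ℂ).re := by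
      rw [hre]
      exact hT.trans (Real.exp_le_exp.2 (by linarith))
    obtain ⟨-, h2⟩ := hΛ.near c (s + a) h1
    have hx0 : 0 ≤ (s + a : ℂ).re := by
      have h3 : (1 : ℝ) ≤ Real.exp (s + a : ℂ).re := by
        have := norm_nonneg c
        linarith
      rwa [← Real.exp_zero, Real.exp_le_exp] at h3
    have hn' : (2 : ℝ) ≤ n := by exact_mod_cast hn
    have h3 : Real.exp (-(n * (s + a : ℂ).re)) ≤ Real.exp (-(s + a : ℂ).re) * Real.exp (-(s + a : ℂ).re) := by
      rw [← Real.exp_add, Real.exp_le_exp]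
      nlinarith
    have h4 : Real.exp (-(s + a : ℂ).re) * Real.exp ((s + a : ℂ).re) = 1 := by
      rw [← Real.exp_add]; simp
    have h5 : Real.exp (-(s + a : ℂ).re) ≤ 1 := by
      rw [← Real.exp_zero, Real.exp_le_exp]; linarith
    have h6 : ‖Λ c (s + a) - (s + a)‖ ≤ ‖c‖ * Real.exp (-(s + a : ℂ).re) := by
      refine h2.trans (mul_le_mul_of_nonneg_left (h3.trans ?_) (norm_nonneg c))
      calc _ ≤ Real.exp (-(s + a : ℂ).re) * 1 :=
            mul_le_mul_of_nonneg_left h5 (Real.exp_pos _).le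
        _ = _ := mul_one _
    have h7 : ‖Λ c (s + a) - (s + a)‖ ≤ 1 := by
      refine h6.trans ?_
      have h8 : ‖c‖ * Real.exp (-(s + a : ℂ).re) ≤
          Real.exp ((s + a : ℂ).re) * Real.exp (-(s + a : ℂ).re) := by
        refine mul_le_mul_of_nonneg_right ?_ (Real.exp_pos _).le
        have := norm_nonneg c
        linarith
      rw [mul_comm (Real.exp ((s + a : ℂ).re)), h4] at h8
      exact h8
    have h8 : exp (Λ c (s + a)) - exp (s + a) =
        exp (s + a) * (exp (Λ c (s + a) - (s + a)) - 1) := by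
      rw [mul_sub, ← Complex.exp_add]
      simp
    rw [h8, norm_mul, Complex.norm_exp]
    have h9 := Complex.norm_exp_sub_one_le h7
    calc Real.exp (s + a : ℂ).re * ‖exp (Λ c (s + a) - (s + a)) - 1‖
        ≤ Real.exp (s + a : ℂ).re * (2 * (‖c‖ * Real.exp (-(s + a : ℂ).re))) :=
          mul_le_mul_of_nonneg_left (by linarith) (Real.exp_pos _).le
      _ = 2 * ‖c‖ * (Real.exp (-(s + a : ℂ).re) * Real.exp (s + a : ℂ).re) := by ring
      _ = 2 * ‖c‖ := by rw [h4, mul_one]
  -- near
  have hcont : ContinuousOn (fun a : ℝ => exp (Λ c (s + a)) - exp (s + a)) (Icc 0 T) := by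
    have h1 : ContinuousOn (fun a : ℝ => Λ c (s + a)) (Icc 0 T) := by
      refine (hΛ.diff c).continuousOn.comp (by fun_prop) ?_
      intro a ha
      simp only [Set.mem_ofPred_eq, Complex.add_re, Complex.ofReal_re]
      linarith [ha.1]
    exact (Complex.continuous_exp.comp_continuousOn h1).sub (by fun_prop)
  obtain ⟨D, hD⟩ := isCompact_Icc.exists_bound_of_continuousOn hcont
  refine ⟨max (2 * ‖c‖) D, le_max_of_le_left (by positivity), fun a ha => ?_⟩
  rcases le_or_gt T a with h | h
  · exact (hfar a h).trans (le_max_left _ _)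
  · exact (hD a ⟨ha, h.le⟩).trans (le_max_right _ _)

end LOGC_

open LOGC_

theorem p_LOGC (hLOGL : T_LOGL) : T_LOGC := by
  intro n Λ lh ls c ζ ξ hn hΛ hlh hls hcrit hξ1 hξ2 hξ3 hξ4
  obtain ⟨hcM, hζre, hζc⟩ := hcrit
  have hζ1 : G n c 0 < ζ.re := hξ1.trans hξ2
  set θ : ℝ := ξ.im - ζ.im with hθ
  have hθ0 : 0 < θ := by rw [hθ]; linarith
  have hθ1 : θ < 2 * Real.pi := by rw [hθ]; linarith
  set κ : ℝ := (1 - Real.cos θ) / 2 with hκ
  have hκ0 : 0 < κ := by
    have := cos_lt_one hθ0 hθ1
    rw [hκ]; linarith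
  -- the denominator
  have hden : ∀ a b : ℝ, κ * (Real.exp (ξ.re + a) + Real.exp (ζ.re + b)) ^ 2 ≤
      ‖exp (ξ + a) - exp (ζ + b)‖ ^ 2 := by
    intro a b
    have h1 := norm_sub_exp (ξ + a) (ζ + b)
    simp only [Complex.add_re, Complex.add_im, Complex.ofReal_re, Complex.ofReal_im,
      add_zero] at h1
    exact h1
  have hden0 : ∀ a b : ℝ, exp (ξ + a) - exp (ζ + b) ≠ 0 := by
    intro a b h
    have h1 := hden a b
    rw [h, norm_zero] at h1
    have h2 : 0 < κ * (Real.exp (ξ.re + a) + Real.exp (ζ.re + b)) ^ 2 := by positivity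
    linarith
  -- the numerator
  have hnum0 : ∀ a b : ℝ, 0 ≤ a → 0 ≤ b → exp (Λ c (ξ + a)) - exp (Λ c (ζ + b)) ≠ 0 := by
    intro a b ha hb h
    have h1 : exp (Λ c (ξ + a)) = exp (Λ c (ζ + b)) := by linear_combination h
    obtain ⟨k, hk⟩ := hΛ.inj c (ξ + a) (ζ + b) (by simp; linarith) (by simp; linarith) h1
    have h2 := congrArg Complex.im hk
    simp at h2
    rw [← hθ] at h2
    have h5 : (0 : ℝ) < k := by
      by_contra hlt
      push Not at hlt
      nlinarith [Real.pi_pos]
    have h6 : (k : ℝ) < 1 := by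
      by_contra hlt
      push Not at hlt
      nlinarith [Real.pi_pos]
    have h7 : (0 : ℤ) < k := by exact_mod_cast h5
    have h8 : (k : ℤ) < 1 := by exact_mod_cast h6
    omega
  obtain ⟨D1, hD1, hb1⟩ := bounded_diff hn hΛ c ξ hξ1
  obtain ⟨D2, hD2, hb2⟩ := bounded_diff hn hΛ c ζ hζ1
  -- the quotient
  set q : ℝ → ℝ → ℂ := fun y t => (exp (Λ c (ξ + (max y 0 : ℝ))) - exp (Λ c (ζ + t))) /
    (exp (ξ + (max y 0 : ℝ)) - exp (ζ + t)) with hq
  have hqa : ∀ a b : ℝ, 0 ≤ a → q a b = (exp (Λ c (ξ + a)) - exp (Λ c (ζ + b))) /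
      (exp (ξ + a) - exp (ζ + b)) := by
    intro a b ha
    simp only [hq, max_eq_left ha]
  have hbound : ∀ y t : ℝ, 0 ≤ t → ‖q y t - 1‖ * (Real.sqrt κ *
      (Real.exp (ξ.re + max y 0) + Real.exp (ζ.re + t))) ≤ D1 + D2 := by
    intro y t ht
    have hy : 0 ≤ max y 0 := le_max_right _ _
    have h1 : q y t - 1 = ((exp (Λ c (ξ + (max y 0 : ℝ))) - exp (ξ + (max y 0 : ℝ))) -
        (exp (Λ c (ζ + t)) - exp (ζ + t))) / (exp (ξ + (max y 0 : ℝ)) - exp (ζ + t)) := by
      simp only [hq]
      rw [div_sub_one (hden0 _ _)]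
      congr 1
      ring
    have h2 : Real.sqrt κ * (Real.exp (ξ.re + max y 0) + Real.exp (ζ.re + t)) ≤
        ‖exp (ξ + (max y 0 : ℝ)) - exp (ζ + t)‖ := by
      refine le_of_sq_le_sq ?_ (norm_nonneg _)
      rw [mul_pow, Real.sq_sqrt hκ0.le]
      exact hden _ _
    have h3 : 0 < ‖exp (ξ + (max y 0 : ℝ)) - exp (ζ + t)‖ := norm_pos_iff.2 (hden0 _ _)
    calc ‖q y t - 1‖ * (Real.sqrt κ * (Real.exp (ξ.re + max y 0) + Real.exp (ζ.re + t)))
        ≤ ‖q y t - 1‖ * ‖exp (ξ + (max y 0 : ℝ)) - exp (ζ + t)‖ :=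
          mul_le_mul_of_nonneg_left h2 (norm_nonneg _)
      _ = ‖(exp (Λ c (ξ + (max y 0 : ℝ))) - exp (ξ + (max y 0 : ℝ))) -
        (exp (Λ c (ζ + t)) - exp (ζ + t))‖ := by
          rw [h1, norm_div, div_mul_cancel₀ _ h3.ne']
      _ ≤ D1 + D2 := (norm_sub_le _ _).trans (add_le_add (hb1 _ hy) (hb2 _ ht))
  have hsq : 0 < Real.sqrt κ := Real.sqrt_pos.2 hκ0
  -- smallness
  have hsmall : ∀ ε : ℝ, 0 < ε → ∃ T : ℝ, 0 ≤ T ∧ ∀ y t : ℝ, 0 ≤ t → (T ≤ t ∨ T ≤ y) →
      ‖q y t - 1‖ < ε := by
    intro ε hε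
    have h1 : Tendsto (fun T : ℝ => ε * (Real.sqrt κ * Real.exp (ξ.re + T))) atTop atTop := by
      refine Tendsto.const_mul_atTop hε (Tendsto.const_mul_atTop hsq ?_)
      exact Real.tendsto_exp_atTop.comp (tendsto_atTop_add_const_left _ _ tendsto_id)
    obtain ⟨T, hT0, hT⟩ : ∃ T : ℝ, 0 ≤ T ∧ D1 + D2 < ε * (Real.sqrt κ * Real.exp (ξ.re + T)) := by
      have := ((h1.eventually_gt_atTop (D1 + D2)).and (eventually_ge_atTop (0 : ℝ))).exists
      obtain ⟨T, h2, h3⟩ := this
      exact ⟨T, h3, h2⟩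
    refine ⟨T, hT0, fun y t ht hyt => ?_⟩
    have h2 := hbound y t ht
    have h3 : Real.exp (ξ.re + T) ≤ Real.exp (ξ.re + max y 0) + Real.exp (ζ.re + t) := by
      rcases hyt with h | h
      · have : Real.exp (ξ.re + T) ≤ Real.exp (ζ.re + t) := Real.exp_le_exp.2 (by linarith)
        linarith [Real.exp_pos (ξ.re + max y 0)]
      · have : Real.exp (ξ.re + T) ≤ Real.exp (ξ.re + max y 0) :=
          Real.exp_le_exp.2 (by linarith [le_max_left y 0])
        linarith [Real.exp_pos (ζ.re + t)]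
    by_contra hlt
    push Not at hlt
    have h4 : ε * (Real.sqrt κ * Real.exp (ξ.re + T)) ≤ ‖q y t - 1‖ * (Real.sqrt κ *
        (Real.exp (ξ.re + max y 0) + Real.exp (ζ.re + t))) :=
      mul_le_mul hlt (mul_le_mul_of_nonneg_left h3 hsq.le) (by positivity) (norm_nonneg _)
    linarith
  -- continuity
  have hΛcont : ContinuousOn (Λ c) {s : ℂ | G n c 0 < s.re} := (hΛ.diff c).continuousOn
  have hqcont : ContinuousOn (fun p : ℝ × ℝ => q p.1 p.2) (univ ×ˢ Ici 0) := by
    have h1 : ContinuousOn (fun p : ℝ × ℝ => Λ c (ξ + (max p.1 0 : ℝ))) (univ ×ˢ Ici 0) := by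
      refine hΛcont.comp (by fun_prop) ?_
      intro p _
      simp only [Set.mem_ofPred_eq, Complex.add_re, Complex.ofReal_re]
      linarith [le_max_right p.1 0]
    have h2 : ContinuousOn (fun p : ℝ × ℝ => Λ c (ζ + p.2)) (univ ×ˢ Ici 0) := by
      refine hΛcont.comp (by fun_prop) ?_
      intro p hp
      have hp2 : 0 ≤ p.2 := hp.2
      simp only [Set.mem_ofPred_eq, Complex.add_re, Complex.ofReal_re]
      linarith
    refine ContinuousOn.div ((Complex.continuous_exp.comp_continuousOn h1).sub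
      (Complex.continuous_exp.comp_continuousOn h2)) (by fun_prop) ?_
    intro p _
    exact hden0 _ _
  have hqne : ∀ y t : ℝ, 0 ≤ t → q y t ≠ 0 := by
    intro y t ht
    exact div_ne_zero (hnum0 _ _ (le_max_right _ _) ht) (hden0 _ _)
  obtain ⟨L, hLc, hLe, hLt, hLu⟩ := hLOGL ℝ q hqcont hqne (by
    intro y₀ ε hε
    obtain ⟨T, -, hT⟩ := hsmall ε hε
    exact ⟨max T 0, Eventually.of_forall fun y t ht =>
      hT y t ((le_max_right _ _).trans ht) (Or.inl ((le_max_left _ _).trans ht))⟩)
  -- for large `y` the logarithm is the principal one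
  have hLy : Tendsto (fun y : ℝ => L y 0) atTop (𝓝 0) := by
    obtain ⟨T, hT0, hT⟩ := hsmall (1 / 2) (by norm_num)
    have h1 : ∀ y : ℝ, T ≤ y → L y 0 = log (q y 0) := by
      intro y hy
      have hslit : ∀ t : ℝ, 0 ≤ t → q y t ∈ Complex.slitPlane := by
        intro t ht
        have h2 := hT y t ht (Or.inr hy)
        rw [Complex.mem_slitPlane_iff]
        left
        have h3 := (Complex.abs_re_le_norm (q y t - 1)).trans h2.le
        rw [abs_le] at h3
        simp at h3
        linarith [h3.1]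
      refine (hLu y (fun t => log (q y t)) ?_ ?_ ?_ 0 le_rfl).symm
      · have h2 : ContinuousOn (fun t : ℝ => q y t) (Ici 0) :=
          hqcont.comp (f := fun t : ℝ => (y, t)) (by fun_prop) (fun t ht => ⟨mem_univ _, ht⟩)
        exact h2.clog (fun t ht => hslit t ht)
      · intro t ht
        exact Complex.exp_log (hqne y t ht)
      · have h2 : Tendsto (fun t : ℝ => q y t) atTop (𝓝 1) := by
          rw [Metric.tendsto_atTop]
          intro ε hε
          obtain ⟨T', hT'0, hT'⟩ := hsmall ε hε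
          refine ⟨T', fun t ht => ?_⟩
          rw [dist_eq_norm]
          exact hT' y t (hT'0.trans ht) (Or.inl ht)
        have h3 := (continuousAt_clog (by simp : (1 : ℂ) ∈ Complex.slitPlane)).tendsto.comp h2
        rw [Complex.log_one] at h3
        exact h3
    have h2 : Tendsto (fun y : ℝ => q y 0) atTop (𝓝 1) := by
      rw [Metric.tendsto_atTop]
      intro ε hε
      obtain ⟨T', hT'0, hT'⟩ := hsmall ε hε
      refine ⟨T', fun y hy => ?_⟩
      rw [dist_eq_norm]
      exact hT' y 0 le_rfl (Or.inr hy)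
    have h3 := (continuousAt_clog (by simp : (1 : ℂ) ∈ Complex.slitPlane)).tendsto.comp h2
    rw [Complex.log_one] at h3
    refine h3.congr' ?_
    filter_upwards [eventually_ge_atTop T] with y hy
    exact (h1 y hy).symm
  have hLt0 : Tendsto (fun t : ℝ => L 0 t) atTop (𝓝 0) := by
    rw [Metric.tendsto_atTop]
    intro ε hε
    obtain ⟨T, hT⟩ := hLt 0 ε hε
    refine ⟨T, fun t ht => ?_⟩
    rw [dist_zero_right]
    exact hT.self_of_nhds t ht
  -- the value of `ls`
  have hA : ls c ζ ξ = ξ + (L 0 0 + log (1 - exp (-(ξ - ζ)))) := by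
    have hSL : ξ ∈ SL n c ζ := by
      refine ⟨hξ1, fun m hm => ?_⟩
      exfalso
      have h2 : θ = 2 * Real.pi * m := by rw [hθ]; linarith
      have h5 : (0 : ℝ) < m := by
        by_contra hlt
        push Not at hlt
        nlinarith [Real.pi_pos]
      have h6 : (m : ℝ) < 1 := by
        by_contra hlt
        push Not at hlt
        nlinarith [Real.pi_pos]
      have h7 : (0 : ℤ) < m := by exact_mod_cast h5
      have h8 : (m : ℤ) < 1 := by exact_mod_cast h6
      omega
    have himv : ∀ a : ℝ, (ξ + a - ζ).im = θ := by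
      intro a; simp [hθ]
    have himv' : ∀ a : ℝ, ((-(ξ + a - ζ)) + 2 * Real.pi * I).im = 2 * Real.pi - θ := by
      intro a
      simp [hθ]
      ring
    have hexpv : ∀ a : ℝ, exp (-(ξ + a - ζ)) = exp (-(ξ + a - ζ) + 2 * Real.pi * I) := by
      intro a
      rw [Complex.exp_add, Complex.exp_two_pi_mul_I, mul_one]
    have hslit : ∀ a : ℝ, 1 - exp (-(ξ + a - ζ)) ∈ Complex.slitPlane := by
      intro a
      rw [hexpv a]
      exact mem_slit _ (by rw [himv']; linarith) (by rw [himv']; linarith)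
    have h1 := hls c ζ ξ (fun a => L a 0 + log (1 - exp (-(ξ + a - ζ)))) ⟨hcM, hζre, hζc⟩ hSL
      ?_ ?_ ?_
    · rw [h1]
      simp
    · refine ContinuousOn.add ?_ ?_
      · exact hLc.comp (f := fun a : ℝ => (a, (0 : ℝ))) (by fun_prop)
          (fun a _ => ⟨mem_univ _, Set.mem_Ici.2 le_rfl⟩)
      · refine ContinuousOn.clog (by fun_prop) (fun a _ => hslit a)
    · intro a ha
      rw [Complex.exp_add, hLe a 0 le_rfl, Complex.exp_log (Complex.slitPlane_ne_zero (hslit a)),
        hqa a 0 ha]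
      have h2 := hden0 a 0
      simp only [Complex.ofReal_zero, add_zero] at h2 ⊢
      rw [hζc, div_mul_eq_mul_div, div_eq_iff h2, mul_assoc]
      congr 1
      have h3 : exp (-(ξ + a - ζ)) = exp (-(ξ + a)) * exp ζ := by
        rw [← Complex.exp_add]; congr 1; ring
      have h4 : exp (-(ξ + a)) * exp (ξ + a) = 1 := by
        rw [← Complex.exp_add]; simp
      rw [h3]
      linear_combination -h4
    · have h2 : Tendsto (fun a : ℝ => log (1 - exp (-(ξ + a - ζ)))) atTop (𝓝 0) := by
        have h3 : Tendsto (fun a : ℝ => exp (-(ξ + a - ζ))) atTop (𝓝 0) := by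
          rw [tendsto_zero_iff_norm_tendsto_zero]
          have h4 : (fun a : ℝ => ‖exp (-(ξ + a - ζ))‖) =
              fun a : ℝ => Real.exp (ζ.re - ξ.re - a) := by
            funext a
            rw [Complex.norm_exp]
            congr 1
            simp
            ring
          rw [h4]
          refine Real.tendsto_exp_atBot.comp ?_
          exact tendsto_atBot_add_const_left _ _ tendsto_neg_atTop_atBot
        have h5 : Tendsto (fun a : ℝ => 1 - exp (-(ξ + a - ζ))) atTop (𝓝 1) := by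
          have := (tendsto_const_nhds (x := (1 : ℂ))).sub h3
          rwa [sub_zero] at this
        have h6 := (continuousAt_clog (by simp : (1 : ℂ) ∈ Complex.slitPlane)).tendsto.comp h5
        rw [Complex.log_one] at h6
        exact h6
      have h7 := hLy.add h2
      rwa [add_zero] at h7
  -- the value of `lh`
  have hB : lh c ζ (exp (Λ c ξ)) = ζ + Real.pi * I + (L 0 0 + log (1 - exp (ξ - ζ))) := by
    have himv : ∀ b : ℝ, (ξ - ζ - b).im = θ := by
      intro b; simp [hθ]
    have hslit : ∀ b : ℝ, 1 - exp (ξ - ζ - b) ∈ Complex.slitPlane := by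
      intro b
      exact mem_slit _ (by rw [himv]; linarith) (by rw [himv]; linarith)
    have h1 := hlh c ζ (exp (Λ c ξ)) (fun b => L 0 b + log (1 - exp (ξ - ζ - b)))
      ⟨hcM, hζre, hζc⟩ (by rw [hΛ.green c ξ hξ1]; exact hξ2) ?_ ?_ ?_
    · rw [h1]
      simp
    · refine ContinuousOn.add ?_ ?_
      · exact hLc.comp (f := fun b : ℝ => ((0 : ℝ), b)) (by fun_prop)
          (fun b hb => ⟨mem_univ _, hb⟩)
      · refine ContinuousOn.clog (by fun_prop) (fun b _ => hslit b)
    · intro b hb
      rw [Complex.exp_add, hLe 0 b hb, Complex.exp_log (Complex.slitPlane_ne_zero (hslit b)),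
        hqa 0 b le_rfl]
      have h2 := hden0 0 b
      simp only [Complex.ofReal_zero, add_zero] at h2 ⊢
      rw [div_mul_eq_mul_div, div_eq_iff h2]
      have h3 : exp (ξ - ζ - b) = exp ξ * exp (-(ζ + b)) := by
        rw [← Complex.exp_add]; congr 1; ring
      have h4 : exp (-(ζ + b)) * exp (ζ + b) = 1 := by
        rw [← Complex.exp_add]; simp
      rw [h3]
      linear_combination -(exp (Λ c ξ) - exp (Λ c (ζ + b))) * h4
    · have h2 : Tendsto (fun b : ℝ => log (1 - exp (ξ - ζ - b))) atTop (𝓝 0) := by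
        have h3 : Tendsto (fun b : ℝ => exp (ξ - ζ - b)) atTop (𝓝 0) := by
          rw [tendsto_zero_iff_norm_tendsto_zero]
          have h4 : (fun b : ℝ => ‖exp (ξ - ζ - b)‖) =
              fun b : ℝ => Real.exp (ξ.re - ζ.re - b) := by
            funext b
            rw [Complex.norm_exp]
            congr 1
          rw [h4]
          refine Real.tendsto_exp_atBot.comp ?_
          exact tendsto_atBot_add_const_left _ _ tendsto_neg_atTop_atBot
        have h5 : Tendsto (fun b : ℝ => 1 - exp (ξ - ζ - b)) atTop (𝓝 1) := by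
          have := (tendsto_const_nhds (x := (1 : ℂ))).sub h3
          rwa [sub_zero] at this
        have h6 := (continuousAt_clog (by simp : (1 : ℂ) ∈ Complex.slitPlane)).tendsto.comp h5
        rw [Complex.log_one] at h6
        exact h6
      have h7 := hLt0.add h2
      rwa [add_zero] at h7
  rw [hA, hB, log_identity (ξ - ζ) (by simp; linarith) (by simp; linarith)]
  ring

end Pool.Agent.PLim
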