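import Pool.Agent.PLim.Targets

/-!
# PLIM: continuous logarithms along a half line, with limit zero at the end
-/

set_option autoImplicit false

open Complex Filter Topology Set Metric

namespace Pool.Agent.PLim

namespace LOGL_

/-- a logarithm of one of norm less than one is zero -/
theorem exp_small {z : ℂ} (h : exp z = 1) (hz : ‖z‖ < 2 * Real.pi) : z = 0 := by
  obtain ⟨n, hn⟩ := exp_eq_one_iff.1 h
  rw [hn] at hz
  have h1 : ‖(n : ℂ) * (2 * Real.pi * I)‖ = |(n : ℝ)| * (2 * Real.pi) := by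
    rw [norm_mul, norm_mul, norm_mul, norm_I, mul_one, Complex.norm_ofNat, Complex.norm_real,
      Real.norm_of_nonneg Real.pi_pos.le, Complex.norm_intCast]
  rw [h1] at hz
  have hpi := Real.pi_pos
  have h2 : |(n : ℝ)| < 1 := by
    by_contra h3
    push Not at h3
    nlinarith only [hz, h3, hpi]
  have h3 : |n| < 1 := by exact_mod_cast h2
  have h4 : n = 0 := by
    rw [Int.abs_lt_one_iff] at h3
    exact h3
  rw [hn, h4]
  simp

/-- continuous logarithms of one on a segment which vanish at the right end are zero -/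
theorem zero_seg (D : ℝ → ℂ) (a b : ℝ) (hD : ContinuousOn D (Icc a b))
    (he : ∀ t ∈ Icc a b, exp (D t) = 1) (hb : D b = 0) : ∀ t ∈ Icc a b, D t = 0 := by
  intro t ht
  by_contra hne
  have h1 : 2 * Real.pi ≤ ‖D t‖ := by
    by_contra h2
    exact hne (exp_small (he t ht) (not_le.1 h2))
  have hc : ContinuousOn (fun u => ‖D u‖) (Icc t b) :=
    (hD.mono (Icc_subset_Icc_left ht.1)).norm
  have hpi := Real.pi_gt_three
  have h3 : (1 : ℝ) ∈ (fun u => ‖D u‖) '' Icc t b := by
    apply intermediate_value_Icc' ht.2 hc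
    rw [hb, norm_zero]
    constructor
    · exact zero_le_one
    · linarith
  obtain ⟨u, hu, hu1⟩ := h3
  simp only at hu1
  have h4 := exp_small (he u ⟨ht.1.trans hu.1, hu.2⟩) (by rw [hu1]; linarith)
  rw [h4, norm_zero] at hu1
  exact zero_ne_one hu1

/-- continuous logarithms of one on a half line with limit zero are zero -/
theorem zero_half (D : ℝ → ℂ) (a : ℝ) (hD : ContinuousOn D (Ici a))
    (he : ∀ t, a ≤ t → exp (D t) = 1) (hlim : Tendsto D atTop (𝓝 0)) : ∀ t, a ≤ t → D t = 0 := by
  have hev : ∀ᶠ t in atTop, ‖D t‖ < 1 := by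
    have := hlim.norm
    rw [norm_zero] at this
    exact this.eventually (gt_mem_nhds zero_lt_one)
  intro t ht
  obtain ⟨b, hb1, hb2⟩ := (hev.and (eventually_ge_atTop t)).exists
  have hpi := Real.pi_gt_three
  have hb0 : D b = 0 := exp_small (he b (ht.trans hb2)) (by linarith)
  exact zero_seg D t b (hD.mono (fun u hu => ht.trans hu.1)) (fun u hu => he u (ht.trans hu.1)) hb0
    t ⟨le_rfl, hb2⟩

theorem log_bd {z : ℂ} (h : ‖z - 1‖ < 1 / 2) : ‖log z‖ ≤ 3 / 2 * ‖z - 1‖ := by
  have h1 := Complex.norm_log_one_add_half_le_self (z := z - 1) h.le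
  have h2 : 1 + (z - 1) = z := by ring
  rw [h2] at h1
  exact h1

theorem slit {z : ℂ} (h : ‖z - 1‖ < 1 / 2) : z ∈ slitPlane := by
  left
  have h1 : |(z - 1).re| ≤ ‖z - 1‖ := Complex.abs_re_le_norm _
  have h2 := (abs_lt.1 (lt_of_le_of_lt h1 h)).1
  rw [sub_re, one_re] at h2
  linarith

/-- existence for one curve -/
theorem exists_one (q : ℝ → ℂ) (hq : ContinuousOn q (Ici 0)) (h0 : ∀ t, 0 ≤ t → q t ≠ 0)
    (hlim : ∀ ε : ℝ, 0 < ε → ∃ T : ℝ, ∀ t, T ≤ t → ‖q t - 1‖ < ε) :
    ∃ L : ℝ → ℂ, ContinuousOn L (Ici 0) ∧ (∀ t, 0 ≤ t → exp (L t) = q t) ∧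
      Tendsto L atTop (𝓝 0) := by
  have hmax : Continuous (fun t : ℝ => max t 0) := by fun_prop
  have hqc : Continuous (fun t : ℝ => q (max t 0)) := by
    rw [← continuousOn_univ]
    exact hq.comp hmax.continuousOn (fun t _ => le_max_right t 0)
  have hsc : IsSimplyConnected (univ : Set ℝ) := by
    have h1 : ContractibleSpace (univ : Set ℝ) :=
      (convex_univ : Convex ℝ (univ : Set ℝ)).contractibleSpace univ_nonempty
    show SimplyConnectedSpace (univ : Set ℝ)
    infer_instance
  obtain ⟨M, hMc, hM⟩ := exists_continuousOn_eqOn_exp_comp hsc isOpen_univ hqc.continuousOn (by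
    rintro ⟨t, -, ht⟩
    exact h0 _ (le_max_right t 0) ht)
  rw [continuousOn_univ] at hMc
  have hM' : ∀ t, 0 ≤ t → exp (M t) = q t := by
    intro t ht
    have := hM (mem_univ t)
    simp only [Function.comp_apply] at this
    rw [max_eq_left ht] at this
    exact this
  obtain ⟨T₀, hT₀⟩ := hlim (1 / 2) (by norm_num)
  set T := max T₀ 0 with hT
  have hTq : ∀ t, T ≤ t → ‖q t - 1‖ < 1 / 2 := fun t ht => hT₀ t ((le_max_left _ _).trans ht)
  have hT0 : 0 ≤ T := le_max_right _ _
  set z₀ := M T - log (q T) with hz₀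
  have hz₀1 : exp z₀ = 1 := by
    rw [hz₀, exp_sub, hM' T hT0, exp_log (h0 T hT0), div_self (h0 T hT0)]
  have hlogT : ∀ b, T ≤ b → M b - z₀ = log (q b) := by
    intro b hb
    set D : ℝ → ℂ := fun t => (M (T + b - t) - z₀) - log (q (T + b - t)) with hD
    have hrefl : ContinuousOn (fun t : ℝ => T + b - t) (Icc T b) := by fun_prop
    have hin : ∀ t ∈ Icc T b, T ≤ T + b - t := by
      intro t ht
      linarith [ht.2]
    have hDc : ContinuousOn D (Icc T b) := by
      have e1 : ContinuousOn (fun t => M (T + b - t) - z₀) (Icc T b) :=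
        (hMc.comp_continuousOn hrefl).sub continuousOn_const
      have e2 : ContinuousOn (fun t => q (T + b - t)) (Icc T b) :=
        hq.comp hrefl (fun t ht => hT0.trans (hin t ht))
      have e3 : ContinuousOn (fun t => log (q (T + b - t))) (Icc T b) :=
        e2.clog (fun t ht => slit (hTq _ (hin t ht)))
      exact e1.sub e3
    have hDe : ∀ t ∈ Icc T b, exp (D t) = 1 := by
      intro t ht
      have e0 : 0 ≤ T + b - t := hT0.trans (hin t ht)
      rw [hD]
      simp only
      rw [exp_sub, exp_sub, hM' _ e0, hz₀1, exp_log (h0 _ e0), div_one, div_self (h0 _ e0)]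
    have hDb : D b = 0 := by
      rw [hD]
      simp only
      rw [add_sub_cancel_right, hz₀]
      ring
    have h1 := zero_seg D T b hDc hDe hDb T ⟨le_rfl, hb⟩
    rw [hD] at h1
    simp only [add_sub_cancel_left] at h1
    exact sub_eq_zero.1 h1
  refine ⟨fun t => M t - z₀, (hMc.sub continuous_const).continuousOn, ?_, ?_⟩
  · intro t ht
    simp only
    rw [exp_sub, hM' t ht, hz₀1, div_one]
  · rw [Metric.tendsto_nhds]
    intro ε hε
    obtain ⟨T₁, hT₁⟩ := hlim (ε / 2) (half_pos hε)
    filter_upwards [eventually_ge_atTop T₁, eventually_ge_atTop T] with t h1 h2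
    rw [hlogT t h2, dist_zero_right]
    have h3 := log_bd (hTq t h2)
    have h4 := hT₁ t h1
    linarith

end LOGL_

open LOGL_ in
theorem p_LOGL : T_LOGL := by
  intro Y _ q hq h0 hlim
  have hqy : ∀ y, ContinuousOn (q y) (Ici 0) := by
    intro y
    have h1 : ContinuousOn (fun t : ℝ => (y, t)) (Ici 0) := by fun_prop
    exact hq.comp h1 (fun t ht => ⟨mem_univ _, ht⟩)
  have hex : ∀ y, ∃ L : ℝ → ℂ, ContinuousOn L (Ici 0) ∧ (∀ t, 0 ≤ t → exp (L t) = q y t) ∧
      Tendsto L atTop (𝓝 0) := by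
    intro y
    apply exists_one (q y) (hqy y) (h0 y)
    intro ε hε
    obtain ⟨T, hT⟩ := hlim y ε hε
    exact ⟨T, hT.self_of_nhds⟩
  choose L hLc hLe hLl using hex
  -- L is Log q where q is near one on the whole rest of the half line
  have hlog : ∀ (y : Y) (T : ℝ), 0 ≤ T → (∀ t, T ≤ t → ‖q y t - 1‖ < 1 / 4) →
      ∀ t, T ≤ t → L y t = log (q y t) := by
    intro y T hT hT1 t ht
    have hq1 : Tendsto (fun t => q y t - 1) atTop (𝓝 0) := by
      rw [Metric.tendsto_nhds]
      intro ε hε
      obtain ⟨T', hT'⟩ := hlim y ε hε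
      filter_upwards [eventually_ge_atTop T'] with u hu
      rw [dist_zero_right]
      exact hT'.self_of_nhds u hu
    have hlg : Tendsto (fun t => log (q y t)) atTop (𝓝 0) := by
      apply squeeze_zero_norm' (a := fun t => 3 / 2 * ‖q y t - 1‖)
      · filter_upwards [eventually_ge_atTop T] with u hu
        exact log_bd ((hT1 u hu).trans (by norm_num))
      · have := (hq1.norm).const_mul (3 / 2)
        rw [norm_zero, mul_zero] at this
        exact this
    have h1 := zero_half (fun t => L y t - log (q y t)) T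
      ((hLc y).mono (Ici_subset_Ici.2 hT) |>.sub
        (((hqy y).mono (Ici_subset_Ici.2 hT)).clog
          (fun t ht => slit ((hT1 t ht).trans (by norm_num)))))
      (fun t ht => by
        rw [exp_sub, hLe y t (hT.trans ht), exp_log (h0 y t (hT.trans ht)),
          div_self (h0 y t (hT.trans ht))])
      (by
        have := (hLl y).sub hlg
        rw [sub_zero] at this
        exact this) t ht
    exact sub_eq_zero.1 h1
  refine ⟨L, ?_, hLe, ?_, ?_⟩
  · -- joint continuity
    rintro ⟨y₀, t₀⟩ ⟨-, ht₀⟩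
    have ht₀' : (0 : ℝ) ≤ t₀ := ht₀
    obtain ⟨T₀, hT₀⟩ := hlim y₀ (1 / 4) (by norm_num)
    set T := max T₀ (t₀ + 1) with hT
    have hT0 : 0 ≤ T := by
      have := le_max_right T₀ (t₀ + 1)
      linarith
    have htT : t₀ < T := by
      have := le_max_right T₀ (t₀ + 1)
      linarith
    have hquot : ContinuousOn (fun p : Y × ℝ => q p.1 p.2 / q y₀ p.2) (univ ×ˢ Ici 0) := by
      apply hq.div
      · exact (hqy y₀).comp continuous_snd.continuousOn (fun p hp => hp.2)
      · intro p hp
        exact h0 y₀ p.2 hp.2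
    have hnear : ∀ᶠ y in 𝓝 y₀, ∀ t ∈ Icc 0 T, ‖q y t / q y₀ t - 1‖ < 1 / 4 := by
      -- extend to all real t by projection
      have hproj : Continuous (fun p : Y × ℝ => (p.1, max p.2 0)) := by fun_prop
      have hcont : Continuous (fun p : Y × ℝ => q p.1 (max p.2 0) / q y₀ (max p.2 0)) := by
        rw [← continuousOn_univ]
        exact hquot.comp hproj.continuousOn (fun p _ => ⟨mem_univ _, le_max_right p.2 0⟩)
      have h1 : ∀ᶠ y in 𝓝 y₀, ∀ t ∈ Icc 0 T, ‖q y (max t 0) / q y₀ (max t 0) - 1‖ < 1 / 4 := by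
        apply IsCompact.eventually_forall_of_forall_eventually isCompact_Icc
        intro t ht
        have h2 : ContinuousAt (fun p : Y × ℝ => ‖q p.1 (max p.2 0) / q y₀ (max p.2 0) - 1‖)
            (y₀, t) := (hcont.sub continuous_const).norm.continuousAt
        apply h2.eventually (gt_mem_nhds _)
        simp only
        rw [div_self (h0 y₀ _ (le_max_right _ _)), sub_self, norm_zero]
        norm_num
      filter_upwards [h1] with y hy t ht
      have := hy t ht
      rw [max_eq_left ht.1] at this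
      exact this
    -- local formula
    have hform : ∀ᶠ y in 𝓝 y₀, ∀ t ∈ Icc 0 T, L y t = L y₀ t + log (q y t / q y₀ t) := by
      filter_upwards [hT₀, hnear] with y hy1 hy2
      have hy0 := hT₀.self_of_nhds
      have e1 : ∀ t, T ≤ t → ‖q y t - 1‖ < 1 / 4 := fun t ht => hy1 t ((le_max_left _ _).trans ht)
      have e2 : ∀ t, T ≤ t → ‖q y₀ t - 1‖ < 1 / 4 := fun t ht => hy0 t ((le_max_left _ _).trans ht)
      have hsub : Icc 0 T ⊆ Ici 0 := fun t ht => ht.1
      have hDc : ContinuousOn (fun t => L y t - (L y₀ t + log (q y t / q y₀ t))) (Icc 0 T) := by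
        apply ((hLc y).mono hsub).sub
        apply ((hLc y₀).mono hsub).add
        apply ContinuousOn.clog
        · exact ((hqy y).mono hsub).div ((hqy y₀).mono hsub) (fun t ht => h0 y₀ t ht.1)
        · intro t ht
          exact slit ((hy2 t ht).trans (by norm_num))
      have hne : ∀ t ∈ Icc 0 T, q y t / q y₀ t ≠ 0 := fun t ht =>
        div_ne_zero (h0 y t ht.1) (h0 y₀ t ht.1)
      have hDe : ∀ t ∈ Icc 0 T, exp (L y t - (L y₀ t + log (q y t / q y₀ t))) = 1 := by
        intro t ht
        rw [exp_sub, exp_add, hLe y t ht.1, hLe y₀ t ht.1, exp_log (hne t ht),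
          mul_div_cancel₀ _ (h0 y₀ t ht.1), div_self (h0 y t ht.1)]
      have hTT : T ∈ Icc 0 T := ⟨hT0, le_rfl⟩
      have hDT : L y T - (L y₀ T + log (q y T / q y₀ T)) = 0 := by
        apply exp_small (hDe T hTT)
        rw [hlog y T hT0 e1 T le_rfl, hlog y₀ T hT0 e2 T le_rfl]
        have b1 := log_bd ((e1 T le_rfl).trans (by norm_num : (1 / 4 : ℝ) < 1 / 2))
        have b2 := log_bd ((e2 T le_rfl).trans (by norm_num : (1 / 4 : ℝ) < 1 / 2))
        have b3 := log_bd ((hy2 T hTT).trans (by norm_num : (1 / 4 : ℝ) < 1 / 2))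
        have b4 := e1 T le_rfl
        have b5 := e2 T le_rfl
        have b6 := hy2 T hTT
        have hpi := Real.pi_gt_three
        calc ‖log (q y T) - (log (q y₀ T) + log (q y T / q y₀ T))‖
            ≤ ‖log (q y T)‖ + ‖log (q y₀ T) + log (q y T / q y₀ T)‖ := norm_sub_le _ _
          _ ≤ ‖log (q y T)‖ + (‖log (q y₀ T)‖ + ‖log (q y T / q y₀ T)‖) := by
              gcongr
              exact norm_add_le _ _
          _ < 2 * Real.pi := by linarith
      intro t ht
      exact sub_eq_zero.1 (zero_seg _ 0 T hDc hDe hDT t ht)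
    -- conclude
    have hK : ContinuousWithinAt (fun p : Y × ℝ => L y₀ p.2 + log (q p.1 p.2 / q y₀ p.2))
        (univ ×ˢ Ici 0) (y₀, t₀) := by
      apply ContinuousWithinAt.add
      · exact ContinuousWithinAt.comp (t := Ici 0) (hLc y₀ t₀ ht₀)
          continuous_snd.continuousWithinAt (fun p hp => hp.2)
      · apply ContinuousWithinAt.clog
        · exact hquot (y₀, t₀) ⟨mem_univ _, ht₀⟩
        · simp only
          rw [div_self (h0 y₀ t₀ ht₀')]
          exact one_mem_slitPlane
    apply hK.congr_of_eventuallyEq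
    · have h1 : ∀ᶠ p : Y × ℝ in 𝓝 (y₀, t₀), (∀ t ∈ Icc 0 T, L p.1 t = L y₀ t +
          log (q p.1 t / q y₀ t)) ∧ p.2 < T := by
        apply Filter.Eventually.and
        · exact (continuous_fst.tendsto (y₀, t₀)).eventually hform
        · exact (continuous_snd.tendsto (y₀, t₀)).eventually (gt_mem_nhds htT)
      filter_upwards [mem_nhdsWithin_of_mem_nhds h1, self_mem_nhdsWithin] with p hp1 hp2
      exact hp1.1 p.2 ⟨hp2.2, hp1.2.le⟩
    · simp only
      exact hform.self_of_nhds t₀ ⟨ht₀', htT.le⟩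
  · intro y₀ ε hε
    obtain ⟨T₁, hT₁⟩ := hlim y₀ (1 / 4) (by norm_num)
    obtain ⟨T₂, hT₂⟩ := hlim y₀ (ε / 2) (half_pos hε)
    refine ⟨max (max T₁ 0) T₂, ?_⟩
    filter_upwards [hT₁, hT₂] with y h1 h2 t ht
    have e1 : ∀ t, max T₁ 0 ≤ t → ‖q y t - 1‖ < 1 / 4 := fun t ht =>
      h1 t ((le_max_left _ _).trans ht)
    rw [hlog y (max T₁ 0) (le_max_right _ _) e1 t ((le_max_left _ _).trans ht)]
    have e2 := log_bd ((e1 t ((le_max_left _ _).trans ht)).trans
      (by norm_num : (1 / 4 : ℝ) < 1 / 2))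
    have e3 := h2 t ((le_max_right _ _).trans ht)
    linarith
  · intro y M hMc hMe hMl t ht
    have h1 := zero_half (fun t => M t - L y t) 0 (hMc.sub (hLc y))
      (fun t ht => by rw [exp_sub, hMe t ht, hLe y t ht, div_self (h0 y t ht)])
      (by
        have := hMl.sub (hLl y)
        rw [sub_zero] at this
        exact this) t ht
    exact sub_eq_zero.1 h1

end Pool.Agent.PLim
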