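import Pool.Agent.PLim.Targets

/-!
# PLIM, SECAN: analytic sections
-/

set_option autoImplicit false

open Complex Filter Topology Set MeasureTheory
open Pool.Agent.Multibrot Pool.Agent.Limb

namespace Pool.Agent.PLim

lemma secan_root {n : ℕ} (hn : 2 ≤ n) : ∀ᶠ u : ℂ in 𝓝 1, u ^ n = 1 → u = 1 := by
  have hfin : ({u : ℂ | u ^ n = 1} \ {1}).Finite := by
    apply Set.Finite.subset _ Set.sdiff_subset
    have : {u : ℂ | u ^ n = 1} ⊆ ((Polynomial.X ^ n - 1 : Polynomial ℂ).roots.toFinset : Set ℂ) := by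
      intro u hu
      have hne : (Polynomial.X ^ n - 1 : Polynomial ℂ) ≠ 0 := by
        have := Polynomial.X_pow_sub_C_ne_zero (R := ℂ) (by omega : 0 < n) 1
        simpa using this
      simp only [Finset.mem_coe, Multiset.mem_toFinset]
      rw [Polynomial.mem_roots hne]
      simp only [Polynomial.IsRoot, Polynomial.eval_sub, Polynomial.eval_pow, Polynomial.eval_X,
        Polynomial.eval_one]
      rw [sub_eq_zero]
      exact hu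
    exact (Finset.finite_toSet _).subset this
  have hopen : IsOpen (({u : ℂ | u ^ n = 1} \ {1})ᶜ) := hfin.isClosed.isOpen_compl
  have hmem : (1 : ℂ) ∈ ({u : ℂ | u ^ n = 1} \ {1})ᶜ := by
    intro h
    exact h.2 rfl
  filter_upwards [hopen.mem_nhds hmem] with u hu h1
  by_contra hne
  exact hu ⟨h1, hne⟩

lemma secan_iter_cont {n : ℕ} (j : ℕ) {g C : ℂ → ℂ} {ζ₀ : ℂ} (hg : ContinuousAt g ζ₀)
    (hC : ContinuousAt C ζ₀) : ContinuousAt (fun ζ => (F n (C ζ))^[j] (g ζ)) ζ₀ := by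
  induction j with
  | zero => simpa using hg
  | succ j ih =>
    have : (fun ζ => (F n (C ζ))^[j + 1] (g ζ)) = fun ζ => ((F n (C ζ))^[j] (g ζ)) ^ n + C ζ := by
      funext ζ
      rw [Function.iterate_succ_apply']
      rfl
    rw [this]
    exact (ih.pow n).add hC

theorem p_SECAN (hFIXE : T_FIXE) (hLOCZ : T_LOCZ) : T_SECAN := by
  classical
  intro n k Λ lh ls Cp ε hn hk hB hL hP hper
  have hn0 : n ≠ 0 := by omega
  have hnc : (n : ℂ) ≠ 0 := Nat.cast_ne_zero.2 hn0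
  obtain ⟨hCd, hCc, hCu⟩ := hP
  have hex : ∀ ζ : ℂ, 0 < ζ.re → ∃ z : ℂ, (F n (Cp ζ))^[k] z = z ∧
    (∀ j, Dig n lh (Cp ζ) ζ ((F n (Cp ζ))^[j] z) (ε j)) ∧
    ∀ z' : ℂ, (F n (Cp ζ))^[k] z' = z' → (∀ j, Dig n lh (Cp ζ) ζ ((F n (Cp ζ))^[j] z') (ε j)) →
      z' = z := fun ζ hζ =>
    (hFIXE n k Λ lh ls (Cp ζ) ζ hn hk hB hL (hCc ζ hζ)).1 ε hper
  let zz : ℂ → ℂ := fun ζ => if h : 0 < ζ.re then (hex ζ h).choose else 0
  have hzz : ∀ ζ : ℂ, 0 < ζ.re → (F n (Cp ζ))^[k] (zz ζ) = zz ζ ∧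
    (∀ j, Dig n lh (Cp ζ) ζ ((F n (Cp ζ))^[j] (zz ζ)) (ε j)) ∧
    ∀ z' : ℂ, (F n (Cp ζ))^[k] z' = z' → (∀ j, Dig n lh (Cp ζ) ζ ((F n (Cp ζ))^[j] z') (ε j)) →
      z' = zz ζ := by
    intro ζ hζ
    have : zz ζ = (hex ζ hζ).choose := dif_pos hζ
    rw [this]
    exact (hex ζ hζ).choose_spec
  have hopen : IsOpen {ζ : ℂ | 0 < ζ.re} := isOpen_lt continuous_const Complex.continuous_re
  refine ⟨zz, ?_, fun ζ hζ => ⟨(hzz ζ hζ).1, (hzz ζ hζ).2.1⟩⟩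
  intro ζ₀ hζ₀
  have hζ₀' : 0 < ζ₀.re := hζ₀
  have hnhds : {ζ : ℂ | 0 < ζ.re} ∈ 𝓝 ζ₀ := hopen.mem_nhds hζ₀
  obtain ⟨hfix0, hdig0, huniq0⟩ := hzz ζ₀ hζ₀'
  have hF0 := (hFIXE n k Λ lh ls (Cp ζ₀) ζ₀ hn hk hB hL (hCc ζ₀ hζ₀')).2 (zz ζ₀) hfix0
  have hRho : Rho n k (Cp ζ₀) (zz ζ₀) ≠ 1 := by
    intro h
    have := hF0.1
    rw [h] at this
    simp at this
  obtain ⟨δ, r, zf, -, -, hloc⟩ := hLOCZ n k (Cp ζ₀) (zz ζ₀) 1 hn one_pos hfix0 hRho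
  have hCpd : DifferentiableAt ℂ Cp ζ₀ := (hCd ζ₀ hζ₀).differentiableAt hnhds
  have hball : ∀ᶠ ζ in 𝓝 ζ₀, Cp ζ ∈ Metric.ball (Cp ζ₀) δ :=
    hCpd.continuousAt.eventually (Metric.ball_mem_nhds _ hloc.hδ)
  have hzfd : DifferentiableAt ℂ zf (Cp ζ₀) :=
    (hloc.diff (Cp ζ₀) (Metric.mem_ball_self hloc.hδ)).differentiableAt
      (Metric.ball_mem_nhds _ hloc.hδ)
  have hgd : DifferentiableAt ℂ (fun ζ => zf (Cp ζ)) ζ₀ := hzfd.comp ζ₀ hCpd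
  have hA : ∀ j : ℕ, ContinuousAt (fun ζ => (F n (Cp ζ))^[j] (zf (Cp ζ))) ζ₀ := fun j =>
    secan_iter_cont j hgd.continuousAt hCpd.continuousAt
  have hA0 : ∀ j : ℕ, (F n (Cp ζ₀))^[j] (zf (Cp ζ₀)) = (F n (Cp ζ₀))^[j] (zz ζ₀) := by
    intro j
    rw [hloc.zf0]
  have hGA : ∀ j : ℕ, ∀ᶠ ζ in 𝓝 ζ₀, 0 < ζ.re ∧
      G n (Cp ζ) ((F n (Cp ζ))^[j] (zf (Cp ζ))) = 0 := by
    intro j
    filter_upwards [hball, hnhds] with ζ h1 h2
    refine ⟨h2, ?_⟩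
    have hfix := hloc.fix (Cp ζ) h1
    have hfixj : (F n (Cp ζ))^[k] ((F n (Cp ζ))^[j] (zf (Cp ζ))) = (F n (Cp ζ))^[j] (zf (Cp ζ)) := by
      rw [← Function.iterate_add_apply, add_comm, Function.iterate_add_apply, hfix]
    exact ((hFIXE n k Λ lh ls (Cp ζ) ζ hn hk hB hL (hCc ζ h2)).2 _ hfixj).2.1
  -- continuity of the branches
  have hBc : ∀ j : ℕ, ContinuousAt (fun ζ => br n lh (Cp ζ) ζ (ε j)
      ((F n (Cp ζ))^[j + 1] (zf (Cp ζ)))) ζ₀ := by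
    intro j
    have hlh : ContinuousAt (fun ζ => lh (Cp ζ) ζ ((F n (Cp ζ))^[j + 1] (zf (Cp ζ)))) ζ₀ := by
      set S : Set (ℂ × ℂ × ℂ) :=
        {p : ℂ × ℂ × ℂ | Crit n Λ p.1 p.2.1 ∧ G n p.1 p.2.2 < p.2.1.re} with hS
      have hpt : Tendsto (fun ζ : ℂ => ((Cp ζ, ζ, (F n (Cp ζ))^[j + 1] (zf (Cp ζ))) : ℂ × ℂ × ℂ))
          (𝓝 ζ₀) (𝓝 (Cp ζ₀, ζ₀, (F n (Cp ζ₀))^[j + 1] (zf (Cp ζ₀)))) :=
        hCpd.continuousAt.prodMk_nhds (continuousAt_id.prodMk_nhds (hA (j + 1)))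
      have hin : ∀ᶠ ζ in 𝓝 ζ₀, ((Cp ζ, ζ, (F n (Cp ζ))^[j + 1] (zf (Cp ζ))) : ℂ × ℂ × ℂ) ∈ S := by
        filter_upwards [hGA (j + 1)] with ζ h
        exact ⟨hCc ζ h.1, by show G n (Cp ζ) _ < ζ.re; rw [h.2]; exact h.1⟩
      have hw := tendsto_nhdsWithin_iff.2 ⟨hpt, hin⟩
      have h0 : ((Cp ζ₀, ζ₀, (F n (Cp ζ₀))^[j + 1] (zf (Cp ζ₀))) : ℂ × ℂ × ℂ) ∈ S :=
        hin.self_of_nhds
      exact (hL.lhcont _ h0).tendsto.comp hw
    unfold br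
    exact (Complex.continuous_exp.continuousAt).comp ((hlh.add continuousAt_const).div_const _)
  have hdig : ∀ j : ℕ, ∀ᶠ ζ in 𝓝 ζ₀, Dig n lh (Cp ζ) ζ ((F n (Cp ζ))^[j] (zf (Cp ζ))) (ε j) := by
    intro j
    have hB0 : br n lh (Cp ζ₀) ζ₀ (ε j) ((F n (Cp ζ₀))^[j + 1] (zf (Cp ζ₀))) =
        (F n (Cp ζ₀))^[j] (zf (Cp ζ₀)) := by
      have := hdig0 j
      unfold Dig at this
      rw [hA0, hA0, Function.iterate_succ_apply']
      exact this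
    have hne : br n lh (Cp ζ₀) ζ₀ (ε j) ((F n (Cp ζ₀))^[j + 1] (zf (Cp ζ₀))) ≠ 0 :=
      Complex.exp_ne_zero _
    have hq : ContinuousAt (fun ζ => (F n (Cp ζ))^[j] (zf (Cp ζ)) /
        br n lh (Cp ζ) ζ (ε j) ((F n (Cp ζ))^[j + 1] (zf (Cp ζ)))) ζ₀ := (hA j).div (hBc j) hne
    have hq0 : (F n (Cp ζ₀))^[j] (zf (Cp ζ₀)) /
        br n lh (Cp ζ₀) ζ₀ (ε j) ((F n (Cp ζ₀))^[j + 1] (zf (Cp ζ₀))) = 1 := by
      rw [← hB0]
      exact div_self hne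
    have hq' : Tendsto (fun ζ => (F n (Cp ζ))^[j] (zf (Cp ζ)) /
        br n lh (Cp ζ) ζ (ε j) ((F n (Cp ζ))^[j + 1] (zf (Cp ζ)))) (𝓝 ζ₀) (𝓝 1) := by
      have := hq.tendsto
      rwa [hq0] at this
    filter_upwards [hq'.eventually (secan_root hn), hGA (j + 1)] with ζ h1 h2
    have hbne : br n lh (Cp ζ) ζ (ε j) ((F n (Cp ζ))^[j + 1] (zf (Cp ζ))) ≠ 0 :=
      Complex.exp_ne_zero _
    have hpow : br n lh (Cp ζ) ζ (ε j) ((F n (Cp ζ))^[j + 1] (zf (Cp ζ))) ^ n =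
        ((F n (Cp ζ))^[j] (zf (Cp ζ))) ^ n := by
      have h3 := hL.lhexp (Cp ζ) ζ ((F n (Cp ζ))^[j + 1] (zf (Cp ζ))) (hCc ζ h2.1)
        (by rw [h2.2]; exact h2.1)
      unfold br
      rw [← Complex.exp_nat_mul, mul_div_cancel₀ _ hnc, Complex.exp_add, h3,
        mul_comm (2 * (Real.pi : ℂ) * I) _, Complex.exp_int_mul_two_pi_mul_I, mul_one,
        Function.iterate_succ_apply']
      show _ ^ n + Cp ζ - Cp ζ = _
      ring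
    have h4 : ((F n (Cp ζ))^[j] (zf (Cp ζ)) /
        br n lh (Cp ζ) ζ (ε j) ((F n (Cp ζ))^[j + 1] (zf (Cp ζ)))) ^ n = 1 := by
      rw [div_pow, hpow]
      apply div_self
      rw [← hpow]
      exact pow_ne_zero _ hbne
    have h5 := h1 h4
    rw [div_eq_one_iff_eq hbne] at h5
    unfold Dig
    rw [Function.iterate_succ_apply'] at h5
    exact h5.symm
  have hall : ∀ᶠ ζ in 𝓝 ζ₀, ∀ j ∈ Finset.range k,
      Dig n lh (Cp ζ) ζ ((F n (Cp ζ))^[j] (zf (Cp ζ))) (ε j) :=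
    (Filter.eventually_all_finset _).2 fun j _ => hdig j
  have heq : zz =ᶠ[𝓝 ζ₀] fun ζ => zf (Cp ζ) := by
    filter_upwards [hall, hball, hnhds] with ζ h1 h2 h3
    have hfix := hloc.fix (Cp ζ) h2
    refine ((hzz ζ h3).2.2 (zf (Cp ζ)) hfix ?_).symm
    have hperm : ∀ m j : ℕ, (F n (Cp ζ))^[j + k * m] (zf (Cp ζ)) = (F n (Cp ζ))^[j] (zf (Cp ζ)) ∧
        ε (j + k * m) = ε j := by
      intro m j
      induction m with
      | zero => simp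
      | succ m ih =>
        constructor
        · rw [show j + k * (m + 1) = (j + k * m) + k by ring, Function.iterate_add_apply, hfix]
          exact ih.1
        · rw [show j + k * (m + 1) = (j + k * m) + k by ring, hper]
          exact ih.2
    intro j
    have hj := hperm (j / k) (j % k)
    rw [Nat.mod_add_div] at hj
    rw [hj.1, hj.2]
    exact h1 (j % k) (Finset.mem_range.2 (Nat.mod_lt _ (by omega)))
  exact (hgd.congr_of_eventuallyEq heq).differentiableWithinAt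

end Pool.Agent.PLim
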