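import Pool.Agent.PLim.Targets2
import Pool.Agent.PLim.SECAN

/-!
# PLIM, LOP: labels are locally constant
-/

set_option autoImplicit false

open Complex Filter Topology Set MeasureTheory
open Pool.Agent.Multibrot Pool.Agent.Limb

namespace Pool.Agent.PLim

namespace LOP_

lemma iter_cont (n : ℕ) (j : ℕ) : Continuous (fun p : ℂ × ℂ => (F n p.1)^[j] p.2) := by
  induction j with
  | zero => simpa using continuous_snd
  | succ j ih =>
    have : (fun p : ℂ × ℂ => (F n p.1)^[j + 1] p.2) = fun p : ℂ × ℂ =>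
        ((F n p.1)^[j] p.2) ^ n + p.1 := by
      funext p
      rw [Function.iterate_succ_apply']
      rfl
    rw [this]
    exact (ih.pow n).add continuous_fst

lemma fix_iter {n k : ℕ} {c z : ℂ} (h : (F n c)^[k] z = z) (j : ℕ) :
    (F n c)^[k] ((F n c)^[j] z) = (F n c)^[j] z := by
  rw [← Function.iterate_add_apply, add_comm, Function.iterate_add_apply, h]

end LOP_

open LOP_ in
theorem p_LOP (hGREEN : T_GREEN) (hST1 : T_ST1) (hST2 : T_ST2) (hFIXE : T_FIXE) (hBR : T_BR)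
    (hRP : T_RP) (hWL : T_WL) (hRINV : T_RINV) (hPHI : T_PHI') : T_LOP := by
  intro n k Λ lh ls c0 z0 l hn hk hB hL hfix0 hrep hlab
  obtain ⟨hGc, hG0, -, -, -, hGM, hGcc, -⟩ := hGREEN n hn
  have hn0 : n ≠ 0 := by omega
  have hnc : (n : ℂ) ≠ 0 := Nat.cast_ne_zero.2 hn0
  have hnR : (2 : ℝ) ≤ n := by exact_mod_cast hn
  have hpos : ∀ c ζ : ℂ, Crit n Λ c ζ → 0 < ζ.re := by
    intro c ζ h
    rw [h.2.1, hGcc c]
    have h1 : G n c 0 ≠ 0 := fun h2 => h.1 ((hGM c).2 h2)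
    have h2 : 0 < G n c 0 := lt_of_le_of_ne (hG0 c 0) (Ne.symm h1)
    positivity
  obtain ⟨Φ, hΦd, hΦn, hΦc, -⟩ := hPHI n Λ hn hB
  have hΦ0 : ∀ c, c ∉ MM n → Φ c ≠ 0 := by
    intro c hc h
    have := hΦn c hc
    rw [h, norm_zero] at this
    exact absurd this.symm (Real.exp_pos _).ne'
  have hGfix : ∀ c ζ z : ℂ, Crit n Λ c ζ → (F n c)^[k] z = z → ∀ j : ℕ,
      G n c ((F n c)^[j] z) = 0 := fun c ζ z hc hz j =>
    ((hFIXE n k Λ lh ls c ζ hn hk hB hL hc).2 _ (fix_iter hz j)).2.1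
  by_cases hc0 : c0 ∈ MM n
  · -- inside the Multibrot set
    have hdata : ∃ (α θ : ℝ) (q : ℕ) (ε : ℕ → ℤ), Ex n k q α ∧ 2 ≤ q ∧ Lands Λ c0 α z0 ∧
      Per k ε ∧ Cod n θ α ε ∧ lab n k θ ε = l := by
      rcases hlab with ⟨ζ, ε, hC, -⟩ | ⟨-, h⟩
      · exact absurd hc0 hC.1
      · exact h
    obtain ⟨α, θ, q, ε, hEx, hq, hland, hPer, hCod, hl⟩ := hdata
    obtain ⟨δ1, hδ1, h1⟩ := hST1 n k q Λ c0 z0 α hn hk (by omega) hB hc0 hEx.2.1 hland hfix0 hrep
    obtain ⟨δ2, hδ2, h2⟩ := hST2 n k q Λ lh ls c0 z0 α hn hk (by omega) hB hL hc0 hEx.2.1 hland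
      hfix0 hrep
    refine ⟨min δ1 δ2, lt_min hδ1 hδ2, ?_⟩
    intro c z hc hz hfix
    by_cases hcM : c ∈ MM n
    · right
      exact ⟨hcM, α, θ, q, ε, hEx, hq, h1 c z (hc.trans_le (min_le_left _ _))
        (hz.trans_le (min_le_left _ _)) hfix hcM, hPer, hCod, hl⟩
    · left
      have hCrit : Crit n Λ c (log (Φ c)) := by
        rw [hΦc c _ hcM, exp_log (hΦ0 c hcM)]
      set ζ := log (Φ c) with hζ
      obtain ⟨h3, h4⟩ := h2 c z ζ (hc.trans_le (min_le_right _ _)) (hz.trans_le (min_le_right _ _))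
        hfix hCrit
      obtain ⟨-, -, ε', hPer', hdig⟩ := (hFIXE n k Λ lh ls c ζ hn hk hB hL hCrit).2 z hfix
      have hCod' : Cod n (ζ.im / (2 * Real.pi)) α ε' := by
        refine ⟨h3, fun t => ?_⟩
        have h5 := (hBR n Λ lh ls c ζ hn hB hL hCrit).2.2.2.2.1 ((F n c)^[t] z)
          ⌊(n : ℝ) ^ (t + 1) * α - ζ.im / (2 * Real.pi)⌋ (ε' t)
          (by rw [hGfix c ζ z hCrit hfix t, mul_zero]; exact hpos c ζ hCrit) (h4 t)
        exact h5.1 (hdig t)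
      refine ⟨ζ, ε', hCrit, hPer', hdig, ?_, ?_⟩
      · intro h5
        have h6 := ((hRP n k q _ α ε' hn hk hEx hCod' hPer').2).1 h5
        omega
      · rw [← hl]
        exact hWL n k q α _ _ ε' ε hn hk hq hEx hPer' hPer hCod' hCod
  · -- outside
    have hdata : ∃ (ζ : ℂ) (ε : ℕ → ℤ), Crit n Λ c0 ζ ∧ Per k ε ∧
      (∀ j, Dig n lh c0 ζ ((F n c0)^[j] z0) (ε j)) ∧ ¬ IsInt (Rot n k (ζ.im / (2 * Real.pi)) ε) ∧
      lab n k (ζ.im / (2 * Real.pi)) ε = l := by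
      rcases hlab with h | ⟨h, -⟩
      · exact h
      · exact absurd h hc0
    obtain ⟨ζ0, ε, hC0, hPer, hdig0, hrot, hl⟩ := hdata
    have hMo : IsOpen (MM n)ᶜ := by
      have h1 : (MM n)ᶜ = {c : ℂ | G n c 0 ≠ 0} := by
        ext c
        simp only [mem_compl_iff, mem_ofPred_eq, hGM c, ne_eq]
      rw [h1]
      have h3 : Continuous (fun c : ℂ => ((c, (0 : ℂ)) : ℂ × ℂ)) := by fun_prop
      have h2 : Continuous (fun c : ℂ => G n c 0) :=
        Continuous.comp (g := fun q : ℂ × ℂ => G n q.1 q.2) (f := fun c : ℂ => (c, (0 : ℂ))) hGc h3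
      exact isOpen_ne_fun h2 continuous_const
    have hexp0 : exp ζ0 = Φ c0 := (hΦc c0 ζ0 hc0).1 hC0
    set ζf : ℂ → ℂ := fun c => ζ0 + log (Φ c / Φ c0) with hζf
    have hζ0 : ζf c0 = ζ0 := by
      simp only [hζf]
      rw [div_self (hΦ0 c0 hc0), log_one, add_zero]
    have hΦca : ContinuousAt Φ c0 := ((hΦd c0 hc0).differentiableAt (hMo.mem_nhds hc0)).continuousAt
    have hζca : ContinuousAt ζf c0 := by
      refine continuousAt_const.add ?_
      refine ContinuousAt.clog (hΦca.div_const _) ?_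
      rw [div_self (hΦ0 c0 hc0)]
      exact one_mem_slitPlane
    have hCf : ∀ c, c ∉ MM n → Crit n Λ c (ζf c) := by
      intro c hc
      rw [hΦc c _ hc]
      simp only [hζf]
      rw [exp_add, exp_log (div_ne_zero (hΦ0 c hc) (hΦ0 c0 hc0)), hexp0,
        mul_div_cancel₀ _ (hΦ0 c0 hc0)]
    set X : Set (ℂ × ℂ) := {p : ℂ × ℂ | (F n p.1)^[k] p.2 = p.2} with hX
    set 𝓕 : Filter (ℂ × ℂ) := 𝓝[X] (c0, z0) with h𝓕
    have hle : 𝓕 ≤ 𝓝 (c0, z0) := nhdsWithin_le_nhds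
    have hfst : Tendsto (fun p : ℂ × ℂ => p.1) 𝓕 (𝓝 c0) :=
      (continuous_fst.tendsto (c0, z0)).mono_left hle
    have hcM : ∀ᶠ p : ℂ × ℂ in 𝓕, p.1 ∉ MM n := hfst.eventually (hMo.mem_nhds hc0)
    have hpX : ∀ᶠ p : ℂ × ℂ in 𝓕, (F n p.1)^[k] p.2 = p.2 := self_mem_nhdsWithin
    have hζt : Tendsto (fun p : ℂ × ℂ => ζf p.1) 𝓕 (𝓝 ζ0) := by
      have := hζca.tendsto.comp hfst
      rwa [hζ0] at this
    have hIt : ∀ j : ℕ, Tendsto (fun p : ℂ × ℂ => (F n p.1)^[j] p.2) 𝓕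
        (𝓝 ((F n c0)^[j] z0)) := fun j => ((iter_cont n j).tendsto (c0, z0)).mono_left hle
    have hGA : ∀ j : ℕ, ∀ᶠ p : ℂ × ℂ in 𝓕, Crit n Λ p.1 (ζf p.1) ∧
        G n p.1 ((F n p.1)^[j] p.2) < (ζf p.1).re := by
      intro j
      filter_upwards [hcM, hpX] with p h1 h2
      refine ⟨hCf _ h1, ?_⟩
      rw [hGfix p.1 _ p.2 (hCf _ h1) h2 j]
      exact hpos _ _ (hCf _ h1)
    have hBt : ∀ j : ℕ, Tendsto (fun p : ℂ × ℂ => br n lh p.1 (ζf p.1) (ε j)
        ((F n p.1)^[j + 1] p.2)) 𝓕 (𝓝 (br n lh c0 ζ0 (ε j) ((F n c0)^[j + 1] z0))) := by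
      intro j
      set S : Set (ℂ × ℂ × ℂ) :=
        {p : ℂ × ℂ × ℂ | Crit n Λ p.1 p.2.1 ∧ G n p.1 p.2.2 < p.2.1.re} with hS
      have h0 : ((c0, ζ0, (F n c0)^[j + 1] z0) : ℂ × ℂ × ℂ) ∈ S := by
        refine ⟨hC0, ?_⟩
        show G n c0 ((F n c0)^[j + 1] z0) < ζ0.re
        rw [hGfix c0 ζ0 z0 hC0 hfix0 (j + 1)]
        exact hpos _ _ hC0
      have hpt : Tendsto (fun p : ℂ × ℂ => ((p.1, ζf p.1, (F n p.1)^[j + 1] p.2) : ℂ × ℂ × ℂ))
          𝓕 (𝓝 (c0, ζ0, (F n c0)^[j + 1] z0)) :=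
        hfst.prodMk_nhds (hζt.prodMk_nhds (hIt (j + 1)))
      have hin : ∀ᶠ p : ℂ × ℂ in 𝓕, ((p.1, ζf p.1, (F n p.1)^[j + 1] p.2) : ℂ × ℂ × ℂ) ∈ S := by
        filter_upwards [hGA (j + 1)] with p h
        exact h
      have hw := tendsto_nhdsWithin_iff.2 ⟨hpt, hin⟩
      have hlh : Tendsto (fun p : ℂ × ℂ => lh p.1 (ζf p.1) ((F n p.1)^[j + 1] p.2)) 𝓕
          (𝓝 (lh c0 ζ0 ((F n c0)^[j + 1] z0))) := (hL.lhcont _ h0).tendsto.comp hw
      unfold br
      exact (Complex.continuous_exp.tendsto _).comp ((hlh.add_const _).div_const _)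
    have hdig : ∀ j : ℕ, ∀ᶠ p : ℂ × ℂ in 𝓕, Dig n lh p.1 (ζf p.1) ((F n p.1)^[j] p.2) (ε j) := by
      intro j
      have hB0 : br n lh c0 ζ0 (ε j) ((F n c0)^[j + 1] z0) = (F n c0)^[j] z0 := by
        have := hdig0 j
        unfold Dig at this
        rw [Function.iterate_succ_apply']
        exact this
      have hne : br n lh c0 ζ0 (ε j) ((F n c0)^[j + 1] z0) ≠ 0 := Complex.exp_ne_zero _
      have hq' : Tendsto (fun p : ℂ × ℂ => (F n p.1)^[j] p.2 /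
          br n lh p.1 (ζf p.1) (ε j) ((F n p.1)^[j + 1] p.2)) 𝓕 (𝓝 1) := by
        have := (hIt j).div (hBt j) hne
        rw [← hB0, div_self hne] at this
        exact this
      filter_upwards [hq'.eventually (secan_root hn), hGA (j + 1)] with p h1 h2
      have hbne : br n lh p.1 (ζf p.1) (ε j) ((F n p.1)^[j + 1] p.2) ≠ 0 := Complex.exp_ne_zero _
      have hpow : br n lh p.1 (ζf p.1) (ε j) ((F n p.1)^[j + 1] p.2) ^ n =
          ((F n p.1)^[j] p.2) ^ n := by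
        have h3 := hL.lhexp p.1 (ζf p.1) ((F n p.1)^[j + 1] p.2) h2.1 h2.2
        unfold br
        rw [← Complex.exp_nat_mul, mul_div_cancel₀ _ hnc, Complex.exp_add, h3,
          mul_comm (2 * (Real.pi : ℂ) * I) _, Complex.exp_int_mul_two_pi_mul_I, mul_one,
          Function.iterate_succ_apply']
        show _ ^ n + p.1 - p.1 = _
        ring
      have h4 : ((F n p.1)^[j] p.2 /
          br n lh p.1 (ζf p.1) (ε j) ((F n p.1)^[j + 1] p.2)) ^ n = 1 := by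
        rw [div_pow, hpow]
        apply div_self
        rw [← hpow]
        exact pow_ne_zero _ hbne
      have h5 := h1 h4
      rw [div_eq_one_iff_eq hbne] at h5
      unfold Dig
      rw [Function.iterate_succ_apply'] at h5
      exact h5.symm
    have hall : ∀ᶠ p : ℂ × ℂ in 𝓕, ∀ j ∈ Finset.range k,
        Dig n lh p.1 (ζf p.1) ((F n p.1)^[j] p.2) (ε j) :=
      (Filter.eventually_all_finset _).2 fun j _ => hdig j
    have hθt : Tendsto (fun p : ℂ × ℂ => (ζf p.1).im / (2 * Real.pi)) 𝓕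
        (𝓝 (ζ0.im / (2 * Real.pi))) :=
      ((Complex.continuous_im.tendsto ζ0).comp hζt).div_const _
    have hR := hθt.eventually ((hRINV n k ε (ζ0.im / (2 * Real.pi)) hn hk).2.2.2 hrot)
    have hfin : ∀ᶠ p : ℂ × ℂ in 𝓕, LabR n k Λ lh p.1 p.2 l := by
      filter_upwards [hall, hcM, hpX, hR] with p h1 h2 h3 h4
      left
      refine ⟨ζf p.1, ε, hCf _ h2, hPer, ?_, h4.1, h4.2.trans hl⟩
      have hperm : ∀ m j : ℕ, (F n p.1)^[j + k * m] p.2 = (F n p.1)^[j] p.2 ∧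
          ε (j + k * m) = ε j := by
        intro m j
        induction m with
        | zero => simp
        | succ m ih =>
          constructor
          · rw [show j + k * (m + 1) = (j + k * m) + k by ring, Function.iterate_add_apply, h3]
            exact ih.1
          · rw [show j + k * (m + 1) = (j + k * m) + k by ring, hPer]
            exact ih.2
      intro j
      have hj := hperm (j / k) (j % k)
      rw [Nat.mod_add_div] at hj
      rw [hj.1, hj.2]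
      exact h1 (j % k) (Finset.mem_range.2 (Nat.mod_lt _ (by omega)))
    rw [h𝓕, eventually_nhdsWithin_iff, Metric.eventually_nhds_iff] at hfin
    obtain ⟨δ, hδ, h⟩ := hfin
    refine ⟨δ, hδ, fun c z hc hz hfix => ?_⟩
    refine h (y := (c, z)) ?_ hfix
    rw [Prod.dist_eq, dist_eq_norm, dist_eq_norm]
    exact max_lt hc hz

end Pool.Agent.PLim
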