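import Pool.Agent.PLim.Targets

/-!
# PLIM: target LS, every label occurs
-/

set_option autoImplicit false

open Complex Filter Topology Set
open Pool.Agent.Multibrot Pool.Agent.Limb

namespace Pool.Agent.PLim

namespace LS_

lemma shift_nat (h2 : T_RS) {n k : ℕ} (ε : ℕ → ℤ) (hn : 2 ≤ n) (m : ℕ) (θ : ℝ) :
    Rot n k (θ + n * m) ε = Rot n k θ ε - ((k * (n - 1) : ℕ) : ℝ) * m := by
  induction m with
  | zero => simp
  | succ m ih =>
    have e : θ + (n : ℝ) * ((m + 1 : ℕ) : ℝ) = (θ + n * m) + n := by push_cast; ring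
    rw [e, (h2 n k ε (θ + n * m) hn).2.2, ih]
    push_cast
    ring

/-- The word. -/
noncomputable def word (n k : ℕ) (hk : 1 ≤ k) (w : Fin (k - 1) → ZMod n) (t : ℕ) : ℤ :=
  if h : t % k = 0 then 0 else
    ((w ⟨t % k - 1, by have := Nat.mod_lt t hk; omega⟩).val : ℤ)

lemma word_per (n k : ℕ) (hk : 1 ≤ k) (w : Fin (k - 1) → ZMod n) : Per k (word n k hk w) := by
  intro t
  unfold word
  simp only [Nat.add_mod_right]

lemma word_zero (n k : ℕ) (hk : 1 ≤ k) (w : Fin (k - 1) → ZMod n) : word n k hk w 0 = 0 := by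
  unfold word
  simp

lemma word_succ (n k : ℕ) (hk : 1 ≤ k) (w : Fin (k - 1) → ZMod n) (j : Fin (k - 1)) :
    word n k hk w ((j : ℕ) + 1) = ((w j).val : ℤ) := by
  have hj := j.2
  have h1 : ((j : ℕ) + 1) % k = (j : ℕ) + 1 := Nat.mod_eq_of_lt (by omega)
  unfold word
  rw [dif_neg (by omega)]
  have h2 : (⟨((j : ℕ) + 1) % k - 1, by rw [h1]; omega⟩ : Fin (k - 1)) = j := by
    apply Fin.ext
    simp only [h1]
    omega
  rw [h2]

lemma word_mod (n k : ℕ) (hk : 1 ≤ k) (hn : 2 ≤ n) (w : Fin (k - 1) → ZMod n) (t : ℕ) :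
    word n k hk w t % (n : ℤ) = word n k hk w t := by
  have : NeZero n := ⟨by omega⟩
  unfold word
  split_ifs with h
  · simp
  · exact Int.emod_eq_of_lt (by positivity) (by exact_mod_cast ZMod.val_lt _)

end LS_

open LS_ in
theorem p_LS (h1 : T_RC) (h2 : T_RS) : T_LS := by
  intro n k l hn hk
  have hn0 : NeZero n := ⟨by omega⟩
  have hK : 1 ≤ k * (n - 1) := Nat.mul_pos hk (by omega)
  have hK0 : NeZero (k * (n - 1)) := ⟨by omega⟩
  set ε := word n k hk l.1 with hε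
  set φ : ℝ → ℝ := fun θ => Rot n k θ ε with hφ
  have hφc : Continuous φ := (h1 n k ε hn).1
  have hKr : (1 : ℝ) ≤ ((k * (n - 1) : ℕ) : ℝ) := by exact_mod_cast hK
  set y : ℝ := (l.2.val : ℝ) + 1 / 2 with hy
  obtain ⟨θ0, hθ0⟩ : y ∈ Set.range φ := by
    refine mem_range_of_exists_le_of_exists_ge hφc ?_ ?_
    · obtain ⟨m, hm⟩ := exists_nat_ge (φ 0 - y)
      refine ⟨0 + n * m, ?_⟩
      have h3 : φ (0 + n * m) = φ 0 - ((k * (n - 1) : ℕ) : ℝ) * m := shift_nat h2 ε hn m 0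
      have h4 : (1 : ℝ) * m ≤ ((k * (n - 1) : ℕ) : ℝ) * m :=
        mul_le_mul_of_nonneg_right hKr (Nat.cast_nonneg m)
      rw [h3]
      linarith
    · obtain ⟨m, hm⟩ := exists_nat_ge (y - φ 0)
      refine ⟨-(n * m), ?_⟩
      have h3 := shift_nat (k := k) h2 ε hn m (-(n * m))
      rw [neg_add_cancel] at h3
      have h4 : (1 : ℝ) * m ≤ ((k * (n - 1) : ℕ) : ℝ) * m :=
        mul_le_mul_of_nonneg_right hKr (Nat.cast_nonneg m)
      have h5 : φ (-(n * m)) = Rot n k (-(n * m)) ε := rfl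
      have h6 : φ 0 = Rot n k 0 ε := rfl
      rw [h5]
      rw [h6] at hm
      linarith
  have hopen : IsOpen (φ ⁻¹' Ioo (l.2.val : ℝ) (l.2.val + 1)) := isOpen_Ioo.preimage hφc
  have hmem : θ0 ∈ φ ⁻¹' Ioo (l.2.val : ℝ) (l.2.val + 1) := by
    rw [mem_preimage, hθ0, hy]
    constructor <;> linarith
  obtain ⟨δ, hδ, hball⟩ := Metric.isOpen_iff.mp hopen θ0 hmem
  refine ⟨ε, θ0 - δ, θ0 + δ, word_per n k hk l.1, by linarith, ?_⟩
  intro θ hθ
  have hθ' : φ θ ∈ Ioo (l.2.val : ℝ) (l.2.val + 1) := by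
    apply hball
    rw [Real.ball_eq_Ioo]
    exact hθ
  constructor
  · rintro ⟨m, hm⟩
    have h3 : (l.2.val : ℝ) < m := by rw [← hm]; exact hθ'.1
    have h4 : (m : ℝ) < l.2.val + 1 := by rw [← hm]; exact hθ'.2
    have h5 : ((l.2.val : ℕ) : ℤ) < m := by exact_mod_cast h3
    have h6 : m < ((l.2.val : ℕ) : ℤ) + 1 := by exact_mod_cast h4
    omega
  · have he0 : ε 0 = 0 := word_zero n k hk l.1
    have hw : (fun j => (ε j - ε 0) % (n : ℤ)) = ε := by
      funext j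
      rw [he0, sub_zero]
      exact word_mod n k hk hn l.1 j
    have hfl : ⌊Rot n k θ ε⌋ = ((l.2.val : ℕ) : ℤ) := by
      rw [Int.floor_eq_iff]
      refine ⟨?_, ?_⟩
      · push_cast
        exact hθ'.1.le
      · push_cast
        exact hθ'.2
    unfold lab
    rw [hw, he0]
    refine Prod.ext ?_ ?_
    · funext j
      simp only [sub_zero]
      rw [hε, word_succ]
      simp
    · simp only [Int.cast_zero, add_zero]
      rw [hfl]
      simp

end Pool.Agent.PLim
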