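import Pool.Agent.PLim.Targets2
import Pool.Agent.PLim.LOG

/-!
# PLIM-LU: existence and uniqueness of labels
-/

set_option autoImplicit false

open Complex Filter Topology Set MeasureTheory
open Pool.Agent.Multibrot Pool.Agent.Limb

namespace Pool.Agent.PLim

namespace LU_

/-- shifting the angle by an integer -/
lemma shift {n k : ℕ} (hn : 2 ≤ n) (hk : 1 ≤ k) (hR : T_RINV) (m : ℤ) :
    ∀ (θ : ℝ) (ε : ℕ → ℤ), lab n k (θ + m) ε = lab n k θ (fun t => ε t + m) ∧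
      (IsInt (Rot n k (θ + m) ε) ↔ IsInt (Rot n k θ (fun t => ε t + m))) := by
  induction m using Int.induction_on with
  | zero =>
    intro θ ε
    simp
  | succ m ih =>
    intro θ ε
    have h1 := (hR n k ε (θ + (m : ℤ)) hn hk).2.2.1
    have h2 := ih θ (fun t => ε t + 1)
    have e1 : θ + (((m : ℤ) + 1 : ℤ) : ℝ) = θ + ((m : ℤ) : ℝ) + 1 := by push_cast; ring
    have e2 : (fun t => ε t + ((m : ℤ) + 1)) = fun t => ε t + 1 + (m : ℤ) := by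
      funext t
      ring
    rw [e1, e2]
    exact ⟨h1.1.trans h2.1, h1.2.trans h2.2⟩
  | pred m ih =>
    intro θ ε
    have h1 := (hR n k (fun t => ε t - 1) (θ + ((-(m : ℤ) - 1 : ℤ) : ℝ)) hn hk).2.2.1
    have h2 := ih θ (fun t => ε t - 1)
    have e1 : θ + ((-(m : ℤ) - 1 : ℤ) : ℝ) + 1 = θ + ((-(m : ℤ) : ℤ) : ℝ) := by push_cast; ring
    have e2 : (fun t => ε t - 1 + 1) = ε := by
      funext t
      ring
    have e3 : (fun t => ε t + (-(m : ℤ) - 1)) = fun t => ε t - 1 + -(m : ℤ) := by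
      funext t
      ring
    rw [e1] at h1
    rw [e3]
    refine ⟨?_, ?_⟩
    · have := h1.1
      simp only [sub_add_cancel] at this
      exact this.symm.trans h2.1
    · have := h1.2
      simp only [sub_add_cancel] at this
      exact this.symm.trans h2.2

/-- the logarithm is equivariant for integer shifts -/
lemma lh_shift {n : ℕ} {Λ : ℂ → ℂ → ℂ} {lh ls : ℂ → ℂ → ℂ → ℂ} (hL : IsLog n Λ lh ls)
    {c : ℂ} (hper : ∀ ζ : ℂ, Crit n Λ c ζ → Crit n Λ c (ζ + 2 * Real.pi * I)) (m : ℕ) :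
    ∀ (ζ z : ℂ), Crit n Λ c ζ → G n c z < ζ.re →
      Crit n Λ c (ζ + 2 * Real.pi * I * m) ∧
      lh c (ζ + 2 * Real.pi * I * m) z = lh c ζ z + 2 * Real.pi * I * m := by
  induction m with
  | zero =>
    intro ζ z h1 _
    simpa using h1
  | succ m ih =>
    intro ζ z h1 h2
    obtain ⟨h3, h4⟩ := ih ζ z h1 h2
    have e : ζ + 2 * Real.pi * I * ((m + 1 : ℕ) : ℂ) =
        ζ + 2 * Real.pi * I * m + 2 * Real.pi * I := by push_cast; ring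
    rw [e]
    refine ⟨hper _ h3, ?_⟩
    rw [hL.lhper c _ z h3 (by
      have : (ζ + 2 * Real.pi * I * m).re = ζ.re := by simp
      rw [this]
      exact h2), h4]
    push_cast
    ring

lemma G0_pos {n : ℕ} (hn : 2 ≤ n) (hG : T_GREEN) {c : ℂ} (hc : c ∉ MM n) : 0 < G n c 0 := by
  obtain ⟨-, h0, -, -, -, hM, -, -⟩ := hG n hn
  rcases (h0 c 0).lt_or_eq with h | h
  · exact h
  · exact absurd ((hM c).2 h.symm) hc

lemma G0_lt {n : ℕ} (hn : 2 ≤ n) (hG : T_GREEN) {c : ℂ} (hc : c ∉ MM n) :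
    G n c 0 < G n c c := by
  have h1 := G0_pos hn hG hc
  obtain ⟨-, -, -, -, -, -, hcc, -⟩ := hG n hn
  rw [hcc c]
  have h2 : (2 : ℝ) ≤ n := by exact_mod_cast hn
  nlinarith

lemma crit_pos {n : ℕ} (hn : 2 ≤ n) (hG : T_GREEN) {Λ : ℂ → ℂ → ℂ} {c ζ : ℂ}
    (h : Crit n Λ c ζ) : G n c 0 < ζ.re ∧ 0 < ζ.re := by
  have h1 := G0_lt hn hG h.1
  have h2 := G0_pos hn hG h.1
  rw [h.2.1]
  exact ⟨h1, h2.trans h1⟩

lemma crit_per {n : ℕ} (hn : 2 ≤ n) (hG : T_GREEN) {Λ : ℂ → ℂ → ℂ} (hΛ : IsBot n Λ) {c ζ : ℂ}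
    (h : Crit n Λ c ζ) : Crit n Λ c (ζ + 2 * Real.pi * I) := by
  refine ⟨h.1, ?_, ?_⟩
  · have : (ζ + 2 * Real.pi * I).re = ζ.re := by simp
    rw [this]
    exact h.2.1
  · have h1 := LOG_.Lam_per hn hΛ c ζ (crit_pos hn hG h).1 1
    have e : ζ + 2 * Real.pi * I * ((1 : ℤ) : ℂ) = ζ + 2 * Real.pi * I := by
      push_cast
      ring
    rw [e] at h1
    rw [h1]
    exact h.2.2

/-- the digits for two logarithms of the critical value -/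
lemma dig_shift {n : ℕ} (hn : 2 ≤ n) (hG : T_GREEN) {Λ : ℂ → ℂ → ℂ} (hΛ : IsBot n Λ)
    {lh ls : ℂ → ℂ → ℂ → ℂ} (hL : IsLog n Λ lh ls) {c ζ w : ℂ} (h : Crit n Λ c ζ)
    (hw : G n c w = 0) (m : ℕ) (i : ℤ) :
    Dig n lh c (ζ + 2 * Real.pi * I * m) w i ↔ Dig n lh c ζ w (i + m) := by
  have h1 : G n c (F n c w) < ζ.re := by
    obtain ⟨-, -, hF, -, -, -, -, -⟩ := hG n hn
    rw [hF c w, hw, mul_zero]
    exact (crit_pos hn hG h).2
  have h2 := (lh_shift hL (fun ζ hζ => crit_per hn hG hΛ hζ) m ζ (F n c w) h h1).2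
  unfold Dig br
  rw [h2]
  have e : lh c ζ (F n c w) + 2 * Real.pi * I * m + 2 * Real.pi * I * (i : ℂ) =
      lh c ζ (F n c w) + 2 * Real.pi * I * ((i + m : ℤ) : ℂ) := by
    push_cast
    ring
  rw [e]

/-- two data whose logarithms differ by a nonnegative multiple of `2 π i` -/
lemma same_nat {n k : ℕ} (hn : 2 ≤ n) (hk : 1 ≤ k) (hG : T_GREEN) (hR : T_RINV) (hB : T_BR)
    {Λ : ℂ → ℂ → ℂ} (hΛ : IsBot n Λ) {lh ls : ℂ → ℂ → ℂ → ℂ} (hL : IsLog n Λ lh ls)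
    {c ζ z : ℂ} (h : Crit n Λ c ζ) (hz : ∀ j, G n c ((F n c)^[j] z) = 0) (m : ℕ) {ε ε' : ℕ → ℤ}
    (hd : ∀ j, Dig n lh c ζ ((F n c)^[j] z) (ε j))
    (hd' : ∀ j, Dig n lh c (ζ + 2 * Real.pi * I * m) ((F n c)^[j] z) (ε' j)) :
    lab n k ((ζ + 2 * Real.pi * I * m).im / (2 * Real.pi)) ε' =
      lab n k (ζ.im / (2 * Real.pi)) ε ∧
    (IsInt (Rot n k ((ζ + 2 * Real.pi * I * m).im / (2 * Real.pi)) ε') ↔
      IsInt (Rot n k (ζ.im / (2 * Real.pi)) ε)) := by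
  have hpi : (Real.pi : ℝ) ≠ 0 := Real.pi_ne_zero
  have e1 : (ζ + 2 * Real.pi * I * m).im / (2 * Real.pi) =
      ζ.im / (2 * Real.pi) + ((m : ℤ) : ℝ) := by
    have : (ζ + 2 * Real.pi * I * m).im = ζ.im + 2 * Real.pi * m := by simp
    rw [this]
    push_cast
    field_simp
  rw [e1]
  have h1 := shift hn hk hR (m : ℤ) (ζ.im / (2 * Real.pi)) ε'
  have h2 : ∀ j, (n : ℤ) ∣ ε j - (ε' j + (m : ℤ)) := by
    intro j
    have h3 := (dig_shift hn hG hΛ hL h (hz j) m (ε' j)).1 (hd' j)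
    have h4 := (hB n Λ lh ls c ζ hn hΛ hL h).2.2.2.2.1 ((F n c)^[j] z) (ε j) (ε' j + m)
      (by rw [hz j, mul_zero]; exact (crit_pos hn hG h).2) (hd j)
    exact h4.1 h3
  have h5 := (hR n k ε (ζ.im / (2 * Real.pi)) hn hk).2.1 (fun t => ε' t + (m : ℤ)) h2
  exact ⟨h1.1.trans h5.1, h1.2.trans h5.2⟩

/-- two data outside the Multibrot set -/
lemma same {n k : ℕ} (hn : 2 ≤ n) (hk : 1 ≤ k) (hG : T_GREEN) (hR : T_RINV) (hB : T_BR)
    {Λ : ℂ → ℂ → ℂ} (hΛ : IsBot n Λ) {lh ls : ℂ → ℂ → ℂ → ℂ} (hL : IsLog n Λ lh ls)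
    {c ζ ζ' z : ℂ} (h : Crit n Λ c ζ) (h' : Crit n Λ c ζ') (hz : ∀ j, G n c ((F n c)^[j] z) = 0)
    {ε ε' : ℕ → ℤ}
    (hd : ∀ j, Dig n lh c ζ ((F n c)^[j] z) (ε j))
    (hd' : ∀ j, Dig n lh c ζ' ((F n c)^[j] z) (ε' j)) :
    lab n k (ζ'.im / (2 * Real.pi)) ε' = lab n k (ζ.im / (2 * Real.pi)) ε ∧
    (IsInt (Rot n k (ζ'.im / (2 * Real.pi)) ε') ↔ IsInt (Rot n k (ζ.im / (2 * Real.pi)) ε)) := by
  obtain ⟨m, hm⟩ := hΛ.inj c ζ ζ' (crit_pos hn hG h).1 (crit_pos hn hG h').1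
    (h.2.2.trans h'.2.2.symm)
  rcases Int.eq_nat_or_neg m with ⟨a, rfl | rfl⟩
  · have e : ζ = ζ' + 2 * Real.pi * I * a := by
      have : ζ - ζ' = (a : ℂ) * (2 * Real.pi * I) := by
        rw [hm]
        push_cast
        ring
      linear_combination this
    subst e
    have h1 := same_nat (k := k) hn hk hG hR hB hΛ hL h' hz a hd' hd
    exact ⟨h1.1.symm, h1.2.symm⟩
  · have e : ζ' = ζ + 2 * Real.pi * I * a := by
      have : ζ - ζ' = -(a : ℂ) * (2 * Real.pi * I) := by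
        rw [hm]
        push_cast
        ring
      linear_combination -this
    subst e
    exact same_nat (k := k) hn hk hG hR hB hΛ hL h hz a hd hd'

end LU_

theorem p_LU (hG : T_GREEN) (hO : T_OMX) (hF : T_FIXE) (hB : T_BR) (hR : T_RINV) (hW : T_WL)
    (hD : T_BD) : T_LU := by
  intro n k Λ lh ls c z hn hk hΛ hL hz hrho
  obtain ⟨C, -, hO'⟩ := hO n hn
  by_cases hc : c ∈ MM n
  · -- inside
    obtain ⟨w, hw1, hw2, hw3, -⟩ := hO' k Λ c z hk hΛ hc hz hrho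
    have key : ∀ l, LabR n k Λ lh c z l → ∃ (α θ : ℝ) (q : ℕ) (ε : ℕ → ℤ), Ex n k q α ∧ 2 ≤ q ∧
        Lands Λ c α z ∧ Per k ε ∧ Cod n θ α ε ∧ lab n k θ ε = l := by
      rintro l (⟨ζ, ε, h1, -⟩ | ⟨-, h⟩)
      · exact absurd hc h1.1
      · exact h
    refine ⟨?_, ?_, ?_⟩
    · intro hZ
      have hw0 : w ≠ 1 := by
        rintro rfl
        exact hZ (Or.inl ⟨hc, hw1⟩)
      obtain ⟨α, q, v, h1, h2, h3, h4⟩ := hw1
      have hq : 2 ≤ q := by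
        have : q ≠ 1 := fun h => hw0 ((hw3 α q h1 h2).1 h)
        have := h1.1
        omega
      obtain ⟨θ, ε, g1, g2, -⟩ := hD n k q q Λ lh ls c z α α hn hk hΛ hL hc hz hrho h1 h1 h2 h2
      exact ⟨lab n k θ ε, Or.inr ⟨hc, α, θ, q, ε, h1, hq, h2, g1, g2, rfl⟩⟩
    · intro l l' hl hl'
      obtain ⟨α, θ, q, ε, h1, h2, h3, h4, h5, rfl⟩ := key l hl
      obtain ⟨α', θ', q', ε', h1', h2', h3', h4', h5', rfl⟩ := key l' hl'
      obtain ⟨θ'', ε'', g1, g2, g3⟩ :=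
        hD n k q q' Λ lh ls c z α α' hn hk hΛ hL hc hz hrho h1 h1' h3 h3'
      rw [hW n k q α θ θ'' ε ε'' hn hk h2 h1 h4 g1 h5 g2,
        hW n k q' α' θ' θ'' ε' ε'' hn hk h2' h1' h4' g1 h5' g3]
    · intro l hl hZ
      obtain ⟨α, θ, q, ε, h1, h2, h3, -⟩ := key l hl
      rcases hZ with ⟨-, hZ⟩ | ⟨ζ, ε, g1, -⟩
      · have := (hw3 α q h1 h3).2 (hw2 1 hZ).symm
        omega
      · exact g1.1 hc
  · -- outside
    obtain ⟨ζ, hζ1, hζ2⟩ := hΛ.surj c c (LU_.G0_lt hn hG hc)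
    have hζ : Crit n Λ c ζ := ⟨hc, hζ1, hζ2⟩
    have hfix := (hF n k Λ lh ls c ζ hn hk hΛ hL hζ).2
    have hz0 : ∀ j, G n c ((F n c)^[j] z) = 0 := by
      intro j
      refine (hfix _ ?_).2.1
      rw [← Function.iterate_add_apply, Nat.add_comm, Function.iterate_add_apply, hz]
    have key : ∀ l, LabR n k Λ lh c z l → ∃ (ζ : ℂ) (ε : ℕ → ℤ), Crit n Λ c ζ ∧ Per k ε ∧
        (∀ j, Dig n lh c ζ ((F n c)^[j] z) (ε j)) ∧ ¬ IsInt (Rot n k (ζ.im / (2 * Real.pi)) ε) ∧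
        lab n k (ζ.im / (2 * Real.pi)) ε = l := by
      rintro l (h | ⟨h, -⟩)
      · exact h
      · exact absurd h hc
    refine ⟨?_, ?_, ?_⟩
    · intro hZ
      obtain ⟨-, -, ε, h1, h2⟩ := hfix z hz
      refine ⟨_, Or.inl ⟨ζ, ε, hζ, h1, h2, ?_, rfl⟩⟩
      intro hI
      exact hZ (Or.inr ⟨ζ, ε, hζ, h1, h2, hI⟩)
    · intro l l' hl hl'
      obtain ⟨ζ1, ε1, h1, h2, h3, h4, rfl⟩ := key l hl
      obtain ⟨ζ2, ε2, g1, g2, g3, g4, rfl⟩ := key l' hl'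
      exact (LU_.same (k := k) hn hk hG hR hB hΛ hL h1 g1 hz0 h3 g3).1.symm
    · intro l hl hZ
      obtain ⟨ζ1, ε1, h1, h2, h3, h4, -⟩ := key l hl
      rcases hZ with ⟨hZ, -⟩ | ⟨ζ2, ε2, g1, g2, g3, g4⟩
      · exact hc hZ
      · exact h4 ((LU_.same (k := k) hn hk hG hR hB hΛ hL h1 g1 hz0 h3 g3).2.1 g4)

end Pool.Agent.PLim
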