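import Pool.Agent.PLim.Targets2

set_option autoImplicit false

open Complex Filter Topology Set MeasureTheory
open Pool.Agent.Multibrot Pool.Agent.Limb

namespace Pool.Agent.PLim

theorem p_NC (hONTO : T_ONTO) (hLU : T_LU) (hCNT : T_CNT) (hBOT : T_BOT) (hLOG : T_LOG) :
    T_NC := by
  intro n hn
  obtain ⟨C, hC0, hC⟩ := hONTO n hn
  refine ⟨C, hC0, ?_⟩
  intro k c0 z0 μ δ r zf hk hL hμ hV hder
  obtain ⟨Λ, hΛ⟩ := hBOT n hn
  obtain ⟨lh, ls, hlog⟩ := hLOG n Λ hn hΛ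
  have hfix0 : (F n c0)^[k] z0 = z0 := by
    have := hL.fix c0 (Metric.mem_ball_self hL.hδ)
    rwa [hL.zf0] at this
  have hnorm : 1 < ‖Complex.exp μ‖ := by
    rw [Complex.norm_exp]
    exact Real.one_lt_exp_iff.mpr hV.1
  have hne1 : Complex.exp μ ≠ 1 := by
    intro h
    rw [h, norm_one] at hnorm
    exact lt_irrefl _ hnorm
  have : NeZero n := ⟨by omega⟩
  have : NeZero (k * (n - 1)) := ⟨Nat.mul_ne_zero (by omega) (by omega)⟩
  have hex : ∀ l : Label n k, ∃ x : ℂ × ℂ, (F n x.1)^[k] x.2 = x.2 ∧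
      Rho n k x.1 x.2 = Complex.exp μ ∧ LabR n k Λ lh x.1 x.2 l := by
    intro l
    obtain ⟨c, z, h1, h2, h3⟩ := hC k Λ lh ls l μ hk hΛ hlog hV
    exact ⟨(c, z), h1, h2, h3⟩
  choose x hx1 hx2 hx3 using hex
  have hinj : Function.Injective x := by
    intro l l' hll
    refine (hLU n k Λ lh ls (x l).1 (x l).2 hn hk hΛ hlog (hx1 l) (by rw [hx2 l]; exact hnorm)).2.1
      l l' (hx3 l) ?_
    have := hx3 l'
    rwa [← hll] at this
  classical
  set S0 : Finset (ℂ × ℂ) := Finset.univ.image x with hS0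
  have hcard : S0.card = k * (n - 1) * n ^ (k - 1) := by
    rw [hS0, Finset.card_image_of_injective _ hinj, Finset.card_univ]
    show Fintype.card ((Fin (k - 1) → ZMod n) × ZMod (k * (n - 1))) = _
    rw [Fintype.card_prod, Fintype.card_fun, ZMod.card, ZMod.card, Fintype.card_fin, mul_comm]
  have hS0p : ∀ y ∈ S0, (F n y.1)^[k] y.2 = y.2 ∧ Rho n k y.1 y.2 = Complex.exp μ := by
    intro y hy
    obtain ⟨l, -, rfl⟩ := Finset.mem_image.mp hy
    exact ⟨hx1 l, hx2 l⟩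
  by_cases hmem : ((c0, z0) : ℂ × ℂ) ∈ S0
  · have h1 := (hCNT n k (Complex.exp μ) S0 hn hk hne1 hS0p).2 (c0, z0) hmem δ r zf hL hder
    rw [hcard] at h1
    omega
  · have h1 := (hCNT n k (Complex.exp μ) (insert (c0, z0) S0) hn hk hne1 (by
      intro y hy
      rcases Finset.mem_insert.mp hy with rfl | hy
      · exact ⟨hfix0, hμ⟩
      · exact hS0p y hy)).1
    rw [Finset.card_insert_of_notMem hmem, hcard] at h1
    omega

end Pool.Agent.PLim
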