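import Pool.Agent.PLim.Targets

/-!
# PLIM: NZ
-/

set_option autoImplicit false

open Complex Filter Topology Set
open Pool.Agent.Multibrot Pool.Agent.Limb

namespace Pool.Agent.PLim

namespace NZ_

/-- The position along the rotated curve. -/
noncomputable def sig (a b u : ℝ) : ℝ := b + (a - b) * max 0 (min 1 (3 * u - 1))

/-- The radial factor. -/
noncomputable def rad (u : ℝ) : ℝ := 1 / 2 + 1 / 2 * min 1 (3 * u) + max 0 (3 * u - 2)

lemma sig_cont (a b : ℝ) : Continuous (sig a b) := by
  unfold sig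
  fun_prop

lemma rad_cont : Continuous rad := by
  unfold rad
  fun_prop

lemma shift {B : ℝ} (hB : 0 < B) {l : ℝ → ℂ} {v : ℂ}
    (h : ∀ t : ℝ, 0 < t → l (B * t) = l t + v) (j : ℤ) :
    ∀ t : ℝ, 0 < t → l (B ^ j * t) = l t + j * v := by
  induction j using Int.induction_on with
  | zero => intro t _; simp
  | succ i ih =>
    intro t ht
    have h1 : (B : ℝ) ^ ((i : ℤ) + 1) * t = B * (B ^ (i : ℤ) * t) := by
      rw [zpow_add_one₀ hB.ne']
      ring
    rw [h1, h _ (by positivity), ih t ht]
    push_cast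
    ring
  | pred i ih =>
    intro t ht
    have h1 : (B : ℝ) ^ (-(i : ℤ)) * t = B * (B ^ (-(i : ℤ) - 1) * t) := by
      rw [zpow_sub_one₀ hB.ne']
      field_simp
    have h2 := h (B ^ (-(i : ℤ) - 1) * t) (by positivity)
    rw [← h1, ih t ht] at h2
    have h3 : l (B ^ (-(i : ℤ) - 1) * t) = l t + ((-(i : ℤ) : ℤ) : ℂ) * v - v := by
      rw [h2]
      ring
    rw [h3]
    push_cast
    ring

/-- A closed curve of winding number one meets its rotations. -/
lemma no_rotation (hW : T_WIND) (C ell : ℝ → ℂ) (om : ℂ) (hom : ‖om‖ = 1)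
    (hell : Continuous ell) (hC : ∀ s, exp (ell s) = C s) (h01 : C 0 = C 1)
    (hne : ∀ s t : ℝ, C s ≠ om * C t) : ell 1 = ell 0 := by
  have hCc : Continuous C := by
    have : C = fun s => exp (ell s) := by
      funext s
      exact (hC s).symm
    rw [this]
    exact Complex.continuous_exp.comp hell
  have hCn : ∀ s, 0 < ‖C s‖ := by
    intro s
    rw [← hC s]
    exact norm_pos_iff.2 (Complex.exp_ne_zero _)
  have hcomp : IsCompact (Icc (0 : ℝ) 1) := isCompact_Icc
  have hnem : (Icc (0 : ℝ) 1).Nonempty := ⟨0, by simp⟩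
  obtain ⟨sb, hsb, hmin⟩ := hcomp.exists_isMinOn hnem hCc.norm.continuousOn
  obtain ⟨sa, hsa, hmax⟩ := hcomp.exists_isMaxOn hnem hCc.norm.continuousOn
  have hmin' : ∀ s ∈ Icc (0 : ℝ) 1, ‖C sb‖ ≤ ‖C s‖ := fun s hs => hmin hs
  have hmax' : ∀ s ∈ Icc (0 : ℝ) 1, ‖C s‖ ≤ ‖C sa‖ := fun s hs => hmax hs
  have hPn : ∀ u, ‖((rad u : ℝ) : ℂ) * (om * C (sig sa sb u))‖ =
      |rad u| * ‖C (sig sa sb u)‖ := by
    intro u
    rw [norm_mul, norm_mul, hom, one_mul, Complex.norm_real, Real.norm_eq_abs]
  refine hW C (fun u => ((rad u : ℝ) : ℂ) * (om * C (sig sa sb u))) ell hCc.continuousOn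
    ?_ hell.continuousOn (fun s _ => hC s) h01 ?_ ?_ ?_
  · exact ((Complex.continuous_ofReal.comp rad_cont).mul
      (continuous_const.mul (hCc.comp (sig_cont sa sb)))).continuousOn
  · intro s hs u hu heq
    rcases lt_or_ge u (1 / 3) with h1 | h1
    · have e1 : rad u = 1 / 2 + 1 / 2 * (3 * u) := by
        unfold rad
        rw [min_eq_right (by linarith), max_eq_left (by linarith)]
        ring
      have e2 : sig sa sb u = sb := by
        unfold sig
        rw [max_eq_left ((min_le_right _ _).trans (by linarith))]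
        ring
      have e3 := hPn u
      rw [← heq, e1, e2, abs_of_nonneg (by linarith [hu.1])] at e3
      have e4 := hmin' s hs
      have e5 := hCn sb
      nlinarith
    · rcases le_or_gt u (2 / 3) with h2 | h2
      · have e1 : rad u = 1 := by
          unfold rad
          rw [min_eq_left (by linarith), max_eq_left (by linarith)]
          norm_num
        rw [e1] at heq
        apply hne s (sig sa sb u)
        rw [heq]
        simp
      · have e1 : rad u = 1 + (3 * u - 2) := by
          unfold rad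
          rw [min_eq_left (by linarith), max_eq_right (by linarith)]
          ring
        have e2 : sig sa sb u = sa := by
          unfold sig
          rw [min_eq_left (by linarith), max_eq_right (by norm_num)]
          ring
        have e3 := hPn u
        rw [← heq, e1, e2, abs_of_nonneg (by linarith)] at e3
        have e4 := hmax' s hs
        have e5 := hCn sa
        nlinarith
  · intro s hs
    have e1 : rad 0 = 1 / 2 := by
      unfold rad
      norm_num
    have e2 : sig sa sb 0 = sb := by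
      unfold sig
      norm_num
    have e3 := hPn 0
    rw [e1, e2, abs_of_nonneg (by norm_num)] at e3
    have e4 := hmin' s hs
    have e5 := hCn sb
    simp only [e1, e2]
    rw [e3]
    linarith
  · intro s hs
    have e1 : rad 1 = 2 := by
      unfold rad
      norm_num
    have e2 : sig sa sb 1 = sa := by
      unfold sig
      norm_num
    have e3 := hPn 1
    rw [e1, e2, abs_of_nonneg (by norm_num)] at e3
    have e4 := hmax' s hs
    have e5 := hCn sa
    simp only [e1, e2]
    rw [e3]
    linarith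

end NZ_

open NZ_

theorem p_NZ (h1 : T_CURV) (h2 : T_WIND) : T_NZ := by
  intro n k q Λ c z v α hn hk hΛ hc hex hq hland hfix hrep hdisp hexp
  obtain ⟨W, hWa, hinj⟩ := h1 n k Λ c z hn hk hΛ hc hfix hrep
  obtain ⟨hq1, hint, hmin⟩ := hex
  obtain ⟨-, hWne, -, hWN, hlandN, hl⟩ := hWa α q hq1 hint hland
  obtain ⟨l, hlc, hl2⟩ := hl v hdisp
  set lam := Rho n k c z with hlam
  set B : ℝ := (n : ℝ) ^ (k * q) with hB
  have hn0 : (0 : ℝ) < n := by
    have : 0 < n := by omega
    exact_mod_cast this
  have hB0 : 0 < B := by positivity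
  have hq0 : (q : ℂ) ≠ 0 := by
    have : q ≠ 0 := by omega
    exact_mod_cast this
  have hv : v ≠ 0 := by
    intro hv
    rw [hv, zero_div, Complex.exp_zero] at hexp
    rw [← hexp, norm_one] at hrep
    exact lt_irrefl _ hrep
  have hpi : (2 * (Real.pi : ℂ) * I) ≠ 0 := Complex.two_pi_I_ne_zero
  have hsh := NZ_.shift hB0 (fun t ht => (hl2 t ht).2)
  -- the key claim
  have hkey : ∀ t t' : ℝ, 0 < t → 0 < t' →
      exp (2 * Real.pi * I * l t' / v) ≠ exp (2 * Real.pi * I / q) *
        exp (2 * Real.pi * I * l t / v) := by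
    intro t t' ht ht' heq
    rw [← Complex.exp_add, Complex.exp_eq_exp_iff_exists_int] at heq
    obtain ⟨m, hm⟩ := heq
    have hlt : l t' = v / q + (l t + m * v) := by
      have e := congrArg (fun x => x * v / (2 * (Real.pi : ℂ) * I)) hm
      have e1 : 2 * (Real.pi : ℂ) * I * l t' / v * v / (2 * (Real.pi : ℂ) * I) = l t' := by
        field_simp
      have e2 : (2 * (Real.pi : ℂ) * I / q + 2 * (Real.pi : ℂ) * I * l t / v +
          m * (2 * (Real.pi : ℂ) * I)) * v / (2 * (Real.pi : ℂ) * I) =
          v / q + (l t + m * v) := by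
        field_simp
        ring
      rw [e1, e2] at e
      exact e
    have hW1 : W α t' = W ((n : ℝ) ^ k * α) ((n : ℝ) ^ k * (B ^ m * t)) := by
      rw [hWN _ (by positivity), ← (hl2 t' ht').1, ← (hl2 (B ^ m * t) (by positivity)).1,
        hsh m t ht, hlt, Complex.exp_add, hexp]
    have hintN : IsInt (((n : ℝ) ^ (k * q) - 1) * ((n : ℝ) ^ k * α)) := by
      obtain ⟨i, hi⟩ := hint
      refine ⟨(n : ℤ) ^ k * i, ?_⟩
      push_cast
      rw [← hi]
      ring
    have h3 := (hinj α ((n : ℝ) ^ k * α) t' ((n : ℝ) ^ k * (B ^ m * t)) q q hq1 hq1 hint hintN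
      hland hlandN ht' (by positivity) hW1).2
    obtain ⟨i, hi⟩ := h3
    apply hmin 1 le_rfl (by omega)
    refine ⟨-i, ?_⟩
    push_cast
    rw [← hi, mul_one]
    ring
  -- the closed curve
  have hBs : ∀ s : ℝ, 0 < B ^ s := fun s => Real.rpow_pos_of_pos hB0 s
  have hcont : Continuous fun s : ℝ => l (B ^ s) := by
    refine hlc.comp_continuous ?_ (fun s => hBs s)
    exact Real.continuous_const_rpow hB0.ne'
  have hfin := NZ_.no_rotation h2 (fun s => exp (2 * Real.pi * I * l (B ^ s) / v))
    (fun s => 2 * Real.pi * I * l (B ^ s) / v) (exp (2 * Real.pi * I / q)) (by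
      have : 2 * (Real.pi : ℂ) * I / q = ((2 * Real.pi / q : ℝ) : ℂ) * I := by
        push_cast
        ring
      rw [this, Complex.norm_exp_ofReal_mul_I])
    ((continuous_const.mul hcont).div_const v) (fun s => rfl) (by
      have e1 : l (B ^ (1 : ℝ)) = l (B ^ (0 : ℝ)) + v := by
        have := (hl2 1 one_pos).2
        rw [mul_one] at this
        rw [Real.rpow_one, Real.rpow_zero, this]
      rw [e1]
      have e2 : 2 * (Real.pi : ℂ) * I * (l (B ^ (0 : ℝ)) + v) / v =
          2 * (Real.pi : ℂ) * I * l (B ^ (0 : ℝ)) / v + 2 * (Real.pi : ℂ) * I := by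
        field_simp
      rw [e2, Complex.exp_add, Complex.exp_two_pi_mul_I, mul_one])
    (fun s t => hkey _ _ (hBs t) (hBs s))
  have e1 : l (B ^ (1 : ℝ)) = l (B ^ (0 : ℝ)) + v := by
    have := (hl2 1 one_pos).2
    rw [mul_one] at this
    rw [Real.rpow_one, Real.rpow_zero, this]
  rw [e1] at hfin
  have e2 : 2 * (Real.pi : ℂ) * I * (l (B ^ (0 : ℝ)) + v) / v =
      2 * (Real.pi : ℂ) * I * l (B ^ (0 : ℝ)) / v + 2 * (Real.pi : ℂ) * I := by
    field_simp
  rw [e2] at hfin
  apply hpi
  have := add_eq_left.1 hfin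
  exact this

end Pool.Agent.PLim
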