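import Mathlib
import Pool.Agent.PLim.CNT
import Pool.Agent.PLim.Targets2

set_option autoImplicit false

open Complex Filter Topology Set
open Pool.Agent.Multibrot Pool.Agent.Limb

namespace Pool.Agent.PLim

lemma ONTO_conn (κ : ℝ) (hκ : 0 < κ) : IsPreconnected (Vreg κ) := by
  have hpi := Real.pi_pos
  have h1 : Vreg κ = (fun p : ℝ × ℝ =>
      ((p.2 * (κ * (min p.1 (2 * Real.pi - p.1)) ^ 2) : ℝ) : ℂ) + (p.1 : ℂ) * I) ''
      (Ioo 0 (2 * Real.pi) ×ˢ Ioo 0 1) := by
    ext μ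
    constructor
    · rintro ⟨h1, h2, h3, h4⟩
      have hm : 0 < min μ.im (2 * Real.pi - μ.im) := lt_min h2 (by linarith)
      have hm2 : 0 < κ * (min μ.im (2 * Real.pi - μ.im)) ^ 2 := by positivity
      refine ⟨(μ.im, μ.re / (κ * (min μ.im (2 * Real.pi - μ.im)) ^ 2)), ⟨⟨h2, h3⟩, ?_, ?_⟩, ?_⟩
      · exact div_pos h1 hm2
      · exact (div_lt_one hm2).mpr h4
      · show ((μ.re / (κ * (min μ.im (2 * Real.pi - μ.im)) ^ 2) *
          (κ * (min μ.im (2 * Real.pi - μ.im)) ^ 2) : ℝ) : ℂ) + (μ.im : ℂ) * I = μ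
        rw [div_mul_cancel₀ _ hm2.ne']
        exact Complex.re_add_im μ
    · rintro ⟨⟨y, s⟩, ⟨⟨hy1, hy2⟩, hs1, hs2⟩, rfl⟩
      have hy1' : 0 < y := hy1
      have hy2' : y < 2 * Real.pi := hy2
      have hs1' : 0 < s := hs1
      have hs2' : s < 1 := hs2
      have hm : 0 < min y (2 * Real.pi - y) := lt_min hy1' (by linarith)
      have hm2 : 0 < κ * (min y (2 * Real.pi - y)) ^ 2 := by positivity
      have hre : (((s * (κ * (min y (2 * Real.pi - y)) ^ 2) : ℝ) : ℂ) + (y : ℂ) * I).re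
          = s * (κ * (min y (2 * Real.pi - y)) ^ 2) := by
        rw [add_re, ofReal_re, re_ofReal_mul, I_re, mul_zero, add_zero]
      have him : (((s * (κ * (min y (2 * Real.pi - y)) ^ 2) : ℝ) : ℂ) + (y : ℂ) * I).im
          = y := by
        rw [add_im, ofReal_im, im_ofReal_mul, I_im, mul_one, zero_add]
      refine ⟨?_, ?_, ?_, ?_⟩
      · show 0 < (((s * (κ * (min y (2 * Real.pi - y)) ^ 2) : ℝ) : ℂ) + (y : ℂ) * I).re
        rw [hre]; positivity
      · show 0 < (((s * (κ * (min y (2 * Real.pi - y)) ^ 2) : ℝ) : ℂ) + (y : ℂ) * I).im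
        rw [him]; exact hy1'
      · show (((s * (κ * (min y (2 * Real.pi - y)) ^ 2) : ℝ) : ℂ) + (y : ℂ) * I).im < _
        rw [him]; exact hy2'
      · show (((s * (κ * (min y (2 * Real.pi - y)) ^ 2) : ℝ) : ℂ) + (y : ℂ) * I).re <
          κ * (min (((s * (κ * (min y (2 * Real.pi - y)) ^ 2) : ℝ) : ℂ) + (y : ℂ) * I).im
            (2 * Real.pi - (((s * (κ * (min y (2 * Real.pi - y)) ^ 2) : ℝ) : ℂ)
              + (y : ℂ) * I).im)) ^ 2
        rw [hre, him]
        nlinarith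
  rw [h1]
  apply IsPreconnected.image
  · exact isPreconnected_Ioo.prod isPreconnected_Ioo
  · apply Continuous.continuousOn
    fun_prop

lemma ONTO_open' (κ : ℝ) : IsOpen {μ : ℂ | 0 < μ.im ∧ μ.im < 2 * Real.pi ∧
    μ.re < κ * (min μ.im (2 * Real.pi - μ.im)) ^ 2} := by
  apply IsOpen.inter (isOpen_lt continuous_const continuous_im)
  apply IsOpen.inter (isOpen_lt continuous_im continuous_const)
  exact isOpen_lt continuous_re (by fun_prop)

lemma ONTO_open (κ : ℝ) : IsOpen (Vreg κ) := by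
  have h1 : Vreg κ = {μ : ℂ | 0 < μ.re} ∩ {μ : ℂ | 0 < μ.im ∧ μ.im < 2 * Real.pi ∧
    μ.re < κ * (min μ.im (2 * Real.pi - μ.im)) ^ 2} := rfl
  rw [h1]
  exact (isOpen_lt continuous_const continuous_re).inter (ONTO_open' κ)

/-- the logarithm with imaginary part in `(0, 2 π)` -/
noncomputable def oL (ρ : ℂ) : ℂ := log (-ρ) + Real.pi * I

lemma oL_exp {ρ : ℂ} (h : ρ ≠ 0) : exp (oL ρ) = ρ := by
  unfold oL
  rw [Complex.exp_add, exp_log (neg_ne_zero.mpr h), exp_pi_mul_I]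
  ring

lemma oL_re (ρ : ℂ) : (oL ρ).re = Real.log ‖ρ‖ := by
  unfold oL
  rw [add_re, log_re, norm_neg, re_ofReal_mul, I_re, mul_zero, add_zero]

lemma oL_im (ρ : ℂ) : (oL ρ).im = arg (-ρ) + Real.pi := by
  unfold oL
  rw [add_im, log_im, im_ofReal_mul, I_im, mul_one]

lemma oL_cont {ρ : ℂ} (h : -ρ ∈ slitPlane) : ContinuousAt oL ρ := by
  unfold oL
  exact (ContinuousAt.clog continuous_neg.continuousAt h).add continuousAt_const

lemma oL_slit {ρ : ℂ} (h1 : ‖ρ‖ = 1) (h2 : ρ ≠ 1) : -ρ ∈ slitPlane := by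
  rw [mem_slitPlane_iff]
  by_cases him : ρ.im = 0
  · left
    have h3 : ρ = (ρ.re : ℂ) := by
      apply Complex.ext
      · rw [ofReal_re]
      · rw [ofReal_im]; exact him
    have h4 : |ρ.re| = 1 := by
      rw [h3, norm_real, Real.norm_eq_abs] at h1
      exact h1
    rw [neg_re]
    rcases abs_eq (by norm_num : (0 : ℝ) ≤ 1) |>.mp h4 with h5 | h5
    · exfalso
      apply h2
      rw [h3, h5]
      norm_num
    · rw [h5]; norm_num
  · right
    rw [neg_im]
    exact neg_ne_zero.mpr him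

theorem p_ONTO (hHITA : T_HITA) (hHITB : T_HITB) (hLOP : T_LOP) (hLU : T_LU) (hZV : T_ZV)
    (hCNT : T_CNT) (hLOCZ : T_LOCZ) (hBIG : T_BIG) : T_ONTO := by
  intro n hn
  obtain ⟨Cz, hCz, hZ⟩ := hZV n hn
  refine ⟨max Cz 10, lt_of_lt_of_le hCz (le_max_left _ _), ?_⟩
  intro k Λ lh ls l μ₁ hk hB hLg hμ₁
  have hpi := Real.pi_pos
  have hk1 : (1 : ℝ) ≤ k := by exact_mod_cast hk
  set C := max Cz 10 with hC
  have hC1 : Cz ≤ C := le_max_left _ _
  have hC2 : (10 : ℝ) ≤ C := le_max_right _ _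
  set κ : ℝ := 1 / (C * k) with hκ
  have hκ0 : 0 < κ := by positivity
  have hκ1 : κ ≤ 1 / 10 := by
    rw [hκ]
    apply one_div_le_one_div_of_le (by norm_num)
    nlinarith
  -- the real parts are less than one
  have hre1 : ∀ μ ∈ Vreg κ, μ.re < 1 := by
    rintro μ ⟨h1, h2, h3, h4⟩
    have h5 : min μ.im (2 * Real.pi - μ.im) ≤ Real.pi := by
      rcases le_total μ.im Real.pi with h | h
      · exact (min_le_left _ _).trans h
      · exact (min_le_right _ _).trans (by linarith)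
    have h6 : 0 < min μ.im (2 * Real.pi - μ.im) := lt_min h2 (by linarith)
    have h7 : (min μ.im (2 * Real.pi - μ.im)) ^ 2 ≤ Real.pi ^ 2 :=
      pow_le_pow_left₀ h6.le h5 2
    have h8 : Real.pi ^ 2 < 10 := by nlinarith [Real.pi_lt_d2, Real.pi_gt_three]
    have h9 : κ * (min μ.im (2 * Real.pi - μ.im)) ^ 2 ≤ 1 / 10 * Real.pi ^ 2 :=
      mul_le_mul hκ1 h7 (by positivity) (by norm_num)
    linarith
  have hnorm : ∀ μ : ℂ, ‖exp μ‖ = Real.exp μ.re := fun μ => Complex.norm_exp μ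
  have hgt1 : ∀ μ ∈ Vreg κ, 1 < ‖exp μ‖ := by
    intro μ hμ
    rw [hnorm]
    exact Real.one_lt_exp_iff.mpr hμ.1
  have hlt2 : ∀ μ ∈ Vreg κ, ‖exp μ‖ < Real.exp 1 := by
    intro μ hμ
    rw [hnorm]
    exact Real.exp_lt_exp.mpr (hre1 μ hμ)
  have hne1 : ∀ μ ∈ Vreg κ, exp μ ≠ 1 := by
    intro μ hμ h
    have := hgt1 μ hμ
    rw [h, norm_one] at this
    exact lt_irrefl _ this
  set S : Set ℂ := {μ : ℂ | μ ∈ Vreg κ ∧ ∃ c z : ℂ, (F n c)^[k] z = z ∧ Rho n k c z = exp μ ∧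
    LabR n k Λ lh c z l} with hS
  -- the set is open
  have hSo : IsOpen S := by
    rw [isOpen_iff_mem_nhds]
    rintro μ ⟨hμ, c, z, hF, hR, hL⟩
    have hgt : 1 < ‖Rho n k c z‖ := by rw [hR]; exact hgt1 μ hμ
    have hne : Rho n k c z ≠ 1 := by rw [hR]; exact hne1 μ hμ
    obtain ⟨δ0, hδ0, hlab⟩ := hLOP n k Λ lh ls c z l hn hk hB hLg hF hgt hL
    obtain ⟨δ, r, zf, hδR, hrR, hloc⟩ := hLOCZ n k c z δ0 hn hδ0 hF hne
    set g : ℂ → ℂ := fun c' => Rho n k c' (zf c') with hg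
    have hgd : DifferentiableOn ℂ g (Metric.ball c δ) := CNT_diffR n k zf _ hloc.diff
    have hball : Metric.ball c δ ∈ 𝓝 c := Metric.ball_mem_nhds c hloc.hδ
    have hga : AnalyticAt ℂ g c := hgd.analyticAt hball
    have hgc : g c = exp μ := by
      rw [hg]; show Rho n k c (zf c) = _
      rw [hloc.zf0, hR]
    rcases hga.eventually_constant_or_nhds_le_map_nhds with hcst | hopen
    · exfalso
      have h1 : {c' : ℂ | c' ∈ Metric.ball c δ ∧ g c' = exp μ} ∈ 𝓝 c := by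
        filter_upwards [hball, hcst] with c' h1 h2
        exact ⟨h1, h2.trans hgc⟩
      have h2 := infinite_of_mem_nhds c h1
      obtain ⟨t, ht1, ht2⟩ := h2.exists_subset_card_eq (k * (n - 1) * n ^ (k - 1) + 1)
      have h3 := (hCNT n k (exp μ) (t.image (fun c' => (c', zf c'))) hn hk (hne1 μ hμ)
        (by
          intro x hx
          obtain ⟨c', hc', rfl⟩ := Finset.mem_image.mp hx
          have h4 := ht1 hc'
          exact ⟨hloc.fix c' h4.1, h4.2⟩)).1
      rw [Finset.card_image_of_injective _ (fun a b hab => congrArg Prod.fst hab), ht2] at h3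
      omega
    · have h1 : g '' Metric.ball c δ ∈ 𝓝 (g c) := hopen (image_mem_map hball)
      rw [hgc] at h1
      have h2 : {μ' : ℂ | exp μ' ∈ g '' Metric.ball c δ} ∈ 𝓝 μ :=
        continuous_exp.continuousAt.preimage_mem_nhds h1
      filter_upwards [h2, (ONTO_open κ).mem_nhds hμ] with μ' h3 h4
      obtain ⟨c', hc', hgc'⟩ := h3
      have h5 : ‖c' - c‖ < δ0 := lt_of_lt_of_le (mem_ball_iff_norm.mp hc') hδR
      have h6 : ‖zf c' - z‖ < δ0 :=
        lt_of_lt_of_le (mem_ball_iff_norm.mp (hloc.mem c' hc')) hrR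
      exact ⟨h4, c', zf c', hloc.fix c' hc', hgc', hlab c' (zf c') h5 h6 (hloc.fix c' hc')⟩
  -- the set is closed in the region
  have hScl : closure S ∩ Vreg κ ⊆ S := by
    rintro μ ⟨hμc, hμ⟩
    obtain ⟨x, hxS, hx⟩ := mem_closure_iff_seq_limit.mp hμc
    have hxS' : ∀ j, ∃ p : ℂ × ℂ, (F n p.1)^[k] p.2 = p.2 ∧ Rho n k p.1 p.2 = exp (x j) ∧
        LabR n k Λ lh p.1 p.2 l := by
      intro j
      obtain ⟨-, c, z, h⟩ := hxS j
      exact ⟨(c, z), h⟩
    choose p hp1 hp2 hp3 using hxS'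
    have hK : IsCompact (Metric.closedBall (0 : ℂ) 16 ×ˢ Metric.closedBall (0 : ℂ) 18) :=
      (isCompact_closedBall _ _).prod (isCompact_closedBall _ _)
    have hpK : ∀ j, p j ∈ Metric.closedBall (0 : ℂ) 16 ×ˢ Metric.closedBall (0 : ℂ) 18 := by
      intro j
      have h1 : ‖(p j).1‖ < 16 := by
        by_contra h
        push Not at h
        have h2 := hBIG n k (p j).1 (p j).2 hn hk h (hp1 j)
        rw [hp2 j] at h2
        exact absurd (hlt2 _ (hxS j).1) (not_lt.mpr h2.le)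
      have h2 := CNT_root hn hk (hp1 j)
      refine ⟨?_, ?_⟩
      · rw [mem_closedBall_zero_iff]; exact h1.le
      · rw [mem_closedBall_zero_iff]; linarith
    obtain ⟨a, -, φ, hφ, ha⟩ := hK.tendsto_subseq hpK
    have hFa : (F n a.1)^[k] a.2 = a.2 := by
      have h1 := ((CNT_contI n k).tendsto a).comp ha
      have h2 := (continuous_snd.tendsto a).comp ha
      refine tendsto_nhds_unique h1 (h2.congr ?_)
      intro j
      exact (hp1 (φ j)).symm
    have hRa : Rho n k a.1 a.2 = exp μ := by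
      have h1 := ((CNT_contR n k).tendsto a).comp ha
      have h2 := ((continuous_exp.tendsto μ).comp hx).comp hφ.tendsto_atTop
      refine tendsto_nhds_unique h1 (h2.congr ?_)
      intro j
      exact (hp2 (φ j)).symm
    have hgt : 1 < ‖Rho n k a.1 a.2‖ := by rw [hRa]; exact hgt1 μ hμ
    have hnZ : ¬ InZ n k Λ lh a.1 a.2 := by
      intro hin
      obtain ⟨ν, hν1, hν2⟩ := hZ k Λ lh ls a.1 a.2 hk hB hLg hFa hgt
        (by rw [hRa]; exact (hlt2 μ hμ).le) hin
      rw [hRa, Complex.exp_eq_exp_iff_exists_int] at hν1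
      obtain ⟨m, hm⟩ := hν1
      obtain ⟨h1, h2, h3, h4⟩ := hμ
      have hcast : (m : ℂ) * (2 * Real.pi * I) = ((m * (2 * Real.pi) : ℝ) : ℂ) * I := by
        push_cast; ring
      rw [hcast] at hm
      have hνre : ν.re = μ.re := by
        rw [hm, add_re, re_ofReal_mul, I_re, mul_zero, add_zero]
      have hνim : ν.im = μ.im + m * (2 * Real.pi) := by
        rw [hm, add_im, im_ofReal_mul, I_im, mul_one]
      have h6 : 0 < min μ.im (2 * Real.pi - μ.im) := lt_min h2 (by linarith)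
      have h7 : min μ.im (2 * Real.pi - μ.im) ≤ |ν.im| := by
        rcases le_or_gt 0 m with h | h
        · have h8 : (0 : ℝ) ≤ m := by exact_mod_cast h
          refine (min_le_left _ _).trans (le_trans ?_ (le_abs_self _))
          rw [hνim]
          nlinarith
        · have h8 : (m : ℝ) ≤ -1 := by
            have : m ≤ -1 := by omega
            exact_mod_cast this
          refine (min_le_right _ _).trans (le_trans ?_ (neg_le_abs _))
          rw [hνim]
          nlinarith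
      have h8 : |ν.im| ≤ ‖ν‖ := abs_im_le_norm ν
      have h9 : (min μ.im (2 * Real.pi - μ.im)) ^ 2 ≤ ‖ν‖ ^ 2 :=
        pow_le_pow_left₀ h6.le (h7.trans h8) 2
      have h10 : (min μ.im (2 * Real.pi - μ.im)) ^ 2 ≤ Cz * k * μ.re := by
        rw [hνre] at hν2
        exact h9.trans hν2
      have h11 : Cz * k * μ.re ≤ C * k * μ.re := by
        apply mul_le_mul_of_nonneg_right _ h1.le
        exact mul_le_mul_of_nonneg_right hC1 (by linarith)
      have h12 : C * k * μ.re < C * k * (κ * (min μ.im (2 * Real.pi - μ.im)) ^ 2) :=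
        mul_lt_mul_of_pos_left h4 (by positivity)
      have h13 : C * k * (κ * (min μ.im (2 * Real.pi - μ.im)) ^ 2)
          = (min μ.im (2 * Real.pi - μ.im)) ^ 2 := by
        rw [hκ]
        have : C * (k : ℝ) ≠ 0 := by positivity
        field_simp
      linarith
    obtain ⟨hex, huniq, -⟩ := hLU n k Λ lh ls a.1 a.2 hn hk hB hLg hFa hgt
    obtain ⟨l', hl'⟩ := hex hnZ
    obtain ⟨δ0, hδ0, hlab⟩ := hLOP n k Λ lh ls a.1 a.2 l' hn hk hB hLg hFa hgt hl'
    have h1 : ∀ᶠ j in atTop, ‖((p ∘ φ) j).1 - a.1‖ < δ0 := by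
      have h2 := (continuous_fst.tendsto a).comp ha
      have h3 := h2.eventually (Metric.ball_mem_nhds a.1 hδ0)
      filter_upwards [h3] with j hj
      exact mem_ball_iff_norm.mp hj
    have h2 : ∀ᶠ j in atTop, ‖((p ∘ φ) j).2 - a.2‖ < δ0 := by
      have h2 := (continuous_snd.tendsto a).comp ha
      have h3 := h2.eventually (Metric.ball_mem_nhds a.2 hδ0)
      filter_upwards [h3] with j hj
      exact mem_ball_iff_norm.mp hj
    obtain ⟨j, hj1, hj2⟩ := (h1.and h2).exists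
    have h3 := hlab _ _ hj1 hj2 (hp1 (φ j))
    have h4 : 1 < ‖Rho n k ((p ∘ φ) j).1 ((p ∘ φ) j).2‖ := by
      show 1 < ‖Rho n k (p (φ j)).1 (p (φ j)).2‖
      rw [hp2 (φ j)]
      exact hgt1 _ (hxS (φ j)).1
    obtain ⟨-, huniq', -⟩ := hLU n k Λ lh ls ((p ∘ φ) j).1 ((p ∘ φ) j).2 hn hk hB hLg
      (hp1 (φ j)) h4
    have h5 : l' = l := huniq' l' l h3 (hp3 (φ j))
    rw [h5] at hl'
    exact ⟨hμ, a.1, a.2, hFa, hRa, hl'⟩
  -- the set is not empty
  have hSne : (Vreg κ ∩ S).Nonempty := by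
    have hacc : Acc n k Λ lh l := by
      rcases hHITA n k Λ lh ls l hn hk hB hLg with h | ⟨c0, z0, h1, h2, h3, h4⟩
      · exact h
      · exact hHITB n k Λ lh ls l c0 z0 hn hk hB hLg h1 h2 h3 h4
    obtain ⟨c, z, c0, z0, h1, h2, h3, h4, h5⟩ := hacc
    have hslit : -(Rho n k c0 z0) ∈ slitPlane := oL_slit h4 h5
    have h6 : Tendsto (fun j => Rho n k (c j) (z j)) atTop (𝓝 (Rho n k c0 z0)) :=
      ((CNT_contR n k).tendsto (c0, z0)).comp (h2.prodMk_nhds h3)
    have h7 : Tendsto (fun j => oL (Rho n k (c j) (z j))) atTop (𝓝 (oL (Rho n k c0 z0))) :=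
      (oL_cont hslit).tendsto.comp h6
    have h8 : oL (Rho n k c0 z0) ∈ {μ : ℂ | 0 < μ.im ∧ μ.im < 2 * Real.pi ∧
        μ.re < κ * (min μ.im (2 * Real.pi - μ.im)) ^ 2} := by
      have ha1 : (oL (Rho n k c0 z0)).re = 0 := by rw [oL_re, h4, Real.log_one]
      have ha2 : 0 < (oL (Rho n k c0 z0)).im := by
        rw [oL_im]
        linarith [neg_pi_lt_arg (-(Rho n k c0 z0))]
      have ha3 : (oL (Rho n k c0 z0)).im < 2 * Real.pi := by
        rw [oL_im]
        have ha4 : arg (-(Rho n k c0 z0)) < Real.pi :=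
          lt_of_le_of_ne (arg_le_pi _) (mem_slitPlane_iff_arg.mp hslit).1
        linarith
      refine ⟨ha2, ha3, ?_⟩
      rw [ha1]
      have : 0 < min (oL (Rho n k c0 z0)).im (2 * Real.pi - (oL (Rho n k c0 z0)).im) :=
        lt_min ha2 (by linarith)
      positivity
    obtain ⟨j, hj⟩ := (h7.eventually ((ONTO_open' κ).mem_nhds h8)).exists
    obtain ⟨hj1, hj2, hj3⟩ := h1 j
    have hre : 0 < (oL (Rho n k (c j) (z j))).re := by
      rw [oL_re]
      exact Real.log_pos hj2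
    have hne : Rho n k (c j) (z j) ≠ 0 := by
      intro h
      rw [h, norm_zero] at hj2
      linarith
    have hV : oL (Rho n k (c j) (z j)) ∈ Vreg κ := ⟨hre, hj⟩
    exact ⟨oL (Rho n k (c j) (z j)), hV, hV, c j, z j, hj1, (oL_exp hne).symm, hj3⟩
  have hsub := (ONTO_conn κ hκ0).subset_of_closure_inter_subset hSo hSne hScl
  obtain ⟨-, c, z, h⟩ := hsub hμ₁
  exact ⟨c, z, h⟩

end Pool.Agent.PLim
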