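import Pool.Agent.PLim.Targets

/-!
# OSG: Osgood's lemma
-/

set_option autoImplicit false

open Complex Filter Topology Set MeasureTheory
open Pool.Agent.Multibrot Pool.Agent.Limb

namespace Pool.Agent.PLim

namespace OSG_

theorem cont_deriv (f : ℂ → ℂ → ℂ) (U : Set (ℂ × ℂ)) (hU : IsOpen U)
    (hc : ContinuousOn (fun q : ℂ × ℂ => f q.1 q.2) U)
    (hd : ∀ q ∈ U, DifferentiableAt ℂ (f q.1) q.2) (q0 : ℂ × ℂ) (hq0 : q0 ∈ U) :
    ContinuousAt (fun q : ℂ × ℂ => deriv (f q.1) q.2) q0 := by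
  obtain ⟨c0, s0⟩ := q0
  -- a closed bidisc
  obtain ⟨R, hR, hRU⟩ := Metric.isOpen_iff.1 hU (c0, s0) hq0
  set r : ℝ := R / 4 with hr
  have hr0 : 0 < r := by positivity
  have hK : Metric.closedBall c0 (2 * r) ×ˢ Metric.closedBall s0 (2 * r) ⊆ U := by
    rintro ⟨c, s⟩ ⟨h1, h2⟩
    apply hRU
    rw [Metric.mem_ball, Prod.dist_eq, max_lt_iff]
    rw [Metric.mem_closedBall] at h1 h2
    simp only at h1 h2 ⊢
    constructor <;> linarith
  have hKc : IsCompact (Metric.closedBall c0 (2 * r) ×ˢ Metric.closedBall s0 (2 * r)) :=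
    (isCompact_closedBall _ _).prod (isCompact_closedBall _ _)
  have huc := hKc.uniformContinuousOn_of_continuous (hc.mono hK)
  rw [Metric.uniformContinuousOn_iff] at huc
  -- the slice
  have hsl : DifferentiableOn ℂ (f c0) (Metric.ball s0 (2 * r)) := by
    intro s hs
    exact (hd (c0, s) (hK ⟨Metric.mem_closedBall_self (by linarith),
      Metric.ball_subset_closedBall hs⟩)).differentiableWithinAt
  have hcs : ContinuousAt (deriv (f c0)) s0 := by
    have h1 := (hsl.deriv Metric.isOpen_ball).continuousOn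
    exact h1.continuousAt (Metric.isOpen_ball.mem_nhds (Metric.mem_ball_self (by linarith)))
  rw [Metric.continuousAt_iff] at hcs ⊢
  intro ε hε
  obtain ⟨δ1, hδ1, h1⟩ := hcs (ε / 2) (by linarith)
  obtain ⟨δ2, hδ2, h2⟩ := huc (ε / 4 * r) (by positivity)
  refine ⟨min (min δ1 δ2) r, by positivity, ?_⟩
  rintro ⟨c, s⟩ hq
  rw [Prod.dist_eq, max_lt_iff] at hq
  simp only at hq
  obtain ⟨hq1, hq2⟩ := hq
  have hc1 : dist c c0 < δ2 := lt_of_lt_of_le hq1 ((min_le_left _ _).trans (min_le_right _ _))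
  have hc2 : dist c c0 < r := lt_of_lt_of_le hq1 (min_le_right _ _)
  have hs1 : dist s s0 < δ1 := lt_of_lt_of_le hq2 ((min_le_left _ _).trans (min_le_left _ _))
  have hs2 : dist s s0 < r := lt_of_lt_of_le hq2 (min_le_right _ _)
  have hmem : ∀ w ∈ Metric.closedBall s r, w ∈ Metric.closedBall s0 (2 * r) := by
    intro w hw
    rw [Metric.mem_closedBall] at hw ⊢
    have := dist_triangle w s s0
    linarith
  have hdc : ∀ w ∈ Metric.closedBall s r, DifferentiableAt ℂ (f c) w := by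
    intro w hw
    exact hd (c, w) (hK ⟨by rw [Metric.mem_closedBall]; linarith, hmem w hw⟩)
  have hdc0 : ∀ w ∈ Metric.closedBall s r, DifferentiableAt ℂ (f c0) w := by
    intro w hw
    exact hd (c0, w) (hK ⟨Metric.mem_closedBall_self (by linarith), hmem w hw⟩)
  have hdiff : DiffContOnCl ℂ (fun w => f c w - f c0 w) (Metric.ball s r) := by
    apply DifferentiableOn.diffContOnCl
    rw [closure_ball _ hr0.ne']
    intro w hw
    exact ((hdc w hw).sub (hdc0 w hw)).differentiableWithinAt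
  have hb : ∀ w ∈ Metric.sphere s r, ‖f c w - f c0 w‖ ≤ ε / 4 * r := by
    intro w hw
    have hw' := Metric.sphere_subset_closedBall hw
    have h3 := h2 (c, w) ⟨by rw [Metric.mem_closedBall]; linarith, hmem w hw'⟩ (c0, w)
      ⟨Metric.mem_closedBall_self (by linarith), hmem w hw'⟩ (by
        rw [Prod.dist_eq, max_lt_iff]
        simp only [dist_self]
        exact ⟨hc1, hδ2⟩)
    rw [dist_eq_norm] at h3
    exact h3.le
  have h4 := Complex.norm_deriv_le_of_forall_mem_sphere_norm_le hr0 hdiff hb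
  have h5 : deriv (fun w => f c w - f c0 w) s = deriv (f c) s - deriv (f c0) s :=
    deriv_fun_sub (hdc s (Metric.mem_closedBall_self hr0.le))
      (hdc0 s (Metric.mem_closedBall_self hr0.le))
  rw [h5] at h4
  have h6 : ε / 4 * r / r = ε / 4 := by field_simp
  rw [h6] at h4
  have h7 := h1 hs1
  rw [dist_eq_norm] at h7 ⊢
  simp only
  have h8 : deriv (f c) s - deriv (f c0) s0 =
      (deriv (f c) s - deriv (f c0) s) + (deriv (f c0) s - deriv (f c0) s0) := by ring
  rw [h8]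
  have := norm_add_le (deriv (f c) s - deriv (f c0) s) (deriv (f c0) s - deriv (f c0) s0)
  linarith

end OSG_

open OSG_ in
/-- OSG -/
theorem p_OSG : T_OSG := by
  intro f U hU hc hd2 hd1 q hq
  set f1 : ℂ → ℂ → ℂ →L[ℂ] ℂ := fun c s =>
    (1 : ℂ →L[ℂ] ℂ).smulRight (deriv (fun c => f c s) c) with hf1
  set f2 : ℂ → ℂ → ℂ →L[ℂ] ℂ := fun c s =>
    (1 : ℂ →L[ℂ] ℂ).smulRight (deriv (f c) s) with hf2
  have hUn : ∀ᶠ v in 𝓝 q, v ∈ U := hU.mem_nhds hq
  have hA : ∀ᶠ v in 𝓝 q, HasFDerivAt (f · v.2) (Function.HasUncurry.uncurry f1 v) v.1 := by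
    filter_upwards [hUn] with v hv
    exact (hd1 v hv).hasDerivAt.hasFDerivAt
  have hB : ∀ᶠ v in 𝓝 q, HasFDerivAt (f v.1 ·) (Function.HasUncurry.uncurry f2 v) v.2 := by
    filter_upwards [hUn] with v hv
    exact (hd2 v hv).hasDerivAt.hasFDerivAt
  have hc2 : ContinuousAt (fun q : ℂ × ℂ => deriv (f q.1) q.2) q :=
    cont_deriv f U hU hc hd2 q hq
  have hc1 : ContinuousAt (fun q : ℂ × ℂ => deriv (fun c => f c q.2) q.1) q := by
    have h1 := cont_deriv (fun s c => f c s) (Prod.swap ⁻¹' U) (hU.preimage continuous_swap)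
      (by
        have h2 : ContinuousOn ((fun q : ℂ × ℂ => f q.1 q.2) ∘ Prod.swap) (Prod.swap ⁻¹' U) :=
          hc.comp continuous_swap.continuousOn (fun x hx => hx)
        exact h2)
      (fun p hp => hd1 p.swap hp) q.swap (by simpa using hq)
    have h3 : ContinuousAt ((fun q : ℂ × ℂ => deriv (fun c => f c q.1) q.2) ∘ Prod.swap) q :=
      ContinuousAt.comp h1 continuous_swap.continuousAt
    exact h3
  have hC1 : ContinuousAt (Function.HasUncurry.uncurry f1) q := by
    have h : ContinuousAt (fun q : ℂ × ℂ =>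
        (1 : ℂ →L[ℂ] ℂ).smulRight (deriv (fun c => f c q.2) q.1)) q :=
      ((ContinuousLinearMap.smulRightL ℂ ℂ ℂ (1 : ℂ →L[ℂ] ℂ)).continuous.continuousAt).comp hc1
    exact h
  have hC2 : ContinuousAt (Function.HasUncurry.uncurry f2) q := by
    have h : ContinuousAt (fun q : ℂ × ℂ =>
        (1 : ℂ →L[ℂ] ℂ).smulRight (deriv (f q.1) q.2)) q :=
      ((ContinuousLinearMap.smulRightL ℂ ℂ ℂ (1 : ℂ →L[ℂ] ℂ)).continuous.continuousAt).comp hc2
    exact h
  exact ⟨_, hasStrictFDerivAt_uncurry_coprod (f := f) hA hB hC1 hC2⟩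

end Pool.Agent.PLim

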