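import Mathlib
import Pool.Agent.PLim.Targets

/-!
# PAR: the parametrization of the exterior of the Multibrot set
-/

set_option autoImplicit false

open Complex Filter Topology Set
open Pool.Agent.Multibrot Pool.Agent.Limb

namespace Pool.Agent.PLim

theorem p_PAR (hPHI : T_PHI') (hDEG : T_DEG1) (hG : T_GREEN) : T_PAR := by
  intro n Λ hn hΛ
  obtain ⟨Φ, hΦd, hΦn, hΦc, C, R, hCR⟩ := hPHI n Λ hn hΛ
  obtain ⟨gcont, g0, gF, gL, gB, gM, gc, grot⟩ := hG n hn
  have hn0 : (0 : ℝ) < n := by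
    have : 0 < n := by omega
    exact_mod_cast this
  have c0 : Continuous (fun c : ℂ => ((c, (0 : ℂ)) : ℂ × ℂ)) := by fun_prop
  have c1 : Continuous (fun c : ℂ => ((c, c) : ℂ × ℂ)) := by fun_prop
  have hcont0 : Continuous fun c : ℂ => G n c 0 := by
    have h := Continuous.comp gcont c0
    simpa only [Function.comp_def] using h
  have hcontc : Continuous fun c : ℂ => G n c c := by
    have h := Continuous.comp gcont c1
    simpa only [Function.comp_def] using h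
  have hpos : ∀ c, c ∉ MM n → 0 < G n c c := by
    intro c hc
    have h1 : G n c 0 ≠ 0 := fun h => hc ((gM c).2 h)
    have h2 : 0 < G n c 0 := lt_of_le_of_ne (g0 c 0) (Ne.symm h1)
    rw [gc c]
    exact mul_pos hn0 h2
  have hzero : ∀ c, c ∈ MM n → G n c c = 0 := by
    intro c hc
    rw [gc c, (gM c).1 hc, mul_zero]
  have hclosed : IsClosed (MM n) := by
    have h : MM n = (fun c : ℂ => G n c 0) ⁻¹' {0} := by
      ext c
      exact gM c
    rw [h]
    exact isClosed_singleton.preimage hcont0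
  have hbdd : MM n ⊆ Metric.closedBall 0 3 := by
    intro c hc
    rw [Metric.mem_closedBall, dist_zero_right]
    by_contra h3
    push Not at h3
    have h1 : G n c (F n c c) = 0 := by rw [gF, hzero c hc, mul_zero]
    have h2 := gL c (F n c c)
    rw [h1, zero_sub, abs_neg, abs_of_nonneg Real.posLog_nonneg] at h2
    have h4 : Real.log ‖F n c c‖ ≤ Real.log (1 + ‖c‖) :=
      le_trans (le_max_right _ _) h2
    have h5 : ‖c‖ ^ n ≤ ‖F n c c‖ + ‖c‖ := by
      have h6 : c ^ n = F n c c - c := by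
        change c ^ n = c ^ n + c - c
        ring
      rw [← norm_pow, h6]
      exact norm_sub_le _ _
    have h6 : ‖c‖ ^ 2 ≤ ‖c‖ ^ n := pow_le_pow_right₀ (by linarith) hn
    have h7 : 0 < ‖F n c c‖ := by nlinarith
    have h8 : ‖F n c c‖ ≤ 1 + ‖c‖ := (Real.log_le_log_iff h7 (by linarith)).1 h4
    nlinarith
  have hK : IsCompact (MM n) := (isCompact_closedBall (0 : ℂ) 3).of_isClosed_subset hclosed hbdd
  have hone : ∀ c ∈ (MM n)ᶜ, 1 < ‖Φ c‖ := by
    intro c hc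
    rw [hΦn c hc]
    exact Real.one_lt_exp_iff.2 (hpos c hc)
  have hcl : ∀ ε : ℝ, 0 < ε → IsClosed {c | c ∉ MM n ∧ 1 + ε ≤ ‖Φ c‖} := by
    intro ε hε
    have h : {c | c ∉ MM n ∧ 1 + ε ≤ ‖Φ c‖} = {c | 1 + ε ≤ Real.exp (G n c c)} := by
      ext c
      simp only [mem_ofPred_eq]
      constructor
      · rintro ⟨h1, h2⟩
        rwa [hΦn c h1] at h2
      · intro h1
        have h2 : c ∉ MM n := by
          intro h3
          rw [hzero c h3, Real.exp_zero] at h1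
          linarith
        exact ⟨h2, by rw [hΦn c h2]; exact h1⟩
    rw [h]
    exact isClosed_le continuous_const (Real.continuous_exp.comp hcontc)
  obtain ⟨Ψ, hΨd, hΨ⟩ := hDEG (MM n) Φ hK hΦd hone hcl ⟨C, R, hCR⟩
  have hexp : ∀ ζ : ℂ, 0 < ζ.re → 1 < ‖exp ζ‖ := by
    intro ζ hζ
    rw [Complex.norm_exp]
    exact Real.one_lt_exp_iff.2 hζ
  obtain ⟨Cp, hCp⟩ : ∃ Cp : ℂ → ℂ, ∀ ζ, Cp ζ = Ψ (exp ζ) := ⟨fun ζ => Ψ (exp ζ), fun _ => rfl⟩
  refine ⟨Cp, ?_⟩
  unfold IsPar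
  refine ⟨?_, ?_, ?_⟩
  · have h1 : DifferentiableOn ℂ (fun ζ => Ψ (exp ζ)) {ζ : ℂ | 0 < ζ.re} :=
      hΨd.comp Complex.differentiable_exp.differentiableOn fun ζ hζ => hexp ζ hζ
    exact h1.congr fun ζ _ => hCp ζ
  · intro ζ hζ
    obtain ⟨h1, h2, _⟩ := hΨ (exp ζ) (hexp ζ hζ)
    rw [hCp ζ]
    exact (hΦc _ ζ h1).2 h2.symm
  · intro c ζ hc
    have hre : 0 < ζ.re := by
      rw [hc.2.1]
      exact hpos c hc.1
    refine ⟨hre, ?_⟩
    rw [hCp ζ]
    exact (hΨ (exp ζ) (hexp ζ hre)).2.2 c hc.1 ((hΦc c ζ hc.1).1 hc).symm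

end Pool.Agent.PLim
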