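import Pool.Agent.PLim.Targets
import Pool.Agent.Limb.LAND

/-!
# PLIM: PLY, the Pommerenke-Levin-Yoccoz inequality
-/

set_option autoImplicit false

open Complex Filter Topology Set MeasureTheory
open Pool.Agent.Multibrot Pool.Agent.Limb

namespace Pool.Agent.PLim

namespace PLY_

/-! ### logarithms -/

/-- a continuous logarithm of a differentiable function is differentiable -/
lemma diff_of_exp {g h : ℂ → ℂ} {s0 : ℂ} (hg : ContinuousAt g s0)
    (he : ∀ᶠ s in 𝓝 s0, exp (g s) = h s) (hh : DifferentiableAt ℂ h s0) :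
    DifferentiableAt ℂ g s0 := by
  have h0 : exp (g s0) = h s0 := he.self_of_nhds
  have hne : h s0 ≠ 0 := by rw [← h0]; exact exp_ne_zero _
  have h1 : ∀ᶠ s in 𝓝 s0, ‖g s - g s0‖ < 1 := by
    have := (Metric.tendsto_nhds.mp hg) 1 one_pos
    filter_upwards [this] with s hs
    rwa [← dist_eq_norm]
  have h2 : g =ᶠ[𝓝 s0] fun s => g s0 + log (h s / h s0) := by
    filter_upwards [h1, he] with s hs hes
    have h3 : |(g s - g s0).im| < 1 := (abs_im_le_norm _).trans_lt hs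
    have h4 := abs_lt.mp h3
    rw [← hes, ← h0, ← exp_sub, log_exp (by linarith [Real.pi_gt_three])
      (by linarith [Real.pi_gt_three])]
    ring
  refine DifferentiableAt.congr_of_eventuallyEq ?_ h2
  refine (DifferentiableAt.clog (hh.div_const _) ?_).const_add _
  rw [div_self hne]
  exact one_mem_slitPlane

lemma exists_log {U : Set ℂ} (hU : IsOpen U) (hc : Convex ℝ U) {g : ℂ → ℂ}
    (hg : DifferentiableOn ℂ g U) (h0 : ∀ x ∈ U, g x ≠ 0) :
    ∃ f : ℂ → ℂ, DifferentiableOn ℂ f U ∧ ∀ x ∈ U, exp (f x) = g x := by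
  rcases U.eq_empty_or_nonempty with rfl | hne
  · exact ⟨fun _ => 0, by simp, by simp⟩
  · have h1 : ContractibleSpace U := hc.contractibleSpace hne
    have h2 : IsSimplyConnected U := (inferInstance : SimplyConnectedSpace U)
    obtain ⟨f, hf1, hf2⟩ := exists_continuousOn_eqOn_exp_comp h2 hU hg.continuousOn
      (by rintro ⟨x, hx, hx0⟩; exact h0 x hx hx0)
    refine ⟨f, ?_, hf2⟩
    intro x hx
    refine (diff_of_exp (hf1.continuousAt (hU.mem_nhds hx)) ?_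
      (hg.differentiableAt (hU.mem_nhds hx))).differentiableWithinAt
    filter_upwards [hU.mem_nhds hx] with y hy
    exact hf2 hy

/-- a continuous function with constant exponential is constant -/
lemma const_of_exp {f : ℝ → ℂ} {S : Set ℝ} (hS : IsPreconnected S) (hf : ContinuousOn f S)
    (w : ℂ) (h : ∀ t ∈ S, exp (f t) = w) : ∀ s ∈ S, ∀ t ∈ S, f s = f t := by
  intro s hs t ht
  by_contra hne
  have key : ∀ u ∈ S, ∃ m : ℤ, ‖f u - f s‖ = 2 * Real.pi * |(m : ℝ)| := by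
    intro u hu
    obtain ⟨m, hm⟩ := Complex.exp_eq_exp_iff_exists_int.mp ((h u hu).trans (h s hs).symm)
    refine ⟨m, ?_⟩
    have : f u - f s = ((m * (2 * Real.pi) : ℝ) : ℂ) * I := by
      rw [hm]; push_cast; ring
    rw [this, norm_mul, norm_I, mul_one, norm_real, Real.norm_eq_abs, abs_mul,
      abs_of_pos Real.two_pi_pos]
    ring
  have hφ : ContinuousOn (fun u => ‖f u - f s‖) S := (hf.sub continuousOn_const).norm
  obtain ⟨m, hm⟩ := key t ht
  have hm0 : m ≠ 0 := by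
    rintro rfl
    rw [Int.cast_zero, abs_zero, mul_zero, norm_eq_zero, sub_eq_zero] at hm
    exact hne hm.symm
  have hm1 : (1 : ℝ) ≤ |(m : ℝ)| := by
    have := Int.one_le_abs hm0
    exact_mod_cast this
  have hmem : Real.pi ∈ Icc ‖f s - f s‖ ‖f t - f s‖ := by
    constructor
    · simp [Real.pi_pos.le]
    · rw [hm]
      nlinarith [Real.pi_pos]
  obtain ⟨u, hu, hu2⟩ := hS.intermediate_value hs ht hφ hmem
  obtain ⟨m', hm'⟩ := key u hu
  simp only at hu2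
  rw [hm'] at hu2
  have h3 : 2 * |(m' : ℝ)| = 1 := by
    have := Real.pi_pos
    field_simp at hu2
    linarith
  have h4 : 2 * |m'| = 1 := by exact_mod_cast h3
  omega

/-! ### the displacement -/

lemma disp_const {a T0 : ℝ} (ha : 1 ≤ a) (hT0 : 0 < T0) {ρ L L' : ℝ → ℂ} {z v lamq : ℂ}
    {κ : ℂ → ℂ} (hκ : HasDerivAt κ 1 z) (hκz : κ z = 0)
    (hρ : Tendsto ρ (𝓝[>] (0 : ℝ)) (𝓝 z)) (hL : ContinuousOn L (Ioo 0 T0))
    (hLe : ∀ t ∈ Ioo 0 T0, exp (L t) = κ (ρ t)) (hL' : ContinuousOn L' (Ioi 0))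
    (hLe' : ∀ t : ℝ, 0 < t → exp (L' t) = ρ t - z)
    (hlim : Tendsto (fun t => L' (a * t) - L' t) (𝓝[>] (0 : ℝ)) (𝓝 v))
    (hrel : ∀ᶠ t in 𝓝[>] (0 : ℝ), κ (ρ (a * t)) = lamq * κ (ρ t)) :
    exp v = lamq ∧ ∀ᶠ t in 𝓝[>] (0 : ℝ), L (a * t) - L t = v := by
  have ha0 : 0 < a := by linarith
  have hρne : ∀ t : ℝ, 0 < t → ρ t ≠ z := by
    intro t ht h
    have := hLe' t ht
    rw [h, sub_self] at this
    exact exp_ne_zero _ this
  have hρ2 : Tendsto ρ (𝓝[>] (0 : ℝ)) (𝓝[≠] z) := by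
    refine tendsto_nhdsWithin_iff.mpr ⟨hρ, ?_⟩
    filter_upwards [self_mem_nhdsWithin] with t ht
    exact hρne t ht
  have hIoo : Ioo 0 T0 ∈ 𝓝[>] (0 : ℝ) := Ioo_mem_nhdsGT hT0
  have hsl := hκ.tendsto_slope.comp hρ2
  have hD : Tendsto (fun t => exp (L t - L' t)) (𝓝[>] (0 : ℝ)) (𝓝 1) := by
    refine hsl.congr' ?_
    filter_upwards [hIoo] with t ht
    rw [Function.comp_apply, slope_def_field, hκz, sub_zero, exp_sub, hLe t ht, hLe' t ht.1]
  -- the difference of the logarithms converges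
  have hcontD : ContinuousOn (fun t => L t - L' t) (Ioo 0 T0) :=
    hL.sub (hL'.mono fun t ht => ht.1)
  obtain ⟨t1, ht1, ht1T, hnear⟩ : ∃ t1 : ℝ, 0 < t1 ∧ t1 ≤ T0 ∧
      ∀ t ∈ Ioo 0 t1, ‖exp (L t - L' t) - 1‖ < 1 / 2 := by
    have h1 : ∀ᶠ t in 𝓝[>] (0 : ℝ), ‖exp (L t - L' t) - 1‖ < 1 / 2 := by
      have := (Metric.tendsto_nhds.mp hD) (1 / 2) (by norm_num)
      filter_upwards [this] with t ht
      rwa [dist_eq_norm] at ht
    obtain ⟨u, hu, hu2⟩ := mem_nhdsGT_iff_exists_Ioo_subset.mp h1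
    refine ⟨min u T0, lt_min hu hT0, min_le_right _ _, ?_⟩
    intro t ht
    exact hu2 ⟨ht.1, ht.2.trans_le (min_le_left _ _)⟩
  have hslit : ∀ t ∈ Ioo 0 t1, exp (L t - L' t) ∈ slitPlane := by
    intro t ht
    have h1 := hnear t ht
    refine Or.inl ?_
    have h2 := (abs_re_le_norm (exp (L t - L' t) - 1)).trans_lt h1
    rw [sub_re, one_re] at h2
    have := (abs_lt.mp h2).1
    linarith
  have hsub1 : Ioo 0 t1 ⊆ Ioo 0 T0 := fun t ht => ⟨ht.1, ht.2.trans_le ht1T⟩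
  have hP : ContinuousOn (fun t => (L t - L' t) - log (exp (L t - L' t))) (Ioo 0 t1) := by
    refine (hcontD.mono hsub1).sub ?_
    refine ContinuousOn.clog ?_ hslit
    exact (hcontD.mono hsub1).cexp
  have hPc := const_of_exp (isPreconnected_Ioo) hP 1 (by
    intro t ht
    rw [exp_sub, exp_log (exp_ne_zero _), div_self (exp_ne_zero _)])
  have hmid : t1 / 2 ∈ Ioo 0 t1 := ⟨by linarith, by linarith⟩
  set p0 : ℂ := (L (t1 / 2) - L' (t1 / 2)) - log (exp (L (t1 / 2) - L' (t1 / 2))) with hp0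
  have hDlim : Tendsto (fun t => L t - L' t) (𝓝[>] (0 : ℝ)) (𝓝 p0) := by
    have h1 : Tendsto (fun t => p0 + log (exp (L t - L' t))) (𝓝[>] (0 : ℝ)) (𝓝 (p0 + log 1)) := by
      refine Tendsto.const_add _ ?_
      exact (continuousAt_clog one_mem_slitPlane).tendsto.comp hD
    rw [log_one, add_zero] at h1
    refine h1.congr' ?_
    filter_upwards [Ioo_mem_nhdsGT ht1] with t ht
    have := hPc t ht _ hmid
    rw [hp0, ← this]
    ring
  -- scaling
  have hscale : Tendsto (fun t : ℝ => a * t) (𝓝[>] (0 : ℝ)) (𝓝[>] (0 : ℝ)) := by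
    refine tendsto_nhdsWithin_iff.mpr ⟨?_, ?_⟩
    · have : Tendsto (fun t : ℝ => a * t) (𝓝 0) (𝓝 (a * 0)) :=
        (continuous_const.mul continuous_id).tendsto 0
      rw [mul_zero] at this
      exact this.mono_left nhdsWithin_le_nhds
    · filter_upwards [self_mem_nhdsWithin] with t ht
      exact mul_pos ha0 ht
  have hQ : Tendsto (fun t => L (a * t) - L t) (𝓝[>] (0 : ℝ)) (𝓝 v) := by
    have h1 := (hDlim.comp hscale).sub hDlim
    rw [sub_self] at h1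
    have h2 := hlim.add h1
    rw [add_zero] at h2
    refine h2.congr ?_
    intro t
    simp only [Function.comp_apply]
    ring
  have hIoo2 : ∀ᶠ t in 𝓝[>] (0 : ℝ), a * t ∈ Ioo 0 T0 := hscale hIoo
  have hexp : ∀ᶠ t in 𝓝[>] (0 : ℝ), exp (L (a * t) - L t) = lamq := by
    filter_upwards [hIoo, hIoo2, hrel] with t h1 h2 h3
    rw [exp_sub, hLe _ h2, hLe _ h1, h3, mul_div_assoc, div_self, mul_one]
    rw [← hLe _ h1]
    exact exp_ne_zero _
  have hv : exp v = lamq := by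
    have h1 : Tendsto (fun t => exp (L (a * t) - L t)) (𝓝[>] (0 : ℝ)) (𝓝 (exp v)) :=
      (continuous_exp.tendsto v).comp hQ
    refine tendsto_nhds_unique h1 (tendsto_const_nhds.congr' ?_)
    filter_upwards [hexp] with t ht
    exact ht.symm
  refine ⟨hv, ?_⟩
  obtain ⟨t2, ht2, ht2s⟩ := mem_nhdsGT_iff_exists_Ioo_subset.mp (hIoo2.and (hexp.and hIoo))
  have hQc : ContinuousOn (fun t => L (a * t) - L t) (Ioo 0 t2) := by
    refine ContinuousOn.sub ?_ ?_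
    · refine ContinuousOn.comp hL (continuousOn_const.mul continuousOn_id) ?_
      intro t ht
      exact (ht2s ht).1
    · exact hL.mono fun t ht => (ht2s ht).2.2
  have hcc := const_of_exp isPreconnected_Ioo hQc lamq (fun t ht => (ht2s ht).2.1)
  filter_upwards [Ioo_mem_nhdsGT ht2] with t ht
  refine tendsto_nhds_unique (tendsto_const_nhds.congr' ?_) hQ
  filter_upwards [Ioo_mem_nhdsGT ht2] with s hs
  exact hcc t ht s hs

/-! ### the local linearization -/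

structure Loc (n k : ℕ) (c z : ℂ) (r : ℝ) (lam : ℂ) (gi ka : ℂ → ℂ) : Prop where
  hr : 0 < r
  fix : (F n c)^[k] z = z
  inj : InjOn ((F n c)^[k]) (Metric.ball z r)
  gm : ∀ x ∈ Metric.ball z r, gi x ∈ Metric.ball z r
  ginv : ∀ x ∈ Metric.ball z r, (F n c)^[k] (gi x) = x
  kd : DifferentiableOn ℂ ka (Metric.ball z r)
  kinj : InjOn ka (Metric.ball z r)
  kz : ka z = 0
  kder : deriv ka z = 1
  kg : ∀ x ∈ Metric.ball z r, ka (gi x) * lam = ka x

section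
variable {n k : ℕ} {c z lam : ℂ} {r : ℝ} {gi ka : ℂ → ℂ}

lemma Loc.push (h : Loc n k c z r lam gi ka) {x : ℂ} (hx : x ∈ Metric.ball z r)
    (hFx : (F n c)^[k] x ∈ Metric.ball z r) : ka ((F n c)^[k] x) = lam * ka x := by
  have e : gi ((F n c)^[k] x) = x := h.inj (h.gm _ hFx) hx (h.ginv _ hFx)
  have := h.kg _ hFx
  rw [e] at this
  rw [← this, mul_comm]

lemma Loc.iter (h : Loc n k c z r lam gi ka) (j : ℕ) : ∀ x ∈ Metric.ball z r,
    gi^[j] x ∈ Metric.ball z r ∧ ((F n c)^[k])^[j] (gi^[j] x) = x ∧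
      ka (gi^[j] x) * lam ^ j = ka x := by
  induction j with
  | zero => intro x hx; exact ⟨hx, rfl, by simp⟩
  | succ j ih =>
    intro x hx
    obtain ⟨h1, h2, h3⟩ := ih x hx
    rw [Function.iterate_succ_apply' gi]
    refine ⟨h.gm _ h1, ?_, ?_⟩
    · rw [Function.iterate_succ_apply, h.ginv _ h1, h2]
    · rw [pow_succ', ← mul_assoc, h.kg _ h1, h3]

lemma Loc.eq_of (h : Loc n k c z r lam gi ka) (hl : lam ≠ 0) {x y : ℂ}
    (hx : x ∈ Metric.ball z r) (hy : y ∈ Metric.ball z r) (j : ℕ) (he : ka x = lam ^ j * ka y) :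
    ((F n c)^[k])^[j] y = x := by
  obtain ⟨h1, h2, h3⟩ := h.iter j x hx
  have h4 : ka (gi^[j] x) = ka y := by
    rw [he, mul_comm] at h3
    exact mul_left_cancel₀ (pow_ne_zero j hl) h3
  have h5 := h.kinj h1 hy h4
  rw [h5] at h2
  exact h2

lemma cont_F (n : ℕ) (c : ℂ) (k : ℕ) : Continuous ((F n c)^[k]) := by
  have : Continuous (F n c) := by
    unfold F
    fun_prop
  exact this.iterate k

lemma Loc.ray_push (h : Loc n k c z r lam gi ka) {ρ : ℝ → ℂ}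
    (hρ : Tendsto ρ (𝓝[>] (0 : ℝ)) (𝓝 z)) (q : ℕ) :
    ∀ᶠ t in 𝓝[>] (0 : ℝ), ((F n c)^[k])^[q] (ρ t) ∈ Metric.ball z r ∧
      ka (((F n c)^[k])^[q] (ρ t)) = lam ^ q * ka (ρ t) := by
  have hmem : ∀ q : ℕ, ∀ᶠ t in 𝓝[>] (0 : ℝ), ((F n c)^[k])^[q] (ρ t) ∈ Metric.ball z r := by
    intro q
    have h1 : Continuous (((F n c)^[k])^[q]) := (cont_F n c k).iterate q
    have h2 : ((F n c)^[k])^[q] z = z := Function.iterate_fixed h.fix q
    have h3 := (h1.tendsto z).comp hρ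
    rw [h2] at h3
    exact h3 (Metric.ball_mem_nhds z h.hr)
  induction q with
  | zero =>
    filter_upwards [hmem 0] with t ht
    exact ⟨ht, by simp⟩
  | succ q ih =>
    filter_upwards [ih, hmem (q + 1)] with t ht ht2
    refine ⟨ht2, ?_⟩
    rw [Function.iterate_succ_apply'] at ht2 ⊢
    rw [h.push ht.1 ht2, ht.2, pow_succ]
    ring

end

/-! ### arithmetic of the angle -/

lemma ex_int {n k q : ℕ} {α : ℝ} (h : IsInt (((n : ℝ) ^ (k * q) - 1) * α)) (a : ℕ) :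
    IsInt (((n : ℝ) ^ (k * (q * a)) - 1) * α) := by
  obtain ⟨m, hm⟩ := h
  induction a with
  | zero => exact ⟨0, by simp⟩
  | succ a ih =>
    obtain ⟨m', hm'⟩ := ih
    refine ⟨(n : ℤ) ^ (k * q) * m' + m, ?_⟩
    have e : (n : ℝ) ^ (k * (q * (a + 1))) = (n : ℝ) ^ (k * q) * (n : ℝ) ^ (k * (q * a)) := by
      rw [← pow_add]
      congr 1
      ring
    push_cast
    rw [← hm, ← hm', e]
    ring

lemma ex_dvd {n k q j : ℕ} {α : ℝ} (h : Ex n k q α) (hj : IsInt (((n : ℝ) ^ (k * j) - 1) * α)) :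
    q ∣ j := by
  obtain ⟨hq, h1, h2⟩ := h
  by_contra hnd
  have hb : 0 < j % q := Nat.pos_of_ne_zero fun h0 => hnd (Nat.dvd_of_mod_eq_zero h0)
  refine h2 (j % q) hb (Nat.mod_lt _ (by omega)) ?_
  obtain ⟨m, hm⟩ := hj
  obtain ⟨m', hm'⟩ := ex_int h1 (j / q)
  refine ⟨m - (n : ℤ) ^ (k * (j % q)) * m', ?_⟩
  have e : (n : ℝ) ^ (k * j) = (n : ℝ) ^ (k * (j % q)) * (n : ℝ) ^ (k * (q * (j / q))) := by
    rw [← pow_add, ← mul_add, Nat.mod_add_div]
  push_cast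
  rw [← hm, ← hm', e]
  ring

/-! ### counting -/

lemma pow_lt_exp {n : ℕ} (hn : 2 ≤ n) {a b : ℕ} (h : (n : ℝ) ^ a < 4 * n * (n : ℝ) ^ b) :
    a < b + 3 := by
  have h1 : (4 * n * (n : ℝ) ^ b) ≤ (n : ℝ) ^ (b + 3) := by
    have hn2 : (2 : ℝ) ≤ n := by exact_mod_cast hn
    have h2 : (0 : ℝ) ≤ (n : ℝ) ^ b := by positivity
    have h3 : (4 * n : ℝ) ≤ (n : ℝ) ^ 3 := by nlinarith [sq_nonneg ((n : ℝ) - 2)]
    calc (4 * n * (n : ℝ) ^ b) ≤ (n : ℝ) ^ 3 * (n : ℝ) ^ b := mul_le_mul_of_nonneg_right h3 h2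
      _ = (n : ℝ) ^ (b + 3) := by rw [pow_add]; ring
  have h4 : (n : ℝ) ^ a < (n : ℝ) ^ (b + 3) := lt_of_lt_of_le h h1
  have hn1 : (1 : ℝ) < n := by exact_mod_cast (by omega : 1 < n)
  exact (pow_lt_pow_iff_right₀ hn1).mp h4

lemma count {n k q : ℕ} (hn : 2 ≤ n)
    (P : Finset (Fin (k * q) × ℤ)) (x : Fin (k * q) × ℤ → ℝ) {T : ℝ} (hT : 0 < T)
    (h1 : ∀ p ∈ P, (n : ℝ) ^ (p.1 : ℕ) * T / 2 < x p ∧ x p < 2 * n * ((n : ℝ) ^ (p.1 : ℕ) * T))
    (h2 : ∀ p ∈ P, ∀ p' ∈ P, p'.2 ≤ p.2 → ∃ a : ℕ, p.2 - p'.2 = ((q * a : ℕ) : ℤ) ∧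
      x p = (n : ℝ) ^ (k * (q * a)) * x p') : P.card ≤ 4 := by
  classical
  set s : Fin (k * q) × ℤ → ℤ := fun p => ((p.1 : ℕ) : ℤ) - k * p.2 with hs
  have hn0 : (0 : ℝ) < n := by exact_mod_cast (by omega : 0 < n)
  have key : ∀ p ∈ P, ∀ p' ∈ P, p'.2 ≤ p.2 → s p - s p' ≤ 2 ∧ s p' - s p ≤ 2 ∧
      (s p = s p' → p = p') := by
    intro p hp p' hp' hle
    obtain ⟨a, ha, hx⟩ := h2 p hp p' hp' hle
    obtain ⟨b1, b2⟩ := h1 p hp
    obtain ⟨b1', b2'⟩ := h1 p' hp'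
    set e : ℕ := k * (q * a) with he
    have hpe : (0 : ℝ) < (n : ℝ) ^ e := by positivity
    have hsp : s p - s p' = ((p.1 : ℕ) : ℤ) - ((p'.1 : ℕ) : ℤ) - (e : ℤ) := by
      simp only [hs, he]
      push_cast
      push_cast at ha
      have : (k : ℤ) * p.2 - k * p'.2 = k * (q * a) := by rw [← mul_sub, ha]
      linarith
    have c1 : (p.1 : ℕ) < (e + (p'.1 : ℕ)) + 3 := by
      apply pow_lt_exp hn
      rw [hx] at b1
      have : (n : ℝ) ^ e * x p' < (n : ℝ) ^ e * (2 * n * ((n : ℝ) ^ (p'.1 : ℕ) * T)) :=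
        mul_lt_mul_of_pos_left b2' hpe
      have h3 : (n : ℝ) ^ (p.1 : ℕ) * T < 4 * n * (n : ℝ) ^ (e + (p'.1 : ℕ)) * T := by
        rw [pow_add]
        nlinarith
      exact lt_of_mul_lt_mul_right h3 hT.le
    have c2 : (e + (p'.1 : ℕ)) < (p.1 : ℕ) + 3 := by
      apply pow_lt_exp hn
      rw [hx] at b2
      have : (n : ℝ) ^ e * ((n : ℝ) ^ (p'.1 : ℕ) * T / 2) < (n : ℝ) ^ e * x p' :=
        mul_lt_mul_of_pos_left b1' hpe
      have h3 : (n : ℝ) ^ (e + (p'.1 : ℕ)) * T < 4 * n * (n : ℝ) ^ (p.1 : ℕ) * T := by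
        rw [pow_add]
        nlinarith
      exact lt_of_mul_lt_mul_right h3 hT.le
    refine ⟨by omega, by omega, ?_⟩
    intro heq
    have h4 : ((p.1 : ℕ) : ℤ) - ((p'.1 : ℕ) : ℤ) - (e : ℤ) = 0 := by rw [← hsp, heq, sub_self]
    have h5 := p.1.2
    have h6 := p'.1.2
    have ha0 : a = 0 := by
      by_contra hane
      have : k * q ≤ e := by
        rw [he, ← mul_assoc]
        exact Nat.le_mul_of_pos_right _ (Nat.pos_of_ne_zero hane)
      omega
    subst ha0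
    have he0 : e = 0 := by simp [he]
    refine Prod.ext (Fin.ext ?_) ?_
    · omega
    · have : p.2 - p'.2 = 0 := by rw [ha]; simp
      linarith
  have hinj : Set.InjOn s (P : Set (Fin (k * q) × ℤ)) := by
    intro p hp p' hp' heq
    rcases le_total p'.2 p.2 with h | h
    · exact (key p hp p' hp' h).2.2 heq
    · exact ((key p' hp' p hp h).2.2 heq.symm).symm
  rcases P.eq_empty_or_nonempty with rfl | hne
  · simp
  obtain ⟨p0, hp0, hmin⟩ := P.exists_min_image s hne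
  have hsub : P.image s ⊆ Finset.Icc (s p0) (s p0 + 2) := by
    intro y hy
    obtain ⟨p, hp, rfl⟩ := Finset.mem_image.mp hy
    rw [Finset.mem_Icc]
    refine ⟨hmin p hp, ?_⟩
    rcases le_total p0.2 p.2 with h | h
    · have := (key p hp p0 hp0 h).1
      linarith
    · have := (key p0 hp0 p hp h).2.1
      linarith
  have h7 := Finset.card_le_card hsub
  rw [Finset.card_image_of_injOn hinj, Int.card_Icc] at h7
  omega

/-! ### wedges -/

/-- A truncated wedge. -/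
def Wd (y a b : ℝ) : Set ℂ := {ξ : ℂ | a < ξ.re ∧ ξ.re < b ∧ |ξ.im - y| < ξ.re}

lemma isOpen_Wd (y a b : ℝ) : IsOpen (Wd y a b) := by
  have h1 : IsOpen {ξ : ℂ | a < ξ.re} := isOpen_lt continuous_const continuous_re
  have h2 : IsOpen {ξ : ℂ | ξ.re < b} := isOpen_lt continuous_re continuous_const
  have h3 : IsOpen {ξ : ℂ | |ξ.im - y| < ξ.re} :=
    isOpen_lt (continuous_im.sub continuous_const).abs continuous_re
  exact h1.inter (h2.inter h3)

lemma convex_Wd (y a b : ℝ) : Convex ℝ (Wd y a b) := by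
  intro ξ hξ ζ hζ s t hs ht hst
  obtain ⟨h1, h2, h3⟩ := hξ
  obtain ⟨g1, g2, g3⟩ := hζ
  have e1 : (s • ξ + t • ζ).re = s * ξ.re + t * ζ.re := by simp
  have e2 : (s • ξ + t • ζ).im = s * ξ.im + t * ζ.im := by simp
  rw [abs_lt] at h3 g3
  have ht' : t = 1 - s := by linarith
  subst ht'
  refine ⟨?_, ?_, ?_⟩
  · rw [e1]; rcases hs.eq_or_lt with rfl | hs'
    · simpa using g1
    · nlinarith
  · rw [e1]; rcases hs.eq_or_lt with rfl | hs'
    · simpa using g2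
    · nlinarith
  · rw [e1, e2, abs_lt]
    rcases hs.eq_or_lt with rfl | hs'
    · constructor
      · linarith [g3.1]
      · linarith [g3.2]
    · constructor
      · nlinarith [g3.1, h3.1]
      · nlinarith [g3.2, h3.2]

lemma re_pt (t y : ℝ) : ((t : ℂ) + y * I).re = t := by simp

lemma im_pt (t y : ℝ) : ((t : ℂ) + y * I).im = y := by simp

lemma pt_mem {y b t : ℝ} (h0 : 0 < t) (hb : t < b) : (t : ℂ) + y * I ∈ Wd y 0 b := by
  refine ⟨?_, ?_, ?_⟩
  · rw [re_pt]; exact h0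
  · rw [re_pt]; exact hb
  · rw [re_pt, im_pt, sub_self, abs_zero]; exact h0

lemma ray_eq (Λ : ℂ → ℂ → ℂ) (c : ℂ) (α t : ℝ) :
    ray Λ c α t = exp (Λ c ((t : ℂ) + ((2 * Real.pi * α : ℝ) : ℂ) * I)) := by
  rw [ray]
  congr 2
  push_cast
  ring

lemma wedge_mem (hA : T_AREA) {n : ℕ} (hn : 2 ≤ n) {Λ : ℂ → ℂ → ℂ} (hE : IsExt n Λ) {c : ℂ}
    (hc : c ∈ MM n) {α : ℝ} {z : ℂ} (hland : Lands Λ c α z) {r : ℝ} (hr : 0 < r) :
    ∃ T0 : ℝ, 0 < T0 ∧ ∀ ξ ∈ Wd (2 * Real.pi * α) 0 T0, exp (Λ c ξ) ∈ Metric.ball z r := by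
  obtain ⟨δ, hδ, hd⟩ := hA n hn Λ hE c hc (r / 2) (by linarith)
  have h1 : ∀ᶠ t in 𝓝[>] (0 : ℝ), ray Λ c α t ∈ Metric.ball z (r / 2) :=
    hland (Metric.ball_mem_nhds z (by linarith))
  obtain ⟨u, hu, hu2⟩ := mem_nhdsGT_iff_exists_Ioo_subset.mp h1
  refine ⟨min δ u, lt_min hδ hu, ?_⟩
  rintro ξ ⟨hξ0, hξ1, hξ2⟩
  have hx1 : ξ.re < δ := hξ1.trans_le (min_le_left _ _)
  have hx2 : ξ.re < u := hξ1.trans_le (min_le_right _ _)
  have hray := hu2 (show ξ.re ∈ Ioo 0 u from ⟨hξ0, hx2⟩)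
  have hray : ray Λ c α ξ.re ∈ Metric.ball z (r / 2) := hray
  rw [ray_eq] at hray
  set ξ0 : ℂ := (ξ.re : ℂ) + ((2 * Real.pi * α : ℝ) : ℂ) * I with hξ0def
  have hre0 : ξ0.re = ξ.re := re_pt _ _
  have him0 : ξ0.im = 2 * Real.pi * α := im_pt _ _
  set S : Set ℂ := {s : ℂ | s.re = ξ.re} with hS
  have hSc : Convex ℝ S := by
    intro a ha b hb s t hs ht hst
    have ha' : a.re = ξ.re := ha
    have hb' : b.re = ξ.re := hb
    show (s • a + t • b).re = ξ.re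
    have : (s • a + t • b).re = s * a.re + t * b.re := by simp
    rw [this, ha', hb', ← add_mul, hst, one_mul]
  have hdiff : ∀ s ∈ S, DifferentiableAt ℂ (fun s => exp (Λ c s)) s := by
    intro s hs
    have hs' : s.re = ξ.re := hs
    have h3 : DifferentiableAt ℂ (Λ c) s :=
      (hE.diff c hc).differentiableAt ((isOpen_lt continuous_const continuous_re).mem_nhds
        (by show (0 : ℝ) < s.re; rw [hs']; exact hξ0))
    exact h3.cexp
  have hbound : ∀ s ∈ S, ‖deriv (fun s => exp (Λ c s)) s‖ ≤ r / 2 / ξ.re := by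
    intro s hs
    have hs' : s.re = ξ.re := hs
    have := hd s (by rw [hs']; exact hξ0) (by rw [hs']; exact hx1)
    rw [hs'] at this
    rw [le_div_iff₀ hξ0]
    exact this
  have hmv := hSc.norm_image_sub_le_of_norm_deriv_le hdiff hbound (x := ξ0) (y := ξ) hre0 rfl
  have hnorm : ‖ξ - ξ0‖ = |ξ.im - 2 * Real.pi * α| := by
    have : ξ - ξ0 = ((ξ.im - 2 * Real.pi * α : ℝ) : ℂ) * I := by
      apply Complex.ext
      · rw [sub_re, hre0]; simp
      · rw [sub_im, him0]; simp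
    rw [this, norm_mul, norm_I, mul_one, norm_real, Real.norm_eq_abs]
  rw [hnorm] at hmv
  have h5 : r / 2 / ξ.re * |ξ.im - 2 * Real.pi * α| ≤ r / 2 := by
    rw [div_mul_eq_mul_div, div_le_iff₀ hξ0]
    exact mul_le_mul_of_nonneg_left hξ2.le (by linarith)
  rw [Metric.mem_ball, dist_eq_norm] at hray ⊢
  calc ‖exp (Λ c ξ) - z‖ = ‖(exp (Λ c ξ) - exp (Λ c ξ0)) + (exp (Λ c ξ0) - z)‖ := by
        congr 1; ring
    _ ≤ ‖exp (Λ c ξ) - exp (Λ c ξ0)‖ + ‖exp (Λ c ξ0) - z‖ := norm_add_le _ _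
    _ < r / 2 + r / 2 := by
        have h6 : ‖exp (Λ c ξ) - exp (Λ c ξ0)‖ ≤ r / 2 := hmv.trans h5
        linarith
    _ = r := by ring

/-- the relation between two points of the wedge with the same image in the torus -/
lemma rel {n k : ℕ} (hn : 2 ≤ n) {Λ : ℂ → ℂ → ℂ} (hE : IsExt n Λ) {c z lam : ℂ} {r : ℝ}
    {gi ka : ℂ → ℂ} (hc : c ∈ MM n) (h : Loc n k c z r lam gi ka) (hl : lam ≠ 0) {ξ1 ξ2 : ℂ}
    (h1 : 0 < ξ1.re) (h2 : 0 < ξ2.re) (m1 : exp (Λ c ξ1) ∈ Metric.ball z r)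
    (m2 : exp (Λ c ξ2) ∈ Metric.ball z r) (j : ℕ)
    (he : ka (exp (Λ c ξ1)) = lam ^ j * ka (exp (Λ c ξ2))) :
    ∃ b : ℤ, ξ1.re = (n : ℝ) ^ (k * j) * ξ2.re ∧
      (n : ℝ) ^ (k * j) * ξ2.im = ξ1.im + b * (2 * Real.pi) := by
  have h3 := h.eq_of hl m1 m2 j he
  rw [← Function.iterate_mul, LAND_.iter_exp hn hE hc _ _ h2] at h3
  have hn0 : (0 : ℝ) < n := by exact_mod_cast (by omega : 0 < n)
  have e0 : ((n : ℂ) ^ (k * j) * ξ2) = (((n : ℝ) ^ (k * j) : ℝ) : ℂ) * ξ2 := by push_cast; ring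
  have ere : ((n : ℂ) ^ (k * j) * ξ2).re = (n : ℝ) ^ (k * j) * ξ2.re := by
    rw [e0, re_ofReal_mul]
  have eim : ((n : ℂ) ^ (k * j) * ξ2).im = (n : ℝ) ^ (k * j) * ξ2.im := by
    rw [e0, im_ofReal_mul]
  obtain ⟨b, hb⟩ := hE.inj c hc _ _ (by rw [ere]; positivity) h1 h3
  refine ⟨b, ?_, ?_⟩
  · have h4 := congrArg Complex.re hb
    rw [sub_re, ere] at h4
    have : ((b : ℂ) * (2 * Real.pi * I)).re = 0 := by
      have e : (b : ℂ) * (2 * Real.pi * I) = ((b * (2 * Real.pi) : ℝ) : ℂ) * I := by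
        push_cast; ring
      rw [e, re_ofReal_mul]; simp
    rw [this] at h4
    linarith
  · have h4 := congrArg Complex.im hb
    rw [sub_im, eim] at h4
    have : ((b : ℂ) * (2 * Real.pi * I)).im = b * (2 * Real.pi) := by
      have e : (b : ℂ) * (2 * Real.pi * I) = ((b * (2 * Real.pi) : ℝ) : ℂ) * I := by
        push_cast; ring
      rw [e, im_ofReal_mul]; simp
    rw [this] at h4
    linarith

lemma angle {n k q j : ℕ} (hn : 2 ≤ n) {α T0 : ℝ} (hEx : Ex n k q α)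
    (hT : T0 * (n : ℝ) ^ (k * q) ≤ Real.pi) (hT0 : 0 < T0) {ξ1 ξ2 : ℂ}
    (h1 : ξ1 ∈ Wd (2 * Real.pi * α) 0 T0) (h2 : ξ2 ∈ Wd (2 * Real.pi * α) 0 T0) {b : ℤ}
    (hre : ξ1.re = (n : ℝ) ^ (k * j) * ξ2.re)
    (him : (n : ℝ) ^ (k * j) * ξ2.im = ξ1.im + b * (2 * Real.pi)) : q ∣ j := by
  apply ex_dvd hEx
  obtain ⟨-, a2, a3⟩ := h1
  obtain ⟨-, b2, b3⟩ := h2
  have hn0 : (0 : ℝ) < n := by exact_mod_cast (by omega : 0 < n)
  set A : ℝ := (n : ℝ) ^ (k * j) with hA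
  have hA0 : 0 < A := by positivity
  set R : ℝ := (n : ℝ) ^ (k * q) with hR
  have hR1 : 1 ≤ R := one_le_pow₀ (by exact_mod_cast (by omega : 1 ≤ n))
  obtain ⟨m, hm⟩ := hEx.2.1
  have hpi := Real.pi_pos
  -- the distance to the integer `b`
  have key : |(A - 1) * α - b| < T0 / Real.pi := by
    have e1 : 2 * Real.pi * ((A - 1) * α - b) =
        A * (2 * Real.pi * α - ξ2.im) - (2 * Real.pi * α - ξ1.im) := by
      have : A * ξ2.im = ξ1.im + b * (2 * Real.pi) := him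
      linear_combination this
    have e2 : |2 * Real.pi * ((A - 1) * α - b)| < 2 * T0 := by
      rw [e1]
      have c1 : |A * (2 * Real.pi * α - ξ2.im)| ≤ A * ξ2.re := by
        rw [abs_mul, abs_of_pos hA0, abs_sub_comm]
        exact mul_le_mul_of_nonneg_left b3.le hA0.le
      have c2 : |2 * Real.pi * α - ξ1.im| < ξ1.re := by rw [abs_sub_comm]; exact a3
      have c3 := abs_sub (A * (2 * Real.pi * α - ξ2.im)) (2 * Real.pi * α - ξ1.im)
      rw [← hre] at c1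
      linarith
    rw [abs_mul, abs_of_pos Real.two_pi_pos] at e2
    rw [lt_div_iff₀ hpi]
    linarith
  -- an integer of absolute value less than one
  have h5 : (R - 1) * ((A - 1) * α - b) = (((n : ℤ) ^ (k * j) - 1) * m -
      ((n : ℤ) ^ (k * q) - 1) * b : ℤ) := by
    push_cast
    rw [← hm, ← hA, ← hR]
    ring
  have h6 : |(R - 1) * ((A - 1) * α - b)| < 1 := by
    rw [abs_mul, abs_of_nonneg (by linarith)]
    have h7 : (R - 1) * |(A - 1) * α - b| ≤ (R - 1) * (T0 / Real.pi) :=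
      mul_le_mul_of_nonneg_left key.le (by linarith)
    have h8 : (R - 1) * (T0 / Real.pi) < 1 := by
      rw [← mul_div_assoc, div_lt_one hpi]
      nlinarith
    linarith
  rw [h5] at h6
  have h7 : |((n : ℤ) ^ (k * j) - 1) * m - ((n : ℤ) ^ (k * q) - 1) * b| < 1 := by
    exact_mod_cast h6
  have h8 := Int.abs_lt_one_iff.mp h7
  rw [h8, Int.cast_zero] at h5
  have hq : 1 ≤ q := hEx.1
  rcases eq_or_ne (R - 1) 0 with hR0 | hR0
  · -- then `k = 0`, everything is an integer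
    have hk : k * q = 0 := by
      by_contra hne
      have : (1 : ℝ) < R := one_lt_pow₀ (by exact_mod_cast (by omega : 1 < n)) hne
      linarith
    have hk0 : k = 0 := by
      rcases Nat.mul_eq_zero.mp hk with h | h
      · exact h
      · omega
    refine ⟨0, ?_⟩
    rw [hA, hk0]
    simp
  · have h9 : (A - 1) * α - b = 0 := by
      rcases mul_eq_zero.mp h5 with h | h
      · exact absurd h hR0
      · exact h
    exact ⟨b, by linarith⟩

lemma green_zero {n k : ℕ} (hn : 2 ≤ n) (hk : 1 ≤ k) {c z : ℂ}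
    (hGF : ∀ c z : ℂ, G n c (F n c z) = n * G n c z) (hfix : (F n c)^[k] z = z) :
    G n c z = 0 := by
  have h1 : ∀ j : ℕ, G n c ((F n c)^[j] z) = (n : ℝ) ^ j * G n c z := by
    intro j
    induction j with
    | zero => simp
    | succ j ih =>
      rw [Function.iterate_succ_apply', hGF, ih, pow_succ]
      ring
  have h2 := h1 k
  rw [hfix] at h2
  have h3 : (1 : ℝ) < (n : ℝ) ^ k :=
    one_lt_pow₀ (by exact_mod_cast (by omega : 1 < n)) (by omega)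
  nlinarith

/-- the area of the derivative of the logarithm -/
lemma area_log (hCHV : T_CHV) {D : Set ℂ} {χ f : ℂ → ℂ} (hD : IsOpen D)
    (hχ : DifferentiableOn ℂ χ D) (hinj : InjOn χ D) (hf : DifferentiableOn ℂ f D)
    (he : ∀ x ∈ D, exp (f x) = χ x) :
    ∫⁻ u in D, ‖deriv f u‖ₑ ^ 2 = ∫⁻ w in χ '' D, (‖w‖ₑ ^ 2)⁻¹ := by
  rw [hCHV D χ (fun w => (‖w‖ₑ ^ 2)⁻¹) hD hχ hinj]
  refine setLIntegral_congr_fun hD.measurableSet ?_
  intro u hu
  have h1 : χ =ᶠ[𝓝 u] fun x => exp (f x) := by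
    filter_upwards [hD.mem_nhds hu] with x hx
    exact (he x hx).symm
  have h2 : HasDerivAt f (deriv f u) u := (hf.differentiableAt (hD.mem_nhds hu)).hasDerivAt
  have h3 : deriv χ u = χ u * deriv f u := by
    rw [h1.deriv_eq, h2.cexp.deriv, he u hu]
  have h4 : χ u ≠ 0 := by
    rw [← he u hu]
    exact exp_ne_zero _
  have h5 : ‖χ u‖ₑ ^ 2 ≠ 0 := by
    refine pow_ne_zero 2 ?_
    rw [Ne, enorm_eq_zero]
    exact h4
  have h6 : ‖χ u‖ₑ ^ 2 ≠ ⊤ := ENNReal.pow_ne_top enorm_ne_top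
  show ‖deriv f u‖ₑ ^ 2 = ‖deriv χ u‖ₑ ^ 2 * (‖χ u‖ₑ ^ 2)⁻¹
  rw [h3, enorm_mul, mul_pow, mul_comm (‖χ u‖ₑ ^ 2), mul_assoc, ENNReal.mul_inv_cancel h5 h6,
    mul_one]

end PLY_

open PLY_ in
theorem p_PLY (hIE : T_IE) (hG : T_GREEN) (hLIN : T_LIN) (hW : T_WSEG) (hCHV : T_CHV)
    (hTOR : T_TOR) (hA : T_AREA) : T_PLY := by
  intro n hn
  obtain ⟨C₁, hC₁, hW'⟩ := hW n hn
  refine ⟨8 * Real.pi * C₁, by positivity, ?_⟩
  intro k q Λ c z v α hk hB hc hEx hland hfix hrep hdisp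
  have hE := hIE n Λ hn hB
  obtain ⟨-, hG0, hGF, -, -, hGM, -, -⟩ := hG n hn
  have hq : 1 ≤ q := hEx.1
  have hn0 : (0 : ℝ) < n := by exact_mod_cast (by omega : 0 < n)
  have hn1 : (1 : ℝ) ≤ n := by exact_mod_cast (by omega : 1 ≤ n)
  have hGz := green_zero hn hk hGF hfix
  have hGc : G n c 0 = 0 := (hGM c).mp hc
  have hne : ∀ ξ : ℂ, 0 < ξ.re → exp (Λ c ξ) ≠ z := by
    intro ξ hξ h
    have := hB.green c ξ (by rw [hGc]; exact hξ)
    rw [h, hGz] at this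
    linarith
  -- the linearization
  obtain ⟨δ, r, η, zf, gi', ka', -, -, hlin⟩ := hLIN n k c z 1 hn hk one_pos hfix hrep
  have hcm : c ∈ Metric.ball c δ := Metric.mem_ball_self hlin.hδ
  have hzf : zf c = z := hlin.zf0
  set lam : ℂ := Rho n k c z with hlam
  set gi := gi' c with hgi
  set ka := ka' c with hka
  have hloc : Loc n k c z r lam gi ka := by
    refine ⟨hlin.hr, hfix, hlin.inj c hcm, hlin.gimem c hcm, hlin.giinv c hcm,
      hlin.kadiff c hcm, hlin.kainj c hcm, ?_, ?_, ?_⟩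
    · have := hlin.kazf c hcm
      rwa [hzf] at this
    · have := hlin.kader c hcm
      rwa [hzf] at this
    · intro x hx
      have := hlin.kagi c hcm x hx
      rwa [hzf] at this
  have hlam0 : lam ≠ 0 := by
    intro h
    rw [h, norm_zero] at hrep
    linarith
  -- the wedge
  set y : ℝ := 2 * Real.pi * α with hy
  obtain ⟨T0', hT0', hmem'⟩ := wedge_mem hA hn hE hc hland hloc.hr
  set NN : ℝ := (n : ℝ) ^ (k * q) with hNN
  have hNN1 : 1 ≤ NN := one_le_pow₀ hn1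
  have hNN0 : 0 < NN := by linarith
  set T0 : ℝ := min T0' (Real.pi / NN) with hT0def
  have hT0 : 0 < T0 := lt_min hT0' (div_pos Real.pi_pos hNN0)
  have hT0N : T0 * NN ≤ Real.pi := by
    have : T0 ≤ Real.pi / NN := min_le_right _ _
    rwa [le_div_iff₀ hNN0] at this
  have hT0pi : T0 ≤ Real.pi := by nlinarith
  have hmem : ∀ ξ ∈ Wd y 0 T0, exp (Λ c ξ) ∈ Metric.ball z r := by
    rintro ξ ⟨h1, h2, h3⟩
    exact hmem' ξ ⟨h1, h2.trans_le (min_le_left _ _), h3⟩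
  set χ : ℂ → ℂ := fun ξ => ka (exp (Λ c ξ)) with hχ
  have hχd : DifferentiableOn ℂ χ (Wd y 0 T0) := by
    refine DifferentiableOn.comp hloc.kd ?_ hmem
    exact ((hE.diff c hc).mono fun ξ hξ => hξ.1).cexp
  have hχ0 : ∀ ξ ∈ Wd y 0 T0, χ ξ ≠ 0 := by
    intro ξ hξ h
    have h2 : ka (exp (Λ c ξ)) = ka z := by rw [hloc.kz]; exact h
    exact hne ξ hξ.1 (hloc.kinj (hmem ξ hξ) (Metric.mem_ball_self hloc.hr) h2)
  have hχi : InjOn χ (Wd y 0 T0) := by
    intro ξ1 h1 ξ2 h2 h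
    have h3 := hloc.kinj (hmem ξ1 h1) (hmem ξ2 h2) h
    obtain ⟨m, hm⟩ := hE.inj c hc ξ1 ξ2 h1.1 h2.1 h3
    have him := congrArg Complex.im hm
    have e : ((m : ℂ) * (2 * Real.pi * I)).im = m * (2 * Real.pi) := by
      have e : (m : ℂ) * (2 * Real.pi * I) = ((m * (2 * Real.pi) : ℝ) : ℂ) * I := by
        push_cast; ring
      rw [e, im_ofReal_mul]; simp
    rw [e, sub_im] at him
    have h4 : |(m : ℝ)| < 1 := by
      have h5 := h1.2.2
      have h6 := h2.2.2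
      have h7 := h1.2.1
      have h8 := h2.2.1
      have h9 : |(m : ℝ) * (2 * Real.pi)| < 2 * Real.pi := by
        rw [← him, abs_lt]
        rw [abs_lt] at h5 h6
        constructor <;> linarith
      rw [abs_mul, abs_of_pos Real.two_pi_pos] at h9
      by_contra hcon
      push Not at hcon
      nlinarith [Real.pi_pos]
    have h5 : |m| < 1 := by exact_mod_cast h4
    have h6 := Int.abs_lt_one_iff.mp h5
    rw [h6, Int.cast_zero, zero_mul] at hm
    exact sub_eq_zero.mp hm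
  obtain ⟨Fc, hFd, hFe⟩ := exists_log (isOpen_Wd y 0 T0) (convex_Wd y 0 T0) hχd hχ0
  -- the displacement
  set L : ℝ → ℂ := fun t => Fc ((t : ℂ) + y * I) with hL
  obtain ⟨L', hL'c, hL'e, hL'l⟩ := hdisp
  have hκ : HasDerivAt ka 1 z := by
    have := (hloc.kd.differentiableAt (Metric.ball_mem_nhds z hloc.hr)).hasDerivAt
    rwa [hloc.kder] at this
  have hdc := disp_const (a := NN) (T0 := T0) (ρ := ray Λ c α) (L := L) (L' := L')
    (lamq := lam ^ q) hNN1 hT0 hκ hloc.kz hland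
    (by
      refine hFd.continuousOn.comp (by fun_prop) ?_
      intro t ht
      exact pt_mem ht.1 ht.2)
    (by
      intro t ht
      rw [ray_eq]
      exact hFe _ (pt_mem ht.1 ht.2))
    hL'c hL'e hL'l
    (by
      obtain ⟨m, hm⟩ := hEx.2.1
      filter_upwards [hloc.ray_push hland q, self_mem_nhdsWithin] with t ht ht0
      rw [← LAND_.ray_pow hn hE hc hm ht0, Function.iterate_mul]
      exact ht.2)
  obtain ⟨hev, hLv⟩ := hdc
  -- the choice of `T`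
  obtain ⟨T, hTv, hT0', hTle⟩ : ∃ T : ℝ, L (NN * T) - L T = v ∧ 0 < T ∧ 2 * NN * T < T0 := by
    have h1 : ∀ᶠ t in 𝓝[>] (0 : ℝ), t ∈ Ioo 0 (T0 / (2 * NN)) :=
      Ioo_mem_nhdsGT (by positivity)
    obtain ⟨T, hT1, hT2⟩ := (hLv.and h1).exists
    refine ⟨T, hT1, hT2.1, ?_⟩
    have := (lt_div_iff₀ (by positivity : (0 : ℝ) < 2 * NN)).mp hT2.2
    linarith
  set W : ℕ → Set ℂ := fun i => Wd y ((n : ℝ) ^ i * T / 2) (2 * n * ((n : ℝ) ^ i * T)) with hWdef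
  have hWsub : ∀ i, i < k * q → W i ⊆ Wd y 0 T0 := by
    rintro i hi ξ ⟨h1, h2, h3⟩
    refine ⟨?_, ?_, h3⟩
    · have : 0 < (n : ℝ) ^ i * T / 2 := by positivity
      linarith
    · have h4 : (n : ℝ) ^ (i + 1) ≤ NN := pow_le_pow_right₀ hn1 hi
      have h5 : 2 * n * ((n : ℝ) ^ i * T) = 2 * (n : ℝ) ^ (i + 1) * T := by
        rw [pow_succ]; ring
      rw [h5] at h2
      have h6 : 2 * (n : ℝ) ^ (i + 1) * T ≤ 2 * NN * T := by
        apply mul_le_mul_of_nonneg_right _ hT0'.le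
        linarith
      linarith
  -- one level
  have hlevel : ∀ i : Fin (k * q),
      ENNReal.ofReal (‖L ((n : ℝ) ^ ((i : ℕ) + 1) * T) - L ((n : ℝ) ^ (i : ℕ) * T)‖ ^ 2) ≤
        ENNReal.ofReal C₁ * ∫⁻ w in χ '' (W i), (‖w‖ₑ ^ 2)⁻¹ := by
    intro i
    have h1 := hW' ((n : ℝ) ^ (i : ℕ) * T) y Fc (by positivity) (hFd.mono (hWsub i i.2))
    rw [← area_log hCHV (isOpen_Wd _ _ _) (hχd.mono (hWsub i i.2)) (hχi.mono (hWsub i i.2))
      (hFd.mono (hWsub i i.2)) (fun x hx => hFe x (hWsub i i.2 hx))]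
    have e1 : (n : ℝ) ^ ((i : ℕ) + 1) * T = n * ((n : ℝ) ^ (i : ℕ) * T) := by
      rw [pow_succ]; ring
    rw [e1]
    exact h1
  -- the torus
  have htor := hTOR lam (k * q) 4 (fun i => χ '' (W i)) hrep
    (by
      intro i
      exact (isOpen_Wd _ _ _).measurableSet.image_of_continuousOn_injOn
        ((hχd.mono (hWsub i i.2)).continuousOn) (hχi.mono (hWsub i i.2)))
    (by
      rintro i ⟨ξ, hξ, h0⟩
      exact hχ0 ξ (hWsub i i.2 hξ) h0)
    (by
      intro w hw P hP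
      have hch : ∀ p : Fin (k * q) × ℤ, ∃ ξ : ℂ, p ∈ P → ξ ∈ W p.1 ∧ χ ξ = lam ^ p.2 * w := by
        intro p
        by_cases hp : p ∈ P
        · obtain ⟨ξ, h1, h2⟩ := hP p hp
          exact ⟨ξ, fun _ => ⟨h1, h2⟩⟩
        · exact ⟨0, fun h => absurd h hp⟩
      choose ξ hξ using hch
      refine count hn P (fun p => (ξ p).re) hT0' ?_ ?_
      · intro p hp
        obtain ⟨⟨h1, h2, -⟩, -⟩ := hξ p hp
        exact ⟨h1, h2⟩
      · intro p hp p' hp' hle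
        obtain ⟨j, hj⟩ := Int.eq_ofNat_of_zero_le (sub_nonneg.mpr hle)
        have hw1 := hWsub p.1 p.1.2 (hξ p hp).1
        have hw2 := hWsub p'.1 p'.1.2 (hξ p' hp').1
        have he : χ (ξ p) = lam ^ j * χ (ξ p') := by
          rw [(hξ p hp).2, (hξ p' hp').2, ← mul_assoc, ← zpow_natCast lam j,
            ← zpow_add₀ hlam0]
          congr 2
          have : p.2 - p'.2 = (j : ℤ) := hj
          linarith
        obtain ⟨b, hb1, hb2⟩ := rel hn hE hc hloc hlam0 hw1.1 hw2.1 (hmem _ hw1) (hmem _ hw2) j he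
        obtain ⟨a, ha⟩ := angle hn hEx hT0N hT0 hw1 hw2 hb1 hb2
        refine ⟨a, ?_, ?_⟩
        · rw [← ha]; exact hj
        · rw [← ha]; exact hb1)
  -- summation
  have hsum : v = ∑ i : Fin (k * q),
      (L ((n : ℝ) ^ ((i : ℕ) + 1) * T) - L ((n : ℝ) ^ (i : ℕ) * T)) := by
    rw [Fin.sum_univ_eq_sum_range
      (fun i => L ((n : ℝ) ^ (i + 1) * T) - L ((n : ℝ) ^ i * T)),
      Finset.sum_range_sub (fun i => L ((n : ℝ) ^ i * T)), pow_zero, one_mul, ← hTv]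
  set Δ : Fin (k * q) → ℂ := fun i =>
    L ((n : ℝ) ^ ((i : ℕ) + 1) * T) - L ((n : ℝ) ^ (i : ℕ) * T) with hΔ
  have hcs : ‖v‖ ^ 2 ≤ (k * q : ℕ) * ∑ i, ‖Δ i‖ ^ 2 := by
    have h1 : ‖v‖ ≤ ∑ i, ‖Δ i‖ := by
      rw [hsum]
      exact norm_sum_le _ _
    have h2 := sq_sum_le_card_mul_sum_sq (s := (Finset.univ : Finset (Fin (k * q))))
      (f := fun i => ‖Δ i‖)
    rw [Finset.card_univ, Fintype.card_fin] at h2
    exact (pow_le_pow_left₀ (norm_nonneg v) h1 2).trans h2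
  have hlog : 0 < Real.log ‖lam‖ := Real.log_pos hrep
  have hre : v.re = q * Real.log ‖lam‖ := by
    have h1 := congrArg norm hev
    rw [norm_exp, norm_pow] at h1
    have h2 := congrArg Real.log h1
    rw [Real.log_exp, Real.log_pow] at h2
    exact h2
  have hfinal : ENNReal.ofReal (‖v‖ ^ 2) ≤
      ENNReal.ofReal ((k * q : ℕ) * (C₁ * (((4 : ℕ) : ℝ) * (2 * Real.pi * Real.log ‖lam‖)))) := by
    calc ENNReal.ofReal (‖v‖ ^ 2) ≤ ENNReal.ofReal ((k * q : ℕ) * ∑ i, ‖Δ i‖ ^ 2) :=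
          ENNReal.ofReal_le_ofReal hcs
      _ = ENNReal.ofReal ((k * q : ℕ) : ℝ) * ∑ i, ENNReal.ofReal (‖Δ i‖ ^ 2) := by
          rw [ENNReal.ofReal_mul (Nat.cast_nonneg _),
            ENNReal.ofReal_sum_of_nonneg (fun i _ => sq_nonneg _)]
      _ ≤ ENNReal.ofReal ((k * q : ℕ) : ℝ) *
          ∑ i : Fin (k * q), (ENNReal.ofReal C₁ * ∫⁻ w in χ '' (W i), (‖w‖ₑ ^ 2)⁻¹) := by
          refine mul_le_mul_right (Finset.sum_le_sum fun i _ => hlevel i) _
      _ = ENNReal.ofReal ((k * q : ℕ) : ℝ) * (ENNReal.ofReal C₁ *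
          ∑ i : Fin (k * q), ∫⁻ w in χ '' (W i), (‖w‖ₑ ^ 2)⁻¹) := by
          congr 1
          rw [Finset.mul_sum]
      _ ≤ ENNReal.ofReal ((k * q : ℕ) : ℝ) * (ENNReal.ofReal C₁ *
          ENNReal.ofReal (((4 : ℕ) : ℝ) * (2 * Real.pi * Real.log ‖lam‖))) := by
          gcongr
      _ = ENNReal.ofReal ((k * q : ℕ) *
          (C₁ * (((4 : ℕ) : ℝ) * (2 * Real.pi * Real.log ‖lam‖)))) := by
          rw [ENNReal.ofReal_mul (p := ((k * q : ℕ) : ℝ)) (Nat.cast_nonneg _),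
            ENNReal.ofReal_mul (p := C₁) hC₁.le]
  rw [ENNReal.ofReal_le_ofReal_iff (by positivity)] at hfinal
  rw [hre]
  push_cast at hfinal
  calc ‖v‖ ^ 2 ≤ k * q * (C₁ * (4 * (2 * Real.pi * Real.log ‖lam‖))) := hfinal
    _ = 8 * Real.pi * C₁ * k * (q * Real.log ‖lam‖) := by ring

end Pool.Agent.PLim
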