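import Pool.Agent.PLim.Targets

/-!
Continuity and monotonicity of the rotation number.
-/

open Filter Topology Set

namespace Pool.Agent.PLim

namespace RcPf

theorem Gm_antitone (n : ℕ) (i : ℤ) (x : ℝ) {θ θ' : ℝ} (h : θ ≤ θ') : Gm n θ' i x ≤ Gm n θ i x := by
  rw [Gm_eq, Gm_eq]
  have h1 : (0 : ℝ) ≤ 1 - 1 / (n : ℝ) := by
    rcases Nat.eq_zero_or_pos n with h | h
    · subst h; simp
    · have : (1 : ℝ) ≤ n := by exact_mod_cast h
      rw [sub_nonneg, div_le_one (by linarith)]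
      exact this
  have h2 : ((⌊x - θ'⌋ : ℤ) : ℝ) ≤ ⌊x - θ⌋ := by
    exact_mod_cast Int.floor_le_floor (by linarith : x - θ' ≤ x - θ)
  have h4 := mul_le_mul_of_nonneg_right h2 h1
  linarith

theorem GWL_antitone (n : ℕ) (ε : ℕ → ℤ) (k : ℕ) {θ θ' : ℝ} (h : θ ≤ θ') (x : ℝ) :
    GWL n θ' ε k x ≤ GWL n θ ε k x := by
  induction k generalizing x with
  | zero => exact le_refl _
  | succ k ih =>
    change GWL n θ' ε k (Gm n θ' (ε k) x) ≤ GWL n θ ε k (Gm n θ (ε k) x)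
    exact (ih _).trans ((GWL n θ ε k).monotone (Gm_antitone n (ε k) x h))

/-- comparison of two lifts -/
def Cmp (n : ℕ) (t : ℝ) (K : ℕ) (f g : CircleDeg1Lift) : Prop :=
  ∀ x y : ℝ, 2 * t * (n : ℝ) ^ K ≤ y - x → (y - x) / (n : ℝ) ^ K ≤ g y - f x

theorem Cmp.mul {n : ℕ} {t : ℝ} {K L : ℕ} {f g f' g' : CircleDeg1Lift} (hn : 2 ≤ n) (ht : 0 ≤ t)
    (h : Cmp n t K f g) (h' : Cmp n t L f' g') : Cmp n t (K + L) (f * f') (g * g') := by
  intro x y hxy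
  have hn1 : (1 : ℝ) ≤ n := by exact_mod_cast (by omega : 1 ≤ n)
  have hK : (0 : ℝ) < (n : ℝ) ^ K := by positivity
  have hL : (0 : ℝ) < (n : ℝ) ^ L := by positivity
  have hK1 : (1 : ℝ) ≤ (n : ℝ) ^ K := one_le_pow₀ hn1
  have h1 : 2 * t * (n : ℝ) ^ L ≤ y - x := by
    refine le_trans ?_ hxy
    rw [pow_add, ← mul_assoc]
    have : 2 * t * (n : ℝ) ^ L * 1 ≤ 2 * t * (n : ℝ) ^ L * (n : ℝ) ^ K :=
      mul_le_mul_of_nonneg_left hK1 (by positivity)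
    calc 2 * t * (n : ℝ) ^ L = 2 * t * (n : ℝ) ^ L * 1 := by ring
      _ ≤ 2 * t * (n : ℝ) ^ L * (n : ℝ) ^ K := this
      _ = 2 * t * (n : ℝ) ^ K * (n : ℝ) ^ L := by ring
  have h2 := h' x y h1
  have h3 : 2 * t * (n : ℝ) ^ K ≤ g' y - f' x := by
    refine le_trans ?_ h2
    rw [le_div_iff₀ hL]
    calc 2 * t * (n : ℝ) ^ K * (n : ℝ) ^ L = 2 * t * (n : ℝ) ^ (K + L) := by rw [pow_add]; ring
      _ ≤ y - x := hxy
  have h4 := h (f' x) (g' y) h3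
  rw [CircleDeg1Lift.mul_apply, CircleDeg1Lift.mul_apply]
  refine le_trans ?_ h4
  rw [pow_add, mul_comm ((n : ℝ) ^ K), ← div_div]
  exact div_le_div_of_nonneg_right h2 hK.le

theorem Cmp.one {n : ℕ} {t : ℝ} : Cmp n t 0 1 1 := by
  intro x y _
  simp

theorem Cmp.gm {n : ℕ} {t : ℝ} (hn : 2 ≤ n) (ht : 0 ≤ t) (θ : ℝ) (i : ℤ) :
    Cmp n t 1 (GmL n (θ - t) i) (GmL n (θ + t) i) := by
  intro x y hxy
  have hn1 : (1 : ℝ) ≤ n := by exact_mod_cast (by omega : 1 ≤ n)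
  change _ ≤ Gm n (θ + t) i y - Gm n (θ - t) i x
  rw [Gm_eq, Gm_eq, pow_one]
  rw [pow_one] at hxy
  have h1 : (0 : ℝ) ≤ 1 - 1 / (n : ℝ) := by
    rw [sub_nonneg, div_le_one (by linarith)]
    exact hn1
  have h0 : 2 * t ≤ y - x := by
    refine le_trans ?_ hxy
    have : 2 * t * 1 ≤ 2 * t * (n : ℝ) := mul_le_mul_of_nonneg_left hn1 (by positivity)
    linarith
  have h2 : ((⌊x - (θ - t)⌋ : ℤ) : ℝ) ≤ ⌊y - (θ + t)⌋ := by
    exact_mod_cast Int.floor_le_floor (by linarith : x - (θ - t) ≤ y - (θ + t))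
  have h4 := mul_le_mul_of_nonneg_right h2 h1
  have h5 : (y - x) / n = y / n - x / n := sub_div _ _ _
  rw [h5]
  linarith

theorem Cmp.gwl {n : ℕ} {t : ℝ} (hn : 2 ≤ n) (ht : 0 ≤ t) (θ : ℝ) (ε : ℕ → ℤ) (k : ℕ) :
    Cmp n t k (GWL n (θ - t) ε k) (GWL n (θ + t) ε k) := by
  induction k with
  | zero => exact Cmp.one
  | succ k ih => exact ih.mul hn ht (Cmp.gm hn ht θ (ε k))

theorem Cmp.pow {n : ℕ} {t : ℝ} (hn : 2 ≤ n) (ht : 0 ≤ t) {k : ℕ} {f g : CircleDeg1Lift}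
    (h : Cmp n t k f g) (q : ℕ) : Cmp n t (k * q) (f ^ q) (g ^ q) := by
  induction q with
  | zero => simpa using Cmp.one
  | succ q ih =>
    rw [pow_succ, pow_succ, Nat.mul_succ]
    exact ih.mul hn ht h

theorem antitone (n k : ℕ) (ε : ℕ → ℤ) : Antitone (fun θ => Rot n k θ ε) := by
  intro θ θ' h
  exact CircleDeg1Lift.translationNumber_mono (GWL_antitone n ε k h)

theorem close (n k : ℕ) (ε : ℕ → ℤ) (hn : 2 ≤ n) (θ η : ℝ) (hη : 0 < η) :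
    ∃ t : ℝ, 0 < t ∧ Rot n k (θ - t) ε ≤ Rot n k (θ + t) ε + η := by
  obtain ⟨q, hq⟩ := exists_nat_gt (3 / η)
  have hq0 : (0 : ℝ) < q := lt_trans (by positivity) hq
  have hn0 : (0 : ℝ) < n := by exact_mod_cast (by omega : 0 < n)
  have ht : (0 : ℝ) < 1 / (4 * (n : ℝ) ^ (k * q)) := by positivity
  refine ⟨1 / (4 * (n : ℝ) ^ (k * q)), ht, ?_⟩
  set t : ℝ := 1 / (4 * (n : ℝ) ^ (k * q)) with ht'
  have h := (Cmp.gwl hn ht.le θ ε k).pow hn ht.le q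
  set f := GWL n (θ - t) ε k
  set g := GWL n (θ + t) ε k
  have h1 := h 0 (1 / 2) (by
    rw [ht']
    apply le_of_eq
    field_simp
    norm_num)
  have h2 : (0 : ℝ) ≤ (1 / 2 - 0) / (n : ℝ) ^ (k * q) := by positivity
  have h3 : (g ^ q) (1 / 2) ≤ (g ^ q) (0 + 1) := (g ^ q).monotone (by norm_num)
  rw [CircleDeg1Lift.map_add_one] at h3
  have h4 := (f ^ q).dist_map_zero_translationNumber_le
  have h5 := (g ^ q).dist_map_zero_translationNumber_le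
  rw [Real.dist_eq, abs_le] at h4 h5
  rw [CircleDeg1Lift.translationNumber_pow] at h4 h5
  have h6 : (q : ℝ) * Rot n k (θ - t) ε ≤ q * Rot n k (θ + t) ε + 3 := by
    change (q : ℝ) * CircleDeg1Lift.translationNumber f ≤
      q * CircleDeg1Lift.translationNumber g + 3
    linarith [h4.1, h4.2, h5.1, h5.2]
  have h7 : 3 ≤ q * η := by
    rw [div_lt_iff₀ hη] at hq
    linarith
  have h8 : (q : ℝ) * Rot n k (θ - t) ε ≤ q * (Rot n k (θ + t) ε + η) := by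
    rw [mul_add]; linarith
  exact le_of_mul_le_mul_left h8 hq0

end RcPf

open RcPf in
theorem p_RC : T_RC := by
  intro n k ε hn
  refine ⟨?_, antitone n k ε⟩
  have ha := antitone n k ε
  rw [Metric.continuous_iff]
  intro θ η hη
  obtain ⟨t, ht, h⟩ := close n k ε hn θ (η / 2) (by linarith)
  refine ⟨t, ht, fun θ' hθ' => ?_⟩
  rw [Real.dist_eq, abs_lt] at hθ'
  have h1 : Rot n k θ' ε ≤ Rot n k (θ - t) ε := ha (by linarith [hθ'.1] : θ - t ≤ θ')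
  have h2 : Rot n k (θ + t) ε ≤ Rot n k θ' ε := ha (by linarith [hθ'.2] : θ' ≤ θ + t)
  have h3 : Rot n k θ ε ≤ Rot n k (θ - t) ε := ha (by linarith : θ - t ≤ θ)
  have h4 : Rot n k (θ + t) ε ≤ Rot n k θ ε := ha (by linarith : θ ≤ θ + t)
  rw [Real.dist_eq, abs_lt]
  constructor <;> linarith

end Pool.Agent.PLim
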