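import Pool.Agent.PLim.Targets
import Pool.Agent.Limb.LAND

/-!
# PLIM: the displacement is continuous (T_RCV)
-/

set_option autoImplicit false

open Complex Filter Topology Set
open Pool.Agent.Multibrot Pool.Agent.Limb

namespace Pool.Agent.PLim.RCV_

/-! ### logarithms -/

/-- A continuous function with values in `2 π i ℤ` is constant on preconnected sets. -/
lemma const_of_int {S : Set ℝ} (hS : IsPreconnected S) (E : ℝ → ℂ) (hE : ContinuousOn E S)
    (h : ∀ t ∈ S, exp (E t) = 1) : ∀ t ∈ S, ∀ t' ∈ S, E t = E t' := by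
  have hpi := Real.pi_pos
  have h1 : ∀ t ∈ S, ∃ m : ℤ, E t = m * (2 * Real.pi * I) := fun t ht => exp_eq_one_iff.mp (h t ht)
  have key : ∀ t ∈ S, ∀ t' ∈ S, ∀ m m' : ℤ, E t = m * (2 * Real.pi * I) →
      E t' = m' * (2 * Real.pi * I) → m ≤ m' := by
    intro t ht t' ht' m m' hm hm'
    by_contra hcon
    push Not at hcon
    have him : ContinuousOn (fun t => (E t).im) S := continuous_im.comp_continuousOn hE
    have e1 : ∀ m : ℤ, ((m : ℂ) * (2 * Real.pi * I)).im = m * (2 * Real.pi) := by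
      intro m
      have : ((m : ℂ) * (2 * Real.pi * I)) = ((m * (2 * Real.pi) : ℝ) : ℂ) * I := by
        push_cast; ring
      rw [this, im_ofReal_mul]; simp
    have h2 := hS.intermediate_value ht' ht him
    have h3 : ((m' : ℝ) + 1 / 2) * (2 * Real.pi) ∈ Icc (E t').im (E t).im := by
      rw [hm, hm', e1, e1]
      have : (m' : ℝ) + 1 ≤ m := by exact_mod_cast hcon
      constructor <;> nlinarith
    obtain ⟨s, hs, hs'⟩ := h2 h3
    obtain ⟨l, hl⟩ := h1 s hs
    simp only [hl, e1] at hs'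
    have h4 : (l : ℝ) = m' + 1 / 2 := by
      have : (2 * Real.pi) ≠ 0 := by positivity
      exact mul_right_cancel₀ this hs'
    have h5 : (2 * l : ℝ) = 2 * m' + 1 := by rw [h4]; ring
    have h6 : (2 * l : ℤ) = 2 * m' + 1 := by exact_mod_cast h5
    omega
  intro t ht t' ht'
  obtain ⟨m, hm⟩ := h1 t ht
  obtain ⟨m', hm'⟩ := h1 t' ht'
  have := le_antisymm (key t ht t' ht' m m' hm hm') (key t' ht' t ht m' m hm' hm)
  rw [hm, hm', this]

lemma logclose {S : Set ℝ} (hS : IsPreconnected S) (D : ℝ → ℂ) (hD : ContinuousOn D S) (w : ℂ)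
    (ρ : ℝ) (hρ : ρ ≤ 1 / 2) (h : ∀ t ∈ S, ‖exp (D t - w) - 1‖ ≤ ρ) :
    ∀ t ∈ S, ∀ t' ∈ S, ‖D t - D t'‖ ≤ 3 * ρ := by
  have hsl : ∀ t ∈ S, exp (D t - w) ∈ slitPlane := by
    intro t ht
    have h1 := (h t ht).trans hρ
    have h2 : |(exp (D t - w) - 1).re| ≤ 1 / 2 := (abs_re_le_norm _).trans h1
    rw [sub_re, one_re] at h2
    left
    have := (abs_le.mp h2).1
    linarith
  have hu : ContinuousOn (fun t => log (exp (D t - w))) S := by
    apply ContinuousOn.clog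
    · exact (continuous_exp.comp_continuousOn (hD.sub continuousOn_const))
    · exact hsl
  have hE := const_of_int hS (fun t => D t - w - log (exp (D t - w)))
    ((hD.sub continuousOn_const).sub hu) (by
      intro t ht
      rw [exp_sub, exp_log (exp_ne_zero _), div_self (exp_ne_zero _)])
  have hb : ∀ t ∈ S, ‖log (exp (D t - w))‖ ≤ 3 / 2 * ρ := by
    intro t ht
    have h1 := norm_log_one_add_half_le_self ((h t ht).trans hρ)
    rw [add_sub_cancel] at h1
    have h2 := h t ht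
    linarith
  intro t ht t' ht'
  have h1 := hE t ht t' ht'
  have h2 : D t - D t' = log (exp (D t - w)) - log (exp (D t' - w)) := by
    linear_combination h1
  rw [h2]
  have h3 := hb t ht
  have h4 := hb t' ht'
  calc _ ≤ ‖log (exp (D t - w))‖ + ‖log (exp (D t' - w))‖ := norm_sub_le _ _
    _ ≤ 3 * ρ := by linarith

/-! ### rays stay in the ball -/

lemma stay (R : ℝ → ℂ) (f gi : ℂ → ℂ) (B : Set ℂ) (N T : ℝ) (hN : 1 < N) (hT : 0 < T)
    (hR : ContinuousOn R (Ioi 0)) (hf : ∀ t, 0 < t → f (R t) = R (N * t)) (hB : IsOpen B)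
    (hinj : InjOn f B) (hgi : ∀ x ∈ B, gi x ∈ B) (hfg : ∀ x ∈ B, f (gi x) = x)
    (hgc : ContinuousOn gi B) (h0 : ∀ t ∈ Icc T (N * T), R t ∈ B) :
    ∀ t, 0 < t → t ≤ N * T → R t ∈ B := by
  have hN0 : 0 < N := by linarith
  have key : ∀ j : ℕ, ∀ t, T / N ^ j ≤ t → t ≤ N * T → R t ∈ B := by
    intro j
    induction j with
    | zero =>
      intro t h1 h2
      rw [pow_zero, div_one] at h1
      exact h0 t ⟨h1, h2⟩
    | succ j ih =>
      have hpos : 0 < T / N ^ (j + 1) := by positivity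
      have hle : T / N ^ (j + 1) ≤ T := by
        rw [div_le_iff₀ (by positivity)]
        have : 1 ≤ N ^ (j + 1) := one_le_pow₀ hN.le
        nlinarith
      have hUo : IsOpen (Ioi 0 ∩ R ⁻¹' B) := hR.isOpen_inter_preimage isOpen_Ioi hB
      have hsub : Icc (T / N ^ (j + 1)) T ⊆ Ioi 0 ∩ R ⁻¹' B := by
        apply isPreconnected_Icc.subset_of_closure_inter_subset hUo
        · refine ⟨T, ⟨hle, le_refl T⟩, hT, ?_⟩
          exact h0 T ⟨le_refl T, by nlinarith⟩
        · rintro t ⟨ht1, ht2⟩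
          have ht0 : 0 < t := lt_of_lt_of_le hpos ht2.1
          refine ⟨ht0, ?_⟩
          have hNt : R (N * t) ∈ B := by
            apply ih
            · rw [div_le_iff₀ (by positivity)]
              have := ht2.1
              rw [div_le_iff₀ (by positivity)] at this
              calc T ≤ t * N ^ (j + 1) := this
                _ = N * t * N ^ j := by ring
            · exact mul_le_mul_of_nonneg_left ht2.2 hN0.le
          have hc1 : ContinuousAt R t := hR.continuousAt (Ioi_mem_nhds ht0)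
          have hc2 : ContinuousAt (fun x => R (N * x)) t := by
            have : ContinuousAt R (N * t) := hR.continuousAt (Ioi_mem_nhds (by positivity))
            exact ContinuousAt.comp this (continuous_const.mul continuous_id).continuousAt
          have hc3 : ContinuousAt (fun x => gi (R (N * x))) t :=
            ContinuousAt.comp (hgc.continuousAt (hB.mem_nhds hNt)) hc2
          by_contra hcon
          have hne : R t ≠ gi (R (N * t)) := by
            intro e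
            exact hcon (by rw [mem_preimage, e]; exact hgi _ hNt)
          have hev : ∀ᶠ x in 𝓝 t, R x ≠ gi (R (N * x)) :=
            (hc1.prodMk hc3).eventually (isClosed_diagonal.isOpen_compl.mem_nhds hne)
          have hev2 : ∀ᶠ x in 𝓝 t, R (N * x) ∈ B := hc2.eventually (hB.mem_nhds hNt)
          have hfr : ∃ᶠ x in 𝓝 t, x ∈ Ioi 0 ∩ R ⁻¹' B := mem_closure_iff_frequently.mp ht1
          obtain ⟨x, ⟨hx1, hx2⟩, hx3, hx4⟩ := (hfr.and_eventually (hev.and hev2)).exists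
          apply hx3
          apply hinj hx2 (hgi _ hx4)
          rw [hf x hx1, hfg _ hx4]
      intro t h1 h2
      by_cases h3 : t ≤ T
      · exact (hsub ⟨h1, h3⟩).2
      · push Not at h3
        exact h0 t ⟨h3.le, h2⟩
  intro t ht0 ht
  obtain ⟨j, hj⟩ := pow_unbounded_of_one_lt (T / t) hN
  apply key j t _ ht
  rw [div_le_iff₀ (by positivity)]
  rw [div_lt_iff₀ ht0] at hj
  linarith

/-! ### the multiplier -/

lemma F_diff (n : ℕ) (c : ℂ) : Differentiable ℂ (F n c) := by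
  unfold F
  fun_prop

lemma iter_diff (n K : ℕ) (c : ℂ) : Differentiable ℂ ((F n c)^[K]) := (F_diff n c).iterate K

lemma Rho_succ (n K : ℕ) (c x : ℂ) :
    Rho n (K + 1) c x = Rho n K c (F n c x) * (n * x ^ (n - 1)) := by
  unfold Rho
  rw [Function.iterate_succ, deriv_comp x (iter_diff n K c _) (F_diff n c x)]
  congr 1
  unfold F
  simp

lemma F_cont (n : ℕ) : Continuous (fun p : ℂ × ℂ => F n p.1 p.2) := by
  unfold F
  fun_prop

lemma Rho_cont (n K : ℕ) : Continuous (fun p : ℂ × ℂ => Rho n K p.1 p.2) := by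
  induction K with
  | zero =>
    have : (fun p : ℂ × ℂ => Rho n 0 p.1 p.2) = fun _ => 1 := by
      funext p
      unfold Rho
      rw [Function.iterate_zero]
      exact deriv_id _
    rw [this]
    exact continuous_const
  | succ K ih =>
    have : (fun p : ℂ × ℂ => Rho n (K + 1) p.1 p.2) =
        fun p => Rho n K p.1 (F n p.1 p.2) * (n * p.2 ^ (n - 1)) := by
      funext p
      exact Rho_succ n K p.1 p.2
    rw [this]
    have h1 : Continuous (fun p : ℂ × ℂ => Rho n K p.1 (F n p.1 p.2)) :=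
      ih.comp (continuous_fst.prodMk (F_cont n))
    exact h1.mul (by fun_prop)

lemma Rho_mul (n k q : ℕ) (c z : ℂ) (h : (F n c)^[k] z = z) :
    Rho n (k * q) c z = Rho n k c z ^ q := by
  unfold Rho
  rw [Function.iterate_mul]
  exact (HasDerivAt.iterate z (iter_diff n k c z).hasDerivAt h q).deriv

lemma fix_mul (n k q : ℕ) (c z : ℂ) (h : (F n c)^[k] z = z) : (F n c)^[k * q] z = z := by
  rw [Function.iterate_mul]
  exact Function.iterate_fixed h q

/-- The linear approximation of the iterate on a ball. -/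
lemma approx (n K : ℕ) (c z z0 x lam : ℂ) (r C : ℝ) (hz : z ∈ Metric.ball z0 r)
    (hx : x ∈ Metric.ball z0 r) (h : ∀ y ∈ Metric.ball z0 r, ‖Rho n K c y - lam‖ ≤ C) :
    ‖(F n c)^[K] x - (F n c)^[K] z - lam * (x - z)‖ ≤ C * ‖x - z‖ := by
  have h1 := (convex_ball z0 r).norm_image_sub_le_of_norm_hasDerivWithin_le
    (f := fun y => (F n c)^[K] y - lam * y) (f' := fun y => Rho n K c y - lam) (C := C)
    (fun y _ => by
      have h2 : HasDerivAt ((F n c)^[K]) (Rho n K c y) y := (iter_diff n K c y).hasDerivAt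
      have h3 : HasDerivAt (fun y => lam * y) lam y := by
        simpa using (hasDerivAt_id y).const_mul lam
      exact (h2.sub h3).hasDerivWithinAt) h hz hx
  have e : (F n c)^[K] x - lam * x - ((F n c)^[K] z - lam * z) =
      (F n c)^[K] x - (F n c)^[K] z - lam * (x - z) := by ring
  rw [e] at h1
  exact h1

/-- The displacement over one period is close to its limit. -/
lemma disp_close (n K : ℕ) (c z z0 lam v : ℂ) (r ρ N T : ℝ) (R : ℝ → ℂ) (L : ℝ → ℂ)
    (hN : 1 < N) (hT : 0 < T) (hρ : ρ ≤ 1 / 2) (hlam : lam ≠ 0)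
    (hL : ContinuousOn L (Ioi 0)) (hLe : ∀ t, 0 < t → exp (L t) = R t - z)
    (hv : Tendsto (fun t : ℝ => L (N * t) - L t) (𝓝[>] 0) (𝓝 v))
    (hf : ∀ t, 0 < t → (F n c)^[K] (R t) = R (N * t)) (hfz : (F n c)^[K] z = z)
    (hz : z ∈ Metric.ball z0 r) (hR : ∀ t, 0 < t → t ≤ T → R t ∈ Metric.ball z0 r)
    (h : ∀ y ∈ Metric.ball z0 r, ‖Rho n K c y - lam‖ ≤ ρ * ‖lam‖) :
    ‖L (N * T) - L T - v‖ ≤ 3 * ρ := by
  have hN0 : 0 < N := by linarith
  have hcl := logclose (S := Ioc 0 T) isPreconnected_Ioc (fun t => L (N * t) - L t)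
    (by
      apply ContinuousOn.sub
      · apply hL.comp (continuous_const.mul continuous_id).continuousOn
        intro t ht
        exact mul_pos hN0 ht.1
      · exact hL.mono (fun t ht => ht.1)) (log lam) ρ hρ (by
      intro t ht
      have h1 : exp (L (N * t) - L t - log lam) = (R (N * t) - z) / (R t - z) / lam := by
        rw [exp_sub, exp_sub, hLe _ (mul_pos hN0 ht.1), hLe _ ht.1, exp_log hlam]
      have hne : R t - z ≠ 0 := by
        rw [← hLe t ht.1]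
        exact exp_ne_zero _
      have h2 : (R (N * t) - z) / (R t - z) / lam - 1 =
          ((F n c)^[K] (R t) - (F n c)^[K] z - lam * (R t - z)) / ((R t - z) * lam) := by
        rw [hf t ht.1, hfz]
        field_simp
      rw [h1, h2, norm_div, norm_mul]
      have h3 := approx n K c z z0 (R t) lam r (ρ * ‖lam‖) hz (hR t ht.1 ht.2) h
      have h4 : 0 < ‖R t - z‖ * ‖lam‖ := by positivity
      rw [div_le_iff₀ h4]
      linarith)
  have h5 : Tendsto (fun t : ℝ => ‖(L (N * T) - L T) - (L (N * t) - L t)‖) (𝓝[>] 0)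
      (𝓝 ‖(L (N * T) - L T) - v‖) := (tendsto_const_nhds.sub hv).norm
  refine le_of_tendsto h5 ?_
  have h6 : ∀ᶠ t : ℝ in 𝓝[>] 0, t ∈ Ioc 0 T := Ioc_mem_nhdsGT hT
  filter_upwards [h6] with t ht
  exact hcl T ⟨hT, le_refl T⟩ t ht

/-- Uniform closeness of the rays on a compact interval. -/
lemma ray_close {n : ℕ} {Λ : ℂ → ℂ → ℂ} (hE : IsExt n Λ) (c0 : ℂ) (hc0 : c0 ∈ MM n) (α : ℝ)
    (a b : ℝ) (ha : 0 < a) (ε : ℝ) (hε : 0 < ε) :
    ∃ δ : ℝ, 0 < δ ∧ ∀ c ∈ MM n, ‖c - c0‖ < δ → ∀ t ∈ Icc a b,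
      ‖ray Λ c α t - ray Λ c0 α t‖ < ε := by
  have hre : ∀ u : ℝ, ((u : ℂ) + 2 * Real.pi * α * I).re = u := by
    intro u
    have e : (2 * Real.pi * α * I : ℂ) = ((2 * Real.pi * α : ℝ) : ℂ) * I := by push_cast; ring
    rw [e, add_re, re_ofReal_mul]; simp
  have hc : ContinuousOn (fun p : ℂ × ℝ => ray Λ p.1 α p.2) (MM n ×ˢ Ioi 0) := by
    unfold ray
    apply continuous_exp.comp_continuousOn
    have : ContinuousOn (fun p : ℂ × ℝ => ((p.1, (p.2 : ℂ) + 2 * Real.pi * α * I) : ℂ × ℂ))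
      (MM n ×ˢ Ioi 0) := by fun_prop
    refine hE.cont.comp this ?_
    rintro ⟨c, t⟩ ⟨h1, h2⟩
    exact ⟨h1, by change 0 < ((t : ℂ) + 2 * Real.pi * α * I).re; rw [hre]; exact h2⟩
  have hev : ∀ᶠ c in 𝓝 c0, ∀ t ∈ Icc a b, c ∈ MM n → ‖ray Λ c α t - ray Λ c0 α t‖ < ε := by
    apply isCompact_Icc.eventually_forall_of_forall_eventually
    intro t ht
    have ht0 : 0 < t := lt_of_lt_of_le ha ht.1
    have h1 : ∀ᶠ p : ℂ × ℝ in 𝓝[MM n ×ˢ Ioi 0] (c0, t),
        ‖ray Λ p.1 α p.2 - ray Λ c0 α t‖ < ε / 2 := by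
      have := (hc (c0, t) ⟨hc0, ht0⟩)
      rw [ContinuousWithinAt, Metric.tendsto_nhds] at this
      have h := this (ε / 2) (by positivity)
      simpa [dist_eq_norm] using h
    rw [eventually_nhdsWithin_iff] at h1
    have h2 : ∀ᶠ p : ℂ × ℝ in 𝓝 (c0, t), 0 < p.2 :=
      continuous_snd.continuousAt.eventually (Ioi_mem_nhds ht0)
    have h3 : ∀ᶠ u : ℝ in 𝓝 t, 0 < u → ‖ray Λ c0 α u - ray Λ c0 α t‖ < ε / 2 := by
      have h4 : ContinuousAt (fun u : ℝ => (c0, u)) t := by fun_prop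
      have h5 := h4.eventually h1
      filter_upwards [h5] with u hu hu0
      exact hu ⟨hc0, hu0⟩
    have h4 : ∀ᶠ p : ℂ × ℝ in 𝓝 (c0, t), 0 < p.2 →
        ‖ray Λ c0 α p.2 - ray Λ c0 α t‖ < ε / 2 := by
      have hc2 : Tendsto (fun p : ℂ × ℝ => p.2) (𝓝 (c0, t)) (𝓝 t) := continuous_snd.continuousAt
      exact hc2.eventually h3
    filter_upwards [h1, h2, h4] with p hp1 hp2 hp3 hpc
    have h5 := hp1 ⟨hpc, hp2⟩
    have h6 := hp3 hp2
    calc ‖ray Λ p.1 α p.2 - ray Λ c0 α p.2‖ =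
        ‖(ray Λ p.1 α p.2 - ray Λ c0 α t) - (ray Λ c0 α p.2 - ray Λ c0 α t)‖ := by
          congr 1; ring
      _ ≤ _ := norm_sub_le _ _
      _ < ε := by linarith
  rw [Metric.eventually_nhds_iff] at hev
  obtain ⟨δ, hδ, h⟩ := hev
  refine ⟨δ, hδ, fun c hcM hcd t ht => h ?_ t ht hcM⟩
  rw [dist_eq_norm]
  exact hcd

lemma ray_cont {n : ℕ} {Λ : ℂ → ℂ → ℂ} (hE : IsExt n Λ) (c : ℂ) (hc : c ∈ MM n) (α : ℝ) :
    ContinuousOn (ray Λ c α) (Ioi 0) := by
  have hre : ∀ u : ℝ, ((u : ℂ) + 2 * Real.pi * α * I).re = u := by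
    intro u
    have e : (2 * Real.pi * α * I : ℂ) = ((2 * Real.pi * α : ℝ) : ℂ) * I := by push_cast; ring
    rw [e, add_re, re_ofReal_mul]; simp
  unfold ray
  apply continuous_exp.comp_continuousOn
  have h1 : ContinuousOn (fun t : ℝ => (c, (t : ℂ) + 2 * Real.pi * α * I)) (Ioi 0) := by
    fun_prop
  refine hE.cont.comp h1 ?_
  intro t ht
  exact ⟨hc, by change 0 < ((t : ℂ) + 2 * Real.pi * α * I).re; rw [hre]; exact ht⟩

end Pool.Agent.PLim.RCV_

namespace Pool.Agent.PLim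

open RCV_

theorem p_RCV (hIE : T_IE) (hLIN : T_LIN) : T_RCV := by
  intro n k q Λ c0 z0 v0 α ε hn hk hq hε hB hc0 hα hland hfix hrep hdisp
  have hE : IsExt n Λ := hIE n Λ hn hB
  set K : ℕ := k * q with hK
  have hK1 : 1 ≤ K := Nat.mul_pos hk hq
  have hn2 : (2 : ℝ) ≤ n := by exact_mod_cast hn
  set N : ℝ := (n : ℝ) ^ K with hN
  have hN1 : 1 < N := one_lt_pow₀ (by linarith) (by omega)
  have hN0 : 0 < N := by linarith
  obtain ⟨m, hm⟩ := hα
  set lam : ℂ := Rho n K c0 z0 with hlam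
  have hlamq : lam = Rho n k c0 z0 ^ q := Rho_mul n k q c0 z0 hfix
  have hlam1 : 1 < ‖lam‖ := by
    rw [hlamq, norm_pow]
    exact one_lt_pow₀ hrep (by omega)
  have hlam0 : lam ≠ 0 := by
    intro h
    rw [h, norm_zero] at hlam1
    linarith
  set ρ : ℝ := min (1 / 2) (ε / 10) with hρ
  have hρ0 : 0 < ρ := by positivity
  have hρ1 : ρ ≤ 1 / 2 := min_le_left _ _
  have hρ2 : ρ ≤ ε / 10 := min_le_right _ _
  -- the multiplier is close to `lam`
  obtain ⟨R, hR0, hR⟩ : ∃ R : ℝ, 0 < R ∧ ∀ c ∈ Metric.ball c0 R, ∀ y ∈ Metric.ball z0 R,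
      ‖Rho n K c y - lam‖ ≤ ρ * ‖lam‖ := by
    have h1 : ∀ᶠ p : ℂ × ℂ in 𝓝 (c0, z0), ‖Rho n K p.1 p.2 - lam‖ < ρ * ‖lam‖ := by
      have h2 := (Rho_cont n K).continuousAt (x := (c0, z0))
      rw [ContinuousAt, Metric.tendsto_nhds] at h2
      have h3 := h2 (ρ * ‖lam‖) (by positivity)
      simpa [dist_eq_norm] using h3
    rw [Metric.eventually_nhds_iff] at h1
    obtain ⟨R, hR0, h⟩ := h1
    refine ⟨R, hR0, fun c hc y hy => ?_⟩
    have h4 : dist ((c, y) : ℂ × ℂ) (c0, z0) < R := by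
      rw [Prod.dist_eq]
      exact max_lt hc hy
    exact (h h4).le
  obtain ⟨δ1, r, η, zf, gi, ka, hδR, hrR, hL⟩ := hLIN n K c0 z0 R hn hK1 hR0
    (fix_mul n k q c0 z0 hfix) hlam1
  have hδ1 := hL.hδ
  have hr := hL.hr
  have hc0B : c0 ∈ Metric.ball c0 δ1 := Metric.mem_ball_self hδ1
  have hz0B : z0 ∈ Metric.ball z0 r := Metric.mem_ball_self hr
  -- the choice of `T`
  obtain ⟨T, hT, hTr⟩ : ∃ T : ℝ, 0 < T ∧ ∀ t, 0 < t → t ≤ N * T →
      ray Λ c0 α t ∈ Metric.ball z0 (r / 2) := by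
    have h1 : ∀ᶠ t : ℝ in 𝓝[>] 0, ray Λ c0 α t ∈ Metric.ball z0 (r / 2) :=
      hland.eventually (Metric.ball_mem_nhds z0 (by positivity))
    rw [eventually_nhdsWithin_iff, Metric.eventually_nhds_iff] at h1
    obtain ⟨u, hu, h⟩ := h1
    refine ⟨u / (2 * N), by positivity, fun t ht ht2 => h ?_ ht⟩
    rw [dist_eq_norm, sub_zero, Real.norm_eq_abs, abs_of_pos ht]
    have : N * (u / (2 * N)) = u / 2 := by field_simp
    rw [this] at ht2
    linarith
  obtain ⟨L0, hL0c, hL0e, hL0v⟩ := hdisp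
  have hTN : T ≤ N * T := by nlinarith
  -- the distance of the ray from `z0`
  obtain ⟨μ, hμ0, hμ⟩ : ∃ μ : ℝ, 0 < μ ∧ ∀ t ∈ Icc T (N * T), μ ≤ ‖ray Λ c0 α t - z0‖ := by
    have hcont : ContinuousOn (fun t => ‖ray Λ c0 α t - z0‖) (Icc T (N * T)) :=
      (((ray_cont hE c0 hc0 α).mono (fun t ht => lt_of_lt_of_le hT ht.1)).sub
        continuousOn_const).norm
    obtain ⟨t0, ht0, hmin⟩ := isCompact_Icc.exists_isMinOn ⟨T, ⟨le_refl T, hTN⟩⟩ hcont
    refine ⟨‖ray Λ c0 α t0 - z0‖, ?_, fun t ht => hmin ht⟩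
    rw [← hL0e t0 (lt_of_lt_of_le hT ht0.1)]
    exact norm_pos_iff.mpr (exp_ne_zero _)
  obtain ⟨δ2, hδ2, hclose⟩ := ray_close hE c0 hc0 α T (N * T) hT (min (r / 2) (ρ * μ / 2))
    (by positivity)
  refine ⟨min (min δ1 δ2) (min r (ρ * μ / 2)), by positivity, ?_⟩
  intro c z v hcM hcδ hzδ hzfix hdispc
  have hc1 : ‖c - c0‖ < δ1 := lt_of_lt_of_le hcδ ((min_le_left _ _).trans (min_le_left _ _))
  have hc2 : ‖c - c0‖ < δ2 := lt_of_lt_of_le hcδ ((min_le_left _ _).trans (min_le_right _ _))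
  have hz1 : ‖z - z0‖ < r := lt_of_lt_of_le hzδ ((min_le_right _ _).trans (min_le_left _ _))
  have hz2 : ‖z - z0‖ < ρ * μ / 2 :=
    lt_of_lt_of_le hzδ ((min_le_right _ _).trans (min_le_right _ _))
  have hcB : c ∈ Metric.ball c0 δ1 := by rw [Metric.mem_ball, dist_eq_norm]; exact hc1
  have hzB : z ∈ Metric.ball z0 r := by rw [Metric.mem_ball, dist_eq_norm]; exact hz1
  obtain ⟨L, hLc, hLe, hLv⟩ := hdispc
  have hfunc : ∀ c ∈ MM n, ∀ t, 0 < t →
      (F n c)^[K] (ray Λ c α t) = ray Λ c α (N * t) := by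
    intro c hc t ht
    exact LAND_.ray_pow hn hE hc hm ht
  -- the ray at `c` stays in the ball
  have hstay : ∀ t, 0 < t → t ≤ N * T → ray Λ c α t ∈ Metric.ball z0 r := by
    apply stay (ray Λ c α) ((F n c)^[K]) (gi c) (Metric.ball z0 r) N T hN1 hT
      (ray_cont hE c hcM α) (hfunc c hcM) Metric.isOpen_ball (hL.inj c hcB) (hL.gimem c hcB)
      (hL.giinv c hcB) (hL.gidiff c hcB).continuousOn
    intro t ht
    have h1 := hclose c hcM hc2 t ht
    have h2 := hTr t (lt_of_lt_of_le hT ht.1) ht.2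
    rw [Metric.mem_ball, dist_eq_norm] at h2 ⊢
    have h3 : ‖ray Λ c α t - ray Λ c0 α t‖ < r / 2 := lt_of_lt_of_le h1 (min_le_left _ _)
    calc ‖ray Λ c α t - z0‖ = ‖(ray Λ c α t - ray Λ c0 α t) + (ray Λ c0 α t - z0)‖ := by
          congr 1; ring
      _ ≤ _ := norm_add_le _ _
      _ < r := by linarith
  have hball : ∀ c ∈ Metric.ball c0 δ1, ∀ y ∈ Metric.ball z0 r,
      ‖Rho n K c y - lam‖ ≤ ρ * ‖lam‖ := fun c hc y hy =>
    hR c (Metric.ball_subset_ball hδR hc) y (Metric.ball_subset_ball hrR hy)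
  have b1 : ‖L (N * T) - L T - v‖ ≤ 3 * ρ :=
    disp_close n K c z z0 lam v r ρ N T (ray Λ c α) L hN1 hT hρ1 hlam0 hLc hLe hLv
      (hfunc c hcM) (fix_mul n k q c z hzfix) hzB (fun t h1 h2 => hstay t h1 (h2.trans hTN))
      (hball c hcB)
  have b2 : ‖L0 (N * T) - L0 T - v0‖ ≤ 3 * ρ :=
    disp_close n K c0 z0 z0 lam v0 r ρ N T (ray Λ c0 α) L0 hN1 hT hρ1 hlam0 hL0c hL0e hL0v
      (hfunc c0 hc0) (fix_mul n k q c0 z0 hfix) hz0B
      (fun t h1 h2 => Metric.ball_subset_ball (by linarith) (hTr t h1 (h2.trans hTN)))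
      (hball c0 hc0B)
  have b3 : ‖(L (N * T) - L0 (N * T)) - (L T - L0 T)‖ ≤ 3 * ρ := by
    have hmono : Icc T (N * T) ⊆ Ioi 0 := fun t ht => lt_of_lt_of_le hT ht.1
    apply logclose (S := Icc T (N * T)) isPreconnected_Icc (fun t => L t - L0 t)
      ((hLc.mono hmono).sub (hL0c.mono hmono)) 0 ρ hρ1 _ _ ⟨hTN, le_refl _⟩ _ ⟨le_refl _, hTN⟩
    intro t ht
    have ht0 : 0 < t := hmono ht
    have hne : ray Λ c0 α t - z0 ≠ 0 := by
      rw [← hL0e t ht0]
      exact exp_ne_zero _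
    have h1 : exp (L t - L0 t - 0) - 1 =
        ((ray Λ c α t - ray Λ c0 α t) - (z - z0)) / (ray Λ c0 α t - z0) := by
      rw [sub_zero, exp_sub, hLe t ht0, hL0e t ht0]
      field_simp
      ring
    have h2 : ‖ray Λ c α t - ray Λ c0 α t‖ < ρ * μ / 2 :=
      lt_of_lt_of_le (hclose c hcM hc2 t ht) (min_le_right _ _)
    have h3 := hμ t ht
    rw [h1, norm_div, div_le_iff₀ (by linarith)]
    calc ‖(ray Λ c α t - ray Λ c0 α t) - (z - z0)‖ ≤ _ := norm_sub_le _ _
      _ ≤ ρ * μ := by linarith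
      _ ≤ ρ * ‖ray Λ c0 α t - z0‖ := mul_le_mul_of_nonneg_left h3 hρ0.le
  have e : v - v0 = -(L (N * T) - L T - v) + (L0 (N * T) - L0 T - v0) +
      ((L (N * T) - L0 (N * T)) - (L T - L0 T)) := by ring
  rw [e]
  calc _ ≤ ‖-(L (N * T) - L T - v) + (L0 (N * T) - L0 T - v0)‖ +
        ‖(L (N * T) - L0 (N * T)) - (L T - L0 T)‖ := norm_add_le _ _
    _ ≤ (‖-(L (N * T) - L T - v)‖ + ‖L0 (N * T) - L0 T - v0‖) + 3 * ρ :=
        add_le_add (norm_add_le _ _) b3
    _ ≤ (3 * ρ + 3 * ρ) + 3 * ρ := by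
        rw [norm_neg]
        linarith
    _ < ε := by linarith

end Pool.Agent.PLim
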