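import Pool.Agent.PLim.Targets

/-!
# RI: approximation of parameters with integer rotation number
-/

set_option autoImplicit false

open Filter Topology Set

namespace Pool.Agent.PLim

namespace RI_

/-- inverse branch with the cut function `c` -/
noncomputable def Gc (n : ℕ) (c : ℝ → ℤ) (i : ℤ) (x : ℝ) : ℝ := (x - c x + i) / n + c x

/-- composition of inverse branches -/
noncomputable def W (n : ℕ) (c : ℝ → ℤ) (ε : ℕ → ℤ) : ℕ → ℝ → ℝ
  | 0, z => z
  | k + 1, z => W n c ε k (Gc n c (ε k) z)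

/-- the cut with the floor -/
noncomputable def cf (θ : ℝ) (x : ℝ) : ℤ := ⌊x - θ⌋

/-- the cut with the ceiling -/
noncomputable def cc (θ : ℝ) (x : ℝ) : ℤ := ⌈x - θ⌉ - 1

theorem cf_add (θ x : ℝ) (r : ℤ) : cf θ (x + r) = cf θ x + r := by
  unfold cf
  rw [show x + (r : ℝ) - θ = x - θ + r by ring, Int.floor_add_intCast]

theorem cc_add (θ x : ℝ) (r : ℤ) : cc θ (x + r) = cc θ x + r := by
  unfold cc
  rw [show x + (r : ℝ) - θ = x - θ + r by ring, Int.ceil_add_intCast]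
  ring

section generic

variable {n : ℕ} {c : ℝ → ℤ} (hc : ∀ (x : ℝ) (r : ℤ), c (x + r) = c x + r)

theorem Gc_eq (n : ℕ) (c : ℝ → ℤ) (i : ℤ) (x : ℝ) :
    Gc n c i x = x / n + i / n + c x * (1 - 1 / (n : ℝ)) := by
  unfold Gc
  ring

include hc

theorem Gc_add (i : ℤ) (x : ℝ) (r : ℤ) : Gc n c i (x + r) = Gc n c i x + r := by
  rw [Gc_eq, Gc_eq, hc]
  push_cast
  ring

theorem W_add_int (ε : ℕ → ℤ) (k : ℕ) (z : ℝ) (r : ℤ) :
    W n c ε k (z + r) = W n c ε k z + r := by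
  induction k generalizing z with
  | zero => rfl
  | succ k ih =>
    simp only [W]
    rw [Gc_add hc, ih]

omit hc in
theorem W_add (ε : ℕ → ℤ) (a b : ℕ) (z : ℝ) :
    W n c ε (a + b) z = W n c ε a (W n c (fun t => ε (t + a)) b z) := by
  induction b generalizing z with
  | zero => rfl
  | succ b ih =>
    rw [← add_assoc]
    change W n c ε (a + b) (Gc n c (ε (a + b)) z) =
      W n c ε a (W n c (fun t => ε (t + a)) b (Gc n c (ε (b + a)) z))
    rw [ih, add_comm a b]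

theorem orbit (hn : 2 ≤ n) (ε : ℕ → ℤ) (k : ℕ) : ∀ z : ℝ,
    (∃ a : ℤ, (n : ℝ) ^ k * W n c ε k z = z + a) ∧
    ∀ t < k, (n : ℤ) ∣ c ((n : ℝ) ^ (t + 1) * W n c ε k z) - ε t := by
  have hn0 : (n : ℝ) ≠ 0 := by positivity
  induction k with
  | zero => exact fun z => ⟨⟨0, by simp [W]⟩, fun t ht => absurd ht (Nat.not_lt_zero _)⟩
  | succ k ih =>
    intro z
    obtain ⟨⟨a, ha⟩, h2⟩ := ih (Gc n c (ε k) z)
    have key : (n : ℝ) ^ (k + 1) * W n c ε (k + 1) z =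
        z + (((n - 1) * c z + ε k + n * a : ℤ) : ℝ) := by
      change (n : ℝ) ^ (k + 1) * W n c ε k (Gc n c (ε k) z) = _
      rw [pow_succ', mul_assoc, ha]
      unfold Gc
      push_cast
      field_simp
      ring
    refine ⟨⟨_, key⟩, ?_⟩
    intro t ht
    rcases Nat.lt_succ_iff_lt_or_eq.1 ht with h | rfl
    · exact h2 t h
    · rw [key, hc]
      exact ⟨c z + a, by ring⟩

omit hc in
theorem per_mul {k : ℕ} {ε : ℕ → ℤ} (hε : Per k ε) (j t : ℕ) : ε (t + k * j) = ε t := by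
  induction j with
  | zero => rfl
  | succ j ih =>
    rw [Nat.mul_succ, ← add_assoc, hε, ih]

theorem W_iter {k : ℕ} {ε : ℕ → ℤ} (hε : Per k ε) {z : ℝ} {m : ℤ}
    (hz : W n c ε k z = z + m) (j : ℕ) : W n c ε (k * j) z = z + ((j * m : ℤ) : ℝ) := by
  induction j with
  | zero => simp [W]
  | succ j ih =>
    rw [Nat.mul_succ, W_add]
    have h : (fun t => ε (t + k * j)) = ε := by
      funext t
      exact per_mul hε j t
    rw [h, hz, W_add_int hc, ih]
    push_cast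
    ring

theorem alpha (hn : 2 ≤ n) {k : ℕ} (hk : 1 ≤ k) {ε : ℕ → ℤ} (hε : Per k ε) {z : ℝ} {m : ℤ}
    (hz : W n c ε k z = z + m) : (∃ a : ℤ, ((n : ℝ) ^ k - 1) * z = a) ∧
      ∀ t : ℕ, (n : ℤ) ∣ c ((n : ℝ) ^ (t + 1) * z) - ε t := by
  constructor
  · obtain ⟨⟨a, ha⟩, -⟩ := orbit hc hn ε k z
    refine ⟨a - n ^ k * m, ?_⟩
    rw [hz] at ha
    push_cast
    linear_combination ha
  · intro t
    obtain ⟨-, h2⟩ := orbit hc hn ε (k * (t + 1)) z
    have ht : t < k * (t + 1) := by nlinarith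
    have h3 := h2 t ht
    rw [W_iter hc hε hz, mul_add] at h3
    have e : (n : ℝ) ^ (t + 1) * ((((t + 1 : ℕ) : ℤ) * m : ℤ) : ℝ) =
        (((n : ℤ) ^ (t + 1) * (((t + 1 : ℕ) : ℤ) * m) : ℤ) : ℝ) := by
      push_cast
      ring
    rw [e, hc] at h3
    have h4 : (n : ℤ) ∣ (n : ℤ) ^ (t + 1) * (((t + 1 : ℕ) : ℤ) * m) :=
      dvd_mul_of_dvd_left (dvd_pow_self _ (Nat.succ_ne_zero t)) _
    have h5 := dvd_sub h3 h4
    have e2 : c ((n : ℝ) ^ (t + 1) * z) + (n : ℤ) ^ (t + 1) * (((t + 1 : ℕ) : ℤ) * m) - ε t -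
        (n : ℤ) ^ (t + 1) * (((t + 1 : ℕ) : ℤ) * m) = c ((n : ℝ) ^ (t + 1) * z) - ε t := by ring
    rwa [e2] at h5

end generic

/-! ### the order properties of the two cuts -/

section cuts

variable {n : ℕ} (hn : 2 ≤ n) (θ : ℝ)

include hn

theorem Gc_mono_cut {c c' : ℝ → ℤ} (i : ℤ) {x y : ℝ} (hxy : x ≤ y) (h : c x ≤ c' y) :
    Gc n c i x ≤ Gc n c' i y := by
  have hn0 : (0 : ℝ) < n := by positivity
  have hn1 : (1 : ℝ) ≤ n := by exact_mod_cast (by omega : 1 ≤ n)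
  rw [Gc_eq, Gc_eq]
  have h1 : (0 : ℝ) ≤ 1 - 1 / (n : ℝ) := by
    rw [sub_nonneg, div_le_one hn0]
    exact hn1
  have h2 : ((c x : ℤ) : ℝ) ≤ c' y := by exact_mod_cast h
  have h3 : x / n ≤ y / n := div_le_div_of_nonneg_right hxy hn0.le
  have h4 := mul_le_mul_of_nonneg_right h2 h1
  linarith

theorem Gc_strict_cut {c c' : ℝ → ℤ} (i : ℤ) {x y : ℝ} (hxy : x < y) (h : c x ≤ c' y) :
    Gc n c i x < Gc n c' i y := by
  have hn0 : (0 : ℝ) < n := by positivity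
  have hn1 : (1 : ℝ) ≤ n := by exact_mod_cast (by omega : 1 ≤ n)
  rw [Gc_eq, Gc_eq]
  have h1 : (0 : ℝ) ≤ 1 - 1 / (n : ℝ) := by
    rw [sub_nonneg, div_le_one hn0]
    exact hn1
  have h2 : ((c x : ℤ) : ℝ) ≤ c' y := by exact_mod_cast h
  have h3 : x / n < y / n := div_lt_div_of_pos_right hxy hn0
  have h4 := mul_le_mul_of_nonneg_right h2 h1
  linarith

omit hn in
theorem cf_mono {x y : ℝ} (h : x ≤ y) : cf θ x ≤ cf θ y :=
  Int.floor_le_floor (by linarith)

omit hn in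
theorem cc_mono {x y : ℝ} (h : x ≤ y) : cc θ x ≤ cc θ y := by
  unfold cc
  have := Int.ceil_le_ceil (by linarith : x - θ ≤ y - θ)
  omega

omit hn in
theorem cc_le_cf (x : ℝ) : cc θ x ≤ cf θ x := by
  unfold cc cf
  have := Int.ceil_le_floor_add_one (x - θ)
  omega

omit hn in
theorem cf_le_cc {x y : ℝ} (h : x < y) : cf θ x ≤ cc θ y := by
  unfold cc cf
  have h1 : ⌊x - θ⌋ < ⌈y - θ⌉ := by
    rw [Int.lt_ceil]
    exact lt_of_le_of_lt (Int.floor_le _) (by linarith)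
  omega

theorem Wf_mono (ε : ℕ → ℤ) (k : ℕ) : Monotone (W n (cf θ) ε k) := by
  induction k with
  | zero => exact fun x y h => h
  | succ k ih => exact fun x y h => ih (Gc_mono_cut hn _ h (cf_mono θ h))

theorem Wc_mono (ε : ℕ → ℤ) (k : ℕ) : Monotone (W n (cc θ) ε k) := by
  induction k with
  | zero => exact fun x y h => h
  | succ k ih => exact fun x y h => ih (Gc_mono_cut hn _ h (cc_mono θ h))

theorem Wc_le_Wf (ε : ℕ → ℤ) (k : ℕ) (z : ℝ) : W n (cc θ) ε k z ≤ W n (cf θ) ε k z := by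
  induction k generalizing z with
  | zero => exact le_rfl
  | succ k ih =>
    exact (ih _).trans (Wf_mono hn θ ε k (Gc_mono_cut hn _ le_rfl (cc_le_cf θ z)))

theorem Wf_lt_Wc (ε : ℕ → ℤ) (k : ℕ) {x y : ℝ} (h : x < y) :
    W n (cf θ) ε k x < W n (cc θ) ε k y := by
  induction k generalizing x y with
  | zero => exact h
  | succ k ih => exact ih (Gc_strict_cut hn _ h (cf_le_cc θ h))

theorem Gf_right (i : ℤ) {x y : ℝ} (h : Gc n (cf θ) i x < y) :
    ∃ w, x < w ∧ Gc n (cf θ) i w < y := by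
  have hn0 : (0 : ℝ) < n := by positivity
  have h1 := Int.lt_floor_add_one (x - θ)
  have h2 := Int.floor_le (x - θ)
  set f := ⌊x - θ⌋ with hf
  have h3 : 0 < min ((f + 1 - (x - θ)) / 2) (n * (y - Gc n (cf θ) i x) / 2) := by
    apply lt_min
    · linarith
    · have : 0 < y - Gc n (cf θ) i x := by linarith
      positivity
  set s := min ((f + 1 - (x - θ)) / 2) (n * (y - Gc n (cf θ) i x) / 2) with hs
  have h4 : s ≤ (f + 1 - (x - θ)) / 2 := min_le_left _ _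
  have h5 : s ≤ n * (y - Gc n (cf θ) i x) / 2 := min_le_right _ _
  refine ⟨x + s, by linarith, ?_⟩
  have h6 : cf θ (x + s) = cf θ x := by
    unfold cf
    rw [← hf, Int.floor_eq_iff]
    constructor <;> linarith
  have h7 : Gc n (cf θ) i (x + s) = Gc n (cf θ) i x + s / n := by
    rw [Gc_eq, Gc_eq, h6]
    ring
  rw [h7]
  have h8 : s / n ≤ (y - Gc n (cf θ) i x) / 2 := by
    rw [div_le_iff₀ hn0]
    linarith
  linarith

theorem Gcc_left (i : ℤ) {x y : ℝ} (h : y < Gc n (cc θ) i x) :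
    ∃ w, w < x ∧ y < Gc n (cc θ) i w := by
  have hn0 : (0 : ℝ) < n := by positivity
  have h1 := Int.le_ceil (x - θ)
  have h2 := Int.ceil_lt_add_one (x - θ)
  set f := ⌈x - θ⌉ with hf
  have h3 : 0 < min ((x - θ - (f - 1)) / 2) (n * (Gc n (cc θ) i x - y) / 2) := by
    apply lt_min
    · linarith
    · have : 0 < Gc n (cc θ) i x - y := by linarith
      positivity
  set s := min ((x - θ - (f - 1)) / 2) (n * (Gc n (cc θ) i x - y) / 2) with hs
  have h4 : s ≤ (x - θ - (f - 1)) / 2 := min_le_left _ _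
  have h5 : s ≤ n * (Gc n (cc θ) i x - y) / 2 := min_le_right _ _
  refine ⟨x - s, by linarith, ?_⟩
  have h6 : cc θ (x - s) = cc θ x := by
    unfold cc
    rw [← hf]
    congr 1
    rw [Int.ceil_eq_iff]
    constructor <;> linarith
  have h7 : Gc n (cc θ) i (x - s) = Gc n (cc θ) i x - s / n := by
    rw [Gc_eq, Gc_eq, h6]
    ring
  rw [h7]
  have h8 : s / n ≤ (Gc n (cc θ) i x - y) / 2 := by
    rw [div_le_iff₀ hn0]
    linarith
  linarith

theorem Wf_right (ε : ℕ → ℤ) (k : ℕ) {x y : ℝ} (h : W n (cf θ) ε k x < y) :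
    ∃ w, x < w ∧ W n (cf θ) ε k w < y := by
  induction k generalizing x y with
  | zero => exact exists_between h
  | succ k ih =>
    obtain ⟨w, h1, h2⟩ := ih h
    obtain ⟨v, h3, h4⟩ := Gf_right hn θ (ε k) h1
    exact ⟨v, h3, lt_of_le_of_lt (Wf_mono hn θ ε k h4.le) h2⟩

theorem Wc_left (ε : ℕ → ℤ) (k : ℕ) {x y : ℝ} (h : y < W n (cc θ) ε k x) :
    ∃ w, w < x ∧ y < W n (cc θ) ε k w := by
  induction k generalizing x y with
  | zero =>
    obtain ⟨w, h1, h2⟩ := exists_between h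
    exact ⟨w, h2, h1⟩
  | succ k ih =>
    obtain ⟨w, h1, h2⟩ := ih h
    obtain ⟨v, h3, h4⟩ := Gcc_left hn θ (ε k) h1
    exact ⟨v, h3, lt_of_lt_of_le h2 (Wc_mono hn θ ε k h4.le)⟩

end cuts

/-- fixed points of monotone maps between a lower and an upper point -/
theorem exists_fixed {h : ℝ → ℝ} (hh : Monotone h) {x y : ℝ} (hxy : x ≤ y) (hx : x ≤ h x)
    (hy : h y ≤ y) : ∃ z, h z = z := by
  set S : Set ℝ := {u | x ≤ u ∧ u ≤ y ∧ u ≤ h u} with hS
  have hne : S.Nonempty := ⟨x, le_rfl, hxy, hx⟩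
  have hbd : BddAbove S := ⟨y, fun u hu => hu.2.1⟩
  have h1 : sSup S ≤ h (sSup S) :=
    csSup_le hne fun u hu => hu.2.2.trans (hh (le_csSup hbd hu))
  have h2 : x ≤ sSup S := le_csSup hbd ⟨le_rfl, hxy, hx⟩
  have h3 : sSup S ≤ y := csSup_le hne fun u hu => hu.2.1
  refine ⟨sSup S, le_antisymm ?_ h1⟩
  exact le_csSup hbd ⟨h2.trans h1, (hh h3).trans hy, hh h1⟩

theorem GWL_eq (n : ℕ) (θ : ℝ) (ε : ℕ → ℤ) (k : ℕ) (z : ℝ) :
    GWL n θ ε k z = W n (cf θ) ε k z := by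
  induction k generalizing z with
  | zero => rfl
  | succ k ih =>
    change GWL n θ ε k (GmL n θ (ε k) z) = W n (cf θ) ε k (Gc n (cf θ) (ε k) z)
    rw [ih]
    rfl

theorem exists_fix {n : ℕ} (hn : 2 ≤ n) (k : ℕ) (θ : ℝ) (ε : ℕ → ℤ) (m : ℤ)
    (hm : Rot n k θ ε = m) :
    (∃ z, W n (cf θ) ε k z = z + m) ∨ (∃ z, W n (cc θ) ε k z = z + m) := by
  have hg : ∀ z, GWL n θ ε k z = W n (cf θ) ε k z := GWL_eq n θ ε k
  have hne : (Icc (0 : ℝ) 1).Nonempty := ⟨0, by simp⟩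
  have hred : ∀ z : ℝ, ∃ (u : ℝ) (r : ℤ), u ∈ Icc (0 : ℝ) 1 ∧ z = u + r := by
    intro z
    exact ⟨Int.fract z, ⌊z⌋, ⟨Int.fract_nonneg z, (Int.fract_lt_one z).le⟩,
      (Int.fract_add_floor z).symm⟩
  by_cases h1 : ∃ x, x + m ≤ W n (cf θ) ε k x
  · by_cases h2 : ∃ y, W n (cf θ) ε k y ≤ y + m
    · left
      obtain ⟨x, hx⟩ := h1
      obtain ⟨y, hy⟩ := h2
      obtain ⟨z, hz⟩ := exists_fixed (h := fun u => W n (cf θ) ε k u - m)
        (x := x) (y := y + (⌈x - y⌉ : ℤ)) (fun u v h => sub_le_sub_right (Wf_mono hn θ ε k h) _)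
        (by have := Int.le_ceil (x - y); linarith) (by linarith)
        (by
          rw [W_add_int (cf_add θ)]
          linarith)
      exact ⟨z, by linarith⟩
    · right
      push Not at h2
      have hlsc : LowerSemicontinuousOn (fun z => W n (cc θ) ε k z - z) (Icc (0 : ℝ) 1) := by
        intro x _ y hy
        have hy' : y + x < W n (cc θ) ε k x := by linarith
        obtain ⟨y', hy1, hy2⟩ := exists_between hy'
        obtain ⟨w, hw1, hw2⟩ := Wc_left hn θ ε k hy2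
        have h3 : ∀ᶠ u in 𝓝 x, w < u := lt_mem_nhds hw1
        have h4 : ∀ᶠ u in 𝓝 x, u < x + (y' - (y + x)) := gt_mem_nhds (by linarith)
        refine Filter.Eventually.filter_mono nhdsWithin_le_nhds ?_
        filter_upwards [h3, h4] with u hu1 hu2
        have h5 := Wc_mono hn θ ε k hu1.le
        linarith
      obtain ⟨z, hz, hmin⟩ := LowerSemicontinuousOn.exists_isMinOn hne isCompact_Icc hlsc
      refine ⟨z, le_antisymm ?_ ?_⟩
      · by_contra hcon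
        push Not at hcon
        have h3 : ∀ x, x + (W n (cc θ) ε k z - z) ≤ GWL n θ ε k x := by
          intro x
          obtain ⟨u, r, hu, rfl⟩ := hred x
          have h4 := isMinOn_iff.1 hmin u hu
          have h5 := Wc_le_Wf hn θ ε k u
          rw [hg, W_add_int (cf_add θ)]
          linarith
        have h6 := CircleDeg1Lift.le_translationNumber_of_add_le _ h3
        have h7 : CircleDeg1Lift.translationNumber (GWL n θ ε k) = m := hm
        rw [h7] at h6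
        linarith
      · refine le_of_forall_lt fun y hy => ?_
        have h3 := h2 (y - m)
        have h4 := Wf_lt_Wc hn θ ε k (x := y - m) (y := z) (by linarith)
        linarith
  · exfalso
    push Not at h1
    have husc : UpperSemicontinuousOn (fun z => W n (cf θ) ε k z - z) (Icc (0 : ℝ) 1) := by
      intro x _ y hy
      have hy' : W n (cf θ) ε k x < y + x := by linarith
      obtain ⟨y', hy1, hy2⟩ := exists_between hy'
      obtain ⟨w, hw1, hw2⟩ := Wf_right hn θ ε k hy1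
      have h3 : ∀ᶠ u in 𝓝 x, u < w := gt_mem_nhds hw1
      have h4 : ∀ᶠ u in 𝓝 x, x - ((y + x) - y') < u := lt_mem_nhds (by linarith)
      refine Filter.Eventually.filter_mono nhdsWithin_le_nhds ?_
      filter_upwards [h3, h4] with u hu1 hu2
      have h5 := Wf_mono hn θ ε k hu1.le
      linarith
    obtain ⟨z, hz, hmax⟩ := UpperSemicontinuousOn.exists_isMaxOn hne isCompact_Icc husc
    have h3 : ∀ x, GWL n θ ε k x ≤ x + (W n (cf θ) ε k z - z) := by
      intro x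
      obtain ⟨u, r, hu, rfl⟩ := hred x
      have h4 := isMaxOn_iff.1 hmax u hu
      rw [hg, W_add_int (cf_add θ)]
      linarith
    have h6 := CircleDeg1Lift.translationNumber_le_of_le_add _ h3
    have h7 : CircleDeg1Lift.translationNumber (GWL n θ ε k) = m := hm
    rw [h7] at h6
    have h8 := h1 z
    linarith

/-- a common margin for all iterates of a periodic point -/
theorem margin {n : ℕ} (hn : 2 ≤ n) {k : ℕ} (hk : 1 ≤ k) (θ α : ℝ)
    (hα : ∃ a : ℤ, ((n : ℝ) ^ k - 1) * α = a) (δ : ℝ) (hδ : 0 < δ) :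
    ∃ s, 0 < s ∧ s < δ ∧ ∀ t : ℕ, Int.fract ((n : ℝ) ^ t * α - θ) + s < 1 := by
  obtain ⟨a, ha⟩ := hα
  have hD : 1 < n ^ k := Nat.one_lt_pow (by omega) (by omega)
  obtain ⟨D, hDe⟩ : ∃ D : ℕ, n ^ k = D + 1 := ⟨n ^ k - 1, by omega⟩
  have hD0 : 0 < D := by omega
  have hDR : (n : ℝ) ^ k - 1 = D := by
    have : ((n ^ k : ℕ) : ℝ) = ((D + 1 : ℕ) : ℝ) := by rw [hDe]
    push_cast at this
    linarith
  rw [hDR] at ha
  have hDp : (0 : ℝ) < D := by exact_mod_cast hD0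
  have hev : ∀ᶠ s in 𝓝[>] (0 : ℝ), ∀ r ∈ Finset.range D,
      Int.fract (((r : ℕ) : ℝ) / D - θ) + s < 1 := by
    rw [Filter.eventually_all_finset]
    intro r _
    have h1 := Int.fract_lt_one (((r : ℕ) : ℝ) / D - θ)
    refine Filter.Eventually.filter_mono nhdsWithin_le_nhds ?_
    filter_upwards [gt_mem_nhds (by linarith :
      (0 : ℝ) < 1 - Int.fract (((r : ℕ) : ℝ) / D - θ))] with s hs
    linarith
  have hev2 : ∀ᶠ s in 𝓝[>] (0 : ℝ), s < δ :=
    Filter.Eventually.filter_mono nhdsWithin_le_nhds (gt_mem_nhds hδ)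
  have hev3 : ∀ᶠ s in 𝓝[>] (0 : ℝ), 0 < s := eventually_mem_nhdsWithin
  obtain ⟨s, h1, h2, h3⟩ := (hev.and (hev2.and hev3)).exists
  refine ⟨s, h3, h2, fun t => ?_⟩
  have hDz : (D : ℤ) ≠ 0 := by exact_mod_cast hD0.ne'
  have h4 : (((n : ℤ) ^ t * a % D).toNat : ℤ) = (n : ℤ) ^ t * a % D :=
    Int.toNat_of_nonneg (Int.emod_nonneg _ hDz)
  have h5 : ((n : ℤ) ^ t * a % D).toNat < D := by
    have := Int.emod_lt_of_pos ((n : ℤ) ^ t * a) (by exact_mod_cast hD0 : (0 : ℤ) < D)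
    omega
  have h6 := h1 _ (Finset.mem_range.2 h5)
  have h7 : (n : ℝ) ^ t * α - θ = (((((n : ℤ) ^ t * a % D).toNat : ℕ) : ℝ) / D - θ) +
      (((n : ℤ) ^ t * a / D : ℤ) : ℝ) := by
    have h8 : ((n : ℤ) ^ t * a % D : ℤ) + D * ((n : ℤ) ^ t * a / D) = (n : ℤ) ^ t * a :=
      Int.emod_add_mul_ediv _ _
    have h9 : ((((n : ℤ) ^ t * a % D).toNat : ℕ) : ℝ) + D * (((n : ℤ) ^ t * a / D : ℤ) : ℝ) =
        (n : ℝ) ^ t * a := by
      have h10 : ((((((n : ℤ) ^ t * a % D).toNat : ℕ) : ℤ) + D * ((n : ℤ) ^ t * a / D) : ℤ) : ℝ) =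
          (((n : ℤ) ^ t * a : ℤ) : ℝ) := by rw [h4, h8]
      push_cast at h10
      exact_mod_cast h10
    have h11 : (n : ℝ) ^ t * α = ((n : ℝ) ^ t * a) / D := by
      rw [eq_div_iff hDp.ne', ← ha]
      ring
    rw [h11, ← h9]
    field_simp
    ring
  rw [h7, Int.fract_add_intCast]
  exact h6

end RI_

open RI_ in
theorem p_RI : T_RI := by
  intro n k θ ε hn hk hε hint δ hδ
  obtain ⟨m, hm⟩ := hint
  have hEx : ∀ α : ℝ, (∃ a : ℤ, ((n : ℝ) ^ k - 1) * α = a) → Ex n k 1 α := by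
    intro α hα
    refine ⟨le_rfl, ?_, fun q' h1 h2 => absurd h2 (by omega)⟩
    rw [mul_one]
    exact hα
  rcases exists_fix hn k θ ε m hm with ⟨z, hz⟩ | ⟨z, hz⟩
  · obtain ⟨h1, h2⟩ := alpha (cf_add θ) hn hk hε hz
    obtain ⟨s, hs0, hs1, hs2⟩ := margin hn hk θ z h1 δ hδ
    refine ⟨θ - s, z, ?_, hEx z h1, ?_, ?_⟩
    · rw [show θ - s - θ = -s by ring, abs_neg, abs_of_pos hs0]
      exact hs1
    · rintro t - ⟨M, hM⟩
      have h3 := hs2 t
      have h4 := Int.fract_nonneg ((n : ℝ) ^ t * z - θ)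
      have h5 := Int.self_sub_floor ((n : ℝ) ^ t * z - θ)
      have h6 : ((M - ⌊(n : ℝ) ^ t * z - θ⌋ : ℤ) : ℝ) =
          Int.fract ((n : ℝ) ^ t * z - θ) + s := by
        push_cast
        rw [← hM, ← h5]
        ring
      have h7 : (0 : ℝ) < ((M - ⌊(n : ℝ) ^ t * z - θ⌋ : ℤ) : ℝ) := by
        rw [h6]
        linarith
      have h8 : ((M - ⌊(n : ℝ) ^ t * z - θ⌋ : ℤ) : ℝ) < 1 := by
        rw [h6]
        linarith
      have h9 : (0 : ℤ) < M - ⌊(n : ℝ) ^ t * z - θ⌋ := by exact_mod_cast h7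
      have h10 : M - ⌊(n : ℝ) ^ t * z - θ⌋ < 1 := by exact_mod_cast h8
      omega
    · intro t
      have h3 := hs2 (t + 1)
      have h4 := Int.fract_nonneg ((n : ℝ) ^ (t + 1) * z - θ)
      have h5 := Int.self_sub_floor ((n : ℝ) ^ (t + 1) * z - θ)
      have h6 : ⌊(n : ℝ) ^ (t + 1) * z - (θ - s)⌋ = cf θ ((n : ℝ) ^ (t + 1) * z) := by
        unfold cf
        rw [Int.floor_eq_iff]
        constructor <;> linarith
      rw [h6]
      exact h2 t
  · obtain ⟨h1, h2⟩ := alpha (cc_add θ) hn hk hε hz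
    have h1' : ∃ a : ℤ, ((n : ℝ) ^ k - 1) * (-z) = a := by
      obtain ⟨a, ha⟩ := h1
      exact ⟨-a, by push_cast; rw [← ha]; ring⟩
    obtain ⟨s, hs0, hs1, hs2⟩ := margin hn hk (-θ) (-z) h1' δ hδ
    have hfl : ∀ t : ℕ, (⌈(n : ℝ) ^ t * z - θ⌉ : ℝ) - ((n : ℝ) ^ t * z - θ) =
        Int.fract ((n : ℝ) ^ t * (-z) - (-θ)) := by
      intro t
      have e : (n : ℝ) ^ t * (-z) - (-θ) = -((n : ℝ) ^ t * z - θ) := by ring
      rw [e, ← Int.self_sub_floor, Int.floor_neg]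
      push_cast
      ring
    refine ⟨θ + s, z, ?_, hEx z h1, ?_, ?_⟩
    · rw [show θ + s - θ = s by ring, abs_of_pos hs0]
      exact hs1
    · rintro t - ⟨M, hM⟩
      have h3 := hs2 t
      have h4 := Int.fract_nonneg ((n : ℝ) ^ t * (-z) - (-θ))
      have h5 := hfl t
      have h6 : ((⌈(n : ℝ) ^ t * z - θ⌉ - M : ℤ) : ℝ) =
          Int.fract ((n : ℝ) ^ t * (-z) - (-θ)) + s := by
        push_cast
        rw [← hM, ← h5]
        ring
      have h7 : (0 : ℝ) < ((⌈(n : ℝ) ^ t * z - θ⌉ - M : ℤ) : ℝ) := by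
        rw [h6]
        linarith
      have h8 : ((⌈(n : ℝ) ^ t * z - θ⌉ - M : ℤ) : ℝ) < 1 := by
        rw [h6]
        linarith
      have h9 : (0 : ℤ) < ⌈(n : ℝ) ^ t * z - θ⌉ - M := by exact_mod_cast h7
      have h10 : ⌈(n : ℝ) ^ t * z - θ⌉ - M < 1 := by exact_mod_cast h8
      omega
    · intro t
      have h3 := hs2 (t + 1)
      have h4 := Int.fract_nonneg ((n : ℝ) ^ (t + 1) * (-z) - (-θ))
      have h5 := hfl (t + 1)
      have h6 : ⌊(n : ℝ) ^ (t + 1) * z - (θ + s)⌋ = cc θ ((n : ℝ) ^ (t + 1) * z) := by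
        unfold cc
        rw [Int.floor_eq_iff]
        push_cast
        constructor <;> linarith
      rw [h6]
      exact h2 t

end Pool.Agent.PLim
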