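import Pool.Agent.PLim.Targets

set_option autoImplicit false
set_option maxHeartbeats 4000000

open Complex Filter Topology Set

namespace Pool.Agent.PLim

namespace RINV_

lemma isInt_add_int {x y : ℝ} (m : ℤ) (h : x = y + m) : IsInt x ↔ IsInt y := by
  constructor
  · rintro ⟨a, ha⟩
    refine ⟨a - m, ?_⟩
    push_cast
    linarith
  · rintro ⟨a, ha⟩
    refine ⟨a + m, ?_⟩
    push_cast
    linarith

section

variable (h1 : T_RS) (n k : ℕ) (hn : 2 ≤ n)

include h1 hn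

/-- shift by an integer -/
lemma shift (θ : ℝ) (r : ℤ) (ε : ℕ → ℤ) :
    Rot n k (θ + r) ε = Rot n k θ (fun t => ε t + r) - r * k := by
  induction r using Int.induction_on generalizing ε with
  | zero =>
    have e : (fun t => ε t + 0) = ε := by
      funext t
      ring
    rw [e]
    simp
  | succ i ih =>
    have h2 := (h1 n k ε (θ + (i : ℤ)) hn).1
    have e1 : θ + ((i : ℤ) : ℝ) + 1 = θ + (((i : ℤ) + 1 : ℤ) : ℝ) := by
      push_cast
      ring
    rw [e1] at h2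
    rw [h2, ih]
    have e2 : (fun t => ε t + 1 + (i : ℤ)) = fun t => ε t + ((i : ℤ) + 1) := by
      funext t
      ring
    rw [e2]
    push_cast
    ring
  | pred i ih =>
    have h2 := (h1 n k (fun t => ε t - 1) (θ + ((-(i : ℤ) - 1 : ℤ) : ℝ)) hn).1
    have e1 : θ + ((-(i : ℤ) - 1 : ℤ) : ℝ) + 1 = θ + ((-(i : ℤ) : ℤ) : ℝ) := by
      push_cast
      ring
    rw [e1, ih] at h2
    have e2 : (fun t => ε t - 1 + 1) = ε := by
      funext t
      ring
    have e3 : (fun t => ε t - 1 + -(i : ℤ)) = fun t => ε t + (-(i : ℤ) - 1) := by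
      funext t
      ring
    rw [e2, e3] at h2
    push_cast at h2 ⊢
    linarith

lemma shift_n (θ : ℝ) (s : ℤ) (ε : ℕ → ℤ) :
    Rot n k (θ + ((n * s : ℤ) : ℝ)) ε = Rot n k θ ε + ((-(s * ((k * (n - 1) : ℕ) : ℤ)) : ℤ) : ℝ) := by
  rw [shift h1 n k hn]
  have h2 := (h1 n k ε θ hn).2.1 (fun _ => s)
  have e : (fun t => ε t + (n : ℤ) * s) = fun t => ε t + n * (fun _ : ℕ => s) t := rfl
  rw [e, h2]
  have hn1 : 1 ≤ n := by omega
  push_cast [Nat.cast_sub hn1]
  rw [Finset.sum_const, Finset.card_range, nsmul_eq_mul]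
  ring

/-- the rotation number of the normalised word -/
lemma norm_word (θ : ℝ) (ε : ℕ → ℤ) : ∃ N : ℤ, ∀ θ : ℝ,
    Rot n k (θ + ε 0) (fun j => (ε j - ε 0) % (n : ℤ)) = Rot n k θ ε + N := by
  refine ⟨(∑ t ∈ Finset.range k, -((ε t - ε 0) / (n : ℤ))) - ε 0 * k, fun θ => ?_⟩
  have e : (fun j => (ε j - ε 0) % (n : ℤ)) =
      fun j => (ε j - ε 0) + n * (fun t => -((ε t - ε 0) / (n : ℤ))) j := by
    funext j
    rw [Int.emod_def]
    ring
  rw [e, (h1 n k (fun j => ε j - ε 0) (θ + ε 0) hn).2.1, shift h1 n k hn]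
  have e2 : (fun t => ε t - ε 0 + ε 0) = ε := by
    funext t
    ring
  rw [e2]
  push_cast
  ring

end

end RINV_

open RINV_ in
theorem p_RINV (h1 : T_RS) (h2 : T_RC) : T_RINV := by
  intro n k ε θ hn hk
  have hfst : ∀ (θ : ℝ) (ε : ℕ → ℤ), IsInt (Rot n k θ ε) ↔
      IsInt (Rot n k (θ + ε 0) (fun j => (ε j - ε 0) % (n : ℤ))) := by
    intro θ ε
    obtain ⟨N, hN⟩ := norm_word h1 n k hn θ ε
    exact (isInt_add_int N (hN θ)).symm
  refine ⟨hfst θ ε, ?_, ⟨?_, ?_⟩, ?_⟩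
  · intro ε' hε'
    have hw : (fun j => (ε' j - ε' 0) % (n : ℤ)) = fun j => (ε j - ε 0) % (n : ℤ) := by
      funext j
      apply Int.ModEq.eq
      rw [Int.modEq_iff_dvd]
      have h3 := dvd_sub (hε' j) (hε' 0)
      have e : ε j - ε 0 - (ε' j - ε' 0) = ε j - ε' j - (ε 0 - ε' 0) := by ring
      rw [e]
      exact h3
    obtain ⟨s, hs⟩ := hε' 0
    constructor
    · unfold lab
      refine Prod.ext ?_ ?_
      · funext j
        show ((ε' ((j : ℕ) + 1) - ε' 0 : ℤ) : ZMod n) = ((ε ((j : ℕ) + 1) - ε 0 : ℤ) : ZMod n)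
        rw [ZMod.intCast_eq_intCast_iff_dvd_sub]
        have h3 := dvd_sub (hε' ((j : ℕ) + 1)) (hε' 0)
        have e : ε ((j : ℕ) + 1) - ε 0 - (ε' ((j : ℕ) + 1) - ε' 0) =
          ε ((j : ℕ) + 1) - ε' ((j : ℕ) + 1) - (ε 0 - ε' 0) := by ring
        rw [e]
        exact h3
      · show ((⌊Rot n k (θ + ε' 0) (fun j => (ε' j - ε' 0) % (n : ℤ))⌋ : ℤ) : ZMod (k * (n - 1))) =
          ((⌊Rot n k (θ + ε 0) (fun j => (ε j - ε 0) % (n : ℤ))⌋ : ℤ) : ZMod (k * (n - 1)))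
        rw [hw]
        have e1 : θ + (ε 0 : ℝ) = θ + (ε' 0 : ℝ) + ((n * s : ℤ) : ℝ) := by
          have : (ε 0 : ℝ) = ε' 0 + ((n * s : ℤ) : ℝ) := by
            have h3 : ε 0 = ε' 0 + n * s := by linarith
            exact_mod_cast h3
          rw [this]
          ring
        rw [e1, shift_n h1 n k hn, Int.floor_add_intCast,
          ZMod.intCast_eq_intCast_iff_dvd_sub]
        refine ⟨-s, ?_⟩
        ring
    · have e : ε' = fun t => ε t + n * (fun t => (ε' t - ε t) / (n : ℤ)) t := by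
        funext t
        have h3 : (n : ℤ) ∣ ε' t - ε t := by
          have h4 := (hε' t).neg_right
          rwa [neg_sub] at h4
        show ε' t = ε t + n * ((ε' t - ε t) / (n : ℤ))
        rw [Int.mul_ediv_cancel' h3]
        ring
      rw [e]
      exact isInt_add_int _ ((h1 n k ε θ hn).2.1 _)
  · unfold lab
    refine Prod.ext ?_ ?_
    · funext j
      show ((ε ((j : ℕ) + 1) - ε 0 : ℤ) : ZMod n) =
        ((ε ((j : ℕ) + 1) + 1 - (ε 0 + 1) : ℤ) : ZMod n)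
      congr 1
      ring
    · show ((⌊Rot n k (θ + 1 + ε 0) (fun j => (ε j - ε 0) % (n : ℤ))⌋ : ℤ) : ZMod (k * (n - 1))) =
        ((⌊Rot n k (θ + ((ε 0 + 1 : ℤ) : ℝ)) (fun j => (ε j + 1 - (ε 0 + 1)) % (n : ℤ))⌋ : ℤ) :
          ZMod (k * (n - 1)))
      have e1 : θ + 1 + (ε 0 : ℝ) = θ + ((ε 0 + 1 : ℤ) : ℝ) := by
        push_cast
        ring
      have e2 : (fun j => (ε j + 1 - (ε 0 + 1)) % (n : ℤ)) = fun j => (ε j - ε 0) % (n : ℤ) := by
        funext j
        congr 1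
        ring
      rw [e1, e2]
  · refine isInt_add_int (-(k : ℤ)) ?_
    rw [(h1 n k ε θ hn).1]
    push_cast
    ring
  · intro hni
    have hni' : ¬ IsInt (Rot n k (θ + ε 0) (fun j => (ε j - ε 0) % (n : ℤ))) :=
      fun hh => hni ((hfst θ ε).2 hh)
    set w : ℕ → ℤ := fun j => (ε j - ε 0) % (n : ℤ) with hw
    have hcont : Continuous fun θ' : ℝ => Rot n k (θ' + ε 0) w :=
      (h2 n k w hn).1.comp (continuous_id.add continuous_const)
    set m : ℤ := ⌊Rot n k (θ + ε 0) w⌋ with hm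
    have hlt1 : (m : ℝ) < Rot n k (θ + ε 0) w := by
      refine lt_of_le_of_ne (Int.floor_le _) ?_
      intro h3
      exact hni' ⟨m, h3.symm⟩
    have hlt2 : Rot n k (θ + ε 0) w < m + 1 := Int.lt_floor_add_one _
    have hev : ∀ᶠ θ' in 𝓝 θ, Rot n k (θ' + ε 0) w ∈ Ioo (m : ℝ) (m + 1) :=
      hcont.continuousAt.eventually (isOpen_Ioo.mem_nhds ⟨hlt1, hlt2⟩)
    refine hev.mono fun θ' hθ' => ?_
    have hfl : ⌊Rot n k (θ' + ε 0) w⌋ = m := Int.floor_eq_iff.2 ⟨hθ'.1.le, hθ'.2⟩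
    constructor
    · intro hh
      obtain ⟨a, ha⟩ := (hfst θ' ε).1 hh
      have h3 : (m : ℝ) < a := by rw [← ha]; exact hθ'.1
      have h4 : (a : ℝ) < m + 1 := by rw [← ha]; exact hθ'.2
      have h5 : m < a := by exact_mod_cast h3
      have h6 : a < m + 1 := by exact_mod_cast h4
      omega
    · unfold lab
      refine Prod.ext rfl ?_
      show ((⌊Rot n k (θ' + ε 0) w⌋ : ℤ) : ZMod (k * (n - 1))) =
        ((⌊Rot n k (θ + ε 0) w⌋ : ℤ) : ZMod (k * (n - 1)))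
      rw [hfl]

end Pool.Agent.PLim
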