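import Pool.Agent.PLim.Targets

/-!
# RP: rotation numbers of periodic angles
-/

set_option autoImplicit false

open Complex Filter Topology Set

namespace Pool.Agent.PLim

namespace RP_

theorem gm_int (n : ℕ) (hn : n ≠ 0) (θ x y : ℝ) (e : ℤ) (hx : x = n * y)
    (h : (n : ℤ) ∣ ⌊x - θ⌋ - e) (s : ℤ) : ∃ j : ℤ, Gm n θ e (x + s) = y + j := by
  obtain ⟨a, ha⟩ := h
  refine ⟨⌊x - θ⌋ + s - a, ?_⟩
  unfold Gm
  have h1 : ⌊x + s - θ⌋ = ⌊x - θ⌋ + s := by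
    have : x + s - θ = x - θ + s := by ring
    rw [this, Int.floor_add_intCast]
  have h2 : (e : ℝ) = ⌊x - θ⌋ - n * a := by
    have h3 : (⌊x - θ⌋ - e : ℤ) = n * a := ha
    have h4 : ((⌊x - θ⌋ - e : ℤ) : ℝ) = ((n * a : ℤ) : ℝ) := by rw [h3]
    push_cast at h4
    linarith
  have hn' : (n : ℝ) ≠ 0 := Nat.cast_ne_zero.mpr hn
  rw [h1, h2]
  push_cast
  have h3 : x + s - (⌊x - θ⌋ + s) + (⌊x - θ⌋ - n * a) = n * (y - a) := by
    rw [mul_sub, ← hx]
    ring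
  rw [h3, mul_div_cancel_left₀ _ hn']
  ring

theorem per_mul (k : ℕ) (ε : ℕ → ℤ) (h : Per k ε) (j m : ℕ) : ε (k * j + m) = ε m := by
  induction j with
  | zero => simp
  | succ j ih =>
    have h1 : k * (j + 1) + m = (k * j + m) + k := by ring
    rw [h1, h, ih]

theorem gwl_int (n k : ℕ) (hn : n ≠ 0) (θ α : ℝ) (ε : ℕ → ℤ) (hC : Cod n θ α ε) (hP : Per k ε)
    (j m : ℕ) : ∀ s : ℤ, ∃ i : ℤ,
      GWL n θ ε m ((n : ℝ) ^ (k * j + m) * α + s) = (n : ℝ) ^ (k * j) * α + i := by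
  induction m with
  | zero =>
    intro s
    exact ⟨s, by simp [GWL]⟩
  | succ m ih =>
    intro s
    obtain ⟨i, hi⟩ := gm_int n hn θ ((n : ℝ) ^ (k * j + m + 1) * α) ((n : ℝ) ^ (k * j + m) * α)
      (ε m) (by rw [pow_succ]; ring) (by
        have := hC.2 (k * j + m)
        rwa [per_mul k ε hP] at this) s
    obtain ⟨i', hi'⟩ := ih i
    refine ⟨i', ?_⟩
    show GWL n θ ε m (Gm n θ (ε m) ((n : ℝ) ^ (k * j + (m + 1)) * α + s)) = _
    rw [← add_assoc, hi, hi']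

theorem iter_int (n k : ℕ) (hn : n ≠ 0) (θ α : ℝ) (ε : ℕ → ℤ) (hC : Cod n θ α ε)
    (hP : Per k ε) (j : ℕ) : ∀ s : ℤ, ∃ i : ℤ,
      ((GWL n θ ε k : CircleDeg1Lift) : ℝ → ℝ)^[j] ((n : ℝ) ^ (k * j) * α + s) = α + i := by
  induction j with
  | zero =>
    intro s
    exact ⟨s, by simp⟩
  | succ j ih =>
    intro s
    obtain ⟨i, hi⟩ := gwl_int n k hn θ α ε hC hP j k s
    obtain ⟨i', hi'⟩ := ih i
    refine ⟨i', ?_⟩
    rw [Function.iterate_succ_apply]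
    have h1 : k * (j + 1) = k * j + k := by ring
    rw [h1, hi, hi']

end RP_

open RP_ in
theorem p_RP : T_RP := by
  intro n k q θ α ε hn hk hEx hC hP
  have hn0 : n ≠ 0 := by omega
  obtain ⟨hq, ⟨a, ha⟩, hmin⟩ := hEx
  have hxq : (n : ℝ) ^ (k * q) * α = α + a := by linear_combination ha
  obtain ⟨i, hi⟩ := iter_int n k hn0 θ α ε hC hP q 0
  rw [Int.cast_zero, add_zero] at hi
  have hpow : ((GWL n θ ε k) ^ q) ((n : ℝ) ^ (k * q) * α) =
      (n : ℝ) ^ (k * q) * α + ((i - a : ℤ) : ℝ) := by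
    rw [CircleDeg1Lift.coe_pow, hi, hxq]
    push_cast
    ring
  have htn : (GWL n θ ε k).translationNumber = ((i - a : ℤ) : ℝ) / q :=
    CircleDeg1Lift.translationNumber_of_map_pow_eq_add_int _ hpow (by omega)
  have hq0 : (q : ℝ) ≠ 0 := by
    have : q ≠ 0 := by omega
    exact_mod_cast this
  have hrot : (q : ℝ) * Rot n k θ ε = ((i - a : ℤ) : ℝ) := by
    unfold Rot
    rw [htn, mul_div_cancel₀ _ hq0]
  refine ⟨⟨i - a, hrot⟩, ?_, ?_⟩
  · rintro ⟨m, hm⟩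
    by_contra hq1
    obtain ⟨q', rfl⟩ : ∃ q', q = q' + 1 := ⟨q - 1, by omega⟩
    have hq' : 1 ≤ q' := by omega
    rw [hm] at hrot
    rw [CircleDeg1Lift.coe_pow, ← hrot] at hpow
    have hfix := ((GWL n θ ε k).iterate_pos_eq_iff (n := q' + 1) (m := m) (by omega)).mp hpow
    obtain ⟨i', hi'⟩ := gwl_int n k hn0 θ α ε hC hP q' k 0
    rw [Int.cast_zero, add_zero] at hi'
    have h1 : k * (q' + 1) = k * q' + k := by ring
    rw [h1] at hfix hxq
    rw [hi'] at hfix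
    apply hmin q' hq' (by omega)
    refine ⟨a + m - i', ?_⟩
    push_cast
    linear_combination hfix + hxq
  · rintro rfl
    rw [Nat.cast_one, one_mul] at hrot
    exact ⟨i - a, hrot⟩

end Pool.Agent.PLim
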