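import Pool.Agent.PLim.Targets

/-!
# RS: shifts of the cut and of the digits
-/

set_option autoImplicit false

open Complex Filter Topology Set

namespace Pool.Agent.PLim

namespace RS_

theorem tn_add (g g' : CircleDeg1Lift) (m : ℤ) (h : ∀ x, g' x = g x + m) :
    g'.translationNumber = g.translationNumber + m := by
  have h1 : g' = (CircleDeg1Lift.translate (Multiplicative.ofAdd (m : ℝ)) : CircleDeg1Lift) * g := by
    ext x
    rw [h, CircleDeg1Lift.mul_apply, CircleDeg1Lift.translate_apply, add_comm]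
  have h2 : Commute (CircleDeg1Lift.translate (Multiplicative.ofAdd (m : ℝ)) : CircleDeg1Lift) g := by
    ext x
    rw [CircleDeg1Lift.mul_apply, CircleDeg1Lift.translate_apply, CircleDeg1Lift.mul_apply,
      CircleDeg1Lift.translate_apply, CircleDeg1Lift.map_int_add]
  rw [h1, CircleDeg1Lift.translationNumber_mul_of_commute h2,
    CircleDeg1Lift.translationNumber_translate, add_comm]

theorem Gm_shift (n : ℕ) (θ : ℝ) (i : ℤ) (x : ℝ) : Gm n (θ + 1) i x = Gm n θ (i + 1) x - 1 := by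
  rw [Gm_eq, Gm_eq]
  have h : ⌊x - (θ + 1)⌋ = ⌊x - θ⌋ - 1 := by
    rw [← sub_sub, Int.floor_sub_one]
  rw [h]
  push_cast
  ring

theorem Gm_add (n : ℕ) (hn : n ≠ 0) (θ : ℝ) (i m : ℤ) (x : ℝ) :
    Gm n θ (i + n * m) x = Gm n θ i x + m := by
  rw [Gm_eq, Gm_eq]
  have : (n : ℝ) ≠ 0 := Nat.cast_ne_zero.mpr hn
  push_cast
  field_simp
  ring

theorem GWL_shift (n : ℕ) (θ : ℝ) (ε : ℕ → ℤ) (k : ℕ) : ∀ x,
    GWL n (θ + 1) ε k x = GWL n θ (fun t => ε t + 1) k x - k := by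
  induction k with
  | zero =>
    intro x
    simp [GWL]
  | succ k ih =>
    intro x
    show GWL n (θ + 1) ε k (Gm n (θ + 1) (ε k) x) =
      GWL n θ (fun t => ε t + 1) k (Gm n θ (ε k + 1) x) - ((k + 1 : ℕ) : ℝ)
    rw [Gm_shift, ih]
    have h := (GWL n θ (fun t => ε t + 1) k).map_sub_int (Gm n θ (ε k + 1) x) 1
    rw [Int.cast_one] at h
    rw [h]
    push_cast
    ring

theorem GWL_add (n : ℕ) (hn : n ≠ 0) (θ : ℝ) (ε m : ℕ → ℤ) (k : ℕ) : ∀ x,
    GWL n θ (fun t => ε t + n * m t) k x =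
      GWL n θ ε k x + ((∑ t ∈ Finset.range k, m t : ℤ) : ℝ) := by
  induction k with
  | zero =>
    intro x
    simp [GWL]
  | succ k ih =>
    intro x
    show GWL n θ (fun t => ε t + n * m t) k (Gm n θ (ε k + n * m k) x) =
      GWL n θ ε k (Gm n θ (ε k) x) + ((∑ t ∈ Finset.range (k + 1), m t : ℤ) : ℝ)
    rw [Gm_add n hn, ih, CircleDeg1Lift.map_add_int, Finset.sum_range_succ]
    push_cast
    ring

theorem rot_shift (n k : ℕ) (ε : ℕ → ℤ) (θ : ℝ) :
    Rot n k (θ + 1) ε = Rot n k θ (fun t => ε t + 1) - k := by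
  unfold Rot
  have h := tn_add (GWL n θ (fun t => ε t + 1) k) (GWL n (θ + 1) ε k) (-(k : ℤ)) (by
    intro x
    rw [GWL_shift]
    push_cast
    ring)
  rw [h]
  push_cast
  ring

theorem rot_add (n k : ℕ) (hn : n ≠ 0) (ε m : ℕ → ℤ) (θ : ℝ) :
    Rot n k θ (fun t => ε t + n * m t) =
      Rot n k θ ε + ((∑ t ∈ Finset.range k, m t : ℤ) : ℝ) :=
  tn_add _ _ _ (GWL_add n hn θ ε m k)

theorem rot_shift_nat (n k : ℕ) (ε : ℕ → ℤ) (θ : ℝ) (r : ℕ) :
    Rot n k (θ + r) ε = Rot n k θ (fun t => ε t + r) - r * k := by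
  induction r generalizing ε with
  | zero => simp
  | succ r ih =>
    have h1 : θ + ((r + 1 : ℕ) : ℝ) = (θ + r) + 1 := by push_cast; ring
    rw [h1, rot_shift, ih]
    have h2 : (fun t => ε t + 1 + (r : ℤ)) = fun t => ε t + ((r + 1 : ℕ) : ℤ) := by
      funext t
      push_cast
      ring
    rw [h2]
    push_cast
    ring

end RS_

open RS_ in
theorem p_RS : T_RS := by
  intro n k ε θ hn
  have hn0 : n ≠ 0 := by omega
  refine ⟨rot_shift n k ε θ, fun m => rot_add n k hn0 ε m θ, ?_⟩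
  rw [rot_shift_nat]
  have h1 : (fun t => ε t + (n : ℤ)) = fun t => ε t + n * (fun _ : ℕ => (1 : ℤ)) t := by
    funext t
    simp
  rw [h1, rot_add n k hn0]
  have h2 : 1 ≤ n := by omega
  rw [Finset.sum_const, Finset.card_range]
  push_cast [Nat.cast_sub h2]
  simp only [nsmul_eq_mul, mul_one, Int.cast_natCast]
  ring

end Pool.Agent.PLim
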