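import Pool.Agent.PLim.Targets

/-!
# SEG: displacement along one level
-/

set_option autoImplicit false

open Complex Filter Topology Set MeasureTheory
open Pool.Agent.Multibrot Pool.Agent.Limb

namespace Pool.Agent.PLim

namespace SEG_

open Metric

/-- A holomorphic logarithm on a disc. -/
lemma exists_log {f : ℂ → ℂ} {x : ℂ} {R : ℝ} (hf : DifferentiableOn ℂ f (ball x R)) (hR : 0 < R)
    (h0 : ∀ z ∈ ball x R, f z ≠ 0) :
    ∃ F : ℂ → ℂ, DifferentiableOn ℂ F (ball x R) ∧ ∀ z ∈ ball x R, exp (F z) = f z := by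
  have hd : DifferentiableOn ℂ (fun z => deriv f z / f z) (ball x R) :=
    (hf.deriv isOpen_ball).div hf h0
  obtain ⟨F, hFx, hF⟩ := hd.isExactOn_ball.with_val_at x (Complex.log (f x))
  have hx : x ∈ ball x R := mem_ball_self hR
  refine ⟨F, fun z hz => (hF z hz).differentiableAt.differentiableWithinAt, ?_⟩
  have hG : ∀ z ∈ ball x R, HasDerivAt (fun z => f z * Complex.exp (-F z)) 0 z := by
    intro z hz
    have hfz : HasDerivAt f (deriv f z) z :=
      (hf.differentiableAt (isOpen_ball.mem_nhds hz)).hasDerivAt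
    have h1 : HasDerivAt (fun z => f z * Complex.exp (-F z)) (deriv f z * Complex.exp (-F z) +
        f z * (Complex.exp (-F z) * -(deriv f z / f z))) z :=
      hfz.mul ((hF z hz).neg.cexp)
    have h3 : f z * (deriv f z / f z) = deriv f z := mul_div_cancel₀ _ (h0 z hz)
    have h4 : deriv f z * Complex.exp (-F z) +
        f z * (Complex.exp (-F z) * -(deriv f z / f z)) = 0 := by
      linear_combination (-Complex.exp (-F z)) * h3
    rw [h4] at h1
    exact h1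
  intro z hz
  have hconst : f z * Complex.exp (-F z) = f x * Complex.exp (-F x) := by
    apply (convex_ball x R).is_const_of_fderivWithin_eq_zero (𝕜 := ℂ)
      (f := fun z => f z * Complex.exp (-F z))
    · intro w hw
      exact (hG w hw).differentiableAt.differentiableWithinAt
    · intro w hw
      rw [fderivWithin_of_isOpen isOpen_ball hw]
      have := (hG w hw).hasFDerivAt.fderiv
      rw [this]
      ext
      simp
    · exact hz
    · exact hx
  have h2 : f x * Complex.exp (-F x) = 1 := by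
    rw [hFx, Complex.exp_neg, Complex.exp_log (h0 x hx)]
    exact mul_inv_cancel₀ (h0 x hx)
  rw [h2, Complex.exp_neg] at hconst
  have h3 := Complex.exp_ne_zero (F z)
  field_simp at hconst
  exact hconst.symm

/-- An injective holomorphic function has a nonzero derivative. -/
lemma one_var {φ : ℂ → ℂ} {r : ℝ} (hr : 0 < r) (hφ : DifferentiableOn ℂ φ (ball 0 r))
    (hinj : InjOn φ (ball 0 r)) : deriv φ 0 ≠ 0 := by
  intro hd0
  have hmem : (0 : ℂ) ∈ ball (0 : ℂ) r := mem_ball_self hr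
  have hφa : AnalyticAt ℂ φ 0 := hφ.analyticAt (ball_mem_nhds 0 hr)
  have hFa : AnalyticAt ℂ (fun z => φ z - φ 0) 0 := hφa.sub analyticAt_const
  have hne : ¬ ∀ᶠ z in 𝓝 (0 : ℂ), φ z - φ 0 = 0 := by
    intro h
    have h2 : ∀ᶠ z in 𝓝[≠] (0 : ℂ), (φ z - φ 0 = 0 ∧ z ∈ ball (0 : ℂ) r) ∧ z ≠ 0 :=
      ((h.and (ball_mem_nhds 0 hr)).filter_mono nhdsWithin_le_nhds).and
        eventually_mem_nhdsWithin
    obtain ⟨z, ⟨hz1, hz2⟩, hz3⟩ := h2.exists
    exact hz3 (hinj hz2 hmem (sub_eq_zero.1 hz1))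
  obtain ⟨k, g, hg, hg0, hFg⟩ := hFa.exists_eventuallyEq_pow_smul_nonzero_iff.2 hne
  simp only [sub_zero, smul_eq_mul] at hFg
  have hk0 : k ≠ 0 := by
    rintro rfl
    have := hFg.self_of_nhds
    simp at this
    exact hg0 this.symm
  have hk1 : k ≠ 1 := by
    rintro rfl
    have h1 : HasDerivAt (fun z => φ z - φ 0) 0 0 := by
      have := hφa.differentiableAt.hasDerivAt
      rw [hd0] at this
      exact this.sub_const _
    have h2 : HasDerivAt (fun z : ℂ => z ^ 1 * g z) (g 0) 0 := by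
      have h3 := hg.differentiableAt.hasDerivAt
      have : HasDerivAt (fun z : ℂ => z * g z) (1 * g 0 + 0 * deriv g 0) 0 :=
        (hasDerivAt_id (0 : ℂ)).mul h3
      simpa only [pow_one, one_mul, zero_mul, add_zero] using this
    have h4 := h2.congr_of_eventuallyEq hFg
    exact hg0 (h4.unique h1)
  set u : ℂ → ℂ := fun z => (g z / g 0) ^ ((k : ℂ)⁻¹) with hu
  have hua : AnalyticAt ℂ u 0 := by
    have h1 : AnalyticAt ℂ (fun z => g z / g 0) 0 := hg.div analyticAt_const hg0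
    refine h1.cpow analyticAt_const ?_
    rw [div_self hg0]
    exact Complex.one_mem_slitPlane
  have hu0 : u 0 = 1 := by simp [hu, div_self hg0]
  have huk : ∀ z, u z ^ k = g z / g 0 := fun z => Complex.cpow_nat_inv_pow _ hk0
  have hw : HasStrictDerivAt (fun z => z * u z) 1 0 := by
    have h1 : HasStrictDerivAt (fun z : ℂ => z * u z) (1 * u 0 + 0 * deriv u 0) 0 :=
      (hasStrictDerivAt_id (0 : ℂ)).mul hua.hasStrictDerivAt
    simpa only [hu0, one_mul, zero_mul, add_zero] using h1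
  have hmap := hw.map_nhds_eq one_ne_zero
  rw [zero_mul] at hmap
  have hV : ∀ᶠ z in 𝓝 (0 : ℂ), φ z - φ 0 = z ^ k * g z ∧ z ∈ ball (0 : ℂ) r :=
    hFg.and (ball_mem_nhds 0 hr)
  have hW : (fun z => z * u z) '' {z | φ z - φ 0 = z ^ k * g z ∧ z ∈ ball (0 : ℂ) r} ∈
      𝓝 (0 : ℂ) := by
    rw [← hmap]
    exact image_mem_map hV
  set W := (fun z => z * u z) '' {z | φ z - φ 0 = z ^ k * g z ∧ z ∈ ball (0 : ℂ) r} with hWdef
  set ζ : ℂ := Complex.exp (2 * Real.pi * Complex.I / k) with hζ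
  have hprim : IsPrimitiveRoot ζ k := Complex.isPrimitiveRoot_exp k hk0
  have hζ1 : ζ ≠ 1 := hprim.ne_one (by omega)
  have hζW : ∀ᶠ η in 𝓝 (0 : ℂ), ζ * η ∈ W := by
    have : Tendsto (fun η : ℂ => ζ * η) (𝓝 0) (𝓝 (ζ * 0)) :=
      (continuous_const.mul continuous_id).tendsto 0
    rw [mul_zero] at this
    exact this hW
  have hW' : ∀ᶠ η in 𝓝 (0 : ℂ), η ∈ W := hW
  have h2 : ∀ᶠ η in 𝓝[≠] (0 : ℂ), (η ∈ W ∧ ζ * η ∈ W) ∧ η ≠ 0 :=
    ((hW'.and hζW).filter_mono nhdsWithin_le_nhds).and eventually_mem_nhdsWithin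
  obtain ⟨η, ⟨⟨z1, ⟨hz1, hz1'⟩, he1⟩, ⟨z2, ⟨hz2, hz2'⟩, he2⟩⟩, hη⟩ := h2.exists
  simp only at he1 he2
  have hval : ∀ z, z ^ k * g z = (z * u z) ^ k * g 0 := by
    intro z
    rw [mul_pow, huk]
    field_simp
  have heq : φ z1 = φ z2 := by
    have h1 : φ z1 - φ 0 = η ^ k * g 0 := by rw [hz1, hval, he1]
    have h2 : φ z2 - φ 0 = η ^ k * g 0 := by
      rw [hz2, hval, he2, mul_pow, hprim.pow_eq_one, one_mul]
    have := h1.trans h2.symm
    exact sub_left_injective this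
  have hz12 := hinj hz1' hz2' heq
  rw [hz12, he2] at he1
  apply hζ1
  have : ζ * η = 1 * η := by rw [he1, one_mul]
  exact mul_right_cancel₀ hη this

/-- Two continuous logarithms of the same function differ by a constant. -/
lemma log_unique {a b : ℝ} {f g : ℝ → ℂ} (hab : a ≤ b) (hf : ContinuousOn f (Icc a b))
    (hg : ContinuousOn g (Icc a b)) (h : ∀ t ∈ Icc a b, exp (f t) = exp (g t)) :
    ∃ k : ℤ, ∀ t ∈ Icc a b, f t = g t + k * (2 * Real.pi * I) := by
  have hT : ∀ t ∈ Icc a b, f t - g t ∈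
      ((AddSubgroup.zmultiples (2 * Real.pi * I : ℂ) : AddSubgroup ℂ) : Set ℂ) := by
    intro t ht
    obtain ⟨k, hk⟩ := exp_eq_exp_iff_exists_int.1 (h t ht)
    rw [SetLike.mem_coe, AddSubgroup.mem_zmultiples_iff]
    exact ⟨k, by rw [hk, zsmul_eq_mul]; ring⟩
  have ha : a ∈ Icc a b := ⟨le_rfl, hab⟩
  obtain ⟨k, hk⟩ := exp_eq_exp_iff_exists_int.1 (h a ha)
  refine ⟨k, fun t ht => ?_⟩
  have hdisc : IsDiscrete
      ((AddSubgroup.zmultiples (2 * Real.pi * I : ℂ) : AddSubgroup ℂ) : Set ℂ) :=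
    ⟨NormedSpace.discreteTopology_zmultiples _⟩
  have h1 : f t - g t = f a - g a :=
    isPreconnected_Icc.constant_of_mapsTo hdisc (hf.sub hg) hT ht ha
  linear_combination h1 + hk

/-- The basic estimate for one chart. -/
lemma piece (hD : T_DISP1) (hC : T_CHV) {Ω Ω' : Set ℂ} (hΩ' : IsOpen Ω') (hsub : Ω ⊆ Ω')
    {K : ℂ → ℂ} (hK : DifferentiableOn ℂ K Ω') (hK0 : ∀ x ∈ Ω, K x ≠ 0) {a : ℂ} {r : ℝ}
    (hr : 0 < r) {χ : ℂ → ℂ} (hχ : DifferentiableOn ℂ χ (ball a (2 * r)))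
    (hinj : InjOn χ (ball a (2 * r))) (hmap : ∀ u ∈ ball a (2 * r), χ u ∈ Ω) {η L : ℝ → ℂ}
    {t1 t2 : ℝ} (h12 : t1 ≤ t2) (hη : ContinuousOn η (Icc t1 t2))
    (hηm : ∀ t ∈ Icc t1 t2, η t ∈ ball a r) (hL : ContinuousOn L (Icc t1 t2))
    (hLe : ∀ t ∈ Icc t1 t2, exp (L t) = K (χ (η t))) :
    ENNReal.ofReal (‖L t2 - L t1‖ ^ 2) ≤
      ENNReal.ofReal (4 / Real.pi) * ∫⁻ x in Ω, ‖deriv K x / K x‖ₑ ^ 2 := by
  have hB : IsOpen (ball a (2 * r)) := isOpen_ball
  have hcomp : DifferentiableOn ℂ (fun u => K (χ u)) (ball a (2 * r)) :=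
    hK.comp hχ (fun u hu => hsub (hmap u hu))
  obtain ⟨F, hF, hFe⟩ := exists_log hcomp (by positivity) (fun u hu => hK0 _ (hmap u hu))
  have hsub2 : ball a r ⊆ ball a (2 * r) := ball_subset_ball (by linarith)
  have hηm2 : ∀ t ∈ Icc t1 t2, η t ∈ ball a (2 * r) := fun t ht => hsub2 (hηm t ht)
  have hFη : ContinuousOn (fun t => F (η t)) (Icc t1 t2) := hF.continuousOn.comp hη hηm2
  obtain ⟨k, hk⟩ := log_unique h12 hL hFη (fun t ht => by rw [hLe t ht, hFe _ (hηm2 t ht)])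
  have h1 : L t2 - L t1 = F (η t2) - F (η t1) := by
    rw [hk t2 ⟨h12, le_rfl⟩, hk t1 ⟨le_rfl, h12⟩]
    ring
  rw [h1]
  refine (hD a r F hr hF _ (hηm t2 ⟨h12, le_rfl⟩) _ (hηm t1 ⟨le_rfl, h12⟩)).trans ?_
  have h2 : ∫⁻ u in ball a (2 * r), ‖deriv F u‖ₑ ^ 2 =
      ∫⁻ x in χ '' ball a (2 * r), ‖deriv K x / K x‖ₑ ^ 2 := by
    rw [hC (ball a (2 * r)) χ (fun x => ‖deriv K x / K x‖ₑ ^ 2) hB hχ hinj]
    refine setLIntegral_congr_fun measurableSet_ball (fun u hu => ?_)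
    have hχu := hχ.differentiableAt (hB.mem_nhds hu)
    have hKu := hK.differentiableAt (hΩ'.mem_nhds (hsub (hmap u hu)))
    have hFu := hF.differentiableAt (hB.mem_nhds hu)
    have e1 : HasDerivAt (fun u => exp (F u)) (exp (F u) * deriv F u) u := hFu.hasDerivAt.cexp
    have e2 : HasDerivAt (fun u => K (χ u)) (deriv K (χ u) * deriv χ u) u :=
      hKu.hasDerivAt.comp u hχu.hasDerivAt
    have e3 : (fun u => exp (F u)) =ᶠ[𝓝 u] fun u => K (χ u) := by
      filter_upwards [hB.mem_nhds hu] with v hv using hFe v hv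
    have e4 := e1.unique (e2.congr_of_eventuallyEq e3)
    rw [hFe u hu] at e4
    have hKne := hK0 _ (hmap u hu)
    have e5 : deriv F u = deriv χ u * (deriv K (χ u) / K (χ u)) := by
      field_simp
      linear_combination e4
    simp only [e5, enorm_mul, mul_pow]
  rw [h2]
  refine mul_le_mul_right (lintegral_mono_set ?_) _
  rintro _ ⟨u, hu, rfl⟩
  exact hmap u hu

/-- The facts on `h = exp ∘ Λ c` and `l = ls c ζ` that are used. -/
structure Ctx (n : ℕ) (c ζ : ℂ) (s : ℝ) (h l : ℂ → ℂ) : Prop where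
  hn : 2 ≤ n
  hs : 0 < s
  hz : ζ.re = s
  opn : IsOpen {x : ℂ | G n c x < s}
  dif : DifferentiableOn ℂ h {ξ : ℂ | s / n < ξ.re}
  inj : ∀ ξ ξ' : ℂ, s / n < ξ.re → s / n < ξ'.re → h ξ = h ξ' →
    ∃ k : ℤ, ξ - ξ' = k * (2 * Real.pi * I)
  per : ∀ k : ℤ, h (ζ + k * (2 * Real.pi * I)) = c
  inO : ∀ ξ χ : ℂ, s / n < ξ.re → ξ.re < n * s → χ ^ n = h ξ - c →
    s / (n : ℝ) ^ 2 < G n c χ ∧ G n c χ < s
  lcont : ∀ y t1 t2 : ℝ, s / n < t1 → (∀ m : ℤ, y ≠ ζ.im + 2 * Real.pi * m) →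
    ContinuousOn (fun t : ℝ => l (t + y * I)) (Icc t1 t2)
  lexp : ∀ y t : ℝ, s / n < t → (∀ m : ℤ, y ≠ ζ.im + 2 * Real.pi * m) →
    exp (l (t + y * I)) = h (t + y * I) - c

lemma small_int {z : ℂ} {m : ℤ} (hz : z = m * (2 * Real.pi * I)) (h : ‖z‖ < 2 * Real.pi) :
    m = 0 := by
  by_contra hm
  have h1 : (1 : ℝ) ≤ |(m : ℝ)| := by
    exact_mod_cast Int.one_le_abs hm
  have h2 : ‖z‖ = |(m : ℝ)| * (2 * Real.pi) := by
    rw [hz, norm_mul, norm_mul, norm_mul, norm_I, Complex.norm_intCast]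
    simp [abs_of_pos Real.pi_pos]
  rw [h2] at h
  nlinarith [Real.pi_pos]

lemma exp_shift (n : ℕ) (hn : n ≠ 0) (b : ℂ) (k : ℤ) :
    exp ((b + k * (2 * Real.pi * I)) / n) ^ n = exp b := by
  rw [← Complex.exp_nat_mul, mul_div_cancel₀ _ (by exact_mod_cast hn), Complex.exp_add,
    Complex.exp_int_mul_two_pi_mul_I, mul_one]

/-- The regular charts. -/
lemma reg (hD : T_DISP1) (hC : T_CHV) {n : ℕ} {c ζ : ℂ} {s : ℝ} {h l : ℂ → ℂ}
    (X : Ctx n c ζ s h l) {y κ : ℝ} (hκ : 0 < κ) (hy : ∀ m : ℤ, y ≠ ζ.im + 2 * Real.pi * m)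
    {K : ℂ → ℂ} (hK : DifferentiableOn ℂ K {x : ℂ | G n c x < s})
    (hK0 : ∀ x : ℂ, G n c x < s → 0 < G n c x → K x ≠ 0)
    {L : ℝ → ℂ} {t1 t2 ts : ℝ} (h1 : t1 ≤ ts) (h2 : ts ≤ t2)
    (h3 : t2 - t1 < κ * s / 2) (h4 : s / n + κ * s ≤ ts) (h5 : ts + κ * s ≤ n * s)
    (h4' : s / n < t1) (h6 : 2 * (κ * s) < 2 * Real.pi)
    (hreg : ∀ k : ℤ, κ * s ≤ |ts - s| ∨ κ * s ≤ |y - (ζ.im + 2 * Real.pi * k)|)
    (hL : ContinuousOn L (Icc t1 t2))
    (hLe : ∀ t ∈ Icc t1 t2, exp (L t) = K (exp (l (t + y * I) / n))) :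
    ENNReal.ofReal (‖L t2 - L t1‖ ^ 2) ≤ ENNReal.ofReal (4 / Real.pi) *
      ∫⁻ x in {x : ℂ | s / (n : ℝ) ^ 2 < G n c x ∧ G n c x < s},
        ‖deriv K x / K x‖ₑ ^ 2 := by
  have hn0 : n ≠ 0 := by have := X.hn; omega
  have hnC : (n : ℂ) ≠ 0 := by exact_mod_cast hn0
  have hs := X.hs
  have h12 : t1 ≤ t2 := h1.trans h2
  set a : ℂ := (ts : ℂ) + y * I with ha
  set r : ℝ := κ * s / 2 with hr
  have hr0 : 0 < r := by positivity
  have h2r : 2 * r = κ * s := by rw [hr]; ring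
  have hball : ∀ ξ ∈ ball a (2 * r), |ξ.re - ts| < κ * s ∧ |ξ.im - y| < κ * s := by
    intro ξ hξ
    rw [mem_ball, dist_eq_norm, h2r] at hξ
    have e1 := (abs_re_le_norm (ξ - a)).trans_lt hξ
    have e2 := (abs_im_le_norm (ξ - a)).trans_lt hξ
    simp [ha] at e1 e2
    exact ⟨e1, e2⟩
  have hre : ∀ ξ ∈ ball a (2 * r), s / n < ξ.re ∧ ξ.re < n * s := by
    intro ξ hξ
    have := abs_lt.1 (hball ξ hξ).1
    constructor <;> linarith
  have hg : DifferentiableOn ℂ (fun ξ => h ξ - c) (ball a (2 * r)) :=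
    (X.dif.mono fun ξ hξ => (hre ξ hξ).1).sub_const c
  have hg0 : ∀ ξ ∈ ball a (2 * r), h ξ - c ≠ 0 := by
    intro ξ hξ h0
    have e0 : h ξ = h ζ := by
      have := X.per 0
      simp only [Int.cast_zero, zero_mul, add_zero] at this
      rw [this]
      exact sub_eq_zero.1 h0
    have e1 : s / n < ζ.re := by
      rw [X.hz, div_lt_iff₀ (by exact_mod_cast Nat.pos_of_ne_zero hn0)]
      have : (2 : ℝ) ≤ n := by exact_mod_cast X.hn
      nlinarith
    obtain ⟨k, hk⟩ := X.inj ξ ζ (hre ξ hξ).1 e1 e0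
    have e2 := congrArg Complex.re hk
    have e3 := congrArg Complex.im hk
    simp at e2 e3
    rcases hreg k with e4 | e4
    · have e5 := (hball ξ hξ).1
      have e6 : ξ.re = s := by rw [← X.hz]; linarith
      rw [e6, abs_sub_comm] at e5
      linarith
    · have e5 := (hball ξ hξ).2
      have e6 : ξ.im = ζ.im + 2 * Real.pi * k := by linarith
      rw [e6, abs_sub_comm] at e5
      linarith
  have hginj : ∀ ξ ∈ ball a (2 * r), ∀ ξ' ∈ ball a (2 * r), h ξ - c = h ξ' - c → ξ = ξ' := by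
    intro ξ hξ ξ' hξ' he
    obtain ⟨k, hk⟩ := X.inj ξ ξ' (hre ξ hξ).1 (hre ξ' hξ').1 (sub_left_injective he)
    have e1 : ‖ξ - ξ'‖ < 2 * Real.pi := by
      have e2 : dist ξ ξ' ≤ dist ξ a + dist ξ' a := dist_triangle_right _ _ _
      rw [mem_ball, h2r] at hξ hξ'
      rw [← dist_eq_norm]
      linarith
    have e2 := small_int hk e1
    rw [e2] at hk
    simpa [sub_eq_zero] using hk
  obtain ⟨b, hb, hbe⟩ := exists_log hg (by positivity) hg0
  have hηm : ∀ t ∈ Icc t1 t2, ((t : ℂ) + y * I) ∈ ball a r := by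
    intro t ht
    rw [mem_ball, dist_eq_norm, ha]
    have e1 : ((t : ℂ) + y * I) - (ts + y * I) = ((t - ts : ℝ) : ℂ) := by push_cast; ring
    rw [e1, Complex.norm_real, Real.norm_eq_abs, abs_lt]
    constructor <;> linarith [ht.1, ht.2]
  have hηm2 : ∀ t ∈ Icc t1 t2, ((t : ℂ) + y * I) ∈ ball a (2 * r) := fun t ht =>
    ball_subset_ball (by linarith) (hηm t ht)
  have hηc : ContinuousOn (fun t : ℝ => ((t : ℂ) + y * I)) (Icc t1 t2) := by
    fun_prop
  obtain ⟨k0, hk0⟩ := log_unique h12 (X.lcont y t1 t2 h4' hy)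
    (hb.continuousOn.comp hηc hηm2) (fun t ht => by
      rw [X.lexp y t (by linarith [ht.1]) hy]
      exact (hbe _ (hηm2 t ht)).symm)
  have hpow : ∀ ξ ∈ ball a (2 * r),
      exp ((b ξ + k0 * (2 * Real.pi * I)) / n) ^ n = h ξ - c := fun ξ hξ => by
    rw [exp_shift n hn0, hbe ξ hξ]
  refine piece hD hC X.opn (fun x hx => hx.2) hK ?_ hr0
    (χ := fun ξ => exp ((b ξ + k0 * (2 * Real.pi * I)) / n)) ?_ ?_ ?_ h12 hηc hηm hL ?_
  · intro x hx
    exact hK0 x hx.2 (lt_trans (by positivity) hx.1)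
  · exact ((hb.add_const _).div_const _).cexp
  · intro ξ hξ ξ' hξ' he
    apply hginj ξ hξ ξ' hξ'
    rw [← hpow ξ hξ, ← hpow ξ' hξ']
    exact congrArg (fun z => z ^ n) he
  · intro ξ hξ
    exact X.inO ξ _ (hre ξ hξ).1 (hre ξ hξ).2 (hpow ξ hξ)
  · intro t ht
    rw [hLe t ht]
    have := hk0 t ht
    rw [this]
    rfl

/-- The critical chart. -/
lemma crit (hD : T_DISP1) (hC : T_CHV) {n : ℕ} {c ζ : ℂ} {s : ℝ} {h l : ℂ → ℂ}
    (X : Ctx n c ζ s h l) {y κ ε : ℝ} (hκ : 0 < κ) (hε : ε = κ * 2 ^ (n + 1)) (k : ℤ)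
    (hy : ∀ m : ℤ, y ≠ ζ.im + 2 * Real.pi * m)
    {K : ℂ → ℂ} (hK : DifferentiableOn ℂ K {x : ℂ | G n c x < s})
    (hK0 : ∀ x : ℂ, G n c x < s → 0 < G n c x → K x ≠ 0)
    {L : ℝ → ℂ} {t1 t2 : ℝ} (h12 : t1 ≤ t2) (h4' : s / n < t1)
    (hε1 : s / n + ε * s ≤ s) (hε2 : s + ε * s ≤ n * s) (hε3 : 2 * (ε * s) < 2 * Real.pi)
    (hnear : ∀ t ∈ Icc t1 t2, |t - s| < κ * s)
    (hk : |y - (ζ.im + 2 * Real.pi * k)| < κ * s)
    (hL : ContinuousOn L (Icc t1 t2))
    (hLe : ∀ t ∈ Icc t1 t2, exp (L t) = K (exp (l (t + y * I) / n))) :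
    ENNReal.ofReal (‖L t2 - L t1‖ ^ 2) ≤ ENNReal.ofReal (4 / Real.pi) *
      ∫⁻ x in {x : ℂ | s / (n : ℝ) ^ 2 < G n c x ∧ G n c x < s},
        ‖deriv K x / K x‖ₑ ^ 2 := by
  have hn0 : n ≠ 0 := by have := X.hn; omega
  have hnC : (n : ℂ) ≠ 0 := by exact_mod_cast hn0
  have hs := X.hs
  have hε0 : 0 < ε := by rw [hε]; positivity
  have hR0 : 0 < ε * s := by positivity
  set r : ℝ := (ε * s) ^ ((n : ℝ)⁻¹) / 2 with hr
  have hr0 : 0 < r := by positivity
  have h2r : (2 * r) ^ n = ε * s := by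
    have : 2 * r = (ε * s) ^ ((n : ℝ)⁻¹) := by rw [hr]; ring
    rw [this]
    exact Real.rpow_inv_natCast_pow hR0.le hn0
  have hrn : r ^ n = 2 * κ * s := by
    have e1 : (2 : ℝ) ^ n * r ^ n = ε * s := by rw [← mul_pow, h2r]
    have e2 : (2 : ℝ) ^ n ≠ 0 := by positivity
    have e3 : (2 : ℝ) ^ n * r ^ n = 2 ^ n * (2 * κ * s) := by
      rw [e1, hε, pow_succ]
      ring
    exact mul_left_cancel₀ e2 e3
  set ζk : ℂ := ζ + k * (2 * Real.pi * I) with hζk
  have hζre : ζk.re = s := by rw [hζk, ← X.hz]; simp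
  have hζim : ζk.im = ζ.im + 2 * Real.pi * k := by rw [hζk]; simp; ring
  have hre : ∀ u ∈ ball (0 : ℂ) (ε * s), s / n < (ζk + u).re ∧ (ζk + u).re < n * s := by
    intro u hu
    rw [mem_ball_zero_iff] at hu
    have e1 := abs_lt.1 ((abs_re_le_norm u).trans_lt hu)
    rw [add_re, hζre]
    constructor <;> linarith [e1.1, e1.2]
  have hg : DifferentiableOn ℂ (fun u => h (ζk + u) - c) (ball 0 (ε * s)) := by
    refine DifferentiableOn.sub_const ?_ c
    exact X.dif.comp ((differentiableOn_const ζk).add differentiableOn_id)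
      (fun u hu => (hre u hu).1)
  have hg0 : h (ζk + 0) - c = 0 := by rw [add_zero, hζk, X.per k, sub_self]
  have hginj : InjOn (fun u => h (ζk + u) - c) (ball 0 (ε * s)) := by
    intro u hu v hv he
    obtain ⟨m, hm⟩ := X.inj _ _ (hre u hu).1 (hre v hv).1 (sub_left_injective he)
    have e0 : u - v = m * (2 * Real.pi * I) := by rw [← hm]; ring
    have e1 : ‖u - v‖ < 2 * Real.pi := by
      rw [mem_ball_zero_iff] at hu hv
      have := norm_sub_le u v
      linarith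
    have e2 := small_int e0 e1
    rw [e2] at e0
    simpa [sub_eq_zero] using e0
  have h0mem : (0 : ℂ) ∈ ball (0 : ℂ) (ε * s) := mem_ball_self hR0
  set E1 : ℂ → ℂ := dslope (fun u => h (ζk + u) - c) 0 with hE1
  have hE1d : DifferentiableOn ℂ E1 (ball 0 (ε * s)) :=
    (Complex.differentiableOn_dslope (ball_mem_nhds 0 hR0)).2 hg
  have hgE : ∀ u, h (ζk + u) - c = u * E1 u := by
    intro u
    have e1 := sub_smul_dslope (fun u => h (ζk + u) - c) 0 u
    simp only [sub_zero, smul_eq_mul, hg0] at e1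
    exact e1.symm
  have hE10 : ∀ u ∈ ball (0 : ℂ) (ε * s), E1 u ≠ 0 := by
    intro u hu
    by_cases hu0 : u = 0
    · rw [hu0, hE1, dslope_same]
      exact one_var hR0 hg hginj
    · intro he
      apply hu0
      apply hginj hu h0mem
      simp only [hg0]
      rw [hgE, he, mul_zero]
  obtain ⟨b, hb, hbe⟩ := exists_log hE1d hR0 hE10
  -- the path
  have hwim : y - ζk.im ≠ 0 := by
    rw [hζim]
    exact sub_ne_zero.2 (hy k)
  have hwslit : ∀ t : ℝ, (t : ℂ) + y * I - ζk ∈ slitPlane := by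
    intro t
    rw [mem_slitPlane_iff]
    right
    simpa using hwim
  have hwn : ∀ t ∈ Icc t1 t2, ‖(t : ℂ) + y * I - ζk‖ < 2 * κ * s := by
    intro t ht
    have e1 := Complex.norm_le_abs_re_add_abs_im ((t : ℂ) + y * I - ζk)
    have e2 : ((t : ℂ) + y * I - ζk).re = t - s := by simp [hζre]
    have e3 : ((t : ℂ) + y * I - ζk).im = y - (ζ.im + 2 * Real.pi * k) := by simp [hζim]
    rw [e2, e3] at e1
    have e4 := hnear t ht
    linarith
  have h2κ : 2 * κ * s ≤ ε * s := by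
    have e1 : (1 : ℝ) ≤ 2 ^ n := one_le_pow₀ (by norm_num)
    rw [hε, pow_succ]
    have : 0 < κ * s := by positivity
    nlinarith
  have hwb : ∀ t ∈ Icc t1 t2, (t : ℂ) + y * I - ζk ∈ ball (0 : ℂ) (ε * s) := by
    intro t ht
    rw [mem_ball_zero_iff]
    exact (hwn t ht).trans_le h2κ
  have hwc : ContinuousOn (fun t : ℝ => (t : ℂ) + y * I - ζk) (Icc t1 t2) := by fun_prop
  have hlogc : ContinuousOn (fun t : ℝ => log ((t : ℂ) + y * I - ζk)) (Icc t1 t2) :=
    hwc.clog (fun t _ => hwslit t)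
  obtain ⟨k0, hk0⟩ := log_unique h12 (X.lcont y t1 t2 h4' hy)
    (hlogc.add (hb.continuousOn.comp hwc hwb)) (fun t ht => by
      have e0 : (t : ℂ) + y * I = ζk + ((t : ℂ) + y * I - ζk) := by ring
      rw [X.lexp y t (by linarith [ht.1]) hy]
      change h ((t : ℂ) + y * I) - c = exp (log ((t : ℂ) + y * I - ζk) +
        b ((t : ℂ) + y * I - ζk))
      rw [Complex.exp_add, Complex.exp_log (slitPlane_ne_zero (hwslit t)), hbe _ (hwb t ht),
        ← hgE]
      rw [← e0])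
  have hpb : ∀ η ∈ ball (0 : ℂ) (2 * r), η ^ n ∈ ball (0 : ℂ) (ε * s) := by
    intro η hη
    rw [mem_ball_zero_iff] at hη ⊢
    rw [norm_pow, ← h2r]
    exact pow_lt_pow_left₀ hη (norm_nonneg _) hn0
  have hpow : ∀ η ∈ ball (0 : ℂ) (2 * r),
      (η * exp ((b (η ^ n) + k0 * (2 * Real.pi * I)) / n)) ^ n = h (ζk + η ^ n) - c := by
    intro η hη
    rw [mul_pow, exp_shift n hn0, hbe _ (hpb η hη), hgE]
  have hηpow : ∀ t : ℝ, exp (log ((t : ℂ) + y * I - ζk) / n) ^ n = (t : ℂ) + y * I - ζk := by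
    intro t
    rw [← Complex.exp_nat_mul, mul_div_cancel₀ _ hnC, Complex.exp_log
      (slitPlane_ne_zero (hwslit t))]
  refine piece hD hC X.opn (fun x hx => hx.2) hK ?_ (a := 0) hr0
    (χ := fun η => η * exp ((b (η ^ n) + k0 * (2 * Real.pi * I)) / n)) ?_ ?_ ?_ h12
    (η := fun t => exp (log ((t : ℂ) + y * I - ζk) / n)) ?_ ?_ hL ?_
  · intro x hx
    exact hK0 x hx.2 (lt_trans (by positivity) hx.1)
  · refine differentiableOn_id.mul ?_
    refine DifferentiableOn.cexp ?_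
    refine DifferentiableOn.div_const ?_ _
    refine DifferentiableOn.add_const _ ?_
    exact hb.comp (differentiableOn_id.pow n) hpb
  · intro η hη η' hη' he
    have e1 : h (ζk + η ^ n) - c = h (ζk + η' ^ n) - c := by
      rw [← hpow η hη, ← hpow η' hη']
      exact congrArg (fun z => z ^ n) he
    have e2 : η ^ n = η' ^ n := hginj (hpb η hη) (hpb η' hη') e1
    simp only [e2] at he
    exact mul_right_cancel₀ (Complex.exp_ne_zero _) he
  · intro η hη
    exact X.inO _ _ (hre _ (hpb η hη)).1 (hre _ (hpb η hη)).2 (hpow η hη)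
  · exact (hlogc.div_const _).cexp
  · intro t ht
    rw [mem_ball_zero_iff]
    refine lt_of_pow_lt_pow_left₀ n hr0.le ?_
    rw [← norm_pow, hηpow, hrn]
    exact hwn t ht
  · intro t ht
    rw [hLe t ht]
    have e1 : l ((t : ℂ) + y * I) = log ((t : ℂ) + y * I - ζk) + b ((t : ℂ) + y * I - ζk) +
      k0 * (2 * Real.pi * I) := hk0 t ht
    rw [e1]
    simp only [hηpow]
    rw [← Complex.exp_add]
    congr 2
    ring

/-- Chaining. -/
lemma chain {I0 : ENNReal} {N : ℕ} (hN : 0 < N) {f : ℕ → ℂ}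
    (h : ∀ i < N, ENNReal.ofReal (‖f (i + 1) - f i‖ ^ 2) ≤ ENNReal.ofReal (4 / Real.pi) * I0) :
    ENNReal.ofReal (‖f N - f 0‖ ^ 2) ≤ ENNReal.ofReal ((N : ℝ) ^ 2 * (4 / Real.pi)) * I0 := by
  rw [ENNReal.ofReal_mul (by positivity), mul_assoc]
  set J := ENNReal.ofReal (4 / Real.pi) * I0 with hJ
  by_cases hJt : J = ⊤
  · rw [hJt, ENNReal.mul_top]
    · exact le_top
    · rw [Ne, ENNReal.ofReal_eq_zero, not_le]
      positivity
  · have h1 : ∀ i < N, ‖f (i + 1) - f i‖ ≤ √ J.toReal := by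
      intro i hi
      apply Real.le_sqrt_of_sq_le
      exact (ENNReal.ofReal_le_iff_le_toReal hJt).1 (h i hi)
    have h2 : ‖f N - f 0‖ ≤ N * √ J.toReal := by
      rw [← Finset.sum_range_sub]
      refine (norm_sum_le _ _).trans ?_
      refine (Finset.sum_le_sum (fun i hi => h1 i (Finset.mem_range.1 hi))).trans ?_
      rw [Finset.sum_const, Finset.card_range, nsmul_eq_mul]
    have h3 : ‖f N - f 0‖ ^ 2 ≤ (N : ℝ) ^ 2 * J.toReal := by
      have e1 := pow_le_pow_left₀ (norm_nonneg _) h2 2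
      rwa [mul_pow, Real.sq_sqrt ENNReal.toReal_nonneg] at e1
    calc ENNReal.ofReal (‖f N - f 0‖ ^ 2) ≤ ENNReal.ofReal ((N : ℝ) ^ 2 * J.toReal) :=
          ENNReal.ofReal_le_ofReal h3
      _ = ENNReal.ofReal ((N : ℝ) ^ 2) * J := by
          rw [ENNReal.ofReal_mul (by positivity), ENNReal.ofReal_toReal hJt]

/-- The context for a parameter outside the Multibrot set. -/
lemma ctx (hGR : T_GREEN) {n : ℕ} (hn : 2 ≤ n) {Λ : ℂ → ℂ → ℂ} {lh ls : ℂ → ℂ → ℂ → ℂ} {c ζ : ℂ}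
    (hBot : IsBot n Λ) (hLog : IsLog n Λ lh ls) (hcrit : Crit n Λ c ζ) :
    Ctx n c ζ ζ.re (fun ξ => exp (Λ c ξ)) (ls c ζ) := by
  obtain ⟨gcont, gnn, gF, -, -, gMM, gcc, -⟩ := hGR n hn
  have hn0 : (0 : ℝ) < n := by exact_mod_cast (by omega : 0 < n)
  have hnC : (n : ℂ) ≠ 0 := by exact_mod_cast (by omega : n ≠ 0)
  have hG0 : G n c 0 = ζ.re / n := by
    rw [hcrit.2.1, gcc, mul_div_cancel_left₀ _ hn0.ne']
  have hs : 0 < ζ.re := by
    have h1 : G n c 0 ≠ 0 := fun h => hcrit.1 ((gMM c).2 h)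
    have h2 : 0 < G n c 0 := lt_of_le_of_ne (gnn c 0) (Ne.symm h1)
    rw [hG0] at h2
    exact (div_pos_iff_of_pos_right hn0).1 h2
  have hrot : ∀ (ξ : ℂ) (j : ℤ), G n c 0 < ξ.re →
      Λ c (ξ + j * (2 * Real.pi * I / n)) = Λ c ξ + j * (2 * Real.pi * I / n) := by
    intro ξ j hξ
    have hre : ∀ i : ℤ, (ξ + i * (2 * Real.pi * I / n)).re = ξ.re := by
      intro i
      have : (i : ℂ) * (2 * Real.pi * I / n) = ((i * (2 * Real.pi) / n : ℝ) : ℂ) * I := by
        push_cast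
        ring
      rw [this]
      simp
    induction j using Int.induction_on with
    | zero => simp
    | succ i ih =>
      have e1 := hBot.rot c (ξ + i * (2 * Real.pi * I / n)) (by
        have := hre i
        push_cast at this
        rw [this]
        exact hξ)
      push_cast at ih ⊢
      have e2 : ξ + ((i : ℂ) + 1) * (2 * Real.pi * I / n) =
        ξ + i * (2 * Real.pi * I / n) + 2 * Real.pi * I / n := by ring
      rw [e2, e1, ih]
      ring
    | pred i ih =>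
      have e1 := hBot.rot c (ξ + ((-i - 1 : ℤ) : ℂ) * (2 * Real.pi * I / n)) (by
        rw [hre (-i - 1)]
        exact hξ)
      push_cast at ih e1 ⊢
      have e2 : ξ + (-(i : ℂ) - 1) * (2 * Real.pi * I / n) + 2 * Real.pi * I / n =
        ξ + -i * (2 * Real.pi * I / n) := by ring
      rw [e2, ih] at e1
      linear_combination -e1
  refine ⟨hn, hs, rfl, ?_, ?_, ?_, ?_, ?_, ?_, ?_⟩
  · have h8 : Continuous (fun x : ℂ => (c, x)) := by fun_prop
    have h9 : Continuous ((fun q : ℂ × ℂ => G n q.1 q.2) ∘ fun x : ℂ => (c, x)) := gcont.comp h8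
    have h10 : Continuous (fun x : ℂ => G n c x) := h9
    exact isOpen_lt h10 continuous_const
  · have := hBot.diff c
    rw [hG0] at this
    exact this.cexp
  · intro ξ ξ' h1 h2 he
    exact hBot.inj c ξ ξ' (by rw [hG0]; exact h1) (by rw [hG0]; exact h2) he
  · intro k
    have h1 : G n c 0 < ζ.re := by
      rw [hG0, div_lt_iff₀ hn0]
      have : (2 : ℝ) ≤ n := by exact_mod_cast hn
      nlinarith
    have h2 := hrot ζ (n * k) h1
    have h3 : ((n * k : ℤ) : ℂ) * (2 * Real.pi * I / n) = k * (2 * Real.pi * I) := by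
      push_cast
      field_simp
    rw [h3] at h2
    rw [h2, Complex.exp_add, Complex.exp_int_mul_two_pi_mul_I, mul_one, hcrit.2.2]
  · intro ξ χ h1 h2 hχ
    have e1 : F n c χ = exp (Λ c ξ) := by
      rw [F, hχ]
      ring
    have e2 := gF c χ
    rw [e1, hBot.green c ξ (by rw [hG0]; exact h1)] at e2
    have e3 : G n c χ = ξ.re / n := by
      rw [e2, mul_div_cancel_left₀ _ hn0.ne']
    rw [e3]
    constructor
    · rw [pow_two, ← div_div]
      exact div_lt_div_of_pos_right h1 hn0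
    · rw [div_lt_iff₀ hn0]
      linarith
  · intro y t1 t2 h1 hy
    refine (hLog.lsdiff c ζ hcrit).continuousOn.comp (by fun_prop) ?_
    intro t ht
    refine ⟨?_, ?_⟩
    · have : ((t : ℂ) + y * I).re = t := by simp
      rw [this, hG0]
      linarith [ht.1]
    · intro m hm
      exfalso
      apply hy m
      simpa using hm
  · intro y t h1 hy
    refine hLog.lsexp c ζ _ hcrit ⟨?_, ?_⟩
    · have : ((t : ℂ) + y * I).re = t := by simp
      rw [this, hG0]
      exact h1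
    · intro m hm
      exfalso
      apply hy m
      simpa using hm

end SEG_

open SEG_ in
/-- SEG: displacement along one level. -/
theorem p_SEG (hGR : T_GREEN) (hD : T_DISP1) (hC : T_CHV) : T_SEG := by
  intro n hn
  have hn2 : (2 : ℝ) ≤ n := by exact_mod_cast hn
  have hn0 : (0 : ℝ) < n := by linarith
  have hNpos : 0 < 8 * n ^ 2 * 2 ^ (n + 1) := by positivity
  refine ⟨((8 * n ^ 2 * 2 ^ (n + 1) : ℕ) : ℝ) ^ 2 * (4 / Real.pi), by positivity, ?_⟩
  intro Λ lh ls c ζ y K L hBot hLog hcrit hζ6 hy hK _ hK0 hLc hLe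
  have X := ctx hGR hn hBot hLog hcrit
  set s : ℝ := ζ.re with hsdef
  have hs : 0 < s := X.hs
  set q : ℝ := √ (n : ℝ) with hq
  have hq2 : q * q = n := Real.mul_self_sqrt hn0.le
  have hq1 : 5 / 4 ≤ q := by
    apply Real.le_sqrt_of_sq_le
    norm_num
    linarith
  have hq0 : 0 < q := by linarith
  obtain ⟨κ, hκ⟩ : ∃ κ : ℝ, κ = 1 / (4 * n * 2 ^ (n + 1)) := ⟨_, rfl⟩
  have hκ0 : 0 < κ := by rw [hκ]; positivity
  have hεe : κ * 2 ^ (n + 1) = 1 / (4 * n) := by
    rw [hκ]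
    field_simp
  have h2n : (1 : ℝ) ≤ 2 ^ (n + 1) := one_le_pow₀ (by norm_num)
  have hκ1 : κ ≤ 1 / (4 * n) := by
    rw [← hεe]
    nlinarith
  have hε8 : 1 / (4 * (n : ℝ)) ≤ 1 / 8 := by
    apply one_div_le_one_div_of_le (by norm_num)
    linarith
  have hpi := Real.pi_gt_three
  -- numerical facts
  have hsq : s / q = s * q / n := by
    rw [← hq2]
    field_simp
  have hlow : s / n + κ * s ≤ s / q := by
    rw [hsq]
    have e1 : κ * s ≤ 1 / (4 * n) * s := mul_le_mul_of_nonneg_right hκ1 hs.le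
    have e2 : s / n + 1 / (4 * n) * s = s * (5 / 4) / n := by
      field_simp
      ring
    have e3 : s * (5 / 4) / n ≤ s * q / n := by gcongr
    linarith
  have hupp : s * q + κ * s ≤ n * s := by
    have e1 : κ ≤ 1 / 8 := hκ1.trans hε8
    have e2 : q + κ ≤ n := by
      rw [← hq2]
      nlinarith
    nlinarith
  have step : ∀ t1 t2 : ℝ, t1 ≤ t2 → s / q ≤ t1 → t2 ≤ s * q → t2 - t1 < κ * s / 2 →
      ENNReal.ofReal (‖L t2 - L t1‖ ^ 2) ≤ ENNReal.ofReal (4 / Real.pi) *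
        ∫⁻ x in {x : ℂ | s / (n : ℝ) ^ 2 < G n c x ∧ G n c x < s},
          ‖deriv K x / K x‖ₑ ^ 2 := by
    intro t1 t2 h12 h1 h2 h3
    have hsub : Icc t1 t2 ⊆ Icc (s / q) (s * q) := Icc_subset_Icc h1 h2
    have hκs : 0 < κ * s := by positivity
    have h4 : s / n < t1 := by linarith
    have hLe' : ∀ t ∈ Icc t1 t2, exp (L t) = K (exp (ls c ζ (t + y * I) / n)) :=
      fun t ht => hLe t (hsub ht)
    by_cases hreg : ∃ ts ∈ Icc t1 t2, ∀ k : ℤ, κ * s ≤ |ts - s| ∨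
        κ * s ≤ |y - (ζ.im + 2 * Real.pi * k)|
    · obtain ⟨ts, hts, hk⟩ := hreg
      refine reg hD hC X hκ0 hy hK hK0 hts.1 hts.2 h3 ?_ ?_ h4 ?_ hk (hLc.mono hsub) hLe'
      · linarith [hts.1]
      · linarith [hts.2]
      · have : κ ≤ 1 / 8 := hκ1.trans hε8
        nlinarith
    · have hcr : ∀ ts ∈ Icc t1 t2, ∃ k : ℤ, |ts - s| < κ * s ∧
          |y - (ζ.im + 2 * Real.pi * k)| < κ * s := by
        intro ts hts
        by_contra hcon
        apply hreg
        refine ⟨ts, hts, fun k => ?_⟩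
        by_contra h5
        rw [not_or, not_le, not_le] at h5
        exact hcon ⟨k, h5⟩
      obtain ⟨k, -, hk⟩ := hcr t1 ⟨le_rfl, h12⟩
      refine crit hD hC X hκ0 rfl k hy hK hK0 h12 h4 ?_ ?_ ?_ (fun t ht => ?_) hk
        (hLc.mono hsub) hLe'
      · rw [hεe]
        have e2 : s / n + 1 / (4 * n) * s = s * ((5 / 4) / n) := by
          field_simp
          ring
        have e3 : (5 / 4) / (n : ℝ) ≤ 1 := by
          rw [div_le_one hn0]
          linarith
        rw [e2]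
        nlinarith
      · rw [hεe]
        nlinarith
      · rw [hεe]
        nlinarith
      · obtain ⟨_, h6, _⟩ := hcr t ht
        exact h6
  -- chaining
  set N : ℕ := 8 * n ^ 2 * 2 ^ (n + 1) with hN
  have hNR : (0 : ℝ) < N := by exact_mod_cast hNpos
  have hNκ : 1 / (N : ℝ) = κ / (2 * n) := by
    rw [hκ, hN]
    push_cast
    field_simp
    norm_num
  have hdpos : 0 ≤ s * q - s / q := by
    rw [sub_nonneg, div_le_iff₀ hq0]
    nlinarith
  obtain ⟨pts, hpts⟩ : ∃ pts : ℕ → ℝ, ∀ i, pts i = s / q + i * ((s * q - s / q) / N) :=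
    ⟨fun i => s / q + i * ((s * q - s / q) / N), fun _ => rfl⟩
  have hp0 : pts 0 = s / q := by rw [hpts]; simp
  have hpN : pts N = s * q := by
    rw [hpts, mul_div_cancel₀ _ hNR.ne']
    ring
  have hstep : ∀ i, pts (i + 1) - pts i = (s * q - s / q) / N := by
    intro i
    rw [hpts, hpts]
    push_cast
    ring
  have hd0 : 0 ≤ (s * q - s / q) / N := by positivity
  have hmono : Monotone pts := monotone_nat_of_le_succ (fun i => by
    have := hstep i
    linarith)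
  have hfin := chain (I0 := ∫⁻ x in {x : ℂ | s / (n : ℝ) ^ 2 < G n c x ∧ G n c x < s},
          ‖deriv K x / K x‖ₑ ^ 2) hNpos (f := fun i => L (pts i)) (fun i hi => by
      refine step (pts i) (pts (i + 1)) (hmono (Nat.le_succ i)) ?_ ?_ ?_
      · rw [← hp0]
        exact hmono (Nat.zero_le i)
      · rw [← hpN]
        exact hmono hi
      · rw [hstep, div_eq_mul_one_div, hNκ]
        have e1 : s * q - s / q < s * q := by
          have : 0 < s / q := by positivity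
          linarith
        have e2 : (s * q - s / q) * (κ / (2 * n)) < s * q * (κ / (2 * n)) :=
          mul_lt_mul_of_pos_right e1 (by positivity)
        have e3 : s * q * (κ / (2 * n)) = κ * s / 2 * (1 / q) := by
          rw [← hq2]
          field_simp
        have e4 : κ * s / 2 * (1 / q) ≤ κ * s / 2 := by
          have e5 : 1 / q ≤ 1 := by
            rw [div_le_one hq0]
            linarith
          have e6 : 0 < κ * s / 2 := by positivity
          nlinarith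
        linarith)
  simp only [hp0, hpN] at hfin
  exact hfin

end Pool.Agent.PLim
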