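import Pool.Agent.PLim.Targets
import Pool.Agent.Limb.LAND
import Pool.Agent.Limb.STAB
import Pool.Agent.Multibrot.Annulus

/-!
# SNAIL: the snail lemma
-/

set_option autoImplicit false

open Complex Filter Topology Set MeasureTheory
open Pool.Agent.Multibrot Pool.Agent.Limb

namespace Pool.Agent.PLim.SNAIL_

lemma exists_log {U : Set ℂ} (hU : IsOpen U) (hc : Convex ℝ U) (hne : U.Nonempty) {g : ℂ → ℂ}
    (hg : DifferentiableOn ℂ g U) (h0 : ∀ x ∈ U, g x ≠ 0) :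
    ∃ f : ℂ → ℂ, DifferentiableOn ℂ f U ∧ ∀ x ∈ U, exp (f x) = g x := by
  have hs : IsSimplyConnected U := by
    have : ContractibleSpace U := hc.contractibleSpace hne
    exact SimplyConnectedSpace.ofContractible U
  obtain ⟨f, hf1, hf2⟩ := exists_continuousOn_eqOn_exp_comp hs hU hg.continuousOn (by
    rintro ⟨x, hx, hx0⟩
    exact h0 x hx hx0)
  refine ⟨f, ?_, fun x hx => hf2 hx⟩
  intro x hx
  have hgx : g x ≠ 0 := h0 x hx
  have hfa : ContinuousAt f x := hf1.continuousAt (hU.mem_nhds hx)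
  have hga : DifferentiableAt ℂ g x := hg.differentiableAt (hU.mem_nhds hx)
  have h1 : ∀ᶠ y in 𝓝 x, ‖f y - f x‖ < 1 := by
    have := Metric.tendsto_nhds.1 hfa.tendsto 1 one_pos
    filter_upwards [this] with y hy
    rwa [dist_eq_norm] at hy
  have h2 : f =ᶠ[𝓝 x] fun y => f x + log (g y / g x) := by
    filter_upwards [h1, hU.mem_nhds hx] with y hy hyU
    have h3 : exp (f y - f x) = g y / g x := by
      rw [exp_sub]
      have e1 : exp (f y) = g y := hf2 hyU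
      have e2 : exp (f x) = g x := hf2 hx
      rw [e1, e2]
    have h4 : |(f y - f x).im| < 1 := lt_of_le_of_lt (abs_im_le_norm _) hy
    have h5 := Real.pi_gt_three
    rw [abs_lt] at h4
    rw [← h3, log_exp (by linarith [h4.1]) (by linarith [h4.2])]
    ring
  have h6 : DifferentiableAt ℂ (fun y => f x + log (g y / g x)) x := by
    apply DifferentiableAt.const_add
    apply DifferentiableAt.clog (hga.div_const _)
    rw [div_self hgx]
    exact one_mem_slitPlane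
  exact (h6.congr_of_eventuallyEq h2).differentiableWithinAt

lemma annul_le {a b : ℝ} (ha : 0 < a) (hab : a ≤ b) :
    ∫⁻ x in annul a b, (‖x‖ₑ ^ 2)⁻¹ ≤ ENNReal.ofReal (2 * Real.pi * (Real.log b - Real.log a)) := by
  rw [lintegral_annul ha.le (by fun_prop)]
  have h1 : ∀ r ∈ Ioo a b, ∫⁻ θ in Ioo (-Real.pi) Real.pi,
      ENNReal.ofReal r * (‖circleMap 0 r θ‖ₑ ^ 2)⁻¹ = ENNReal.ofReal (2 * Real.pi * r⁻¹) := by
    intro r hr
    have hr0 : 0 < r := ha.trans hr.1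
    have h2 : ∀ θ : ℝ, ENNReal.ofReal r * (‖circleMap 0 r θ‖ₑ ^ 2)⁻¹ = ENNReal.ofReal r⁻¹ := by
      intro θ
      have h3 : ‖circleMap 0 r θ‖ₑ = ENNReal.ofReal r := by
        rw [← ofReal_norm, norm_circleMap_zero, abs_of_pos hr0]
      rw [h3, ← ENNReal.ofReal_pow hr0.le, ← ENNReal.ofReal_inv_of_pos (by positivity),
        ← ENNReal.ofReal_mul hr0.le]
      congr 1
      field_simp
    simp only [h2]
    rw [setLIntegral_const, Real.volume_Ioo, ← ENNReal.ofReal_mul (by positivity)]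
    congr 1
    ring
  rw [setLIntegral_congr_fun measurableSet_Ioo h1]
  have h4 : IntegrableOn (fun r : ℝ => 2 * Real.pi * r⁻¹) (Ioo a b) volume := by
    apply Integrable.const_mul
    have : IntegrableOn (fun r : ℝ => r⁻¹) (Icc a b) volume := by
      apply ContinuousOn.integrableOn_Icc
      apply ContinuousOn.inv₀ continuousOn_id
      intro r hr
      exact (ha.trans_le hr.1).ne'
    exact this.mono_set Ioo_subset_Icc_self
  rw [← ofReal_integral_eq_lintegral_ofReal h4 ?_]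
  · apply ENNReal.ofReal_le_ofReal
    apply le_of_eq
    rw [integral_const_mul, ← integral_Ioc_eq_integral_Ioo, ← intervalIntegral.integral_of_le hab,
      integral_inv_of_pos ha (ha.trans_le hab), Real.log_div (ha.trans_le hab).ne' ha.ne']
  · filter_upwards [self_mem_ae_restrict measurableSet_Ioo] with r hr
    have : 0 < r := ha.trans hr.1
    show (0 : ℝ) ≤ 2 * Real.pi * r⁻¹
    positivity


/-- a part of the wedge -/
def wd (y a b : ℝ) : Set ℂ := {ξ : ℂ | a < ξ.re ∧ ξ.re < b ∧ |ξ.im - y| < ξ.re}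

lemma wd_open (y a b : ℝ) : IsOpen (wd y a b) :=
  (isOpen_lt continuous_const continuous_re).inter
    ((isOpen_lt continuous_re continuous_const).inter
      (isOpen_lt (by fun_prop) continuous_re))

lemma wd_meas (y a b : ℝ) : MeasurableSet (wd y a b) := (wd_open y a b).measurableSet

lemma wd_pos {y a b : ℝ} {ξ : ℂ} (h : ξ ∈ wd y a b) : 0 < ξ.re :=
  lt_of_le_of_lt (abs_nonneg _) h.2.2

lemma re_pt (t y : ℝ) : ((t : ℂ) + y * I).re = t := by simp

lemma im_pt (t y : ℝ) : ((t : ℂ) + y * I).im = y := by simp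

section Core

variable {g : ℂ → ℂ}

/-- equal values only at points which differ by a multiple of `2 π i` -/
def Inj2 (g : ℂ → ℂ) : Prop := ∀ ξ ξ' : ℂ, 0 < ξ.re → 0 < ξ'.re → g ξ = g ξ' →
  ∃ k : ℤ, ξ - ξ' = k * (2 * Real.pi * I)

lemma eq_of_im (hinj : Inj2 g) {ξ ξ' : ℂ} (h : 0 < ξ.re) (h' : 0 < ξ'.re) (he : g ξ = g ξ')
    (hi : |ξ.im - ξ'.im| < 2 * Real.pi) : ξ = ξ' := by
  obtain ⟨k, hk⟩ := hinj ξ ξ' h h' he
  have h1 : (ξ - ξ').im = k * (2 * Real.pi) := by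
    rw [hk]
    have : (k : ℂ) * (2 * Real.pi * I) = ((k * (2 * Real.pi) : ℝ) : ℂ) * I := by push_cast; ring
    rw [this]
    simp
  rw [sub_im] at h1
  rw [h1, abs_mul, abs_of_pos (by positivity : (0 : ℝ) < 2 * Real.pi)] at hi
  have h2 : |(k : ℝ)| < 1 := by
    by_contra hcon
    push Not at hcon
    have := mul_le_mul_of_nonneg_right hcon (by positivity : (0 : ℝ) ≤ 2 * Real.pi)
    linarith
  have h3 : k = 0 := by
    have h4 : |k| < 1 := by exact_mod_cast h2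
    exact Int.abs_lt_one_iff.1 h4
  rw [h3] at hk
  simp only [Int.cast_zero, zero_mul] at hk
  exact sub_eq_zero.1 hk

lemma koebe (hK : T_KOEB) (hg : DifferentiableOn ℂ g {ξ | 0 < ξ.re})
    (hg0 : ∀ ξ : ℂ, 0 < ξ.re → g ξ ≠ 0) (hinj : Inj2 g) {ξ : ℂ} (h0 : 0 < ξ.re)
    (h1 : ξ.re ≤ Real.pi) : ‖deriv g ξ‖ * ξ.re ≤ 64 * ‖g ξ‖ := by
  have hsub : ∀ x ∈ Metric.ball ξ ξ.re, 0 < x.re := by
    intro x hx
    rw [Metric.mem_ball, dist_eq_norm] at hx
    have h2 := (abs_re_le_norm (x - ξ)).trans_lt hx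
    rw [sub_re, abs_lt] at h2
    linarith [h2.1]
  refine hK ξ ξ.re g h0 (hg.mono hsub) ?_ (fun x hx => hg0 x (hsub x hx))
  intro x hx x' hx' he
  refine eq_of_im hinj (hsub x hx) (hsub x' hx') he ?_
  rw [Metric.mem_ball, dist_eq_norm] at hx hx'
  have h2 : x.im - x'.im = ((x - ξ) - (x' - ξ)).im := by simp
  rw [h2]
  calc |((x - ξ) - (x' - ξ)).im| ≤ ‖(x - ξ) - (x' - ξ)‖ := abs_im_le_norm _
    _ ≤ ‖x - ξ‖ + ‖x' - ξ‖ := norm_sub_le _ _
    _ < 2 * Real.pi := by linarith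

lemma deriv_log {F : ℂ → ℂ} (hF : DifferentiableOn ℂ F {ξ | 0 < ξ.re})
    (hFg : ∀ ξ : ℂ, 0 < ξ.re → exp (F ξ) = g ξ) {ξ : ℂ} (h0 : 0 < ξ.re) :
    deriv g ξ = g ξ * deriv F ξ := by
  have hU : IsOpen {ξ : ℂ | 0 < ξ.re} := isOpen_lt continuous_const continuous_re
  have h1 : DifferentiableAt ℂ F ξ := hF.differentiableAt (hU.mem_nhds h0)
  have h2 : g =ᶠ[𝓝 ξ] fun x => exp (F x) := by
    filter_upwards [hU.mem_nhds h0] with x hx
    exact (hFg x hx).symm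
  rw [h2.deriv_eq, ← hFg ξ h0]
  exact h1.hasDerivAt.cexp.deriv

/-- the logarithm varies by at most 64 on the vertical segments of the wedge -/
lemma vert (hK : T_KOEB) (hg : DifferentiableOn ℂ g {ξ | 0 < ξ.re})
    (hg0 : ∀ ξ : ℂ, 0 < ξ.re → g ξ ≠ 0) (hinj : Inj2 g) {F : ℂ → ℂ}
    (hF : DifferentiableOn ℂ F {ξ | 0 < ξ.re}) (hFg : ∀ ξ : ℂ, 0 < ξ.re → exp (F ξ) = g ξ)
    {y : ℝ} {ξ : ℂ} (h0 : 0 < ξ.re) (h1 : ξ.re ≤ Real.pi) (h2 : |ξ.im - y| < ξ.re) :
    (F (ξ.re + y * I)).re - 64 ≤ (F ξ).re := by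
  have hU : IsOpen {ξ : ℂ | 0 < ξ.re} := isOpen_lt continuous_const continuous_re
  have hconv : Convex ℝ {ζ : ℂ | ζ.re = ξ.re} := by
    intro a ha b hb s t hs ht hst
    have ha' : a.re = ξ.re := ha
    have hb' : b.re = ξ.re := hb
    show (s • a + t • b).re = ξ.re
    rw [add_re, Complex.real_smul, Complex.real_smul, re_ofReal_mul, re_ofReal_mul, ha', hb',
      ← add_mul, hst, one_mul]
  have h3 := hconv.norm_image_sub_le_of_norm_deriv_le (𝕜 := ℂ) (f := F) (C := 64 / ξ.re)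
    (x := ξ.re + y * I) (y := ξ)
    (fun ζ hζ => hF.differentiableAt (hU.mem_nhds (by
      have : ζ.re = ξ.re := hζ
      show 0 < ζ.re
      rw [this]; exact h0)))
    (fun ζ hζ => by
      have hζ' : ζ.re = ξ.re := hζ
      have hζ0 : 0 < ζ.re := by rw [hζ']; exact h0
      have h4 := koebe hK hg hg0 hinj hζ0 (by rw [hζ']; exact h1)
      rw [deriv_log hF hFg hζ0, norm_mul] at h4
      have h5 : 0 < ‖g ζ‖ := norm_pos_iff.2 (hg0 ζ hζ0)
      rw [le_div_iff₀ h0, ← hζ']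
      refine le_of_mul_le_mul_left ?_ h5
      linarith)
    (re_pt _ _) rfl
  have h4 : ‖ξ - (ξ.re + y * I)‖ = |ξ.im - y| := by
    have : ξ - (ξ.re + y * I) = ((ξ.im - y : ℝ) : ℂ) * I := by
      apply Complex.ext <;> simp
    rw [this, norm_mul, norm_I, mul_one, norm_real, Real.norm_eq_abs]
  rw [h4] at h3
  have h5 : 64 / ξ.re * |ξ.im - y| ≤ 64 := by
    rw [div_mul_eq_mul_div, div_le_iff₀ h0]
    linarith
  have h6 := (abs_re_le_norm (F ξ - F (ξ.re + y * I))).trans (h3.trans h5)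
  rw [sub_re, abs_le] at h6
  linarith [h6.1]

/-- the area -/
lemma area (hC : T_CHV) (hg : DifferentiableOn ℂ g {ξ | 0 < ξ.re})
    (hg0 : ∀ ξ : ℂ, 0 < ξ.re → g ξ ≠ 0) (hinj : Inj2 g) {F : ℂ → ℂ}
    (hF : DifferentiableOn ℂ F {ξ | 0 < ξ.re}) (hFg : ∀ ξ : ℂ, 0 < ξ.re → exp (F ξ) = g ξ)
    {y a T u v : ℝ} (hT : T ≤ Real.pi) (huv : u ≤ v)
    (hb : ∀ ξ ∈ wd y a T, u < (F ξ).re ∧ (F ξ).re < v) :
    ∫⁻ ξ in wd y a T, ‖deriv F ξ‖ₑ ^ 2 ≤ ENNReal.ofReal (2 * Real.pi * (v - u)) := by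
  have h1 : InjOn g (wd y a T) := by
    intro x hx x' hx' he
    refine eq_of_im hinj (wd_pos hx) (wd_pos hx') he ?_
    have h2 : x.im - x'.im = (x.im - y) - (x'.im - y) := by ring
    rw [h2]
    calc |(x.im - y) - (x'.im - y)| ≤ |x.im - y| + |x'.im - y| := abs_sub _ _
      _ < x.re + x'.re := add_lt_add hx.2.2 hx'.2.2
      _ ≤ 2 * Real.pi := by linarith [hx.2.1, hx'.2.1]
  have h2 := hC (wd y a T) g (fun x => (‖x‖ₑ ^ 2)⁻¹) (wd_open y a T)
    (hg.mono fun ξ hξ => wd_pos hξ) h1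
  have h3 : ∫⁻ ξ in wd y a T, ‖deriv F ξ‖ₑ ^ 2 =
      ∫⁻ ξ in wd y a T, ‖deriv g ξ‖ₑ ^ 2 * (‖g ξ‖ₑ ^ 2)⁻¹ := by
    apply setLIntegral_congr_fun (wd_meas y a T)
    intro ξ hξ
    have h0 : 0 < ξ.re := wd_pos hξ
    have h4 : ‖g ξ‖ₑ ≠ 0 := by
      rw [Ne, enorm_eq_zero]
      exact hg0 ξ h0
    show ‖deriv F ξ‖ₑ ^ 2 = ‖deriv g ξ‖ₑ ^ 2 * (‖g ξ‖ₑ ^ 2)⁻¹
    rw [deriv_log hF hFg h0, enorm_mul, mul_pow, mul_comm (‖g ξ‖ₑ ^ 2), mul_assoc,
      ENNReal.mul_inv_cancel (pow_ne_zero 2 h4) (by simp), mul_one]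
  rw [h3, ← h2]
  have h5 : g '' wd y a T ⊆ annul (Real.exp u) (Real.exp v) := by
    rintro _ ⟨ξ, hξ, rfl⟩
    show Real.exp u < ‖g ξ‖ ∧ ‖g ξ‖ < Real.exp v
    rw [← hFg ξ (wd_pos hξ), norm_exp]
    exact ⟨Real.exp_lt_exp.2 (hb ξ hξ).1, Real.exp_lt_exp.2 (hb ξ hξ).2⟩
  refine (lintegral_mono_set h5).trans ?_
  have h6 := annul_le (Real.exp_pos u) (Real.exp_le_exp.2 huv)
  rw [Real.log_exp, Real.log_exp] at h6
  exact h6

/-- one period -/
lemma period (hW : T_WSEG) {n : ℕ} (hn : 2 ≤ n) : ∃ C : ℝ, 0 < C ∧ ∀ (p : ℕ) (F : ℂ → ℂ)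
    (y τ b : ℝ), 1 ≤ p → DifferentiableOn ℂ F {ξ | 0 < ξ.re} → 0 < τ → 0 ≤ b →
    b ≤ ‖F (((n : ℝ) ^ p * τ : ℝ) + y * I) - F ((τ : ℝ) + y * I)‖ →
    ENNReal.ofReal (b ^ 2 / (p ^ 2 * C)) ≤
      ∫⁻ ξ in wd y (τ / 2) (2 * (n : ℝ) ^ p * τ), ‖deriv F ξ‖ₑ ^ 2 := by
  obtain ⟨C, hC0, hC⟩ := hW n hn
  refine ⟨C, hC0, ?_⟩
  intro p F y τ b hp hF hτ hb hle
  have hp0 : (0 : ℝ) < p := by exact_mod_cast hp
  have hn1 : (1 : ℝ) ≤ n := by exact_mod_cast (by omega : 1 ≤ n)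
  have hn0 : (0 : ℝ) < n := by linarith
  set S := ∫⁻ ξ in wd y (τ / 2) (2 * (n : ℝ) ^ p * τ), ‖deriv F ξ‖ₑ ^ 2 with hS
  -- one level
  have hlev : ∀ i < p, ENNReal.ofReal (‖F (((n : ℝ) ^ (i + 1) * τ : ℝ) + y * I) -
      F (((n : ℝ) ^ i * τ : ℝ) + y * I)‖ ^ 2) ≤ ENNReal.ofReal C * S := by
    intro i hi
    have hti : 0 < (n : ℝ) ^ i * τ := by positivity
    have h1 := hC ((n : ℝ) ^ i * τ) y F hti (hF.mono fun ξ hξ => by
      have h2 : (n : ℝ) ^ i * τ / 2 < ξ.re := hξ.1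
      show 0 < ξ.re
      linarith)
    have h3 : ((n : ℝ) * ((n : ℝ) ^ i * τ) : ℝ) = (n : ℝ) ^ (i + 1) * τ := by ring
    rw [h3] at h1
    refine h1.trans (mul_le_mul' le_rfl (lintegral_mono_set ?_))
    intro ξ hξ
    obtain ⟨h4, h5, h6⟩ := hξ
    refine ⟨?_, ?_, h6⟩
    · have h7 : 1 * τ ≤ (n : ℝ) ^ i * τ :=
        mul_le_mul_of_nonneg_right (one_le_pow₀ hn1) hτ.le
      linarith
    · have h7 : (n : ℝ) ^ (i + 1) * τ ≤ (n : ℝ) ^ p * τ :=
        mul_le_mul_of_nonneg_right (pow_le_pow_right₀ hn1 (by omega)) hτ.le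
      have h8 : 2 * (n : ℝ) * ((n : ℝ) ^ i * τ) = 2 * ((n : ℝ) ^ (i + 1) * τ) := by ring
      linarith
  -- pigeonhole
  have hpig : ∃ i < p, b / p ≤ ‖F (((n : ℝ) ^ (i + 1) * τ : ℝ) + y * I) -
      F (((n : ℝ) ^ i * τ : ℝ) + y * I)‖ := by
    by_contra hcon
    push Not at hcon
    have h1 : F (((n : ℝ) ^ p * τ : ℝ) + y * I) - F ((τ : ℝ) + y * I) =
        ∑ i ∈ Finset.range p, (F (((n : ℝ) ^ (i + 1) * τ : ℝ) + y * I) -
          F (((n : ℝ) ^ i * τ : ℝ) + y * I)) := by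
      rw [Finset.sum_range_sub (fun i => F (((n : ℝ) ^ i * τ : ℝ) + y * I))]
      simp
    rw [h1] at hle
    have h2 : ‖∑ i ∈ Finset.range p, (F (((n : ℝ) ^ (i + 1) * τ : ℝ) + y * I) -
          F (((n : ℝ) ^ i * τ : ℝ) + y * I))‖ < b := by
      calc _ ≤ ∑ i ∈ Finset.range p, ‖F (((n : ℝ) ^ (i + 1) * τ : ℝ) + y * I) -
              F (((n : ℝ) ^ i * τ : ℝ) + y * I)‖ := norm_sum_le _ _
        _ < ∑ _i ∈ Finset.range p, b / p := by
            apply Finset.sum_lt_sum_of_nonempty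
            · exact Finset.nonempty_range_iff.2 (by omega)
            · intro i hi
              exact hcon i (Finset.mem_range.1 hi)
        _ = b := by
            rw [Finset.sum_const, Finset.card_range, nsmul_eq_mul]
            field_simp
    linarith
  obtain ⟨i, hi, hi2⟩ := hpig
  have h1 : ENNReal.ofReal ((b / p) ^ 2) ≤ ENNReal.ofReal C * S := by
    refine (ENNReal.ofReal_le_ofReal ?_).trans (hlev i hi)
    exact pow_le_pow_left₀ (by positivity) hi2 2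
  have h2 : ENNReal.ofReal ((b / p) ^ 2) = ENNReal.ofReal C *
      ENNReal.ofReal (b ^ 2 / (p ^ 2 * C)) := by
    rw [← ENNReal.ofReal_mul hC0.le]
    congr 1
    field_simp
  rw [h2] at h1
  exact (ENNReal.mul_le_mul_iff_right (by simpa using hC0) ENNReal.ofReal_ne_top).1 h1

/-- the core: displacement and area -/
lemma core (hK : T_KOEB) (hW : T_WSEG) (hC : T_CHV) {n p : ℕ} (hn : 2 ≤ n) (hp : 1 ≤ p)
    (hg : DifferentiableOn ℂ g {ξ | 0 < ξ.re}) (hg0 : ∀ ξ : ℂ, 0 < ξ.re → g ξ ≠ 0)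
    (hinj : Inj2 g) {F : ℂ → ℂ} (hF : DifferentiableOn ℂ F {ξ | 0 < ξ.re})
    (hFg : ∀ ξ : ℂ, 0 < ξ.re → exp (F ξ) = g ξ) {y B : ℝ}
    (hB : ∀ ξ : ℂ, 0 < ξ.re → ξ.re ≤ Real.pi → (F ξ).re < B) {lam : ℂ} (hlam : ‖lam‖ = 1)
    (hlim : Tendsto (fun t : ℝ => g (((n : ℝ) ^ p * t : ℝ) + y * I) / g ((t : ℝ) + y * I))
      (𝓝[>] 0) (𝓝 lam)) : lam = 1 := by
  by_contra hne
  have hn0 : (0 : ℝ) < n := by
    have : 0 < n := by omega
    exact_mod_cast this
  obtain ⟨C, hC0, hper⟩ := period hW hn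
  set M : ℝ := (n : ℝ) ^ p with hM
  have hM2 : 2 ≤ M := by
    have h1 : (2 : ℝ) ≤ n := by exact_mod_cast hn
    calc (2 : ℝ) ≤ n := h1
      _ = (n : ℝ) ^ 1 := (pow_one _).symm
      _ ≤ M := pow_le_pow_right₀ (by linarith) hp
  have hM0 : 0 < M := by linarith
  have hp0 : (0 : ℝ) < p := by exact_mod_cast hp
  have hgap : 0 < ‖lam - 1‖ := norm_pos_iff.2 (sub_ne_zero.2 hne)
  -- the displacement is bounded below
  obtain ⟨β, hβ0, hβ⟩ : ∃ β : ℝ, 0 < β ∧ ∀ u : ℂ, ‖u‖ < β → ‖exp u - 1‖ < ‖lam - 1‖ / 2 := by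
    have h1 : Tendsto exp (𝓝 0) (𝓝 1) := by
      have := continuous_exp.tendsto 0
      rwa [exp_zero] at this
    obtain ⟨β, hβ0, hβ⟩ := Metric.tendsto_nhds_nhds.1 h1 (‖lam - 1‖ / 2) (by positivity)
    refine ⟨β, hβ0, fun u hu => ?_⟩
    have := hβ (x := u) (by rwa [dist_zero_right])
    rwa [dist_eq_norm] at this
  set κ : ℝ := β ^ 2 / (p ^ 2 * C) with hκ
  have hκ0 : 0 < κ := by positivity
  set η : ℝ := κ / (12 * Real.pi) with hη
  have hη0 : 0 < η := by positivity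
  have hev : ∀ᶠ t in 𝓝[>] (0 : ℝ),
      ‖g ((M * t : ℝ) + y * I) / g ((t : ℝ) + y * I) - lam‖ < ‖lam - 1‖ / 2 ∧
      ‖g ((M * t : ℝ) + y * I) / g ((t : ℝ) + y * I)‖ < Real.exp η := by
    have h1 := Metric.tendsto_nhds.1 hlim (‖lam - 1‖ / 2) (by positivity)
    have h2 : ∀ᶠ t in 𝓝[>] (0 : ℝ),
        ‖g ((M * t : ℝ) + y * I) / g ((t : ℝ) + y * I)‖ < Real.exp η := by
      have h3 := hlim.norm
      rw [hlam] at h3
      exact h3.eventually (gt_mem_nhds (Real.one_lt_exp_iff.2 hη0))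
    filter_upwards [h1, h2] with t ht1 ht2
    rw [dist_eq_norm] at ht1
    exact ⟨ht1, ht2⟩
  obtain ⟨t1, ht10, ht1⟩ := mem_nhdsGT_iff_exists_Ioo_subset.1 hev
  have ht10' : 0 < t1 := ht10
  -- the two consequences
  have hquot : ∀ t : ℝ, 0 < t → exp (F ((M * t : ℝ) + y * I) - F ((t : ℝ) + y * I)) =
      g ((M * t : ℝ) + y * I) / g ((t : ℝ) + y * I) := by
    intro t ht
    rw [exp_sub, hFg _ (by rw [re_pt]; positivity), hFg _ (by rw [re_pt]; exact ht)]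
  have hdisp : ∀ t : ℝ, 0 < t → t < t1 →
      β ≤ ‖F ((M * t : ℝ) + y * I) - F ((t : ℝ) + y * I)‖ := by
    intro t ht0 ht
    by_contra hcon
    push Not at hcon
    have h1 := hβ _ hcon
    rw [hquot t ht0] at h1
    have h2 := (ht1 ⟨ht0, ht⟩).1
    have h3 : ‖lam - 1‖ ≤ ‖g ((M * t : ℝ) + y * I) / g ((t : ℝ) + y * I) - 1‖ +
        ‖g ((M * t : ℝ) + y * I) / g ((t : ℝ) + y * I) - lam‖ := by
      have : lam - 1 = (g ((M * t : ℝ) + y * I) / g ((t : ℝ) + y * I) - 1) -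
          (g ((M * t : ℝ) + y * I) / g ((t : ℝ) + y * I) - lam) := by ring
      rw [this]
      exact norm_sub_le _ _
    linarith
  have hre : ∀ t : ℝ, 0 < t → t < t1 →
      (F ((M * t : ℝ) + y * I)).re - η ≤ (F ((t : ℝ) + y * I)).re := by
    intro t ht0 ht
    have h1 := (ht1 ⟨ht0, ht⟩).2
    rw [← hquot t ht0, norm_exp, sub_re] at h1
    have h2 := Real.exp_lt_exp.1 h1
    linarith
  -- the starting point
  set t0 : ℝ := min (t1 / 2) (Real.pi / (2 * M)) with ht0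
  have ht00 : 0 < t0 := by
    rw [ht0]
    exact lt_min (by positivity) (by positivity)
  have ht01 : t0 < t1 := lt_of_le_of_lt (min_le_left _ _) (by linarith)
  set T : ℝ := 2 * M * t0 with hT
  have hTpi : T ≤ Real.pi := by
    have h1 : t0 ≤ Real.pi / (2 * M) := min_le_right _ _
    rw [le_div_iff₀ (by positivity)] at h1
    rw [hT]
    linarith
  -- lower bound on the central line
  obtain ⟨C0, hC0'⟩ : ∃ C0 : ℝ, ∀ x ∈ Icc t0 T, -C0 ≤ (F ((x : ℝ) + y * I)).re := by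
    have h1 : ContinuousOn (fun x : ℝ => F ((x : ℝ) + y * I)) (Icc t0 T) := by
      apply hF.continuousOn.comp (by fun_prop)
      intro x hx
      show 0 < ((x : ℂ) + y * I).re
      rw [re_pt]
      exact ht00.trans_le hx.1
    obtain ⟨C0, hC0'⟩ := isCompact_Icc.exists_bound_of_continuousOn h1
    refine ⟨C0, fun x hx => ?_⟩
    have h2 := (abs_re_le_norm _).trans (hC0' x hx)
    exact (abs_le.1 h2).1
  have hline : ∀ (k : ℕ) (x : ℝ), t0 ≤ M ^ k * x → x ≤ T →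
      -C0 - k * η ≤ (F ((x : ℝ) + y * I)).re := by
    intro k
    induction k with
    | zero =>
      intro x h1 h2
      simp only [pow_zero, one_mul, Nat.cast_zero, zero_mul, sub_zero] at h1 ⊢
      exact hC0' x ⟨h1, h2⟩
    | succ k ih =>
      intro x h1 h2
      have hx0 : 0 < x := by
        by_contra hcon
        push Not at hcon
        have : M ^ (k + 1) * x ≤ 0 := mul_nonpos_of_nonneg_of_nonpos (by positivity) hcon
        linarith
      rcases le_or_gt t0 x with h3 | h3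
      · have h4 := hC0' x ⟨h3, h2⟩
        have h5 : 0 ≤ ((k + 1 : ℕ) : ℝ) * η := by positivity
        linarith
      · have h4 := ih (M * x) (by
          have : M ^ k * (M * x) = M ^ (k + 1) * x := by ring
          rw [this]; exact h1) (by
          have := mul_le_mul_of_nonneg_left h3.le hM0.le
          rw [hT]
          nlinarith)
        have h5 := hre x hx0 (h3.trans ht01)
        push_cast
        linarith
  -- bounds on the wedge
  have hwedge : ∀ k : ℕ, ∀ ξ ∈ wd y (2 * M * ((M ^ (3 * k))⁻¹ * t0)) T,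
      -C0 - (3 * k : ℕ) * η - 65 < (F ξ).re ∧ (F ξ).re < max B (-C0) := by
    intro k ξ hξ
    have h0 := wd_pos hξ
    obtain ⟨h1, h2, h3⟩ := hξ
    have hpi : ξ.re ≤ Real.pi := by linarith
    have h4 := vert hK hg hg0 hinj hF hFg h0 hpi h3
    have h5 := hline (3 * k) ξ.re (by
      have h6 : M ^ (3 * k) * (2 * M * ((M ^ (3 * k))⁻¹ * t0)) = 2 * M * t0 := by
        field_simp
      have h7 := mul_le_mul_of_nonneg_left h1.le (by positivity : 0 ≤ M ^ (3 * k))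
      rw [h6] at h7
      nlinarith) h2.le
    exact ⟨by linarith, lt_max_of_lt_left (hB ξ h0 hpi)⟩
  -- the sum
  have hsum : ∀ k : ℕ, ENNReal.ofReal (k * κ) ≤
      ∫⁻ ξ in wd y (2 * M * ((M ^ (3 * k))⁻¹ * t0)) T, ‖deriv F ξ‖ₑ ^ 2 := by
    intro k
    induction k with
    | zero => simp
    | succ k ih =>
      set τ : ℝ := (M ^ (3 * k))⁻¹ * t0 with hτ
      have hτ0 : 0 < τ := by positivity
      have hτt : τ ≤ t0 := by
        rw [hτ]
        have : (M ^ (3 * k))⁻¹ ≤ 1 := inv_le_one_of_one_le₀ (one_le_pow₀ (by linarith))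
        calc (M ^ (3 * k))⁻¹ * t0 ≤ 1 * t0 := mul_le_mul_of_nonneg_right this ht00.le
          _ = t0 := one_mul _
      have h1 := hper p F y τ β hp hF hτ0 hβ0.le (hdisp τ hτ0 (lt_of_le_of_lt hτt ht01))
      rw [← hκ, ← hM] at h1
      have h2 : ((k + 1 : ℕ) : ℝ) * κ = k * κ + κ := by push_cast; ring
      rw [h2, ENNReal.ofReal_add (by positivity) hκ0.le]
      refine (add_le_add ih h1).trans ?_
      have hdisj : Disjoint (wd y (2 * M * τ) T) (wd y (τ / 2) (2 * M * τ)) := by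
        rw [Set.disjoint_left]
        intro ξ h3 h4
        have h5 : 2 * M * τ < ξ.re := h3.1
        have h6 : ξ.re < 2 * M * τ := h4.2.1
        linarith
      rw [← lintegral_union (wd_meas _ _ _) hdisj]
      apply lintegral_mono_set
      have h7 : 2 * M * ((M ^ (3 * (k + 1)))⁻¹ * t0) ≤ τ / 2 := by
        have h8 : (M ^ (3 * (k + 1)))⁻¹ * t0 = (M ^ 3)⁻¹ * τ := by
          rw [hτ, show 3 * (k + 1) = 3 * k + 3 by ring, pow_add, mul_inv]
          ring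
        rw [h8]
        have h9 : 2 * M * ((M ^ 3)⁻¹ * τ) = 2 / M ^ 2 * τ := by
          field_simp
        rw [h9]
        have h10 : 2 / M ^ 2 ≤ 1 / 2 := by
          rw [div_le_div_iff₀ (by positivity) (by norm_num)]
          nlinarith
        calc 2 / M ^ 2 * τ ≤ 1 / 2 * τ := mul_le_mul_of_nonneg_right h10 hτ0.le
          _ = τ / 2 := by ring
      rintro ξ (h3 | h3)
      · refine ⟨?_, h3.2.1, h3.2.2⟩
        have h5 : 2 * M * τ < ξ.re := h3.1
        have h11 : τ / 2 ≤ 2 * M * τ := by nlinarith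
        linarith
      · refine ⟨lt_of_le_of_lt h7 h3.1, ?_, h3.2.2⟩
        have h6 : ξ.re < 2 * M * τ := h3.2.1
        have h11 : 2 * M * τ ≤ T := by
          rw [hT]
          exact mul_le_mul_of_nonneg_left hτt (by positivity)
        linarith
  -- the contradiction
  have hfin : ∀ k : ℕ, (k : ℝ) * (κ / 2) ≤ 2 * Real.pi * (max B (-C0) + C0 + 65) := by
    intro k
    have h1 := (hsum k).trans (area hC hg hg0 hinj hF hFg hTpi (by
      have h2 : 0 ≤ ((3 * k : ℕ) : ℝ) * η := by positivity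
      have h3 := le_max_right B (-C0)
      linarith) (hwedge k))
    have h2 : (k : ℝ) * κ ≤ 2 * Real.pi * (max B (-C0) - (-C0 - (3 * k : ℕ) * η - 65)) := by
      have h3 : 0 ≤ 2 * Real.pi * (max B (-C0) - (-C0 - (3 * k : ℕ) * η - 65)) := by
        have h2 : 0 ≤ ((3 * k : ℕ) : ℝ) * η := by positivity
        have h3 := le_max_right B (-C0)
        have h4 : 0 ≤ max B (-C0) - (-C0 - (3 * k : ℕ) * η - 65) := by linarith
        positivity
      exact (ENNReal.ofReal_le_ofReal_iff h3).1 h1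
    have h4 : 2 * Real.pi * (((3 * k : ℕ) : ℝ) * η) = k * (κ / 2) := by
      rw [hη]
      push_cast
      field_simp
      ring
    have h5 : 2 * Real.pi * (max B (-C0) - (-C0 - (3 * k : ℕ) * η - 65)) =
        2 * Real.pi * (max B (-C0) + C0 + 65) + 2 * Real.pi * (((3 * k : ℕ) : ℝ) * η) := by ring
    rw [h5, h4] at h2
    linarith
  obtain ⟨k, hk⟩ := exists_nat_gt (2 * Real.pi * (max B (-C0) + C0 + 65) / (κ / 2))
  rw [div_lt_iff₀ (by positivity)] at hk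
  exact absurd (hfin k) (not_le.2 hk)

end Core

/-- the potential of a periodic point is zero -/
lemma green_zero {n p : ℕ} {c w : ℂ} (hn : 2 ≤ n) (hp : 1 ≤ p)
    (h : ∀ c z : ℂ, G n c (F n c z) = n * G n c z) (hw : (F n c)^[p] w = w) : G n c w = 0 := by
  have h1 : ∀ m : ℕ, G n c ((F n c)^[m] w) = (n : ℝ) ^ m * G n c w := by
    intro m
    induction m with
    | zero => simp
    | succ m ih =>
      rw [Function.iterate_succ_apply', h, ih]
      ring
  have h2 := h1 p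
  rw [hw] at h2
  have h3 : (2 : ℝ) ≤ (n : ℝ) ^ p := by
    have h1 : (2 : ℝ) ≤ n := by exact_mod_cast hn
    calc (2 : ℝ) ≤ n := h1
      _ = (n : ℝ) ^ 1 := (pow_one _).symm
      _ ≤ (n : ℝ) ^ p := pow_le_pow_right₀ (by linarith) hp
  have h4 : ((n : ℝ) ^ p - 1) * G n c w = 0 := by linarith
  rcases mul_eq_zero.1 h4 with h5 | h5
  · linarith
  · exact h5

end Pool.Agent.PLim.SNAIL_

namespace Pool.Agent.PLim

open SNAIL_ in
theorem p_SNAIL (hIE : T_IE) (hGR : T_GREEN) (hK : T_KOEB) (hW : T_WSEG) (hC : T_CHV) :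
    T_SNAIL := by
  intro n p Λ c w α hn hp hΛ hc hα hland hw
  have hE : IsExt n Λ := hIE n Λ hn hΛ
  obtain ⟨-, -, hG1, -, -, hG2, -, -⟩ := hGR n hn
  have hG0 : G n c 0 = 0 := (hG2 c).1 hc
  have hGw : G n c w = 0 := green_zero hn hp hG1 hw
  have hU : IsOpen {ξ : ℂ | 0 < ξ.re} := isOpen_lt continuous_const continuous_re
  have hn0 : (0 : ℝ) < n := by
    have : 0 < n := by omega
    exact_mod_cast this
  obtain ⟨k, hk⟩ := hα
  set g : ℂ → ℂ := fun ξ => exp (Λ c ξ) - w with hg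
  have hgd : DifferentiableOn ℂ g {ξ | 0 < ξ.re} := ((hE.diff c hc).cexp).sub_const w
  have hg0 : ∀ ξ : ℂ, 0 < ξ.re → g ξ ≠ 0 := by
    intro ξ hξ h0
    have h1 : exp (Λ c ξ) = w := sub_eq_zero.1 h0
    have h2 := hΛ.green c ξ (by rw [hG0]; exact hξ)
    rw [h1, hGw] at h2
    linarith
  have hinj : Inj2 g := by
    intro ξ ξ' hξ hξ' he
    exact hE.inj c hc ξ ξ' hξ hξ' (sub_left_injective he)
  obtain ⟨F', hF, hFg⟩ := exists_log hU (convex_halfSpace_re_gt 0) ⟨1, by simp⟩ hgd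
    (fun x hx => hg0 x hx)
  set y : ℝ := 2 * Real.pi * α with hy
  set M : ℝ := (n : ℝ) ^ p with hM
  have hM2 : 2 ≤ M := by
    have h1 : (2 : ℝ) ≤ n := by exact_mod_cast hn
    calc (2 : ℝ) ≤ n := h1
      _ = (n : ℝ) ^ 1 := (pow_one _).symm
      _ ≤ M := pow_le_pow_right₀ (by linarith) hp
  have hray : ∀ t : ℝ, g ((t : ℝ) + y * I) = ray Λ c α t - w := by
    intro t
    simp only [hg, ray, hy]
    push_cast
    rfl
  have hray2 : ∀ t : ℝ, 0 < t → g ((M * t : ℝ) + y * I) = (F n c)^[p] (ray Λ c α t) - w := by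
    intro t ht
    rw [hray, Limb.LAND_.ray_pow hn hE hc hk ht]
  have hrne : ∀ t : ℝ, 0 < t → ray Λ c α t ≠ w := by
    intro t ht h0
    have := hg0 ((t : ℝ) + y * I) (by rw [re_pt]; exact ht)
    rw [hray, h0, sub_self] at this
    exact this rfl
  have hlim : Tendsto (fun t : ℝ => g ((M * t : ℝ) + y * I) / g ((t : ℝ) + y * I))
      (𝓝[>] 0) (𝓝 (Rho n p c w)) := by
    have h1 : HasDerivAt ((F n c)^[p]) (Rho n p c w) w :=
      (Limb.STAB_.diffF n c p w).hasDerivAt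
    have h2 := hasDerivAt_iff_tendsto_slope.1 h1
    have h3 : Tendsto (ray Λ c α) (𝓝[>] 0) (𝓝[≠] w) := by
      rw [tendsto_nhdsWithin_iff]
      refine ⟨hland, ?_⟩
      filter_upwards [self_mem_nhdsWithin] with t ht
      exact hrne t ht
    refine (h2.comp h3).congr' ?_
    filter_upwards [self_mem_nhdsWithin] with t ht
    have ht' : (0 : ℝ) < t := ht
    rw [hray2 t ht', hray t]
    show slope ((F n c)^[p]) w (ray Λ c α t) = _
    rw [slope_def_field, hw]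
  rcases lt_trichotomy ‖Rho n p c w‖ 1 with hlt | heq | hgt
  · exfalso
    have hev : ∀ᶠ t in 𝓝[>] (0 : ℝ),
        ‖g ((M * t : ℝ) + y * I) / g ((t : ℝ) + y * I)‖ < 1 :=
      hlim.norm.eventually (gt_mem_nhds hlt)
    obtain ⟨t1, ht10, ht1⟩ := mem_nhdsGT_iff_exists_Ioo_subset.1 hev
    have ht10' : 0 < t1 := ht10
    have hmono : ∀ j : ℕ, ‖g ((t1 / 2 : ℝ) + y * I)‖ ≤
        ‖g (((M ^ j)⁻¹ * (t1 / 2) : ℝ) + y * I)‖ := by
      intro j
      induction j with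
      | zero => simp
      | succ j ih =>
        set t : ℝ := (M ^ (j + 1))⁻¹ * (t1 / 2) with ht
        have ht0 : 0 < t := by positivity
        have htt : t < t1 := by
          have h1 : (M ^ (j + 1))⁻¹ ≤ 1 := inv_le_one_of_one_le₀ (one_le_pow₀ (by linarith))
          have h2 := mul_le_mul_of_nonneg_right h1 (by positivity : 0 ≤ t1 / 2)
          linarith
        have h1 : ‖g ((M * t : ℝ) + y * I) / g ((t : ℝ) + y * I)‖ < 1 := ht1 ⟨ht0, htt⟩
        have h2 : M * t = (M ^ j)⁻¹ * (t1 / 2) := by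
          rw [ht, pow_succ]
          field_simp
        rw [h2, norm_div, div_lt_one (norm_pos_iff.2 (hg0 _ (by rw [re_pt]; exact ht0)))] at h1
        linarith
    have hseq : Tendsto (fun j : ℕ => (M ^ j)⁻¹ * (t1 / 2)) atTop (𝓝[>] 0) := by
      rw [tendsto_nhdsWithin_iff]
      constructor
      · have h1 : Tendsto (fun j : ℕ => (M ^ j)⁻¹) atTop (𝓝 0) :=
          tendsto_inv_atTop_zero.comp (tendsto_pow_atTop_atTop_of_one_lt (by linarith))
        have h2 := h1.mul_const (t1 / 2)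
        rwa [zero_mul] at h2
      · filter_upwards with j
        show (0 : ℝ) < (M ^ j)⁻¹ * (t1 / 2)
        positivity
    have hl2 : Tendsto (fun j : ℕ => ‖g (((M ^ j)⁻¹ * (t1 / 2) : ℝ) + y * I)‖) atTop (𝓝 0) := by
      have h1 : Tendsto (fun t : ℝ => ‖ray Λ c α t - w‖) (𝓝[>] 0) (𝓝 0) := by
        have h2 := (hland.sub_const w).norm
        rwa [sub_self, norm_zero] at h2
      refine (h1.comp hseq).congr fun j => ?_
      show ‖ray Λ c α ((M ^ j)⁻¹ * (t1 / 2)) - w‖ = _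
      rw [hray]
    have h3 := ge_of_tendsto' hl2 hmono
    have h4 : 0 < ‖g ((t1 / 2 : ℝ) + y * I)‖ :=
      norm_pos_iff.2 (hg0 _ (by rw [re_pt]; positivity))
    linarith
  · right
    refine core hK hW hC hn hp hgd hg0 hinj hF hFg
      (B := 4 * Real.exp Real.pi + ‖w‖) ?_ heq hlim
    intro ξ hξ hpi
    have h1 : Real.exp (F' ξ).re = ‖g ξ‖ := by rw [← norm_exp, hFg ξ hξ]
    have h2 : ‖g ξ‖ ≤ 4 * Real.exp Real.pi + ‖w‖ := by
      refine (norm_sub_le _ _).trans ?_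
      have h3 := hE.bdd c hc ξ hξ
      have h4 := Real.exp_le_exp.2 hpi
      linarith
    have h5 : 4 * Real.exp Real.pi + ‖w‖ < Real.exp (4 * Real.exp Real.pi + ‖w‖) := by
      have := Real.add_one_le_exp (4 * Real.exp Real.pi + ‖w‖)
      linarith
    rw [← h1] at h2
    exact Real.exp_lt_exp.1 (h2.trans_lt h5)
  · exact Or.inl hgt

end Pool.Agent.PLim
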