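import Pool.Agent.PLim.Targets
import Pool.Agent.Limb.STAB

/-!
# ST1: stability of rays, inside the Multibrot set
-/

set_option autoImplicit false

open Complex Filter Topology Set MeasureTheory
open Pool.Agent.Multibrot Pool.Agent.Limb

namespace Pool.Agent.PLim

namespace ST1_

/-- The ray of angle `n ^ (k i) α`. -/
noncomputable def X (n k : ℕ) (Λ : ℂ → ℂ → ℂ) (α : ℝ) (c : ℂ) (i : ℕ) (t : ℝ) : ℂ :=
  ray Λ c ((n : ℝ) ^ (k * i) * α) t

lemma re_ray (t θ : ℝ) : ((t : ℂ) + 2 * Real.pi * θ * I).re = t := by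
  have e : (2 * Real.pi * θ * I : ℂ) = ((2 * Real.pi * θ : ℝ) : ℂ) * I := by push_cast; ring
  rw [e, add_re, re_ofReal_mul]; simp

lemma ray_iter {n : ℕ} (hn : 2 ≤ n) {Λ : ℂ → ℂ → ℂ} (hΛ : IsExt n Λ) {c : ℂ} (hc : c ∈ MM n)
    (k : ℕ) (θ : ℝ) {t : ℝ} (ht : 0 < t) :
    (F n c)^[k] (ray Λ c θ t) = ray Λ c ((n : ℝ) ^ k * θ) ((n : ℝ) ^ k * t) := by
  unfold ray
  rw [← STAB_.func_iter hn hΛ hc k _ (by rw [re_ray]; exact ht)]
  congr 2
  push_cast
  ring

lemma X_iter {n : ℕ} (hn : 2 ≤ n) {Λ : ℂ → ℂ → ℂ} (hΛ : IsExt n Λ) {c : ℂ} (hc : c ∈ MM n)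
    (k : ℕ) (α : ℝ) (i : ℕ) {t : ℝ} (ht : 0 < t) :
    (F n c)^[k] (X n k Λ α c i t) = X n k Λ α c (i + 1) ((n : ℝ) ^ k * t) := by
  unfold X
  rw [ray_iter hn hΛ hc k _ ht]
  congr 1
  rw [mul_add, mul_one, pow_add]
  ring

lemma X_per {n : ℕ} (hn : 2 ≤ n) {Λ : ℂ → ℂ → ℂ} (hΛ : IsExt n Λ) {c : ℂ} (hc : c ∈ MM n)
    (k q : ℕ) (α : ℝ) (hα : IsInt (((n : ℝ) ^ (k * q) - 1) * α)) (i : ℕ) {t : ℝ} (ht : 0 < t) :
    X n k Λ α c (i + q) t = X n k Λ α c i t := by
  obtain ⟨m, hm⟩ := hα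
  unfold X ray
  have h := STAB_.rot_int hn hΛ hc ((n : ℤ) ^ (k * i) * m)
    ((t : ℂ) + 2 * Real.pi * ((n : ℝ) ^ (k * i) * α : ℝ) * I) (by rw [re_ray]; exact ht)
  rw [← h]
  congr 2
  have hm' : ((n : ℂ) ^ (k * q) - 1) * α = m := by exact_mod_cast congrArg (fun x : ℝ => (x : ℂ)) hm
  push_cast
  rw [mul_add, pow_add]
  linear_combination (2 * Real.pi * I) * (n : ℂ) ^ (k * i) * hm'

lemma X_mod {n : ℕ} (hn : 2 ≤ n) {Λ : ℂ → ℂ → ℂ} (hΛ : IsExt n Λ) {c : ℂ} (hc : c ∈ MM n)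
    (k q : ℕ) (α : ℝ) (hα : IsInt (((n : ℝ) ^ (k * q) - 1) * α)) (i : ℕ) {t : ℝ} (ht : 0 < t) :
    X n k Λ α c i t = X n k Λ α c (i % q) t := by
  have key : ∀ j i : ℕ, X n k Λ α c (i + q * j) t = X n k Λ α c i t := by
    intro j
    induction j with
    | zero => intro i; simp
    | succ j ih =>
      intro i
      have e : i + q * (j + 1) = (i + q * j) + q := by ring
      rw [e, X_per hn hΛ hc k q α hα _ ht, ih]
  conv_lhs => rw [← Nat.mod_add_div i q]
  exact key _ _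

lemma X_cont {n : ℕ} {Λ : ℂ → ℂ → ℂ} (hΛ : IsExt n Λ) {c : ℂ} (hc : c ∈ MM n)
    (k : ℕ) (α : ℝ) (i : ℕ) : ContinuousOn (X n k Λ α c i) (Ioi 0) := by
  intro t ht
  have h3 := STAB_.cont_ray hΛ ((n : ℝ) ^ (k * i) * α) ⟨c, hc⟩ t ht
  have h4 : ContinuousAt (fun t : ℝ => ((⟨c, hc⟩ : MM n), t)) t :=
    continuousAt_const.prodMk continuousAt_id
  exact (ContinuousAt.comp (f := fun t : ℝ => ((⟨c, hc⟩ : MM n), t)) h3 h4).continuousWithinAt

/-- The rays stay in the ball. -/
lemma stay {n k : ℕ} (hn : 2 ≤ n) (hk : 1 ≤ k) {Λ : ℂ → ℂ → ℂ} (hΛ : IsExt n Λ) {c : ℂ}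
    (hc : c ∈ MM n) (α : ℝ) {z0 : ℂ} {r : ℝ} {g : ℂ → ℂ}
    (hinj : InjOn ((F n c)^[k]) (Metric.ball z0 r))
    (hgm : ∀ x ∈ Metric.ball z0 r, g x ∈ Metric.ball z0 r)
    (hgi : ∀ x ∈ Metric.ball z0 r, (F n c)^[k] (g x) = x)
    (hgc : ContinuousOn g (Metric.ball z0 r)) {t1 : ℝ} (ht1 : 0 < t1)
    (h0 : ∀ i : ℕ, ∀ t : ℝ, t1 ≤ t → t ≤ (n : ℝ) ^ k * t1 →
      X n k Λ α c i t ∈ Metric.ball z0 r) :
    ∀ i : ℕ, ∀ t : ℝ, 0 < t → t ≤ (n : ℝ) ^ k * t1 → X n k Λ α c i t ∈ Metric.ball z0 r := by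
  have hn1 : (1 : ℝ) < n := by
    have : (2 : ℝ) ≤ n := by exact_mod_cast hn
    linarith
  set N : ℝ := (n : ℝ) ^ k with hN
  have hN1 : 1 < N := one_lt_pow₀ hn1 (by omega)
  have hN0 : 0 < N := by linarith
  -- the induction
  have key : ∀ m : ℕ, ∀ i : ℕ, ∀ t : ℝ, t1 / N ^ m ≤ t → t ≤ N * t1 →
      X n k Λ α c i t ∈ Metric.ball z0 r := by
    intro m
    induction m with
    | zero =>
      intro i t h1 h2
      rw [pow_zero, div_one] at h1
      exact h0 i t h1 h2
    | succ m ih =>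
      intro i t h1 h2
      rcases le_total (t1 / N ^ m) t with h3 | h3
      · exact ih i t h3 h2
      set a : ℝ := t1 / N ^ (m + 1) with ha
      set b : ℝ := t1 / N ^ m with hb
      have ha0 : 0 < a := by positivity
      have hba : b = N * a := by
        rw [ha, hb, pow_succ]
        field_simp
      have hab : a ≤ b := by rw [hba]; nlinarith
      have hb1 : b ≤ t1 := by
        rw [hb]
        exact div_le_self ht1.le (one_le_pow₀ hN1.le)
      have hS : ∀ s ∈ Icc a b, X n k Λ α c (i + 1) (N * s) ∈ Metric.ball z0 r := by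
        intro s hs
        apply ih
        · rw [hba]
          exact mul_le_mul_of_nonneg_left hs.1 hN0.le
        · exact mul_le_mul_of_nonneg_left (hs.2.trans hb1) hN0.le
      -- the two functions on the interval
      let x : Icc a b → ℂ := fun s => X n k Λ α c i s
      let y : Icc a b → ℂ := fun s => g (X n k Λ α c (i + 1) (N * s))
      have hxc : Continuous x := by
        have h : ContinuousOn (X n k Λ α c i) (Icc a b) :=
          (X_cont hΛ hc k α i).mono (fun s hs => lt_of_lt_of_le ha0 hs.1)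
        exact continuousOn_iff_continuous_domRestrict.1 h
      have hyc : Continuous y := by
        have h : ContinuousOn (fun s => g (X n k Λ α c (i + 1) (N * s))) (Icc a b) := by
          refine hgc.comp ?_ hS
          refine (X_cont hΛ hc k α (i + 1)).comp (continuousOn_const.mul continuousOn_id) ?_
          intro s hs
          exact mul_pos hN0 (lt_of_lt_of_le ha0 hs.1)
        exact continuousOn_iff_continuous_domRestrict.1 h
      have hy : ∀ s, y s ∈ Metric.ball z0 r := fun s => hgm _ (hS _ s.2)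
      have hxy : ∀ s, x s ∈ Metric.ball z0 r → x s = y s := by
        intro s hs
        refine hinj hs (hy s) ?_
        show (F n c)^[k] (X n k Λ α c i s) = (F n c)^[k] (g (X n k Λ α c (i + 1) (N * s)))
        rw [hgi _ (hS _ s.2), X_iter hn hΛ hc k α i (lt_of_lt_of_le ha0 s.2.1)]
      have hset : {s | x s = y s} = x ⁻¹' (Metric.ball z0 r) := by
        ext s
        constructor
        · intro h
          have h' : x s = y s := h
          show x s ∈ Metric.ball z0 r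
          rw [h']
          exact hy s
        · intro h
          exact hxy s h
      have hclopen : IsClopen {s | x s = y s} := by
        refine ⟨isClosed_eq hxc hyc, ?_⟩
        rw [hset]
        exact Metric.isOpen_ball.preimage hxc
      have : PreconnectedSpace (Icc a b) := Subtype.preconnectedSpace isPreconnected_Icc
      have hne : ({s | x s = y s} : Set (Icc a b)).Nonempty := by
        refine ⟨⟨b, hab, le_rfl⟩, ?_⟩
        apply hxy
        exact ih i b le_rfl (hb1.trans (by nlinarith))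
      have huniv := hclopen.eq_univ hne
      have h4 : (⟨t, h1, h3⟩ : Icc a b) ∈ ({s | x s = y s} : Set (Icc a b)) := by
        rw [huniv]; trivial
      rw [hset] at h4
      exact h4
  intro i t ht0 ht
  obtain ⟨m, hm⟩ := exists_nat_gt (t1 / t)
  have h5 : (m : ℝ) ≤ N ^ m := by
    have h6 := one_add_mul_le_pow (a := N - 1) (by linarith) m
    have h7 : (2 : ℝ) ≤ N := by
      have h8 : (n : ℝ) ^ 1 ≤ (n : ℝ) ^ k := pow_le_pow_right₀ hn1.le hk
      have h9 : (2 : ℝ) ≤ n := by exact_mod_cast hn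
      rw [pow_one] at h8
      linarith
    have h10 : (0 : ℝ) ≤ m := Nat.cast_nonneg m
    have h11 : (1 + (N - 1)) ^ m = N ^ m := by ring_nf
    rw [h11] at h6
    nlinarith
  refine key m i t ?_ ht
  rw [div_le_iff₀ (by positivity)]
  rw [div_lt_iff₀ ht0] at hm
  nlinarith

end ST1_

open ST1_ in
/-- ST1 -/
theorem p_ST1 (hIE : T_IE) (hLIN : T_LIN) : T_ST1 := by
  intro n k q Λ c0 z0 α hn hk hq hB hc0 hα hland hfix hrep
  have hΛ := hIE n Λ hn hB
  have hn1 : (1 : ℝ) < n := by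
    have : (2 : ℝ) ≤ n := by exact_mod_cast hn
    linarith
  obtain ⟨δ0, r, η, zf, gi, ka, -, -, hL⟩ := hLIN n k c0 z0 1 hn hk one_pos hfix hrep
  set N : ℝ := (n : ℝ) ^ k with hN
  have hN1 : 1 < N := one_lt_pow₀ hn1 (by omega)
  have hN0 : 0 < N := by linarith
  have hr := hL.hr
  -- all rays land at `z0`
  have hall : ∀ i : ℕ, Tendsto (X n k Λ α c0 i) (𝓝[>] (0 : ℝ)) (𝓝 z0) := by
    intro i
    induction i with
    | zero =>
      have e : X n k Λ α c0 0 = ray Λ c0 α := by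
        funext t
        simp [X]
      rw [e]
      exact hland
    | succ i ih =>
      have h1 : Tendsto (fun t => (F n c0)^[k] (X n k Λ α c0 i t)) (𝓝[>] (0 : ℝ)) (𝓝 z0) := by
        have h2 : ContinuousAt ((F n c0)^[k]) z0 := (STAB_.diffF n c0 k).continuous.continuousAt
        have h3 := Tendsto.comp h2.tendsto ih
        rw [hfix] at h3
        exact h3
      have h2 : Tendsto (fun s : ℝ => s / N) (𝓝[>] (0 : ℝ)) (𝓝[>] (0 : ℝ)) := by
        refine tendsto_nhdsWithin_iff.2 ⟨?_, ?_⟩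
        · have : Tendsto (fun s : ℝ => s / N) (𝓝 (0 : ℝ)) (𝓝 (0 / N)) :=
            (continuous_id.div_const N).tendsto 0
          rw [zero_div] at this
          exact this.mono_left nhdsWithin_le_nhds
        · filter_upwards [self_mem_nhdsWithin] with s hs
          exact div_pos hs hN0
      refine (h1.comp h2).congr' ?_
      filter_upwards [self_mem_nhdsWithin] with s hs
      have hs0 : (0 : ℝ) < s / N := div_pos hs hN0
      show (F n c0)^[k] (X n k Λ α c0 i (s / N)) = _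
      rw [X_iter hn hΛ hc0 k α i hs0]
      congr 1
      rw [← hN]
      field_simp
  -- a common scale
  have hev : ∀ᶠ t in 𝓝[>] (0 : ℝ), ∀ i ∈ Finset.range q, X n k Λ α c0 i t ∈ Metric.ball z0 r := by
    rw [Filter.eventually_all_finset]
    intro i _
    exact hall i (Metric.ball_mem_nhds z0 hr)
  obtain ⟨T, hT, hsub⟩ := mem_nhdsGT_iff_exists_Ioc_subset.mp hev
  have hT0 : (0 : ℝ) < T := hT
  set t1 : ℝ := T / N with ht1
  have ht10 : 0 < t1 := by positivity
  have hNt1 : N * t1 = T := by rw [ht1]; field_simp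
  -- stability on the compact scale
  have ev : ∀ᶠ c : MM n in 𝓝 (⟨c0, hc0⟩ : MM n), ∀ i ∈ Finset.range q, ∀ t ∈ Icc t1 (N * t1),
      X n k Λ α c i t ∈ Metric.ball z0 r := by
    rw [Filter.eventually_all_finset]
    intro i hi
    refine isCompact_Icc.eventually_forall_of_forall_eventually ?_
    intro t ht
    have htpos : 0 < t := lt_of_lt_of_le ht10 ht.1
    have h1 : X n k Λ α c0 i t ∈ Metric.ball z0 r :=
      hsub ⟨htpos, ht.2.trans hNt1.le⟩ i hi
    have hcont := STAB_.cont_ray hΛ ((n : ℝ) ^ (k * i) * α) ⟨c0, hc0⟩ t htpos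
    exact hcont.eventually (Metric.isOpen_ball.mem_nhds h1)
  have ev' : ∀ᶠ c in 𝓝[MM n] c0, ∀ i ∈ Finset.range q, ∀ t ∈ Icc t1 (N * t1),
      X n k Λ α c i t ∈ Metric.ball z0 r := by
    rw [nhdsWithin_eq_map_subtype_coe hc0, eventually_map]
    exact ev
  obtain ⟨δ1, hδ1, hball⟩ := Metric.mem_nhdsWithin_iff.1 ev'
  refine ⟨min (min δ0 δ1) r, by have := hL.hδ; positivity, ?_⟩
  intro c z hcc hzz hfz hc
  have hc0' : c ∈ Metric.ball c0 δ0 := by
    rw [Metric.mem_ball, dist_eq_norm]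
    exact lt_of_lt_of_le hcc ((min_le_left _ _).trans (min_le_left _ _))
  have hc1' : c ∈ Metric.ball c0 δ1 := by
    rw [Metric.mem_ball, dist_eq_norm]
    exact lt_of_lt_of_le hcc ((min_le_left _ _).trans (min_le_right _ _))
  have hz' : z ∈ Metric.ball z0 r := by
    rw [Metric.mem_ball, dist_eq_norm]
    exact lt_of_lt_of_le hzz (min_le_right _ _)
  have hzf : z = zf c := hL.uniq c hc0' z hz' hfz
  have hb1 := hball ⟨hc1', hc⟩
  have hb2 : ∀ i : ℕ, ∀ t : ℝ, t1 ≤ t → t ≤ N * t1 → X n k Λ α c i t ∈ Metric.ball z0 r := by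
    intro i t h1 h2
    rw [X_mod hn hΛ hc k q α hα i (lt_of_lt_of_le ht10 h1)]
    exact hb1 (i % q) (Finset.mem_range.2 (Nat.mod_lt _ hq)) t ⟨h1, h2⟩
  have hgc : ContinuousOn (gi c) (Metric.ball z0 r) := (hL.gidiff c hc0').continuousOn
  have hstay := stay hn hk hΛ hc α (hL.inj c hc0') (hL.gimem c hc0') (hL.giinv c hc0') hgc
    ht10 hb2
  -- contraction
  have hcontr : ∀ m : ℕ, ∀ i : ℕ, ∀ t : ℝ, 0 < t → t ≤ N * t1 / N ^ m →
      ‖X n k Λ α c i t - z‖ ≤ η ^ m * (2 * r) := by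
    intro m
    induction m with
    | zero =>
      intro i t h1 h2
      rw [pow_zero, div_one] at h2
      have h3 := hstay i t h1 h2
      rw [Metric.mem_ball, dist_eq_norm] at h3 hz'
      have h4 : X n k Λ α c i t - z = (X n k Λ α c i t - z0) - (z - z0) := by ring
      rw [h4, pow_zero, one_mul]
      have := norm_sub_le (X n k Λ α c i t - z0) (z - z0)
      linarith
    | succ m ih =>
      intro i t h1 h2
      have h3 : N * t ≤ N * t1 / N ^ m := by
        have h4 : N * t1 / N ^ m = N * (N * t1 / N ^ (m + 1)) := by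
          rw [pow_succ]; field_simp
        rw [h4]
        exact mul_le_mul_of_nonneg_left h2 hN0.le
      have h5 := ih (i + 1) (N * t) (by positivity) h3
      have h6 : N * t ≤ N * t1 := h3.trans (div_le_self (by positivity) (one_le_pow₀ hN1.le))
      have h7 : t ≤ N * t1 := le_trans (by nlinarith) h6
      have h8 := hstay (i + 1) (N * t) (by positivity) h6
      have h9 := hstay i t h1 h7
      have h10 : X n k Λ α c i t = gi c (X n k Λ α c (i + 1) (N * t)) := by
        refine hL.inj c hc0' h9 (hL.gimem c hc0' _ h8) ?_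
        rw [hL.giinv c hc0' _ h8, X_iter hn hΛ hc k α i h1]
      rw [h10]
      have h11 := hL.gicon c hc0' _ h8
      rw [← hzf] at h11
      refine h11.trans ?_
      rw [pow_succ, mul_comm (η ^ m) η, mul_assoc]
      exact mul_le_mul_of_nonneg_left h5 hL.hη0
  show Tendsto (ray Λ c α) (𝓝[>] (0 : ℝ)) (𝓝 z)
  rw [Metric.tendsto_nhds]
  intro ε hε
  have hlim : Tendsto (fun m : ℕ => η ^ m * (2 * r)) atTop (𝓝 (0 * (2 * r))) :=
    (tendsto_pow_atTop_nhds_zero_of_lt_one hL.hη0 hL.hη1).mul_const _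
  rw [zero_mul] at hlim
  obtain ⟨m, hm⟩ := (hlim.eventually (gt_mem_nhds hε)).exists
  have hpos : (0 : ℝ) < N * t1 / N ^ m := by positivity
  filter_upwards [Ioc_mem_nhdsGT hpos] with t ht
  have h1 := hcontr m 0 t ht.1 ht.2
  have e : X n k Λ α c 0 t = ray Λ c α t := by simp [X]
  rw [e] at h1
  rw [dist_eq_norm]
  exact lt_of_le_of_lt h1 hm

end Pool.Agent.PLim

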