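import Pool.Agent.PLim.Targets

/-!
# PLIM: basic lemmas for the sections BO and LO
-/

set_option autoImplicit false

open Complex Filter Topology Set
open Pool.Agent.Multibrot Pool.Agent.Limb

namespace Pool.Agent.PLim

/-- A continuous logarithm of a differentiable function is differentiable. -/
theorem hasDerivWithinAt_of_exp {L h : ℂ → ℂ} {s : Set ℂ} {x h' : ℂ} (hx : x ∈ s)
    (hL : ContinuousWithinAt L s x) (he : ∀ y ∈ s, exp (L y) = h y)
    (hh : HasDerivWithinAt h h' s x) : HasDerivWithinAt L (h' / h x) s x := by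
  have hne : h x ≠ 0 := by rw [← he x hx]; exact exp_ne_zero _
  have h1 : HasDerivWithinAt (fun y => L x + log (h y / h x)) (h' / h x) s x := by
    have h2 : HasDerivWithinAt (fun y => h y / h x) (h' / h x) s x := hh.div_const _
    have h3 := h2.clog (by rw [div_self hne]; exact one_mem_slitPlane)
    rw [div_self hne, div_one] at h3
    exact h3.const_add (L x)
  refine h1.congr_of_eventuallyEq ?_ ?_
  · have h4 : ∀ᶠ y in 𝓝[s] x, ‖L y - L x‖ < 1 := by
      have h5 : ContinuousWithinAt (fun y => ‖L y - L x‖) s x :=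
        (hL.sub (continuousWithinAt_const (b := L x))).norm
      have h6 : Tendsto (fun y => ‖L y - L x‖) (𝓝[s] x) (𝓝 0) := by
        have h7 := h5.tendsto
        simpa using h7
      exact h6.eventually_lt_const (by norm_num)
    filter_upwards [h4, self_mem_nhdsWithin] with y hy hys
    have h6 : h y / h x = exp (L y - L x) := by rw [exp_sub, he y hys, he x hx]
    rw [h6, log_exp]
    · ring
    · have := (abs_le.1 ((abs_im_le_norm (L y - L x)).trans hy.le)).1
      linarith [Real.pi_gt_three]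
    · have := (abs_le.1 ((abs_im_le_norm (L y - L x)).trans hy.le)).2
      linarith [Real.pi_gt_three]
  · rw [div_self hne, log_one, add_zero]

theorem differentiableOn_of_exp {L h : ℂ → ℂ} {s : Set ℂ} (hL : ContinuousOn L s)
    (he : ∀ y ∈ s, exp (L y) = h y) (hh : DifferentiableOn ℂ h s) : DifferentiableOn ℂ L s :=
  fun x hx => (hasDerivWithinAt_of_exp hx (hL x hx) he
    (hh x hx).hasDerivWithinAt).differentiableWithinAt

theorem differentiableAt_of_exp {L h : ℂ → ℂ} {x : ℂ} (hL : ContinuousAt L x)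
    (he : ∀ᶠ y in 𝓝 x, exp (L y) = h y) (hh : DifferentiableAt ℂ h x) :
    DifferentiableAt ℂ L x := by
  obtain ⟨s, hs, hso, hxs⟩ := eventually_nhds_iff.1 he
  have h1 := hasDerivWithinAt_of_exp hxs hL.continuousWithinAt hs
    (hh.hasDerivAt.hasDerivWithinAt (s := s))
  exact (h1.hasDerivAt (hso.mem_nhds hxs)).differentiableAt

/-- `2 π i / n` periodicity gives `2 π i m` periodicity. -/
theorem per_of_rot {n : ℕ} (hn : 2 ≤ n) {D : Set ℂ} {Λ : ℂ → ℂ}
    (hD : ∀ s ∈ D, ∀ y : ℝ, s + y * I ∈ D)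
    (rot : ∀ s ∈ D, Λ (s + 2 * Real.pi * I / n) = Λ s + 2 * Real.pi * I / n) :
    ∀ s ∈ D, ∀ m : ℤ, Λ (s + 2 * Real.pi * I * m / n) = Λ s + 2 * Real.pi * I * m / n := by
  have hn0 : (n : ℂ) ≠ 0 := by
    have : n ≠ 0 := by omega
    exact_mod_cast this
  have hmem : ∀ s ∈ D, ∀ m : ℤ, s + 2 * Real.pi * I * m / n ∈ D := by
    intro s hs m
    have := hD s hs (2 * Real.pi * m / n)
    have e : s + ((2 * Real.pi * m / n : ℝ) : ℂ) * I = s + 2 * Real.pi * I * m / n := by
      push_cast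
      ring
    rwa [e] at this
  have key : ∀ (m : ℕ), ∀ s ∈ D, Λ (s + 2 * Real.pi * I * m / n) =
      Λ s + 2 * Real.pi * I * m / n := by
    intro m
    induction m with
    | zero => intro s _; simp
    | succ m ih =>
      intro s hs
      have h1 := rot _ (hmem s hs m)
      have e1 : s + 2 * Real.pi * I * ((m : ℤ) : ℂ) / n + 2 * Real.pi * I / n =
          s + 2 * Real.pi * I * ((m + 1 : ℕ) : ℂ) / n := by
        push_cast
        ring
      rw [e1] at h1
      rw [h1]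
      have h2 := ih s hs
      have e2 : s + 2 * Real.pi * I * ((m : ℤ) : ℂ) / n = s + 2 * Real.pi * I * (m : ℂ) / n := by
        push_cast
        ring
      rw [e2, h2]
      push_cast
      ring
  intro s hs m
  obtain ⟨a, rfl | rfl⟩ := Int.eq_nat_or_neg m
  · exact_mod_cast key a s hs
  · have h1 := key a _ (hmem s hs (-(a : ℤ)))
    have e1 : s + 2 * Real.pi * I * ((-(a : ℤ) : ℤ) : ℂ) / n + 2 * Real.pi * I * (a : ℂ) / n = s := by
      push_cast
      ring
    rw [e1] at h1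
    rw [h1]
    push_cast
    ring

theorem IsBot.per {n : ℕ} {Λ : ℂ → ℂ → ℂ} (hn : 2 ≤ n) (hB : IsBot n Λ) {c s : ℂ}
    (hs : G n c 0 < s.re) (m : ℤ) :
    Λ c (s + 2 * Real.pi * I * m / n) = Λ c s + 2 * Real.pi * I * m / n :=
  per_of_rot hn (D := {s : ℂ | G n c 0 < s.re}) (fun s hs y => by
    show G n c 0 < (s + y * I).re
    simpa using hs) (fun s hs => hB.rot c s hs) s hs m

theorem IsBot.per' {n : ℕ} {Λ : ℂ → ℂ → ℂ} (hn : 2 ≤ n) (hB : IsBot n Λ) {c s : ℂ}
    (hs : G n c 0 < s.re) (m : ℤ) :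
    Λ c (s + 2 * Real.pi * I * m) = Λ c s + 2 * Real.pi * I * m := by
  have hn0 : (n : ℂ) ≠ 0 := by
    have : n ≠ 0 := by omega
    exact_mod_cast this
  have h1 := hB.per hn hs (n * m)
  have e : 2 * Real.pi * I * ((n * m : ℤ) : ℂ) / n = 2 * Real.pi * I * m := by
    push_cast
    field_simp
  rwa [e] at h1

theorem IsBot.exp_per {n : ℕ} {Λ : ℂ → ℂ → ℂ} (hn : 2 ≤ n) (hB : IsBot n Λ) {c s : ℂ}
    (hs : G n c 0 < s.re) (m : ℤ) :
    exp (Λ c (s + 2 * Real.pi * I * m)) = exp (Λ c s) := by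
  rw [hB.per' hn hs m, Complex.exp_add]
  have : exp (2 * Real.pi * I * m) = 1 := by
    rw [mul_comm]
    exact exp_int_mul_two_pi_mul_I m
  rw [this, mul_one]

/-- `F` conjugates: `F (exp (Λ s)) = exp (Λ (n s))`. -/
theorem IsBot.F_exp {n : ℕ} {Λ : ℂ → ℂ → ℂ} (hB : IsBot n Λ) {c s : ℂ}
    (hs : G n c 0 < s.re) : F n c (exp (Λ c s)) = exp (Λ c (n * s)) := by
  unfold F
  rw [← Complex.exp_nat_mul, hB.func c s hs, sub_add_cancel]

/-- `brw` and shifts. -/
theorem brw_add (n : ℕ) (lh : ℂ → ℂ → ℂ → ℂ) (c ζ : ℂ) (ε : ℕ → ℤ) (a b : ℕ) (z : ℂ) :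
    brw n lh c ζ ε (a + b) z = brw n lh c ζ ε a (brw n lh c ζ (fun t => ε (a + t)) b z) := by
  induction b generalizing z with
  | zero => rfl
  | succ b ih =>
    show brw n lh c ζ ε (a + b) (br n lh c ζ (ε (a + b)) z) = _
    rw [ih]
    rfl

theorem brw_succ' (n : ℕ) (lh : ℂ → ℂ → ℂ → ℂ) (c ζ : ℂ) (ε : ℕ → ℤ) (m : ℕ) (z : ℂ) :
    brw n lh c ζ ε (m + 1) z = br n lh c ζ (ε 0) (brw n lh c ζ (fun t => ε (t + 1)) m z) := by
  rw [add_comm m 1, brw_add]
  have : (fun t => ε (1 + t)) = fun t => ε (t + 1) := by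
    funext t
    rw [add_comm]
  rw [this]
  rfl

end Pool.Agent.PLim
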