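import Pool.Agent.PLim.Targets
import Pool.Agent.Limb.LAND

/-!
# PLIM: basic lemmas on rays and linearization in the Multibrot set
-/

set_option autoImplicit false

open Complex Filter Topology Set
open Pool.Agent.Multibrot Pool.Agent.Limb

namespace Pool.Agent.PLim.GMB_

/-! ### integers -/

lemma isInt_zero : IsInt 0 := ⟨0, by simp⟩

lemma isInt_add {x y : ℝ} (hx : IsInt x) (hy : IsInt y) : IsInt (x + y) := by
  obtain ⟨a, rfl⟩ := hx
  obtain ⟨b, rfl⟩ := hy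
  exact ⟨a + b, by push_cast; ring⟩

lemma isInt_neg {x : ℝ} (hx : IsInt x) : IsInt (-x) := by
  obtain ⟨a, rfl⟩ := hx
  exact ⟨-a, by push_cast; ring⟩

lemma isInt_sub {x y : ℝ} (hx : IsInt x) (hy : IsInt y) : IsInt (x - y) := by
  obtain ⟨a, rfl⟩ := hx
  obtain ⟨b, rfl⟩ := hy
  exact ⟨a - b, by push_cast; ring⟩

lemma isInt_mul {x y : ℝ} (hx : IsInt x) (hy : IsInt y) : IsInt (x * y) := by
  obtain ⟨a, rfl⟩ := hx
  obtain ⟨b, rfl⟩ := hy
  exact ⟨a * b, by push_cast; ring⟩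

lemma isInt_nat (m : ℕ) : IsInt (m : ℝ) := ⟨m, by simp⟩

lemma isInt_pow {x : ℝ} (hx : IsInt x) (m : ℕ) : IsInt (x ^ m) := by
  obtain ⟨a, rfl⟩ := hx
  exact ⟨a ^ m, by push_cast; ring⟩

/-- If `(a ^ i - 1) x` and `(a ^ j - 1) x` are integers, so is `(a ^ (i + j) - 1) x`. -/
lemma isInt_pow_add {a x : ℝ} (ha : IsInt a) {i j : ℕ} (hi : IsInt ((a ^ i - 1) * x))
    (hj : IsInt ((a ^ j - 1) * x)) : IsInt ((a ^ (i + j) - 1) * x) := by
  have : (a ^ (i + j) - 1) * x = a ^ j * ((a ^ i - 1) * x) + (a ^ j - 1) * x := by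
    rw [pow_add]; ring
  rw [this]
  exact isInt_add (isInt_mul (isInt_pow ha j) hi) hj

lemma isInt_pow_mul {a x : ℝ} (ha : IsInt a) {i : ℕ} (hi : IsInt ((a ^ i - 1) * x)) (m : ℕ) :
    IsInt ((a ^ (i * m) - 1) * x) := by
  induction m with
  | zero => simpa using isInt_zero
  | succ m ih =>
    have : i * (m + 1) = i * m + i := by ring
    rw [this]
    exact isInt_pow_add ha ih hi

/-- The shifted angle has the same period. -/
lemma isInt_shift {a x : ℝ} (ha : IsInt a) {i : ℕ} (hi : IsInt ((a ^ i - 1) * x)) (m : ℕ) :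
    IsInt ((a ^ i - 1) * (a ^ m * x)) := by
  have : (a ^ i - 1) * (a ^ m * x) = a ^ m * ((a ^ i - 1) * x) := by ring
  rw [this]
  exact isInt_mul (isInt_pow ha m) hi

/-! ### rays -/

section rays

variable {n : ℕ} {Λ : ℂ → ℂ → ℂ} {c : ℂ}

lemma ray_iter (hn : 2 ≤ n) (h : IsExt n Λ) (hc : c ∈ MM n) (m : ℕ) (α : ℝ) {t : ℝ}
    (ht : 0 < t) :
    (F n c)^[m] (ray Λ c α t) = ray Λ c ((n : ℝ) ^ m * α) ((n : ℝ) ^ m * t) := by
  have hre : ∀ u : ℝ, ((u : ℂ) + 2 * Real.pi * α * I).re = u := by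
    intro u
    have e : (2 * Real.pi * α * I : ℂ) = ((2 * Real.pi * α : ℝ) : ℂ) * I := by push_cast; ring
    rw [e, add_re, re_ofReal_mul]; simp
  rw [ray, ray, LAND_.iter_exp hn h hc m _ (by rw [hre]; exact ht)]
  congr 2
  push_cast
  ring

lemma ray_int (hn : 2 ≤ n) (h : IsExt n Λ) (hc : c ∈ MM n) {α β : ℝ} (hab : IsInt (β - α))
    {t : ℝ} (ht : 0 < t) : ray Λ c β t = ray Λ c α t := by
  obtain ⟨m, hm⟩ := hab
  have hre : ((t : ℂ) + 2 * Real.pi * α * I).re = t := by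
    have e : (2 * Real.pi * α * I : ℂ) = ((2 * Real.pi * α : ℝ) : ℂ) * I := by push_cast; ring
    rw [e, add_re, re_ofReal_mul]; simp
  have hb : (β : ℂ) = α + m := by
    have : β = α + m := by linarith
    rw [this]; push_cast; ring
  rw [ray, ray, ← LAND_.per_int hn h hc m ((t : ℂ) + 2 * Real.pi * α * I)
    (by rw [hre]; exact ht)]
  congr 2
  rw [hb]; ring

lemma ray_cont (h : IsExt n Λ) (hc : c ∈ MM n) (α : ℝ) :
    ContinuousOn (ray Λ c α) (Ioi 0) := by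
  intro u hu
  have hre : ∀ u : ℝ, ((u : ℂ) + 2 * Real.pi * α * I).re = u := by
    intro u
    have e : (2 * Real.pi * α * I : ℂ) = ((2 * Real.pi * α : ℝ) : ℂ) * I := by push_cast; ring
    rw [e, add_re, re_ofReal_mul]; simp
  have h1 : DifferentiableAt ℂ (Λ c) ((u : ℂ) + 2 * Real.pi * α * I) :=
    (h.diff c hc).differentiableAt ((isOpen_lt continuous_const continuous_re).mem_nhds
      (by show (0 : ℝ) < ((u : ℂ) + 2 * Real.pi * α * I).re; rw [hre]; exact hu))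
  have h2 : ContinuousAt (fun s => exp (Λ c s)) ((u : ℂ) + 2 * Real.pi * α * I) :=
    h1.cexp.continuousAt
  have h3 : ContinuousAt (fun u : ℝ => (u : ℂ) + 2 * Real.pi * α * I) u := by fun_prop
  have h4 : ContinuousAt (fun u : ℝ => exp (Λ c ((u : ℂ) + 2 * Real.pi * α * I))) u :=
    ContinuousAt.comp (f := fun u : ℝ => (u : ℂ) + 2 * Real.pi * α * I) h2 h3
  exact h4.continuousWithinAt

lemma F_cont (n : ℕ) (c : ℂ) (m : ℕ) : Continuous ((F n c)^[m]) := by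
  have hFc : Continuous (F n c) := by unfold F; fun_prop
  exact hFc.iterate m

lemma F_diff (n : ℕ) (c : ℂ) (m : ℕ) : Differentiable ℂ ((F n c)^[m]) := by
  have hFc : Differentiable ℂ (F n c) := by unfold F; fun_prop
  exact hFc.iterate m

lemma mul_tendsto_zero {a : ℝ} (ha : 0 < a) :
    Tendsto (fun t : ℝ => a * t) (𝓝[>] (0 : ℝ)) (𝓝[>] (0 : ℝ)) := by
  refine tendsto_nhdsWithin_iff.2 ⟨?_, ?_⟩
  · have : Tendsto (fun t : ℝ => a * t) (𝓝 (0 : ℝ)) (𝓝 (a * 0)) :=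
      (continuous_const.mul continuous_id).tendsto 0
    rw [mul_zero] at this
    exact this.mono_left nhdsWithin_le_nhds
  · filter_upwards [self_mem_nhdsWithin] with t ht
    exact mul_pos ha ht

lemma lands_pow (hn : 2 ≤ n) (h : IsExt n Λ) (hc : c ∈ MM n) {α : ℝ} {z : ℂ}
    (hl : Lands Λ c α z) (m : ℕ) : Lands Λ c ((n : ℝ) ^ m * α) ((F n c)^[m] z) := by
  have hn0 : (0 : ℝ) < (n : ℝ) ^ m := by
    have : (2 : ℝ) ≤ n := by exact_mod_cast hn
    positivity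
  have h1 : Tendsto (fun t : ℝ => (F n c)^[m] (ray Λ c α (((n : ℝ) ^ m)⁻¹ * t))) (𝓝[>] 0)
      (𝓝 ((F n c)^[m] z)) :=
    ((F_cont n c m).tendsto z).comp (hl.comp (mul_tendsto_zero (inv_pos.2 hn0)))
  refine h1.congr' ?_
  filter_upwards [self_mem_nhdsWithin] with t ht
  rw [ray_iter hn h hc m α (mul_pos (inv_pos.2 hn0) ht)]
  congr 1
  rw [← mul_assoc, mul_inv_cancel₀ hn0.ne', one_mul]

lemma lands_int (hn : 2 ≤ n) (h : IsExt n Λ) (hc : c ∈ MM n) {α β : ℝ} {z : ℂ}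
    (hl : Lands Λ c α z) (hab : IsInt (β - α)) : Lands Λ c β z := by
  refine Tendsto.congr' ?_ hl
  filter_upwards [self_mem_nhdsWithin] with t ht
  exact (ray_int hn h hc hab ht).symm

/-- The potential of the points of a ray. -/
lemma ray_green (hG : T_GREEN) (hn : 2 ≤ n) (hB : IsBot n Λ) (hc : c ∈ MM n) (α : ℝ) {t : ℝ}
    (ht : 0 < t) : G n c (ray Λ c α t) = t := by
  have h0 : G n c 0 = 0 := ((hG n hn).2.2.2.2.2.1 c).1 hc
  have hre : ((t : ℂ) + 2 * Real.pi * α * I).re = t := by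
    have e : (2 * Real.pi * α * I : ℂ) = ((2 * Real.pi * α : ℝ) : ℂ) * I := by push_cast; ring
    rw [e, add_re, re_ofReal_mul]; simp
  have := hB.green c ((t : ℂ) + 2 * Real.pi * α * I) (by rw [h0, hre]; exact ht)
  rw [hre] at this
  exact this

lemma green_iter (hG : T_GREEN) (hn : 2 ≤ n) (c : ℂ) (m : ℕ) (z : ℂ) :
    G n c ((F n c)^[m] z) = (n : ℝ) ^ m * G n c z := by
  induction m generalizing z with
  | zero => simp
  | succ m ih =>
    rw [Function.iterate_succ_apply, ih, (hG n hn).2.2.1]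
    ring

/-- Periodic points have potential zero. -/
lemma green_per (hG : T_GREEN) (hn : 2 ≤ n) {k : ℕ} (hk : 1 ≤ k) {z : ℂ}
    (hz : (F n c)^[k] z = z) : G n c z = 0 := by
  have h1 := green_iter hG hn c k z
  rw [hz] at h1
  have h2 : (1 : ℝ) < (n : ℝ) ^ k := by
    have : (2 : ℝ) ≤ n := by exact_mod_cast hn
    exact one_lt_pow₀ (by linarith) (by omega)
  have h3 : ((n : ℝ) ^ k - 1) * G n c z = 0 := by linarith
  rcases mul_eq_zero.1 h3 with h | h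
  · linarith
  · exact h

lemma ray_ne (hG : T_GREEN) (hn : 2 ≤ n) (hB : IsBot n Λ) (hc : c ∈ MM n) {k : ℕ} (hk : 1 ≤ k)
    {z : ℂ} (hz : (F n c)^[k] z = z) (α : ℝ) {t : ℝ} (ht : 0 < t) : ray Λ c α t ≠ z := by
  intro h
  have h1 := ray_green hG hn hB hc α ht
  rw [h, green_per hG hn hk hz] at h1
  linarith

/-- Two points of rays are equal only if they are the same point of the same ray. -/
lemma ray_inj (hG : T_GREEN) (hn : 2 ≤ n) (hB : IsBot n Λ) (hc : c ∈ MM n) {α β s t : ℝ}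
    (hs : 0 < s) (ht : 0 < t) (h : ray Λ c α s = ray Λ c β t) : s = t ∧ IsInt (α - β) := by
  have h0 : G n c 0 = 0 := ((hG n hn).2.2.2.2.2.1 c).1 hc
  have hre : ∀ u a : ℝ, ((u : ℂ) + 2 * Real.pi * a * I).re = u := by
    intro u a
    have e : (2 * Real.pi * a * I : ℂ) = ((2 * Real.pi * a : ℝ) : ℂ) * I := by push_cast; ring
    rw [e, add_re, re_ofReal_mul]; simp
  have him : ∀ u a : ℝ, ((u : ℂ) + 2 * Real.pi * a * I).im = 2 * Real.pi * a := by
    intro u a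
    have e : (2 * Real.pi * a * I : ℂ) = ((2 * Real.pi * a : ℝ) : ℂ) * I := by push_cast; ring
    rw [e, add_im, im_ofReal_mul]; simp
  obtain ⟨k, hk⟩ := hB.inj c _ _ (by rw [h0, hre]; exact hs) (by rw [h0, hre]; exact ht) h
  have h1 := congrArg Complex.re hk
  have h2 := congrArg Complex.im hk
  have e : ((k : ℂ) * (2 * Real.pi * I)) = ((2 * Real.pi * k : ℝ) : ℂ) * I := by push_cast; ring
  rw [sub_re, hre, hre, e, re_ofReal_mul] at h1
  rw [sub_im, him, him, e, im_ofReal_mul] at h2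
  simp only [I_re, I_im, mul_zero, mul_one] at h1 h2
  refine ⟨by linarith, k, ?_⟩
  have h3 : 2 * Real.pi * (α - β - k) = 0 := by linarith
  have h4 := (mul_eq_zero.1 h3).resolve_left (by positivity)
  linarith

end rays

/-! ### the linearization -/

section lin

variable {n k : ℕ} {Λ : ℂ → ℂ → ℂ} {c0 z0 : ℂ} {δ r η : ℝ} {zf : ℂ → ℂ} {gi ka : ℂ → ℂ → ℂ}

lemma lin_zf (hL : Lin n k c0 z0 δ r η zf gi ka) {c z : ℂ} (hc : c ∈ Metric.ball c0 δ)
    (hz : z ∈ Metric.ball z0 r) (hf : (F n c)^[k] z = z) : z = zf c :=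
  hL.uniq c hc z hz hf

/-- The local inverse inverts. -/
lemma lin_left (hL : Lin n k c0 z0 δ r η zf gi ka) {c x : ℂ} (hc : c ∈ Metric.ball c0 δ)
    (hx : x ∈ Metric.ball z0 r) (hx' : (F n c)^[k] x ∈ Metric.ball z0 r) :
    gi c ((F n c)^[k] x) = x :=
  hL.inj c hc (hL.gimem c hc _ hx') hx (hL.giinv c hc _ hx')

/-- The linearization conjugates. -/
lemma lin_ka (hL : Lin n k c0 z0 δ r η zf gi ka) {c x : ℂ} (hc : c ∈ Metric.ball c0 δ)
    (hx : x ∈ Metric.ball z0 r) (hx' : (F n c)^[k] x ∈ Metric.ball z0 r) :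
    ka c x * Rho n k c (zf c) = ka c ((F n c)^[k] x) := by
  have := hL.kagi c hc _ hx'
  rwa [lin_left hL hc hx hx'] at this

/-- All rays in the cycle of `α` are inside the ball from level `T` on. -/
lemma exists_T (hn : 2 ≤ n) (h : IsExt n Λ) {c z : ℂ} (hc : c ∈ MM n) {q : ℕ} (hq : 1 ≤ q)
    {α : ℝ} (hα : IsInt (((n : ℝ) ^ (k * q) - 1) * α)) (hl : Lands Λ c α z)
    (hz : (F n c)^[k] z = z) {r : ℝ} (hr : 0 < r) :
    ∃ T : ℝ, 0 < T ∧ ∀ (i : ℕ) (s : ℝ), 0 < s → s ≤ T →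
      ray Λ c (((n : ℝ) ^ k) ^ i * α) s ∈ Metric.ball z r := by
  have hN : IsInt ((n : ℝ) ^ k) := isInt_pow (isInt_nat n) k
  have hzi : ∀ i : ℕ, (F n c)^[k * i] z = z := by
    intro i
    rw [Function.iterate_mul]
    exact Function.iterate_fixed hz i
  have h1 : ∀ i : ℕ, Lands Λ c (((n : ℝ) ^ k) ^ i * α) z := by
    intro i
    have := lands_pow hn h hc hl (k * i)
    rwa [hzi, pow_mul] at this
  have h2 : ∀ᶠ s in 𝓝[>] (0 : ℝ), ∀ i ∈ Finset.range q,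
      ray Λ c (((n : ℝ) ^ k) ^ i * α) s ∈ Metric.ball z r := by
    rw [eventually_all_finset]
    intro i _
    exact (h1 i).eventually (Metric.ball_mem_nhds z hr)
  obtain ⟨T, hT0, hT⟩ := mem_nhdsGT_iff_exists_Ioc_subset.1 h2
  refine ⟨T, hT0, fun i s hs hsT => ?_⟩
  have h3 := hT ⟨hs, hsT⟩ (i % q) (Finset.mem_range.2 (Nat.mod_lt _ (by omega)))
  have h4 : IsInt (((n : ℝ) ^ k) ^ i * α - ((n : ℝ) ^ k) ^ (i % q) * α) := by
    have h5 : IsInt ((((n : ℝ) ^ k) ^ (q * (i / q)) - 1) * α) :=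
      isInt_pow_mul hN (by rw [← pow_mul]; exact hα) _
    have h6 : ((n : ℝ) ^ k) ^ i * α - ((n : ℝ) ^ k) ^ (i % q) * α =
        ((n : ℝ) ^ k) ^ (i % q) * ((((n : ℝ) ^ k) ^ (q * (i / q)) - 1) * α) := by
      have h7 : ((n : ℝ) ^ k) ^ i = ((n : ℝ) ^ k) ^ (i % q) * ((n : ℝ) ^ k) ^ (q * (i / q)) := by
        rw [← pow_add, Nat.mod_add_div]
      rw [h7]; ring
    rw [h6]
    exact isInt_mul (isInt_pow hN _) h5
  rw [ray_int hn h hc h4 hs]
  exact h3

/-- The key relation. -/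
lemma key (hn : 2 ≤ n) (h : IsExt n Λ) (hL : Lin n k c0 z0 δ r η zf gi ka) {c : ℂ}
    (hcδ : c ∈ Metric.ball c0 δ) (hc : c ∈ MM n) {α T : ℝ}
    (hT : ∀ (i : ℕ) (s : ℝ), 0 < s → s ≤ T →
      ray Λ c (((n : ℝ) ^ k) ^ i * α) s ∈ Metric.ball z0 r) (j : ℕ) :
    ∀ (i : ℕ) (s : ℝ), 0 < s → ((n : ℝ) ^ k) ^ j * s ≤ T →
      ka c (ray Λ c (((n : ℝ) ^ k) ^ i * α) s) * Rho n k c (zf c) ^ j =
        ka c (ray Λ c (((n : ℝ) ^ k) ^ (i + j) * α) (((n : ℝ) ^ k) ^ j * s)) := by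
  have hN1 : (1 : ℝ) ≤ (n : ℝ) ^ k := by
    have : (2 : ℝ) ≤ n := by exact_mod_cast hn
    exact one_le_pow₀ (by linarith)
  induction j with
  | zero => intro i s _ _; simp
  | succ j ih =>
    intro i s hs hsT
    have hj1 : (1 : ℝ) ≤ ((n : ℝ) ^ k) ^ j := one_le_pow₀ hN1
    have h1 : (n : ℝ) ^ k * s ≤ T := by
      refine le_trans ?_ hsT
      rw [pow_succ]
      have : 0 < (n : ℝ) ^ k * s := by positivity
      nlinarith
    have h2 : s ≤ T := by
      have : s ≤ (n : ℝ) ^ k * s := by nlinarith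
      linarith
    have h3 : (F n c)^[k] (ray Λ c (((n : ℝ) ^ k) ^ i * α) s) =
        ray Λ c (((n : ℝ) ^ k) ^ (i + 1) * α) ((n : ℝ) ^ k * s) := by
      rw [ray_iter hn h hc k _ hs]
      congr 1
      rw [pow_succ]; ring
    have h4 := lin_ka hL hcδ (hT i s hs h2) (by
      rw [h3]; exact hT (i + 1) _ (by positivity) h1)
    rw [h3] at h4
    have h5 := ih (i + 1) ((n : ℝ) ^ k * s) (by positivity) (by
      rw [← mul_assoc, ← pow_succ]; exact hsT)
    rw [pow_succ', ← mul_assoc, h4, h5]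
    congr 2
    · rw [show i + 1 + j = i + (j + 1) by ring]
    · rw [pow_succ]; ring

end lin

end Pool.Agent.PLim.GMB_
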