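import Pool.Agent.PLim.Targets
import Pool.Agent.PLim.Basic
import Pool.Agent.PLim.GMB
import Pool.Agent.PLim.IE
import Pool.Agent.PLim.BIG

set_option autoImplicit false

open Complex Filter Topology Set MeasureTheory
open Pool.Agent.Multibrot Pool.Agent.Limb

namespace Pool.Agent.PLim

namespace ST2_

/-! ### uniqueness of lifts -/

theorem lift_eq {X : Type} [TopologicalSpace X] {s : Set X} (hs : IsPreconnected s) {f : ℂ → ℂ}
    {a b : X → ℂ} {B : Set ℂ} (hB : IsOpen B) (hinj : InjOn f B) (ha : ContinuousOn a s)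
    (hb : ContinuousOn b s) (hbB : ∀ x ∈ s, b x ∈ B) (hf : ∀ x ∈ s, f (a x) = f (b x)) {x0 : X}
    (hx0 : x0 ∈ s) (h0 : a x0 = b x0) : ∀ x ∈ s, a x = b x := by
  have hps : PreconnectedSpace s := isPreconnected_iff_preconnectedSpace.mp hs
  have ha' : Continuous (s.domRestrict a) := continuousOn_iff_continuous_domRestrict.mp ha
  have hb' : Continuous (s.domRestrict b) := continuousOn_iff_continuous_domRestrict.mp hb
  have heq : {x : s | s.domRestrict a x = s.domRestrict b x} = (s.domRestrict a) ⁻¹' B := by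
    ext x
    constructor
    · intro h
      have h' : a x = b x := h
      show a x ∈ B
      rw [h']
      exact hbB x x.2
    · intro h
      exact hinj h (hbB x x.2) (hf x x.2)
  have hcl : IsClopen {x : s | s.domRestrict a x = s.domRestrict b x} := by
    refine ⟨isClosed_eq ha' hb', ?_⟩
    rw [heq]
    exact hB.preimage ha'
  have huniv := hcl.eq_univ ⟨⟨x0, hx0⟩, h0⟩
  intro x hx
  have : (⟨x, hx⟩ : s) ∈ {x : s | s.domRestrict a x = s.domRestrict b x} := by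
    rw [huniv]; trivial
  exact this

/-! ### one step of the inverse near a cycle -/

theorem loc {n : ℕ} (hn : 2 ≤ n) {c0 b b' : ℂ} (hb : b ≠ 0) (hb' : b' = b ^ n + c0)
    {t t' κ η : ℝ} (ht : 0 < t) (ht' : 0 < t') (hκ : 1 < κ)
    (hrel : n * ‖b‖ ^ (n - 1) * t = κ * t') (hη0 : κ⁻¹ < η) (hη1 : η < 1) :
    ∀ᶠ ρ in 𝓝[>] (0 : ℝ), ∀ᶠ c in 𝓝 c0, ∃ lam : ℂ → ℂ,
      (∀ x ∈ Metric.closedBall b' (t' * ρ),
        F n c (lam x) = x ∧ lam x ∈ Metric.closedBall b (t * ρ)) ∧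
      (∀ x ∈ Metric.closedBall b' (t' * ρ), ∀ y ∈ Metric.closedBall b' (t' * ρ),
        ‖lam x - lam y‖ ≤ η * (t / t') * ‖x - y‖) ∧
      InjOn (F n c) (Metric.ball b (2 * (t * ρ))) ∧ c ∉ Metric.closedBall b' (t' * ρ) := by
  have hn0 : (0 : ℝ) < n := by exact_mod_cast (by omega : 0 < n)
  have hnC : (n : ℂ) ≠ 0 := by exact_mod_cast (by omega : n ≠ 0)
  have hκ0 : 0 < κ := by linarith
  have hη : 0 < η := lt_trans (inv_pos.mpr hκ0) hη0
  have hbn : 0 < ‖b‖ := norm_pos_iff.mpr hb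
  -- the root
  set g : ℂ → ℂ := fun u => exp (log u / n) with hg
  have hg1 : g 1 = 1 := by simp [hg]
  have hgd : HasStrictDerivAt g ((n : ℂ)⁻¹) 1 := by
    have h1 : HasStrictDerivAt log (1 : ℂ)⁻¹ 1 := hasStrictDerivAt_log one_mem_slitPlane
    have h2 := (h1.div_const (n : ℂ)).cexp
    have e : exp (log 1 / (n : ℂ)) * ((1 : ℂ)⁻¹ / n) = (n : ℂ)⁻¹ := by simp
    rw [e] at h2
    exact h2
  have hgn : ∀ u : ℂ, u ≠ 0 → g u ^ n = u := by
    intro u hu
    show exp (log u / n) ^ n = u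
    rw [← Complex.exp_nat_mul, mul_div_cancel₀ _ hnC, exp_log hu]
  obtain ⟨K, hK⟩ : ∃ K : NNReal, (K : ℝ) = η * κ / n := ⟨⟨η * κ / n, by positivity⟩, rfl⟩
  have hKn : ‖(ContinuousLinearMap.toSpanSingleton ℂ ((n : ℂ)⁻¹) : ℂ →L[ℂ] ℂ)‖₊ < K := by
    rw [← NNReal.coe_lt_coe, hK]
    have : ‖(ContinuousLinearMap.toSpanSingleton ℂ ((n : ℂ)⁻¹) : ℂ →L[ℂ] ℂ)‖ = (n : ℝ)⁻¹ := by
      rw [ContinuousLinearMap.norm_toSpanSingleton]
      simp
    rw [coe_nnnorm, this, lt_div_iff₀ hn0, inv_mul_cancel₀ hn0.ne']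
    have := mul_lt_mul_of_pos_right hη0 hκ0
    rwa [inv_mul_cancel₀ hκ0.ne'] at this
  obtain ⟨S, hS, hlip⟩ := hgd.hasStrictFDerivAt.exists_lipschitzOnWith_of_nnnorm_lt K hKn
  obtain ⟨r1, hr1, hr1S⟩ := Metric.mem_nhds_iff.mp hS
  set r2 : ℝ := min r1 1 with hr2
  have hr20 : 0 < r2 := lt_min hr1 one_pos
  -- injectivity
  have hpow : HasStrictDerivAt (fun y : ℂ => y ^ n) ((n : ℂ) * b ^ (n - 1)) b :=
    hasStrictDerivAt_pow n b
  have hinj : ∃ r3 : ℝ, 0 < r3 ∧ InjOn (fun y : ℂ => y ^ n) (Metric.ball b r3) := by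
    have hne : (n : ℂ) * b ^ (n - 1) ≠ 0 := mul_ne_zero hnC (pow_ne_zero _ hb)
    set e := hpow.hasStrictFDerivAt_equiv hne
    have h1 := e.mem_toOpenPartialHomeomorph_source
    have h2 := e.toOpenPartialHomeomorph (fun y : ℂ => y ^ n) |>.open_source
    obtain ⟨r3, hr3, hr3s⟩ := Metric.isOpen_iff.mp h2 b h1
    exact ⟨r3, hr3, (e.toOpenPartialHomeomorph (fun y : ℂ => y ^ n)).injOn.mono hr3s⟩
  obtain ⟨r3, hr3, hinj3⟩ := hinj
  have hbn' : 0 < ‖b‖ ^ n := by positivity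
  -- smallness of `ρ`
  have hρ : ∀ᶠ ρ in 𝓝[>] (0 : ℝ), 0 < ρ ∧ t' * ρ < r2 / 2 * ‖b‖ ^ n ∧ 2 * (t * ρ) < r3 ∧
      t' * ρ < ‖b‖ ^ n / 2 := by
    have h1 : ∀ᶠ ρ in 𝓝[>] (0 : ℝ), 0 < ρ := self_mem_nhdsWithin
    have h2 : ∀ (a B : ℝ), 0 < B → ∀ᶠ ρ in 𝓝[>] (0 : ℝ), a * ρ < B := by
      intro a B hB
      have h3 : Tendsto (fun ρ : ℝ => a * ρ) (𝓝 0) (𝓝 (a * 0)) :=
        (continuous_const.mul continuous_id).tendsto 0
      rw [mul_zero] at h3
      exact (h3.mono_left nhdsWithin_le_nhds).eventually_lt_const hB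
    filter_upwards [h1, h2 t' (r2 / 2 * ‖b‖ ^ n) (by positivity), h2 (2 * t) r3 hr3,
      h2 t' (‖b‖ ^ n / 2) (by positivity)] with ρ a1 a2 a3 a4
    exact ⟨a1, a2, by linarith, a4⟩
  filter_upwards [hρ] with ρ hρ
  obtain ⟨hρ0, hρ1, hρ2, hρ3⟩ := hρ
  have hc : ∀ᶠ c in 𝓝 c0, ‖c - c0‖ < r2 / 2 * ‖b‖ ^ n ∧ ‖c - c0‖ < ‖b‖ ^ n / 2 ∧
      ‖c - c0‖ < (1 - η) * t' * ρ / η := by
    have h2 : ∀ (B : ℝ), 0 < B → ∀ᶠ c in 𝓝 c0, ‖c - c0‖ < B := by
      intro B hB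
      filter_upwards [Metric.ball_mem_nhds c0 hB] with c hc
      rwa [Metric.mem_ball, dist_eq_norm] at hc
    have h3 : 0 < (1 - η) * t' * ρ / η := by
      have : 0 < 1 - η := by linarith
      positivity
    filter_upwards [h2 (r2 / 2 * ‖b‖ ^ n) (by positivity), h2 (‖b‖ ^ n / 2) (by positivity),
      h2 _ h3] with c a1 a2 a3
    exact ⟨a1, a2, a3⟩
  filter_upwards [hc] with c hc
  obtain ⟨hc1, hc2, hc3⟩ := hc
  set U : ℂ → ℂ := fun x => (x - c) / b ^ n with hU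
  have hbnC : b ^ n ≠ 0 := pow_ne_zero _ hb
  have hUsub : ∀ x y : ℂ, ‖U x - U y‖ = ‖x - y‖ / ‖b‖ ^ n := by
    intro x y
    have : U x - U y = (x - y) / b ^ n := by
      show (x - c) / b ^ n - (y - c) / b ^ n = _
      ring
    rw [this, norm_div, norm_pow]
  have hU1 : ∀ x : ℂ, U x - 1 = ((x - b') - (c - c0)) / b ^ n := by
    intro x
    show (x - c) / b ^ n - 1 = _
    rw [hb']
    field_simp
    ring
  have hU1n : ∀ x ∈ Metric.closedBall b' (t' * ρ), ‖U x - 1‖ ≤ (t' * ρ + ‖c - c0‖) / ‖b‖ ^ n := by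
    intro x hx
    rw [hU1, norm_div, norm_pow]
    refine div_le_div_of_nonneg_right ?_ hbn'.le
    rw [mem_closedBall_iff_norm] at hx
    exact (norm_sub_le _ _).trans (add_le_add_left hx _)
  have hUball : ∀ x ∈ Metric.closedBall b' (t' * ρ), U x ∈ Metric.ball (1 : ℂ) r2 := by
    intro x hx
    rw [mem_ball_iff_norm]
    refine lt_of_le_of_lt (hU1n x hx) ?_
    rw [div_lt_iff₀ hbn']
    linarith
  have hU0 : ∀ x ∈ Metric.closedBall b' (t' * ρ), U x ≠ 0 := by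
    intro x hx h
    have h1 := hUball x hx
    rw [h, mem_ball_iff_norm] at h1
    have h2 : r2 ≤ 1 := min_le_right _ _
    simp at h1
    linarith
  have hfac : ‖b‖ * (η * κ / n) / ‖b‖ ^ n = η * (t / t') := by
    have h1 : ‖b‖ ^ n = ‖b‖ * ‖b‖ ^ (n - 1) := by
      rw [← pow_succ']
      congr 1
      omega
    rw [h1]
    have h2 : 0 < ‖b‖ ^ (n - 1) := by positivity
    field_simp
    nlinarith [hrel]
  have hgl : ∀ u ∈ Metric.ball (1 : ℂ) r2, ∀ v ∈ Metric.ball (1 : ℂ) r2,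
      ‖g u - g v‖ ≤ η * κ / n * ‖u - v‖ := by
    intro u hu v hv
    have hsub : Metric.ball (1 : ℂ) r2 ⊆ S := (Metric.ball_subset_ball (min_le_left _ _)).trans hr1S
    have h1 := hlip.dist_le_mul u (hsub hu) v (hsub hv)
    rwa [dist_eq_norm, dist_eq_norm, hK] at h1
  refine ⟨fun x => b * g (U x), ?_, ?_, ?_, ?_⟩
  · intro x hx
    constructor
    · show (b * g (U x)) ^ n + c = x
      rw [mul_pow, hgn _ (hU0 x hx)]
      show b ^ n * ((x - c) / b ^ n) + c = x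
      rw [mul_div_cancel₀ _ hbnC]
      ring
    · rw [mem_closedBall_iff_norm]
      have e : b * g (U x) - b = b * (g (U x) - g 1) := by rw [hg1]; ring
      show ‖b * g (U x) - b‖ ≤ t * ρ
      rw [e, norm_mul]
      have h1 := hgl (U x) (hUball x hx) 1 (Metric.mem_ball_self hr20)
      have h2 := hU1n x hx
      calc ‖b‖ * ‖g (U x) - g 1‖ ≤ ‖b‖ * (η * κ / n * ((t' * ρ + ‖c - c0‖) / ‖b‖ ^ n)) := by
            refine mul_le_mul_of_nonneg_left (h1.trans ?_) hbn.le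
            exact mul_le_mul_of_nonneg_left h2 (by positivity)
        _ = (‖b‖ * (η * κ / n) / ‖b‖ ^ n) * (t' * ρ + ‖c - c0‖) := by ring
        _ = η * (t / t') * (t' * ρ + ‖c - c0‖) := by rw [hfac]
        _ ≤ η * (t / t') * (t' * ρ + (1 - η) * t' * ρ / η) := by
            refine mul_le_mul_of_nonneg_left ?_ (by positivity)
            linarith
        _ = t * ρ := by
            field_simp
            ring
  · intro x hx y hy
    have e : b * g (U x) - b * g (U y) = b * (g (U x) - g (U y)) := by ring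
    show ‖b * g (U x) - b * g (U y)‖ ≤ _
    rw [e, norm_mul]
    have h1 := hgl (U x) (hUball x hx) (U y) (hUball y hy)
    rw [hUsub] at h1
    calc ‖b‖ * ‖g (U x) - g (U y)‖ ≤ ‖b‖ * (η * κ / n * (‖x - y‖ / ‖b‖ ^ n)) :=
          mul_le_mul_of_nonneg_left h1 hbn.le
      _ = (‖b‖ * (η * κ / n) / ‖b‖ ^ n) * ‖x - y‖ := by ring
      _ = η * (t / t') * ‖x - y‖ := by rw [hfac]
  · intro x hx y hy hxy
    have h1 : x ^ n = y ^ n := by
      have : x ^ n + c = y ^ n + c := hxy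
      exact add_right_cancel this
    exact hinj3 (Metric.ball_subset_ball hρ2.le hx) (Metric.ball_subset_ball hρ2.le hy) h1
  · intro h
    rw [mem_closedBall_iff_norm, hb'] at h
    have e : c - (b ^ n + c0) = (c - c0) - b ^ n := by ring
    rw [e] at h
    have h1 : ‖b ^ n‖ ≤ ‖(c - c0) - b ^ n‖ + ‖c - c0‖ := by
      have := norm_sub_le (c - c0) ((c - c0) - b ^ n)
      have e2 : (c - c0) - ((c - c0) - b ^ n) = b ^ n := by ring
      rw [e2] at this
      linarith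
    rw [norm_pow] at h1
    linarith

/-- Local inverses of `F n c` along a cycle `b`. -/
structure CycLoc (n : ℕ) (c : ℂ) (b : ℕ → ℂ) (t : ℕ → ℝ) (ρ η : ℝ) (lam : ℕ → ℂ → ℂ) :
    Prop where
  hρ : 0 < ρ
  inv : ∀ j, ∀ x ∈ Metric.closedBall (b (j + 1)) (t (j + 1) * ρ),
    F n c (lam j x) = x ∧ lam j x ∈ Metric.closedBall (b j) (t j * ρ)
  lip : ∀ j, ∀ x ∈ Metric.closedBall (b (j + 1)) (t (j + 1) * ρ),
    ∀ y ∈ Metric.closedBall (b (j + 1)) (t (j + 1) * ρ),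
    ‖lam j x - lam j y‖ ≤ η * (t j / t (j + 1)) * ‖x - y‖
  inj : ∀ j, InjOn (F n c) (Metric.ball (b j) (2 * (t j * ρ)))
  crit : ∀ j, c ∉ Metric.closedBall (b (j + 1)) (t (j + 1) * ρ)

theorem exists_cycLoc {n k : ℕ} (hn : 2 ≤ n) (hk : 1 ≤ k) {c0 z0 : ℂ}
    (hz : (F n c0)^[k] z0 = z0) (hrep : 1 < ‖Rho n k c0 z0‖) :
    ∃ (t : ℕ → ℝ) (η : ℝ), (∀ j, 0 < t j) ∧ (∀ j, t (j + k) = t j) ∧ 0 < η ∧ η < 1 ∧
      ∀ᶠ ρ in 𝓝[>] (0 : ℝ), ∀ᶠ c in 𝓝 c0,
        ∃ lam, CycLoc n c (fun j => (F n c0)^[j] z0) t ρ η lam := by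
  have hn0 : (0 : ℝ) < n := by exact_mod_cast (by omega : 0 < n)
  set b : ℕ → ℂ := fun j => (F n c0)^[j] z0 with hb
  have hbk : ∀ j, b (j + k) = b j := by
    intro j
    show (F n c0)^[j + k] z0 = (F n c0)^[j] z0
    rw [Function.iterate_add_apply, hz]
  have hbs : ∀ j, b (j + 1) = b j ^ n + c0 := by
    intro j
    show (F n c0)^[j + 1] z0 = _
    rw [Function.iterate_succ_apply']
    rfl
  set a : ℕ → ℝ := fun j => n * ‖b j‖ ^ (n - 1) with ha
  have hak : ∀ j, a (j + k) = a j := by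
    intro j
    show n * ‖b (j + k)‖ ^ (n - 1) = n * ‖b j‖ ^ (n - 1)
    rw [hbk]
  have hR : ‖Rho n k c0 z0‖ = ∏ j ∈ Finset.range k, a j := BIG_.norm_Rho n k c0 z0
  have hmod : ∀ j, b (j % k) = b j := by
    intro j
    have h1 : ∀ m i, b (i + k * m) = b i := by
      intro m
      induction m with
      | zero => intro i; simp
      | succ m ih =>
        intro i
        have : i + k * (m + 1) = (i + k * m) + k := by ring
        rw [this, hbk, ih]
    have := h1 (j / k) (j % k)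
    rw [Nat.mod_add_div] at this
    exact this.symm
  have hb0 : ∀ j, b j ≠ 0 := by
    intro j hj
    have h1 : b (j % k) = 0 := by rw [hmod, hj]
    have h2 : a (j % k) = 0 := by
      show n * ‖b (j % k)‖ ^ (n - 1) = 0
      rw [h1, norm_zero, zero_pow (by omega), mul_zero]
    rw [hR, Finset.prod_eq_zero (Finset.mem_range.mpr (Nat.mod_lt j (by omega))) h2] at hrep
    linarith
  have ha0 : ∀ j, 0 < a j := by
    intro j
    have := norm_pos_iff.mpr (hb0 j)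
    show 0 < n * ‖b j‖ ^ (n - 1)
    positivity
  obtain ⟨κ, hκ1, hκk⟩ : ∃ κ : ℝ, 1 < κ ∧ κ ^ k = ∏ j ∈ Finset.range k, a j := by
    refine ⟨(∏ j ∈ Finset.range k, a j) ^ ((k : ℝ)⁻¹), ?_, ?_⟩
    · rw [← hR]
      exact Real.one_lt_rpow hrep (by positivity)
    · rw [Real.rpow_inv_natCast_pow]
      · exact (Finset.prod_pos fun j _ => ha0 j).le
      · omega
  have hκ0 : 0 < κ := by linarith
  set t : ℕ → ℝ := fun j => (∏ i ∈ Finset.range j, a i) / κ ^ j with ht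
  have ht0 : ∀ j, 0 < t j := by
    intro j
    have : 0 < ∏ i ∈ Finset.range j, a i := Finset.prod_pos fun j _ => ha0 j
    show 0 < (∏ i ∈ Finset.range j, a i) / κ ^ j
    positivity
  have hts : ∀ j, a j * t j = κ * t (j + 1) := by
    intro j
    show a j * ((∏ i ∈ Finset.range j, a i) / κ ^ j) =
      κ * ((∏ i ∈ Finset.range (j + 1), a i) / κ ^ (j + 1))
    rw [Finset.prod_range_succ, pow_succ]
    field_simp
  have htk : ∀ j, t (j + k) = t j := by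
    intro j
    induction j with
    | zero =>
      rw [zero_add]
      show (∏ i ∈ Finset.range k, a i) / κ ^ k = (∏ i ∈ Finset.range 0, a i) / κ ^ 0
      rw [← hκk, div_self (by positivity)]
      simp
    | succ j ih =>
      have h1 := hts (j + k)
      rw [hak, ih, hts] at h1
      have h2 := mul_left_cancel₀ hκ0.ne' h1
      have e : j + 1 + k = j + k + 1 := by ring
      rw [e, ← h2]
  have htmod : ∀ j, t (j % k) = t j := by
    intro j
    have h1 : ∀ m i, t (i + k * m) = t i := by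
      intro m
      induction m with
      | zero => intro i; simp
      | succ m ih =>
        intro i
        have : i + k * (m + 1) = (i + k * m) + k := by ring
        rw [this, htk, ih]
    have := h1 (j / k) (j % k)
    rw [Nat.mod_add_div] at this
    exact this.symm
  have hbmod : ∀ j, b (j % k + 1) = b (j + 1) := by
    intro j
    rw [hbs, hbs, hmod]
  have htmods : ∀ j, t (j % k + 1) = t (j + 1) := by
    intro j
    have h1 := hts (j % k)
    have h2 := hts j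
    have h3 : a (j % k) = a j := by
      show n * ‖b (j % k)‖ ^ (n - 1) = n * ‖b j‖ ^ (n - 1)
      rw [hmod]
    rw [htmod, h3, h2] at h1
    exact (mul_left_cancel₀ hκ0.ne' h1).symm
  obtain ⟨η, hη1, hη2⟩ := exists_between (inv_lt_one_of_one_lt₀ hκ1)
  refine ⟨t, η, ht0, htk, lt_trans (inv_pos.mpr hκ0) hη1, hη2, ?_⟩
  have hall : ∀ᶠ ρ in 𝓝[>] (0 : ℝ), ∀ j ∈ Finset.range k, ∀ᶠ c in 𝓝 c0, ∃ lam : ℂ → ℂ,
      (∀ x ∈ Metric.closedBall (b (j + 1)) (t (j + 1) * ρ),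
        F n c (lam x) = x ∧ lam x ∈ Metric.closedBall (b j) (t j * ρ)) ∧
      (∀ x ∈ Metric.closedBall (b (j + 1)) (t (j + 1) * ρ),
        ∀ y ∈ Metric.closedBall (b (j + 1)) (t (j + 1) * ρ),
        ‖lam x - lam y‖ ≤ η * (t j / t (j + 1)) * ‖x - y‖) ∧
      InjOn (F n c) (Metric.ball (b j) (2 * (t j * ρ))) ∧
      c ∉ Metric.closedBall (b (j + 1)) (t (j + 1) * ρ) := by
    rw [Filter.eventually_all_finset]
    intro j _
    exact loc hn (hb0 j) (hbs j) (ht0 j) (ht0 (j + 1)) hκ1 (hts j) hη1 hη2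
  filter_upwards [hall, self_mem_nhdsWithin] with ρ hρ hρ0
  rw [← Filter.eventually_all_finset] at hρ
  filter_upwards [hρ] with c hc
  have hc' : ∀ j : ℕ, ∃ lam : ℂ → ℂ,
      (∀ x ∈ Metric.closedBall (b (j + 1)) (t (j + 1) * ρ),
        F n c (lam x) = x ∧ lam x ∈ Metric.closedBall (b j) (t j * ρ)) ∧
      (∀ x ∈ Metric.closedBall (b (j + 1)) (t (j + 1) * ρ),
        ∀ y ∈ Metric.closedBall (b (j + 1)) (t (j + 1) * ρ),
        ‖lam x - lam y‖ ≤ η * (t j / t (j + 1)) * ‖x - y‖) ∧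
      InjOn (F n c) (Metric.ball (b j) (2 * (t j * ρ))) ∧
      c ∉ Metric.closedBall (b (j + 1)) (t (j + 1) * ρ) := by
    intro j
    have h1 := hc (j % k) (Finset.mem_range.mpr (Nat.mod_lt j (by omega)))
    rw [hbmod, htmods, hmod, htmod] at h1
    exact h1
  choose lam h1 h2 h3 h4 using hc'
  exact ⟨lam, hρ0, h1, h2, h3, h4⟩

/-! ### rays for all parameters -/

theorem re_ray (t θ : ℝ) : ((t : ℂ) + 2 * Real.pi * θ * I).re = t := by
  have e : (2 * Real.pi * θ * I : ℂ) = ((2 * Real.pi * θ : ℝ) : ℂ) * I := by push_cast; ring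
  rw [e, add_re, re_ofReal_mul]; simp

theorem im_ray (t θ : ℝ) : ((t : ℂ) + 2 * Real.pi * θ * I).im = 2 * Real.pi * θ := by
  have e : (2 * Real.pi * θ * I : ℂ) = ((2 * Real.pi * θ : ℝ) : ℂ) * I := by push_cast; ring
  rw [e, add_im, im_ofReal_mul]; simp

theorem ray_F {n : ℕ} {Λ : ℂ → ℂ → ℂ} (hB : IsBot n Λ) {c : ℂ} {θ t : ℝ} (ht : G n c 0 < t) :
    F n c (ray Λ c θ t) = ray Λ c (n * θ) (n * t) := by
  rw [ray, ray, hB.F_exp (by rw [re_ray]; exact ht)]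
  congr 2
  push_cast
  ring

theorem ray_int {n : ℕ} (hn : 2 ≤ n) {Λ : ℂ → ℂ → ℂ} (hB : IsBot n Λ) {c : ℂ} {θ θ' t : ℝ}
    (ht : G n c 0 < t) (h : IsInt (θ' - θ)) : ray Λ c θ' t = ray Λ c θ t := by
  obtain ⟨m, hm⟩ := h
  have hb : (θ' : ℂ) = θ + m := by
    have : θ' = θ + m := by linarith
    rw [this]; push_cast; ring
  rw [ray, ray, ← hB.exp_per hn (s := (t : ℂ) + 2 * Real.pi * θ * I) (by rw [re_ray]; exact ht) m]
  congr 2
  rw [hb]; ring

theorem ray_cont {n : ℕ} {Λ : ℂ → ℂ → ℂ} (hB : IsBot n Λ) (c : ℂ) (θ : ℝ) :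
    ContinuousOn (ray Λ c θ) (Ioi (G n c 0)) := by
  have h1 : ContinuousOn (fun s : ℂ => exp (Λ c s)) {s : ℂ | G n c 0 < s.re} :=
    (hB.diff c).continuousOn.cexp
  have h2 : ContinuousOn (fun t : ℝ => (t : ℂ) + 2 * Real.pi * θ * I) (Ioi (G n c 0)) := by
    fun_prop
  exact h1.comp h2 fun t ht => by
    show G n c 0 < ((t : ℂ) + 2 * Real.pi * θ * I).re
    rw [re_ray]
    exact ht

/-- The rays stay close to the cycle. -/
theorem tail {n : ℕ} (hn : 2 ≤ n) {Λ : ℂ → ℂ → ℂ} (hB : IsBot n Λ) {c : ℂ} {b : ℕ → ℂ}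
    {t : ℕ → ℝ} {ρ η : ℝ} {lam : ℕ → ℂ → ℂ} (hL : CycLoc n c b t ρ η lam) (ht : ∀ j, 0 < t j)
    {α t1 : ℝ} (ht1 : 0 < t1) (hG0 : 0 ≤ G n c 0) (hG : G n c 0 < t1)
    (h0 : ∀ j : ℕ, ∀ σ : ℝ, t1 ≤ σ → σ ≤ n * t1 →
      ray Λ c ((n : ℝ) ^ j * α) σ ∈ Metric.closedBall (b j) (t j * ρ)) :
    ∀ j : ℕ, ∀ σ : ℝ, G n c 0 < σ → σ ≤ n * t1 →
      ray Λ c ((n : ℝ) ^ j * α) σ ∈ Metric.closedBall (b j) (t j * ρ) := by
  have hn0 : (0 : ℝ) < n := by exact_mod_cast (by omega : 0 < n)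
  have hn1 : (2 : ℝ) ≤ n := by exact_mod_cast hn
  have hρ := hL.hρ
  have key : ∀ m : ℕ, ∀ j : ℕ, ∀ σ : ℝ, G n c 0 < σ → t1 / (n : ℝ) ^ m ≤ σ → σ ≤ n * t1 →
      ray Λ c ((n : ℝ) ^ j * α) σ ∈ Metric.closedBall (b j) (t j * ρ) := by
    intro m
    induction m with
    | zero =>
      intro j σ _ h1 h2
      rw [pow_zero, div_one] at h1
      exact h0 j σ h1 h2
    | succ m ih =>
      intro j σ hσ h1 h2
      rcases le_or_gt t1 σ with h3 | h3
      · exact h0 j σ h3 h2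
      set S : Set ℝ := {σ : ℝ | G n c 0 < σ ∧ t1 / (n : ℝ) ^ (m + 1) ≤ σ ∧ σ ≤ t1} with hS
      have hSc : IsPreconnected S := by
        refine Set.OrdConnected.isPreconnected ⟨?_⟩
        intro x hx y hy z hz
        exact ⟨lt_of_lt_of_le hx.1 hz.1, hx.2.1.trans hz.1, hz.2.trans hy.2.2⟩
      have hnS : ∀ x ∈ S, G n c 0 < n * x ∧ t1 / (n : ℝ) ^ m ≤ n * x ∧ n * x ≤ n * t1 := by
        intro x hx
        have hx0 : 0 < x := lt_of_le_of_lt hG0 hx.1
        refine ⟨by nlinarith [hx.1], ?_, mul_le_mul_of_nonneg_left hx.2.2 hn0.le⟩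
        have h4 := hx.2.1
        rw [pow_succ, div_le_iff₀ (by positivity)] at h4
        rw [div_le_iff₀ (by positivity)]
        linarith
      have hmem : ∀ x ∈ S, ray Λ c ((n : ℝ) ^ (j + 1) * α) (n * x) ∈
          Metric.closedBall (b (j + 1)) (t (j + 1) * ρ) := fun x hx =>
        ih (j + 1) (n * x) (hnS x hx).1 (hnS x hx).2.1 (hnS x hx).2.2
      have hF : ∀ x, G n c 0 < x → F n c (ray Λ c ((n : ℝ) ^ j * α) x) =
          ray Λ c ((n : ℝ) ^ (j + 1) * α) (n * x) := by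
        intro x hx
        rw [ray_F hB hx]
        congr 1
        rw [pow_succ]; ring
      have hball : ∀ y ∈ Metric.closedBall (b j) (t j * ρ),
          y ∈ Metric.ball (b j) (2 * (t j * ρ)) := by
        intro y hy
        refine Metric.closedBall_subset_ball ?_ hy
        have : 0 < t j * ρ := mul_pos (ht j) hρ
        linarith
      have heq := lift_eq (X := ℝ) (s := S) hSc (f := F n c)
        (a := fun x => ray Λ c ((n : ℝ) ^ j * α) x)
        (b := fun x => lam j (ray Λ c ((n : ℝ) ^ (j + 1) * α) (n * x)))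
        (B := Metric.ball (b j) (2 * (t j * ρ))) Metric.isOpen_ball (hL.inj j)
        ((ray_cont hB c _).mono fun x hx => hx.1)
        (by
          have h4 : ContinuousOn (lam j) (Metric.closedBall (b (j + 1)) (t (j + 1) * ρ)) := by
            have hη : 0 ≤ |η * (t j / t (j + 1))| := abs_nonneg _
            refine (LipschitzOnWith.of_dist_le_mul (K := ⟨|η * (t j / t (j + 1))|, hη⟩)
              fun x hx y hy => ?_).continuousOn
            rw [dist_eq_norm, dist_eq_norm]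
            refine (hL.lip j x hx y hy).trans ?_
            exact mul_le_mul_of_nonneg_right (le_abs_self _) (norm_nonneg _)
          refine h4.comp ?_ hmem
          refine (ray_cont hB c _).comp (by fun_prop) fun x hx => (hnS x hx).1)
        (fun x hx => hball _ (hL.inv j _ (hmem x hx)).2)
        (fun x hx => by
          show F n c (ray Λ c ((n : ℝ) ^ j * α) x) = F n c (lam j _)
          rw [(hL.inv j _ (hmem x hx)).1, hF x hx.1])
        (x0 := t1) ⟨hG, div_le_self ht1.le (one_le_pow₀ (by linarith)), le_rfl⟩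
        (by
          have hx : t1 ∈ S := ⟨hG, div_le_self ht1.le (one_le_pow₀ (by linarith)), le_rfl⟩
          refine hL.inj j (hball _ (h0 j t1 le_rfl (by nlinarith)))
            (hball _ (hL.inv j _ (hmem t1 hx)).2) ?_
          show F n c (ray Λ c ((n : ℝ) ^ j * α) t1) = F n c (lam j _)
          rw [(hL.inv j _ (hmem t1 hx)).1, hF t1 hG])
      have hσS : σ ∈ S := ⟨hσ, h1, h3.le⟩
      have h5 := heq σ hσS
      show ray Λ c ((n : ℝ) ^ j * α) σ ∈ _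
      rw [show ray Λ c ((n : ℝ) ^ j * α) σ = _ from h5]
      exact (hL.inv j _ (hmem σ hσS)).2
  intro j σ hσ h2
  obtain ⟨m, hm⟩ : ∃ m : ℕ, t1 / (n : ℝ) ^ m ≤ σ := by
    have hσ0 : 0 < σ := lt_of_le_of_lt hG0 hσ
    obtain ⟨m, hm⟩ := pow_unbounded_of_one_lt (t1 / σ) (by linarith : (1 : ℝ) < n)
    refine ⟨m, ?_⟩
    rw [div_lt_iff₀ hσ0] at hm
    rw [div_le_iff₀ (by positivity)]
    linarith
  exact key m j σ hσ hm h2

/-! ### the digits: abstract form -/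

/-- iterated images of the arcs -/
def KK (βr : ℕ → ℂ → ℂ) (K0 : ℕ → Set ℂ) : ℕ → ℕ → Set ℂ
  | 0, j => K0 j
  | l + 1, j => βr j '' KK βr K0 l (j + 1)

/-- iterated images of the end points -/
def yy (βr : ℕ → ℂ → ℂ) (y0 : ℕ → ℂ) : ℕ → ℕ → ℂ
  | 0, j => y0 j
  | l + 1, j => βr j (yy βr y0 l (j + 1))

theorem digits_abs {n : ℕ} {c : ℂ} {b : ℕ → ℂ} {t : ℕ → ℝ} {ρ η : ℝ} {lam : ℕ → ℂ → ℂ}
    (hL : CycLoc n c b t ρ η lam) (ht : ∀ j, 0 < t j) (hη0 : 0 < η) (hη1 : η < 1)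
    {Ω : Set ℂ} (hΩ : IsOpen Ω) {βr : ℕ → ℂ → ℂ} (hβc : ∀ j, ContinuousOn (βr j) Ω)
    (hβΩ : ∀ j x, x ∈ Ω → βr j x ∈ Ω) (hβF : ∀ j x, x ∈ Ω → F n c (βr j x) = x)
    {K0 : ℕ → Set ℂ} {y0 : ℕ → ℂ} (h1 : ∀ j, K0 j ⊆ Metric.closedBall (b j) (t j * ρ))
    (h2 : ∀ j, IsPreconnected (K0 j)) (h3 : ∀ j, K0 j ⊆ Ω) (h4 : ∀ j, y0 j ∈ K0 j)
    (h5 : ∀ j, βr j (y0 (j + 1)) ∈ K0 j)
    (h6 : ∀ j, βr j (y0 (j + 1)) = lam j (y0 (j + 1)))
    {w : ℕ → ℂ} (hw1 : ∀ j, w j ∈ Metric.closedBall (b j) (t j * ρ)) (hw2 : ∀ j, w j ∈ Ω)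
    (hw3 : ∀ j, F n c (w j) = w (j + 1)) : ∀ j, βr j (w (j + 1)) = w j := by
  have hρ := hL.hρ
  have hball : ∀ j, ∀ y ∈ Metric.closedBall (b j) (t j * ρ),
      y ∈ Metric.ball (b j) (2 * (t j * ρ)) := by
    intro j y hy
    refine Metric.closedBall_subset_ball ?_ hy
    have : 0 < t j * ρ := mul_pos (ht j) hρ
    linarith
  have hlamc : ∀ j, ContinuousOn (lam j) (Metric.closedBall (b (j + 1)) (t (j + 1) * ρ)) := by
    intro j
    have hη : 0 ≤ |η * (t j / t (j + 1))| := abs_nonneg _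
    refine (LipschitzOnWith.of_dist_le_mul (K := ⟨|η * (t j / t (j + 1))|, hη⟩)
      fun x hx y hy => ?_).continuousOn
    rw [dist_eq_norm, dist_eq_norm]
    refine (hL.lip j x hx y hy).trans ?_
    exact mul_le_mul_of_nonneg_right (le_abs_self _) (norm_nonneg _)
  -- coincidence on connected sets
  have hco : ∀ (j : ℕ) (K : Set ℂ) (y : ℂ), K ⊆ Metric.closedBall (b (j + 1)) (t (j + 1) * ρ) →
      IsPreconnected K → K ⊆ Ω → y ∈ K → βr j y = lam j y → ∀ x ∈ K, βr j x = lam j x := by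
    intro j K y hK1 hK2 hK3 hy hyy
    refine lift_eq hK2 (f := F n c) (B := Metric.ball (b j) (2 * (t j * ρ))) Metric.isOpen_ball
      (hL.inj j) ((hβc j).mono hK3) ((hlamc j).mono hK1)
      (fun x hx => hball j _ (hL.inv j x (hK1 hx)).2) (fun x hx => ?_) hy hyy
    rw [hβF j x (hK3 hx), (hL.inv j x (hK1 hx)).1]
  have claim : ∀ l j, KK βr K0 l j ⊆ Metric.closedBall (b j) (t j * ρ) ∧
      IsPreconnected (KK βr K0 l j) ∧ KK βr K0 l j ⊆ Ω ∧ yy βr y0 l j ∈ KK βr K0 l j ∧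
      yy βr y0 (l + 1) j ∈ KK βr K0 l j ∧
      βr j (yy βr y0 l (j + 1)) = lam j (yy βr y0 l (j + 1)) := by
    intro l
    induction l with
    | zero => exact fun j => ⟨h1 j, h2 j, h3 j, h4 j, h5 j, h6 j⟩
    | succ l ih =>
      intro j
      obtain ⟨a1, a2, a3, a4, a5, a6⟩ := ih (j + 1)
      obtain ⟨b1, b2, b3, b4, b5, b6⟩ := ih j
      have hc := hco j _ _ a1 a2 a3 a4 b6
      refine ⟨?_, ?_, ?_, ?_, ?_, ?_⟩
      · rintro _ ⟨x, hx, rfl⟩
        rw [hc x hx]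
        exact (hL.inv j x (a1 hx)).2
      · exact a2.image _ ((hβc j).mono a3)
      · rintro _ ⟨x, hx, rfl⟩
        exact hβΩ j x (a3 hx)
      · exact ⟨_, a4, rfl⟩
      · exact ⟨_, a5, rfl⟩
      · exact hc _ a5
  have hlw : ∀ j, lam j (w (j + 1)) = w j := by
    intro j
    refine hL.inj j (hball j _ (hL.inv j _ (hw1 (j + 1))).2) (hball j _ (hw1 j)) ?_
    rw [(hL.inv j _ (hw1 (j + 1))).1, hw3]
  have hdist : ∀ l j, ∀ x ∈ KK βr K0 l j, ‖x - w j‖ ≤ η ^ l * (2 * (t j * ρ)) := by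
    intro l
    induction l with
    | zero =>
      intro j x hx
      have e1 := h1 j hx
      have e2 := hw1 j
      rw [mem_closedBall_iff_norm] at e1 e2
      have e3 : x - w j = (x - b j) - (w j - b j) := by ring
      rw [e3, pow_zero, one_mul]
      exact (norm_sub_le _ _).trans (by linarith)
    | succ l ih =>
      intro j x hx
      obtain ⟨x', hx', rfl⟩ := hx
      obtain ⟨a1, a2, a3, a4, a5, a6⟩ := claim l (j + 1)
      have hc := hco j _ _ a1 a2 a3 a4 (claim l j).2.2.2.2.2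
      show ‖βr j x' - w j‖ ≤ _
      rw [hc x' hx', ← hlw j]
      refine (hL.lip j x' (a1 hx') _ (hw1 (j + 1))).trans ?_
      have h7 := ih (j + 1) x' hx'
      have h8 : 0 < t j / t (j + 1) := div_pos (ht j) (ht (j + 1))
      calc η * (t j / t (j + 1)) * ‖x' - w (j + 1)‖
          ≤ η * (t j / t (j + 1)) * (η ^ l * (2 * (t (j + 1) * ρ))) :=
            mul_le_mul_of_nonneg_left h7 (by positivity)
        _ = η ^ (l + 1) * (2 * (t j * ρ)) := by
            have := (ht (j + 1)).ne'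
            field_simp
            ring
  intro j
  have hlim : Tendsto (fun l => yy βr y0 l (j + 1)) atTop (𝓝 (w (j + 1))) := by
    rw [tendsto_iff_norm_sub_tendsto_zero]
    refine squeeze_zero (fun _ => norm_nonneg _)
      (fun l => hdist l (j + 1) _ (claim l (j + 1)).2.2.2.1) ?_
    have := (tendsto_pow_atTop_nhds_zero_of_lt_one hη0.le hη1).mul_const (2 * (t (j + 1) * ρ))
    rwa [zero_mul] at this
  have hlim1 : Tendsto (fun l => βr j (yy βr y0 l (j + 1))) atTop (𝓝 (βr j (w (j + 1)))) :=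
    (((hβc j).continuousAt (hΩ.mem_nhds (hw2 (j + 1)))).tendsto).comp hlim
  have hlim2 : Tendsto (fun l => βr j (yy βr y0 l (j + 1))) atTop (𝓝 (lam j (w (j + 1)))) := by
    have h7 : ContinuousWithinAt (lam j) (Metric.closedBall (b (j + 1)) (t (j + 1) * ρ))
        (w (j + 1)) := hlamc j _ (hw1 (j + 1))
    have h8 : Tendsto (fun l => yy βr y0 l (j + 1)) atTop
        (𝓝[Metric.closedBall (b (j + 1)) (t (j + 1) * ρ)] (w (j + 1))) :=
      tendsto_nhdsWithin_iff.mpr ⟨hlim, Eventually.of_forall fun l =>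
        (claim l (j + 1)).1 (claim l (j + 1)).2.2.2.1⟩
    have h9 := h7.tendsto.comp h8
    refine h9.congr fun l => ?_
    exact ((claim l j).2.2.2.2.2).symm
  rw [tendsto_nhds_unique hlim1 hlim2, hlw]

/-! ### the digits -/

theorem unbroken {n : ℕ} {Λ : ℂ → ℂ → ℂ} (hn : 2 ≤ n) (hB : IsBot n Λ) {c ζ : ℂ}
    (hcr : Crit n Λ c ζ) {b : ℕ → ℂ} {t : ℕ → ℝ} {ρ η : ℝ} {lam : ℕ → ℂ → ℂ}
    (hL : CycLoc n c b t ρ η lam) {α T : ℝ}
    (hT : ∀ j : ℕ, ∀ σ : ℝ, G n c 0 < σ → σ ≤ T →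
      ray Λ c ((n : ℝ) ^ j * α) σ ∈ Metric.closedBall (b j) (t j * ρ))
    (h0 : G n c 0 < ζ.re) (h1 : ζ.re ≤ T) :
    ∀ j : ℕ, 1 ≤ j → ¬ IsInt ((n : ℝ) ^ j * α - ζ.im / (2 * Real.pi)) := by
  intro j hj hint
  have h2 := hT j ζ.re h0 h1
  rw [ray_int hn hB h0 hint, ray] at h2
  have e : ((ζ.re : ℂ) + 2 * Real.pi * ((ζ.im / (2 * Real.pi) : ℝ) : ℂ) * I) = ζ := by
    have h3 : (2 * Real.pi * ((ζ.im / (2 * Real.pi) : ℝ) : ℂ) : ℂ) = (ζ.im : ℂ) := by
      rw [← Complex.ofReal_ofNat, ← Complex.ofReal_mul, ← Complex.ofReal_mul]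
      congr 1
      have := Real.pi_pos
      field_simp
    rw [h3]
    exact Complex.re_add_im ζ
  rw [e, hcr.2.2] at h2
  obtain ⟨i, rfl⟩ : ∃ i, j = i + 1 := ⟨j - 1, by omega⟩
  exact hL.crit i h2

theorem digits {n : ℕ} {Λ : ℂ → ℂ → ℂ} {lh ls : ℂ → ℂ → ℂ → ℂ} (hn : 2 ≤ n) (hB : IsBot n Λ)
    (hlog : IsLog n Λ lh ls) (hGR : T_GREEN) (hBR : T_BR) {c ζ : ℂ}
    (hcr : Crit n Λ c ζ) {b : ℕ → ℂ} {t : ℕ → ℝ} {ρ η : ℝ} {lam : ℕ → ℂ → ℂ}
    (hL : CycLoc n c b t ρ η lam) (ht : ∀ j, 0 < t j) (hη0 : 0 < η) (hη1 : η < 1) {α T : ℝ}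
    (hT : ∀ j : ℕ, ∀ σ : ℝ, G n c 0 < σ → σ ≤ T →
      ray Λ c ((n : ℝ) ^ j * α) σ ∈ Metric.closedBall (b j) (t j * ρ))
    (hs0 : 0 < ζ.re) (hsn : ζ.re = n * G n c 0) (h1 : ζ.re * √n ≤ T)
    {w : ℕ → ℂ} (hw1 : ∀ j, w j ∈ Metric.closedBall (b j) (t j * ρ))
    (hw2 : ∀ j, G n c (w j) = 0) (hw3 : ∀ j, F n c (w j) = w (j + 1)) :
    ∀ j : ℕ, br n lh c ζ ⌊(n : ℝ) ^ (j + 1) * α - ζ.im / (2 * Real.pi)⌋ (w (j + 1)) = w j := by
  obtain ⟨gcont, gnn, gF, -, -, -, -, -⟩ := hGR n hn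
  obtain ⟨br1, -, br3, -, -, -, -⟩ := hBR n Λ lh ls c ζ hn hB hlog hcr
  have hn1 : (2 : ℝ) ≤ n := by exact_mod_cast hn
  have hnC : (n : ℂ) ≠ 0 := by exact_mod_cast (by omega : n ≠ 0)
  set r : ℝ := √n with hr
  have hr2 : r * r = n := Real.mul_self_sqrt (by linarith)
  have hr1 : 1 < r := by
    rw [hr]
    exact Real.lt_sqrt_of_sq_lt (by linarith)
  have hr0 : 0 < r := by linarith
  set s : ℝ := ζ.re with hs
  have hg0 : G n c 0 = s / n := by
    rw [hsn]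
    field_simp
  have hlow : G n c 0 < s / r := by
    rw [hg0]
    refine div_lt_div_of_pos_left hs0 hr0 ?_
    nlinarith
  have hsr : s / r < s := div_lt_self hs0 hr1
  have hnr : (n : ℝ) * (s / r) = s * r := by
    rw [← hr2]
    field_simp
  have h1s : s ≤ T := le_trans (le_mul_of_one_le_right hs0.le hr1.le) h1
  have hunb := unbroken hn hB hcr hL hT (by linarith) h1s
  have hpi := Real.pi_pos
  set θ : ℝ := ζ.im / (2 * Real.pi) with hθ
  have hζim : ζ.im = 2 * Real.pi * θ := by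
    rw [hθ]
    field_simp
  -- the arcs
  set P : ℕ → ℝ → ℂ := fun j τ =>
    exp (ls c ζ ((τ : ℂ) + 2 * Real.pi * (((n : ℝ) ^ (j + 1) * α : ℝ) : ℂ) * I) / n) with hP
  have hSL : ∀ (j : ℕ) (τ : ℝ), s / r ≤ τ →
      ((τ : ℂ) + 2 * Real.pi * (((n : ℝ) ^ (j + 1) * α : ℝ) : ℂ) * I) ∈ SL n c ζ := by
    intro j τ hτ
    refine ⟨?_, ?_⟩
    · rw [re_ray]
      linarith
    · intro m hm
      exfalso
      rw [im_ray, hζim] at hm
      refine hunb (j + 1) (by omega) ⟨m, ?_⟩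
      have h2 : 2 * Real.pi * ((n : ℝ) ^ (j + 1) * α - θ - m) = 0 := by linarith
      have h3 := (mul_eq_zero.1 h2).resolve_left (by positivity)
      linarith
  have hPF : ∀ (j : ℕ) (τ : ℝ), s / r ≤ τ →
      F n c (P j τ) = ray Λ c ((n : ℝ) ^ (j + 1) * α) τ := by
    intro j τ hτ
    show (exp (ls c ζ _ / n)) ^ n + c = exp (Λ c _)
    rw [← Complex.exp_nat_mul, mul_div_cancel₀ _ hnC, hlog.lsexp c ζ _ hcr (hSL j τ hτ)]
    ring
  have hPc : ∀ j : ℕ, ContinuousOn (P j) (Icc (s / r) (s * r)) := by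
    intro j
    have h2 : ContinuousOn (fun τ : ℝ =>
        ls c ζ ((τ : ℂ) + 2 * Real.pi * (((n : ℝ) ^ (j + 1) * α : ℝ) : ℂ) * I))
        (Icc (s / r) (s * r)) := by
      refine (hlog.lsdiff c ζ hcr).continuousOn.comp (by fun_prop) fun τ hτ => hSL j τ hτ.1
    exact (h2.div_const _).cexp
  have hPtop : ∀ j : ℕ, P j (s * r) = ray Λ c ((n : ℝ) ^ j * α) (s / r) := by
    intro j
    have e : (((s * r : ℝ) : ℂ) + 2 * Real.pi * (((n : ℝ) ^ (j + 1) * α : ℝ) : ℂ) * I) =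
        n * (((s / r : ℝ) : ℂ) + 2 * Real.pi * (((n : ℝ) ^ j * α : ℝ) : ℂ) * I) := by
      rw [← hnr]
      push_cast
      ring
    show exp (ls c ζ _ / n) = exp (Λ c _)
    rw [e, hlog.lsL c ζ _ hcr (by rw [re_ray]; exact hlow), mul_div_cancel_left₀ _ hnC]
  have hPbot : ∀ j : ℕ, P j (s / r) = br n lh c ζ ⌊(n : ℝ) ^ (j + 1) * α - θ⌋
      (ray Λ c ((n : ℝ) ^ (j + 1) * α) (s / r)) := by
    intro j
    have hfl : ((⌊(n : ℝ) ^ (j + 1) * α - θ⌋ : ℤ) : ℝ) < (n : ℝ) ^ (j + 1) * α - θ := by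
      refine lt_of_le_of_ne (Int.floor_le _) fun h => ?_
      exact hunb (j + 1) (by omega) ⟨_, h.symm⟩
    have hfl2 := Int.lt_floor_add_one ((n : ℝ) ^ (j + 1) * α - θ)
    show exp (ls c ζ _ / n) = exp ((lh c ζ (exp (Λ c _)) + _) / n)
    rw [hlog.lslh c ζ _ ⌊(n : ℝ) ^ (j + 1) * α - θ⌋ hcr (by rw [re_ray]; exact hlow)
      (by rw [re_ray]; exact hsr) ?_ ?_]
    · rw [im_ray, hζim]
      nlinarith
    · rw [im_ray, hζim]
      nlinarith
  have hmem : ∀ (j : ℕ) (τ : ℝ), τ ∈ Icc (s / r) (s * r) →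
      ray Λ c ((n : ℝ) ^ (j + 1) * α) τ ∈ Metric.closedBall (b (j + 1)) (t (j + 1) * ρ) :=
    fun j τ hτ => hT (j + 1) τ (lt_of_lt_of_le hlow hτ.1) (hτ.2.trans h1)
  have hρ := hL.hρ
  have hball : ∀ j, ∀ y ∈ Metric.closedBall (b j) (t j * ρ),
      y ∈ Metric.ball (b j) (2 * (t j * ρ)) := by
    intro j y hy
    refine Metric.closedBall_subset_ball ?_ hy
    have : 0 < t j * ρ := mul_pos (ht j) hρ
    linarith
  have hlamc : ∀ j, ContinuousOn (lam j) (Metric.closedBall (b (j + 1)) (t (j + 1) * ρ)) := by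
    intro j
    have hη : 0 ≤ |η * (t j / t (j + 1))| := abs_nonneg _
    refine (LipschitzOnWith.of_dist_le_mul (K := ⟨|η * (t j / t (j + 1))|, hη⟩)
      fun x hx y hy => ?_).continuousOn
    rw [dist_eq_norm, dist_eq_norm]
    refine (hL.lip j x hx y hy).trans ?_
    exact mul_le_mul_of_nonneg_right (le_abs_self _) (norm_nonneg _)
  have hsrr : s / r ≤ s * r := by
    have h2 : s ≤ s * r := le_mul_of_one_le_right hs0.le hr1.le
    linarith
  have hPl : ∀ j : ℕ, ∀ τ ∈ Icc (s / r) (s * r),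
      P j τ = lam j (ray Λ c ((n : ℝ) ^ (j + 1) * α) τ) := by
    intro j
    have htopm : s * r ∈ Icc (s / r) (s * r) := ⟨hsrr, le_rfl⟩
    refine lift_eq (X := ℝ) isPreconnected_Icc (f := F n c)
      (b := fun τ => lam j (ray Λ c ((n : ℝ) ^ (j + 1) * α) τ))
      (B := Metric.ball (b j) (2 * (t j * ρ))) Metric.isOpen_ball (hL.inj j) (hPc j) ?_
      (fun τ hτ => hball j _ (hL.inv j _ (hmem j τ hτ)).2) (fun τ hτ => ?_)
      (x0 := s * r) htopm ?_
    · refine (hlamc j).comp ((ray_cont hB c _).mono fun τ hτ => ?_) (hmem j)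
      exact lt_of_lt_of_le hlow hτ.1
    · rw [hPF j τ hτ.1, (hL.inv j _ (hmem j τ hτ)).1]
    · refine hL.inj j ?_ (hball j _ (hL.inv j _ (hmem j _ htopm)).2) ?_
      · rw [hPtop]
        exact hball j _ (hT j (s / r) hlow (by linarith))
      · rw [hPF j _ hsrr, (hL.inv j _ (hmem j _ htopm)).1]
  have hre : ∀ (j : ℕ) (τ : ℝ), s / r ≤ τ → G n c (ray Λ c ((n : ℝ) ^ j * α) τ) = τ := by
    intro j τ hτ
    have h2 := hB.green c ((τ : ℂ) + 2 * Real.pi * (((n : ℝ) ^ j * α : ℝ) : ℂ) * I)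
      (by rw [re_ray]; linarith)
    rw [re_ray] at h2
    exact h2
  have hcont0 : Continuous (fun x : ℂ => ((c, x) : ℂ × ℂ)) := by fun_prop
  have hcontc : Continuous (fun x => G n c x) := by
    have h := gcont.comp hcont0
    simpa only [Function.comp_def] using h
  refine digits_abs hL ht hη0 hη1 (Ω := {z : ℂ | G n c z < s})
    (isOpen_lt hcontc continuous_const) (fun j => (br3 _).continuousOn)
    (fun j x hx => ?_) (fun j x hx => (br1 x _ hx).1)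
    (K0 := fun j => P j '' Icc (s / r) (s * r))
    (y0 := fun j => ray Λ c ((n : ℝ) ^ j * α) (s / r)) ?_ ?_ ?_ ?_ ?_ ?_ hw1
    (fun j => ?_) hw3
  · show G n c (br n lh c ζ _ x) < s
    rw [(br1 x _ hx).2.1]
    exact lt_of_le_of_lt (div_le_self (gnn c x) (by linarith)) hx
  · rintro j _ ⟨τ, hτ, rfl⟩
    rw [hPl j τ hτ]
    exact (hL.inv j _ (hmem j τ hτ)).2
  · exact fun j => isPreconnected_Icc.image _ (hPc j)
  · rintro j _ ⟨τ, hτ, rfl⟩
    show G n c (P j τ) < s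
    have h2 := gF c (P j τ)
    rw [hPF j τ hτ.1, hre (j + 1) τ hτ.1] at h2
    have h3 : G n c (P j τ) = τ / n := by
      rw [eq_div_iff (by linarith)]
      linarith
    rw [h3, div_lt_iff₀ (by linarith)]
    calc τ ≤ s * r := hτ.2
      _ < s * n := by
        refine mul_lt_mul_of_pos_left ?_ hs0
        nlinarith
  · exact fun j => ⟨s * r, ⟨hsrr, le_rfl⟩, hPtop j⟩
  · exact fun j => ⟨s / r, ⟨le_rfl, hsrr⟩, hPbot j⟩
  · intro j
    show br n lh c ζ _ (ray Λ c ((n : ℝ) ^ (j + 1) * α) (s / r)) = _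
    rw [← hPbot j]
    exact hPl j _ ⟨le_rfl, hsrr⟩
  · show G n c (w j) < s
    rw [hw2 j]
    exact hs0

theorem isInt_mod {n P : ℕ} {α : ℝ} (hα : IsInt (((n : ℝ) ^ P - 1) * α)) (j : ℕ) :
    IsInt ((n : ℝ) ^ j * α - (n : ℝ) ^ (j % P) * α) := by
  have e : (n : ℝ) ^ j * α - (n : ℝ) ^ (j % P) * α =
      (n : ℝ) ^ (j % P) * (((n : ℝ) ^ (P * (j / P)) - 1) * α) := by
    have h1 : (n : ℝ) ^ j = (n : ℝ) ^ (j % P) * (n : ℝ) ^ (P * (j / P)) := by
      rw [← pow_add, Nat.mod_add_div]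
    rw [h1]
    ring
  rw [e]
  exact GMB_.isInt_mul (GMB_.isInt_pow (GMB_.isInt_nat n) _)
    (GMB_.isInt_pow_mul (GMB_.isInt_nat n) hα _)

theorem iter_cont (n k : ℕ) : Continuous (fun q : ℂ × ℂ => (F n q.1)^[k] q.2) := by
  induction k with
  | zero => exact continuous_snd
  | succ k ih =>
    have : (fun q : ℂ × ℂ => (F n q.1)^[k + 1] q.2) =
        fun q : ℂ × ℂ => ((F n q.1)^[k] q.2) ^ n + q.1 := by
      funext q
      rw [Function.iterate_succ_apply']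
      rfl
    rw [this]
    exact (ih.pow n).add continuous_fst

theorem per_mod {X : Type} {k q : ℕ} {b : ℕ → X} (hb : ∀ j, b (j + k) = b j) (j : ℕ) :
    b (j % (k * q)) = b j := by
  have h1 : ∀ m i, b (i + k * m) = b i := by
    intro m
    induction m with
    | zero => intro i; simp
    | succ m ih =>
      intro i
      have : i + k * (m + 1) = (i + k * m) + k := by ring
      rw [this, hb, ih]
  have := h1 (q * (j / (k * q))) (j % (k * q))
  rw [← mul_assoc, Nat.mod_add_div] at this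
  exact this.symm

end ST2_

open ST2_

theorem p_ST2 (hGR : T_GREEN) (hBR : T_BR) : T_ST2 := by
  intro n k q Λ lh ls c0 z0 α hn hk hq hB hlog hc0 hα hland hz hrep
  have hE : IsExt n Λ := p_IE hGR n Λ hn hB
  obtain ⟨gcont, gnn, gF, -, -, gMM, gc, -⟩ := hGR n hn
  have hn1 : (2 : ℝ) ≤ n := by exact_mod_cast hn
  have hn0 : (0 : ℝ) < n := by linarith
  obtain ⟨t, η, ht, htk, hη0, hη1, hev⟩ := exists_cycLoc hn hk hz hrep
  set b : ℕ → ℂ := fun j => (F n c0)^[j] z0 with hb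
  have hbk : ∀ j, b (j + k) = b j := by
    intro j
    show (F n c0)^[j + k] z0 = (F n c0)^[j] z0
    rw [Function.iterate_add_apply, hz]
  obtain ⟨ρ, hρ1, hρ0⟩ := (hev.and self_mem_nhdsWithin).exists
  have hρ0 : 0 < ρ := hρ0
  have hlj : ∀ j : ℕ, Lands Λ c0 ((n : ℝ) ^ j * α) (b j) := fun j =>
    GMB_.lands_pow hn hE hc0 hland j
  have hev1 : ∀ᶠ σ in 𝓝[>] (0 : ℝ), ∀ j ∈ Finset.range (k * q),
      ray Λ c0 ((n : ℝ) ^ j * α) σ ∈ Metric.ball (b j) (t j * ρ) := by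
    rw [Filter.eventually_all_finset]
    intro j _
    exact (hlj j).eventually (Metric.ball_mem_nhds _ (mul_pos (ht j) hρ0))
  obtain ⟨ε, hε0, hε⟩ := mem_nhdsGT_iff_exists_Ioo_subset.mp hev1
  have hε0 : 0 < ε := hε0
  set t1 : ℝ := ε / (2 * n) with ht1
  have ht10 : 0 < t1 := by positivity
  have hnt1 : n * t1 = ε / 2 := by
    rw [ht1]; field_simp
  have hG00 : G n c0 0 = 0 := (gMM c0).mp hc0
  -- E1
  have E1 : ∀ᶠ c in 𝓝 c0, ∀ j ∈ Finset.range (k * q), ∀ σ ∈ Icc t1 (n * t1),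
      ray Λ c ((n : ℝ) ^ j * α) σ ∈ Metric.ball (b j) (t j * ρ) := by
    rw [Filter.eventually_all_finset]
    intro j hj
    refine isCompact_Icc.eventually_forall_of_forall_eventually
      (P := fun c σ => ray Λ c ((n : ℝ) ^ j * α) σ ∈ Metric.ball (b j) (t j * ρ)) ?_
    intro σ hσ
    have hσ0 : 0 < σ := lt_of_lt_of_le ht10 hσ.1
    have hopen : IsOpen {p : ℂ × ℂ | G n p.1 0 < p.2.re} := by
      have h1 : Continuous (fun p : ℂ × ℂ => ((p.1, 0) : ℂ × ℂ)) := by fun_prop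
      have h2 := gcont.comp h1
      have h3 : Continuous (fun p : ℂ × ℂ => G n p.1 0) := by
        simpa only [Function.comp_def] using h2
      exact isOpen_lt h3 (continuous_re.comp continuous_snd)
    set ξ : ℂ := (σ : ℂ) + 2 * Real.pi * (((n : ℝ) ^ j * α : ℝ) : ℂ) * I with hξ
    have h4 : ContinuousAt (fun p : ℂ × ℂ => Λ p.1 p.2) (c0, ξ) := by
      refine hB.cont.continuousAt (hopen.mem_nhds ?_)
      show G n c0 0 < ξ.re
      rw [hG00, hξ, re_ray]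
      exact hσ0
    have h5 : ContinuousAt (fun p : ℂ × ℝ => ((p.1, (p.2 : ℂ) + 2 * Real.pi *
        (((n : ℝ) ^ j * α : ℝ) : ℂ) * I) : ℂ × ℂ)) (c0, σ) := by fun_prop
    have h6 : ContinuousAt (fun p : ℂ × ℝ => Λ p.1 ((p.2 : ℂ) + 2 * Real.pi *
        (((n : ℝ) ^ j * α : ℝ) : ℂ) * I)) (c0, σ) :=
      ContinuousAt.comp (g := fun p : ℂ × ℂ => Λ p.1 p.2) (f := fun p : ℂ × ℝ =>
        ((p.1, (p.2 : ℂ) + 2 * Real.pi * (((n : ℝ) ^ j * α : ℝ) : ℂ) * I) : ℂ × ℂ)) h4 h5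
    have h7 : ContinuousAt (fun p : ℂ × ℝ => ray Λ p.1 ((n : ℝ) ^ j * α) p.2) (c0, σ) :=
      h6.cexp
    refine h7.eventually (Metric.isOpen_ball.mem_nhds ?_)
    have h8 : σ ∈ Ioo 0 ε := ⟨hσ0, by
      have := hσ.2
      rw [hnt1] at this
      linarith⟩
    exact hε h8 j hj
  -- E3
  have E3 : ∀ᶠ c in 𝓝 c0, G n c 0 < t1 / n := by
    have h1 : Continuous (fun c : ℂ => ((c, 0) : ℂ × ℂ)) := by fun_prop
    have h2 := gcont.comp h1
    have h3 : Continuous (fun c : ℂ => G n c 0) := by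
      simpa only [Function.comp_def] using h2
    have h4 : Tendsto (fun c : ℂ => G n c 0) (𝓝 c0) (𝓝 0) := by
      have := h3.tendsto c0
      rwa [hG00] at this
    exact h4.eventually_lt_const (by positivity)
  -- E4
  have E4 : ∀ᶠ p : ℂ × ℂ in 𝓝 (c0, z0), ∀ j ∈ Finset.range k,
      (F n p.1)^[j] p.2 ∈ Metric.ball (b j) (t j * ρ) := by
    rw [Filter.eventually_all_finset]
    intro j _
    have h1 : Tendsto (fun p : ℂ × ℂ => (F n p.1)^[j] p.2) (𝓝 (c0, z0)) (𝓝 (b j)) :=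
      (iter_cont n j).tendsto (c0, z0)
    exact h1.eventually (Metric.ball_mem_nhds _ (mul_pos (ht j) hρ0))
  obtain ⟨δ1, hδ1, hE1⟩ := Metric.eventually_nhds_iff.mp ((E1.and hρ1).and E3)
  obtain ⟨δ2, hδ2, hE2⟩ := Metric.eventually_nhds_iff.mp E4
  refine ⟨min δ1 δ2, lt_min hδ1 hδ2, ?_⟩
  intro c z ζ hc hzz hfix hcr
  obtain ⟨⟨a1, lam, hL⟩, a3⟩ := hE1 (y := c) (by
    rw [dist_eq_norm]; exact lt_of_lt_of_le hc (min_le_left _ _))
  have a4 := hE2 (y := ((c, z) : ℂ × ℂ)) (by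
    rw [Prod.dist_eq]
    exact max_lt (by rw [dist_eq_norm]; exact lt_of_lt_of_le hc (min_le_right _ _))
      (by rw [dist_eq_norm]; exact lt_of_lt_of_le hzz (min_le_right _ _)))
  have hkq : 0 < k * q := Nat.mul_pos (by omega) (by omega)
  have hG0 : 0 ≤ G n c 0 := gnn c 0
  have hGt : G n c 0 < t1 := lt_of_lt_of_le a3 (div_le_self ht10.le (by linarith))
  have h0 : ∀ j : ℕ, ∀ σ : ℝ, t1 ≤ σ → σ ≤ n * t1 →
      ray Λ c ((n : ℝ) ^ j * α) σ ∈ Metric.closedBall (b j) (t j * ρ) := by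
    intro j σ h1 h2
    have h3 := a1 (j % (k * q)) (Finset.mem_range.mpr (Nat.mod_lt j hkq)) σ ⟨h1, h2⟩
    rw [per_mod hbk j, per_mod htk j] at h3
    rw [ray_int hn hB (lt_of_lt_of_le hGt h1) (isInt_mod hα j)]
    exact Metric.ball_subset_closedBall h3
  have hT := tail hn hB hL ht ht10 hG0 hGt h0
  have hsn : ζ.re = n * G n c 0 := by rw [hcr.2.1, gc]
  have hG0' : 0 < G n c 0 := by
    refine lt_of_le_of_ne hG0 fun h => ?_
    exact hcr.1 ((gMM c).mpr h.symm)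
  have hs0 : 0 < ζ.re := by rw [hsn]; positivity
  have hst : ζ.re ≤ t1 := by
    rw [hsn]
    have := mul_le_mul_of_nonneg_left a3.le hn0.le
    rwa [mul_div_cancel₀ _ hn0.ne'] at this
  have hsq : √(n : ℝ) ≤ n := by
    rw [Real.sqrt_le_left (by linarith)]
    nlinarith
  have hsT : ζ.re * √n ≤ n * t1 := by
    have h1 : 0 ≤ √(n : ℝ) := Real.sqrt_nonneg _
    calc ζ.re * √n ≤ t1 * n := mul_le_mul hst hsq h1 ht10.le
      _ = n * t1 := mul_comm _ _
  have hlt : G n c 0 < ζ.re := by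
    rw [hsn]
    nlinarith
  have hsT' : ζ.re ≤ n * t1 := hst.trans (le_mul_of_one_le_left ht10.le (by linarith))
  refine ⟨unbroken hn hB hcr hL hT hlt hsT', ?_⟩
  have hwk : ∀ j, (F n c)^[j + k] z = (F n c)^[j] z := by
    intro j
    rw [Function.iterate_add_apply, hfix]
  have hdig := digits hn hB hlog hGR hBR hcr hL ht hη0 hη1 hT hs0 hsn hsT
    (w := fun j => (F n c)^[j] z)
    (by
      intro j
      have h1 := a4 (j % k) (Finset.mem_range.mpr (Nat.mod_lt j (by omega)))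
      have h2 := per_mod (q := 1) hbk j
      have h3 := per_mod (q := 1) htk j
      have h4 := per_mod (q := 1) (b := fun j => (F n c)^[j] z) hwk j
      rw [mul_one] at h2 h3 h4
      have h5 : (F n c)^[j % k] z = (F n c)^[j] z := h4
      rw [h2, h3] at h1
      have h6 : (F n c)^[j % k] z ∈ Metric.ball (b j) (t j * ρ) := h1
      rw [h5] at h6
      exact Metric.ball_subset_closedBall h6)
    (by
      intro j
      show G n c ((F n c)^[j] z) = 0
      rw [GMB_.green_iter hGR hn, GMB_.green_per hGR hn hk hfix, mul_zero])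
    (by
      intro j
      exact (Function.iterate_succ_apply' (F n c) j z).symm)
  intro j
  show br n lh c ζ _ (F n c ((F n c)^[j] z)) = (F n c)^[j] z
  have h1 := hdig j
  have h2 : (F n c)^[j + 1] z = F n c ((F n c)^[j] z) := Function.iterate_succ_apply' (F n c) j z
  rw [← h2]
  exact h1

end Pool.Agent.PLim
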