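import Pool.Agent.PLim.Targets2

/-!
# PLIM-TOP: the topological lemma on limbs
-/

set_option autoImplicit false

open Complex Filter Topology Set MeasureTheory

namespace Pool.Agent.PLim

namespace TOP_

/-- A subset which is closed, relatively open and does not contain everything is empty. -/
theorem clopen {M E : Set ℂ} (hM : IsPreconnected M) (hE : E ⊆ M) (hc : IsClosed E)
    (ho : ∀ c ∈ E, ∀ᶠ c' in 𝓝 c, c' ∈ M → c' ∈ E) {r : ℂ} (hr : r ∈ M) (hrE : r ∉ E) :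
    E = ∅ := by
  by_contra hne
  obtain ⟨e, he⟩ := Set.nonempty_iff_ne_empty.2 hne
  set U : Set ℂ := {x | ∀ᶠ c' in 𝓝 x, c' ∈ M → c' ∈ E} with hU
  have hUo : IsOpen U := isOpen_setOfPred_eventually_nhds
  have hEU : E ⊆ U := fun c hcE => ho c hcE
  obtain ⟨x, hxM, hxU, hxV⟩ := hM U Eᶜ hUo hc.isOpen_compl (by
    intro x _
    by_cases hx : x ∈ E
    · exact Or.inl (hEU hx)
    · exact Or.inr hx) ⟨e, hE he, hEU he⟩ ⟨r, hr, hrE⟩
  exact hxV (Filter.Eventually.self_of_nhds hxU hxM)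

theorem clo_insert (p : ℂ) (S : Set ℂ) : closure (insert p S) = insert p (closure S) := by
  rw [insert_eq, closure_union, closure_singleton]
  rfl

/-- roots of unity of bounded order -/
theorem finRoots (Q : ℕ) : {w : ℂ | ∃ m : ℕ, 1 ≤ m ∧ m ≤ Q ∧ w ^ m = 1}.Finite := by
  classical
  have h : (⋃ m ∈ Set.Icc 1 Q, ((Polynomial.nthRoots m (1 : ℂ)).toFinset : Set ℂ)).Finite :=
    Set.Finite.biUnion (Set.finite_Icc 1 Q) fun m _ => Finset.finite_toSet _
  refine h.subset ?_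
  rintro w ⟨m, h1, h2, h3⟩
  refine Set.mem_iUnion₂.2 ⟨m, ⟨h1, h2⟩, ?_⟩
  rw [Finset.mem_coe, Multiset.mem_toFinset, Polynomial.mem_nthRoots (by omega)]
  exact h3

/-- The data. -/
structure Dat (M : Set ℂ) (r : ℂ) (τ η K : ℝ) (ψ om : ℂ → ℂ) : Prop where
  cpt : IsCompact M
  conn : IsPreconnected M
  rM : r ∈ M
  η0 : 0 < η
  η1 : η < 1
  K0 : 0 < K
  diff : DifferentiableOn ℂ ψ (Metric.ball (τ * I) η)
  der : ∀ μ ∈ Metric.ball ((τ : ℂ) * I) η, deriv ψ μ ≠ 0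
  psr : ψ (τ * I) = r
  loc : ∀ μ₀ ∈ Metric.ball ((τ : ℂ) * I) η, 0 < μ₀.re → ψ μ₀ ∈ M →
    ∀ᶠ μ in 𝓝 μ₀, ψ μ ∈ M → om μ = om μ₀
  ell : ∀ μ ∈ Metric.ball ((τ : ℂ) * I) η, 0 < μ.re → ψ μ ∈ M → ∃ (q : ℕ) (a : ℝ), 1 ≤ q ∧
    om μ ^ q = 1 ∧ om μ = exp (-(2 * Real.pi * a * I)) ∧
    ‖μ - 2 * Real.pi * a * I‖ ^ 2 ≤ K / q * μ.re

/-- the points over `M` with a given root of unity -/
def Pp (M : Set ℂ) (τ η : ℝ) (ψ om : ℂ → ℂ) (w : ℂ) : Set ℂ :=
  {μ | μ ∈ Metric.ball ((τ : ℂ) * I) η ∧ 0 < μ.re ∧ ψ μ ∈ M ∧ om μ = w}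

variable {M : Set ℂ} {r : ℂ} {τ η K : ℝ} {ψ om : ℂ → ℂ}

/-- `w = exp (- 2 π a₁ i)` has order at least `q₁` -/
structure Rt (τ K η : ℝ) (w : ℂ) (a₁ : ℝ) (q₁ : ℕ) : Prop where
  one : 1 ≤ q₁
  ex : w = exp (-(2 * Real.pi * a₁ * I))
  ord : ∀ m : ℕ, w ^ m = 1 → q₁ ∣ m
  near : |2 * Real.pi * a₁ - τ| ≤ 1
  big : K * η ≤ Real.pi ^ 2 * q₁

theorem re_lt {μ : ℂ} (hμ : μ ∈ Metric.ball ((τ : ℂ) * I) η) : μ.re < η := by
  rw [Metric.mem_ball, dist_eq_norm] at hμ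
  have h1 := Complex.abs_re_le_norm (μ - (τ : ℂ) * I)
  have h2 : (μ - (τ : ℂ) * I).re = μ.re := by simp
  rw [h2] at h1
  exact lt_of_le_of_lt (le_trans (le_abs_self _) h1) hμ

theorem im_lt {μ : ℂ} (hμ : μ ∈ Metric.ball ((τ : ℂ) * I) η) : |μ.im - τ| < η := by
  rw [Metric.mem_ball, dist_eq_norm] at hμ
  have h1 := Complex.abs_im_le_norm (μ - (τ : ℂ) * I)
  have h2 : (μ - (τ : ℂ) * I).im = μ.im - τ := by simp
  rw [h2] at h1
  exact lt_of_le_of_lt h1 hμ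

theorem p1_re (a : ℝ) : (2 * (Real.pi : ℂ) * a * I).re = 0 := by simp

theorem p1_im (a : ℝ) : (2 * (Real.pi : ℂ) * a * I).im = 2 * Real.pi * a := by simp

/-- the disc containing the points with a given root of unity -/
theorem disc (D : Dat M r τ η K ψ om) {w : ℂ} {a₁ : ℝ} {q₁ : ℕ} (R : Rt τ K η w a₁ q₁) :
    ∀ μ ∈ Pp M τ η ψ om w, ‖μ - 2 * Real.pi * a₁ * I‖ ^ 2 ≤ K / q₁ * μ.re := by
  rintro μ ⟨hμ, hre, hM, hw⟩
  obtain ⟨q, a, hq, h1, h2, h3⟩ := D.ell μ hμ hre hM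
  have hq₁0 : (0 : ℝ) < q₁ := by exact_mod_cast R.one
  have hqq : (q₁ : ℝ) ≤ q := by
    have : q₁ ≤ q := Nat.le_of_dvd (by omega) (R.ord q (by rw [← hw]; exact h1))
    exact_mod_cast this
  have hKq : K / q ≤ K / q₁ := div_le_div_of_nonneg_left D.K0.le hq₁0 hqq
  have h4 : ‖μ - 2 * Real.pi * a * I‖ ^ 2 ≤ K / q₁ * μ.re :=
    h3.trans (mul_le_mul_of_nonneg_right hKq hre.le)
  have h5 : exp (-(2 * Real.pi * a * I)) = exp (-(2 * Real.pi * a₁ * I)) := by
    rw [← h2, hw, R.ex]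
  obtain ⟨j, hj⟩ := Complex.exp_eq_exp_iff_exists_int.1 h5
  have h6 : 2 * Real.pi * a = 2 * Real.pi * a₁ - j * (2 * Real.pi) := by
    have := congrArg Complex.im hj
    simp at this
    linarith
  by_cases hj0 : j = 0
  · rw [hj0] at h6
    have h7 : a = a₁ := by
      have hpi := Real.pi_pos
      have h8 : 2 * Real.pi * (a - a₁) = 0 := by push_cast at h6; linarith
      rcases mul_eq_zero.1 h8 with h9 | h9
      · linarith
      · linarith
    rw [h7] at h4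
    exact h4
  · exfalso
    have hj1 : (1 : ℝ) ≤ |(j : ℝ)| := by
      have : (1 : ℤ) ≤ |j| := Int.one_le_abs hj0
      exact_mod_cast this
    have h7 := Complex.abs_im_le_norm (μ - 2 * Real.pi * a * I)
    have h8 : (μ - 2 * Real.pi * a * I).im = (μ.im - τ) + (τ - 2 * Real.pi * a₁) +
        j * (2 * Real.pi) := by
      rw [Complex.sub_im, p1_im, h6]; ring
    have h9 := im_lt hμ
    have h10 := R.near
    have h11 : |(j : ℝ) * (2 * Real.pi)| ≤ |(μ - 2 * Real.pi * a * I).im| + |μ.im - τ| +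
        |2 * Real.pi * a₁ - τ| := by
      rw [h8]
      have e : (j : ℝ) * (2 * Real.pi) = ((μ.im - τ) + (τ - 2 * Real.pi * a₁) +
        j * (2 * Real.pi)) - (μ.im - τ) + (2 * Real.pi * a₁ - τ) := by ring
      calc |(j : ℝ) * (2 * Real.pi)| = |((μ.im - τ) + (τ - 2 * Real.pi * a₁) +
        j * (2 * Real.pi)) - (μ.im - τ) + (2 * Real.pi * a₁ - τ)| := by rw [← e]
        _ ≤ |((μ.im - τ) + (τ - 2 * Real.pi * a₁) +
        j * (2 * Real.pi)) - (μ.im - τ)| + |2 * Real.pi * a₁ - τ| := abs_add_le _ _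
        _ ≤ _ := by
          have := abs_sub ((μ.im - τ) + (τ - 2 * Real.pi * a₁) + j * (2 * Real.pi)) (μ.im - τ)
          linarith
    rw [abs_mul, abs_of_pos (by positivity : (0 : ℝ) < 2 * Real.pi)] at h11
    have hpi3 := Real.pi_gt_three
    have h12 : Real.pi < ‖μ - 2 * Real.pi * a * I‖ := by
      have := D.η1
      nlinarith
    have h13 : Real.pi ^ 2 < ‖μ - 2 * Real.pi * a * I‖ ^ 2 := by
      have := Real.pi_pos
      nlinarith
    have h14 : K / q₁ * μ.re ≤ Real.pi ^ 2 := by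
      have h15 : K / q₁ * μ.re ≤ K / q₁ * η :=
        mul_le_mul_of_nonneg_left (re_lt hμ).le (div_nonneg D.K0.le hq₁0.le)
      have h16 : K / q₁ * η ≤ Real.pi ^ 2 := by
        rw [div_mul_eq_mul_div, div_le_iff₀ hq₁0]
        exact R.big
      linarith
    linarith

theorem disc2 (D : Dat M r τ η K ψ om) {w : ℂ} {a₁ : ℝ} {q₁ : ℕ} (R : Rt τ K η w a₁ q₁)
    {μ : ℂ} (h : ‖μ - 2 * Real.pi * a₁ * I‖ ^ 2 ≤ K / q₁ * μ.re) :
    ‖μ - 2 * Real.pi * a₁ * I‖ ≤ K / q₁ := by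
  have hq₁0 : (0 : ℝ) < q₁ := by exact_mod_cast R.one
  have hK : 0 ≤ K / q₁ := div_nonneg D.K0.le hq₁0.le
  have h1 : μ.re ≤ ‖μ - 2 * Real.pi * a₁ * I‖ := by
    have h2 := Complex.abs_re_le_norm (μ - 2 * Real.pi * a₁ * I)
    rw [Complex.sub_re, p1_re, sub_zero] at h2
    exact (le_abs_self _).trans h2
  by_cases h0 : ‖μ - 2 * Real.pi * a₁ * I‖ = 0
  · rw [h0]; exact hK
  · have h3 : 0 < ‖μ - 2 * Real.pi * a₁ * I‖ :=
      lt_of_le_of_ne (norm_nonneg _) (Ne.symm h0)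
    have h4 : ‖μ - 2 * Real.pi * a₁ * I‖ * ‖μ - 2 * Real.pi * a₁ * I‖ ≤
        (K / q₁) * ‖μ - 2 * Real.pi * a₁ * I‖ := by
      have := mul_le_mul_of_nonneg_left h1 hK
      nlinarith
    exact le_of_mul_le_mul_right h4 h3

theorem cont (D : Dat M r τ η K ψ om) {μ : ℂ} (hμ : μ ∈ Metric.ball ((τ : ℂ) * I) η) :
    ContinuousAt ψ μ :=
  (D.diff.continuousOn).continuousAt (Metric.isOpen_ball.mem_nhds hμ)

theorem strict (D : Dat M r τ η K ψ om) {μ : ℂ} (hμ : μ ∈ Metric.ball ((τ : ℂ) * I) η) :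
    HasStrictDerivAt ψ (deriv ψ μ) μ :=
  (D.diff.analyticAt (Metric.isOpen_ball.mem_nhds hμ)).hasStrictDerivAt

theorem compact (D : Dat M r τ η K ψ om) {w : ℂ} {a₁ : ℝ} {q₁ : ℕ} (R : Rt τ K η w a₁ q₁)
    (hsub : Metric.closedBall (2 * (Real.pi : ℂ) * a₁ * I) (K / q₁) ⊆
      Metric.ball ((τ : ℂ) * I) η) :
    IsCompact (insert (2 * (Real.pi : ℂ) * a₁ * I) (Pp M τ η ψ om w)) := by
  have hq₁0 : (0 : ℝ) < q₁ := by exact_mod_cast R.one
  have hK : 0 < K / q₁ := div_pos D.K0 hq₁0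
  have hsub2 : insert (2 * (Real.pi : ℂ) * a₁ * I) (Pp M τ η ψ om w) ⊆
      Metric.closedBall (2 * (Real.pi : ℂ) * a₁ * I) (K / q₁) := by
    intro μ hμ
    rcases hμ with h | h
    · rw [h]; exact Metric.mem_closedBall_self hK.le
    · rw [Metric.mem_closedBall, dist_eq_norm]
      exact disc2 D R (disc D R μ h)
  refine (isCompact_closedBall (2 * (Real.pi : ℂ) * a₁ * I) (K / q₁)).of_isClosed_subset ?_ hsub2
  refine isClosed_of_closure_subset ?_
  rw [clo_insert]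
  refine insert_subset (mem_insert _ _) ?_
  intro μ' hμ'
  rw [mem_closure_iff_frequently] at hμ'
  have hcl : IsClosed {μ : ℂ | ‖μ - 2 * Real.pi * a₁ * I‖ ^ 2 ≤ K / q₁ * μ.re} :=
    isClosed_le (by fun_prop) (by fun_prop)
  have h1 : μ' ∈ {μ : ℂ | ‖μ - 2 * Real.pi * a₁ * I‖ ^ 2 ≤ K / q₁ * μ.re} :=
    hcl.mem_of_frequently_of_tendsto (f := fun x : ℂ => x)
      (hμ'.mono fun μ hμ => disc D R μ hμ) tendsto_id
  replace h1 : ‖μ' - 2 * Real.pi * a₁ * I‖ ^ 2 ≤ K / q₁ * μ'.re := h1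
  have hball : μ' ∈ Metric.ball ((τ : ℂ) * I) η := by
    apply hsub
    rw [Metric.mem_closedBall, dist_eq_norm]
    exact disc2 D R h1
  have hre : 0 ≤ μ'.re := by
    by_contra hcon
    push Not at hcon
    have := mul_neg_of_pos_of_neg hK hcon
    have := sq_nonneg ‖μ' - 2 * Real.pi * a₁ * I‖
    linarith
  rcases hre.eq_or_lt with h0 | h0
  · left
    rw [← h0, mul_zero] at h1
    have h2 : ‖μ' - 2 * Real.pi * a₁ * I‖ = 0 := by
      have := sq_nonneg ‖μ' - 2 * Real.pi * a₁ * I‖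
      exact pow_eq_zero_iff (n := 2) (by norm_num) |>.1 (le_antisymm h1 this)
    exact sub_eq_zero.1 (norm_eq_zero.1 h2)
  · right
    have hψM : ψ μ' ∈ M :=
      D.cpt.isClosed.mem_of_frequently_of_tendsto (hμ'.mono fun μ hμ => hμ.2.2.1)
        (cont D hball)
    obtain ⟨μ, hμ1, hμ2⟩ := (hμ'.and_eventually (D.loc μ' hball h0 hψM)).exists
    exact ⟨hball, h0, hψM, by rw [← hμ2 hμ1.2.2.1]; exact hμ1.2.2.2⟩

theorem opn (D : Dat M r τ η K ψ om) (w : ℂ) :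
    ∀ c ∈ ψ '' (Pp M τ η ψ om w), ∀ᶠ c' in 𝓝 c, c' ∈ M → c' ∈ ψ '' (Pp M τ η ψ om w) := by
  rintro c ⟨μ₀, ⟨hμ, hre, hM, hw⟩, rfl⟩
  rw [← (strict D hμ).map_nhds_eq (D.der μ₀ hμ), Filter.eventually_map]
  have h1 : ∀ᶠ μ in 𝓝 μ₀, μ ∈ Metric.ball ((τ : ℂ) * I) η := Metric.isOpen_ball.mem_nhds hμ
  have h2 : ∀ᶠ μ : ℂ in 𝓝 μ₀, 0 < μ.re :=
    (isOpen_lt continuous_const Complex.continuous_re).mem_nhds hre
  filter_upwards [h1, h2, D.loc μ₀ hμ hre hM] with μ a1 a2 a3 a4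
  exact ⟨μ, ⟨a1, a2, a4, by rw [a3 a4]; exact hw⟩, rfl⟩

/-- the claim (2) of the blueprint -/
theorem claim (D : Dat M r τ η K ψ om) {ε₀ : ℝ} (hε0 : 0 < ε₀) (hε1 : ε₀ ≤ η)
    (hinj : Set.InjOn ψ (Metric.ball ((τ : ℂ) * I) ε₀)) {A : Set ℂ} (hA : A ⊆ M) (hr : r ∉ A)
    (ho : ∀ c ∈ A, ∀ᶠ c' in 𝓝 c, c' ∈ M → c' ∈ A) (hcl : IsClosed (insert r A))
    (hL : ∀ c ∈ A, c ∉ ψ '' (Pp M τ η ψ om (exp (-(τ * I)))))
    (hH : ∀ μ ∈ Metric.ball ((τ : ℂ) * I) ε₀, μ.re ≤ 0 → μ ≠ τ * I → ψ μ ∉ A) : A = ∅ := by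
  classical
  have hτball : (τ : ℂ) * I ∈ Metric.ball ((τ : ℂ) * I) η := Metric.mem_ball_self D.η0
  have hτε : (τ : ℂ) * I ∈ Metric.ball ((τ : ℂ) * I) ε₀ := Metric.mem_ball_self hε0
  by_cases hcase : ∃ᶠ c in 𝓝 r, c ∈ A
  swap
  · -- `A` is closed
    have hAc : IsClosed A := by
      refine isClosed_of_closure_subset fun x hx => ?_
      have h1 : x ∈ insert r A := by
        have := closure_mono (subset_insert r A) hx
        rwa [hcl.closure_eq] at this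
      rcases h1 with h1 | h1
      · exfalso
        rw [h1, mem_closure_iff_frequently] at hx
        exact hcase hx
      · exact h1
    exact clopen D.conn hA hAc ho D.rM hr
  exfalso
  set w₀ : ℂ := exp (-(τ * I)) with hw₀
  -- the bound for the order
  obtain ⟨Q, hQ⟩ := exists_nat_gt (max (4 * K / ε₀) (K * η / Real.pi ^ 2))
  have hQ1 : 4 * K / ε₀ < Q := lt_of_le_of_lt (le_max_left _ _) hQ
  have hQ2 : K * η / Real.pi ^ 2 < Q := lt_of_le_of_lt (le_max_right _ _) hQ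
  have hQ0 : (0 : ℝ) < Q := lt_trans (by have := D.K0; positivity) hQ1
  set S : Set ℂ := {w : ℂ | ∃ m : ℕ, 1 ≤ m ∧ m ≤ Q ∧ w ^ m = 1} \ {w₀} with hS
  have hSf : S.Finite := (finRoots Q).subset sdiff_subset
  have hSn : Sᶜ ∈ 𝓝 w₀ := hSf.isClosed.isOpen_compl.mem_nhds (fun h => h.2 rfl)
  have hcont : ContinuousAt (fun x : ℝ => exp (-((x : ℂ) * I))) τ := by fun_prop
  have hSev : ∀ᶠ x : ℝ in 𝓝 τ, exp (-((x : ℂ) * I)) ∈ Sᶜ := hcont hSn
  obtain ⟨δ₀, hδ₀, hδ₀'⟩ := Metric.eventually_nhds_iff.1 hSev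
  set δ : ℝ := min δ₀ (min (ε₀ / 4) 1) with hδ
  have hδ0 : 0 < δ := lt_min hδ₀ (lt_min (by linarith) one_pos)
  have hδa : δ ≤ δ₀ := min_le_left _ _
  have hδb : δ ≤ ε₀ / 4 := (min_le_right _ _).trans (min_le_left _ _)
  have hδc : δ ≤ 1 := (min_le_right _ _).trans (min_le_right _ _)
  set ρ : ℝ := min ε₀ (min (δ / 2) (δ ^ 2 / (4 * K))) with hρ
  have hρ0 : 0 < ρ := by
    have := D.K0
    exact lt_min hε0 (lt_min (by linarith) (by positivity))
  have hρa : ρ ≤ ε₀ := min_le_left _ _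
  have hρb : ρ ≤ δ / 2 := (min_le_right _ _).trans (min_le_left _ _)
  have hρc : ρ ≤ δ ^ 2 / (4 * K) := (min_le_right _ _).trans (min_le_right _ _)
  -- choice of a point
  have hfr : ∃ᶠ μ in 𝓝 ((τ : ℂ) * I), ψ μ ∈ A := by
    have h1 := (strict D hτball).map_nhds_eq (D.der _ hτball)
    rw [D.psr] at h1
    rw [← h1, Filter.frequently_map] at hcase
    exact hcase
  obtain ⟨μ₁, hμA, hμρ⟩ := (hfr.and_eventually (Metric.ball_mem_nhds _ hρ0)).exists
  have hμε : μ₁ ∈ Metric.ball ((τ : ℂ) * I) ε₀ := Metric.ball_subset_ball hρa hμρ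
  have hμη : μ₁ ∈ Metric.ball ((τ : ℂ) * I) η := Metric.ball_subset_ball hε1 hμε
  have hμ1re : 0 < μ₁.re := by
    by_contra hcon
    push Not at hcon
    by_cases he : μ₁ = τ * I
    · rw [he, D.psr] at hμA
      exact hr hμA
    · exact hH μ₁ hμε hcon he hμA
  have hμ1M : ψ μ₁ ∈ M := hA hμA
  set w₁ : ℂ := om μ₁ with hw₁
  have hP1 : μ₁ ∈ Pp M τ η ψ om w₁ := ⟨hμη, hμ1re, hμ1M, rfl⟩
  have hw10 : w₁ ≠ w₀ := by
    intro h
    rw [h] at hP1
    exact hL _ hμA ⟨μ₁, hP1, rfl⟩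
  obtain ⟨q, a, hq, h1, h2, h3⟩ := D.ell μ₁ hμη hμ1re hμ1M
  -- position of `a`
  have hq0 : (1 : ℝ) ≤ q := by exact_mod_cast hq
  have hμn : ‖μ₁ - (τ : ℂ) * I‖ < ρ := by rw [← dist_eq_norm]; exact hμρ
  have hrn : μ₁.re ≤ ‖μ₁ - (τ : ℂ) * I‖ := by
    have h4 := Complex.abs_re_le_norm (μ₁ - (τ : ℂ) * I)
    have h5 : (μ₁ - (τ : ℂ) * I).re = μ₁.re := by simp
    rw [h5] at h4
    exact (le_abs_self _).trans h4
  have hdist : ‖μ₁ - 2 * Real.pi * a * I‖ < δ / 2 := by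
    have h4 : K / q * μ₁.re ≤ K * μ₁.re := by
      refine mul_le_mul_of_nonneg_right ?_ hμ1re.le
      rw [div_le_iff₀ (by linarith)]
      have := D.K0
      nlinarith
    have h5 : K * μ₁.re < (δ / 2) ^ 2 := by
      have h6 : μ₁.re < δ ^ 2 / (4 * K) := lt_of_le_of_lt hrn (lt_of_lt_of_le hμn hρc)
      rw [lt_div_iff₀ (by have := D.K0; positivity)] at h6
      nlinarith
    have h6 : ‖μ₁ - 2 * Real.pi * a * I‖ ^ 2 < (δ / 2) ^ 2 := by linarith
    exact lt_of_pow_lt_pow_left₀ 2 (by linarith) h6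
  have haτ : |2 * Real.pi * a - τ| < δ := by
    have h4 := Complex.abs_im_le_norm (μ₁ - 2 * Real.pi * a * I)
    have h5 := Complex.abs_im_le_norm (μ₁ - (τ : ℂ) * I)
    rw [Complex.sub_im, p1_im] at h4
    have h6 : (μ₁ - (τ : ℂ) * I).im = μ₁.im - τ := by simp
    rw [h6] at h5
    have h7 : |2 * Real.pi * a - τ| ≤ |μ₁.im - 2 * Real.pi * a| + |μ₁.im - τ| := by
      have e : 2 * Real.pi * a - τ = (μ₁.im - τ) - (μ₁.im - 2 * Real.pi * a) := by ring
      rw [e]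
      exact (abs_sub _ _).trans (by linarith)
    linarith
  -- the order of `w₁`
  have hfin : IsOfFinOrder w₁ := isOfFinOrder_iff_pow_eq_one.2 ⟨q, by omega, h1⟩
  set q₁ : ℕ := orderOf w₁ with hq₁
  have hq₁1 : 1 ≤ q₁ := hfin.orderOf_pos
  have hq₁Q : Q < q₁ := by
    by_contra hcon
    push Not at hcon
    have h4 : exp (-(((2 * Real.pi * a : ℝ) : ℂ) * I)) ∈ Sᶜ := by
      refine hδ₀' ?_
      rw [Real.dist_eq]
      exact lt_of_lt_of_le haτ hδa
    have h5 : exp (-(((2 * Real.pi * a : ℝ) : ℂ) * I)) = w₁ := by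
      rw [hw₁, h2]; push_cast; rfl
    rw [h5] at h4
    exact h4 ⟨⟨q₁, hq₁1, hcon, pow_orderOf_eq_one w₁⟩, hw10⟩
  have hq₁Q' : (Q : ℝ) < q₁ := by exact_mod_cast hq₁Q
  have hq₁0 : (0 : ℝ) < q₁ := by linarith
  have R : Rt τ K η w₁ a q₁ := by
    refine ⟨hq₁1, h2, fun m hm => orderOf_dvd_of_pow_eq_one hm, (haτ.le).trans hδc, ?_⟩
    rw [div_lt_iff₀ (by positivity)] at hQ2
    have := Real.pi_pos
    nlinarith [sq_nonneg Real.pi]
  have hKq : K / q₁ < ε₀ / 4 := by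
    rw [div_lt_iff₀ hq₁0]
    rw [div_lt_iff₀ hε0] at hQ1
    nlinarith
  have hsubε : Metric.closedBall (2 * (Real.pi : ℂ) * a * I) (K / q₁) ⊆
      Metric.ball ((τ : ℂ) * I) ε₀ := by
    intro μ hμ
    rw [Metric.mem_closedBall] at hμ
    rw [Metric.mem_ball]
    have h4 : dist (2 * (Real.pi : ℂ) * a * I) ((τ : ℂ) * I) < δ := by
      rw [dist_eq_norm]
      have e : 2 * (Real.pi : ℂ) * a * I - (τ : ℂ) * I =
          (((2 * Real.pi * a - τ : ℝ)) : ℂ) * I := by push_cast; ring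
      rw [e, norm_mul, Complex.norm_real, Complex.norm_I, mul_one]
      exact haτ
    have h5 := dist_triangle μ (2 * (Real.pi : ℂ) * a * I) ((τ : ℂ) * I)
    linarith
  have hsubη := hsubε.trans (Metric.ball_subset_ball hε1)
  have hcomp := compact D R hsubη
  -- the image of the compact set
  have hsubP : insert (2 * (Real.pi : ℂ) * a * I) (Pp M τ η ψ om w₁) ⊆
      Metric.ball ((τ : ℂ) * I) ε₀ := by
    intro μ hμ
    apply hsubε
    rcases hμ with h | h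
    · rw [h]; exact Metric.mem_closedBall_self (div_nonneg D.K0.le hq₁0.le)
    · rw [Metric.mem_closedBall, dist_eq_norm]
      exact disc2 D R (disc D R μ h)
  have hcon : ContinuousOn ψ (insert (2 * (Real.pi : ℂ) * a * I) (Pp M τ η ψ om w₁)) :=
    D.diff.continuousOn.mono (hsubP.trans (Metric.ball_subset_ball hε1))
  have himc : IsClosed (ψ '' insert (2 * (Real.pi : ℂ) * a * I) (Pp M τ η ψ om w₁)) :=
    (hcomp.image_of_continuousOn hcon).isClosed
  have hp1τ : 2 * (Real.pi : ℂ) * a * I ≠ (τ : ℂ) * I := by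
    intro h
    apply hw10
    rw [hw₁, h2, h]
  have hrim : r ∉ ψ '' insert (2 * (Real.pi : ℂ) * a * I) (Pp M τ η ψ om w₁) := by
    rintro ⟨μ, hμ, hμr⟩
    rw [← D.psr] at hμr
    have h4 := hinj (hsubP hμ) hτε hμr
    rcases hμ with h | h
    · exact hp1τ (h ▸ h4)
    · have h5 := h.2.1
      rw [h4] at h5
      simp at h5
  have hp1A : ψ (2 * (Real.pi : ℂ) * a * I) ∉ A :=
    hH _ (hsubP (mem_insert _ _)) (by rw [p1_re]) hp1τ
  -- the clopen set
  have hE : A ∩ ψ '' (Pp M τ η ψ om w₁) = ∅ := by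
    refine clopen D.conn (inter_subset_left.trans hA) ?_ ?_ D.rM (fun h => hr h.1)
    · have e : A ∩ ψ '' (Pp M τ η ψ om w₁) =
          insert r A ∩ ψ '' insert (2 * (Real.pi : ℂ) * a * I) (Pp M τ η ψ om w₁) := by
        ext x
        constructor
        · rintro ⟨hx1, hx2⟩
          exact ⟨Or.inr hx1, image_mono (subset_insert _ _) hx2⟩
        · rintro ⟨hx1, hx2⟩
          have hxr : x ≠ r := fun h => hrim (h ▸ hx2)
          have hxA : x ∈ A := hx1.resolve_left hxr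
          refine ⟨hxA, ?_⟩
          obtain ⟨μ, hμ, hμx⟩ := hx2
          rcases hμ with h | h
          · rw [h] at hμx
            rw [← hμx] at hxA
            exact absurd hxA hp1A
          · exact ⟨μ, h, hμx⟩
      rw [e]
      exact hcl.inter himc
    · rintro c ⟨hc1, hc2⟩
      filter_upwards [ho c hc1, opn D w₁ c hc2] with c' b1 b2 b3
      exact ⟨b1 b3, b2 b3⟩
  have : ψ μ₁ ∈ A ∩ ψ '' (Pp M τ η ψ om w₁) := ⟨hμA, μ₁, hP1, rfl⟩
  rw [hE] at this
  exact this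

/-- a half disc without the centre is connected -/
theorem half_conn (τ ε₀ : ℝ) (hε0 : 0 < ε₀) :
    IsPreconnected {μ : ℂ | μ ∈ Metric.ball ((τ : ℂ) * I) ε₀ ∧ μ.re ≤ 0 ∧ μ ≠ τ * I} := by
  set p : ℂ := (τ : ℂ) * I - ((ε₀ / 2 : ℝ) : ℂ) with hp
  have hpre : p.re = -(ε₀ / 2) := by rw [hp]; simp
  have hpb : p ∈ Metric.ball ((τ : ℂ) * I) ε₀ := by
    rw [Metric.mem_ball, dist_eq_norm, hp, sub_sub_cancel_left, norm_neg, Complex.norm_real,
      Real.norm_eq_abs, abs_of_pos (by linarith)]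
    linarith
  have hps : p ∈ {μ : ℂ | μ ∈ Metric.ball ((τ : ℂ) * I) ε₀ ∧ μ.re ≤ 0 ∧ μ ≠ τ * I} := by
    refine ⟨hpb, by rw [hpre]; linarith, fun h => ?_⟩
    have := congrArg Complex.re h
    rw [hpre] at this
    simp at this
    linarith
  have hstar : StarConvex ℝ p
      {μ : ℂ | μ ∈ Metric.ball ((τ : ℂ) * I) ε₀ ∧ μ.re ≤ 0 ∧ μ ≠ τ * I} := by
    intro μ hμ s t hs ht hst
    obtain ⟨h1, h2, h3⟩ := hμ
    have hre : (s • p + t • μ).re = s * p.re + t * μ.re := by simp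
    refine ⟨(convex_ball ((τ : ℂ) * I) ε₀) hpb h1 hs ht hst, ?_, ?_⟩
    · rw [hre, hpre]
      nlinarith
    · intro h
      have h4 := congrArg Complex.re h
      rw [hre, hpre] at h4
      have h5 : ((τ : ℂ) * I).re = 0 := by simp
      rw [h5] at h4
      have h6 : s * (ε₀ / 2) ≤ 0 := by nlinarith
      have h7 : s = 0 := by
        rcases hs.eq_or_lt with h8 | h8
        · exact h8.symm
        · nlinarith
      have h8 : t = 1 := by linarith
      rw [h7, h8, zero_smul, one_smul, zero_add] at h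
      exact h3 h
  exact (hstar.isPathConnected hps).isConnected.isPreconnected

end TOP_

open TOP_ in
theorem p_TOP : T_TOP := by
  classical
  intro M A r b τ η K q₀ ψ om hMc hMp hAM hAU hAcl hrM hrA hbM hbA hbr hτ0 hτ1 hη0 hη1 hK0 hq₀
    hom1 hom2 hk1 hk2 hdiff hder hpsr hpsb hhalf hloc hell
  have D : Dat M r τ η K ψ om := ⟨hMc, hMp, hrM, hη0, hη1, hK0, hdiff, hder, hpsr, hloc, hell⟩
  have hτball : (τ : ℂ) * I ∈ Metric.ball ((τ : ℂ) * I) η := Metric.mem_ball_self hη0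
  have hpi := Real.pi_pos
  have hq₀0 : (0 : ℝ) < q₀ := by exact_mod_cast hq₀
  set w₀ : ℂ := exp (-(τ * I)) with hw₀
  set a₀ : ℝ := τ / (2 * Real.pi) with ha₀
  have ha₀' : 2 * Real.pi * a₀ = τ := by rw [ha₀]; field_simp
  have hp₀ : 2 * (Real.pi : ℂ) * a₀ * I = (τ : ℂ) * I := by
    have : ((2 * Real.pi * a₀ : ℝ) : ℂ) = (τ : ℂ) := by rw [ha₀']
    push_cast at this
    rw [this]
  have R : Rt τ K η w₀ a₀ q₀ := by
    refine ⟨hq₀, ?_, hom2, ?_, hk1.le⟩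
    · rw [hw₀, hp₀]
    · rw [ha₀', sub_self, abs_zero]; norm_num
  have hKq : K / q₀ < η := by rw [div_lt_iff₀ hq₀0]; exact hk2
  have hsub : Metric.closedBall (2 * (Real.pi : ℂ) * a₀ * I) (K / q₀) ⊆
      Metric.ball ((τ : ℂ) * I) η := by
    rw [hp₀]; exact Metric.closedBall_subset_ball hKq
  have hcomp := compact D R hsub
  rw [hp₀] at hcomp
  set L : Set ℂ := ψ '' (Pp M τ η ψ om w₀) with hLdef
  have hLM : L ⊆ M := by
    rintro c ⟨μ, hμ, rfl⟩
    exact hμ.2.2.1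
  have hLo : ∀ c ∈ L, ∀ᶠ c' in 𝓝 c, c' ∈ M → c' ∈ L := opn D w₀
  have hLc : IsClosed (insert r L) := by
    have e : insert r L = ψ '' insert ((τ : ℂ) * I) (Pp M τ η ψ om w₀) := by
      rw [image_insert_eq, hpsr]
    rw [e]
    refine (hcomp.image_of_continuousOn (hdiff.continuousOn.mono ?_)).isClosed
    refine insert_subset hτball fun μ hμ => hμ.1
  have hbL : b ∉ L := by
    rintro ⟨μ, hμ, hμb⟩
    exact hpsb μ hμ.1 hμb
  obtain ⟨U, hUo, hAU⟩ := hAU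
  have hAo : ∀ c ∈ A, ∀ᶠ c' in 𝓝 c, c' ∈ M → c' ∈ A := by
    intro c hc
    rw [hAU] at hc
    filter_upwards [hUo.mem_nhds hc.2] with c' b1 b2
    rw [hAU]; exact ⟨b2, b1⟩
  -- injectivity near the centre
  obtain ⟨ε₀, hε0, hε1, hinj⟩ : ∃ ε₀ : ℝ, 0 < ε₀ ∧ ε₀ ≤ η ∧
      Set.InjOn ψ (Metric.ball ((τ : ℂ) * I) ε₀) := by
    have h1 := (strict D hτball).eventually_left_inverse (hder _ hτball)
    obtain ⟨ε, hε, hε'⟩ := Metric.eventually_nhds_iff.1 h1
    refine ⟨min ε η, lt_min hε hη0, min_le_right _ _, ?_⟩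
    intro x hx y hy hxy
    have hx' := hε' (y := x) (lt_of_lt_of_le hx (min_le_left _ _))
    have hy' := hε' (y := y) (lt_of_lt_of_le hy (min_le_left _ _))
    rw [← hx', ← hy', hxy]
  -- the half disc
  set T : Set ℂ := {μ : ℂ | μ ∈ Metric.ball ((τ : ℂ) * I) ε₀ ∧ μ.re ≤ 0 ∧ μ ≠ τ * I} with hT
  have hTη : T ⊆ Metric.ball ((τ : ℂ) * I) η := fun μ hμ => Metric.ball_subset_ball hε1 hμ.1
  have hHp : IsPreconnected (ψ '' T) :=
    (half_conn τ ε₀ hε0).image ψ (hdiff.continuousOn.mono hTη)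
  have hHM : ψ '' T ⊆ M := by
    rintro c ⟨μ, hμ, rfl⟩
    exact hhalf μ (hTη hμ) hμ.2.1
  have hHr : r ∉ ψ '' T := by
    rintro ⟨μ, hμ, hμr⟩
    rw [← hpsr] at hμr
    exact hμ.2.2 (hinj hμ.1 (Metric.mem_ball_self hε0) hμr)
  have hdich : (ψ '' T ∩ A = ∅) ∨ ψ '' T ⊆ A := by
    by_contra hcon
    push Not at hcon
    obtain ⟨h1, h2⟩ := hcon
    obtain ⟨x, hx1, hx2⟩ := h1
    obtain ⟨y, hy1, hy2⟩ := Set.not_subset.1 h2
    obtain ⟨z, hz1, hz2, hz3⟩ := hHp U (insert r A)ᶜ hUo hAcl.isOpen_compl (by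
      intro z hz
      by_cases hzA : z ∈ A
      · left; rw [hAU] at hzA; exact hzA.2
      · right
        rintro (h | h)
        · exact hHr (h ▸ hz)
        · exact hzA h)
      ⟨x, hx1, by rw [hAU] at hx2; exact hx2.2⟩
      ⟨y, hy1, by
        rintro (h | h)
        · exact hHr (h ▸ hy1)
        · exact hy2 h⟩
    exact hz3 (Or.inr (by rw [hAU]; exact ⟨hHM hz1, hz2⟩))
  have hALcase : A ⊆ L := by
    rcases hdich with hd | hd
    · -- the half disc is outside `A`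
      have h1 : A \ L = ∅ := by
        refine claim D hε0 hε1 hinj (sdiff_subset.trans hAM) (fun h => hrA h.1) ?_ ?_ ?_ ?_
        · intro c hc
          have h2 : ∀ᶠ c' in 𝓝 c, c' ∈ (insert r L)ᶜ := hLc.isOpen_compl.mem_nhds (by
            rintro (h | h)
            · exact hrA (h ▸ hc.1)
            · exact hc.2 h)
          filter_upwards [hAo c hc.1, h2] with c' b1 b2 b3
          exact ⟨b1 b3, fun h => b2 (Or.inr h)⟩
        · refine isClosed_of_closure_subset ?_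
          rw [clo_insert]
          refine insert_subset (mem_insert _ _) fun x hx => ?_
          have h3 : x ∈ insert r A := by
            have := closure_mono (sdiff_subset.trans (subset_insert r A)) hx
            rwa [hAcl.closure_eq] at this
          rcases h3 with h3 | h3
          · exact Or.inl h3
          · right
            refine ⟨h3, fun hxL => ?_⟩
            rw [mem_closure_iff_frequently] at hx
            obtain ⟨y, hy1, hy2⟩ := (hx.and_eventually (hLo x hxL)).exists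
            exact hy1.2 (hy2 (hAM hy1.1))
        · intro c hc
          exact hc.2
        · intro μ hμ hre hne h
          have : ψ μ ∈ ψ '' T ∩ A := ⟨⟨μ, ⟨hμ, hre, hne⟩, rfl⟩, h.1⟩
          rw [hd] at this
          exact this
      exact sdiff_eq_empty.1 h1
    · -- the half disc is inside `A`
      exfalso
      have h1 : M \ (insert r A ∪ insert r L) = ∅ := by
        refine claim D hε0 hε1 hinj sdiff_subset (fun h => h.2 (Or.inl (mem_insert _ _)))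
          ?_ ?_ ?_ ?_
        · intro c hc
          have h2 : ∀ᶠ c' in 𝓝 c, c' ∈ (insert r A ∪ insert r L)ᶜ :=
            (hAcl.union hLc).isOpen_compl.mem_nhds hc.2
          filter_upwards [h2] with c' b1 b2
          exact ⟨b2, b1⟩
        · refine isClosed_of_closure_subset ?_
          rw [clo_insert]
          refine insert_subset (mem_insert _ _) fun x hx => ?_
          have hxM : x ∈ M := by
            have := closure_mono (sdiff_subset (s := M) (t := insert r A ∪ insert r L)) hx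
            rwa [hMc.isClosed.closure_eq] at this
          rw [mem_closure_iff_frequently] at hx
          by_cases hxr : x = r
          · exact Or.inl hxr
          · right
            refine ⟨hxM, ?_⟩
            rintro ((h | h) | (h | h))
            · exact hxr h
            · obtain ⟨y, hy1, hy2⟩ := (hx.and_eventually (hAo x h)).exists
              exact hy1.2 (Or.inl (Or.inr (hy2 hy1.1)))
            · exact hxr h
            · obtain ⟨y, hy1, hy2⟩ := (hx.and_eventually (hLo x h)).exists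
              exact hy1.2 (Or.inr (Or.inr (hy2 hy1.1)))
        · intro c hc h
          exact hc.2 (Or.inr (Or.inr h))
        · intro μ hμ hre hne h
          exact h.2 (Or.inl (Or.inr (hd ⟨μ, ⟨hμ, hre, hne⟩, rfl⟩)))
      have h2 : b ∈ M \ (insert r A ∪ insert r L) := by
        refine ⟨hbM, ?_⟩
        rintro ((h | h) | (h | h))
        · exact hbr h
        · exact hbA h
        · exact hbr h
        · exact hbL h
      rw [h1] at h2
      exact h2
  intro c hc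
  obtain ⟨μ, hμ, hμc⟩ := hALcase hc
  refine ⟨μ, hμ.1, hμ.2.1, hμc, ?_⟩
  have h1 := disc2 D R (disc D R μ hμ)
  rwa [hp₀] at h1

end Pool.Agent.PLim
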