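import Pool.Agent.PLim.Targets
import Pool.Agent.Multibrot.Annulus

/-!
# PLIM: the area of the torus
-/

set_option autoImplicit false

open Complex Filter Topology Set MeasureTheory
open Pool.Agent.Multibrot Pool.Agent.Limb

namespace Pool.Agent.PLim

namespace TOR_

/-- the density -/
noncomputable def phiT (w : ℂ) : ENNReal := (‖w‖ₑ ^ 2)⁻¹

theorem phiT_meas : Measurable phiT := by
  unfold phiT
  fun_prop

theorem det_mul (c : ℂ) : LinearMap.det (Algebra.lmul ℝ ℂ c) = Complex.normSq c := by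
  rw [← Algebra.norm_apply, Algebra.norm_complex_apply]

theorem scale {c : ℂ} (hc : c ≠ 0) {g : ℂ → ENNReal} (hg : Measurable g) :
    ∫⁻ w, g (c * w) = ENNReal.ofReal ((‖c‖ ^ 2)⁻¹) * ∫⁻ w, g w := by
  have h0 : LinearMap.det (Algebra.lmul ℝ ℂ c) ≠ 0 := by
    rw [det_mul]
    exact (Complex.normSq_pos.mpr hc).ne'
  have h1 := Measure.map_linearMap_addHaar_eq_smul_addHaar (volume : Measure ℂ) h0
  have h2 : ∫⁻ w, g w ∂(Measure.map (Algebra.lmul ℝ ℂ c) volume) = ∫⁻ w, g (c * w) := by
    rw [lintegral_map hg (by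
      have : Continuous (Algebra.lmul ℝ ℂ c) := LinearMap.continuous_of_finiteDimensional _
      exact this.measurable)]
    rfl
  rw [← h2, h1, lintegral_smul_measure, det_mul, abs_of_nonneg (by
    exact inv_nonneg.mpr (Complex.normSq_nonneg c)), Complex.normSq_eq_norm_sq, smul_eq_mul]

/-- the annulus of index `j` -/
def An (b : ℝ) (j : ℤ) : Set ℂ := {w : ℂ | b ^ j ≤ ‖w‖ ∧ ‖w‖ < b ^ (j + 1)}

theorem An_meas (b : ℝ) (j : ℤ) : MeasurableSet (An b j) :=
  (measurableSet_le measurable_const measurable_norm).inter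
    (measurableSet_lt measurable_norm measurable_const)

theorem int_inv {b : ℝ} (hb : 1 < b) :
    ∫⁻ r in Ioo (1 : ℝ) b, ENNReal.ofReal r⁻¹ = ENNReal.ofReal (Real.log b) := by
  have hint : IntegrableOn (fun r : ℝ => r⁻¹) (Ioo 1 b) := by
    have h1 : IntegrableOn (fun r : ℝ => r⁻¹) (Icc 1 b) := by
      apply ContinuousOn.integrableOn_Icc
      intro x hx
      exact (continuousAt_inv₀ (by linarith [hx.1])).continuousWithinAt
    exact h1.mono_set Ioo_subset_Icc_self
  rw [← ofReal_integral_eq_lintegral_ofReal hint]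
  · rw [← integral_Ioc_eq_integral_Ioo, ← intervalIntegral.integral_of_le hb.le,
      integral_inv_of_pos one_pos (by linarith), div_one]
  · filter_upwards [ae_restrict_mem measurableSet_Ioo] with r hr
    exact inv_nonneg.mpr (by linarith [hr.1])

theorem area {b : ℝ} (hb : 1 < b) :
    ∫⁻ w in An b 0, phiT w ≤ ENNReal.ofReal (2 * Real.pi * Real.log b) := by
  have h1 : An b 0 ⊆ annul 1 b ∪ Metric.sphere (0 : ℂ) 1 := by
    intro w hw
    have hw1 : b ^ (0 : ℤ) ≤ ‖w‖ := hw.1
    have hw2 : ‖w‖ < b ^ ((0 : ℤ) + 1) := hw.2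
    rw [zpow_zero] at hw1
    rw [zero_add, zpow_one] at hw2
    rcases hw1.eq_or_lt with h | h
    · right
      rw [mem_sphere_zero_iff_norm]
      exact h.symm
    · left
      exact ⟨h, hw2⟩
  calc ∫⁻ w in An b 0, phiT w ≤ ∫⁻ w in annul 1 b ∪ Metric.sphere (0 : ℂ) 1, phiT w :=
        lintegral_mono_set h1
    _ ≤ (∫⁻ w in annul 1 b, phiT w) + ∫⁻ w in Metric.sphere (0 : ℂ) 1, phiT w :=
        lintegral_union_le _ _ _
    _ = ∫⁻ w in annul 1 b, phiT w := by
        rw [setLIntegral_measure_zero _ _ (Measure.addHaar_sphere _ _ _), add_zero]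
    _ = ENNReal.ofReal (2 * Real.pi * Real.log b) := by
        rw [lintegral_annul zero_le_one phiT_meas]
        have h2 : ∀ r ∈ Ioo (1 : ℝ) b, ∫⁻ θ in Ioo (-Real.pi) Real.pi,
            ENNReal.ofReal r * phiT (circleMap 0 r θ) =
              ENNReal.ofReal (2 * Real.pi) * ENNReal.ofReal r⁻¹ := by
          intro r hr
          have hr0 : 0 < r := by linarith [hr.1]
          have h3 : ∀ θ : ℝ, ENNReal.ofReal r * phiT (circleMap 0 r θ) = ENNReal.ofReal r⁻¹ := by
            intro θ
            unfold phiT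
            rw [← ofReal_norm, norm_circleMap_zero, abs_of_pos hr0, ← ENNReal.ofReal_pow hr0.le,
              ← ENNReal.ofReal_inv_of_pos (by positivity), ← ENNReal.ofReal_mul hr0.le]
            congr 1
            field_simp
          simp only [h3]
          rw [setLIntegral_const, Real.volume_Ioo, mul_comm]
          congr 2
          ring
        rw [setLIntegral_congr_fun measurableSet_Ioo h2, lintegral_const_mul _ (by fun_prop),
          int_inv hb, ← ENNReal.ofReal_mul (by positivity)]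

open Classical in
/-- splitting along the annuli -/
theorem split {lam : ℂ} (hlam : 1 < ‖lam‖) {E : Set ℂ} (hE : MeasurableSet E)
    (h0 : (0 : ℂ) ∉ E) :
    ∫⁻ w in E, phiT w = ∑' j : ℤ, ∫⁻ w in An ‖lam‖ 0,
      (if lam ^ j * w ∈ E then 1 else 0) * phiT w := by
  have hl0 : lam ≠ 0 := by
    rintro rfl
    rw [norm_zero] at hlam
    linarith
  have hlp : 0 < ‖lam‖ := by linarith
  have hun : E = ⋃ j : ℤ, E ∩ An ‖lam‖ j := by
    ext w
    rw [mem_iUnion]
    constructor
    · intro hw
      have hw0 : 0 < ‖w‖ := by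
        rw [norm_pos_iff]
        rintro rfl
        exact h0 hw
      obtain ⟨j, hj⟩ := exists_mem_Ico_zpow hw0 hlam
      exact ⟨j, hw, hj.1, hj.2⟩
    · rintro ⟨j, hj⟩
      exact hj.1
  have hdisj : Pairwise (Function.onFun Disjoint fun j : ℤ => E ∩ An ‖lam‖ j) := by
    intro i j hij
    apply Set.disjoint_left.mpr
    rintro w ⟨-, h1, h2⟩ ⟨-, h3, h4⟩
    have h5 : i < j + 1 := (zpow_lt_zpow_iff_right₀ hlam).mp (h1.trans_lt h4)
    have h6 : j < i + 1 := (zpow_lt_zpow_iff_right₀ hlam).mp (h3.trans_lt h2)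
    apply hij
    omega
  conv_lhs => rw [hun]
  rw [lintegral_iUnion (fun j => hE.inter (An_meas _ j)) hdisj]
  apply tsum_congr
  intro j
  have hc : lam ^ j ≠ 0 := zpow_ne_zero j hl0
  have hcn : 0 < ‖lam ^ j‖ := norm_pos_iff.mpr hc
  have hgm : Measurable ((E ∩ An ‖lam‖ j).indicator phiT) :=
    phiT_meas.indicator (hE.inter (An_meas _ j))
  have h1 := scale hc hgm
  rw [lintegral_indicator (hE.inter (An_meas _ j))] at h1
  have h2 : ∀ w : ℂ, (E ∩ An ‖lam‖ j).indicator phiT (lam ^ j * w) =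
      ENNReal.ofReal ((‖lam ^ j‖ ^ 2)⁻¹) *
        (An ‖lam‖ 0).indicator (fun w => (if lam ^ j * w ∈ E then 1 else 0) * phiT w) w := by
    intro w
    have h3 : lam ^ j * w ∈ An ‖lam‖ j ↔ w ∈ An ‖lam‖ 0 := by
      unfold An
      rw [mem_ofPred_eq, mem_ofPred_eq, norm_mul, norm_zpow, zpow_zero, zero_add, zpow_one,
        zpow_add₀ hlp.ne', zpow_one]
      have h4 : 0 < ‖lam‖ ^ j := zpow_pos hlp j
      rw [le_mul_iff_one_le_right h4, mul_lt_mul_iff_right₀ h4]
    by_cases hw : w ∈ An ‖lam‖ 0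
    · rw [indicator_of_mem hw]
      by_cases hE' : lam ^ j * w ∈ E
      · rw [indicator_of_mem (show lam ^ j * w ∈ E ∩ An ‖lam‖ j from ⟨hE', h3.mpr hw⟩),
          if_pos hE', one_mul]
        unfold phiT
        rw [enorm_mul, mul_pow, ENNReal.mul_inv (Or.inl (by
          rw [← ofReal_norm, ← ENNReal.ofReal_pow hcn.le]
          exact (ENNReal.ofReal_pos.mpr (by positivity)).ne')) (Or.inl (by finiteness))]
        congr 1
        rw [ENNReal.ofReal_inv_of_pos (by positivity), ENNReal.ofReal_pow hcn.le, ofReal_norm]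
      · rw [indicator_of_notMem (fun h => hE' h.1), if_neg hE', zero_mul, mul_zero]
    · rw [indicator_of_notMem hw, indicator_of_notMem (fun h => hw (h3.mp h.2)), mul_zero]
  simp only [h2] at h1
  rw [lintegral_const_mul' _ _ ENNReal.ofReal_ne_top, lintegral_indicator (An_meas _ _)] at h1
  exact ((ENNReal.mul_right_inj (ENNReal.ofReal_pos.mpr (by positivity)).ne'
    ENNReal.ofReal_ne_top).mp h1).symm

end TOR_

open TOR_

open Classical in
theorem p_TOR : T_TOR := by
  intro lam m M E hlam hE h0 hP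
  have hl0 : lam ≠ 0 := by
    rintro rfl
    rw [norm_zero] at hlam
    linarith
  have h1 : ∑ i, ∫⁻ w in E i, (‖w‖ₑ ^ 2)⁻¹ = ∑ i, ∑' j : ℤ, ∫⁻ w in An ‖lam‖ 0,
      (if lam ^ j * w ∈ E i then 1 else 0) * phiT w :=
    Finset.sum_congr rfl fun i _ => split hlam (hE i) (h0 i)
  rw [h1]
  have hm : ∀ (i : Fin m) (j : ℤ), Measurable
      (fun w : ℂ => (if lam ^ j * w ∈ E i then (1 : ENNReal) else 0) * phiT w) := by
    intro i j
    apply Measurable.mul _ phiT_meas
    apply Measurable.ite _ measurable_const measurable_const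
    exact (hE i).preimage (measurable_const_mul (lam ^ j))
  have h2 : ∑ i, ∑' j : ℤ, ∫⁻ w in An ‖lam‖ 0, (if lam ^ j * w ∈ E i then 1 else 0) * phiT w =
      ∫⁻ w in An ‖lam‖ 0, ∑ i, ∑' j : ℤ, (if lam ^ j * w ∈ E i then 1 else 0) * phiT w := by
    rw [lintegral_finsetSum _ (fun i _ => Measurable.tsum (hm i))]
    exact Finset.sum_congr rfl fun i _ => (lintegral_tsum fun j => (hm i j).aemeasurable).symm
  rw [h2]
  calc ∫⁻ w in An ‖lam‖ 0, ∑ i, ∑' j : ℤ, (if lam ^ j * w ∈ E i then 1 else 0) * phiT w ≤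
        ∫⁻ w in An ‖lam‖ 0, (M : ENNReal) * phiT w := by
        apply setLIntegral_mono (phiT_meas.const_mul _)
        intro w hw
        have hw0 : w ≠ 0 := by
          rintro rfl
          have h3 := hw.1
          rw [zpow_zero, norm_zero] at h3
          linarith
        simp only [ENNReal.tsum_mul_right]
        rw [← Finset.sum_mul]
        gcongr
        rw [← tsum_fintype (L := .unconditional _), ← ENNReal.tsum_prod
          (f := fun (i : Fin m) (j : ℤ) => if lam ^ j * w ∈ E i then (1 : ENNReal) else 0),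
          ENNReal.tsum_eq_iSup_sum]
        apply iSup_le
        intro P
        rw [Finset.sum_ite, Finset.sum_const_zero, add_zero, Finset.sum_const, nsmul_eq_mul,
          mul_one]
        have h4 := hP w hw0 (P.filter fun p => lam ^ p.2 * w ∈ E p.1) (by
          intro p hp
          exact (Finset.mem_filter.mp hp).2)
        exact_mod_cast h4
    _ = (M : ENNReal) * ∫⁻ w in An ‖lam‖ 0, phiT w := lintegral_const_mul _ phiT_meas
    _ ≤ (M : ENNReal) * ENNReal.ofReal (2 * Real.pi * Real.log ‖lam‖) := by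
        gcongr
        exact area hlam
    _ = ENNReal.ofReal (M * (2 * Real.pi * Real.log ‖lam‖)) := by
        rw [ENNReal.ofReal_mul (Nat.cast_nonneg M), ENNReal.ofReal_natCast]

end Pool.Agent.PLim
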