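import Pool.Agent.PLim.Targets

/-!
# PLIM-UNIQ: the displacements of two rays landing at the same point are proportional
-/

set_option autoImplicit false

open Complex Filter Topology Set
open Pool.Agent.Multibrot Pool.Agent.Limb

namespace Pool.Agent.PLim.UNIQx

lemma G_zero {n : ℕ} (hn : 2 ≤ n) {c : ℂ} (hc : c ∈ MM n) : G n c 0 = 0 := by
  unfold G
  apply Tendsto.limUnder_eq
  have hn1 : (1 : ℝ) < n := by exact_mod_cast (by omega : 1 < n)
  have h0 : Tendsto (fun j : ℕ => Real.posLog 2 / (n : ℝ) ^ j) atTop (𝓝 0) :=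
    (tendsto_pow_atTop_atTop_of_one_lt hn1).const_div_atTop _
  refine squeeze_zero (fun j => ?_) (fun j => ?_) h0
  · exact div_nonneg Real.posLog_nonneg (by positivity)
  · have h1 : ‖(F n c)^[j] 0‖ ≤ 2 := by
      have h2 := hc j
      rw [Q_eq_iterate] at h2
      exact h2
    have h3 : Real.posLog ‖(F n c)^[j] 0‖ ≤ Real.posLog 2 := by
      apply Real.monotoneOn_posLog
      · exact norm_nonneg _
      · exact (by norm_num : (0 : ℝ) ≤ 2)
      · exact h1
    gcongr

lemma rot_nat {n : ℕ} {Λ : ℂ → ℂ → ℂ} (hn : 2 ≤ n) (h : IsBot n Λ) {c : ℂ} (hc : c ∈ MM n)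
    (l : ℕ) : ∀ s : ℂ, 0 < s.re →
    Λ c (s + l * (2 * Real.pi * I / n)) = Λ c s + l * (2 * Real.pi * I / n) := by
  induction l with
  | zero => intro s _; simp
  | succ l ih =>
    intro s hs
    have hre : (s + l * (2 * Real.pi * I / n)).re = s.re := by
      have : (l * (2 * Real.pi * I / n) : ℂ) = ((l * (2 * Real.pi / n) : ℝ) : ℂ) * I := by
        push_cast
        ring
      rw [this, add_re, re_ofReal_mul, I_re, mul_zero, add_zero]
    have h1 := h.rot c (s + l * (2 * Real.pi * I / n)) (by rw [G_zero hn hc, hre]; exact hs)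
    have e1 : s + ((l + 1 : ℕ) : ℂ) * (2 * Real.pi * I / n) =
        s + l * (2 * Real.pi * I / n) + 2 * Real.pi * I / n := by
      push_cast
      ring
    rw [e1, h1, ih s hs]
    push_cast
    ring

lemma per_nat {n : ℕ} {Λ : ℂ → ℂ → ℂ} (hn : 2 ≤ n) (h : IsBot n Λ) {c : ℂ} (hc : c ∈ MM n)
    (m : ℕ) (s : ℂ) (hs : 0 < s.re) :
    exp (Λ c (s + m * (2 * Real.pi * I))) = exp (Λ c s) := by
  have hn0 : (n : ℂ) ≠ 0 := by exact_mod_cast (by omega : n ≠ 0)
  have h1 := rot_nat hn h hc (m * n) s hs
  have e1 : (((m * n : ℕ) : ℂ)) * (2 * Real.pi * I / n) = m * (2 * Real.pi * I) := by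
    push_cast
    field_simp
  rw [e1] at h1
  rw [h1, exp_add]
  have h2 : exp (m * (2 * Real.pi * I)) = 1 := by
    have := exp_int_mul_two_pi_mul_I (m : ℤ)
    push_cast at this
    exact this
  rw [h2, mul_one]

lemma per_int {n : ℕ} {Λ : ℂ → ℂ → ℂ} (hn : 2 ≤ n) (h : IsBot n Λ) {c : ℂ} (hc : c ∈ MM n)
    (m : ℤ) (s : ℂ) (hs : 0 < s.re) :
    exp (Λ c (s + m * (2 * Real.pi * I))) = exp (Λ c s) := by
  rcases le_total 0 m with hm | hm
  · obtain ⟨l, rfl⟩ := Int.eq_ofNat_of_zero_le hm
    have := per_nat hn h hc l s hs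
    push_cast
    exact this
  · obtain ⟨l, hl⟩ := Int.exists_eq_neg_ofNat hm
    subst hl
    have hre : (s + ((-(l : ℤ) : ℤ) : ℂ) * (2 * Real.pi * I)).re = s.re := by
      have : (((-(l : ℤ) : ℤ) : ℂ) * (2 * Real.pi * I) : ℂ) =
          ((-(l * (2 * Real.pi)) : ℝ) : ℂ) * I := by
        push_cast
        ring
      rw [this, add_re, re_ofReal_mul, I_re, mul_zero, add_zero]
    have h1 := per_nat hn h hc l (s + ((-(l : ℤ) : ℤ) : ℂ) * (2 * Real.pi * I))
      (by rw [hre]; exact hs)
    rw [← h1]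
    congr 2
    push_cast
    ring

lemma ray_int {n : ℕ} {Λ : ℂ → ℂ → ℂ} (hn : 2 ≤ n) (h : IsBot n Λ) {c : ℂ} (hc : c ∈ MM n)
    (α α' : ℝ) (m : ℤ) (hm : α - α' = m) (t : ℝ) (ht : 0 < t) :
    ray Λ c α t = ray Λ c α' t := by
  unfold ray
  have h1 := per_int hn h hc m ((t : ℂ) + 2 * Real.pi * α' * I) (by
    have : (2 * Real.pi * α' * I : ℂ) = ((2 * Real.pi * α' : ℝ) : ℂ) * I := by push_cast; ring
    rw [this, add_re, re_ofReal_mul, I_re, mul_zero, add_zero, ofReal_re]
    exact ht)
  rw [← h1]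
  congr 2
  have h2 : (α : ℂ) = α' + m := by
    have : α = α' + m := by linarith
    rw [this]
    push_cast
    ring
  rw [h2]
  ring

lemma isInt_iff {α α' : ℝ} {m : ℤ} (hm : α - α' = m) (n e : ℕ) :
    IsInt (((n : ℝ) ^ e - 1) * α) ↔ IsInt (((n : ℝ) ^ e - 1) * α') := by
  have h : ((n : ℝ) ^ e - 1) * α = ((n : ℝ) ^ e - 1) * α' + (((n : ℤ) ^ e - 1) * m : ℤ) := by
    push_cast
    rw [← hm]
    ring
  rw [h]
  constructor
  · rintro ⟨a, ha⟩
    refine ⟨a - ((n : ℤ) ^ e - 1) * m, ?_⟩
    push_cast at ha ⊢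
    linarith
  · rintro ⟨a, ha⟩
    refine ⟨a + ((n : ℤ) ^ e - 1) * m, ?_⟩
    rw [ha]
    push_cast
    ring

/-- The functional equation for integer powers. -/
lemma shift_nat {M : ℝ} {l : ℝ → ℂ} {v : ℂ} (hM : 0 < M)
    (h : ∀ t : ℝ, 0 < t → l (M * t) = l t + v) (j : ℕ) :
    ∀ t : ℝ, 0 < t → l (M ^ j * t) = l t + j * v := by
  induction j with
  | zero => intro t _; simp
  | succ j ih =>
    intro t ht
    have h1 : 0 < M ^ j * t := by positivity
    rw [pow_succ', mul_assoc, h _ h1, ih t ht]
    push_cast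
    ring

lemma shift_int {M : ℝ} {l : ℝ → ℂ} {v : ℂ} (hM : 0 < M)
    (h : ∀ t : ℝ, 0 < t → l (M * t) = l t + v) (j : ℤ) (t : ℝ) (ht : 0 < t) :
    l (M ^ j * t) = l t + j * v := by
  rcases le_total 0 j with hj | hj
  · obtain ⟨i, rfl⟩ := Int.eq_ofNat_of_zero_le hj
    have := shift_nat hM h i t ht
    simpa using this
  · obtain ⟨i, hi⟩ := Int.exists_eq_neg_ofNat hj
    subst hi
    have h0 : 0 < M ^ (-(i : ℤ)) * t := by positivity
    have h1 := shift_nat hM h i (M ^ (-(i : ℤ)) * t) h0
    have h2 : M ^ i * (M ^ (-(i : ℤ)) * t) = t := by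
      rw [← mul_assoc, ← zpow_natCast, ← zpow_add₀ hM.ne']
      simp
    rw [h2] at h1
    push_cast
    linear_combination -h1

end Pool.Agent.PLim.UNIQx

namespace Pool.Agent.PLim

open UNIQx

theorem p_UNIQ (hCURV : T_CURV) (hWIND : T_WIND) (hDISPE : T_DISPE) : T_UNIQ := by
  intro n k q q' Λ c z v v' α α' hn hk hΛ hc hα hα' hl hl' hz hrho hD hD'
  obtain ⟨v0, hv0, hev, huniq⟩ := hDISPE n k q Λ c z α hn hk hα.1 hΛ hc hα.2.1 hl hz hrho
  obtain ⟨v0', hv0', hev', huniq'⟩ := hDISPE n k q' Λ c z α' hn hk hα'.1 hΛ hc hα'.2.1 hl' hz hrho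
  have e1 := huniq v hD
  subst e1
  have e2 := huniq' v' hD'
  subst e2
  by_cases hint : IsInt (α - α')
  · -- the same ray
    obtain ⟨m, hm⟩ := hint
    have hqq : q = q' := by
      rcases lt_trichotomy q q' with h | h | h
      · exact absurd ((isInt_iff hm n (k * q)).mp hα.2.1) (hα'.2.2 q hα.1 h)
      · exact h
      · exact absurd ((isInt_iff hm n (k * q')).mpr hα'.2.1) (hα.2.2 q' hα'.1 h)
    subst hqq
    have hD2 : Disp n k q Λ c α z v' := by
      obtain ⟨L, hL1, hL2, hL3⟩ := hD'
      refine ⟨L, hL1, fun t ht => ?_, hL3⟩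
      rw [hL2 t ht, ray_int hn hΛ hc α α' m hm t ht]
    rw [huniq v' hD2]
  · by_contra hne
    obtain ⟨W, hW1, hW2⟩ := hCURV n k Λ c z hn hk hΛ hc hz hrho
    obtain ⟨-, -, -, -, -, hWv⟩ := hW1 α q hα.1 hα.2.1 hl
    obtain ⟨-, -, -, -, -, hWv'⟩ := hW1 α' q' hα'.1 hα'.2.1 hl'
    obtain ⟨l, hlc, hle⟩ := hWv v hD
    obtain ⟨l', hlc', hle'⟩ := hWv' v' hD'
    set lam := Rho n k c z with hlam
    have hn1 : (1 : ℝ) < n := by exact_mod_cast (by omega : 1 < n)
    set M : ℝ := (n : ℝ) ^ (k * q) with hM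
    set M' : ℝ := (n : ℝ) ^ (k * q') with hM'
    have hM0 : 0 < M := by positivity
    have hM'0 : 0 < M' := by positivity
    -- real parts
    have hloglam : 0 < Real.log ‖lam‖ := Real.log_pos hrho
    have hre : v.re = q * Real.log ‖lam‖ := by
      have h1 : Real.exp v.re = ‖lam‖ ^ q := by
        rw [← norm_exp, hev, norm_pow]
      have h2 := congrArg Real.log h1
      rw [Real.log_exp, Real.log_pow] at h2
      exact h2
    have hre' : v'.re = q' * Real.log ‖lam‖ := by
      have h1 : Real.exp v'.re = ‖lam‖ ^ q' := by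
        rw [← norm_exp, hev', norm_pow]
      have h2 := congrArg Real.log h1
      rw [Real.log_exp, Real.log_pow] at h2
      exact h2
    have hq0 : (0 : ℝ) < q := by exact_mod_cast hα.1
    have hvre : 0 < v.re := by rw [hre]; positivity
    have hv : v ≠ 0 := by
      intro h
      rw [h] at hvre
      simp at hvre
    have hnsq : 0 < normSq v := normSq_pos.mpr hv
    -- the slope
    set D : ℝ := (2 * Real.pi * I * (v' / v)).re with hDdef
    have hD0 : D ≠ 0 := by
      have h1 : D = -(2 * Real.pi) * (v' / v).im := by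
        rw [hDdef]
        have : (2 * Real.pi * I * (v' / v) : ℂ) = ((2 * Real.pi : ℝ) : ℂ) * (I * (v' / v)) := by
          push_cast
          ring
        rw [this, re_ofReal_mul, I_mul_re]
        ring
      have h2 : (v' / v).im = Real.log ‖lam‖ * (q * v'.im - q' * v.im) / normSq v := by
        rw [div_im, hre, hre']
        ring
      intro h3
      rw [h1, h2] at h3
      have h4 : Real.log ‖lam‖ * (q * v'.im - q' * v.im) / normSq v = 0 := by
        have : -(2 * Real.pi) ≠ 0 := by
          have := Real.pi_pos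
          linarith
        exact (mul_eq_zero.mp h3).resolve_left this
      have h5 : q * v'.im - q' * v.im = 0 := by
        rcases div_eq_zero_iff.mp h4 with h | h
        · exact (mul_eq_zero.mp h).resolve_left hloglam.ne'
        · exact absurd h hnsq.ne'
      apply hne
      apply Complex.ext
      · have : (q * v' : ℂ) = ((q : ℝ) : ℂ) * v' := by push_cast; ring
        rw [this, re_ofReal_mul]
        have : (q' * v : ℂ) = ((q' : ℝ) : ℂ) * v := by push_cast; ring
        rw [this, re_ofReal_mul, hre, hre']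
        ring
      · have : (q * v' : ℂ) = ((q : ℝ) : ℂ) * v' := by push_cast; ring
        rw [this, im_ofReal_mul]
        have : (q' * v : ℂ) = ((q' : ℝ) : ℂ) * v := by push_cast; ring
        rw [this, im_ofReal_mul]
        linarith
    -- the closed curve
    set ell : ℝ → ℂ := fun s => 2 * Real.pi * I * (l (M ^ s) / v) with hell
    have hpowc : Continuous (fun s : ℝ => M ^ s) := Real.continuous_const_rpow hM0.ne'
    have hpowc' : Continuous (fun s : ℝ => M' ^ s) := Real.continuous_const_rpow hM'0.ne'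
    have hellc : Continuous ell := by
      rw [hell]
      refine continuous_const.mul (Continuous.div_const ?_ _)
      exact hlc.comp_continuous hpowc (fun s => Real.rpow_pos_of_pos hM0 s)
    have hellshift : ell 1 = ell 0 + 2 * Real.pi * I := by
      simp only [hell]
      have h1 : l (M ^ (1 : ℝ)) = l (M ^ (0 : ℝ)) + v := by
        rw [Real.rpow_one, Real.rpow_zero]
        have := (hle 1 one_pos).2
        rw [mul_one] at this
        exact this
      rw [h1]
      field_simp
    -- bounds for the closed curve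
    obtain ⟨K, hK⟩ : ∃ K : ℝ, ∀ s ∈ Icc (0 : ℝ) 1, |(ell s).re| ≤ K := by
      obtain ⟨K, hK⟩ := (isCompact_Icc (a := (0 : ℝ)) (b := 1)).exists_bound_of_continuousOn
        (f := fun s => (ell s).re) (Complex.continuous_re.comp hellc).continuousOn
      exact ⟨K, fun s hs => by simpa [Real.norm_eq_abs] using hK s hs⟩
    -- the path
    set A : ℝ := (2 * Real.pi * I * (l' 1 / v)).re with hA
    have hl'int : ∀ j : ℤ, (2 * Real.pi * I * (l' (M' ^ (j : ℝ)) / v)).re = A + j * D := by
      intro j
      have h1 := shift_int hM'0 (fun t ht => (hle' t ht).2) j 1 one_pos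
      rw [mul_one] at h1
      rw [Real.rpow_intCast, h1, hA, hDdef]
      have : (2 * Real.pi * I * ((l' 1 + j * v') / v) : ℂ) =
          2 * Real.pi * I * (l' 1 / v) + ((j : ℝ) : ℂ) * (2 * Real.pi * I * (v' / v)) := by
        push_cast
        field_simp
      rw [this, add_re, re_ofReal_mul]
    obtain ⟨m0, hm0⟩ : ∃ m0 : ℤ, |A| + |K| < m0 * |D| := by
      obtain ⟨m0, hm0⟩ := exists_nat_gt ((|A| + |K|) / |D|)
      refine ⟨m0, ?_⟩
      rw [div_lt_iff₀ (abs_pos.mpr hD0)] at hm0
      exact_mod_cast hm0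
    obtain ⟨j0, hj0⟩ : ∃ j0 : ℤ, |A| + |K| < j0 * D := by
      rcases lt_or_gt_of_ne hD0 with h | h
      · refine ⟨-m0, ?_⟩
        rw [abs_of_neg h] at hm0
        push_cast
        linarith
      · refine ⟨m0, ?_⟩
        rw [abs_of_pos h] at hm0
        exact hm0
    set P : ℝ → ℂ := fun u => exp (2 * Real.pi * I * (l' (M' ^ ((j0 : ℝ) * (2 * u - 1))) / v))
      with hP
    have hPc : Continuous P := by
      rw [hP]
      refine Complex.continuous_exp.comp (continuous_const.mul (Continuous.div_const ?_ _))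
      refine hlc'.comp_continuous (hpowc'.comp (by fun_prop))
        (fun u => Real.rpow_pos_of_pos hM'0 _)
    have hconcl := hWIND (fun s => exp (ell s)) P ell
      (Complex.continuous_exp.comp hellc).continuousOn hPc.continuousOn hellc.continuousOn
      (fun s _ => rfl)
      (by
        show exp (ell 0) = exp (ell 1)
        rw [hellshift, exp_add, exp_two_pi_mul_I, mul_one])
      (by
        intro s _ u _ heq
        -- equality would give an intersection of the two lifted rays
        simp only [hell, hP] at heq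
        rw [exp_eq_exp_iff_exists_int] at heq
        obtain ⟨m, hm⟩ := heq
        set t1 := M ^ s with ht1
        set t2 := M' ^ ((j0 : ℝ) * (2 * u - 1)) with ht2
        have ht1p : 0 < t1 := Real.rpow_pos_of_pos hM0 s
        have ht2p : 0 < t2 := Real.rpow_pos_of_pos hM'0 _
        have h2pi : (2 * Real.pi * I : ℂ) ≠ 0 := two_pi_I_ne_zero
        have h1 : l t1 = l' t2 + m * v := by
          have h3 : 2 * Real.pi * I * (l t1 / v) = 2 * Real.pi * I * (l' t2 / v + m) := by
            rw [hm]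
            ring
          have h4 := mul_left_cancel₀ h2pi h3
          field_simp at h4
          rw [h4]
          ring
        have h5 := shift_int hM0 (fun t ht => (hle t ht).2) (-m) t1 ht1p
        have h6 : l (M ^ (-m) * t1) = l' t2 := by
          rw [h5, h1]
          push_cast
          ring
        have h7 : 0 < M ^ (-m) * t1 := by positivity
        have h8 : W α (M ^ (-m) * t1) = W α' t2 := by
          rw [← (hle _ h7).1, ← (hle' _ ht2p).1, h6]
        exact hint (hW2 α α' _ t2 q q' hα.1 hα'.1 hα.2.1 hα'.2.1 hl hl' h7 ht2p h8).2)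
      (by
        intro s hs
        simp only [hP, norm_exp]
        rw [Real.exp_lt_exp]
        have h1 : (j0 : ℝ) * (2 * 0 - 1) = ((-j0 : ℤ) : ℝ) := by push_cast; ring
        rw [h1, hl'int]
        have h2 := hK s hs
        have h3 := abs_le.mp h2
        have h4 := le_abs_self A
        have h5 := le_abs_self K
        push_cast
        linarith [h3.1])
      (by
        intro s hs
        simp only [hP, norm_exp]
        rw [Real.exp_lt_exp]
        have h1 : (j0 : ℝ) * (2 * 1 - 1) = ((j0 : ℤ) : ℝ) := by push_cast; ring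
        rw [h1, hl'int]
        have h2 := hK s hs
        have h3 := abs_le.mp h2
        have h4 := neg_abs_le A
        have h5 := le_abs_self K
        linarith [h3.2])
    rw [hellshift] at hconcl
    have : (2 * Real.pi * I : ℂ) = 0 := by
      have h := hconcl
      exact add_eq_left.mp h
    exact two_pi_I_ne_zero this

end Pool.Agent.PLim
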