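import Pool.Agent.PLim.Targets

/-!
# PLIM: WIND
-/

set_option autoImplicit false

open Complex Filter Topology Set MeasureTheory
open Pool.Agent.Multibrot Pool.Agent.Limb

namespace Pool.Agent.PLim

private lemma exp_const (f : ℝ → ℂ) (hf : ContinuousOn f (Icc 0 1)) (a : ℂ)
    (h : ∀ s ∈ Icc (0 : ℝ) 1, exp (f s) = a) : f 1 = f 0 := by
  have h01 : (0 : ℝ) ≤ 1 := zero_le_one
  have m0 : (0 : ℝ) ∈ Icc (0 : ℝ) 1 := ⟨le_rfl, h01⟩
  have m1 : (1 : ℝ) ∈ Icc (0 : ℝ) 1 := ⟨h01, le_rfl⟩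
  have key : ∀ s ∈ Icc (0 : ℝ) 1, ∃ m : ℤ, f s = f 0 + m * (2 * Real.pi * I) := by
    intro s hs
    have : exp (f s) = exp (f 0) := by rw [h s hs, h 0 m0]
    exact Complex.exp_eq_exp_iff_exists_int.1 this
  have keyim : ∀ s ∈ Icc (0 : ℝ) 1, ∃ m : ℤ, (f s).im = (f 0).im + m * (2 * Real.pi) := by
    intro s hs
    obtain ⟨m, hm⟩ := key s hs
    refine ⟨m, ?_⟩
    rw [hm]
    simp
  have hg : ContinuousOn (fun s => (f s).im) (Icc 0 1) :=
    Complex.continuous_im.comp_continuousOn hf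
  obtain ⟨n, hn⟩ := key 1 m1
  have hnim : (f 1).im = (f 0).im + n * (2 * Real.pi) := by
    rw [hn]; simp
  have hpi := Real.pi_pos
  rcases lt_trichotomy n 0 with hlt | heq | hgt
  · exfalso
    have hn1 : (n : ℝ) ≤ -1 := by exact_mod_cast Int.le_sub_one_of_lt hlt
    have hmem : (f 0).im - Real.pi ∈ Icc ((fun s => (f s).im) 1) ((fun s => (f s).im) 0) := by
      constructor
      · show (f 1).im ≤ _
        rw [hnim]; nlinarith
      · show _ ≤ (f 0).im
        linarith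
    obtain ⟨s, hs, hs2⟩ := intermediate_value_Icc' h01 hg hmem
    obtain ⟨m, hm⟩ := keyim s hs
    have h3 : (f s).im = (f 0).im - Real.pi := hs2
    rw [h3] at hm
    have h4 : (2 * (m : ℝ) + 1) * Real.pi = 0 := by linarith
    rcases mul_eq_zero.1 h4 with h5 | h5
    · have h6 : (2 * m + 1 : ℤ) = 0 := by exact_mod_cast h5
      omega
    · exact hpi.ne' h5
  · rw [hn, heq]; simp
  · exfalso
    have hn1 : (1 : ℝ) ≤ n := by exact_mod_cast hgt
    have hmem : (f 0).im + Real.pi ∈ Icc ((fun s => (f s).im) 0) ((fun s => (f s).im) 1) := by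
      constructor
      · show (f 0).im ≤ _
        linarith
      · show _ ≤ (f 1).im
        rw [hnim]; nlinarith
    obtain ⟨s, hs, hs2⟩ := intermediate_value_Icc h01 hg hmem
    obtain ⟨m, hm⟩ := keyim s hs
    have h3 : (f s).im = (f 0).im + Real.pi := hs2
    rw [h3] at hm
    have h4 : (2 * (m : ℝ) - 1) * Real.pi = 0 := by linarith
    rcases mul_eq_zero.1 h4 with h5 | h5
    · have h6 : (2 * m - 1 : ℤ) = 0 := by exact_mod_cast h5
      omega
    · exact hpi.ne' h5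

private lemma one_add_slit {z : ℂ} (h : ‖z‖ < 1) : 1 + z ∈ slitPlane := by
  left
  have := Complex.abs_re_le_norm z
  have h2 := (abs_lt.1 (lt_of_le_of_lt this h)).1
  simp only [add_re, one_re]
  linarith

private lemma one_add_ne {z : ℂ} (h : ‖z‖ < 1) : 1 + z ≠ 0 :=
  slitPlane_ne_zero (one_add_slit h)

/-- WIND. -/
theorem p_WIND : T_WIND := by
  intro C P ell hC hP hell hexp hC01 hne hlo hhi
  have h01 : (0 : ℝ) ≤ 1 := zero_le_one
  have m0 : (0 : ℝ) ∈ Icc (0 : ℝ) 1 := ⟨le_rfl, h01⟩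
  have m1 : (1 : ℝ) ∈ Icc (0 : ℝ) 1 := ⟨h01, le_rfl⟩
  -- positive distance
  obtain ⟨m, hm0, hm⟩ : ∃ m : ℝ, 0 < m ∧ ∀ s ∈ Icc (0 : ℝ) 1, ∀ t ∈ Icc (0 : ℝ) 1,
      m ≤ ‖C s - P t‖ := by
    have hcomp : IsCompact (Icc (0 : ℝ) 1 ×ˢ Icc (0 : ℝ) 1) := isCompact_Icc.prod isCompact_Icc
    have hcont : ContinuousOn (fun q : ℝ × ℝ => ‖C q.1 - P q.2‖)
        (Icc (0 : ℝ) 1 ×ˢ Icc (0 : ℝ) 1) := by
      refine ContinuousOn.norm (ContinuousOn.sub ?_ ?_)
      · exact hC.comp continuousOn_fst fun q hq => hq.1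
      · exact hP.comp continuousOn_snd fun q hq => hq.2
    obtain ⟨q, hq, hmin⟩ := hcomp.exists_isMinOn ⟨(0, 0), ⟨m0, m0⟩⟩ hcont
    refine ⟨‖C q.1 - P q.2‖, norm_pos_iff.2 (sub_ne_zero.2 (hne _ hq.1 _ hq.2)), ?_⟩
    intro s hs t ht
    exact hmin (show ((s, t) : ℝ × ℝ) ∈ Icc (0 : ℝ) 1 ×ˢ Icc (0 : ℝ) 1 from ⟨hs, ht⟩)
  -- uniform continuity of `P`
  have hPu : UniformContinuousOn P (Icc 0 1) :=
    isCompact_Icc.uniformContinuousOn_of_continuous hP
  obtain ⟨δ, hδ, hPδ⟩ := Metric.uniformContinuousOn_iff.1 hPu m hm0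
  obtain ⟨N, hN⟩ := exists_nat_one_div_lt hδ
  have hN1 : (0 : ℝ) < (N : ℝ) + 1 := by positivity
  -- one step
  have step : ∀ t ∈ Icc (0 : ℝ) 1, ∀ t' ∈ Icc (0 : ℝ) 1, dist t' t < δ →
      (∃ L : ℝ → ℂ, ContinuousOn L (Icc 0 1) ∧ (∀ s ∈ Icc (0 : ℝ) 1, exp (L s) = C s - P t) ∧
        L 1 - L 0 = ell 1 - ell 0) →
      (∃ L : ℝ → ℂ, ContinuousOn L (Icc 0 1) ∧ (∀ s ∈ Icc (0 : ℝ) 1, exp (L s) = C s - P t') ∧
        L 1 - L 0 = ell 1 - ell 0) := by
    rintro t ht t' ht' hd ⟨L, hL, hLe, hL01⟩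
    have hsmall : ∀ s ∈ Icc (0 : ℝ) 1, ‖(P t - P t') / (C s - P t)‖ < 1 := by
      intro s hs
      have h1 : ‖P t - P t'‖ < m := by
        have := hPδ t' ht' t ht hd
        rwa [dist_eq_norm, norm_sub_rev] at this
      have h2 := hm s hs t ht
      rw [norm_div, div_lt_one (lt_of_lt_of_le hm0 h2)]
      linarith
    have hne0 : ∀ s ∈ Icc (0 : ℝ) 1, C s - P t ≠ 0 := fun s hs => sub_ne_zero.2 (hne s hs t ht)
    refine ⟨fun s => L s + Complex.log (1 + (P t - P t') / (C s - P t)), ?_, ?_, ?_⟩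
    · refine hL.add (ContinuousOn.clog ?_ fun s hs => one_add_slit (hsmall s hs))
      exact continuousOn_const.add
        (continuousOn_const.div (hC.sub continuousOn_const) hne0)
    · intro s hs
      rw [exp_add, hLe s hs, exp_log (one_add_ne (hsmall s hs)), mul_add, mul_one,
        mul_div_cancel₀ _ (hne0 s hs)]
      ring
    · simp only [← hC01]
      linear_combination hL01
  have all : ∀ i : ℕ, i ≤ N + 1 →
      (∃ L : ℝ → ℂ, ContinuousOn L (Icc 0 1) ∧
        (∀ s ∈ Icc (0 : ℝ) 1, exp (L s) = C s - P ((i : ℝ) / (N + 1))) ∧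
        L 1 - L 0 = ell 1 - ell 0) := by
    intro i
    induction i with
    | zero =>
      intro _
      have hCne : ∀ s ∈ Icc (0 : ℝ) 1, C s ≠ 0 := fun s hs => by
        rw [← hexp s hs]; exact exp_ne_zero _
      have hsmall : ∀ s ∈ Icc (0 : ℝ) 1, ‖-(P 0 / C s)‖ < 1 := by
        intro s hs
        rw [norm_neg, norm_div, div_lt_one (norm_pos_iff.2 (hCne s hs))]
        exact hlo s hs
      refine ⟨fun s => ell s + Complex.log (1 + -(P 0 / C s)), ?_, ?_, ?_⟩
      · refine hell.add (ContinuousOn.clog ?_ fun s hs => one_add_slit (hsmall s hs))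
        exact continuousOn_const.add ((continuousOn_const.div hC hCne).neg)
      · intro s hs
        rw [exp_add, hexp s hs, exp_log (one_add_ne (hsmall s hs)), mul_add, mul_one, mul_neg,
          mul_div_cancel₀ _ (hCne s hs)]
        simp [sub_eq_add_neg]
      · simp only [← hC01]
        ring
    | succ i ih =>
      intro hi
      have hi' : i ≤ N + 1 := by omega
      have hiR : (i : ℝ) + 1 ≤ N + 1 := by exact_mod_cast hi
      have hi0 : (0 : ℝ) ≤ i := Nat.cast_nonneg i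
      refine step ((i : ℝ) / (N + 1)) ?_ (((i + 1 : ℕ) : ℝ) / (N + 1)) ?_ ?_ (ih hi')
      · exact ⟨by positivity, by rw [div_le_one hN1]; linarith⟩
      · exact ⟨by positivity, by rw [div_le_one hN1]; push_cast; linarith⟩
      · rw [Real.dist_eq, ← sub_div]
        push_cast
        rw [add_sub_cancel_left, abs_of_pos (by positivity)]
        exact hN
  obtain ⟨L, hL, hLe, hL01⟩ := all (N + 1) le_rfl
  have hone : (((N + 1 : ℕ) : ℝ)) / (N + 1) = 1 := by
    push_cast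
    exact div_self hN1.ne'
  rw [hone] at hLe
  -- the last point
  have hP1 : P 1 ≠ 0 := by
    have h1 := hhi 0 m0
    have h2 : 0 < ‖P 1‖ := lt_of_le_of_lt (norm_nonneg _) h1
    exact norm_pos_iff.1 h2
  have hsmall : ∀ s ∈ Icc (0 : ℝ) 1, ‖-(C s / P 1)‖ < 1 := by
    intro s hs
    rw [norm_neg, norm_div, div_lt_one (norm_pos_iff.2 hP1)]
    exact hhi s hs
  have hfin := exp_const (fun s => L s - Complex.log (1 + -(C s / P 1)))
    (hL.sub (ContinuousOn.clog (continuousOn_const.add ((hC.div_const _).neg))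
      fun s hs => one_add_slit (hsmall s hs))) (-P 1) (by
      intro s hs
      have hx := one_add_ne (hsmall s hs)
      show exp (L s - Complex.log (1 + -(C s / P 1))) = -P 1
      rw [exp_sub, hLe s hs, exp_log hx, div_eq_iff hx, mul_add, mul_one, mul_neg, neg_mul,
        mul_div_cancel₀ _ hP1]
      ring)
  simp only [← hC01] at hfin
  have h5 : L 1 = L 0 := by linear_combination hfin
  have h6 : ell 1 - ell 0 = 0 := by rw [← hL01, h5, sub_self]
  exact sub_eq_zero.1 h6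

end Pool.Agent.PLim
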