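import Pool.Agent.PLim.Targets

/-!
# WL: the label depends only on the angle
-/

set_option autoImplicit false

open Filter Topology

namespace Pool.Agent.PLim

namespace WL_

/-- distance to the nearest integer -/
noncomputable def dz (x : ℝ) : ℝ := |x - round x|

theorem dz_le (x : ℝ) (m : ℤ) : dz x ≤ |x - m| := round_le x m

theorem dz_nonneg (x : ℝ) : 0 ≤ dz x := abs_nonneg _

theorem dz_le_half (x : ℝ) : dz x ≤ 1 / 2 := abs_sub_round x

theorem dz_pos {x : ℝ} (h : ¬ IsInt x) : 0 < dz x := by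
  refine lt_of_le_of_ne (dz_nonneg x) fun h0 => h ⟨round x, ?_⟩
  have := abs_eq_zero.mp h0.symm
  linarith

theorem dz_add_int (x : ℝ) (m : ℤ) : dz (x + m) = dz x := by
  unfold dz
  rw [round_add_intCast]
  push_cast
  congr 1
  ring

theorem isInt_add {x : ℝ} (m : ℤ) : IsInt (x + m) ↔ IsInt x := by
  constructor
  · rintro ⟨a, ha⟩
    exact ⟨a - m, by push_cast; linarith⟩
  · rintro ⟨a, ha⟩
    exact ⟨a + m, by push_cast; linarith⟩

theorem IsInt.natmul {x : ℝ} (h : IsInt x) (m : ℕ) : IsInt ((m : ℝ) * x) := by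
  obtain ⟨a, ha⟩ := h
  exact ⟨m * a, by rw [ha]; push_cast; ring⟩

theorem IsInt.sub' {x y : ℝ} (h : IsInt x) (h' : IsInt y) : IsInt (x - y) := by
  obtain ⟨a, ha⟩ := h
  obtain ⟨b, hb⟩ := h'
  exact ⟨a - b, by rw [ha, hb]; push_cast; ring⟩

theorem IsInt.neg' {x : ℝ} (h : IsInt x) : IsInt (-x) := by
  obtain ⟨a, ha⟩ := h
  exact ⟨-a, by rw [ha]; push_cast; ring⟩

/-- the orbit -/
noncomputable def X (n : ℕ) (α : ℝ) (t : ℕ) : ℝ := (n : ℝ) ^ t * α

variable {n k q : ℕ} {α : ℝ}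

theorem X_period (h : Ex n k q α) (t : ℕ) : IsInt (X n α (t + k * q) - X n α t) := by
  have h1 := IsInt.natmul h.2.1 (n ^ t)
  have e : ((n ^ t : ℕ) : ℝ) * (((n : ℝ) ^ (k * q) - 1) * α) =
      X n α (t + k * q) - X n α t := by
    unfold X
    push_cast
    rw [pow_add]
    ring
  rwa [e] at h1

theorem X_period_mul (h : Ex n k q α) (t m : ℕ) :
    IsInt (X n α (t + m * (k * q)) - X n α t) := by
  induction m with
  | zero => exact ⟨0, by simp⟩
  | succ m ih =>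
    obtain ⟨a, ha⟩ := ih
    obtain ⟨b, hb⟩ := X_period h (t + m * (k * q))
    refine ⟨a + b, ?_⟩
    rw [show t + (m + 1) * (k * q) = t + m * (k * q) + k * q by ring]
    push_cast
    linarith

theorem not_int (hn : 2 ≤ n) (hk : 1 ≤ k) (hq : 2 ≤ q) (h : Ex n k q α) (u : ℕ) :
    ¬ IsInt (X n α (u + k) - X n α u) := by
  intro hI
  apply h.2.2 1 le_rfl (by omega)
  rw [mul_one]
  -- multiply by a power of `n`
  obtain ⟨m, hm⟩ : ∃ m, u + m = (u + 1) * (k * q) := by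
    have h1 : 1 ≤ k * q := Nat.one_le_iff_ne_zero.mpr (by positivity)
    refine ⟨(u + 1) * (k * q) - u, ?_⟩
    have h2 : (u + 1) * 1 ≤ (u + 1) * (k * q) := Nat.mul_le_mul_left _ h1
    omega
  have h1 := IsInt.natmul hI (n ^ m)
  have e : ((n ^ m : ℕ) : ℝ) * (X n α (u + k) - X n α u) =
      X n α (k + (u + 1) * (k * q)) - X n α (0 + (u + 1) * (k * q)) := by
    unfold X
    rw [← hm]
    push_cast
    rw [show k + (u + m) = m + (u + k) by ring, show 0 + (u + m) = m + u by ring, pow_add,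
      pow_add (n : ℝ) m u]
    ring
  rw [e] at h1
  obtain ⟨a, ha⟩ := X_period_mul h k (u + 1)
  obtain ⟨b, hb⟩ := X_period_mul h 0 (u + 1)
  obtain ⟨c, hc⟩ := h1
  refine ⟨c - a + b, ?_⟩
  have e2 : ((n : ℝ) ^ k - 1) * α = X n α k - X n α 0 := by
    unfold X
    rw [pow_zero]
    ring
  rw [e2]
  push_cast
  linarith

/-- the shortest pair -/
theorem exists_min (hn : 2 ≤ n) (hk : 1 ≤ k) (hq : 2 ≤ q) (h : Ex n k q α) :
    ∃ s t : ℕ, 1 ≤ s ∧ 1 ≤ t ∧ s % k = t % k ∧ ∃ l : ℝ, 0 < l ∧ l ≤ 1 / 2 ∧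
      IsInt (X n α t - (X n α s + l)) ∧
      ∀ a b : ℕ, a % k = b % k → ¬ IsInt (X n α a - X n α b) → l ≤ dz (X n α a - X n α b) := by
  classical
  let S : Finset (ℕ × ℕ) := ((Finset.Icc 1 (k * q)) ×ˢ (Finset.Icc 1 (k * q))).filter
    (fun p => p.1 % k = p.2 % k ∧ ¬ IsInt (X n α p.1 - X n α p.2))
  have hkq : 1 + k ≤ k * q := by nlinarith
  have hne : S.Nonempty := by
    refine ⟨(1 + k, 1), ?_⟩
    simp only [S, Finset.mem_filter, Finset.mem_product, Finset.mem_Icc]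
    refine ⟨⟨⟨by omega, hkq⟩, ⟨le_rfl, by omega⟩⟩, by simp, not_int hn hk hq h 1⟩
  obtain ⟨p, hp, hmin⟩ := Finset.exists_min_image S
    (fun p => dz (X n α p.1 - X n α p.2)) hne
  simp only [S, Finset.mem_filter, Finset.mem_product, Finset.mem_Icc] at hp
  obtain ⟨⟨⟨hp1, -⟩, ⟨hp2, -⟩⟩, hpk, hpI⟩ := hp
  set l := dz (X n α p.1 - X n α p.2) with hl
  have hl0 : 0 < l := dz_pos hpI
  have hmin' : ∀ a b : ℕ, a % k = b % k → ¬ IsInt (X n α a - X n α b) →
      l ≤ dz (X n α a - X n α b) := by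
    -- reduction to representatives
    have hred : ∀ a : ℕ, ∃ a' ∈ Finset.Icc 1 (k * q), a' % k = a % k ∧
        IsInt (X n α a - X n α a') := by
      intro a
      have hkq0 : 0 < k * q := by positivity
      refine ⟨(a + (k * q - 1)) % (k * q) + 1, ?_, ?_, ?_⟩
      · rw [Finset.mem_Icc]
        have := Nat.mod_lt (a + (k * q - 1)) hkq0
        omega
      · have h1 : ((a + (k * q - 1)) % (k * q)) % k = (a + (k * q - 1)) % k :=
          Nat.mod_mul_right_mod _ _ _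
        rw [Nat.add_mod, h1, ← Nat.add_mod, show a + (k * q - 1) + 1 = a + k * q by omega,
          Nat.add_mul_mod_self_left]
      · have h2 := Nat.div_add_mod (a + (k * q - 1)) (k * q)
        set r := (a + (k * q - 1)) % (k * q)
        set m := (a + (k * q - 1)) / (k * q)
        have h3 : a + k * q = (r + 1) + m * (k * q) := by
          have : k * q * m = m * (k * q) := by ring
          omega
        obtain ⟨u, hu⟩ := X_period h a
        obtain ⟨v, hv⟩ := X_period_mul h (r + 1) m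
        rw [← h3] at hv
        exact ⟨v - u, by push_cast; linarith⟩
    intro a b hab hI
    obtain ⟨a', ha', hak, u, hu⟩ := hred a
    obtain ⟨b', hb', hbk, v, hv⟩ := hred b
    have e : X n α a - X n α b = X n α a' - X n α b' + ((u - v : ℤ) : ℝ) := by
      push_cast
      linarith
    rw [e, dz_add_int]
    rw [e, isInt_add] at hI
    refine hmin (a', b') ?_
    simp only [S, Finset.mem_filter, Finset.mem_product]
    exact ⟨⟨ha', hb'⟩, by rw [hak, hbk, hab], hI⟩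
  set y := X n α p.1 - X n α p.2 with hy
  rcases le_total 0 (y - round y) with hsgn | hsgn
  · refine ⟨p.2, p.1, hp2, hp1, hpk.symm, l, hl0, dz_le_half _, ⟨round y, ?_⟩, hmin'⟩
    have : l = y - round y := abs_of_nonneg hsgn
    rw [this, hy]
    ring
  · refine ⟨p.1, p.2, hp1, hp2, hpk, l, hl0, dz_le_half _, ⟨-round y, ?_⟩, hmin'⟩
    have : l = -(y - round y) := abs_of_nonpos hsgn
    rw [this, hy]
    push_cast
    ring

theorem per_mod {ε : ℕ → ℤ} (hε : Per k ε) {s t : ℕ} (h : s % k = t % k) : ε s = ε t := by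
  have key : ∀ r m : ℕ, ε (r + k * m) = ε r := by
    intro r m
    induction m with
    | zero => simp
    | succ m ih => rw [show r + k * (m + 1) = (r + k * m) + k by ring, hε, ih]
  rw [← Nat.mod_add_div s k, ← Nat.mod_add_div t k, key, key, h]

/-- Claim 1: the cut lies in the arc of the shortest pair. -/
theorem claim1 (hn : 2 ≤ n) {s t : ℕ} (hs : 1 ≤ s) (ht : 1 ≤ t) (hst : s % k = t % k) {l : ℝ}
    (hl0 : 0 < l) (hl2 : l ≤ 1 / 2) (hint : IsInt (X n α t - (X n α s + l)))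
    (hmin : ∀ a b : ℕ, a % k = b % k → ¬ IsInt (X n α a - X n α b) →
      l ≤ dz (X n α a - X n α b)) {θ : ℝ} {ε : ℕ → ℤ} (hC : Cod n θ α ε) (hP : Per k ε) :
    ∃ m : ℤ, X n α s < θ + m ∧ θ + m < X n α s + l := by
  obtain ⟨s', rfl⟩ : ∃ s', s = s' + 1 := ⟨s - 1, by omega⟩
  obtain ⟨t', rfl⟩ : ∃ t', t = t' + 1 := ⟨t - 1, by omega⟩
  have hst' : s' % k = t' % k := Nat.ModEq.add_right_cancel' 1 hst
  have hn' : (2 : ℝ) ≤ n := by exact_mod_cast hn
  have hd : (n : ℤ) ∣ ⌊X n α (t' + 1) - θ⌋ - ⌊X n α (s' + 1) - θ⌋ := by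
    have h1 := hC.2 s'
    have h2 := hC.2 t'
    rw [per_mod hP hst'] at h1
    have := dvd_sub h2 h1
    simpa [X] using this
  obtain ⟨j, hj⟩ := hd
  obtain ⟨N, hN⟩ := hint
  have eX : ∀ u, X n α (u + 1) = n * X n α u := by
    intro u; unfold X; rw [pow_succ]; ring
  -- the pair one step before
  have hI : ¬ IsInt (X n α s' - X n α t') := by
    intro h
    have h1 := IsInt.natmul h n
    rw [mul_sub, ← eX, ← eX] at h1
    obtain ⟨c, hc⟩ := h1
    have h2 : l = ((-N - c : ℤ) : ℝ) := by push_cast; linarith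
    have h3 : (0 : ℝ) < ((-N - c : ℤ) : ℝ) := by rw [← h2]; exact hl0
    have h4 : ((-N - c : ℤ) : ℝ) < 1 := by rw [← h2]; linarith
    have h5 : (0 : ℤ) < -N - c := by exact_mod_cast h3
    have h6 : -N - c < (1 : ℤ) := by exact_mod_cast h4
    omega
  have h1 : l ≤ |X n α s' - X n α t' + j| := by
    refine (hmin s' t' hst' hI).trans ?_
    have := dz_le (X n α s' - X n α t') (-j)
    push_cast at this
    rwa [sub_neg_eq_add] at this
  -- `D = n (a - b')`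
  have hD : X n α (s' + 1) - X n α (t' + 1) + n * j = n * (X n α s' - X n α t' + j) := by
    rw [eX, eX]; ring
  have h2 : 2 * l ≤ |X n α (s' + 1) - X n α (t' + 1) + n * j| := by
    rw [hD, abs_mul, abs_of_nonneg (by linarith : (0 : ℝ) ≤ n)]
    exact mul_le_mul hn' h1 hl0.le (by linarith)
  have h3 : |X n α (s' + 1) - X n α (t' + 1) + n * j| < 1 := by
    have f1 := Int.floor_le (X n α (s' + 1) - θ)
    have f2 := Int.lt_floor_add_one (X n α (s' + 1) - θ)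
    have f3 := Int.floor_le (X n α (t' + 1) - θ)
    have f4 := Int.lt_floor_add_one (X n α (t' + 1) - θ)
    have f5 : (⌊X n α (t' + 1) - θ⌋ : ℝ) = ⌊X n α (s' + 1) - θ⌋ + n * j := by
      have : ⌊X n α (t' + 1) - θ⌋ = ⌊X n α (s' + 1) - θ⌋ + n * j := by linarith
      exact_mod_cast this
    rw [abs_lt]
    constructor <;> linarith
  -- the difference is `1 - l`
  have h4 : X n α (s' + 1) - X n α (t' + 1) + n * j = 1 - l := by
    have e : X n α (s' + 1) - X n α (t' + 1) + n * j = ((n * j - N : ℤ) : ℝ) - l := by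
      push_cast; linarith
    rw [e] at h2 h3 ⊢
    have g1 := (abs_lt.mp h3).1
    have g2 := (abs_lt.mp h3).2
    have g3 : (-1 : ℝ) < ((n * j - N : ℤ) : ℝ) := by linarith
    have g4 : ((n * j - N : ℤ) : ℝ) < 2 := by linarith
    have g5 : (-1 : ℤ) < n * j - N := by exact_mod_cast g3
    have g6 : n * j - N < (2 : ℤ) := by exact_mod_cast g4
    have g7 : n * j - N = 0 ∨ n * j - N = 1 := by omega
    rcases g7 with g7 | g7
    · rw [g7] at h2
      rw [Int.cast_zero, zero_sub, abs_neg, abs_of_pos hl0] at h2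
      linarith
    · rw [g7]; simp
  -- conclusion
  have f1 := Int.floor_le (X n α (s' + 1) - θ)
  have f2 := Int.lt_floor_add_one (X n α (s' + 1) - θ)
  have f3 := Int.floor_le (X n α (t' + 1) - θ)
  have f5 : (⌊X n α (t' + 1) - θ⌋ : ℝ) = ⌊X n α (s' + 1) - θ⌋ + n * j := by
    have : ⌊X n α (t' + 1) - θ⌋ = ⌊X n α (s' + 1) - θ⌋ + n * j := by linarith
    exact_mod_cast this
  refine ⟨⌊X n α (s' + 1) - θ⌋ + 1, by push_cast; linarith, ?_⟩
  refine lt_of_le_of_ne (by push_cast; linarith) fun he => ?_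
  apply hC.1 (t' + 1) (by omega)
  refine ⟨N + (⌊X n α (s' + 1) - θ⌋ + 1), ?_⟩
  change X n α (t' + 1) - θ = _
  push_cast at he ⊢
  linarith

/-- Claim 2, for `ϑ₁ ≤ ϑ₂`. -/
theorem claim2 (hn : 2 ≤ n) (hk : 1 ≤ k) (hq : 2 ≤ q) (hE : Ex n k q α) {l : ℝ}
    (hl2 : l ≤ 1 / 2)
    (hmin : ∀ a b : ℕ, a % k = b % k → ¬ IsInt (X n α a - X n α b) →
      l ≤ dz (X n α a - X n α b)) {θ₁ θ₂ : ℝ} {ε₁ ε₂ : ℕ → ℤ} (hC₁ : Cod n θ₁ α ε₁)
    (hP₁ : Per k ε₁) (hC₂ : Cod n θ₂ α ε₂) (hP₂ : Per k ε₂) {m₁ m₂ : ℤ}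
    (hle : θ₁ + m₁ ≤ θ₂ + m₂) (hlt : θ₂ + m₂ < θ₁ + m₁ + l) (u : ℕ) :
    ⌊X n α (u + 1) - (θ₁ + m₁)⌋ = ⌊X n α (u + 1) - (θ₂ + m₂)⌋ := by
  have hD : ∀ v : ℕ, ⌊X n α (v + 1) - (θ₁ + m₁)⌋ = ⌊X n α (v + 1) - (θ₂ + m₂)⌋ ∨
      ⌊X n α (v + 1) - (θ₁ + m₁)⌋ = ⌊X n α (v + 1) - (θ₂ + m₂)⌋ + 1 := by
    intro v
    have h1 : ⌊X n α (v + 1) - (θ₂ + m₂)⌋ ≤ ⌊X n α (v + 1) - (θ₁ + m₁)⌋ :=
      Int.floor_le_floor (by linarith)
    have h2 : ⌊X n α (v + 1) - (θ₁ + m₁)⌋ ≤ ⌊X n α (v + 1) - (θ₂ + m₂) + 1⌋ :=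
      Int.floor_le_floor (by linarith)
    rw [Int.floor_add_one] at h2
    omega
  have hdig : ∀ v : ℕ, (n : ℤ) ∣ (⌊X n α (v + 1) - (θ₁ + m₁)⌋ -
      ⌊X n α (v + 1) - (θ₂ + m₂)⌋) - (ε₁ v - ε₂ v - m₁ + m₂) := by
    intro v
    have h1 := hC₁.2 v
    have h2 := hC₂.2 v
    have e1 : ⌊X n α (v + 1) - (θ₁ + m₁)⌋ = ⌊(n : ℝ) ^ (v + 1) * α - θ₁⌋ - m₁ := by
      rw [← Int.floor_sub_intCast]
      unfold X
      congr 1
      ring
    have e2 : ⌊X n α (v + 1) - (θ₂ + m₂)⌋ = ⌊(n : ℝ) ^ (v + 1) * α - θ₂⌋ - m₂ := by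
      rw [← Int.floor_sub_intCast]
      unfold X
      congr 1
      ring
    have := dvd_sub h1 h2
    rw [e1, e2]
    convert! this using 1
    ring
  rcases hD u with h | h
  · exact h
  · exfalso
    have h' : ⌊X n α (u + k + 1) - (θ₁ + m₁)⌋ = ⌊X n α (u + k + 1) - (θ₂ + m₂)⌋ + 1 := by
      have h1 := hdig u
      have h2 := hdig (u + k)
      rw [hP₁ u, hP₂ u] at h2
      have h3 := dvd_sub h1 h2
      rcases hD (u + k) with h4 | h4
      · exfalso
        rw [h4, h] at h3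
        have h5 : (n : ℤ) ∣ 1 := by
          convert! h3 using 1
          ring
        have h6 := Int.le_of_dvd one_pos h5
        omega
      · exact h4
    have a1 := Int.floor_le (X n α (u + 1) - (θ₁ + m₁))
    have a2 := Int.lt_floor_add_one (X n α (u + 1) - (θ₂ + m₂))
    have b1 := Int.floor_le (X n α (u + k + 1) - (θ₁ + m₁))
    have b2 := Int.lt_floor_add_one (X n α (u + k + 1) - (θ₂ + m₂))
    rw [h] at a1
    rw [h'] at b1
    push_cast at a1 b1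
    have hI : ¬ IsInt (X n α (u + 1 + k) - X n α (u + 1)) := not_int hn hk hq hE (u + 1)
    rw [show u + 1 + k = u + k + 1 by ring] at hI
    have h5 := hmin (u + k + 1) (u + 1)
      (by rw [show u + k + 1 = u + 1 + k by ring, Nat.add_mod_right]) hI
    have h6 := dz_le (X n α (u + k + 1) - X n α (u + 1))
      (⌊X n α (u + k + 1) - (θ₂ + m₂)⌋ - ⌊X n α (u + 1) - (θ₂ + m₂)⌋)
    have h7 : |X n α (u + k + 1) - X n α (u + 1) -
        ((⌊X n α (u + k + 1) - (θ₂ + m₂)⌋ - ⌊X n α (u + 1) - (θ₂ + m₂)⌋ : ℤ) : ℝ)| < l := by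
      rw [abs_lt]
      push_cast
      constructor <;> linarith
    linarith

/-- The main part, for `ϑ₁ ≤ ϑ₂`. -/
theorem main (hR : T_RINV) (hRP : T_RP) (hn : 2 ≤ n) (hk : 1 ≤ k) (hq : 2 ≤ q)
    (hE : Ex n k q α) {l : ℝ} (hl2 : l ≤ 1 / 2)
    (hmin : ∀ a b : ℕ, a % k = b % k → ¬ IsInt (X n α a - X n α b) →
      l ≤ dz (X n α a - X n α b)) {θ₁ θ₂ : ℝ} {ε₁ ε₂ : ℕ → ℤ} (hC₁ : Cod n θ₁ α ε₁)
    (hP₁ : Per k ε₁) (hC₂ : Cod n θ₂ α ε₂) (hP₂ : Per k ε₂) {m₁ m₂ : ℤ}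
    (hle : θ₁ + m₁ ≤ θ₂ + m₂) (hlt : θ₂ + m₂ < θ₁ + m₁ + l) :
    lab n k θ₁ ε₁ = lab n k θ₂ ε₂ := by
  have hfl := claim2 hn hk hq hE hl2 hmin hC₁ hP₁ hC₂ hP₂ hle hlt
  -- shifting by integers
  have shift1 : ∀ (m : ℕ) (θ : ℝ) (ε : ℕ → ℤ),
      lab n k (θ + m) ε = lab n k θ (fun t => ε t + m) := by
    intro m
    induction m with
    | zero => intro θ ε; simp
    | succ m ih =>
      intro θ ε
      have h1 := (hR n k ε (θ + m) hn hk).2.2.1.1
      rw [show θ + ((m + 1 : ℕ) : ℝ) = θ + m + 1 by push_cast; ring, h1, ih]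
      congr 1
      funext t
      push_cast
      ring
  have shift : ∀ (m : ℤ) (θ : ℝ) (ε : ℕ → ℤ),
      lab n k θ ε = lab n k (θ + m) (fun t => ε t - m) := by
    intro m θ ε
    obtain ⟨a, rfl | rfl⟩ := m.eq_nat_or_neg
    · have := shift1 a θ (fun t => ε t - a)
      push_cast
      rw [this]
      congr 1
      funext t
      ring
    · have := shift1 a (θ - a) ε
      rw [sub_add_cancel] at this
      rw [this]
      push_cast
      rw [← sub_eq_add_neg]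
      congr 1
      funext t
      ring
  rw [shift m₁ θ₁ ε₁, shift m₂ θ₂ ε₂]
  set η : ℕ → ℤ := fun t => ε₁ t - m₁ with hη
  -- digits
  have hdig : ∀ v : ℕ, (n : ℤ) ∣ ⌊X n α (v + 1) - (θ₁ + m₁)⌋ - η v := by
    intro v
    have h1 := hC₁.2 v
    have e1 : ⌊X n α (v + 1) - (θ₁ + m₁)⌋ = ⌊(n : ℝ) ^ (v + 1) * α - θ₁⌋ - m₁ := by
      rw [← Int.floor_sub_intCast]
      unfold X
      congr 1
      ring
    rw [e1, hη]
    convert! h1 using 1
    ring
  have hdig2 : ∀ v : ℕ, (n : ℤ) ∣ ⌊X n α (v + 1) - (θ₂ + m₂)⌋ - (ε₂ v - m₂) := by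
    intro v
    have h1 := hC₂.2 v
    have e1 : ⌊X n α (v + 1) - (θ₂ + m₂)⌋ = ⌊(n : ℝ) ^ (v + 1) * α - θ₂⌋ - m₂ := by
      rw [← Int.floor_sub_intCast]
      unfold X
      congr 1
      ring
    rw [e1]
    convert! h1 using 1
    ring
  have hηP : Per k η := by
    intro t
    simp only [hη]
    rw [hP₁ t]
  have e2 : lab n k (θ₂ + m₂) (fun t => ε₂ t - m₂) = lab n k (θ₂ + m₂) η := by
    refine ((hR n k η (θ₂ + m₂) hn hk).2.1 _ fun t => ?_).1
    have h1 := hdig t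
    have h2 := hdig2 t
    rw [hfl t] at h1
    have := dvd_sub h2 h1
    convert! this using 1
    ring
  rw [e2]
  -- no integer rotation number on the segment
  have hseg : ∀ θ ∈ Set.Icc (θ₁ + m₁) (θ₂ + m₂), ¬ IsInt (Rot n k θ η) := by
    intro θ hθ
    have hfl2 : ∀ v : ℕ, ⌊X n α (v + 1) - θ⌋ = ⌊X n α (v + 1) - (θ₁ + m₁)⌋ := by
      intro v
      apply le_antisymm
      · exact Int.floor_le_floor (by linarith [hθ.1])
      · rw [hfl v]
        exact Int.floor_le_floor (by linarith [hθ.2])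
    have hcod : Cod n θ α η := by
      refine ⟨?_, ?_⟩
      · rintro t ht ⟨N, hN⟩
        obtain ⟨t', rfl⟩ : ∃ t', t = t' + 1 := ⟨t - 1, by omega⟩
        change X n α (t' + 1) - θ = N at hN
        have h1 : ⌊X n α (t' + 1) - θ⌋ = N := by rw [hN, Int.floor_intCast]
        have h2 : ⌊X n α (t' + 1) - (θ₂ + m₂)⌋ = N := by rw [← hfl, ← hfl2, h1]
        have h3 := Int.floor_le (X n α (t' + 1) - (θ₂ + m₂))
        rw [h2] at h3
        have h4 : θ = θ₂ + m₂ := le_antisymm hθ.2 (by linarith)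
        apply hC₂.1 (t' + 1) (by omega)
        refine ⟨N + m₂, ?_⟩
        change X n α (t' + 1) - θ₂ = _
        push_cast
        linarith
      · intro t
        have := hdig t
        rw [← hfl2 t] at this
        exact this
    have := (hRP n k q θ α η hn hk hE hcod hηP).2
    intro hI
    have := this.mp hI
    omega
  letI : TopologicalSpace (Label n k) := ⊥
  haveI : DiscreteTopology (Label n k) := ⟨rfl⟩
  refine (isPreconnected_Icc (a := θ₁ + m₁) (b := θ₂ + m₂)).constant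
    (f := fun θ => lab n k θ η) ?_ (Set.left_mem_Icc.mpr hle) (Set.right_mem_Icc.mpr hle)
  intro θ hθ
  apply ContinuousAt.continuousWithinAt
  have h1 := (hR n k η θ hn hk).2.2.2 (hseg θ hθ)
  have h2 : (fun θ' => lab n k θ' η) =ᶠ[𝓝 θ] fun _ => lab n k θ η :=
    h1.mono fun θ' h => h.2
  exact continuousAt_const.congr h2.symm

end WL_

open WL_

theorem p_WL (h1 : T_RINV) (h2 : T_RP) : T_WL := by
  intro n k q α θ₁ θ₂ ε₁ ε₂ hn hk hq hE hP₁ hP₂ hC₁ hC₂
  obtain ⟨s, t, hs, ht, hst, l, hl0, hl2, hint, hmin⟩ := exists_min hn hk hq hE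
  obtain ⟨m₁, ha, hb⟩ := claim1 hn hs ht hst hl0 hl2 hint hmin hC₁ hP₁
  obtain ⟨m₂, hc, hd⟩ := claim1 hn hs ht hst hl0 hl2 hint hmin hC₂ hP₂
  rcases le_total (θ₁ + m₁) (θ₂ + m₂) with hle | hle
  · exact main h1 h2 hn hk hq hE hl2 hmin hC₁ hP₁ hC₂ hP₂ hle (by linarith)
  · exact (main h1 h2 hn hk hq hE hl2 hmin hC₂ hP₂ hC₁ hP₁ hle (by linarith)).symm

end Pool.Agent.PLim
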