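import Pool.Agent.PLim.Targets

set_option autoImplicit false

/-!
# WSEG: displacement along one level of a wedge
-/

open Complex Filter Topology Set MeasureTheory
open Pool.Agent.Multibrot Pool.Agent.Limb

namespace Pool.Agent.PLim

namespace WSEG_

/-- the wedge -/
def D (n : ℕ) (t y : ℝ) : Set ℂ :=
  {ξ : ℂ | t / 2 < ξ.re ∧ ξ.re < 2 * n * t ∧ |ξ.im - y| < ξ.re}

/-- the points of the subdivision -/
noncomputable def pt (n : ℕ) (t y : ℝ) (i : ℕ) : ℂ :=
  ((t + i * ((n - 1) * t / (8 * n)) : ℝ) : ℂ) + y * I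

lemma pt_re (n : ℕ) (t y : ℝ) (i : ℕ) : (pt n t y i).re = t + i * ((n - 1) * t / (8 * n)) := by
  unfold pt
  simp only [add_re, ofReal_re, mul_re, I_re, mul_zero, ofReal_im, I_im, mul_one, sub_self,
    add_zero]

lemma pt_im (n : ℕ) (t y : ℝ) (i : ℕ) : (pt n t y i).im = y := by
  unfold pt
  simp only [add_im, ofReal_im, mul_im, I_re, mul_zero, ofReal_re, I_im, mul_one, zero_add,
    add_zero]

lemma ball_sub {n : ℕ} {t y : ℝ} {p : ℂ} (hp : p.im = y) (h1 : t ≤ p.re) (h2 : p.re ≤ n * t)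
    (ht : 0 < t) : Metric.ball p (2 * (p.re / 4)) ⊆ D n t y := by
  intro ξ hξ
  rw [Metric.mem_ball, dist_eq_norm] at hξ
  have hre := (Complex.abs_re_le_norm (ξ - p)).trans_lt hξ
  have him := (Complex.abs_im_le_norm (ξ - p)).trans_lt hξ
  rw [sub_re, abs_lt] at hre
  rw [sub_im, hp] at him
  refine ⟨by linarith [hre.1], ?_, ?_⟩
  · have : 0 < (n : ℝ) * t := ht.trans_le (h1.trans h2)
    linarith [hre.2]
  · refine him.trans ?_
    linarith [hre.1]

end WSEG_

open WSEG_ in
theorem p_WSEG (h1 : T_DISP1) : T_WSEG := by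
  intro n hn
  have hn0 : (2 : ℝ) ≤ n := by exact_mod_cast hn
  refine ⟨(8 * n : ℝ) ^ 2 * (4 / Real.pi), by positivity, ?_⟩
  intro t y f ht hf
  change DifferentiableOn ℂ f (D n t y) at hf
  change _ ≤ _ * ∫⁻ u in D n t y, ‖deriv f u‖ₑ ^ 2
  set J := ∫⁻ u in D n t y, ‖deriv f u‖ₑ ^ 2 with hJ
  set st : ℝ := (n - 1) * t / (8 * n) with hst
  have hst0 : 0 ≤ st := by
    rw [hst]
    have : (0 : ℝ) ≤ n - 1 := by linarith
    positivity
  have hst1 : st < t / 4 := by
    rw [hst, div_lt_iff₀ (by positivity)]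
    nlinarith
  have hend : (8 * n : ℕ) * st = (n - 1) * t := by
    rw [hst]
    push_cast
    field_simp
  have hlo : ∀ i : ℕ, t ≤ (pt n t y i).re := by
    intro i
    rw [pt_re]
    have : (0 : ℝ) ≤ i * st := by positivity
    linarith
  have hhi : ∀ i : ℕ, i ≤ 8 * n → (pt n t y i).re ≤ n * t := by
    intro i hi
    rw [pt_re]
    have hi' : (i : ℝ) ≤ ((8 * n : ℕ) : ℝ) := by exact_mod_cast hi
    have h2 : (i : ℝ) * st ≤ ((8 * n : ℕ) : ℝ) * st := mul_le_mul_of_nonneg_right hi' hst0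
    rw [hend] at h2
    have : t + i * ((n - 1) * t / (8 * n)) = t + i * st := by rw [hst]
    rw [this]
    linarith
  have hdiff : ∀ i : ℕ, pt n t y (i + 1) - pt n t y i = (st : ℂ) := by
    intro i
    unfold pt
    rw [← hst]
    push_cast
    ring
  have step : ∀ i ∈ Finset.range (8 * n),
      ENNReal.ofReal (‖f (pt n t y (i + 1)) - f (pt n t y i)‖ ^ 2) ≤
        ENNReal.ofReal (4 / Real.pi) * J := by
    intro i hi
    rw [Finset.mem_range] at hi
    have hpos : 0 < (pt n t y i).re / 4 := by linarith [hlo i]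
    have hsub := ball_sub (pt_im n t y i) (hlo i) (hhi i hi.le) ht
    have h3 := h1 (pt n t y i) ((pt n t y i).re / 4) f hpos (hf.mono hsub)
      (pt n t y (i + 1)) (by
        rw [Metric.mem_ball, dist_eq_norm, hdiff, Complex.norm_real, Real.norm_of_nonneg hst0]
        linarith [hlo i]) (pt n t y i) (Metric.mem_ball_self hpos)
    refine h3.trans ?_
    gcongr
    exact lintegral_mono_set hsub
  have h0 : pt n t y 0 = (t : ℝ) + y * I := by
    unfold pt
    simp
  have hm : pt n t y (8 * n) = (n * t : ℝ) + y * I := by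
    unfold pt
    rw [← hst, hend]
    congr 2
    ring
  have htel : f ((n * t : ℝ) + y * I) - f ((t : ℝ) + y * I) =
      ∑ i ∈ Finset.range (8 * n), (f (pt n t y (i + 1)) - f (pt n t y i)) := by
    rw [Finset.sum_range_sub (fun i => f (pt n t y i)), h0, hm]
  have hcs : ‖f ((n * t : ℝ) + y * I) - f ((t : ℝ) + y * I)‖ ^ 2 ≤
      (8 * n : ℕ) * ∑ i ∈ Finset.range (8 * n), ‖f (pt n t y (i + 1)) - f (pt n t y i)‖ ^ 2 := by
    rw [htel]
    have h4 := norm_sum_le (Finset.range (8 * n)) (fun i => f (pt n t y (i + 1)) - f (pt n t y i))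
    have h5 := sq_sum_le_card_mul_sum_sq (s := Finset.range (8 * n))
      (f := fun i => ‖f (pt n t y (i + 1)) - f (pt n t y i)‖)
    rw [Finset.card_range] at h5
    refine le_trans ?_ h5
    gcongr
  calc ENNReal.ofReal (‖f ((n * t : ℝ) + y * I) - f ((t : ℝ) + y * I)‖ ^ 2)
      ≤ ENNReal.ofReal ((8 * n : ℕ) *
        ∑ i ∈ Finset.range (8 * n), ‖f (pt n t y (i + 1)) - f (pt n t y i)‖ ^ 2) :=
          ENNReal.ofReal_le_ofReal hcs
    _ = ENNReal.ofReal (8 * n : ℕ) * ∑ i ∈ Finset.range (8 * n),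
        ENNReal.ofReal (‖f (pt n t y (i + 1)) - f (pt n t y i)‖ ^ 2) := by
          rw [ENNReal.ofReal_mul (Nat.cast_nonneg _),
            ENNReal.ofReal_sum_of_nonneg (fun i _ => by positivity)]
    _ ≤ ENNReal.ofReal (8 * n : ℕ) * ∑ i ∈ Finset.range (8 * n),
        (ENNReal.ofReal (4 / Real.pi) * J) := by
          gcongr with i hi
          exact step i hi
    _ = ENNReal.ofReal ((8 * n : ℝ) ^ 2 * (4 / Real.pi)) * J := by
          rw [Finset.sum_const, Finset.card_range, nsmul_eq_mul, ENNReal.ofReal_mul (by positivity),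
            ENNReal.ofReal_natCast, ENNReal.ofReal_pow (by positivity)]
          have : ENNReal.ofReal (8 * n : ℝ) = ((8 * n : ℕ) : ENNReal) := by
            rw [← ENNReal.ofReal_natCast]
            congr 1
            push_cast
            rfl
          rw [this]
          ring

end Pool.Agent.PLim
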