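import Pool.Agent.PLim.Targets2

/-!
# PLIM, ZOP: near a point of the Multibrot set where a `k`-periodic ray lands
-/

set_option autoImplicit false

open Complex Filter Topology Set MeasureTheory
open Pool.Agent.Multibrot Pool.Agent.Limb

namespace Pool.Agent.PLim

/-- Outside the Multibrot set the critical value has a logarithmic Böttcher coordinate. -/
lemma zop_crit (hGREEN : T_GREEN) {n : ℕ} (hn : 2 ≤ n) {Λ : ℂ → ℂ → ℂ} (hB : IsBot n Λ) {c : ℂ}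
    (hc : c ∉ MM n) : ∃ ζ : ℂ, Crit n Λ c ζ ∧ 0 < ζ.re := by
  obtain ⟨-, hnn, -, -, -, hMM, hGc, -⟩ := hGREEN n hn
  have h0 : G n c 0 ≠ 0 := fun h => hc ((hMM c).2 h)
  have h1 : 0 < G n c 0 := lt_of_le_of_ne (hnn c 0) (Ne.symm h0)
  have hn2 : (2 : ℝ) ≤ n := by exact_mod_cast hn
  have h2 : G n c 0 < G n c c := by
    rw [hGc c]
    nlinarith
  obtain ⟨ζ, h3, h4⟩ := hB.surj c c h2
  refine ⟨ζ, ⟨hc, h3, h4⟩, ?_⟩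
  rw [h3]
  linarith

/-- From the digits given by `ST2` to `Cod`. -/
lemma zop_cod (hFIXE : T_FIXE) (hBR : T_BR) {n k : ℕ} (hn : 2 ≤ n) (hk : 1 ≤ k)
    {Λ : ℂ → ℂ → ℂ} {lh ls : ℂ → ℂ → ℂ → ℂ} (hB : IsBot n Λ) (hL : IsLog n Λ lh ls) {c ζ z : ℂ}
    (hcr : Crit n Λ c ζ) (hζ : 0 < ζ.re) (hfix : (F n c)^[k] z = z) {θ α : ℝ} {ε : ℕ → ℤ}
    (hε : ∀ j, Dig n lh c ζ ((F n c)^[j] z) (ε j))
    (h1 : ∀ t : ℕ, 1 ≤ t → ¬ IsInt ((n : ℝ) ^ t * α - θ))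
    (h2 : ∀ t : ℕ, Dig n lh c ζ ((F n c)^[t] z) ⌊(n : ℝ) ^ (t + 1) * α - θ⌋) :
    Cod n θ α ε := by
  refine ⟨h1, fun t => ?_⟩
  obtain ⟨-, -, -, -, hBR5, -, -⟩ := hBR n Λ lh ls c ζ hn hB hL hcr
  have hfixt : (F n c)^[k] ((F n c)^[t] z) = (F n c)^[t] z := by
    rw [← Function.iterate_add_apply, add_comm, Function.iterate_add_apply, hfix]
  have hG := ((hFIXE n k Λ lh ls c ζ hn hk hB hL hcr).2 _ hfixt).2.1
  have hlt : (n : ℝ) * G n c ((F n c)^[t] z) < ζ.re := by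
    rw [hG, mul_zero]
    exact hζ
  exact (hBR5 ((F n c)^[t] z) _ (ε t) hlt (h2 t)).1 (hε t)

theorem p_ZOP (hGREEN : T_GREEN) (hOMC : T_OMC) (hOMX : T_OMX) (hST2 : T_ST2) (hFIXE : T_FIXE)
    (hBR : T_BR) (hRP : T_RP) : T_ZOP := by
  intro n k Λ lh ls c0 z0 hn hk hB hL hc0 hfix hR hZ
  have hO : OmR n k Λ c0 z0 1 := by
    rcases hZ with h | ⟨ζ, ε, hcr, -⟩
    · exact h.2
    · exact absurd hc0 hcr.1
  obtain ⟨C, -, hC⟩ := hOMX n hn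
  obtain ⟨w, hw, hwu, hwq, -⟩ := hC k Λ c0 z0 hk hB hc0 hfix hR
  have hw1 : (1 : ℂ) = w := hwu 1 hO
  have hO' := hO
  obtain ⟨α, q, v, hEx, hLand, hDisp, hexp⟩ := hO'
  have hq : q = 1 := (hwq α q hEx hLand).2 hw1.symm
  subst hq
  obtain ⟨δ₁, hδ₁, hb1⟩ := hOMC n k Λ c0 z0 1 hn hk hB hc0 hfix hR hO
  obtain ⟨δ₂, hδ₂, hb2⟩ := hST2 n k 1 Λ lh ls c0 z0 α hn hk le_rfl hB hL hc0 hEx.2.1 hLand hfix hR
  refine ⟨min δ₁ δ₂, lt_min hδ₁ hδ₂, ?_⟩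
  intro c z hcc hzz hfixc
  by_cases hc : c ∈ MM n
  · left
    exact ⟨hc, hb1 c z hc (lt_of_lt_of_le hcc (min_le_left _ _))
      (lt_of_lt_of_le hzz (min_le_left _ _)) hfixc⟩
  · right
    obtain ⟨ζ, hcr, hζ⟩ := zop_crit hGREEN hn hB hc
    obtain ⟨h1, h2⟩ := hb2 c z ζ (lt_of_lt_of_le hcc (min_le_right _ _))
      (lt_of_lt_of_le hzz (min_le_right _ _)) hfixc hcr
    obtain ⟨-, -, ε, hper, hε⟩ := (hFIXE n k Λ lh ls c ζ hn hk hB hL hcr).2 z hfixc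
    have hcod := zop_cod hFIXE hBR hn hk hB hL hcr hζ hfixc hε h1 h2
    exact ⟨ζ, ε, hcr, hper, hε, ((hRP n k 1 _ α ε hn hk hEx hcod hper).2).2 rfl⟩

end Pool.Agent.PLim
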