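import Pool.Agent.PLim.Targets2

/-!
# PLIM: ZV
-/

set_option autoImplicit false

open Complex Filter Topology Set MeasureTheory
open Pool.Agent.Multibrot Pool.Agent.Limb

namespace Pool.Agent.PLim

theorem p_ZV (hZX : T_ZX) (hOMX : T_OMX) (hBIG : T_BIG) : T_ZV := by
  intro n hn
  obtain ⟨C1, hC1, hO⟩ := hOMX n hn
  obtain ⟨C2, hC2, hZ⟩ := hZX n hn
  refine ⟨C1 + C2, by positivity, ?_⟩
  intro k Λ lh ls c z hk hB hL hfix hrho hrho1 hin
  have hre : ∀ μ : ℂ, exp μ = Rho n k c z → 0 < μ.re := by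
    intro μ hμ
    rw [← hμ, Complex.norm_exp] at hrho
    exact Real.one_lt_exp_iff.1 hrho
  have hk1 : (1 : ℝ) ≤ k := by exact_mod_cast hk
  rcases hin with ⟨hc, hom⟩ | ⟨ζ, ε, hcr, hper, hdig, hint⟩
  · obtain ⟨w, -, huniq, -, q, ν, hq, -, hν, hb⟩ := hO k Λ c z hk hB hc hfix hrho
    have hw : (1 : ℂ) = w := huniq 1 hom
    rw [← hw, mul_one] at hν
    refine ⟨ν, hν, hb.trans ?_⟩
    have hν0 := hre ν hν
    refine mul_le_mul_of_nonneg_right ?_ hν0.le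
    have hq1 : (1 : ℝ) ≤ q := by exact_mod_cast hq
    calc C1 * k / q ≤ C1 * k := div_le_self (by positivity) hq1
      _ ≤ (C1 + C2) * k := by nlinarith
  · have hc16 : ‖c‖ ≤ 16 := by
      by_contra hcc
      push Not at hcc
      exact absurd (hBIG n k c z hn hk hcc.le hfix) (not_lt.2 hrho1)
    obtain ⟨μ, hμ, hb⟩ := hZ k Λ lh ls c ζ z ε hk hB hL hcr hc16 hper hfix hdig hint
    refine ⟨μ, hμ, hb.trans ?_⟩
    have hμ0 := hre μ hμ
    refine mul_le_mul_of_nonneg_right ?_ hμ0.le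
    nlinarith

end Pool.Agent.PLim
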