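import Pool.Agent.PLim.AREAL
import Pool.Agent.PLim.BD
import Pool.Agent.PLim.BIG
import Pool.Agent.PLim.BOT
import Pool.Agent.PLim.BOT0
import Pool.Agent.PLim.BOT1
import Pool.Agent.PLim.BR
import Pool.Agent.PLim.BV
import Pool.Agent.PLim.CHV
import Pool.Agent.PLim.CIK
import Pool.Agent.PLim.CNT
import Pool.Agent.PLim.CURV
import Pool.Agent.PLim.CUT
import Pool.Agent.PLim.DEG1
import Pool.Agent.PLim.DISP1
import Pool.Agent.PLim.DISPE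
import Pool.Agent.PLim.DX
import Pool.Agent.PLim.EM
import Pool.Agent.PLim.EXR
import Pool.Agent.PLim.FINF
import Pool.Agent.PLim.FIXE
import Pool.Agent.PLim.GREEN
import Pool.Agent.PLim.HITA
import Pool.Agent.PLim.HITB
import Pool.Agent.PLim.IE
import Pool.Agent.PLim.KOE
import Pool.Agent.PLim.KOEB
import Pool.Agent.PLim.L1
import Pool.Agent.PLim.LIMB
import Pool.Agent.PLim.LIN
import Pool.Agent.PLim.LOC2
import Pool.Agent.PLim.LOCZ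
import Pool.Agent.PLim.LOG
import Pool.Agent.PLim.LOGA
import Pool.Agent.PLim.LOGB
import Pool.Agent.PLim.LOGC
import Pool.Agent.PLim.LOGL
import Pool.Agent.PLim.LOP
import Pool.Agent.PLim.LS
import Pool.Agent.PLim.LU
import Pool.Agent.PLim.MP
import Pool.Agent.PLim.NC
import Pool.Agent.PLim.NZ
import Pool.Agent.PLim.OMC
import Pool.Agent.PLim.OMX
import Pool.Agent.PLim.ONTO
import Pool.Agent.PLim.OSG
import Pool.Agent.PLim.PAR
import Pool.Agent.PLim.PHIp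
import Pool.Agent.PLim.PLY
import Pool.Agent.PLim.RC
import Pool.Agent.PLim.RCV
import Pool.Agent.PLim.RI
import Pool.Agent.PLim.RINV
import Pool.Agent.PLim.RP
import Pool.Agent.PLim.RS
import Pool.Agent.PLim.SECAN
import Pool.Agent.PLim.SECT
import Pool.Agent.PLim.SEG
import Pool.Agent.PLim.SNAIL
import Pool.Agent.PLim.ST1
import Pool.Agent.PLim.ST2
import Pool.Agent.PLim.TOP
import Pool.Agent.PLim.TOR
import Pool.Agent.PLim.TRA
import Pool.Agent.PLim.TRANS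
import Pool.Agent.PLim.TRI
import Pool.Agent.PLim.TRL
import Pool.Agent.PLim.TRP
import Pool.Agent.PLim.TRS
import Pool.Agent.PLim.UNIQ
import Pool.Agent.PLim.WIND
import Pool.Agent.PLim.WL
import Pool.Agent.PLim.WSEG
import Pool.Agent.PLim.ZOP
import Pool.Agent.PLim.ZV
import Pool.Agent.PLim.ZX
import Pool.Agent.Limb.AREA

/-!
# PLIM: all targets proved
-/

set_option autoImplicit false

namespace Pool.Agent.PLim

theorem a_RC : T_RC := p_RC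
theorem a_RS : T_RS := p_RS
theorem a_LS : T_LS := p_LS a_RC a_RS
theorem a_GREEN : T_GREEN := p_GREEN
theorem a_OSG : T_OSG := p_OSG
theorem a_PHIp : T_PHI' := p_PHIp a_GREEN a_OSG
theorem a_LOC2 : T_LOC2 := p_LOC2
theorem a_DEG1 : T_DEG1 := p_DEG1 a_LOC2
theorem a_PAR : T_PAR := p_PAR a_PHIp a_DEG1 a_GREEN
theorem a_BR : T_BR := p_BR a_GREEN
theorem a_CHV : T_CHV := p_CHV
theorem a_DISP1 : T_DISP1 := p_DISP1
theorem a_AREAL : T_AREAL := p_AREAL a_BR a_GREEN a_CHV a_DISP1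
theorem a_FIXE : T_FIXE := p_FIXE a_AREAL a_BR a_GREEN
theorem a_LOCZ : T_LOCZ := p_LOCZ
theorem a_SECAN : T_SECAN := p_SECAN a_FIXE a_LOCZ
theorem a_BV : T_BV := p_BV
theorem a_IE : T_IE := p_IE a_GREEN
theorem a_LIN : T_LIN := p_LIN a_LOCZ
theorem a_ST1 : T_ST1 := p_ST1 a_IE a_LIN
theorem a_RCV : T_RCV := p_RCV a_IE a_LIN
theorem a_DISPE : T_DISPE := p_DISPE a_GREEN a_IE
theorem a_OMC : T_OMC := p_OMC a_ST1 a_RCV a_DISPE
theorem a_EM : T_EM := p_EM a_IE a_GREEN a_LIN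
theorem a_TOR : T_TOR := p_TOR
theorem a_L1 : T_L1 := p_L1 a_DISP1 a_CHV a_TOR
theorem a_EXR : T_EXR := p_EXR a_EM a_L1
theorem a_CURV : T_CURV := p_CURV a_IE a_GREEN a_LIN
theorem a_WIND : T_WIND := p_WIND
theorem a_UNIQ : T_UNIQ := p_UNIQ a_CURV a_WIND a_DISPE
theorem a_NZ : T_NZ := p_NZ a_CURV a_WIND
theorem a_WSEG : T_WSEG := p_WSEG a_DISP1
theorem a_PLY : T_PLY := p_PLY a_IE a_GREEN a_LIN a_WSEG a_CHV a_TOR Pool.Agent.Limb.p_AREA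
theorem a_OMX : T_OMX := p_OMX a_EXR a_DISPE a_UNIQ a_NZ a_PLY
theorem a_ST2 : T_ST2 := p_ST2 a_GREEN a_BR
theorem a_RP : T_RP := p_RP
theorem a_ZOP : T_ZOP := p_ZOP a_GREEN a_OMC a_OMX a_ST2 a_FIXE a_BR a_RP
theorem a_RINV : T_RINV := p_RINV a_RS a_RC
theorem a_WL : T_WL := p_WL a_RINV a_RP
theorem a_LOP : T_LOP := p_LOP a_GREEN a_ST1 a_ST2 a_FIXE a_BR a_RP a_WL a_RINV a_PHIp
theorem a_KOEB : T_KOEB := p_KOEB
theorem a_SNAIL : T_SNAIL := p_SNAIL a_IE a_GREEN a_KOEB a_WSEG a_CHV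
theorem a_MP : T_MP := p_MP
theorem a_FINF : T_FINF := p_FINF a_MP
theorem a_CUT : T_CUT := p_CUT
theorem a_BD : T_BD := p_BD a_ST1 a_ST2 a_LOCZ a_SNAIL a_FINF a_CUT a_FIXE a_BR a_GREEN a_IE
theorem a_LU : T_LU := p_LU a_GREEN a_OMX a_FIXE a_BR a_RINV a_WL a_BD
theorem a_HITA : T_HITA := p_HITA a_LS a_PAR a_SECAN a_FIXE a_BV a_ZOP a_LOP a_LU a_GREEN
theorem a_HITB : T_HITB := p_HITB a_OMX a_OMC a_LOP a_ZOP a_LU a_LOCZ a_GREEN
theorem a_SEG : T_SEG := p_SEG a_GREEN a_DISP1 a_CHV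
theorem a_KOE : T_KOE := p_KOE a_AREAL a_BR a_FIXE a_LIN a_GREEN
theorem a_DX : T_DX := p_DX a_SEG a_KOE a_TOR a_CHV a_BR a_GREEN a_FIXE
theorem a_RI : T_RI := p_RI
theorem a_ZX : T_ZX := p_ZX a_DX a_RI a_PAR a_SECAN a_FIXE a_GREEN
theorem a_BIG : T_BIG := p_BIG
theorem a_ZV : T_ZV := p_ZV a_ZX a_OMX a_BIG
theorem a_CNT : T_CNT := p_CNT a_MP a_LOCZ
theorem a_ONTO : T_ONTO := p_ONTO a_HITA a_HITB a_LOP a_LU a_ZV a_CNT a_LOCZ a_BIG
theorem a_BOT0 : T_BOT0 := p_BOT0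
theorem a_LOGL : T_LOGL := p_LOGL
theorem a_BOT1 : T_BOT1 := p_BOT1 a_BOT0 a_GREEN a_LOGL
theorem a_BOT : T_BOT := p_BOT a_BOT1 a_GREEN
theorem a_LOGA : T_LOGA := p_LOGA a_LOGL a_GREEN
theorem a_LOGB : T_LOGB := p_LOGB a_LOGL a_GREEN
theorem a_LOGC : T_LOGC := p_LOGC a_LOGL
theorem a_LOG : T_LOG := p_LOG a_LOGA a_LOGB a_LOGC
theorem a_NC : T_NC := p_NC a_ONTO a_LU a_CNT a_BOT a_LOG
theorem a_TRA : T_TRA := p_TRA
theorem a_TRP : T_TRP := p_TRP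
theorem a_TRI : T_TRI := p_TRI a_TRP
theorem a_TRS : T_TRS := p_TRS
theorem a_TRL : T_TRL := p_TRL a_TRP a_TRI a_TRS
theorem a_TRANS : T_TRANS := p_TRANS a_TRA a_TRL
theorem a_SECT : T_SECT := p_SECT a_NC a_TRANS a_BIG a_LOCZ
theorem a_TOP : T_TOP := p_TOP
theorem a_LIMB : T_LIMB := p_LIMB a_SECT a_TOP a_OMX a_OMC a_FIXE a_BOT a_LOG a_GREEN
theorem a_CIK : T_CIK := p_CIK

end Pool.Agent.PLim
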