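import Mathlib
import Pool.Agent.PLim.LIMB
import Pool.Agent.PLim.Targets4

/-!
# LIMBU: the limb bound, uniformly in the degree
-/

set_option autoImplicit false

open Complex Filter Topology Set
open Pool.Agent.Multibrot Pool.Agent.Limb

namespace Pool.Agent.PLim

namespace LIMBU_

lemma exp_bounds {t : ℝ} (h1 : -(1 / 4) ≤ t) (h2 : t ≤ 1 / 4) :
    3 / 4 ≤ Real.exp t ∧ Real.exp t ≤ 4 / 3 := by
  constructor
  · have := Real.add_one_le_exp t
    linarith
  · have h3 := Real.add_one_le_exp (-t)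
    have h4 : 3 / 4 ≤ Real.exp (-t) := by linarith
    rw [Real.exp_neg] at h4
    have h5 : 0 < Real.exp t := Real.exp_pos t
    have h6 : 3 / 4 * Real.exp t ≤ 1 := by
      have := mul_le_mul_of_nonneg_right h4 h5.le
      rwa [inv_mul_cancel₀ h5.ne'] at this
    linarith

lemma pi_sq : (32 : ℝ) ≤ 4 * Real.pi ^ 2 := by
  have := Real.pi_gt_three
  nlinarith

lemma aux1 {X T : ℝ} (hX : 0 ≤ X) (hT : 0 ≤ T) : 12 * X / (4 * Real.pi ^ 2) * T ≤ X * T := by
  refine mul_le_mul_of_nonneg_right ?_ hT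
  have h := pi_sq
  rw [div_le_iff₀ (by linarith)]
  have h2 : X * 12 ≤ X * (4 * Real.pi ^ 2) := mul_le_mul_of_nonneg_left (by linarith) hX
  linarith

lemma aux2 {X T : ℝ} (hX : 1 ≤ X) (hT : 0 ≤ T) : 32 / (4 * Real.pi ^ 2) * T ≤ X * T := by
  refine mul_le_mul_of_nonneg_right ?_ hT
  have h := pi_sq
  refine le_trans ?_ hX
  rw [div_le_one (by linarith)]
  exact h

lemma aux3 (M : ℝ) : 2 * M ^ 2 ≤ 4 * Real.pi ^ 2 * M ^ 2 := by
  have h := pi_sq
  exact mul_le_mul_of_nonneg_right (by linarith) (sq_nonneg M)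

lemma aux4 {x y : ℝ} (hx : 0 < x) (hy : 0 < y) (hxy : y ≤ 2 * x) (hx2 : x ≤ 1 / 2) :
    Real.log ((1 + y) / (1 - x)) ≤ 6 * x := by
  have hm1 : 0 < 1 - x := by linarith
  have h2 : 0 < (1 + y) / (1 - x) := by positivity
  have h3 := Real.log_le_sub_one_of_pos h2
  refine h3.trans ?_
  rw [div_sub_one hm1.ne', div_le_iff₀ hm1]
  nlinarith

/-- numerical part -/
lemma final (C1 C3 E η M k q nx : ℝ) (hC1 : 0 < C1) (hC3 : 0 < C3) (hk : 0 < k) (hq : 0 < q)
    (hE : 0 ≤ E) (hη : 0 < η) (hηM : η * (C3 * k) = 4 * Real.pi ^ 2 * M ^ 2 / q ^ 2)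
    (hnx : nx ≤ C1 * k / q) {D : ℝ} (hD : D ≤ E * nx / η) :
    D * M ^ 2 ≤ E / (4 * Real.pi ^ 2) * (C1 * C3 * k ^ 2 * q) := by
  have hpi := Real.pi_pos
  have h1 : D ≤ E * (C1 * k / q) / η :=
    hD.trans (div_le_div_of_nonneg_right (mul_le_mul_of_nonneg_left hnx hE) hη.le)
  have h2 : D * M ^ 2 ≤ E * (C1 * k / q) / η * M ^ 2 :=
    mul_le_mul_of_nonneg_right h1 (sq_nonneg M)
  refine h2.trans (le_of_eq ?_)
  have h3 : M ^ 2 = η * (C3 * k) * q ^ 2 / (4 * Real.pi ^ 2) := by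
    rw [hηM]
    field_simp
  rw [h3]
  field_simp

end LIMBU_

open LIMBU_ in
theorem p_LIMBU (hA : T_ANN) (hS : T_STRIP) (hC : T_COAL) : T_LIMBU := by
  obtain ⟨CA, hCA, hann⟩ := hA
  obtain ⟨CS, hCS, hstrip⟩ := hS
  obtain ⟨C0, hC0, hcoal⟩ := hC
  refine ⟨C0 + CS * CA + 2 * CA, by positivity, ?_⟩
  intro n C1 C3 hn hC1 hC3 hG k p q r z0 c A hL hc
  have hn2 : (2 : ℝ) ≤ n := by exact_mod_cast hn
  have hn0 : (0 : ℝ) < n := by linarith
  have hk0 : (0 : ℝ) < k := by exact_mod_cast hL.hk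
  have hq0 : (0 : ℝ) < q := by
    have : 0 < q := by have := hL.hpq; omega
    exact_mod_cast this
  have hC30 : 0 < C3 := by linarith
  have hpi := Real.pi_gt_three
  have hpi0 := Real.pi_pos
  have hlog2 : Real.log 2 ≤ Real.log n := Real.log_le_log (by norm_num) hn2
  have hl2 := Real.log_two_gt_d9
  have hln : 0 < Real.log n := by linarith
  set a : ℝ := Real.log n / n with ha
  have ha0 : 0 < a := by positivity
  have hinv : 1 / (n : ℝ) ≤ 2 * a := by
    rw [ha, ← mul_div_assoc]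
    exact div_le_div_of_nonneg_right (by linarith) hn0.le
  set M : ℝ := ((min p (q - p) : ℕ) : ℝ) with hM
  set T : ℝ := C1 * C3 * k ^ 2 * q with hT
  have hT0 : 0 < T := by positivity
  have hgoal : (C0 + CS * CA + 2 * CA) * (C1 * C3) * (Real.log n / n) * k ^ 2 * q =
      C0 * a * T + CS * CA * a * T + 2 * CA * a * T := by
    rw [hT, ← ha]
    ring
  rw [hgoal]
  have g1 : 0 ≤ C0 * a * T := by positivity
  have g2 : 0 ≤ CS * CA * a * T := by positivity
  have g3 : 0 ≤ 2 * CA * a * T := by positivity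
  set η : ℝ := (2 * Real.pi * M / q) ^ 2 / (C3 * k) with hη
  have hηM : η * (C3 * k) = 4 * Real.pi ^ 2 * M ^ 2 / q ^ 2 := by
    rw [hη]
    field_simp
    ring
  rcases le_or_gt η (2 * (C1 * k / q)) with hcase | hcase
  · -- the trivial case
    have h1 : M ^ 2 ≤ T := by
      have h2 : η * (C3 * k) ≤ 2 * (C1 * k / q) * (C3 * k) :=
        mul_le_mul_of_nonneg_right hcase (by positivity)
      rw [hηM, div_le_iff₀ (by positivity)] at h2
      have h3 : 2 * (C1 * k / q) * (C3 * k) * q ^ 2 = 2 * T := by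
        rw [hT]
        field_simp
      rw [h3] at h2
      have h4 := aux3 M
      linarith
    have h2 := hcoal n k p q r z0 c A hn hL hc
    have h3 : ‖c - r‖ ≤ C0 * a := by
      rw [ha, ← mul_div_assoc]
      exact h2
    have h4 : ‖c - r‖ * M ^ 2 ≤ C0 * a * T :=
      mul_le_mul h3 h1 (sq_nonneg M) (by positivity)
    linarith
  · obtain ⟨-, hη4, ψ, χ, hψd, hψ0, hψ, hψA⟩ := hG k p q r z0 A η hL hη hcase
    obtain ⟨x, hx, hxc⟩ := hψA c hc
    have hη0 : 0 < η := lt_trans (by positivity) hcase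
    have hx2 : ‖x‖ < η / 2 := by linarith
    rcases le_or_gt (CA * a) (1 / 2) with hsm | hbig
    · -- the main case
      have hval : ∀ y ∈ Metric.ball (0 : ℂ) η, 1 - CA * a ≤ ‖ψ y‖ ∧ ‖ψ y‖ ≤ 1 + CA / n := by
        intro y hy
        obtain ⟨h1, h2, h3⟩ := hψ y hy
        rw [mem_ball_zero_iff] at hy
        have h4 := abs_le.mp ((abs_re_le_norm y).trans (hy.le.trans hη4))
        obtain ⟨h5, h6⟩ := exp_bounds h4.1 h4.2
        rw [← h2] at h5 h6
        obtain ⟨h7, h8⟩ := hann n k (ψ y) (χ y) hn hL.hk h1 h5 h6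
        refine ⟨?_, h8⟩
        rw [ha, ← mul_div_assoc]
        exact h7
      have hm1 : 0 < 1 - CA * a := by linarith
      have hCAn : CA / n ≤ 2 * (CA * a) := by
        have := mul_le_mul_of_nonneg_left hinv hCA.le
        rw [mul_one_div] at this
        linarith
      have hCAn0 : 0 < CA / n := by positivity
      have hCAa0 : 0 < CA * a := by positivity
      have h1 := hstrip 0 η (1 - CA * a) (1 + CA / n) ψ hη0 hm1 (by linarith) hψd hval x
        (by rw [sub_zero]; exact hx2.le)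
      rw [sub_zero, hxc, hψ0] at h1
      have hlg : Real.log ((1 + CA / n) / (1 - CA * a)) ≤ 6 * (CA * a) :=
        aux4 hCAa0 hCAn0 hCAn hsm
      have hlg0 : 0 ≤ Real.log ((1 + CA / n) / (1 - CA * a)) := by
        apply Real.log_nonneg
        rw [le_div_iff₀ hm1]
        linarith
      have hE : CS * (1 + CA / n) * Real.log ((1 + CA / n) / (1 - CA * a)) ≤
          CS * 2 * (6 * (CA * a)) := by
        have h2 : CS * (1 + CA / n) ≤ CS * 2 :=
          mul_le_mul_of_nonneg_left (by linarith) hCS.le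
        exact mul_le_mul h2 hlg hlg0 (by positivity)
      have hD : ‖c - r‖ ≤ (12 * (CS * CA * a)) * ‖x‖ / η := by
        refine h1.trans ?_
        refine div_le_div_of_nonneg_right (mul_le_mul_of_nonneg_right ?_ (norm_nonneg x)) hη0.le
        linarith
      have h5 := final C1 C3 (12 * (CS * CA * a)) η M k q ‖x‖ hC1 hC30 hk0 hq0 (by positivity)
        hη0 hηM hx hD
      rw [← hT] at h5
      have h6 : 12 * (CS * CA * a) / (4 * Real.pi ^ 2) * T ≤ CS * CA * a * T :=
        aux1 (by positivity) hT0.le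
      linarith
    · have h1 := LIMB_.cauchy (a := 0) hη0 hψd (fun y hy => (hψ y hy).2.2)
        (μ := x) (by rw [sub_zero]; exact hx2)
      rw [sub_zero, hxc, hψ0] at h1
      have hD : ‖c - r‖ ≤ 32 * ‖x‖ / η := by
        rw [mul_div_right_comm]
        exact h1
      have h5 := final C1 C3 32 η M k q ‖x‖ hC1 hC30 hk0 hq0 (by norm_num) hη0 hηM hx hD
      rw [← hT] at h5
      have h6 : 32 / (4 * Real.pi ^ 2) * T ≤ 2 * CA * a * T :=
        aux2 (by linarith) hT0.le
      linarith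

end Pool.Agent.PLim
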