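import Pool.Agent.PLim.Targets4
import Pool.Agent.PLim.OMX

/-!
# PLIM: OMX with its constant
-/

set_option autoImplicit false

open Complex Filter Topology Set MeasureTheory
open Pool.Agent.Multibrot Pool.Agent.Limb

namespace Pool.Agent.PLim

theorem r_OMX (hEXR : T_EXR) (hDISPE : T_DISPE) (hUNIQ : T_UNIQ) (hNZ : T_NZ)
    (n : ℕ) (hn : 2 ≤ n) (C : ℝ) (hC : 0 < C) (hply : PLYn n C) :
    OMXn n C := by
  intro k Λ c z hk hB hc hz hrho
  have hR : Rho n k c z ≠ 0 := by
    intro h
    rw [h, norm_zero] at hrho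
    linarith
  obtain ⟨α, q, hex, hland⟩ := hEXR n k Λ c z hn hk hB hc hz hrho
  obtain ⟨v, hv, hexpv, -⟩ := hDISPE n k q Λ c z α hn hk hex.1 hB hc hex.2.1 hland hz hrho
  have hq0 : (q : ℂ) ≠ 0 := by
    have : q ≠ 0 := by have := hex.1; omega
    exact_mod_cast this
  -- comparison with other data
  have hcomp : ∀ (α' : ℝ) (q' : ℕ) (v' : ℂ), Ex n k q' α' → Lands Λ c α' z →
      Disp n k q' Λ c α' z v' → v' / q' = v / q := by
    intro α' q' v' hex' hland' hv'
    have hq0' : (q' : ℂ) ≠ 0 := by
      have : q' ≠ 0 := by have := hex'.1; omega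
      exact_mod_cast this
    have h1 := hUNIQ n k q q' Λ c z v v' α α' hn hk hB hc hex hex' hland hland' hz hrho hv hv'
    rw [div_eq_div_iff hq0' hq0]
    linear_combination h1
  have hw : exp (v / q) = Rho n k c z * (exp (v / q) / Rho n k c z) := by
    field_simp
  refine ⟨exp (v / q) / Rho n k c z, ⟨α, q, v, hex, hland, hv, hw⟩, ?_, ?_, ?_⟩
  · rintro w' ⟨α', q', v', hex', hland', hv', hw'⟩
    rw [hcomp α' q' v' hex' hland' hv'] at hw'
    rw [hw']
    field_simp
  · intro α' q' hex' hland'
    obtain ⟨v', hv', hexpv', -⟩ := hDISPE n k q' Λ c z α' hn hk hex'.1 hB hc hex'.2.1 hland' hz hrho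
    have h1 := hcomp α' q' v' hex' hland' hv'
    rw [← h1]
    constructor
    · intro h
      subst h
      rw [Nat.cast_one, div_one, hexpv', pow_one]
      exact div_self hR
    · intro h
      by_contra hne
      have h2 : 2 ≤ q' := by have := hex'.1; omega
      refine hNZ n k q' Λ c z v' α' hn hk hB hc hex' h2 hland' hz hrho hv' ?_
      rw [div_eq_one_iff_eq hR] at h
      exact h
  · refine ⟨q, v / q, hex.1, ?_, hw, ?_⟩
    · rw [div_pow, ← Complex.exp_nat_mul, mul_div_cancel₀ _ hq0, hexpv]
      exact div_self (pow_ne_zero _ hR)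
    · have h1 := hply k q Λ c z v α hk hB hc hex hland hz hrho hv
      have hq1 : (0 : ℝ) < q := by
        have := hex.1
        exact_mod_cast this
      have h2 : (v / q).re = v.re / q := by
        have : v / (q : ℂ) = v / ((q : ℝ) : ℂ) := by push_cast; rfl
        rw [this, Complex.div_ofReal_re]
      rw [norm_div, Complex.norm_natCast, div_pow, h2]
      have h3 : C * k / q * (v.re / q) = C * k * v.re / (q : ℝ) ^ 2 := by
        field_simp
      rw [h3]
      exact div_le_div_of_nonneg_right h1 (by positivity)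

end Pool.Agent.PLim
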