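import Pool.Agent.PLim.Targets4
import Pool.Agent.PLim.ONTO

/-!
# PLIM: ONTO with its constant
-/

set_option autoImplicit false

open Complex Filter Topology Set
open Pool.Agent.Multibrot Pool.Agent.Limb

namespace Pool.Agent.PLim

theorem r_ONTO (hHITA : T_HITA) (hHITB : T_HITB) (hLOP : T_LOP) (hLU : T_LU)
    (hCNT : T_CNT) (hLOCZ : T_LOCZ) (hBIG : T_BIG)
    (n : ℕ) (hn : 2 ≤ n) (Cz : ℝ) (hCz : 0 < Cz) (hZ : ZVn n Cz) :
    ONTOn n (max Cz 10) := by
  intro k Λ lh ls l μ₁ hk hB hLg hμ₁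
  have hpi := Real.pi_pos
  have hk1 : (1 : ℝ) ≤ k := by exact_mod_cast hk
  set C := max Cz 10 with hC
  have hC1 : Cz ≤ C := le_max_left _ _
  have hC2 : (10 : ℝ) ≤ C := le_max_right _ _
  set κ : ℝ := 1 / (C * k) with hκ
  have hκ0 : 0 < κ := by positivity
  have hκ1 : κ ≤ 1 / 10 := by
    rw [hκ]
    apply one_div_le_one_div_of_le (by norm_num)
    nlinarith
  -- the real parts are less than one
  have hre1 : ∀ μ ∈ Vreg κ, μ.re < 1 := by
    rintro μ ⟨h1, h2, h3, h4⟩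
    have h5 : min μ.im (2 * Real.pi - μ.im) ≤ Real.pi := by
      rcases le_total μ.im Real.pi with h | h
      · exact (min_le_left _ _).trans h
      · exact (min_le_right _ _).trans (by linarith)
    have h6 : 0 < min μ.im (2 * Real.pi - μ.im) := lt_min h2 (by linarith)
    have h7 : (min μ.im (2 * Real.pi - μ.im)) ^ 2 ≤ Real.pi ^ 2 :=
      pow_le_pow_left₀ h6.le h5 2
    have h8 : Real.pi ^ 2 < 10 := by nlinarith [Real.pi_lt_d2, Real.pi_gt_three]
    have h9 : κ * (min μ.im (2 * Real.pi - μ.im)) ^ 2 ≤ 1 / 10 * Real.pi ^ 2 :=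
      mul_le_mul hκ1 h7 (by positivity) (by norm_num)
    linarith
  have hnorm : ∀ μ : ℂ, ‖exp μ‖ = Real.exp μ.re := fun μ => Complex.norm_exp μ
  have hgt1 : ∀ μ ∈ Vreg κ, 1 < ‖exp μ‖ := by
    intro μ hμ
    rw [hnorm]
    exact Real.one_lt_exp_iff.mpr hμ.1
  have hlt2 : ∀ μ ∈ Vreg κ, ‖exp μ‖ < Real.exp 1 := by
    intro μ hμ
    rw [hnorm]
    exact Real.exp_lt_exp.mpr (hre1 μ hμ)
  have hne1 : ∀ μ ∈ Vreg κ, exp μ ≠ 1 := by
    intro μ hμ h
    have := hgt1 μ hμ
    rw [h, norm_one] at this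
    exact lt_irrefl _ this
  set S : Set ℂ := {μ : ℂ | μ ∈ Vreg κ ∧ ∃ c z : ℂ, (F n c)^[k] z = z ∧ Rho n k c z = exp μ ∧
    LabR n k Λ lh c z l} with hS
  -- the set is open
  have hSo : IsOpen S := by
    rw [isOpen_iff_mem_nhds]
    rintro μ ⟨hμ, c, z, hF, hR, hL⟩
    have hgt : 1 < ‖Rho n k c z‖ := by rw [hR]; exact hgt1 μ hμ
    have hne : Rho n k c z ≠ 1 := by rw [hR]; exact hne1 μ hμ
    obtain ⟨δ0, hδ0, hlab⟩ := hLOP n k Λ lh ls c z l hn hk hB hLg hF hgt hL
    obtain ⟨δ, r, zf, hδR, hrR, hloc⟩ := hLOCZ n k c z δ0 hn hδ0 hF hne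
    set g : ℂ → ℂ := fun c' => Rho n k c' (zf c') with hg
    have hgd : DifferentiableOn ℂ g (Metric.ball c δ) := CNT_diffR n k zf _ hloc.diff
    have hball : Metric.ball c δ ∈ 𝓝 c := Metric.ball_mem_nhds c hloc.hδ
    have hga : AnalyticAt ℂ g c := hgd.analyticAt hball
    have hgc : g c = exp μ := by
      rw [hg]; show Rho n k c (zf c) = _
      rw [hloc.zf0, hR]
    rcases hga.eventually_constant_or_nhds_le_map_nhds with hcst | hopen
    · exfalso
      have h1 : {c' : ℂ | c' ∈ Metric.ball c δ ∧ g c' = exp μ} ∈ 𝓝 c := by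
        filter_upwards [hball, hcst] with c' h1 h2
        exact ⟨h1, h2.trans hgc⟩
      have h2 := infinite_of_mem_nhds c h1
      obtain ⟨t, ht1, ht2⟩ := h2.exists_subset_card_eq (k * (n - 1) * n ^ (k - 1) + 1)
      have h3 := (hCNT n k (exp μ) (t.image (fun c' => (c', zf c'))) hn hk (hne1 μ hμ)
        (by
          intro x hx
          obtain ⟨c', hc', rfl⟩ := Finset.mem_image.mp hx
          have h4 := ht1 hc'
          exact ⟨hloc.fix c' h4.1, h4.2⟩)).1
      rw [Finset.card_image_of_injective _ (fun a b hab => congrArg Prod.fst hab), ht2] at h3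
      omega
    · have h1 : g '' Metric.ball c δ ∈ 𝓝 (g c) := hopen (image_mem_map hball)
      rw [hgc] at h1
      have h2 : {μ' : ℂ | exp μ' ∈ g '' Metric.ball c δ} ∈ 𝓝 μ :=
        continuous_exp.continuousAt.preimage_mem_nhds h1
      filter_upwards [h2, (ONTO_open κ).mem_nhds hμ] with μ' h3 h4
      obtain ⟨c', hc', hgc'⟩ := h3
      have h5 : ‖c' - c‖ < δ0 := lt_of_lt_of_le (mem_ball_iff_norm.mp hc') hδR
      have h6 : ‖zf c' - z‖ < δ0 :=
        lt_of_lt_of_le (mem_ball_iff_norm.mp (hloc.mem c' hc')) hrR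
      exact ⟨h4, c', zf c', hloc.fix c' hc', hgc', hlab c' (zf c') h5 h6 (hloc.fix c' hc')⟩
  -- the set is closed in the region
  have hScl : closure S ∩ Vreg κ ⊆ S := by
    rintro μ ⟨hμc, hμ⟩
    obtain ⟨x, hxS, hx⟩ := mem_closure_iff_seq_limit.mp hμc
    have hxS' : ∀ j, ∃ p : ℂ × ℂ, (F n p.1)^[k] p.2 = p.2 ∧ Rho n k p.1 p.2 = exp (x j) ∧
        LabR n k Λ lh p.1 p.2 l := by
      intro j
      obtain ⟨-, c, z, h⟩ := hxS j
      exact ⟨(c, z), h⟩
    choose p hp1 hp2 hp3 using hxS'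
    have hK : IsCompact (Metric.closedBall (0 : ℂ) 16 ×ˢ Metric.closedBall (0 : ℂ) 18) :=
      (isCompact_closedBall _ _).prod (isCompact_closedBall _ _)
    have hpK : ∀ j, p j ∈ Metric.closedBall (0 : ℂ) 16 ×ˢ Metric.closedBall (0 : ℂ) 18 := by
      intro j
      have h1 : ‖(p j).1‖ < 16 := by
        by_contra h
        push Not at h
        have h2 := hBIG n k (p j).1 (p j).2 hn hk h (hp1 j)
        rw [hp2 j] at h2
        exact absurd (hlt2 _ (hxS j).1) (not_lt.mpr h2.le)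
      have h2 := CNT_root hn hk (hp1 j)
      refine ⟨?_, ?_⟩
      · rw [mem_closedBall_zero_iff]; exact h1.le
      · rw [mem_closedBall_zero_iff]; linarith
    obtain ⟨a, -, φ, hφ, ha⟩ := hK.tendsto_subseq hpK
    have hFa : (F n a.1)^[k] a.2 = a.2 := by
      have h1 := ((CNT_contI n k).tendsto a).comp ha
      have h2 := (continuous_snd.tendsto a).comp ha
      refine tendsto_nhds_unique h1 (h2.congr ?_)
      intro j
      exact (hp1 (φ j)).symm
    have hRa : Rho n k a.1 a.2 = exp μ := by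
      have h1 := ((CNT_contR n k).tendsto a).comp ha
      have h2 := ((continuous_exp.tendsto μ).comp hx).comp hφ.tendsto_atTop
      refine tendsto_nhds_unique h1 (h2.congr ?_)
      intro j
      exact (hp2 (φ j)).symm
    have hgt : 1 < ‖Rho n k a.1 a.2‖ := by rw [hRa]; exact hgt1 μ hμ
    have hnZ : ¬ InZ n k Λ lh a.1 a.2 := by
      intro hin
      obtain ⟨ν, hν1, hν2⟩ := hZ k Λ lh ls a.1 a.2 hk hB hLg hFa hgt
        (by rw [hRa]; exact (hlt2 μ hμ).le) hin
      rw [hRa, Complex.exp_eq_exp_iff_exists_int] at hν1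
      obtain ⟨m, hm⟩ := hν1
      obtain ⟨h1, h2, h3, h4⟩ := hμ
      have hcast : (m : ℂ) * (2 * Real.pi * I) = ((m * (2 * Real.pi) : ℝ) : ℂ) * I := by
        push_cast; ring
      rw [hcast] at hm
      have hνre : ν.re = μ.re := by
        rw [hm, add_re, re_ofReal_mul, I_re, mul_zero, add_zero]
      have hνim : ν.im = μ.im + m * (2 * Real.pi) := by
        rw [hm, add_im, im_ofReal_mul, I_im, mul_one]
      have h6 : 0 < min μ.im (2 * Real.pi - μ.im) := lt_min h2 (by linarith)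
      have h7 : min μ.im (2 * Real.pi - μ.im) ≤ |ν.im| := by
        rcases le_or_gt 0 m with h | h
        · have h8 : (0 : ℝ) ≤ m := by exact_mod_cast h
          refine (min_le_left _ _).trans (le_trans ?_ (le_abs_self _))
          rw [hνim]
          nlinarith
        · have h8 : (m : ℝ) ≤ -1 := by
            have : m ≤ -1 := by omega
            exact_mod_cast this
          refine (min_le_right _ _).trans (le_trans ?_ (neg_le_abs _))
          rw [hνim]
          nlinarith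
      have h8 : |ν.im| ≤ ‖ν‖ := abs_im_le_norm ν
      have h9 : (min μ.im (2 * Real.pi - μ.im)) ^ 2 ≤ ‖ν‖ ^ 2 :=
        pow_le_pow_left₀ h6.le (h7.trans h8) 2
      have h10 : (min μ.im (2 * Real.pi - μ.im)) ^ 2 ≤ Cz * k * μ.re := by
        rw [hνre] at hν2
        exact h9.trans hν2
      have h11 : Cz * k * μ.re ≤ C * k * μ.re := by
        apply mul_le_mul_of_nonneg_right _ h1.le
        exact mul_le_mul_of_nonneg_right hC1 (by linarith)
      have h12 : C * k * μ.re < C * k * (κ * (min μ.im (2 * Real.pi - μ.im)) ^ 2) :=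
        mul_lt_mul_of_pos_left h4 (by positivity)
      have h13 : C * k * (κ * (min μ.im (2 * Real.pi - μ.im)) ^ 2)
          = (min μ.im (2 * Real.pi - μ.im)) ^ 2 := by
        rw [hκ]
        have : C * (k : ℝ) ≠ 0 := by positivity
        field_simp
      linarith
    obtain ⟨hex, huniq, -⟩ := hLU n k Λ lh ls a.1 a.2 hn hk hB hLg hFa hgt
    obtain ⟨l', hl'⟩ := hex hnZ
    obtain ⟨δ0, hδ0, hlab⟩ := hLOP n k Λ lh ls a.1 a.2 l' hn hk hB hLg hFa hgt hl'
    have h1 : ∀ᶠ j in atTop, ‖((p ∘ φ) j).1 - a.1‖ < δ0 := by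
      have h2 := (continuous_fst.tendsto a).comp ha
      have h3 := h2.eventually (Metric.ball_mem_nhds a.1 hδ0)
      filter_upwards [h3] with j hj
      exact mem_ball_iff_norm.mp hj
    have h2 : ∀ᶠ j in atTop, ‖((p ∘ φ) j).2 - a.2‖ < δ0 := by
      have h2 := (continuous_snd.tendsto a).comp ha
      have h3 := h2.eventually (Metric.ball_mem_nhds a.2 hδ0)
      filter_upwards [h3] with j hj
      exact mem_ball_iff_norm.mp hj
    obtain ⟨j, hj1, hj2⟩ := (h1.and h2).exists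
    have h3 := hlab _ _ hj1 hj2 (hp1 (φ j))
    have h4 : 1 < ‖Rho n k ((p ∘ φ) j).1 ((p ∘ φ) j).2‖ := by
      show 1 < ‖Rho n k (p (φ j)).1 (p (φ j)).2‖
      rw [hp2 (φ j)]
      exact hgt1 _ (hxS (φ j)).1
    obtain ⟨-, huniq', -⟩ := hLU n k Λ lh ls ((p ∘ φ) j).1 ((p ∘ φ) j).2 hn hk hB hLg
      (hp1 (φ j)) h4
    have h5 : l' = l := huniq' l' l h3 (hp3 (φ j))
    rw [h5] at hl'
    exact ⟨hμ, a.1, a.2, hFa, hRa, hl'⟩
  -- the set is not empty
  have hSne : (Vreg κ ∩ S).Nonempty := by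
    have hacc : Acc n k Λ lh l := by
      rcases hHITA n k Λ lh ls l hn hk hB hLg with h | ⟨c0, z0, h1, h2, h3, h4⟩
      · exact h
      · exact hHITB n k Λ lh ls l c0 z0 hn hk hB hLg h1 h2 h3 h4
    obtain ⟨c, z, c0, z0, h1, h2, h3, h4, h5⟩ := hacc
    have hslit : -(Rho n k c0 z0) ∈ slitPlane := oL_slit h4 h5
    have h6 : Tendsto (fun j => Rho n k (c j) (z j)) atTop (𝓝 (Rho n k c0 z0)) :=
      ((CNT_contR n k).tendsto (c0, z0)).comp (h2.prodMk_nhds h3)
    have h7 : Tendsto (fun j => oL (Rho n k (c j) (z j))) atTop (𝓝 (oL (Rho n k c0 z0))) :=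
      (oL_cont hslit).tendsto.comp h6
    have h8 : oL (Rho n k c0 z0) ∈ {μ : ℂ | 0 < μ.im ∧ μ.im < 2 * Real.pi ∧
        μ.re < κ * (min μ.im (2 * Real.pi - μ.im)) ^ 2} := by
      have ha1 : (oL (Rho n k c0 z0)).re = 0 := by rw [oL_re, h4, Real.log_one]
      have ha2 : 0 < (oL (Rho n k c0 z0)).im := by
        rw [oL_im]
        linarith [neg_pi_lt_arg (-(Rho n k c0 z0))]
      have ha3 : (oL (Rho n k c0 z0)).im < 2 * Real.pi := by
        rw [oL_im]
        have ha4 : arg (-(Rho n k c0 z0)) < Real.pi :=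
          lt_of_le_of_ne (arg_le_pi _) (mem_slitPlane_iff_arg.mp hslit).1
        linarith
      refine ⟨ha2, ha3, ?_⟩
      rw [ha1]
      have : 0 < min (oL (Rho n k c0 z0)).im (2 * Real.pi - (oL (Rho n k c0 z0)).im) :=
        lt_min ha2 (by linarith)
      positivity
    obtain ⟨j, hj⟩ := (h7.eventually ((ONTO_open' κ).mem_nhds h8)).exists
    obtain ⟨hj1, hj2, hj3⟩ := h1 j
    have hre : 0 < (oL (Rho n k (c j) (z j))).re := by
      rw [oL_re]
      exact Real.log_pos hj2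
    have hne : Rho n k (c j) (z j) ≠ 0 := by
      intro h
      rw [h, norm_zero] at hj2
      linarith
    have hV : oL (Rho n k (c j) (z j)) ∈ Vreg κ := ⟨hre, hj⟩
    exact ⟨oL (Rho n k (c j) (z j)), hV, hV, c j, z j, hj1, (oL_exp hne).symm, hj3⟩
  have hsub := (ONTO_conn κ hκ0).subset_of_closure_inter_subset hSo hSne hScl
  obtain ⟨-, c, z, h⟩ := hsub hμ₁
  exact ⟨c, z, h⟩

end Pool.Agent.PLim
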