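import Pool.Agent.PLim.Targets4
import Pool.Agent.PLim.PLY

/-!
# PLIM: PLY with its constant
-/

set_option autoImplicit false

open Complex Filter Topology Set MeasureTheory
open Pool.Agent.Multibrot Pool.Agent.Limb

namespace Pool.Agent.PLim

open PLY_ in
theorem r_PLY (hIE : T_IE) (hG : T_GREEN) (hLIN : T_LIN) (hCHV : T_CHV)
    (hTOR : T_TOR) (hA : T_AREA)
    (n : ℕ) (hn : 2 ≤ n) (C₁ : ℝ) (hC₁ : 0 < C₁) (hW' : WSEGn n C₁) :
    PLYn n (8 * Real.pi * C₁) := by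
  intro k q Λ c z v α hk hB hc hEx hland hfix hrep hdisp
  have hE := hIE n Λ hn hB
  obtain ⟨-, hG0, hGF, -, -, hGM, -, -⟩ := hG n hn
  have hq : 1 ≤ q := hEx.1
  have hn0 : (0 : ℝ) < n := by exact_mod_cast (by omega : 0 < n)
  have hn1 : (1 : ℝ) ≤ n := by exact_mod_cast (by omega : 1 ≤ n)
  have hGz := green_zero hn hk hGF hfix
  have hGc : G n c 0 = 0 := (hGM c).mp hc
  have hne : ∀ ξ : ℂ, 0 < ξ.re → exp (Λ c ξ) ≠ z := by
    intro ξ hξ h
    have := hB.green c ξ (by rw [hGc]; exact hξ)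
    rw [h, hGz] at this
    linarith
  -- the linearization
  obtain ⟨δ, r, η, zf, gi', ka', -, -, hlin⟩ := hLIN n k c z 1 hn hk one_pos hfix hrep
  have hcm : c ∈ Metric.ball c δ := Metric.mem_ball_self hlin.hδ
  have hzf : zf c = z := hlin.zf0
  set lam : ℂ := Rho n k c z with hlam
  set gi := gi' c with hgi
  set ka := ka' c with hka
  have hloc : Loc n k c z r lam gi ka := by
    refine ⟨hlin.hr, hfix, hlin.inj c hcm, hlin.gimem c hcm, hlin.giinv c hcm,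
      hlin.kadiff c hcm, hlin.kainj c hcm, ?_, ?_, ?_⟩
    · have := hlin.kazf c hcm
      rwa [hzf] at this
    · have := hlin.kader c hcm
      rwa [hzf] at this
    · intro x hx
      have := hlin.kagi c hcm x hx
      rwa [hzf] at this
  have hlam0 : lam ≠ 0 := by
    intro h
    rw [h, norm_zero] at hrep
    linarith
  -- the wedge
  set y : ℝ := 2 * Real.pi * α with hy
  obtain ⟨T0', hT0', hmem'⟩ := wedge_mem hA hn hE hc hland hloc.hr
  set NN : ℝ := (n : ℝ) ^ (k * q) with hNN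
  have hNN1 : 1 ≤ NN := one_le_pow₀ hn1
  have hNN0 : 0 < NN := by linarith
  set T0 : ℝ := min T0' (Real.pi / NN) with hT0def
  have hT0 : 0 < T0 := lt_min hT0' (div_pos Real.pi_pos hNN0)
  have hT0N : T0 * NN ≤ Real.pi := by
    have : T0 ≤ Real.pi / NN := min_le_right _ _
    rwa [le_div_iff₀ hNN0] at this
  have hT0pi : T0 ≤ Real.pi := by nlinarith
  have hmem : ∀ ξ ∈ Wd y 0 T0, exp (Λ c ξ) ∈ Metric.ball z r := by
    rintro ξ ⟨h1, h2, h3⟩
    exact hmem' ξ ⟨h1, h2.trans_le (min_le_left _ _), h3⟩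
  set χ : ℂ → ℂ := fun ξ => ka (exp (Λ c ξ)) with hχ
  have hχd : DifferentiableOn ℂ χ (Wd y 0 T0) := by
    refine DifferentiableOn.comp hloc.kd ?_ hmem
    exact ((hE.diff c hc).mono fun ξ hξ => hξ.1).cexp
  have hχ0 : ∀ ξ ∈ Wd y 0 T0, χ ξ ≠ 0 := by
    intro ξ hξ h
    have h2 : ka (exp (Λ c ξ)) = ka z := by rw [hloc.kz]; exact h
    exact hne ξ hξ.1 (hloc.kinj (hmem ξ hξ) (Metric.mem_ball_self hloc.hr) h2)
  have hχi : InjOn χ (Wd y 0 T0) := by
    intro ξ1 h1 ξ2 h2 h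
    have h3 := hloc.kinj (hmem ξ1 h1) (hmem ξ2 h2) h
    obtain ⟨m, hm⟩ := hE.inj c hc ξ1 ξ2 h1.1 h2.1 h3
    have him := congrArg Complex.im hm
    have e : ((m : ℂ) * (2 * Real.pi * I)).im = m * (2 * Real.pi) := by
      have e : (m : ℂ) * (2 * Real.pi * I) = ((m * (2 * Real.pi) : ℝ) : ℂ) * I := by
        push_cast; ring
      rw [e, im_ofReal_mul]; simp
    rw [e, sub_im] at him
    have h4 : |(m : ℝ)| < 1 := by
      have h5 := h1.2.2
      have h6 := h2.2.2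
      have h7 := h1.2.1
      have h8 := h2.2.1
      have h9 : |(m : ℝ) * (2 * Real.pi)| < 2 * Real.pi := by
        rw [← him, abs_lt]
        rw [abs_lt] at h5 h6
        constructor <;> linarith
      rw [abs_mul, abs_of_pos Real.two_pi_pos] at h9
      by_contra hcon
      push Not at hcon
      nlinarith [Real.pi_pos]
    have h5 : |m| < 1 := by exact_mod_cast h4
    have h6 := Int.abs_lt_one_iff.mp h5
    rw [h6, Int.cast_zero, zero_mul] at hm
    exact sub_eq_zero.mp hm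
  obtain ⟨Fc, hFd, hFe⟩ := exists_log (isOpen_Wd y 0 T0) (convex_Wd y 0 T0) hχd hχ0
  -- the displacement
  set L : ℝ → ℂ := fun t => Fc ((t : ℂ) + y * I) with hL
  obtain ⟨L', hL'c, hL'e, hL'l⟩ := hdisp
  have hκ : HasDerivAt ka 1 z := by
    have := (hloc.kd.differentiableAt (Metric.ball_mem_nhds z hloc.hr)).hasDerivAt
    rwa [hloc.kder] at this
  have hdc := disp_const (a := NN) (T0 := T0) (ρ := ray Λ c α) (L := L) (L' := L')
    (lamq := lam ^ q) hNN1 hT0 hκ hloc.kz hland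
    (by
      refine hFd.continuousOn.comp (by fun_prop) ?_
      intro t ht
      exact pt_mem ht.1 ht.2)
    (by
      intro t ht
      rw [ray_eq]
      exact hFe _ (pt_mem ht.1 ht.2))
    hL'c hL'e hL'l
    (by
      obtain ⟨m, hm⟩ := hEx.2.1
      filter_upwards [hloc.ray_push hland q, self_mem_nhdsWithin] with t ht ht0
      rw [← LAND_.ray_pow hn hE hc hm ht0, Function.iterate_mul]
      exact ht.2)
  obtain ⟨hev, hLv⟩ := hdc
  -- the choice of `T`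
  obtain ⟨T, hTv, hT0', hTle⟩ : ∃ T : ℝ, L (NN * T) - L T = v ∧ 0 < T ∧ 2 * NN * T < T0 := by
    have h1 : ∀ᶠ t in 𝓝[>] (0 : ℝ), t ∈ Ioo 0 (T0 / (2 * NN)) :=
      Ioo_mem_nhdsGT (by positivity)
    obtain ⟨T, hT1, hT2⟩ := (hLv.and h1).exists
    refine ⟨T, hT1, hT2.1, ?_⟩
    have := (lt_div_iff₀ (by positivity : (0 : ℝ) < 2 * NN)).mp hT2.2
    linarith
  set W : ℕ → Set ℂ := fun i => Wd y ((n : ℝ) ^ i * T / 2) (2 * n * ((n : ℝ) ^ i * T)) with hWdef
  have hWsub : ∀ i, i < k * q → W i ⊆ Wd y 0 T0 := by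
    rintro i hi ξ ⟨h1, h2, h3⟩
    refine ⟨?_, ?_, h3⟩
    · have : 0 < (n : ℝ) ^ i * T / 2 := by positivity
      linarith
    · have h4 : (n : ℝ) ^ (i + 1) ≤ NN := pow_le_pow_right₀ hn1 hi
      have h5 : 2 * n * ((n : ℝ) ^ i * T) = 2 * (n : ℝ) ^ (i + 1) * T := by
        rw [pow_succ]; ring
      rw [h5] at h2
      have h6 : 2 * (n : ℝ) ^ (i + 1) * T ≤ 2 * NN * T := by
        apply mul_le_mul_of_nonneg_right _ hT0'.le
        linarith
      linarith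
  -- one level
  have hlevel : ∀ i : Fin (k * q),
      ENNReal.ofReal (‖L ((n : ℝ) ^ ((i : ℕ) + 1) * T) - L ((n : ℝ) ^ (i : ℕ) * T)‖ ^ 2) ≤
        ENNReal.ofReal C₁ * ∫⁻ w in χ '' (W i), (‖w‖ₑ ^ 2)⁻¹ := by
    intro i
    have h1 := hW' ((n : ℝ) ^ (i : ℕ) * T) y Fc (by positivity) (hFd.mono (hWsub i i.2))
    rw [← area_log hCHV (isOpen_Wd _ _ _) (hχd.mono (hWsub i i.2)) (hχi.mono (hWsub i i.2))
      (hFd.mono (hWsub i i.2)) (fun x hx => hFe x (hWsub i i.2 hx))]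
    have e1 : (n : ℝ) ^ ((i : ℕ) + 1) * T = n * ((n : ℝ) ^ (i : ℕ) * T) := by
      rw [pow_succ]; ring
    rw [e1]
    exact h1
  -- the torus
  have htor := hTOR lam (k * q) 4 (fun i => χ '' (W i)) hrep
    (by
      intro i
      exact (isOpen_Wd _ _ _).measurableSet.image_of_continuousOn_injOn
        ((hχd.mono (hWsub i i.2)).continuousOn) (hχi.mono (hWsub i i.2)))
    (by
      rintro i ⟨ξ, hξ, h0⟩
      exact hχ0 ξ (hWsub i i.2 hξ) h0)
    (by
      intro w hw P hP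
      have hch : ∀ p : Fin (k * q) × ℤ, ∃ ξ : ℂ, p ∈ P → ξ ∈ W p.1 ∧ χ ξ = lam ^ p.2 * w := by
        intro p
        by_cases hp : p ∈ P
        · obtain ⟨ξ, h1, h2⟩ := hP p hp
          exact ⟨ξ, fun _ => ⟨h1, h2⟩⟩
        · exact ⟨0, fun h => absurd h hp⟩
      choose ξ hξ using hch
      refine count hn P (fun p => (ξ p).re) hT0' ?_ ?_
      · intro p hp
        obtain ⟨⟨h1, h2, -⟩, -⟩ := hξ p hp
        exact ⟨h1, h2⟩
      · intro p hp p' hp' hle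
        obtain ⟨j, hj⟩ := Int.eq_ofNat_of_zero_le (sub_nonneg.mpr hle)
        have hw1 := hWsub p.1 p.1.2 (hξ p hp).1
        have hw2 := hWsub p'.1 p'.1.2 (hξ p' hp').1
        have he : χ (ξ p) = lam ^ j * χ (ξ p') := by
          rw [(hξ p hp).2, (hξ p' hp').2, ← mul_assoc, ← zpow_natCast lam j,
            ← zpow_add₀ hlam0]
          congr 2
          have : p.2 - p'.2 = (j : ℤ) := hj
          linarith
        obtain ⟨b, hb1, hb2⟩ := rel hn hE hc hloc hlam0 hw1.1 hw2.1 (hmem _ hw1) (hmem _ hw2) j he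
        obtain ⟨a, ha⟩ := angle hn hEx hT0N hT0 hw1 hw2 hb1 hb2
        refine ⟨a, ?_, ?_⟩
        · rw [← ha]; exact hj
        · rw [← ha]; exact hb1)
  -- summation
  have hsum : v = ∑ i : Fin (k * q),
      (L ((n : ℝ) ^ ((i : ℕ) + 1) * T) - L ((n : ℝ) ^ (i : ℕ) * T)) := by
    rw [Fin.sum_univ_eq_sum_range
      (fun i => L ((n : ℝ) ^ (i + 1) * T) - L ((n : ℝ) ^ i * T)),
      Finset.sum_range_sub (fun i => L ((n : ℝ) ^ i * T)), pow_zero, one_mul, ← hTv]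
  set Δ : Fin (k * q) → ℂ := fun i =>
    L ((n : ℝ) ^ ((i : ℕ) + 1) * T) - L ((n : ℝ) ^ (i : ℕ) * T) with hΔ
  have hcs : ‖v‖ ^ 2 ≤ (k * q : ℕ) * ∑ i, ‖Δ i‖ ^ 2 := by
    have h1 : ‖v‖ ≤ ∑ i, ‖Δ i‖ := by
      rw [hsum]
      exact norm_sum_le _ _
    have h2 := sq_sum_le_card_mul_sum_sq (s := (Finset.univ : Finset (Fin (k * q))))
      (f := fun i => ‖Δ i‖)
    rw [Finset.card_univ, Fintype.card_fin] at h2
    exact (pow_le_pow_left₀ (norm_nonneg v) h1 2).trans h2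
  have hlog : 0 < Real.log ‖lam‖ := Real.log_pos hrep
  have hre : v.re = q * Real.log ‖lam‖ := by
    have h1 := congrArg norm hev
    rw [norm_exp, norm_pow] at h1
    have h2 := congrArg Real.log h1
    rw [Real.log_exp, Real.log_pow] at h2
    exact h2
  have hfinal : ENNReal.ofReal (‖v‖ ^ 2) ≤
      ENNReal.ofReal ((k * q : ℕ) * (C₁ * (((4 : ℕ) : ℝ) * (2 * Real.pi * Real.log ‖lam‖)))) := by
    calc ENNReal.ofReal (‖v‖ ^ 2) ≤ ENNReal.ofReal ((k * q : ℕ) * ∑ i, ‖Δ i‖ ^ 2) :=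
          ENNReal.ofReal_le_ofReal hcs
      _ = ENNReal.ofReal ((k * q : ℕ) : ℝ) * ∑ i, ENNReal.ofReal (‖Δ i‖ ^ 2) := by
          rw [ENNReal.ofReal_mul (Nat.cast_nonneg _),
            ENNReal.ofReal_sum_of_nonneg (fun i _ => sq_nonneg _)]
      _ ≤ ENNReal.ofReal ((k * q : ℕ) : ℝ) *
          ∑ i : Fin (k * q), (ENNReal.ofReal C₁ * ∫⁻ w in χ '' (W i), (‖w‖ₑ ^ 2)⁻¹) := by
          refine mul_le_mul_right (Finset.sum_le_sum fun i _ => hlevel i) _
      _ = ENNReal.ofReal ((k * q : ℕ) : ℝ) * (ENNReal.ofReal C₁ *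
          ∑ i : Fin (k * q), ∫⁻ w in χ '' (W i), (‖w‖ₑ ^ 2)⁻¹) := by
          congr 1
          rw [Finset.mul_sum]
      _ ≤ ENNReal.ofReal ((k * q : ℕ) : ℝ) * (ENNReal.ofReal C₁ *
          ENNReal.ofReal (((4 : ℕ) : ℝ) * (2 * Real.pi * Real.log ‖lam‖))) := by
          gcongr
      _ = ENNReal.ofReal ((k * q : ℕ) *
          (C₁ * (((4 : ℕ) : ℝ) * (2 * Real.pi * Real.log ‖lam‖)))) := by
          rw [ENNReal.ofReal_mul (p := ((k * q : ℕ) : ℝ)) (Nat.cast_nonneg _),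
            ENNReal.ofReal_mul (p := C₁) hC₁.le]
  rw [ENNReal.ofReal_le_ofReal_iff (by positivity)] at hfinal
  rw [hre]
  push_cast at hfinal
  calc ‖v‖ ^ 2 ≤ k * q * (C₁ * (4 * (2 * Real.pi * Real.log ‖lam‖))) := hfinal
    _ = 8 * Real.pi * C₁ * k * (q * Real.log ‖lam‖) := by ring

end Pool.Agent.PLim
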