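import Pool.Agent.PLim.Targets4
import Pool.Agent.PLim.ZV

/-!
# PLIM: ZV with its constant
-/

set_option autoImplicit false

open Complex Filter Topology Set MeasureTheory
open Pool.Agent.Multibrot Pool.Agent.Limb

namespace Pool.Agent.PLim

theorem r_ZV (hBIG : T_BIG)
    (n : ℕ) (hn : 2 ≤ n) (C1 C2 : ℝ) (hC1 : 0 < C1) (hC2 : 0 < C2) (hO : OMXn n C1) (hZ : ZXn n C2) :
    ZVn n (C1 + C2) := by
  intro k Λ lh ls c z hk hB hL hfix hrho hrho1 hin
  have hre : ∀ μ : ℂ, exp μ = Rho n k c z → 0 < μ.re := by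
    intro μ hμ
    rw [← hμ, Complex.norm_exp] at hrho
    exact Real.one_lt_exp_iff.1 hrho
  have hk1 : (1 : ℝ) ≤ k := by exact_mod_cast hk
  rcases hin with ⟨hc, hom⟩ | ⟨ζ, ε, hcr, hper, hdig, hint⟩
  · obtain ⟨w, -, huniq, -, q, ν, hq, -, hν, hb⟩ := hO k Λ c z hk hB hc hfix hrho
    have hw : (1 : ℂ) = w := huniq 1 hom
    rw [← hw, mul_one] at hν
    refine ⟨ν, hν, hb.trans ?_⟩
    have hν0 := hre ν hν
    refine mul_le_mul_of_nonneg_right ?_ hν0.le
    have hq1 : (1 : ℝ) ≤ q := by exact_mod_cast hq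
    calc C1 * k / q ≤ C1 * k := div_le_self (by positivity) hq1
      _ ≤ (C1 + C2) * k := by nlinarith
  · have hc16 : ‖c‖ ≤ 16 := by
      by_contra hcc
      push Not at hcc
      exact absurd (hBIG n k c z hn hk hcc.le hfix) (not_lt.2 hrho1)
    obtain ⟨μ, hμ, hb⟩ := hZ k Λ lh ls c ζ z ε hk hB hL hcr hc16 hper hfix hdig hint
    refine ⟨μ, hμ, hb.trans ?_⟩
    have hμ0 := hre μ hμ
    refine mul_le_mul_of_nonneg_right ?_ hμ0.le
    nlinarith

end Pool.Agent.PLim
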