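import Pool.Agent.PLim.All
import Pool.Agent.PLim.PLYr
import Pool.Agent.PLim.DXr
import Pool.Agent.PLim.ZXr
import Pool.Agent.PLim.OMXr
import Pool.Agent.PLim.ZVr
import Pool.Agent.PLim.ONTOr
import Pool.Agent.PLim.NCr
import Pool.Agent.PLim.SECTr
import Pool.Agent.PLim.LIMBG
import Pool.Agent.PLim.FRO

/-!
# PLIM: the strong final assembly
-/

set_option autoImplicit false

open Complex Filter Topology Set
open Pool.Agent.Multibrot Pool.Agent.Limb

namespace Pool.Agent.PLim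

theorem a_LIMBG : T_LIMBG := p_LIMBG a_TOP a_OMC a_FIXE a_BOT a_LOG a_GREEN

/-- The constants, uniformly in `n`. -/
theorem consts (hW : T_WSEGU) (hS : T_SEGU) : ∃ C : ℝ, 0 < C ∧ ∀ n : ℕ, 2 ≤ n →
    ∃ C1 C3 : ℝ, 0 < C1 ∧ 40 ≤ C3 ∧ LIMBGn n C1 C3 ∧ C1 * C3 ≤ C * Real.log n ^ 2 := by
  obtain ⟨Cw, hCw, hw⟩ := hW
  obtain ⟨Cs, hCs, hs⟩ := hS
  have hpi := Real.pi_pos
  set a : ℝ := 8 * Real.pi * Cw with ha
  set b : ℝ := 4 * Real.pi * Cs with hb
  have ha0 : 0 < a := by positivity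
  have hb0 : 0 < b := by positivity
  refine ⟨a * (4 * (a + b) + 80 + a + 80), by positivity, ?_⟩
  intro n hn
  have hn2 : (2 : ℝ) ≤ n := by exact_mod_cast hn
  set L : ℝ := Real.log n with hL
  have hL2 : (1 : ℝ) / 2 < L := by
    have h1 := Real.log_two_gt_d9
    have h2 : Real.log 2 ≤ L := Real.log_le_log (by norm_num) hn2
    linarith
  have hL0 : 0 < L := by linarith
  have hP : PLYn n (8 * Real.pi * (Cw * L)) :=
    r_PLY a_IE a_GREEN a_LIN a_CHV a_TOR Pool.Agent.Limb.p_AREA n hn _ (by positivity) (hw n hn)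
  have hO : OMXn n (8 * Real.pi * (Cw * L)) :=
    r_OMX a_EXR a_DISPE a_UNIQ a_NZ n hn _ (by positivity) hP
  have hD : DXn n (4 * Real.pi * (Cs * L)) :=
    r_DX a_KOE a_TOR a_CHV a_BR a_GREEN a_FIXE n hn _ (by positivity) (hs n hn)
  have hX : ZXn n (4 * Real.pi * (Cs * L)) :=
    r_ZX a_RI a_PAR a_SECAN a_FIXE a_GREEN n hn _ (by positivity) hD
  have e1 : 8 * Real.pi * (Cw * L) = a * L := by rw [ha]; ring
  have e2 : 4 * Real.pi * (Cs * L) = b * L := by rw [hb]; ring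
  rw [e1] at hO
  rw [e2] at hX
  have hZ : ZVn n (a * L + b * L) := r_ZV a_BIG n hn _ _ (by positivity) (by positivity) hO hX
  have hT : ONTOn n (max (a * L + b * L) 10) :=
    r_ONTO a_HITA a_HITB a_LOP a_LU a_CNT a_LOCZ a_BIG n hn _ (by positivity) hZ
  have hmax0 : 0 < max (a * L + b * L) 10 := lt_of_lt_of_le (by norm_num) (le_max_right _ _)
  have hN : NCn n (max (a * L + b * L) 10) := r_NC a_LU a_CNT a_BOT a_LOG n hn _ hmax0 hT
  have hSe : SECTn n (max (4 * max (a * L + b * L) 10) 10) :=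
    r_SECT a_TRANS a_BIG a_LOCZ n hn _ hmax0 hN
  set C2 : ℝ := max (4 * max (a * L + b * L) 10) 10 with hC2
  have hC21 : 1 ≤ C2 := le_trans (by norm_num) (le_max_right _ _)
  have hC2L : C2 ≤ (4 * (a + b) + 80) * L := by
    refine max_le ?_ ?_
    · have h1 : max (a * L + b * L) 10 ≤ (a + b + 20) * L := by
        refine max_le ?_ ?_
        · nlinarith
        · nlinarith [mul_pos ha0 hL0, mul_pos hb0 hL0]
      calc 4 * max (a * L + b * L) 10 ≤ 4 * ((a + b + 20) * L) :=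
            mul_le_mul_of_nonneg_left h1 (by norm_num)
        _ = (4 * (a + b) + 80) * L := by ring
    · nlinarith [mul_pos ha0 hL0, mul_pos hb0 hL0]
  refine ⟨a * L, C2 + a * L + 40, by positivity, ?_,
    a_LIMBG n (a * L) C2 hn (by positivity) hC21 hO hSe, ?_⟩
  · have : 0 < a * L := by positivity
    linarith
  · have h3 : C2 + a * L + 40 ≤ (4 * (a + b) + 80 + a + 80) * L := by
      have : (40 : ℝ) ≤ 80 * L := by linarith
      nlinarith
    calc a * L * (C2 + a * L + 40) ≤ a * L * ((4 * (a + b) + 80 + a + 80) * L) :=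
          mul_le_mul_of_nonneg_left h3 (by positivity)
      _ = a * (4 * (a + b) + 80 + a + 80) * L ^ 2 := by ring

/-- The final theorem on `MM n`. -/
theorem main4 (hW : T_WSEGU) (hS : T_SEGU) (hU : T_LIMBU) (hLC : T_LCS) (hN : T_UNC)
    (hCIK : T_CIK) :
    ∃ C : ℝ, 0 < C ∧ ∀ n : ℕ, 2 ≤ n →
    (∀ (k p q : ℕ) (r z0 c : ℂ) (A : Set ℂ), IsLimb n k p q r z0 A → c ∈ A →
      ‖c - r‖ ≤ C * Real.log n ^ 3 / n * (k ^ 2 * q / ((min p (q - p) : ℕ) : ℝ) ^ 2)) ∧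
    (∀ c : ℂ, Inf n (C * Real.log n ^ 2) c → ∀ N ∈ 𝓝 c, ∃ S : Set ℂ, S ⊆ MM n ∩ N ∧
      IsConnected S ∧ IsClosed S ∧ S ∈ 𝓝[MM n] c) ∧
    ∀ c₀ ∈ frontier (MM n), ∀ N ∈ 𝓝 c₀,
      ¬ {c : ℂ | c ∈ N ∧ Inf n (C * Real.log n ^ 2) c}.Countable := by
  obtain ⟨C, hC, hc⟩ := consts hW hS
  obtain ⟨D, hD, hd⟩ := hU
  refine ⟨(D + 1) * C, by positivity, ?_⟩
  intro n hn
  have hn2 : (2 : ℝ) ≤ n := by exact_mod_cast hn
  have hL0 : 0 < Real.log n := Real.log_pos (by linarith)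
  obtain ⟨C1, C3, hC1, hC3, hG, hCC⟩ := hc n hn
  have hC30 : 0 < C3 := by linarith
  refine ⟨?_, ?_, ?_⟩
  · intro k p q r z0 c A hA hcA
    have h1 := hd n C1 C3 hn hC1 hC3 hG k p q r z0 c A hA hcA
    have hm1 : 1 ≤ min p (q - p) := by
      have h1 := hA.hp
      have h2 := hA.hpq
      omega
    have hmR : (1 : ℝ) ≤ ((min p (q - p) : ℕ) : ℝ) := by exact_mod_cast hm1
    rw [mul_div_assoc', le_div_iff₀ (by positivity)]
    refine h1.trans ?_
    have h2 : D * (C1 * C3) ≤ (D + 1) * C * Real.log n ^ 2 := by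
      have : 0 < C * Real.log n ^ 2 := by positivity
      nlinarith [mul_le_mul_of_nonneg_left hCC hD.le]
    calc D * (C1 * C3) * (Real.log n / n) * k ^ 2 * q
        = D * (C1 * C3) * ((Real.log n / n) * (k ^ 2 * q)) := by ring
      _ ≤ ((D + 1) * C * Real.log n ^ 2) * ((Real.log n / n) * (k ^ 2 * q)) :=
          mul_le_mul_of_nonneg_right h2 (by positivity)
      _ = (D + 1) * C * Real.log n ^ 3 / n * (k ^ 2 * q) := by ring
  · intro c hinf N hNc
    obtain ⟨ε, hε, hεN⟩ := Metric.mem_nhds_iff.mp hNc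
    have hinf' : Inf n (C1 * C3) c := by
      intro M
      obtain ⟨k, p, q, r, z0, A, hA, hcA, hMq, hlt⟩ := hinf M
      refine ⟨k, p, q, r, z0, A, hA, hcA, hMq, lt_of_le_of_lt ?_ hlt⟩
      have h2 : C1 * C3 ≤ (D + 1) * C * Real.log n ^ 2 := by
        have : 0 < D * (C * Real.log n ^ 2) := by positivity
        nlinarith
      gcongr
    obtain ⟨k, p, q, r, z0, A, hA, hcA, hball⟩ := hLC n C1 C3 hn hC1 hC3 hG c ε hinf' hε
    have h0M : (0 : ℂ) ∈ MM n := disc_sub hn (by rw [norm_zero]; exact r0_nonneg hn)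
    have hrM : r ∈ MM n :=
      (MM_closed n).frontier_subset (p_FRO n k p q r z0 A hn hA ⟨c, hcA⟩)
    refine ⟨insert r A, ?_, ⟨⟨r, mem_insert _ _⟩, ?_⟩, hA.cl, ?_⟩
    · intro x hx
      refine ⟨?_, hεN (hball hx)⟩
      rcases hx with rfl | hx
      · exact hrM
      · exact hA.sub hx
    · exact hCIK (MM n) A r 0 (MM_closed n) (MM_connected hn) hA.sub hrM hA.op hA.cl hA.nr h0M
        hA.n0
    · obtain ⟨U, hU, hAU⟩ := hA.op
      rw [mem_nhdsWithin]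
      refine ⟨U, hU, ?_, ?_⟩
      · rw [hAU] at hcA
        exact hcA.2
      · intro x hx
        right
        rw [hAU]
        exact ⟨hx.2, hx.1⟩
  · intro c₀ hc₀ N hNc hcount
    refine hN n c₀ N ((D + 1) * C * Real.log n ^ 2) hn hc₀ hNc (hcount.mono ?_)
    rintro c ⟨h1, -, h3⟩
    exact ⟨h1, h3⟩

end Pool.Agent.PLim
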