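import Pool.Agent.PLim.Targets

/-!
# PLIM-AREAL: the inverse branches contract
-/

set_option autoImplicit false

open Complex Filter Topology Set MeasureTheory
open Pool.Agent.Multibrot Pool.Agent.Limb

namespace Pool.Agent.PLim

namespace AREAL_

/-- the sublevel sets of the potential are bounded -/
lemma bounded {n : ℕ} {c : ℂ}
    (hclose : ∀ z : ℂ, |G n c z - Real.posLog ‖z‖| ≤ Real.log (1 + ‖c‖)) (s : ℝ) :
    Bornology.IsBounded {z : ℂ | G n c z < s} := by
  rw [isBounded_iff_forall_norm_le]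
  refine ⟨Real.exp (s + Real.log (1 + ‖c‖)), fun z hz => ?_⟩
  have h1 := abs_le.mp (hclose z)
  have h2 : Real.posLog ‖z‖ ≤ s + Real.log (1 + ‖c‖) := by
    have : G n c z < s := hz
    linarith [h1.1]
  have h3 : Real.log ‖z‖ ≤ Real.posLog ‖z‖ := le_max_right _ _
  rcases eq_or_lt_of_le (norm_nonneg z) with h0 | h0
  · rw [← h0]; exact (Real.exp_pos _).le
  · rw [← Real.log_le_iff_le_exp h0]
    linarith

/-- small potentials: the measure tends to zero -/
lemma small {n : ℕ} (hn : 2 ≤ n) {c : ℂ} (hcont : Continuous (fun z : ℂ => G n c z))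
    (hb : Bornology.IsBounded {z : ℂ | G n c z < 1}) (s : ℝ) (hs : 0 < s) :
    Tendsto (fun m : ℕ => volume {z : ℂ | 0 < G n c z ∧ G n c z < s / (n : ℝ) ^ m})
      atTop (𝓝 0) := by
  have hnR : (2 : ℝ) ≤ n := by exact_mod_cast hn
  have htend : Tendsto (fun m : ℕ => s / (n : ℝ) ^ m) atTop (𝓝 0) := by
    have h1 := tendsto_pow_atTop_nhds_zero_of_lt_one (r := (n : ℝ)⁻¹) (by positivity)
      (inv_lt_one_of_one_lt₀ (by linarith))
    have h2 := h1.const_mul s
    rw [mul_zero] at h2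
    refine h2.congr (fun m => ?_)
    rw [inv_pow, div_eq_mul_inv]
  have hmeas : ∀ m : ℕ, MeasurableSet {z : ℂ | 0 < G n c z ∧ G n c z < s / (n : ℝ) ^ m} :=
    fun m => ((isOpen_lt continuous_const hcont).inter
      (isOpen_lt hcont continuous_const)).measurableSet
  have hanti : Antitone (fun m : ℕ => {z : ℂ | 0 < G n c z ∧ G n c z < s / (n : ℝ) ^ m}) := by
    intro a b hab z hz
    refine ⟨hz.1, lt_of_lt_of_le hz.2 ?_⟩
    exact div_le_div_of_nonneg_left hs.le (by positivity)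
      (pow_le_pow_right₀ (by linarith) hab)
  have hfin : ∃ m : ℕ, volume {z : ℂ | 0 < G n c z ∧ G n c z < s / (n : ℝ) ^ m} ≠ ⊤ := by
    obtain ⟨m, hm⟩ := (htend.eventually (gt_mem_nhds (by norm_num : (0 : ℝ) < 1))).exists
    refine ⟨m, ?_⟩
    refine ne_top_of_le_ne_top hb.measure_lt_top.ne (measure_mono ?_)
    intro z hz
    exact lt_trans hz.2 hm
  have h1 := tendsto_measure_iInter_atTop (μ := volume) (fun m => (hmeas m).nullMeasurableSet)
    hanti hfin
  have h2 : (⋂ m : ℕ, {z : ℂ | 0 < G n c z ∧ G n c z < s / (n : ℝ) ^ m}) = ∅ := by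
    rw [Set.eq_empty_iff_forall_notMem]
    intro z hz
    rw [Set.mem_iInter] at hz
    have h3 : G n c z ≤ 0 := ge_of_tendsto htend (Eventually.of_forall (fun m => (hz m).2.le))
    exact absurd (hz 0).1 (not_lt.mpr h3)
  rw [h2, measure_empty] at h1
  exact h1

/-- periodicity of the inverse Böttcher map -/
lemma per {n : ℕ} (hn : 2 ≤ n) {Λ : ℂ → ℂ → ℂ} (hB : IsBot n Λ) {c s : ℂ} (hs : G n c 0 < s.re) :
    exp (Λ c (s + 2 * Real.pi * I)) = exp (Λ c s) := by
  have hn0 : (n : ℂ) ≠ 0 := by exact_mod_cast (by omega : n ≠ 0)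
  have h1 : ∀ j : ℕ, G n c 0 < (s + j * (2 * Real.pi * I / n)).re ∧
      Λ c (s + j * (2 * Real.pi * I / n)) = Λ c s + j * (2 * Real.pi * I / n) := by
    intro j
    have hre : (s + j * (2 * Real.pi * I / n)).re = s.re := by
      have : (j : ℂ) * (2 * Real.pi * I / n) = ((j * (2 * Real.pi / n) : ℝ) : ℂ) * I := by
        push_cast; ring
      rw [this]
      simp
    refine ⟨by rw [hre]; exact hs, ?_⟩
    induction j with
    | zero => simp
    | succ j ih =>
      have hre' : (s + j * (2 * Real.pi * I / n)).re = s.re := by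
        have : (j : ℂ) * (2 * Real.pi * I / n) = ((j * (2 * Real.pi / n) : ℝ) : ℂ) * I := by
          push_cast; ring
        rw [this]
        simp
      have h2 := hB.rot c (s + j * (2 * Real.pi * I / n)) (by rw [hre']; exact hs)
      have h3 : s + ((j + 1 : ℕ) : ℂ) * (2 * Real.pi * I / n)
          = s + j * (2 * Real.pi * I / n) + 2 * Real.pi * I / n := by push_cast; ring
      rw [h3, h2, ih hre']
      push_cast; ring
  have h2 := (h1 n).2
  rw [mul_div_cancel₀ _ hn0] at h2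
  rw [h2, Complex.exp_add, Complex.exp_two_pi_mul_I, mul_one]

lemma perint {n : ℕ} (hn : 2 ≤ n) {Λ : ℂ → ℂ → ℂ} (hB : IsBot n Λ) {c s : ℂ}
    (hs : G n c 0 < s.re) (k : ℤ) :
    exp (Λ c (s + k * (2 * Real.pi * I))) = exp (Λ c s) := by
  have hre : ∀ k : ℤ, (s + k * (2 * Real.pi * I)).re = s.re := by
    intro k
    have : (k : ℂ) * (2 * Real.pi * I) = ((k * (2 * Real.pi) : ℝ) : ℂ) * I := by
      push_cast; ring
    rw [this]
    simp
  induction k with
  | zero => simp
  | succ i ih =>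
    have h2 := per hn hB (c := c) (s := s + (i : ℤ) * (2 * Real.pi * I)) (by rw [hre]; exact hs)
    have h3 : s + ((((i : ℤ) + 1 : ℤ)) : ℂ) * (2 * Real.pi * I)
        = s + ((i : ℤ) : ℂ) * (2 * Real.pi * I) + 2 * Real.pi * I := by push_cast; ring
    rw [h3, h2]
    exact ih
  | pred i ih =>
    have h2 := per hn hB (c := c) (s := s + ((-(i : ℤ) - 1 : ℤ) : ℂ) * (2 * Real.pi * I))
      (by rw [hre]; exact hs)
    have h3 : s + ((-(i : ℤ) - 1 : ℤ) : ℂ) * (2 * Real.pi * I) + 2 * Real.pi * I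
        = s + ((-(i : ℤ) : ℤ) : ℂ) * (2 * Real.pi * I) := by push_cast; ring
    rw [← h2, h3]
    exact ih

end AREAL_

open AREAL_ in
theorem p_AREAL (hBR : T_BR) (hG : T_GREEN) (hCHV : T_CHV) (hDISP : T_DISP1) : T_AREAL := by
  intro n Λ lh ls c ζ hn hB hL hC ε σ η hσ hη
  obtain ⟨hcont2, hpos, hfun, hclose, -, hMM, hcc, -⟩ := hG n hn
  have hcont : Continuous (fun z : ℂ => G n c z) := by
    have h1 : Continuous (fun z : ℂ => ((c, z) : ℂ × ℂ)) := by fun_prop
    have h2 := hcont2.comp h1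
    exact h2
  obtain ⟨-, -, -, -, -, hiter, hbdi⟩ := hBR n Λ lh ls c ζ hn hB hL hC
  have hnR : (2 : ℝ) ≤ n := by exact_mod_cast hn
  have ha0 : 0 < G n c 0 := by
    refine lt_of_le_of_ne (hpos c 0) (fun h => hC.1 ?_)
    rw [hMM]; exact h.symm
  have haζ : G n c 0 < ζ.re := by
    rw [hC.2.1, hcc]
    nlinarith
  obtain ⟨σ', hσ', haσ', hσζ'⟩ : ∃ σ' : ℝ, σ ≤ σ' ∧ G n c 0 < σ' ∧ σ' < ζ.re := by
    refine ⟨max σ ((G n c 0 + ζ.re) / 2), le_max_left _ _, ?_, ?_⟩
    · exact lt_of_lt_of_le (by linarith) (le_max_right _ _)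
    · exact max_lt hσ (by linarith)
  obtain ⟨ρ, hρ0, hρ1, hρ2, hρ3⟩ : ∃ ρ : ℝ, 0 < ρ ∧ 2 * ρ ≤ σ' - G n c 0 ∧
      2 * ρ ≤ ζ.re - σ' ∧ 2 * ρ ≤ 1 := by
    refine ⟨min (min (σ' - G n c 0) (ζ.re - σ')) 1 / 2, ?_, ?_, ?_, ?_⟩
    · have : 0 < min (min (σ' - G n c 0) (ζ.re - σ')) 1 :=
        lt_min (lt_min (by linarith) (by linarith)) one_pos
      linarith
    · have h1 : min (min (σ' - G n c 0) (ζ.re - σ')) 1 ≤ σ' - G n c 0 :=
        (min_le_left _ _).trans (min_le_left _ _)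
      linarith
    · have h1 : min (min (σ' - G n c 0) (ζ.re - σ')) 1 ≤ ζ.re - σ' :=
        (min_le_left _ _).trans (min_le_right _ _)
      linarith
    · have h1 : min (min (σ' - G n c 0) (ζ.re - σ')) 1 ≤ 1 := min_le_right _ _
      linarith
  -- displacement on small balls
  have key : ∀ (m : ℕ) (ξ : ℂ), ξ.re = σ' → ∀ x ∈ Metric.ball ξ ρ, ∀ y ∈ Metric.ball ξ ρ,
      ENNReal.ofReal (‖brw n lh c ζ ε m (exp (Λ c x)) - brw n lh c ζ ε m (exp (Λ c y))‖ ^ 2) ≤
        ENNReal.ofReal (4 / Real.pi) *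
          volume {z : ℂ | 0 < G n c z ∧ G n c z < ζ.re / (n : ℝ) ^ m} := by
    intro m ξ hξ x hx y hy
    have hre : ∀ u ∈ Metric.ball ξ (2 * ρ), G n c 0 < u.re ∧ u.re < ζ.re := by
      intro u hu
      rw [Metric.mem_ball, dist_eq_norm] at hu
      have h1 := (Complex.abs_re_le_norm (u - ξ)).trans_lt hu
      rw [sub_re, hξ, abs_lt] at h1
      exact ⟨by linarith [h1.1], by linarith [h1.2]⟩
    have hmaps : MapsTo (fun u => exp (Λ c u)) (Metric.ball ξ (2 * ρ))
        {z : ℂ | G n c z < ζ.re} := by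
      intro u hu
      show G n c (exp (Λ c u)) < ζ.re
      rw [hB.green c u (hre u hu).1]
      exact (hre u hu).2
    have hhd : DifferentiableOn ℂ (fun u => exp (Λ c u)) (Metric.ball ξ (2 * ρ)) :=
      ((hB.diff c).mono (fun u hu => (hre u hu).1)).cexp
    have hdiff : DifferentiableOn ℂ (fun u => brw n lh c ζ ε m (exp (Λ c u)))
        (Metric.ball ξ (2 * ρ)) := (hbdi ε m).1.comp hhd hmaps
    have hinj : InjOn (fun u => brw n lh c ζ ε m (exp (Λ c u))) (Metric.ball ξ (2 * ρ)) := by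
      intro u hu v hv huv
      have h1 := (hbdi ε m).2 (hmaps hu) (hmaps hv) huv
      obtain ⟨k, hk⟩ := hB.inj c u v (hre u hu).1 (hre v hv).1 h1
      have h2 : ‖u - v‖ < 2 := by
        have h3 : ‖u - ξ‖ < 2 * ρ := by rwa [← dist_eq_norm, ← Metric.mem_ball]
        have h4 : ‖v - ξ‖ < 2 * ρ := by rwa [← dist_eq_norm, ← Metric.mem_ball]
        have h5 : u - v = (u - ξ) - (v - ξ) := by ring
        rw [h5]
        exact lt_of_le_of_lt (norm_sub_le _ _) (by linarith)
      rw [hk, norm_mul, norm_mul, norm_mul, norm_I, mul_one, Complex.norm_ofNat,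
        Complex.norm_real, Real.norm_eq_abs, abs_of_pos Real.pi_pos, Complex.norm_intCast] at h2
      have hk0 : k = 0 := by
        by_contra hk0
        have h3 : (1 : ℝ) ≤ |(k : ℝ)| := by
          have : (1 : ℤ) ≤ |k| := Int.one_le_abs hk0
          exact_mod_cast this
        have h4 := Real.pi_gt_three
        nlinarith
      rw [hk0] at hk
      simp only [Int.cast_zero, zero_mul] at hk
      exact sub_eq_zero.mp hk
    have h1 := hDISP ξ ρ _ hρ0 hdiff x hx y hy
    refine h1.trans (mul_le_mul_right ?_ _)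
    have h2 := hCHV (Metric.ball ξ (2 * ρ)) _ (fun _ => 1) Metric.isOpen_ball hdiff hinj
    simp only [mul_one, lintegral_one, Measure.restrict_apply MeasurableSet.univ,
      Set.univ_inter] at h2
    rw [← h2]
    refine measure_mono ?_
    rintro _ ⟨u, hu, rfl⟩
    have h3 := (hiter ε m _ (hmaps hu)).2
    show 0 < G n c (brw n lh c ζ ε m (exp (Λ c u))) ∧
      G n c (brw n lh c ζ ε m (exp (Λ c u))) < ζ.re / (n : ℝ) ^ m
    rw [h3, hB.green c u (hre u hu).1]
    refine ⟨?_, ?_⟩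
    · exact div_pos (lt_trans ha0 (hre u hu).1) (by positivity)
    · exact div_lt_div_of_pos_right (hre u hu).2 (by positivity)
  -- number of steps
  obtain ⟨N, hN⟩ := exists_nat_gt (Real.pi / ρ)
  have hN0 : (0 : ℝ) < N := lt_trans (div_pos Real.pi_pos hρ0) hN
  obtain ⟨δ, hδ0, hδ⟩ : ∃ δ : ℝ, 0 < δ ∧ 2 * (N * δ) ≤ η := by
    refine ⟨η / (2 * N), by positivity, le_of_eq ?_⟩
    field_simp
  have htend : Tendsto (fun m : ℕ => ENNReal.ofReal (4 / Real.pi) *
      volume {z : ℂ | 0 < G n c z ∧ G n c z < ζ.re / (n : ℝ) ^ m}) atTop (𝓝 0) := by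
    have h1 := ENNReal.Tendsto.const_mul (a := ENNReal.ofReal (4 / Real.pi))
      (small hn hcont (bounded (fun z => hclose c z) 1) ζ.re (lt_trans ha0 haζ))
      (Or.inr ENNReal.ofReal_ne_top)
    rwa [mul_zero] at h1
  have hev := htend.eventually (gt_mem_nhds (ENNReal.ofReal_pos.mpr (pow_pos hδ0 2)))
  obtain ⟨m₀, hm₀⟩ := eventually_atTop.mp hev
  refine ⟨m₀, fun m hm => ?_⟩
  have hstep : ∀ ξ : ℂ, ξ.re = σ' → ∀ x ∈ Metric.ball ξ ρ, ∀ y ∈ Metric.ball ξ ρ,
      ‖brw n lh c ζ ε m (exp (Λ c x)) - brw n lh c ζ ε m (exp (Λ c y))‖ ≤ δ := by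
    intro ξ hξ x hx y hy
    have h1 := (key m ξ hξ x hx y hy).trans_lt (hm₀ m hm)
    rw [ENNReal.ofReal_lt_ofReal_iff (pow_pos hδ0 2)] at h1
    exact (lt_of_pow_lt_pow_left₀ 2 hδ0.le h1).le
  -- the level
  have hlev : ∀ x : ℂ, G n c x = σ' →
      ‖brw n lh c ζ ε m x - brw n lh c ζ ε m (exp (Λ c (σ' : ℂ)))‖ ≤ N * δ := by
    intro x hx
    obtain ⟨s, hs1, hs2⟩ := hB.surj c x (by rw [hx]; exact haσ')
    obtain ⟨y, hy⟩ : ∃ y : ℝ, y = s.im - round (s.im / (2 * Real.pi)) * (2 * Real.pi) := ⟨_, rfl⟩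
    have hπ := Real.pi_pos
    have hy1 : |y| ≤ Real.pi := by
      have h1 := abs_sub_round (s.im / (2 * Real.pi))
      have h2 : y = (s.im / (2 * Real.pi) - round (s.im / (2 * Real.pi))) * (2 * Real.pi) := by
        rw [hy]; field_simp
      rw [h2, abs_mul, abs_of_pos (by positivity : (0 : ℝ) < 2 * Real.pi)]
      nlinarith
    have hxs : exp (Λ c ((σ' : ℂ) + y * I)) = x := by
      have h1 := perint hn hB (c := c) (s := s) (by rw [hs1, hx]; exact haσ')
        (-round (s.im / (2 * Real.pi)))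
      rw [← hs2, ← h1]
      congr 2
      apply Complex.ext
      · have e1 : ((-round (s.im / (2 * Real.pi)) : ℤ) : ℂ) * (2 * Real.pi * I)
            = ((-(round (s.im / (2 * Real.pi)) : ℝ) * (2 * Real.pi) : ℝ) : ℂ) * I := by
          push_cast; ring
        rw [e1]
        simp only [add_re, re_ofReal_mul, I_re, mul_zero, add_zero, ofReal_re]
        rw [hs1, hx]
      · have e1 : ((-round (s.im / (2 * Real.pi)) : ℤ) : ℂ) * (2 * Real.pi * I)
            = ((-(round (s.im / (2 * Real.pi)) : ℝ) * (2 * Real.pi) : ℝ) : ℂ) * I := by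
          push_cast; ring
        rw [e1]
        simp only [add_im, im_ofReal_mul, I_im, mul_one, ofReal_im, zero_add]
        rw [hy]; ring
    have hind : ∀ j : ℕ, j ≤ N →
        ‖brw n lh c ζ ε m (exp (Λ c ((σ' : ℂ) + ((y * j / N : ℝ) : ℂ) * I)))
          - brw n lh c ζ ε m (exp (Λ c (σ' : ℂ)))‖ ≤ j * δ := by
      intro j
      induction j with
      | zero => intro _; simp
      | succ j ih =>
        intro hj
        have h1 := ih (by omega)
        have h2 := hstep ((σ' : ℂ) + ((y * j / N : ℝ) : ℂ) * I) (by simp)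
          ((σ' : ℂ) + ((y * ((j + 1 : ℕ) : ℝ) / N : ℝ) : ℂ) * I) (by
            rw [Metric.mem_ball, dist_eq_norm]
            have h3 : (σ' : ℂ) + ((y * ((j + 1 : ℕ) : ℝ) / N : ℝ) : ℂ) * I
                - ((σ' : ℂ) + ((y * j / N : ℝ) : ℂ) * I) = ((y / N : ℝ) : ℂ) * I := by
              push_cast; ring
            rw [h3, norm_mul, norm_I, mul_one, Complex.norm_real, Real.norm_eq_abs, abs_div,
              abs_of_pos hN0, div_lt_iff₀ hN0]
            rw [div_lt_iff₀ hρ0] at hN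
            calc |y| ≤ Real.pi := hy1
              _ < N * ρ := hN
              _ = ρ * N := mul_comm _ _)
          ((σ' : ℂ) + ((y * j / N : ℝ) : ℂ) * I) (Metric.mem_ball_self hρ0)
        refine (norm_sub_le_norm_sub_add_norm_sub _
          (brw n lh c ζ ε m (exp (Λ c ((σ' : ℂ) + ((y * j / N : ℝ) : ℂ) * I)))) _).trans ?_
        push_cast at h2 ⊢
        push_cast at h1
        linarith
    have h3 := hind N le_rfl
    have h4 : y * (N : ℝ) / N = y := by field_simp
    rw [h4, hxs] at h3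
    exact h3
  -- maximum principle
  have hmax : ∀ x : ℂ, G n c x ≤ σ' →
      ‖brw n lh c ζ ε m x - brw n lh c ζ ε m (exp (Λ c (σ' : ℂ)))‖ ≤ N * δ := by
    intro x hx
    rcases hx.lt_or_eq with hlt | heq
    swap
    · exact hlev x heq
    have hcl : closure {z : ℂ | G n c z < σ'} ⊆ {z : ℂ | G n c z ≤ σ'} :=
      closure_lt_subset_le hcont continuous_const
    have hd : DiffContOnCl ℂ (fun z => brw n lh c ζ ε m z
        - brw n lh c ζ ε m (exp (Λ c (σ' : ℂ)))) {z : ℂ | G n c z < σ'} := by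
      apply DifferentiableOn.diffContOnCl
      exact ((hbdi ε m).1.mono (fun z hz => lt_of_le_of_lt (hcl hz) hσζ')).sub_const _
    refine Complex.norm_le_of_forall_mem_frontier_norm_le
      (bounded (fun z => hclose c z) σ') hd ?_ (subset_closure hlt)
    intro z hz
    exact hlev z (frontier_lt_subset_eq hcont continuous_const hz)
  intro x y hx hy
  have h1 := hmax x (hx.trans hσ')
  have h2 := hmax y (hy.trans hσ')
  refine (norm_sub_le_norm_sub_add_norm_sub _
    (brw n lh c ζ ε m (exp (Λ c (σ' : ℂ)))) _).trans ?_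
  rw [norm_sub_rev (brw n lh c ζ ε m (exp (Λ c (σ' : ℂ)))) (brw n lh c ζ ε m y)]
  linarith

end Pool.Agent.PLim
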