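import Pool.Agent.PLim.Targets
import Pool.Agent.Limb.LAND

/-!
# DISPE: the displacement of a ray around its landing point exists
-/

set_option autoImplicit false

open Complex Filter Topology Set MeasureTheory
open Pool.Agent.Multibrot Pool.Agent.Limb

namespace Pool.Agent.PLim

namespace DISPE_

/-- Continuous logarithm on a half line. -/
theorem logIoi {g : ℝ → ℂ} (hg : ContinuousOn g (Ioi 0)) (h0 : ∀ t : ℝ, 0 < t → g t ≠ 0) :
    ∃ L : ℝ → ℂ, ContinuousOn L (Ioi 0) ∧ ∀ t : ℝ, 0 < t → exp (L t) = g t := by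
  have : ContractibleSpace (Ioi (0 : ℝ)) := (convex_Ioi (0 : ℝ)).contractibleSpace
    ⟨1, mem_Ioi.2 one_pos⟩
  have hs : IsSimplyConnected (Ioi (0 : ℝ)) := SimplyConnectedSpace.ofContractible _
  obtain ⟨f, hf, hf'⟩ := exists_continuousOn_eqOn_exp_comp hs isOpen_Ioi (g := g) hg
    (by rintro ⟨p, hp, hp0⟩; exact h0 p hp hp0)
  exact ⟨f, hf, fun p hp => hf' hp⟩

/-- Two continuous logarithms on a preconnected set differ by a constant. -/
theorem logConst {U : Set ℝ} (hU : IsPreconnected U)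
    (hUn : U.Nonempty) {f g : ℝ → ℂ} (hf : ContinuousOn f U) (hg : ContinuousOn g U)
    (h : ∀ p ∈ U, exp (f p) = exp (g p)) :
    ∃ n : ℤ, ∀ p ∈ U, f p = g p + n * (2 * Real.pi * I) := by
  obtain ⟨p₀, hp₀⟩ := hUn
  obtain ⟨n, hn⟩ := exp_eq_exp_iff_exists_int.1 (h p₀ hp₀)
  refine ⟨n, ?_⟩
  have key : EqOn f (fun p => g p + n * (2 * Real.pi * I)) U := by
    refine isCoveringMap_exp.eqOn_of_comp_eqOn hU hf (by fun_prop) ?_ hp₀ hn
    intro p hp
    simp only [Function.comp_apply, Subtype.mk.injEq]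
    rw [h p hp, exp_add, exp_int_mul_two_pi_mul_I, mul_one]
  exact key

/-- A continuous logarithm of a convergent function converges. -/
theorem convLog {D : ℝ → ℂ} {μ : ℂ} (hD : ContinuousOn D (Ioi 0)) (hμ : μ ≠ 0)
    (h : Tendsto (fun t => exp (D t)) (𝓝[>] 0) (𝓝 μ)) :
    ∃ v : ℂ, Tendsto D (𝓝[>] 0) (𝓝 v) ∧ exp v = μ := by
  obtain ⟨w, hw⟩ : ∃ w, exp w = μ := ⟨log μ, exp_log hμ⟩
  have h1 : Tendsto (fun t => exp (D t - w)) (𝓝[>] 0) (𝓝 1) := by
    have h2 := h.div_const μ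
    rw [div_self hμ] at h2
    refine h2.congr fun t => ?_
    rw [exp_sub, hw]
  have hs : ∀ᶠ t in 𝓝[>] (0 : ℝ), exp (D t - w) ∈ slitPlane :=
    h1.eventually (isOpen_slitPlane.mem_nhds one_mem_slitPlane)
  obtain ⟨t0, ht0, hsl⟩ := mem_nhdsGT_iff_exists_Ioo_subset.1 hs
  have ht0 : (0 : ℝ) < t0 := ht0
  have hsl' : ∀ t ∈ Ioo 0 t0, exp (D t - w) ∈ slitPlane := fun t ht => hsl ht
  have hc1 : ContinuousOn (fun t => D t) (Ioo 0 t0) := hD.mono fun t ht => ht.1
  have hc2 : ContinuousOn (fun t => log (exp (D t - w)) + w) (Ioo 0 t0) := by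
    refine ContinuousOn.add ?_ continuousOn_const
    exact ContinuousOn.clog ((hc1.sub continuousOn_const).cexp) hsl'
  obtain ⟨m, hm⟩ := logConst isPreconnected_Ioo ⟨t0 / 2, by constructor <;> linarith⟩ hc1 hc2
    (by
      intro t _
      rw [exp_add, exp_log (exp_ne_zero _), ← exp_add, sub_add_cancel])
  refine ⟨w + m * (2 * Real.pi * I), ?_, ?_⟩
  · have h3 : Tendsto (fun t => log (exp (D t - w)) + w + m * (2 * Real.pi * I)) (𝓝[>] 0)
        (𝓝 (log 1 + w + m * (2 * Real.pi * I))) :=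
      (((continuousAt_clog one_mem_slitPlane).tendsto.comp h1).add_const _).add_const _
    rw [log_one, zero_add] at h3
    refine h3.congr' ?_
    filter_upwards [Ioo_mem_nhdsGT ht0] with t ht
    exact (hm t ht).symm
  · rw [exp_add, exp_int_mul_two_pi_mul_I, mul_one, hw]

theorem G_iter {n : ℕ} {c : ℂ} (h : ∀ z : ℂ, G n c (F n c z) = n * G n c z) (k : ℕ) :
    ∀ z : ℂ, G n c ((F n c)^[k] z) = (n : ℝ) ^ k * G n c z := by
  induction k with
  | zero => intro z; simp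
  | succ k ih =>
    intro z
    rw [Function.iterate_succ_apply, ih, h, pow_succ, mul_assoc]

theorem G_fix {n k : ℕ} {c z : ℂ} (hn : 2 ≤ n) (hk : 1 ≤ k)
    (h : ∀ z : ℂ, G n c (F n c z) = n * G n c z) (hz : (F n c)^[k] z = z) : G n c z = 0 := by
  have h1 := G_iter h k z
  rw [hz] at h1
  have h2 : (2 : ℝ) ≤ (n : ℝ) ^ k := by
    have h3 : (2 : ℝ) ≤ n := by exact_mod_cast hn
    calc (2 : ℝ) ≤ n := h3
      _ = (n : ℝ) ^ 1 := (pow_one _).symm
      _ ≤ (n : ℝ) ^ k := pow_le_pow_right₀ (by linarith) hk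
  have h4 : ((n : ℝ) ^ k - 1) * G n c z = 0 := by linarith
  rcases mul_eq_zero.1 h4 with h5 | h5
  · linarith
  · exact h5

/-- The slope of the iterate at the fixed point. -/
theorem slope_tend {n k q : ℕ} {c z : ℂ} (hz : (F n c)^[k] z = z) :
    Tendsto (fun x => ((F n c)^[k * q] x - z) / (x - z)) (𝓝[≠] z) (𝓝 (Rho n k c z ^ q)) := by
  have hdF : Differentiable ℂ (F n c) := by
    unfold F
    fun_prop
  have h1 : HasDerivAt ((F n c)^[k]) (Rho n k c z) z := (hdF.iterate k z).hasDerivAt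
  have h2 : HasDerivAt (((F n c)^[k])^[q]) (Rho n k c z ^ q) z :=
    HasDerivAt.iterate _ h1 hz q
  rw [← Function.iterate_mul] at h2
  have h3 : (F n c)^[k * q] z = z := by
    rw [Function.iterate_mul]
    exact Function.iterate_fixed hz q
  have h4 := hasDerivAt_iff_tendsto_slope.1 h2
  refine h4.congr fun x => ?_
  rw [slope_def_field, h3]

end DISPE_

open DISPE_ in
/-- DISPE -/
theorem p_DISPE (hG : T_GREEN) (hIE : T_IE) : T_DISPE := by
  intro n k q Λ c z α hn hk hq hB hc hα hl hz hR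
  obtain ⟨-, -, hfun, -, -, hMM, -, -⟩ := hG n hn
  have h0 : G n c 0 = 0 := (hMM c).1 hc
  have hE : IsExt n Λ := hIE n Λ hn hB
  have hn0 : (0 : ℝ) < n := by exact_mod_cast (by omega : 0 < n)
  set N : ℝ := (n : ℝ) ^ (k * q) with hN
  have hN0 : 0 < N := by positivity
  have hre : ∀ u : ℝ, ((u : ℂ) + 2 * Real.pi * α * I).re = u := by
    intro u
    have e : (2 * Real.pi * α * I : ℂ) = ((2 * Real.pi * α : ℝ) : ℂ) * I := by push_cast; ring
    rw [e, add_re, re_ofReal_mul]; simp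
  -- the ray is continuous and avoids z
  have hcont : ContinuousOn (fun t : ℝ => ray Λ c α t) (Ioi 0) := by
    have h1 : ContinuousOn (Λ c) {s : ℂ | 0 < s.re} := (hE.diff c hc).continuousOn
    have h2 : ContinuousOn (fun t : ℝ => Λ c ((t : ℂ) + 2 * Real.pi * α * I)) (Ioi 0) := by
      refine h1.comp (by fun_prop) ?_
      intro t ht
      show 0 < ((t : ℂ) + 2 * Real.pi * α * I).re
      rw [hre]
      exact ht
    exact h2.cexp
  have hne : ∀ t : ℝ, 0 < t → ray Λ c α t - z ≠ 0 := by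
    intro t ht h
    have h1 : G n c (ray Λ c α t) = t := by
      have h2 := hB.green c ((t : ℂ) + 2 * Real.pi * α * I) (by rw [h0, hre]; exact ht)
      rw [hre] at h2
      exact h2
    rw [sub_eq_zero.1 h, G_fix hn hk (hfun c) hz] at h1
    linarith
  have hpow : ∀ t : ℝ, 0 < t → (F n c)^[k * q] (ray Λ c α t) = ray Λ c α (N * t) := by
    intro t ht
    obtain ⟨m, hm⟩ := hα
    exact LAND_.ray_pow hn hE hc hm ht
  have hcont' : ContinuousOn (fun t : ℝ => ray Λ c α t - z) (Ioi 0) :=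
    hcont.sub continuousOn_const
  obtain ⟨L, hLc, hLe⟩ := logIoi hcont' hne
  have hDc : ContinuousOn (fun t : ℝ => L (N * t) - L t) (Ioi 0) := by
    refine ContinuousOn.sub ?_ hLc
    refine hLc.comp (by fun_prop) ?_
    intro t ht
    exact mul_pos hN0 ht
  have hR0 : Rho n k c z ^ q ≠ 0 := by
    refine pow_ne_zero _ fun h => ?_
    rw [h, norm_zero] at hR
    linarith
  have htend : Tendsto (fun t : ℝ => exp (L (N * t) - L t)) (𝓝[>] 0) (𝓝 (Rho n k c z ^ q)) := by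
    have h1 : Tendsto (ray Λ c α) (𝓝[>] (0 : ℝ)) (𝓝[≠] z) := by
      refine tendsto_nhdsWithin_iff.2 ⟨hl, ?_⟩
      filter_upwards [self_mem_nhdsWithin] with t ht h
      exact hne t ht (sub_eq_zero.2 h)
    refine ((slope_tend (q := q) hz).comp h1).congr' ?_
    filter_upwards [self_mem_nhdsWithin] with t ht
    have ht : (0 : ℝ) < t := ht
    rw [Function.comp_apply, hpow t ht, exp_sub, hLe t ht, hLe _ (mul_pos hN0 ht)]
  obtain ⟨v, hv, hev⟩ := convLog hDc hR0 htend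
  refine ⟨v, ⟨L, hLc, hLe, hv⟩, hev, ?_⟩
  rintro v' ⟨L', hLc', hLe', hv'⟩
  obtain ⟨m, hm⟩ := logConst isPreconnected_Ioi ⟨1, mem_Ioi.2 one_pos⟩ hLc' hLc (fun t ht => by
    rw [hLe t ht, hLe' t ht])
  refine tendsto_nhds_unique hv' (hv.congr' ?_)
  filter_upwards [self_mem_nhdsWithin] with t ht
  rw [hm t ht, hm _ (mul_pos hN0 ht)]
  ring

end Pool.Agent.PLim
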