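import Pool.Agent.Limb.AREA
import Pool.Agent.PLim.AREAL
import Pool.Agent.PLim.ATN
import Pool.Agent.PLim.ATTR
import Pool.Agent.PLim.ATU
import Pool.Agent.PLim.BD
import Pool.Agent.PLim.BIG
import Pool.Agent.PLim.BOT
import Pool.Agent.PLim.BOT0
import Pool.Agent.PLim.BOT1
import Pool.Agent.PLim.BR
import Pool.Agent.PLim.BV
import Pool.Agent.PLim.CHV
import Pool.Agent.PLim.CIK
import Pool.Agent.PLim.CNT
import Pool.Agent.PLim.CURV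
import Pool.Agent.PLim.CUT
import Pool.Agent.PLim.DEG1
import Pool.Agent.PLim.DISP1
import Pool.Agent.PLim.DISPE
import Pool.Agent.PLim.DX
import Pool.Agent.PLim.EM
import Pool.Agent.PLim.EXR
import Pool.Agent.PLim.FINF
import Pool.Agent.PLim.FIXE
import Pool.Agent.PLim.GREEN
import Pool.Agent.PLim.HITA
import Pool.Agent.PLim.HITB
import Pool.Agent.PLim.IE
import Pool.Agent.PLim.KOE
import Pool.Agent.PLim.KOEB
import Pool.Agent.PLim.L1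
import Pool.Agent.PLim.LIMB
import Pool.Agent.PLim.LIN
import Pool.Agent.PLim.LOC2
import Pool.Agent.PLim.LOCZ
import Pool.Agent.PLim.LOG
import Pool.Agent.PLim.LOGA
import Pool.Agent.PLim.LOGB
import Pool.Agent.PLim.LOGC
import Pool.Agent.PLim.LOGL
import Pool.Agent.PLim.LOP
import Pool.Agent.PLim.LS
import Pool.Agent.PLim.LU
import Pool.Agent.PLim.MP
import Pool.Agent.PLim.NC
import Pool.Agent.PLim.NZ
import Pool.Agent.PLim.OMC
import Pool.Agent.PLim.OMX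
import Pool.Agent.PLim.ONTO
import Pool.Agent.PLim.OSG
import Pool.Agent.PLim.PAR
import Pool.Agent.PLim.PHIp
import Pool.Agent.PLim.PLY
import Pool.Agent.PLim.RC
import Pool.Agent.PLim.RCV
import Pool.Agent.PLim.RI
import Pool.Agent.PLim.RINV
import Pool.Agent.PLim.RP
import Pool.Agent.PLim.RS
import Pool.Agent.PLim.SECAN
import Pool.Agent.PLim.SECT
import Pool.Agent.PLim.SEG
import Pool.Agent.PLim.SNAIL
import Pool.Agent.PLim.ST1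
import Pool.Agent.PLim.ST2
import Pool.Agent.PLim.TOP
import Pool.Agent.PLim.TOR
import Pool.Agent.PLim.TRA
import Pool.Agent.PLim.TRANS
import Pool.Agent.PLim.TRI
import Pool.Agent.PLim.TRL
import Pool.Agent.PLim.TRP
import Pool.Agent.PLim.TRS
import Pool.Agent.PLim.UNIQ
import Pool.Agent.PLim.WIND
import Pool.Agent.PLim.WL
import Pool.Agent.PLim.WSEG
import Pool.Agent.PLim.ZOP
import Pool.Agent.PLim.ZV
import Pool.Agent.PLim.ZX

/-!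
# PLIM: assembly of batches 1 and 2
-/

set_option autoImplicit false

namespace Pool.Agent.PLim

theorem t_BOT : T_BOT := p_BOT (p_BOT1 p_BOT0 p_GREEN p_LOGL) p_GREEN
theorem t_LOG : T_LOG := p_LOG (p_LOGA p_LOGL p_GREEN) (p_LOGB p_LOGL p_GREEN) (p_LOGC p_LOGL)
theorem t_BR : T_BR := p_BR p_GREEN
theorem t_AREAL : T_AREAL := p_AREAL t_BR p_GREEN p_CHV p_DISP1
theorem t_FIXE : T_FIXE := p_FIXE t_AREAL t_BR p_GREEN
theorem t_IE : T_IE := p_IE p_GREEN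
theorem t_LIN : T_LIN := p_LIN p_LOCZ
theorem t_L1 : T_L1 := p_L1 p_DISP1 p_CHV p_TOR
theorem t_EXR : T_EXR := p_EXR (p_EM t_IE p_GREEN t_LIN) t_L1
theorem t_DISPE : T_DISPE := p_DISPE p_GREEN t_IE
theorem t_CURV : T_CURV := p_CURV t_IE p_GREEN t_LIN
theorem t_UNIQ : T_UNIQ := p_UNIQ t_CURV p_WIND t_DISPE
theorem t_NZ : T_NZ := p_NZ t_CURV p_WIND
theorem t_WSEG : T_WSEG := p_WSEG p_DISP1
theorem t_PLY : T_PLY := p_PLY t_IE p_GREEN t_LIN t_WSEG p_CHV p_TOR Pool.Agent.Limb.p_AREA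
theorem t_OMX : T_OMX := p_OMX t_EXR t_DISPE t_UNIQ t_NZ t_PLY
theorem t_ST1 : T_ST1 := p_ST1 t_IE t_LIN
theorem t_ST2 : T_ST2 := p_ST2 p_GREEN t_BR
theorem t_OMC : T_OMC := p_OMC t_ST1 (p_RCV t_IE t_LIN) t_DISPE
theorem t_PHI : T_PHI' := p_PHIp p_GREEN p_OSG
theorem t_PAR : T_PAR := p_PAR t_PHI (p_DEG1 p_LOC2) p_GREEN
theorem t_SECAN : T_SECAN := p_SECAN t_FIXE p_LOCZ
theorem t_CNT : T_CNT := p_CNT p_MP p_LOCZ
theorem t_FINF : T_FINF := p_FINF p_MP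
theorem t_SNAIL : T_SNAIL := p_SNAIL t_IE p_GREEN p_KOEB t_WSEG p_CHV
theorem t_BD : T_BD :=
  p_BD t_ST1 t_ST2 p_LOCZ t_SNAIL t_FINF p_CUT t_FIXE t_BR p_GREEN t_IE
theorem t_RINV : T_RINV := p_RINV p_RS p_RC
theorem t_WL : T_WL := p_WL t_RINV p_RP
theorem t_LS : T_LS := p_LS p_RC p_RS
theorem t_LU : T_LU := p_LU p_GREEN t_OMX t_FIXE t_BR t_RINV t_WL t_BD
theorem t_LOP : T_LOP := p_LOP p_GREEN t_ST1 t_ST2 t_FIXE t_BR p_RP t_WL t_RINV t_PHI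
theorem t_ZOP : T_ZOP := p_ZOP p_GREEN t_OMC t_OMX t_ST2 t_FIXE t_BR p_RP
theorem t_KOE : T_KOE := p_KOE t_AREAL t_BR t_FIXE t_LIN p_GREEN
theorem t_DX : T_DX :=
  p_DX (p_SEG p_GREEN p_DISP1 p_CHV) t_KOE p_TOR p_CHV t_BR p_GREEN t_FIXE
theorem t_ZX : T_ZX := p_ZX t_DX p_RI t_PAR t_SECAN t_FIXE p_GREEN
theorem t_ZV : T_ZV := p_ZV t_ZX t_OMX p_BIG
theorem t_HITA : T_HITA := p_HITA t_LS t_PAR t_SECAN t_FIXE p_BV t_ZOP t_LOP t_LU p_GREEN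
theorem t_HITB : T_HITB := p_HITB t_OMX t_OMC t_LOP t_ZOP t_LU p_LOCZ p_GREEN
theorem t_ONTO : T_ONTO := p_ONTO t_HITA t_HITB t_LOP t_LU t_ZV t_CNT p_LOCZ p_BIG
theorem t_NC : T_NC := p_NC t_ONTO t_LU t_CNT t_BOT t_LOG
theorem t_TRANS : T_TRANS := p_TRANS p_TRA (p_TRL p_TRP (p_TRI p_TRP) p_TRS)
theorem t_SECT : T_SECT := p_SECT t_NC t_TRANS p_BIG p_LOCZ
theorem t_LIMB : T_LIMB := p_LIMB t_SECT p_TOP t_OMX t_OMC t_FIXE t_BOT t_LOG p_GREEN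

end Pool.Agent.PLim
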