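import Pool.Agent.PLim.Targets4
import Pool.Agent.Multibrot.Connected

/-!
# PLIM: conversion of the definitions
-/

set_option autoImplicit false

open Complex Filter Topology Set
open Pool.Agent.Multibrot Pool.Agent.Limb

namespace Pool.Agent.PLim

/-- The form used in the final statement. -/
def IsL (M : Set ℂ) (n k p q : ℕ) (r : ℂ) (A : Set ℂ) : Prop :=
  1 ≤ k ∧ 0 < p ∧ p < q ∧ p.Coprime q ∧
  (∃ z : ℂ, (fun z => z ^ n + r)^[k] z = z ∧
    deriv (fun z => z ^ n + r)^[k] z = exp (2 * Real.pi * I * p / q)) ∧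
  (0 : ℂ) ∉ A ∧ (∃ U : Set ℂ, IsOpen U ∧ A = (M \ {r}) ∩ U) ∧
  ∃ V : Set ℂ, IsOpen V ∧ (M \ {r}) \ A = (M \ {r}) ∩ V

lemma isL_iff (n k p q : ℕ) (r : ℂ) (A : Set ℂ) :
    IsL (MM n) n k p q r A ↔ ∃ z0 : ℂ, IsLimb n k p q r z0 A := by
  constructor
  · rintro ⟨hk, hp, hpq, hcop, ⟨z, hz, hr⟩, h0, ⟨U, hU, hAU⟩, ⟨V, hV, hAV⟩⟩
    refine ⟨z, hk, hp, hpq, hcop, hz, hr, ?_, ⟨U \ {r}, hU.sdiff isClosed_singleton, ?_⟩, ?_, ?_,
      h0⟩
    · intro x hx
      rw [hAU] at hx
      exact hx.1.1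
    · rw [hAU]
      ext x
      simp only [mem_inter_iff, Set.mem_sdiff, mem_singleton_iff]
      tauto
    · have h : insert r A = {r} ∪ (MM n ∩ (V \ {r})ᶜ) := by
        ext x
        simp only [mem_insert_iff, mem_inter_iff, mem_singleton_iff, mem_union, mem_compl_iff,
          Set.mem_sdiff]
        by_cases hx : x = r
        · simp [hx]
        · simp only [hx, not_false_eq_true, and_true, false_or]
          constructor
          · intro hxA
            have h1 : x ∈ MM n \ {r} := by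
              rw [hAU] at hxA
              exact hxA.1
            refine ⟨h1.1, fun hxV => ?_⟩
            have h2 : x ∈ (MM n \ {r}) \ A := by
              rw [hAV]
              exact ⟨h1, hxV⟩
            exact h2.2 hxA
          · rintro ⟨h1, h2⟩
            by_contra hxA
            have h3 : x ∈ (MM n \ {r}) \ A := ⟨⟨h1, hx⟩, hxA⟩
            rw [hAV] at h3
            exact h2 h3.2
      rw [h]
      exact isClosed_singleton.union ((MM_closed n).inter (hV.sdiff isClosed_singleton).isClosed_compl)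
    · intro h
      rw [hAU] at h
      exact h.1.2 rfl
  · rintro ⟨z, hL⟩
    obtain ⟨U, hU, hAU⟩ := hL.op
    refine ⟨hL.hk, hL.hp, hL.hpq, hL.cop, ⟨z, hL.fix, hL.rho⟩, hL.n0, ⟨U, hU, ?_⟩,
      ⟨(insert r A)ᶜ, hL.cl.isOpen_compl, ?_⟩⟩
    · ext x
      simp only [mem_inter_iff, Set.mem_sdiff, mem_singleton_iff]
      constructor
      · intro hx
        have h1 : x ≠ r := fun h => hL.nr (h ▸ hx)
        rw [hAU] at hx
        exact ⟨⟨hx.1, h1⟩, hx.2⟩
      · rintro ⟨⟨h1, -⟩, h3⟩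
        rw [hAU]
        exact ⟨h1, h3⟩
    · ext x
      simp only [mem_inter_iff, Set.mem_sdiff, mem_singleton_iff, mem_compl_iff, mem_insert_iff]
      tauto

end Pool.Agent.PLim
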