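import Mathlib
import Pool.Agent.Limb.Defs

/-!
# PLIM: definitions

`f_c(z) = z ^ n + c` (`Limb.F n c z`), `MM n` the Multibrot set.
-/

set_option autoImplicit false

open Complex Filter Topology Set
open Pool.Agent.Multibrot Pool.Agent.Limb

namespace Pool.Agent.PLim

/-! ### dynamics -/

/-- The multiplier: derivative of the `k`-th iterate. -/
noncomputable def Rho (n k : ℕ) (c z : ℂ) : ℂ := deriv ((F n c)^[k]) z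

/-- The Green function of `z ^ n + c`. -/
noncomputable def G (n : ℕ) (c z : ℂ) : ℝ :=
  limUnder atTop (fun j : ℕ => Real.posLog ‖(F n c)^[j] z‖ / (n : ℝ) ^ j)

/-- The logarithmic inverse Böttcher map for all parameters: `exp (Λ c s)` has potential `s.re`;
defined for `G n c 0 < s.re`. -/
structure IsBot (n : ℕ) (Λ : ℂ → ℂ → ℂ) : Prop where
  cont : ContinuousOn (fun q : ℂ × ℂ => Λ q.1 q.2) {q : ℂ × ℂ | G n q.1 0 < q.2.re}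
  diff : ∀ c : ℂ, DifferentiableOn ℂ (Λ c) {s : ℂ | G n c 0 < s.re}
  diffc : ∀ s : ℂ, DifferentiableOn ℂ (fun c => Λ c s) {c : ℂ | G n c 0 < s.re}
  func : ∀ c s : ℂ, G n c 0 < s.re → exp (n * Λ c s) = exp (Λ c (n * s)) - c
  rot : ∀ c s : ℂ, G n c 0 < s.re →
    Λ c (s + 2 * Real.pi * I / n) = Λ c s + 2 * Real.pi * I / n
  near : ∀ c s : ℂ, 2 * (1 + ‖c‖) ≤ Real.exp s.re →
    G n c 0 < s.re ∧ ‖Λ c s - s‖ ≤ ‖c‖ * Real.exp (-(n * s.re))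
  green : ∀ c s : ℂ, G n c 0 < s.re → G n c (exp (Λ c s)) = s.re
  inj : ∀ c s t : ℂ, G n c 0 < s.re → G n c 0 < t.re → exp (Λ c s) = exp (Λ c t) →
    ∃ k : ℤ, s - t = k * (2 * Real.pi * I)
  surj : ∀ c z : ℂ, G n c 0 < G n c z → ∃ s : ℂ, s.re = G n c z ∧ exp (Λ c s) = z

/-- `c` is outside `MM n` and `ζ` is the logarithmic Böttcher coordinate of the critical value. -/
def Crit (n : ℕ) (Λ : ℂ → ℂ → ℂ) (c ζ : ℂ) : Prop :=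
  c ∉ MM n ∧ ζ.re = G n c c ∧ exp (Λ c ζ) = c

/-- The slit domain. -/
def SL (n : ℕ) (c ζ : ℂ) : Set ℂ :=
  {ξ : ℂ | G n c 0 < ξ.re ∧ ∀ m : ℤ, ξ.im = ζ.im + 2 * Real.pi * m → ζ.re < ξ.re}

/-- `lh c ζ` is the logarithm of `z - c` on `{G < G(c)}`, `ls c ζ` the logarithm of
`exp (Λ c ξ) - c` on the slit domain, for `Crit n Λ c ζ`. -/
structure IsLog (n : ℕ) (Λ : ℂ → ℂ → ℂ) (lh ls : ℂ → ℂ → ℂ → ℂ) : Prop where
  lhcont : ContinuousOn (fun p : ℂ × ℂ × ℂ => lh p.1 p.2.1 p.2.2)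
    {p : ℂ × ℂ × ℂ | Crit n Λ p.1 p.2.1 ∧ G n p.1 p.2.2 < p.2.1.re}
  lhdiff : ∀ c ζ : ℂ, Crit n Λ c ζ → DifferentiableOn ℂ (lh c ζ) {z : ℂ | G n c z < ζ.re}
  lhexp : ∀ c ζ z : ℂ, Crit n Λ c ζ → G n c z < ζ.re → exp (lh c ζ z) = z - c
  lhper : ∀ c ζ z : ℂ, Crit n Λ c ζ → G n c z < ζ.re →
    lh c (ζ + 2 * Real.pi * I) z = lh c ζ z + 2 * Real.pi * I
  lsdiff : ∀ c ζ : ℂ, Crit n Λ c ζ → DifferentiableOn ℂ (ls c ζ) (SL n c ζ)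
  lsexp : ∀ c ζ ξ : ℂ, Crit n Λ c ζ → ξ ∈ SL n c ζ → exp (ls c ζ ξ) = exp (Λ c ξ) - c
  lsper : ∀ c ζ ξ : ℂ, Crit n Λ c ζ → ξ ∈ SL n c ζ →
    ls c ζ (ξ + 2 * Real.pi * I) = ls c ζ ξ + 2 * Real.pi * I
  lsL : ∀ c ζ ξ : ℂ, Crit n Λ c ζ → G n c 0 < ξ.re → ls c ζ (n * ξ) = n * Λ c ξ
  lslh : ∀ (c ζ ξ : ℂ) (m : ℤ), Crit n Λ c ζ → G n c 0 < ξ.re → ξ.re < ζ.re →
    ζ.im + 2 * Real.pi * m < ξ.im → ξ.im < ζ.im + 2 * Real.pi * (m + 1) →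
    ls c ζ ξ = lh c ζ (exp (Λ c ξ)) + 2 * Real.pi * I * m

/-- The inverse branch of index `i` on `{G < G(c)}`. -/
noncomputable def br (n : ℕ) (lh : ℂ → ℂ → ℂ → ℂ) (c ζ : ℂ) (i : ℤ) (z : ℂ) : ℂ :=
  exp ((lh c ζ z + 2 * Real.pi * I * i) / n)

/-- `br (ε 0) ∘ ... ∘ br (ε (m - 1))`. -/
noncomputable def brw (n : ℕ) (lh : ℂ → ℂ → ℂ → ℂ) (c ζ : ℂ) (ε : ℕ → ℤ) : ℕ → ℂ → ℂ
  | 0, z => z
  | m + 1, z => brw n lh c ζ ε m (br n lh c ζ (ε m) z)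

/-- `i` is the digit of `z`. -/
def Dig (n : ℕ) (lh : ℂ → ℂ → ℂ → ℂ) (c ζ z : ℂ) (i : ℤ) : Prop :=
  br n lh c ζ i (F n c z) = z

/-! ### circle maps and rotation numbers -/

/-- The inverse branch of `x ↦ n x` with cut at `θ` and digit `i`, as a lift. -/
noncomputable def Gm (n : ℕ) (θ : ℝ) (i : ℤ) (x : ℝ) : ℝ := (x - ⌊x - θ⌋ + i) / n + ⌊x - θ⌋

lemma Gm_eq (n : ℕ) (θ : ℝ) (i : ℤ) (x : ℝ) :
    Gm n θ i x = x / n + i / n + ⌊x - θ⌋ * (1 - 1 / (n : ℝ)) := by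
  unfold Gm
  ring

/-- As a monotone lift of degree one. -/
noncomputable def GmL (n : ℕ) (θ : ℝ) (i : ℤ) : CircleDeg1Lift where
  toFun := Gm n θ i
  monotone' := by
    intro x y hxy
    rw [Gm_eq, Gm_eq]
    have h1 : (0 : ℝ) ≤ 1 - 1 / (n : ℝ) := by
      rcases Nat.eq_zero_or_pos n with h | h
      · subst h; simp
      · have : (1 : ℝ) ≤ n := by exact_mod_cast h
        rw [sub_nonneg, div_le_one (by linarith)]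
        exact this
    have h2 : ((⌊x - θ⌋ : ℤ) : ℝ) ≤ ⌊y - θ⌋ := by
      exact_mod_cast Int.floor_le_floor (by linarith : x - θ ≤ y - θ)
    have h3 : x / n ≤ y / n := div_le_div_of_nonneg_right hxy (Nat.cast_nonneg n)
    have h4 := mul_le_mul_of_nonneg_right h2 h1
    linarith
  map_add_one' := by
    intro x
    rw [Gm_eq, Gm_eq]
    have h : ⌊x + 1 - θ⌋ = ⌊x - θ⌋ + 1 := by
      rw [← Int.floor_add_one]
      congr 1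
      ring
    rw [h]
    push_cast
    ring

/-- `GmL (ε 0) * ... * GmL (ε (k - 1))`. -/
noncomputable def GWL (n : ℕ) (θ : ℝ) (ε : ℕ → ℤ) : ℕ → CircleDeg1Lift
  | 0 => 1
  | k + 1 => GWL n θ ε k * GmL n θ (ε k)

/-- The rotation number. -/
noncomputable def Rot (n k : ℕ) (θ : ℝ) (ε : ℕ → ℤ) : ℝ :=
  CircleDeg1Lift.translationNumber (GWL n θ ε k)

/-- `x` is an integer. -/
def IsInt (x : ℝ) : Prop := ∃ m : ℤ, x = m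

/-- Labels. -/
abbrev Label (n k : ℕ) : Type := (Fin (k - 1) → ZMod n) × ZMod (k * (n - 1))

/-- The label of `(θ, ε)`. -/
noncomputable def lab (n k : ℕ) (θ : ℝ) (ε : ℕ → ℤ) : Label n k :=
  (fun j => ((ε ((j : ℕ) + 1) - ε 0 : ℤ) : ZMod n),
    ((⌊Rot n k (θ + ε 0) (fun j => (ε j - ε 0) % (n : ℤ))⌋ : ℤ) : ZMod (k * (n - 1))))

/-- `α` has exact period `q` under multiplication by `n ^ k` modulo one. -/
def Ex (n k q : ℕ) (α : ℝ) : Prop :=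
  1 ≤ q ∧ IsInt (((n : ℝ) ^ (k * q) - 1) * α) ∧
    ∀ q' : ℕ, 1 ≤ q' → q' < q → ¬ IsInt (((n : ℝ) ^ (k * q') - 1) * α)

/-- All iterates of `α` are different from `θ` modulo one and `ε` is the sequence of digits of
`α`. -/
def Cod (n : ℕ) (θ α : ℝ) (ε : ℕ → ℤ) : Prop :=
  (∀ t : ℕ, 1 ≤ t → ¬ IsInt ((n : ℝ) ^ t * α - θ)) ∧
    ∀ t : ℕ, (n : ℤ) ∣ ⌊(n : ℝ) ^ (t + 1) * α - θ⌋ - ε t

/-- `k`-periodic words. -/
def Per (k : ℕ) (ε : ℕ → ℤ) : Prop := ∀ t : ℕ, ε (t + k) = ε t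

/-! ### rays in the Multibrot set -/

/-- The ray of angle `α` lands at `z`. -/
def Lands (Λ : ℂ → ℂ → ℂ) (c : ℂ) (α : ℝ) (z : ℂ) : Prop :=
  Tendsto (ray Λ c α) (𝓝[>] (0 : ℝ)) (𝓝 z)

/-- The displacement of the ray of angle `α` around its landing point over `q` periods. -/
def Disp (n k q : ℕ) (Λ : ℂ → ℂ → ℂ) (c : ℂ) (α : ℝ) (z v : ℂ) : Prop :=
  ∃ L : ℝ → ℂ, ContinuousOn L (Ioi 0) ∧ (∀ t : ℝ, 0 < t → exp (L t) = ray Λ c α t - z) ∧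
    Tendsto (fun t : ℝ => L ((n : ℝ) ^ (k * q) * t) - L t) (𝓝[>] 0) (𝓝 v)

/-- Local continuation of a fixed point of `f ^ k`. -/
structure LocFix (n k : ℕ) (c0 z0 : ℂ) (δ r : ℝ) (zf : ℂ → ℂ) : Prop where
  hδ : 0 < δ
  hr : 0 < r
  zf0 : zf c0 = z0
  diff : DifferentiableOn ℂ zf (Metric.ball c0 δ)
  mem : ∀ c ∈ Metric.ball c0 δ, zf c ∈ Metric.ball z0 r
  fix : ∀ c ∈ Metric.ball c0 δ, (F n c)^[k] (zf c) = zf c
  uniq : ∀ c ∈ Metric.ball c0 δ, ∀ z ∈ Metric.ball z0 r, (F n c)^[k] z = z → z = zf c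

/-- Local linearization at a repelling fixed point of `f ^ k`, with parameter. -/
structure Lin (n k : ℕ) (c0 z0 : ℂ) (δ r η : ℝ) (zf : ℂ → ℂ) (gi ka : ℂ → ℂ → ℂ) : Prop
    extends LocFix n k c0 z0 δ r zf where
  hη0 : 0 ≤ η
  hη1 : η < 1
  rep : ∀ c ∈ Metric.ball c0 δ, 1 < ‖Rho n k c (zf c)‖
  inj : ∀ c ∈ Metric.ball c0 δ, InjOn ((F n c)^[k]) (Metric.ball z0 r)
  gimem : ∀ c ∈ Metric.ball c0 δ, ∀ x ∈ Metric.ball z0 r, gi c x ∈ Metric.ball z0 r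
  giinv : ∀ c ∈ Metric.ball c0 δ, ∀ x ∈ Metric.ball z0 r, (F n c)^[k] (gi c x) = x
  gicon : ∀ c ∈ Metric.ball c0 δ, ∀ x ∈ Metric.ball z0 r, ‖gi c x - zf c‖ ≤ η * ‖x - zf c‖
  gicont : ContinuousOn (fun p : ℂ × ℂ => gi p.1 p.2) (Metric.ball c0 δ ×ˢ Metric.ball z0 r)
  gidiff : ∀ c ∈ Metric.ball c0 δ, DifferentiableOn ℂ (gi c) (Metric.ball z0 r)
  kacont : ContinuousOn (fun p : ℂ × ℂ => ka p.1 p.2) (Metric.ball c0 δ ×ˢ Metric.ball z0 r)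
  kadiff : ∀ c ∈ Metric.ball c0 δ, DifferentiableOn ℂ (ka c) (Metric.ball z0 r)
  kainj : ∀ c ∈ Metric.ball c0 δ, InjOn (ka c) (Metric.ball z0 r)
  kazf : ∀ c ∈ Metric.ball c0 δ, ka c (zf c) = 0
  kader : ∀ c ∈ Metric.ball c0 δ, deriv (ka c) (zf c) = 1
  kagi : ∀ c ∈ Metric.ball c0 δ, ∀ x ∈ Metric.ball z0 r,
    ka c (gi c x) * Rho n k c (zf c) = ka c x

end Pool.Agent.PLim
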