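import Pool.Agent.PLim.Targets4
import Pool.Agent.PLim.SEG

/-!
# SEGU: displacement along one level, with `O (log n)` discs
-/

set_option autoImplicit false

open Complex Filter Topology Set MeasureTheory
open Pool.Agent.Multibrot Pool.Agent.Limb

namespace Pool.Agent.PLim

namespace SEGU_

open Metric SEG_

/-- Sum of integrals over sets of bounded overlap. -/
lemma overl {N M : ℕ} {E : ℕ → Set ℂ} {D : Set ℂ} (φ : ℂ → ENNReal)
    (hE : ∀ i < N, MeasurableSet (E i)) (hD : MeasurableSet D) (hED : ∀ i < N, E i ⊆ D)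
    (hM : ∀ x : ℂ, ∀ S : Finset ℕ, S ⊆ Finset.range N → (∀ i ∈ S, x ∈ E i) → S.card ≤ M) :
    ∑ i ∈ Finset.range N, ∫⁻ x in E i, φ x ≤ M * ∫⁻ x in D, φ x := by
  classical
  have h1 : ∀ S : Finset ℕ, S ⊆ Finset.range N →
      ∑ i ∈ S, ∫⁻ x in E i, φ x ≤ ∫⁻ x, ∑ i ∈ S, (E i).indicator φ x := by
    intro S
    induction S using Finset.induction_on with
    | empty => intro _; simp
    | insert a S ha ih =>
      intro hS
      have h2 : S ⊆ Finset.range N := fun i hi => hS (Finset.mem_insert_of_mem hi)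
      have h3 : a < N := Finset.mem_range.1 (hS (Finset.mem_insert_self a S))
      rw [Finset.sum_insert ha]
      have h4 : (fun x => ∑ i ∈ insert a S, (E i).indicator φ x) =
          fun x => (E a).indicator φ x + ∑ i ∈ S, (E i).indicator φ x := by
        funext x
        rw [Finset.sum_insert ha]
      rw [h4]
      refine le_trans ?_ (le_lintegral_add _ _)
      rw [lintegral_indicator (hE a h3)]
      gcongr
      exact ih h2
  refine (h1 _ (Finset.Subset.refl _)).trans ?_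
  rw [← lintegral_indicator hD, ← lintegral_const_mul' _ _ (ENNReal.natCast_ne_top M)]
  refine lintegral_mono (fun x => ?_)
  by_cases hx : x ∈ D
  · have h5 : ∑ i ∈ Finset.range N, (E i).indicator φ x =
        ∑ i ∈ (Finset.range N).filter (fun i => x ∈ E i), φ x := by
      rw [Finset.sum_filter]
      refine Finset.sum_congr rfl (fun i _ => ?_)
      simp only [Set.indicator_apply]
    rw [h5, Finset.sum_const, nsmul_eq_mul, Set.indicator_of_mem hx]
    gcongr
    exact hM x _ (Finset.filter_subset _ _) (fun i hi => (Finset.mem_filter.1 hi).2)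
  · rw [Finset.sum_eq_zero]
    · exact zero_le
    · intro i hi
      rw [Set.indicator_of_notMem]
      intro h6
      exact hx (hED i (Finset.mem_range.1 hi) h6)

/-- The facts on `h` and `l` that are used. -/
structure CtxU (n : ℕ) (c ζ : ℂ) (s : ℝ) (h l : ℂ → ℂ) : Prop extends Ctx n c ζ s h l where
  gcont : Continuous (fun x : ℂ => G n c x)
  pot : ∀ ξ χ : ℂ, s / n < ξ.re → χ ^ n = h ξ - c → n * G n c χ = ξ.re
  ldif : DifferentiableOn ℂ l {ξ : ℂ | s < ξ.re}
  lper : ∀ (ξ : ℂ) (k : ℤ), s < ξ.re → l (ξ + k * (2 * Real.pi * I)) = l ξ + k * (2 * Real.pi * I)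
  lexp2 : ∀ ξ : ℂ, s < ξ.re → exp (l ξ) = h ξ - c

/-- The shell. -/
def Sh (n : ℕ) (c : ℂ) (u v : ℝ) : Set ℂ := {x : ℂ | u < n * G n c x ∧ n * G n c x < v}

lemma ball_re {a : ℂ} {r : ℝ} {ξ : ℂ} (hξ : ξ ∈ ball a (2 * r)) :
    a.re - 2 * r < ξ.re ∧ ξ.re < a.re + 2 * r := by
  rw [mem_ball, dist_eq_norm] at hξ
  have e1 := abs_lt.1 ((abs_re_le_norm (ξ - a)).trans_lt hξ)
  rw [sub_re] at e1
  constructor <;> linarith [e1.1, e1.2]

/-- The regular charts, along a path. -/
lemma regp (hD : T_DISP1) (hC : T_CHV) {n : ℕ} {c ζ : ℂ} {s : ℝ} {h l : ℂ → ℂ}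
    (X : CtxU n c ζ s h l)
    {K : ℂ → ℂ} (hK : DifferentiableOn ℂ K {x : ℂ | G n c x < s})
    (hK0 : ∀ x : ℂ, G n c x < s → 0 < G n c x → K x ≠ 0)
    {a : ℂ} {r : ℝ} (hr : 0 < r) (h1 : s / n ≤ a.re - 2 * r) (h2 : a.re + 2 * r ≤ n * s)
    (h3 : 4 * r ≤ 2 * Real.pi) (h4 : ∀ k : ℤ, 2 * r ≤ ‖a - (ζ + k * (2 * Real.pi * I))‖)
    {γ lt L : ℝ → ℂ} {t1 t2 : ℝ} (h12 : t1 ≤ t2) (hγ : ContinuousOn γ (Icc t1 t2))
    (hγm : ∀ t ∈ Icc t1 t2, γ t ∈ ball a r) (hlc : ContinuousOn lt (Icc t1 t2))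
    (hle : ∀ t ∈ Icc t1 t2, exp (lt t) = h (γ t) - c) (hL : ContinuousOn L (Icc t1 t2))
    (hLe : ∀ t ∈ Icc t1 t2, exp (L t) = K (exp (lt t / n))) :
    ENNReal.ofReal (‖L t2 - L t1‖ ^ 2) ≤ ENNReal.ofReal (4 / Real.pi) *
      ∫⁻ x in Sh n c (a.re - 2 * r) (a.re + 2 * r), ‖deriv K x / K x‖ₑ ^ 2 := by
  have hn0 : n ≠ 0 := by have := X.hn; omega
  have hnR : (0 : ℝ) < n := by exact_mod_cast Nat.pos_of_ne_zero hn0
  have hs := X.hs
  have hre : ∀ ξ ∈ ball a (2 * r), s / n < ξ.re := by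
    intro ξ hξ
    have := (ball_re hξ).1
    linarith
  have hg : DifferentiableOn ℂ (fun ξ => h ξ - c) (ball a (2 * r)) :=
    (X.dif.mono fun ξ hξ => hre ξ hξ).sub_const c
  have hg0 : ∀ ξ ∈ ball a (2 * r), h ξ - c ≠ 0 := by
    intro ξ hξ h0
    have e0 : h ξ = h ζ := by
      have := X.per 0
      simp only [Int.cast_zero, zero_mul, add_zero] at this
      rw [this]
      exact sub_eq_zero.1 h0
    have e1 : s / n < ζ.re := by
      rw [X.hz, div_lt_iff₀ hnR]
      have : (2 : ℝ) ≤ n := by exact_mod_cast X.hn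
      nlinarith
    obtain ⟨k, hk⟩ := X.inj ξ ζ (hre ξ hξ) e1 e0
    have e2 := h4 k
    have e3 : a - (ζ + k * (2 * Real.pi * I)) = a - ξ := by rw [← hk]; ring
    rw [e3, ← dist_eq_norm, dist_comm] at e2
    exact absurd hξ (by rw [mem_ball]; exact not_lt.2 e2)
  have hginj : ∀ ξ ∈ ball a (2 * r), ∀ ξ' ∈ ball a (2 * r), h ξ - c = h ξ' - c → ξ = ξ' := by
    intro ξ hξ ξ' hξ' he
    obtain ⟨k, hk⟩ := X.inj ξ ξ' (hre ξ hξ) (hre ξ' hξ') (sub_left_injective he)
    have e1 : ‖ξ - ξ'‖ < 2 * Real.pi := by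
      have e2 : dist ξ ξ' ≤ dist ξ a + dist ξ' a := dist_triangle_right _ _ _
      rw [mem_ball] at hξ hξ'
      rw [← dist_eq_norm]
      linarith
    have e2 := small_int hk e1
    rw [e2] at hk
    simpa [sub_eq_zero] using hk
  obtain ⟨b, hb, hbe⟩ := exists_log hg (by positivity) hg0
  have hηm2 : ∀ t ∈ Icc t1 t2, γ t ∈ ball a (2 * r) := fun t ht =>
    ball_subset_ball (by linarith) (hγm t ht)
  obtain ⟨k0, hk0⟩ := log_unique h12 hlc
    (hb.continuousOn.comp hγ hηm2) (fun t ht => by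
      rw [hle t ht]
      exact (hbe _ (hηm2 t ht)).symm)
  have hpow : ∀ ξ ∈ ball a (2 * r),
      exp ((b ξ + k0 * (2 * Real.pi * I)) / n) ^ n = h ξ - c := fun ξ hξ => by
    rw [exp_shift n hn0, hbe ξ hξ]
  refine piece hD hC X.opn (Ω := Sh n c (a.re - 2 * r) (a.re + 2 * r)) (fun x hx => ?_) hK ?_ hr
    (χ := fun ξ => exp ((b ξ + k0 * (2 * Real.pi * I)) / n)) ?_ ?_ ?_ h12 hγ hγm hL ?_
  · have e1 : (n : ℝ) * G n c x < n * s := hx.2.trans_le h2
    exact lt_of_mul_lt_mul_left e1 hnR.le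
  · intro x hx
    have e1 : (n : ℝ) * G n c x < n * s := hx.2.trans_le h2
    refine hK0 x (lt_of_mul_lt_mul_left e1 hnR.le) ?_
    have e2 : 0 < (n : ℝ) * G n c x := by
      have : 0 < s / n := by positivity
      linarith [hx.1]
    exact (mul_pos_iff_of_pos_left hnR).1 e2
  · exact ((hb.add_const _).div_const _).cexp
  · intro ξ hξ ξ' hξ' he
    apply hginj ξ hξ ξ' hξ'
    rw [← hpow ξ hξ, ← hpow ξ' hξ']
    exact congrArg (fun z => z ^ n) he
  · intro ξ hξ
    have e1 := X.pot ξ _ (hre ξ hξ) (hpow ξ hξ)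
    have e2 := ball_re hξ
    exact ⟨by rw [e1]; exact e2.1, by rw [e1]; exact e2.2⟩
  · intro t ht
    rw [hLe t ht]
    have := hk0 t ht
    rw [this]
    rfl

/-- The charts on the right. -/
lemma regb (hD : T_DISP1) (hC : T_CHV) {n : ℕ} {c ζ : ℂ} {s : ℝ} {h l : ℂ → ℂ}
    (X : CtxU n c ζ s h l)
    {K : ℂ → ℂ} (hK : DifferentiableOn ℂ K {x : ℂ | G n c x < s})
    (hK0 : ∀ x : ℂ, G n c x < s → 0 < G n c x → K x ≠ 0)
    {a : ℂ} {r : ℝ} (hr : 0 < r) (h1 : s ≤ a.re - 2 * r) (h2 : a.re + 2 * r ≤ n * s)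
    (h3 : 4 * r ≤ n * (2 * Real.pi))
    {γ L : ℝ → ℂ} {t1 t2 : ℝ} (h12 : t1 ≤ t2) (hγ : ContinuousOn γ (Icc t1 t2))
    (hγm : ∀ t ∈ Icc t1 t2, γ t ∈ ball a r) (hL : ContinuousOn L (Icc t1 t2))
    (hLe : ∀ t ∈ Icc t1 t2, exp (L t) = K (exp (l (γ t) / n))) :
    ENNReal.ofReal (‖L t2 - L t1‖ ^ 2) ≤ ENNReal.ofReal (4 / Real.pi) *
      ∫⁻ x in Sh n c (a.re - 2 * r) (a.re + 2 * r), ‖deriv K x / K x‖ₑ ^ 2 := by
  have hn0 : n ≠ 0 := by have := X.hn; omega
  have hnR : (0 : ℝ) < n := by exact_mod_cast Nat.pos_of_ne_zero hn0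
  have hnC : (n : ℂ) ≠ 0 := by exact_mod_cast hn0
  have hs := X.hs
  have hsn : s / n ≤ s := by
    rw [div_le_iff₀ hnR]
    have : (2 : ℝ) ≤ n := by exact_mod_cast X.hn
    nlinarith
  have hre : ∀ ξ ∈ ball a (2 * r), s < ξ.re := by
    intro ξ hξ
    have := (ball_re hξ).1
    linarith
  have hpow : ∀ ξ ∈ ball a (2 * r), exp (l ξ / n) ^ n = h ξ - c := fun ξ hξ => by
    rw [← Complex.exp_nat_mul, mul_div_cancel₀ _ hnC, X.lexp2 ξ (hre ξ hξ)]
  refine piece hD hC X.opn (Ω := Sh n c (a.re - 2 * r) (a.re + 2 * r)) (fun x hx => ?_) hK ?_ hr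
    (χ := fun ξ => exp (l ξ / n)) ?_ ?_ ?_ h12 hγ hγm hL hLe
  · have e1 : (n : ℝ) * G n c x < n * s := hx.2.trans_le h2
    exact lt_of_mul_lt_mul_left e1 hnR.le
  · intro x hx
    have e1 : (n : ℝ) * G n c x < n * s := hx.2.trans_le h2
    refine hK0 x (lt_of_mul_lt_mul_left e1 hnR.le) ?_
    have e2 : 0 < (n : ℝ) * G n c x := by
      linarith [hx.1]
    exact (mul_pos_iff_of_pos_left hnR).1 e2
  · exact ((X.ldif.mono hre).div_const _).cexp
  · intro ξ hξ ξ' hξ' he
    have he' : exp (l ξ / n) = exp (l ξ' / n) := he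
    have e0 : h ξ = h ξ' := by
      have e1 := hpow ξ hξ
      have e2 := hpow ξ' hξ'
      rw [he'] at e1
      exact sub_left_injective (e1.symm.trans e2)
    obtain ⟨k, hk⟩ := X.inj ξ ξ' (hsn.trans_lt (hre ξ hξ)) (hsn.trans_lt (hre ξ' hξ')) e0
    have e3 : ξ = ξ' + k * (2 * Real.pi * I) := by rw [← hk]; ring
    rw [e3, X.lper ξ' k (hre ξ' hξ'), add_div, Complex.exp_add] at he'
    have e4 : exp (k * (2 * Real.pi * I) / n) = 1 := by
      have := Complex.exp_ne_zero (l ξ' / n)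
      exact mul_left_cancel₀ this (by rw [he', mul_one])
    obtain ⟨m, hm⟩ := Complex.exp_eq_one_iff.1 e4
    have e5 : (k : ℂ) = n * m := by
      have e6 : (2 * Real.pi * I : ℂ) ≠ 0 := Complex.two_pi_I_ne_zero
      have e7 : (k : ℂ) * (2 * Real.pi * I) = n * m * (2 * Real.pi * I) := by
        rw [div_eq_iff hnC] at hm
        rw [hm]; ring
      exact mul_right_cancel₀ e6 e7
    have e6 : ‖ξ - ξ'‖ < n * (2 * Real.pi) := by
      have e2 : dist ξ ξ' ≤ dist ξ a + dist ξ' a := dist_triangle_right _ _ _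
      rw [mem_ball] at hξ hξ'
      rw [← dist_eq_norm]
      linarith
    have e7 : m = 0 := by
      by_contra hm0
      have e8 : (1 : ℝ) ≤ |(m : ℝ)| := by exact_mod_cast Int.one_le_abs hm0
      have e9 : ‖ξ - ξ'‖ = n * |(m : ℝ)| * (2 * Real.pi) := by
        rw [hk, e5, norm_mul, norm_mul, norm_mul, norm_mul, norm_I, Complex.norm_intCast,
          Complex.norm_natCast]
        simp [abs_of_pos Real.pi_pos]
      rw [e9] at e6
      have e10 : (n : ℝ) * (2 * Real.pi) ≤ n * |(m : ℝ)| * (2 * Real.pi) := by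
        have := Real.pi_pos
        have : (n : ℝ) * 1 ≤ n * |(m : ℝ)| := by gcongr
        nlinarith
      linarith
    rw [e3, e5, e7]
    simp
  · intro ξ hξ
    have e1 := X.pot ξ _ (hsn.trans_lt (hre ξ hξ)) (hpow ξ hξ)
    have e2 := ball_re hξ
    exact ⟨by rw [e1]; exact e2.1, by rw [e1]; exact e2.2⟩

/-- The context for a parameter outside the Multibrot set. -/
lemma ctxU (hGR : T_GREEN) {n : ℕ} (hn : 2 ≤ n) {Λ : ℂ → ℂ → ℂ} {lh ls : ℂ → ℂ → ℂ → ℂ} {c ζ : ℂ}
    (hBot : IsBot n Λ) (hLog : IsLog n Λ lh ls) (hcrit : Crit n Λ c ζ) :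
    CtxU n c ζ ζ.re (fun ξ => exp (Λ c ξ)) (ls c ζ) := by
  have X := ctx hGR hn hBot hLog hcrit
  obtain ⟨gcont, gnn, gF, -, -, gMM, gcc, -⟩ := hGR n hn
  have hn0 : (0 : ℝ) < n := by exact_mod_cast (by omega : 0 < n)
  have hG0 : G n c 0 = ζ.re / n := by
    rw [hcrit.2.1, gcc, mul_div_cancel_left₀ _ hn0.ne']
  have hs := X.hs
  have hsn : ζ.re / n ≤ ζ.re := by
    rw [div_le_iff₀ hn0]
    have : (2 : ℝ) ≤ n := by exact_mod_cast hn
    nlinarith
  have hSL : ∀ ξ : ℂ, ζ.re < ξ.re → ξ ∈ SL n c ζ := by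
    intro ξ hξ
    exact ⟨by rw [hG0]; exact hsn.trans_lt hξ, fun m _ => hξ⟩
  have hre : ∀ (ξ : ℂ) (k : ℤ), (ξ + k * (2 * Real.pi * I)).re = ξ.re := by
    intro ξ k
    simp
  refine ⟨X, ?_, ?_, ?_, ?_, ?_⟩
  · have h8 : Continuous (fun x : ℂ => (c, x)) := by fun_prop
    have h9 : Continuous ((fun q : ℂ × ℂ => G n q.1 q.2) ∘ fun x : ℂ => (c, x)) := gcont.comp h8
    have h10 : Continuous (fun x : ℂ => G n c x) := h9
    exact h10
  · intro ξ χ h1 hχ
    have e1 : F n c χ = exp (Λ c ξ) := by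
      rw [F, hχ]
      ring
    have e2 := gF c χ
    rw [e1, hBot.green c ξ (by rw [hG0]; exact h1)] at e2
    exact e2.symm
  · exact (hLog.lsdiff c ζ hcrit).mono hSL
  · intro ξ k hξ
    induction k using Int.induction_on with
    | zero => simp
    | succ i ih =>
      have e1 := hLog.lsper c ζ (ξ + i * (2 * Real.pi * I)) hcrit (hSL _ (by
        have := hre ξ i
        push_cast at this
        rw [this]
        exact hξ))
      push_cast at ih ⊢
      have e2 : ξ + ((i : ℂ) + 1) * (2 * Real.pi * I) =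
        ξ + i * (2 * Real.pi * I) + 2 * Real.pi * I := by ring
      rw [e2, e1, ih]
      ring
    | pred i ih =>
      have e1 := hLog.lsper c ζ (ξ + ((-i - 1 : ℤ) : ℂ) * (2 * Real.pi * I)) hcrit (hSL _ (by
        rw [hre ξ (-i - 1)]
        exact hξ))
      push_cast at ih e1 ⊢
      have e2 : ξ + (-(i : ℂ) - 1) * (2 * Real.pi * I) + 2 * Real.pi * I =
        ξ + -i * (2 * Real.pi * I) := by ring
      rw [e2, ih] at e1
      linear_combination -e1
  · intro ξ hξ
    exact hLog.lsexp c ζ ξ hcrit (hSL ξ hξ)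

lemma sh_meas {n : ℕ} {c : ℂ} (hG : Continuous (fun x : ℂ => G n c x)) (u v : ℝ) :
    MeasurableSet (Sh n c u v) := by
  have h1 : Continuous (fun x : ℂ => (n : ℝ) * G n c x) := continuous_const.mul hG
  exact ((isOpen_lt continuous_const h1).inter (isOpen_lt h1 continuous_const)).measurableSet

lemma sh_sub {n : ℕ} (hn : 2 ≤ n) {c : ℂ} {s u v : ℝ} (h1 : s / n ≤ u) (h2 : v ≤ n * s) :
    Sh n c u v ⊆ {x : ℂ | s / (n : ℝ) ^ 2 < G n c x ∧ G n c x < s} := by
  have hnR : (0 : ℝ) < n := by exact_mod_cast (by omega : 0 < n)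
  intro x hx
  constructor
  · rw [pow_two, ← div_div, div_lt_iff₀ hnR, mul_comm]
    exact h1.trans_lt hx.1
  · have e1 : (n : ℝ) * G n c x < n * s := hx.2.trans_le h2
    exact lt_of_mul_lt_mul_left e1 hnR.le

/-- Runs far from the critical ends. -/
lemma far (hD : T_DISP1) (hC : T_CHV) {n : ℕ} {c ζ : ℂ} {s : ℝ} {h l : ℂ → ℂ}
    (X : CtxU n c ζ s h l) (hs6 : s ≤ 6) {y : ℝ} (hy : ∀ m : ℤ, y ≠ ζ.im + 2 * Real.pi * m)
    {K : ℂ → ℂ} (hK : DifferentiableOn ℂ K {x : ℂ | G n c x < s})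
    (hK0 : ∀ x : ℂ, G n c x < s → 0 < G n c x → K x ≠ 0)
    {L : ℝ → ℂ} {u v : ℝ} (huv : u ≤ v) (hu : s / √ (n : ℝ) ≤ u) (hv : v ≤ s * √ (n : ℝ))
    (hfar : ∀ t ∈ Icc u v, ∀ k : ℤ,
      t / 64 ≤ ‖((t : ℂ) + y * I) - (ζ + k * (2 * Real.pi * I))‖)
    (hL : ContinuousOn L (Icc u v))
    (hLe : ∀ t ∈ Icc u v, exp (L t) = K (exp (l (t + y * I) / n))) :
    ENNReal.ofReal (‖L v - L u‖ ^ 2) ≤ ENNReal.ofReal (8288 * Real.log n) *
      ∫⁻ x in {x : ℂ | s / (n : ℝ) ^ 2 < G n c x ∧ G n c x < s},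
        ‖deriv K x / K x‖ₑ ^ 2 := by
  have hn := X.hn
  have hs := X.hs
  have hn2 : (2 : ℝ) ≤ n := by exact_mod_cast hn
  have hn0 : (0 : ℝ) < n := by linarith
  set q : ℝ := √ (n : ℝ) with hq
  have hq2 : q * q = n := Real.mul_self_sqrt hn0.le
  have hq1 : 5 / 4 ≤ q := by
    apply Real.le_sqrt_of_sq_le
    norm_num
    linarith
  have hq0 : 0 < q := by linarith
  have hpi := Real.pi_gt_three
  have hpi4 := Real.pi_lt_four
  have hu0 : 0 < u := lt_of_lt_of_le (by positivity) hu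
  have hv0 : 0 < v := hu0.trans_le huv
  set ρ : ℝ := 257 / 256 with hρ
  have hρ1 : 1 < ρ := by rw [hρ]; norm_num
  have hρ0 : 0 < ρ := by linarith
  have hlogρ : 1 / 257 ≤ Real.log ρ := by
    have := Real.one_sub_inv_le_log_of_pos hρ0
    have e1 : 1 - ρ⁻¹ = 1 / 257 := by rw [hρ]; norm_num
    linarith
  have hlogρ0 : 0 < Real.log ρ := by linarith
  obtain ⟨N, hN⟩ : ∃ N : ℕ, N = ⌈Real.log (v / u) / Real.log ρ⌉₊ := ⟨_, rfl⟩
  have hvu : v / u ≤ n := by
    rw [div_le_iff₀ hu0]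
    have e1 : s = (s / q) * q := by field_simp
    have e2 : s * q ≤ n * u := by
      rw [← hq2]
      have : s ≤ u * q := by
        calc s = (s / q) * q := e1
          _ ≤ u * q := by gcongr
      nlinarith
    linarith
  have hvu1 : 1 ≤ v / u := by rwa [one_le_div hu0]
  have hlogn : 1 / 2 ≤ Real.log n := by
    have e1 := Real.one_sub_inv_le_log_of_pos (show (0 : ℝ) < 2 by norm_num)
    have e2 : Real.log 2 ≤ Real.log n := Real.log_le_log (by norm_num) hn2
    norm_num at e1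
    linarith
  have hNlog : (N : ℝ) ≤ 259 * Real.log n := by
    have e1 : (N : ℝ) < Real.log (v / u) / Real.log ρ + 1 := by
      rw [hN]
      exact Nat.ceil_lt_add_one (div_nonneg (Real.log_nonneg hvu1) hlogρ0.le)
    have e2 : Real.log (v / u) ≤ Real.log n := Real.log_le_log (by positivity) hvu
    have e3 : Real.log (v / u) / Real.log ρ ≤ 257 * Real.log n := by
      rw [div_le_iff₀ hlogρ0]
      have e4 : 0 ≤ Real.log n := by linarith
      nlinarith
    linarith
  have hlt : ∀ i < N, u * ρ ^ i < v := by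
    intro i hi
    rw [hN, Nat.lt_ceil, lt_div_iff₀ hlogρ0, ← Real.log_pow] at hi
    have e1 := (Real.log_lt_log_iff (by positivity) (by positivity)).1 hi
    rw [lt_div_iff₀ hu0] at e1
    linarith
  have hge : v ≤ u * ρ ^ N := by
    have e1 : Real.log (v / u) / Real.log ρ ≤ N := by rw [hN]; exact Nat.le_ceil _
    rw [div_le_iff₀ hlogρ0, ← Real.log_pow] at e1
    have e2 := (Real.log_le_log_iff (by positivity) (by positivity)).1 e1
    rw [div_le_iff₀ hu0] at e2
    linarith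
  obtain ⟨p, hp⟩ : ∃ p : ℕ → ℝ, ∀ i, p i = min (u * ρ ^ i) v := ⟨_, fun _ => rfl⟩
  have hp0 : p 0 = u := by rw [hp]; simp [huv]
  have hpN : p N = v := by rw [hp]; exact min_eq_right hge
  have hpi' : ∀ i < N, p i = u * ρ ^ i := fun i hi => by rw [hp]; exact min_eq_left (hlt i hi).le
  obtain ⟨T, hT⟩ : ∃ T : ℕ → ℝ, ∀ i, T i = u * ρ ^ i := ⟨_, fun _ => rfl⟩
  have hTu : ∀ i, u ≤ T i := by
    intro i
    rw [hT]
    have : 1 ≤ ρ ^ i := one_le_pow₀ hρ1.le
    nlinarith
  set D : Set ℂ := {x : ℂ | s / (n : ℝ) ^ 2 < G n c x ∧ G n c x < s} with hDdef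
  set φ : ℂ → ENNReal := fun x => ‖deriv K x / K x‖ₑ ^ 2 with hφ
  have hb1 : ∀ i, s / n ≤ T i - T i / 64 := by
    intro i
    have e1 : s / n = (s / q) / q := by rw [div_div, hq2]
    have e2 : (s / q) / q ≤ T i / q := by
      gcongr
      exact hu.trans (hTu i)
    have e3 : T i / q ≤ T i * (4 / 5) := by
      rw [div_le_iff₀ hq0]
      have := hTu i
      nlinarith
    have := hTu i
    rw [e1]
    linarith
  have hb2 : ∀ i < N, T i + T i / 64 ≤ n * s := by
    intro i hi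
    have e1 : T i ≤ s * q := by rw [hT]; exact (hlt i hi).le.trans hv
    have e2 : (n : ℝ) * s = s * q * q := by rw [← hq2]; ring
    rw [e2]
    have e3 : 0 < s * q := by positivity
    nlinarith
  have step : ∀ i < N, ENNReal.ofReal (‖L (p (i + 1)) - L (p i)‖ ^ 2) ≤
      ENNReal.ofReal (4 / Real.pi) * ∫⁻ x in Sh n c (T i - T i / 64) (T i + T i / 64), φ x := by
    intro i hi
    have hpi1 : p i = T i := by rw [hpi' i hi, hT]
    have hTi0 : 0 < T i := hu0.trans_le (hTu i)
    have hTv : T i ≤ v := by rw [hT]; exact (hlt i hi).le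
    have hle1 : p i ≤ p (i + 1) := by
      rw [hpi1, hp, hT]
      refine le_min ?_ (hlt i hi).le
      have : ρ ^ i ≤ ρ ^ (i + 1) := pow_le_pow_right₀ hρ1.le (Nat.le_succ i)
      gcongr
    have hle2 : p (i + 1) ≤ T i + T i / 256 := by
      rw [hp]
      refine (min_le_left _ _).trans ?_
      rw [hT, pow_succ, hρ]
      linarith
    have hle3 : p (i + 1) ≤ v := by rw [hp]; exact min_le_right _ _
    have hsub : Icc (p i) (p (i + 1)) ⊆ Icc u v := by
      refine Icc_subset_Icc ?_ hle3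
      rw [hpi1]
      exact hTu i
    have hγ : ContinuousOn (fun t : ℝ => ((t : ℂ) + y * I)) (Icc (p i) (p (i + 1))) := by fun_prop
    have hγm : ∀ t ∈ Icc (p i) (p (i + 1)), ((t : ℂ) + y * I) ∈
        ball ((T i : ℂ) + y * I) (T i / 128) := by
      intro t ht
      rw [mem_ball, dist_eq_norm]
      have e1 : ((t : ℂ) + y * I) - (T i + y * I) = ((t - T i : ℝ) : ℂ) := by push_cast; ring
      rw [e1, Complex.norm_real, Real.norm_eq_abs, abs_lt]
      rw [hpi1] at ht
      constructor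
      · linarith [ht.1]
      · linarith [ht.2]
    have hare : ((T i : ℂ) + y * I).re = T i := by simp
    have h2r : 2 * (T i / 128) = T i / 64 := by ring
    have hLc' := hL.mono hsub
    have hLe' : ∀ t ∈ Icc (p i) (p (i + 1)), exp (L t) = K (exp (l (t + y * I) / n)) :=
      fun t ht => hLe t (hsub ht)
    by_cases hbig : T i ≤ 2 * s
    · have key := regp hD hC X hK hK0 (a := (T i : ℂ) + y * I) (r := T i / 128) (by positivity)
        (by rw [hare, h2r]; exact hb1 i) (by rw [hare, h2r]; exact hb2 i hi) (by linarith)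
        (fun k => by
          rw [h2r]
          exact hfar (T i) ⟨hTu i, hTv⟩ k)
        (lt := fun t => l (t + y * I)) (L := L) hle1 hγ hγm
        (X.lcont y _ _ (by
          rw [hpi1]
          have := hb1 i
          linarith) hy)
        (fun t ht => X.lexp y t (by
          have := hb1 i
          rw [hpi1] at ht
          linarith [ht.1]) hy) hLc' hLe'
      rw [hare, h2r] at key
      exact key
    · rw [not_le] at hbig
      have key := regb hD hC X hK hK0 (a := (T i : ℂ) + y * I) (r := T i / 128) (by positivity)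
        (by rw [hare, h2r]; linarith) (by rw [hare, h2r]; exact hb2 i hi)
        (by
          have e1 : T i ≤ s * q := hTv.trans hv
          have e2 : s * q ≤ 6 * q := by gcongr
          have e3 : q ≤ n := by rw [← hq2]; nlinarith
          have e4 : (n : ℝ) * (2 * 3) ≤ n * (2 * Real.pi) := by gcongr
          linarith)
        (γ := fun t => (t : ℂ) + y * I) (L := L) hle1 hγ hγm hLc' hLe'
      rw [hare, h2r] at key
      exact key
  have hov := overl (N := N) (M := 16) (E := fun i => Sh n c (T i - T i / 64) (T i + T i / 64))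
    (D := D) φ (fun i _ => sh_meas X.gcont _ _)
    (((isOpen_lt continuous_const X.gcont).inter
      (isOpen_lt X.gcont continuous_const)).measurableSet)
    (fun i hi => sh_sub hn (hb1 i) (hb2 i hi)) (fun x S hS hxS => by
      rcases S.eq_empty_or_nonempty with rfl | hne
      · simp
      · obtain ⟨m, hm, hmin⟩ := S.exists_min_image id hne
        simp only [id] at hmin
        have hsub : S ⊆ Finset.Ico m (m + 16) := by
          intro i hi
          rw [Finset.mem_Ico]
          refine ⟨hmin i hi, ?_⟩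
          by_contra hcon
          rw [not_lt] at hcon
          have h1 := (hxS i hi).1
          have h2 := (hxS m hm).2
          have h3 : T m * (17 / 16) ≤ T i := by
            have e1 : ρ ^ (m + 16) ≤ ρ ^ i := pow_le_pow_right₀ hρ1.le hcon
            have e2 : (17 / 16 : ℝ) ≤ ρ ^ 16 := by
              have := one_add_mul_le_pow (a := (1 / 256 : ℝ)) (by norm_num) 16
              have e3 : (1 + 1 / 256 : ℝ) = ρ := by rw [hρ]; norm_num
              rw [e3] at this
              norm_num at this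
              linarith
            rw [hT, hT]
            calc u * ρ ^ m * (17 / 16) ≤ u * ρ ^ m * ρ ^ 16 := by gcongr
              _ = u * ρ ^ (m + 16) := by rw [pow_add]; ring
              _ ≤ u * ρ ^ i := by gcongr
          have h4 := hu0.trans_le (hTu m)
          linarith
        have := Finset.card_le_card hsub
        simpa using this)
  have e1 : ‖L v - L u‖ ^ 2 ≤ N * ∑ i ∈ Finset.range N, ‖L (p (i + 1)) - L (p i)‖ ^ 2 := by
    have e2 : L v - L u = ∑ i ∈ Finset.range N, (L (p (i + 1)) - L (p i)) := by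
      rw [Finset.sum_range_sub (fun i => L (p i)), hp0, hpN]
    have e3 : ‖L v - L u‖ ≤ ∑ i ∈ Finset.range N, ‖L (p (i + 1)) - L (p i)‖ := by
      rw [e2]
      exact norm_sum_le _ _
    have e4 := sq_sum_le_card_mul_sum_sq (s := Finset.range N)
      (f := fun i => ‖L (p (i + 1)) - L (p i)‖)
    rw [Finset.card_range] at e4
    exact (pow_le_pow_left₀ (norm_nonneg _) e3 2).trans e4
  calc ENNReal.ofReal (‖L v - L u‖ ^ 2)
      ≤ ENNReal.ofReal (N * ∑ i ∈ Finset.range N, ‖L (p (i + 1)) - L (p i)‖ ^ 2) :=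
        ENNReal.ofReal_le_ofReal e1
    _ = ENNReal.ofReal N * ∑ i ∈ Finset.range N, ENNReal.ofReal (‖L (p (i + 1)) - L (p i)‖ ^ 2) := by
        rw [ENNReal.ofReal_mul (Nat.cast_nonneg N), ENNReal.ofReal_sum_of_nonneg]
        intro i _
        positivity
    _ ≤ ENNReal.ofReal N * ∑ i ∈ Finset.range N, ENNReal.ofReal (4 / Real.pi) *
          ∫⁻ x in Sh n c (T i - T i / 64) (T i + T i / 64), φ x := by
        gcongr with i hi
        exact step i (Finset.mem_range.1 hi)
    _ = ENNReal.ofReal N * ENNReal.ofReal (4 / Real.pi) * ∑ i ∈ Finset.range N,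
          ∫⁻ x in Sh n c (T i - T i / 64) (T i + T i / 64), φ x := by
        rw [← Finset.mul_sum, mul_assoc]
    _ ≤ ENNReal.ofReal N * ENNReal.ofReal (4 / Real.pi) * ((16 : ℕ) * ∫⁻ x in D, φ x) := by
        gcongr
    _ = ENNReal.ofReal (N * (4 / Real.pi) * 16) * ∫⁻ x in D, φ x := by
        rw [ENNReal.ofReal_mul (by positivity), ENNReal.ofReal_mul (by positivity)]
        have e5 : ENNReal.ofReal 16 = ((16 : ℕ) : ENNReal) := by
          rw [← ENNReal.ofReal_natCast]
          norm_num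
        rw [e5]
        ring
    _ ≤ ENNReal.ofReal (8288 * Real.log n) * ∫⁻ x in D, φ x := by
        gcongr ENNReal.ofReal ?_ * _
        have e6 : 4 / Real.pi ≤ 2 := by
          rw [div_le_iff₀ Real.pi_pos]
          linarith
        have e7 : (N : ℝ) * (4 / Real.pi) ≤ N * 2 := by gcongr
        linarith

/-- The run near a critical end. -/
lemma near (hD : T_DISP1) (hC : T_CHV) {n : ℕ} {c ζ : ℂ} {s : ℝ} {h l : ℂ → ℂ}
    (X : CtxU n c ζ s h l) (hs6 : s ≤ 6) {y : ℝ} (hy : ∀ m : ℤ, y ≠ ζ.im + 2 * Real.pi * m)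
    {K : ℂ → ℂ} (hK : DifferentiableOn ℂ K {x : ℂ | G n c x < s})
    (hK0 : ∀ x : ℂ, G n c x < s → 0 < G n c x → K x ≠ 0)
    {L : ℝ → ℂ} (k : ℤ) (hk : |y - (ζ.im + 2 * Real.pi * k)| < s / 16) {u v : ℝ}
    (hu : u = s - s / 8) (hv : v = s + s / 8)
    (hL : ContinuousOn L (Icc u v))
    (hLe : ∀ t ∈ Icc u v, exp (L t) = K (exp (l (t + y * I) / n))) :
    ENNReal.ofReal (‖L v - L u‖ ^ 2) ≤ ENNReal.ofReal (((64 : ℕ) : ℝ) ^ 2 * (4 / Real.pi)) *
      ∫⁻ x in {x : ℂ | s / (n : ℝ) ^ 2 < G n c x ∧ G n c x < s},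
        ‖deriv K x / K x‖ₑ ^ 2 := by
  have hn := X.hn
  have hs := X.hs
  have hn2 : (2 : ℝ) ≤ n := by exact_mod_cast hn
  have hn0 : (0 : ℝ) < n := by linarith
  have hn0' : n ≠ 0 := by omega
  have hpi := Real.pi_gt_three
  have hpi4 : Real.pi < 3.15 := Real.pi_lt_d2
  have hsn : s / n ≤ s / 2 := by gcongr
  have hns : 2 * s ≤ n * s := by gcongr
  have huv : u ≤ v := by rw [hu, hv]; linarith
  have hu0 : s / n < u := by rw [hu]; linarith
  set ζk : ℂ := ζ + k * (2 * Real.pi * I) with hζk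
  have hζre : ζk.re = s := by rw [hζk, ← X.hz]; simp
  have hζim : ζk.im = ζ.im + 2 * Real.pi * k := by rw [hζk]; simp; ring
  set d : ℝ := y - ζk.im with hd
  have hd0 : d ≠ 0 := by
    rw [hd, hζim]
    exact sub_ne_zero.2 (hy k)
  have hd1 : |d| < s / 16 := by rw [hd, hζim]; exact hk
  have hd2 : d ^ 2 ≤ (s / 16) ^ 2 := by
    rw [← sq_abs]
    exact pow_le_pow_left₀ (abs_nonneg d) hd1.le 2
  -- the path
  have hre0 : ∀ t : ℝ, ((t : ℂ) + y * I - ζk).re = t - s := by intro t; simp [hζre]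
  have him0 : ∀ t : ℝ, ((t : ℂ) + y * I - ζk).im = d := by intro t; simp [hd]
  have hslit : ∀ t : ℝ, (t : ℂ) + y * I - ζk ∈ slitPlane := by
    intro t
    rw [mem_slitPlane_iff]
    right
    rw [him0]
    exact hd0
  have hne : ∀ t : ℝ, (t : ℂ) + y * I - ζk ≠ 0 := fun t => slitPlane_ne_zero (hslit t)
  have hsq : ∀ t : ℝ, ‖(t : ℂ) + y * I - ζk‖ ^ 2 = (t - s) ^ 2 + d ^ 2 := by
    intro t
    rw [Complex.sq_norm, Complex.normSq_apply, hre0, him0]
    ring
  have hup : ∀ t ∈ Icc u v, ‖(t : ℂ) + y * I - ζk‖ ≤ 7 * s / 50 := by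
    intro t ht
    apply abs_le_of_sq_le_sq' _ (by positivity) |>.2
    rw [hsq]
    have e1 : (t - s) ^ 2 ≤ (s / 8) ^ 2 := by
      apply sq_le_sq'
      · rw [hu] at ht; linarith [ht.1]
      · rw [hv] at ht; linarith [ht.2]
    nlinarith
  obtain ⟨w, hw⟩ : ∃ w : ℝ → ℂ, ∀ t, w t = log ((t : ℂ) + y * I - ζk) := ⟨_, fun _ => rfl⟩
  have hwe : ∀ t, exp (w t) = (t : ℂ) + y * I - ζk := fun t => by rw [hw, exp_log (hne t)]
  have hwc : ContinuousOn w (Icc u v) := by
    have e1 : ContinuousOn (fun t : ℝ => (t : ℂ) + y * I - ζk) (Icc u v) := by fun_prop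
    have e2 := e1.clog (fun t _ => hslit t)
    exact e2.congr (fun t _ => hw t)
  have hwre : ∀ t, (w t).re = Real.log ‖(t : ℂ) + y * I - ζk‖ := fun t => by rw [hw, log_re]
  have hwim : ∀ t, |(w t).im| ≤ Real.pi := fun t => by
    rw [hw, log_im]
    exact abs_arg_le_pi _
  -- the ball
  set β : ℝ := Real.log (s / 4) with hβ
  set A : ℝ := |β - Real.log (|d|)| with hA
  set R : ℝ := A + 40 with hR
  have hA0 : 0 ≤ A := abs_nonneg _
  have hR0 : 0 < R := by rw [hR]; linarith
  set B : Set ℂ := ball ((β - R : ℝ) : ℂ) R with hB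
  have hwB : ∀ t ∈ Icc u v, w t ∈ B := by
    intro t ht
    have hpos : 0 < ‖(t : ℂ) + y * I - ζk‖ := norm_pos_iff.2 (hne t)
    have e1 : (w t).re ≤ β - 11 / 25 := by
      rw [hwre, hβ]
      have e2 := Real.log_le_log hpos (hup t ht)
      have e3 : Real.log (7 * s / 50) = Real.log (s / 4) - Real.log (25 / 14) := by
        rw [← Real.log_div (by positivity) (by norm_num)]
        congr 1
        field_simp
        norm_num
      have e4 := Real.one_sub_inv_le_log_of_pos (show (0 : ℝ) < 25 / 14 by norm_num)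
      norm_num at e4
      linarith
    have e2 : β - A ≤ (w t).re := by
      have e3 : Real.log (|d|) ≤ (w t).re := by
        rw [hwre]
        apply Real.log_le_log (abs_pos.2 hd0)
        have := abs_im_le_norm ((t : ℂ) + y * I - ζk)
        rwa [him0] at this
      have e4 : β - Real.log (|d|) ≤ A := le_abs_self _
      linarith
    rw [hB, mem_ball, dist_eq_norm]
    apply lt_of_pow_lt_pow_left₀ 2 hR0.le
    rw [Complex.sq_norm, Complex.normSq_apply]
    have e5 : (w t - ((β - R : ℝ) : ℂ)).re = (w t).re - β + R := by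
      rw [sub_re, ofReal_re]; ring
    have e6 : (w t - ((β - R : ℝ) : ℂ)).im = (w t).im := by
      rw [sub_im, ofReal_im, sub_zero]
    rw [e5, e6]
    have e7 : (w t).im * (w t).im ≤ 10 := by
      have := hwim t
      have e8 : (w t).im ^ 2 ≤ Real.pi ^ 2 := by
        rw [← sq_abs]
        exact pow_le_pow_left₀ (abs_nonneg _) this 2
      nlinarith
    set δ : ℝ := β - (w t).re with hδ
    have e9 : (w t).re - β + R = R - δ := by rw [hδ]; ring
    rw [e9]
    have e10 : δ ≤ A := by rw [hδ]; linarith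
    have e11 : 11 / 25 ≤ δ := by rw [hδ]; linarith
    rw [hR]
    nlinarith
  have hBre : ∀ x ∈ B, x.re < β := by
    intro x hx
    rw [hB, mem_ball, dist_eq_norm] at hx
    have e1 := (le_abs_self _).trans_lt ((abs_re_le_norm _).trans_lt hx)
    rw [sub_re, ofReal_re] at e1
    linarith
  have hexpn : ∀ x ∈ B, ‖exp x‖ < s / 4 := by
    intro x hx
    rw [norm_exp, ← Real.exp_log (show 0 < s / 4 by positivity)]
    exact Real.exp_lt_exp.2 (hBre x hx)
  have hre : ∀ x ∈ B, 3 * s / 4 < (ζk + exp x).re ∧ (ζk + exp x).re < 5 * s / 4 := by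
    intro x hx
    have e1 := abs_lt.1 ((abs_re_le_norm (exp x)).trans_lt (hexpn x hx))
    rw [add_re, hζre]
    constructor <;> linarith [e1.1, e1.2]
  have hsn' : ∀ x ∈ B, s / n < (ζk + exp x).re := by
    intro x hx
    linarith [(hre x hx).1]
  have hΦ : DifferentiableOn ℂ (fun x => h (ζk + exp x) - c) B := by
    refine DifferentiableOn.sub_const ?_ c
    exact X.dif.comp ((differentiableOn_const ζk).add differentiableOn_id.cexp)
      (fun x hx => hsn' x hx)
  have hΦ0 : ∀ x ∈ B, h (ζk + exp x) - c ≠ 0 := by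
    intro x hx h0
    have e0 : h (ζk + exp x) = h ζk := by
      rw [hζk, X.per k, ← hζk]
      exact sub_eq_zero.1 h0
    obtain ⟨m, hm⟩ := X.inj _ _ (hsn' x hx) (by rw [hζre]; linarith) e0
    have e1 : exp x = m * (2 * Real.pi * I) := by rw [← hm]; ring
    have e2 : ‖exp x‖ < 2 * Real.pi := by linarith [hexpn x hx]
    have e3 := small_int e1 e2
    rw [e3] at e1
    simp at e1
  obtain ⟨b, hb, hbe⟩ := exists_log hΦ hR0 hΦ0
  obtain ⟨k0, hk0⟩ := log_unique huv (X.lcont y u v hu0 hy)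
    (hb.continuousOn.comp hwc hwB) (fun t ht => by
      rw [X.lexp y t (hu0.trans_le ht.1) hy]
      have e1 := hbe _ (hwB t ht)
      have e2 : ζk + exp (w t) = (t : ℂ) + y * I := by rw [hwe]; ring
      rw [e2] at e1
      exact e1.symm)
  obtain ⟨χ, hχ⟩ : ∃ χ : ℂ → ℂ, ∀ x, χ x = exp ((b x + k0 * (2 * Real.pi * I)) / n) :=
    ⟨_, fun _ => rfl⟩
  have hχd : DifferentiableOn ℂ χ B := by
    have e1 : χ = fun x => exp ((b x + k0 * (2 * Real.pi * I)) / n) := funext hχ
    rw [e1]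
    exact ((hb.add_const _).div_const _).cexp
  have hχp : ∀ x ∈ B, χ x ^ n = h (ζk + exp x) - c := fun x hx => by
    rw [hχ, exp_shift n hn0', hbe x hx]
  have hχG : ∀ x ∈ B, n * G n c (χ x) = (ζk + exp x).re := fun x hx =>
    X.pot _ _ (hsn' x hx) (hχp x hx)
  have hχm : ∀ x ∈ B, 0 < G n c (χ x) ∧ G n c (χ x) < s := by
    intro x hx
    have e1 := hχG x hx
    have e2 := hre x hx
    constructor
    · have e3 : 0 < (n : ℝ) * G n c (χ x) := by rw [e1]; linarith [e2.1]
      exact (mul_pos_iff_of_pos_left hn0).1 e3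
    · have e3 : (n : ℝ) * G n c (χ x) < n * s := by rw [e1]; linarith [e2.2]
      exact lt_of_mul_lt_mul_left e3 hn0.le
  have hΨ : DifferentiableOn ℂ (fun x => K (χ x)) B :=
    hK.comp hχd (fun x hx => (hχm x hx).2)
  obtain ⟨F, hF, hFe⟩ := exists_log hΨ hR0 (fun x hx => hK0 _ (hχm x hx).2 (hχm x hx).1)
  obtain ⟨k1, hk1⟩ := log_unique huv hL (hF.continuousOn.comp hwc hwB) (fun t ht => by
      rw [hLe t ht]
      have e1 := hFe _ (hwB t ht)
      have e2 := hk0 t ht
      have e3 : l ((t : ℂ) + y * I) = b (w t) + k0 * (2 * Real.pi * I) := e2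
      rw [e3, ← hχ]
      exact e1.symm)
  have hdiff : L v - L u = F (w v) - F (w u) := by
    rw [hk1 v ⟨huv, le_rfl⟩, hk1 u ⟨le_rfl, huv⟩]
    simp only [Function.comp]
    ring
  have hwu : w u ∈ B := hwB u ⟨le_rfl, huv⟩
  have hwv : w v ∈ B := hwB v ⟨huv, le_rfl⟩
  have hreq : (w v).re = (w u).re := by
    rw [hwre, hwre]
    congr 1
    have e1 : ‖(v : ℂ) + y * I - ζk‖ ^ 2 = ‖(u : ℂ) + y * I - ζk‖ ^ 2 := by
      rw [hsq, hsq, hu, hv]
      ring
    exact (pow_left_inj₀ (norm_nonneg _) (norm_nonneg _) two_ne_zero).1 e1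
  set θ : ℝ := (w v).im - (w u).im with hθ
  have hθ2 : |θ| ≤ 2 * Real.pi := by
    have e1 := abs_sub (w v).im (w u).im
    have e2 := hwim v
    have e3 := hwim u
    rw [hθ]
    linarith
  have hwd : w v - w u = θ * I := by
    apply Complex.ext
    · simp [hreq]
    · simp [hθ]
  set ρ : ℝ := ‖(u : ℂ) + y * I - ζk‖ with hρ
  have hρ1 : ρ ≤ 7 * s / 50 := hup u ⟨le_rfl, huv⟩
  have hρ2 : s / 8 ≤ ρ := by
    have e1 := abs_re_le_norm ((u : ℂ) + y * I - ζk)
    rw [hre0, hu] at e1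
    have e2 : |s - s / 8 - s| = s / 8 := by
      rw [show s - s / 8 - s = -(s / 8) by ring, abs_neg, abs_of_pos (by positivity)]
    rw [e2, ← hu] at e1
    exact e1
  obtain ⟨W, hW⟩ : ∃ W : ℝ → ℂ, ∀ τ, W τ = w u + τ * (w v - w u) := ⟨_, fun _ => rfl⟩
  have hWB : ∀ τ ∈ Icc (0 : ℝ) 1, W τ ∈ B := by
    intro τ hτ
    have e1 := (convex_ball ((β - R : ℝ) : ℂ) R).add_smul_sub_mem hwu hwv hτ
    rw [hW]
    rw [real_smul] at e1
    exact e1
  have hWc : Continuous W := by
    have e1 : W = fun τ : ℝ => w u + τ * (w v - w u) := funext hW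
    rw [e1]
    fun_prop
  have hWn : ∀ τ, ‖exp (W τ)‖ = ρ := by
    intro τ
    rw [hW, hwd, norm_exp, hρ, ← hwe u, norm_exp]
    congr 1
    simp
  have hchain := chain (I0 := ∫⁻ x in {x : ℂ | s / (n : ℝ) ^ 2 < G n c x ∧ G n c x < s},
      ‖deriv K x / K x‖ₑ ^ 2) (N := 64) (by norm_num) (f := fun j : ℕ => F (W ((j : ℝ) / 64)))
    (fun j hj => by
      have hjR : (j : ℝ) + 1 ≤ 64 := by exact_mod_cast hj
      have hj0 : (0 : ℝ) ≤ j := Nat.cast_nonneg j
      have hsubI : Icc ((j : ℝ) / 64) (((j + 1 : ℕ) : ℝ) / 64) ⊆ Icc 0 1 := by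
        refine Icc_subset_Icc (by positivity) ?_
        push_cast
        rw [div_le_one (by norm_num)]
        exact hjR
      have hle : (j : ℝ) / 64 ≤ ((j + 1 : ℕ) : ℝ) / 64 := by
        push_cast
        gcongr
        linarith
      have hjm : (j : ℝ) / 64 ∈ Icc ((j : ℝ) / 64) (((j + 1 : ℕ) : ℝ) / 64) := ⟨le_rfl, hle⟩
      have hWjB := hWB _ (hsubI hjm)
      set a : ℂ := ζk + exp (W ((j : ℝ) / 64)) with ha
      have hare : s - ρ ≤ a.re ∧ a.re ≤ s + ρ := by
        have e1 := abs_le.1 ((abs_re_le_norm (exp (W ((j : ℝ) / 64)))))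
        rw [hWn] at e1
        rw [ha, add_re, hζre]
        constructor <;> linarith [e1.1, e1.2]
      have key := regp hD hC X hK hK0 (a := a) (r := s / 64) (by positivity)
        (by linarith [hare.1]) (by linarith [hare.2]) (by linarith)
        (fun m => by
          by_cases hmk : m = k
          · have e1 : a - (ζ + m * (2 * Real.pi * I)) = exp (W ((j : ℝ) / 64)) := by
              rw [hmk, ha, hζk]; ring
            rw [e1, hWn]
            linarith
          · have e1 : a - (ζ + m * (2 * Real.pi * I)) =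
                exp (W ((j : ℝ) / 64)) - ((m - k : ℤ) : ℂ) * (2 * Real.pi * I) := by
              rw [ha, hζk]; push_cast; ring
            have e2 : ‖((m - k : ℤ) : ℂ) * (2 * Real.pi * I)‖ = |((m - k : ℤ) : ℝ)| * (2 * Real.pi) := by
              rw [norm_mul, norm_mul, norm_mul, norm_I, Complex.norm_intCast]
              simp [abs_of_pos Real.pi_pos]
            have e3 : (1 : ℝ) ≤ |((m - k : ℤ) : ℝ)| := by
              have : (m - k : ℤ) ≠ 0 := sub_ne_zero.2 hmk
              exact_mod_cast Int.one_le_abs this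
            have e4 := norm_sub_norm_le (((m - k : ℤ) : ℂ) * (2 * Real.pi * I))
              (exp (W ((j : ℝ) / 64)))
            rw [e2, hWn, norm_sub_rev] at e4
            rw [e1]
            have e5 : 1 * (2 * Real.pi) ≤ |((m - k : ℤ) : ℝ)| * (2 * Real.pi) := by gcongr
            linarith)
        (γ := fun τ => ζk + exp (W τ)) (lt := fun τ => b (W τ) + k0 * (2 * Real.pi * I))
        (L := fun τ => F (W τ)) hle (by fun_prop)
        (fun τ hτ => by
          rw [mem_ball, dist_eq_norm]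
          have e1 : ζk + exp (W τ) - a = exp (W ((j : ℝ) / 64)) *
              (exp (I * ((τ - (j : ℝ) / 64) * θ : ℝ)) - 1) := by
            rw [ha, mul_sub, ← Complex.exp_add, hW, hW, hwd]
            push_cast
            have : w u + (j : ℂ) / 64 * (θ * I) + I * ((τ - (j : ℂ) / 64) * θ) =
              w u + τ * (θ * I) := by ring
            rw [this]
            ring
          rw [e1, norm_mul, hWn]
          have e2 : ‖exp (I * ((τ - (j : ℝ) / 64) * θ : ℝ)) - 1‖ ≤ ‖(τ - (j : ℝ) / 64) * θ‖ :=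
            Real.norm_exp_I_mul_ofReal_sub_one_le
          have e3 : ‖(τ - (j : ℝ) / 64) * θ‖ ≤ 1 / 64 * (2 * Real.pi) := by
            rw [norm_mul, Real.norm_eq_abs, Real.norm_eq_abs]
            have e4 : |τ - (j : ℝ) / 64| ≤ 1 / 64 := by
              rw [abs_le]
              have e5 := hτ.2
              push_cast at e5
              constructor
              · linarith [hτ.1]
              · linarith
            gcongr
          have e4 : ρ * ‖exp (I * ((τ - (j : ℝ) / 64) * θ : ℝ)) - 1‖ ≤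
              (7 * s / 50) * (1 / 64 * (2 * Real.pi)) := by
            gcongr
            exact e2.trans e3
          refine e4.trans_lt ?_
          nlinarith)
        ((hb.continuousOn.comp hWc.continuousOn (fun τ hτ => hWB τ (hsubI hτ))).add
          continuousOn_const)
        (fun τ hτ => by
          have e1 := hbe _ (hWB τ (hsubI hτ))
          rw [Complex.exp_add, Complex.exp_int_mul_two_pi_mul_I, mul_one, e1])
        (hF.continuousOn.comp hWc.continuousOn (fun τ hτ => hWB τ (hsubI hτ)))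
        (fun τ hτ => by
          rw [← hχ]
          exact hFe _ (hWB τ (hsubI hτ)))
      refine key.trans ?_
      refine mul_le_mul_right (lintegral_mono_set ?_) _
      exact sh_sub hn (by linarith [hare.1]) (by linarith [hare.2]))
  have e1 : W (((0 : ℕ) : ℝ) / 64) = w u := by rw [hW]; simp
  have e2 : W (((64 : ℕ) : ℝ) / 64) = w v := by rw [hW]; norm_num
  simp only [e1, e2] at hchain
  rw [hdiff]
  exact hchain

lemma add3 {a b c : ℝ} : (a + b + c) ^ 2 ≤ 3 * (a ^ 2 + b ^ 2 + c ^ 2) := by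
  nlinarith [sq_nonneg (a - b), sq_nonneg (b - c), sq_nonneg (a - c)]

end SEGU_

open SEGU_ in
/-- SEGU: displacement along one level, with `O (log n)` discs. -/
theorem p_SEGU (hGR : T_GREEN) (hD : T_DISP1) (hC : T_CHV) : T_SEGU := by
  refine ⟨100000, by norm_num, ?_⟩
  intro n hn Λ lh ls c ζ y K L hBot hLog hcrit hs6 hy hK _ hK0 hLc hLe
  have X := ctxU hGR hn hBot hLog hcrit
  have hn2 : (2 : ℝ) ≤ n := by exact_mod_cast hn
  have hn0 : (0 : ℝ) < n := by linarith
  have hs : 0 < ζ.re := X.hs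
  set s : ℝ := ζ.re with hsdef
  set q : ℝ := √ (n : ℝ) with hq
  have hq2 : q * q = n := Real.mul_self_sqrt hn0.le
  have hq1 : 5 / 4 ≤ q := by
    apply Real.le_sqrt_of_sq_le
    norm_num
    linarith
  have hq0 : 0 < q := by linarith
  have hlogn : 1 / 2 ≤ Real.log n := by
    have e1 := Real.one_sub_inv_le_log_of_pos (show (0 : ℝ) < 2 by norm_num)
    have e2 : Real.log 2 ≤ Real.log n := Real.log_le_log (by norm_num) hn2
    norm_num at e1
    linarith
  have hlow : s / q ≤ s - s / 8 := by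
    rw [div_le_iff₀ hq0]
    nlinarith
  have hupp : s + s / 8 ≤ s * q := by nlinarith
  set J : ENNReal := ∫⁻ x in {x : ℂ | s / (n : ℝ) ^ 2 < G n c x ∧ G n c x < s},
    ‖deriv K x / K x‖ₑ ^ 2 with hJ
  have hrei : ∀ (t : ℝ) (k : ℤ), |t - s| ≤ ‖((t : ℂ) + y * I) - (ζ + k * (2 * Real.pi * I))‖ ∧
      |y - (ζ.im + 2 * Real.pi * k)| ≤ ‖((t : ℂ) + y * I) - (ζ + k * (2 * Real.pi * I))‖ := by
    intro t k
    have e1 := abs_re_le_norm (((t : ℂ) + y * I) - (ζ + k * (2 * Real.pi * I)))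
    have e2 := abs_im_le_norm (((t : ℂ) + y * I) - (ζ + k * (2 * Real.pi * I)))
    have e3 : (((t : ℂ) + y * I) - (ζ + k * (2 * Real.pi * I))).re = t - s := by
      simp [hsdef]
    have e4 : (((t : ℂ) + y * I) - (ζ + k * (2 * Real.pi * I))).im =
        y - (ζ.im + 2 * Real.pi * k) := by
      simp
      ring
    rw [e3] at e1
    rw [e4] at e2
    exact ⟨e1, e2⟩
  by_cases hcase : ∀ k : ℤ, s / 16 ≤ |y - (ζ.im + 2 * Real.pi * k)|
  · have h1 := far hD hC X hs6 hy hK hK0 (u := s / q) (v := s * q) (by linarith) le_rfl le_rfl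
      (fun t ht k => by
        obtain ⟨e1, e2⟩ := hrei t k
        by_cases h2 : t ≤ 2 * s
        · have := hcase k
          linarith
        · rw [not_le] at h2
          have := le_abs_self (t - s)
          linarith) hLc hLe
    refine h1.trans ?_
    gcongr ENNReal.ofReal ?_ * _
    linarith
  · push Not at hcase
    obtain ⟨k0, hk0⟩ := hcase
    have h1 := far hD hC X hs6 hy hK hK0 (u := s / q) (v := s - s / 8) hlow le_rfl
      (by linarith) (fun t ht k => by
        obtain ⟨e1, e2⟩ := hrei t k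
        have := neg_abs_le (t - s)
        linarith [ht.2]) (hLc.mono (Icc_subset_Icc le_rfl (by linarith)))
      (fun t ht => hLe t ⟨ht.1, by linarith [ht.2]⟩)
    have h2 := near hD hC X hs6 hy hK hK0 (L := L) k0 hk0 (u := s - s / 8) (v := s + s / 8) rfl rfl
      (hLc.mono (Icc_subset_Icc hlow hupp))
      (fun t ht => hLe t ⟨by linarith [ht.1], by linarith [ht.2]⟩)
    have h3 := far hD hC X hs6 hy hK hK0 (u := s + s / 8) (v := s * q) hupp (by linarith)
      le_rfl (fun t ht k => by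
        obtain ⟨e1, e2⟩ := hrei t k
        have := le_abs_self (t - s)
        linarith [ht.1]) (hLc.mono (Icc_subset_Icc (by linarith) le_rfl))
      (fun t ht => hLe t ⟨by linarith [ht.1], ht.2⟩)
    have h4 : ‖L (s * q) - L (s / q)‖ ^ 2 ≤ 3 * (‖L (s * q) - L (s + s / 8)‖ ^ 2 +
        ‖L (s + s / 8) - L (s - s / 8)‖ ^ 2 + ‖L (s - s / 8) - L (s / q)‖ ^ 2) := by
      refine le_trans (pow_le_pow_left₀ (norm_nonneg _) ?_ 2) add3
      have e1 : L (s * q) - L (s / q) = (L (s * q) - L (s + s / 8)) +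
        (L (s + s / 8) - L (s - s / 8)) + (L (s - s / 8) - L (s / q)) := by ring
      rw [e1]
      exact norm_add₃_le
    calc ENNReal.ofReal (‖L (s * q) - L (s / q)‖ ^ 2)
        ≤ ENNReal.ofReal (3 * (‖L (s * q) - L (s + s / 8)‖ ^ 2 +
        ‖L (s + s / 8) - L (s - s / 8)‖ ^ 2 + ‖L (s - s / 8) - L (s / q)‖ ^ 2)) :=
          ENNReal.ofReal_le_ofReal h4
      _ = ENNReal.ofReal 3 * (ENNReal.ofReal (‖L (s * q) - L (s + s / 8)‖ ^ 2) +
          ENNReal.ofReal (‖L (s + s / 8) - L (s - s / 8)‖ ^ 2) +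
          ENNReal.ofReal (‖L (s - s / 8) - L (s / q)‖ ^ 2)) := by
          rw [ENNReal.ofReal_mul (by norm_num), ENNReal.ofReal_add (by positivity) (by positivity),
            ENNReal.ofReal_add (by positivity) (by positivity)]
      _ ≤ ENNReal.ofReal 3 * (ENNReal.ofReal (8288 * Real.log n) * J +
          ENNReal.ofReal (((64 : ℕ) : ℝ) ^ 2 * (4 / Real.pi)) * J +
          ENNReal.ofReal (8288 * Real.log n) * J) := by
          gcongr
      _ = ENNReal.ofReal (3 * (8288 * Real.log n + ((64 : ℕ) : ℝ) ^ 2 * (4 / Real.pi) +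
          8288 * Real.log n)) * J := by
          obtain ⟨W, hW⟩ : ∃ W : ℝ, W = 8288 * Real.log n := ⟨_, rfl⟩
          have e1 : 0 ≤ W := by rw [hW]; linarith
          rw [← hW, ENNReal.ofReal_mul (by norm_num) (p := 3), ENNReal.ofReal_add (by positivity) e1,
            ENNReal.ofReal_add e1 (by positivity)]
          ring
      _ ≤ ENNReal.ofReal (100000 * Real.log n) * J := by
          gcongr ENNReal.ofReal ?_ * _
          have e6 : 4 / Real.pi ≤ 2 := by
            have := Real.pi_gt_three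
            rw [div_le_iff₀ Real.pi_pos]
            linarith
          push_cast
          nlinarith

end Pool.Agent.PLim
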