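import Pool.Agent.PLim.All4
import Pool.Agent.PLim.Conv
import Pool.Agent.PLim.SEGU

/-!
# PLIM: the final theorem
-/

set_option autoImplicit false

open Complex Filter Topology Set
open Pool.Agent.Multibrot Pool.Agent.Limb

namespace Pool.Agent.PLim

theorem final : ∃ C : ℝ, 0 < C ∧ ∀ n : ℕ, 2 ≤ n →
    (∀ (k p q : ℕ) (r z0 c : ℂ) (A : Set ℂ), IsLimb n k p q r z0 A → c ∈ A →
      ‖c - r‖ ≤ C * Real.log n ^ 3 / n * (k ^ 2 * q / ((min p (q - p) : ℕ) : ℝ) ^ 2)) ∧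
    (∀ c : ℂ, Inf n (C * Real.log n ^ 2) c → ∀ N ∈ 𝓝 c, ∃ S : Set ℂ, S ⊆ MM n ∩ N ∧
      IsConnected S ∧ IsClosed S ∧ S ∈ 𝓝[MM n] c) ∧
    ∀ c₀ ∈ frontier (MM n), ∀ N ∈ 𝓝 c₀,
      ¬ {c : ℂ | c ∈ N ∧ Inf n (C * Real.log n ^ 2) c}.Countable :=
  main4 a_WSEGU (p_SEGU a_GREEN a_DISP1 a_CHV) a_LIMBU a_LCS a_UNC a_CIK

end Pool.Agent.PLim
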