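import Pool.Agent.PLim.Targets2
import Pool.Agent.Multibrot.Connected

/-!
# PLIM: the final assembly
-/

set_option autoImplicit false

open Complex Filter Topology Set
open Pool.Agent.Multibrot Pool.Agent.Limb

namespace Pool.Agent.PLim

/-- The data of a separation of `c` and `0` in `M \ {r}`. -/
lemma piece {M U V : Set ℂ} {r : ℂ} (hM : IsClosed M) (hU : IsOpen U) (hV : IsOpen V)
    (hd : Disjoint U V) (hs : M \ {r} ⊆ U ∪ V) :
    (∃ W : Set ℂ, IsOpen W ∧ (M ∩ U) \ {r} = M ∩ W) ∧ IsClosed (insert r ((M ∩ U) \ {r})) := by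
  constructor
  · refine ⟨U \ {r}, hU.sdiff isClosed_singleton, ?_⟩
    ext x
    simp only [mem_diff, mem_inter_iff, mem_singleton_iff]
    tauto
  · have h : insert r ((M ∩ U) \ {r}) = {r} ∪ (M ∩ (V \ {r})ᶜ) := by
      ext x
      simp only [mem_insert_iff, mem_diff, mem_inter_iff, mem_singleton_iff, mem_union,
        mem_compl_iff]
      by_cases hx : x = r
      · simp [hx]
      · simp only [hx, not_false_eq_true, and_true, false_or]
        constructor
        · rintro ⟨h1, h2⟩
          exact ⟨h1, fun h3 => Set.disjoint_left.mp hd h2 h3⟩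
        · rintro ⟨h1, h2⟩
          refine ⟨h1, ?_⟩
          rcases hs ⟨h1, hx⟩ with h | h
          · exact h
          · exact absurd h h2
    rw [h]
    exact isClosed_singleton.union (hM.inter (hV.sdiff isClosed_singleton).isClosed_compl)

/-- The limb bound and local connectivity. -/
theorem main (hL : T_LIMB) (hC : T_CIK) (n : ℕ) (hn : 2 ≤ n) :
    (∃ C : ℝ, ∀ (k p q : ℕ) (r z : ℂ) (U V : Set ℂ), 1 ≤ k → 0 < p → p < q → p.Coprime q →
      (F n r)^[k] z = z → deriv (F n r)^[k] z = exp (2 * Real.pi * I * p / q) →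
      IsOpen U → IsOpen V → Disjoint U V → MM n \ {r} ⊆ U ∪ V → 0 ∈ V →
      ∀ c ∈ MM n ∩ U, dist c r * (min p (q - p) : ℕ) ^ 2 ≤ C * k ^ 2 * q) ∧
    ∀ c ∈ MM n, (∀ B : ℝ, ∃ (k p q : ℕ) (r z : ℂ) (U V : Set ℂ), 1 ≤ k ∧ 0 < p ∧ p < q ∧
      p.Coprime q ∧ (F n r)^[k] z = z ∧ deriv (F n r)^[k] z = exp (2 * Real.pi * I * p / q) ∧
      IsOpen U ∧ IsOpen V ∧ Disjoint U V ∧ MM n \ {r} ⊆ U ∪ V ∧ 0 ∈ V ∧ c ∈ U ∧ c ≠ r ∧
      B * (q * k ^ 2) < (min p (q - p) : ℕ) ^ 2) →
      ∀ N ∈ 𝓝 c, ∃ S : Set ℂ, S ⊆ MM n ∩ N ∧ IsConnected S ∧ IsClosed S ∧ S ∈ 𝓝[MM n] c := by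
  obtain ⟨C, hC0, hLn⟩ := hL n hn
  have key : ∀ (k p q : ℕ) (r z : ℂ) (U V : Set ℂ), 1 ≤ k → 0 < p → p < q → p.Coprime q →
      (F n r)^[k] z = z → deriv (F n r)^[k] z = exp (2 * Real.pi * I * p / q) →
      IsOpen U → IsOpen V → Disjoint U V → MM n \ {r} ⊆ U ∪ V → 0 ∈ V →
      (r ∈ MM n ∧ ∀ c ∈ (MM n ∩ U) \ {r}, ‖c - r‖ * (min p (q - p) : ℕ) ^ 2 ≤ C * k ^ 2 * q) := by
    intro k p q r z U V hk hp hpq hcop hfix hrho hU hV hd hs h0
    obtain ⟨h1, h2⟩ := piece (MM_closed n) hU hV hd hs
    have h0' : (0 : ℂ) ∉ (MM n ∩ U) \ {r} := fun h => Set.disjoint_left.mp hd h.1.2 h0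
    exact hLn k p q r z _ hk hp hpq hcop hfix hrho (fun x hx => hx.1.1) h1 h2
      (fun h => h.2 rfl) h0'
  refine ⟨⟨C, ?_⟩, ?_⟩
  · intro k p q r z U V hk hp hpq hcop hfix hrho hU hV hd hs h0 c hc
    by_cases hcr : c = r
    · subst hcr
      rw [dist_self, zero_mul]
      positivity
    · rw [dist_eq_norm]
      exact (key k p q r z U V hk hp hpq hcop hfix hrho hU hV hd hs h0).2 c ⟨hc, hcr⟩
  · intro c hc hsep N hN
    obtain ⟨ε, hε, hεN⟩ := Metric.mem_nhds_iff.mp hN
    obtain ⟨k, p, q, r, z, U, V, hk, hp, hpq, hcop, hfix, hrho, hU, hV, hd, hs, h0, hcU, hcr, hB⟩ :=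
      hsep (2 * C / ε + 1)
    obtain ⟨hrM, hb⟩ := key k p q r z U V hk hp hpq hcop hfix hrho hU hV hd hs h0
    obtain ⟨h1, h2⟩ := piece (MM_closed n) hU hV hd hs
    have h0' : (0 : ℂ) ∉ (MM n ∩ U) \ {r} := fun h => Set.disjoint_left.mp hd h.1.2 h0
    set A : Set ℂ := (MM n ∩ U) \ {r} with hA
    have hk0 : (0 : ℝ) < k := by exact_mod_cast hk
    have hq0 : (0 : ℝ) < q := by exact_mod_cast (lt_trans hp hpq)
    set m : ℝ := ((min p (q - p) : ℕ) : ℝ) ^ 2 with hm
    have hm0 : 0 < m := by
      have : 0 < min p (q - p) := lt_min hp (Nat.sub_pos_of_lt hpq)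
      have h : (0 : ℝ) < (min p (q - p) : ℕ) := by exact_mod_cast this
      positivity
    have hqk : (0 : ℝ) < q * k ^ 2 := by positivity
    have hsmall : ∀ x ∈ A, ‖x - r‖ < ε / 2 := by
      intro x hx
      have hx1 := hb x hx
      by_contra hcon
      push Not at hcon
      have h3 : ε / 2 * m ≤ C * k ^ 2 * q :=
        (mul_le_mul_of_nonneg_right hcon hm0.le).trans hx1
      have h4 : ε / 2 * ((2 * C / ε + 1) * (q * k ^ 2)) < ε / 2 * m :=
        mul_lt_mul_of_pos_left hB (by positivity)
      have h5 : ε / 2 * ((2 * C / ε + 1) * (q * k ^ 2)) = C * k ^ 2 * q +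
          ε / 2 * (q * k ^ 2) := by
        field_simp
      have h6 : 0 < ε / 2 * (q * k ^ 2) := by positivity
      linarith
    have hcA : c ∈ A := ⟨⟨hc, hcU⟩, hcr⟩
    have hconn : IsPreconnected (insert r A) := by
      by_cases hr0 : r = 0
      · subst hr0
        have h0M : (0 : ℂ) ∈ MM n := hrM
        -- the point `0` cannot be such a parameter; use `T_CIK` at another point if there is one
        exact absurd hrho (by
          intro hrho'
          have hF : ∀ (j : ℕ) (x : ℂ), (F n 0)^[j] x = x ^ (n ^ j) := by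
            intro j
            induction j with
            | zero => intro x; simp
            | succ j ih =>
              intro x
              rw [Function.iterate_succ_apply', ih]
              simp only [F]
              rw [add_zero, ← pow_mul, pow_succ]
          have hd : deriv (F n 0)^[k] z = (n ^ k : ℕ) * z ^ (n ^ k - 1) := by
            have hfun : (F n 0)^[k] = fun x => x ^ (n ^ k) := funext (hF k)
            rw [hfun]
            simp
          have hz : z ^ (n ^ k) = z := by rw [← hF k z]; exact hfix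
          have hnk : 2 ≤ n ^ k := by
            calc 2 ≤ n := hn
              _ = n ^ 1 := (pow_one n).symm
              _ ≤ n ^ k := Nat.pow_le_pow_right (by omega) hk
          have hnorm : ‖exp (2 * Real.pi * I * p / q)‖ = 1 := by
            rw [Complex.norm_exp]
            have : (2 * Real.pi * I * p / q : ℂ).re = 0 := by
              have h : (2 * Real.pi * I * p / q : ℂ) = ((2 * Real.pi * p / q : ℝ) : ℂ) * I := by
                push_cast; ring
              rw [h]
              simp
            rw [this, Real.exp_zero]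
          by_cases hz0 : z = 0
          · have h7 : deriv (F n 0)^[k] z = 0 := by
              rw [hd, hz0, zero_pow (by omega : n ^ k - 1 ≠ 0), mul_zero]
            rw [h7] at hrho'
            rw [← hrho', norm_zero] at hnorm
            exact zero_ne_one hnorm
          · have h8 : z ^ (n ^ k - 1) = 1 := by
              have h9 : z ^ (n ^ k - 1) * z = 1 * z := by
                rw [one_mul, ← pow_succ, Nat.sub_add_cancel (by omega)]
                exact hz
              exact mul_right_cancel₀ hz0 h9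
            rw [hd, h8, mul_one] at hrho'
            rw [← hrho', Complex.norm_natCast] at hnorm
            have : ((2 : ℕ) : ℝ) ≤ ((n ^ k : ℕ) : ℝ) := by exact_mod_cast hnk
            rw [hnorm] at this
            norm_num at this)
      · refine hC (MM n) A r 0 (MM_closed n) (MM_connected hn) (fun x hx => hx.1.1) hrM h1 h2
          (fun h => h.2 rfl) ?_ h0'
        -- `0 ∈ MM n`
        rw [← MM_eq hn]
        simp only [mem_setOf_eq]
        intro h
        have h10 : ∀ j : ℕ, (fun x : ℂ => x ^ n + 0)^[j] 0 = 0 := by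
          intro j
          induction j with
          | zero => rfl
          | succ j ih =>
            rw [Function.iterate_succ_apply', ih]
            simp [show n ≠ 0 by omega]
        have h11 : Tendsto (fun _ : ℕ => (0 : ℂ)) atTop (Bornology.cobounded ℂ) := by
          simpa only [h10] using h
        have h12 := (tendsto_norm_cobounded_atTop (E := ℂ)).comp h11
        have h13 := (h12.eventually_ge_atTop 1).exists
        obtain ⟨j, hj⟩ := h13
        simp at hj
        linarith
    refine ⟨insert r A, ?_, ⟨⟨r, mem_insert _ _⟩, hconn⟩, h2, ?_⟩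
    · have hball : ∀ x ∈ insert r A, ‖x - c‖ < ε := by
        intro x hx
        have hc1 := hsmall c hcA
        have hx1 : ‖x - r‖ < ε / 2 := by
          rcases hx with hx | hx
          · subst hx
            rw [sub_self, norm_zero]
            positivity
          · exact hsmall x hx
        have : x - c = (x - r) - (c - r) := by ring
        rw [this]
        exact (norm_sub_le _ _).trans_lt (by linarith)
      intro x hx
      refine ⟨?_, hεN ?_⟩
      · rcases hx with hx | hx
        · subst hx; exact hrM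
        · exact hx.1.1
      · rw [Metric.mem_ball, dist_eq_norm]
        exact hball x hx
    · obtain ⟨W, hW, hAW⟩ := h1
      rw [mem_nhdsWithin]
      refine ⟨W, hW, ?_, ?_⟩
      · have : c ∈ MM n ∩ W := hAW ▸ hcA
        exact this.2
      · intro x hx
        right
        show x ∈ A
        rw [hAW]
        exact ⟨hx.2, hx.1⟩

end Pool.Agent.PLim
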