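import Pool.Agent.PLim.NVA
import Pool.Agent.Multibrot.Dense
import Pool.Agent.Multibrot.Criterion

/-!
# PLIM: every nonempty limb contains points of small limbs; they are boundary points
-/

set_option autoImplicit false

open Complex Filter Topology Set
open Pool.Agent.Multibrot Pool.Agent.Limb

namespace Pool.Agent.PLim

namespace NV_

/-- A nonempty bounded open set of the plane is not closed up by one point. -/
lemma no_open {A : Set ℂ} {r : ℂ} {R : ℝ} (hA : IsOpen A) (hcl : IsClosed (insert r A))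
    (hrA : r ∉ A) (hne : A.Nonempty) (hb : ∀ x ∈ A, ‖x‖ ≤ R) : False := by
  obtain ⟨x, hx⟩ := hne
  have hS : IsPreconnected ({r}ᶜ : Set ℂ) :=
    (isConnected_compl_singleton_of_one_lt_rank (by simp) r).isPreconnected
  have h1 : ({r}ᶜ : Set ℂ) ⊆ A :=
    NEST_.sub_of_meet (M := univ) hA (univ_inter A).symm hcl hS (subset_univ _)
      (by simp) (x := x) (by rintro rfl; exact hrA hx) hx
  obtain ⟨y, hy1, hy2⟩ : ∃ y : ℂ, y ≠ r ∧ R < ‖y‖ := by
    have hR : (0 : ℝ) ≤ |R| := abs_nonneg R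
    by_cases h : (((|R| + 1 : ℝ)) : ℂ) = r
    · refine ⟨((|R| + 2 : ℝ) : ℂ), ?_, ?_⟩
      · rw [← h]
        intro h2
        have h3 : (|R| + 2 : ℝ) = |R| + 1 := by exact_mod_cast h2
        linarith
      · rw [norm_real, Real.norm_eq_abs, abs_of_nonneg (by linarith)]
        linarith [le_abs_self R]
    · refine ⟨((|R| + 1 : ℝ) : ℂ), h, ?_⟩
      rw [norm_real, Real.norm_eq_abs, abs_of_nonneg (by linarith)]
      linarith [le_abs_self R]
  have := hb y (h1 hy1)
  linarith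

/-- Every nonempty clopen piece contains a superattracting parameter. -/
lemma exists_center {n : ℕ} (hn : 2 ≤ n) {A : Set ℂ} {r : ℂ} (hsub : A ⊆ MM n)
    (hop : ∃ U : Set ℂ, IsOpen U ∧ A = MM n ∩ U) (hcl : IsClosed (insert r A)) (hrA : r ∉ A)
    (hne : A.Nonempty) : ∃ j, 1 ≤ j ∧ ∃ a ∈ A, Q n j a = 0 := by
  obtain ⟨U, hU, hAU⟩ := hop
  by_cases h : ∃ x ∈ A, x ∈ frontier (MM n)
  · obtain ⟨x, hxA, hx⟩ := h
    have hxU : x ∈ U := by
      rw [hAU] at hxA
      exact hxA.2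
    obtain ⟨R, hR, hball⟩ := Metric.isOpen_iff.1 hU x hxU
    obtain ⟨j, hj, a, ha, hQ⟩ := centers_dense hn hx hR
    refine ⟨j, hj, a, ?_, hQ⟩
    rw [hAU]
    exact ⟨center_mem hn hj hQ, hball ha⟩
  · exfalso
    push Not at h
    have hint : A = interior (MM n) ∩ U := by
      ext x
      constructor
      · intro hx
        have h1 := h x hx
        have h2 : x ∈ MM n := hsub hx
        refine ⟨?_, by rw [hAU] at hx; exact hx.2⟩
        by_contra h3
        exact h1 ⟨subset_closure h2, h3⟩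
      · rintro ⟨h1, h2⟩
        rw [hAU]
        exact ⟨interior_subset h1, h2⟩
    have hAo : IsOpen A := by
      rw [hint]
      exact isOpen_interior.inter hU
    exact no_open hAo hcl hrA hne (fun x hx => MM_bound hn (hsub hx))

lemma rho_center {n j : ℕ} (hn : 2 ≤ n) (hj : 1 ≤ j) {a : ℂ} (h : Q n j a = 0) :
    (F n a)^[j] 0 = 0 ∧ Rho n j a 0 = 0 := by
  refine ⟨?_, ?_⟩
  · rw [Q_eq_iterate] at h
    exact h
  · rw [CNT_rho]
    refine Finset.prod_eq_zero (Finset.mem_range.2 hj) ?_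
    simp only [Function.iterate_zero, id_eq]
    rw [zero_pow (by omega), mul_zero]

end NV_

open NV_

/-- From every state of the construction. -/
theorem nv_from {n : ℕ} (hn : 2 ≤ n) (x : ℕ × ℂ × Set ℂ) (hx : P n x) :
    ∃ c ∈ x.2.2, SmallLimbs n c := by
  have hNEXT : T_NEXT := p_NEXT t_BDV t_LNE (p_NEST p_CIK)
  have hst := step hNEXT hn
  choose g hg using hst
  let f : ℕ → {x : ℕ × ℂ × Set ℂ // P n x} := fun m =>
    Nat.rec ⟨x, hx⟩ (fun m x => ⟨g m x.1 x.2, (hg m x.1 x.2).1⟩) m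
  have hf : ∀ m, S n m (f m).1 (f (m + 1)).1 := fun m => (hg m (f m).1 (f m).2).2
  have hf0 : (f 0).1 = x := rfl
  set K : ℕ → Set ℂ := fun m => insert (f m).1.2.1 (f m).1.2.2 with hK
  have hKs : ∀ m, K (m + 1) ⊆ (f m).1.2.2 := by
    intro m y hy
    rcases hy with h | h
    · rw [h]; exact (hf m).2.1
    · exact (hf m).1 h
  have hKd : ∀ m, K (m + 1) ⊆ K m := fun m => (hKs m).trans (subset_insert _ _)
  have hKc : ∀ m, IsClosed (K m) := fun m => (f m).2.2.1.cl
  have hK0 : IsCompact (K 0) := by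
    refine Metric.isCompact_of_isClosed_isBounded (hKc 0) ?_
    refine (Metric.isBounded_closedBall (x := (0 : ℂ))
      (r := max (1 + 2 / n) ‖(f 0).1.2.1‖)).subset ?_
    intro y hy
    rw [mem_closedBall_zero_iff]
    rcases hy with h | h
    · rw [h]; exact le_max_right _ _
    · exact (MM_bound hn ((f 0).2.2.1.sub h)).trans (le_max_left _ _)
  obtain ⟨c, hc⟩ := IsCompact.nonempty_iInter_of_sequence_nonempty_isCompact_isClosed K hKd
    (fun m => ⟨_, mem_insert _ _⟩) hK0 hKc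
  have hcA : ∀ m, c ∈ (f m).1.2.2 := fun m => hKs m (mem_iInter.mp hc (m + 1))
  refine ⟨c, by rw [← hf0]; exact hcA 0, ?_⟩
  intro B
  obtain ⟨m, hm⟩ := exists_nat_ge B
  obtain ⟨-, -, p, q, z', hL, hB⟩ := hf m
  refine ⟨(f m).1.1, p, q, (f (m + 1)).1.2.1, z', (f (m + 1)).1.2.2, hL, hcA (m + 1), ?_⟩
  refine le_trans ?_ hB
  have h1 : (0 : ℝ) ≤ (q : ℝ) * ((f m).1.1 : ℝ) ^ 2 := by positivity
  nlinarith

/-- a limb is a piece -/
lemma IsLimb.piece {n k p q : ℕ} {r z : ℂ} {A : Set ℂ} (h : IsLimb n k p q r z A) :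
    Piece n r A := by
  refine ⟨h.sub, h.op, h.cl, Or.inr ⟨h.nr, h.n0⟩, k, z, h.hk, h.fix, ?_, ?_⟩
  · rw [h.rho]
    have h1 : (2 * Real.pi * I * p / q : ℂ) = ((2 * Real.pi * p / q : ℝ) : ℂ) * I := by
      push_cast; ring
    rw [h1, Complex.norm_exp_ofReal_mul_I]
  · rw [h.rho]
    exact IMP_.root_ne_one h.hp h.hpq

/-- every nonempty limb contains a point which lies in arbitrarily small limbs -/
theorem nv_limb {n k p q : ℕ} {r z : ℂ} {A : Set ℂ} (hn : 2 ≤ n) (h : IsLimb n k p q r z A)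
    (hne : A.Nonempty) : ∃ c ∈ A, SmallLimbs n c := by
  obtain ⟨j, hj, a, ha, hQ⟩ := exists_center hn h.sub h.op h.cl h.nr hne
  obtain ⟨h1, h2⟩ := rho_center hn hj hQ
  exact nv_from hn (j, r, A) ⟨hj, h.piece, a, 0, ha, h1, by rw [h2, norm_zero]; exact one_pos⟩

/-- the points of arbitrarily small limbs are boundary points -/
theorem small_frontier {n : ℕ} (hn : 2 ≤ n) {c : ℂ} (hc : SmallLimbs n c) :
    c ∈ frontier (MM n) := by
  have hcM : c ∈ MM n := by
    obtain ⟨k, p, q, r, z, A, hA, hcA, -⟩ := hc 0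
    exact hA.sub hcA
  by_contra hfr
  have hint : c ∈ interior (MM n) := by
    by_contra h
    exact hfr ⟨subset_closure hcM, h⟩
  obtain ⟨δ, hδ, hball⟩ := Metric.isOpen_iff.1 isOpen_interior c hint
  obtain ⟨C, hC, hL⟩ := t_LIMB n hn
  obtain ⟨k, p, q, r, z0, A, hA, hcA, hB⟩ := hc (4 * C / δ)
  obtain ⟨hrM, hbd⟩ := hL k p q r z0 A hA.hk hA.hp hA.hpq hA.cop hA.fix hA.rho hA.sub hA.op hA.cl
    hA.nr hA.n0
  have hm1 : 1 ≤ min p (q - p) := by
    have h1 := hA.hp
    have h2 := hA.hpq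
    omega
  have hmR : (1 : ℝ) ≤ ((min p (q - p) : ℕ) : ℝ) := by exact_mod_cast hm1
  have hsmall : ∀ x ∈ A, ‖x - r‖ ≤ δ / 4 := by
    intro x hx
    have h1 := hbd x hx
    have h2 : C * k ^ 2 * q ≤ δ / 4 * ((min p (q - p) : ℕ) : ℝ) ^ 2 := by
      have h3 : δ / 4 * (4 * C / δ * q * k ^ 2) ≤ δ / 4 * ((min p (q - p) : ℕ) : ℝ) ^ 2 :=
        mul_le_mul_of_nonneg_left hB (by positivity)
      have h4 : δ / 4 * (4 * C / δ * q * k ^ 2) = C * k ^ 2 * q := by
        field_simp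
      linarith
    have h5 : ‖x - r‖ * ((min p (q - p) : ℕ) : ℝ) ^ 2 ≤
        δ / 4 * ((min p (q - p) : ℕ) : ℝ) ^ 2 := h1.trans h2
    exact le_of_mul_le_mul_right h5 (by positivity)
  have hAb : A ⊆ Metric.ball c δ := by
    intro x hx
    have h1 := hsmall x hx
    have h2 := hsmall c hcA
    rw [Metric.mem_ball, dist_eq_norm]
    calc ‖x - c‖ = ‖(x - r) - (c - r)‖ := by congr 1; ring
      _ ≤ ‖x - r‖ + ‖c - r‖ := norm_sub_le _ _
      _ < δ := by linarith
  obtain ⟨U, hU, hAU⟩ := hA.op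
  have hAo : IsOpen A := by
    have e : A = interior (MM n) ∩ U := by
      ext x
      constructor
      · intro hx
        exact ⟨hball (hAb hx), by rw [hAU] at hx; exact hx.2⟩
      · rintro ⟨h1, h2⟩
        rw [hAU]
        exact ⟨interior_subset h1, h2⟩
    rw [e]
    exact isOpen_interior.inter hU
  exact no_open hAo hA.cl hA.nr ⟨c, hcA⟩ (fun x hx => MM_bound hn (hA.sub hx))

end Pool.Agent.PLim
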