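import Pool.Agent.PLim.Asm
import Pool.Agent.PLim.Targets3
import Pool.Agent.PLim.LCL
import Pool.Agent.PLim.IMP
import Pool.Agent.PLim.BIF
import Pool.Agent.PLim.NOA
import Pool.Agent.PLim.LNE
import Pool.Agent.PLim.BDV
import Pool.Agent.PLim.NEXT
import Pool.Agent.PLim.NV
import Pool.Agent.PLim.MMA
import Pool.Agent.PLim.HHE
import Pool.Agent.PLim.SEC0
import Pool.Agent.PLim.NEST

/-!
# PLIM: assembly of batch 3, local connectivity at the points of small limbs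
-/

set_option autoImplicit false

open Complex Filter Topology Set
open Pool.Agent.Multibrot Pool.Agent.Limb

namespace Pool.Agent.PLim

theorem t_ATU : T_ATU := p_ATU p_ATTR
theorem t_ATN : T_ATN := p_ATN t_ATU t_TRANS p_LOCZ
theorem t_NOA : T_NOA := p_NOA t_ATN

theorem t_MMA : T_MMA := p_MMA p_ATTR p_GREEN
theorem t_BDV : T_BDV := p_BDV t_NOA t_MMA p_LOCZ p_BIG t_CNT
theorem t_BIF : T_BIF := p_BIF (p_IMP p_LOCZ t_TRANS p_HHE (p_SEC0 p_HHE)) t_FINF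
theorem t_LNE : T_LNE :=
  p_LNE t_SECT t_OMX t_OMC p_LCL t_BIF t_ATN t_NOA t_MMA t_FIXE t_BOT t_LOG p_GREEN
theorem t_NV : T_NV := p_NV (p_NEXT t_BDV t_LNE (p_NEST p_CIK)) t_MMA

/-- `c` lies in arbitrarily small limbs. -/
def SmallLimbs (n : ℕ) (c : ℂ) : Prop :=
  ∀ B : ℝ, ∃ (k p q : ℕ) (r z0 : ℂ) (A : Set ℂ), IsLimb n k p q r z0 A ∧ c ∈ A ∧
    B * q * k ^ 2 ≤ ((min p (q - p) : ℕ) : ℝ) ^ 2

/-- local connectivity of the Multibrot set at the points which lie in arbitrarily small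
limbs. -/
theorem lc_at {n : ℕ} (hn : 2 ≤ n) {c : ℂ} (hc : c ∈ MM n) (hs : SmallLimbs n c) {ε : ℝ}
    (hε : 0 < ε) : ∃ S : Set ℂ, S ⊆ MM n ∧ IsPreconnected S ∧ S ∈ 𝓝[MM n] c ∧
      ∀ x ∈ S, ‖x - c‖ ≤ ε := by
  obtain ⟨C, hC, hL⟩ := t_LIMB n hn
  obtain ⟨k, p, q, r, z0, A, hA, hcA, hB⟩ := hs (2 * C / ε)
  obtain ⟨hrM, hbd⟩ := hL k p q r z0 A hA.hk hA.hp hA.hpq hA.cop hA.fix hA.rho hA.sub hA.op hA.cl
    hA.nr hA.n0
  have h0M : (0 : ℂ) ∈ MM n := disc_sub hn (by rw [norm_zero]; exact r0_nonneg hn)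
  have hm1 : 1 ≤ min p (q - p) := by
    have h1 := hA.hp
    have h2 := hA.hpq
    omega
  have hmR : (1 : ℝ) ≤ ((min p (q - p) : ℕ) : ℝ) := by exact_mod_cast hm1
  have hq0 : (0 : ℝ) < q := by
    have h1 := hA.hp
    have h2 := hA.hpq
    have : 0 < q := by omega
    exact_mod_cast this
  have hsmall : ∀ x ∈ A, ‖x - r‖ ≤ ε / 2 := by
    intro x hx
    have h1 := hbd x hx
    have h2 : C * k ^ 2 * q ≤ ε / 2 * ((min p (q - p) : ℕ) : ℝ) ^ 2 := by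
      have h3 : ε / 2 * (2 * C / ε * q * k ^ 2) ≤ ε / 2 * ((min p (q - p) : ℕ) : ℝ) ^ 2 :=
        mul_le_mul_of_nonneg_left hB (by positivity)
      have h4 : ε / 2 * (2 * C / ε * q * k ^ 2) = C * k ^ 2 * q := by
        field_simp
      linarith
    have h5 : ‖x - r‖ * ((min p (q - p) : ℕ) : ℝ) ^ 2 ≤
        ε / 2 * ((min p (q - p) : ℕ) : ℝ) ^ 2 := h1.trans h2
    exact le_of_mul_le_mul_right h5 (by positivity)
  refine ⟨insert r A, ?_, ?_, ?_, ?_⟩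
  · intro x hx
    rcases hx with rfl | hx
    · exact hrM
    · exact hA.sub hx
  · exact p_CIK (MM n) A r 0 (MM_closed n) (MM_connected hn) hA.sub hrM hA.op hA.cl hA.nr h0M hA.n0
  · obtain ⟨U, hU, hAU⟩ := hA.op
    have hcU : c ∈ U := by
      rw [hAU] at hcA
      exact hcA.2
    rw [mem_nhdsWithin]
    refine ⟨U, hU, hcU, ?_⟩
    intro x hx
    right
    rw [hAU]
    exact ⟨hx.2, hx.1⟩
  · intro x hx
    have hcr := hsmall c hcA
    rcases hx with rfl | hx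
    · rw [norm_sub_rev]
      linarith
    · have hxr := hsmall x hx
      calc ‖x - c‖ = ‖(x - r) - (c - r)‖ := by congr 1; ring
        _ ≤ ‖x - r‖ + ‖c - r‖ := norm_sub_le _ _
        _ ≤ ε := by linarith

end Pool.Agent.PLim
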